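import Pool.Agent.Lib.PS.Blue

/-! Block SING2: removing the primes of `r` from the truncated singular series. -/

namespace Pool.Agent.Lib.PS

open Finset Real
open scoped NumberTheorySymbols ArithmeticFunction.Moebius Classical

lemma sing2_pow_omega (a ε : ℝ) (ha : 1 ≤ a) (hε : 0 < ε) :
    ∃ C : ℝ, 1 ≤ C ∧ ∀ r : ℕ, 0 < r → a ^ r.primeFactors.card ≤ C * (r : ℝ) ^ ε := by
  obtain ⟨K, hK⟩ := exists_nat_ge (a ^ (1 / ε))
  refine ⟨a ^ K, one_le_pow₀ ha, fun r hr => ?_⟩
  have h1 : ∀ p ∈ r.primeFactors, a ≤ (if p < K then a else 1) * (p : ℝ) ^ ε := by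
    intro p hp
    have hp1 : (1 : ℝ) ≤ p := by exact_mod_cast (Nat.prime_of_mem_primeFactors hp).pos
    split_ifs with h
    · exact le_mul_of_one_le_right (by linarith) (Real.one_le_rpow hp1 hε.le)
    · rw [one_mul]
      have h2 : a ^ (1 / ε) ≤ p := hK.trans (by exact_mod_cast not_lt.1 h)
      calc a = (a ^ (1 / ε)) ^ ε := by
            rw [← Real.rpow_mul (by linarith), one_div_mul_cancel hε.ne', Real.rpow_one]
        _ ≤ (p : ℝ) ^ ε := Real.rpow_le_rpow (by positivity) h2 hε.le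
  calc a ^ r.primeFactors.card = ∏ _p ∈ r.primeFactors, a := by rw [prod_const]
    _ ≤ ∏ p ∈ r.primeFactors, ((if p < K then a else 1) * (p : ℝ) ^ ε) :=
        prod_le_prod (fun _ _ => by linarith) h1
    _ = (∏ p ∈ r.primeFactors, (if p < K then a else 1)) *
          ((∏ p ∈ r.primeFactors, p : ℕ) : ℝ) ^ ε := by
        rw [prod_mul_distrib, Nat.cast_prod, Real.finsetProd_rpow _ _ (fun _ _ => by positivity)]
    _ ≤ a ^ K * (r : ℝ) ^ ε := by
        refine mul_le_mul ?_ (Real.rpow_le_rpow (by positivity) ?_ hε.le) (by positivity)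
          (by positivity)
        · rw [← prod_filter, prod_const]
          refine pow_le_pow_right₀ ha ?_
          calc (r.primeFactors.filter fun p => p < K).card ≤ (range K).card :=
                card_le_card fun p hp => mem_range.2 (mem_filter.1 hp).2
            _ = K := card_range K
        · exact_mod_cast Nat.le_of_dvd hr (Nat.prod_primeFactors_dvd r)

lemma sing2_abs_fn (n d : ℕ) : |fn n d| ≤ 1 / (d.totient : ℝ) := by
  unfold fn
  split_ifs
  · rw [abs_div, abs_mul, Nat.abs_cast]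
    refine div_le_div_of_nonneg_right ?_ (by positivity)
    have h1 : |(μ d : ℝ)| ≤ 1 := by exact_mod_cast ArithmeticFunction.abs_moebius_le_one
    have h2 : |(J((n : ℤ) | d) : ℝ)| ≤ 1 := by
      rcases jacobiSym.trichotomy (n : ℤ) d with h | h | h <;> rw [h] <;> simp
    exact mul_le_one₀ h1 (abs_nonneg _) h2
  · rw [abs_zero]
    positivity

lemma sing2_inv_totient (d : ℕ) (hd : 0 < d) :
    1 / (d.totient : ℝ) ≤ 2 ^ d.primeFactors.card / d := by
  have h1 : (d.totient : ℚ) = d * ∏ p ∈ d.primeFactors, (1 - (p : ℚ)⁻¹) :=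
    Nat.totient_eq_mul_prod_factors d
  have h2 : (d.totient : ℝ) = d * ∏ p ∈ d.primeFactors, (1 - (p : ℝ)⁻¹) := by
    have h4 := congrArg (Rat.cast : ℚ → ℝ) h1
    push_cast at h4
    exact h4
  have h3 : (1 / 2 : ℝ) ^ d.primeFactors.card ≤ ∏ p ∈ d.primeFactors, (1 - (p : ℝ)⁻¹) := by
    rw [← prod_const]
    refine prod_le_prod (fun _ _ => by norm_num) fun p hp => ?_
    have : (2 : ℝ) ≤ p := by exact_mod_cast (Nat.prime_of_mem_primeFactors hp).two_le
    have : (p : ℝ)⁻¹ ≤ 2⁻¹ := inv_anti₀ (by norm_num) this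
    linarith
  have hd' : (0 : ℝ) < d := by exact_mod_cast hd
  have ht : (0 : ℝ) < d.totient := by exact_mod_cast Nat.totient_pos.2 hd
  rw [div_le_div_iff₀ ht hd', one_mul, h2]
  calc (d : ℝ) = 2 ^ d.primeFactors.card * (d * (1 / 2) ^ d.primeFactors.card) := by
        rw [mul_left_comm, ← mul_pow]
        norm_num
    _ ≤ _ := by gcongr

lemma sing2_sum_abs (ε : ℝ) (hε : 0 < ε) :
    ∃ C : ℝ, 1 ≤ C ∧ ∀ n y : ℕ, ∑ d ∈ Icc 1 y, |fn n d| ≤ C * ((y : ℝ) + 1) ^ ε := by
  obtain ⟨C, hC, h⟩ := sing2_pow_omega 2 (ε / 2) (by norm_num) (by linarith)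
  refine ⟨C * (1 + 2 / ε), one_le_mul_of_one_le_of_one_le hC (le_add_of_nonneg_right
    (by positivity)), fun n y => ?_⟩
  have hy : (1 : ℝ) ≤ (y : ℝ) + 1 := le_add_of_nonneg_left (by positivity)
  have h1 : ∑ d ∈ Icc 1 y, |fn n d| ≤ C * ((y : ℝ) + 1) ^ (ε / 2) * ∑ d ∈ Icc 1 y, (d : ℝ)⁻¹ := by
    rw [mul_sum]
    refine sum_le_sum fun d hd => ?_
    obtain ⟨hd1, hd2⟩ := mem_Icc.1 hd
    refine (sing2_abs_fn n d).trans ((sing2_inv_totient d hd1).trans ?_)
    rw [div_eq_mul_inv]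
    refine mul_le_mul_of_nonneg_right ((h d hd1).trans ?_) (by positivity)
    have : (d : ℝ) ≤ (y : ℝ) + 1 := by exact_mod_cast Nat.le_succ_of_le hd2
    gcongr
  have h2 : ∑ d ∈ Icc 1 y, (d : ℝ)⁻¹ ≤ 1 + Real.log y := by
    have := harmonic_le_one_add_log y
    rw [harmonic_eq_sum_Icc] at this
    push_cast at this
    exact this
  have h3 : Real.log y ≤ ((y : ℝ) + 1) ^ (ε / 2) / (ε / 2) :=
    (Real.log_le_rpow_div (by positivity) (half_pos hε)).trans (by gcongr; linarith)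
  have h4 : 1 ≤ ((y : ℝ) + 1) ^ (ε / 2) := Real.one_le_rpow hy (by linarith)
  have h5 : ∑ d ∈ Icc 1 y, (d : ℝ)⁻¹ ≤ (1 + 2 / ε) * ((y : ℝ) + 1) ^ (ε / 2) := by
    have : ((y : ℝ) + 1) ^ (ε / 2) / (ε / 2) = 2 / ε * ((y : ℝ) + 1) ^ (ε / 2) := by
      field_simp
    rw [add_mul, one_mul]
    linarith
  calc ∑ d ∈ Icc 1 y, |fn n d|
      ≤ C * ((y : ℝ) + 1) ^ (ε / 2) * ((1 + 2 / ε) * ((y : ℝ) + 1) ^ (ε / 2)) :=
        h1.trans (mul_le_mul_of_nonneg_left h5 (by positivity))
    _ = C * (1 + 2 / ε) * (((y : ℝ) + 1) ^ (ε / 2) * ((y : ℝ) + 1) ^ (ε / 2)) := by ring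
    _ = _ := by rw [← Real.rpow_add (by linarith), add_halves]

lemma sing2_fn_mul (n p d : ℕ) (hp : p.Prime) (hd : 0 < d) :
    fn n (p * d) = if p ∣ d then 0 else fn n p * fn n d := by
  split_ifs with h
  · have : μ (p * d) = 0 := ArithmeticFunction.moebius_eq_zero_of_not_squarefree fun hs =>
      hp.one_lt.ne' (Nat.isUnit_iff.1 (hs p (mul_dvd_mul_left p h)))
    simp [fn, this]
  · have hc : Nat.Coprime p d := (Nat.Prime.coprime_iff_not_dvd hp).2 h
    have : NeZero p := ⟨hp.ne_zero⟩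
    have : NeZero d := ⟨hd.ne'⟩
    unfold fn
    by_cases h1 : Odd p
    · by_cases h2 : Odd d
      · rw [if_pos (h1.mul h2), if_pos h1, if_pos h2, jacobiSym.mul_right,
          ArithmeticFunction.isMultiplicative_moebius.map_mul_of_coprime hc, Nat.totient_mul hc]
        push_cast
        rw [div_mul_div_comm]
        ring
      · rw [if_neg fun h3 => h2 (Nat.odd_mul.1 h3).2, if_neg h2, mul_zero]
    · rw [if_neg fun h3 => h1 (Nat.odd_mul.1 h3).1, if_neg h1, zero_mul]

lemma sing2_fn_prime (n p : ℕ) (hp : p.Prime) : |fn n p| * √(p : ℝ) ≤ 7 / 8 := by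
  rcases hp.eq_two_or_odd' with rfl | hodd
  · have : fn n 2 = 0 := by simp [fn]
    rw [this]
    norm_num
  · have h3 : 3 ≤ p := by
      have := hp.two_le
      rcases hodd with ⟨k, rfl⟩
      omega
    have h3' : (3 : ℝ) ≤ p := by exact_mod_cast h3
    have h1 := sing2_abs_fn n p
    rw [Nat.totient_prime hp, Nat.cast_sub hp.one_le, Nat.cast_one] at h1
    have h2 : √(p : ℝ) ≤ 7 / 8 * (p - 1) := by
      rw [Real.sqrt_le_left (by linarith)]
      nlinarith
    calc |fn n p| * √(p : ℝ) ≤ 1 / ((p : ℝ) - 1) * (7 / 8 * (p - 1)) :=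
          mul_le_mul h1 h2 (by positivity) (div_nonneg zero_le_one (by linarith))
      _ = 7 / 8 := by
          have : (p : ℝ) - 1 ≠ 0 := by linarith
          field_simp

lemma sing2_fn_prime' (n p : ℕ) (hp : p.Prime) : |fn n p| ≤ 7 / 8 := by
  have h1 : 1 ≤ √(p : ℝ) := Real.one_le_sqrt.2 (by exact_mod_cast hp.pos)
  exact (le_mul_of_one_le_right (abs_nonneg _) h1).trans (sing2_fn_prime n p hp)

/-- the sum over integers free of the primes in `P` -/
noncomputable def sing2T (n : ℕ) (P : Finset ℕ) (y : ℕ) : ℝ :=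
  ∑ d ∈ Icc 1 y, if ∀ q ∈ P, ¬ q ∣ d then fn n d else 0

lemma sing2_sum_dvd (g : ℕ → ℝ) (p y : ℕ) (hp : 0 < p) :
    ∑ d ∈ Icc 1 y, (if p ∣ d then g d else 0) = ∑ d ∈ Icc 1 (y / p), g (p * d) := by
  rw [← sum_filter]
  symm
  refine sum_bij (fun d _ => p * d) ?_ ?_ ?_ (fun _ _ => rfl)
  · intro d hd
    obtain ⟨h1, h2⟩ := mem_Icc.1 hd
    refine mem_filter.2 ⟨mem_Icc.2 ⟨Nat.mul_pos hp h1, ?_⟩, dvd_mul_right _ _⟩
    rw [mul_comm]
    exact (Nat.le_div_iff_mul_le hp).1 h2
  · intro a _ b _ h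
    exact Nat.eq_of_mul_eq_mul_left hp h
  · intro d hd
    obtain ⟨h1, c, rfl⟩ := mem_filter.1 hd
    obtain ⟨h2, h3⟩ := mem_Icc.1 h1
    refine ⟨c, mem_Icc.2 ⟨Nat.pos_of_mul_pos_left h2, (Nat.le_div_iff_mul_le hp).2 ?_⟩, rfl⟩
    rwa [mul_comm]

lemma sing2_rec (n p : ℕ) (P : Finset ℕ) (hp : p.Prime) (hP : ∀ q ∈ P, q.Prime) (hpP : p ∉ P)
    (y : ℕ) :
    sing2T n (insert p P) y = sing2T n P y - fn n p * sing2T n (insert p P) (y / p) := by
  have h1 : fn n p * sing2T n (insert p P) (y / p) =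
      ∑ d ∈ Icc 1 y, (if p ∣ d then (if ∀ q ∈ P, ¬ q ∣ d then fn n d else 0) else 0) := by
    rw [sing2_sum_dvd _ p y hp.pos, sing2T, mul_sum]
    refine sum_congr rfl fun d hd => ?_
    have h2 : (∀ q ∈ P, ¬ q ∣ p * d) ↔ ∀ q ∈ P, ¬ q ∣ d := by
      refine forall₂_congr fun q hq => not_congr ⟨fun h => ?_, fun h => h.mul_left p⟩
      refine ((hP q hq).dvd_mul.1 h).resolve_left fun h3 => hpP ?_
      rwa [← (Nat.prime_dvd_prime_iff_eq (hP q hq) hp).1 h3]
    rw [sing2_fn_mul n p d hp (mem_Icc.1 hd).1]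
    simp only [forall_mem_insert, h2]
    by_cases h3 : p ∣ d <;> by_cases h4 : ∀ q ∈ P, ¬ q ∣ d <;> simp [h3, h4]
  rw [h1, sing2T, sing2T, ← sum_sub_distrib]
  refine sum_congr rfl fun d _ => ?_
  simp only [forall_mem_insert]
  by_cases h3 : p ∣ d <;> by_cases h4 : ∀ q ∈ P, ¬ q ∣ d <;> simp [h3, h4]

lemma sing2_prod_pos (n : ℕ) (P : Finset ℕ) (hP : ∀ q ∈ P, q.Prime) :
    0 < ∏ q ∈ P, (1 + fn n q) :=
  prod_pos fun q hq => by
    have := (abs_le.1 (sing2_fn_prime' n q (hP q hq))).1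
    linarith

lemma sing2_main (n y : ℕ) (S τ κ : ℝ) (hτ : 0 ≤ τ) (hκ : 0 ≤ κ)
    (h : ∀ e : ℕ, 1 ≤ e → |S0 n (y / e) - S| ≤ τ + κ * √(e : ℝ)) (P : Finset ℕ)
    (hP : ∀ q ∈ P, q.Prime) : ∀ e : ℕ, 1 ≤ e →
      |sing2T n P (y / e) - S / ∏ q ∈ P, (1 + fn n q)| ≤ 8 ^ P.card * (τ + κ * √(e : ℝ)) := by
  induction P using Finset.induction_on with
  | empty =>
    intro e he
    simpa [sing2T, S0] using h e he
  | insert p P hpP ih =>
    have hp : p.Prime := hP p (mem_insert_self _ _)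
    have hP' : ∀ q ∈ P, q.Prime := fun q hq => hP q (mem_insert_of_mem hq)
    have ih := ih hP'
    have hf := sing2_fn_prime n p hp
    have hf' := sing2_fn_prime' n p hp
    have hL := sing2_prod_pos n P hP'
    have hf1 : 0 < 1 + fn n p := by
      have := (abs_le.1 hf').1
      linarith
    rw [prod_insert hpP, card_insert_of_notMem hpP]
    set L := ∏ q ∈ P, (1 + fn n q)
    set f := fn n p with hfdef
    let U : ℕ → ℝ := fun k => sing2T n (insert p P) k - S / ((1 + f) * L)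
    have hU : ∀ k, U k = (sing2T n P k - S / L) - f * U (k / p) := fun k => by
      simp only [U]
      rw [sing2_rec n p P hp hP' hpP k, ← hfdef]
      field_simp
      ring
    have key : ∀ k e : ℕ, 1 ≤ e → y / e = k →
        |U k| ≤ 8 ^ (P.card + 1) * (τ + κ * √(e : ℝ)) := by
      intro k
      induction k using Nat.strong_induction_on with
      | _ k ihk =>
        intro e he hk
        have h1 := ih e he
        rw [hk] at h1
        have h2 : |U k| ≤ 8 ^ P.card * (τ + κ * √(e : ℝ)) + |f| * |U (k / p)| := by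
          rw [hU k, ← abs_mul]
          exact (abs_sub _ _).trans (add_le_add h1 le_rfl)
        have h8 : (0 : ℝ) < 8 ^ P.card := by positivity
        have hs : 0 ≤ κ * √(e : ℝ) := by positivity
        rcases Nat.eq_zero_or_pos k with rfl | hk0
        · rw [Nat.zero_div] at h2
          have h3 : |f| * |U 0| ≤ 7 / 8 * |U 0| := mul_le_mul_of_nonneg_right hf' (abs_nonneg _)
          rw [pow_succ]
          linarith
        · have h3 := ihk (k / p) (Nat.div_lt_self hk0 hp.one_lt) (e * p) (Nat.mul_pos he hp.pos)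
            (by rw [← Nat.div_div_eq_div_mul, hk])
          rw [Nat.cast_mul, Real.sqrt_mul (by positivity)] at h3
          have h4 : |f| * |U (k / p)| ≤ 8 ^ (P.card + 1) * (7 / 8 * (τ + κ * √(e : ℝ))) := by
            refine (mul_le_mul_of_nonneg_left h3 (abs_nonneg _)).trans ?_
            rw [mul_left_comm]
            refine mul_le_mul_of_nonneg_left ?_ (by positivity)
            have h5 := mul_le_mul_of_nonneg_right hf' hτ
            have h6 := mul_le_mul_of_nonneg_right hf hs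
            nlinarith
          rw [pow_succ] at h4 ⊢
          linarith
    intro e he
    exact key _ e he rfl

lemma sing2_Sr_eq (r n y : ℕ) (hr : 0 < r) : Sr r n y = sing2T n r.primeFactors y := by
  rw [Sr, sing2T, sum_filter]
  refine sum_congr rfl fun d _ => if_congr ?_ rfl rfl
  constructor
  · intro h q hq hd
    exact (Nat.prime_of_mem_primeFactors hq).one_lt.ne'
      (Nat.eq_one_of_dvd_coprimes h hd (Nat.dvd_of_mem_primeFactors hq))
  · intro h
    exact Nat.coprime_of_dvd fun q hq hd hr' => h q (Nat.mem_primeFactors.2 ⟨hq, hr', hr.ne'⟩) hd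

theorem blk_SING2 : St_SING2 := by
  intro ε hε
  obtain ⟨C1, hC1, h1⟩ := sing2_pow_omega 8 ε (by norm_num) hε
  obtain ⟨C2, hC2, h2⟩ := sing2_sum_abs ε hε
  refine ⟨C1 * C2, by positivity, fun r n hr => ⟨⟨?_, ?_⟩, fun y => ?_, ?_⟩⟩
  · exact sing2_prod_pos n _ fun q hq => Nat.prime_of_mem_primeFactors hq
  · have h3 : loc r n ≤ 8 ^ r.primeFactors.card := by
      rw [loc, ← prod_const]
      refine prod_le_prod (fun q hq => ?_) fun q hq => ?_
      · have := (abs_le.1 (sing2_fn_prime' n q (Nat.prime_of_mem_primeFactors hq))).1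
        linarith
      · have := (abs_le.1 (sing2_fn_prime' n q (Nat.prime_of_mem_primeFactors hq))).2
        linarith
    refine h3.trans ((h1 r hr).trans (mul_le_mul_of_nonneg_right ?_ (by positivity)))
    exact le_mul_of_one_le_right (by linarith) hC2
  · refine (abs_sum_le_sum_abs _ _).trans ((sum_le_sum_of_subset_of_nonneg (filter_subset _ _)
      fun _ _ _ => abs_nonneg _).trans ((h2 n y).trans
        (mul_le_mul_of_nonneg_right ?_ (by positivity))))
    exact le_mul_of_one_le_left (by linarith) hC1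
  · intro y z S τ hz h
    have hτ : 0 ≤ τ := (abs_nonneg _).trans (h 1 le_rfl hz)
    have hz' : (0 : ℝ) < z := by exact_mod_cast hz
    have hsz : 0 < √(z : ℝ) := Real.sqrt_pos.2 hz'
    set M := ((y : ℝ) + 1) ^ ε + |S| with hM
    have hM0 : 0 ≤ M := by positivity
    have h3 := sing2_main n y S τ (C2 * (M / √(z : ℝ))) hτ (by positivity) (fun e he => by
      rcases le_or_gt e z with hez | hez
      · exact (h e he hez).trans (le_add_of_nonneg_right (by positivity))
      · have h4 : |S0 n (y / e)| ≤ C2 * ((y : ℝ) + 1) ^ ε := by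
          refine (abs_sum_le_sum_abs _ _).trans ((sum_le_sum_of_subset_of_nonneg
            (Icc_subset_Icc_right (Nat.div_le_self _ _)) fun _ _ _ => abs_nonneg _).trans (h2 n y))
        have h5 : |S0 n (y / e) - S| ≤ C2 * M := by
          have h6 : |S| ≤ C2 * |S| := le_mul_of_one_le_left (abs_nonneg _) hC2
          rw [hM, mul_add]
          exact (abs_sub _ _).trans (add_le_add h4 h6)
        have h7 : √(z : ℝ) ≤ √(e : ℝ) := Real.sqrt_le_sqrt (by exact_mod_cast hez.le)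
        have h8 : C2 * M ≤ C2 * (M / √(z : ℝ)) * √(e : ℝ) := by
          calc C2 * M = C2 * (M / √(z : ℝ)) * √(z : ℝ) := by field_simp
            _ ≤ _ := by gcongr
        linarith) r.primeFactors (fun q hq => Nat.prime_of_mem_primeFactors hq) 1 le_rfl
    rw [Nat.div_one, ← sing2_Sr_eq r n y hr, Nat.cast_one, Real.sqrt_one, mul_one] at h3
    refine h3.trans ?_
    have h9 : τ + C2 * (M / √(z : ℝ)) ≤ C2 * (τ + M / √(z : ℝ)) := by
      rw [mul_add]
      exact add_le_add (le_mul_of_one_le_left hτ hC2) le_rfl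
    calc (8 : ℝ) ^ r.primeFactors.card * (τ + C2 * (M / √(z : ℝ)))
        ≤ C1 * (r : ℝ) ^ ε * (C2 * (τ + M / √(z : ℝ))) :=
          mul_le_mul (h1 r hr) h9 (by positivity) (by positivity)
      _ = _ := by ring

end Pool.Agent.Lib.PS
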