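import Pool.Agent.Lib.PS.Blue
import Pool.Agent.Lib.MP_fb430f_co.Circle

/-!
The number of characters with a zero near one.
-/

namespace Pool.Agent.Lib.PS

open Finset Real
open scoped Classical ComplexConjugate

lemma badc_tau {ε : ℝ} (hε : 0 < ε) : ∃ C : ℝ, 0 < C ∧ ∀ n : ℕ, 0 < n →
    (n.divisors.card : ℝ) ≤ C * (n : ℝ) ^ ε := by
  obtain ⟨C, hC, h⟩ := Pool.Agent.Lib.MP_fb430f_co.div_bound hε
  refine ⟨C, hC, fun n hn => le_trans ?_ (h n hn.ne')⟩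
  rw [Nat.card_divisors hn.ne']
  exact_mod_cast Finset.prod_le_prod' fun p _ => by omega

lemma badc_num (W : ℕ) (hW : 0 < W) : ∃ l0 : ℝ, ∀ l : ℝ, l0 ≤ l → ∀ q : ℕ, 0 < q →
    (q : ℝ) ≤ (W : ℝ) ^ 2 * Real.exp (4 * l) →
    2 * (q.divisors.card : ℝ) * √(q : ℝ) * (1 + Real.log q) ≤ Real.exp (12 / 5 * l) := by
  obtain ⟨C, hC, h⟩ := badc_tau (ε := 1 / 40) (by norm_num)
  have hW1 : (1 : ℝ) ≤ W := by exact_mod_cast hW
  refine ⟨5 * Real.log (82 * C * (W : ℝ) ^ 2), fun l hl q hq hqW => ?_⟩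
  have hq1 : (1 : ℝ) ≤ q := by exact_mod_cast hq
  have hq0 : (0 : ℝ) < q := by linarith
  have h1 := h q hq
  have h2 : 1 + Real.log q ≤ 41 * (q : ℝ) ^ (1 / 40 : ℝ) := by
    have a := Real.log_le_rpow_div hq0.le (show (0 : ℝ) < 1 / 40 by norm_num)
    have b : (1 : ℝ) ≤ (q : ℝ) ^ (1 / 40 : ℝ) := Real.one_le_rpow hq1 (by norm_num)
    linarith
  have h3 : (q : ℝ) ^ (11 / 20 : ℝ) ≤ ((W : ℝ) ^ 2) ^ (11 / 20 : ℝ) * Real.exp (11 / 5 * l) := by
    calc _ ≤ ((W : ℝ) ^ 2 * Real.exp (4 * l)) ^ (11 / 20 : ℝ) := by gcongr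
      _ = _ := by
        rw [Real.mul_rpow (by positivity) (by positivity), ← Real.exp_mul]
        congr 2
        ring
  have h4 : ((W : ℝ) ^ 2) ^ (11 / 20 : ℝ) ≤ (W : ℝ) ^ 2 :=
    Real.rpow_le_self_of_one_le (one_le_pow₀ hW1) (by norm_num)
  have h5 : 82 * C * (W : ℝ) ^ 2 ≤ Real.exp (1 / 5 * l) := by
    rw [← Real.exp_log (show 0 < 82 * C * (W : ℝ) ^ 2 by positivity), Real.exp_le_exp]
    linarith
  have h6 : (q : ℝ) ^ (11 / 20 : ℝ) =
      (q : ℝ) ^ (1 / 40 : ℝ) * √(q : ℝ) * (q : ℝ) ^ (1 / 40 : ℝ) := by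
    rw [Real.sqrt_eq_rpow, ← Real.rpow_add hq0, ← Real.rpow_add hq0]
    norm_num
  have h7 : 0 ≤ 1 + Real.log q := by linarith [Real.log_nonneg hq1]
  calc _ ≤ 2 * (C * (q : ℝ) ^ (1 / 40 : ℝ)) * √(q : ℝ) * (41 * (q : ℝ) ^ (1 / 40 : ℝ)) := by
        gcongr
    _ = 82 * C * (q : ℝ) ^ (11 / 20 : ℝ) := by rw [h6]; ring
    _ ≤ 82 * C * ((W : ℝ) ^ 2 * Real.exp (11 / 5 * l)) := by
        gcongr
        exact h3.trans (by gcongr)
    _ = 82 * C * (W : ℝ) ^ 2 * Real.exp (11 / 5 * l) := by ring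
    _ ≤ Real.exp (1 / 5 * l) * Real.exp (11 / 5 * l) := by gcongr
    _ = _ := by rw [← Real.exp_add]; congr 1; ring

lemma badc_eq {a b : ℂ} (ha : ‖a‖ ≤ 1) (hb : ‖b‖ ≤ 1) (h : a * conj b = 1) : a = b := by
  have h1 : ‖a‖ * ‖b‖ = 1 := by simpa using congrArg norm h
  have h2 : ‖b‖ = 1 := by nlinarith [norm_nonneg a, norm_nonneg b]
  have h3 : conj b * b = 1 := by rw [Complex.conj_mul', h2]; simp
  calc a = a * (conj b * b) := by rw [h3, mul_one]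
    _ = b := by rw [← mul_assoc, h, one_mul]

theorem blk_BADC (hPB : St_PB) (hPV : St_PV) (hC : St_CANC) (hL : St_LDX) (hD : St_DC) :
    St_BADC := by
  obtain ⟨-, p2, -, p4, p5, -, -, -, -, -, p11, p12, p13, -, -⟩ := hPB
  intro W T hW
  obtain ⟨C, e1, l1, hC0, he1, hdc⟩ := hD (1 / 2) (12 / 5) 5 (by norm_num) le_rfl (by norm_num)
    (by norm_num)
  obtain ⟨l2, h2⟩ := badc_num W hW
  obtain ⟨l3, h3⟩ := hL.1 (1 / 2) 1 (by norm_num) le_rfl one_pos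
  refine ⟨C, e1, hC0, he1, fun e2 he2 he21 => ⟨max (max l1 l2) (max l3 (max T 0)), ?_⟩⟩
  intro l hl Q hQ
  simp only [max_le_iff] at hl
  obtain ⟨⟨hl1, hl2⟩, hl3, hlT, hl0⟩ := hl
  have hW1 : (1 : ℝ) ≤ W := by exact_mod_cast hW
  have canc : ∀ q ψ, IsChar q ψ → NonPr q ψ → (q : ℝ) ≤ (W : ℝ) ^ 2 * Real.exp (4 * l) →
      Canc ψ (1 / 2) (Real.exp (12 / 5 * l)) := by
    intro q ψ hψ hn hq
    refine hC.2.1 ψ _ hψ.2.1 (Real.exp_pos _).le fun y => ?_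
    have := hPV q ψ hψ hn 0 y
    rw [zero_add] at this
    exact le_trans (le_of_eq (by rw [psum]; rfl)) (this.trans (h2 l hl2 q hψ.1 hq))
  have mem : ∀ x ∈ Bad Q W T e2, 2 ≤ x.1 ∧ (x.1 : ℝ) ≤ Real.exp (2 * l) ∧ x.2 ∈ prim x.1 := by
    intro x hx
    obtain ⟨h1, h2⟩ := mem_sigma.1 (mem_filter.1 hx).1
    exact ⟨(mem_Icc.1 h1).1, le_trans (by exact_mod_cast (mem_Icc.1 h1).2) hQ, h2⟩
  have e4 : Real.exp (2 * l) * Real.exp (2 * l) = Real.exp (4 * l) := by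
    rw [← Real.exp_add]; congr 1; ring
  have e5 : 1 ≤ Real.exp (2 * l) := Real.one_le_exp (by linarith)
  have zz : ∀ x : XX, ∃ ρ : ℂ, x ∈ Bad Q W T e2 →
      1 - e2 ≤ ρ.re ∧ |ρ.im| ≤ T ∧ LL (tw W x.2) ρ = 0 := by
    intro x
    by_cases hx : x ∈ Bad Q W T e2
    · obtain ⟨ρ, h⟩ := (mem_filter.1 hx).2
      exact ⟨ρ, fun _ => h⟩
    · exact ⟨0, fun h => absurd h hx⟩
  choose ρ hρ using zz
  have key := hdc l hl1 XX (Bad Q W T e2) (fun x => tw W x.2) ρ ?_ ?_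
  · have low : ∑ _x ∈ Bad Q W T e2, Real.exp (-(10 * e2 * l)) ≤
        ∑ x ∈ Bad Q W T e2, Real.exp (-(2 * 5 * ((1 - (ρ x).re) * l))) := by
      refine Finset.sum_le_sum fun x hx => Real.exp_le_exp.2 ?_
      have := (hρ x hx).1
      nlinarith
    rw [Finset.sum_const, nsmul_eq_mul, Real.exp_neg] at low
    have := low.trans key
    rwa [← div_eq_mul_inv, div_le_iff₀ (Real.exp_pos _)] at this
  · intro x hx
    obtain ⟨m1, m2, m3⟩ := mem x hx
    obtain ⟨z1, z2, z3⟩ := hρ x hx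
    have ch := p13 _ W _ hW (p2 _ _ (by omega) m3)
    have np : NonPr (x.1 * W) (tw W x.2) := by
      by_contra hn
      have := (p5 x.1 1 x.2 (fun _ => 1) W (by omega) one_pos hW m3 (by rw [p4]; simp) ?_).1
      · omega
      · intro k hk
        rw [mul_one] at hk
        by_contra h
        refine hn ⟨k, hk, ?_⟩
        rwa [tw, if_pos (Nat.Coprime.coprime_mul_left_right hk)]
    have cc := canc _ _ ch np (by
      push_cast
      rw [← e4]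
      calc (x.1 : ℝ) * W ≤ Real.exp (2 * l) * W := by gcongr
        _ = W * 1 * (Real.exp (2 * l) * 1) := by ring
        _ ≤ W * W * (Real.exp (2 * l) * Real.exp (2 * l)) := by gcongr
        _ = _ := by ring)
    refine ⟨ch.2.1, cc, z3, by linarith, ?_, z2.trans hlT⟩
    by_contra hre
    exact ((h3 l hl3 _ _ ch.2.1 (by norm_num) (by norm_num) cc).ser _ (not_le.1 hre)).1 z3
  · intro x hx y hy hxy
    obtain ⟨m1, m2, m3⟩ := mem x hx
    obtain ⟨n1, n2, n3⟩ := mem y hy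
    have cx := p2 _ _ (by omega) m3
    have cy := p2 _ _ (by omega) n3
    have ch := p11 _ _ _ _ (p13 _ W _ hW cx) (p12 _ _ (p13 _ W _ hW cy))
    refine canc _ _ ch ?_ ?_
    · by_contra hn
      have := p5 x.1 y.1 x.2 y.2 W (by omega) (by omega) hW m3 n3 ?_
      · exact hxy (Sigma.ext this.1 (heq_of_eq this.2))
      · intro k hk
        have k1 : Nat.Coprime k W := Nat.Coprime.coprime_mul_left_right hk
        have k2 : Nat.Coprime k (x.1 * y.1) := Nat.Coprime.coprime_mul_right_right hk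
        have k3 : Nat.Coprime k (x.1 * W * (y.1 * W)) :=
          Nat.Coprime.mul_right (Nat.Coprime.mul_right (Nat.Coprime.coprime_mul_right_right k2) k1)
            (Nat.Coprime.mul_right (Nat.Coprime.coprime_mul_left_right k2) k1)
        apply badc_eq (cx.2.1.2.2 k) (cy.2.1.2.2 k)
        by_contra h
        refine hn ⟨k, k3, ?_⟩
        rwa [Pi.mul_apply, cj, tw, tw, if_pos k1, if_pos k1]
    · push_cast
      rw [← e4]
      calc (x.1 : ℝ) * W * (y.1 * W) ≤ Real.exp (2 * l) * W * (Real.exp (2 * l) * W) := by gcongr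
        _ = _ := by ring

end Pool.Agent.Lib.PS
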