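import Pool.Agent.Lib.PS.Blue

/-!
Pigeonhole choice of a stable box.
-/

namespace Pool.Agent.Lib.PS

open Finset
open scoped Classical

lemma box_stab (Φ : ℕ → ℕ) (B : ℕ) (h : ∀ i, Φ i ≤ B) : ∃ i ≤ B, Φ (i + 1) ≤ Φ i := by
  by_contra hc
  push Not at hc
  have h1 : ∀ i ≤ B + 1, i ≤ Φ i := by
    intro i
    induction i with
    | zero => exact fun _ => Nat.zero_le _
    | succ i ih => exact fun hi => (ih (by omega)).trans_lt (hc i (by omega))
  have := (h1 _ le_rfl).trans (h _)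
  omega

lemma box_mono (Z : Multiset ℂ) {x x' h h' : ℝ} (hx : x ≤ x') (hh : h ≤ h') :
    (Z.filter fun z => z.re ≤ x ∧ |z.im| ≤ h).card ≤
      (Z.filter fun z => z.re ≤ x' ∧ |z.im| ≤ h').card :=
  Multiset.card_le_card (Multiset.monotone_filter_right Z fun _ hz =>
    ⟨hz.1.trans hx, hz.2.trans hh⟩)

theorem blk_BOX : St_BOX := by
  intro N0 Λm ε hε
  refine ⟨N0 * ((⌈Λm / ε⌉₊ + 1) * 3), fun ι J Z H hH hJ hZ => ?_⟩
  let f : ℕ → ι × ℕ → ℕ := fun i y =>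
    min 3 ((Z y.1).filter fun z => z.re ≤ y.2 * ε ∧ |z.im| ≤ 5 ^ i * H).card
  have hf : ∀ i y, f i y ≤ f (i + 1) y := fun i y => min_le_min_left _ (box_mono _ le_rfl
    (mul_le_mul_of_nonneg_right (pow_le_pow_right₀ (by norm_num) i.le_succ) hH))
  obtain ⟨i, hi, h1⟩ := box_stab (fun i => ∑ y ∈ J ×ˢ range (⌈Λm / ε⌉₊ + 1), f i y)
    (N0 * ((⌈Λm / ε⌉₊ + 1) * 3)) fun i => by
      refine (sum_le_card_nsmul _ _ 3 fun y _ => min_le_left _ _).trans ?_
      rw [card_product, card_range, smul_eq_mul, mul_assoc]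
      exact Nat.mul_le_mul_right _ hJ
  have h2 := (sum_eq_sum_iff_of_le fun y _ => hf i y).1
    (le_antisymm (sum_le_sum fun y _ => hf i y) h1)
  refine ⟨i, hi, fun j hj k x hk hx h => ?_⟩
  rcases lt_or_ge x 0 with h0 | h0
  · rw [Multiset.filter_eq_nil.2 fun z hz h3 => absurd ((hZ j hj z hz).trans h3.1) (not_le.2 h0),
      Multiset.card_zero] at h
    exact h.trans (Nat.zero_le _)
  · have h3 := h2 (j, ⌈x / ε⌉₊) (mem_product.2 ⟨hj, mem_range.2 (Nat.lt_succ_of_le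
      (Nat.ceil_mono (div_le_div_of_nonneg_right hx hε.le)))⟩)
    have h4 : x ≤ ⌈x / ε⌉₊ * ε := (div_le_iff₀ hε).1 (Nat.le_ceil _)
    have h5 : ⌈x / ε⌉₊ * ε ≤ x + ε := by
      have := (Nat.ceil_lt_add_one (div_nonneg h0 hε.le)).le
      rwa [div_add_one hε.ne', le_div_iff₀ hε] at this
    have h6 : k ≤ f (i + 1) (j, ⌈x / ε⌉₊) := le_min hk (h.trans (box_mono _ h4 le_rfl))
    rw [← h3] at h6
    exact (h6.trans (min_le_right _ _)).trans (box_mono _ h5 le_rfl)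

end Pool.Agent.Lib.PS
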