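import Pool.Agent.Lib.PS.Blue
import Pool.Agent.Lib.MP_fb430f_co.Circle

namespace Pool.Agent.Lib.PS

open Finset Real
open scoped NumberTheorySymbols Classical

lemma bur2_crt {a b : ℕ} (h : a.Coprime b) (ha : a ≠ 0) (hb : b ≠ 0) (f g : ℕ → ℝ)
    (hf : ∀ x, f (x % a) = f x) (hg : ∀ x, g (x % b) = g x) :
    ∑ x ∈ range (a * b), f x * g x = (∑ x ∈ range a, f x) * ∑ x ∈ range b, g x := by
  rw [sum_mul_sum, ← sum_product']
  refine sum_nbij' (fun x => (x % a, x % b)) (fun y => (Nat.chineseRemainder h y.1 y.2 : ℕ))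
    (fun x _ => ?_) (fun y _ => ?_) (fun x hx => ?_) (fun y hy => ?_) (fun x _ => ?_)
  · simp [Nat.mod_lt _ (Nat.pos_of_ne_zero ha), Nat.mod_lt _ (Nat.pos_of_ne_zero hb)]
  · exact mem_range.mpr (Nat.chineseRemainder_lt_mul h _ _ ha hb)
  · exact ((Nat.chineseRemainder_modEq_unique h (Nat.mod_modEq x a).symm
      (Nat.mod_modEq x b).symm).eq_of_lt_of_lt (mem_range.mp hx)
      (Nat.chineseRemainder_lt_mul h _ _ ha hb)).symm
  · rw [mem_product, mem_range, mem_range] at hy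
    have h1 := (Nat.chineseRemainder h y.1 y.2).2
    exact Prod.ext (Eq.trans h1.1 (Nat.mod_eq_of_lt hy.1)) (Eq.trans h1.2 (Nat.mod_eq_of_lt hy.2))
  · rw [hf, hg]

lemma bur2_abs_J (a : ℤ) (M : ℕ) : |(J(a | M) : ℝ)| ≤ 1 := by
  rcases jacobiSym.trichotomy a M with h | h | h <;> simp [h]

lemma bur2_triv (M : ℕ) (u : ℕ → ℤ) : |∑ x ∈ range M, (J(u x | M) : ℝ)| ≤ M := by
  refine (abs_sum_le_sum_abs _ _).trans ?_
  simpa using sum_le_card_nsmul (range M) _ 1 fun x _ => bur2_abs_J (u x) M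

lemma bur2_per {m : ℕ} (b : Fin m → ℤ) (M x : ℕ) :
    J(∏ j, (((x % M : ℕ) : ℤ) + b j) | M) = J(∏ j, ((x : ℤ) + b j) | M) := by
  apply jacobiSym.mod_left'
  rw [← ZMod.intCast_eq_intCast_iff']
  push_cast
  simp

lemma bur2_J_prod {m : ℕ} (u : Fin m → ℤ) (M : ℕ) : J(∏ j, u j | M) = ∏ j, J(u j | M) := by
  induction (univ : Finset (Fin m)) using Finset.induction_on with
  | empty => simp
  | insert a s ha ih => rw [prod_insert ha, prod_insert ha, jacobiSym.mul_left, ih]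

/-- complete sum, one shift singled out -/
lemma bur2_complete (hS : St_STEP) {m : ℕ} (b : Fin m → ℤ) (i : Fin m) (M : ℕ) :
    Odd M → Squarefree M → |∑ x ∈ range M, (J(∏ j, ((x : ℤ) + b j) | M) : ℝ)| ≤
      (M.divisors.card : ℝ) ^ (8 * m) * √(M : ℝ) *
        ∏ j ∈ univ.erase i, (M.gcd (b i - b j).natAbs : ℝ) := by
  induction M using Nat.recOnPosPrimePosCoprime with
  | zero => intro h; simp at h
  | one => intro _ _; simp
  | prime_pow p n hp hn =>
    intro ho hs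
    obtain rfl := ((Nat.squarefree_pow_iff hp.ne_one hn.ne').mp hs).2
    rw [pow_one] at ho hs ⊢
    have hp2 : p ≠ 2 := by rintro rfl; exact absurd ho (by decide)
    have hc : (p.divisors.card : ℝ) = 2 := by
      rw [hp.divisors, card_pair hp.one_lt.ne]; norm_num
    have h1 : ∀ j, (1 : ℝ) ≤ (p.gcd (b i - b j).natAbs : ℝ) := fun j =>
      Nat.one_le_cast.mpr (Nat.gcd_pos_of_pos_left _ hp.pos)
    have h2 : (8 * m : ℝ) ≤ 2 ^ (8 * m) := by exact_mod_cast (Nat.lt_two_pow_self).le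
    have h3 : (1 : ℝ) ≤ √(p : ℝ) := Real.one_le_sqrt.mpr (Nat.one_le_cast.mpr hp.pos)
    rw [hc]
    by_cases h : ∀ j, j ≠ i → ¬ (p : ℤ) ∣ b i - b j
    · refine (hS p m b hp hp2 ⟨i, h⟩).trans ?_
      refine le_trans (mul_le_mul_of_nonneg_right h2 (sqrt_nonneg _)) ?_
      exact le_mul_of_one_le_right (by positivity) (one_le_prod fun j _ => h1 j)
    · push Not at h
      obtain ⟨j, hj, hd⟩ := h
      refine (bur2_triv p _).trans ?_
      have h4 : p.gcd (b i - b j).natAbs = p := Nat.gcd_eq_left (Int.natCast_dvd.mp hd)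
      have h5 : (p : ℝ) ≤ ∏ j ∈ univ.erase i, (p.gcd (b i - b j).natAbs : ℝ) := by
        rw [← mul_prod_erase _ _ (mem_erase.mpr ⟨hj, mem_univ j⟩), h4]
        exact le_mul_of_one_le_right (by positivity) (one_le_prod fun j _ => h1 j)
      refine h5.trans (le_mul_of_one_le_left (by positivity) ?_)
      exact one_le_mul_of_one_le_of_one_le (one_le_pow₀ (by norm_num)) h3
  | coprime a c ha hc hac iha ihc =>
    intro ho hs
    rw [Nat.odd_mul] at ho
    rw [Nat.squarefree_mul hac] at hs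
    have ha0 : a ≠ 0 := by omega
    have hc0 : c ≠ 0 := by omega
    simp_rw [jacobiSym.mul_right' _ ha0 hc0, Int.cast_mul]
    rw [bur2_crt hac ha0 hc0 (fun x => (J(∏ j, ((x : ℤ) + b j) | a) : ℝ))
      (fun x => (J(∏ j, ((x : ℤ) + b j) | c) : ℝ)) (fun x => by rw [bur2_per])
      (fun x => by rw [bur2_per]), abs_mul]
    refine (mul_le_mul (iha ho.1 hs.1) (ihc ho.2 hs.2) (abs_nonneg _) (by positivity)).trans_eq ?_
    simp_rw [hac.card_divisors_mul, hac.mul_gcd, Nat.cast_mul, prod_mul_distrib, mul_pow,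
      Real.sqrt_mul (Nat.cast_nonneg a)]
    ring

lemma bur2_gcd_sum {M : ℕ} (hM : M ≠ 0) (B : ℕ) :
    ∑ n ∈ Ioc 0 B, M.gcd n ≤ B * M.divisors.card := by
  calc ∑ n ∈ Ioc 0 B, M.gcd n ≤ ∑ n ∈ Ioc 0 B, ∑ d ∈ M.divisors, if d ∣ n then d else 0 := by
        refine sum_le_sum fun n _ => ?_
        have := single_le_sum (f := fun d => if d ∣ n then d else 0) (s := M.divisors)
          (fun _ _ => Nat.zero_le _) (Nat.mem_divisors.mpr ⟨Nat.gcd_dvd_left M n, hM⟩)
        simpa [Nat.gcd_dvd_right] using this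
    _ = ∑ d ∈ M.divisors, d * (B / d) := by
        rw [sum_comm]
        refine sum_congr rfl fun d _ => ?_
        rw [← sum_filter, sum_const, Nat.Ioc_filter_dvd_card_eq_div, smul_eq_mul, mul_comm]
    _ ≤ _ := by
        rw [mul_comm]
        exact sum_le_card_nsmul _ _ B fun d _ => Nat.mul_div_le B d

/-- the weight of a pair of shifts -/
noncomputable def bur2w (M a h : ℕ) : ℝ := if h = a then 0 else (M.gcd ((a : ℤ) - h).natAbs : ℝ)

lemma bur2w_nonneg (M a h : ℕ) : 0 ≤ bur2w M a h := by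
  unfold bur2w; split_ifs <;> positivity

lemma bur2w_sum {M : ℕ} (hM : M ≠ 0) {B a : ℕ} (ha : a ∈ Icc 1 B) :
    ∑ h ∈ Icc 1 B, bur2w M a h ≤ 2 * B * (M.divisors.card : ℝ) := by
  have h0 : ∑ n ∈ Ioc 0 B, (M.gcd n : ℝ) ≤ B * (M.divisors.card : ℝ) := by
    exact_mod_cast bur2_gcd_sum hM B
  rw [mem_Icc] at ha
  have key : ∀ (s : Finset ℕ) (φ : ℕ → ℕ), Set.InjOn φ s → (∀ h ∈ s, φ h ∈ Ioc 0 B) →
      (∀ h ∈ s, bur2w M a h = M.gcd (φ h)) →
      ∑ h ∈ s, bur2w M a h ≤ B * (M.divisors.card : ℝ) := fun s φ h1 h2 h3 => by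
    rw [sum_congr rfl h3, ← sum_image (f := fun n => (M.gcd n : ℝ)) h1]
    exact (sum_le_sum_of_subset_of_nonneg (image_subset_iff.mpr h2)
      fun _ _ _ => by positivity).trans h0
  have h1 := key (Ico 1 a) (fun h => a - h) (fun x hx y hy e => by
    simp only [coe_Ico, Set.mem_Ico] at hx hy e; omega) (fun h hh => by
    rw [mem_Ico] at hh; rw [mem_Ioc]; omega) (fun h hh => by
    rw [mem_Ico] at hh
    rw [bur2w, if_neg hh.2.ne]
    congr 2; omega)
  have h2 := key (Ioc a B) (fun h => h - a) (fun x hx y hy e => by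
    simp only [coe_Ioc, Set.mem_Ioc] at hx hy e; omega) (fun h hh => by
    rw [mem_Ioc] at hh; rw [mem_Ioc]; omega) (fun h hh => by
    rw [mem_Ioc] at hh
    rw [bur2w, if_neg hh.1.ne']
    congr 2; omega)
  have h3 : Icc 1 B = insert a (Ico 1 a ∪ Ioc a B) := by
    ext x; simp only [mem_insert, mem_union, mem_Icc, mem_Ico, mem_Ioc]; omega
  rw [h3, sum_insert (by simp), sum_union (by
    rw [disjoint_left]; intro x h h'; rw [mem_Ico] at h; rw [mem_Ioc] at h'; omega)]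
  rw [bur2w, if_pos rfl]
  linarith

lemma bur2_tuples {M : ℕ} (hM : M ≠ 0) (B : ℕ) {m : ℕ} (i : Fin m) :
    ∑ b ∈ Fintype.piFinset fun _ : Fin m => Icc 1 B, ∏ j ∈ univ.erase i, bur2w M (b i) (b j) ≤
      (2 * B * (M.divisors.card : ℝ)) ^ m := by
  set W : ℕ → Fin m → ℕ → ℝ := fun a j h =>
    if j = i then (if h = a then 1 else 0) else bur2w M a h with hW
  have hW0 : ∀ a j h, 0 ≤ W a j h := fun a j h => by
    simp only [hW]; split_ifs
    exacts [zero_le_one, le_rfl, bur2w_nonneg _ _ _]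
  have ht : (1 : ℝ) ≤ M.divisors.card :=
    Nat.one_le_cast.mpr (card_pos.mpr ⟨1, Nat.one_mem_divisors.mpr hM⟩)
  set c : ℝ := 2 * B * (M.divisors.card : ℝ) with hc
  have hB : (0 : ℝ) ≤ B := Nat.cast_nonneg B
  have hBc : (B : ℝ) ≤ c := by rw [hc]; nlinarith
  calc _ ≤ ∑ b ∈ Fintype.piFinset fun _ : Fin m => Icc 1 B, ∑ a ∈ Icc 1 B, ∏ j, W a j (b j) := by
        refine sum_le_sum fun b hb => ?_
        refine le_trans (le_of_eq ?_) (single_le_sum (f := fun a => ∏ j, W a j (b j))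
          (fun a _ => prod_nonneg fun j _ => hW0 _ _ _) (Fintype.mem_piFinset.mp hb i))
        rw [← mul_prod_erase _ _ (mem_univ i)]
        simp only [hW, if_true, one_mul]
        exact prod_congr rfl fun j hj => by rw [if_neg (mem_erase.mp hj).1]
    _ = ∑ a ∈ Icc 1 B, ∏ j, ∑ h ∈ Icc 1 B, W a j h := by
        rw [sum_comm]
        exact sum_congr rfl fun a _ => (prod_univ_sum _ _).symm
    _ ≤ ∑ a ∈ Icc 1 B, ∏ j ∈ univ.erase i, c := by
        refine sum_le_sum fun a ha => ?_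
        rw [← mul_prod_erase _ _ (mem_univ i)]
        have : ∑ h ∈ Icc 1 B, W a i h = 1 := by simp [hW, mem_Icc.mp ha]
        rw [this, one_mul]
        refine prod_le_prod (fun j _ => sum_nonneg fun h _ => hW0 _ _ _) fun j hj => ?_
        simp only [hW, if_neg (mem_erase.mp hj).1]
        exact bur2w_sum hM ha
    _ ≤ c * ∏ j ∈ univ.erase i, c := by
        rw [sum_const, Nat.card_Icc, nsmul_eq_mul, Nat.add_sub_cancel]
        exact mul_le_mul_of_nonneg_right hBc (prod_nonneg fun _ _ => hB.trans hBc)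
    _ = c ^ m := by
        rw [mul_prod_erase _ (fun _ => c) (mem_univ i), prod_const, card_univ, Fintype.card_fin]

lemma bur2_count (k B : ℕ) (hB : 1 ≤ B) :
    ((Fintype.piFinset fun _ : Fin (2 * k) => Icc 1 B).filter
      fun b => ∀ i, ∃ j, j ≠ i ∧ b j = b i).card ≤ k ^ (2 * k) * B ^ k := by
  have hsub : ((Fintype.piFinset fun _ : Fin (2 * k) => Icc 1 B).filter
      fun b => ∀ i, ∃ j, j ≠ i ∧ b j = b i) ⊆ ((univ : Finset (Fin (2 * k) → Fin k)) ×ˢ
        Fintype.piFinset fun _ : Fin k => Icc 1 B).image fun y => y.2 ∘ y.1 := by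
    intro b hb
    rw [mem_filter, Fintype.mem_piFinset] at hb
    have h1 := mul_card_image_le_card (f := b) univ 2 fun v hv => by
      obtain ⟨i, -, rfl⟩ := mem_image.mp hv
      obtain ⟨j, hj, e⟩ := hb.2 i
      exact (card_pair hj).ge.trans <| card_le_card fun x hx => by
        rcases mem_insert.mp hx with rfl | hx
        · simpa using e
        · rw [mem_singleton.mp hx]; simp
    rw [card_univ, Fintype.card_fin] at h1
    have h2 : ∀ i, ∃ t : Fin k, (univ.image b).toList.getD t 1 = b i := fun i => by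
      obtain ⟨t, ht, e⟩ := List.mem_iff_getElem.mp (mem_toList.mpr (mem_image_of_mem b (mem_univ i)))
      refine ⟨⟨t, by rw [length_toList] at ht; omega⟩, ?_⟩
      rw [List.getD_eq_getElem _ _ ht, e]
    choose s hs using h2
    refine mem_image.mpr ⟨(s, fun t => (univ.image b).toList.getD t 1), ?_, funext hs⟩
    rw [mem_product, Fintype.mem_piFinset]
    refine ⟨mem_univ _, fun t => ?_⟩
    by_cases ht : (t : ℕ) < (univ.image b).toList.length
    · simp only [List.getD_eq_getElem _ _ ht]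
      obtain ⟨i, -, e⟩ := mem_image.mp (mem_toList.mp (List.getElem_mem ht))
      exact e ▸ hb.1 i
    · simp only [List.getD_eq_default _ _ (not_lt.mp ht)]
      exact mem_Icc.mpr ⟨le_rfl, hB⟩
  refine (card_le_card hsub).trans (card_image_le.trans_eq ?_)
  simp

theorem blk_BUR2 (hS : St_STEP) : St_BUR2 := by
  intro k ε hk hε
  have hk' : (0 : ℝ) < k := Nat.cast_pos.mpr hk
  obtain ⟨C, hC, hd⟩ := MP_fb430f_co.div_bound (ε := ε / (18 * k : ℕ)) (by positivity)
  refine ⟨(k : ℝ) ^ (2 * k) + 2 * k * 2 ^ (2 * k) * C ^ (18 * k), by positivity,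
    fun M B ho hs hB => ?_⟩
  have hM : M ≠ 0 := hs.ne_zero
  have hM1 : (1 : ℝ) ≤ M := Nat.one_le_cast.mpr (Nat.pos_of_ne_zero hM)
  set τ : ℝ := (M.divisors.card : ℝ) with hτ
  have hτ0 : 0 ≤ τ := Nat.cast_nonneg _
  have h1 : τ ≤ C * (M : ℝ) ^ (ε / (18 * k : ℕ)) := by
    refine le_trans ?_ (hd M hM)
    rw [hτ, Nat.card_divisors hM]
    exact Nat.cast_le.mpr (prod_le_prod' fun p _ => by omega)
  have h2 : τ ^ (18 * k) ≤ C ^ (18 * k) * (M : ℝ) ^ ε := by
    refine (pow_le_pow_left₀ hτ0 h1 _).trans_eq ?_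
    rw [mul_pow, ← Real.rpow_natCast ((M : ℝ) ^ _), ← Real.rpow_mul (by positivity),
      div_mul_cancel₀ _ (by positivity)]
  have h3 : (1 : ℝ) ≤ (M : ℝ) ^ ε := Real.one_le_rpow hM1 hε.le
  set T := Fintype.piFinset fun _ : Fin (2 * k) => Icc 1 B with hT
  have e1 : ∑ x ∈ range M, (∑ b ∈ Icc 1 B, (J((x : ℤ) + b | M) : ℝ)) ^ (2 * k) =
      ∑ b ∈ T, ∑ x ∈ range M, (J(∏ j, ((x : ℤ) + (b j : ℕ)) | M) : ℝ) := by
    rw [sum_comm]
    refine sum_congr rfl fun x _ => ?_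
    rw [sum_pow']
    refine sum_congr rfl fun b _ => ?_
    rw [bur2_J_prod, Int.cast_prod]
  have e2 : ∀ b ∈ T, ∑ x ∈ range M, (J(∏ j, ((x : ℤ) + (b j : ℕ)) | M) : ℝ) ≤
      (if ∀ i, ∃ j, j ≠ i ∧ b j = b i then (M : ℝ) else 0) +
        ∑ i, τ ^ (8 * (2 * k)) * √(M : ℝ) * ∏ j ∈ univ.erase i, bur2w M (b i) (b j) := by
    intro b _
    have hn : ∀ i, 0 ≤ τ ^ (8 * (2 * k)) * √(M : ℝ) * ∏ j ∈ univ.erase i, bur2w M (b i) (b j) :=
      fun i => mul_nonneg (by positivity) (prod_nonneg fun j _ => bur2w_nonneg _ _ _)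
    split_ifs with h
    · exact ((le_abs_self _).trans (bur2_triv M _)).trans
        (le_add_of_nonneg_right (sum_nonneg fun i _ => hn i))
    · push Not at h
      obtain ⟨i, hi⟩ := h
      rw [zero_add]
      refine ((le_abs_self _).trans (bur2_complete hS (fun j => (b j : ℤ)) i M ho hs)).trans ?_
      refine le_trans (le_of_eq ?_) (single_le_sum (fun i _ => hn i) (mem_univ i))
      congr 1
      exact prod_congr rfl fun j hj => by rw [bur2w, if_neg (hi j (mem_erase.mp hj).1)]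
  have e3 : ∑ b ∈ T, (if ∀ i, ∃ j, j ≠ i ∧ b j = b i then (M : ℝ) else 0) ≤
      (k : ℝ) ^ (2 * k) * (M * (B : ℝ) ^ k) := by
    rw [← sum_filter, sum_const, nsmul_eq_mul]
    have : ((T.filter fun b => ∀ i, ∃ j, j ≠ i ∧ b j = b i).card : ℝ) ≤
        (k : ℝ) ^ (2 * k) * (B : ℝ) ^ k := by
      have := bur2_count k B hB
      exact_mod_cast (by convert this)
    calc _ ≤ (k : ℝ) ^ (2 * k) * (B : ℝ) ^ k * M := by gcongr
      _ = _ := by ring
  have e4 : ∑ b ∈ T, ∑ i, τ ^ (8 * (2 * k)) * √(M : ℝ) *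
      ∏ j ∈ univ.erase i, bur2w M (b i) (b j) ≤
      2 * k * 2 ^ (2 * k) * C ^ (18 * k) * (M : ℝ) ^ ε * (√(M : ℝ) * (B : ℝ) ^ (2 * k)) := by
    rw [sum_comm]
    calc _ ≤ ∑ _i : Fin (2 * k), τ ^ (8 * (2 * k)) * √(M : ℝ) * (2 * B * τ) ^ (2 * k) := by
          refine sum_le_sum fun i _ => ?_
          rw [← mul_sum]
          exact mul_le_mul_of_nonneg_left (bur2_tuples hM B i) (by positivity)
      _ = 2 * k * 2 ^ (2 * k) * τ ^ (18 * k) * (√(M : ℝ) * (B : ℝ) ^ (2 * k)) := by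
          rw [sum_const, card_univ, Fintype.card_fin, nsmul_eq_mul, mul_pow, mul_pow,
            show 18 * k = 8 * (2 * k) + 2 * k by ring, pow_add]
          push_cast; ring
      _ ≤ 2 * k * 2 ^ (2 * k) * (C ^ (18 * k) * (M : ℝ) ^ ε) * (√(M : ℝ) * (B : ℝ) ^ (2 * k)) := by
          gcongr
      _ = _ := by ring
  rw [e1]
  refine (sum_le_sum e2).trans ?_
  rw [sum_add_distrib]
  refine (add_le_add e3 e4).trans ?_
  have p1 : (0 : ℝ) ≤ M * (B : ℝ) ^ k := by positivity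
  have p2 : (0 : ℝ) ≤ √(M : ℝ) * (B : ℝ) ^ (2 * k) := by positivity
  have p3 : (0 : ℝ) ≤ (k : ℝ) ^ (2 * k) := by positivity
  have p4 : (0 : ℝ) ≤ 2 * k * 2 ^ (2 * k) * C ^ (18 * k) := by positivity
  generalize (M : ℝ) * (B : ℝ) ^ k = u at *
  generalize √(M : ℝ) * (B : ℝ) ^ (2 * k) = v at *
  generalize (k : ℝ) ^ (2 * k) = a at *
  generalize 2 * (k : ℝ) * 2 ^ (2 * k) * C ^ (18 * k) = c at *
  generalize (M : ℝ) ^ ε = t at *
  have q1 : a * u ≤ a * t * u := by nlinarith [mul_nonneg p3 p1]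
  have q2 : 0 ≤ a * t * v := by positivity
  have q3 : 0 ≤ c * t * u := by positivity
  nlinarith

end Pool.Agent.Lib.PS
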