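import Pool.Agent.Lib.PS.PB
import Pool.Agent.Lib.MP_fb430f_co.Circle

/-! Power saving cancellation from the Burgess bound. -/

namespace Pool.Agent.Lib.PS

open Finset
open scoped NumberTheorySymbols ArithmeticFunction.Moebius Classical

lemma canc_triv {f : ℕ → ℂ} (hf : ∀ n, ‖f n‖ ≤ 1) (s : Finset ℕ) :
    ‖∑ k ∈ s, f k‖ ≤ s.card := by
  calc _ ≤ ∑ k ∈ s, ‖f k‖ := norm_sum_le _ _
    _ ≤ ∑ k ∈ s, (1 : ℝ) := sum_le_sum fun k _ => hf k
    _ = s.card := by simp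

lemma canc_psum {f : ℕ → ℂ} (hf : ∀ n, ‖f n‖ ≤ 1) (y : ℕ) : ‖psum f y‖ ≤ y := by
  simpa [psum] using canc_triv hf (Icc 1 y)

/-- A number below `y` and `B` is below their weighted geometric mean. -/
lemma canc_geo {x y B c : ℝ} (hx : 0 ≤ x) (hy : x ≤ y) (hB : x ≤ B) (h0 : 0 ≤ c) (h1 : c ≤ 1) :
    x ≤ y ^ (1 - c) * B ^ c := by
  calc x = x ^ (1 - c) * x ^ c := by
        rw [← Real.rpow_add' hx (by norm_num)]; simp
    _ ≤ _ := mul_le_mul (Real.rpow_le_rpow hx hy (by linarith)) (Real.rpow_le_rpow hx hB h0)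
        (by positivity) (Real.rpow_nonneg (hx.trans hy) _)

lemma canc_one (χ : ℕ → ℂ) (c c' B B' : ℝ) (hχ : CM χ) (h0 : 0 < c') (h1 : c' ≤ c) (h2 : c ≤ 1)
    (hB : 0 ≤ B) (hB' : B ≤ B') (h : Canc χ c B) : Canc χ c' B' := by
  intro y
  by_cases hy : (y : ℝ) ≤ B'
  · exact (canc_psum hχ.2.2 y).trans (canc_geo (Nat.cast_nonneg y) le_rfl hy h0.le (by linarith))
  · push Not at hy
    have hy0 : (0 : ℝ) < y := lt_of_le_of_lt (hB.trans hB') hy
    have e : ∀ t D : ℝ, 0 ≤ D → (y : ℝ) ^ (1 - t) * D ^ t = y * (D / y) ^ t := by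
      intro t D hD
      rw [Real.div_rpow hD hy0.le, Real.rpow_sub hy0, Real.rpow_one]; ring
    refine (h y).trans ?_
    rw [e c B hB, e c' B' (hB.trans hB')]
    refine mul_le_mul_of_nonneg_left ?_ hy0.le
    have h3 : B' / y ≤ 1 := (div_le_one hy0).2 hy.le
    have h4 : 0 ≤ B' / y := div_nonneg (hB.trans hB') hy0.le
    calc (B / y) ^ c ≤ (B' / y) ^ c :=
          Real.rpow_le_rpow (div_nonneg hB hy0.le) (by gcongr) (by linarith)
      _ ≤ (B' / y) ^ c' := Real.rpow_le_rpow_of_exponent_ge' h4 h3 h0.le h1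

lemma canc_two (χ : ℕ → ℂ) (P : ℝ) (hχ : CM χ) (h : ∀ y, ‖psum χ y‖ ≤ P) : Canc χ (1 / 2) P :=
  fun y => canc_geo (norm_nonneg _) (canc_psum hχ.2.2 y) (h y) (by norm_num) (by norm_num)

/-- A full period of a nontrivial periodic multiplicative function sums to zero. -/
lemma canc_full {f : ℕ → ℂ} {m : ℕ} (hm : 0 < m) (hmul : ∀ a b, f (a * b) = f a * f b)
    (hp : ∀ k, f (k + m) = f k) (hn : NonPr m f) : ∑ k ∈ range m, f k = 0 := by
  obtain ⟨x, hx, h1⟩ := hn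
  have hper : Function.Periodic f m := hp
  have hinj : Set.InjOn (fun k => x * k % m) (range m : Finset ℕ) := by
    intro a ha b hb hab
    have h2 : a ≡ b [MOD m] := Nat.ModEq.cancel_left_of_coprime hx.symm hab
    exact Nat.ModEq.eq_of_lt_of_lt h2 (by simpa using ha) (by simpa using hb)
  have himg : (range m).image (fun k => x * k % m) = range m := by
    refine eq_of_subset_of_card_le (fun a ha => ?_) (by rw [card_image_of_injOn hinj])
    obtain ⟨k, -, rfl⟩ := mem_image.1 ha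
    exact mem_range.2 (Nat.mod_lt _ hm)
  have h3 : ∑ k ∈ range m, f k = f x * ∑ k ∈ range m, f k := by
    conv_lhs => rw [← himg, sum_image hinj]
    rw [mul_sum]
    exact sum_congr rfl fun k _ => by rw [hper.map_mod_nat, hmul]
  have h4 : (f x - 1) * ∑ k ∈ range m, f k = 0 := by linear_combination -h3
  exact (mul_eq_zero.1 h4).resolve_left (sub_ne_zero.2 h1)

lemma canc_period {f : ℕ → ℂ} {m : ℕ} (hb : ∀ n, ‖f n‖ ≤ 1) (hp : ∀ k, f (k + m) = f k)
    (h0 : ∑ k ∈ range m, f k = 0) (hm : 0 < m) (H : ℕ) :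
    ∀ N, ‖∑ k ∈ range H, f (N + k)‖ ≤ m := by
  have hz : ∀ N, ∑ k ∈ range m, f (N + k) = 0 := by
    intro N
    induction N with
    | zero => simpa using h0
    | succ N ih =>
      have h1 := sum_range_succ (fun k => f (N + k)) m
      have h2 := sum_range_succ' (fun k => f (N + k)) m
      rw [ih, hp] at h1
      rw [h1] at h2
      have h3 : ∑ k ∈ range m, f (N + 1 + k) = ∑ k ∈ range m, f (N + (k + 1)) :=
        sum_congr rfl fun k _ => by congr 1; ring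
      rw [h3]
      simpa using h2.symm
  induction H using Nat.strong_induction_on with
  | _ H ih =>
    intro N
    by_cases hH : H ≤ m
    · refine (canc_triv (f := fun k => f (N + k)) (fun k => hb _) _).trans ?_
      simpa using hH
    · obtain ⟨H', rfl⟩ : ∃ H', H = m + H' := ⟨H - m, by omega⟩
      rw [sum_range_add, hz, zero_add]
      simpa [add_assoc] using ih H' (by omega) (N + m)

lemma canc_Ioc (f : ℕ → ℂ) (N H : ℕ) :
    ∑ x ∈ Ioc N (N + H), f x = ∑ k ∈ range H, f (N + 1 + k) := by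
  induction H with
  | zero => simp
  | succ H ih =>
    rw [← add_assoc, sum_Ioc_succ_top (by omega), ih, sum_range_succ]
    congr 2; ring

lemma canc_psum_range (f : ℕ → ℂ) (y : ℕ) : psum f y = ∑ k ∈ range y, f (1 + k) := by
  have := canc_Ioc f 0 y
  simp only [zero_add] at this
  rw [← this, psum]
  rfl

/-- Interval sums of the Jacobi symbol. -/
lemma canc_jac (h : St_BUR3) {ε : ℝ} (hε : 0 < ε) : ∃ c C : ℝ, 0 < c ∧ c ≤ 1 / 2 ∧ 1 ≤ C ∧
    ∀ M N H : ℕ, Odd M → Squarefree M → 1 < M →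
      ‖∑ k ∈ range H, jc M (N + 1 + k)‖ ≤ C * ((H : ℝ) ^ (1 - c) * ((M : ℝ) ^ (1 / 4 + ε)) ^ c) := by
  obtain ⟨c, C, hc, hC, hb⟩ := h ε hε
  refine ⟨min (c / 2) (1 / 2), max C 1, by positivity, min_le_right _ _, le_max_right _ _, ?_⟩
  intro M N H hM hs h1
  set c' := min (c / 2) (1 / 2) with hc'
  have hc0 : 0 < c' := by positivity
  have hc1 : c' ≤ 1 / 2 := min_le_right _ _
  have hc2 : c' ≤ c / 2 := min_le_left _ _
  have hM1 : (1 : ℝ) ≤ M := by exact_mod_cast h1.le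
  have hB1 : 1 ≤ (M : ℝ) ^ (1 / 4 + ε) := Real.one_le_rpow hM1 (by positivity)
  have hB2 : 1 ≤ ((M : ℝ) ^ (1 / 4 + ε)) ^ c' := Real.one_le_rpow hB1 hc0.le
  have hj := pb_jc hM
  have hC1 : (1 : ℝ) ≤ max C 1 := le_max_right _ _
  have hnn : 0 ≤ (H : ℝ) ^ (1 - c') * ((M : ℝ) ^ (1 / 4 + ε)) ^ c' := by positivity
  by_cases hH : (M : ℝ) ^ (1 / 4 + ε) ≤ H
  · have hH1 : (1 : ℝ) ≤ H := hB1.trans hH
    have hHn : 0 ≤ (H : ℝ) ^ (1 - c') := by positivity
    by_cases hH2 : (H : ℝ) ≤ (M : ℝ) ^ (2 : ℝ)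
    · have h2 := hb M N H hM hs h1 hH
      have e : ‖∑ k ∈ range H, jc M (N + 1 + k)‖ = |∑ x ∈ Ioc N (N + H), (J((x : ℤ) | M) : ℝ)| := by
        rw [← canc_Ioc, ← Real.norm_eq_abs, ← Complex.norm_real]
        simp [jc]
      rw [e]
      refine h2.trans ?_
      have h3 : (M : ℝ) ^ (-c) ≤ (H : ℝ) ^ (-c') := by
        calc (M : ℝ) ^ (-c) ≤ (M : ℝ) ^ (2 * (-c')) :=
              Real.rpow_le_rpow_of_exponent_le hM1 (by linarith)
          _ = ((M : ℝ) ^ (2 : ℝ)) ^ (-c') := Real.rpow_mul (by positivity) _ _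
          _ ≤ (H : ℝ) ^ (-c') := Real.rpow_le_rpow_of_nonpos (by linarith) hH2 (by linarith)
      have h4 : (H : ℝ) ^ (1 - c') = H * (H : ℝ) ^ (-c') := by
        rw [sub_eq_add_neg, Real.rpow_add (by linarith), Real.rpow_one]
      calc C * H * (M : ℝ) ^ (-c) ≤ max C 1 * H * (H : ℝ) ^ (-c') := by
            gcongr; exact le_max_left _ _
        _ = max C 1 * ((H : ℝ) ^ (1 - c') * 1) := by rw [h4]; ring
        _ ≤ _ := by gcongr
    · push Not at hH2
      have hns : ¬ IsSquare M := by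
        rintro ⟨r, rfl⟩
        have := hs r dvd_rfl
        rw [Nat.isUnit_iff] at this
        subst this
        simp at h1
      have h2 := canc_period hj.2.1.2.2 hj.2.2.1
        (canc_full hM.pos hj.2.1.2.1 hj.2.2.1 (pb_jc_nonpr hM hns)) hM.pos H (N + 1)
      refine h2.trans ?_
      have h3 : (M : ℝ) ≤ (H : ℝ) ^ (1 - c') := by
        calc (M : ℝ) = ((M : ℝ) ^ (2 : ℝ)) ^ (1 / 2 : ℝ) := by
              rw [← Real.rpow_mul (by positivity)]; norm_num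
          _ ≤ (H : ℝ) ^ (1 / 2 : ℝ) := Real.rpow_le_rpow (by positivity) hH2.le (by norm_num)
          _ ≤ _ := Real.rpow_le_rpow_of_exponent_le hH1 (by linarith)
      calc (M : ℝ) ≤ 1 * ((H : ℝ) ^ (1 - c') * 1) := by linarith
        _ ≤ _ := by gcongr
  · push Not at hH
    have h2 := canc_triv (f := fun k => jc M (N + 1 + k)) (fun k => hj.2.1.2.2 _) (range H)
    rw [card_range] at h2
    have h3 := canc_geo (Nat.cast_nonneg H) le_rfl hH.le hc0.le (by linarith : c' ≤ 1)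
    calc _ ≤ 1 * ((H : ℝ) ^ (1 - c') * ((M : ℝ) ^ (1 / 4 + ε)) ^ c') := by linarith
      _ ≤ _ := by gcongr

lemma canc_split (f : ℕ → ℂ) (q T : ℕ) :
    ∑ k ∈ range (q * T), f k = ∑ a ∈ range q, ∑ t ∈ range T, f (q * t + a) := by
  rw [sum_comm]
  induction T with
  | zero => simp
  | succ T ih => rw [mul_add, mul_one, sum_range_add, ih, sum_range_succ]

/-- Splitting into residue classes. -/
lemma canc_class {M q : ℕ} {ψ : ℕ → ℂ} {c C B : ℝ} (hM : Odd M) (hq : 0 < q)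
    (hc : Nat.Coprime M q) (hψ : CM ψ) (hp : ∀ k, ψ (k + q) = ψ k) (h0 : 0 < c) (h1 : c ≤ 1)
    (hC : 1 ≤ C) (hB : 1 ≤ B)
    (h : ∀ N H : ℕ, ‖∑ k ∈ range H, jc M (N + 1 + k)‖ ≤ C * ((H : ℝ) ^ (1 - c) * B ^ c)) (y : ℕ) :
    ‖psum (jc M * ψ) y‖ ≤ 2 * C * ((y : ℝ) ^ (1 - c) * (B * q) ^ c) := by
  have hj := pb_jc hM
  have hb : ∀ n, ‖(jc M * ψ) n‖ ≤ 1 := fun n => by
    rw [Pi.mul_apply, norm_mul]
    exact mul_le_one₀ (hj.2.1.2.2 n) (norm_nonneg _) (hψ.2.2 n)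
  have hq0 : (0 : ℝ) < q := by exact_mod_cast hq
  have hqB : (q : ℝ) ≤ B * q := le_mul_of_one_le_left hq0.le hB
  have hnn : 0 ≤ (y : ℝ) ^ (1 - c) * (B * q) ^ c := by positivity
  obtain ⟨u, hu⟩ : ∃ u, q * u ≡ 1 [MOD M] := by
    rcases eq_or_lt_of_le (Nat.succ_le_of_lt hM.pos) with h2 | h2
    · exact ⟨0, by rw [← h2]; exact Nat.modEq_one⟩
    · obtain ⟨u, -, hu⟩ := Nat.exists_mul_mod_eq_one_of_coprime hc.symm h2
      exact ⟨u, by rw [Nat.ModEq, hu, Nat.mod_eq_of_lt h2]⟩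
  have hper : Function.Periodic ψ q := hp
  have hcl : ∀ a T : ℕ, ‖∑ t ∈ range T, (jc M * ψ) (1 + (q * t + a))‖
      ≤ C * ((T : ℝ) ^ (1 - c) * B ^ c) := by
    intro a T
    obtain ⟨M', rfl⟩ : ∃ M', M = M' + 1 := ⟨M - 1, by have := hM.pos; omega⟩
    have e : ∑ t ∈ range T, (jc (M' + 1) * ψ) (1 + (q * t + a)) =
        ψ (1 + a) * jc (M' + 1) q * ∑ t ∈ range T, jc (M' + 1) (u * (1 + a) + M' + 1 + t) := by
      rw [mul_sum]
      refine sum_congr rfl fun t _ => ?_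
      have e1 : ψ (1 + (q * t + a)) = ψ (1 + a) := by
        have := hper.nat_mul t (1 + a)
        rw [← this]; congr 1; simp; ring
      have e2 : jc (M' + 1) (1 + (q * t + a)) =
          jc (M' + 1) (q * (u * (1 + a) + M' + 1 + t)) := by
        refine pb_modEq hj ?_
        have e3 : q * (u * (1 + a) + M' + 1 + t) = q * u * (1 + a) + q * t + (M' + 1) * q := by ring
        rw [e3]
        have e4 := ((hu.mul_right (1 + a)).add_right (q * t)).add
          (Nat.modEq_zero_iff_dvd.2 (dvd_mul_right (M' + 1) q))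
        refine Nat.ModEq.symm (e4.trans ?_)
        rw [show 1 * (1 + a) + q * t + 0 = 1 + (q * t + a) by ring]
      rw [Pi.mul_apply, e1, e2, hj.2.1.2.1]; ring
    rw [e, norm_mul, norm_mul]
    have h2 : ‖ψ (1 + a)‖ * ‖jc (M' + 1) q‖ ≤ 1 :=
      mul_le_one₀ (hψ.2.2 _) (norm_nonneg _) (hj.2.1.2.2 _)
    exact (mul_le_of_le_one_left (norm_nonneg _) h2).trans (h _ _)
  have hy : y = q * (y / q) + y % q := (Nat.div_add_mod y q).symm
  have hr : ((y % q : ℕ) : ℝ) ≤ (y : ℝ) ^ (1 - c) * (B * q) ^ c :=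
    canc_geo (Nat.cast_nonneg _) (by exact_mod_cast Nat.mod_le y q)
      (le_trans (by exact_mod_cast (Nat.mod_lt y hq).le) hqB) h0.le h1
  have hT : (q : ℝ) * (C * (((y / q : ℕ) : ℝ) ^ (1 - c) * B ^ c))
      ≤ C * ((y : ℝ) ^ (1 - c) * (B * q) ^ c) := by
    have h2 : ((y / q : ℕ) : ℝ) ^ (1 - c) ≤ ((y : ℝ) / q) ^ (1 - c) :=
      Real.rpow_le_rpow (Nat.cast_nonneg _) Nat.cast_div_le (by linarith)
    have h3 : (q : ℝ) * ((y : ℝ) / q) ^ (1 - c) = (y : ℝ) ^ (1 - c) * (q : ℝ) ^ c := by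
      rw [Real.div_rpow (Nat.cast_nonneg _) hq0.le, Real.rpow_sub hq0, Real.rpow_one]
      have := (Real.rpow_pos_of_pos hq0 c).ne'
      field_simp
    calc _ ≤ (q : ℝ) * (C * (((y : ℝ) / q) ^ (1 - c) * B ^ c)) := by gcongr
      _ = C * (((q : ℝ) * ((y : ℝ) / q) ^ (1 - c)) * B ^ c) := by ring
      _ = _ := by rw [h3, Real.mul_rpow (by linarith) hq0.le]; ring
  rw [canc_psum_range]
  nth_rewrite 1 [hy]
  rw [sum_range_add, canc_split]
  refine (norm_add_le _ _).trans ?_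
  have h5 : ‖∑ a ∈ range q, ∑ t ∈ range (y / q), (jc M * ψ) (1 + (q * t + a))‖
      ≤ (q : ℝ) * (C * (((y / q : ℕ) : ℝ) ^ (1 - c) * B ^ c)) := by
    refine (norm_sum_le _ _).trans ((sum_le_sum fun a _ => hcl a _).trans ?_)
    simp
  have h6 := canc_triv (f := fun k => (jc M * ψ) (1 + (q * (y / q) + k))) (fun k => hb _)
    (range (y % q))
  rw [card_range] at h6
  nlinarith

/-- Removing the multiples of the primes of `g`. -/
lemma canc_tw {χ : ℕ → ℂ} (hχ : CM χ) {g : ℕ} (hg : 0 < g) (y : ℕ) :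
    psum (tw g χ) y = ∑ d ∈ g.divisors, (μ d : ℂ) * χ d * psum χ (y / d) := by
  have hμ : ∀ n : ℕ, ∑ d ∈ n.divisors, (μ d : ℂ) = if n = 1 then 1 else 0 := by
    intro n
    have := congrArg (fun f : ArithmeticFunction ℂ => f n)
      (ArithmeticFunction.coe_moebius_mul_coe_zeta (R := ℂ))
    simp only [ArithmeticFunction.coe_mul_zeta_apply, ArithmeticFunction.one_apply,
      ArithmeticFunction.intCoe_apply] at this
    exact this
  have h1 : ∀ k, tw g χ k = ∑ d ∈ g.divisors, if d ∣ k then (μ d : ℂ) * χ k else 0 := by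
    intro k
    rw [← sum_filter, ← sum_mul]
    have : g.divisors.filter (· ∣ k) = (Nat.gcd k g).divisors := by
      ext d
      simp only [mem_filter, Nat.mem_divisors, Nat.dvd_gcd_iff]
      have := (Nat.gcd_pos_of_pos_right k hg).ne'
      have := hg.ne'
      tauto
    rw [this, hμ, tw]
    by_cases hc : Nat.Coprime k g
    · rw [if_pos hc, if_pos hc, one_mul]
    · rw [if_neg hc, if_neg hc, zero_mul]
  unfold psum
  simp only [h1]
  rw [sum_comm]
  refine sum_congr rfl fun d hd => ?_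
  have hd0 : 0 < d := Nat.pos_of_mem_divisors hd
  rw [← sum_filter, mul_sum]
  symm
  refine sum_bij (fun k _ => d * k) ?_ ?_ ?_ ?_
  · intro k hk
    rw [mem_Icc, Nat.le_div_iff_mul_le hd0] at hk
    simp only [mem_filter, mem_Icc]
    exact ⟨⟨Nat.mul_pos hd0 hk.1, by rw [mul_comm]; exact hk.2⟩, dvd_mul_right _ _⟩
  · intro a _ b _ hab
    exact Nat.eq_of_mul_eq_mul_left hd0 hab
  · intro k hk
    simp only [mem_filter, mem_Icc] at hk
    obtain ⟨⟨h2, h3⟩, m, rfl⟩ := hk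
    refine ⟨m, ?_, rfl⟩
    rw [mem_Icc, Nat.le_div_iff_mul_le hd0, mul_comm]
    exact ⟨Nat.pos_of_mul_pos_left h2, h3⟩
  · intro k _
    rw [hχ.2.1]; ring

lemma canc_div {ε : ℝ} (hε : 0 < ε) : ∃ C : ℝ, 1 ≤ C ∧ ∀ g : ℕ, 0 < g →
    (g.divisors.card : ℝ) ≤ C * (g : ℝ) ^ ε := by
  obtain ⟨C, hC, h⟩ := Pool.Agent.Lib.MP_fb430f_co.div_bound hε
  refine ⟨max C 1, le_max_right _ _, fun g hg => ?_⟩
  have h1 : g.divisors.card ≤ ∏ p ∈ g.primeFactors, (g.factorization p + 2) := by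
    rw [Nat.card_divisors hg.ne']
    exact prod_le_prod' fun p _ => by omega
  calc (g.divisors.card : ℝ) ≤ _ := by exact_mod_cast h1
    _ ≤ C * (g : ℝ) ^ ε := h g hg.ne'
    _ ≤ _ := by gcongr; exact le_max_left _ _

theorem blk_CANC (h : St_BUR3) : St_CANC := by
  refine ⟨canc_one, fun χ P hχ _ hP => canc_two χ P hχ hP, fun ε hε => ?_⟩
  obtain ⟨c, C, hc0, hc1, hC, hj⟩ := canc_jac h hε
  obtain ⟨D, hD, hd⟩ := canc_div (mul_pos hε hc0)
  have hCD : 1 ≤ D * (2 * C) := one_le_mul_of_one_le_of_one_le hD (by linarith)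
  refine ⟨c, (D * (2 * C)) ^ (1 / c), hc0, hc1, Real.one_le_rpow hCD (by positivity), ?_⟩
  intro M q g ψ hM hs hq hg hc hψ hp hn y
  have hjc := pb_jc hM
  have hM1 : (1 : ℝ) ≤ M := by exact_mod_cast hM.pos
  have hB : 1 ≤ (M : ℝ) ^ (1 / 4 + ε) := Real.one_le_rpow hM1 (by positivity)
  have hq0 : (0 : ℝ) < q := by exact_mod_cast hq
  have hχ : CM (jc M * ψ) := by
    refine ⟨by simp [hjc.2.1.1, hψ.1], fun m n => ?_, fun n => ?_⟩
    · simp only [Pi.mul_apply, hjc.2.1.2.1, hψ.2.1]; ring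
    · rw [Pi.mul_apply, norm_mul]
      exact mul_le_one₀ (hjc.2.1.2.2 n) (norm_nonneg _) (hψ.2.2 n)
  have key : ∀ z : ℕ, ‖psum (jc M * ψ) z‖
      ≤ 2 * C * ((z : ℝ) ^ (1 - c) * ((M : ℝ) ^ (1 / 4 + ε) * q) ^ c) := by
    intro z
    by_cases h1 : 1 < M
    · exact canc_class hM hq hc hψ hp hc0 (by linarith) hC hB (fun N H => hj M N H hM hs h1) z
    · have h2 : M = 1 := by have := hM.pos; omega
      subst h2
      have h3 : jc 1 * ψ = ψ := by funext k; simp [jc]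
      have h4 := canc_period hψ.2.2 hp (canc_full hq hψ.2.1 hp (hn.resolve_left h1)) hq z 1
      rw [← canc_psum_range] at h4
      rw [h3]
      have h5 := canc_geo (norm_nonneg _) (canc_psum hψ.2.2 z)
        (h4.trans (le_mul_of_one_le_left hq0.le hB)) hc0.le (by linarith : c ≤ 1)
      exact h5.trans (le_mul_of_one_le_left (by positivity) (by linarith))
  rw [canc_tw hχ hg]
  have h6 : ∀ d ∈ g.divisors, ‖(μ d : ℂ) * (jc M * ψ) d * psum (jc M * ψ) (y / d)‖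
      ≤ 2 * C * ((y : ℝ) ^ (1 - c) * ((M : ℝ) ^ (1 / 4 + ε) * q) ^ c) := by
    intro d _
    have h7 : ‖(μ d : ℂ)‖ ≤ 1 := by
      rw [Complex.norm_intCast]; exact_mod_cast ArithmeticFunction.abs_moebius_le_one
    rw [norm_mul, norm_mul]
    refine (mul_le_of_le_one_left (norm_nonneg _)
      (mul_le_one₀ h7 (norm_nonneg _) (hχ.2.2 d))).trans ((key _).trans ?_)
    have h8 : ((y / d : ℕ) : ℝ) ^ (1 - c) ≤ (y : ℝ) ^ (1 - c) :=
      Real.rpow_le_rpow (Nat.cast_nonneg _) (by exact_mod_cast Nat.div_le_self y d) (by linarith)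
    gcongr
  refine (norm_sum_le _ _).trans ((sum_le_sum h6).trans ?_)
  rw [sum_const, nsmul_eq_mul]
  have e : ((D * (2 * C)) ^ (1 / c) * (M : ℝ) ^ (1 / 4 + ε) * q * (g : ℝ) ^ ε) ^ c =
      D * (g : ℝ) ^ (ε * c) * (2 * C) * ((M : ℝ) ^ (1 / 4 + ε) * q) ^ c := by
    rw [mul_assoc ((D * (2 * C)) ^ (1 / c)), Real.mul_rpow (by positivity) (by positivity),
      Real.mul_rpow (by positivity) (by positivity), ← Real.rpow_mul (by positivity),
      ← Real.rpow_mul (by positivity), one_div_mul_cancel hc0.ne', Real.rpow_one]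
    ring
  rw [e]
  calc _ ≤ D * (g : ℝ) ^ (ε * c) *
        (2 * C * ((y : ℝ) ^ (1 - c) * ((M : ℝ) ^ (1 / 4 + ε) * q) ^ c)) := by
        gcongr; exact hd g hg
    _ = _ := by ring

end Pool.Agent.Lib.PS
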