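import Pool.Agent.Lib.PS.Blue

/-! Block CORE: from the model estimate to the sum over bad relevant characters. -/

namespace Pool.Agent.Lib.PS

open Finset Real Filter Topology
open scoped NumberTheorySymbols Classical

lemma core_hasZ_mono {χ : ℕ → ℂ} {σ σ' T T' : ℝ} (h : HasZ χ σ T) (h1 : σ' ≤ σ) (h2 : T ≤ T') :
    HasZ χ σ' T' := by
  obtain ⟨ρ, a, b, c⟩ := h
  exact ⟨ρ, h1.trans a, b.trans h2, c⟩

lemma core_rf_mono {n W R : ℕ} {l : ℝ} {F F' : Finset XX} (h : RF n W R l F) (h' : F' ⊆ F) :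
    RF n W R l F' :=
  ⟨fun x hx => h.1 x (h' hx), fun x hx y hy => h.2 x (h' hx) y (h' hy)⟩

lemma core_mem_PP {Q : ℕ} {x : XX} : x ∈ PP Q ↔ (2 ≤ x.1 ∧ x.1 ≤ Q) ∧ x.2 ∈ prim x.1 := by
  rw [PP, mem_sigma, mem_Icc]

lemma core_rf {Q W N0 n R : ℕ} {T e l : ℝ} (hN : 2 ≤ N0) (hG : Good (Bad Q W T e) n W N0 l) :
    RF n W R l ((Bad Q W T e).filter (Rel n W R)) := by
  refine ⟨fun x hx => ?_, fun x hx y hy => ?_⟩
  · obtain ⟨h1, h2⟩ := mem_filter.1 hx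
    obtain ⟨h3, h4⟩ := core_mem_PP.1 (mem_filter.1 h1).1
    exact ⟨h3.1, h4, h2⟩
  · have := hG {x, y} (by
      rw [insert_subset_iff, singleton_subset_iff]
      exact ⟨(mem_filter.1 hx).1, (mem_filter.1 hy).1⟩) (card_le_two.trans hN)
    rwa [lcm_insert, lcm_singleton, normalize_eq, lcm_eq_nat_lcm] at this

/-- the product of the primes dividing `n` and not `W` -/
def coreL0 (n W : ℕ) : ℕ := ∏ p ∈ n.primeFactors.filter (fun p => ¬ p ∣ W), p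

lemma core_mof_dvd {n : ℕ} (hn : 0 < n) (W r : ℕ) : Mof n W r ∣ coreL0 n W := by
  refine prod_dvd_prod_of_subset _ _ _ fun p hp => ?_
  rw [mem_filter] at hp ⊢
  exact ⟨Nat.mem_primeFactors.2 ⟨Nat.prime_of_mem_primeFactors hp.1, hp.2.1, hn.ne'⟩, hp.2.2⟩

lemma core_L0_sqfree (n W : ℕ) : Squarefree (coreL0 n W) := by
  refine Finset.squarefree_prod_of_pairwise_isCoprime (fun p hp q hq hpq => ?_) fun p hp =>
    (Nat.prime_of_mem_primeFactors (mem_filter.1 hp).1).squarefree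
  exact Nat.coprime_iff_isRelPrime.1 ((Nat.coprime_primes
    (Nat.prime_of_mem_primeFactors (mem_filter.1 hp).1)
    (Nat.prime_of_mem_primeFactors (mem_filter.1 hq).1)).2 hpq)

lemma core_L0_prime {n W p : ℕ} (hp : p.Prime) (h : p ∣ coreL0 n W) : p ∣ n ∧ ¬ p ∣ W := by
  obtain ⟨q, hq, h1⟩ := (hp.prime.dvd_finsetProd_iff _).1 h
  rw [mem_filter] at hq
  rw [(Nat.prime_dvd_prime_iff_eq hp (Nat.prime_of_mem_primeFactors hq.1)).1 h1]
  exact ⟨Nat.dvd_of_mem_primeFactors hq.1, hq.2⟩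

lemma core_L0_coprime (n W : ℕ) : Nat.Coprime (coreL0 n W) W :=
  Nat.coprime_of_dvd fun _ hp h => (core_L0_prime hp h).2

lemma core_mof_eq {n W M q : ℕ} (hM : M ∣ coreL0 n W) (hq : q ∣ W) (hq0 : 0 < q) :
    Mof n W (M * q) = M := by
  have h1 : Squarefree M := (core_L0_sqfree n W).squarefree_of_dvd hM
  conv_rhs => rw [← Nat.prod_primeFactors_of_squarefree h1]
  refine prod_congr ?_ fun _ _ => rfl
  ext p
  rw [mem_filter, Nat.mem_primeFactors, Nat.mem_primeFactors]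
  constructor
  · rintro ⟨⟨a, b, -⟩, -, c⟩
    exact ⟨a, ((Nat.Prime.dvd_mul a).1 b).resolve_right fun h => c (h.trans hq), h1.ne_zero⟩
  · rintro ⟨a, b, c⟩
    exact ⟨⟨a, b.mul_right _, mul_ne_zero c hq0.ne'⟩, core_L0_prime a (b.trans hM)⟩

lemma core_tw_mul (W : ℕ) (a b : ℕ → ℂ) : tw W (a * b) = a * tw W b := by
  funext k
  by_cases h : Nat.Coprime k W <;> simp [tw, h]

/-- a pair of `GF` comes from a primitive relevant character -/
lemma core_lift (hPB : St_PB) {n W L : ℕ} (hW : Even W) (hL : L ∣ coreL0 n W)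
    {y : ℕ × (ℕ → ℂ)} (hW0 : 0 < W) (hy : y ∈ GF L W) : ∃ q ψ, q ∣ W ∧ y.2 = tw W ψ ∧
      2 ≤ y.1 * q ∧ jc y.1 * ψ ∈ prim (y.1 * q) ∧ Mof n W (y.1 * q) = y.1 ∧
      Dec n W (y.1 * q) (jc y.1 * ψ) q ψ := by
  obtain ⟨p1, -, -, p4, -, -, p7, p8, -⟩ := hPB
  obtain ⟨M, χ⟩ := y
  rw [GF, mem_filter, mem_product, Nat.mem_divisors] at hy
  obtain ⟨⟨⟨h1, h2⟩, h3⟩, h4⟩ := hy
  obtain ⟨q, ψ, a1, a2, a3⟩ := p8 W χ ((p1 W χ hW0).1 h3)
  have hM : M ∣ coreL0 n W := h1.trans hL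
  have hq : 0 < q := Nat.pos_of_dvd_of_pos a1 hW0
  have hs : Squarefree M := (core_L0_sqfree n W).squarefree_of_dvd hM
  have hc : Nat.Coprime M W := (core_L0_coprime n W).coprime_dvd_left hM
  have hcq : Nat.Coprime M q := hc.coprime_dvd_right a1
  have hodd : Odd M := Nat.coprime_two_right.1 (hc.coprime_dvd_right hW.two_dvd)
  have hm := core_mof_eq hM a1 hq
  refine ⟨q, ψ, a1, a3, ?_, p7 M q ψ hodd hs hq hcq a2, hm, ?_⟩
  · by_contra hcon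
    have h5 : M * q = 1 := by
      have := Nat.mul_pos hodd.pos hq
      change ¬ 2 ≤ M * q at hcon
      omega
    obtain rfl : M = 1 := Nat.eq_one_of_mul_eq_one_right h5
    obtain rfl : q = 1 := Nat.eq_one_of_mul_eq_one_left h5
    rw [p4, mem_singleton] at a2
    exact h4 (by rw [a3, a2]; rfl)
  · change Dec n W (M * q) (jc M * ψ) q ψ
    rw [Dec, hm]
    exact ⟨rfl, hcq, a2, rfl⟩

lemma core_tw_inj (hPB : St_PB) {W q q' : ℕ} {ψ ψ' : ℕ → ℂ} (hW : 0 < W) (h1 : q ∣ W)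
    (h2 : q' ∣ W) (h3 : ψ ∈ prim q) (h4 : ψ' ∈ prim q') (h : tw W ψ = tw W ψ') :
    q = q' ∧ ψ = ψ' := by
  refine hPB.2.2.2.2.1 q q' ψ ψ' W (Nat.pos_of_dvd_of_pos h1 hW) (Nat.pos_of_dvd_of_pos h2 hW) hW
    h3 h4 fun k hk => ?_
  have h5 := congrFun h k
  have h6 : Nat.Coprime k W := hk.coprime_dvd_right (Dvd.intro_left _ rfl)
  simp only [tw, if_pos h6] at h5
  exact h5

/-- the comparison with the model sum -/
lemma core_model (hPB : St_PB) {n W Q R N0 : ℕ} {l T e lam0 Λ c : ℝ} {f : (ℕ → ℂ) → ℝ}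
    (hf : ∀ χ, 0 ≤ f χ) (hn : 0 < n) (hW0 : 0 < W) (hW : Even W) (hT : 1 ≤ T) (hTl : T ≤ l)
    (hl : 0 < l) (hlam : lam0 ≤ Λ) (he : Λ / l ≤ e) (hQ : Real.exp l * W ≤ Q) (hR : W ≤ R)
    (hG : Good (Bad Q W T e) n W N0 l)
    (hcard : (((Bad Q W T e).filter (Rel n W R)).filter
      fun x => HasZ (tw W x.2) (1 - Λ / l) T).card ≤ N0)
    (hno : ∀ x ∈ (Bad Q W T e).filter (Rel n W R), ¬ HasZ (tw W x.2) (1 - lam0 / l) l)
    (hM : ∀ L : ℕ, Squarefree L → Nat.Coprime L W → (L : ℝ) ≤ Real.exp l →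
      ((GF L W).filter fun x => HasZ (jc x.1 * x.2) (1 - Λ / l) T).card ≤ N0 →
      (∀ x ∈ GF L W, ¬ HasZ (jc x.1 * x.2) (1 - lam0 / l) T) →
      ∑ x ∈ (GF L W).filter (fun x => HasZ (jc x.1 * x.2) (1 - Λ / l) 1), f (jc x.1 * x.2) ≤ c) :
    ∑ x ∈ ((Bad Q W T e).filter (Rel n W R)).filter
      (fun x => HasZ (tw W x.2) (1 - Λ / l) 1 ∧ RelW n W x), f (tw W x.2) ≤ c := by
  set F := (Bad Q W T e).filter (Rel n W R) with hF
  set FT := F.filter fun x => HasZ (tw W x.2) (1 - Λ / l) T with hFT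
  set L : ℕ := FT.lcm fun x => Mof n W x.1 with hLdef
  have hL : L ∣ coreL0 n W := Finset.lcm_dvd fun x _ => core_mof_dvd hn W x.1
  have hLl : (L : ℝ) ≤ Real.exp l :=
    hG FT ((filter_subset _ _).trans (filter_subset _ _)) hcard
  have hLs : Squarefree L := (core_L0_sqfree n W).squarefree_of_dvd hL
  have key : ∀ y : ℕ × (ℕ → ℂ), ∃ q ψ, y ∈ GF L W → HasZ (jc y.1 * y.2) (1 - Λ / l) T →
      (q ∣ W ∧ ψ ∈ prim q ∧ y.2 = tw W ψ ∧ Mof n W (y.1 * q) = y.1) ∧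
        (⟨y.1 * q, jc y.1 * ψ⟩ : XX) ∈ FT := fun y => by
    by_cases hy : y ∈ GF L W
    swap
    · exact ⟨0, 0, fun h => (hy h).elim⟩
    obtain ⟨q, ψ, a1, a2, a3, a4, a5, a6⟩ := core_lift hPB hW hL hW0 hy
    refine ⟨q, ψ, fun _ hz => ⟨⟨a1, a6.2.2.1, a2, a5⟩, ?_⟩⟩
    have b1 : q ≤ W := Nat.le_of_dvd hW0 a1
    have b2 : y.1 ≤ L := Nat.divisor_le (mem_product.1 (mem_filter.1 hy).1).1
    have b3 : y.1 * q ≤ Q := by
      have : ((y.1 * q : ℕ) : ℝ) ≤ Q := by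
        refine le_trans ?_ hQ
        push_cast
        exact mul_le_mul ((Nat.cast_le.2 b2).trans hLl) (Nat.cast_le.2 b1) (Nat.cast_nonneg _)
          (Real.exp_pos _).le
      exact_mod_cast this
    rw [a2, ← core_tw_mul] at hz
    exact mem_filter.2 ⟨mem_filter.2 ⟨mem_filter.2 ⟨core_mem_PP.2 ⟨⟨a3, b3⟩, a4⟩,
      core_hasZ_mono hz (by linarith) le_rfl⟩, q, ψ, b1.trans hR, a6⟩, hz⟩
  choose q ψ hq using key
  have h1 : ((GF L W).filter fun x => HasZ (jc x.1 * x.2) (1 - Λ / l) T).card ≤ N0 := by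
    refine le_trans (card_le_card_of_injOn (fun y => (⟨y.1 * q y, jc y.1 * ψ y⟩ : XX))
      (fun y hy => ?_) fun y hy y' hy' h => ?_) hcard
    · exact (hq y (mem_filter.1 hy).1 (mem_filter.1 hy).2).2
    · obtain ⟨⟨a1, a2, a3, a4⟩, -⟩ := hq y (mem_filter.1 hy).1 (mem_filter.1 hy).2
      obtain ⟨⟨b1, b2, b3, b4⟩, -⟩ := hq y' (mem_filter.1 hy').1 (mem_filter.1 hy').2
      have c1 : y.1 * q y = y'.1 * q y' := congrArg Sigma.fst h
      have c2 : jc y.1 * ψ y = jc y'.1 * ψ y' := congrArg (fun x : XX => x.2) h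
      have c3 : y.1 = y'.1 := by rw [← a4, ← b4, c1]
      have c4 : 0 < y'.1 := Nat.pos_of_mem_divisors (mem_product.1 (mem_filter.1
        (mem_filter.1 hy').1).1).1
      rw [c3] at c2
      have c5 := hPB.2.2.2.2.1 _ _ _ _ y'.1 (Nat.pos_of_dvd_of_pos a1 hW0)
        (Nat.pos_of_dvd_of_pos b1 hW0) c4 a2 b2 fun k hk => by
          have d1 : jc y'.1 k ≠ 0 := by
            rw [jc, Int.cast_ne_zero]
            exact jacobiSym.ne_zero (by
              rw [Int.gcd_natCast_natCast]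
              exact hk.coprime_dvd_right (Dvd.intro_left _ rfl))
          exact mul_left_cancel₀ d1 (congrFun c2 k)
      exact Prod.ext c3 (by rw [a3, b3, c5.2])
  have h2 : ∀ y ∈ GF L W, ¬ HasZ (jc y.1 * y.2) (1 - lam0 / l) T := fun y hy hz => by
    have a1 : lam0 / l ≤ Λ / l := by gcongr
    obtain ⟨⟨-, -, a3, -⟩, a5⟩ := hq y hy (core_hasZ_mono hz (by linarith) le_rfl)
    refine hno _ (mem_filter.1 a5).1 ?_
    change HasZ (tw W (jc y.1 * ψ y)) _ _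
    rw [core_tw_mul, ← a3]
    exact core_hasZ_mono hz le_rfl hTl
  refine le_trans ?_ (hM L hLs ((core_L0_coprime n W).coprime_dvd_left hL) hLl h1 h2)
  have key2 : ∀ x : XX, ∃ q ψ, RelW n W x → q ∣ W ∧ Dec n W x.1 x.2 q ψ := fun x => by
    by_cases hx : RelW n W x
    · obtain ⟨q, ψ, h⟩ := hx
      exact ⟨q, ψ, fun _ => h⟩
    · exact ⟨0, 0, fun h => (hx h).elim⟩
  choose q' ψ' hq' using key2
  set S := F.filter fun x => HasZ (tw W x.2) (1 - Λ / l) 1 ∧ RelW n W x with hS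
  let g : XX → ℕ × (ℕ → ℂ) := fun x => (Mof n W x.1, tw W (ψ' x))
  have hg : ∀ x ∈ S, tw W x.2 = jc (g x).1 * (g x).2 := fun x hx => by
    obtain ⟨-, -, -, -, a⟩ := hq' x (mem_filter.1 hx).2.2
    change _ = jc (Mof n W x.1) * tw W (ψ' x)
    rw [← core_tw_mul, ← a]
  have hinj : Set.InjOn g S := fun x hx x' hx' h => by
    obtain ⟨a1, a2, -, a4, a5⟩ := hq' x (mem_filter.1 hx).2.2
    obtain ⟨b1, b2, -, b4, b5⟩ := hq' x' (mem_filter.1 hx').2.2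
    have c1 : Mof n W x.1 = Mof n W x'.1 := congrArg Prod.fst h
    obtain ⟨c2, c3⟩ := core_tw_inj hPB hW0 a1 b1 a4 b4 (congrArg Prod.snd h)
    refine Sigma.ext (a2.trans (by rw [c1, c2]; exact b2.symm)) (heq_of_eq ?_)
    rw [a5, b5, c1, c3]
  rw [sum_congr rfl fun x hx => congrArg f (hg x hx),
    ← sum_image (f := fun y : ℕ × (ℕ → ℂ) => f (jc y.1 * y.2)) hinj]
  refine sum_le_sum_of_subset_of_nonneg (fun y hy => ?_) fun _ _ _ => hf _
  obtain ⟨x, hx, rfl⟩ := mem_image.1 hy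
  obtain ⟨hxF, hxz, hxW⟩ := mem_filter.1 hx
  obtain ⟨a1, a2, -, a4, -⟩ := hq' x hxW
  have hq0 : 0 < q' x := Nat.pos_of_dvd_of_pos a1 hW0
  refine mem_filter.2 ⟨mem_filter.2 ⟨mem_product.2 ⟨Nat.mem_divisors.2 ⟨?_, hLs.ne_zero⟩, ?_⟩,
    fun h => ?_⟩, hg x hx ▸ hxz⟩
  · exact Finset.dvd_lcm (f := fun x : XX => Mof n W x.1)
      (mem_filter.2 ⟨hxF, core_hasZ_mono hxz le_rfl hT⟩)
  · exact (hPB.1 W _ hW0).2
      (hPB.2.2.2.2.2.2.2.2.2.2.2.2.2.1 _ W _ hW0 a1 (hPB.2.1 _ _ hq0 a4))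
  · have c1 : Mof n W x.1 = 1 := congrArg Prod.fst h
    have c2 : (1 : ℕ → ℂ) ∈ prim 1 := by rw [hPB.2.2.2.1]; exact mem_singleton.2 rfl
    have c3 := (core_tw_inj hPB hW0 a1 (one_dvd W) a4 c2 (congrArg Prod.snd h)).1
    have c4 := (core_mem_PP.1 (mem_filter.1 (mem_filter.1 hxF).1).1).1.1
    rw [c1, c3] at a2
    omega

lemma core_exp_small {a c : ℝ} (ha : 0 < a) (hc : 0 < c) :
    ∀ᶠ l : ℝ in atTop, Real.exp (-(a * l)) ≤ c :=
  (Real.tendsto_exp_neg_atTop_nhds_zero.comp (tendsto_id.const_mul_atTop ha)).eventually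
    (ge_mem_nhds hc)

theorem blk_CORE (Lm : ℝ) (hL : Lm ≤ 4) (hPB : St_PB) (hTAIL : St_TAIL) (hCORES : St_CORES) :
    St_MNUM Lm → St_CORE Lm := by
  rintro ⟨α, K, hα, hK, hαK, hM⟩
  refine ⟨α, K, hα, hK, hαK, fun cg Cs hcg hcg1 hCs => ?_⟩
  have hα4 : α ≤ 4 := by linarith
  have hK1 : K ≤ 1 := by linarith
  obtain ⟨C, c6, eT, hC, hc6, heT, hT⟩ := hTAIL α K cg hα.le hα4 hK hK1 hcg hcg1
  obtain ⟨lam0, eC, hlam0, heC, hS⟩ := hCORES α K cg hα.le hα4 hK hK1 hcg hcg1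
  obtain ⟨c0, Λ0, hc0, hM⟩ := hM cg hcg hcg1 lam0 hlam0
  obtain ⟨Λ, hΛ1, hΛ2, hΛ3⟩ := ((eventually_ge_atTop Λ0).and ((eventually_ge_atTop lam0).and
    (core_exp_small (a := 3 / 2) (c := c0 / 4 / C) (by norm_num) (by positivity)))).exists
  have hΛ0 : 0 ≤ Λ := by linarith
  obtain ⟨W0, hW1, hW2⟩ := ((eventually_ge_atTop 2).and
    (((tendsto_rpow_neg_atTop (y := 1 / 4) (by norm_num)).comp
      tendsto_natCast_atTop_atTop).eventually
      (ge_mem_nhds (show 0 < c0 / 4 / (Cs * (C + 1)) by positivity)))).exists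
  have hW0 : 0 < W0.factorial := W0.factorial_pos
  have hWe : Even W0.factorial := even_iff_two_dvd.2 (Nat.dvd_factorial two_pos hW1)
  set W := W0.factorial with hW
  set N0 : ℕ := max 2 ⌈C * Real.exp (2 * Λ)⌉₊ with hN0
  obtain ⟨T, lM, hT1, hM⟩ := hM Λ hΛ1 N0 W hW0 hWe
  obtain ⟨lT, hT⟩ := hT W hW0 hWe
  refine ⟨W0, N0, T, min eT eC, hW1, le_max_left _ _, hT1, lt_min heT heC,
    fun e2 η1 e3 he2 hη hη1 he3 => ?_⟩
  obtain ⟨lC, hS⟩ := hS W hW0 hWe e3 he3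
  refine eventually_atTop.1 ?_
  filter_upwards [eventually_ge_atTop lM, eventually_ge_atTop lT, eventually_ge_atTop lC,
    eventually_ge_atTop T, eventually_ge_atTop (Λ / e2), eventually_ge_atTop (Λ / eT),
    eventually_ge_atTop (2 * W / η1 : ℝ), core_exp_small hc6 (show 0 < c0 / 4 by positivity),
    core_exp_small he3 (show 0 < c0 / 4 by positivity)]
    with l l1 l2 l3 l4 l5 l6 l7 l8 l9 Q R n om hQ hR1 hR2 hn hn5 hG hom
  have hl : 0 < l := by linarith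
  set F := (Bad Q W T e2).filter (Rel n W R) with hF
  have hRF : RF n W R l F := core_rf (le_max_left _ _) hG
  have hRe : ∀ e : ℝ, η1 ≤ e → (R : ℝ) ≤ Real.exp (e * l) := fun e he =>
    hR2.trans (Real.exp_le_exp.2 (by gcongr))
  have hRT := hRe eT (hη1.trans (min_le_left _ _))
  by_cases hex : ∃ x ∈ F, HasZ (tw W x.2) (1 - lam0 / l) l
  · refine le_trans (sum_le_sum fun x _ => ?_)
      (hS l l3 n R F hn hn5 (hRe eC (hη1.trans (min_le_right _ _))) hRF hex)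
    exact mul_le_of_le_one_left (norm_nonneg _) (hom x).2.1
  have hno : ∀ x ∈ F, ¬ HasZ (tw W x.2) (1 - lam0 / l) l := fun x hx h => hex ⟨x, hx, h⟩
  have hWe' : 2 * (W : ℝ) ≤ Real.exp (η1 * l) := by
    rw [div_le_iff₀' hη] at l7
    linarith [Real.add_one_le_exp (η1 * l)]
  have hWR : W ≤ R := by
    have : (W : ℝ) ≤ R := by linarith
    exact_mod_cast this
  have hWQ : Real.exp l * W ≤ Q := by
    refine le_trans ?_ hQ
    rw [add_mul, one_mul, Real.exp_add]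
    have : (0 : ℝ) ≤ W := Nat.cast_nonneg _
    gcongr
    linarith
  have hcard : (F.filter fun x => HasZ (tw W x.2) (1 - Λ / l) T).card ≤ N0 := by
    have h1 := (hT l l2 n R _ hn hn5 hRT (core_rf_mono hRF (filter_subset
      (fun x => HasZ (tw W x.2) (1 - Λ / l) T) F))).2 Λ hΛ0
      (by rwa [div_le_iff₀' heT] at l6)
      fun x hx => core_hasZ_mono (mem_filter.1 hx).2 le_rfl l4
    exact (Nat.cast_le.1 (h1.trans (Nat.le_ceil _))).trans (le_max_right _ _)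
  have h1 := core_model hPB (f := fun χ => ‖psiT χ l cg α K‖) (fun _ => norm_nonneg _) hn hW0 hWe
    hT1 l4 hl hΛ2 (by rw [div_le_iff₀ hl]; rwa [div_le_iff₀' he2] at l5) hWQ hWR hG
    hcard hno (hM l l1)
  have h2 := (hT l l2 n R _ hn hn5 hRT (core_rf_mono hRF (filter_subset
    (fun x => ¬ HasZ (tw W x.2) (1 - Λ / l) 1) F))).1 Λ hΛ0 (Or.inr fun x hx => (mem_filter.1 hx).2)
  have h3 := (hT l l2 n R F hn hn5 hRT hRF).1 0 le_rfl (Or.inl rfl)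
  rw [mul_zero, neg_zero, Real.exp_zero, mul_one] at h3
  have h4 : Real.exp (-(c6 * l)) ≤ 1 := Real.exp_le_one_iff.2 (by
    rw [neg_nonpos]; positivity)
  have h5 : C * Real.exp (-(3 / 2 * Λ)) ≤ c0 / 4 := by rwa [le_div_iff₀' hC] at hΛ3
  set ω : ℝ := Cs * (W0 : ℝ) ^ (-(1 / 4 : ℝ)) with hω
  have hω0 : 0 ≤ ω := by positivity
  have h6 : ω * (C + 1) ≤ c0 / 4 := by
    have : (W0 : ℝ) ^ (-(1 / 4 : ℝ)) ≤ c0 / 4 / (Cs * (C + 1)) := hW2
    rw [le_div_iff₀ (by positivity)] at this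
    linarith
  have h7 : ∑ x ∈ F, om x * ‖psiT (tw W x.2) l cg α K‖ ≤
      ∑ x ∈ F.filter (fun x => HasZ (tw W x.2) (1 - Λ / l) 1 ∧ RelW n W x),
        ‖psiT (tw W x.2) l cg α K‖ +
      ∑ x ∈ F.filter (fun x => ¬ HasZ (tw W x.2) (1 - Λ / l) 1), ‖psiT (tw W x.2) l cg α K‖ +
      ω * ∑ x ∈ F, ‖psiT (tw W x.2) l cg α K‖ := by
    rw [sum_filter (s := F), sum_filter (s := F), mul_sum, ← sum_add_distrib, ← sum_add_distrib]
    refine sum_le_sum fun x _ => ?_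
    obtain ⟨a1, a2, a3⟩ := hom x
    have a4 := norm_nonneg (psiT (tw W x.2) l cg α K)
    have a5 := mul_le_of_le_one_left a4 a2
    have a6 := mul_nonneg hω0 a4
    by_cases b1 : HasZ (tw W x.2) (1 - Λ / l) 1
    · by_cases b2 : RelW n W x
      · rw [if_pos ⟨b1, b2⟩, if_neg (not_not.2 b1)]
        linarith
      · rw [if_neg fun h => b2 h.2, if_neg (not_not.2 b1)]
        linarith [mul_le_mul_of_nonneg_right (a3 b2) a4]
    · rw [if_neg fun h => b1 h.1, if_pos b1]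
      linarith
  have h8 := mul_le_mul_of_nonneg_left (h3.trans (add_le_add le_rfl h4)) hω0
  linarith

end Pool.Agent.Lib.PS
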