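import Pool.Agent.Lib.PS.Blue

/-!
The regime of an exceptional zero.
-/

namespace Pool.Agent.Lib.PS

open Finset Real MeasureTheory Complex Filter Topology
open scoped Classical ComplexConjugate

lemma cores_exp_le {a : ℝ} (ha : 0 < a) : Real.exp (-a) ≤ 1 / a := by
  rw [Real.exp_neg, one_div]
  exact inv_anti₀ ha (by linarith [Real.add_one_le_exp a])

lemma cores_CM_mul {χ ψ : ℕ → ℂ} (h1 : CM χ) (h2 : CM ψ) : CM (χ * ψ) := by
  refine ⟨by simp [h1.1, h2.1], fun m n => ?_, fun n => ?_⟩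
  · simp only [Pi.mul_apply, h1.2.1, h2.2.1]; ring
  · simp only [Pi.mul_apply, norm_mul]
    exact mul_le_one₀ (h1.2.2 n) (norm_nonneg _) (h2.2.2 n)

lemma cores_cj_real {χ : ℕ → ℂ} (h : RealV χ) : cj χ = χ := by
  funext k
  exact Complex.conj_eq_iff_im.mpr (h k)

lemma cores_Hs (hWT : St_WT) {α K cg l l1 : ℝ} (h3 : 3 ≤ α) (h4 : α ≤ 4) (hK : 0 < K)
    (hK1 : K ≤ 1) (hcg : 0 < cg) (hcg1 : cg ≤ 1) (hl : 1 ≤ l) (h0 : 0 < l1) (h1 : l1 ≤ 1 / 10) :
    ‖Hs (l / cg) α K l1‖ ≤ 1 - 2 * l1 := by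
  obtain ⟨-, -, -, hH, -⟩ := hWT α K h3 h4 hK hK1
  have hb := (hH (l1 : ℂ) (by simp [h0.le])).1
  simp only [Complex.ofReal_re] at hb
  have e1 : ((l1 : ℂ) ^ 2 / (2 * ((l / cg : ℝ) : ℂ))) = ((l1 ^ 2 / (2 * (l / cg)) : ℝ) : ℂ) := by
    push_cast; ring
  have e2 : l1 ^ 2 / (2 * (l / cg)) ≤ l1 / 2 := by
    have hκ : 1 ≤ l / cg := by
      rw [le_div_iff₀ hcg]; linarith
    rw [div_le_div_iff₀ (by positivity) (by norm_num)]
    nlinarith
  unfold Hs
  rw [norm_mul, e1, Complex.norm_exp_ofReal]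
  calc ‖HH α K l1‖ * Real.exp (l1 ^ 2 / (2 * (l / cg)))
      ≤ Real.exp (-(α * l1)) * Real.exp (l1 / 2) :=
        mul_le_mul hb (Real.exp_le_exp.mpr e2) (Real.exp_pos _).le (Real.exp_pos _).le
    _ = Real.exp (-(α * l1) + l1 / 2) := by rw [Real.exp_add]
    _ ≤ Real.exp (-(5 / 2 * l1)) := Real.exp_le_exp.mpr (by nlinarith)
    _ ≤ 1 - 2 * l1 := by
        rw [Real.exp_neg, inv_le_comm₀ (Real.exp_pos _) (by linarith)]
        have := Real.add_one_le_exp (5 / 2 * l1)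
        refine le_trans ?_ this
        rw [inv_le_iff_one_le_mul₀ (by linarith)]
        nlinarith

lemma cores_split (Z : Multiset ℂ) (H : ℂ → ℂ) (lm : ℝ) (z1 : ℂ)
    (h : ∀ z ∈ Z, z.re < lm → z = z1 ∧ Z.count z ≤ 1) :
    ‖(Z.map H).sum‖ ≤ ‖H z1‖ + ((Z.filter fun z => lm ≤ z.re).map fun z => ‖H z‖).sum := by
  have hs : Z = Z.filter (fun z => ¬ lm ≤ z.re) + Z.filter (fun z => lm ≤ z.re) := by
    rw [add_comm]; exact (Multiset.filter_add_not _ Z).symm
  have hle : Z.filter (fun z => ¬ lm ≤ z.re) ≤ {z1} := by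
    rw [Multiset.le_iff_count]
    intro z
    rw [Multiset.count_filter]
    split_ifs with hz
    · exact Nat.zero_le _
    · by_cases hm : z ∈ Z
      · obtain ⟨e, hc⟩ := h z hm (not_le.mp hz)
        rw [e] at hc ⊢
        simpa using hc
      · rw [Multiset.count_eq_zero.mpr hm]; exact Nat.zero_le _
  have h1 : ‖((Z.filter fun z => ¬ lm ≤ z.re).map H).sum‖ ≤ ‖H z1‖ := by
    rcases Multiset.le_singleton.mp hle with e | e
    · rw [e]; simp
    · rw [e]; simp
  have h2 : ‖((Z.filter fun z => lm ≤ z.re).map H).sum‖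
      ≤ ((Z.filter fun z => lm ≤ z.re).map fun z => ‖H z‖).sum := by
    have := norm_multiset_sum_le ((Z.filter fun z => lm ≤ z.re).map H)
    rwa [Multiset.map_map] at this
  calc ‖(Z.map H).sum‖ = ‖((Z.filter fun z => ¬ lm ≤ z.re).map H).sum
        + ((Z.filter fun z => lm ≤ z.re).map H).sum‖ := by
        conv_lhs => rw [hs]
        rw [Multiset.map_add, Multiset.sum_add]
    _ ≤ _ := (norm_add_le _ _).trans (add_le_add h1 h2)

lemma cores_nonpr (hPB : St_PB) {r W : ℕ} {χ : ℕ → ℂ} (hr : 2 ≤ r) (hW : 0 < W)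
    (hχ : χ ∈ prim r) : NonPr (r * W) (tw W χ) := by
  obtain ⟨-, -, -, h4, h5, -⟩ := hPB
  by_contra hn
  have hall : ∀ k, Nat.Coprime k (r * 1 * W) → χ k = (fun _ => (1 : ℂ)) k := by
    intro k hk
    rw [mul_one] at hk
    by_contra hne
    apply hn
    refine ⟨k, hk, ?_⟩
    have hkW : Nat.Coprime k W := Nat.Coprime.coprime_mul_left_right hk
    unfold tw
    rw [if_pos hkW]
    exact hne
  have := (h5 r 1 χ (fun _ => 1) W (by omega) one_pos hW hχ (by rw [h4]; simp) hall).1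
  omega

lemma cores_min_exp (a b c : ℝ) :
    Real.exp (-(3 / 2 * (min (min a b) c - 1)))
      ≤ Real.exp (3 / 2) * (Real.exp (-(3 / 2 * a)) + Real.exp (-(3 / 2 * b))
        + Real.exp (-(3 / 2 * c))) := by
  have e : Real.exp (-(3 / 2 * (min (min a b) c - 1)))
      = Real.exp (3 / 2) * Real.exp (-(3 / 2 * min (min a b) c)) := by
    rw [← Real.exp_add]; congr 1; ring
  rw [e]
  refine mul_le_mul_of_nonneg_left ?_ (Real.exp_pos _).le
  have ha := Real.exp_pos (-(3 / 2 * a))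
  have hb := Real.exp_pos (-(3 / 2 * b))
  have hc := Real.exp_pos (-(3 / 2 * c))
  rcases min_choice (min a b) c with h | h
  · rcases min_choice a b with h' | h'
    · rw [h, h']; linarith
    · rw [h, h']; linarith
  · rw [h]; linarith

theorem blk_CORES (hPB : St_PB) (hFAM : St_FAM) (hCANC : St_CANC) (hLDX : St_LDX)
    (hPSI : St_PSI) (hWT : St_WT) (hZF : St_ZF) (hDH : St_DH) (hSIEG : St_SIEG)
    (hTAIL : St_TAIL) : St_CORES := by
  intro α K cg h3 h4 hK hK1 hcg hcg1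
  obtain ⟨c, eF, hc, hc2, heF, hF⟩ := hFAM.2 (1 / 100) (by norm_num)
  obtain ⟨c5, lZ, hc5, hZ⟩ := hZF c hc hc2
  obtain ⟨CD, eD, lD, heD, hD⟩ := hDH c (13 / 50) (17 / 20) hc hc2 (by norm_num) (by norm_num)
    (by norm_num)
  obtain ⟨CT, c6, eT, hCT, hc6, heT, hT⟩ := hTAIL α K cg h3 h4 hK hK1 hcg hcg1
  obtain ⟨CP, c1, η, lP, hCP, hc1, hη, hP⟩ := hPSI c α K cg hc hc2 h3 h4 hK hK1 hcg hcg1
  obtain ⟨lL, hL⟩ := hLDX.1 c η hc hc2 hη
  have hL4 := hLDX.2.2.2.1
  set K0 : ℝ := (CT + CP) * Real.exp (3 / 2) with hK0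
  have hK0p : 0 < K0 := by positivity
  set K1 : ℝ := K0 * Real.exp (3 / 2 * CD) with hK1d
  have hK1p : 0 < K1 := by positivity
  set L0 : ℝ := 2 * K1 + |CD + 1| + 1 / c5 + 10 with hL0
  have hic5 : 0 < 1 / c5 := by positivity
  have habs : 0 ≤ |CD + 1| := abs_nonneg _
  have hL0p : 0 < L0 := by positivity
  have hlam1 : Real.exp (-L0) ≤ c5 := by
    refine (cores_exp_le hL0p).trans ?_
    rw [div_le_comm₀ hL0p hc5]; linarith
  have hlam2 : Real.exp (-L0) ≤ 1 / 10 := by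
    refine (cores_exp_le hL0p).trans ?_
    exact one_div_le_one_div_of_le (by norm_num) (by linarith)
  refine ⟨Real.exp (-L0), min (min eF eT) 1, Real.exp_pos _, by positivity, ?_⟩
  intro W hW hWe e3 he3
  obtain ⟨lF, hF⟩ := hF W hW hWe
  obtain ⟨lT, hT⟩ := hT W hW hWe
  set cs : ℝ := min (min (min (3 / 2 * eD) (3 / 4 * c)) (min c6 c1)) e3 with hcs
  have hcsp : 0 < cs := by positivity
  obtain ⟨cS, hcS, hS⟩ := hSIEG (cs / 5) (by positivity)
  refine ⟨max (max (max (max lF lT) (max lZ lD)) (max lP lL))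
    (max (max (1 / eD) (2 / c)) (max (max 1 (W : ℝ)) ((2 * K0 + 3) / cS))), ?_⟩
  intro l hl n R F hn hn5 hR hRF hex
  simp only [max_le_iff] at hl
  obtain ⟨⟨⟨⟨hlF, hlT⟩, hlZ, hlD⟩, hlP, hlL⟩, ⟨hleD, hlc⟩, ⟨hl1, hlW⟩, hlS⟩ := hl
  have hl0 : 0 < l := by linarith
  have hRF' : (R : ℝ) ≤ Real.exp (eF * l) :=
    hR.trans (Real.exp_le_exp.mpr (mul_le_mul_of_nonneg_right
      ((min_le_left _ _).trans (min_le_left _ _)) hl0.le))
  have hRT : (R : ℝ) ≤ Real.exp (eT * l) :=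
    hR.trans (Real.exp_le_exp.mpr (mul_le_mul_of_nonneg_right
      ((min_le_left _ _).trans (min_le_right _ _)) hl0.le))
  have hR1 : (R : ℝ) ≤ Real.exp l :=
    hR.trans (Real.exp_le_exp.mpr (by
      have := mul_le_mul_of_nonneg_right (min_le_right (min eF eT) 1) hl0.le
      linarith))
  have hM : ∀ x ∈ F, (Mof n W x.1 : ℝ) ≤ Real.exp l := by
    intro x hx
    have := hRF.2 x hx x hx
    rwa [Nat.lcm_self] at this
  have hfam : ∀ x ∈ F, CM (tw W x.2) ∧ Canc (tw W x.2) c (Real.exp (13 / 50 * l)) := by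
    intro x hx
    obtain ⟨a1, a2, a3⟩ := hRF.1 x hx
    obtain ⟨b1, b2, -, -⟩ := hF l hlF n R x hRF' a1 a2 a3
    refine ⟨b1, ?_⟩
    have := b2 1 (by norm_num) (by norm_num) (by simpa using hM x hx)
    convert this using 3
    norm_num
  have hLD : ∀ x ∈ F, LD (lam (tw W x.2)) (LL (tw W x.2)) 0 c l (13 / 50) η (l ^ 2) := by
    intro x hx
    exact hL l hlL _ _ (hfam x hx).1 (by norm_num) (by norm_num) (hfam x hx).2
  obtain ⟨x, hx, ρ, hρ1, hρ2, hρ3⟩ := hex
  obtain ⟨a1, a2, a3⟩ := hRF.1 x hx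
  obtain ⟨b1, -, b3, -⟩ := hF l hlF n R x hRF' a1 a2 a3
  have hch : IsChar (x.1 * W) (tw W x.2) :=
    hPB.2.2.2.2.2.2.2.2.2.2.2.2.1 _ _ _ hW (hPB.2.1 _ _ (by omega) a2)
  have hq5 : ((x.1 * W : ℕ) : ℝ) ≤ Real.exp (5 * l) := by
    obtain ⟨q, ψ, hq, hdec, -⟩ := a3
    have e1 : ((x.1 : ℕ) : ℝ) = (Mof n W x.1 : ℝ) * q := by exact_mod_cast hdec
    have e2 : (q : ℝ) ≤ Real.exp l := le_trans (by exact_mod_cast hq) hR1
    have e3' : (W : ℝ) ≤ Real.exp l := by linarith [Real.add_one_le_exp l]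
    have e4 : ((x.1 * W : ℕ) : ℝ) ≤ Real.exp l * Real.exp l * Real.exp l := by
      push_cast
      rw [e1]
      have := hM x hx
      gcongr
    refine e4.trans ?_
    rw [← Real.exp_add, ← Real.exp_add]
    exact Real.exp_le_exp.mpr (by linarith)
  have hmono : ∀ (χ : ℕ → ℂ) (b : ℝ), CM χ → b ≤ 3 → Canc χ c (Real.exp (b * l)) →
      Canc χ c (Real.exp (3 * l)) := by
    intro χ b h1 h2 h3'
    exact hCANC.1 χ c c _ _ h1 hc le_rfl (by linarith) (Real.exp_pos _).le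
      (Real.exp_le_exp.mpr (mul_le_mul_of_nonneg_right h2 hl0.le)) h3'
  have hl1le : (1 - ρ.re) * l ≤ Real.exp (-L0) := by
    have : 1 - ρ.re ≤ Real.exp (-L0) / l := by linarith
    rwa [le_div_iff₀ hl0] at this
  obtain ⟨hreal, him⟩ := hZ l hlZ (x.1 * W) (tw W x.2) ρ hch hq5
    (hmono _ _ b1 (by norm_num) (hfam x hx).2)
    (by
      rcases b3 ((hM x hx).trans (Real.exp_le_exp.mpr (by linarith))) with h | h
      · exact Or.inl h
      · exact Or.inr (hmono _ _ (cores_CM_mul b1 b1) (by norm_num) h))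
    hρ3 hρ2 (hl1le.trans hlam1)
  set β : ℝ := ρ.re with hβ
  have hρβ : ρ = (β : ℂ) := Complex.ext (by simp [hβ]) (by simp [him])
  set l1 : ℝ := (1 - β) * l with hl1d
  have hl1' : l1 ≤ 1 / 10 := hl1le.trans hlam2
  have hβ1 : 1 - β ≤ 1 / (10 * l) := by
    rw [le_div_iff₀ (by positivity)]; linarith
  have hcl : 2 ≤ c * l := by
    rw [div_le_iff₀ hc] at hlc; linarith
  have hβ2 : 1 - c < β := by
    have : 1 / (10 * l) < c := by
      rw [div_lt_iff₀ (by positivity)]; linarith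
    linarith
  have hsg := hS (x.1 * W) (tw W x.2) β hch hreal (cores_nonpr hPB a1 hW a2) (by linarith)
    (by rw [← hρβ]; exact hρ3)
  have hqpos : (0 : ℝ) < ((x.1 * W : ℕ) : ℝ) := by
    have : 0 < x.1 * W := Nat.mul_pos (by omega) hW
    exact_mod_cast this
  have hsg2 : Real.exp (-(cs * l)) ≤ ((x.1 * W : ℕ) : ℝ) ^ (-(cs / 5)) := by
    have e : Real.exp (-(cs * l)) = (Real.exp (5 * l)) ^ (-(cs / 5)) := by
      rw [← Real.exp_mul]; congr 1; ring
    rw [e]
    exact Real.rpow_le_rpow_of_nonpos hqpos hq5 (by linarith)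
  have hl1low : cS * l * Real.exp (-(cs * l)) ≤ l1 := by
    have : cS * Real.exp (-(cs * l)) ≤ 1 - β :=
      (mul_le_mul_of_nonneg_left hsg2 hcS.le).trans hsg
    have := mul_le_mul_of_nonneg_right this hl0.le
    linarith
  have hl1pos : 0 < l1 := lt_of_lt_of_le (by positivity) hl1low
  have hzo1 : 1 ≤ zo (LL (tw W x.2)) l l1 := by
    unfold zo
    have e : (1 : ℂ) - (l1 : ℂ) / (l : ℂ) = ρ := by
      rw [hρβ, hl1d]
      have : (l : ℂ) ≠ 0 := by exact_mod_cast hl0.ne'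
      push_cast
      field_simp
      ring
    rw [e]
    exact (hL4 _ _ _ _ _ _ _ _ ρ hc (hLD x hx) hβ2).mp hρ3
  obtain ⟨hDa, hDb⟩ := hD l hlD (tw W x.2) l1 b1 hreal (hfam x hx).2 hl1pos (by linarith) hzo1
  set B : ℝ := min (Real.log (1 / l1) / (17 / 20) - CD) (eD * l) with hB
  set lm : ℝ := min B (c * l / 2) - 1 with hlm
  have hLL : L0 ≤ Real.log (1 / l1) := by
    rw [Real.le_log_iff_exp_le (by positivity), le_div_iff₀ hl1pos]
    have h1 : Real.exp L0 * Real.exp (-L0) = 1 := by rw [← Real.exp_add]; simp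
    have := mul_le_mul_of_nonneg_left hl1le (Real.exp_pos L0).le
    linarith
  have hlm0 : 0 ≤ lm := by
    have h1 : 1 ≤ Real.log (1 / l1) / (17 / 20) - CD := by
      have := le_abs_self (CD + 1)
      have h2 : Real.log (1 / l1) ≤ Real.log (1 / l1) / (17 / 20) := by
        rw [le_div_iff₀ (by norm_num)]; linarith
      linarith
    have h2 : 1 ≤ eD * l := by
      rw [div_le_iff₀ heD] at hleD; linarith
    have h3' : 1 ≤ min B (c * l / 2) := le_min (le_min h1 h2) (by linarith)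
    linarith
  have hlmB : lm < B := by linarith [min_le_left B (c * l / 2)]
  have hlmc : lm < c * l / 2 := by linarith [min_le_right B (c * l / 2)]
  have hll : l ≤ l ^ 2 := le_self_pow₀ hl1 two_ne_zero
  -- the other members
  have hrest : ∑ y ∈ F.erase x, ‖psiT (tw W y.2) l cg α K‖
      ≤ CT * Real.exp (-(3 / 2 * lm)) + Real.exp (-(c6 * l)) := by
    have hRF2 : RF n W R l (F.erase x) :=
      ⟨fun y hy => hRF.1 y (mem_of_mem_erase hy),
        fun y hy z hz => hRF.2 y (mem_of_mem_erase hy) z (mem_of_mem_erase hz)⟩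
    refine (hT l hlT n R (F.erase x) hn hn5 hRT hRF2).1 lm hlm0 (Or.inr ?_)
    rintro y hy ⟨τ, t1, t2, t3⟩
    have hyF := mem_of_mem_erase hy
    obtain ⟨d1, d2, d3⟩ := hRF.1 y hyF
    obtain ⟨-, -, -, f4⟩ := hF l hlF n R y hRF' d1 d2 d3
    have hpair := f4 x a1 a2 a3 (ne_of_mem_erase hy) (hRF.2 y hyF x hx)
    rw [cores_cj_real hreal, mul_comm] at hpair
    have hpair' : Canc (tw W x.2 * tw W y.2) c (Real.exp (13 / 50 * l)) := by
      convert hpair using 3
      norm_num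
    have hre : (((1 - τ) * l : ℂ)).re = (1 - τ.re) * l := by simp
    have him' : (((1 - τ) * l : ℂ)).im = -τ.im * l := by simp
    have hle : (1 - τ.re) * l ≤ lm := by
      have : 1 - τ.re ≤ lm / l := by linarith
      rwa [le_div_iff₀ hl0] at this
    have hτ : 1 - c < τ.re := by
      by_contra hh
      have : c * l ≤ (1 - τ.re) * l := mul_le_mul_of_nonneg_right (by linarith) hl0.le
      linarith
    have hzo : 1 ≤ zo (LL (tw W y.2)) l ((1 - τ) * l) := by
      unfold zo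
      have e : (1 : ℂ) - ((1 - τ) * l) / (l : ℂ) = τ := by
        have : (l : ℂ) ≠ 0 := by exact_mod_cast hl0.ne'
        field_simp
        ring
      rw [e]
      exact (hL4 _ _ _ _ _ _ _ _ τ hc (hLD y hyF) hτ).mp t3
    have := hDb (tw W y.2) ((1 - τ) * l) (hfam y hyF).1 (hfam y hyF).2 hpair'
      (by rw [hre]; linarith)
      (by
        rw [him', abs_mul, abs_neg, abs_of_pos hl0]
        have := mul_le_mul_of_nonneg_right t2 hl0.le
        linarith) hzo
    rw [hre] at this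
    linarith
  -- the exceptional member
  have hexc : ‖psiT (tw W x.2) l cg α K‖
      ≤ 1 - 2 * l1 + CP * Real.exp (-(3 / 2 * lm)) + Real.exp (-(c1 * l)) := by
    obtain ⟨Z, z1, z2, z3, z4, -⟩ := hP l hlP _ _ 0 (13 / 50) (l ^ 2) (hLD x hx) le_rfl
      (by norm_num) (by norm_num) (by norm_num) (by positivity)
    have hsp := cores_split Z (Hs (l / cg) α K) lm l1 (by
      intro z hz hzl
      have hn' := (z2 z hz).2
      have hre : z.re < c * l / 2 := by linarith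
      have him' : |z.im| ≤ l ^ 2 := by
        have := Complex.abs_im_le_norm z
        have : c * l ≤ 1 / 2 * l := mul_le_mul_of_nonneg_right hc2 hl0.le
        linarith
      have hzz : zo (LL (tw W x.2)) l z ≤ (if z = l1 then 1 else 0) := by
        by_contra hh
        have := hDa z hre him' (not_le.mp hh)
        linarith
      have hcnt := (z1 z).trans hzz
      have hpos : 0 < Z.count z := Multiset.count_pos.mpr hz
      by_cases e : z = l1
      · rw [if_pos e] at hcnt; exact ⟨e, hcnt⟩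
      · rw [if_neg e] at hcnt; omega)
    have hH := cores_Hs hWT h3 h4 hK hK1 hcg hcg1 hl1 hl1pos hl1'
    have h5 := z4 lm hlm0
    have h6 : CP * Real.exp (-((α - 1 / 4) * lm)) ≤ CP * Real.exp (-(3 / 2 * lm)) :=
      mul_le_mul_of_nonneg_left (Real.exp_le_exp.mpr (neg_le_neg
        (mul_le_mul_of_nonneg_right (by linarith only [h3]) hlm0))) hCP.le
    have h7 : ‖psiT (tw W x.2) l cg α K‖ ≤ ‖Ks (lam (tw W x.2)) (hs (l / cg) α K) l 0 - (0 : ℝ)
        + (Z.map (Hs (l / cg) α K)).sum‖ + ‖(Z.map (Hs (l / cg) α K)).sum‖ := by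
      have := norm_sub_le (Ks (lam (tw W x.2)) (hs (l / cg) α K) l 0 - (0 : ℝ)
        + (Z.map (Hs (l / cg) α K)).sum) ((Z.map (Hs (l / cg) α K)).sum)
      simpa [psiT] using this
    linarith
  rw [← Finset.add_sum_erase F _ hx]
  have hme := cores_min_exp (Real.log (1 / l1) / (17 / 20) - CD) (eD * l) (c * l / 2)
  have hE := Real.exp_pos (-(cs * l))
  have hcmp : ∀ a : ℝ, cs * l ≤ a → Real.exp (-a) ≤ Real.exp (-(cs * l)) :=
    fun a ha => Real.exp_le_exp.mpr (by linarith)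
  have hm1 : cs ≤ 3 / 2 * eD :=
    (min_le_left _ _).trans ((min_le_left _ _).trans (min_le_left _ _))
  have hm2 : cs ≤ 3 / 4 * c :=
    (min_le_left _ _).trans ((min_le_left _ _).trans (min_le_right _ _))
  have hm3 : cs ≤ c6 := (min_le_left _ _).trans ((min_le_right _ _).trans (min_le_left _ _))
  have hm4 : cs ≤ c1 := (min_le_left _ _).trans ((min_le_right _ _).trans (min_le_right _ _))
  have hm5 : cs ≤ e3 := min_le_right _ _
  have g1 := hcmp (3 / 2 * (eD * l))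
    (by linarith only [mul_le_mul_of_nonneg_right hm1 hl0.le])
  have g2 := hcmp (3 / 2 * (c * l / 2))
    (by linarith only [mul_le_mul_of_nonneg_right hm2 hl0.le])
  have g3 := hcmp (c6 * l) (mul_le_mul_of_nonneg_right hm3 hl0.le)
  have g4 := hcmp (c1 * l) (mul_le_mul_of_nonneg_right hm4 hl0.le)
  have g5 := hcmp (e3 * l) (mul_le_mul_of_nonneg_right hm5 hl0.le)
  have g6 : K0 * Real.exp (-(3 / 2 * (Real.log (1 / l1) / (17 / 20) - CD))) ≤ l1 := by
    have e : Real.exp (-(3 / 2 * (Real.log (1 / l1) / (17 / 20) - CD)))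
        = Real.exp (3 / 2 * CD) * Real.exp (-(13 / 17 * Real.log (1 / l1)))
          * Real.exp (-Real.log (1 / l1)) := by
      rw [← Real.exp_add, ← Real.exp_add]; congr 1; ring
    have e2 : Real.exp (-Real.log (1 / l1)) = l1 := by
      rw [one_div, Real.log_inv, neg_neg, Real.exp_log hl1pos]
    have e3' : Real.exp (-(13 / 17 * Real.log (1 / l1))) ≤ 1 / K1 := by
      refine (cores_exp_le (by linarith)).trans ?_
      exact one_div_le_one_div_of_le hK1p (by linarith)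
    rw [e, e2]
    calc K0 * (Real.exp (3 / 2 * CD) * Real.exp (-(13 / 17 * Real.log (1 / l1))) * l1)
        = K1 * Real.exp (-(13 / 17 * Real.log (1 / l1))) * l1 := by rw [hK1d]; ring
      _ ≤ K1 * (1 / K1) * l1 := by gcongr
      _ = l1 := by field_simp
  have g7 : (CT + CP) * Real.exp (-(3 / 2 * lm)) ≤ l1 + 2 * K0 * Real.exp (-(cs * l)) := by
    have h1 := mul_le_mul_of_nonneg_left hme (by positivity : 0 ≤ CT + CP)
    have h2 := mul_le_mul_of_nonneg_left g1 hK0p.le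
    have h3' := mul_le_mul_of_nonneg_left g2 hK0p.le
    rw [← mul_assoc, ← hK0] at h1
    rw [hlm, hB]
    linarith
  have g8 : (2 * K0 + 3) * Real.exp (-(cs * l)) ≤ l1 := by
    refine le_trans (mul_le_mul_of_nonneg_right ?_ hE.le) hl1low
    rw [div_le_iff₀ hcS] at hlS; linarith
  linarith

end Pool.Agent.Lib.PS
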