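import Pool.Agent.Lib.PS.Blue

/-! The crude density estimate. -/

namespace Pool.Agent.Lib.PS

open Finset Real Filter Topology
open scoped Classical

lemma dc_small {c η : ℝ} (hc : 0 < c) (hη : 0 < η) :
    ∃ l0 : ℝ, ∀ l, l0 ≤ l → Real.exp (-(c * l)) ≤ η := by
  have h : Tendsto (fun l : ℝ => Real.exp (-(c * l))) atTop (𝓝 0) :=
    Real.tendsto_exp_neg_atTop_nhds_zero.comp (tendsto_id.const_mul_atTop hc)
  exact eventually_atTop.mp (h.eventually (ge_mem_nhds hη))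

lemma dc_log {u x l : ℝ} (hl : 0 < l) {n : ℕ} (hn : n ∈ seg u x l) : Real.log n / l ≤ x := by
  obtain ⟨h1, h2⟩ := mem_Ioc.mp hn
  have h3 : (0 : ℝ) < n := by exact_mod_cast (by omega : 0 < n)
  rw [div_le_iff₀ hl, Real.log_le_iff_le_exp h3]
  exact (Nat.cast_le.mpr h2).trans (Nat.floor_le (Real.exp_pos _).le)

lemma dc_final {A S V C T η : ℝ} (hA : 0 ≤ A) (hS0 : 0 ≤ S) (hS : S ≤ V) (hT : T ≤ A * C)
    (hη0 : 0 ≤ η) (hη : η ≤ 1 / (8 * (|V| + 1))) (h : ((1 - η) * A) ^ 2 ≤ S * (T + η * A ^ 2)) :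
    A ≤ 8 * (|V| * |C|) + 1 := by
  have hV := abs_nonneg V
  have hC := abs_nonneg C
  have hSV : S ≤ |V| := hS.trans (le_abs_self V)
  rw [le_div_iff₀ (by positivity)] at hη
  have h1 : η ≤ 1 / 8 := by nlinarith
  have h2 : S * η ≤ 1 / 8 := by nlinarith
  have h3 : T ≤ A * |C| := hT.trans (mul_le_mul_of_nonneg_left (le_abs_self C) hA)
  have h4 : S * T ≤ |V| * (A * |C|) :=
    (mul_le_mul_of_nonneg_left h3 hS0).trans (mul_le_mul_of_nonneg_right hSV (by positivity))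
  have h5 : (A / 2) ^ 2 ≤ ((1 - η) * A) ^ 2 := by
    refine pow_le_pow_left₀ (by positivity) ?_ 2
    nlinarith
  have h6 := mul_le_mul_of_nonneg_right h2 (sq_nonneg A)
  by_contra h7
  have h8 : 0 ≤ |V| * |C| := by positivity
  nlinarith

theorem blk_DC (hSW : St_SW) (hD : St_DEN0) : St_DC := by
  intro c b x hc hc' hb hx
  obtain ⟨δ, hδ, rfl⟩ : ∃ δ : ℝ, 0 < δ ∧ x = 2 * b + 6 * δ := ⟨(x - 2 * b) / 6, by linarith, by ring⟩
  let D : DD := ⟨b + 3 * δ, b + 4 * δ, δ, 2 * b + 6 * δ, fun _ => 1 / δ, fun _ => 1⟩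
  have hV : D.Valid :=
    { w_pos := hδ
      u_pos := by change 0 < b + 3 * δ; linarith
      uv := by change b + 3 * δ < b + 4 * δ; linarith
      vx := by change b + 4 * δ < 2 * b + 6 * δ; linarith
      p_cont := continuousOn_const
      p_int := by
        change ∫ _ in (b + 3 * δ)..(b + 4 * δ), 1 / δ = 1
        rw [intervalIntegral.integral_const, smul_eq_mul]
        field_simp
        ring
      G_lip := ⟨0, fun s _ t _ => by simp [D]⟩
      G_pos := fun _ _ => one_pos }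
  obtain ⟨l1, h1⟩ := hSW D 0 (δ / 2) hV (by linarith)
  obtain ⟨e1, c4, l2, he1, hc4, h2⟩ := hD D c δ hV hc hc' hδ
    (by change 2 * δ + δ ≤ b + 3 * δ; linarith)
  set V := D.V + δ / 2
  set C0 := (1 + δ / 2) * D.Dn D.x 0 / D.w + δ / 2
  obtain ⟨l3, h3⟩ := dc_small (η := 1 / (8 * (|V| + 1))) hc4 (by positivity)
  refine ⟨8 * (|V| * |C0|) + 1, e1, max (max l1 l2) (max l3 1), by positivity, he1,
    fun l hl ι J χ ρ hJ hJJ => ?_⟩
  simp only [max_le_iff] at hl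
  obtain ⟨⟨hl1, hl2⟩, hl3, hl4⟩ := hl
  have hl0 : 0 < l := by linarith
  obtain ⟨ψ, θ, t1, t2, t3, t4, t5, t6, t7⟩ := h1 l hl1
  have h4 := h2 l hl2 ψ θ t1 t2 t3 t4 t5 ι J χ ρ (fun _ => b) (fun _ => D.x)
    (fun j => Real.exp (-(2 * D.x * ((1 - (ρ j).re) * l))))
    (fun j hj => by
      obtain ⟨a1, a2, a3, a4, a5, a6⟩ := hJ j hj
      refine ⟨a1, a2, a3, a4, a5, a6, hb, ?_, le_rfl, (Real.exp_pos _).le⟩
      change b + 4 * δ + δ + b + δ ≤ 2 * b + 6 * δ
      linarith)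
    (fun j hj k hk hjk => by
      have : D.u - 2 * D.w - δ = b := by change b + 3 * δ - 2 * δ - δ = b; ring
      rw [this]
      exact hJJ j hj k hk hjk)
  have h5 := t7 D.x 0 (hV.uv.trans hV.vx).le le_rfl le_rfl le_rfl
  refine dc_final (sum_nonneg fun _ _ => (Real.exp_pos _).le) (sum_nonneg fun n _ => ?_) t6 ?_
    (Real.exp_pos _).le (h3 l hl3) h4
  · change 0 ≤ _ / (_ * (1 : ℝ))
    positivity
  · rw [sum_mul]
    refine sum_le_sum fun j hj => ?_
    have h6 : 0 ≤ (1 - (ρ j).re) * l := mul_nonneg (by linarith [(hJ j hj).2.2.2.2.1]) hl0.le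
    set lm := (1 - (ρ j).re) * l
    have h7 : ∑ n ∈ seg D.u D.x l, dsum θ n ^ 2 * D.G (Real.log n / l) *
        Real.exp (2 * lm * (Real.log n / l)) / n ≤ Real.exp (2 * D.x * lm) * C0 := by
      refine le_trans ?_ (mul_le_mul_of_nonneg_left h5 (Real.exp_pos _).le)
      rw [mul_sum]
      refine sum_le_sum fun n hn => ?_
      have h8 : Real.exp (2 * lm * (Real.log n / l)) ≤ Real.exp (2 * D.x * lm) :=
        Real.exp_le_exp.mpr (by nlinarith [dc_log hl0 hn])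
      change _ * (1 : ℝ) * _ / _ ≤ _ * (_ * (1 : ℝ) * _ / _)
      rw [mul_zero, zero_mul, Real.exp_zero, mul_one, mul_one, ← mul_div_assoc (Real.exp _),
        mul_comm (dsum θ n ^ 2)]
      exact div_le_div_of_nonneg_right (mul_le_mul_of_nonneg_right h8 (sq_nonneg _))
        (Nat.cast_nonneg n)
    refine (mul_le_mul_of_nonneg_left h7 (sq_nonneg _)).trans_eq ?_
    rw [sq, mul_assoc, ← mul_assoc (Real.exp _) (Real.exp _) C0, ← Real.exp_add, neg_add_cancel,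
      Real.exp_zero, one_mul]

end Pool.Agent.Lib.PS
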