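import Pool.Agent.Lib.PS.Blue

namespace Pool.Agent.Lib.PS

open Finset Real MeasureTheory Filter Topology
open scoped Classical

theorem dens_Gcont {D : DD} (hD : D.Valid) : ContinuousOn D.G (Set.Icc D.u D.x) := by
  obtain ⟨L, hL⟩ := hD.G_lip
  exact (LipschitzOnWith.of_dist_le' (K := L) (fun s hs t ht => by
    simpa only [Real.dist_eq] using hL s hs t ht)).continuousOn

theorem dens_g0 {D : DD} (hD : D.Valid) :
    ∃ g0 : ℝ, 0 < g0 ∧ ∀ t ∈ Set.Icc D.u D.x, g0 ≤ D.G t := by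
  obtain ⟨t0, ht0, h⟩ := isCompact_Icc.exists_isMinOn
    (Set.nonempty_Icc.mpr (hD.uv.trans hD.vx).le) (dens_Gcont hD)
  exact ⟨_, hD.G_pos t0 ht0, fun t ht => h ht⟩

theorem dens_p2 {D : DD} (hD : D.Valid) : 0 < ∫ s in D.u..D.v, D.p s ^ 2 := by
  have huv := hD.uv
  have h1 : IntervalIntegrable D.p volume D.u D.v := hD.p_cont.intervalIntegrable_of_Icc huv.le
  have h2 : IntervalIntegrable (fun s => D.p s ^ 2) volume D.u D.v :=
    (hD.p_cont.pow 2).intervalIntegrable_of_Icc huv.le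
  set c := 1 / (D.v - D.u) with hc
  have hc0 : 0 < c := by rw [hc]; exact one_div_pos.mpr (by linarith)
  have h3 : ∫ s in D.u..D.v, (2 * c * D.p s - c ^ 2) ≤ ∫ s in D.u..D.v, D.p s ^ 2 :=
    intervalIntegral.integral_mono_on huv.le ((h1.const_mul _).sub intervalIntegrable_const) h2
      (fun s _ => by nlinarith [sq_nonneg (D.p s - c)])
  rw [intervalIntegral.integral_sub (h1.const_mul _) intervalIntegrable_const,
    intervalIntegral.integral_const_mul, hD.p_int, intervalIntegral.integral_const,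
    smul_eq_mul] at h3
  have h4 : (D.v - D.u) * c ^ 2 = c := by
    have : D.v - D.u ≠ 0 := by linarith
    rw [hc]; field_simp
  linarith

theorem dens_V {D : DD} (hD : D.Valid) : 0 < D.V := by
  have huv := hD.uv
  have hvx := hD.vx
  have h1 : ContinuousOn (fun r => ∫ s in D.u..r, D.p s ^ 2) (Set.uIcc D.u D.v) :=
    intervalIntegral.continuousOn_primitive_interval (by
      rw [Set.uIcc_of_le huv.le]
      exact (hD.p_cont.pow 2).integrableOn_Icc)
  rw [Set.uIcc_of_le huv.le] at h1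
  have h2 : ContinuousOn (fun t => ∫ s in D.u..(min t D.v), D.p s ^ 2) (Set.Icc D.u D.x) :=
    h1.comp (continuous_id.min continuous_const).continuousOn
      (fun t ht => ⟨le_min ht.1 huv.le, min_le_right _ _⟩)
  refine intervalIntegral.integral_pos (huv.trans hvx)
    (h2.div (dens_Gcont hD) (fun t ht => (hD.G_pos t ht).ne')) (fun t ht => ?_)
    ⟨D.x, ⟨(huv.trans hvx).le, le_rfl⟩, ?_⟩
  · exact div_nonneg (intervalIntegral.integral_nonneg (le_min ht.1.le huv.le)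
      (fun s _ => sq_nonneg _)) (hD.G_pos t ⟨ht.1.le, ht.2⟩).le
  · rw [min_eq_right hvx.le]
    exact div_pos (dens_p2 hD) (hD.G_pos _ ⟨(huv.trans hvx).le, le_rfl⟩)

theorem dens_Dn {D : DD} (hD : D.Valid) {g0 y lm : ℝ} (hg : 0 < g0)
    (hg0 : ∀ t ∈ Set.Icc D.u D.x, g0 ≤ D.G t) (h1 : D.u + D.w ≤ y) (h2 : y ≤ D.x) (hl : 0 ≤ lm) :
    g0 * D.w ≤ D.Dn y lm := by
  have huy : D.u ≤ y := by linarith [hD.w_pos]
  have hsub : Set.Icc D.u y ⊆ Set.Icc D.u D.x := Set.Icc_subset_Icc_right h2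
  have h3 : ∫ _ in D.u..y, g0 ≤ ∫ t in D.u..y, D.G t * Real.exp (2 * lm * t) :=
    intervalIntegral.integral_mono_on huy intervalIntegrable_const
      ((((dens_Gcont hD).mono hsub).mul (by fun_prop)).intervalIntegrable_of_Icc huy)
      (fun t ht => by
        have h4 : 1 ≤ Real.exp (2 * lm * t) :=
          Real.one_le_exp (mul_nonneg (by linarith) (hD.u_pos.le.trans ht.1))
        have h5 := hg0 t (hsub ht)
        nlinarith)
  rw [intervalIntegral.integral_const, smul_eq_mul] at h3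
  unfold DD.Dn
  nlinarith

theorem dens_seg {u x l : ℝ} (hl : 0 < l) {n : ℕ} (hn : n ∈ seg u x l) :
    Real.log n / l ∈ Set.Icc u x := by
  rw [seg, Finset.mem_Ioc] at hn
  have h1 : Real.exp (u * l) < n := Nat.lt_of_floor_lt hn.1
  have h2 : (n : ℝ) ≤ Real.exp (x * l) := (Nat.le_floor_iff (Real.exp_pos _).le).mp hn.2
  have h0 : (0 : ℝ) < n := (Real.exp_pos _).trans h1
  constructor
  · rw [le_div_iff₀ hl, Real.le_log_iff_exp_le h0]
    exact h1.le
  · rw [div_le_iff₀ hl, Real.log_le_iff_le_exp h0]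
    exact h2

theorem dens_eps {V g0 ε : ℝ} (hV : 0 < V) (hε : 0 < ε) :
    ∃ e : ℝ, 0 < e ∧ e ≤ ε / 2 ∧ (V + e) * (1 + e + e / g0) ≤ (1 + ε / 2) * V := by
  have h1 : Tendsto (fun e : ℝ => (V + e) * (1 + e + e / g0)) (𝓝[>] 0)
      (𝓝 ((V + 0) * (1 + 0 + 0 / g0))) :=
    (Continuous.tendsto (by fun_prop) 0).mono_left nhdsWithin_le_nhds
  have h2 := h1.eventually_lt_const (u := (1 + ε / 2) * V) (by
    simp only [add_zero, zero_div, mul_one]
    nlinarith)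
  have h3 : ∀ᶠ e : ℝ in 𝓝[>] 0, e < ε / 2 :=
    (tendsto_id.mono_left nhdsWithin_le_nhds).eventually_lt_const (by linarith)
  obtain ⟨e, he1, he2, he3⟩ := (h2.and (h3.and self_mem_nhdsWithin)).exists
  exact ⟨e, he3, he2.le, he1.le⟩

theorem dens_delta {W ε c4 : ℝ} (hε : 0 < ε) (hc : 0 < c4) : ∃ l0 : ℝ, ∀ l, l0 ≤ l →
    1 + ε / 2 ≤ (1 + ε) * ((1 - Real.exp (-(c4 * l))) ^ 2 - W * Real.exp (-(c4 * l))) := by
  have h0 : Tendsto (fun l : ℝ => Real.exp (-(c4 * l))) atTop (𝓝 0) :=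
    Real.tendsto_exp_neg_atTop_nhds_zero.comp (tendsto_id.const_mul_atTop hc)
  have h1 : Tendsto (fun d : ℝ => (1 + ε) * ((1 - d) ^ 2 - W * d)) (𝓝 0)
      (𝓝 ((1 + ε) * ((1 - 0) ^ 2 - W * 0))) := Continuous.tendsto (by fun_prop) 0
  have h2 := (h1.comp h0).eventually_const_lt (u := 1 + ε / 2) (by
    simp only [sub_zero, mul_zero, one_pow, mul_one]
    linarith)
  obtain ⟨l0, hl0⟩ := eventually_atTop.mp h2
  exact ⟨l0, fun l hl => (hl0 l hl).le⟩

theorem blk_DENS (hSW : St_SW) (hD0 : St_DEN0) : St_DENS := by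
  intro D c Λm ε hD hc hc2 hε huw
  obtain ⟨g0, hg, hg0⟩ := dens_g0 hD
  have hV := dens_V hD
  have hw := hD.w_pos
  obtain ⟨e, he0, he1, he2⟩ := dens_eps (g0 := g0) hV hε
  obtain ⟨l1, h1⟩ := hSW D Λm e hD he0
  obtain ⟨e1, c4, l2, he10, hc4, h2⟩ := hD0 D c ε hD hc hc2 hε huw
  obtain ⟨l3, h3⟩ := dens_delta (W := D.V + e) hε hc4
  refine ⟨max (max l1 l2) (max l3 (max 1 (Λm / e1))), fun l hl ι J χ ρ b y hJ hJJ => ?_⟩
  simp only [max_le_iff] at hl
  obtain ⟨⟨hl1, hl2⟩, hl3, hl4, hl5⟩ := hl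
  have hl0 : 0 < l := by linarith
  obtain ⟨ψ, θ, hθ, hbd, hψ1, hψ2, hθ2, hA, hB⟩ := h1 l hl1
  have hlm : ∀ j ∈ J, 0 ≤ (1 - (ρ j).re) * l := fun j hj =>
    mul_nonneg (by linarith [(hJ j hj).2.2.2.2.1]) hl0.le
  have hy : ∀ j ∈ J, D.u + D.w ≤ y j := fun j hj => by
    obtain ⟨-, -, -, -, -, -, h4, h5, -⟩ := hJ j hj
    linarith [hD.uv]
  have hDn : ∀ j ∈ J, g0 * D.w ≤ D.Dn (y j) ((1 - (ρ j).re) * l) := fun j hj =>
    dens_Dn hD hg hg0 (hy j hj) (hJ j hj).2.2.2.2.2.2.2.2 (hlm j hj)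
  have hgw : 0 < g0 * D.w := mul_pos hg hw
  have hDn0 : ∀ j ∈ J, 0 < D.Dn (y j) ((1 - (ρ j).re) * l) := fun j hj => hgw.trans_le (hDn j hj)
  have key := h2 l hl2 ψ θ hθ hbd hψ1 (fun d hd => hψ2 d
    (lt_of_le_of_lt (Real.exp_le_exp.mpr (by nlinarith)) hd)) hθ2 ι J χ ρ b y
    (fun j => 1 / D.Dn (y j) ((1 - (ρ j).re) * l)) (fun j hj => by
      obtain ⟨a1, a2, a3, a4, a5, a6, a7, a8, a9⟩ := hJ j hj
      refine ⟨a1, a2, a3, ?_, a5, a6, a7, a8, a9, (one_div_pos.mpr (hDn0 j hj)).le⟩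
      rw [div_le_iff₀ he10] at hl5
      have : (1 - (ρ j).re) * l ≤ e1 * l := by linarith
      have := le_of_mul_le_mul_right this hl0
      linarith) hJJ
  set S := ∑ j ∈ J, 1 / D.Dn (y j) ((1 - (ρ j).re) * l) with hS
  set δ := Real.exp (-(c4 * l)) with hδ
  have hδ0 : 0 < δ := Real.exp_pos _
  have hS0 : 0 ≤ S := Finset.sum_nonneg (fun j hj => (one_div_pos.mpr (hDn0 j hj)).le)
  have hA0 : 0 ≤ ∑ n ∈ seg D.u D.x l, dsum ψ n ^ 2 / (n * D.G (Real.log n / l)) :=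
    Finset.sum_nonneg (fun n hn => div_nonneg (sq_nonneg _)
      (mul_nonneg (Nat.cast_nonneg _) (hD.G_pos _ (dens_seg hl0 hn)).le))
  set κ := (1 + e + e / g0) / D.w with hκ
  have hκ0 : 0 < κ := by positivity
  have hsum : ∑ j ∈ J, (1 / D.Dn (y j) ((1 - (ρ j).re) * l)) ^ 2 *
      (∑ n ∈ seg D.u (y j) l, dsum θ n ^ 2 * D.G (Real.log n / l)
        * Real.exp (2 * ((1 - (ρ j).re) * l) * (Real.log n / l)) / n) ≤ κ * S := by
    rw [hS, Finset.mul_sum]
    refine Finset.sum_le_sum (fun j hj => ?_)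
    have b1 := hB (y j) _ (by linarith [hy j hj]) (hJ j hj).2.2.2.2.2.2.2.2 (hlm j hj)
      (hJ j hj).2.2.2.1
    have b2 := hDn j hj
    have b3 := hDn0 j hj
    set N := D.Dn (y j) ((1 - (ρ j).re) * l) with hN
    have b4 : (1 + e) * N / D.w + e ≤ κ * N := by
      have b5 : e ≤ e / g0 / D.w * N := by
        rw [div_div, div_mul_eq_mul_div, le_div_iff₀ hgw]
        exact mul_le_mul_of_nonneg_left b2 he0.le
      have b6 : κ * N = (1 + e) * N / D.w + e / g0 / D.w * N := by rw [hκ]; ring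
      linarith
    calc _ ≤ (1 / N) ^ 2 * (κ * N) := mul_le_mul_of_nonneg_left (b1.trans b4) (sq_nonneg _)
      _ = κ * (1 / N) := by field_simp
  have k2 : ((1 - δ) * S) ^ 2 ≤ (D.V + e) * (κ * S + δ * S ^ 2) :=
    key.trans ((mul_le_mul_of_nonneg_left (add_le_add_left hsum _) hA0).trans
      (mul_le_mul_of_nonneg_right hA (by positivity)))
  have k3 := h3 l hl3
  rw [← hδ] at k3
  have k4 : (D.V + e) * κ ≤ (1 + ε / 2) * (D.V / D.w) := by
    rw [hκ, ← mul_div_assoc, ← mul_div_assoc]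
    exact div_le_div_of_nonneg_right he2 hw.le
  rcases hS0.eq_or_lt with h0 | h0
  · rw [← h0]; positivity
  have k5 : ((1 - δ) ^ 2 - (D.V + e) * δ) * S ≤ (D.V + e) * κ := by
    refine le_of_mul_le_mul_right ?_ h0
    nlinarith
  have k6 : (1 + ε / 2) * S ≤ (1 + ε / 2) * ((1 + ε) * D.V / D.w) := by
    calc (1 + ε / 2) * S ≤ (1 + ε) * (((1 - δ) ^ 2 - (D.V + e) * δ) * S) := by
          rw [← mul_assoc]
          exact mul_le_mul_of_nonneg_right k3 hS0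
      _ ≤ (1 + ε) * ((1 + ε / 2) * (D.V / D.w)) :=
          mul_le_mul_of_nonneg_left (k5.trans k4) (by linarith)
      _ = _ := by ring
  exact le_of_mul_le_mul_left k6 (by linarith)

end Pool.Agent.Lib.PS
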