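import Pool.Agent.Lib.PS.DH1

/-! The repulsion block. -/

namespace Pool.Agent.Lib.PS

open Finset Real MeasureTheory Complex Filter Topology
open scoped NumberTheorySymbols ArithmeticFunction.Moebius ArithmeticFunction.vonMangoldt
  Classical ComplexConjugate

theorem dh_num {x x0 b ε κ l l1 lm e1 L : ℝ} (hx : 0 < x) (hx0 : x < x0) (hκ0 : 0 < κ)
    (hκ : κ = x * (x - 3 * b) / 2) (hε0 : 0 < ε) (hε : ε * (x ^ 3 + 4) ≤ κ / 4)
    (hl : 0 < l) (hs : x / √l ≤ κ / 4) (_hεx : 2 * ε * x ≤ 1) (hl1 : 0 < l1) (hlm : -1 ≤ lm)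
    (hlm2 : lm ≤ e1 * l) (he1 : e1 + 1 / l ≤ 2 * (x0 - x))
    (hL : (1 - 2 * ε * x) * (x ^ 2 / 2 - x / √l) ≤ L)
    (h : L ≤ 2 * (l1 * (2 * x * x * Real.exp (x * (lm + 1) + (lm + 1) ^ 2 / (2 * l))))
      + 3 * (b / 2 * x) + 4 * ε) :
    Real.log (1 / l1) / x0 - (1 + Real.log (8 * x * x / κ) / x0) ≤ lm := by
  have hx00 : 0 < x0 := hx.trans hx0
  have hs0 : 0 ≤ x / √l := by positivity
  have a1 : κ / 2 ≤ 4 * x * x * l1 * Real.exp (x * (lm + 1) + (lm + 1) ^ 2 / (2 * l)) := by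
    have : 0 ≤ 2 * ε * x * (x / √l) := by positivity
    nlinarith
  have a2 : x * (lm + 1) + (lm + 1) ^ 2 / (2 * l) ≤ x0 * (lm + 1) := by
    have b1 : (lm + 1) / l ≤ e1 + 1 / l := by
      rw [add_div]
      have : lm / l ≤ e1 := by rwa [div_le_iff₀ hl]
      linarith
    have b2 : (lm + 1) ^ 2 / (2 * l) = (lm + 1) * ((lm + 1) / l) / 2 := by field_simp
    have b3 := mul_le_mul_of_nonneg_left (b1.trans he1) (by linarith : 0 ≤ lm + 1)
    rw [b2]
    linarith
  have a3 : 1 / l1 ≤ 8 * x * x / κ * Real.exp (x0 * (lm + 1)) := by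
    have b1 := mul_le_mul_of_nonneg_left (Real.exp_le_exp.2 a2)
      (by positivity : 0 ≤ 4 * x * x * l1)
    rw [div_le_iff₀ hl1, div_mul_eq_mul_div, div_mul_eq_mul_div, le_div_iff₀ hκ0]
    linarith
  have a4 := Real.log_le_log (by positivity) a3
  rw [Real.log_mul (by positivity) (Real.exp_pos _).ne', Real.log_exp] at a4
  have a5 : Real.log (1 / l1) / x0 ≤ Real.log (8 * x * x / κ) / x0 + (lm + 1) := by
    rw [div_add' _ _ _ hx00.ne', div_le_div_iff_of_pos_right hx00]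
    linarith
  linarith

theorem blk_DH (hX : St_LDX) (hZ : St_LDZ) (hK : St_KSM) (hG : St_GS) : St_DH := by
  intro c b x0 hc hc2 hb hb1 hbx
  set x := (3 * b + x0) / 2 with hxdef
  have hx : 0 < x := by linarith
  have hx0 : x < x0 := by linarith
  have hxb : 3 * b < x := by linarith
  set κ := x * (x - 3 * b) / 2 with hκ
  have hκ0 : 0 < κ := by have : 0 < x - 3 * b := by linarith
                         positivity
  set ε := min (κ / 4 / (x ^ 3 + 4)) (min (1 / (2 * x)) (1 / 2)) with hεdef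
  have hε0 : 0 < ε := by positivity
  have hε1 : ε * (x ^ 3 + 4) ≤ κ / 4 := by
    rw [← le_div_iff₀ (by positivity)]; exact min_le_left _ _
  have hε2 : 2 * ε * x ≤ 1 := by
    have : ε ≤ 1 / (2 * x) := (min_le_right _ _).trans (min_le_left _ _)
    rw [le_div_iff₀ (by positivity)] at this
    linarith
  have hε3 : ε ≤ 1 / 2 := (min_le_right _ _).trans (min_le_right _ _)
  obtain ⟨eK, η, lK, heK, hη, hK⟩ := hK c (max x 1) ε 2 hc hc2 (by positivity) hε0
  obtain ⟨lX, hlX⟩ := hX.1 c η hc hc2 hη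
  obtain ⟨lZ, hlZ⟩ := hZ.1 c η hc hc2 hη
  set e1 := min eK (x0 - x) with he1def
  have he1 : 0 < e1 := lt_min heK (by linarith)
  refine ⟨1 + Real.log (8 * x * x / κ) / x0, e1,
    max (max lK (max lX lZ)) (max (max (2 + e1 / ε) (3 / c)) (max (1 / (x0 - x)) ((4 * x / κ) ^ 2))),
    he1, ?_⟩
  intro l hl χ1 l1 cm1 re1 can1 hl10 hl11 hz1
  have k1 : lK ≤ l := le_trans (by simp) hl
  have k2 : lX ≤ l := le_trans (by simp) hl
  have k3 : lZ ≤ l := le_trans (by simp) hl
  have k4 : 2 + e1 / ε ≤ l := le_trans (by simp) hl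
  have k5 : 3 / c ≤ l := le_trans (by simp) hl
  have k6 : 1 / (x0 - x) ≤ l := le_trans (by simp) hl
  have k7 : (4 * x / κ) ^ 2 ≤ l := le_trans (by simp) hl
  have hl0 : 0 < l := lt_of_lt_of_le (by positivity) k5
  have hcl : (l1 : ℂ).re < c * l / 2 := by
    rw [div_le_iff₀ hc] at k5
    rw [Complex.ofReal_re]; linarith
  have hs : x / √l ≤ κ / 4 := by
    have : 4 * x / κ ≤ √l := Real.le_sqrt_of_sq_le k7
    have h0 : 0 < √l := Real.sqrt_pos.2 hl0
    rw [div_le_iff₀ hκ0] at this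
    rw [div_le_iff₀ h0]
    linarith
  have he2 : e1 + 1 / l ≤ 2 * (x0 - x) := by
    have a1 : e1 ≤ x0 - x := min_le_right _ _
    have a2 : 1 / l ≤ x0 - x := by
      rw [div_le_iff₀ (by linarith)] at k6
      rw [div_le_iff₀ hl0]; linarith
    linarith
  have LD1 := hlX l k2 χ1 b cm1 hb (by linarith) can1
  have LDz := hlZ l k3
  have hf0 : dhf x 0 = x := by rw [dhf, sub_zero, max_eq_left hx.le]
  have g0 : ∀ t, 0 ≤ sm l (dhf x) t :=
    (hG l x x _ hl0 hx.le (dh_h_cont x) (dh_h_zero x) (dh_h_bd hx)).2.2.1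
      fun s => le_max_right _ _
  have main : ∀ (Q : Prop) (χ : ℕ → ℂ), (Q → CM χ ∧ Canc χ c (Real.exp (b * l)) ∧
      Canc (χ1 * χ) c (Real.exp (b * l))) → ∀ z0 : ℂ, (z0.re < c * l / 2 ∧
      (1 ≤ zo riemannZeta₁ l z0 ∨ (if z0 = l1 then 1 else 0) < zo (LL χ1) l z0 ∨
        (Q ∧ (1 ≤ zo (LL χ) l z0 ∨ 1 ≤ zo (LL (χ1 * χ)) l z0)))) → |z0.im| ≤ l ^ 2 →
      min (Real.log (1 / l1) / x0 - (1 + Real.log (8 * x * x / κ) / x0)) (e1 * l) ≤ z0.re := by
    intro Q χ hQ z0 p0 i0
    by_contra hn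
    obtain ⟨n1, n2⟩ := lt_min_iff.1 (not_le.1 hn)
    have LD2 := fun q : Q => hlX l k2 χ b (hQ q).1 hb (by linarith) (hQ q).2.1
    have LD3 := fun q : Q => hlX l k2 (χ1 * χ) b (zf_CM_mul cm1 (hQ q).1) hb (by linarith)
      (hQ q).2.2
    set P : ℂ → Prop := fun z => z.re < c * l / 2 ∧
      (1 ≤ zo riemannZeta₁ l z ∨ (if z = l1 then 1 else 0) < zo (LL χ1) l z ∨
        (Q ∧ (1 ≤ zo (LL χ) l z ∨ 1 ≤ zo (LL (χ1 * χ)) l z))) with hP
    have hfin : {z : ℂ | P z ∧ |z.im| ≤ l ^ 3}.Finite := by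
      by_cases q : Q
      · refine (((dh_fin hX hc hl0 LDz (l ^ 3)).union (dh_fin hX hc hl0 LD1 (l ^ 3))).union
          ((dh_fin hX hc hl0 (LD2 q) (l ^ 3)).union
            (dh_fin hX hc hl0 (LD3 q) (l ^ 3)))).subset fun z hz => ?_
        obtain ⟨⟨h1, h2⟩, h3⟩ := hz
        rcases h2 with h | h | ⟨-, h | h⟩
        · exact Or.inl (Or.inl ⟨h1, h3, h⟩)
        · exact Or.inl (Or.inr ⟨h1, h3, by omega⟩)
        · exact Or.inr (Or.inl ⟨h1, h3, h⟩)
        · exact Or.inr (Or.inr ⟨h1, h3, h⟩)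
      · refine ((dh_fin hX hc hl0 LDz (l ^ 3)).union
          (dh_fin hX hc hl0 LD1 (l ^ 3))).subset fun z hz => ?_
        obtain ⟨⟨h1, h2⟩, h3⟩ := hz
        rcases h2 with h | h | ⟨q', -⟩
        · exact Or.inl ⟨h1, h3, h⟩
        · exact Or.inr ⟨h1, h3, by omega⟩
        · exact absurd q' q
    have hre : ∀ z, P z → 0 ≤ z.re := by
      rintro z ⟨h1, h | h | ⟨q, h | h⟩⟩
      · exact (dh_zero hX hc hl0 LDz h1 h).2.2
      · exact (dh_zero hX hc hl0 LD1 h1 (by omega)).2.2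
      · exact (dh_zero hX hc hl0 (LD2 q) h1 h).2.2
      · exact (dh_zero hX hc hl0 (LD3 q) h1 h).2.2
    obtain ⟨z, pz, rz, iz, hwin⟩ := dh_select hε0 he1 k4 hfin hre p0 i0 n2.le
    set lm := z.re - 2 * ε with hlm
    have hlm1 : -1 ≤ lm := by linarith [hre z pz]
    have hlm2 : lm ≤ e1 * l := by linarith
    have hlm3 : lm ≤ eK * l :=
      hlm2.trans (mul_le_mul_of_nonneg_right (min_le_left _ _) hl0.le)
    have ks : ∀ (a : ℕ → ℂ) (E : ℂ → ℂ) (m b' mu : ℝ) (D : Multiset ℂ),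
        LD a E m c l b' η (l ^ 2) → 0 ≤ m → m ≤ 1 → 0 ≤ b' → b' ≤ 1 → (mu = 0 ∨ mu = -z.im) →
        D.card ≤ 2 → (∀ y ∈ D, y.re < c * l / 2) → (∀ y, D.count y ≤ zo E l y) →
        (∀ y : ℂ, y.re < c * l / 2 → D.count y < zo E l y → P y) →
        (Ks a (sm l (dhf x)) l (lm - mu * I)).re ≤
          m * (Lap (sm l (dhf x)) (-(lm - mu * I))).re
          - (D.map fun y => (Lap (sm l (dhf x)) (y - (lm - mu * I))).re).sum + b' / 2 * x + ε := by
      intro a E m b' mu D hLD m0 m1 b0 b1 hmu hD1 hD2 hD3 hD4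
      have := hK l k1 a E m b' (l ^ 2) (dhf x) lm mu D hLD m0 m1 b0 (by linarith) (dh_TF x)
        (dh_PD hx) hlm1 hlm3 (by
          rcases hmu with rfl | rfl
          · simp; positivity
          · rw [abs_neg]; exact iz.trans (le_of_eq (by ring))) hD1 hD2 hD3
        (fun y h1 h2 h3 => by
          have := hwin y (hD4 y h1 h3) (by
            rcases hmu with rfl | rfl
            · right; simpa using h2
            · left; simpa [sub_eq_add_neg] using h2)
          linarith)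
      rwa [hf0] at this
    have zP : ∀ y : ℂ, y.re < c * l / 2 → ∀ k : ℕ, k < zo riemannZeta₁ l y → P y :=
      fun y h1 k h => ⟨h1, Or.inl (by omega)⟩
    have oP : ∀ (D : Multiset ℂ) (y : ℂ), y.re < c * l / 2 →
        ({(l1 : ℂ)} + D).count y < zo (LL χ1) l y → P y := fun D y h1 h =>
      ⟨h1, Or.inr (Or.inl (by
        rw [Multiset.count_add, Multiset.count_singleton] at h
        omega))⟩
    have one1 : ∀ (y : ℂ) (E : ℂ → ℂ), 1 ≤ zo E l y → ∀ u, Multiset.count u {y} ≤ zo E l u := by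
      intro y E h u
      rw [Multiset.count_singleton]
      split_ifs with hu
      · rw [hu]; exact h
      · exact Nat.zero_le _
    have A1 := ks _ _ _ _ 0 0 LDz zero_le_one le_rfl le_rfl zero_le_one (Or.inl rfl) (by simp)
      (by simp) (by simp) fun y h1 h => zP y h1 _ h
    have A2 : ∀ mu : ℝ, (mu = 0 ∨ mu = -z.im) → _ := fun mu hmu =>
      ks _ _ _ _ mu ({(l1 : ℂ)} + 0) LD1 le_rfl zero_le_one hb hb1 hmu (by simp)
      (by simpa using hcl) (by rw [add_zero]; exact one1 _ _ hz1) (oP 0)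
    have A3 := A2 0 (Or.inl rfl)
    have hw : ∀ mu : ℝ, ((lm : ℂ) - mu * I).re = lm := fun mu => by simp
    have d0 := dh_diff hG hx hl0 hl10.le (lm - (0 : ℝ) * I) (by rw [hw]; exact hlm1)
    have d1 := dh_diff hG hx hl0 hl10.le (lm - (-z.im : ℝ) * I) (by rw [hw]; exact hlm1)
    rw [hw] at d0 d1
    have ez : z - (lm - (-z.im : ℝ) * I) = ((2 * ε : ℝ) : ℂ) := by
      apply Complex.ext <;> simp [hlm]
    have low := dh_low hG hx hl0 (by positivity : 0 ≤ 2 * ε) hε2
    have dec := dh_decay hG hx hl0 (lm + 2 * l)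
    have hbx0 : 0 ≤ b / 2 * x := by positivity
    have hB : 0 ≤ l1 * (2 * x * x * Real.exp (x * (lm + 1) + (lm + 1) ^ 2 / (2 * l))) := by
      positivity
    have fin : (Lap (sm l (dhf x)) ((2 * ε : ℝ) : ℂ)).re ≤
        2 * (l1 * (2 * x * x * Real.exp (x * (lm + 1) + (lm + 1) ^ 2 / (2 * l))))
        + 3 * (b / 2 * x) + 4 * ε := by
      rcases pz.2 with h | h | ⟨q, h⟩
      · have p := dh_pos cm1.2.2 re1 (χ := 1) (fun n => by simp) g0 hl0 lm (-z.im) dec
        rw [mul_one] at p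
        have A4 := ks _ _ _ _ (-z.im) {z} LDz zero_le_one le_rfl le_rfl zero_le_one (Or.inr rfl)
          (by simp) (by simpa using pz.1) (one1 _ _ h) fun y h1 h => zP y h1 _ h
        have A5 := A2 _ (Or.inr rfl)
        simp only [add_zero, Multiset.map_zero, Multiset.sum_zero, Multiset.map_singleton,
          Multiset.sum_singleton, ez] at A1 A3 A4 A5
        linarith
      · have p := dh_pos cm1.2.2 re1 (χ := 1) (fun n => by simp) g0 hl0 lm (-z.im) dec
        rw [mul_one] at p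
        have A4 := ks _ _ _ _ (-z.im) 0 LDz zero_le_one le_rfl le_rfl zero_le_one (Or.inr rfl)
          (by simp) (by simp) (by simp) fun y h1 h => zP y h1 _ h
        have A5 := ks _ _ _ _ (-z.im) ({(l1 : ℂ)} + {z}) LD1 le_rfl zero_le_one hb hb1
          (Or.inr rfl) (by simp)
          (fun y hy => by
            rw [Multiset.mem_add, Multiset.mem_singleton, Multiset.mem_singleton] at hy
            rcases hy with rfl | rfl
            · exact hcl
            · exact pz.1)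
          (fun y => by
            rw [Multiset.count_add, Multiset.count_singleton, Multiset.count_singleton]
            by_cases h1 : y = z
            · subst h1
              rw [if_pos rfl]
              omega
            · rw [if_neg h1]
              split_ifs with h2
              · rw [h2]; exact hz1
              · exact Nat.zero_le _) (oP {z})
        simp only [add_zero, Multiset.map_zero, Multiset.sum_zero, Multiset.map_singleton,
          Multiset.sum_singleton, Multiset.map_add, Multiset.sum_add, ez] at A1 A3 A4 A5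
        linarith
      · have p := dh_pos cm1.2.2 re1 (hQ q).1.2.2 g0 hl0 lm (-z.im) dec
        have P2 : ∀ y : ℂ, y.re < c * l / 2 → ∀ k : ℕ, k < zo (LL χ) l y → P y :=
          fun y h1 k h => ⟨h1, Or.inr (Or.inr ⟨q, Or.inl (by omega)⟩)⟩
        have P3 : ∀ y : ℂ, y.re < c * l / 2 → ∀ k : ℕ, k < zo (LL (χ1 * χ)) l y → P y :=
          fun y h1 k h => ⟨h1, Or.inr (Or.inr ⟨q, Or.inr (by omega)⟩)⟩
        rcases h with h | h
        · have A4 := ks _ _ _ _ (-z.im) {z} (LD2 q) le_rfl zero_le_one hb hb1 (Or.inr rfl)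
            (by simp) (by simpa using pz.1) (one1 _ _ h) fun y h1 h => P2 y h1 _ h
          have A5 := ks _ _ _ _ (-z.im) 0 (LD3 q) le_rfl zero_le_one hb hb1 (Or.inr rfl)
            (by simp) (by simp) (by simp) fun y h1 h => P3 y h1 _ h
          simp only [add_zero, Multiset.map_zero, Multiset.sum_zero, Multiset.map_singleton,
            Multiset.sum_singleton, ez] at A1 A3 A4 A5
          linarith
        · have A4 := ks _ _ _ _ (-z.im) 0 (LD2 q) le_rfl zero_le_one hb hb1 (Or.inr rfl)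
            (by simp) (by simp) (by simp) fun y h1 h => P2 y h1 _ h
          have A5 := ks _ _ _ _ (-z.im) {z} (LD3 q) le_rfl zero_le_one hb hb1 (Or.inr rfl)
            (by simp) (by simpa using pz.1) (one1 _ _ h) fun y h1 h => P3 y h1 _ h
          simp only [add_zero, Multiset.map_zero, Multiset.sum_zero, Multiset.map_singleton,
            Multiset.sum_singleton, ez] at A1 A3 A4 A5
          linarith
    have := dh_num hx hx0 hκ0 hκ hε0 hε1 hl0 hs hε2 hl10 hlm1 hlm2 he2 low fin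
    linarith
  refine ⟨fun z h1 h2 h3 => main False 1 (fun q => q.elim) z ⟨h1, Or.inr (Or.inl h3)⟩ h2,
    fun χ z cm can can2 h1 h2 h3 => main True χ (fun _ => ⟨cm, can, can2⟩) z
      ⟨h1, Or.inr (Or.inr ⟨trivial, Or.inl h3⟩)⟩ h2⟩

end Pool.Agent.Lib.PS
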