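import Pool.Agent.Lib.PS.Blue
import Pool.Agent.Lib.MP_fb430f_co.Circle

/-! Block DISC: the number of discarded integers. -/

namespace Pool.Agent.Lib.PS

open Finset Real
open scoped Classical

lemma disc_div {ε : ℝ} (hε : 0 < ε) : ∃ C : ℝ, 1 ≤ C ∧ ∀ M : ℕ, M ≠ 0 →
    (M.divisors.card : ℝ) ≤ C * (M : ℝ) ^ ε := by
  obtain ⟨C, hC, h⟩ := Pool.Agent.Lib.MP_fb430f_co.div_bound hε
  refine ⟨max C 1, le_max_right _ _, fun M hM => ?_⟩
  refine le_trans ?_ ((h M hM).trans (mul_le_mul_of_nonneg_right (le_max_left _ _) (by positivity)))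
  rw [Nat.card_divisors hM]
  exact_mod_cast prod_le_prod' fun p _ => Nat.le_succ _

lemma disc_dvd_left (n W r : ℕ) : Mof n W r ∣ n := by
  refine Finset.prod_primes_dvd n (fun p hp => ?_) fun p hp => (mem_filter.1 hp).2.1
  exact (Nat.prime_of_mem_primeFactors (mem_filter.1 hp).1).prime

lemma disc_dvd_right (n W r : ℕ) : Mof n W r ∣ r :=
  (prod_dvd_prod_of_subset _ _ _ (filter_subset _ _)).trans (Nat.prod_primeFactors_dvd r)

lemma disc_cover {Bd : Finset XX} {n W N0 : ℕ} {l : ℝ} (hB : ∀ x ∈ Bd, x.1 ≠ 0) (hn : n ≠ 0)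
    (h : ¬ Good Bd n W N0 l) :
    ∃ f ∈ Fintype.piFinset fun _ : Fin N0 => insert 1 (Bd.biUnion fun x => x.1.divisors),
      Real.exp l < (univ.lcm f : ℕ) ∧ univ.lcm f ∣ n := by
  unfold Good at h
  push Not at h
  obtain ⟨S, hS, hc, hl⟩ := h
  let f : Fin N0 → ℕ := fun i =>
    if h : (i : ℕ) < S.card then Mof n W (S.equivFin.symm ⟨i, h⟩ : XX).1 else 1
  have h1 : univ.lcm f ∣ n := by
    refine Finset.lcm_dvd fun i _ => ?_
    simp only [f]
    split_ifs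
    · exact disc_dvd_left _ _ _
    · exact one_dvd _
  have h2 : (S.lcm fun x => Mof n W x.1) ∣ univ.lcm f := by
    refine Finset.lcm_dvd fun x hx => ?_
    have hi := (S.equivFin ⟨x, hx⟩).2
    refine dvd_trans (dvd_of_eq ?_) (Finset.dvd_lcm (mem_univ (⟨_, hi.trans_le hc⟩ : Fin N0)))
    simp only [f, dif_pos hi, Fin.eta, Equiv.symm_apply_apply]
  refine ⟨f, Fintype.mem_piFinset.2 fun i => ?_, hl.trans_le ?_, h1⟩
  · simp only [f]
    split_ifs with hi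
    · have hx := hS (S.equivFin.symm ⟨i, hi⟩).2
      exact mem_insert_of_mem (mem_biUnion.2 ⟨_, hx, Nat.mem_divisors.2 ⟨disc_dvd_right _ _ _, hB _ hx⟩⟩)
    · exact mem_insert_self _ _
  · exact_mod_cast Nat.le_of_dvd (Nat.pos_of_dvd_of_pos h1 (Nat.pos_of_ne_zero hn)) h2

theorem blk_DISC : St_DISC := by
  intro N0 ε hε
  obtain ⟨C, hC, hd⟩ := disc_div hε
  refine ⟨2 * C ^ N0, by positivity, fun X Q W l Bd hQ hB _ => ?_⟩
  have hB' : ∀ x ∈ Bd, 2 ≤ x.1 ∧ x.1 ≤ Q := fun x hx => mem_Icc.1 (mem_sigma.1 (hB hx)).1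
  have hB0 : ∀ x ∈ Bd, x.1 ≠ 0 := fun x hx => by have := (hB' x hx).1; omega
  set D := insert 1 (Bd.biUnion fun x => x.1.divisors) with hD
  set F := (Fintype.piFinset fun _ : Fin N0 => D).filter fun f => Real.exp l < (univ.lcm f : ℕ) with hF
  have Q1 : 1 ≤ (Q : ℝ) ^ ε := Real.one_le_rpow (by exact_mod_cast hQ) hε.le
  have c1 : (D.card : ℝ) ≤ C * ((Bd.card + 1) * (Q : ℝ) ^ ε) := by
    have a1 : D.card ≤ ∑ x ∈ Bd, x.1.divisors.card + 1 :=
      (card_insert_le _ _).trans (Nat.succ_le_succ card_biUnion_le)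
    have a2 : ∑ x ∈ Bd, (x.1.divisors.card : ℝ) ≤ Bd.card * (C * (Q : ℝ) ^ ε) := by
      rw [← nsmul_eq_mul]
      refine sum_le_card_nsmul _ _ _ fun x hx => (hd _ (hB0 x hx)).trans ?_
      refine mul_le_mul_of_nonneg_left (Real.rpow_le_rpow (by positivity) ?_ hε.le) (by linarith)
      exact_mod_cast (hB' x hx).2
    have a3 : (D.card : ℝ) ≤ ∑ x ∈ Bd, (x.1.divisors.card : ℝ) + 1 := by exact_mod_cast a1
    have a4 := one_le_mul_of_one_le_of_one_le hC Q1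
    linarith
  have c2 : (F.card : ℝ) ≤ (C * ((Bd.card + 1) * (Q : ℝ) ^ ε)) ^ N0 := by
    have a1 : F.card ≤ D.card ^ N0 := by
      refine (card_filter_le _ _).trans (le_of_eq ?_)
      simp [Fintype.card_piFinset]
    refine le_trans (by exact_mod_cast a1) (pow_le_pow_left₀ (Nat.cast_nonneg _) c1 N0)
  have c3 : (Ioc X (2 * X)).filter (fun n => ¬ Good Bd n W N0 l) ⊆
      F.biUnion fun f => (Ioc 0 (2 * X)).filter fun n => univ.lcm f ∣ n := by
    intro n hn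
    obtain ⟨h1, h2⟩ := mem_filter.1 hn
    have h3 := mem_Ioc.1 h1
    obtain ⟨f, a, b, c⟩ := disc_cover hB0 (by omega) h2
    exact mem_biUnion.2 ⟨f, mem_filter.2 ⟨a, b⟩, mem_filter.2 ⟨mem_Ioc.2 ⟨by omega, h3.2⟩, c⟩⟩
  have c4 : ∀ f ∈ F, (((Ioc 0 (2 * X)).filter fun n => univ.lcm f ∣ n).card : ℝ) ≤ 2 * (X / Real.exp l) := by
    intro f hf
    rw [Nat.Ioc_filter_dvd_card_eq_div]
    refine Nat.cast_div_le.trans ?_
    push_cast
    rw [mul_div_assoc]
    exact mul_le_mul_of_nonneg_left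
      (div_le_div_of_nonneg_left (by positivity) (Real.exp_pos l) (mem_filter.1 hf).2.le) (by norm_num)
  have c5 : (((Ioc X (2 * X)).filter fun n => ¬ Good Bd n W N0 l).card : ℝ) ≤
      ∑ f ∈ F, (((Ioc 0 (2 * X)).filter fun n => univ.lcm f ∣ n).card : ℝ) := by
    exact_mod_cast (card_le_card c3).trans card_biUnion_le
  have c6 := sum_le_card_nsmul _ _ _ c4
  rw [nsmul_eq_mul] at c6
  calc _ ≤ _ := c5.trans c6
    _ ≤ (C * ((Bd.card + 1) * (Q : ℝ) ^ ε)) ^ N0 * (2 * (X / Real.exp l)) :=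
      mul_le_mul_of_nonneg_right c2 (by positivity)
    _ = _ := by rw [mul_pow]; ring

end Pool.Agent.Lib.PS
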