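import Pool.Agent.Lib.PS.Blue

/-!
Block EF: the skeleton of the explicit formula.
-/

namespace Pool.Agent.Lib.PS

open Finset Real MeasureTheory Complex Filter Topology
open scoped NumberTheorySymbols ArithmeticFunction.Moebius ArithmeticFunction.vonMangoldt
  Classical ComplexConjugate ContDiff

theorem ef_bdd {A : ℝ} {h : ℝ → ℝ} (hc : Continuous h) (hs : ∀ s, A ≤ |s| → h s = 0) :
    ∃ B, ∀ s, |h s| ≤ B := by
  have hcs : HasCompactSupport h := by
    refine HasCompactSupport.intro (isCompact_Icc (a := -|A|) (b := |A|)) fun x hx => hs x ?_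
    by_contra hlt
    push Not at hlt
    have h1 : |x| ≤ |A| := hlt.le.trans (le_abs_self A)
    exact hx (abs_le.1 h1)
  obtain ⟨C, hC⟩ := hc.bounded_above_of_compact_support hcs
  exact ⟨C, fun s => by simpa using hC s⟩

theorem ef_inv (hGS : St_GS) {κ A : ℝ} {h : ℝ → ℝ} (hκ : 0 < κ) (hc : Continuous h)
    (hs : ∀ s, A ≤ |s| → h s = 0) (σ : ℝ) :
    Continuous (fun y : ℝ => Psi κ h (σ + y * I)) ∧
    Integrable (fun y : ℝ => Psi κ h (σ + y * I)) ∧ ∀ t : ℝ,
      (gs κ h t : ℂ) = (∫ y : ℝ, Psi κ h (σ + y * I) * cexp (-((σ + y * I) * t))) / (2 * π) := by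
  obtain ⟨B, hB⟩ := ef_bdd hc hs
  obtain ⟨-, -, -, -, -, h6, -, -, h9⟩ := hGS κ |A| B h hκ (abs_nonneg A) hc
    (fun s hs' => hs s ((le_abs_self A).trans hs')) hB
  refine ⟨?_, (h9 σ 0).1, fun t => (h9 σ t).2⟩
  have := h6.continuous
  unfold Psi
  fun_prop

theorem ef_term (a : ℕ → ℂ) (l : ℝ) (v : ℂ) (n : ℕ) :
    LSeries.term a (1 + v / l) n = a n / n * cexp (-(v * ((Real.log n / l : ℝ) : ℂ))) := by
  rcases eq_or_ne n 0 with rfl | hn
  · simp
  · have hn' : (n : ℂ) ≠ 0 := by exact_mod_cast hn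
    rw [LSeries.term_of_ne_zero hn, cpow_add _ _ hn', cpow_one, cpow_def_of_ne_zero hn',
      Complex.exp_neg, ← Complex.natCast_log]
    have : (Real.log n : ℂ) * (v / l) = v * ((Real.log n / l : ℝ) : ℂ) := by
      push_cast; ring
    rw [this]
    field_simp

theorem ef_one (hGS : St_GS) (κ A l σ : ℝ) (h : ℝ → ℝ) (a : ℕ → ℂ) (w : ℂ) (hκ : 0 < κ)
    (hl : 0 < l) (hc : Continuous h) (hs : ∀ s, A ≤ |s| → h s = 0) (ha : ∀ n, ‖a n‖ ≤ Λ n)
    (hw : w.re < σ) :
    Integrable (fun y : ℝ => Psi κ h (σ + y * I) * LSeries a (1 + (σ + y * I - w) / l)) ∧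
    Ks a (gs κ h) l w =
      (∫ y : ℝ, Psi κ h (σ + y * I) * LSeries a (1 + (σ + y * I - w) / l)) / (2 * π * l) := by
  obtain ⟨hPc, hPi, hinv⟩ := ef_inv hGS hκ hc hs σ
  set s0 : ℂ := ((1 + (σ - w.re) / l : ℝ) : ℂ) with hs0
  have hre : ∀ y : ℝ, (1 + ((σ : ℂ) + y * I - w) / l).re = s0.re := by
    intro y
    rw [hs0, ofReal_re, add_re, one_re, div_ofReal_re]
    simp
  have hs01 : 1 < s0.re := by
    rw [hs0, ofReal_re]
    have : 0 < (σ - w.re) / l := div_pos (by linarith) hl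
    linarith
  have hsum : Summable fun n => ‖LSeries.term a s0 n‖ := by
    have h1 := (ArithmeticFunction.LSeriesSummable_vonMangoldt hs01).norm
    refine Summable.of_nonneg_of_le (fun n => norm_nonneg _) (fun n => ?_) h1
    refine LSeries.norm_term_le s0 ?_
    refine (ha n).trans (le_of_eq ?_)
    simp [abs_of_nonneg (ArithmeticFunction.vonMangoldt_nonneg (n := n))]
  have hnorm : ∀ (n : ℕ) (y : ℝ), ‖LSeries.term a (1 + ((σ : ℂ) + y * I - w) / l) n‖
      = ‖LSeries.term a s0 n‖ := by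
    intro n y
    rw [LSeries.norm_term_eq, LSeries.norm_term_eq, hre]
  have htc : ∀ n : ℕ, Continuous fun y : ℝ =>
      LSeries.term a (1 + ((σ : ℂ) + y * I - w) / l) n := by
    intro n
    simp_rw [ef_term]
    fun_prop
  have hLc : Continuous fun y : ℝ => LSeries a (1 + ((σ : ℂ) + y * I - w) / l) :=
    continuous_tsum htc hsum fun n y => (hnorm n y).le
  have hLb : ∀ y : ℝ, ‖LSeries a (1 + ((σ : ℂ) + y * I - w) / l)‖
      ≤ ∑' n, ‖LSeries.term a s0 n‖ := fun y =>
    tsum_of_norm_bounded hsum.hasSum fun n => (hnorm n y).le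
  refine ⟨hPi.mul_bdd hLc.aestronglyMeasurable (Eventually.of_forall hLb), ?_⟩
  have hFi : ∀ n : ℕ, Integrable fun y : ℝ =>
      Psi κ h (σ + y * I) * LSeries.term a (1 + ((σ : ℂ) + y * I - w) / l) n := fun n =>
    hPi.mul_bdd (htc n).aestronglyMeasurable (Eventually.of_forall fun y => (hnorm n y).le)
  have hFs : Summable fun n : ℕ => ∫ y : ℝ,
      ‖Psi κ h (σ + y * I) * LSeries.term a (1 + ((σ : ℂ) + y * I - w) / l) n‖ := by
    simp_rw [norm_mul, hnorm, integral_mul_const]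
    exact hsum.mul_left _
  have key := integral_tsum_of_summable_integral_norm hFi hFs
  have hL : ∀ y : ℝ, Psi κ h (σ + y * I) * LSeries a (1 + (σ + y * I - w) / l) =
      ∑' n, Psi κ h (σ + y * I) * LSeries.term a (1 + ((σ : ℂ) + y * I - w) / l) n := by
    intro y
    rw [tsum_mul_left]
    rfl
  simp_rw [hL]
  rw [← key, Ks, ← div_div, ← tsum_div_const (a := (2 * π : ℂ))]
  congr 1
  refine tsum_congr fun n => ?_
  rw [hinv]
  simp_rw [ef_term]
  have : ∀ y : ℝ, Psi κ h (σ + y * I) *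
      (a n / n * cexp (-(((σ : ℂ) + y * I - w) * ((Real.log n / l : ℝ) : ℂ)))) =
      (a n / n * cexp (w * ((Real.log n / l : ℝ) : ℂ))) *
        (Psi κ h (σ + y * I) * cexp (-(((σ : ℂ) + y * I) * ((Real.log n / l : ℝ) : ℂ)))) := by
    intro y
    have : -(((σ : ℂ) + y * I - w) * ((Real.log n / l : ℝ) : ℂ)) =
        w * ((Real.log n / l : ℝ) : ℂ) + -(((σ : ℂ) + y * I) * ((Real.log n / l : ℝ) : ℂ)) := by
      ring
    rw [this, Complex.exp_add]
    ring
  simp_rw [this]
  rw [integral_const_mul]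
  ring

theorem ef_two (hGS : St_GS) (κ A σ : ℝ) (h : ℝ → ℝ) (u : ℂ) (hκ : 0 < κ) (hc : Continuous h)
    (hs : ∀ s, A ≤ |s| → h s = 0) (hu : u.re < σ) :
    Integrable (fun y : ℝ => Psi κ h (σ + y * I) / (σ + y * I - u)) ∧
    (∫ y : ℝ, Psi κ h (σ + y * I) / (σ + y * I - u)) / (2 * π) = Lap (gs κ h) (-u) := by
  obtain ⟨hPc, hPi, hinv⟩ := ef_inv hGS hκ hc hs σ
  have hre : ∀ y : ℝ, ((σ : ℂ) + y * I - u).re = σ - u.re := fun y => by simp
  have hne : ∀ y : ℝ, (σ : ℂ) + y * I - u ≠ 0 := by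
    intro y h0
    have := hre y
    rw [h0, zero_re] at this
    linarith
  have hF : Integrable (Function.uncurry fun (t y : ℝ) =>
      Psi κ h (σ + y * I) * cexp (-((σ : ℂ) + y * I - u) * t))
      ((volume.restrict (Set.Ioi (0 : ℝ))).prod volume) := by
    have h1 : IntegrableOn (fun t : ℝ => Real.exp (-(σ - u.re) * t)) (Set.Ioi 0) :=
      integrableOn_exp_mul_Ioi (by linarith) 0
    have h2 := Integrable.mul_prod h1 hPi.norm
    refine h2.mono' ?_ (Eventually.of_forall fun p => le_of_eq ?_)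
    · refine Continuous.aestronglyMeasurable ?_
      refine Continuous.mul (hPc.comp continuous_snd) ?_
      fun_prop
    · obtain ⟨t, y⟩ := p
      simp only [Function.uncurry_apply_pair, norm_mul, Complex.norm_exp]
      rw [mul_comm]
      congr 2
      simp
  have hin : ∀ y : ℝ, ∫ t in Set.Ioi (0 : ℝ),
      Psi κ h (σ + y * I) * cexp (-((σ : ℂ) + y * I - u) * t)
        = Psi κ h (σ + y * I) / (σ + y * I - u) := by
    intro y
    rw [integral_const_mul, integral_exp_mul_complex_Ioi (by rw [neg_re, hre]; linarith)]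
    have := hne y
    simp only [ofReal_zero, mul_zero, Complex.exp_zero]
    field_simp
  constructor
  · have := hF.integral_prod_right
    simpa only [Function.uncurry_apply_pair, hin] using this
  · have key := integral_integral_swap hF
    simp_rw [hin] at key
    rw [← key, Lap, ← integral_div]
    refine integral_congr_ae (Eventually.of_forall fun t => ?_)
    simp only
    rw [hinv, div_mul_eq_mul_div, ← integral_mul_const]
    congr 1
    refine integral_congr_ae (Eventually.of_forall fun y => ?_)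
    simp only
    rw [mul_assoc, ← Complex.exp_add]
    congr 2
    ring

theorem ef_four (F : ℂ → ℂ) (σ1 σ2 Y B : ℝ) (h12 : σ1 ≤ σ2) (hY : 0 ≤ Y)
    (hd : DifferentiableOn ℂ F {s | σ1 ≤ s.re ∧ s.re ≤ σ2 ∧ |s.im| ≤ Y})
    (hb : ∀ x : ℝ, σ1 ≤ x → x ≤ σ2 → ‖F (x + Y * I)‖ ≤ B ∧ ‖F (x - Y * I)‖ ≤ B) :
    ‖(∫ y in (-Y)..Y, F (σ2 + y * I)) - ∫ y in (-Y)..Y, F (σ1 + y * I)‖ ≤ 2 * (σ2 - σ1) * B := by
  have key := Complex.integral_boundary_rect_eq_zero_of_differentiableOn F ⟨σ1, -Y⟩ ⟨σ2, Y⟩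
    (hd.mono fun s hs => by
      rw [Complex.mem_reProdIm, Set.uIcc_of_le h12, Set.uIcc_of_le (by simp only; linarith)] at hs
      exact ⟨hs.1.1, hs.1.2, abs_le.2 hs.2⟩)
  simp only [smul_eq_mul] at key
  have h1 : ‖∫ x in σ1..σ2, F (x + (-Y : ℝ) * I)‖ ≤ B * |σ2 - σ1| := by
    refine intervalIntegral.norm_integral_le_of_norm_le_const fun x hx => ?_
    rw [Set.uIoc_of_le h12] at hx
    have := (hb x hx.1.le hx.2).2
    have e : (x : ℂ) + (-Y : ℝ) * I = x - Y * I := by push_cast; ring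
    rwa [e]
  have h2 : ‖∫ x in σ1..σ2, F (x + Y * I)‖ ≤ B * |σ2 - σ1| := by
    refine intervalIntegral.norm_integral_le_of_norm_le_const fun x hx => ?_
    rw [Set.uIoc_of_le h12] at hx
    exact (hb x hx.1.le hx.2).1
  have e : I * ((∫ y in (-Y)..Y, F (σ2 + y * I)) - ∫ y in (-Y)..Y, F (σ1 + y * I)) =
      (∫ x in σ1..σ2, F (x + Y * I)) - ∫ x in σ1..σ2, F (x + (-Y : ℝ) * I) := by
    linear_combination key
  have e2 := congrArg norm e
  rw [norm_mul, norm_I, one_mul] at e2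
  rw [e2]
  refine (norm_sub_le _ _).trans ?_
  rw [abs_of_nonneg (by linarith)] at h1 h2
  linarith

theorem ef_gk_nonneg (κ t : ℝ) : 0 ≤ gk κ t := by
  unfold gk; positivity

theorem ef_gk_cont (κ : ℝ) : Continuous (gk κ) := by
  unfold gk; fun_prop

theorem ef_int {A : ℝ} {h : ℝ → ℝ} (hc : Continuous h) (hs : ∀ s, A ≤ |s| → h s = 0) (κ t : ℝ) :
    Integrable fun s => h s * gk κ (t - s) := by
  have hcs : HasCompactSupport h := by
    refine HasCompactSupport.intro (isCompact_Icc (a := -|A|) (b := |A|)) fun x hx => hs x ?_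
    by_contra hlt
    push Not at hlt
    have h1 : |x| ≤ |A| := hlt.le.trans (le_abs_self A)
    exact hx (abs_le.1 h1)
  refine Continuous.integrable_of_hasCompactSupport ?_ hcs.mul_right
  exact hc.mul ((ef_gk_cont κ).comp (continuous_const.sub continuous_id))

theorem ef_shift (hGS : St_GS) {κ A L d : ℝ} {h : ℝ → ℝ} (hκ : 0 < κ) (hA : 0 ≤ A) (hd : 0 ≤ d)
    (hc : Continuous h) (hs : ∀ s, A ≤ |s| → h s = 0)
    (hL : ∀ s t, |h s - h t| ≤ L * |s - t|) :
    ∃ g : ℝ → ℝ, Integrable g ∧ (∀ t, |gs κ h (t + d) - gs κ h t| ≤ g t) ∧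
      ∫ t, g t ≤ 2 * (A + d) * (L * d) := by
  set k : ℝ → ℝ := fun s => |h (s + d) - h s| with hk
  have hsd : ∀ s, A + d ≤ |s| → h (s + d) = 0 := by
    intro s hs'
    refine hs _ ?_
    have : |s| ≤ |s + d| + |d| := by
      have := abs_sub (s + d) d
      simpa using this
    rw [abs_of_nonneg hd] at this
    linarith
  have hcd : Continuous fun s => h (s + d) := hc.comp (continuous_id.add continuous_const)
  have hkc : Continuous k := (hcd.sub hc).abs
  have hks : ∀ s, A + d ≤ |s| → k s = 0 := by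
    intro s hs'
    simp only [hk, hsd s hs', hs s (by linarith), sub_self, abs_zero]
  have hkb : ∀ s, |k s| ≤ L * d := by
    intro s
    have := hL (s + d) s
    simpa [hk, abs_of_nonneg hd] using this
  obtain ⟨-, -, -, -, -, -, h7, h8, -⟩ := hGS κ (A + d) (L * d) k hκ (by linarith) hkc hks hkb
  have hgi : Integrable (gs κ k) := by
    have := (h8 0).1.re
    simpa using this
  refine ⟨gs κ k, hgi, fun t => ?_, ?_⟩
  · have e1 : gs κ h (t + d) = ∫ s, h (s + d) * gk κ (t - s) := by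
      unfold gs
      rw [← integral_add_right_eq_self _ d]
      simp
    rw [e1]
    unfold gs
    rw [← integral_sub (ef_int hcd hsd κ t) (ef_int hc hs κ t)]
    refine abs_integral_le_integral_abs.trans (le_of_eq ?_)
    refine integral_congr_ae (Eventually.of_forall fun s => ?_)
    simp only [hk]
    rw [← sub_mul, abs_mul, abs_of_nonneg (ef_gk_nonneg _ _)]
  · have e1 : L2 (gs κ k) 0 = ((∫ t, gs κ k t : ℝ) : ℂ) := by
      unfold L2
      simp only [zero_mul, Complex.exp_zero, mul_one]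
      exact integral_complex_ofReal
    have e2 := (h8 0).2
    have e3 := h7 0
    rw [e1] at e2
    have e4 : Psi κ k 0 = L2 k 0 := by simp [Psi]
    rw [e4] at e2
    rw [← e2] at e3
    simp only [norm_real, Real.norm_eq_abs, zero_re, abs_zero, mul_zero, Real.exp_zero,
      mul_one] at e3
    exact (le_abs_self _).trans e3

theorem ef_three (hGS : St_GS) (κ A B L : ℝ) (h : ℝ → ℝ) (z : ℂ) (hκ : 1 ≤ κ) (hA : 0 ≤ A)
    (hc : Continuous h) (hs : ∀ s, A ≤ |s| → h s = 0) (hB : ∀ s, |h s| ≤ B)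
    (hL : ∀ s t, |h s - h t| ≤ L * |s - t|) (hz : 0 ≤ z.re) (hz0 : z ≠ 0) :
    ‖Lap (gs κ h) z‖ ≤ (B + 10 * L * (A + 1)) / ‖z‖ := by
  have hκ0 : 0 < κ := by linarith
  obtain ⟨h1, h2, -, -, -, -, -, h8, -⟩ := hGS κ A B h hκ0 hA hc hs hB
  have hL0 : 0 ≤ L := by
    have := hL 1 0
    simp only [sub_zero, abs_one, mul_one] at this
    exact (abs_nonneg _).trans this
  have hzp : 0 < ‖z‖ := norm_pos_iff.2 hz0
  set g := gs κ h with hg
  set f : ℝ → ℂ := fun t => (g t : ℂ) * cexp (-(z * t)) with hf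
  have hfi : Integrable f := by
    have := (h8 (-z)).1
    simpa only [neg_mul] using this
  have hex : ∀ t : ℝ, 0 ≤ t → ‖cexp (-(z * t))‖ ≤ 1 := by
    intro t ht
    rw [Complex.norm_exp, Real.exp_le_one_iff]
    simp only [neg_re, mul_re, ofReal_re, ofReal_im, mul_zero, sub_zero]
    have := mul_nonneg hz ht
    linarith
  have main : ∀ d : ℝ, 0 < d → d ≤ 1 → d * ‖z‖ ≤ 1 →
      ‖Lap g z‖ * ‖z‖ ≤ B + 10 * L * (A + 1) + ‖Lap g z‖ * ‖z‖ ^ 2 * d := by
    intro d hd hd1 hdz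
    obtain ⟨k, hki, hk, hkI⟩ := ef_shift hGS hκ0 hA hd.le hc hs hL
    have hk0 : ∀ t, 0 ≤ k t := fun t => (abs_nonneg _).trans (hk t)
    have e1 := intervalIntegral.integral_interval_add_Ioi (a := 0) (b := d)
      hfi.integrableOn hfi.integrableOn
    have e2 : ∫ t in Set.Ioi (0 : ℝ), f (t + d) = ∫ t in Set.Ioi d, f t := by
      have := (measurePreserving_add_right volume d).setIntegral_preimage_emb
        (measurableEmbedding_addRight d) f (Set.Ioi d)
      simpa using this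
    have hfd : Integrable fun t => f (t + d) := hfi.comp_add_right d
    have e3 : ∫ t in Set.Ioi (0 : ℝ), (f (t + d) - cexp (-(z * d)) * f t) =
        (∫ t in Set.Ioi d, f t) - cexp (-(z * d)) * Lap g z := by
      rw [integral_sub hfd.integrableOn (hfi.const_mul _).integrableOn, e2, integral_const_mul]
      rfl
    have b1 : ‖∫ t in (0 : ℝ)..d, f t‖ ≤ B * |d - 0| := by
      refine intervalIntegral.norm_integral_le_of_norm_le_const fun x hx => ?_
      rw [Set.uIoc_of_le hd.le] at hx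
      simp only [hf, norm_mul, norm_real, Real.norm_eq_abs]
      calc |g x| * ‖cexp (-(z * x))‖ ≤ |g x| * 1 :=
            mul_le_mul_of_nonneg_left (hex x hx.1.le) (abs_nonneg _)
        _ ≤ B := by rw [mul_one]; exact h2 x
    have b2 : ‖∫ t in Set.Ioi (0 : ℝ), (f (t + d) - cexp (-(z * d)) * f t)‖
        ≤ 2 * (A + d) * (L * d) := by
      refine (norm_integral_le_of_norm_le hki.integrableOn ?_).trans
        ((setIntegral_le_integral hki (Eventually.of_forall hk0)).trans hkI)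
      refine (ae_restrict_iff' measurableSet_Ioi).2 (Eventually.of_forall fun t ht => ?_)
      have e : f (t + d) - cexp (-(z * d)) * f t =
          ((g (t + d) - g t : ℝ) : ℂ) * cexp (-(z * ((t + d : ℝ) : ℂ))) := by
        simp only [hf]
        have : -(z * ((t + d : ℝ) : ℂ)) = -(z * d) + -(z * t) := by push_cast; ring
        rw [this, Complex.exp_add]
        push_cast
        ring
      rw [e, norm_mul, norm_real, Real.norm_eq_abs]
      calc |g (t + d) - g t| * ‖cexp (-(z * ((t + d : ℝ) : ℂ)))‖ ≤ |g (t + d) - g t| * 1 :=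
            mul_le_mul_of_nonneg_left (hex _ (by have : 0 < t := ht; linarith)) (abs_nonneg _)
        _ ≤ k t := by rw [mul_one]; exact hk t
    have e4 : Lap g z * (z * d) = (∫ t in (0 : ℝ)..d, f t) +
        (∫ t in Set.Ioi (0 : ℝ), (f (t + d) - cexp (-(z * d)) * f t)) +
        Lap g z * (cexp (-(z * d)) - 1 - -(z * d)) := by
      rw [e3]
      have : Lap g z = ∫ t in Set.Ioi (0 : ℝ), f t := rfl
      rw [← this] at e1
      linear_combination -e1
    have n1 : ‖-(z * (d : ℂ))‖ = ‖z‖ * d := by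
      rw [norm_neg, norm_mul, norm_real, Real.norm_eq_abs, abs_of_pos hd]
    have b3 : ‖cexp (-(z * d)) - 1 - -(z * d)‖ ≤ (‖z‖ * d) ^ 2 := by
      rw [← n1]
      exact Complex.norm_exp_sub_one_sub_id_le (by rw [n1]; linarith)
    have b4 : ‖Lap g z‖ * (‖z‖ * d) ≤ B * d + 2 * (A + d) * (L * d) + ‖Lap g z‖ * (‖z‖ * d) ^ 2 := by
      have : ‖Lap g z * (z * d)‖ = ‖Lap g z‖ * (‖z‖ * d) := by
        rw [norm_mul, ← norm_neg (z * d), n1]
      rw [← this, e4]
      refine (norm_add_le _ _).trans (add_le_add ((norm_add_le _ _).trans (add_le_add ?_ b2)) ?_)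
      · simpa [abs_of_pos hd] using b1
      · rw [norm_mul]
        exact mul_le_mul_of_nonneg_left b3 (norm_nonneg _)
    have b5 : 2 * (A + d) * L ≤ 10 * L * (A + 1) := by nlinarith
    refine le_of_mul_le_mul_right ?_ hd
    nlinarith [mul_le_mul_of_nonneg_right b5 hd.le]
  rw [le_div_iff₀ hzp]
  refine le_of_forall_pos_le_add fun ε hε => ?_
  set K := ‖Lap g z‖ * ‖z‖ ^ 2 with hK
  have hK0 : 0 ≤ K := by positivity
  set d := min (min 1 (1 / ‖z‖)) (ε / (K + 1)) with hd
  have hd0 : 0 < d := lt_min (lt_min one_pos (by positivity)) (by positivity)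
  have hd1 : d ≤ 1 := (min_le_left _ _).trans (min_le_left _ _)
  have hd2 : d ≤ 1 / ‖z‖ := (min_le_left _ _).trans (min_le_right _ _)
  have hd3 : d ≤ ε / (K + 1) := min_le_right _ _
  rw [le_div_iff₀ hzp] at hd2
  rw [le_div_iff₀ (by positivity)] at hd3
  have := main d hd0 hd1 hd2
  nlinarith

theorem blk_EF (hGS : St_GS) : St_EF :=
  ⟨fun κ A l σ h a w h1 h2 h3 h4 h5 h6 => ef_one hGS κ A l σ h a w h1 h2 h3 h4 h5 h6,
    fun κ A σ h u h1 h2 h3 h4 => ef_two hGS κ A σ h u h1 h2 h3 h4,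
    fun κ A B L h z h1 h2 h3 h4 h5 h6 h7 h8 => ef_three hGS κ A B L h z h1 h2 h3 h4 h5 h6 h7 h8,
    fun F σ1 σ2 Y B h1 h2 h3 h4 => ef_four F σ1 σ2 Y B h1 h2 h3 h4⟩

end Pool.Agent.Lib.PS
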