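import Pool.Agent.Lib.PS.SING2

/-! Block EXP: character expansion of the model for the squares. -/

namespace Pool.Agent.Lib.PS

open Finset Real
open scoped NumberTheorySymbols ArithmeticFunction.Moebius Classical ComplexConjugate

lemma exp_orth (d : ℕ) (hd : 0 < d) (u b : ℕ) (hu : Nat.Coprime u d) :
    ∑ ψ ∈ chars d, ψ u * conj (ψ b) = if u ≡ b [MOD d] then (d.totient : ℂ) else 0 := by
  have : NeZero d := ⟨hd.ne'⟩
  rw [chars, sum_image]
  · by_cases hb : IsUnit (b : ZMod d)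
    · have h1 := DirichletCharacter.sum_char_inv_mul_char_eq ℂ hb (u : ZMod d)
      rw [if_congr (ZMod.natCast_eq_natCast_iff b u d) rfl rfl] at h1
      rw [if_congr Nat.ModEq.comm rfl rfl, ← h1]
      refine sum_congr rfl fun ψ _ => ?_
      have h2 : ψ (b : ZMod d)⁻¹ = (ψ (b : ZMod d))⁻¹ :=
        eq_inv_of_mul_eq_one_left (by rw [← map_mul, ZMod.inv_mul_of_unit _ hb, map_one])
      rw [h2, mul_comm, ← MulChar.inv_apply_eq_inv', ← MulChar.star_apply']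
      rfl
    · rw [if_neg]
      · exact sum_eq_zero fun ψ _ => by simp only [MulChar.map_nonunit ψ hb, map_zero, mul_zero]
      · intro h
        rw [← ZMod.natCast_eq_natCast_iff] at h
        exact hb (h ▸ (ZMod.isUnit_iff_coprime u d).2 hu)
  · intro ψ _ ψ' _ h
    ext x
    have := congrFun h (x : ZMod d).val
    simpa using this

lemma exp_rho (d u n : ℕ) (hd : 0 < d) (hu : Nat.Coprime u d) :
    (rho d ((n : ℤ) - u) : ℂ) = ∑ ψ ∈ chars d, ψ u * gam d ψ n := by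
  have ht : (d.totient : ℂ) ≠ 0 := by exact_mod_cast (Nat.totient_pos.2 hd).ne'
  simp only [gam, ← mul_div_assoc, mul_sum]
  rw [← sum_div, sum_comm, eq_div_iff ht, rho, card_filter, Nat.cast_sum, sum_mul]
  refine sum_congr rfl fun m _ => ?_
  rw [exp_orth d hd u _ hu]
  have h1 : u ≡ n + (d - 1) * m ^ 2 [MOD d] ↔ (d : ℤ) ∣ (m : ℤ) ^ 2 - ((n : ℤ) - u) := by
    rw [Nat.modEq_iff_dvd]
    push_cast [Nat.cast_sub hd]
    have h2 : (n : ℤ) + ((d : ℤ) - 1) * (m : ℤ) ^ 2 - u =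
        d * (m : ℤ) ^ 2 - ((m : ℤ) ^ 2 - ((n : ℤ) - u)) := by ring
    rw [h2, dvd_sub_right (dvd_mul_right _ _)]
  rw [if_congr h1 rfl rfl]
  split_ifs <;> simp

lemma exp_chars_sum (hPB : St_PB) (d : ℕ) (hd : 0 < d) (Φ : (ℕ → ℂ) → ℂ) :
    ∑ ψ ∈ chars d, Φ ψ = ∑ r ∈ d.divisors, ∑ χ ∈ prim r, Φ (tw d χ) := by
  obtain ⟨h1, h2, -, -, h5, -, -, h8, -, -, -, -, -, h14, -⟩ := hPB
  rw [sum_sigma']
  symm
  refine sum_bij (fun x _ => tw d x.2) ?_ ?_ ?_ (fun _ _ => rfl)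
  · rintro ⟨r, χ⟩ hx
    obtain ⟨hr, hχ⟩ := mem_sigma.1 hx
    exact (h1 d _ hd).2 (h14 r d χ hd (Nat.dvd_of_mem_divisors hr)
      (h2 r χ (Nat.pos_of_mem_divisors hr) hχ))
  · rintro ⟨r, χ⟩ hx ⟨r', χ'⟩ hx' h
    obtain ⟨hr, hχ⟩ := mem_sigma.1 hx
    obtain ⟨hr', hχ'⟩ := mem_sigma.1 hx'
    obtain ⟨rfl, rfl⟩ := h5 r r' χ χ' d (Nat.pos_of_mem_divisors hr) (Nat.pos_of_mem_divisors hr')
      hd hχ hχ' fun k hk => by
        have h3 := congrFun h k
        have h4 : Nat.Coprime k d := Nat.Coprime.coprime_mul_left_right hk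
        simpa only [tw, if_pos h4] using h3
    rfl
  · intro ψ hψ
    obtain ⟨q, ψ', hq, hψ', rfl⟩ := h8 d ψ ((h1 d ψ hd).1 hψ)
    exact ⟨⟨q, ψ'⟩, mem_sigma.2 ⟨Nat.mem_divisors.2 ⟨hq, hd.ne'⟩, hψ'⟩, rfl⟩

lemma exp_per {d : ℕ} {ψ : ℕ → ℂ} (h : ∀ k, ψ (k + d) = ψ k) (k j : ℕ) : ψ (k + d * j) = ψ k := by
  induction j with
  | zero => simp
  | succ j ih => rw [Nat.mul_succ, ← add_assoc, h, ih]

lemma exp_sum_range_mul (f : ℕ → ℂ) (d p : ℕ) :
    ∑ m ∈ range (d * p), f m = ∑ i ∈ range d, ∑ j ∈ range p, f (i + d * j) := by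
  induction p with
  | zero => simp
  | succ p ih =>
    rw [Nat.mul_succ, sum_range_add, ih, ← sum_add_distrib]
    refine sum_congr rfl fun i _ => ?_
    rw [sum_range_succ, add_comm (d * p)]

lemma exp_sum_zmod (p : ℕ) [NeZero p] (h : ZMod p → ℂ) :
    ∑ j ∈ range p, h (j : ZMod p) = ∑ x, h x := by
  refine sum_bij' (fun j _ => (j : ZMod p)) (fun x _ => x.val) (fun _ _ => mem_univ _)
    (fun x _ => mem_range.2 (ZMod.val_lt x)) (fun j hj => ZMod.val_cast_of_lt (mem_range.1 hj))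
    (fun x _ => ZMod.natCast_zmod_val x) (fun _ _ => rfl)

lemma exp_count (n p : ℕ) [hp : Fact p.Prime] :
    ∑ x : ZMod p, (if x ^ 2 = (n : ZMod p) then (0 : ℂ) else 1) =
      ((p : ℂ) - 1) * (1 + (fn n p : ℂ)) := by
  have h1 : ∑ x : ZMod p, (if x ^ 2 = (n : ZMod p) then (0 : ℂ) else 1) =
      p - ((univ.filter fun x : ZMod p => x ^ 2 = (n : ZMod p)).card : ℂ) := by
    rw [card_filter, Nat.cast_sum, eq_sub_iff_add_eq, ← sum_add_distrib]
    trans ∑ _x : ZMod p, (1 : ℂ)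
    · refine sum_congr rfl fun x _ => ?_
      split_ifs <;> simp
    · simp [ZMod.card]
  rw [h1]
  rcases hp.out.eq_two_or_odd' with rfl | hodd
  · have h2 : fn n 2 = 0 := by simp [fn]
    have h3 : (univ.filter fun x : ZMod 2 => x ^ 2 = (n : ZMod 2)) = {(n : ZMod 2)} := by
      ext x
      rw [mem_filter, mem_singleton, ZMod.pow_card]
      simp
    rw [h2, h3, card_singleton]
    norm_num
  · have hp2 : p ≠ 2 := by
      rintro rfl
      exact absurd hodd (by decide)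
    have h2 := legendreSym.card_sqrts p hp2 (n : ℤ)
    rw [jacobiSym.legendreSym.to_jacobiSym, Set.toFinset_ofPred, Int.cast_natCast] at h2
    have h3 : ((univ.filter fun x : ZMod p => x ^ 2 = (n : ZMod p)).card : ℂ) =
        (J((n : ℤ) | p) : ℂ) + 1 := by
      have := congrArg (Int.cast : ℤ → ℂ) h2
      push_cast at this
      convert this
    have h4 : (p : ℂ) - 1 ≠ 0 := by
      rw [sub_ne_zero]
      exact_mod_cast hp.out.one_lt.ne'
    rw [h3, fn, if_pos hodd, ArithmeticFunction.moebius_apply_prime hp.out,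
      Nat.totient_prime hp.out, Nat.cast_sub hp.out.one_le]
    push_cast
    field_simp
    ring

lemma exp_step (d p n : ℕ) (ψ : ℕ → ℂ) (hd : 0 < d) (hp : p.Prime) (hper : ∀ k, ψ (k + d) = ψ k)
    (hz : ∀ k, ¬ Nat.Coprime k d → ψ k = 0) :
    gam (d * p) (tw (d * p) ψ) n = gam d ψ n * (if p ∣ d then 1 else 1 + (fn n p : ℂ)) := by
  have : Fact p.Prime := ⟨hp⟩
  have ht : (d.totient : ℂ) ≠ 0 := by exact_mod_cast (Nat.totient_pos.2 hd).ne'
  have h1 : ∀ b, tw (d * p) ψ b = if p ∣ b then (if p ∣ d then ψ b else 0) else ψ b := by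
    intro b
    rw [tw]
    by_cases hb : Nat.Coprime b d
    · by_cases hpb : p ∣ b
      · have h2 : ¬ Nat.Coprime b (d * p) := fun h =>
          hp.one_lt.ne' (Nat.eq_one_of_dvd_coprimes h hpb (dvd_mul_left _ _))
        have h3 : ¬ p ∣ d := fun h => hp.one_lt.ne' (Nat.eq_one_of_dvd_coprimes hb hpb h)
        rw [if_neg h2, if_pos hpb, if_neg h3]
      · rw [if_pos (hb.mul_right ((Nat.Prime.coprime_iff_not_dvd hp).2 hpb).symm), if_neg hpb]
    · simp [hz b hb]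
  have h2 : ∀ i j, ψ (n + (d * p - 1) * (i + d * j) ^ 2) = ψ (n + (d - 1) * i ^ 2) := by
    intro i j
    obtain ⟨d', rfl⟩ : ∃ d', d = d' + 1 := ⟨d - 1, by omega⟩
    obtain ⟨p', hp'⟩ : ∃ p', p = p' + 1 := ⟨p - 1, by have := hp.pos; omega⟩
    have h3 : (d' + 1) * p - 1 = d' + (d' + 1) * p' := by
      rw [hp', Nat.mul_succ]
      omega
    rw [h3, Nat.add_sub_cancel, ← exp_per hper (n + d' * i ^ 2)
      (d' * (2 * i * j + (d' + 1) * j ^ 2) + p' * (i + (d' + 1) * j) ^ 2)]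
    congr 1
    ring
  rw [gam, gam, exp_sum_range_mul]
  simp only [h1, h2]
  by_cases hpd : p ∣ d
  · have hp0 : (p : ℂ) ≠ 0 := by exact_mod_cast hp.ne_zero
    simp only [if_pos hpd, ite_self, sum_const, card_range, nsmul_eq_mul, ← mul_sum]
    rw [mul_comm d p, Nat.totient_mul_of_prime_of_dvd hp hpd]
    push_cast
    field_simp
  · have h4 : (p : ℂ) - 1 ≠ 0 := by
      rw [sub_ne_zero]
      exact_mod_cast hp.one_lt.ne'
    have hd0 : (d : ZMod p) ≠ 0 := by rwa [Ne, ZMod.natCast_eq_zero_iff]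
    have h5 : ∀ m : ℕ, p ∣ n + (d * p - 1) * m ^ 2 ↔ (m : ZMod p) ^ 2 = (n : ZMod p) := by
      intro m
      rw [← ZMod.natCast_eq_zero_iff]
      push_cast [Nat.cast_sub (Nat.mul_pos hd hp.pos)]
      rw [ZMod.natCast_self, mul_zero, zero_sub, neg_one_mul, add_neg_eq_zero, eq_comm]
    have h6 : ∀ i, ∑ j ∈ range p, conj (if p ∣ n + (d * p - 1) * (i + d * j) ^ 2 then
        (if p ∣ d then ψ (n + (d - 1) * i ^ 2) else 0) else ψ (n + (d - 1) * i ^ 2)) =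
        conj (ψ (n + (d - 1) * i ^ 2)) * (((p : ℂ) - 1) * (1 + (fn n p : ℂ))) := by
      intro i
      rw [← exp_count n p, ← Equiv.sum_comp ((Equiv.mulLeft₀ (d : ZMod p) hd0).trans
        (Equiv.addLeft (i : ZMod p))), ← exp_sum_zmod, mul_sum]
      refine sum_congr rfl fun j _ => ?_
      rw [if_neg hpd, if_congr (h5 _) rfl rfl]
      push_cast
      simp only [Equiv.trans_apply, Equiv.mulLeft₀_apply, Equiv.coe_addLeft]
      split_ifs <;> simp
    simp only [h6, ← sum_mul]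
    rw [if_neg hpd, mul_comm d p, Nat.totient_mul_of_prime_of_not_dvd hp hpd]
    push_cast [Nat.cast_sub hp.one_le]
    field_simp

/-- the local factor at the integers coprime to `r` -/
noncomputable def expG (r n k : ℕ) : ℝ := if Nat.Coprime k r then fn n k else 0

lemma exp_G_mul (r n p k : ℕ) (hp : p.Prime) (hk : 0 < k) :
    expG r n (p * k) = if p ∣ k then 0 else expG r n p * expG r n k := by
  simp only [expG, sing2_fn_mul n p k hp hk, Nat.coprime_mul_iff_left]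
  by_cases h1 : p ∣ k
  · rw [if_pos h1, if_pos h1, ite_self]
  · rw [if_neg h1, if_neg h1]
    by_cases h2 : Nat.Coprime p r
    · by_cases h3 : Nat.Coprime k r
      · rw [if_pos ⟨h2, h3⟩, if_pos h2, if_pos h3]
      · rw [if_neg fun h => h3 h.2, if_neg h3, mul_zero]
    · rw [if_neg fun h => h2 h.1, if_neg h2, zero_mul]

lemma exp_free (g : ℕ → ℝ) (p e : ℕ) (hp : p.Prime) (he : 0 < e) :
    ∑ k ∈ (p * e).divisors, (if p ∣ k then 0 else g k) =
      ∑ k ∈ e.divisors, (if p ∣ k then 0 else g k) := by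
  symm
  refine sum_subset (Nat.divisors_subset_of_dvd (Nat.mul_pos hp.pos he).ne' (dvd_mul_left _ _))
    fun k hk hk' => if_pos ?_
  by_contra h
  exact hk' (Nat.mem_divisors.2 ⟨((Nat.Prime.coprime_iff_not_dvd hp).2 h).symm.dvd_of_dvd_mul_left
    (Nat.dvd_of_mem_divisors hk), he.ne'⟩)

lemma exp_Dv (r n p e : ℕ) (hp : p.Prime) (he : 0 < e) :
    ∑ k ∈ (p * e).divisors, expG r n k =
      (1 + expG r n p) * ∑ k ∈ e.divisors, (if p ∣ k then 0 else expG r n k) := by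
  have h1 : ∑ k ∈ (p * e).divisors, (if p ∣ k then expG r n k else 0) =
      ∑ k ∈ e.divisors, expG r n (p * k) := by
    rw [← sum_filter]
    symm
    refine sum_bij (fun k _ => p * k) ?_ ?_ ?_ (fun _ _ => rfl)
    · intro k hk
      exact mem_filter.2 ⟨Nat.mem_divisors.2 ⟨mul_dvd_mul_left p (Nat.dvd_of_mem_divisors hk),
        (Nat.mul_pos hp.pos he).ne'⟩, dvd_mul_right _ _⟩
    · intro a _ b _ h
      exact Nat.eq_of_mul_eq_mul_left hp.pos h
    · intro k hk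
      obtain ⟨h2, c, rfl⟩ := mem_filter.1 hk
      exact ⟨c, Nat.mem_divisors.2 ⟨Nat.dvd_of_mul_dvd_mul_left hp.pos
        (Nat.dvd_of_mem_divisors h2), he.ne'⟩, rfl⟩
  have h2 : ∑ k ∈ e.divisors, expG r n (p * k) =
      expG r n p * ∑ k ∈ e.divisors, (if p ∣ k then 0 else expG r n k) := by
    rw [mul_sum]
    refine sum_congr rfl fun k hk => ?_
    rw [exp_G_mul r n p k hp (Nat.pos_of_mem_divisors hk)]
    split_ifs <;> simp
  rw [add_mul, one_mul, ← h2, ← h1, ← exp_free _ p e hp he, ← sum_add_distrib]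
  refine sum_congr rfl fun k _ => ?_
  split_ifs <;> simp

lemma exp_Dv_step (r n p e : ℕ) (hp : p.Prime) (he : 0 < e) :
    ∑ k ∈ (p * e).divisors, expG r n k =
      (∑ k ∈ e.divisors, expG r n k) * (if p ∣ r * e then 1 else 1 + fn n p) := by
  rw [exp_Dv r n p e hp he]
  by_cases h : p ∣ e
  · obtain ⟨c, rfl⟩ := h
    have hc : 0 < c := Nat.pos_of_mul_pos_left he
    rw [if_pos (Dvd.dvd.mul_left (dvd_mul_right _ _) _), mul_one, exp_Dv r n p c hp hc,
      exp_free _ p c hp hc]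
  · have h1 : ∑ k ∈ e.divisors, (if p ∣ k then 0 else expG r n k) =
        ∑ k ∈ e.divisors, expG r n k :=
      sum_congr rfl fun k hk => if_neg fun h2 => h (h2.trans (Nat.dvd_of_mem_divisors hk))
    rw [h1, mul_comm]
    congr 1
    by_cases h2 : p ∣ r
    · rw [if_pos (h2.mul_right _), expG, if_neg, add_zero]
      exact fun h3 => (Nat.Prime.coprime_iff_not_dvd hp).1 h3 h2
    · rw [if_neg fun h3 => (hp.dvd_mul.1 h3).elim h2 h, expG,
        if_pos ((Nat.Prime.coprime_iff_not_dvd hp).2 h2)]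

lemma exp_gam (r n : ℕ) (χ : ℕ → ℂ) (hχ : IsChar r χ) (e : ℕ) (he : 0 < e) :
    gam (r * e) (tw (r * e) χ) n = gam r χ n * ((∑ k ∈ e.divisors, expG r n k : ℝ) : ℂ) := by
  obtain ⟨hr, -, hper, hz⟩ := hχ
  induction e using induction_on_primes with
  | zero => omega
  | one =>
    have h1 : tw r χ = χ := funext fun k => by
      rw [tw]
      split_ifs with h
      · rfl
      · exact (hz k h).symm
    simp [h1, expG, fn]
  | prime_mul p e hp ih =>
    have he' : 0 < e := Nat.pos_of_mul_pos_left he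
    have h1 : tw (r * e * p) (tw (r * e) χ) = tw (r * e * p) χ := funext fun k => by
      simp only [tw]
      split_ifs with h h'
      · rfl
      · exact absurd (Nat.Coprime.coprime_mul_right_right h) h'
      · rfl
    have h2 := exp_step (r * e) p n (tw (r * e) χ) (Nat.mul_pos hr he') hp (fun k => by
      simp only [tw, Nat.coprime_add_self_left, exp_per hper]) (fun k hk => if_neg hk)
    rw [h1, ih he'] at h2
    rw [show r * (p * e) = r * e * p by ring, h2, exp_Dv_step r n p e hp he', mul_assoc]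
    congr 1
    split_ifs <;> simp

lemma exp_swap1 (H : ℕ → ℕ → ℂ) (d : ℕ) (hd : 0 < d) :
    ∑ q ∈ d.divisors, ∑ r ∈ q.divisors, H r (q / r) =
      ∑ r ∈ d.divisors, ∑ e ∈ (d / r).divisors, H r e := by
  rw [sum_sigma', sum_sigma']
  refine sum_bij' (fun x _ => ⟨x.2, x.1 / x.2⟩) (fun x _ => ⟨x.1 * x.2, x.1⟩) ?_ ?_ ?_ ?_
    (fun _ _ => rfl)
  · rintro ⟨q, r⟩ hx
    obtain ⟨hq, hr⟩ := mem_sigma.1 hx
    have h1 := Nat.dvd_of_mem_divisors hq
    have h2 := Nat.dvd_of_mem_divisors hr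
    exact mem_sigma.2 ⟨Nat.mem_divisors.2 ⟨h2.trans h1, hd.ne'⟩, Nat.mem_divisors.2
      ⟨Nat.div_dvd_div h2 h1, (Nat.div_pos (Nat.le_of_dvd hd (h2.trans h1))
        (Nat.pos_of_mem_divisors hr)).ne'⟩⟩
  · rintro ⟨r, e⟩ hx
    obtain ⟨hr, he⟩ := mem_sigma.1 hx
    exact mem_sigma.2 ⟨Nat.mem_divisors.2 ⟨(Nat.dvd_div_iff_mul_dvd
      (Nat.dvd_of_mem_divisors hr)).1 (Nat.dvd_of_mem_divisors he), hd.ne'⟩, Nat.mem_divisors.2
      ⟨dvd_mul_right _ _,
        (Nat.mul_pos (Nat.pos_of_mem_divisors hr) (Nat.pos_of_mem_divisors he)).ne'⟩⟩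
  · rintro ⟨q, r⟩ hx
    obtain ⟨-, hr⟩ := mem_sigma.1 hx
    simp only [Nat.mul_div_cancel' (Nat.dvd_of_mem_divisors hr)]
  · rintro ⟨r, e⟩ hx
    obtain ⟨hr, -⟩ := mem_sigma.1 hx
    simp only [Nat.mul_div_cancel_left e (Nat.pos_of_mem_divisors hr)]

lemma exp_swap2 (H : ℕ → ℕ → ℂ) (Q : ℕ) :
    ∑ q ∈ Icc 1 Q, ∑ r ∈ q.divisors, H r (q / r) =
      ∑ r ∈ Icc 1 Q, ∑ e ∈ Icc 1 (Q / r), H r e := by
  rw [sum_sigma', sum_sigma']
  refine sum_bij' (fun x _ => ⟨x.2, x.1 / x.2⟩) (fun x _ => ⟨x.1 * x.2, x.1⟩) ?_ ?_ ?_ ?_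
    (fun _ _ => rfl)
  · rintro ⟨q, r⟩ hx
    obtain ⟨hq, hr⟩ := mem_sigma.1 hx
    obtain ⟨h0, h1⟩ := mem_Icc.1 hq
    have h2 := Nat.le_of_dvd h0 (Nat.dvd_of_mem_divisors hr)
    have h3 := Nat.pos_of_mem_divisors hr
    exact mem_sigma.2 ⟨mem_Icc.2 ⟨h3, h2.trans h1⟩, mem_Icc.2
      ⟨Nat.div_pos h2 h3, Nat.div_le_div_right h1⟩⟩
  · rintro ⟨r, e⟩ hx
    obtain ⟨hr, he⟩ := mem_sigma.1 hx
    obtain ⟨h0, -⟩ := mem_Icc.1 hr
    obtain ⟨h1, h2⟩ := mem_Icc.1 he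
    refine mem_sigma.2 ⟨mem_Icc.2 ⟨Nat.mul_pos h0 h1, ?_⟩, Nat.mem_divisors.2
      ⟨dvd_mul_right _ _, (Nat.mul_pos h0 h1).ne'⟩⟩
    rw [mul_comm]
    exact (Nat.le_div_iff_mul_le h0).1 h2
  · rintro ⟨q, r⟩ hx
    obtain ⟨-, hr⟩ := mem_sigma.1 hx
    simp only [Nat.mul_div_cancel' (Nat.dvd_of_mem_divisors hr)]
  · rintro ⟨r, e⟩ hx
    obtain ⟨hr, -⟩ := mem_sigma.1 hx
    simp only [Nat.mul_div_cancel_left e (mem_Icc.1 hr).1]

lemma exp_Aq (hPB : St_PB) (n u q : ℕ) (hq : 0 < q) (hu : Nat.Coprime u q) :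
    (Aq q ((n : ℤ) - u) : ℂ) =
      ∑ r ∈ q.divisors, (∑ χ ∈ prim r, χ u * gam r χ n) * (expG r n (q / r) : ℂ) := by
  have h1 := (ArithmeticFunction.sum_eq_iff_sum_mul_moebius_eq_on (R := ℂ)
    (f := fun q => ∑ r ∈ q.divisors, (∑ χ ∈ prim r, χ u * gam r χ n) * (expG r n (q / r) : ℂ))
    (g := fun d => (rho d ((n : ℤ) - u) : ℂ)) {d | Nat.Coprime u d}
    (fun _ _ h h' => Nat.Coprime.coprime_dvd_right h h')).1 (fun d hd hu => by
      rw [exp_swap1 (fun r e => (∑ χ ∈ prim r, χ u * gam r χ n) * (expG r n e : ℂ)) d hd,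
        exp_rho d u n hd hu, exp_chars_sum hPB d hd]
      refine sum_congr rfl fun r hr => ?_
      rw [← mul_sum, sum_mul]
      refine sum_congr rfl fun χ hχ => ?_
      obtain ⟨e, rfl⟩ := Nat.dvd_of_mem_divisors hr
      have hr0 := Nat.pos_of_mem_divisors hr
      rw [exp_gam r n χ (hPB.2.1 r χ hr0 hχ) e (Nat.pos_of_mul_pos_left hd),
        Nat.mul_div_cancel_left e hr0, tw, if_pos (show Nat.Coprime u (r * e) from hu), mul_assoc]
      push_cast
      rfl) q hq hu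
  rw [← h1, Nat.sum_divisorsAntidiagonal' fun a b => (μ a : ℂ) * (rho b ((n : ℤ) - u) : ℂ), Aq]
  push_cast
  rfl

theorem blk_EXP (hPB : St_PB) : St_EXP := by
  intro Q n P a hP
  have h1 : ∀ p ∈ P, (nu Q ((n : ℤ) - p) : ℂ) =
      ∑ r ∈ Icc 1 Q, ∑ χ ∈ prim r, χ p * gam r χ n * (Sr r n (Q / r) : ℂ) := by
    intro p hp
    obtain ⟨hp1, hp2⟩ := hP p hp
    rw [nu, Int.cast_sum, sum_congr rfl fun q hq => exp_Aq hPB n p q (mem_Icc.1 hq).1
      ((Nat.Prime.coprime_iff_not_dvd hp1).2 fun h =>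
        absurd (Nat.le_of_dvd (mem_Icc.1 hq).1 h) (by have := (mem_Icc.1 hq).2; omega)),
      exp_swap2 (fun r e => (∑ χ ∈ prim r, χ p * gam r χ n) * (expG r n e : ℂ)) Q]
    refine sum_congr rfl fun r _ => ?_
    rw [← mul_sum, ← sum_mul, Sr, sum_filter]
    push_cast
    rfl
  rw [sum_congr rfl fun p hp => by rw [h1 p hp]]
  simp only [mul_sum, sum_mul]
  rw [sum_comm]
  refine sum_congr rfl fun r _ => ?_
  rw [sum_comm]
  refine sum_congr rfl fun χ _ => sum_congr rfl fun p _ => ?_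
  ring

end Pool.Agent.Lib.PS
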