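import Pool.Agent.Lib.PS.FACT2

/-!
Block FACT: local factorisation with crude and sharp bounds.
-/

namespace Pool.Agent.Lib.PS

open Finset Real MeasureTheory Complex Filter Topology Metric
open scoped Classical ComplexConjugate

noncomputable section

lemma fact_sum_norm (Z : Multiset ℂ) (φ : ℂ → ℂ) (K : ℝ) (h : ∀ u ∈ Z, ‖φ u‖ ≤ K) :
    ‖(Z.map φ).sum‖ ≤ Z.card * K := by
  induction Z using Multiset.induction_on with
  | empty => simp
  | cons u Z ih =>
    rw [Multiset.map_cons, Multiset.sum_cons, Multiset.card_cons]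
    have h1 := h u (Multiset.mem_cons_self _ _)
    have h2 := ih fun w hw => h w (Multiset.mem_cons_of_mem hw)
    have := norm_add_le (φ u) (Z.map φ).sum
    push_cast; linarith

lemma fact_sum_re (Z : Multiset ℂ) (φ : ℂ → ℂ) (ψ : ℂ → ℝ) (K : ℝ)
    (h : ∀ u ∈ Z, -(φ u).re - ψ u ≤ K) :
    -((Z.map φ).sum).re - (Z.map ψ).sum ≤ Z.card * K := by
  induction Z using Multiset.induction_on with
  | empty => simp
  | cons u Z ih =>
    simp only [Multiset.map_cons, Multiset.sum_cons, Multiset.card_cons, Complex.add_re]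
    have h1 := h u (Multiset.mem_cons_self _ _)
    have h2 := ih fun w hw => h w (Multiset.mem_cons_of_mem hw)
    push_cast; linarith

lemma fact_core {F : ℂ → ℂ} {c l b η : ℝ} (hc : 0 < c) (hc2 : c ≤ 1 / 2) (hl : 0 < l)
    (hb0 : 0 ≤ b) (hb : b ≤ 3) (hη0 : 0 < η) (hη : η ≤ 1)
    (hF : DifferentiableOn ℂ F (ball 0 c))
    (hup : ∀ v : ℂ, ‖v‖ ≤ c / 2 → ‖F v‖ ≤ Real.exp (b * l * max (-v.re) 0 + η * l))
    (hlow : ∀ v : ℂ, ‖v‖ ≤ c / 2 → 0 ≤ v.re → Real.exp (-(η * l)) ≤ ‖F v‖) :
    ∃ (R : ℝ) (Z : Multiset ℂ) (f : ℂ → ℂ), c / 8 ≤ R ∧ R ≤ c / 4 ∧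
      DifferentiableOn ℂ f (ball 0 c) ∧
      (∀ v ∈ ball (0 : ℂ) c, F v = factP Z v * f v) ∧ (∀ u ∈ Z, ‖u‖ < R) ∧
      (∀ v : ℂ, ‖v‖ ≤ R → f v ≠ 0) ∧ (Z.card : ℝ) ≤ 5 * l ∧
      (∀ v : ℂ, ‖v‖ < R / 2 → ‖deriv f v / f v‖ ≤ 700 / c * l) ∧
      ∀ (δ : ℝ) (v : ℂ) (D : Multiset ℂ), δ ≤ c / 32 → ‖v‖ ≤ δ → D ≤ Z →
        (∀ u ∈ Z - D, u.re ≤ v.re) →
        -(deriv f v / f v).re - ((Z - D).map fun u => (1 / (v - u)).re).sum ≤
          (b / 2 + 16 * η / c + 21000 * δ / c ^ 2) * l + 16 / c * D.card := by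
  have hlow0 := hlow 0 (by simp; positivity) (by simp)
  have hF0 : F 0 ≠ 0 := norm_pos_iff.1 ((Real.exp_pos _).trans_le hlow0)
  have hM : ∀ v : ℂ, ‖v‖ ≤ c / 2 → ‖F v‖ ≤ Real.exp (2 * l) := by
    intro v hv
    refine (hup v hv).trans (Real.exp_le_exp.2 ?_)
    have h1 : max (-v.re) 0 ≤ 1 / 4 := by
      have := (abs_le.1 (Complex.abs_re_le_norm v)).1
      exact max_le (by linarith) (by norm_num)
    have h2 : 0 ≤ max (-v.re) 0 := le_max_right _ _
    have h3 : b * max (-v.re) 0 ≤ 3 * (1 / 4) := by gcongr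
    nlinarith
  obtain ⟨R, Z, f, hR1, hR2, hf, hZF, hZ, hne⟩ :=
    fact_exists hc hF hF0 (M := Real.exp (2 * l)) fun v hv => hM v hv.le
  have hR : 0 < R := by linarith
  have hF0' : Real.exp (-l) ≤ ‖F 0‖ := (Real.exp_le_exp.2 (by nlinarith)).trans hlow0
  have hcard : (Z.card : ℝ) ≤ 5 * l := by
    have h1 := fact_card hc hf hZF (M := Real.exp (2 * l)) (fun v hv => hM v hv.le)
      fun u hu => (hZ u hu).le.trans hR2
    have h2 : (2 : ℝ) ^ Z.card * Real.exp (-l) ≤ Real.exp (2 * l) :=
      le_trans (by gcongr) h1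
    have h3 : Real.exp (Z.card * Real.log 2 + -l) ≤ Real.exp (2 * l) := by
      rw [Real.exp_add, Real.exp_nat_mul, Real.exp_log (by norm_num)]; exact h2
    have h4 := Real.exp_le_exp.1 h3
    have h5 := Real.log_two_gt_d9
    have h6 : (0 : ℝ) ≤ Z.card := Nat.cast_nonneg _
    nlinarith
  set g : ℂ → ℂ := fun v => factQ R Z v * f v with hg
  have hgd : DifferentiableOn ℂ g (ball 0 c) := (factQ_diff R Z).differentiableOn.mul hf
  have hgne : ∀ v : ℂ, ‖v‖ ≤ R → g v ≠ 0 := fun v hv =>
    mul_ne_zero (factQ_ne hR hZ hv) (hne v hv)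
  obtain ⟨R', h, hRR, hh, hre⟩ := fact_log hR (by linarith) hgd hgne
  have hgM : ∀ v : ℂ, ‖v‖ ≤ R → ‖g v‖ ≤ Real.exp (2 * l) := fun v hv =>
    fact_max hR (by linarith) hf hZF (fun w hw => hM w (by linarith)) hv
  have hg0 : ‖F 0‖ ≤ ‖g 0‖ := by
    rw [hZF 0 (mem_ball_self hc), hg]
    simp only [norm_mul]
    rw [factQ_zero hR]
    exact mul_le_mul_of_nonneg_right (factP_zero_le hR.le Z fun u hu => (hZ u hu).le)
      (norm_nonneg _)
  have hgc : ∀ v : ℂ, ‖v‖ = R → ‖g v‖ = ‖F v‖ := by
    intro v hv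
    rw [hZF v (by simp; linarith), hg]
    simp only [norm_mul]
    rw [factQ_circle hR Z hv]
  have hsub : ball (0 : ℂ) R ⊆ ball 0 R' := ball_subset_ball hRR.le
  have h0mem : (0 : ℂ) ∈ ball (0 : ℂ) R' := mem_ball_self (by linarith)
  obtain ⟨k1, k2⟩ := fact_crude (h := h) (k := fun v => deriv g v / g v) (M := 3 * l) hR
    (by positivity) (fun v hv => hh v (hsub hv)) (by
      intro v hv
      have hv' : ‖v‖ ≤ R := le_of_lt (by simpa using hv)
      rw [hre v (hsub hv), hre 0 h0mem]
      have a1 : Real.log ‖g v‖ ≤ 2 * l := by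
        rw [Real.log_le_iff_le_exp (norm_pos_iff.2 (hgne v hv'))]; exact hgM v hv'
      have a2 : -l ≤ Real.log ‖g 0‖ := by
        rw [Real.le_log_iff_exp_le (norm_pos_iff.2 (hgne 0 (by simp [hR.le])))]
        exact hF0'.trans hg0
      linarith)
  have k3 := fact_sharp (h := h) (B := b * l) (A := η * l) hR hRR (by positivity)
    (fun v hv => (hh v hv).differentiableAt.differentiableWithinAt) (hh 0 h0mem)
    (by
      intro v hv
      rw [hre v (by simp; linarith), Real.log_le_iff_le_exp (norm_pos_iff.2 (hgne v hv.le)),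
        hgc v hv]
      exact hup v (by linarith))
    (by
      intro v hv hv0
      rw [hre v (by simp; linarith), Real.le_log_iff_exp_le (norm_pos_iff.2 (hgne v hv.le)),
        hgc v hv]
      exact hlow v (by linarith) hv0)
  have hid : ∀ v : ℂ, ‖v‖ ≤ R → deriv f v / f v = deriv g v / g v +
      (Z.map fun u => conj u / ((R : ℂ) ^ 2 - conj u * v)).sum := by
    intro v hv
    have hfd := (hf.differentiableAt (isOpen_ball.mem_nhds (show v ∈ ball (0 : ℂ) c by
      simp; linarith))).hasDerivAt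
    have hd : HasDerivAt g (deriv (factQ R Z) v * f v + factQ R Z v * deriv f v) v :=
      (factQ_diff R Z v).hasDerivAt.mul hfd
    have e := factQ_logDeriv hR hZ hv
    rw [hd.deriv, ← neg_neg (Multiset.sum _), ← e]
    have := factQ_ne hR hZ hv
    have := hne v hv
    simp only [hg]
    field_simp
    ring
  have hRinv : 1 / R ≤ 8 / c := by rw [div_le_div_iff₀ hR hc]; linarith
  have hRinv2 : 1 / R ^ 2 ≤ 64 / c ^ 2 := by
    rw [div_le_div_iff₀ (by positivity) (by positivity)]; nlinarith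
  refine ⟨R, Z, f, hR1, hR2, hf, hZF, hZ, hne, hcard, fun v hv => ?_,
    fun δ v D hδ hv hD hre' => ?_⟩
  · rw [hid v (by linarith)]
    have a1 := k1 v (by simpa using hv)
    have a2 := fact_sum_norm Z (fun u => conj u / ((R : ℂ) ^ 2 - conj u * v)) (2 / R)
      fun u hu => fact_term_norm hR (hZ u hu) hv.le
    have a3 : (Z.card : ℝ) * (2 / R) ≤ 5 * l * (2 / R) := by gcongr
    have a4 := norm_add_le (deriv g v / g v)
      (Z.map fun u => conj u / ((R : ℂ) ^ 2 - conj u * v)).sum
    have e1 : 24 * (3 * l) / R + 5 * l * (2 / R) = 82 * l * (1 / R) := by ring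
    have a5 : 82 * l * (1 / R) ≤ 82 * l * (8 / c) := by gcongr
    have e2 : 700 / c * l = 82 * l * (8 / c) + 44 * (l / c) := by ring
    have a6 : 0 ≤ l / c := by positivity
    linarith
  · have hδ0 : 0 ≤ δ := (norm_nonneg _).trans hv
    have hvR : ‖v‖ < R / 2 := by linarith
    rw [hid v (by linarith)]
    have hs : (Z.map fun u => conj u / ((R : ℂ) ^ 2 - conj u * v)).sum =
        ((Z - D).map fun u => conj u / ((R : ℂ) ^ 2 - conj u * v)).sum +
        (D.map fun u => conj u / ((R : ℂ) ^ 2 - conj u * v)).sum := by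
      rw [← Multiset.sum_add, ← Multiset.map_add, Multiset.sub_add_cancel hD]
    have a1 := fact_sum_re (Z - D) (fun u => conj u / ((R : ℂ) ^ 2 - conj u * v))
      (fun u => (1 / (v - u)).re) (5 * δ / R ^ 2) fun u hu =>
        fact_term_re hR (by linarith) (hZ u (Multiset.mem_of_le (Multiset.sub_le_self _ _) hu))
          hv (hre' u hu)
    have a2 := fact_sum_norm D (fun u => conj u / ((R : ℂ) ^ 2 - conj u * v)) (2 / R)
      fun u hu => fact_term_norm hR (hZ u (Multiset.mem_of_le hD hu)) hvR.le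
    have a3 := (abs_le.1 ((Complex.abs_re_le_norm _).trans a2)).1
    have a4 := (abs_le.1 ((Complex.abs_re_le_norm _).trans (k2 v (by simpa using hvR)))).1
    have hc1 : ((Z - D).card : ℝ) ≤ 5 * l := by
      have : (Z - D).card ≤ Z.card := Multiset.card_le_card (Multiset.sub_le_self _ _)
      have : ((Z - D).card : ℝ) ≤ Z.card := by exact_mod_cast this
      linarith
    have b1 : ((Z - D).card : ℝ) * (5 * δ / R ^ 2) ≤ 25 * l * δ * (64 / c ^ 2) := by
      calc ((Z - D).card : ℝ) * (5 * δ / R ^ 2) ≤ 5 * l * (5 * δ / R ^ 2) := by gcongr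
        _ = 25 * l * δ * (1 / R ^ 2) := by ring
        _ ≤ _ := by gcongr
    have b2 : (D.card : ℝ) * (2 / R) ≤ 16 / c * D.card := by
      calc (D.card : ℝ) * (2 / R) = 2 * D.card * (1 / R) := by ring
        _ ≤ 2 * D.card * (8 / c) := by gcongr
        _ = _ := by ring
    have b3 : 96 * (3 * l) / R ^ 2 * ‖v‖ ≤ 288 * l * δ * (64 / c ^ 2) := by
      calc 96 * (3 * l) / R ^ 2 * ‖v‖ ≤ 96 * (3 * l) / R ^ 2 * δ := by gcongr
        _ = 288 * l * δ * (1 / R ^ 2) := by ring
        _ ≤ _ := by gcongr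
    have b4 : 2 * (η * l) / R ≤ 16 * η / c * l := by
      calc 2 * (η * l) / R = 2 * η * l * (1 / R) := by ring
        _ ≤ 2 * η * l * (8 / c) := by gcongr
        _ = _ := by ring
    have b5 : 25 * l * δ * (64 / c ^ 2) + 288 * l * δ * (64 / c ^ 2) ≤
        21000 * δ / c ^ 2 * l := by
      have : 0 ≤ l * δ / c ^ 2 := by positivity
      have e1 : 25 * l * δ * (64 / c ^ 2) + 288 * l * δ * (64 / c ^ 2) =
          20032 * (l * δ / c ^ 2) := by ring
      have e2 : 21000 * δ / c ^ 2 * l = 21000 * (l * δ / c ^ 2) := by ring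
      rw [e1, e2]; linarith
    rw [hs]
    simp only [Complex.add_re, Complex.sub_re] at a4 ⊢
    have e : (b / 2 + 16 * η / c + 21000 * δ / c ^ 2) * l =
        b * l / 2 + 16 * η / c * l + 21000 * δ / c ^ 2 * l := by ring
    rw [e]
    linarith

theorem blk_FACT : St_FACT := by
  intro c hc hc2
  have hC : 5 ≤ 700 / c := by rw [le_div_iff₀ hc]; linarith
  refine ⟨700 / c, by linarith, fun ε hε => ⟨min (c / 32) (ε * c ^ 2 / 42000), min 1 (ε * c / 32),
    2, by positivity, min_le_left _ _, by positivity, ?_⟩⟩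
  intro l hl a E m b T γ hLD hb0 hb hγ
  set η := min 1 (ε * c / 32) with hη
  set δ := min (c / 32) (ε * c ^ 2 / 42000) with hδ
  set s0 : ℂ := 1 + 1 / l + γ * I with hs0
  have hl0 : 0 < l := by linarith
  have hs0re : s0.re = 1 + 1 / l := by
    have : (1 / (l : ℂ)) = ((1 / l : ℝ) : ℂ) := by push_cast; ring
    rw [hs0, this]; simp
  have hs0im : s0.im = γ := by
    have : (1 / (l : ℂ)) = ((1 / l : ℝ) : ℂ) := by push_cast; ring
    rw [hs0, this]; simp
  have hl1 : 0 < 1 / l := by positivity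
  have hl2 : 1 / l ≤ 1 / 2 := one_div_le_one_div_of_le (by norm_num) hl
  have hF : DifferentiableOn ℂ (fun v => E (s0 + v)) (ball 0 c) := by
    apply hLD.diff.comp (by fun_prop)
    intro v hv
    have hv' : ‖v‖ < c := by simpa using hv
    have := (abs_le.1 (Complex.abs_re_le_norm v)).1
    simp only [Set.mem_ofPred_eq, Complex.add_re, hs0re]
    linarith
  have him : ∀ v : ℂ, ‖v‖ ≤ c / 2 → |(s0 + v).im| ≤ T + 1 := by
    intro v hv
    have h1 := Complex.abs_im_le_norm v
    rw [Complex.add_im, hs0im]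
    have := abs_add_le γ v.im
    linarith
  obtain ⟨R, Z, f, hR1, hR2, hf, hZF, hZ, hne, hcard, hG, hsharp⟩ :=
    fact_core (F := fun v => E (s0 + v)) (η := η) hc hc2 hl0 hb0 hb (by positivity)
      (min_le_left _ _) hF
      (by
        intro v hv
        have h1 := abs_le.1 (Complex.abs_re_le_norm v)
        refine (hLD.up (s0 + v) ?_ ?_ (him v hv)).trans (Real.exp_le_exp.2 ?_)
        · rw [Complex.add_re, hs0re]; linarith
        · rw [Complex.add_re, hs0re]; linarith
        · have : max (1 - (s0 + v).re) 0 ≤ max (-v.re) 0 := by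
            apply max_le_max _ le_rfl
            rw [Complex.add_re, hs0re]; linarith
          have hbl : 0 ≤ b * l := by positivity
          nlinarith)
      (by
        intro v hv hv0
        have h1 := abs_le.1 (Complex.abs_re_le_norm v)
        refine hLD.low (s0 + v) ?_ ?_ (him v hv)
        · rw [Complex.add_re, hs0re]; linarith
        · rw [Complex.add_re, hs0re]; linarith)
  have hR : 0 < R := by linarith
  have hinj : Function.Injective fun u : ℂ => s0 + u := add_right_injective s0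
  refine ⟨R, Z.map fun u => s0 + u, fun s => deriv f (s - s0) / f (s - s0), hR1, hR2,
    fun ρ => ?_, ?_, ?_, fun s hs => ?_, fun s D hs hD hre => ?_⟩
  · have e : ρ = s0 + (ρ - s0) := by ring
    have h1 : (Z.map fun u => s0 + u).count ρ = Z.count (ρ - s0) := by
      conv_lhs => rw [e]
      exact Multiset.count_map_eq_count' _ _ hinj _
    rw [h1]
    split_ifs with h
    · have := fact_ord (E := E) (s0 := s0) hf hZF (u := ρ - s0) (by linarith) (hne _ h.le)
      rw [← this, ← e]
    · exact Multiset.count_eq_zero.2 fun hm => h (hZ _ hm)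
  · rw [Multiset.card_map]
    nlinarith
  · have h1 : DifferentiableOn ℂ (fun v => deriv f v / f v) (ball 0 (R / 2)) := by
      have hs : ball (0 : ℂ) (R / 2) ⊆ ball 0 c := ball_subset_ball (by linarith)
      apply ((hf.deriv isOpen_ball).mono hs).div (hf.mono hs)
      intro v hv
      have : ‖v‖ < R / 2 := by simpa using hv
      exact hne v (by linarith)
    apply h1.comp (f := fun s => s - s0) (by fun_prop)
    intro s hs
    simpa [dist_eq_norm] using hs
  · have hv : ‖s - s0‖ < R / 2 := by simpa [dist_eq_norm] using hs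
    refine ⟨hG _ hv, fun hE => ?_⟩
    have hmem : s - s0 ∈ ball (0 : ℂ) c := by simp; linarith
    have hev : E =ᶠ[𝓝 s] fun z => factP Z (z - s0) * f (z - s0) := by
      have hc' : ContinuousAt (fun z : ℂ => z - s0) s := by fun_prop
      filter_upwards [hc'.preimage_mem_nhds (isOpen_ball.mem_nhds hmem)] with z hz
      have := hZF (z - s0) hz
      simpa using this
    have hEs : E s = factP Z (s - s0) * f (s - s0) := hev.self_of_nhds
    have hP : factP Z (s - s0) ≠ 0 := fun h => hE (by rw [hEs, h, zero_mul])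
    have hnot : s - s0 ∉ Z := fun h => hP (factP_eq_zero h)
    have hfd := (hf.differentiableAt (isOpen_ball.mem_nhds hmem)).hasDerivAt
    have hd : HasDerivAt (fun v => factP Z v * f v)
        (deriv (factP Z) (s - s0) * f (s - s0) + factP Z (s - s0) * deriv f (s - s0)) (s - s0) :=
      (factP_diff Z _).hasDerivAt.mul hfd
    have hd2 := hd.comp_sub_const s s0
    rw [hev.deriv_eq, hd2.deriv, hEs, Multiset.map_map]
    have e := factP_logDeriv hnot
    have e2 : (Z.map ((fun ρ => 1 / (s - ρ)) ∘ fun u => s0 + u)).sum =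
        (Z.map fun u => 1 / (s - s0 - u)).sum := by
      congr 1
      apply Multiset.map_congr rfl
      intro u _
      simp only [Function.comp]
      congr 1; ring
    rw [e2, ← e]
    have := hne (s - s0) (by linarith)
    field_simp
  · set D' := D.map fun ρ => ρ - s0 with hD'
    have hDD : D = D'.map fun u => s0 + u := by
      rw [hD', Multiset.map_map]
      simp
    have hD2 : D' ≤ Z := by
      rw [hDD] at hD
      exact (Multiset.map_le_map_iff hinj).1 hD
    have hsubm : (Z.map fun u => s0 + u) - D = (Z - D').map fun u => s0 + u := by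
      have e0 : Z - D' + D' = Z := Multiset.sub_add_cancel hD2
      have e1 : (Z.map fun u => s0 + u) = ((Z - D').map fun u => s0 + u) + D := by
        conv_lhs => rw [← e0]
        rw [Multiset.map_add, ← hDD]
      rw [e1, add_tsub_cancel_right]
    have h1 := hsharp δ (s - s0) D' (min_le_left _ _) hs hD2 (by
      intro u hu
      have := hre (s0 + u) (by rw [hsubm]; exact Multiset.mem_map_of_mem _ hu)
      simp only [Complex.add_re, Complex.sub_re] at this ⊢
      linarith)
    rw [hsubm, Multiset.map_map]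
    have e2 : ((Z - D').map ((fun ρ => (1 / (s - ρ)).re) ∘ fun u => s0 + u)).sum =
        ((Z - D').map fun u => (1 / (s - s0 - u)).re).sum := by
      congr 1
      apply Multiset.map_congr rfl
      intro u _
      simp only [Function.comp]
      congr 2; ring
    rw [e2]
    have hcD : (D'.card : ℝ) = D.card := by rw [hD', Multiset.card_map]
    rw [hcD] at h1
    have b1 : 16 * η / c ≤ ε / 2 := by
      have : η ≤ ε * c / 32 := min_le_right _ _
      rw [div_le_iff₀ hc]; linarith
    have b2 : 21000 * δ / c ^ 2 ≤ ε / 2 := by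
      have : δ ≤ ε * c ^ 2 / 42000 := min_le_right _ _
      rw [div_le_iff₀ (by positivity)]; linarith
    have b3 : (b / 2 + 16 * η / c + 21000 * δ / c ^ 2) * l ≤ (b / 2 + ε) * l := by
      gcongr ?_ * l; linarith
    have b4 : 16 / c * (D.card : ℝ) ≤ 700 / c * D.card := by gcongr; norm_num
    linarith

end

end Pool.Agent.Lib.PS
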