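import Pool.Agent.Lib.PS.PB

/-!
Relevant characters: counting and power saving cancellation.
-/

namespace Pool.Agent.Lib.PS

open Finset
open scoped NumberTheorySymbols Classical ComplexConjugate

lemma fam_prime {n W r p : ℕ} (hp : p.Prime) (h : p ∣ Mof n W r) : p ∣ n ∧ ¬ p ∣ W := by
  obtain ⟨a, ha, hpa⟩ := (Prime.dvd_finsetProd_iff hp.prime _).1 h
  rw [mem_filter] at ha
  rw [(Nat.prime_dvd_prime_iff_eq hp (Nat.prime_of_mem_primeFactors ha.1)).1 hpa]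
  exact ha.2

lemma fam_sqf (n W r : ℕ) : Squarefree (Mof n W r) := by
  refine Finset.squarefree_prod_of_pairwise_isCoprime (fun a ha b hb hab => ?_) fun a ha => ?_
  · exact Nat.coprime_iff_isRelPrime.1 ((Nat.coprime_primes
      (Nat.prime_of_mem_primeFactors (mem_filter.1 ha).1)
      (Nat.prime_of_mem_primeFactors (mem_filter.1 hb).1)).2 hab)
  · exact (Nat.prime_of_mem_primeFactors (mem_filter.1 ha).1).squarefree

lemma fam_dvd (n W r : ℕ) : Mof n W r ∣ n :=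
  Finset.prod_primes_dvd n
    (fun _ ha => (Nat.prime_of_mem_primeFactors (mem_filter.1 ha).1).prime)
    fun _ ha => (mem_filter.1 ha).2.1

lemma fam_odd {n W r : ℕ} (hW : Even W) : Odd (Mof n W r) := by
  rw [← Nat.not_even_iff_odd, even_iff_two_dvd]
  exact fun h => (fam_prime Nat.prime_two h).2 hW.two_dvd

lemma fam_cop {n W r r' q : ℕ} {χ ψ : ℕ → ℂ} (hr : 0 < r') (h : Dec n W r' χ q ψ) :
    Nat.Coprime (Mof n W r) q := by
  refine Nat.Coprime.symm (Nat.coprime_of_dvd fun p hp h1 h2 => ?_)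
  have h3 : p ∣ Mof n W r' := dvd_prod_of_mem _ (mem_filter.2 ⟨Nat.mem_primeFactors.2
    ⟨hp, h1.trans (Dvd.intro_left _ h.1.symm), hr.ne'⟩, fam_prime hp h2⟩)
  exact hp.one_lt.ne' (Nat.eq_one_of_dvd_coprimes h.2.1 h3 h1)

lemma fam_qpos {n W r q : ℕ} {χ ψ : ℕ → ℂ} (hr : 0 < r) (h : Dec n W r χ q ψ) : 0 < q :=
  Nat.pos_of_mul_pos_left (h.1 ▸ hr)

lemma fam_card (n W R Q : ℕ) (hn : 0 < n) :
    ((PP Q).filter (Rel n W R)).card ≤ n.divisors.card * R ^ 2 := by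
  have h1 : (PP Q).filter (Rel n W R) ⊆ (n.divisors ×ˢ (Icc 1 R).sigma prim).image
      fun z : ℕ × XX => (⟨z.1 * z.2.1, jc z.1 * z.2.2⟩ : XX) := by
    rintro ⟨r, χ⟩ hx
    obtain ⟨hx, q, ψ, hq, hd⟩ := mem_filter.1 hx
    have hr : 0 < r := lt_of_lt_of_le two_pos (mem_Icc.1 (mem_sigma.1 hx).1).1
    refine mem_image.2 ⟨(Mof n W r, ⟨q, ψ⟩), mem_product.2 ⟨Nat.mem_divisors.2
      ⟨fam_dvd n W r, hn.ne'⟩, mem_sigma.2 ⟨mem_Icc.2 ⟨fam_qpos hr hd, hq⟩, hd.2.2.1⟩⟩, ?_⟩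
    exact Sigma.ext hd.1.symm (heq_of_eq hd.2.2.2.symm)
  refine (card_le_card h1).trans (card_image_le.trans ?_)
  rw [card_product, card_sigma]
  refine Nat.mul_le_mul_left _ ((sum_le_card_nsmul _ _ R fun q hq => ?_).trans (by simp [sq]))
  exact (pb_card (mem_Icc.1 hq).1).trans (mem_Icc.1 hq).2

lemma fam_mono {χ : ℕ → ℂ} {c B B' : ℝ} (hc : 0 < c) (hB : 0 ≤ B) (h : B ≤ B')
    (h1 : Canc χ c B) : Canc χ c B' := fun y =>
  (h1 y).trans (mul_le_mul_of_nonneg_left (Real.rpow_le_rpow hB h hc.le) (by positivity))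

lemma fam_num {M q g W : ℕ} {C ε l α β γ t : ℝ} (hC : 0 ≤ C) (hε : 0 < ε) (hl : 0 ≤ l)
    (hM : (M : ℝ) ≤ Real.exp (α * l)) (hq : (q : ℝ) ≤ Real.exp (β * l))
    (hg : (g : ℝ) ≤ Real.exp (γ * l)) (hW : C * (W : ℝ) ^ ε ≤ Real.exp (ε * l))
    (ht : α * (1 / 4 + ε) + β + γ * ε + ε ≤ t) :
    C * (M : ℝ) ^ (1 / 4 + ε) * q * ((g * W : ℕ) : ℝ) ^ ε ≤ Real.exp (t * l) := by
  have h1 : (M : ℝ) ^ (1 / 4 + ε) ≤ Real.exp (α * l * (1 / 4 + ε)) := by
    rw [Real.exp_mul]; exact Real.rpow_le_rpow (by positivity) hM (by positivity)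
  have h2 : (g : ℝ) ^ ε ≤ Real.exp (γ * l * ε) := by
    rw [Real.exp_mul]; exact Real.rpow_le_rpow (by positivity) hg hε.le
  calc C * (M : ℝ) ^ (1 / 4 + ε) * q * ((g * W : ℕ) : ℝ) ^ ε
      = (M : ℝ) ^ (1 / 4 + ε) * q * (g : ℝ) ^ ε * (C * (W : ℝ) ^ ε) := by
        rw [Nat.cast_mul, Real.mul_rpow (by positivity) (by positivity)]; ring
    _ ≤ Real.exp (α * l * (1 / 4 + ε)) * Real.exp (β * l) * Real.exp (γ * l * ε) *
          Real.exp (ε * l) := by gcongr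
    _ ≤ Real.exp (t * l) := by
        rw [← Real.exp_add, ← Real.exp_add, ← Real.exp_add, Real.exp_le_exp]
        nlinarith [mul_le_mul_of_nonneg_right ht hl]

lemma fam_nonpr {q : ℕ} {ψ : ℕ → ℂ} (hq : 1 < q) (h : ψ ∈ prim q) : NonPr q ψ := by
  by_contra hn
  refine hq.ne (((pb_prim_iff (zero_lt_one.trans hq)).1 h).2 1 (one_dvd _) fun x hx _ => ?_)
  by_contra h2
  exact hn ⟨x, hx, h2⟩

lemma fam_jc_sq {g : ℕ} (hg : g ≠ 0) (k : ℕ) :
    jc g k * jc g k = if Nat.Coprime k g then 1 else 0 := by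
  have : NeZero g := ⟨hg⟩
  unfold jc
  split_ifs with h
  · rw [← Int.cast_mul, ← sq, jacobiSym.sq_one (by rwa [Int.gcd_natCast_natCast]), Int.cast_one]
  · rw [jacobiSym.eq_zero_iff_not_coprime.2 (by rwa [Int.gcd_natCast_natCast])]; simp

lemma fam_jc_mul {a b : ℕ} (ha : a ≠ 0) (hb : b ≠ 0) (k : ℕ) : jc (a * b) k = jc a k * jc b k := by
  rw [jc, jacobiSym.mul_right' _ ha hb, Int.cast_mul]; rfl

lemma fam_pair {g a b : ℕ} (hg : g ≠ 0) (ha : a ≠ 0) (hb : b ≠ 0) (W : ℕ) (ψ ψ' : ℕ → ℂ) :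
    tw W (jc (g * a) * ψ) * tw W (jc (g * b) * ψ') = tw (g * W) (jc (a * b) * (ψ * ψ')) := by
  funext k
  have h := fam_jc_sq hg k
  simp only [Pi.mul_apply, tw, fam_jc_mul hg ha, fam_jc_mul hg hb, fam_jc_mul ha hb,
    Nat.coprime_mul_iff_right]
  by_cases h1 : Nat.Coprime k W
  · by_cases h2 : Nat.Coprime k g
    · rw [if_pos h2] at h
      rw [if_pos h1, if_pos h1, if_pos ⟨h2, h1⟩]
      linear_combination jc a k * jc b k * ψ k * ψ' k * h
    · rw [if_neg h2] at h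
      rw [if_pos h1, if_pos h1, if_neg fun h3 => h2 h3.1]
      linear_combination jc a k * jc b k * ψ k * ψ' k * h
  · rw [if_neg h1, if_neg h1, if_neg fun h3 => h1 h3.2, mul_zero]

lemma fam_cj (W M : ℕ) (ψ : ℕ → ℂ) : cj (tw W (jc M * ψ)) = tw W (jc M * cj ψ) := by
  funext k
  simp only [cj, tw, Pi.mul_apply, jc]
  split_ifs <;> simp

lemma fam_real {W M q : ℕ} {ψ : ℕ → ℂ} (h : IsChar q ψ) (hn : ¬ NonPr q (ψ * ψ)) :
    RealV (tw W (jc M * ψ)) := by
  intro k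
  have h1 : (ψ k).im = 0 := by
    by_cases hk : Nat.Coprime k q
    · have h2 : ψ k * ψ k = 1 := by
        by_contra h2
        exact hn ⟨k, hk, h2⟩
      rcases mul_self_eq_one_iff.1 h2 with h3 | h3 <;> simp [h3]
    · simp [h.2.2.2 k hk]
  simp only [tw, Pi.mul_apply, jc]
  split_ifs <;> simp [h1]

lemma fam_eq {z w : ℂ} (hz : ‖z‖ ≤ 1) (hw : ‖w‖ ≤ 1) (h : z * conj w = 1) : z = w := by
  have h1 := congrArg norm h
  rw [norm_mul, Complex.norm_conj, norm_one] at h1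
  have h2 : ‖w‖ = 1 := le_antisymm hw (by nlinarith [norm_nonneg w])
  have h3 := Complex.conj_mul' w
  rw [h2, Complex.ofReal_one, one_pow] at h3
  linear_combination w * h - z * h3

theorem blk_FAM (_hPB : St_PB) (hC : St_CANC) : St_FAM := by
  refine ⟨fam_card, fun ε hε => ?_⟩
  obtain ⟨c, C, hc, hc', hC1, H⟩ := hC.2.2 (ε / 8) (by positivity)
  refine ⟨c, ε / 8, hc, hc', by positivity, fun W hW hW2 => ?_⟩
  refine ⟨max 0 (Real.log (C * (W : ℝ) ^ (ε / 8)) / (ε / 8)), fun l hl n R x hR hx hp hr => ?_⟩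
  have hl0 : 0 ≤ l := (le_max_left _ _).trans hl
  have hC0 : 0 ≤ C := zero_le_one.trans hC1
  have hWl : C * (W : ℝ) ^ (ε / 8) ≤ Real.exp (ε / 8 * l) := by
    have := (le_max_right _ _).trans hl
    rw [div_le_iff₀ (by positivity), Real.log_le_iff_le_exp (by positivity), mul_comm l] at this
    exact this
  obtain ⟨r, χ⟩ := x
  obtain ⟨q, ψ, hqR, hd⟩ := hr
  dsimp only at hx hp hd ⊢
  have hr0 : 0 < r := two_pos.trans_le hx
  have hq := fam_qpos hr0 hd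
  have hψ := pb_prim_isChar hq hd.2.2.1
  have ho : Odd (Mof n W r) := fam_odd hW2
  have hql : (q : ℝ) ≤ Real.exp (ε / 8 * l) := le_trans (by exact_mod_cast hqR) hR
  have h1 : ((1 : ℕ) : ℝ) ≤ Real.exp (0 * l) := by simp
  refine ⟨(pb_tw (Nat.mul_pos hr0 hW) (pb_prim_isChar hr0 hp) (dvd_mul_right _ _)
    (dvd_mul_left _ _) fun _ => Nat.Coprime.mul_right).2.1, fun d hd0 hd2 hM => ?_,
    fun hM => ?_, fun y hy hp' hr' hne hL => ?_⟩
  · have h2 := H _ q (1 * W) ψ ho (fam_sqf n W r) hq (by omega) hd.2.1 hψ.2.1 hψ.2.2.1 (by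
      rcases Nat.lt_or_ge 1 (Mof n W r) with h | h
      · exact Or.inl h
      · refine Or.inr (fam_nonpr ?_ hd.2.2.1)
        have := hd.1
        nlinarith)
    have h3 := fam_mono hc (by positivity) (fam_num hC0 (by positivity) hl0 hM hql h1 hWl
      (t := d / 4 + ε) (by nlinarith)) h2
    rwa [one_mul, ← hd.2.2.2] at h3
  · by_cases hn : NonPr q (ψ * ψ)
    · right
      have h2 := H (1 * 1) q (Mof n W r * W) (ψ * ψ) (by simp) (by simp) hq
        (Nat.mul_pos ho.pos hW) (by simp) (pb_mul hψ hψ).2.1 (fun k => by simp [hψ.2.2.1])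
        (Or.inr hn)
      have h3 := fam_mono hc (by positivity) (fam_num (M := 1 * 1) hC0 (by positivity) hl0 h1 hql
        hM hWl (t := ε) (by nlinarith)) h2
      rwa [← fam_pair ho.pos.ne' one_ne_zero one_ne_zero, mul_one, ← hd.2.2.2] at h3
    · left
      rw [hd.2.2.2]
      exact fam_real hψ hn
  · obtain ⟨r', χ'⟩ := y
    obtain ⟨q', ψ', hqR', hd'⟩ := hr'
    dsimp only at hy hp' hd' hL ⊢
    have hr0' : 0 < r' := two_pos.trans_le hy
    have hq' := fam_qpos hr0' hd'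
    have hψ' := pb_prim_isChar hq' hd'.2.2.1
    have ho' : Odd (Mof n W r') := fam_odd hW2
    have hql' : (q' : ℝ) ≤ Real.exp (ε / 8 * l) := le_trans (by exact_mod_cast hqR') hR
    have c1 : Nat.Coprime (Mof n W r) q' := fam_cop hr0' hd'
    have c2 : Nat.Coprime (Mof n W r') q := fam_cop hr0 hd
    have s1 := fam_sqf n W r
    have s2 := fam_sqf n W r'
    obtain ⟨e1, c3, hp1, e2⟩ := hd
    obtain ⟨e1', c4, hp1', e2'⟩ := hd'
    generalize Mof n W r = M at *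
    generalize Mof n W r' = M' at *
    obtain ⟨g, a, b, hg, hab, rfl, rfl⟩ := Nat.exists_coprime' (Nat.gcd_pos_of_pos_left M' ho.pos)
    rw [mul_comm a, mul_comm b] at *
    have ha := Nat.Odd.of_mul_right ho
    have hb := Nat.Odd.of_mul_right ho'
    rw [Nat.lcm_mul_left, hab.lcm_eq_mul] at hL
    have hψψ := pb_mul hψ (pb_cj hψ')
    have h2 := H (a * b) (q * q') (g * W) (ψ * cj ψ') (ha.mul hb)
      ((Nat.squarefree_mul hab).2 ⟨s1.of_mul_right, s2.of_mul_right⟩) (Nat.mul_pos hq hq')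
      (Nat.mul_pos hg hW) (Nat.Coprime.mul_left
        (c3.coprime_mul_left.mul_right c1.coprime_mul_left)
        (c2.coprime_mul_left.mul_right c4.coprime_mul_left)) hψψ.2.1 hψψ.2.2.1 (by
      by_contra hn
      rw [not_or, not_lt] at hn
      have ha1 : a = 1 := by nlinarith [ha.pos, hb.pos]
      have hb1 : b = 1 := by nlinarith [ha.pos, hb.pos]
      obtain ⟨e3, e4⟩ := pb_uniq hq hq' one_pos hp1 hp1' fun k hk => by
        refine fam_eq (hψ.2.1.2.2 k) (hψ'.2.1.2.2 k) ?_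
        by_contra h2
        exact hn.2 ⟨k, by simpa using hk, h2⟩
      subst ha1 hb1 e3 e4 e1 e1' e2 e2'
      exact hne rfl)
    have b1 : ((a * b : ℕ) : ℝ) ≤ Real.exp (1 * l) := by
      rw [one_mul]
      exact le_trans (by exact_mod_cast Nat.le_mul_of_pos_left _ hg) hL
    have b2 : (g : ℝ) ≤ Real.exp (1 * l) := by
      rw [one_mul]
      exact le_trans (by exact_mod_cast Nat.le_mul_of_pos_right _ (ha.mul hb).pos) hL
    have b3 : ((q * q' : ℕ) : ℝ) ≤ Real.exp (ε / 4 * l) := by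
      rw [Nat.cast_mul, show ε / 4 * l = ε / 8 * l + ε / 8 * l by ring, Real.exp_add]
      gcongr
    have h3 := fam_mono hc (by positivity) (fam_num hC0 (by positivity) hl0 b1 b3 b2 hWl
      (t := 1 / 4 + ε) (by nlinarith)) h2
    rwa [← fam_pair hg.ne' ha.pos.ne' hb.pos.ne', ← fam_cj, ← e2, ← e2'] at h3

end Pool.Agent.Lib.PS
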