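import Pool.Agent.Lib.PS.FINAL1

/-!
Block FINAL: from the lower bound for the model sum to the exceptional set estimate.
-/

namespace Pool.Agent.Lib.PS

open Finset Real MeasureTheory Complex Filter Topology
open scoped Classical

lemma fin_par (Lm α K : ℝ) (hL : Lm ≤ 4) (hα : 3 < α) (hK : 0 < K) (hαK : α + 2 * K < Lm) :
    ∃ η κ g : ℝ, 0 < η ∧ η ≤ (α - 3) / 5 ∧ α + 2 * K + η < κ ∧ κ ≤ 4 ∧ 0 < g ∧
      g = 1 - κ / Lm ∧ η ≤ 1 / 5 ∧ 3 + 6 * η ≤ κ := by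
  have h1 : min ((α - 3) / 5) ((Lm - α - 2 * K) / 3) ≤ (α - 3) / 5 := min_le_left _ _
  have h2 : min ((α - 3) / 5) ((Lm - α - 2 * K) / 3) ≤ (Lm - α - 2 * K) / 3 := min_le_right _ _
  refine ⟨min ((α - 3) / 5) ((Lm - α - 2 * K) / 3), Lm - (Lm - α - 2 * K) / 3, _,
    lt_min (by linarith) (by linarith), h1, by linarith, by linarith, ?_, rfl, by linarith,
    by linarith⟩
  have : (Lm - (Lm - α - 2 * K) / 3) / Lm < 1 := (div_lt_one (by linarith)).2 (by linarith)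
  linarith

lemma fin_ee (a b l : ℝ) (hl : 0 < l) (h : a ≤ b) : Real.exp (a * l) ≤ Real.exp (b * l) :=
  Real.exp_le_exp.2 (mul_le_mul_of_nonneg_right h hl.le)

theorem blk_FINAL (Lm : ℝ) (h3 : 3 < Lm) (hL : Lm ≤ 4) (hV : St_VAR) (hS : St_SING1)
    (hB : St_BADC) (hD : St_DISC) (hWT : St_WT) : St_MAIN Lm → St_FINAL Lm := by
  rintro ⟨α, K, hα, hK, hαK, hM⟩
  have hLm : 0 < Lm := by linarith
  obtain ⟨η, κ, g, hη0, hη5, hκ1, hκ4, hg0, hg, hη1, hκ3⟩ := fin_par Lm α K hL hα hK hαK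
  have hκ0 : 0 < κ := by linarith
  have hκ5 : 1 ≤ κ := by linarith
  have hθ : 1 / 2 ≤ 1 - 1 / Lm := by
    have : 1 / Lm < 1 / 3 := one_div_lt_one_div_of_lt (by norm_num) h3
    linarith
  have q1 : 1 + 2 * η ≤ 2 := by linarith
  have q2 : η / 8 ≤ 1 + η := by linarith
  have q3 : 1 + 2 * η ≤ κ * (1 / 3) := by linarith
  have q4 : κ - 1 ≤ κ - 1 + g := by linarith
  have q5 : 1 + κ ≤ 5 := by linarith
  have he0 : 0 < 1 / 3 - 1 / Lm := by
    have : 1 / Lm < 1 / 3 := one_div_lt_one_div_of_lt (by norm_num) h3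
    linarith
  obtain ⟨c2, hc2, hS⟩ := hS (η / 8 / κ) (1 / 3 - 1 / Lm) (by positivity) he0
  obtain ⟨cg, W, N0, T, e1, hcg, -, hW, he1, hM⟩ := hM η (c2 * κ) hη0 hη5 (by positivity)
  obtain ⟨e2, C2, he2, he21, hC2, h2⟩ := fin_two hB hD W N0 T κ g e1 hW hκ5 hg0 he1
  obtain ⟨e4, he4, hM⟩ := hM e2 he2 he21
  obtain ⟨ε, hε0, hε1, hε2⟩ : ∃ ε : ℝ, 0 < ε ∧ ε ≤ e4 ∧ ε ≤ η / 12 :=
    ⟨min e4 (η / 12), lt_min he4 (by positivity), min_le_left _ _, min_le_right _ _⟩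
  obtain ⟨l0, hM⟩ := hM ε hε0 hε1
  obtain ⟨X1, hS⟩ := hS (ε / κ) (by positivity)
  have h3' := fin_three hV hWT α K η κ cg ε hα hK hη0 hη5 hκ1 hκ4 hcg hε2
  have hT : Tendsto (fun X : ℕ => Real.log X / κ) atTop atTop :=
    (Real.tendsto_log_atTop.comp tendsto_natCast_atTop_atTop).atTop_div_const hκ0
  have hall : ∀ᶠ X : ℕ in atTop, (((Ioc X (2 * X)).filter
      fun n => ¬ ∃ p m : ℕ, p.Prime ∧ n = p + m ^ 2).card : ℝ) ≤
        (C2 + 2) * (X : ℝ) ^ (1 - 1 / Lm) := by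
    filter_upwards [hT.eventually h2, hT.eventually h3', hT.eventually (eventually_ge_atTop l0),
      hT.eventually (eventually_ge_atTop (2 : ℝ)), hT.eventually (fin_exp 2 η 0 hη0),
      eventually_ge_atTop X1, eventually_ge_atTop 1] with X a2 a3 al0 al2 aη aX1 aX
    have hX0 : (0 : ℝ) < X := by exact_mod_cast aX
    have hX : (X : ℝ) = Real.exp (κ * (Real.log X / κ)) := by
      rw [mul_div_cancel₀ _ hκ0.ne', Real.exp_log hX0]
    generalize Real.log X / κ = l at a2 a3 al0 al2 aη hX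
    simp only [pow_zero, mul_one] at aη
    have hl0 : 0 < l := lt_of_lt_of_le (by norm_num) al2
    have hpow : ∀ s : ℝ, (X : ℝ) ^ s = Real.exp (κ * l * s) := by
      intro s; rw [hX, ← Real.exp_mul]
    have hE1 : 1 ≤ Real.exp ((1 + η) * l) := Real.one_le_exp (by positivity)
    obtain ⟨Q, hQ1, hQ2⟩ : ∃ Q : ℕ, Real.exp ((1 + η) * l) ≤ Q ∧
        (Q : ℝ) ≤ 2 * Real.exp ((1 + η) * l) := by
      refine ⟨⌈Real.exp ((1 + η) * l)⌉₊, Nat.le_ceil _, ?_⟩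
      have := Nat.ceil_lt_add_one (Real.exp_pos ((1 + η) * l)).le
      linarith only [this, hE1]
    have hQ3 : (Q : ℝ) ≤ Real.exp ((1 + 2 * η) * l) := by
      calc (Q : ℝ) ≤ Real.exp (η * l) * Real.exp ((1 + η) * l) :=
            hQ2.trans (mul_le_mul_of_nonneg_right aη (Real.exp_pos _).le)
        _ = _ := by rw [← Real.exp_add]; congr 1; ring
    have hQn : 1 ≤ Q := by exact_mod_cast hE1.trans hQ1
    have b2 := a2 X Q hX hQn (hQ3.trans (fin_ee _ _ _ hl0 q1))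
    have b3 := a3 X Q hX hQ1 hQ2
    have p1 : (X : ℝ) ^ (η / 8 / κ) = Real.exp (η / 8 * l) := by
      rw [hpow]; congr 1; field_simp
    have p2 : (X : ℝ) ^ (-c2) = Real.exp (-(c2 * κ * l)) := by
      rw [hpow]; congr 1; ring
    have p3 : (X : ℝ) ^ (-(ε / κ)) = Real.exp (-(ε * l)) := by
      rw [hpow]; congr 1; field_simp
    have p4 : (X : ℝ) ^ (1 - 1 / Lm) = Real.exp ((κ - 1 + g) * l) := by
      rw [hpow, hg]; congr 1; field_simp; ring
    have b1 := hS X Q aX1 (by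
      rw [p1]; exact le_trans (fin_ee _ _ _ hl0 q2) hQ1) (by
      rw [hpow, mul_right_comm]; exact hQ3.trans (fin_ee _ _ _ hl0 q3))
    rw [p1, p2, p3, show (2 / 3 + (1 / 3 - 1 / Lm)) = 1 - 1 / Lm by ring, p4] at b1
    rw [p4]
    have hsub : ((Ioc X (2 * X)).filter fun n => ¬ ∃ p m : ℕ, p.Prime ∧ n = p + m ^ 2) ⊆
        (((Ioc X (2 * X)).filter fun n =>
          ¬ ((∀ y : ℕ, Real.exp (η / 8 * l) ≤ y → y ≤ Q →
              |S0 n y - S0 n Q| ≤ Real.exp (-(c2 * κ * l))) ∧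
            Real.exp (-(ε * l)) ≤ |S0 n Q|)) ∪
        ((Ioc X (2 * X)).filter fun n => ¬ Good (Bad Q W T e2) n W N0 l)) ∪
        ((Ioc X (2 * X)).filter fun n => (¬ ∃ p m : ℕ, p.Prime ∧ n = p + m ^ 2) ∧
          Real.exp (-(2 * ε * l)) ≤ |∑ p ∈ PR (Ylo α η l) (Yhi α K η l),
            ap l cg α K p * (nu Q ((n : ℤ) - p) : ℝ)|) := by
      intro n hn
      rw [mem_filter] at hn
      rw [mem_union, mem_union, mem_filter, mem_filter, mem_filter]
      by_contra hc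
      rw [not_or, not_or] at hc
      obtain ⟨⟨d1, d2⟩, d3⟩ := hc
      have d1' := not_not.1 fun h => d1 ⟨hn.1, h⟩
      have d2' := not_not.1 fun h => d2 ⟨hn.1, h⟩
      have hn1 := mem_Ioc.1 hn.1
      refine d3 ⟨hn.1, hn.2, hM l al0 Q n hQ1 hQ2 (by omega) ?_ d2' d1'.1 d1'.2⟩
      have n1 : (n : ℝ) ≤ 2 * X := by exact_mod_cast hn1.2
      have n2 : (2 : ℝ) ≤ Real.exp l := by
        have := Real.add_one_le_exp l
        linarith only [this, al2]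
      calc (n : ℝ) ≤ Real.exp l * Real.exp (κ * l) := by
            rw [← hX]; exact n1.trans (mul_le_mul_of_nonneg_right n2 hX0.le)
        _ ≤ Real.exp (5 * l) := by
            rw [← Real.exp_add, ← one_add_mul]; exact fin_ee _ _ _ hl0 q5
    have hc := (card_le_card hsub).trans ((card_union_le _ _).trans
      (Nat.add_le_add_right (card_union_le _ _) _))
    have hc' := (Nat.cast_le (α := ℝ)).2 hc
    rw [Nat.cast_add, Nat.cast_add] at hc'
    have b4 : Real.exp ((κ - 1) * l) ≤ Real.exp ((κ - 1 + g) * l) :=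
      fin_ee _ _ _ hl0 q4
    linarith only [hc', b1, b2, b3, b4]
  obtain ⟨X0, hX0⟩ := eventually_atTop.1 hall
  exact fin_dyad _ (1 - 1 / Lm) (C2 + 2) X0 hθ (by positivity) hX0

end Pool.Agent.Lib.PS
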