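import Pool.Agent.Lib.PS.Blue

/-! Block GS: Gaussian smoothing. -/

namespace Pool.Agent.Lib.PS

open Finset Real MeasureTheory Complex Filter Topology
open scoped Classical Convolution

lemma gs_gk_nonneg (κ t : ℝ) : 0 ≤ gk κ t := by unfold gk; positivity

lemma gs_gk_cont (κ : ℝ) : Continuous (gk κ) := by unfold gk; fun_prop

lemma gs_gk_eq (κ : ℝ) : gk κ = fun t => √(κ / (2 * π)) * Real.exp (-(κ / 2) * t ^ 2) := by
  funext t; unfold gk; congr 2; ring

lemma gs_gk_int {κ : ℝ} (hκ : 0 < κ) : Integrable (gk κ) := by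
  rw [gs_gk_eq]; exact (integrable_exp_neg_mul_sq (half_pos hκ)).const_mul _

lemma gs_gk_one {κ : ℝ} (hκ : 0 < κ) : ∫ t, gk κ t = 1 := by
  rw [gs_gk_eq, integral_const_mul, integral_gaussian, ← Real.sqrt_mul (by positivity), Real.sqrt_eq_one]
  field_simp

lemma gs_gk_abs_int {κ : ℝ} (hκ : 0 < κ) : Integrable fun u => |u| * gk κ u := by
  refine (((integrable_mul_exp_neg_mul_sq (half_pos hκ)).abs).const_mul √(κ / (2 * π))).congr
    (Eventually.of_forall fun u => ?_)
  simp only [gs_gk_eq, abs_mul, abs_of_pos (Real.exp_pos _)]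
  ring

lemma gs_gk_abs {κ : ℝ} (hκ : 0 < κ) : ∫ u, |u| * gk κ u ≤ 1 / √κ := by
  have h1 : ∫ r in Set.Ioi (0 : ℝ), r * Real.exp (-(κ / 2) * r ^ 2) = κ⁻¹ := by
    have h := integral_mul_cexp_neg_mul_sq (b := ((κ / 2 : ℝ) : ℂ)) (by simpa using hκ)
    have e : (fun r : ℝ => (r : ℂ) * cexp (-((κ / 2 : ℝ) : ℂ) * (r : ℂ) ^ 2)) =
        fun r : ℝ => ((r * Real.exp (-(κ / 2) * r ^ 2) : ℝ) : ℂ) := by
      funext r; push_cast; rfl
    rw [e, integral_complex_ofReal] at h
    have e2 : (2 * ((κ / 2 : ℝ) : ℂ))⁻¹ = ((κ⁻¹ : ℝ) : ℂ) := by push_cast; congr 1; ring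
    rw [e2] at h
    exact_mod_cast h
  have h2 : ∫ u, |u| * gk κ u = √(κ / (2 * π)) * (2 * κ⁻¹) := by
    rw [← h1, ← integral_comp_abs (f := fun r => r * Real.exp (-(κ / 2) * r ^ 2)), ← integral_const_mul]
    congr 1
    funext u
    simp only [gs_gk_eq, sq_abs]
    ring
  have h3 : √(κ / (2 * π)) ≤ √κ / 2 := by
    rw [Real.sqrt_le_left (by positivity), div_pow, Real.sq_sqrt hκ.le]
    exact div_le_div_of_nonneg_left hκ.le (by norm_num) (by linarith [Real.pi_gt_three])
  have h4 : 0 < √κ := Real.sqrt_pos.2 hκ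
  rw [h2]
  calc √(κ / (2 * π)) * (2 * κ⁻¹) ≤ √κ / 2 * (2 * κ⁻¹) := by gcongr
    _ = 1 / √κ := by
      field_simp
      exact Real.sq_sqrt hκ.le

lemma gs_flip (κ : ℝ) (h : ℝ → ℝ) (t : ℝ) : gs κ h t = ∫ u, h (t - u) * gk κ u := by
  rw [gs, ← integral_sub_left_eq_self (fun s => h s * gk κ (t - s)) volume t]
  simp only [sub_sub_cancel]

lemma gs_cpow {x : ℝ} (hx : 0 ≤ x) : (x : ℂ) ^ (1 / 2 : ℂ) = (√x : ℝ) := by
  rw [Real.sqrt_eq_rpow, Complex.ofReal_cpow hx]
  push_cast
  rfl

lemma gs_mgf {κ : ℝ} (hκ : 0 < κ) (v : ℂ) : Integrable (fun u : ℝ => (gk κ u : ℂ) * cexp (v * u)) ∧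
    ∫ u : ℝ, (gk κ u : ℂ) * cexp (v * u) = cexp (v ^ 2 / (2 * κ)) := by
  have hb : (((-(κ / 2) : ℝ)) : ℂ).re < 0 := by simpa using hκ
  have e : (fun u : ℝ => (gk κ u : ℂ) * cexp (v * u)) =
      fun u : ℝ => (√(κ / (2 * π)) : ℝ) * cexp (((-(κ / 2) : ℝ) : ℂ) * u ^ 2 + v * u + 0) := by
    funext u
    rw [gs_gk_eq, add_zero, Complex.exp_add]
    push_cast
    ring
  rw [e]
  refine ⟨(integrable_cexp_quadratic' hb v 0).const_mul _, ?_⟩
  have hκ' : (κ : ℂ) ≠ 0 := by exact_mod_cast hκ.ne'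
  have e1 : (π : ℂ) / -((-(κ / 2) : ℝ) : ℂ) = ((2 * π / κ : ℝ) : ℂ) := by push_cast; field_simp
  rw [integral_const_mul, integral_cexp_quadratic hb, e1, gs_cpow (by positivity), ← mul_assoc,
    ← Complex.ofReal_mul, ← Real.sqrt_mul (by positivity),
    show κ / (2 * π) * (2 * π / κ) = 1 by field_simp, Real.sqrt_one, Complex.ofReal_one, one_mul]
  congr 1
  push_cast
  field_simp
  ring

lemma gs_inv {κ : ℝ} (hκ : 0 < κ) (σ r : ℝ) :
    ∫ y : ℝ, cexp ((σ + y * I) ^ 2 / (2 * κ) - (σ + y * I) * r) = 2 * π * gk κ r := by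
  have hb : (((-(1 / (2 * κ)) : ℝ)) : ℂ).re < 0 := by
    rw [Complex.ofReal_re]; exact neg_lt_zero.2 (by positivity)
  have hκ' : (κ : ℂ) ≠ 0 := by exact_mod_cast hκ.ne'
  have e : (fun y : ℝ => cexp ((σ + y * I) ^ 2 / (2 * κ) - (σ + y * I) * r)) = fun y : ℝ =>
      cexp (((-(1 / (2 * κ)) : ℝ) : ℂ) * y ^ 2 + (I * (σ / κ - r)) * y + (σ ^ 2 / (2 * κ) - σ * r)) := by
    funext y
    congr 1
    push_cast
    field_simp
    linear_combination (y : ℂ) ^ 2 * I_sq
  have e1 : (π : ℂ) / -((-(1 / (2 * κ)) : ℝ) : ℂ) = ((2 * π * κ : ℝ) : ℂ) := by push_cast; field_simp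
  have e2 : √(2 * π * κ) = 2 * π * √(κ / (2 * π)) := by
    rw [Real.sqrt_eq_iff_mul_self_eq (by positivity) (by positivity), mul_mul_mul_comm,
      Real.mul_self_sqrt (by positivity)]
    field_simp
  rw [e, integral_cexp_quadratic hb, e1, gs_cpow (by positivity), e2, gk]
  push_cast
  rw [mul_assoc (2 * (π : ℂ))]
  congr 3
  rw [mul_pow, I_sq]
  field_simp
  ring

section
variable {A B : ℝ} {h : ℝ → ℝ}

lemma gs_int_mul (hc : Continuous h) (h0 : ∀ s, A ≤ |s| → h s = 0) {f : ℝ → ℂ} (hf : Continuous f) :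
    Integrable fun s : ℝ => (h s : ℂ) * f s := by
  refine Continuous.integrable_of_hasCompactSupport (by fun_prop) ?_
  refine HasCompactSupport.intro (isCompact_Icc (a := -A) (b := A)) fun s hs => ?_
  rw [h0 s (le_of_not_ge fun h => hs (abs_le.1 h)), Complex.ofReal_zero, zero_mul]

lemma gs_L2_diff (hc : Continuous h) (h0 : ∀ s, A ≤ |s| → h s = 0) : Differentiable ℂ (L2 h) := by
  intro v
  have hi : Integrable fun s : ℝ => ‖(h s : ℂ) * (s * cexp (((‖v‖ + 1 : ℝ) : ℂ) * (|s| : ℝ)))‖ :=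
    (gs_int_mul hc h0 (by fun_prop)).norm
  refine (hasDerivAt_integral_of_dominated_loc_of_deriv_le (F := fun v (s : ℝ) => (h s : ℂ) * cexp (v * s))
    (F' := fun v (s : ℝ) => (h s : ℂ) * (s * cexp (v * s))) (Metric.ball_mem_nhds v one_pos)
    (Eventually.of_forall fun x => Continuous.aestronglyMeasurable (by fun_prop)) (gs_int_mul hc h0 (by fun_prop))
    (Continuous.aestronglyMeasurable (by fun_prop)) (Eventually.of_forall fun s x hx => ?_) hi
    (Eventually.of_forall fun s x _ => ?_)).2.differentiableAt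
  · simp only [norm_mul, Complex.norm_exp]
    refine mul_le_mul_of_nonneg_left (mul_le_mul_of_nonneg_left (Real.exp_le_exp.2 ?_) (norm_nonneg _))
      (norm_nonneg _)
    rw [← Complex.ofReal_mul, Complex.ofReal_re]
    have h1 : ‖x‖ ≤ ‖v‖ + 1 := (norm_le_norm_add_norm_sub' x v).trans
      (by linarith [mem_ball_iff_norm.1 hx])
    calc (x * s).re ≤ ‖x * s‖ := Complex.re_le_norm _
      _ = ‖x‖ * |s| := by rw [norm_mul, Complex.norm_real, Real.norm_eq_abs]
      _ ≤ _ := by gcongr
  · have := (((hasDerivAt_id x).mul_const (s : ℂ)).cexp).const_mul (h s : ℂ)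
    simpa [mul_comm] using this

lemma gs_L2_le (hA : 0 ≤ A) (h0 : ∀ s, A ≤ |s| → h s = 0) (hB : ∀ s, |h s| ≤ B) (v : ℂ) :
    ‖L2 h v‖ ≤ 2 * A * B * Real.exp (A * |v.re|) := by
  have hB0 : 0 ≤ B := (abs_nonneg _).trans (hB 0)
  have hi : Integrable ((Set.Icc (-A) A).indicator fun _ : ℝ => B * Real.exp (A * |v.re|)) :=
    (integrable_indicator_iff measurableSet_Icc).2 (integrableOn_const measure_Icc_lt_top.ne)
  refine (norm_integral_le_of_norm_le hi (Eventually.of_forall fun s => ?_)).trans ?_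
  · by_cases hs : s ∈ Set.Icc (-A) A
    · rw [Set.indicator_of_mem hs, norm_mul, Complex.norm_real, Real.norm_eq_abs, Complex.norm_exp]
      gcongr
      · exact hB s
      · rw [Complex.re_mul_ofReal, mul_comm A]
        refine (le_abs_self _).trans ?_
        rw [abs_mul]
        exact mul_le_mul_of_nonneg_left (abs_le.2 hs) (abs_nonneg _)
    · rw [Set.indicator_of_notMem hs, h0 s (le_of_not_ge fun h => hs (abs_le.1 h))]
      simp
  · rw [integral_indicator measurableSet_Icc, setIntegral_const, Real.volume_real_Icc_of_le (by linarith),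
      smul_eq_mul]
    exact le_of_eq (by ring)

end

theorem blk_GS : St_GS := by
  intro κ A B h hκ hA hc h0 hB
  have hg := gs_gk_int hκ
  have hgc := gs_gk_cont κ
  have hbd : ∀ t u, ‖h (t - u) * gk κ u‖ ≤ B * gk κ u := fun t u => by
    rw [norm_mul, Real.norm_of_nonneg (gs_gk_nonneg κ u)]
    exact mul_le_mul_of_nonneg_right (hB _) (gs_gk_nonneg κ u)
  have hi : ∀ t, Integrable fun u => h (t - u) * gk κ u := fun t =>
    (hg.const_mul B).mono' (Continuous.aestronglyMeasurable (by fun_prop)) (Eventually.of_forall (hbd t))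
  have hB0 : 0 ≤ B := (abs_nonneg _).trans (hB 0)
  refine ⟨?_, fun t => ?_, fun hp t => integral_nonneg fun s => mul_nonneg (hp s) (gs_gk_nonneg _ _),
    fun t d hd hz => ?_, fun L hL => ⟨fun s t => ?_, fun t => ?_⟩, gs_L2_diff hc h0, gs_L2_le hA h0 hB,
    fun v => ?_, fun σ t => ?_⟩
  · rw [funext (gs_flip κ h)]
    exact continuous_of_dominated (fun t => (hi t).1) (fun t => Eventually.of_forall (hbd t)) (hg.const_mul B)
      (Eventually.of_forall fun u => by fun_prop)
  · rw [gs_flip]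
    refine (norm_integral_le_of_norm_le (hg.const_mul B) (Eventually.of_forall (hbd t))).trans ?_
    rw [integral_const_mul, gs_gk_one hκ, mul_one]
  · rw [gs_flip, ← Real.norm_eq_abs]
    have i1 := hg.comp_sub_right d
    have i2 := hg.comp_add_right d
    refine (norm_integral_le_of_norm_le ((i1.add i2).const_mul (B * Real.exp (-(κ * d ^ 2 / 2))))
      (Eventually.of_forall fun u => ?_)).trans ?_
    · have n1 := gs_gk_nonneg κ (u - d)
      have n2 := gs_gk_nonneg κ (u + d)
      by_cases hu : |u| < d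
      · rw [hz (t - u) (by rwa [sub_sub_cancel]), zero_mul, norm_zero]
        exact mul_nonneg (by positivity) (add_nonneg n1 n2)
      · refine (hbd t u).trans ?_
        rw [mul_assoc]
        refine mul_le_mul_of_nonneg_left ?_ hB0
        have key : ∀ x : ℝ, d ^ 2 + x ^ 2 ≤ u ^ 2 → gk κ u ≤ Real.exp (-(κ * d ^ 2 / 2)) * gk κ x := by
          intro x hx
          rw [gk, gk, mul_left_comm, ← Real.exp_add]
          gcongr
          nlinarith
        rcases le_abs'.1 (not_lt.1 hu) with e | e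
        · refine (key (u + d) (by nlinarith)).trans ?_
          gcongr
          exact le_add_of_nonneg_left n1
        · refine (key (u - d) (by nlinarith)).trans ?_
          gcongr
          exact le_add_of_nonneg_right n2
    · simp only [Pi.add_apply]
      rw [integral_const_mul, integral_add i1 i2, integral_sub_right_eq_self (gk κ) d,
        integral_add_right_eq_self (gk κ) d, gs_gk_one hκ]
      exact le_of_eq (by ring)
  · rw [gs_flip, gs_flip, ← integral_sub (hi s) (hi t), ← Real.norm_eq_abs]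
    refine (norm_integral_le_of_norm_le (hg.const_mul (L * |s - t|)) (Eventually.of_forall fun u => ?_)).trans ?_
    · rw [← sub_mul, norm_mul, Real.norm_of_nonneg (gs_gk_nonneg κ u)]
      refine mul_le_mul_of_nonneg_right ?_ (gs_gk_nonneg κ u)
      simpa using hL (s - u) (t - u)
    · rw [integral_const_mul, gs_gk_one hκ, mul_one]
  · have hL0 : 0 ≤ L := by simpa using (abs_nonneg _).trans (hL 1 0)
    have e : h t = ∫ u, h t * gk κ u := by rw [integral_const_mul, gs_gk_one hκ, mul_one]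
    rw [gs_flip, e, ← integral_sub (hi t) (hg.const_mul _), ← Real.norm_eq_abs]
    refine (norm_integral_le_of_norm_le ((gs_gk_abs_int hκ).const_mul L)
      (Eventually.of_forall fun u => ?_)).trans ?_
    · rw [← sub_mul, norm_mul, Real.norm_of_nonneg (gs_gk_nonneg κ u), ← mul_assoc]
      refine mul_le_mul_of_nonneg_right ?_ (gs_gk_nonneg κ u)
      simpa using hL (t - u) t
    · rw [integral_const_mul, div_eq_mul_one_div]
      exact mul_le_mul_of_nonneg_left (gs_gk_abs hκ) hL0
  · have f1 : Integrable fun s : ℝ => (h s : ℂ) * cexp (v * s) := gs_int_mul hc h0 (by fun_prop)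
    obtain ⟨f2, f3⟩ := gs_mgf hκ v
    have e : (fun t : ℝ => (gs κ h t : ℂ) * cexp (v * t)) =
        (fun s : ℝ => (h s : ℂ) * cexp (v * s)) ⋆[ContinuousLinearMap.mul ℂ ℂ]
          fun u : ℝ => (gk κ u : ℂ) * cexp (v * u) := by
      funext t
      rw [convolution_def, gs, ← integral_complex_ofReal, ← integral_mul_const]
      congr 1
      funext s
      have : cexp (v * t) = cexp (v * s) * cexp (v * ((t - s : ℝ) : ℂ)) := by
        rw [← Complex.exp_add]; congr 1; push_cast; ring
      rw [this, ContinuousLinearMap.mul_apply']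
      simp only [Complex.ofReal_mul]
      ring
    rw [L2, e]
    refine ⟨f1.integrable_convolution _ f2, ?_⟩
    rw [integral_convolution _ f1 f2, ContinuousLinearMap.mul_apply', f3]
    rfl
  · have hq : Integrable fun y : ℝ => cexp ((σ + y * I) ^ 2 / (2 * κ)) := by
      have hb : (((-(1 / (2 * κ)) : ℝ)) : ℂ).re < 0 := by
        rw [Complex.ofReal_re]; exact neg_lt_zero.2 (by positivity)
      have hκ' : (κ : ℂ) ≠ 0 := by exact_mod_cast hκ.ne'
      refine (integrable_cexp_quadratic' hb (I * (σ / κ)) (σ ^ 2 / (2 * κ))).congr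
        (Eventually.of_forall fun y => ?_)
      simp only
      congr 1
      push_cast
      field_simp
      linear_combination -(y : ℂ) ^ 2 * I_sq
    have hL := (gs_L2_diff hc h0).continuous
    refine ⟨hq.bdd_mul (c := 2 * A * B * Real.exp (A * |σ|)) (Continuous.aestronglyMeasurable (by fun_prop))
      (Eventually.of_forall fun y => by simpa using gs_L2_le hA h0 hB (σ + y * I)), ?_⟩
    let F : ℝ → ℝ → ℂ := fun y s => h s * cexp ((σ + y * I) ^ 2 / (2 * κ) - (σ + y * I) * ((t - s : ℝ) : ℂ))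
    have e1 : ∀ y : ℝ, Psi κ h (σ + y * I) * cexp (-((σ + y * I) * t)) = ∫ s, F y s := by
      intro y
      rw [Psi, L2, mul_assoc, ← integral_mul_const]
      congr 1
      funext s
      rw [mul_assoc, ← Complex.exp_add, ← Complex.exp_add]
      simp only [F]
      congr 2
      push_cast
      ring
    have f1 : Integrable fun s : ℝ => (h s : ℂ) * cexp (-(σ * ((t - s : ℝ) : ℂ))) := gs_int_mul hc h0 (by fun_prop)
    have hF : Integrable (Function.uncurry F) (volume.prod volume) := by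
      refine (hq.mul_prod f1).norm.mono' (Continuous.aestronglyMeasurable ?_) (Eventually.of_forall fun z => ?_)
      · simp only [F, Function.uncurry_def]
        fun_prop
      · simp only [F, Function.uncurry_def, norm_mul, sub_eq_add_neg _ (_ * _ : ℂ), Complex.exp_add]
        rw [mul_left_comm]
        refine le_of_eq ?_
        congr 2
        rw [Complex.norm_exp, Complex.norm_exp]
        congr 1
        simp
    rw [funext e1, integral_integral_swap hF]
    simp only [F, integral_const_mul, gs_inv hκ]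
    have hπ : (π : ℂ) ≠ 0 := by exact_mod_cast Real.pi_ne_zero
    rw [eq_div_iff (mul_ne_zero two_ne_zero hπ), gs, ← integral_complex_ofReal, ← integral_mul_const]
    congr 1
    funext s
    simp only [Complex.ofReal_mul]
    ring

end Pool.Agent.Lib.PS
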