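import Pool.Agent.Lib.PS.Blue
import Pool.Agent.Lib.MP_fb430f_co.Circle

/-! The Green and Tao limit. -/

namespace Pool.Agent.Lib.PS

open Finset Real MeasureTheory Complex Filter Topology
open scoped ArithmeticFunction.Moebius Classical ContDiff FourierTransform SchwartzMap

noncomputable section

/-- the frequency -/
def gvW (x : ℝ) : ℂ := 1 + ((2 * π * x : ℝ) : ℂ) * I

/-- a bound for the frequency -/
def gvB (x : ℝ) : ℝ := 1 + |2 * π * x|

lemma gv_re (x : ℝ) : (gvW x).re = 1 := by simp [gvW]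

lemma gv_one_le (x : ℝ) : 1 ≤ gvB x := le_add_of_nonneg_right (abs_nonneg _)

lemma gv_norm_le (x : ℝ) : ‖gvW x‖ ≤ gvB x := by
  refine (norm_add_le _ _).trans (le_of_eq ?_)
  rw [norm_one, norm_mul, norm_I, mul_one, Complex.norm_real, Real.norm_eq_abs, gvB]

@[fun_prop]
lemma gv_cont : Continuous gvW := by unfold gvW; fun_prop

lemma gv_norm_exp (x t : ℝ) : ‖cexp (-(gvW x * t))‖ = Real.exp (-t) := by
  rw [Complex.norm_exp]
  simp [gv_re]

/-- Laplace and Fourier representation of a test function -/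
structure GvRep (P : ℝ → ℝ) (ψ : ℝ → ℂ) : Prop where
  cont : Continuous ψ
  int : Integrable fun x => gvB x ^ 4 * ‖ψ x‖
  eq : ∀ t : ℝ, ∫ x, ψ x * cexp (-(gvW x * t)) = P t
  der : ∀ t : ℝ, ∫ x, ψ x * (gvW x * cexp (-(gvW x * t))) = -((deriv P t : ℝ) : ℂ)

lemma gv_int_mul {ψ : ℝ → ℂ} (hc : Continuous ψ) (hi : Integrable fun x => gvB x ^ 4 * ‖ψ x‖)
    {g : ℝ → ℂ} (hg : Continuous g) (C : ℝ) (h : ∀ x, ‖g x‖ ≤ C * gvB x ^ 4) :
    Integrable fun x => ψ x * g x := by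
  refine (hi.const_mul C).mono' (hc.mul hg).aestronglyMeasurable (ae_of_all _ fun x => ?_)
  rw [norm_mul]
  calc _ ≤ ‖ψ x‖ * (C * gvB x ^ 4) := mul_le_mul_of_nonneg_left (h x) (norm_nonneg _)
    _ = _ := by ring

lemma gv_le_pow (x : ℝ) : gvB x ≤ gvB x ^ 4 := le_self_pow₀ (gv_one_le x) (by norm_num)

lemma gv_one_le_pow (x : ℝ) : 1 ≤ gvB x ^ 4 := one_le_pow₀ (gv_one_le x)

lemma gv_exists (P : ℝ → ℝ) (h1 : ContDiff ℝ ∞ P) (h2 : HasCompactSupport P) :
    ∃ ψ, GvRep P ψ := by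
  have c1 : ContDiff ℝ ∞ fun t : ℝ => ((Real.exp t * P t : ℝ) : ℂ) :=
    Complex.ofRealCLM.contDiff.comp (Real.contDiff_exp.mul h1)
  have c2 : HasCompactSupport fun t : ℝ => ((Real.exp t * P t : ℝ) : ℂ) :=
    (h2.mul_left (f := Real.exp)).comp_left (g := fun r : ℝ => (r : ℂ)) (by simp)
  let g : 𝓢(ℝ, ℂ) := c2.toSchwartzMap c1
  let ψ : 𝓢(ℝ, ℂ) := 𝓕⁻ g
  have hψ : ∀ t : ℝ, 𝓕 (ψ : ℝ → ℂ) t = ((Real.exp t * P t : ℝ) : ℂ) := by
    intro t
    rw [← SchwartzMap.fourier_coe, FourierTransform.fourier_fourierInv_eq]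
    rfl
  have hint : Integrable fun x => gvB x ^ 4 * ‖ψ x‖ := by
    refine (((ψ.integrable_pow_mul volume 0).add
      ((ψ.integrable_pow_mul volume 4).const_mul ((2 * π) ^ 4))).const_mul 8).mono'
      (Continuous.aestronglyMeasurable (by unfold gvB; fun_prop)) (ae_of_all _ fun x => ?_)
    have e : gvB x ^ 4 ≤ 8 * (1 + (2 * π) ^ 4 * ‖x‖ ^ 4) := by
      have := add_pow_le (zero_le_one) (abs_nonneg (2 * π * x)) 4
      rw [gvB]
      refine this.trans (le_of_eq ?_)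
      rw [abs_mul, abs_of_pos (by positivity : (0 : ℝ) < 2 * π), Real.norm_eq_abs]
      ring
    rw [Real.norm_eq_abs, abs_of_nonneg (mul_nonneg (by linarith [gv_one_le_pow x])
      (norm_nonneg _))]
    refine (mul_le_mul_of_nonneg_right e (norm_nonneg _)).trans (le_of_eq ?_)
    simp only [Pi.add_apply]
    ring
  have hc : Continuous (ψ : ℝ → ℂ) := ψ.continuous
  have key : ∀ (f : ℝ → ℂ) (t : ℝ), ∫ x, f x * cexp (-(gvW x * t)) = cexp (-t) * 𝓕 f t := by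
    intro f t
    rw [Real.fourier_real_eq_integral_exp_smul, ← integral_const_mul]
    congr 1
    ext x
    rw [smul_eq_mul, ← mul_assoc, ← Complex.exp_add, mul_comm (f x), gvW]
    congr 2
    push_cast
    ring
  have heq : ∀ t : ℝ, cexp (-t) * 𝓕 (ψ : ℝ → ℂ) t = P t := by
    intro t
    rw [hψ]
    push_cast
    rw [← mul_assoc, ← Complex.exp_add, neg_add_cancel, Complex.exp_zero, one_mul]
  refine ⟨ψ, hc, hint, fun t => (key _ t).trans (heq t), fun t => ?_⟩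
  have i1 : Integrable fun x : ℝ => x • ψ x := by
    refine (ψ.integrable_pow_mul volume 1).mono' (Continuous.aestronglyMeasurable (by fun_prop))
      (ae_of_all _ fun x => ?_)
    rw [norm_smul, pow_one]
  have d1 := Real.hasDerivAt_fourier ψ.integrable i1 t
  have d2 : HasDerivAt (fun t : ℝ => cexp (-t)) (cexp (-t) * -1) t :=
    (Complex.ofRealCLM.hasDerivAt (x := t)).neg.cexp
  have d3 := d2.mul d1
  have d4 : HasDerivAt (fun t : ℝ => (P t : ℂ)) ((deriv P t : ℝ) : ℂ) t :=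
    ((h1.differentiable (by simp)) t).hasDerivAt.ofReal_comp
  have d5 : (fun t : ℝ => (P t : ℂ)) = (fun t : ℝ => cexp (-t)) * 𝓕 (ψ : ℝ → ℂ) :=
    funext fun t => (heq t).symm
  rw [d5] at d4
  rw [d4.unique d3, mul_neg_one, neg_mul, ← key, ← key, neg_add, neg_neg, ← sub_eq_add_neg,
    ← integral_sub]
  · congr 1
    ext x
    rw [smul_eq_mul]
    conv_lhs => rw [show gvW x * cexp (-(gvW x * t)) =
      (1 + ((2 * π * x : ℝ) : ℂ) * I) * cexp (-(gvW x * t)) from rfl]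
    push_cast
    ring
  · refine gv_int_mul hc hint (by fun_prop) (Real.exp (-t)) fun x => ?_
    rw [gv_norm_exp]
    exact le_mul_of_one_le_right (Real.exp_pos _).le (gv_one_le_pow x)
  · have := gv_int_mul hc hint (g := fun x => -2 * π * I * x * cexp (-(gvW x * t))) (by fun_prop)
      (Real.exp (-t)) fun x => by
        rw [norm_mul, gv_norm_exp, mul_comm]
        refine mul_le_mul_of_nonneg_left (le_trans ?_ (gv_le_pow x)) (Real.exp_pos _).le
        rw [show (-2 * π * I * x : ℂ) = -(((2 * π * x : ℝ) : ℂ) * I) by push_cast; ring, norm_neg,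
          norm_mul, norm_I, mul_one, Complex.norm_real, Real.norm_eq_abs, gvB]
        linarith
    refine this.congr (ae_of_all _ fun x => ?_)
    simp only [smul_eq_mul]
    ring

/-! ### triple integrals -/

lemma gv_prod3 (f g h : ℝ → ℂ) :
    ∫ z : ℝ × ℝ × ℝ, f z.1 * (g z.2.1 * h z.2.2) = (∫ x, f x) * ((∫ x, g x) * ∫ x, h x) := by
  rw [Measure.volume_eq_prod, integral_prod_mul f fun y : ℝ × ℝ => g y.1 * h y.2,
    Measure.volume_eq_prod, integral_prod_mul]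

/-- the triple weight -/
def gvT (ψ φ : ℝ → ℂ) (z : ℝ × ℝ × ℝ) : ℂ := ψ z.1 * (ψ z.2.1 * φ z.2.2)

/-- the dominating factor -/
def gvD (z : ℝ × ℝ × ℝ) : ℝ := gvB z.1 ^ 4 * (gvB z.2.1 ^ 4 * gvB z.2.2 ^ 4)

lemma gv_one_le_D (z : ℝ × ℝ × ℝ) : 1 ≤ gvD z :=
  one_le_mul_of_one_le_of_one_le (gv_one_le_pow _)
    (one_le_mul_of_one_le_of_one_le (gv_one_le_pow _) (gv_one_le_pow _))

variable {P F : ℝ → ℝ} {ψ φ : ℝ → ℂ}

lemma gv_contT (hP : GvRep P ψ) (hF : GvRep F φ) : Continuous (gvT ψ φ) := by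
  have := hP.cont
  have := hF.cont
  unfold gvT
  fun_prop

lemma gv_intD (hP : GvRep P ψ) (hF : GvRep F φ) : Integrable fun z => ‖gvT ψ φ z‖ * gvD z := by
  have := hP.int.mul_prod (hP.int.mul_prod hF.int)
  refine this.congr (ae_of_all _ fun z => ?_)
  simp only [gvT, gvD, norm_mul]
  ring

lemma gv_intT (hP : GvRep P ψ) (hF : GvRep F φ) {G : ℝ × ℝ × ℝ → ℂ} (hG : Continuous G) (C : ℝ)
    (h : ∀ z, ‖G z‖ ≤ C * gvD z) : Integrable fun z => gvT ψ φ z * G z := by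
  refine ((gv_intD hP hF).const_mul C).mono' ((gv_contT hP hF).mul hG).aestronglyMeasurable
    (ae_of_all _ fun z => ?_)
  rw [norm_mul]
  calc _ ≤ ‖gvT ψ φ z‖ * (C * gvD z) := mul_le_mul_of_nonneg_left (h z) (norm_nonneg _)
    _ = _ := by ring

lemma gv_prodT (f g h : ℝ → ℂ) :
    ∫ z, gvT ψ φ z * (f z.1 * g z.2.1 * h z.2.2) =
      (∫ x, ψ x * f x) * (∫ x, ψ x * g x) * ∫ x, φ x * h x := by
  rw [mul_assoc, ← gv_prod3]
  congr 1
  ext z
  rw [gvT]
  ring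

/-! ### the arithmetic sum as a triple integral -/

lemma gv_cpow {d : ℕ} (hd : d ≠ 0) (w : ℂ) (l : ℝ) :
    (d : ℂ) ^ (-(w / l)) = cexp (-(w * ((Real.log d / l : ℝ) : ℂ))) := by
  rw [Complex.cpow_def_of_ne_zero (by exact_mod_cast hd), ← Complex.natCast_log]
  congr 1
  push_cast
  ring

/-- the divisor sum -/
def gvS (l : ℝ) (n : ℕ) (x : ℝ) : ℂ := ∑ d ∈ n.divisors, (μ d : ℂ) * (d : ℂ) ^ (-(gvW x / l))

/-- the outer factor -/
def gvE (l : ℝ) (n : ℕ) (x : ℝ) : ℂ := ((n : ℂ) + 1) ^ (-(1 + gvW x / l))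

lemma gvS_eq (l : ℝ) (n : ℕ) (x : ℝ) : gvS l n x =
    ∑ d ∈ n.divisors, (μ d : ℂ) * cexp (-(gvW x * ((Real.log d / l : ℝ) : ℂ))) :=
  sum_congr rfl fun d hd => by rw [gv_cpow (Nat.pos_of_mem_divisors hd).ne']

lemma gvE_eq (l : ℝ) (n : ℕ) (x : ℝ) : gvE l n x =
    cexp (-(gvW x * ((Real.log (n + 1 : ℕ) / l : ℝ) : ℂ))) / (n + 1 : ℕ) := by
  have h : ((n + 1 : ℕ) : ℂ) ≠ 0 := by exact_mod_cast n.succ_ne_zero
  rw [gvE, ← Nat.cast_succ, neg_add, Complex.cpow_add _ _ h, gv_cpow n.succ_ne_zero,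
    Complex.cpow_neg_one, mul_comm, ← div_eq_mul_inv]

lemma gvS_cont (l : ℝ) (n : ℕ) : Continuous (gvS l n) := by
  rw [funext (gvS_eq l n)]
  fun_prop

lemma gvE_cont (l : ℝ) (n : ℕ) : Continuous (gvE l n) := by
  rw [funext (gvE_eq l n)]
  fun_prop

lemma gvS_norm {l : ℝ} (hl : 0 < l) (n : ℕ) (x : ℝ) : ‖gvS l n x‖ ≤ n.divisors.card := by
  rw [gvS_eq]
  refine (norm_sum_le _ _).trans ?_
  rw [card_eq_sum_ones, Nat.cast_sum]
  refine sum_le_sum fun d _ => ?_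
  rw [norm_mul, gv_norm_exp, Nat.cast_one]
  refine mul_le_one₀ ?_ (Real.exp_pos _).le ?_
  · rw [Complex.norm_intCast]
    exact_mod_cast ArithmeticFunction.abs_moebius_le_one
  · exact Real.exp_le_one_iff.2 (neg_nonpos.2 (div_nonneg (Real.log_natCast_nonneg d) hl.le))

lemma gvE_norm (l : ℝ) (n : ℕ) (x : ℝ) : ‖gvE l n x‖ = ((n + 1 : ℕ) : ℝ) ^ (-(1 + 1 / l)) := by
  rw [gvE, ← Nat.cast_succ, Complex.norm_natCast_cpow_of_pos n.succ_pos]
  congr 1
  simp [gv_re]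

lemma gv_summable {l : ℝ} (hl : 0 < l) : Summable fun n : ℕ =>
    ((n + 1).divisors.card : ℝ) * (n + 1).divisors.card * ((n + 1 : ℕ) : ℝ) ^ (-(1 + 1 / l)) := by
  obtain ⟨C, hC, h⟩ := MP_fb430f_co.div_bound (ε := 1 / (4 * l)) (by positivity)
  have h1 : ∀ n : ℕ, ((n + 1).divisors.card : ℝ) ≤ C * ((n + 1 : ℕ) : ℝ) ^ (1 / (4 * l)) := by
    intro n
    refine le_trans ?_ (h _ n.succ_ne_zero)
    rw [Nat.card_divisors n.succ_ne_zero]
    exact_mod_cast prod_le_prod' fun p _ => Nat.le_succ _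
  have h2 : Summable fun n : ℕ => ((n + 1 : ℕ) : ℝ) ^ (-(1 + 1 / (2 * l))) := by
    refine (summable_nat_add_iff (f := fun n : ℕ => (n : ℝ) ^ (-(1 + 1 / (2 * l)))) 1).2
      (Real.summable_nat_rpow.2 ?_)
    have : 0 < 1 / (2 * l) := by positivity
    linarith
  refine (h2.mul_left (C * C)).of_nonneg_of_le (fun n => by positivity) fun n => ?_
  have h3 : (0 : ℝ) < (n + 1 : ℕ) := by exact_mod_cast n.succ_pos
  calc _ ≤ C * ((n + 1 : ℕ) : ℝ) ^ (1 / (4 * l)) * (C * ((n + 1 : ℕ) : ℝ) ^ (1 / (4 * l))) *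
        ((n + 1 : ℕ) : ℝ) ^ (-(1 + 1 / l)) := by
        have := h1 n
        gcongr
    _ = C * C * (((n + 1 : ℕ) : ℝ) ^ (1 / (4 * l)) * ((n + 1 : ℕ) : ℝ) ^ (1 / (4 * l)) *
        ((n + 1 : ℕ) : ℝ) ^ (-(1 + 1 / l))) := by ring
    _ = _ := by
        rw [← Real.rpow_add h3, ← Real.rpow_add h3]
        congr 2
        field_simp
        ring

/-- one term of the Dirichlet series -/
def gvA (l : ℝ) (n : ℕ) (z : ℝ × ℝ × ℝ) : ℂ :=
  gvS l (n + 1) z.1 * gvS l (n + 1) z.2.1 * gvE l n z.2.2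

lemma gvA_cont (l : ℝ) (n : ℕ) : Continuous (gvA l n) := by
  have := gvS_cont l (n + 1)
  have := gvE_cont l n
  unfold gvA
  fun_prop

lemma gvA_norm {l : ℝ} (hl : 0 < l) (n : ℕ) (z : ℝ × ℝ × ℝ) : ‖gvA l n z‖ ≤
    ((n + 1).divisors.card : ℝ) * (n + 1).divisors.card * ((n + 1 : ℕ) : ℝ) ^ (-(1 + 1 / l)) := by
  rw [gvA, norm_mul, norm_mul, gvE_norm]
  have := gvS_norm hl (n + 1) z.1
  have := gvS_norm hl (n + 1) z.2.1
  gcongr

/-- the Dirichlet series -/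
def gvPhi (l : ℝ) (z : ℝ × ℝ × ℝ) : ℂ := PhiG (gvW z.1 / l) (gvW z.2.1 / l) (gvW z.2.2 / l)

lemma gvPhi_eq (l : ℝ) (z : ℝ × ℝ × ℝ) : gvPhi l z = ∑' n, gvA l n z := rfl

lemma gvPhi_cont {l : ℝ} (hl : 0 < l) : Continuous (gvPhi l) :=
  continuous_tsum (gvA_cont l) (gv_summable hl) (gvA_norm hl)

lemma gv_intS (hP : GvRep P ψ) (l : ℝ) (n : ℕ) :
    ∫ x, ψ x * gvS l n x = (dsum (fun d => (μ d : ℝ) * P (Real.log d / l)) n : ℝ) := by
  simp_rw [gvS_eq, mul_sum]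
  rw [integral_finsetSum, dsum, Complex.ofReal_sum]
  · refine sum_congr rfl fun d _ => ?_
    simp_rw [mul_left_comm (ψ _)]
    rw [integral_const_mul, hP.eq]
    push_cast
    rfl
  · intro d _
    refine gv_int_mul hP.cont hP.int (by fun_prop)
      (‖(μ d : ℂ)‖ * Real.exp (-(Real.log d / l))) fun x => ?_
    rw [norm_mul, gv_norm_exp]
    exact le_mul_of_one_le_right (by positivity) (gv_one_le_pow x)

lemma gv_intE (hF : GvRep F φ) (l : ℝ) (n : ℕ) :
    ∫ x, φ x * gvE l n x = (F (Real.log (n + 1 : ℕ) / l) / (n + 1 : ℕ) : ℝ) := by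
  simp_rw [gvE_eq, ← mul_div_assoc]
  rw [integral_div, hF.eq]
  push_cast
  rfl

lemma gv_sum_eq (hP : GvRep P ψ) (hF : GvRep F φ) {l : ℝ} (hl : 0 < l) :
    ((∑' n : ℕ, dsum (fun d => (μ d : ℝ) * P (Real.log d / l)) (n + 1) ^ 2 *
      F (Real.log (n + 1 : ℕ) / l) / (n + 1 : ℕ) : ℝ) : ℂ) = ∫ z, gvT ψ φ z * gvPhi l z := by
  have hi : ∀ n, Integrable fun z => gvT ψ φ z * gvA l n z := fun n =>
    gv_intT hP hF (gvA_cont l n) _ fun z =>
      (gvA_norm hl n z).trans (le_mul_of_one_le_right (by positivity) (gv_one_le_D z))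
  have h0 : Integrable fun z => ‖gvT ψ φ z‖ := by
    have := gv_intT hP hF (G := fun _ => 1) continuous_const 1 fun z => by
      simpa using gv_one_le_D z
    simpa using this.norm
  simp_rw [gvPhi_eq, ← tsum_mul_left]
  rw [← integral_tsum_of_summable_integral_norm hi, Complex.ofReal_tsum]
  · congr 1
    ext n
    simp only [gvA]
    rw [gv_prodT, gv_intS hP, gv_intE hF]
    push_cast
    ring
  · refine ((gv_summable hl).mul_left (∫ z, ‖gvT ψ φ z‖)).of_nonneg_of_le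
      (fun n => integral_nonneg fun z => norm_nonneg _) fun n => ?_
    rw [← integral_mul_const]
    refine integral_mono (hi n).norm (h0.mul_const _) fun z => ?_
    simp only [norm_mul]
    exact mul_le_mul_of_nonneg_left (gvA_norm hl n z) (norm_nonneg _)

/-! ### the limit -/

lemma gv_swap {X Y : Type} [MeasurableSpace X] [MeasurableSpace Y] {m : Measure X} {ν : Measure Y}
    [SFinite m] [SFinite ν] {A : X → ℂ} (hA : Integrable A m) {b : Y → ℝ} (hb : Integrable b ν)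
    {E : X → Y → ℂ} (hE : AEStronglyMeasurable (fun p : X × Y => E p.1 p.2) (m.prod ν))
    (h : ∀ x y, ‖E x y‖ ≤ b y) :
    ∫ x, A x * ∫ y, E x y ∂ν ∂m = ∫ y, ∫ x, A x * E x y ∂m ∂ν := by
  simp_rw [← integral_const_mul]
  refine integral_integral_swap ((hA.norm.mul_prod hb).mono' (hA.1.comp_fst.mul hE)
    (ae_of_all _ fun p => ?_))
  simp only [Function.uncurry, norm_mul]
  exact mul_le_mul_of_nonneg_left (h _ _) (norm_nonneg _)

lemma gv_ne {w : ℂ} (h : 0 < w.re) : w ≠ 0 := fun e => by simp [e] at h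

/-- the inner kernel -/
def gvK (z : ℝ × ℝ × ℝ) (t : ℝ) : ℂ :=
  cexp (-(gvW z.2.2 * t)) * ((1 - cexp (-(gvW z.1 * t)) * cexp (-(gvW z.2.1 * t))) /
    (gvW z.1 + gvW z.2.1))

lemma gv_add_ne (x y : ℝ) : gvW x + gvW y ≠ 0 := gv_ne (by simp [gv_re])

lemma gvK_norm (z : ℝ × ℝ × ℝ) (t : ℝ) :
    ‖gvK z t‖ ≤ Real.exp (-1 * t) + Real.exp (-3 * t) := by
  have h1 : 1 ≤ ‖gvW z.1 + gvW z.2.1‖ := by
    refine le_trans ?_ (Complex.re_le_norm _)
    simp [gv_re]
  have h2 := norm_sub_le 1 (cexp (-(gvW z.1 * t)) * cexp (-(gvW z.2.1 * t)))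
  rw [norm_one, norm_mul, gv_norm_exp, gv_norm_exp] at h2
  rw [gvK, norm_mul, gv_norm_exp, norm_div]
  refine (mul_le_mul_of_nonneg_left ((div_le_self (norm_nonneg _) h1).trans h2)
    (Real.exp_pos _).le).trans (le_of_eq ?_)
  rw [mul_add, ← Real.exp_add, ← Real.exp_add, mul_one]
  congr 2 <;> ring

lemma gvK_int (z : ℝ × ℝ × ℝ) : ∫ t in Set.Ioi (0 : ℝ), gvK z t =
    1 / (gvW z.2.2 * (gvW z.1 + gvW z.2.1 + gvW z.2.2)) := by
  have h1 : (-gvW z.2.2).re < 0 := by simp [gv_re]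
  have h2 : (-(gvW z.1 + gvW z.2.1 + gvW z.2.2)).re < 0 := by simp [gv_re]; norm_num
  have h3 := gv_add_ne z.1 z.2.1
  have h4 : gvW z.2.2 ≠ 0 := gv_ne (by simp [gv_re])
  have h5 : gvW z.1 + gvW z.2.1 + gvW z.2.2 ≠ 0 := gv_ne (by simp [gv_re]; norm_num)
  have e : ∀ t : ℝ, gvK z t = (cexp (-gvW z.2.2 * t) -
      cexp (-(gvW z.1 + gvW z.2.1 + gvW z.2.2) * t)) / (gvW z.1 + gvW z.2.1) := by
    intro t
    rw [gvK, ← mul_div_assoc, mul_sub, ← Complex.exp_add, ← Complex.exp_add, mul_one]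
    congr 3 <;> ring
  simp_rw [e]
  rw [integral_div, integral_sub (integrableOn_exp_mul_complex_Ioi h1 0)
    (integrableOn_exp_mul_complex_Ioi h2 0), integral_exp_mul_complex_Ioi h1,
    integral_exp_mul_complex_Ioi h2]
  simp only [Complex.ofReal_zero, mul_zero, Complex.exp_zero]
  field_simp
  ring

lemma gvK_eq (z : ℝ × ℝ × ℝ) {t : ℝ} (ht : 0 ≤ t) : gvK z t = ∫ s in Set.Ioc (0 : ℝ) t,
    cexp (-(gvW z.1 * s)) * cexp (-(gvW z.2.1 * s)) * cexp (-(gvW z.2.2 * t)) := by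
  have h3 := gv_add_ne z.1 z.2.1
  have e : ∀ s : ℝ, cexp (-(gvW z.1 * s)) * cexp (-(gvW z.2.1 * s)) =
      cexp (-(gvW z.1 + gvW z.2.1) * s) := by
    intro s
    rw [← Complex.exp_add]
    congr 1
    ring
  rw [integral_mul_const, ← intervalIntegral.integral_of_le ht, gvK]
  simp_rw [e]
  rw [integral_exp_mul_complex (neg_ne_zero.2 h3)]
  simp only [Complex.ofReal_zero, mul_zero, Complex.exp_zero]
  field_simp
  ring

lemma gv_intW (hP : GvRep P ψ) (hF : GvRep F φ) :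
    Integrable fun z => gvT ψ φ z * (gvW z.1 * gvW z.2.1) := by
  refine gv_intT hP hF (by fun_prop) 1 fun z => ?_
  rw [norm_mul, one_mul, gvD]
  refine mul_le_mul ((gv_norm_le _).trans (gv_le_pow _)) ?_ (norm_nonneg _)
    (by linarith [gv_one_le_pow z.1])
  exact ((gv_norm_le _).trans (gv_le_pow _)).trans
    (le_mul_of_one_le_right (by linarith [gv_one_le_pow z.2.1]) (gv_one_le_pow _))

lemma gv_inner (hP : GvRep P ψ) (hF : GvRep F φ) {t : ℝ} (ht : 0 ≤ t) :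
    ∫ z, gvT ψ φ z * (gvW z.1 * gvW z.2.1) * gvK z t =
      (F t * ∫ s in (0 : ℝ)..t, deriv P s ^ 2 : ℝ) := by
  simp_rw [fun z => gvK_eq z ht]
  rw [gv_swap (gv_intW hP hF) (b := fun s => Real.exp (-s) * Real.exp (-s) * Real.exp (-t))
    (Continuous.integrableOn_Ioc (by fun_prop)) (Continuous.aestronglyMeasurable (by fun_prop))
    fun z s => by simp only [norm_mul, gv_norm_exp, le_refl]]
  rw [intervalIntegral.integral_of_le ht, ← integral_const_mul, ← integral_complex_ofReal]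
  congr 1
  ext s
  have := gv_prodT (ψ := ψ) (φ := φ) (fun x => gvW x * cexp (-(gvW x * s)))
    (fun x => gvW x * cexp (-(gvW x * s))) fun x => cexp (-(gvW x * t))
  rw [hP.der, hF.eq] at this
  refine Eq.trans ?_ (this.trans ?_)
  · congr 1
    ext z
    ring
  · push_cast
    ring

lemma gv_limit (hP : GvRep P ψ) (hF : GvRep F φ) :
    ∫ z, gvT ψ φ z * (1 + gvW z.1 * gvW z.2.1 / (gvW z.2.2 * (gvW z.1 + gvW z.2.1 + gvW z.2.2))) =
      (F 0 * P 0 ^ 2 + ∫ t in Set.Ioi (0 : ℝ), F t * ∫ s in (0 : ℝ)..t, deriv P s ^ 2 : ℝ) := by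
  have h0 : Integrable (gvT ψ φ) := by
    have := gv_intT hP hF (G := fun _ => 1) continuous_const 1 fun z => by
      simpa using gv_one_le_D z
    simpa using this
  have hne : ∀ z : ℝ × ℝ × ℝ, gvW z.2.2 * (gvW z.1 + gvW z.2.1 + gvW z.2.2) ≠ 0 := fun z =>
    mul_ne_zero (gv_ne (by simp [gv_re])) (gv_ne (by simp [gv_re]; norm_num))
  have h1 : Integrable fun z => gvT ψ φ z * (gvW z.1 * gvW z.2.1) *
      (1 / (gvW z.2.2 * (gvW z.1 + gvW z.2.1 + gvW z.2.2))) := by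
    refine (gv_intW hP hF).mul_bdd (c := 1)
      (Continuous.aestronglyMeasurable (continuous_const.div (by fun_prop) hne))
      (ae_of_all _ fun z => ?_)
    rw [norm_div, norm_one, norm_mul]
    refine div_le_one_of_le₀ (one_le_mul_of_one_le_of_one_le ?_ ?_) (by positivity) <;>
      refine le_trans ?_ (Complex.re_le_norm _) <;> simp [gv_re]
  have e : ∀ z : ℝ × ℝ × ℝ, gvT ψ φ z *
      (1 + gvW z.1 * gvW z.2.1 / (gvW z.2.2 * (gvW z.1 + gvW z.2.1 + gvW z.2.2))) =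
      gvT ψ φ z + gvT ψ φ z * (gvW z.1 * gvW z.2.1) *
        (1 / (gvW z.2.2 * (gvW z.1 + gvW z.2.1 + gvW z.2.2))) := fun z => by ring
  simp_rw [e]
  rw [integral_add h0 h1, Complex.ofReal_add]
  congr 1
  · have a := hP.eq 0
    have b := hF.eq 0
    simp only [Complex.ofReal_zero, mul_zero, neg_zero, Complex.exp_zero, mul_one] at a b
    simp only [gvT]
    rw [gv_prod3, a, b]
    push_cast
    ring
  · simp_rw [← gvK_int]
    rw [gv_swap (gv_intW hP hF) (b := fun t => Real.exp (-1 * t) + Real.exp (-3 * t))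
      ((integrableOn_exp_mul_Ioi (by norm_num) 0).add (integrableOn_exp_mul_Ioi (by norm_num) 0))
      (Continuous.aestronglyMeasurable ?_) gvK_norm, ← integral_complex_ofReal]
    · exact setIntegral_congr_fun measurableSet_Ioi fun t ht => gv_inner hP hF (le_of_lt ht)
    · unfold gvK
      exact Continuous.mul (by fun_prop)
        (Continuous.div (by fun_prop) (by fun_prop) fun p => gv_add_ne _ _)

theorem blk_GV (hA : St_GV1) : St_GV := by
  intro P F p1 p2 f1 f2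
  obtain ⟨ψ, hP⟩ := gv_exists P p1 p2
  obtain ⟨φ, hF⟩ := gv_exists F f1 f2
  obtain ⟨⟨C, hC⟩, hlim⟩ := hA
  have key : Tendsto (fun l : ℝ => ∫ z, gvT ψ φ z * gvPhi l z) atTop (𝓝 (∫ z, gvT ψ φ z *
      (1 + gvW z.1 * gvW z.2.1 / (gvW z.2.2 * (gvW z.1 + gvW z.2.1 + gvW z.2.2))))) := by
    refine tendsto_integral_filter_of_dominated_convergence
      (fun z => |C| * (‖gvT ψ φ z‖ * gvD z)) ?_ ?_ ((gv_intD hP hF).const_mul _)
      (ae_of_all _ fun z => (hlim _ _ _ (gv_re _) (gv_re _) (gv_re _)).const_mul _)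
    · filter_upwards [eventually_gt_atTop 0] with l hl
      exact ((gv_contT hP hF).mul (gvPhi_cont hl)).aestronglyMeasurable
    · filter_upwards [eventually_ge_atTop 1] with l hl
      refine ae_of_all _ fun z => ?_
      have h1 := hC l (2 * π * z.1) (2 * π * z.2.1) (2 * π * z.2.2) hl
      have h2 : (1 + |2 * π * z.1| + |2 * π * z.2.1| + |2 * π * z.2.2|) ^ 4 ≤ gvD z := by
        rw [gvD, ← mul_pow, ← mul_pow, gvB, gvB, gvB]
        have a := abs_nonneg (2 * π * z.1)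
        have b := abs_nonneg (2 * π * z.2.1)
        have c := abs_nonneg (2 * π * z.2.2)
        refine pow_le_pow_left₀ (by positivity) ?_ 4
        nlinarith [mul_nonneg a b, mul_nonneg a c, mul_nonneg b c, mul_nonneg a (mul_nonneg b c)]
      rw [norm_mul, mul_left_comm]
      refine mul_le_mul_of_nonneg_left (h1.trans ?_) (norm_nonneg _)
      exact mul_le_mul (le_abs_self C) h2 (by positivity) (abs_nonneg C)
  rw [gv_limit hP hF] at key
  have key2 := (Complex.continuous_re.tendsto _).comp key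
  rw [Complex.ofReal_re] at key2
  refine key2.congr' ?_
  filter_upwards [eventually_gt_atTop 0] with l hl
  rw [Function.comp_apply, ← gv_sum_eq hP hF hl, Complex.ofReal_re]

end

end Pool.Agent.Lib.PS
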