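import Pool.Agent.Lib.PS.Blue
import Pool.Agent.Lib.MP_fb430f_co.Circle

/-!
Block GV1: the Euler product of the Green and Tao series and its asymptotics.
-/

namespace Pool.Agent.Lib.PS

open Finset Real MeasureTheory Complex Filter Topology
open scoped NumberTheorySymbols ArithmeticFunction.Moebius ArithmeticFunction.vonMangoldt
  Classical ComplexConjugate ContDiff

noncomputable def gv1a (z : ℂ) (n : ℕ) : ℂ := ∑ d ∈ n.divisors, (μ d : ℂ) * (d : ℂ) ^ (-z)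

noncomputable def gv1f (z1 z2 z3 : ℂ) (n : ℕ) : ℂ :=
  gv1a z1 n * gv1a z2 n * (n : ℂ) ^ (-(1 + z3))

lemma gv1_a_mul (z : ℂ) {m n : ℕ} (h : m.Coprime n) :
    gv1a z (m * n) = gv1a z m * gv1a z n := by
  unfold gv1a
  rw [h.divisors_mul, Finset.sum_map, Finset.sum_mul_sum, ← Finset.sum_product',
    ← Finset.sum_attach (m.divisors ×ˢ n.divisors)]
  refine Finset.sum_congr rfl fun x _ => ?_
  obtain ⟨⟨a, b⟩, hx⟩ := x
  have hx' := Finset.mem_product.1 hx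
  have hab : a.Coprime b :=
    (h.coprime_dvd_left (Nat.dvd_of_mem_divisors hx'.1)).coprime_dvd_right
      (Nat.dvd_of_mem_divisors hx'.2)
  simp only [Function.Embedding.coeFn_mk]
  rw [ArithmeticFunction.isMultiplicative_moebius.map_mul_of_coprime hab]
  push_cast
  rw [Complex.natCast_mul_natCast_cpow]
  ring

lemma gv1_a_one (z : ℂ) : gv1a z 1 = 1 := by simp [gv1a]

lemma gv1_a_pow (z : ℂ) {p : ℕ} (hp : p.Prime) (e : ℕ) :
    gv1a z (p ^ (e + 1)) = 1 - (p : ℂ) ^ (-z) := by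
  unfold gv1a
  rw [Nat.sum_divisors_prime_pow hp, Finset.sum_range_succ', Finset.sum_range_succ']
  have : ∑ k ∈ range e, (μ (p ^ (k + 1 + 1)) : ℂ) * ((p ^ (k + 1 + 1) : ℕ) : ℂ) ^ (-z) = 0 := by
    refine Finset.sum_eq_zero fun k _ => ?_
    rw [ArithmeticFunction.moebius_apply_prime_pow hp (by omega), if_neg (by omega)]
    simp
  rw [this]
  simp [ArithmeticFunction.moebius_apply_prime hp]
  ring

lemma gv1_a_norm {z : ℂ} (hz : 0 ≤ z.re) (n : ℕ) : ‖gv1a z n‖ ≤ (n.divisors.card : ℝ) := by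
  unfold gv1a
  refine (norm_sum_le _ _).trans ?_
  have : ∀ d ∈ n.divisors, ‖(μ d : ℂ) * (d : ℂ) ^ (-z)‖ ≤ 1 := by
    intro d hd
    have hd0 : 0 < d := Nat.pos_of_mem_divisors hd
    rw [norm_mul, Complex.norm_natCast_cpow_of_pos hd0]
    have h1 : ‖(μ d : ℂ)‖ ≤ 1 := by
      rw [Complex.norm_intCast]
      exact_mod_cast ArithmeticFunction.abs_moebius_le_one
    have h2 : (d : ℝ) ^ (-z).re ≤ 1 :=
      Real.rpow_le_one_of_one_le_of_nonpos (by exact_mod_cast hd0) (by simpa using hz)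
    exact mul_le_one₀ h1 (by positivity) h2
  simpa using Finset.sum_le_card_nsmul _ _ _ this

lemma gv1_tau {ε : ℝ} (hε : 0 < ε) :
    ∃ C : ℝ, 0 < C ∧ ∀ m : ℕ, (m.divisors.card : ℝ) ≤ C * (m : ℝ) ^ ε := by
  obtain ⟨C, hC, h⟩ := Pool.Agent.Lib.MP_fb430f_co.div_bound hε
  refine ⟨C, hC, fun m => ?_⟩
  rcases eq_or_ne m 0 with rfl | hm
  · simp only [Nat.divisors_zero, Finset.card_empty, Nat.cast_zero]
    positivity
  refine le_trans ?_ (h m hm)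
  rw [Nat.card_divisors hm]
  exact_mod_cast Finset.prod_le_prod' fun p _ => by omega

lemma gv1_summable {z1 z2 z3 : ℂ} (h1 : 0 ≤ z1.re) (h2 : 0 ≤ z2.re) (h3 : 0 < z3.re) :
    Summable fun n => ‖gv1f z1 z2 z3 n‖ := by
  obtain ⟨C, hC, h⟩ := gv1_tau (ε := z3.re / 4) (by positivity)
  have hs : Summable fun n : ℕ => C ^ 2 * (n : ℝ) ^ (-(1 + z3.re / 2)) :=
    (Real.summable_nat_rpow.2 (by linarith)).mul_left _
  refine Summable.of_nonneg_of_le (fun _ => norm_nonneg _) (fun n => ?_) hs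
  rcases Nat.eq_zero_or_pos n with rfl | hn
  · simp only [gv1f, gv1a, Nat.divisors_zero, Finset.sum_empty, zero_mul, norm_zero]
    positivity
  have hn' : (0 : ℝ) < n := by exact_mod_cast hn
  unfold gv1f
  rw [norm_mul, norm_mul, Complex.norm_natCast_cpow_of_pos hn]
  have a1 := (gv1_a_norm h1 n).trans (h n)
  have a2 := (gv1_a_norm h2 n).trans (h n)
  have e : (n : ℝ) ^ (-(1 + z3.re / 2)) =
      (n : ℝ) ^ (z3.re / 4) * (n : ℝ) ^ (z3.re / 4) * (n : ℝ) ^ (-(1 + z3)).re := by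
    rw [← Real.rpow_add hn', ← Real.rpow_add hn']
    congr 1
    simp
    ring
  rw [e]
  calc _ ≤ (C * (n : ℝ) ^ (z3.re / 4)) * (C * (n : ℝ) ^ (z3.re / 4)) * (n : ℝ) ^ (-(1 + z3)).re := by
        gcongr
    _ = _ := by ring

lemma gv1_phi_eq {z1 z2 z3 : ℂ} (h1 : 0 ≤ z1.re) (h2 : 0 ≤ z2.re) (h3 : 0 < z3.re) :
    PhiG z1 z2 z3 = ∑' n, gv1f z1 z2 z3 n := by
  rw [(gv1_summable h1 h2 h3).of_norm.tsum_eq_zero_add]
  have : gv1f z1 z2 z3 0 = 0 := by simp [gv1f, gv1a]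
  rw [this, zero_add]
  unfold PhiG gv1f gv1a
  push_cast
  rfl

lemma gv1_pow_cpow (p e : ℕ) (s : ℂ) : ((p ^ e : ℕ) : ℂ) ^ s = ((p : ℂ) ^ s) ^ e := by
  induction e with
  | zero => simp
  | succ e ih =>
    rw [pow_succ, pow_succ, Nat.cast_mul, Complex.natCast_mul_natCast_cpow, ih]

lemma gv1_norm_le_one {p : ℕ} (hp : 0 < p) {z : ℂ} (hz : 0 ≤ z.re) : ‖(p : ℂ) ^ (-z)‖ ≤ 1 := by
  rw [Complex.norm_natCast_cpow_of_pos hp]
  exact Real.rpow_le_one_of_one_le_of_nonpos (by exact_mod_cast hp) (by simpa using hz)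

lemma gv1_norm_x {p : ℕ} (hp : 0 < p) {z : ℂ} (hz : 0 ≤ z.re) :
    ‖(p : ℂ) ^ (-(1 + z))‖ ≤ 1 / (p : ℝ) := by
  rw [Complex.norm_natCast_cpow_of_pos hp, one_div, ← Real.rpow_neg_one]
  refine Real.rpow_le_rpow_of_exponent_le (by exact_mod_cast hp) ?_
  simp
  linarith

lemma gv1_local {z1 z2 z3 : ℂ} (h3 : 0 ≤ z3.re) {p : ℕ} (hp : p.Prime) :
    ∑' e, gv1f z1 z2 z3 (p ^ e) = 1 + (1 - (p : ℂ) ^ (-z1)) * (1 - (p : ℂ) ^ (-z2)) *
      ((p : ℂ) ^ (-(1 + z3)) * (1 - (p : ℂ) ^ (-(1 + z3)))⁻¹) := by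
  set x : ℂ := (p : ℂ) ^ (-(1 + z3)) with hx
  have hp2 : (2 : ℝ) ≤ p := by exact_mod_cast hp.two_le
  have hxn : ‖x‖ < 1 := by
    refine (gv1_norm_x hp.pos h3).trans_lt ?_
    rw [div_lt_one (by linarith)]
    linarith
  have hg : HasSum (fun e : ℕ => gv1f z1 z2 z3 (p ^ (e + 1)))
      ((1 - (p : ℂ) ^ (-z1)) * (1 - (p : ℂ) ^ (-z2)) * (x * (1 - x)⁻¹)) := by
    have := ((hasSum_geometric_of_norm_lt_one hxn).mul_left x).mul_left
      ((1 - (p : ℂ) ^ (-z1)) * (1 - (p : ℂ) ^ (-z2)))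
    refine this.congr_fun ?_
    intro e
    unfold gv1f
    rw [gv1_a_pow z1 hp, gv1_a_pow z2 hp, gv1_pow_cpow, ← hx, pow_succ']
  have h0 : gv1f z1 z2 z3 (p ^ 0) = 1 := by simp [gv1f, gv1_a_one]
  have := (hasSum_nat_add_iff' (f := fun e => gv1f z1 z2 z3 (p ^ e)) 1
    (g := 1 + (1 - (p : ℂ) ^ (-z1)) * (1 - (p : ℂ) ^ (-z2)) * (x * (1 - x)⁻¹))).1 (by
      simpa [h0, gv1f, gv1_a_one] using hg)
  exact this.tsum_eq

noncomputable def gv1h (u1 u2 x : ℂ) : ℂ :=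
  -(u1 * u2 * (1 - u1) * (1 - u2) * x ^ 2) / ((1 - u1 * x) * (1 - u2 * x))

lemma gv1_alg {u1 u2 x : ℂ} (a0 : 1 - x ≠ 0) (a1 : 1 - u1 * x ≠ 0) (a2 : 1 - u2 * x ≠ 0)
    (_a3 : 1 - u1 * u2 * x ≠ 0) :
    (1 + (1 - u1) * (1 - u2) * (x * (1 - x)⁻¹)) * ((1 - u1 * x)⁻¹ * (1 - u2 * x)⁻¹) /
      ((1 - x)⁻¹ * (1 - u1 * u2 * x)⁻¹) = 1 + gv1h u1 u2 x := by
  unfold gv1h
  field_simp
  ring

lemma gv1_half {y : ℂ} (hy : ‖y‖ ≤ 1 / 2) : 1 / 2 ≤ ‖1 - y‖ := by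
  have := norm_sub_norm_le (1 : ℂ) y
  rw [norm_one] at this
  linarith

lemma gv1_h_norm {u1 u2 x : ℂ} (b1 : ‖u1‖ ≤ 1) (b2 : ‖u2‖ ≤ 1) (bx : ‖x‖ ≤ 1 / 2) :
    ‖gv1h u1 u2 x‖ ≤ 8 * ‖1 - u1‖ * ‖x‖ ^ 2 := by
  have c1 : ‖u1 * x‖ ≤ 1 / 2 := by
    rw [norm_mul]
    nlinarith [norm_nonneg u1, norm_nonneg x]
  have c2 : ‖u2 * x‖ ≤ 1 / 2 := by
    rw [norm_mul]
    nlinarith [norm_nonneg u2, norm_nonneg x]
  have d1 := gv1_half c1
  have d2 := gv1_half c2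
  have d3 : ‖1 - u2‖ ≤ 2 := by
    have := norm_sub_le (1 : ℂ) u2
    rw [norm_one] at this
    linarith
  unfold gv1h
  rw [norm_div, norm_neg, norm_mul, norm_mul, norm_mul, norm_mul, norm_mul, norm_pow,
    div_le_iff₀ (by positivity)]
  calc _ ≤ 1 * 1 * ‖1 - u1‖ * 2 * ‖x‖ ^ 2 := by gcongr
    _ = 8 * ‖1 - u1‖ * ‖x‖ ^ 2 * (1 / 2 * (1 / 2)) := by ring
    _ ≤ _ := by gcongr

lemma gv1_one_sub {p : ℕ} (hp : 0 < p) {z : ℂ} (hz : 0 ≤ z.re) :
    ‖1 - (p : ℂ) ^ (-z)‖ ≤ 4 * min 1 ‖z‖ * (p : ℝ) ^ (1 / 2 : ℝ) := by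
  have hp1 : (1 : ℝ) ≤ p := by exact_mod_cast hp
  have h2 : ‖1 - (p : ℂ) ^ (-z)‖ ≤ 2 := by
    have := norm_sub_le (1 : ℂ) ((p : ℂ) ^ (-z))
    rw [norm_one] at this
    linarith [gv1_norm_le_one hp hz]
  have hs : 1 ≤ (p : ℝ) ^ (1 / 2 : ℝ) := Real.one_le_rpow hp1 (by norm_num)
  have hl : Real.log p ≤ 2 * (p : ℝ) ^ (1 / 2 : ℝ) := by
    have := Real.log_le_rpow_div (x := p) (ε := 1 / 2) (by linarith) (by norm_num)
    linarith
  have hl0 : 0 ≤ Real.log p := Real.log_nonneg hp1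
  have h3 : ‖1 - (p : ℂ) ^ (-z)‖ ≤ 2 * (‖z‖ * Real.log p) := by
    by_cases hc : ‖z‖ * Real.log p ≤ 1
    · have hp0 : (p : ℂ) ≠ 0 := by exact_mod_cast hp.ne'
      have hn : ‖Complex.log p * (-z)‖ = ‖z‖ * Real.log p := by
        rw [norm_mul, norm_neg, ← Complex.natCast_log, Complex.norm_real, Real.norm_eq_abs,
          abs_of_nonneg hl0, mul_comm]
      rw [Complex.cpow_def_of_ne_zero hp0, norm_sub_rev, ← hn]
      exact Complex.norm_exp_sub_one_le (by rw [hn]; exact hc)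
    · linarith [not_le.1 hc]
  rcases le_total 1 ‖z‖ with h | h
  · rw [min_eq_left h]
    linarith
  · rw [min_eq_right h]
    nlinarith [norm_nonneg z]

noncomputable def gv1S : ℝ := ∑' n : ℕ, (n : ℝ) ^ (-(3 / 2) : ℝ)

lemma gv1_S_sum (s : Finset Nat.Primes) : ∑ p ∈ s, ((p : ℕ) : ℝ) ^ (-(3 / 2) : ℝ) ≤ gv1S := by
  have hs : Summable fun n : ℕ => (n : ℝ) ^ (-(3 / 2) : ℝ) :=
    Real.summable_nat_rpow.2 (by norm_num)
  have := hs.sum_le_tsum (s.map ⟨fun p : Nat.Primes => (p : ℕ), Subtype.val_injective⟩)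
    (fun n _ => by positivity)
  rw [Finset.sum_map] at this
  exact this

lemma gv1_S_nonneg : 0 ≤ gv1S := tsum_nonneg fun n => by positivity

lemma gv1_key {z1 z2 z3 : ℂ} (h1 : 0 ≤ z1.re) (h2 : 0 ≤ z2.re) (h3 : 0 < z3.re) :
    ‖PhiG z1 z2 z3 * (riemannZeta (1 + z1 + z3) * riemannZeta (1 + z2 + z3)) /
      (riemannZeta (1 + z3) * riemannZeta (1 + z1 + z2 + z3)) - 1‖
      ≤ Real.exp (32 * min 1 ‖z1‖ * gv1S) - 1 := by
  have hP := EulerProduct.eulerProduct_hasProd (f := gv1f z1 z2 z3)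
    (by simp [gv1f, gv1_a_one])
    (fun {m n} h => by
      unfold gv1f
      rw [gv1_a_mul z1 h, gv1_a_mul z2 h, Nat.cast_mul, Complex.natCast_mul_natCast_cpow]
      ring)
    (gv1_summable h1 h2 h3) (by simp [gv1f, gv1a])
  rw [← gv1_phi_eq h1 h2 h3] at hP
  have r13 : 1 < (1 + z1 + z3).re := by simp; linarith
  have r23 : 1 < (1 + z2 + z3).re := by simp; linarith
  have r3 : 1 < (1 + z3).re := by simp; linarith
  have r123 : 1 < (1 + z1 + z2 + z3).re := by simp; linarith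
  have hN := hP.mul ((riemannZeta_eulerProduct_hasProd r13).mul
    (riemannZeta_eulerProduct_hasProd r23))
  have hD := (riemannZeta_eulerProduct_hasProd r3).mul (riemannZeta_eulerProduct_hasProd r123)
  have hD0 : riemannZeta (1 + z3) * riemannZeta (1 + z1 + z2 + z3) ≠ 0 :=
    mul_ne_zero (riemannZeta_ne_zero_of_one_lt_re r3) (riemannZeta_ne_zero_of_one_lt_re r123)
  have hT := ((Tendsto.div hN hD hD0).sub_const 1).norm
  refine le_of_tendsto' hT fun s => ?_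
  simp only [Pi.div_apply]
  rw [← Finset.prod_div_distrib]
  have hloc : ∀ p : Nat.Primes, ‖((p : ℕ) : ℂ) ^ (-(1 + z3))‖ ≤ 1 / 2 := by
    intro p
    have hp2 : (2 : ℝ) ≤ (p : ℕ) := by exact_mod_cast p.2.two_le
    exact (gv1_norm_x p.2.pos h3.le).trans (one_div_le_one_div_of_le (by norm_num) hp2)
  have hne : ∀ y : ℂ, ‖y‖ ≤ 1 / 2 → 1 - y ≠ 0 := by
    intro y hy h0
    have := gv1_half hy
    rw [h0, norm_zero] at this
    linarith
  have hprod : ∀ p ∈ s, (∑' e, gv1f z1 z2 z3 ((p : ℕ) ^ e)) *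
      ((1 - ((p : ℕ) : ℂ) ^ (-(1 + z1 + z3)))⁻¹ * (1 - ((p : ℕ) : ℂ) ^ (-(1 + z2 + z3)))⁻¹) /
      ((1 - ((p : ℕ) : ℂ) ^ (-(1 + z3)))⁻¹ * (1 - ((p : ℕ) : ℂ) ^ (-(1 + z1 + z2 + z3)))⁻¹)
      = 1 + gv1h (((p : ℕ) : ℂ) ^ (-z1)) (((p : ℕ) : ℂ) ^ (-z2)) (((p : ℕ) : ℂ) ^ (-(1 + z3))) := by
    intro p _
    have hp0 : ((p : ℕ) : ℂ) ≠ 0 := by exact_mod_cast p.2.ne_zero
    have e1 : ((p : ℕ) : ℂ) ^ (-(1 + z1 + z3)) =
        ((p : ℕ) : ℂ) ^ (-z1) * ((p : ℕ) : ℂ) ^ (-(1 + z3)) := by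
      rw [← Complex.cpow_add _ _ hp0]
      congr 1
      ring
    have e2 : ((p : ℕ) : ℂ) ^ (-(1 + z2 + z3)) =
        ((p : ℕ) : ℂ) ^ (-z2) * ((p : ℕ) : ℂ) ^ (-(1 + z3)) := by
      rw [← Complex.cpow_add _ _ hp0]
      congr 1
      ring
    have e3 : ((p : ℕ) : ℂ) ^ (-(1 + z1 + z2 + z3)) =
        ((p : ℕ) : ℂ) ^ (-z1) * ((p : ℕ) : ℂ) ^ (-z2) * ((p : ℕ) : ℂ) ^ (-(1 + z3)) := by
      rw [← Complex.cpow_add _ _ hp0, ← Complex.cpow_add _ _ hp0]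
      congr 1
      ring
    have b1 := gv1_norm_le_one p.2.pos h1
    have b2 := gv1_norm_le_one p.2.pos h2
    have bx := hloc p
    rw [gv1_local h3.le p.2, e1, e2, e3]
    refine gv1_alg (hne _ bx) (hne _ ?_) (hne _ ?_) (hne _ ?_)
    · rw [norm_mul]
      calc _ ≤ 1 * (1 / 2 : ℝ) := by gcongr
        _ = _ := by ring
    · rw [norm_mul]
      calc _ ≤ 1 * (1 / 2 : ℝ) := by gcongr
        _ = _ := by ring
    · rw [norm_mul, norm_mul]
      calc _ ≤ 1 * 1 * (1 / 2 : ℝ) := by gcongr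
        _ = _ := by ring
  rw [Finset.prod_congr rfl hprod]
  refine (Finset.norm_prod_one_add_sub_one_le _ _).trans ?_
  have hm : 0 ≤ min 1 ‖z1‖ := le_min zero_le_one (norm_nonneg _)
  gcongr
  refine le_trans (Finset.sum_le_sum (g := fun p : Nat.Primes =>
    32 * min 1 ‖z1‖ * ((p : ℕ) : ℝ) ^ (-(3 / 2) : ℝ)) fun p _ => ?_) ?_
  · have hp0 : (0 : ℝ) < (p : ℕ) := by exact_mod_cast p.2.pos
    refine (gv1_h_norm (gv1_norm_le_one p.2.pos h1) (gv1_norm_le_one p.2.pos h2) (hloc p)).trans ?_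
    have e : ((p : ℕ) : ℝ) ^ (-(3 / 2) : ℝ) =
        ((p : ℕ) : ℝ) ^ (1 / 2 : ℝ) * (1 / ((p : ℕ) : ℝ)) ^ 2 := by
      rw [one_div ((p : ℕ) : ℝ), ← Real.rpow_neg_one, ← Real.rpow_natCast, ← Real.rpow_mul hp0.le,
        ← Real.rpow_add hp0]
      norm_num
    rw [e]
    calc _ ≤ 8 * (4 * min 1 ‖z1‖ * ((p : ℕ) : ℝ) ^ (1 / 2 : ℝ)) * (1 / ((p : ℕ) : ℝ)) ^ 2 := by
          gcongr
          · exact gv1_one_sub p.2.pos h1
          · exact gv1_norm_x p.2.pos h3.le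
      _ = _ := by ring
  · rw [← Finset.mul_sum]
    gcongr
    exact gv1_S_sum s

noncomputable def gv1H (z1 z2 z3 : ℂ) : ℂ :=
  PhiG z1 z2 z3 * (riemannZeta (1 + z1 + z3) * riemannZeta (1 + z2 + z3)) /
    (riemannZeta (1 + z3) * riemannZeta (1 + z1 + z2 + z3))

lemma gv1_H_norm {z1 z2 z3 : ℂ} (h1 : 0 ≤ z1.re) (h2 : 0 ≤ z2.re) (h3 : 0 < z3.re) :
    ‖gv1H z1 z2 z3‖ ≤ Real.exp (32 * gv1S) := by
  have h := gv1_key h1 h2 h3
  have h' : Real.exp (32 * min 1 ‖z1‖ * gv1S) ≤ Real.exp (32 * gv1S) := by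
    have := gv1_S_nonneg
    have := min_le_left 1 ‖z1‖
    refine Real.exp_le_exp.2 ?_
    nlinarith
  have := norm_sub_norm_le (gv1H z1 z2 z3) 1
  rw [norm_one] at this
  unfold gv1H at this ⊢
  linarith

lemma gv1_eq1 {z1 z2 z3 : ℂ} (h1 : 0 ≤ z1.re) (h2 : 0 ≤ z2.re) (h3 : 0 < z3.re) :
    PhiG z1 z2 z3 = gv1H z1 z2 z3 * (riemannZeta (1 + z3) * riemannZeta (1 + z1 + z2 + z3)) *
      ((riemannZeta (1 + z1 + z3))⁻¹ * (riemannZeta (1 + z2 + z3))⁻¹) := by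
  have r13 := riemannZeta_ne_zero_of_one_lt_re (s := 1 + z1 + z3) (by simp; linarith)
  have r23 := riemannZeta_ne_zero_of_one_lt_re (s := 1 + z2 + z3) (by simp; linarith)
  have r3 := riemannZeta_ne_zero_of_one_lt_re (s := 1 + z3) (by simp; linarith)
  have r123 := riemannZeta_ne_zero_of_one_lt_re (s := 1 + z1 + z2 + z3) (by simp; linarith)
  unfold gv1H
  field_simp

lemma gv1_zeta_eq {z : ℂ} (hz : 0 < z.re) : riemannZeta (1 + z) = z⁻¹ * riemannZeta₁ (1 + z) := by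
  have hz0 : z ≠ 0 := fun h => by simp [h] at hz
  rw [riemannZeta_eq_inv_sub_mul (by simpa using hz0), add_sub_cancel_left]

lemma gv1_eq2 {z1 z2 z3 : ℂ} (h1 : 0 ≤ z1.re) (h2 : 0 ≤ z2.re) (h3 : 0 < z3.re) :
    PhiG z1 z2 z3 = gv1H z1 z2 z3 *
      (riemannZeta₁ (1 + z3) * riemannZeta₁ (1 + (z1 + z2 + z3)) /
        (riemannZeta₁ (1 + (z1 + z3)) * riemannZeta₁ (1 + (z2 + z3)))) *
      ((z1 + z3) * (z2 + z3) / (z3 * (z1 + z2 + z3))) := by
  rw [gv1_eq1 h1 h2 h3, add_assoc 1 z1 z3, add_assoc 1 z2 z3,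
    show 1 + z1 + z2 + z3 = 1 + (z1 + z2 + z3) by ring,
    gv1_zeta_eq h3, gv1_zeta_eq (z := z1 + z3) (by simp; linarith),
    gv1_zeta_eq (z := z2 + z3) (by simp; linarith),
    gv1_zeta_eq (z := z1 + z2 + z3) (by simp; linarith)]
  simp only [div_eq_mul_inv, mul_inv, inv_inv]
  ring

lemma gv1_ratio {l : ℝ} (hl : 0 < l) (w1 w2 w3 : ℂ) :
    (w1 / l + w3 / l) * (w2 / l + w3 / l) / (w3 / l * (w1 / l + w2 / l + w3 / l)) =
      (w1 + w3) * (w2 + w3) / (w3 * (w1 + w2 + w3)) := by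
  have hl0 : (l : ℂ) ≠ 0 := by exact_mod_cast hl.ne'
  rw [← add_div, ← add_div, ← add_div, ← add_div, div_mul_div_comm, div_mul_div_comm,
    div_div_div_cancel_right₀ (mul_ne_zero hl0 hl0)]

lemma gv1_LS_norm {f : ℕ → ℂ} (hf : ∀ n, ‖f n‖ ≤ 1) {s : ℂ} (hs : 1 < s.re) :
    ‖LSeries f s‖ ≤ 1 + 1 / (s.re - 1) := by
  have hsum : Summable fun n : ℕ => 1 / (n : ℝ) ^ s.re := Real.summable_one_div_nat_rpow.2 hs
  have hb : ∀ n, ‖LSeries.term f s n‖ ≤ 1 / (n : ℝ) ^ s.re := by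
    intro n
    rw [LSeries.norm_term_eq]
    split_ifs
    · positivity
    · gcongr
      exact hf n
  refine (tsum_of_norm_bounded hsum.hasSum hb).trans ?_
  rw [hsum.tsum_eq_zero_add]
  have h0 : s.re ≠ 0 := by linarith
  have h1 := ZetaAsymptotics.zeta_limit_aux1 hs
  have h2 : 0 ≤ ZetaAsymptotics.termTSum s.re :=
    tsum_nonneg fun n => ZetaAsymptotics.term_nonneg _ _
  have h3 : 0 ≤ s.re * ZetaAsymptotics.termTSum s.re := mul_nonneg (by linarith) h2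
  simp only [Nat.cast_zero, Real.zero_rpow h0, div_zero, zero_add, Nat.cast_add, Nat.cast_one]
  linarith

lemma gv1_zeta_norm {s : ℂ} {l : ℝ} (hl : 1 ≤ l) (hs : 1 + 1 / l ≤ s.re) :
    ‖riemannZeta s‖ ≤ 2 * l ∧ ‖(riemannZeta s)⁻¹‖ ≤ 2 * l := by
  have hl0 : 0 < 1 / l := by positivity
  have hs1 : 1 < s.re := by linarith
  have hb : 1 + 1 / (s.re - 1) ≤ 2 * l := by
    have : 1 / (s.re - 1) ≤ 1 / (1 / l) := one_div_le_one_div_of_le hl0 (by linarith)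
    rw [one_div_one_div] at this
    linarith
  constructor
  · rw [← LSeries_one_eq_riemannZeta hs1]
    exact (gv1_LS_norm (fun n => by simp) hs1).trans hb
  · have h := LSeries_one_mul_Lseries_moebius hs1
    rw [LSeries_one_eq_riemannZeta hs1] at h
    rw [← eq_inv_of_mul_eq_one_right h]
    refine (gv1_LS_norm (fun n => ?_) hs1).trans hb
    rw [Complex.norm_intCast]
    exact_mod_cast ArithmeticFunction.abs_moebius_le_one

lemma gv1_re_div {w : ℂ} (hw : w.re = 1) (l : ℝ) : (w / l).re = 1 / l := by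
  rw [Complex.div_ofReal_re, hw]

lemma gv1_bound : ∃ C : ℝ, ∀ (l X : ℝ) (w1 w2 w3 : ℂ), 1 ≤ l → w1.re = 1 → w2.re = 1 → w3.re = 1 →
    ‖w1‖ ≤ X → ‖w2‖ ≤ X → ‖w3‖ ≤ X → ‖PhiG (w1 / l) (w2 / l) (w3 / l)‖ ≤ C * X ^ 4 := by
  obtain ⟨δ, hδ, hc⟩ := Metric.continuousAt_iff.1
    (differentiable_riemannZeta₁.continuous.continuousAt (x := 1)) (1 / 2) (by norm_num)
  have hc' : ∀ z : ℂ, ‖z‖ < δ → 1 / 2 ≤ ‖riemannZeta₁ (1 + z)‖ ∧ ‖riemannZeta₁ (1 + z)‖ ≤ 3 / 2 := by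
    intro z hz
    have h := hc (x := 1 + z) (by simpa [dist_eq_norm] using hz)
    rw [riemannZeta₁_one, dist_eq_norm] at h
    have a := norm_sub_norm_le (riemannZeta₁ (1 + z)) 1
    have b := norm_sub_norm_le 1 (riemannZeta₁ (1 + z))
    rw [norm_one] at a b
    rw [norm_sub_rev] at b
    constructor <;> linarith
  refine ⟨Real.exp (32 * gv1S) * (36 + (6 / δ) ^ 4), fun l X w1 w2 w3 hl r1 r2 r3 n1 n2 n3 => ?_⟩
  have hl0 : 0 < l := by linarith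
  have hil : 0 < 1 / l := by positivity
  have p1 : 0 < (w1 / l).re := by rw [gv1_re_div r1]; exact hil
  have p2 : 0 < (w2 / l).re := by rw [gv1_re_div r2]; exact hil
  have p3 : 0 < (w3 / l).re := by rw [gv1_re_div r3]; exact hil
  have hH := gv1_H_norm p1.le p2.le p3
  have m3 : 1 ≤ ‖w3‖ := r3 ▸ Complex.re_le_norm w3
  have hX : 1 ≤ X := m3.trans n3
  have hE := Real.exp_pos (32 * gv1S)
  by_cases hsmall : 3 * X / l < δ
  · have hd : ∀ w : ℂ, ‖w‖ ≤ X → ‖w / l‖ ≤ X / l := by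
      intro w hw
      rw [norm_div, Complex.norm_real, Real.norm_eq_abs, abs_of_pos hl0]
      gcongr
    have d1 := hd w1 n1
    have d2 := hd w2 n2
    have d3 := hd w3 n3
    have hXl : 0 ≤ X / l := by positivity
    have e3 : 3 * X / l = 3 * (X / l) := by ring
    have c3 := hc' (w3 / l) (by linarith)
    have c13 := hc' (w1 / l + w3 / l) (by linarith [norm_add_le (w1 / l) (w3 / l)])
    have c23 := hc' (w2 / l + w3 / l) (by linarith [norm_add_le (w2 / l) (w3 / l)])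
    have c123 := hc' (w1 / l + w2 / l + w3 / l)
      (by linarith [norm_add_le (w1 / l + w2 / l) (w3 / l), norm_add_le (w1 / l) (w2 / l)])
    have m123 : 1 ≤ ‖w1 + w2 + w3‖ := by
      have := Complex.re_le_norm (w1 + w2 + w3)
      simp only [Complex.add_re, r1, r2, r3] at this
      linarith
    have u13 : ‖w1 + w3‖ ≤ 2 * X := by linarith [norm_add_le w1 w3]
    have u23 : ‖w2 + w3‖ ≤ 2 * X := by linarith [norm_add_le w2 w3]
    rw [gv1_eq2 p1.le p2.le p3, gv1_ratio hl0, norm_mul, norm_mul, norm_div, norm_div, norm_mul,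
      norm_mul, norm_mul, norm_mul]
    calc _ ≤ Real.exp (32 * gv1S) * ((3 / 2 * (3 / 2)) / (1 / 2 * (1 / 2))) *
          ((2 * X) * (2 * X) / (1 * 1)) := by
          gcongr
          exacts [c3.2, c123.2, c13.1, c23.1]
      _ = Real.exp (32 * gv1S) * 36 * X ^ 2 := by ring
      _ ≤ _ := by
          gcongr
          · exact le_add_of_nonneg_right (by positivity)
          · norm_num
  · have hlX : 2 * l ≤ 6 / δ * X := by
      rw [not_lt, le_div_iff₀ hl0] at hsmall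
      rw [div_mul_eq_mul_div, le_div_iff₀ hδ]
      linarith
    have z3 := (gv1_zeta_norm (s := 1 + w3 / l) hl (by simp [gv1_re_div r3])).1
    have z123 := (gv1_zeta_norm (s := 1 + w1 / l + w2 / l + w3 / l) hl (by
      simp only [Complex.add_re, Complex.one_re, gv1_re_div r1, gv1_re_div r2, gv1_re_div r3]
      linarith)).1
    have z13 := (gv1_zeta_norm (s := 1 + w1 / l + w3 / l) hl (by
      simp only [Complex.add_re, Complex.one_re, gv1_re_div r1, gv1_re_div r3]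
      linarith)).2
    have z23 := (gv1_zeta_norm (s := 1 + w2 / l + w3 / l) hl (by
      simp only [Complex.add_re, Complex.one_re, gv1_re_div r2, gv1_re_div r3]
      linarith)).2
    rw [gv1_eq1 p1.le p2.le p3, norm_mul, norm_mul, norm_mul, norm_mul]
    calc _ ≤ Real.exp (32 * gv1S) * ((6 / δ * X) * (6 / δ * X)) * ((6 / δ * X) * (6 / δ * X)) := by
          gcongr
          exacts [z3.trans hlX, z123.trans hlX, z13.trans hlX, z23.trans hlX]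
      _ = Real.exp (32 * gv1S) * (6 / δ) ^ 4 * X ^ 4 := by ring
      _ ≤ _ := by
          gcongr
          exact le_add_of_nonneg_left (by norm_num)

lemma gv1_lim (w1 w2 w3 : ℂ) (r1 : w1.re = 1) (r2 : w2.re = 1) (r3 : w3.re = 1) :
    Tendsto (fun l : ℝ => PhiG (w1 / l) (w2 / l) (w3 / l)) atTop
      (𝓝 (1 + w1 * w2 / (w3 * (w1 + w2 + w3)))) := by
  have hz : ∀ w : ℂ, Tendsto (fun l : ℝ => w / l) atTop (𝓝 0) := by
    intro w
    have h : Tendsto (fun l : ℝ => ((l⁻¹ : ℝ) : ℂ)) atTop (𝓝 ((0 : ℝ) : ℂ)) :=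
      (Complex.continuous_ofReal.tendsto 0).comp tendsto_inv_atTop_zero
    have := h.const_mul w
    simpa [div_eq_mul_inv] using this
  have hζ : ∀ {g : ℝ → ℂ}, Tendsto g atTop (𝓝 0) →
      Tendsto (fun l => riemannZeta₁ (1 + g l)) atTop (𝓝 1) := by
    intro g hg
    have h1 : Tendsto (fun l => 1 + g l) atTop (𝓝 1) := by simpa using hg.const_add 1
    have := (differentiable_riemannZeta₁.continuous.tendsto 1).comp h1
    rwa [riemannZeta₁_one] at this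
  have t13 : Tendsto (fun l : ℝ => w1 / l + w3 / l) atTop (𝓝 0) := by
    simpa using (hz w1).add (hz w3)
  have t23 : Tendsto (fun l : ℝ => w2 / l + w3 / l) atTop (𝓝 0) := by
    simpa using (hz w2).add (hz w3)
  have t123 : Tendsto (fun l : ℝ => w1 / l + w2 / l + w3 / l) atTop (𝓝 0) := by
    simpa using ((hz w1).add (hz w2)).add (hz w3)
  have hpos : ∀ {w : ℂ}, w.re = 1 → ∀ {l : ℝ}, 0 < l → 0 < (w / l).re := by
    intro w hw l hl
    rw [gv1_re_div hw]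
    positivity
  have hH : Tendsto (fun l : ℝ => gv1H (w1 / l) (w2 / l) (w3 / l)) atTop (𝓝 1) := by
    rw [tendsto_iff_norm_sub_tendsto_zero]
    have hb : Tendsto (fun l : ℝ => Real.exp (32 * min 1 ‖w1 / l‖ * gv1S) - 1) atTop (𝓝 0) := by
      have hc : Continuous fun z : ℂ => Real.exp (32 * min 1 ‖z‖ * gv1S) - 1 := by fun_prop
      have := (hc.tendsto 0).comp (hz w1)
      simpa [Function.comp_def] using this
    refine squeeze_zero' (Eventually.of_forall fun _ => norm_nonneg _) ?_ hb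
    filter_upwards [eventually_gt_atTop 0] with l hl
    exact gv1_key (hpos r1 hl).le (hpos r2 hl).le (hpos r3 hl)
  have hR := ((hζ (hz w3)).mul (hζ t123)).div ((hζ t13).mul (hζ t23)) (by norm_num)
  have hT := (hH.mul hR).mul_const ((w1 + w3) * (w2 + w3) / (w3 * (w1 + w2 + w3)))
  have n3 : w3 ≠ 0 := fun h => by simp [h] at r3
  have n123 : w1 + w2 + w3 ≠ 0 := fun h => by
    have := congrArg Complex.re h
    simp only [Complex.add_re, r1, r2, r3, Complex.zero_re] at this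
    linarith
  have e : (1 : ℂ) * (1 * 1 / (1 * 1)) * ((w1 + w3) * (w2 + w3) / (w3 * (w1 + w2 + w3))) =
      1 + w1 * w2 / (w3 * (w1 + w2 + w3)) := by
    field_simp
    ring
  rw [e] at hT
  refine hT.congr' ?_
  filter_upwards [eventually_gt_atTop 0] with l hl
  rw [gv1_eq2 (hpos r1 hl).le (hpos r2 hl).le (hpos r3 hl), gv1_ratio hl]
  rfl

theorem blk_GV1 : St_GV1 := by
  refine ⟨?_, gv1_lim⟩
  obtain ⟨C, hC⟩ := gv1_bound
  refine ⟨C, fun l x1 x2 x3 hl => ?_⟩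
  have hn : ∀ x : ℝ, ‖(1 : ℂ) + x * I‖ ≤ 1 + |x| := by
    intro x
    refine (norm_add_le _ _).trans ?_
    simp
  have a1 := abs_nonneg x1
  have a2 := abs_nonneg x2
  have a3 := abs_nonneg x3
  exact hC l _ _ _ _ hl (by simp) (by simp) (by simp) (by linarith [hn x1]) (by linarith [hn x2])
    (by linarith [hn x3])

end Pool.Agent.Lib.PS
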