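import Pool.Agent.Lib.PS.KSM1

/-! Block KSM: the smoothed explicit formula inequality. -/

namespace Pool.Agent.Lib.PS

open Finset Real MeasureTheory Complex Filter Topology
open scoped Classical

theorem ksm_ev (c A ε δ W1 W2 W3 : ℝ) (hε : 0 < ε) (hδ : 0 < δ) (l1 : ℝ) :
    ∃ l0 : ℝ, ∀ l : ℝ, l0 ≤ l → l1 ≤ l ∧ 1 ≤ l ∧ 4 / δ ≤ l ∧ 32 / c ≤ l ∧
      W1 * (l ^ 2 * Real.exp (-(δ ^ 2 / 32 * l))) ≤ ε / 4 ∧ W2 / l ≤ ε / 8 ∧
      A / √l ≤ ε / 12 ∧ W3 / l ≤ ε / 8 := by
  have h1 : Tendsto (fun l : ℝ => W1 * (l ^ 2 * Real.exp (-(δ ^ 2 / 32 * l)))) atTop (𝓝 0) := by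
    have h := ((Real.tendsto_pow_mul_exp_neg_atTop_nhds_zero 2).comp
      (tendsto_id.const_mul_atTop (show 0 < δ ^ 2 / 32 by positivity))).const_mul
        (W1 / (δ ^ 2 / 32) ^ 2)
    rw [mul_zero] at h
    refine h.congr fun l => ?_
    simp only [Function.comp, id]
    field_simp
  have h2 : ∀ W : ℝ, Tendsto (fun l : ℝ => W / l) atTop (𝓝 0) := fun W =>
    tendsto_const_nhds.div_atTop tendsto_id
  have h3 : Tendsto (fun l : ℝ => A / √l) atTop (𝓝 0) :=
    tendsto_const_nhds.div_atTop Real.tendsto_sqrt_atTop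
  exact eventually_atTop.1 ((eventually_ge_atTop l1).and ((eventually_ge_atTop 1).and
    ((eventually_ge_atTop _).and ((eventually_ge_atTop _).and
    ((h1.eventually (ge_mem_nhds (by positivity))).and
    (((h2 W2).eventually (ge_mem_nhds (by positivity))).and
    ((h3.eventually (ge_mem_nhds (by positivity))).and
    ((h2 W3).eventually (ge_mem_nhds (by positivity))))))))))

theorem ksm_alg (D : Multiset ℂ) (F : ℂ → ℂ) (X Y l m : ℂ) (hl : l ≠ 0) :
    X / l - m * Y + (D.map fun z => F z).sum = 2 * π * (X / (2 * π * l) - m * (Y / (2 * π)) +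
      (D.map fun z => F z / (2 * π)).sum) := by
  rw [Multiset.sum_map_div]
  field_simp

theorem blk_KSM (hFACT : St_FACT) (hGS : St_GS) (hEF : St_EF) (hLDZ : St_LDZ) : St_KSM := by
  intro c A ε N hc hc2 hA hε
  obtain ⟨C, hC, hF⟩ := hFACT c hc hc2
  obtain ⟨δ, η, l1, hδ, hδc, hη, hF⟩ := hF (ε / (8 * A ^ 2)) (by positivity)
  obtain ⟨-, -, C0, hC0, hLS⟩ := hLDZ
  obtain ⟨hE1, hE2, hE3, hE4⟩ := hEF
  set e1 : ℝ := δ ^ 2 / (32 * (A + 1)) with he1
  have he0 : 0 < e1 := by positivity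
  have he2 : e1 * (A + 1) = δ ^ 2 / 32 := by rw [he1]; field_simp
  have he3 : e1 ≤ δ / 4 := by nlinarith
  have he4 : A * e1 + e1 ^ 2 ≤ δ ^ 2 / 32 := by nlinarith
  obtain ⟨l0, hl0⟩ := ksm_ev c A ε δ (2 * A ^ 3 * Real.exp (2 * A + 4) *
    (4 * (1 + N + C0) + 6 * (C * (1 / ε + 1)) + N)) (C * N * A ^ 2)
    (N * ((A ^ 2 + 10 * A * (A + 1)) * (16 / c))) hε hδ l1
  refine ⟨e1, η, l0, he0, hη, ?_⟩
  intro l hl a E m b T f lm mu D hLD hm0 hm1 hb0 hb3 hTF hPD hlm0 hlm1 hmu hN _ hD hnk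
  obtain ⟨k1, k2, k3, k4, k5, k6, k7, k8⟩ := hl0 l hl
  have hl' : 0 < l := by linarith
  have hlc : (l : ℂ) ≠ 0 := by exact_mod_cast hl'.ne'
  rw [div_le_iff₀ hδ] at k3
  rw [div_le_iff₀ hc] at k4
  obtain ⟨R, Z, G, hR1, hR2, hZ, hZc, hGd, hG, hG6⟩ := hF l k1 a E m b T (mu / l) hLD hb0 hb3
    (by rw [abs_div, abs_of_pos hl', div_le_iff₀ hl']; exact hmu)
  have pR1 := mul_le_mul_of_nonneg_right hR1 hl'.le
  have pR2 := mul_le_mul_of_nonneg_right hR2 hl'.le
  have pc := mul_le_mul_of_nonneg_right hc2 hl'.le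
  have pe := mul_le_mul_of_nonneg_right he3 hl'.le
  have pδ := mul_le_mul_of_nonneg_right hδc hl'.le
  have pe0 := mul_pos he0 hl'
  obtain ⟨hc1, hs1, hb1, hL1⟩ := ksm_h hA hTF
  set h : ℝ → ℝ := fun s => f |s| with hh
  obtain ⟨-, g2, g3, -, g5, g6, g7, g8, g9⟩ := hGS l A (A ^ 2) h hl' hA.le hc1 hs1 hb1
  have hsm : sm l f = gs l h := rfl
  set Kl : ℝ := 2 * A ^ 3 * Real.exp (2 * A + 4) * Real.exp (-(δ ^ 2 / 32 * l)) with hKl
  have hKl0 : 0 < Kl := by positivity
  set σ : ℝ := lm + 2 with hσ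
  set Y : ℝ := δ * l / 2 with hY
  have hY0 : 0 ≤ Y := by positivity
  have hPsi := ksm_psi_bd hA k2 g7 he4 hδ (show σ ≤ e1 * l + 2 by linarith)
  have hPsi' : ∀ x y : ℝ, 0 ≤ x → x ≤ σ → Y ≤ |y| → ‖Psi l h (x + y * I)‖ ≤ Kl :=
    fun x y h1 h2 h3 => (hPsi x y h1 h2 h3).trans (mul_le_of_le_one_right hKl0.le
      (Real.exp_le_one_iff.2 (by
        have : 0 ≤ 1 / (4 * l) * y ^ 2 := by positivity
        linarith)))
  set w : ℂ := lm - mu * I with hw
  have hwre : w.re = lm := by simp [hw]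
  set s0 : ℂ := 1 + 1 / l + ((mu / l : ℝ) : ℂ) * I with hs0
  set φ : ℂ → ℂ := fun z => 1 - z / l with hφ
  have hφi : Function.Injective φ := fun x y e => by
    simp only [hφ, sub_right_inj] at e
    exact (div_left_inj' hlc).1 e
  have hφs : ∀ ρ : ℂ, ∃ z, ρ = φ z := fun ρ => ⟨(1 - ρ) * l, by simp only [hφ]; field_simp; ring⟩
  have hφre : ∀ z, (φ z).re = 1 - z.re / l := fun z => by simp [hφ, div_ofReal_re]
  have hφ0 : ∀ z, ‖φ z - s0‖ = ‖z + 1 + mu * I‖ / l := fun z => by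
    rw [show φ z - s0 = -(z + 1 + mu * I) / l by simp only [hφ, hs0]; push_cast; field_simp; ring,
      norm_div, norm_neg, norm_real, Real.norm_of_nonneg hl'.le]
  have hD0 : ∀ z ∈ D, 0 ≤ z.re := fun z hz => by
    have h1 : ord E (φ z) ≠ 0 := by
      have := hD z
      have := Multiset.count_pos.2 hz
      unfold zo at *
      show ord E (1 - z / l) ≠ 0
      omega
    have h2 := apply_eq_zero_of_analyticOrderNatAt_ne_zero h1
    by_contra h3
    refine (hLD.ser (φ z) ?_).1 h2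
    rw [hφre]
    have := div_neg_of_neg_of_pos (not_le.1 h3) hl'
    linarith
  set Din := D.filter fun z => ‖φ z - s0‖ < R with hDin
  set D' := Din.map φ with hD'
  have hcount : ∀ z, D'.count (φ z) = if ‖φ z - s0‖ < R then D.count z else 0 := fun z => by
    rw [hD', Multiset.count_map_eq_count' φ Din hφi, hDin, Multiset.count_filter]
  have hD'Z : D' ≤ Z := Multiset.le_iff_count.2 fun ρ => by
    obtain ⟨z, rfl⟩ := hφs ρ
    rw [hcount, hZ]
    split_ifs
    · exact hD z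
    · rfl
  have hnk' : ∀ ρ ∈ Z - D', ρ.re ≤ 1 - (lm + ε) / l := fun ρ hρ => by
    obtain ⟨z, rfl⟩ := hφs ρ
    have h1 := Multiset.count_pos.2 hρ
    rw [Multiset.count_sub, hcount, hZ] at h1
    split_ifs at h1 with h2
    · rw [hφ0, div_lt_iff₀ hl'] at h2
      have h3 := (re_le_norm (z + 1 + mu * I)).trans h2.le
      have h4 := (abs_im_le_norm (z + 1 + mu * I)).trans h2.le
      simp only [add_re, one_re, mul_re, ofReal_re, I_re, mul_zero, ofReal_im, I_im, mul_one,
        sub_self, add_zero, add_im, one_im, mul_im] at h3 h4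
      have h5 := hnk z (by linarith) (h4.trans (by linarith)) (Nat.lt_of_sub_pos h1)
      rw [hφre]
      have := div_le_div_of_nonneg_right h5 hl'.le
      linarith
    · exact absurd h1 (lt_irrefl _)
  set sp : ℂ → ℂ := fun v => 1 + (v - w) / l with hsp
  have hspre : ∀ v, (sp v).re = 1 + (v.re - lm) / l := fun v => by
    simp [hsp, div_ofReal_re, hwre]
  have hspδ : ∀ v : ℂ, 0 ≤ v.re → v.re ≤ σ → |v.im| ≤ Y → ‖sp v - s0‖ ≤ δ := fun v h1 h2 h3 => by
    rw [show sp v - s0 = (v - lm - 1) / l by simp only [hsp, hs0, hw]; push_cast; field_simp; ring,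
      norm_div, norm_real, Real.norm_of_nonneg hl'.le, div_le_iff₀ hl']
    refine (norm_le_abs_re_add_abs_im _).trans ?_
    simp only [sub_re, ofReal_re, one_re, sub_im, ofReal_im, one_im, sub_zero]
    have h4 : |v.re - lm - 1| ≤ e1 * l + 1 := by
      rw [abs_le]
      constructor <;> linarith
    linarith
  have hball : ∀ v : ℂ, 0 ≤ v.re → v.re ≤ σ → |v.im| ≤ Y → sp v ∈ Metric.ball s0 (R / 2) :=
    fun v h1 h2 h3 => mem_ball_iff_norm.2 ((hspδ v h1 h2 h3).trans_lt (by linarith))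
  have hgap : ∀ v : ℂ, 0 ≤ v.re → ∀ ρ ∈ Z - D', ε / l ≤ (sp v - ρ).re := fun v h1 ρ hρ => by
    have h2 := hnk' ρ hρ
    have h3 : 0 ≤ v.re / l := by positivity
    rw [sub_re, hspre, sub_div]
    rw [add_div] at h2
    linarith
  have hεl : 0 < ε / l := by positivity
  set Rr : ℂ → ℂ := fun v => -(((Z - D').map fun ρ => 1 / (sp v - ρ)).sum + G (sp v)) / l with hRr
  have hRb : ∀ v : ℂ, 0 ≤ v.re → v.re ≤ σ → |v.im| ≤ Y → ‖Rr v‖ ≤ C * (1 / ε + 1) * l := by
    intro v h1 h2 h3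
    have h4 := ksm_msum_norm (Z - D') (fun ρ => 1 / (sp v - ρ)) (l / ε) fun ρ hρ => by
      rw [norm_div, norm_one, ← one_div_div ε l]
      exact one_div_le_one_div_of_le hεl ((hgap v h1 ρ hρ).trans (re_le_norm _))
    have h5 : ((Z - D').card : ℝ) ≤ C * l :=
      (Nat.cast_le.2 (Multiset.card_le_card tsub_le_self)).trans hZc
    have h6 := mul_le_mul_of_nonneg_right h5 (show 0 ≤ l / ε by positivity)
    simp only [hRr]
    rw [norm_div, norm_neg, norm_real, Real.norm_of_nonneg hl'.le, div_le_iff₀ hl']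
    refine (norm_add_le _ _).trans ((add_le_add (h4.trans h6) (hG _ (hball v h1 h2 h3)).1).trans ?_)
    have h7 : C * l ≤ C * l * l := le_mul_of_one_le_right (by positivity) k2
    have h8 : C * (1 / ε + 1) * l * l = C * l * (l / ε) + C * l * l := by ring
    linarith
  have hspd : Differentiable ℂ sp := by
    simp only [hsp]
    fun_prop
  have hFd : DifferentiableOn ℂ (fun v => Psi l h v * Rr v)
      {s | 0 ≤ s.re ∧ s.re ≤ σ ∧ |s.im| ≤ Y} := by
    refine DifferentiableOn.mul (Differentiable.differentiableOn (g6.mul (by fun_prop)))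
      (DifferentiableOn.div_const (DifferentiableOn.neg (DifferentiableOn.add ?_ ?_)) _)
    · refine ksm_msum_diff _ (fun ρ v => 1 / (sp v - ρ)) _ fun ρ hρ =>
        (differentiableOn_const _).div (hspd.sub_const ρ).differentiableOn fun v hv h0 => ?_
      have := hgap v hv.1 ρ hρ
      rw [h0, zero_re] at this
      linarith
    · exact hGd.comp hspd.differentiableOn fun v hv => hball v hv.1 hv.2.1 hv.2.2
  have hσ1 : 1 ≤ σ := by linarith
  have H4 := hE4 _ 0 σ Y (Kl * (C * (1 / ε + 1) * l)) (by linarith) hY0 hFd fun x h1 h2 => by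
    constructor
    · rw [norm_mul]
      exact mul_le_mul (hPsi' x Y h1 h2 (le_abs_self _))
        (hRb _ (by simpa using h1) (by simpa using h2) (by simp [abs_of_nonneg hY0]))
        (norm_nonneg _) hKl0.le
    · rw [norm_mul]
      refine mul_le_mul ?_
        (hRb _ (by simpa using h1) (by simpa using h2) (by simp [abs_of_nonneg hY0]))
        (norm_nonneg _) hKl0.le
      have := hPsi' x (-Y) h1 h2 (by rw [abs_neg]; exact le_abs_self _)
      simpa [sub_eq_add_neg] using this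
  -- the line `Re v = 0`
  set M0 : ℝ := b / 2 + ε / (8 * A ^ 2) + C * N / l with hM0
  have hcard : (Din.card : ℝ) ≤ N :=
    Nat.cast_le.2 ((Multiset.card_le_card (Multiset.filter_le _ _)).trans hN)
  have H0 := ksm_main (fun y => Psi l h ((0 : ℝ) + y * I)) (fun y => Rr ((0 : ℝ) + y * I))
    (M := M0) (s := gs l h 0) hY0 (by positivity) (g9 0 0).1 (ksm_psi_real hA hTF hPD)
    (by simpa using (g9 0 0).2)
    (hFd.continuousOn.comp (f := fun y : ℝ => ((0 : ℝ) : ℂ) + y * I) (by fun_prop) fun y hy =>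
      ⟨by simp, by simp; linarith, by simpa using abs_le.2 hy⟩) fun y hy => by
      have h1 : (((0 : ℝ) : ℂ) + y * I).re = 0 := by simp
      have h2 := hG6 (sp ((0 : ℝ) + y * I)) D'
        (hspδ _ h1.ge (by rw [h1]; linarith) (by simpa using hy)) hD'Z fun ρ hρ => by
          have := hgap _ h1.ge ρ hρ
          rw [sub_re] at this
          linarith
      rw [hD', Multiset.card_map] at h2
      simp only [hRr]
      rw [div_ofReal_re, neg_re, add_re, ksm_msum_re, div_le_iff₀ hl', hM0, add_mul,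
        div_mul_cancel₀ _ hl'.ne']
      have := mul_le_mul_of_nonneg_left hcard (show 0 ≤ C by linarith)
      linarith
  -- the line `Re v = σ`
  obtain ⟨i1, x1⟩ := hE1 l A l σ h a w hl' hl' hc1 hs1 hLD.bd (by linarith)
  obtain ⟨i2, x2⟩ := hE2 l A σ h w hl' hc1 hs1 (by linarith)
  have x3 : ∀ z ∈ Din, Integrable (fun y : ℝ => Psi l h (σ + y * I) / (σ + y * I - (w - z))) ∧
      (∫ y : ℝ, Psi l h (σ + y * I) / (σ + y * I - (w - z))) / (2 * π) = Lap (gs l h) (z - w) :=
    fun z hz => by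
      have h1 := hE2 l A σ h (w - z) hl' hc1 hs1 (by
        rw [sub_re]; linarith [hD0 z (Multiset.mem_of_mem_filter hz)])
      rwa [neg_sub] at h1
  obtain ⟨i3, x4⟩ := ksm_msum_int Din
    (fun z y => Psi l h (σ + y * I) / (σ + y * I - (w - z))) fun z hz => (x3 z hz).1
  set Rs : ℝ → ℂ := fun y => LSeries a (sp (σ + y * I)) / l - m / (σ + y * I - w) +
    (Din.map fun z => 1 / (σ + y * I - (w - z))).sum with hRs
  have eRs : (fun y : ℝ => Psi l h (σ + y * I) * Rs y) = fun y : ℝ =>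
      Psi l h (σ + y * I) * LSeries a (1 + (σ + y * I - w) / l) / l -
        m * (Psi l h (σ + y * I) / (σ + y * I - w)) +
        (Din.map fun z => Psi l h (σ + y * I) / (σ + y * I - (w - z))).sum := by
    ext y
    simp only [hRs, hsp, mul_add, mul_sub, ← Multiset.sum_map_mul_left, mul_one_div]
    ring
  have i12 : Integrable fun y : ℝ => Psi l h (σ + y * I) * LSeries a (1 + (σ + y * I - w) / l) / l -
      m * (Psi l h (σ + y * I) / (σ + y * I - w)) := (i1.div_const _).sub (i2.const_mul _)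
  have iRs : Integrable fun y : ℝ => Psi l h (σ + y * I) * Rs y := by
    rw [eRs]
    exact i12.add i3
  have xRs : ∫ y : ℝ, Psi l h (σ + y * I) * Rs y = 2 * π * (Ks a (gs l h) l w -
      m * Lap (gs l h) (-w) + (Din.map fun z => Lap (gs l h) (z - w)).sum) := by
    rw [eRs, integral_add i12 i3,
      integral_sub (i1.div_const _) (i2.const_mul _), integral_div, integral_const_mul, x4, x1,
      ← x2, ← Multiset.map_congr rfl fun z hz => (x3 z hz).2]
    exact ksm_alg _ _ _ _ _ _ hlc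
  have hre : ∀ y : ℝ, ((σ : ℂ) + y * I).re = σ := fun y => by simp
  have hsp2 : ∀ y : ℝ, (sp (σ + y * I)).re = 1 + 2 / l := fun y => by
    rw [hspre, hre, hσ]; ring
  have h2l : 0 < 2 / l := by positivity
  have HT := ksm_tail _ iRs hY0 (K := Kl * (1 + N + C0)) (by positivity) k2 fun y hy => by
    have h1 : ‖LSeries a (sp (σ + y * I)) / l‖ ≤ 1 / 2 + C0 := by
      have h2 := (hLS a _ hLD.bd (by rw [hsp2 y]; linarith)).2
      rw [hsp2, add_sub_cancel_left, one_div_div] at h2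
      rw [norm_div, norm_real, Real.norm_of_nonneg hl'.le, div_le_iff₀ hl']
      linarith [le_mul_of_one_le_right hC0 k2]
    have h2 : ∀ u : ℂ, u.re ≤ lm → ‖1 / (σ + y * I - u)‖ ≤ 1 / 2 := fun u hu => by
      rw [norm_div, norm_one]
      refine one_div_le_one_div_of_le (by norm_num) (le_trans ?_ (re_le_norm _))
      rw [sub_re, hre]
      linarith
    have h3 : ‖(m : ℂ) / (σ + y * I - w)‖ ≤ 1 / 2 := by
      rw [← mul_one_div, norm_mul, norm_real, Real.norm_of_nonneg hm0]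
      exact (mul_le_of_le_one_left (norm_nonneg _) hm1).trans (h2 w hwre.le)
    have h4 := ksm_msum_norm Din (fun z => 1 / (σ + y * I - (w - z))) (1 / 2) fun z hz =>
      h2 _ (by rw [sub_re]; linarith [hD0 z (Multiset.mem_of_mem_filter hz)])
    have h5 : ‖Rs y‖ ≤ 1 + N + C0 := by
      refine (norm_add_le _ _).trans ((add_le_add (norm_sub_le _ _) h4).trans ?_)
      linarith [(Nat.cast_nonneg N : (0 : ℝ) ≤ N)]
    rw [norm_mul, mul_right_comm]
    exact mul_le_mul (hPsi σ y (by linarith) le_rfl hy) h5 (norm_nonneg _) (by positivity)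
  have HM : ∫ y in (-Y)..Y, Psi l h (σ + y * I) * Rs y =
      ∫ y in (-Y)..Y, Psi l h (σ + y * I) * Rr (σ + y * I) := by
    refine intervalIntegral.integral_congr fun y hy => ?_
    rw [Set.uIcc_of_le (by linarith)] at hy
    obtain ⟨h1, h2⟩ := hLD.ser (sp (σ + y * I)) (by rw [hsp2]; linarith)
    have h3 := (hG _ (hball _ (by rw [hre]; linarith) (hre y).le
      (by simpa using abs_le.2 hy))).2 h1
    have h4 : (D'.map fun ρ => 1 / (sp (σ + y * I) - ρ)).sum =
        l * (Din.map fun z => 1 / (σ + y * I - (w - z))).sum := by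
      rw [hD', Multiset.map_map, ← Multiset.sum_map_mul_left]
      congr 2
      ext z
      simp only [Function.comp, hsp, hφ]
      rw [show 1 + (σ + y * I - w) / l - (1 - z / l) = (σ + y * I - (w - z)) / (l : ℂ) by ring,
        one_div_div, mul_one_div]
    rw [← tsub_add_cancel_of_le hD'Z, Multiset.map_add, Multiset.sum_add, h4] at h3
    simp only [hRs, hRr]
    congr 1
    rw [h2, h3, show sp (σ + y * I) - 1 = (σ + y * I - w) / l by simp only [hsp]; ring,
      div_div_eq_mul_div]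
    field_simp
    ring
  -- kept zeros outside the disc
  have HO : ∀ z ∈ D.filter fun z => ¬ ‖φ z - s0‖ < R, ‖Lap (gs l h) (z - w)‖ ≤
      Kl + (A ^ 2 + 10 * A * (A + 1)) * (16 / c) / l := fun z hz => by
    obtain ⟨h1, h2⟩ := Multiset.mem_filter.1 hz
    rw [not_lt, hφ0, le_div_iff₀ hl'] at h2
    have h3 : c * l / 16 ≤ ‖z - w‖ := by
      have h4 := norm_add_le (z - w) ((lm + 1 : ℝ) : ℂ)
      rw [norm_real, Real.norm_of_nonneg (by linarith),
        show z - w + ((lm + 1 : ℝ) : ℂ) = z + 1 + mu * I by rw [hw]; push_cast; ring] at h4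
      linarith
    have hcl : 0 < c * l / 16 := by positivity
    have h5 : ∀ ζ : ℂ, 0 ≤ ζ.re → c * l / 16 ≤ ‖ζ‖ → ‖Lap (gs l h) ζ‖ ≤
        (A ^ 2 + 10 * A * (A + 1)) * (16 / c) / l := fun ζ h6 h7 => by
      refine (hE3 l A (A ^ 2) A h ζ k2 hA.le hc1 hs1 hb1 hL1 h6
        (norm_pos_iff.1 (hcl.trans_le h7))).trans
        ((div_le_div_of_nonneg_left (by positivity) hcl h7).trans (le_of_eq ?_))
      field_simp
    rcases le_total 0 (z - w).re with h6 | h6
    · linarith [h5 _ h6 h3]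
    · have h7 := ksm_lap l f (z - w) (g8 _).1
      rw [hsm, (g8 _).2] at h7
      have h8 : lm ≤ e1 * l := hlm1
      have h9 : -lm ≤ (z - w).re := by rw [sub_re, hwre]; linarith [hD0 z h1]
      have h10 := hPsi' (-(z - w)).re (-(z - w)).im (by rw [neg_re]; linarith)
        (by rw [neg_re]; linarith) (by
          have := norm_le_abs_re_add_abs_im (z - w)
          rw [abs_of_nonpos h6] at this
          rw [neg_im, abs_neg]
          linarith)
      rw [re_add_im] at h10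
      rw [eq_sub_of_add_eq h7.symm]
      exact (norm_sub_le _ _).trans (add_le_add h10
        (h5 _ (by rw [neg_re]; linarith) (by rwa [norm_neg])))
  have HO' := (re_le_norm _).trans (ksm_msum_norm _ _ _ HO)
  rw [ksm_msum_re] at HO'
  have hcard' : ((D.filter fun z => ¬ ‖φ z - s0‖ < R).card : ℝ) ≤ N :=
    Nat.cast_le.2 ((Multiset.card_le_card (Multiset.filter_le _ _)).trans hN)
  have HO2 := HO'.trans (mul_le_mul_of_nonneg_right hcard' (by positivity))
  have eD : (D.map fun z => (Lap (gs l h) (z - w)).re).sum =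
      (Din.map fun z => (Lap (gs l h) (z - w)).re).sum +
      ((D.filter fun z => ¬ ‖φ z - s0‖ < R).map fun z => (Lap (gs l h) (z - w)).re).sum := by
    rw [← Multiset.sum_add, ← Multiset.map_add, Multiset.filter_add_not]
  rw [xRs, HM] at HT
  have T1 := (re_le_norm _).trans HT
  have T2 := (re_le_norm _).trans H4
  rw [sub_re] at T1 T2
  rw [show (2 * π : ℂ) = ((2 * π : ℝ) : ℂ) by push_cast; ring, re_ofReal_mul, add_re, sub_re,
    re_ofReal_mul, ksm_msum_re] at T1
  have s0' : 0 ≤ gs l h 0 := g3 (fun s => hTF.1 _) 0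
  have s1 : gs l h 0 ≤ A ^ 2 := (le_abs_self _).trans (g2 0)
  have s2 : gs l h 0 ≤ f 0 + ε / 12 := by
    have := (abs_le.1 ((g5 A hL1).2 0)).2
    simp only [hh, abs_zero] at this
    linarith
  have s3 : M0 * gs l h 0 ≤ b / 2 * f 0 + 3 * ε / 8 := by
    have a1 := mul_le_mul_of_nonneg_left s2 (show 0 ≤ b / 2 by linarith)
    have a2 := mul_le_mul_of_nonneg_left s1 (show 0 ≤ ε / (8 * A ^ 2) + C * N / l by positivity)
    have a3 : (ε / (8 * A ^ 2) + C * N / l) * A ^ 2 = ε / 8 + C * N * A ^ 2 / l := by field_simp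
    have a4 := mul_le_mul_of_nonneg_right hb3 hε.le
    rw [hM0]
    linarith
  have s4 : Kl * (1 + N + C0) * (4 * l) + 2 * (σ - 0) * (Kl * (C * (1 / ε + 1) * l)) +
      N * Kl ≤ ε / 4 := by
    refine le_trans ?_ k5
    have a1 : l ≤ l ^ 2 := le_self_pow₀ k2 two_ne_zero
    have a2 : σ ≤ 3 * l := by linarith
    have a3 : Kl * (1 + N + C0) * (4 * l) ≤ Kl * (1 + N + C0) * (4 * l ^ 2) := by gcongr
    have a4 : 2 * (σ - 0) * (Kl * (C * (1 / ε + 1) * l)) ≤
        2 * (3 * l) * (Kl * (C * (1 / ε + 1) * l)) := by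
      rw [sub_zero]
      gcongr
    have a5 : N * Kl ≤ N * Kl * l ^ 2 := le_mul_of_one_le_right (by positivity) (k2.trans a1)
    refine (add_le_add (add_le_add a3 a4) a5).trans (le_of_eq ?_)
    rw [hKl]
    ring
  have s5 : 0 ≤ Kl * (1 + N + C0) * (4 * l) + 2 * (σ - 0) * (Kl * (C * (1 / ε + 1) * l)) := by
    rw [sub_zero]
    positivity
  have s6 := mul_le_mul_of_nonneg_right (show (1 : ℝ) ≤ 2 * π by linarith [Real.pi_gt_three]) s5
  have s7 : N * ((A ^ 2 + 10 * A * (A + 1)) * (16 / c) / l) ≤ ε / 8 := by rwa [← mul_div_assoc]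
  have s8 : (Ks a (gs l h) l w).re - m * (Lap (gs l h) (-w)).re +
      (Din.map fun z => (Lap (gs l h) (z - w)).re).sum ≤ M0 * gs l h 0 +
      (Kl * (1 + N + C0) * (4 * l) + 2 * (σ - 0) * (Kl * (C * (1 / ε + 1) * l))) := by
    refine le_of_mul_le_mul_left ?_ (show 0 < 2 * π by positivity)
    linarith
  rw [hsm, eD]
  linarith

end Pool.Agent.Lib.PS
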