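import Pool.Agent.Lib.PS.Blue

namespace Pool.Agent.Lib.PS

open Finset Real MeasureTheory Complex Filter Topology
open scoped ArithmeticFunction.vonMangoldt Classical

lemma kun_h {A : ℝ} (hA : 0 < A) {f : ℝ → ℝ} (hf : TF A f) :
    (∀ s t, |f (|s|) - f (|t|)| ≤ A * |s - t|) ∧ Continuous (fun s => f |s|) ∧
      (∀ s, A ≤ |s| → f |s| = 0) ∧ ∀ s, |f (|s|)| ≤ A ^ 2 := by
  have h1 : ∀ s t, |f (|s|) - f (|t|)| ≤ A * |s - t| := fun s t =>
    (hf.2.1 _ _ (abs_nonneg s) (abs_nonneg t)).trans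
      (mul_le_mul_of_nonneg_left (abs_abs_sub_abs_le_abs_sub s t) hA.le)
  refine ⟨h1, ?_, fun s hs => hf.2.2 _ hs, fun s => ?_⟩
  · exact (LipschitzWith.of_dist_le_mul (K := ⟨A, hA.le⟩) fun s t => h1 s t).continuous
  · rcases le_total A |s| with h | h
    · rw [hf.2.2 _ h, abs_zero]; positivity
    · have := hf.2.1 _ _ (abs_nonneg s) hA.le
      rw [hf.2.2 A le_rfl, sub_zero, abs_sub_comm, abs_of_nonneg (sub_nonneg.2 h)] at this
      nlinarith [abs_nonneg s]

lemma kun_pt (hG : St_GS) {A L : ℝ} (hA : 0 < A) (hL : 0 ≤ L) :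
    ∃ K l0 : ℝ, 0 ≤ K ∧ ∀ l : ℝ, l0 ≤ l → ∀ f : ℝ → ℝ, TF A f → ∀ t : ℝ, 0 ≤ t →
      |f t - sm l f t| * Real.exp (L * t) ≤ K / √l * Real.exp (-t) ∧
      (A + 1 ≤ t → |f t - sm l f t| * Real.exp (L * t)
        ≤ 2 * A ^ 2 * Real.exp (-(l * t / (4 * (A + 1))))) := by
  refine ⟨A * Real.exp ((L + 1) * (A + 1)) + 16 * A ^ 2 * (A + 1), 1 + 8 * (A + 1) * (L + 1),
    by positivity, fun l hl f hf t ht => ?_⟩
  obtain ⟨h1, h2, h3, h4⟩ := kun_h hA hf
  have hl1 : 1 ≤ l := le_trans (le_add_of_nonneg_right (by positivity)) hl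
  have hl0 : 0 < l := by linarith
  have hs : 0 < √l := Real.sqrt_pos.2 hl0
  obtain ⟨-, -, -, g4, g5, -⟩ := hG l A (A ^ 2) (fun s => f |s|) hl0 hA.le h2 h3 h4
  have hA1 : 0 < A + 1 := by linarith
  have key : A + 1 ≤ t → |f t - sm l f t| * Real.exp (L * t)
      ≤ 2 * A ^ 2 * Real.exp (-(l * t / (4 * (A + 1)))) := fun h => by
    rw [hf.2.2 t (by linarith), zero_sub, abs_neg]
    have := g4 t (t - A) (by linarith) fun s hs => h3 s (by
      have := (abs_lt.1 hs).2
      exact le_trans (by linarith) (le_abs_self s))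
    refine (mul_le_mul_of_nonneg_right this (Real.exp_pos _).le).trans ?_
    rw [mul_assoc, ← Real.exp_add]
    refine mul_le_mul_of_nonneg_left (Real.exp_le_exp.2 ?_) (by positivity)
    have e1 : t ≤ (A + 1) * (t - A) ^ 2 := by nlinarith [mul_nonneg hA.le (sub_nonneg.2 h)]
    have e2 : 4 * (A + 1) * L ≤ l := by nlinarith
    have e3 : l * t / (4 * (A + 1)) + L * t ≤ l * (t - A) ^ 2 / 2 := by
      rw [div_add' _ _ _ (by positivity), div_le_div_iff₀ (by positivity) (by positivity)]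
      nlinarith [mul_le_mul_of_nonneg_left e1 hl0.le, mul_le_mul_of_nonneg_right e2 ht]
    linarith
  refine ⟨?_, key⟩
  rw [add_div, add_mul]
  rcases le_total t (A + 1) with h | h
  · refine le_add_of_le_of_nonneg ?_ (by positivity)
    have := (g5 A h1).2 t
    rw [abs_of_nonneg ht, abs_sub_comm] at this
    refine (mul_le_mul_of_nonneg_right this (Real.exp_pos _).le).trans ?_
    rw [mul_div_right_comm, mul_assoc, ← Real.exp_add]
    refine mul_le_mul_of_nonneg_left (Real.exp_le_exp.2 ?_) (by positivity)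
    nlinarith [mul_le_mul_of_nonneg_left h hL]
  · refine le_add_of_nonneg_of_le (by positivity) ((key h).trans ?_)
    have e1 : t + l / (8 * (A + 1)) ≤ l * t / (4 * (A + 1)) := by
      rw [add_div' _ _ _ (by positivity), div_le_div_iff₀ (by positivity) (by positivity)]
      have : 8 * (A + 1) ≤ l := by nlinarith
      have h5 : 1 ≤ t := by linarith
      nlinarith [mul_le_mul_of_nonneg_right this ht, mul_le_mul_of_nonneg_left h5 hl0.le]
    have e2 : Real.exp (-(l / (8 * (A + 1)))) ≤ 8 * (A + 1) / √l := by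
      rw [Real.exp_neg, inv_le_comm₀ (Real.exp_pos _) (by positivity), inv_div]
      refine le_trans ?_ (Real.add_one_le_exp _)
      have : √l ≤ l := by
        rw [Real.sqrt_le_left hl0.le]; nlinarith
      have := div_le_div_of_nonneg_right this (by positivity : 0 ≤ 8 * (A + 1))
      linarith
    calc 2 * A ^ 2 * Real.exp (-(l * t / (4 * (A + 1))))
        ≤ 2 * A ^ 2 * (Real.exp (-(l / (8 * (A + 1)))) * Real.exp (-t)) := by
          rw [← Real.exp_add]
          exact mul_le_mul_of_nonneg_left (Real.exp_le_exp.2 (by linarith)) (by positivity)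
      _ ≤ 2 * A ^ 2 * (8 * (A + 1) / √l * Real.exp (-t)) := by gcongr
      _ = _ := by ring

lemma kun_lap (hG : St_GS) {A L τ l : ℝ} (hA : 0 < A) (hl : 0 < l) {f : ℝ → ℝ} (hf : TF A f)
    (h : ∀ t : ℝ, 0 ≤ t → |f t - sm l f t| * Real.exp (L * t) ≤ τ * Real.exp (-t))
    {z : ℂ} (hz : -L ≤ z.re) : ‖Lap f z - Lap (sm l f) z‖ ≤ τ := by
  obtain ⟨h1, h2, h3, h4⟩ := kun_h hA hf
  obtain ⟨-, -, -, -, -, -, -, g8, -⟩ := hG l A (A ^ 2) (fun s => f |s|) hl hA.le h2 h3 h4
  have i1 : IntegrableOn (fun t : ℝ => (f t : ℂ) * cexp (-(z * t))) (Set.Ioi 0) := by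
    have : Integrable fun t : ℝ => ((f |t| : ℝ) : ℂ) * cexp (-(z * t)) := by
      refine Continuous.integrable_of_hasCompactSupport
        ((Complex.continuous_ofReal.comp h2).mul (by fun_prop)) ?_
      refine HasCompactSupport.intro (isCompact_Icc (a := -A) (b := A)) fun t ht => ?_
      rw [h3 t (by
        by_contra hc
        exact ht ⟨(abs_lt.1 (not_le.1 hc)).1.le, (abs_lt.1 (not_le.1 hc)).2.le⟩)]
      simp
    refine this.integrableOn.congr_fun (fun t ht => ?_) measurableSet_Ioi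
    simp only [abs_of_pos (Set.mem_Ioi.1 ht)]
  have i2 : IntegrableOn (fun t : ℝ => (sm l f t : ℂ) * cexp (-(z * t))) (Set.Ioi 0) := by
    have := (g8 (-z)).1
    simp only [neg_mul] at this
    exact this.integrableOn
  rw [Lap, Lap, ← integral_sub i1 i2]
  have i3 : IntegrableOn (fun t : ℝ => τ * Real.exp (-t)) (Set.Ioi 0) :=
    (integrableOn_exp_neg_Ioi 0).const_mul τ
  refine (norm_integral_le_of_norm_le i3 ?_).trans ?_
  · refine (ae_restrict_iff' measurableSet_Ioi).2 (ae_of_all _ fun t ht => ?_)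
    have ht : 0 ≤ t := le_of_lt ht
    rw [← sub_mul, norm_mul, ← Complex.ofReal_sub, Complex.norm_real, Complex.norm_exp]
    refine le_trans (mul_le_mul_of_nonneg_left (Real.exp_le_exp.2 ?_) (norm_nonneg _)) (h t ht)
    simp only [neg_re, mul_re, ofReal_re, ofReal_im, mul_zero, sub_zero]
    nlinarith
  · rw [integral_const_mul, integral_exp_neg_Ioi_zero, mul_one]

lemma kun_ks (hM : St_MERT) {A : ℝ} (hA : 0 < A) : ∃ C : ℝ, 0 ≤ C ∧ ∀ (L τ l : ℝ) (f : ℝ → ℝ)
    (a : ℕ → ℂ) (w : ℂ), 1 ≤ l → 0 ≤ τ → TF A f → (∀ n, ‖a n‖ ≤ Λ n) → w.re ≤ L →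
    (∀ t : ℝ, 0 ≤ t → |f t - sm l f t| * Real.exp (L * t) ≤ τ * Real.exp (-t) ∧
      (A + 1 ≤ t → |f t - sm l f t| * Real.exp (L * t)
        ≤ 2 * A ^ 2 * Real.exp (-(l * t / (4 * (A + 1)))))) →
    ‖Ks a f l w - Ks a (sm l f) l w‖ ≤ C * τ + C / l := by
  obtain ⟨⟨C, hC⟩, -⟩ := hM
  have hC0 : 0 ≤ C := (abs_nonneg _).trans (hC 1 le_rfl)
  set δ : ℝ := 1 / (8 * (A + 1)) with hδ
  have hδ0 : 0 < δ := by positivity
  have hS : Summable fun n : ℕ => 2 * A ^ 2 / δ * (n : ℝ) ^ (-(1 + δ)) :=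
    (Real.summable_nat_rpow.2 (by linarith)).mul_left _
  set S := ∑' n : ℕ, 2 * A ^ 2 / δ * (n : ℝ) ^ (-(1 + δ))
  have hS0 : 0 ≤ S := tsum_nonneg fun n => by positivity
  refine ⟨A + 1 + C + S, by positivity, fun L τ l f a w hl hτ hf ha hw h => ?_⟩
  have hl0 : 0 < l := by linarith
  set Y := ⌊Real.exp ((A + 1) * l)⌋₊
  have hY1 : 1 ≤ Y := Nat.le_floor (by
    rw [Nat.cast_one]; exact Real.one_le_exp (by positivity))
  have hbig : ∀ n : ℕ, n ≠ 0 → n ∉ Icc 1 Y → A + 1 ≤ Real.log n / l := fun n hn hY => by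
    have h1 : Y < n := by
      rw [Finset.mem_Icc, not_and, not_le] at hY
      exact hY (Nat.one_le_iff_ne_zero.2 hn)
    rw [le_div_iff₀ hl0, Real.le_log_iff_exp_le (Nat.cast_pos.2 (Nat.pos_of_ne_zero hn))]
    exact (Nat.lt_of_floor_lt h1).le
  let F : (ℝ → ℝ) → ℕ → ℂ := fun g n =>
    a n / n * (g (Real.log n / l) : ℂ) * cexp (w * ((Real.log n / l : ℝ) : ℂ))
  have hF : Summable (F f) := by
    refine summable_of_ne_finset_zero (s := Icc 1 Y) fun n hn => ?_
    rcases eq_or_ne n 0 with rfl | h0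
    · simp [F]
    · simp only [F]
      rw [hf.2.2 _ (by linarith [hbig n h0 hn])]
      simp
  have hsum : HasSum (fun n : ℕ => (if n ∈ Icc 1 Y then τ * (Λ n / n) else 0)
      + 2 * A ^ 2 / δ * (n : ℝ) ^ (-(1 + δ))) (τ * ∑ n ∈ Icc 1 Y, Λ n / n + S) := by
    refine HasSum.add ?_ hS.hasSum
    rw [Finset.mul_sum, ← Finset.sum_congr rfl fun n hn => if_pos hn]
    exact hasSum_sum_of_ne_finset_zero fun n hn => if_neg hn
  have hb : ∀ n : ℕ, ‖F f n - F (sm l f) n‖ ≤ (if n ∈ Icc 1 Y then τ * (Λ n / n) else 0)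
      + 2 * A ^ 2 / δ * (n : ℝ) ^ (-(1 + δ)) := fun n => by
    rcases eq_or_ne n 0 with rfl | h0
    · simp [F]
      positivity
    have hn : (0 : ℝ) < n := Nat.cast_pos.2 (Nat.pos_of_ne_zero h0)
    have ht : 0 ≤ Real.log n / l := div_nonneg (Real.log_natCast_nonneg n) hl0.le
    have h1 : ‖F f n - F (sm l f) n‖ ≤ Λ n / n * (|f (Real.log n / l) - sm l f (Real.log n / l)|
        * Real.exp (L * (Real.log n / l))) := by
      simp only [F]
      rw [← sub_mul, ← mul_sub, norm_mul, norm_mul, norm_div, ← Complex.ofReal_sub,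
        Complex.norm_real, Complex.norm_exp, Complex.norm_natCast, mul_assoc, Real.norm_eq_abs]
      have : (w * ((Real.log n / l : ℝ) : ℂ)).re ≤ L * (Real.log n / l) := by
        rw [Complex.re_mul_ofReal]; exact mul_le_mul_of_nonneg_right hw ht
      gcongr
      exact ha n
    have hΛ : 0 ≤ Λ n / n := div_nonneg ArithmeticFunction.vonMangoldt_nonneg hn.le
    refine h1.trans ?_
    split_ifs with hY
    · refine le_add_of_le_of_nonneg ?_ (by positivity)
      rw [mul_comm τ]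
      refine mul_le_mul_of_nonneg_left ((h _ ht).1.trans ?_) hΛ
      exact mul_le_of_le_one_right hτ (Real.exp_le_one_iff.2 (by linarith))
    · rw [zero_add]
      refine (mul_le_mul_of_nonneg_left ((h _ ht).2 (hbig n h0 hY)) hΛ).trans ?_
      have e1 : Real.exp (-(l * (Real.log n / l) / (4 * (A + 1)))) = (n : ℝ) ^ (-(2 * δ)) := by
        rw [Real.rpow_def_of_pos hn, hδ]
        congr 1
        field_simp
        ring
      have e2 : Λ n ≤ (n : ℝ) ^ δ / δ :=
        ArithmeticFunction.vonMangoldt_le_log.trans (Real.log_le_rpow_div hn.le hδ0)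
      have e3 : (n : ℝ) ^ (-(1 + δ)) = (n : ℝ) ^ δ / n * (n : ℝ) ^ (-(2 * δ)) := by
        rw [← Real.rpow_sub_one hn.ne', ← Real.rpow_add hn]
        congr 1
        ring
      rw [e1, e3]
      calc Λ n / n * (2 * A ^ 2 * (n : ℝ) ^ (-(2 * δ)))
          ≤ (n : ℝ) ^ δ / δ / n * (2 * A ^ 2 * (n : ℝ) ^ (-(2 * δ))) := by gcongr
        _ = _ := by ring
  have hD : Summable fun n => F f n - F (sm l f) n := Summable.of_norm_bounded hsum.summable hb
  have hG : Summable (F (sm l f)) := by simpa using hF.sub hD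
  have e : Ks a f l w - Ks a (sm l f) l w = (∑' n, (F f n - F (sm l f) n)) / l := by
    rw [hF.tsum_sub hG, sub_div]; rfl
  rw [e, norm_div, Complex.norm_real, Real.norm_eq_abs, abs_of_pos hl0, div_le_iff₀ hl0]
  refine (tsum_of_norm_bounded hsum hb).trans ?_
  have h2 : Real.log Y ≤ (A + 1) * l := by
    rw [Real.log_le_iff_le_exp (Nat.cast_pos.2 hY1)]
    exact Nat.floor_le (Real.exp_pos _).le
  have h3 : ∑ n ∈ Icc 1 Y, Λ n / n ≤ (A + 1 + C + S) * l := by
    have := (abs_le.1 (hC Y hY1)).2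
    nlinarith
  rw [add_mul, div_mul_cancel₀ _ hl0.ne']
  nlinarith [mul_le_mul_of_nonneg_left h3 hτ]

theorem blk_KUN (hK : St_KSM) (hG : St_GS) (hM : St_MERT) : St_KUN := by
  intro c A Λm ε N hc hc2 hA hε
  obtain ⟨e1, η, l1, he1, hη, hK⟩ := hK c A (ε / 2) N hc hc2 hA (half_pos hε)
  obtain ⟨K, l2, hK0, hpt⟩ := kun_pt hG hA (le_max_right Λm 0)
  obtain ⟨C, hC0, hks⟩ := kun_ks hM hA
  set M := C * K + C + (N + 1) * K
  have hM0 : 0 ≤ M := by positivity
  refine ⟨η, max (max l1 l2) (max (max 1 (Λm / e1)) ((2 * M / ε) ^ 2)), hη, ?_⟩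
  intro l hl a E m b T f lm mu D hLD hm0 hm1 hb0 hb3 hf hPD hlm1 hlm hmu hD hDc hDz hsep
  simp only [max_le_iff] at hl
  obtain ⟨⟨hl1, hl2⟩, ⟨hl3, hl4⟩, hl5⟩ := hl
  have hl0 : 0 < l := by linarith
  have hs : 0 < √l := Real.sqrt_pos.2 hl0
  have h1 := hK l hl1 a E m b T f lm mu D hLD hm0 hm1 hb0 hb3 hf hPD hlm1
    (hlm.trans (by rwa [div_le_iff₀' he1] at hl4)) hmu hD hDc hDz
    fun z h1 h2 h3 => by linarith [hsep z h1 h2 h3]
  have hp := hpt l hl2 f hf
  have hw : (lm - mu * I : ℂ).re = lm := by simp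
  have hlm' : lm ≤ max Λm 0 := hlm.trans (le_max_left _ _)
  have hτ : 0 ≤ K / √l := by positivity
  have h2 := hks _ _ l f a (lm - mu * I) hl3 hτ hf hLD.bd (hw.trans_le hlm') hp
  have hlap : ∀ z : ℂ, 0 ≤ z.re → |(Lap f (z - (lm - mu * I))).re
      - (Lap (sm l f) (z - (lm - mu * I))).re| ≤ K / √l := fun z hz => by
    rw [← sub_re]
    refine (abs_re_le_norm _).trans (kun_lap hG hA hl0 hf (fun t ht => (hp t ht).1) ?_)
    rw [sub_re, hw]; linarith
  have h3 := hlap 0 le_rfl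
  rw [zero_sub] at h3
  have hD0 : ∀ z ∈ D, 0 ≤ z.re := fun z hz => by
    by_contra hn
    have h4 : 1 < (1 - z / l : ℂ).re := by
      rw [sub_re, one_re, div_ofReal_re]
      linarith [div_neg_of_neg_of_pos (not_le.1 hn) hl0]
    have h5 := hDz z
    rw [zo, ord, analyticOrderNatAt, analyticOrderAt_eq_zero.2 (Or.inr (hLD.ser _ h4).1)] at h5
    exact absurd (Multiset.one_le_count_iff_mem.2 hz) (by simpa using h5)
  have h4 : (D.map fun z => (Lap f (z - (lm - mu * I))).re).sum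
      ≤ (D.map fun z => (Lap (sm l f) (z - (lm - mu * I))).re).sum + N * (K / √l) := by
    refine (Multiset.sum_map_le_sum_map _
      (fun z => (Lap (sm l f) (z - (lm - mu * I))).re + K / √l) fun z hz => ?_).trans ?_
    · linarith [(abs_le.1 (hlap z (hD0 z hz))).2]
    · rw [Multiset.sum_map_add, Multiset.map_const', Multiset.sum_replicate, nsmul_eq_mul]
      gcongr
  have h5 : (Ks a f l (lm - mu * I)).re - (Ks a (sm l f) l (lm - mu * I)).re
      ≤ C * (K / √l) + C / l := by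
    rw [← sub_re]; exact (re_le_norm _).trans h2
  have h6 : C / l ≤ C / √l := by
    refine div_le_div_of_nonneg_left hC0 hs ?_
    rw [Real.sqrt_le_left hl0.le]; nlinarith
  have h7 : M / √l ≤ ε / 2 := by
    have : 2 * M / ε ≤ √l := Real.le_sqrt_of_sq_le hl5
    rw [div_le_iff₀ hε] at this
    rw [div_le_iff₀ hs]; linarith
  have h8 : M / √l = C * (K / √l) + C / √l + N * (K / √l) + K / √l := by
    simp only [M]; ring
  have h9 : m * (Lap (sm l f) (-(lm - mu * I))).re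
      ≤ m * (Lap f (-(lm - mu * I))).re + K / √l := by
    nlinarith [mul_le_mul_of_nonneg_left (abs_le.1 h3).1 hm0, mul_le_mul_of_nonneg_right hm1 hτ]
  linarith

end Pool.Agent.Lib.PS
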