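import Pool.Agent.Lib.PS.Blue
import Pool.Agent.Lib.MP_fb430f_co.Circle

/-! Block LARGE: characters whose small part has large conductor contribute little. -/

namespace Pool.Agent.Lib.PS

open Finset Real Complex Filter MeasureTheory
open scoped Classical

lemma large_tau {ε : ℝ} (hε : 0 < ε) :
    ∃ C : ℝ, 0 < C ∧ ∀ n : ℕ, n ≠ 0 → (n.divisors.card : ℝ) ≤ C * (n : ℝ) ^ ε := by
  obtain ⟨C, hC, h⟩ := Pool.Agent.Lib.MP_fb430f_co.div_bound hε
  refine ⟨C, hC, fun n hn => le_trans ?_ (h n hn)⟩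
  rw [Nat.card_divisors hn]
  exact_mod_cast Finset.prod_le_prod' fun p _ => by omega

lemma large_sec {A B : Type*} (S : Finset A) (T : Finset B) (φ : B → A) (f : A → ℝ) (g : B → ℝ)
    (hg : ∀ t ∈ T, 0 ≤ g t) (h : ∀ x ∈ S, f x ≤ 0 ∨ ∃ t ∈ T, φ t = x ∧ f x ≤ g t) :
    ∑ x ∈ S, f x ≤ ∑ t ∈ T, g t := by
  calc ∑ x ∈ S, f x ≤ ∑ x ∈ S, ∑ t ∈ T.filter (fun t => φ t = x), g t := by
        refine Finset.sum_le_sum fun x hx => ?_
        rcases h x hx with h0 | ⟨t, ht, e, hle⟩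
        · exact h0.trans (Finset.sum_nonneg fun t ht => hg t (Finset.mem_filter.1 ht).1)
        · exact hle.trans (Finset.single_le_sum (f := g)
            (fun t ht => hg t (Finset.mem_filter.1 ht).1) (Finset.mem_filter.2 ⟨ht, e⟩))
    _ = ∑ t ∈ T.filter (fun t => φ t ∈ S), g t := by
        rw [← Finset.sum_fiberwise_of_maps_to (s := T.filter fun t => φ t ∈ S) (t := S) (g := φ)
          (fun t ht => (Finset.mem_filter.1 ht).2)]
        refine Finset.sum_congr rfl fun x hx => Finset.sum_congr ?_ fun _ _ => rfl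
        ext t
        simp only [Finset.mem_filter]
        constructor
        · rintro ⟨a, b⟩
          exact ⟨⟨a, b ▸ hx⟩, b⟩
        · rintro ⟨⟨a, -⟩, b⟩
          exact ⟨a, b⟩
    _ ≤ ∑ t ∈ T, g t :=
        Finset.sum_le_sum_of_subset_of_nonneg (Finset.filter_subset _ _) fun t ht _ => hg t ht

lemma large_ev (C : ℝ) {ε : ℝ} (hε : 0 < ε) : ∀ᶠ l : ℝ in atTop, C ≤ Real.exp (ε * l) :=
  (Real.tendsto_exp_atTop.comp (tendsto_id.const_mul_atTop hε)).eventually_ge_atTop C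

lemma large_ev' {ε : ℝ} (hε : 0 < ε) : ∀ᶠ l : ℝ in atTop, 10 * l ≤ Real.exp (ε * l) := by
  filter_upwards [eventually_ge_atTop (20 / ε ^ 2), eventually_ge_atTop 0] with l h1 h0
  have h2 := Real.quadratic_le_exp_of_nonneg (x := ε * l) (by positivity)
  rw [div_le_iff₀ (by positivity)] at h1
  have : 0 ≤ ε * l := by positivity
  nlinarith

lemma large_num {l ε η η1 α τ T U Y0 : ℝ} (hl : 0 < l) (hε : 0 < ε) (hη : η ≤ (α - 3) / 5)
    (hα : α ≤ 4) (_hη1 : 0 < η1) (hη2 : η1 ≤ η / 2) (hε1 : ε ≤ η1 / 1000)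
    (hT0 : 0 ≤ T) (hT : T ≤ Real.exp ((τ + ε) * l))
    (hU1 : Real.exp (((α - η) / 3 - ε) * l) ≤ U) (hU2 : U ≤ Real.exp ((α - η) / 3 * l))
    (hY0 : Real.exp ((α - η) * l) ≤ Y0) (h8 : 8 ≤ Real.exp (ε * l)) (hτ1 : η1 - ε ≤ τ)
    (hτ2 : τ ≤ 1 + η + ε) :
    Real.exp (-(τ / 2) * l) * (Real.exp (8 * ε * l) * (Real.exp (ε * l) *
      (1 + T / √U + T ^ 2 / √Y0 + T ^ 2 * U * Real.exp (((1 + η) / 2 + 6 * ε) * l) / Y0)
        + Real.exp ((-4 + ε) * l) * T ^ 2)) ≤ Real.exp ((-η1 / 3 + 20 * ε) * l) := by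
  have hX : ∀ a b : ℝ, a ≤ b → Real.exp (a * l) ≤ Real.exp (b * l) := fun a b h =>
    Real.exp_le_exp.2 (mul_le_mul_of_nonneg_right h hl.le)
  have hm : ∀ a b : ℝ, Real.exp (a * l) * Real.exp (b * l) = Real.exp ((a + b) * l) := fun a b => by
    rw [← Real.exp_add, add_mul]
  have hd : ∀ a b : ℝ, Real.exp (a * l) / Real.exp (b * l) = Real.exp ((a - b) * l) := fun a b => by
    rw [← Real.exp_sub, sub_mul]
  have hs : ∀ a x : ℝ, Real.exp (a * l) ≤ x → Real.exp (a / 2 * l) ≤ √x := fun a x h => by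
    have : a / 2 * l = a * l / 2 := by ring
    rw [this, Real.exp_half]
    exact Real.sqrt_le_sqrt h
  have hT2 : T ^ 2 ≤ Real.exp ((2 * τ + 2 * ε) * l) := by
    have : Real.exp ((2 * τ + 2 * ε) * l) = Real.exp ((τ + ε) * l) ^ 2 := by
      rw [sq, hm]; congr 1; ring
    rw [this]
    exact pow_le_pow_left₀ hT0 hT 2
  have hU0 : 0 ≤ U := (Real.exp_pos _).le.trans hU1
  have t2 : T / √U ≤ Real.exp (((τ + ε) - ((α - η) / 3 - ε) / 2) * l) := by
    rw [← hd]
    exact div_le_div₀ (Real.exp_pos _).le hT (Real.exp_pos _) (hs _ _ hU1)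
  have t3 : T ^ 2 / √Y0 ≤ Real.exp (((2 * τ + 2 * ε) - (α - η) / 2) * l) := by
    rw [← hd]
    exact div_le_div₀ (Real.exp_pos _).le hT2 (Real.exp_pos _) (hs _ _ hY0)
  have t4 : T ^ 2 * U * Real.exp (((1 + η) / 2 + 6 * ε) * l) / Y0 ≤
      Real.exp (((2 * τ + 2 * ε) + (α - η) / 3 + ((1 + η) / 2 + 6 * ε) - (α - η)) * l) := by
    rw [← hd, ← hm (2 * τ + 2 * ε + (α - η) / 3), ← hm (2 * τ + 2 * ε)]
    refine div_le_div₀ (by positivity) ?_ (Real.exp_pos _) hY0
    exact mul_le_mul_of_nonneg_right (mul_le_mul hT2 hU2 hU0 (Real.exp_pos _).le) (Real.exp_pos _).le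
  set B := Real.exp ((-η1 / 3 + 19 * ε) * l) with hB
  set c := Real.exp (-(τ / 2) * l) * Real.exp (8 * ε * l) * Real.exp (ε * l) with hc
  have hc0 : 0 ≤ c := by positivity
  have hc' : c = Real.exp ((-(τ / 2) + 8 * ε + ε) * l) := by rw [hc, hm, hm]
  have s1 : c * 1 ≤ B := by
    rw [mul_one, hc']; exact hX _ _ (by linarith)
  have s2 : c * (T / √U) ≤ B := by
    refine (mul_le_mul_of_nonneg_left t2 hc0).trans ?_
    rw [hc', hm]; exact hX _ _ (by linarith)
  have s3 : c * (T ^ 2 / √Y0) ≤ B := by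
    refine (mul_le_mul_of_nonneg_left t3 hc0).trans ?_
    rw [hc', hm]; exact hX _ _ (by linarith)
  have s4 : c * (T ^ 2 * U * Real.exp (((1 + η) / 2 + 6 * ε) * l) / Y0) ≤ B := by
    refine (mul_le_mul_of_nonneg_left t4 hc0).trans ?_
    rw [hc', hm]; exact hX _ _ (by linarith)
  have s5 : Real.exp (-(τ / 2) * l) * Real.exp (8 * ε * l) * Real.exp ((-4 + ε) * l) * T ^ 2 ≤ B := by
    refine (mul_le_mul_of_nonneg_left hT2 (by positivity)).trans ?_
    rw [hm, hm, hm]; exact hX _ _ (by linarith)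
  have hB0 : 0 ≤ B := (Real.exp_pos _).le
  have e : Real.exp ((-η1 / 3 + 20 * ε) * l) = Real.exp (ε * l) * B := by
    rw [hB, hm]; congr 1; ring
  rw [e]
  calc _ = c * 1 + c * (T / √U) + c * (T ^ 2 / √Y0)
        + c * (T ^ 2 * U * Real.exp (((1 + η) / 2 + 6 * ε) * l) / Y0)
        + Real.exp (-(τ / 2) * l) * Real.exp (8 * ε * l) * Real.exp ((-4 + ε) * l) * T ^ 2 := by
        rw [hc]; ring
    _ ≤ 8 * B := by linarith
    _ ≤ _ := mul_le_mul_of_nonneg_right h8 hB0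

lemma large_nonpr (hPB : St_PB) {r : ℕ} {χ : ℕ → ℂ} (hr : 2 ≤ r) (h : χ ∈ prim r) : NonPr r χ := by
  by_contra hn
  have h1 : (fun _ : ℕ => (1 : ℂ)) ∈ prim 1 := by rw [hPB.2.2.2.1]; exact Finset.mem_singleton_self _
  have := hPB.2.2.2.2.1 r 1 χ _ 1 (by omega) one_pos one_pos h h1 fun k hk => by
    by_contra hne
    exact hn ⟨k, by simpa using hk, hne⟩
  omega

lemma large_mof {n W r : ℕ} (hW : 2 ∣ W) : Mof n W r ∣ n ∧ Odd (Mof n W r) := by
  constructor
  · refine Finset.prod_primes_dvd n (fun p hp => ?_) fun p hp => (Finset.mem_filter.1 hp).2.1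
    exact (Nat.prime_of_mem_primeFactors (Finset.mem_filter.1 hp).1).prime
  · refine Finset.prod_induction _ Odd (fun a b => Odd.mul) odd_one fun p hp => ?_
    obtain ⟨h1, -, h3⟩ := Finset.mem_filter.1 hp
    refine (Nat.prime_of_mem_primeFactors h1).odd_of_ne_two ?_
    rintro rfl
    exact h3 hW

/-- the characters of one dyadic block -/
noncomputable def largeF (Q R M j : ℕ) : Finset XX :=
  ((Icc 1 (2 ^ (j + 1))).sigma prim).filter fun y => Odd M ∧ R < y.1 ∧ 2 ^ j ≤ y.1 ∧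
    M * y.1 ≤ Q ∧ 2 ≤ M * y.1 ∧ jc M * y.2 ∈ prim (M * y.1)

theorem blk_LARGE (hPB : St_PB) (hPV : St_PV) (hSTR : St_STR) (hSING2 : St_SING2) (hVAU : St_VAU)
    (hWT : St_WT) : St_LARGE := by
  intro α K η η1 cg W0 h3 h4 hK hK1 hη hηα hη1 hη2 hcg hcgη hW0
  obtain ⟨ε, hε, hεe⟩ : ∃ ε : ℝ, 0 < ε ∧ ε = η1 / 1000 := ⟨_, by positivity, rfl⟩
  obtain ⟨C1, hC1, h1⟩ := hSTR ε hε
  obtain ⟨C2, hC2, h2⟩ := hSING2 ε hε
  obtain ⟨C3, hC3, hV⟩ := hVAU ε hε
  obtain ⟨w1, w2, -, -, ⟨C4, w4⟩, -⟩ := hWT α K h3.le h4 hK hK1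
  obtain ⟨C5, hC5, h5⟩ := large_tau hε
  have hev : ∀ᶠ l : ℝ in atTop, C1 * √(W0.factorial : ℝ) ≤ Real.exp (ε * l) ∧
      C2 ≤ Real.exp (ε * l) ∧ C3 ≤ Real.exp (ε * l) ∧ C4 / cg ≤ Real.exp (ε * l) ∧
      C5 ≤ Real.exp (ε * l) ∧ 2 / K ≤ Real.exp (ε * l) ∧ 8 ≤ Real.exp (ε * l) ∧
      10 * l ≤ Real.exp (ε * l) ∧ 1 ≤ l :=
    (large_ev _ hε).and <| (large_ev _ hε).and <| (large_ev _ hε).and <| (large_ev _ hε).and <|
      (large_ev _ hε).and <| (large_ev _ hε).and <| (large_ev _ hε).and <| (large_ev' hε).and <|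
      eventually_ge_atTop 1
  obtain ⟨l0, hl0⟩ := eventually_atTop.1 hev
  refine ⟨l0, fun l hl Q R n hQ hR hn hn5 => ?_⟩
  obtain ⟨e1, e2, e3, e4, e5, e6, e8, e10, hl1⟩ := hl0 l hl
  have hl : 0 < l := by linarith
  have hη5 : η ≤ 1 / 5 := by linarith
  have hcg1 : cg ≤ 1 := by nlinarith
  have hX : ∀ a b : ℝ, a ≤ b → Real.exp (a * l) ≤ Real.exp (b * l) := fun a b h =>
    Real.exp_le_exp.2 (mul_le_mul_of_nonneg_right h hl.le)
  have hm : ∀ a b : ℝ, Real.exp (a * l) * Real.exp (b * l) = Real.exp ((a + b) * l) := fun a b => by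
    rw [← Real.exp_add, add_mul]
  have hp : ∀ x a : ℝ, 0 ≤ x → x ≤ Real.exp (a * l) → x ^ ε ≤ Real.exp (a * ε * l) :=
    fun x a h0 h => by
      refine (Real.rpow_le_rpow h0 h hε.le).trans (le_of_eq ?_)
      rw [← Real.exp_mul]; congr 1; ring
  have h1e : ∀ a : ℝ, 0 ≤ a → 1 ≤ Real.exp (a * l) := fun a h =>
    Real.one_le_exp (mul_nonneg h hl.le)
  have h4e : ∀ a : ℝ, 4 * Real.exp (a * l) ≤ Real.exp ((a + ε) * l) := fun a => by
    rw [← hm]; nlinarith [Real.exp_pos (a * l)]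
  have hQ1 : 2 * (Q : ℝ) ≤ Real.exp ((1 + η + ε) * l) := by linarith [h4e (1 + η)]
  have hQ0 : (0 : ℝ) ≤ Q := Nat.cast_nonneg _
  have hQ2 : (Q : ℝ) + 1 ≤ Real.exp (2 * l) := by
    have a1 := h1e (1 + η) (by linarith)
    have a2 := h4e (1 + η)
    have a3 := hX (1 + η + ε) 2 (by linarith)
    linarith
  -- the parameters of the mean value estimate
  set Y0 := Ylo α η l with hY0
  set Y1 := Yhi α K η l with hY1
  set U := ⌊Real.exp ((α - η) / 3 * l)⌋₊ with hU
  have y1 : Real.exp ((α - η) * l) ≤ Y0 := Nat.le_ceil _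
  have y2 : (Y0 : ℝ) ≤ Real.exp ((α - η + ε) * l) := by
    have a1 := (Nat.ceil_lt_add_one (Real.exp_pos ((α - η) * l)).le).le
    have a2 := h1e (α - η) (by linarith)
    have a3 := h4e (α - η)
    change ((⌈Real.exp ((α - η) * l)⌉₊ : ℕ) : ℝ) ≤ _
    linarith
  have y3 : (Y1 : ℝ) ≤ Real.exp ((α + 2 * K + η) * l) := Nat.floor_le (Real.exp_pos _).le
  have y4 : Real.exp ((α + 2 * K + η - ε) * l) ≤ Y1 := by
    have a1 := (Nat.lt_floor_add_one (Real.exp ((α + 2 * K + η) * l))).le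
    have a2 := h1e (α + 2 * K + η - ε) (by linarith)
    have a3 := h4e (α + 2 * K + η - ε)
    rw [sub_add_cancel] at a3
    change _ ≤ ((⌊Real.exp ((α + 2 * K + η) * l)⌋₊ : ℕ) : ℝ)
    linarith
  have u2 : (U : ℝ) ≤ Real.exp ((α - η) / 3 * l) := Nat.floor_le (Real.exp_pos _).le
  have u1 : Real.exp (((α - η) / 3 - ε) * l) ≤ U := by
    have a1 := (Nat.lt_floor_add_one (Real.exp ((α - η) / 3 * l))).le
    have a2 := h1e ((α - η) / 3 - ε) (by linarith)
    have a3 := h4e ((α - η) / 3 - ε)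
    rw [sub_add_cancel] at a3
    linarith
  have u3 : 2 ≤ U := by
    have a1 := hX ε ((α - η) / 3 - ε) (by linarith)
    exact_mod_cast (show (2 : ℝ) ≤ U by linarith)
  have u4 : U ^ 3 ≤ Y0 := by
    have a1 : (U : ℝ) ^ 3 ≤ Real.exp ((α - η) / 3 * l) ^ 3 := pow_le_pow_left₀ (Nat.cast_nonneg _) u2 3
    have a2 : Real.exp ((α - η) / 3 * l) ^ 3 = Real.exp ((α - η) * l) := by
      rw [← Real.exp_nat_mul]; congr 1; push_cast; ring
    exact_mod_cast (show (U : ℝ) ^ 3 ≤ Y0 by linarith)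
  have y5 : Y0 ≤ Y1 := by
    have a1 := hX (α - η + ε) (α + 2 * K + η - ε) (by linarith)
    exact_mod_cast (show (Y0 : ℝ) ≤ Y1 by linarith)
  obtain ⟨φ, i1, i2, i3, i4⟩ := w4 l cg hl1 hcg hcg1
  have hom : ∀ u : ℝ, (u ≤ Real.log Y0 ∨ Real.log Y1 ≤ u) →
      ‖((hs (l / cg) α K (u / l) : ℝ) : ℂ)‖ ≤ Real.exp ((-4 + ε) * l) := by
    intro u hu
    have k0 : 0 < l / cg := by positivity
    rw [Complex.norm_real, Real.norm_of_nonneg (w1 _ _ k0).1]
    refine (w2 _ _ (9 / 10 * η) k0 (by positivity) ?_).trans ?_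
    · rcases hu with hu | hu
      · left
        have a1 : Real.log Y0 ≤ (α - η + ε) * l :=
          (Real.log_le_iff_le_exp ((Real.exp_pos _).trans_le y1)).2 y2
        rw [div_le_iff₀ hl]
        nlinarith
      · right
        have a1 : (α + 2 * K + η - ε) * l ≤ Real.log Y1 :=
          (Real.le_log_iff_exp_le ((Real.exp_pos _).trans_le y4)).2 y4
        rw [le_div_iff₀ hl]
        nlinarith
    · rw [add_comm, ← hm]
      refine mul_le_mul e6 (Real.exp_le_exp.2 ?_) (Real.exp_pos _).le (Real.exp_pos _).le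
      have : 4 * l ≤ l / cg * (9 / 10 * η) ^ 2 / 2 := by
        rw [div_mul_eq_mul_div, div_div, le_div_iff₀ (by positivity)]
        nlinarith [sq_nonneg η]
      linarith
  -- one block
  have hblock : ∀ M j : ℕ, ∑ y ∈ largeF Q R M j, ‖psiP (jc M * y.2) l cg α K η‖ *
      Real.exp (-(Real.log (2 ^ j) / l / 2) * l) ≤ Real.exp ((-η1 / 3 + 20 * ε) * l) := by
    intro M j
    rcases (largeF Q R M j).eq_empty_or_nonempty with h0 | ⟨y0, hy0⟩
    · rw [h0, Finset.sum_empty]; exact (Real.exp_pos _).le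
    obtain ⟨m1, hM, m2, m3, m4, -, -⟩ := Finset.mem_filter.1 hy0
    have m5 : y0.1 ≤ 2 ^ (j + 1) := (Finset.mem_Icc.1 (Finset.mem_sigma.1 m1).1).2
    have m6 : 2 ^ j ≤ Q := m3.trans ((Nat.le_mul_of_pos_left _ hM.pos).trans m4)
    have m7 : (2 : ℝ) ^ j ≤ Q := by exact_mod_cast m6
    have m8 : (R : ℝ) ≤ 2 ^ (j + 1) := by exact_mod_cast m2.le.trans m5
    set τ := Real.log (2 ^ j) / l with hτ
    have hτe : Real.exp (τ * l) = 2 ^ j := by
      rw [hτ, div_mul_cancel₀ _ hl.ne', Real.exp_log (by positivity)]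
    have hτ1 : η1 - ε ≤ τ := by
      have a1 := h4e τ
      rw [hτe] at a1
      have a2 : Real.exp (η1 * l) ≤ Real.exp ((τ + ε) * l) := by rw [pow_succ] at m8; linarith
      have a3 := le_of_mul_le_mul_right (Real.exp_le_exp.1 a2) hl
      linarith
    have hτ2 : τ ≤ 1 + η + ε := by
      have a2 : Real.exp (τ * l) ≤ Real.exp ((1 + η + ε) * l) := by rw [hτe]; linarith
      exact le_of_mul_le_mul_right (Real.exp_le_exp.1 a2) hl
    have hT : (((2 ^ (j + 1) : ℕ) : ℝ)) ≤ Real.exp ((τ + ε) * l) := by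
      have a1 := h4e τ
      rw [hτe] at a1
      have a2 : (0 : ℝ) < 2 ^ j := by positivity
      push_cast
      rw [pow_succ]; linarith
    have hTY : 2 ^ (j + 1) ≤ Y1 := by
      have a1 := hX (τ + ε) (α + 2 * K + η - ε) (by linarith)
      exact_mod_cast (show (((2 ^ (j + 1) : ℕ) : ℝ)) ≤ Y1 by linarith)
    have hP : ∀ x ∈ largeF Q R M j, ∀ y, ‖psum (jc M * x.2) y‖ ≤
        Real.exp (((1 + η) / 2 + 6 * ε) * l) := by
      intro x hx y
      obtain ⟨-, -, -, -, k4, k5, k6⟩ := Finset.mem_filter.1 hx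
      have k7 := hPV _ _ (hPB.2.1 _ _ (by omega) k6) (large_nonpr hPB k5 k6) 0 y
      have k8 : Ioc 0 (0 + y) = Icc 1 y := by ext k; simp only [mem_Ioc, mem_Icc]; omega
      rw [k8] at k7
      refine k7.trans ?_
      set r := M * x.1 with hr
      have r1 : (r : ℝ) ≤ Q := by exact_mod_cast k4
      have r2 : (2 : ℝ) ≤ r := by exact_mod_cast k5
      have b1 : (r.divisors.card : ℝ) ≤ Real.exp (ε * l) * Real.exp (2 * ε * l) :=
        (h5 r (by omega)).trans (mul_le_mul e5 (hp _ _ (by linarith) (by linarith))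
          (by positivity) (Real.exp_pos _).le)
      have b2 : √(r : ℝ) ≤ Real.exp ((1 + η + ε) / 2 * l) := by
        have : (1 + η + ε) / 2 * l = (1 + η + ε) * l / 2 := by ring
        rw [this, Real.exp_half]
        exact Real.sqrt_le_sqrt (by linarith)
      have b3 : 1 + Real.log r ≤ Real.exp (ε * l) := by
        have : Real.log r ≤ 2 * l := (Real.log_le_iff_le_exp (by linarith)).2 (by linarith)
        linarith
      have b4 : 0 ≤ 1 + Real.log r := by
        have := Real.log_nonneg (show (1 : ℝ) ≤ r by linarith)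
        linarith
      calc 2 * (r.divisors.card : ℝ) * √(r : ℝ) * (1 + Real.log r)
          ≤ Real.exp (ε * l) * (Real.exp (ε * l) * Real.exp (2 * ε * l))
            * Real.exp ((1 + η + ε) / 2 * l) * Real.exp (ε * l) := by
            gcongr
            linarith
        _ ≤ _ := by rw [hm, hm, hm, hm]; exact hX _ _ (by linarith)
    have hv := hV Y0 Y1 U (2 ^ (j + 1)) _ (Real.exp (ε * l)) _ (jc M)
      (fun u => ((hs (l / cg) α K (u / l) : ℝ) : ℂ)) φ (largeF Q R M j) u3 u4 y5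
      Nat.one_le_two_pow hTY (hPB.2.2.2.2.2.2.2.2.1 M hM).2.1 (Finset.filter_subset _ _)
      (Real.exp_pos _).le hP i1 i2 (i3.trans e4) i4 hom
    have hsum : ∑ y ∈ largeF Q R M j, ‖psiP (jc M * y.2) l cg α K η‖ =
        ∑ x ∈ largeF Q R M j, ‖∑ p ∈ PR Y0 Y1, ((Real.log p / p : ℝ) : ℂ) *
          ((hs (l / cg) α K (Real.log p / l) : ℝ) : ℂ) * jc M p * x.2 p‖ := by
      refine Finset.sum_congr rfl fun x _ => ?_
      congr 1
      refine Finset.sum_congr rfl fun p _ => ?_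
      rw [ap, Complex.ofReal_mul, Pi.mul_apply, mul_assoc _ (jc M p)]
    rw [← Finset.sum_mul, mul_comm, hsum]
    refine le_trans ?_ (large_num (τ := τ) hl hε hηα h4 hη1 hη2 (by linarith) (Nat.cast_nonneg _)
      hT u1 u2 y1 e8 hτ1 hτ2)
    refine mul_le_mul_of_nonneg_left (hv.trans (mul_le_mul_of_nonneg_right ?_ (by positivity)))
      (Real.exp_pos _).le
    have a1 := hp Y1 7 (Nat.cast_nonneg _) (y3.trans (hX _ _ (by linarith)))
    calc C3 * (Y1 : ℝ) ^ ε ≤ Real.exp (ε * l) * Real.exp (7 * ε * l) :=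
          mul_le_mul e3 a1 (by positivity) (Real.exp_pos _).le
      _ = _ := by rw [hm]; congr 1; ring
  -- reindexing
  have hre := large_sec ((PP Q).filter (fun x => ¬ Rel n W0.factorial R x))
    ((n.divisors ×ˢ range (Nat.log 2 Q + 1)).sigma fun z => largeF Q R z.1 z.2)
    (fun t => (⟨t.1.1 * t.2.1, jc t.1.1 * t.2.2⟩ : XX))
    (fun x => ‖psiP x.2 l cg α K η‖ * ‖gam x.1 x.2 n‖ * |Sr x.1 n (Q / x.1)|)
    (fun t => ‖psiP (jc t.1.1 * t.2.2) l cg α K η‖ *
      Real.exp (-(Real.log (2 ^ t.1.2) / l / 2) * l) * Real.exp (6 * ε * l))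
    (fun t _ => by positivity) (by
      rintro ⟨r, χ⟩ hx
      obtain ⟨k1, k2⟩ := Finset.mem_filter.1 hx
      obtain ⟨k3, k4⟩ := Finset.mem_sigma.1 k1
      obtain ⟨k5, k6⟩ := Finset.mem_Icc.1 k3
      dsimp only at k4 k5 k6 ⊢
      by_cases hg : gam r χ n = 0
      · left; simp [hg]
      right
      obtain ⟨q, ψ, hD, -, g1, -⟩ := h1 W0 r n χ hW0 (by omega) k4 hg
      have hRq : R < q := by
        by_contra hc
        exact k2 ⟨q, ψ, not_lt.1 hc, hD⟩
      obtain ⟨d1, -, d3, d4⟩ := hD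
      obtain ⟨v1, v2⟩ := large_mof (n := n) (r := r) (Nat.dvd_factorial two_pos hW0)
      set M := Mof n W0.factorial r with hM
      have q0 : q ≠ 0 := by omega
      have q1 : q ≤ Q := (Nat.le_mul_of_pos_left _ v2.pos).trans (d1 ▸ k6)
      have j1 : 2 ^ Nat.log 2 q ≤ q := Nat.pow_log_le_self 2 q0
      have j2 : q < 2 ^ (Nat.log 2 q + 1) := Nat.lt_pow_succ_log_self one_lt_two q
      refine ⟨⟨(M, Nat.log 2 q), ⟨q, ψ⟩⟩, ?_, ?_, ?_⟩
      · refine Finset.mem_sigma.2 ⟨Finset.mem_product.2 ⟨Nat.mem_divisors.2 ⟨v1, hn.ne'⟩,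
          Finset.mem_range.2 (Nat.lt_succ_of_le (Nat.log_mono_right (b := 2) q1))⟩, ?_⟩
        refine Finset.mem_filter.2 ⟨Finset.mem_sigma.2 ⟨Finset.mem_Icc.2 ⟨Nat.pos_of_ne_zero q0, j2.le⟩, d3⟩,
          v2, hRq, j1, ?_, ?_, ?_⟩
        · exact d1 ▸ k6
        · exact d1 ▸ k5
        · change jc M * ψ ∈ prim (M * q)
          rw [← d1, ← d4]; exact k4
      · dsimp only
        rw [← d1, ← d4]
      · dsimp only
        rw [← d4, mul_assoc, mul_assoc]
        refine mul_le_mul_of_nonneg_left ?_ (norm_nonneg _)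
        have qp : (0 : ℝ) < q := by positivity
        have qQ : (q : ℝ) ≤ Q := by exact_mod_cast q1
        have b1 : (q : ℝ) ^ (-(1 / 2 : ℝ) + ε) ≤
            Real.exp (-(Real.log (2 ^ Nat.log 2 q) / l / 2) * l) * Real.exp (2 * ε * l) := by
          rw [Real.rpow_add qp]
          refine mul_le_mul ?_ (hp _ _ qp.le (by linarith)) (by positivity) (Real.exp_pos _).le
          rw [Real.rpow_def_of_pos qp]
          refine Real.exp_le_exp.2 ?_
          have a1 : Real.log (2 ^ Nat.log 2 q) ≤ Real.log q :=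
            Real.log_le_log (by positivity) (by exact_mod_cast j1)
          have a2 : -(Real.log (2 ^ Nat.log 2 q) / l / 2) * l = -(Real.log (2 ^ Nat.log 2 q) / 2) := by
            field_simp
          rw [a2]; linarith
        have b2 : |Sr r n (Q / r)| ≤ Real.exp (ε * l) * Real.exp (2 * ε * l) := by
          refine ((h2 r n (by omega)).2.1 _).trans (mul_le_mul e2 (hp _ _ (by positivity) ?_)
            (by positivity) (Real.exp_pos _).le)
          have : ((Q / r : ℕ) : ℝ) ≤ Q := by exact_mod_cast Nat.div_le_self _ _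
          linarith
        calc ‖gam r χ n‖ * |Sr r n (Q / r)|
            ≤ (Real.exp (ε * l) * (Real.exp (-(Real.log (2 ^ Nat.log 2 q) / l / 2) * l)
              * Real.exp (2 * ε * l))) * (Real.exp (ε * l) * Real.exp (2 * ε * l)) :=
              mul_le_mul (g1.trans (mul_le_mul e1 b1 (by positivity) (Real.exp_pos _).le)) b2
                (abs_nonneg _) (by positivity)
          _ = Real.exp (-(Real.log (2 ^ Nat.log 2 q) / l / 2) * l) * (Real.exp (ε * l)
              * Real.exp (2 * ε * l) * Real.exp (ε * l) * Real.exp (2 * ε * l)) := by ring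
          _ = _ := by rw [hm ε, hm, hm]; congr 2; ring)
  refine hre.trans ?_
  rw [Finset.sum_sigma]
  have c1 : (n.divisors.card : ℝ) ≤ Real.exp (ε * l) * Real.exp (5 * ε * l) :=
    (h5 n hn.ne').trans (mul_le_mul e5 (hp _ _ (Nat.cast_nonneg _) hn5) (by positivity)
      (Real.exp_pos _).le)
  have c2 : ((Nat.log 2 Q + 1 : ℕ) : ℝ) ≤ Real.exp (ε * l) := by
    have a1 : (2 : ℝ) ^ Nat.log 2 Q ≤ Real.exp (2 * l) := by
      have : 2 ^ Nat.log 2 Q ≤ Q + 1 := by
        rcases Nat.eq_zero_or_pos Q with h | h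
        · simp [h]
        · exact (Nat.pow_log_le_self 2 h.ne').trans (Nat.le_succ _)
      exact le_trans (by exact_mod_cast this) hQ2
    have a2 := (Real.log_le_iff_le_exp (by positivity)).2 a1
    rw [Real.log_pow] at a2
    have a3 := Real.log_two_gt_d9
    have a4 : (0 : ℝ) ≤ Nat.log 2 Q := Nat.cast_nonneg _
    push_cast
    nlinarith
  calc _ ≤ ∑ _z ∈ n.divisors ×ˢ range (Nat.log 2 Q + 1),
        Real.exp ((-η1 / 3 + 20 * ε) * l) * Real.exp (6 * ε * l) := by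
        refine Finset.sum_le_sum fun z _ => ?_
        dsimp only
        rw [← Finset.sum_mul]
        exact mul_le_mul_of_nonneg_right (hblock z.1 z.2) (Real.exp_pos _).le
    _ = (n.divisors.card : ℝ) * ((Nat.log 2 Q + 1 : ℕ) : ℝ) *
        (Real.exp ((-η1 / 3 + 20 * ε) * l) * Real.exp (6 * ε * l)) := by
        rw [Finset.sum_const, Finset.card_product, Finset.card_range, nsmul_eq_mul, Nat.cast_mul]
    _ ≤ Real.exp (ε * l) * Real.exp (5 * ε * l) * Real.exp (ε * l) *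
        (Real.exp ((-η1 / 3 + 20 * ε) * l) * Real.exp (6 * ε * l)) := by gcongr
    _ ≤ _ := by
        rw [hm, hm, hm, hm, ← neg_mul]
        exact hX _ _ (by linarith)

end Pool.Agent.Lib.PS
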