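import Pool.Agent.Lib.PS.Blue
import Pool.Agent.Lib.MP_6073f3_nt.Z.Growth

/-! Block LDX: analytic data of the continuation `LL χ`. -/

namespace Pool.Agent.Lib.PS

open Finset Complex Filter Topology Pool.Agent.Lib.RankZero
open scoped ArithmeticFunction.Moebius ArithmeticFunction.vonMangoldt Classical ComplexConjugate

theorem ldx_eq (χ : ℕ → ℂ) (s : ℂ) :
    LL χ s = ∑' n, psum χ (n + 1) * (gU n s - gU (n + 1) s) := by
  unfold LL gU
  refine tsum_congr fun n => ?_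
  push_cast
  rw [show (n : ℂ) + 1 + 1 = n + 2 by ring]

theorem ldx_psum (χ : ℕ → ℂ) (N : ℕ) : psum χ N = ∑ m ∈ range N, χ (m + 1) := by
  unfold psum
  induction N with
  | zero => simp
  | succ N ih => rw [sum_Icc_succ_top (by omega), ih, sum_range_succ]

theorem ldx_head (χ : ℕ → ℂ) (s : ℂ) (N : ℕ) :
    ∑ m ∈ Icc 1 N, χ m * (m : ℂ) ^ (-s) = ∑ n ∈ range N, χ (n + 1) * gU n s := by
  induction N with
  | zero => simp
  | succ N ih =>
    rw [sum_Icc_succ_top (by omega), ih, sum_range_succ, gU]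
    push_cast
    rfl

theorem ldx_term {χ : ℕ → ℂ} {c B : ℝ} (hB : 0 ≤ B) (h : Canc χ c B) {s : ℂ} (hs : 0 < s.re)
    (n : ℕ) : ‖psum χ (n + 1) * (gU n s - gU (n + 1) s)‖ ≤
      B ^ c * ‖s‖ * ((n : ℝ) + 1) ^ (-(s.re + c - 1) - 1) := by
  have hn : (0 : ℝ) < (n : ℝ) + 1 := by positivity
  rw [norm_mul]
  refine (mul_le_mul (h (n + 1)) (g_U_sub hs n) (norm_nonneg _) (by positivity)).trans (le_of_eq ?_)
  rw [show -(s.re + c - 1) - 1 = (1 - c) + (-s.re - 1) by ring, Real.rpow_add hn]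
  push_cast
  ring

theorem ldx_tail {T : ℕ → ℂ} {Y τ : ℝ} (hY : 0 ≤ Y) (hτ : 0 < τ)
    (hT : ∀ n, ‖T n‖ ≤ Y * ((n : ℝ) + 1) ^ (-τ - 1)) {N : ℕ} (hN : 0 < N) :
    ‖∑' n, T (n + N)‖ ≤ Y * ((N : ℝ) ^ (-τ) / τ) := by
  have hs : Summable fun n => ‖T n‖ :=
    Summable.of_nonneg_of_le (fun _ => norm_nonneg _) hT ((g_summable hτ).mul_left Y)
  have hs' := (summable_nat_add_iff N).2 hs
  refine (norm_tsum_le_tsum_norm hs').trans (hs'.tsum_le_of_sum_le fun F => ?_)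
  obtain ⟨K, hK⟩ := F.exists_nat_subset_range
  calc ∑ n ∈ F, ‖T (n + N)‖ ≤ ∑ n ∈ range K, ‖T (n + N)‖ :=
        sum_le_sum_of_subset_of_nonneg hK fun _ _ _ => norm_nonneg _
    _ ≤ ∑ n ∈ range K, Y * (((n + N : ℕ) : ℝ) + 1) ^ (-τ - 1) := sum_le_sum fun n _ => hT _
    _ ≤ Y * ((N : ℝ) ^ (-τ) / τ) := by
        rw [← mul_sum]; exact mul_le_mul_of_nonneg_left (g_tail hτ hN K) hY

/-- the approximation of `LL` by partial sums -/
theorem ldx_approx {χ : ℕ → ℂ} {c B : ℝ} (hB : 0 ≤ B) (h : Canc χ c B) {s : ℂ} (hs : 0 < s.re)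
    (hτ : 0 < s.re + c - 1) {N : ℕ} (hN : 0 < N) :
    ‖LL χ s - ∑ n ∈ range N, χ (n + 1) * gU n s‖ ≤
      B ^ c * (N : ℝ) ^ (-(s.re + c - 1)) * (1 + ‖s‖ / (s.re + c - 1)) := by
  have hN' : (0 : ℝ) < N := by exact_mod_cast hN
  have hT := ldx_term hB h hs
  have hsum : Summable fun n => psum χ (n + 1) * (gU n s - gU (n + 1) s) :=
    .of_norm_bounded ((g_summable hτ).mul_left _) hT
  have e1 := hsum.sum_add_tsum_nat_add N
  have e2 := g_abel (fun m => χ (m + 1)) s N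
  simp only [← ldx_psum] at e2
  have e3 : LL χ s - ∑ n ∈ range N, χ (n + 1) * gU n s =
      ∑' n, psum χ (n + N + 1) * (gU (n + N) s - gU (n + N + 1) s) - psum χ N * gU N s := by
    rw [ldx_eq, ← e1, e2]; ring
  rw [e3]
  have a1 := ldx_tail (by positivity) hτ hT hN
  have a2 : ‖psum χ N * gU N s‖ ≤ B ^ c * (N : ℝ) ^ (-(s.re + c - 1)) := by
    rw [norm_mul, g_norm_U]
    have : ((N : ℝ) + 1) ^ (-s.re) ≤ (N : ℝ) ^ (-s.re) :=
      Real.rpow_le_rpow_of_nonpos hN' (by linarith) (by linarith)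
    refine (mul_le_mul (h N) this (by positivity) (by positivity)).trans (le_of_eq ?_)
    rw [show -(s.re + c - 1) = (1 - c) + -s.re by ring, Real.rpow_add hN']
    ring
  refine (norm_sub_le _ _).trans ((add_le_add a1 a2).trans (le_of_eq ?_))
  ring

theorem ldx_diff {χ : ℕ → ℂ} {c B : ℝ} (hc : c ≤ 1) (hB : 0 ≤ B) (h : Canc χ c B) :
    DifferentiableOn ℂ (LL χ) {s | 1 - c < s.re} := by
  rw [show LL χ = fun s => ∑' n, psum χ (n + 1) * (gU n s - gU (n + 1) s) from funext (ldx_eq χ)]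
  intro s hs
  have hs' : 1 - c < s.re := hs
  have hτ : 0 < (s.re + c - 1) / 2 := by linarith
  have hU : IsOpen {w : ℂ | 1 - c + (s.re + c - 1) / 2 < w.re ∧ ‖w‖ < ‖s‖ + 1} :=
    (isOpen_lt continuous_const continuous_re).inter (isOpen_lt continuous_norm continuous_const)
  refine ((differentiableOn_tsum_of_summable_norm
    ((g_summable hτ).mul_left (B ^ c * (‖s‖ + 1)))
    (fun n => (((g_diff_U n).sub (g_diff_U _)).const_mul _).differentiableOn) hU
      fun n w hw => ?_).differentiableAt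
      (hU.mem_nhds ⟨by linarith, lt_add_one _⟩)).differentiableWithinAt
  have h1 := hw.1
  have h2 := hw.2.le
  refine (ldx_term hB h (by linarith) n).trans ?_
  refine mul_le_mul (by gcongr) (Real.rpow_le_rpow_of_exponent_le
    (by linarith [Nat.cast_nonneg (α := ℝ) n]) (by linarith)) (by positivity) (by positivity)

theorem ldx_summable {χ : ℕ → ℂ} (h : ∀ n, ‖χ n‖ ≤ 1) {s : ℂ} (hs : 1 < s.re) :
    LSeriesSummable χ s :=
  LSeriesSummable_of_bounded_of_one_lt_re (fun n _ => h n) hs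

theorem ldx_LSeries {χ : ℕ → ℂ} {c B : ℝ} (hc : 0 ≤ c) (hB : 0 ≤ B) (h : Canc χ c B)
    (h1 : ∀ n, ‖χ n‖ ≤ 1) {s : ℂ} (hs : 1 < s.re) : LL χ s = LSeries χ s := by
  have hτ : 0 < s.re + c - 1 := by linarith
  have h2 : Summable fun n => χ (n + 1) * gU n s :=
    .of_norm_bounded (g_U_summable hs) fun n => by
      rw [norm_mul]; exact mul_le_of_le_one_left (norm_nonneg _) (h1 _)
  rw [g_LSeries (ldx_summable h1 hs)]
  refine tendsto_nhds_unique ?_ h2.hasSum.tendsto_sum_nat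
  rw [tendsto_iff_norm_sub_tendsto_zero]
  have h3 : Tendsto (fun N : ℕ => B ^ c * (N : ℝ) ^ (-(s.re + c - 1)) * (1 + ‖s‖ / (s.re + c - 1)))
      atTop (𝓝 0) := by
    simpa using (((tendsto_rpow_neg_atTop hτ).comp tendsto_natCast_atTop_atTop).const_mul
      (B ^ c)).mul_const (1 + ‖s‖ / (s.re + c - 1))
  refine squeeze_zero' (Eventually.of_forall fun _ => norm_nonneg _) ?_ h3
  filter_upwards [eventually_gt_atTop 0] with N hN
  rw [norm_sub_rev]
  exact ldx_approx hB h (by linarith) hτ hN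

open LSeries in
theorem ldx_conv {χ : ℕ → ℂ} (h : CM χ) (f g : ℕ → ℂ) :
    LSeries.convolution (χ * f) (χ * g) = χ * LSeries.convolution f g := by
  ext n
  simp only [Pi.mul_apply, LSeries.convolution_def, Finset.mul_sum]
  refine Finset.sum_congr rfl fun p hp => ?_
  rw [(Nat.mem_divisorsAntidiagonal.mp hp).1.symm, h.2.1]
  exact mul_mul_mul_comm ..

theorem ldx_summable_mul {χ : ℕ → ℂ} (h1 : ∀ n, ‖χ n‖ ≤ 1) {f : ℕ → ℂ} {s : ℂ}
    (h : LSeriesSummable f s) : LSeriesSummable (χ * f) s := by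
  refine .of_norm <| h.norm.of_nonneg_of_le (fun _ => norm_nonneg _)
    fun n => LSeries.norm_term_le s ?_
  simpa using mul_le_of_le_one_left (norm_nonneg <| f n) <| h1 n

open LSeries in
theorem ldx_mu {χ : ℕ → ℂ} (h : CM χ) {s : ℂ} (hs : 1 < s.re) :
    LSeries χ s * LSeries (χ * fun n => (μ n : ℂ)) s = 1 := by
  have e : LSeries.convolution (1 : ℕ → ℂ) (fun n => (μ n : ℂ)) = LSeries.delta := by
    rw [one_convolution_eq_zeta_convolution, ← ArithmeticFunction.one_eq_delta]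
    simp_rw [← ArithmeticFunction.natCoe_apply, ← ArithmeticFunction.intCoe_apply,
      ArithmeticFunction.coe_mul, ArithmeticFunction.coe_zeta_mul_coe_moebius]
  have e2 : LSeries.convolution χ (χ * fun n => (μ n : ℂ)) = LSeries.delta := by
    nth_rewrite 1 [← mul_one χ]
    rw [ldx_conv h, e]
    exact LSeries.mul_delta h.1
  rw [← LSeries_convolution' (ldx_summable h.2.2 hs) <|
      ldx_summable_mul h.2.2 <| ArithmeticFunction.LSeriesSummable_moebius_iff.mpr hs,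
    e2, LSeries_delta, Pi.one_apply]

theorem ldx_ne {χ : ℕ → ℂ} (h : CM χ) {s : ℂ} (hs : 1 < s.re) : LSeries χ s ≠ 0 :=
  fun h0 => by simpa [h0] using ldx_mu h hs

open LSeries in
theorem ldx_logder {χ : ℕ → ℂ} (h : CM χ) {s : ℂ} (hs : 1 < s.re) :
    LSeries (lam χ) s = -deriv (LSeries χ) s / LSeries χ s := by
  have hχ := ldx_summable h.2.2 hs
  have hs' : abscissaOfAbsConv χ < s.re :=
    (abscissaOfAbsConv_le_of_forall_lt_LSeriesSummable (x := 1) fun y hy =>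
      ldx_summable h.2.2 (by simpa using hy)).trans_lt (by exact_mod_cast hs)
  have e : lam χ = χ * fun n => (Λ n : ℂ) := by
    funext n; simp [lam, mul_comm]
  have hΛ : LSeriesSummable (χ * fun n => (Λ n : ℂ)) s :=
    ldx_summable_mul h.2.2 (ArithmeticFunction.LSeriesSummable_vonMangoldt hs)
  have e2 : LSeries.convolution (χ * fun n => (Λ n : ℂ)) χ = χ * fun n : ℕ => Complex.log n := by
    rw [← ArithmeticFunction.convolution_vonMangoldt_const_one, ← ldx_conv h, mul_one]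
  rw [e, eq_div_iff <| ldx_ne h hs, ← LSeries_convolution' hΛ hχ, e2, LSeries_deriv hs', neg_neg]
  exact LSeries_congr (fun _ => by simp [mul_comm, logMul]) s

theorem ldx_zeta_le {σ : ℝ} (hσ : 1 < σ) (N : ℕ) :
    ∑ n ∈ range N, ((n : ℝ) + 1) ^ (-σ) ≤ 1 + 1 / (σ - 1) := by
  have h0 : 0 < σ - 1 := by linarith
  rcases N with _ | N
  · simp only [range_zero, sum_empty]; positivity
  · have := g_tail h0 Nat.one_pos N
    rw [sum_range_succ', add_comm]
    simp only [Nat.cast_zero, zero_add, Real.one_rpow, Nat.cast_one] at this ⊢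
    rw [show -(σ - 1) - 1 = -σ by ring] at this
    linarith

theorem ldx_low {χ : ℕ → ℂ} (h : CM χ) {s : ℂ} (hs : 1 < s.re) :
    1 ≤ ‖LSeries χ s‖ * (1 + 1 / (s.re - 1)) := by
  have hb : ∀ n, ‖(χ * fun n => (μ n : ℂ)) n‖ ≤ 1 := fun n => by
    rw [Pi.mul_apply, norm_mul]
    refine mul_le_one₀ (h.2.2 n) (norm_nonneg _) ?_
    exact_mod_cast ArithmeticFunction.abs_moebius_le_one
  have h2 : ‖LSeries (χ * fun n => (μ n : ℂ)) s‖ ≤ 1 + 1 / (s.re - 1) := by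
    rw [g_LSeries (ldx_summable hb hs)]
    have hU := g_U_summable hs
    refine (tsum_of_norm_bounded hU.hasSum fun n => ?_).trans ?_
    · rw [norm_mul]; exact mul_le_of_le_one_left (norm_nonneg _) (hb _)
    · refine hU.tsum_le_of_sum_le fun F => ?_
      obtain ⟨K, hK⟩ := F.exists_nat_subset_range
      refine (sum_le_sum_of_subset_of_nonneg hK fun _ _ _ => norm_nonneg _).trans ?_
      simp only [g_norm_U]
      exact ldx_zeta_le hs K
  calc (1 : ℝ) = ‖LSeries χ s * LSeries (χ * fun n => (μ n : ℂ)) s‖ := by rw [ldx_mu h hs, norm_one]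
    _ ≤ _ := by rw [norm_mul]; exact mul_le_mul_of_nonneg_left h2 (norm_nonneg _)

theorem ldx_harm (N : ℕ) : ∑ n ∈ range N, ((n : ℝ) + 1)⁻¹ ≤ 1 + Real.log N := by
  have := harmonic_le_one_add_log N
  simpa [harmonic] using this

theorem ldx_up {χ : ℕ → ℂ} {c x : ℝ} (hc : 0 < c) (hc1 : c ≤ 1) (hx : 0 ≤ x)
    (h : Canc χ c (Real.exp x)) (h1 : ∀ n, ‖χ n‖ ≤ 1) {s : ℂ} (hs : 1 - c / 2 ≤ s.re) :
    ‖LL χ s‖ ≤ Real.exp (x * max (1 - s.re) 0) * (2 * (3 + x + 2 * ‖s‖ / c)) := by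
  set μ0 := max (1 - s.re) 0 with hμ
  have hμ0 : 0 ≤ μ0 := le_max_right _ _
  have hμ1 : 1 - s.re ≤ μ0 := le_max_left _ _
  have hμ2 : μ0 ≤ 1 := max_le (by linarith) zero_le_one
  have hB : 1 ≤ Real.exp x := Real.one_le_exp hx
  obtain ⟨N, hN1, hN2⟩ : ∃ N : ℕ, Real.exp x ≤ N ∧ (N : ℝ) ≤ 2 * Real.exp x :=
    ⟨⌈Real.exp x⌉₊, Nat.le_ceil _, by
      have := Nat.ceil_lt_add_one (zero_le_one.trans hB); linarith⟩
  have hN : (1 : ℝ) ≤ N := hB.trans hN1
  have hN' : (0 : ℝ) < N := by linarith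
  have hN0 : 0 < N := by exact_mod_cast hN'
  have hτ : c / 2 ≤ s.re + c - 1 := by linarith
  have a1 := ldx_approx (by positivity) h (s := s) (by linarith) (by linarith) hN0
  have e1 : (N : ℝ) ^ μ0 ≤ 2 * Real.exp (x * μ0) := by
    calc (N : ℝ) ^ μ0 ≤ (2 * Real.exp x) ^ μ0 := Real.rpow_le_rpow (by positivity) hN2 hμ0
      _ = 2 ^ μ0 * Real.exp (x * μ0) := by
          rw [Real.mul_rpow (by norm_num) (by positivity), ← Real.exp_mul]
      _ ≤ 2 ^ (1 : ℝ) * Real.exp (x * μ0) := by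
          gcongr
          norm_num
      _ = _ := by rw [Real.rpow_one]
  have e2 : Real.exp x ^ c * (N : ℝ) ^ (-(s.re + c - 1)) ≤ (N : ℝ) ^ μ0 := by
    calc Real.exp x ^ c * (N : ℝ) ^ (-(s.re + c - 1))
        ≤ (N : ℝ) ^ c * (N : ℝ) ^ (-(s.re + c - 1)) := by gcongr
      _ = (N : ℝ) ^ (1 - s.re) := by rw [← Real.rpow_add hN']; ring_nf
      _ ≤ _ := Real.rpow_le_rpow_of_exponent_le hN hμ1
  have e3 : 1 + ‖s‖ / (s.re + c - 1) ≤ 1 + 2 * ‖s‖ / c := by
    have : ‖s‖ / (s.re + c - 1) ≤ ‖s‖ / (c / 2) := by gcongr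
    rw [div_div_eq_mul_div, mul_comm] at this
    linarith
  have e4 : Real.log N ≤ 1 + x := by
    have := Real.log_le_log hN' hN2
    rw [Real.log_mul (by norm_num) (by positivity), Real.log_exp] at this
    linarith [Real.log_two_lt_d9]
  have a2 : ‖∑ n ∈ range N, χ (n + 1) * gU n s‖ ≤ (N : ℝ) ^ μ0 * (2 + x) := by
    calc ‖∑ n ∈ range N, χ (n + 1) * gU n s‖
        ≤ ∑ n ∈ range N, (N : ℝ) ^ μ0 * ((n : ℝ) + 1)⁻¹ := by
          refine norm_sum_le_of_le _ fun n hn => ?_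
          have hn0 : (0 : ℝ) < (n : ℝ) + 1 := by positivity
          have hn1 : (n : ℝ) + 1 ≤ N := by exact_mod_cast mem_range.1 hn
          rw [norm_mul, g_norm_U]
          refine (mul_le_of_le_one_left (by positivity) (h1 _)).trans ?_
          rw [show -s.re = (1 - s.re) + -1 by ring, Real.rpow_add hn0, Real.rpow_neg_one]
          gcongr
          exact (Real.rpow_le_rpow_of_exponent_le (by linarith [Nat.cast_nonneg (α := ℝ) n])
            hμ1).trans (Real.rpow_le_rpow hn0.le hn1 hμ0)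
      _ ≤ (N : ℝ) ^ μ0 * (2 + x) := by
          rw [← mul_sum]
          gcongr
          linarith [ldx_harm N]
  have a3 : ‖LL χ s‖ ≤ (N : ℝ) ^ μ0 * (3 + x + 2 * ‖s‖ / c) := by
    have := norm_le_norm_sub_add (LL χ s) (∑ n ∈ range N, χ (n + 1) * gU n s)
    have a4 := a1.trans (mul_le_mul e2 e3 (by
      have : 0 < s.re + c - 1 := by linarith
      positivity) (by positivity))
    nlinarith
  refine a3.trans ?_
  rw [← mul_assoc, mul_comm (Real.exp _) 2]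
  gcongr

theorem ldx_large {c η : ℝ} (hc : 0 < c) (hη : 0 < η) : ∃ l0 : ℝ, ∀ l : ℝ, l0 ≤ l → 1 ≤ l ∧
    2 * (3 + 3 * l + 2 * (l ^ 2 + 3) / c) ≤ Real.exp (η * l) ∧ 1 + l ≤ Real.exp (η * l) := by
  refine ⟨max 1 (6 * (12 + 16 / c) / η ^ 3), fun l hl => ?_⟩
  have h1 : 1 ≤ l := (le_max_left _ _).trans hl
  have h2 : 6 * (12 + 16 / c) / η ^ 3 ≤ l := (le_max_right _ _).trans hl
  have h3 := Real.pow_div_factorial_le_exp (η * l) (by positivity) 3
  rw [div_le_iff₀ (by positivity)] at h2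
  have h4 : (12 + 16 / c) * l ^ 2 ≤ (η * l) ^ 3 / (Nat.factorial 3 : ℕ) := by
    rw [le_div_iff₀ (by positivity)]
    have : (0 : ℝ) ≤ l ^ 2 := by positivity
    simp only [Nat.factorial, Nat.succ_eq_add_one]
    push_cast
    nlinarith
  have h5 : 1 ≤ l ^ 2 := by nlinarith
  have h6 : l ≤ l ^ 2 := by nlinarith
  have h7 : 2 * (l ^ 2 + 3) / c ≤ 8 / c * l ^ 2 := by
    rw [div_mul_eq_mul_div]
    exact div_le_div_of_nonneg_right (by linarith) hc.le
  have h8 : 0 ≤ 8 / c * l ^ 2 := by positivity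
  have h9 : (12 + 16 / c) * l ^ 2 = 12 * l ^ 2 + 2 * (8 / c * l ^ 2) := by ring
  exact ⟨h1, by linarith, by linarith⟩

theorem ldx_one (c η : ℝ) (hc : 0 < c) (hc1 : c ≤ 1 / 2) (hη : 0 < η) :
    ∃ l0 : ℝ, ∀ l : ℝ, l0 ≤ l → ∀ (χ : ℕ → ℂ) (b : ℝ),
    CM χ → 0 ≤ b → b ≤ 3 → Canc χ c (Real.exp (b * l)) →
    LD (lam χ) (LL χ) 0 c l b η (l ^ 2) := by
  obtain ⟨l0, h0⟩ := ldx_large hc hη
  refine ⟨l0, fun l hl χ b hχ hb0 hb3 h => ?_⟩
  obtain ⟨h1, h2, h3⟩ := h0 l hl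
  have hB : 0 ≤ Real.exp (b * l) := (Real.exp_pos _).le
  have he : ∀ s : ℂ, 1 < s.re → LL χ s = LSeries χ s := fun s hs =>
    ldx_LSeries hc.le hB h hχ.2.2 hs
  refine ⟨fun n => ?_, ldx_diff (by linarith) hB h, fun s hs => ?_, fun s hs hs2 ht => ?_,
    fun s hs _ _ => ?_⟩
  · rw [lam, norm_mul, Complex.norm_real, Real.norm_of_nonneg ArithmeticFunction.vonMangoldt_nonneg]
    exact mul_le_of_le_one_right ArithmeticFunction.vonMangoldt_nonneg (hχ.2.2 n)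
  · have hd : deriv (LL χ) s = deriv (LSeries χ) s :=
      EventuallyEq.deriv_eq (eventuallyEq_of_mem
        ((isOpen_lt continuous_const continuous_re).mem_nhds hs) he)
    rw [he s hs, hd, ldx_logder hχ hs]
    refine ⟨ldx_ne hχ hs, ?_⟩
    simp [neg_div]
  · refine (ldx_up hc (by linarith) (by positivity) h hχ.2.2 hs).trans ?_
    rw [Real.exp_add]
    refine mul_le_mul_of_nonneg_left (le_trans ?_ h2) (Real.exp_pos _).le
    have a1 : ‖s‖ ≤ l ^ 2 + 3 := by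
      have := norm_le_abs_re_add_abs_im s
      rw [abs_of_nonneg (by linarith : 0 ≤ s.re)] at this
      linarith
    gcongr
  · have hl0 : 0 < l := by linarith
    have hs1 : 1 < s.re := by
      have : 0 < 1 / l := by positivity
      linarith
    have a1 := ldx_low hχ hs1
    have a2 : 1 / (s.re - 1) ≤ l := by
      rw [div_le_iff₀ (by linarith)]
      have : 1 / l ≤ s.re - 1 := by linarith
      rw [div_le_iff₀ hl0] at this
      linarith
    rw [he s hs1, Real.exp_neg, inv_le_iff_one_le_mul₀ (Real.exp_pos _)]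
    refine a1.trans (mul_le_mul_of_nonneg_left (by linarith) (norm_nonneg _))

theorem ldx_two (χ : ℕ → ℂ) (c B : ℝ) (ρ : ℂ) (y : ℕ) (hc : 0 < c) (hc1 : c ≤ 1) (hB : 0 ≤ B)
    (h : Canc χ c B) (hρ : 1 - c / 2 ≤ ρ.re) (h0 : LL χ ρ = 0) (hy : 1 ≤ y) :
    ‖∑ m ∈ Icc 1 y, χ m * (m : ℂ) ^ (-ρ)‖
      ≤ (1 + 4 * ‖ρ‖ / c) * (y : ℝ) ^ (1 - ρ.re) * (B / y) ^ c := by
  have hy' : (0 : ℝ) < y := by exact_mod_cast hy
  have a1 := ldx_approx hB h (s := ρ) (by linarith) (by linarith) hy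
  rw [h0, zero_sub, norm_neg, ← ldx_head] at a1
  refine a1.trans ?_
  have e3 : 1 + ‖ρ‖ / (ρ.re + c - 1) ≤ 1 + 4 * ‖ρ‖ / c := by
    have : ‖ρ‖ / (ρ.re + c - 1) ≤ ‖ρ‖ / (c / 4) := by gcongr; linarith
    rw [div_div_eq_mul_div, mul_comm] at this
    linarith
  have e4 : B ^ c * (y : ℝ) ^ (-(ρ.re + c - 1)) = (y : ℝ) ^ (1 - ρ.re) * (B / y) ^ c := by
    rw [Real.div_rpow hB hy'.le, show -(ρ.re + c - 1) = (1 - ρ.re) - c by ring, Real.rpow_sub hy']
    ring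
  rw [e4, mul_comm, mul_assoc]
  exact mul_le_mul_of_nonneg_right e3 (by positivity)

theorem ldx_conj (χ : ℕ → ℂ) (ρ : ℂ) : LL (cj χ) (conj ρ) = conj (LL χ ρ) := by
  have hU : ∀ n, gU n (conj ρ) = conj (gU n ρ) := fun n => by
    rw [gU, gU, ← map_neg, cpow_conj _ _ (by
      rw [arg_ofReal_of_nonneg (by positivity)]; exact Real.pi_ne_zero.symm), conj_ofReal]
  rw [ldx_eq, ldx_eq, conj_tsum]
  refine tsum_congr fun n => ?_
  simp only [hU, psum, cj, map_mul, map_sub, map_sum]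

theorem ldx_tendsto (z : ℂ) : Tendsto (fun w : ℂ => conj w) (𝓝 (conj z)) (𝓝 z) := by
  simpa using continuous_conj.tendsto (conj z)

theorem ldx_analytic {F : ℂ → ℂ} {z : ℂ} (h : AnalyticAt ℂ F z) :
    AnalyticAt ℂ (conj ∘ F ∘ conj) (conj z) := by
  rw [analyticAt_iff_eventually_differentiableAt] at h ⊢
  filter_upwards [(ldx_tendsto z).eventually h] with w hw
  exact differentiableAt_conj_conj_iff.2 hw

theorem ldx_order (F : ℂ → ℂ) (z : ℂ) :
    analyticOrderAt (conj ∘ F ∘ conj) (conj z) = analyticOrderAt F z := by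
  by_cases h : AnalyticAt ℂ F z
  · cases h' : analyticOrderAt F z with
    | top =>
      rw [analyticOrderAt_eq_top] at h' ⊢
      filter_upwards [(ldx_tendsto z).eventually h'] with w hw
      simp [hw]
    | coe n =>
      rw [h.analyticOrderAt_eq_natCast] at h'
      obtain ⟨g, hg, hg0, e⟩ := h'
      rw [(ldx_analytic h).analyticOrderAt_eq_natCast]
      refine ⟨conj ∘ g ∘ conj, ldx_analytic hg, by simpa using hg0, ?_⟩
      filter_upwards [(ldx_tendsto z).eventually e] with w hw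
      simp [hw]
  · rw [analyticOrderAt_of_not_analyticAt h, analyticOrderAt_of_not_analyticAt]
    intro h'
    apply h
    have := ldx_analytic h'
    rwa [conj_conj, show conj ∘ (conj ∘ F ∘ conj) ∘ conj = F by funext w; simp] at this

theorem ldx_three (χ : ℕ → ℂ) (ρ : ℂ) : LL (cj χ) (conj ρ) = conj (LL χ ρ) ∧
    ord (LL (cj χ)) (conj ρ) = ord (LL χ) ρ := by
  refine ⟨ldx_conj χ ρ, ?_⟩
  have e : LL (cj χ) = conj ∘ LL χ ∘ conj := by
    funext w
    simpa using ldx_conj χ (conj w)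
  rw [ord, ord, analyticOrderNatAt, analyticOrderNatAt, e, ldx_order]

theorem ldx_freq {a : ℕ → ℂ} {E : ℂ → ℂ} {m c l b η T : ℝ} (hc : 0 < c) (h : LD a E m c l b η T)
    {ρ : ℂ} (hρ : 1 - c < ρ.re) : AnalyticAt ℂ E ρ ∧ ¬ ∃ᶠ z in 𝓝[≠] ρ, E z = 0 := by
  have ho : IsOpen {s : ℂ | 1 - c < s.re} := isOpen_lt continuous_const continuous_re
  have hA := h.diff.analyticOnNhd ho
  refine ⟨hA ρ hρ, fun hf => (h.ser 2 (by simp)).1 ?_⟩
  exact hA.eqOn_zero_of_preconnected_of_frequently_eq_zero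
    (convex_halfSpace_re_gt (1 - c)).isPreconnected hρ hf
    (show 1 - c < (2 : ℂ).re by simp; linarith)

theorem ldx_four (a : ℕ → ℂ) (E : ℂ → ℂ) (m c l b η T : ℝ) (ρ : ℂ) (hc : 0 < c)
    (h : LD a E m c l b η T) (hρ : 1 - c < ρ.re) : E ρ = 0 ↔ 1 ≤ ord E ρ := by
  obtain ⟨hA, hf⟩ := ldx_freq hc h hρ
  have ht : analyticOrderAt E ρ ≠ ⊤ := fun ht =>
    hf ((analyticOrderAt_eq_top.1 ht).filter_mono nhdsWithin_le_nhds).frequently
  rw [← hA.analyticOrderAt_ne_zero, ← Nat.cast_analyticOrderNatAt ht, ord, Nat.one_le_iff_ne_zero]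
  simp

theorem ldx_five (a : ℕ → ℂ) (E : ℂ → ℂ) (m c l b η T : ℝ) (σ H : ℝ) (hc : 0 < c)
    (h : LD a E m c l b η T) (hσ : 1 - c < σ) :
    {ρ : ℂ | σ ≤ ρ.re ∧ |ρ.im| ≤ H ∧ E ρ = 0}.Finite := by
  by_contra hi
  have hK : IsCompact (Set.Icc σ 1 ×ℂ Set.Icc (-H) H) := isCompact_Icc.reProdIm isCompact_Icc
  obtain ⟨x, hx, hacc⟩ := Set.Infinite.exists_accPt_of_subset_isCompact hi hK (fun ρ hρ =>
    ⟨⟨hρ.1, not_lt.1 fun h1 => (h.ser ρ h1).1 hρ.2.2⟩, abs_le.1 hρ.2.1⟩)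
  refine (ldx_freq hc h (hσ.trans_le hx.1.1)).2 ?_
  rw [accPt_iff_frequently] at hacc
  rw [frequently_nhdsWithin_iff]
  exact hacc.mono fun z hz => ⟨hz.2.2.2, hz.1⟩

theorem blk_LDX : St_LDX :=
  ⟨ldx_one, ldx_two, ldx_three, ldx_four, ldx_five⟩

end Pool.Agent.Lib.PS
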