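import Pool.Agent.Lib.PS.Blue
import Pool.Agent.Lib.MP_6073f3_nt.Z.Growth

/-! Analytic data for the zeta function. -/

namespace Pool.Agent.Lib.PS

open Finset Real MeasureTheory Complex Filter Topology
open scoped NumberTheorySymbols ArithmeticFunction.Moebius ArithmeticFunction.vonMangoldt
  Classical ComplexConjugate

theorem ldz_cmp {a : ℕ → ℂ} {b : ℕ → ℝ} (hab : ∀ n, ‖a n‖ ≤ b n) {σ : ℝ} {s : ℂ}
    (hσ : σ ≤ s.re) (hb : LSeriesSummable (fun n => (b n : ℂ)) (σ : ℂ)) :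
    LSeriesSummable a s ∧ ‖LSeries a s‖ ≤ ‖LSeries (fun n => (b n : ℂ)) (σ : ℂ)‖ := by
  have hb0 : ∀ n, 0 ≤ b n := fun n => (norm_nonneg _).trans (hab n)
  have h1 : ∀ n, ‖LSeries.term a s n‖ ≤ ‖LSeries.term (fun n => (b n : ℂ)) (σ : ℂ) n‖ := by
    intro n
    refine le_trans (LSeries.norm_term_le s (g := fun n => (b n : ℂ)) ?_)
      (LSeries.norm_term_le_of_re_le_re _ (by simpa using hσ) n)
    rw [Complex.norm_real, Real.norm_of_nonneg (hb0 n)]
    exact hab n
  have h2 : ∀ n, LSeries.term (fun n => (b n : ℂ)) (σ : ℂ) n =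
      ((‖LSeries.term (fun n => (b n : ℂ)) (σ : ℂ) n‖ : ℝ) : ℂ) := by
    intro n
    rw [LSeries.norm_term_eq]
    rcases eq_or_ne n 0 with rfl | hn
    · simp
    · rw [LSeries.term_of_ne_zero hn, if_neg hn, Complex.norm_real, Real.norm_of_nonneg (hb0 n),
        ofReal_re, ofReal_div, ofReal_cpow (Nat.cast_nonneg n), ofReal_natCast]
  have h3 : Summable fun n => ‖LSeries.term (fun n => (b n : ℂ)) (σ : ℂ) n‖ :=
    summable_norm_iff.2 hb
  have h4 : Summable fun n => ‖LSeries.term a s n‖ :=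
    h3.of_nonneg_of_le (fun _ => norm_nonneg _) h1
  refine ⟨h4.of_norm, ?_⟩
  have h5 : LSeries (fun n => (b n : ℂ)) (σ : ℂ) =
      ((∑' n, ‖LSeries.term (fun n => (b n : ℂ)) (σ : ℂ) n‖ : ℝ) : ℂ) := by
    rw [ofReal_tsum]
    exact tsum_congr h2
  rw [h5, Complex.norm_real, Real.norm_of_nonneg (tsum_nonneg fun _ => norm_nonneg _)]
  exact (norm_tsum_le_tsum_norm h4).trans (h4.tsum_le_tsum h1 h3)

theorem ldz_ne {s : ℂ} (hs : 1 ≤ s.re) : riemannZeta₁ s ≠ 0 := by
  rcases eq_or_ne s 1 with rfl | h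
  · simp
  · intro h0
    apply riemannZeta_ne_zero_of_one_le_re hs
    rw [riemannZeta_eq_inv_sub_mul h, h0, mul_zero]

theorem ldz_ser {s : ℂ} (hs : 1 < s.re) :
    LSeries (fun n => (Λ n : ℂ)) s = 1 / (s - 1) - deriv riemannZeta₁ s / riemannZeta₁ s := by
  have h1 : s ≠ 1 := by rintro rfl; simp at hs
  have h2 := ldz_ne hs.le
  have h3 : s - 1 ≠ 0 := sub_ne_zero.2 h1
  rw [ArithmeticFunction.LSeries_vonMangoldt_eq_deriv_riemannZeta_div hs,
    deriv_riemannZeta_eq_neg_inv_sub_sq_mul_add h1, riemannZeta_eq_inv_sub_mul h1]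
  field_simp
  ring

theorem ldz_three : ∃ C : ℝ, 0 ≤ C ∧ ∀ (a : ℕ → ℂ) (s : ℂ), (∀ n, ‖a n‖ ≤ Λ n) → 1 < s.re →
    LSeriesSummable a s ∧ ‖LSeries a s‖ ≤ 1 / (s.re - 1) + C := by
  have hc : ContinuousOn (fun x : ℝ => deriv riemannZeta₁ x / riemannZeta₁ x) (Set.Icc 1 2) := by
    refine ContinuousOn.div ?_ ?_ fun x hx => ldz_ne (by simpa using hx.1)
    · exact (differentiable_riemannZeta₁.deriv.continuous.comp continuous_ofReal).continuousOn
    · exact (differentiable_riemannZeta₁.continuous.comp continuous_ofReal).continuousOn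
  obtain ⟨C, hC⟩ := isCompact_Icc.exists_bound_of_continuousOn hc
  have hC0 : 0 ≤ C := (norm_nonneg _).trans (hC 1 (by simp))
  have key : ∀ σ : ℝ, 1 < σ → σ ≤ 2 →
      ‖LSeries (fun n => (Λ n : ℂ)) (σ : ℂ)‖ ≤ 1 / (σ - 1) + C := by
    intro σ h1 h2
    rw [ldz_ser (by simpa using h1)]
    refine (norm_sub_le _ _).trans (add_le_add (le_of_eq ?_) (hC σ ⟨h1.le, h2⟩))
    rw [norm_div, norm_one, ← ofReal_one, ← ofReal_sub, Complex.norm_real,
      Real.norm_of_nonneg (by linarith)]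
  refine ⟨C + 1, by linarith, fun a s ha hs => ?_⟩
  have hp : 0 < 1 / (s.re - 1) := by have : 0 < s.re - 1 := by linarith
                                     positivity
  rcases le_total s.re 2 with h | h
  · obtain ⟨h1, h2⟩ := ldz_cmp ha (le_refl s.re)
      (ArithmeticFunction.LSeriesSummable_vonMangoldt (by simpa using hs))
    exact ⟨h1, by linarith [key s.re hs h]⟩
  · obtain ⟨h1, h2⟩ := ldz_cmp ha h
      (ArithmeticFunction.LSeriesSummable_vonMangoldt (by simp))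
    have := key 2 (by norm_num) le_rfl
    refine ⟨h1, ?_⟩
    norm_num at this h2 ⊢
    rw [one_div] at hp
    linarith

theorem ldz_two (T : ℝ) :
    ∃ e : ℝ, 0 < e ∧ ∀ s : ℂ, 1 - e ≤ s.re → |s.im| ≤ T → riemannZeta₁ s ≠ 0 := by
  set Z : Set ℂ := (Set.Icc (0 : ℝ) 1 ×ℂ Set.Icc (-T) T) ∩ riemannZeta₁ ⁻¹' {0} with hZ
  have hK : IsCompact Z :=
    (isCompact_Icc.reProdIm isCompact_Icc).inter_right
      (isClosed_singleton.preimage differentiable_riemannZeta₁.continuous)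
  have hmem : ∀ s : ℂ, 0 ≤ s.re → |s.im| ≤ T → riemannZeta₁ s = 0 → s ∈ Z := by
    intro s h0 h1 h2
    have h3 : s.re ≤ 1 := by
      by_contra h
      exact ldz_ne (le_of_lt (not_le.1 h)) h2
    exact ⟨⟨⟨h0, h3⟩, abs_le.1 h1⟩, h2⟩
  rcases Z.eq_empty_or_nonempty with h | h
  · refine ⟨1, one_pos, fun s h1 h2 h3 => ?_⟩
    have := hmem s (by linarith) h2 h3
    rw [h] at this
    exact this
  · obtain ⟨z, hz, hmax⟩ := hK.exists_isMaxOn h continuous_re.continuousOn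
    have hz1 : z.re < 1 := by
      by_contra h'
      exact ldz_ne (not_lt.1 h') hz.2
    have hz0 : 0 ≤ z.re := hz.1.1.1
    refine ⟨(1 - z.re) / 2, by linarith, fun s h1 h2 h3 => ?_⟩
    have : s.re ≤ z.re := hmax (hmem s (by linarith) h2 h3)
    linarith

theorem ldz_poly (K η : ℝ) (hη : 0 < η) :
    ∃ l0 : ℝ, 1 ≤ l0 ∧ ∀ l : ℝ, l0 ≤ l → K * l ^ 4 ≤ Real.exp (η * l) := by
  have h := (isLittleO_pow_exp_pos_mul_atTop 4 hη).bound
    (c := 1 / (|K| + 1)) (by positivity)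
  obtain ⟨l0, hl0⟩ := eventually_atTop.1 h
  refine ⟨max l0 1, le_max_right _ _, fun l hl => ?_⟩
  have h1 := hl0 l ((le_max_left _ _).trans hl)
  have hl1 : 0 ≤ l := by linarith [(le_max_right _ _).trans hl]
  rw [Real.norm_of_nonneg (by positivity), Real.norm_of_nonneg (Real.exp_pos _).le,
    one_div, ← div_eq_inv_mul, le_div_iff₀ (by positivity)] at h1
  have h2 : 0 ≤ l ^ 4 := by positivity
  nlinarith [le_abs_self K]

theorem ldz_one (c η : ℝ) (hc : 0 < c) (hc2 : c ≤ 1 / 2) (hη : 0 < η) :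
    ∃ l0 : ℝ, ∀ l : ℝ, l0 ≤ l → LD (lam 1) riemannZeta₁ 1 c l 0 η (l ^ 2) := by
  obtain ⟨C, hC, hZ⟩ := RankZero.g_zeta0' (ε := 1 / 2) (by norm_num) le_rfl
  have hZ' : ∀ s : ℂ, 1 / 2 ≤ s.re → ‖riemannZeta₀ s‖ ≤ C * (‖s‖ + 1) := by
    intro s hs
    refine (hZ s (by linarith)).trans (mul_le_mul_of_nonneg_left ?_ (by linarith))
    have h1 : (1 : ℝ) ≤ ‖s‖ + 1 := by linarith [norm_nonneg s]
    calc (‖s‖ + 1) ^ (1 / 2 : ℝ) ≤ (‖s‖ + 1) ^ (1 : ℝ) :=
          Real.rpow_le_rpow_of_exponent_le h1 (by norm_num)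
      _ = _ := Real.rpow_one _
  obtain ⟨l0, hl1, hl0⟩ := ldz_poly (1 + 25 * C) η hη
  refine ⟨l0, fun l hl => ?_⟩
  have hl1' : 1 ≤ l := hl1.trans hl
  have hlam : lam 1 = fun n => (Λ n : ℂ) := by
    funext n
    simp [lam]
  have hl2 : 1 ≤ l ^ 2 := one_le_pow₀ hl1'
  have hl4 : 1 ≤ l ^ 4 := one_le_pow₀ hl1'
  refine ⟨fun n => ?_, differentiable_riemannZeta₁.differentiableOn, fun s hs => ⟨ldz_ne hs.le, ?_⟩,
    fun s h1 h2 h3 => ?_, fun s h1 h2 h3 => ?_⟩
  · rw [hlam]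
    simp [abs_of_nonneg ArithmeticFunction.vonMangoldt_nonneg]
  · rw [hlam, ldz_ser hs, ofReal_one]
  · have hn : ‖s‖ + 1 ≤ 5 * l ^ 2 := by
      have := Complex.norm_le_abs_re_add_abs_im s
      rw [abs_of_nonneg (by linarith : 0 ≤ s.re)] at this
      linarith
    have h4 : ‖s - 1‖ ≤ ‖s‖ + 1 := by simpa using norm_sub_le s 1
    have h5 : ‖riemannZeta₁ s‖ ≤ 1 + (5 * l ^ 2) * (C * (5 * l ^ 2)) := by
      unfold riemannZeta₁
      refine (norm_add_le _ _).trans ?_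
      rw [norm_one, norm_mul]
      gcongr
      · exact h4.trans hn
      · exact (hZ' s (by linarith)).trans (mul_le_mul_of_nonneg_left hn (by linarith))
    have h6 := hl0 l hl
    rw [zero_mul, zero_mul, zero_add]
    nlinarith
  · have hl0' : 0 < l := by linarith
    have hil : 0 < 1 / l := by positivity
    have hs : 1 < s.re := by linarith
    have hs1 : s ≠ 1 := by rintro rfl; simp at hs
    have hσ1 : ((s.re : ℝ) : ℂ) ≠ 1 := by
      intro h
      have := congrArg Complex.re h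
      simp at this
      linarith
    obtain ⟨-, hm⟩ := ldz_cmp (a := fun n => (μ n : ℂ)) (b := fun _ => 1)
      (fun n => by
        rw [Complex.norm_intCast]
        exact_mod_cast ArithmeticFunction.abs_moebius_le_one) (le_refl s.re)
      (by
        have : LSeriesSummable 1 ((s.re : ℝ) : ℂ) :=
          LSeriesSummable_one_iff.2 (by simpa using hs)
        rw [ofReal_one]
        exact this)
    have e1 : LSeries (fun _ => ((1 : ℝ) : ℂ)) ((s.re : ℝ) : ℂ) = riemannZeta (s.re : ℝ) := by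
      rw [← LSeries_one_eq_riemannZeta (by simpa using hs)]
      congr 1
    have hb : ‖riemannZeta (s.re : ℝ)‖ ≤ l + 3 * C := by
      rw [riemannZeta_eq_inv_sub_add hσ1]
      refine (norm_add_le _ _).trans (add_le_add ?_ ?_)
      · rw [norm_inv, ← ofReal_one, ← ofReal_sub, Complex.norm_real,
          Real.norm_of_nonneg (by linarith), inv_le_comm₀ (by linarith) hl0', ← one_div]
        linarith
      · refine (hZ' _ (by simp; linarith)).trans ?_
        rw [Complex.norm_real, Real.norm_of_nonneg (by linarith)]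
        nlinarith
    rw [e1] at hm
    have e2 := LSeries_one_mul_Lseries_moebius hs
    rw [LSeries_one_eq_riemannZeta hs, riemannZeta_eq_inv_sub_mul hs1] at e2
    have e3 := congrArg norm e2
    rw [norm_mul, norm_mul, norm_one, norm_inv] at e3
    have h7 : 1 / l ≤ ‖s - 1‖ := by
      have := Complex.re_le_norm (s - 1)
      simp only [sub_re, one_re] at this
      linarith
    have h8 : ‖s - 1‖⁻¹ ≤ l := by
      rw [inv_le_comm₀ (by linarith) hl0', ← one_div]
      exact h7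
    have h9 : 1 ≤ l * ‖riemannZeta₁ s‖ * (l + 3 * C) := by
      rw [← e3]
      gcongr
      exact hm.trans hb
    have h10 : l * (l + 3 * C) ≤ Real.exp (η * l) := by
      refine le_trans ?_ (hl0 l hl)
      have a1 : l ^ 2 ≤ l ^ 4 := pow_le_pow_right₀ hl1' (by norm_num)
      have a2 : l ≤ l ^ 4 := by simpa using pow_le_pow_right₀ hl1' (show 1 ≤ 4 by norm_num)
      nlinarith
    rw [Real.exp_neg, inv_le_iff_one_le_mul₀ (Real.exp_pos _)]
    nlinarith [norm_nonneg (riemannZeta₁ s)]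

theorem blk_LDZ : St_LDZ := ⟨ldz_one, ldz_two, ldz_three⟩

end Pool.Agent.Lib.PS
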