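import Pool.Agent.Lib.PS.Blue

/-! Block MAJ: the exponential sum over squares on a major arc. -/

namespace Pool.Agent.Lib.PS

open Finset Real Complex
open scoped Classical ComplexConjugate

lemma maj_ee_add (x y : ℝ) : ee (x + y) = ee x * ee y := by
  unfold ee
  rw [← Complex.exp_add]
  congr 1
  push_cast
  ring

lemma maj_ee_norm (x : ℝ) : ‖ee x‖ = 1 := by
  unfold ee
  have : (2 * π * I * x : ℂ) = ((2 * π * x : ℝ) : ℂ) * I := by push_cast; ring
  rw [this, Complex.norm_exp_ofReal_mul_I]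

lemma maj_ee_zero : ee 0 = 1 := by simp [ee]

lemma maj_ee_int (n : ℤ) : ee n = 1 := by
  unfold ee
  rw [← Complex.exp_int_mul_two_pi_mul_I n]
  congr 1
  push_cast
  ring

lemma maj_ee_conj (x : ℝ) : conj (ee x) = ee (-x) := by
  unfold ee
  rw [← Complex.exp_conj]
  congr 1
  simp [map_ofNat]

lemma maj_ee_sub (x y : ℝ) : ee (x + y) - ee (x - y) = ee x * (2 * I * Real.sin (2 * π * y)) := by
  rw [sub_eq_add_neg x y, maj_ee_add, maj_ee_add, ← mul_sub]
  congr 1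
  unfold ee
  have h1 : (2 * π * I * y : ℂ) = ((2 * π * y : ℝ) : ℂ) * I := by push_cast; ring
  have h2 : (2 * π * I * ((-y : ℝ) : ℂ) : ℂ) = (-((2 * π * y : ℝ) : ℂ)) * I := by push_cast; ring
  rw [h1, h2, Complex.exp_mul_I, Complex.exp_mul_I, Complex.cos_neg, Complex.sin_neg,
    Complex.ofReal_sin]
  ring

lemma maj_ee_sub_one (x : ℝ) : ‖ee x - 1‖ ≤ 2 * π * |x| := by
  unfold ee
  have h1 : (2 * π * I * x : ℂ) = I * ((2 * π * x : ℝ) : ℂ) := by push_cast; ring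
  rw [h1]
  refine Real.norm_exp_I_mul_ofReal_sub_one_le.trans ?_
  rw [Real.norm_eq_abs, abs_mul, abs_of_pos (by positivity : (0 : ℝ) < 2 * π)]

lemma maj_ee_nat_mul (n : ℕ) (x : ℝ) : ee (n * x) = ee x ^ n := by
  induction n with
  | zero => simp [maj_ee_zero]
  | succ n ih => rw [Nat.cast_succ, add_mul, one_mul, maj_ee_add, ih, pow_succ]

/-- Orthogonality of additive characters. -/
lemma maj_orth (q : ℕ) (hq : 0 < q) (k : ℤ) :
    ∑ b ∈ range q, ee ((b : ℝ) * (k / q)) = if (q : ℤ) ∣ k then (q : ℂ) else 0 := by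
  have hq' : (q : ℝ) ≠ 0 := by positivity
  simp only [maj_ee_nat_mul]
  split_ifs with h
  · obtain ⟨c, rfl⟩ := h
    have : ((((q : ℤ) * c : ℤ) : ℝ) / q) = (c : ℝ) := by push_cast; field_simp
    rw [this, maj_ee_int]
    simp
  · have h1 : ee ((k : ℝ) / q) ≠ 1 := by
      intro h1
      unfold ee at h1
      obtain ⟨n, hn⟩ := Complex.exp_eq_one_iff.1 h1
      have h2 : (((k : ℝ) / q : ℝ) : ℂ) = n := by
        have h3 : (2 * π * I : ℂ) ≠ 0 := Complex.two_pi_I_ne_zero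
        exact mul_left_cancel₀ h3 (by rw [hn]; ring)
      have h4 : (k : ℝ) / q = n := by exact_mod_cast h2
      refine h ⟨n, ?_⟩
      have h5 : (k : ℝ) = q * n := by rw [← h4]; field_simp
      exact_mod_cast h5
    rw [geom_sum_eq h1, ← maj_ee_nat_mul, mul_div_cancel₀ _ hq', maj_ee_int, sub_self, zero_div]

lemma maj_expand (q : ℕ) (hq : 0 < q) (a : ℤ) (m : ℕ) :
    ee ((a : ℝ) * (m : ℝ) ^ 2 / q) = ∑ b ∈ range q,
      (∑ r ∈ range q, ee (((a : ℝ) * (r : ℝ) ^ 2 + ((b : ℤ) : ℝ) * r) / q)) / q *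
        ee (-((b : ℝ) * m / q)) := by
  have hq' : (q : ℝ) ≠ 0 := by positivity
  have hq'' : (q : ℂ) ≠ 0 := by exact_mod_cast hq.ne'
  have h1 : ∀ b r : ℕ, ee (((a : ℝ) * (r : ℝ) ^ 2 + ((b : ℤ) : ℝ) * r) / q) / q *
      ee (-((b : ℝ) * m / q)) = ee ((a : ℝ) * (r : ℝ) ^ 2 / q) / q *
        ee ((b : ℝ) * ((((r : ℤ) - m : ℤ) : ℝ) / q)) := by
    intro b r
    rw [div_mul_eq_mul_div, div_mul_eq_mul_div, ← maj_ee_add, ← maj_ee_add]
    congr 2
    push_cast
    ring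
  simp only [sum_div, sum_mul, h1]
  rw [sum_comm]
  simp only [← mul_sum, maj_orth q hq]
  rw [sum_eq_single (m % q)]
  · have h2 : (q : ℤ) ∣ ((m % q : ℕ) : ℤ) - m := (Nat.mod_modEq m q).symm.dvd
    rw [if_pos h2, div_mul_cancel₀ _ hq'']
    obtain ⟨c, hc⟩ := h2
    have h3 : ((m % q : ℕ) : ℝ) = m + q * c := by
      have : ((m % q : ℕ) : ℤ) = m + q * c := by linarith
      have h5 := congrArg (Int.cast : ℤ → ℝ) this
      rwa [Int.cast_natCast, Int.cast_add, Int.cast_mul, Int.cast_natCast, Int.cast_natCast] at h5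
    have h4 : (a : ℝ) * ((m % q : ℕ) : ℝ) ^ 2 / q =
        (a : ℝ) * (m : ℝ) ^ 2 / q + ((a * (2 * m * c + q * c ^ 2) : ℤ) : ℝ) := by
      rw [h3]
      push_cast
      field_simp
      ring
    rw [h4, maj_ee_add, maj_ee_int, mul_one]
  · intro r hr hne
    rw [if_neg, mul_zero]
    intro h
    have h2 : m ≡ r [MOD q] := (Nat.modEq_iff_dvd).2 h
    exact hne (by rw [h2, Nat.mod_eq_of_lt (mem_range.1 hr)])
  · intro h
    exact absurd (mem_range.2 (Nat.mod_lt _ hq)) h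

/-- Summation by parts. -/
lemma maj_abel (E g : ℕ → ℂ) (hE : ∀ m, ‖E m‖ ≤ 1) (M : ℕ) (hM : 1 ≤ M) :
    ‖∑ m ∈ Ioc 0 M, (E (m + 1) - E m) * g m‖ ≤
      ‖g 1‖ + ‖g M‖ + ∑ m ∈ Ico 1 M, ‖g (m + 1) - g m‖ := by
  have h : ∑ m ∈ Ioc 0 M, (E (m + 1) - E m) * g m =
      E (M + 1) * g M - E 1 * g 1 - ∑ m ∈ Ico 1 M, E (m + 1) * (g (m + 1) - g m) := by
    induction M, hM using Nat.le_induction with
    | base => simp; ring
    | succ M hM ih => rw [sum_Ioc_succ_top (Nat.zero_le _), sum_Ico_succ_top hM, ih]; ring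
  have h2 : ∀ m (z : ℂ), ‖E m * z‖ ≤ ‖z‖ := fun m z => by
    rw [norm_mul]
    exact mul_le_of_le_one_left (norm_nonneg _) (hE m)
  rw [h]
  refine (norm_sub_le _ _).trans (add_le_add ((norm_sub_le _ _).trans ?_)
    ((norm_sum_le _ _).trans (sum_le_sum fun m _ => h2 _ _)))
  rw [add_comm]
  exact add_le_add (h2 _ _) (h2 _ _)

/-- The nonzero frequencies. -/
lemma maj_nonzero (q b M : ℕ) (hb : 1 ≤ b) (hbq : b < q) (β : ℝ) (hβ : |β| * M ≤ 1 / (4 * q)) :
    ‖∑ m ∈ Ioc 0 M, (2 * m : ℂ) * ee (β * (m : ℝ) ^ 2 - (b : ℝ) * m / q)‖ ≤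
      5 * M * q * (1 / (b : ℝ) + 1 / ((q - b : ℕ) : ℝ)) := by
  rcases Nat.eq_zero_or_pos M with rfl | hM
  · simp
  have hq : (0 : ℝ) < q := by exact_mod_cast (by omega : 0 < q)
  have hb' : (1 : ℝ) ≤ b := by exact_mod_cast hb
  have hqb : ((q - b : ℕ) : ℝ) = q - b := by rw [Nat.cast_sub hbq.le]
  have hqb' : (1 : ℝ) ≤ q - b := by rw [← hqb]; exact_mod_cast (by omega : 1 ≤ q - b)
  set s : ℝ := min (b : ℝ) (q - b) / q with hs
  have hmin : (1 : ℝ) ≤ min (b : ℝ) (q - b) := le_min hb' hqb'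
  have hs0 : 0 < s := by positivity
  have hs1 : 1 / (q : ℝ) ≤ s := div_le_div_of_nonneg_right hmin hq.le
  have hs2 : 1 / s ≤ q * (1 / (b : ℝ) + 1 / ((q - b : ℕ) : ℝ)) := by
    rw [hs, one_div_div, hqb, div_eq_mul_one_div]
    refine mul_le_mul_of_nonneg_left ?_ hq.le
    have h1 : (0 : ℝ) ≤ 1 / (b : ℝ) := by positivity
    have h2 : (0 : ℝ) ≤ 1 / ((q : ℝ) - b) := by positivity
    rcases min_choice (b : ℝ) (q - b) with h | h <;> rw [h] <;> linarith
  set ψ : ℕ → ℝ := fun m => 2 * π * ((b : ℝ) / (2 * q) - β * m) with hψ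
  have hβm : ∀ m : ℕ, m ≤ M → |β| * m ≤ 1 / (4 * q) := fun m hm =>
    (mul_le_mul_of_nonneg_left (by exact_mod_cast hm) (abs_nonneg β)).trans hβ
  have hsin : ∀ m : ℕ, m ≤ M → s ≤ Real.sin (ψ m) := by
    intro m hm
    have h1 := hβm m hm
    have h2 : |β * m| ≤ 1 / (4 * q) := by rwa [abs_mul, Nat.abs_cast]
    obtain ⟨h3, h4⟩ := abs_le.1 h2
    have h5 : s ≤ b / q := div_le_div_of_nonneg_right (min_le_left _ _) hq.le
    have h6 : s ≤ (q - b) / q := div_le_div_of_nonneg_right (min_le_right _ _) hq.le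
    have h7 : (1 : ℝ) / q ≤ b / q := div_le_div_of_nonneg_right hb' hq.le
    have h8 : (1 : ℝ) / q ≤ (q - b) / q := div_le_div_of_nonneg_right hqb' hq.le
    have e1 : (b : ℝ) / (2 * q) = b / q / 2 := by field_simp
    have e2 : (1 : ℝ) / (4 * q) = 1 / q / 4 := by field_simp
    have e3 : ((q : ℝ) - b) / q = 1 - b / q := by field_simp
    rw [e2] at h3 h4
    rw [e3] at h6 h8
    have key : ∀ y : ℝ, s ≤ 4 * y → y ≤ 1 / 4 → s ≤ Real.sin (2 * π * y) := by
      intro y hy hy'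
      have := Real.mul_le_sin (x := 2 * π * y) (by have := Real.pi_pos; nlinarith)
        (by have := Real.pi_pos; nlinarith)
      have e : 2 / π * (2 * π * y) = 4 * y := by field_simp; ring
      linarith
    rcases le_total ((b : ℝ) / (2 * q) - β * m) (1 / 4) with h | h
    · exact key _ (by rw [e1]; linarith) h
    · have := key (1 / 2 - ((b : ℝ) / (2 * q) - β * m)) (by rw [e1]; linarith) (by linarith)
      rwa [mul_sub, show 2 * π * (1 / 2) = π by ring, Real.sin_pi_sub] at this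
  set E : ℕ → ℂ := fun m => ee (β * ((m : ℝ) ^ 2 - m) - (b : ℝ) * m / q + b / (2 * q)) with hE
  set g : ℕ → ℂ := fun m => I * (((m : ℝ) / Real.sin (ψ m) : ℝ) : ℂ) with hg
  have hterm : ∀ m ∈ Ioc 0 M, (2 * m : ℂ) * ee (β * (m : ℝ) ^ 2 - (b : ℝ) * m / q) =
      (E (m + 1) - E m) * g m := by
    intro m hm
    have h0 : Real.sin (ψ m) ≠ 0 := (hs0.trans_le (hsin m (mem_Ioc.1 hm).2)).ne'
    have h0' : ((Real.sin (ψ m) : ℝ) : ℂ) ≠ 0 := by exact_mod_cast h0
    have h1 := maj_ee_sub (β * (m : ℝ) ^ 2 - (b : ℝ) * m / q) ((b : ℝ) / (2 * q) - β * m)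
    have h2 : E m = ee (β * (m : ℝ) ^ 2 - (b : ℝ) * m / q + ((b : ℝ) / (2 * q) - β * m)) := by
      simp only [hE]
      congr 1
      ring
    have h3 : E (m + 1) =
        ee (β * (m : ℝ) ^ 2 - (b : ℝ) * m / q - ((b : ℝ) / (2 * q) - β * m)) := by
      simp only [hE]
      congr 1
      push_cast
      field_simp
      ring
    rw [← neg_sub (E m), h2, h3, h1]
    simp only [hg]
    rw [Complex.ofReal_div]
    change _ = -(_ * (2 * I * ((Real.sin (ψ m) : ℝ) : ℂ))) * _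
    field_simp
    simp [mul_comm]
  have hgn : ∀ m : ℕ, m ≤ M → ‖g m‖ ≤ M / s := by
    intro m hm
    simp only [hg]
    rw [norm_mul, Complex.norm_I, one_mul, Complex.norm_real, Real.norm_eq_abs,
      abs_of_nonneg (div_nonneg (by positivity) (hs0.le.trans (hsin m hm)))]
    exact div_le_div₀ (by positivity) (by exact_mod_cast hm) hs0 (hsin m hm)
  have hvar : ∀ m ∈ Ico 1 M, ‖g (m + 1) - g m‖ ≤ 3 / s := by
    intro m hm
    have hm' := (mem_Ico.1 hm).2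
    have h1 := hsin m hm'.le
    have h2 := hsin (m + 1) hm'
    have h1' := hs0.trans_le h1
    have h2' := hs0.trans_le h2
    have h3 : |Real.sin (ψ m) - Real.sin (ψ (m + 1))| ≤ 2 * π * |β| := by
      refine (Real.abs_sin_sub_sin_le _ _).trans (le_of_eq ?_)
      have : ψ m - ψ (m + 1) = 2 * π * β := by
        simp only [hψ]
        push_cast
        ring
      rw [this, abs_mul, abs_of_pos (by positivity : (0 : ℝ) < 2 * π)]
    have h4 : (m : ℝ) * (2 * π * |β|) ≤ 2 * s := by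
      have h5 := hβm m hm'.le
      have h6 : (1 : ℝ) / (4 * q) = 1 / q / 4 := by field_simp
      have h7 : (0 : ℝ) ≤ |β| * m := by positivity
      have := Real.pi_le_four
      nlinarith
    simp only [hg]
    rw [← mul_sub, norm_mul, Complex.norm_I, one_mul, ← Complex.ofReal_sub, Complex.norm_real,
      Real.norm_eq_abs]
    have e : ((m + 1 : ℕ) : ℝ) / Real.sin (ψ (m + 1)) - m / Real.sin (ψ m) =
        1 / Real.sin (ψ (m + 1)) + m * (Real.sin (ψ m) - Real.sin (ψ (m + 1))) /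
          (Real.sin (ψ m) * Real.sin (ψ (m + 1))) := by
      push_cast
      field_simp
      ring
    rw [e]
    refine (abs_add_le _ _).trans ?_
    have h8 : |1 / Real.sin (ψ (m + 1))| ≤ 1 / s := by
      rw [abs_of_pos (by positivity)]
      exact one_div_le_one_div_of_le hs0 h2
    have h9 : |m * (Real.sin (ψ m) - Real.sin (ψ (m + 1))) /
        (Real.sin (ψ m) * Real.sin (ψ (m + 1)))| ≤ 2 * s / (s * s) := by
      rw [abs_div, abs_mul, Nat.abs_cast, abs_of_pos (mul_pos h1' h2')]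
      exact div_le_div₀ (by positivity)
        ((mul_le_mul_of_nonneg_left h3 (by positivity)).trans h4) (by positivity)
        (mul_le_mul h1 h2 hs0.le h1'.le)
    have e2 : 3 / s = 1 / s + 2 * s / (s * s) := by field_simp; ring
    linarith
  rw [sum_congr rfl hterm]
  refine (maj_abel E g (fun m => (maj_ee_norm _).le) M hM).trans ?_
  have h1 := hgn 1 hM
  have h2 := hgn M le_rfl
  have h3 : ∑ m ∈ Ico 1 M, ‖g (m + 1) - g m‖ ≤ M * (3 / s) := by
    refine (sum_le_card_nsmul _ _ _ hvar).trans ?_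
    rw [nsmul_eq_mul, Nat.card_Ico]
    exact mul_le_mul_of_nonneg_right (by exact_mod_cast Nat.sub_le _ _) (by positivity)
  have h4 : (5 : ℝ) * M * (1 / s) ≤ 5 * M * (q * (1 / (b : ℝ) + 1 / ((q - b : ℕ) : ℝ))) :=
    mul_le_mul_of_nonneg_left hs2 (by positivity)
  have e1 : (M : ℝ) / s = M * (1 / s) := by ring
  have e2 : (M : ℝ) * (3 / s) = 3 * (M * (1 / s)) := by ring
  nlinarith

lemma maj_h_bounds {c t : ℝ} (hc : 0 < c) (ht : 0 < t) (h : c * t ≤ π / 2) :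
    0 < Real.sin (c * t) ∧ 1 / c ≤ t / Real.sin (c * t) ∧ t / Real.sin (c * t) ≤ 1 / c + t := by
  have h0 : 0 < c * t := mul_pos hc ht
  have h1 : 0 < Real.sin (c * t) := Real.sin_pos_of_pos_of_lt_pi h0 (by linarith [Real.pi_pos])
  refine ⟨h1, ?_, ?_⟩
  · rw [div_le_div_iff₀ hc h1]
    have := Real.sin_le h0.le
    linarith
  · rw [div_le_iff₀ h1]
    have h2 := Real.sin_ge_sub_cube h0.le
    have h3 : c * t ≤ 2 := by linarith [Real.pi_le_four]
    have h4 : c * t ≤ (1 + c * t) * Real.sin (c * t) := by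
      generalize c * t = θ at *
      have h5 : (1 + θ) * (θ - θ ^ 3 / 6) ≤ (1 + θ) * Real.sin θ :=
        mul_le_mul_of_nonneg_left h2 (by linarith)
      have h6 : 0 ≤ θ ^ 2 * (6 - θ - θ ^ 2) := mul_nonneg (by positivity) (by nlinarith)
      nlinarith
    have e : (1 / c + t) * Real.sin (c * t) = (1 + c * t) * Real.sin (c * t) / c := by
      field_simp
    rw [e, le_div_iff₀ hc]
    linarith

lemma maj_h_mono {c : ℝ} (hc : 0 < c) {m : ℕ} (hm : 1 ≤ m) (h : c * ((m + 1 : ℕ) : ℝ) ≤ π / 2) :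
    (m : ℝ) / Real.sin (c * m) ≤ ((m + 1 : ℕ) : ℝ) / Real.sin (c * ((m + 1 : ℕ) : ℝ)) := by
  have hm' : (0 : ℝ) < m := by exact_mod_cast hm
  push_cast at h ⊢
  have h1 := (maj_h_bounds hc hm' (by nlinarith)).1
  have h2 := (maj_h_bounds hc (by positivity : (0 : ℝ) < m + 1) h).1
  rw [div_le_div_iff₀ h1 h2]
  have h3 := strictConcaveOn_sin_Icc.concaveOn.2
    (show (0 : ℝ) ∈ Set.Icc 0 π from ⟨le_rfl, Real.pi_pos.le⟩)
    (show c * (m + 1) ∈ Set.Icc 0 π from ⟨by positivity, by linarith [Real.pi_pos]⟩)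
    (show (0 : ℝ) ≤ 1 / (m + 1) by positivity) (show (0 : ℝ) ≤ m / (m + 1) by positivity)
    (by field_simp; ring)
  have e : (m : ℝ) / (m + 1) * (c * (m + 1)) = c * m := by field_simp
  simp only [smul_eq_mul, Real.sin_zero, mul_zero, zero_add, e] at h3
  rw [div_mul_eq_mul_div, div_le_iff₀ (by positivity)] at h3
  linarith

/-- The zero frequency, positive `β`. -/
lemma maj_zero_pos (M : ℕ) (β : ℝ) (hβ0 : 0 < β) (hβ : β * M ≤ 1 / 4) :
    ‖∑ m ∈ Ioc 0 M, (2 * m : ℂ) * ee (β * (m : ℝ) ^ 2) -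
      ∑ x ∈ Ioc 0 (M ^ 2 + M), ee (x * β)‖ ≤ 7 * M := by
  rcases Nat.eq_zero_or_pos M with rfl | hM
  · simp
  have hM' : (1 : ℝ) ≤ M := by exact_mod_cast hM
  set c : ℝ := 2 * π * β with hc
  have hc0 : 0 < c := by positivity
  have hct : ∀ t : ℝ, t ≤ M → c * t ≤ π / 2 := by
    intro t ht
    have h1 : β * t ≤ 1 / 4 := (mul_le_mul_of_nonneg_left ht hβ0.le).trans hβ
    have := Real.pi_pos
    rw [hc]
    nlinarith
  set h : ℝ → ℝ := fun t => t / Real.sin (c * t) with hh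
  set E : ℕ → ℂ := fun m => ee (β * ((m : ℝ) ^ 2 - m + 1 / 2)) with hE
  set g : ℕ → ℂ := fun m => -I * (ee (-(β / 2)) * (h m : ℂ) - (h (1 / 2) : ℂ)) with hg
  obtain ⟨b1, b2, b3⟩ := maj_h_bounds hc0 (t := 1 / 2) (by norm_num) (hct _ (by linarith))
  have hgeo : ∀ N : ℕ, ∑ x ∈ Ioc 0 N, ee (x * β) =
      (ee (β * (N + 1 / 2)) - ee (β / 2)) * (-I * (h (1 / 2) : ℂ)) := by
    intro N
    induction N with
    | zero => simp; left; ring_nf
    | succ N ih =>
      rw [sum_Ioc_succ_top (Nat.zero_le _), ih]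
      have h1 := maj_ee_sub (((N + 1 : ℕ) : ℝ) * β) (β / 2)
      have e1 : ((N + 1 : ℕ) : ℝ) * β + β / 2 = β * (((N + 1 : ℕ) : ℝ) + 1 / 2) := by ring
      have e2 : ((N + 1 : ℕ) : ℝ) * β - β / 2 = β * ((N : ℝ) + 1 / 2) := by push_cast; ring
      have e3 : 2 * π * (β / 2) = c * (1 / 2) := by rw [hc]; ring
      rw [e1, e2, e3] at h1
      have h2 : (2 * I * Real.sin (c * (1 / 2)) : ℂ) * (-I * (h (1 / 2) : ℂ)) = 1 := by
        have h0' : ((Real.sin (c * (1 / 2)) : ℝ) : ℂ) ≠ 0 := by exact_mod_cast b1.ne'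
        simp only [hh]
        rw [Complex.ofReal_div]
        generalize ((Real.sin (c * (1 / 2)) : ℝ) : ℂ) = z at h0' ⊢
        field_simp
        simp
      linear_combination (-(-I * (h (1 / 2) : ℂ))) * h1 - ee (((N + 1 : ℕ) : ℝ) * β) * h2
  have htel : ∀ N : ℕ, ∑ m ∈ Ioc 0 N, (E (m + 1) - E m) = E (N + 1) - E 1 := by
    intro N
    induction N with
    | zero => simp
    | succ N ih => rw [sum_Ioc_succ_top (Nat.zero_le _), ih]; ring
  have hP : ∑ x ∈ Ioc 0 (M ^ 2 + M), ee (x * β) =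
      ∑ m ∈ Ioc 0 M, (E (m + 1) - E m) * (-I * (h (1 / 2) : ℂ)) := by
    rw [hgeo, ← sum_mul, htel]
    simp only [hE]
    congr 3
    · push_cast
      ring
    · push_cast
      ring
  have hbd : ∀ m : ℕ, 1 ≤ m → m ≤ M →
      0 < Real.sin (c * m) ∧ 1 / c ≤ h m ∧ h m ≤ 1 / c + m := fun m h1 h2 =>
    maj_h_bounds hc0 (by exact_mod_cast h1) (hct _ (by exact_mod_cast h2))
  have hterm : ∀ m ∈ Ioc 0 M, (2 * m : ℂ) * ee (β * (m : ℝ) ^ 2) -
      (E (m + 1) - E m) * (-I * (h (1 / 2) : ℂ)) = (E (m + 1) - E m) * g m := by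
    intro m hm
    have h0' : ((Real.sin (c * m) : ℝ) : ℂ) ≠ 0 := by
      exact_mod_cast (hbd m (mem_Ioc.1 hm).1 (mem_Ioc.1 hm).2).1.ne'
    have h1 := maj_ee_sub (β * (m : ℝ) ^ 2 + β / 2) (β * m)
    have h2 : E m = ee (β * (m : ℝ) ^ 2 + β / 2 - β * m) := by
      simp only [hE]
      congr 1
      ring
    have h3 : E (m + 1) = ee (β * (m : ℝ) ^ 2 + β / 2 + β * m) := by
      simp only [hE]
      congr 1
      push_cast
      ring
    have e3 : 2 * π * (β * m) = c * m := by rw [hc]; ring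
    have h4 : ee (β * (m : ℝ) ^ 2 + β / 2) * ee (-(β / 2)) = ee (β * (m : ℝ) ^ 2) := by
      rw [← maj_ee_add, add_neg_cancel_right]
    have h5 : (2 * I * Real.sin (c * m) : ℂ) * (-I * (h m : ℂ)) = 2 * m := by
      simp only [hh]
      rw [Complex.ofReal_div]
      field_simp
      simp
    rw [h2, h3, h1, e3, ← h4, ← h5]
    simp only [hg]
    ring
  have hgn : ∀ m : ℕ, 1 ≤ m → m ≤ M → ‖g m‖ ≤ m + 2 := by
    intro m h1 h2
    obtain ⟨-, a2, a3⟩ := hbd m h1 h2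
    have h1' : (1 : ℝ) ≤ m := by exact_mod_cast h1
    have hm0 : 0 ≤ h m := le_trans (by positivity) a2
    have e : ee (-(β / 2)) * (h m : ℂ) - (h (1 / 2) : ℂ) =
        (ee (-(β / 2)) - 1) * (h m : ℂ) + ((h m - h (1 / 2) : ℝ) : ℂ) := by push_cast; ring
    simp only [hg]
    rw [norm_mul, norm_neg, Complex.norm_I, one_mul, e]
    refine (norm_add_le _ _).trans ?_
    rw [norm_mul, Complex.norm_real, Complex.norm_real, Real.norm_eq_abs, Real.norm_eq_abs,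
      abs_of_nonneg hm0]
    have h3 : ‖ee (-(β / 2)) - 1‖ ≤ c / 2 := by
      refine (maj_ee_sub_one _).trans (le_of_eq ?_)
      rw [abs_neg, abs_of_pos (by positivity), hc]
      ring
    have h4 : ‖ee (-(β / 2)) - 1‖ * h m ≤ c / 2 * (1 / c + m) :=
      mul_le_mul h3 a3 hm0 (by positivity)
    have h5 : c / 2 * (1 / c + m) = 1 / 2 + c * m / 2 := by field_simp
    have h6 := hct m (by exact_mod_cast h2)
    have h7 : |h m - h (1 / 2)| ≤ m := by
      change 1 / c ≤ h (1 / 2) at b2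
      change h (1 / 2) ≤ _ at b3
      rw [abs_le]
      constructor <;> linarith
    have := Real.pi_le_four
    linarith
  have hvar : ∀ N : ℕ, 1 ≤ N → N ≤ M → ∑ m ∈ Ico 1 N, ‖g (m + 1) - g m‖ = h N - h 1 := by
    intro N hN
    induction N, hN using Nat.le_induction with
    | base => simp
    | succ N hN ih =>
      intro hNM
      rw [sum_Ico_succ_top hN, ih (by omega)]
      have h1 : h N ≤ h ((N + 1 : ℕ) : ℝ) := maj_h_mono hc0 hN (hct _ (by exact_mod_cast hNM))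
      have e : g (N + 1) - g N =
          -I * ee (-(β / 2)) * ((h ((N + 1 : ℕ) : ℝ) - h N : ℝ) : ℂ) := by
        simp only [hg]
        rw [Complex.ofReal_sub]
        ring
      rw [e, norm_mul, norm_mul, norm_neg, Complex.norm_I, maj_ee_norm, Complex.norm_real,
        Real.norm_eq_abs, abs_of_nonneg (by linarith)]
      ring
  rw [hP, ← sum_sub_distrib, sum_congr rfl hterm]
  refine (maj_abel E g (fun m => (maj_ee_norm _).le) M hM).trans ?_
  rw [hvar M hM le_rfl]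
  have h1 := hgn 1 le_rfl hM
  have h2 := hgn M hM le_rfl
  have h3 := (hbd 1 le_rfl hM).2.1
  have h4 := (hbd M hM le_rfl).2.2
  rw [Nat.cast_one] at h1 h3
  linarith

/-- The zero frequency. -/
lemma maj_zero (M v : ℕ) (h1 : M ^ 2 ≤ v) (h2 : v ≤ M ^ 2 + 2 * M) (β : ℝ)
    (hβ : |β| * M ≤ 1 / 4) :
    ‖∑ m ∈ Ioc 0 M, (2 * m : ℂ) * ee (β * (m : ℝ) ^ 2) - ∑ x ∈ Ioc 0 v, ee (x * β)‖ ≤ 8 * M := by
  have h3 : ‖∑ m ∈ Ioc 0 M, (2 * m : ℂ) * ee (β * (m : ℝ) ^ 2) -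
      ∑ x ∈ Ioc 0 (M ^ 2 + M), ee (x * β)‖ ≤ 7 * M := by
    rcases lt_trichotomy β 0 with h | rfl | h
    · have := maj_zero_pos M (-β) (by linarith) (by rwa [abs_of_neg h] at hβ)
      rw [← Complex.norm_conj] at this
      simpa [maj_ee_conj, map_ofNat] using this
    · have e : ∀ N : ℕ, ∑ m ∈ Ioc 0 N, (2 * m : ℂ) = N ^ 2 + N := by
        intro N
        induction N with
        | zero => simp
        | succ N ih => rw [sum_Ioc_succ_top (Nat.zero_le _), ih]; push_cast; ring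
      simp [maj_ee_zero, e]
    · exact maj_zero_pos M β h (by rwa [abs_of_pos h] at hβ)
  have h4 : ∀ A B : ℕ, A ≤ B → B ≤ A + M →
      ‖∑ x ∈ Ioc 0 B, ee (x * β) - ∑ x ∈ Ioc 0 A, ee (x * β)‖ ≤ M := by
    intro A B hAB hBA
    rw [← sum_Ioc_consecutive _ (Nat.zero_le A) hAB, add_sub_cancel_left]
    refine (norm_sum_le _ _).trans ?_
    simp only [maj_ee_norm, sum_const, Nat.card_Ioc, nsmul_eq_mul, mul_one]
    exact_mod_cast (by omega : B - A ≤ M)
  have h5 : ‖∑ x ∈ Ioc 0 (M ^ 2 + M), ee (x * β) - ∑ x ∈ Ioc 0 v, ee (x * β)‖ ≤ M := by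
    rcases le_total v (M ^ 2 + M) with h | h
    · exact h4 _ _ h (by omega)
    · rw [norm_sub_rev]
      exact h4 _ _ h (by omega)
  have h6 := norm_sub_le_norm_sub_add_norm_sub
    (∑ m ∈ Ioc 0 M, (2 * m : ℂ) * ee (β * (m : ℝ) ^ 2))
    (∑ x ∈ Ioc 0 (M ^ 2 + M), ee (x * β)) (∑ x ∈ Ioc 0 v, ee (x * β))
  linarith

lemma maj_sq_sum (v : ℕ) (F : ℕ → ℂ) :
    ∑ x ∈ Ioc 0 v, (sqw x : ℂ) * F x = ∑ m ∈ Ioc 0 v.sqrt, (2 * m : ℂ) * F (m ^ 2) := by
  have h1 : (Ioc 0 v).filter IsSquare = (Ioc 0 v.sqrt).image (· ^ 2) := by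
    ext x
    simp only [mem_filter, mem_Ioc, mem_image]
    constructor
    · rintro ⟨⟨h1, h2⟩, m, rfl⟩
      exact ⟨m, ⟨Nat.pos_of_mul_pos_left h1, Nat.le_sqrt.2 h2⟩, sq m⟩
    · rintro ⟨m, ⟨h1, h2⟩, rfl⟩
      exact ⟨⟨by positivity, Nat.le_sqrt'.1 h2⟩, m, sq m⟩
  rw [← sum_filter_of_ne (p := IsSquare), h1, sum_image]
  · refine sum_congr rfl fun m _ => ?_
    unfold sqw
    rw [if_pos ⟨m, sq m⟩]
    simp
  · intro a _ b _ h
    exact Nat.pow_left_injective two_ne_zero h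
  · intro x _ h
    by_contra h'
    simp [sqw, h'] at h

lemma maj_harm (q : ℕ) :
    ∑ b ∈ Ico 1 q, (1 / (b : ℝ) + 1 / ((q - b : ℕ) : ℝ)) ≤ 2 * (1 + Real.log q) := by
  have h1 : ∑ b ∈ Ico 1 q, 1 / (b : ℝ) ≤ 1 + Real.log q := by
    refine le_trans ?_ (harmonic_le_one_add_log q)
    rw [harmonic_eq_sum_Icc]
    push_cast
    simp only [one_div]
    exact sum_le_sum_of_subset_of_nonneg Ico_subset_Icc_self fun _ _ _ => by positivity
  have h2 : ∑ b ∈ Ico 1 q, 1 / ((q - b : ℕ) : ℝ) = ∑ b ∈ Ico 1 q, 1 / (b : ℝ) := by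
    have := sum_Ico_reflect (fun b : ℕ => 1 / (b : ℝ)) 1 (m := q) (n := q) (Nat.le_succ q)
    rw [this]
    congr 2
    omega
  rw [sum_add_distrib, h2]
  linarith

lemma maj_prefix (hG : St_GAU) (X q v : ℕ) (a : ℤ) (β : ℝ) (hX : 1 ≤ X) (hq : 0 < q)
    (ha : IsCoprime a (q : ℤ)) (hβ : |β| ≤ 1 / (8 * q * √(X : ℝ))) (hv : v ≤ 2 * X) :
    ‖∑ x ∈ Ioc 0 v, (sqw x : ℂ) * ee (x * ((a : ℝ) / q + β))
      - gS a q / q * ∑ x ∈ Ioc 0 v, ee (x * β)‖ ≤ 72 * √((X : ℝ) * q) * (1 + Real.log q) := by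
  set M := v.sqrt with hM
  have hq1 : (1 : ℝ) ≤ q := by exact_mod_cast hq
  have hX0 : (0 : ℝ) < √(X : ℝ) := Real.sqrt_pos.2 (by exact_mod_cast hX)
  have hM1 : M ^ 2 ≤ v := Nat.sqrt_le' v
  have hM2 : v ≤ M ^ 2 + 2 * M := by
    have := Nat.lt_succ_sqrt' v
    rw [← hM, Nat.succ_eq_add_one] at this
    nlinarith
  have hM3 : (M : ℝ) ≤ 2 * √(X : ℝ) := by
    refine abs_le_of_sq_le_sq' ?_ (by positivity) |>.2
    rw [mul_pow, Real.sq_sqrt (by positivity)]
    exact_mod_cast (by omega : M ^ 2 ≤ 2 ^ 2 * X)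
  have hβ1 : |β| * M ≤ 1 / (4 * q) := by
    refine (mul_le_mul hβ hM3 (by positivity) (by positivity)).trans (le_of_eq ?_)
    field_simp
    ring
  have hβ2 : |β| * M ≤ 1 / 4 := hβ1.trans (one_div_le_one_div_of_le (by norm_num) (by linarith))
  set S : ℕ → ℂ := fun b =>
    ∑ r ∈ range q, ee (((a : ℝ) * (r : ℝ) ^ 2 + ((b : ℤ) : ℝ) * r) / q) with hS
  set T : ℕ → ℂ := fun b =>
    ∑ m ∈ Ioc 0 M, (2 * m : ℂ) * ee (β * (m : ℝ) ^ 2 - (b : ℝ) * m / q) with hT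
  have hSn : ∀ b, ‖S b / q‖ ≤ √(2 * (q : ℝ)) / q := fun b => by
    rw [norm_div, Complex.norm_natCast]
    exact div_le_div_of_nonneg_right (hG.1 q a b hq ha) (by positivity)
  have h1 : ∑ x ∈ Ioc 0 v, (sqw x : ℂ) * ee (x * ((a : ℝ) / q + β)) =
      ∑ b ∈ range q, S b / q * T b := by
    rw [maj_sq_sum v fun x => ee (x * ((a : ℝ) / q + β))]
    simp only [hT, mul_sum]
    rw [sum_comm]
    refine sum_congr rfl fun m _ => ?_
    have e : ((m ^ 2 : ℕ) : ℝ) * ((a : ℝ) / q + β) =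
        (a : ℝ) * (m : ℝ) ^ 2 / q + β * (m : ℝ) ^ 2 := by push_cast; ring
    rw [e, maj_ee_add, maj_expand q hq a m, sum_mul, mul_sum]
    refine sum_congr rfl fun b _ => ?_
    rw [sub_eq_add_neg, maj_ee_add]
    simp only [hS]
    ring
  have h2 : S 0 = gS a q := by simp [hS, gS]
  have h3 : T 0 = ∑ m ∈ Ioc 0 M, (2 * m : ℂ) * ee (β * (m : ℝ) ^ 2) := by simp [hT]
  rw [h1, range_eq_Ico, sum_eq_sum_Ico_succ_bot hq, ← h2, add_sub_right_comm, ← mul_sub, h3]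
  refine (norm_add_le _ _).trans ?_
  have h4 : ‖S 0 / q * (∑ m ∈ Ioc 0 M, (2 * m : ℂ) * ee (β * (m : ℝ) ^ 2) -
      ∑ x ∈ Ioc 0 v, ee (x * β))‖ ≤ √(2 * (q : ℝ)) / q * (8 * M) := by
    rw [norm_mul]
    exact mul_le_mul (hSn 0) (maj_zero M v hM1 hM2 β hβ2) (norm_nonneg _) (by positivity)
  have h5 : ‖∑ b ∈ Ico (0 + 1) q, S b / q * T b‖ ≤
      √(2 * (q : ℝ)) / q * (5 * M * q * (2 * (1 + Real.log q))) := by
    refine (norm_sum_le _ _).trans ?_
    refine le_trans (sum_le_sum (g := fun b : ℕ => √(2 * (q : ℝ)) / q *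
      (5 * M * q * (1 / (b : ℝ) + 1 / ((q - b : ℕ) : ℝ)))) fun b hb => ?_) ?_
    · rw [norm_mul]
      exact mul_le_mul (hSn b) (maj_nonzero q b M (mem_Ico.1 hb).1 (mem_Ico.1 hb).2 β hβ1)
        (norm_nonneg _) (by positivity)
    · rw [← mul_sum, ← mul_sum]
      exact mul_le_mul_of_nonneg_left
        (mul_le_mul_of_nonneg_left (maj_harm q) (by positivity)) (by positivity)
  have hl : 0 ≤ Real.log q := Real.log_nonneg hq1
  have h6 : √(2 * (q : ℝ)) / q * (8 * M) ≤ √(2 * (q : ℝ)) * (8 * M) * (1 + Real.log q) := by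
    refine le_trans (mul_le_mul_of_nonneg_right (div_le_self (by positivity) hq1)
      (by positivity)) (le_mul_of_one_le_right (by positivity) (by linarith))
  have h7 : √(2 * (q : ℝ)) / q * (5 * M * q * (2 * (1 + Real.log q))) =
      √(2 * (q : ℝ)) * (10 * M) * (1 + Real.log q) := by
    field_simp
    ring
  have h8 : √(2 * (q : ℝ)) * M ≤ 4 * √((X : ℝ) * q) := by
    have h9 : √(2 * (q : ℝ)) ≤ 2 * √(q : ℝ) := by
      refine Real.sqrt_le_iff.2 ⟨by positivity, ?_⟩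
      rw [mul_pow, Real.sq_sqrt (by positivity)]
      linarith
    rw [Real.sqrt_mul (by positivity : (0 : ℝ) ≤ X)]
    have := mul_le_mul h9 hM3 (by positivity) (by positivity)
    linarith
  have h10 := mul_le_mul_of_nonneg_right h8 (by linarith : 0 ≤ 1 + Real.log q)
  linarith

theorem blk_MAJ (hG : St_GAU) : St_MAJ := by
  refine ⟨144, by norm_num, fun X q u v a β hX hq ha hβ _ hv => ?_⟩
  have hl : 0 ≤ Real.log q := Real.log_nonneg (by exact_mod_cast hq)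
  rcases le_total v u with h | h
  · rw [Ioc_eq_empty_of_le h]
    simp only [sum_empty, mul_zero, sub_zero, norm_zero]
    positivity
  · have h1 := maj_prefix hG X q v a β hX hq ha hβ hv
    have h2 := maj_prefix hG X q u a β hX hq ha hβ (h.trans hv)
    rw [← sum_Ioc_consecutive _ (Nat.zero_le u) h, ← sum_Ioc_consecutive _ (Nat.zero_le u) h] at h1
    have h3 := norm_sub_le_of_le h1 h2
    have e : ∀ A B C D G : ℂ, A + B - G * (C + D) - (A - G * C) = B - G * D := by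
      intros
      ring
    rw [e] at h3
    linarith

end Pool.Agent.Lib.PS
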