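import Pool.Agent.Lib.PS.Blue

/-! Mertens type estimates for the von Mangoldt function. -/

namespace Pool.Agent.Lib.PS

open Finset Real MeasureTheory
open scoped ArithmeticFunction.vonMangoldt Classical

lemma mert_Icc (y : ℕ) : Icc 1 y = Ioc 0 y := by
  ext n; simp only [mem_Icc, mem_Ioc]; omega

lemma mert_log_lower (y : ℕ) :
    (y : ℝ) * Real.log y - y ≤ ∑ n ∈ Ioc 0 y, Real.log n := by
  induction y with
  | zero => simp
  | succ y ih =>
    rw [sum_Ioc_succ_top (Nat.zero_le y)]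
    push_cast
    rcases Nat.eq_zero_or_pos y with rfl | hy
    · simp
    have hy' : (0 : ℝ) < y := by exact_mod_cast hy
    have h1 : Real.log ((y + 1 : ℝ) / y) ≤ (y + 1 : ℝ) / y - 1 :=
      Real.log_le_sub_one_of_pos (by positivity)
    rw [Real.log_div (by positivity) hy'.ne'] at h1
    have h2 : (y : ℝ) * (Real.log (y + 1) - Real.log y) ≤ y * ((y + 1 : ℝ) / y - 1) :=
      mul_le_mul_of_nonneg_left h1 hy'.le
    have h3 : (y : ℝ) * ((y + 1 : ℝ) / y - 1) = 1 := by field_simp; ring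
    linarith

lemma mert_log_upper (y : ℕ) : ∑ n ∈ Ioc 0 y, Real.log n ≤ (y : ℝ) * Real.log y := by
  have : ∑ n ∈ Ioc 0 y, Real.log n ≤ ∑ _n ∈ Ioc 0 y, Real.log y := by
    refine sum_le_sum fun n hn => ?_
    rw [mem_Ioc] at hn
    exact Real.log_le_log (by exact_mod_cast hn.1) (by exact_mod_cast hn.2)
  simpa using this

lemma mert_ident (y : ℕ) :
    ∑ n ∈ Ioc 0 y, Real.log n = ∑ n ∈ Ioc 0 y, Λ n * ((y / n : ℕ) : ℝ) := by
  rw [← ArithmeticFunction.sum_Ioc_mul_zeta_eq_sum, ArithmeticFunction.vonMangoldt_mul_zeta]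
  rfl

lemma mert_one (y : ℕ) (hy : 1 ≤ y) :
    |∑ n ∈ Ioc 0 y, Λ n / n - Real.log y| ≤ Real.log 4 + 4 := by
  have hy' : (0 : ℝ) < y := by exact_mod_cast hy
  have h4 : 0 ≤ Real.log 4 := Real.log_nonneg (by norm_num)
  have hu : ∑ n ∈ Ioc 0 y, Λ n * ((y / n : ℕ) : ℝ) ≤ y * ∑ n ∈ Ioc 0 y, Λ n / n := by
    rw [mul_sum]
    refine sum_le_sum fun n _ => ?_
    calc Λ n * ((y / n : ℕ) : ℝ) ≤ Λ n * ((y : ℝ) / n) :=
          mul_le_mul_of_nonneg_left Nat.cast_div_le ArithmeticFunction.vonMangoldt_nonneg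
      _ = _ := by ring
  have hl : y * ∑ n ∈ Ioc 0 y, Λ n / n ≤
      ∑ n ∈ Ioc 0 y, Λ n * ((y / n : ℕ) : ℝ) + ∑ n ∈ Ioc 0 y, Λ n := by
    rw [mul_sum, ← sum_add_distrib]
    refine sum_le_sum fun n hn => ?_
    have h1 : (y : ℝ) / n ≤ ((y / n : ℕ) : ℝ) + 1 := by
      have := Nat.lt_floor_add_one ((y : ℝ) / n)
      rw [Nat.floor_div_eq_div] at this
      exact this.le
    calc (y : ℝ) * (Λ n / n) = Λ n * ((y : ℝ) / n) := by ring
      _ ≤ Λ n * (((y / n : ℕ) : ℝ) + 1) :=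
          mul_le_mul_of_nonneg_left h1 ArithmeticFunction.vonMangoldt_nonneg
      _ = _ := by ring
  have hpsi := Chebyshev.psi_le_const_mul_self hy'.le
  rw [Chebyshev.psi, Nat.floor_natCast] at hpsi
  have h1 := mert_log_lower y
  have h2 := mert_log_upper y
  rw [mert_ident] at h1 h2
  rw [abs_le]
  constructor
  · have : y * (Real.log y - 1) ≤ y * ∑ n ∈ Ioc 0 y, Λ n / n := by linarith
    have := le_of_mul_le_mul_left this hy'
    linarith
  · have : y * ∑ n ∈ Ioc 0 y, Λ n / n ≤ y * (Real.log y + (Real.log 4 + 4)) := by linarith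
    have := le_of_mul_le_mul_left this hy'
    linarith

/-- the mass of a window on the logarithmic scale -/
lemma mert_window (s t : ℝ) (hs : 0 ≤ s) (hst : s ≤ t) :
    ∑ n ∈ Ioc ⌊Real.exp s⌋₊ ⌊Real.exp t⌋₊, Λ n / n ≤ t - s + 15 := by
  have hs1 : 1 ≤ Real.exp s := Real.one_le_exp hs
  have ha : 1 ≤ ⌊Real.exp s⌋₊ := (Nat.one_le_floor_iff _).2 hs1
  have hab : ⌊Real.exp s⌋₊ ≤ ⌊Real.exp t⌋₊ := Nat.floor_mono (Real.exp_le_exp.2 hst)
  have h1 := abs_le.1 (mert_one _ ha)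
  have h2 := abs_le.1 (mert_one _ (ha.trans hab))
  have h3 := sum_Ioc_consecutive (fun n : ℕ => Λ n / (n : ℝ)) (Nat.zero_le _) hab
  have ha' : (1 : ℝ) ≤ ⌊Real.exp s⌋₊ := by exact_mod_cast ha
  have hb' : (1 : ℝ) ≤ ⌊Real.exp t⌋₊ := by exact_mod_cast ha.trans hab
  have h4 : Real.log ⌊Real.exp t⌋₊ ≤ t := by
    rw [Real.log_le_iff_le_exp (by linarith)]
    exact Nat.floor_le (Real.exp_pos t).le
  have h5 : s ≤ Real.log 2 + Real.log ⌊Real.exp s⌋₊ := by
    rw [← Real.log_mul (by norm_num) (by linarith), Real.le_log_iff_exp_le (by linarith)]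
    have := Nat.lt_floor_add_one (Real.exp s)
    linarith
  have h6 : Real.log 2 ≤ 1 := by linarith [Real.log_two_lt_d9]
  have h7 : Real.log 4 ≤ 2 := by
    rw [show (4 : ℝ) = 2 ^ 2 by norm_num, Real.log_pow]; push_cast; linarith
  linarith

lemma mert_cont {A : ℝ} {u : ℝ → ℝ} (hu : TF A u) : ContinuousOn u (Set.Ici 0) := by
  have : LipschitzOnWith (Real.toNNReal A) u (Set.Ici 0) := by
    refine LipschitzOnWith.of_dist_le' fun s hs t ht => ?_
    rw [Real.dist_eq, Real.dist_eq]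
    exact hu.2.1 s t hs ht
  exact this.continuousOn

lemma mert_bd {A : ℝ} (hA : 0 < A) {u : ℝ → ℝ} (hu : TF A u) {t : ℝ} (ht : 0 ≤ t) :
    u t ≤ A ^ 2 := by
  rcases le_total A t with h | h
  · rw [hu.2.2 t h]; positivity
  · have h1 := hu.2.1 t A ht hA.le
    rw [hu.2.2 A le_rfl, sub_zero, abs_sub_comm, abs_of_nonneg (sub_nonneg.2 h)] at h1
    have h2 := le_abs_self (u t)
    nlinarith

lemma mert_step {A δ l s : ℝ} (hA : 0 < A) (hδ : 0 < δ) (hl : 0 < l) (hs : 0 ≤ s)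
    {u : ℝ → ℝ} (hu : TF A u) :
    ∑ n ∈ Ioc ⌊Real.exp (s * l)⌋₊ ⌊Real.exp ((s + δ) * l)⌋₊, Λ n / n * u (Real.log n / l)
      ≤ l * (∫ t in s..(s + δ), u t) + (2 * A * δ ^ 2 * l + 15 * (A ^ 2 + A * δ)) := by
  have h0 : 0 ≤ u s := hu.1 s
  have h1 : ∑ n ∈ Ioc ⌊Real.exp (s * l)⌋₊ ⌊Real.exp ((s + δ) * l)⌋₊,
      Λ n / n * u (Real.log n / l)
      ≤ (∑ n ∈ Ioc ⌊Real.exp (s * l)⌋₊ ⌊Real.exp ((s + δ) * l)⌋₊, Λ n / n) * (u s + A * δ) := by
    rw [sum_mul]
    refine sum_le_sum fun n hn => mul_le_mul_of_nonneg_left ?_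
      (div_nonneg ArithmeticFunction.vonMangoldt_nonneg (Nat.cast_nonneg n))
    rw [mem_Ioc] at hn
    have hn1 : Real.exp (s * l) < n := (Nat.floor_lt (Real.exp_pos _).le).1 hn.1
    have hn2 : (n : ℝ) ≤ Real.exp ((s + δ) * l) := (Nat.le_floor_iff (Real.exp_pos _).le).1 hn.2
    have hn0 : (0 : ℝ) < n := (Real.exp_pos _).trans hn1
    have h2 : s ≤ Real.log n / l := by
      rw [le_div_iff₀ hl, Real.le_log_iff_exp_le hn0]; exact hn1.le
    have h3 : Real.log n / l ≤ s + δ := by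
      rw [div_le_iff₀ hl, Real.log_le_iff_le_exp hn0]; exact hn2
    have h4 := hu.2.1 (Real.log n / l) s (hs.trans h2) hs
    rw [abs_of_nonneg (sub_nonneg.2 h2)] at h4
    have h5 := le_abs_self (u (Real.log n / l) - u s)
    nlinarith
  have h2 := mert_window (s * l) ((s + δ) * l) (by positivity) (by nlinarith)
  have h3 : δ * (u s - A * δ) ≤ ∫ t in s..(s + δ), u t := by
    have hc : IntervalIntegrable u volume s (s + δ) := by
      refine ((mert_cont hu).mono ?_).intervalIntegrable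
      rw [Set.uIcc_of_le (by linarith)]
      exact fun t ht => hs.trans ht.1
    have := intervalIntegral.integral_mono_on (f := fun _ => u s - A * δ) (by linarith)
      intervalIntegrable_const hc (fun t ht => by
        have h4 := hu.2.1 t s (hs.trans ht.1) hs
        rw [abs_of_nonneg (sub_nonneg.2 ht.1)] at h4
        have h5 := neg_abs_le (u t - u s)
        have h6 : t - s ≤ δ := by linarith [ht.2]
        nlinarith)
    rwa [intervalIntegral.integral_const, add_sub_cancel_left, smul_eq_mul] at this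
  have h4 := mert_bd hA hu hs
  have h5 : 0 ≤ u s + A * δ := by positivity
  have h6 := mul_le_mul_of_nonneg_right h2 h5
  have h7 := mul_le_mul_of_nonneg_left h3 hl.le
  nlinarith

lemma mert_mesh {A δ l : ℝ} (hA : 0 < A) (hδ : 0 < δ) (hl : 0 < l)
    {u : ℝ → ℝ} (hu : TF A u) (j : ℕ) :
    ∑ n ∈ Ioc 0 ⌊Real.exp (j * δ * l)⌋₊, Λ n / n * u (Real.log n / l)
      ≤ l * (∫ t in (0 : ℝ)..(j * δ), u t) + j * (2 * A * δ ^ 2 * l + 15 * (A ^ 2 + A * δ)) := by
  induction j with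
  | zero => simp
  | succ j ih =>
    have hj : (0 : ℝ) ≤ j * δ := by positivity
    have h1 := mert_step hA hδ hl hj hu
    have he : ((j + 1 : ℕ) : ℝ) * δ = j * δ + δ := by push_cast; ring
    have hab : ⌊Real.exp (j * δ * l)⌋₊ ≤ ⌊Real.exp ((j * δ + δ) * l)⌋₊ :=
      Nat.floor_mono (Real.exp_le_exp.2 (by nlinarith))
    have hi : ∀ a b : ℝ, 0 ≤ a → a ≤ b → IntervalIntegrable u volume a b := fun a b ha hab => by
      refine ((mert_cont hu).mono ?_).intervalIntegrable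
      rw [Set.uIcc_of_le hab]
      exact fun t ht => ha.trans ht.1
    rw [he, ← sum_Ioc_consecutive _ (Nat.zero_le _) hab,
      ← intervalIntegral.integral_add_adjacent_intervals (hi 0 (j * δ) le_rfl hj)
        (hi (j * δ) (j * δ + δ) hj (by linarith))]
    push_cast
    linarith

lemma mert_two (A ε : ℝ) (hA : 0 < A) (hε : 0 < ε) : ∃ l0 : ℝ, ∀ l : ℝ, l0 ≤ l →
    ∀ u : ℝ → ℝ, TF A u →
    (∑ n ∈ Icc 1 ⌊Real.exp (A * l)⌋₊, Λ n / n * u (Real.log n / l)) / l
      ≤ (∫ t in Set.Ioi (0 : ℝ), u t) + ε := by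
  obtain ⟨K, hK⟩ := exists_nat_gt (4 * A ^ 3 / ε)
  have hK0 : (0 : ℝ) < K := lt_trans (by positivity) hK
  set δ : ℝ := A / K with hδ
  have hδ0 : 0 < δ := by positivity
  have hKδ : K * δ = A := by rw [hδ]; field_simp
  refine ⟨max 1 (2 * (K * (15 * (A ^ 2 + A * δ))) / ε), fun l hl u hu => ?_⟩
  have hl0 : 0 < l := lt_of_lt_of_le one_pos ((le_max_left _ _).trans hl)
  have hl1 := (div_le_iff₀ hε).1 ((le_max_right _ _).trans hl)
  have h1 := mert_mesh hA hδ0 hl0 hu K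
  rw [hKδ] at h1
  have h2 : ∫ t in (0 : ℝ)..A, u t = ∫ t in Set.Ioi (0 : ℝ), u t := by
    rw [intervalIntegral.integral_of_le hA.le]
    refine (setIntegral_eq_of_subset_of_forall_sdiff_eq_zero measurableSet_Ioi
      Set.Ioc_subset_Ioi_self fun t ht => hu.2.2 t ?_).symm
    by_contra h
    exact ht.2 ⟨ht.1, (not_le.1 h).le⟩
  have h3 : K * (2 * A * δ ^ 2) ≤ ε / 2 := by
    have h4 : K * (2 * A * δ ^ 2) = 2 * A ^ 3 / K := by rw [hδ]; field_simp
    rw [h4, div_le_iff₀ hK0]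
    have := (div_lt_iff₀ hε).1 hK
    linarith
  rw [mert_Icc, div_le_iff₀ hl0, ← h2]
  have h5 := mul_le_mul_of_nonneg_right h3 hl0.le
  nlinarith

lemma mert_geom {p : ℕ} (hp : 2 ≤ p) {z : ℝ} (hz : 0 < z) (K : ℕ) :
    ∑ k ∈ range K, (if z < (p : ℝ) ^ k then 1 / (p : ℝ) ^ k else 0)
      + min (2 / z) (2 / (p : ℝ) ^ K) ≤ 2 / z := by
  have hp' : (2 : ℝ) ≤ p := by exact_mod_cast hp
  induction K with
  | zero => simp
  | succ K ih =>
    rw [sum_range_succ]
    have h0 : (0 : ℝ) < (p : ℝ) ^ K := by positivity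
    split_ifs with h
    · rw [min_eq_right (div_le_div_of_nonneg_left (by norm_num) hz h.le)] at ih
      have h1 : 2 / (p : ℝ) ^ (K + 1) ≤ 1 / (p : ℝ) ^ K := by
        rw [div_le_div_iff₀ (by positivity) h0, pow_succ]; nlinarith
      have h2 := min_le_right (2 / z) (2 / (p : ℝ) ^ (K + 1))
      have h3 : 2 / (p : ℝ) ^ K = 1 / (p : ℝ) ^ K + 1 / (p : ℝ) ^ K := by ring
      linarith
    · rw [min_eq_left (div_le_div_of_nonneg_left (by norm_num) h0 (not_lt.1 h))] at ih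
      have h2 := min_le_left (2 / z) (2 / (p : ℝ) ^ (K + 1))
      linarith

lemma mert_tail (N y z : ℕ) (hN : 0 < N) (hz : 0 < z) :
    ∑ n ∈ (Icc 1 y).filter (fun n => ¬ Nat.Coprime n N ∧ z < n), Λ n / n
      ≤ 2 / z * Real.log N := by
  have hz' : (0 : ℝ) < z := by exact_mod_cast hz
  have h1 : ∑ n ∈ (Icc 1 y).filter (fun n => ¬ Nat.Coprime n N ∧ z < n), Λ n / n
      ≤ ∑ n ∈ (Icc 1 y).filter (fun n => ¬ Nat.Coprime n N ∧ z < n), ∑ p ∈ N.primeFactors,
        ∑ k ∈ range (y + 1), if n = p ^ k then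
          Real.log p * (if (z : ℝ) < (p : ℝ) ^ k then 1 / (p : ℝ) ^ k else 0) else 0 := by
    refine sum_le_sum fun n hn => ?_
    have hnn : ∀ p k : ℕ, (0 : ℝ) ≤ if n = p ^ k then
        Real.log p * (if (z : ℝ) < (p : ℝ) ^ k then 1 / (p : ℝ) ^ k else 0) else 0 := by
      intro p k
      have := Real.log_natCast_nonneg p
      split_ifs <;> positivity
    by_cases hpp : IsPrimePow n
    swap
    · rw [ArithmeticFunction.vonMangoldt_apply, if_neg hpp, zero_div]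
      exact sum_nonneg fun p _ => sum_nonneg fun k _ => hnn p k
    obtain ⟨p, k, hp, hk, rfl⟩ := (isPrimePow_nat_iff _).1 hpp
    simp only [mem_filter, mem_Icc] at hn
    have hpN : p ∈ N.primeFactors := by
      refine Nat.mem_primeFactors.2 ⟨hp, ?_, hN.ne'⟩
      by_contra h
      exact hn.2.1 (((Nat.Prime.coprime_iff_not_dvd hp).2 h).pow_left k)
    have hky : k ∈ range (y + 1) := by
      have := Nat.lt_pow_self (n := k) hp.one_lt
      rw [mem_range]; omega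
    refine le_trans ?_ (single_le_sum (f := fun q : ℕ => ∑ j ∈ range (y + 1), if p ^ k = q ^ j then
        Real.log q * (if (z : ℝ) < (q : ℝ) ^ j then 1 / (q : ℝ) ^ j else 0) else 0)
      (fun q _ => sum_nonneg fun j _ => hnn q j) hpN)
    refine le_trans ?_ (single_le_sum (f := fun j : ℕ => if p ^ k = p ^ j then
        Real.log p * (if (z : ℝ) < (p : ℝ) ^ j then 1 / (p : ℝ) ^ j else 0) else 0)
      (fun j _ => hnn p j) hky)
    have hzk : (z : ℝ) < (p : ℝ) ^ k := by exact_mod_cast hn.2.2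
    rw [if_pos rfl, if_pos hzk, ArithmeticFunction.vonMangoldt_apply_pow hk.ne',
      ArithmeticFunction.vonMangoldt_apply_prime hp]
    push_cast
    exact le_of_eq (by ring)
  refine h1.trans ?_
  rw [sum_comm]
  have h2 : ∑ p ∈ N.primeFactors, Real.log p ≤ Real.log N := by
    rw [← Real.log_prod (fun p hp => by
      exact_mod_cast (Nat.prime_of_mem_primeFactors hp).ne_zero), ← Nat.cast_prod]
    refine Real.log_le_log ?_ ?_
    · exact_mod_cast prod_pos fun p hp => (Nat.prime_of_mem_primeFactors hp).pos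
    · exact_mod_cast Nat.le_of_dvd hN (Nat.prod_primeFactors_dvd N)
  refine le_trans ?_ (mul_le_mul_of_nonneg_left h2 (by positivity))
  rw [mul_sum]
  refine sum_le_sum fun p hp => ?_
  have hp2 := (Nat.prime_of_mem_primeFactors hp).two_le
  have hlog := Real.log_natCast_nonneg p
  rw [sum_comm]
  have h3 := mert_geom hp2 hz' (y + 1)
  have h4 : 0 ≤ min (2 / (z : ℝ)) (2 / (p : ℝ) ^ (y + 1)) := by positivity
  calc _ ≤ ∑ k ∈ range (y + 1),
        Real.log p * (if (z : ℝ) < (p : ℝ) ^ k then 1 / (p : ℝ) ^ k else 0) := by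
        refine sum_le_sum fun k _ => ?_
        rw [sum_ite_eq']
        split_ifs <;> first | exact le_rfl | positivity
    _ ≤ _ := by
        rw [← mul_sum, mul_comm]
        exact mul_le_mul_of_nonneg_right (by linarith) hlog

lemma mert_three (ε : ℝ) (hε : 0 < ε) : ∃ l0 : ℝ, ∀ l : ℝ, l0 ≤ l → ∀ N y : ℕ, 0 < N →
    (N : ℝ) ≤ Real.exp (5 * l) →
    ∑ n ∈ (Icc 1 y).filter (fun n => ¬ Nat.Coprime n N), Λ n / n ≤ ε * l := by
  obtain ⟨z, hz⟩ := exists_nat_gt (20 / ε)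
  have hz0 : (0 : ℝ) < z := lt_trans (by positivity) hz
  have hz1 : 0 < z := by exact_mod_cast hz0
  refine ⟨max 0 (2 * (∑ n ∈ Ioc 0 z, Λ n / n) / ε), fun l hl N y hN hNl => ?_⟩
  have hl0 : 0 ≤ l := (le_max_left _ _).trans hl
  have hl1 := (div_le_iff₀ hε).1 ((le_max_right _ _).trans hl)
  have h1 := mert_tail N y z hN hz1
  have h2 : Real.log N ≤ 5 * l := by
    rwa [Real.log_le_iff_le_exp (by exact_mod_cast hN)]
  have h3 : 2 / (z : ℝ) ≤ ε / 10 := by
    rw [div_le_iff₀ hz0]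
    have := (div_lt_iff₀ hε).1 hz
    linarith
  have h4 : 2 / (z : ℝ) * Real.log N ≤ ε / 10 * (5 * l) :=
    mul_le_mul h3 h2 (Real.log_natCast_nonneg N) (by positivity)
  rw [← sum_filter_add_sum_filter_not _ (fun n => z < n), filter_filter]
  have h5 : ∑ n ∈ ((Icc 1 y).filter (fun n => ¬ Nat.Coprime n N)).filter (fun n => ¬ z < n),
      Λ n / n ≤ ∑ n ∈ Ioc 0 z, Λ n / (n : ℝ) := by
    refine sum_le_sum_of_subset_of_nonneg (fun n hn => ?_) fun n _ _ =>
      div_nonneg ArithmeticFunction.vonMangoldt_nonneg (Nat.cast_nonneg n)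
    simp only [mem_filter, mem_Icc, mem_Ioc] at hn ⊢
    omega
  linarith

theorem blk_MERT : St_MERT :=
  ⟨⟨Real.log 4 + 4, fun y hy => by rw [mert_Icc]; exact mert_one y hy⟩, mert_two, mert_three⟩

end Pool.Agent.Lib.PS
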