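import Pool.Agent.Lib.PS.MIN1

/-! Mean square of the exponential sum over squares in short windows. -/

namespace Pool.Agent.Lib.PS

open Finset Real Complex
open scoped Classical ComplexConjugate

lemma min_sq (c : ℕ → ℂ) (n : ℕ) : ‖∑ m ∈ range n, c m‖ ^ 2 ≤
    2 * (∑ h ∈ range n, ∑ m ∈ range (n - h), c (h + m) * conj (c m)).re := by
  have h1 : ‖∑ m ∈ range n, c m‖ ^ 2 ≤
      2 * (∑ m ∈ range n, c m * conj (∑ k ∈ range (m + 1), c k)).re := by
    induction n with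
    | zero => simp
    | succ n ih =>
      rw [sum_range_succ, sum_range_succ, add_re, sum_range_succ c n]
      rw [Complex.sq_norm] at ih ⊢
      rw [normSq_add, map_add, mul_add (c n), add_re, mul_conj, ofReal_re]
      have h2 : ((∑ m ∈ range n, c m) * conj (c n)).re = (c n * conj (∑ m ∈ range n, c m)).re := by
        simp only [mul_re, conj_re, conj_im]; ring
      have := normSq_nonneg (c n)
      linarith
  refine h1.trans_eq ?_
  rw [← sum_range_diag_flip n fun h m => c (h + m) * conj (c m)]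
  congr 2
  refine sum_congr rfl fun m _ => ?_
  rw [map_sum, mul_sum, ← sum_flip]
  exact sum_congr rfl fun k hk => by
    rw [Nat.add_sub_cancel' (Nat.lt_succ_iff.mp (mem_range.mp hk))]

lemma min_le_of_sq {a b : ℝ} (hb : 0 ≤ b) (h : a ^ 2 ≤ b ^ 2) : a ≤ b :=
  (abs_le_of_sq_le_sq' h hb).2

/-- the term of the square `m ^ 2` in the window starting at `t` -/
noncomputable def minC (X Y : ℕ) (α : ℝ) (t m : ℕ) : ℂ :=
  if t < m ^ 2 ∧ m ^ 2 ≤ t + 2 * Y ∧ X / 2 < m ^ 2 then 2 * m * ee ((m ^ 2 : ℕ) * α) else 0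

lemma min_win (X Y : ℕ) (α : ℝ) (t : ℕ) : ∑ x ∈ win X Y t, (sqw x : ℂ) * ee (x * α) =
    ∑ m ∈ range (Nat.sqrt (2 * X) + 1), minC X Y α t m := by
  unfold minC
  rw [← sum_filter]
  symm
  refine sum_of_injOn (fun m => m ^ 2) (fun x _ y _ h => Nat.pow_left_injective two_ne_zero h)
    (fun m hm => ?_) (fun x hx hx' => ?_) fun m _ => ?_
  · simp only [mem_filter, mem_range, Nat.lt_succ_iff, Nat.le_sqrt', mem_coe] at hm
    simp only [win, mem_coe, mem_inter, mem_Ioc]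
    omega
  · rw [sqw, if_neg, ofReal_zero, zero_mul]
    rintro ⟨m, rfl⟩
    refine hx' ⟨m, ?_, sq m⟩
    simp only [win, mem_inter, mem_Ioc] at hx
    simp only [coe_filter, mem_range, Nat.lt_succ_iff, Nat.le_sqrt', Set.mem_ofPred_eq, sq]
    omega
  · rw [sqw, if_pos ⟨m, sq m⟩, Nat.cast_pow, Real.sqrt_sq (Nat.cast_nonneg m)]
    push_cast; rfl

/-- increasing weight -/
noncomputable def minF (X h m : ℕ) : ℝ := if X / 2 < m ^ 2 then 4 * m * (h + m) else 0

lemma minF_mono (X h : ℕ) : Monotone (minF X h) := by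
  intro m n hmn
  have h1 := Nat.pow_le_pow_left hmn 2
  have h2 : (m : ℝ) ≤ n := by exact_mod_cast hmn
  unfold minF
  split_ifs with h3 h4
  · gcongr
  · omega
  · positivity
  · rfl

lemma min_tsum {X Y : ℕ} (hXY : 4 * Y ≤ X) (α : ℝ) {h m : ℕ} (hm : (h + m) ^ 2 ≤ 2 * X) :
    ∑ t ∈ range (2 * X), minC X Y α t (h + m) * conj (minC X Y α t m) =
      ee ((h ^ 2 : ℕ) * α) * ((minF X h m : ℂ) *
        ((((2 * Y - h * (2 * m + h) : ℕ) : ℝ) : ℂ) * ee (m * ((2 * h : ℕ) * α)))) := by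
  have hsq : (h + m) ^ 2 = m ^ 2 + h * (2 * m + h) := by ring
  unfold minF
  split_ifs with h1
  · have h2 : ∀ t ∈ range (2 * X), minC X Y α t (h + m) * conj (minC X Y α t m) =
        if t ∈ Ico ((h + m) ^ 2 - 2 * Y) (m ^ 2) then
          ee ((h ^ 2 : ℕ) * α) * ((4 * m * (h + m) : ℝ) * ee (m * ((2 * h : ℕ) * α))) else 0 := by
      intro t _
      unfold minC
      by_cases ht : t ∈ Ico ((h + m) ^ 2 - 2 * Y) (m ^ 2)
      · have := mem_Ico.mp ht
        rw [if_pos ht, if_pos (by omega), if_pos (by omega), map_mul, min_conj_ee]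
        have h3 : ee (((h + m) ^ 2 : ℕ) * α) * ee (-((m ^ 2 : ℕ) * α)) =
            ee ((h ^ 2 : ℕ) * α) * ee (m * ((2 * h : ℕ) * α)) := by
          rw [← min_ee_add, ← min_ee_add]; congr 1; push_cast; ring
        simp only [map_mul, map_ofNat, map_natCast]
        push_cast at h3 ⊢
        linear_combination (4 * m * (h + m)) * h3
      · rw [if_neg ht]
        rw [mem_Ico] at ht
        by_cases h4 : t < m ^ 2 ∧ m ^ 2 ≤ t + 2 * Y ∧ X / 2 < m ^ 2
        · rw [if_neg (by omega), zero_mul]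
        · rw [if_neg h4, map_zero, mul_zero]
    rw [sum_congr rfl h2, ← sum_filter, filter_mem_eq_inter, inter_eq_right.mpr, sum_const,
      Nat.card_Ico, nsmul_eq_mul,
      show m ^ 2 - ((h + m) ^ 2 - 2 * Y) = 2 * Y - h * (2 * m + h) by omega]
    · simp only [ofReal_natCast]; ring
    · intro t ht
      have := mem_Ico.mp ht
      exact mem_range.mpr (by omega)
  · rw [sum_eq_zero fun t _ => by rw [minC, minC, if_neg (c := t < m ^ 2 ∧ _) (by omega)]; simp]
    simp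

lemma min_T {X Y : ℕ} (hXY : 4 * Y ≤ X) (hX : 1 ≤ X) (α : ℝ) (h : ℕ) :
    ‖∑ m ∈ range (Nat.sqrt (2 * X) + 1 - h),
      ∑ t ∈ range (2 * X), minC X Y α t (h + m) * conj (minC X Y α t m)‖ ≤
      if h < ⌈2 * Y / √(X : ℝ)⌉₊ then 6 * (8 * X) * (2 * Y) * minK (2 * √X) ((2 * h : ℕ) * α)
      else 0 := by
  have hlt : ∀ m < Nat.sqrt (2 * X) + 1 - h, (h + m) ^ 2 ≤ 2 * X := fun m hm =>
    Nat.le_sqrt'.mp (by omega)
  have hX' : (1 : ℝ) ≤ X := by exact_mod_cast hX
  have hs : 1 ≤ √(X : ℝ) := Real.one_le_sqrt.mpr hX'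
  have hs2 : √(X : ℝ) ^ 2 = X := Real.sq_sqrt (by linarith)
  rw [sum_congr rfl fun m hm => min_tsum hXY α (hlt m (mem_range.mp hm)), ← mul_sum, norm_mul,
    min_norm_ee, one_mul]
  split_ifs with hh
  · refine min_wsum (g := fun m => ((2 * Y - h * (2 * m + h) : ℕ) : ℝ)) _ (minF_mono X h)
      (fun x y hxy => ?_) (by positivity) ?_ (fun m hm => ?_) ?_ (by positivity) (fun m => ?_)
      fun m => Nat.cast_nonneg _
    · have := Nat.mul_le_mul_left h (Nat.add_le_add_right (Nat.mul_le_mul_left 2 hxy) h)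
      exact Nat.cast_le.mpr (by omega)
    · have h1 : ((Nat.sqrt (2 * X) + 1 - h : ℕ) : ℝ) ≤ (Nat.sqrt (2 * X) : ℝ) + 1 := by
        exact_mod_cast Nat.sub_le _ _
      have h2 : (Nat.sqrt (2 * X) : ℝ) ^ 2 ≤ 2 * X := by exact_mod_cast Nat.sqrt_le' _
      have h3 : (Nat.sqrt (2 * X) : ℝ) ≤ 2 * √X :=
        min_le_of_sq (by positivity) (by nlinarith)
      linarith
    · have h1 : ((h : ℝ) + m) ^ 2 ≤ 2 * X := by exact_mod_cast hlt m hm
      unfold minF
      split_ifs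
      · nlinarith [Nat.cast_nonneg (α := ℝ) h, Nat.cast_nonneg (α := ℝ) m]
      · positivity
    · simp [minF]
    · exact_mod_cast Nat.sub_le _ _
  · rw [sum_eq_zero fun m _ => ?_, norm_zero]
    unfold minF
    split_ifs with h1
    · have h2 : 2 * Y / √(X : ℝ) ≤ h := Nat.ceil_le.mp (not_lt.mp hh)
      rw [div_le_iff₀ (by linarith)] at h2
      have h3 : (X : ℝ) ≤ 2 * (m : ℝ) ^ 2 := by exact_mod_cast (by omega : X ≤ 2 * m ^ 2)
      have h4 : √(X : ℝ) ≤ 2 * m := min_le_of_sq (by positivity) (by nlinarith)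
      have h5 : 2 * Y ≤ h * (2 * m + h) := by
        have : (2 * Y : ℝ) ≤ h * (2 * m + h) := by
          nlinarith [Nat.cast_nonneg (α := ℝ) h, mul_le_mul_of_nonneg_left h4 (Nat.cast_nonneg h)]
        exact_mod_cast this
      rw [Nat.sub_eq_zero_of_le h5]; simp
    · simp

theorem blk_MIN : St_MIN := by
  refine ⟨2 * 96 * 4 * 20, by norm_num, fun X Y q a α hY hXY hq ha hα => ?_⟩
  have hX : 1 ≤ X := by omega
  have hX' : (1 : ℝ) ≤ X := by exact_mod_cast hX
  have hs : 1 ≤ √(X : ℝ) := Real.one_le_sqrt.mpr hX'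
  have hq' : (1 : ℝ) ≤ q := by exact_mod_cast hq
  set n := Nat.sqrt (2 * X) + 1 with hn
  set H := ⌈2 * Y / √(X : ℝ)⌉₊ with hH
  have h1 : ∑ t ∈ range (2 * X), ‖∑ x ∈ win X Y t, (sqw x : ℂ) * ee (x * α)‖ ^ 2 ≤
      2 * (∑ h ∈ range n, ∑ m ∈ range (n - h),
        ∑ t ∈ range (2 * X), minC X Y α t (h + m) * conj (minC X Y α t m)).re := by
    simp only [min_win]
    refine (sum_le_sum fun t _ => min_sq (minC X Y α t) n).trans_eq ?_
    rw [← mul_sum, ← re_sum, sum_comm]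
    congr 2
    exact sum_congr rfl fun h _ => sum_comm
  have h2 : ∑ h ∈ range n, ‖∑ m ∈ range (n - h),
        ∑ t ∈ range (2 * X), minC X Y α t (h + m) * conj (minC X Y α t m)‖ ≤
      6 * (8 * X) * (2 * Y) * ∑ h ∈ range H, minK (2 * √X) ((2 * h : ℕ) * α) := by
    refine (sum_le_sum fun h _ => min_T hXY hX α h).trans ?_
    rw [← sum_filter, mul_sum]
    exact sum_le_sum_of_subset_of_nonneg (fun h hh => mem_range.mpr (mem_filter.mp hh).2)
      fun h _ _ => mul_nonneg (by positivity) (minK_nonneg (by positivity) _)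
  have h3 := min_std (N := 2 * √X) (by positivity) hq ha hα H
  have h4 : (H : ℝ) ≤ 2 * Y / √X + 1 := (Nat.ceil_lt_add_one (by positivity)).le
  have h5 : 2 * (H : ℝ) / q + 1 ≤ 4 * (Y / (√X * q) + 1) := by
    have h6 : 2 * (H : ℝ) / q ≤ 2 * (2 * Y / √X + 1) / q := by gcongr
    have h7 : 2 * (2 * Y / √(X : ℝ) + 1) / q = 4 * (Y / (√X * q)) + 2 / q := by field_simp; ring
    have h8 : (2 : ℝ) / q ≤ 2 := div_le_self (by norm_num) hq'
    linarith
  have h9 : 0 ≤ (q : ℝ) * (1 + Real.log q) :=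
    mul_nonneg (Nat.cast_nonneg q) (by linarith [Real.log_natCast_nonneg q])
  have h10 : ∑ h ∈ range H, minK (2 * √X) ((2 * h : ℕ) * α) ≤
      4 * (Y / (√X * q) + 1) * (20 * (√X + q * (1 + Real.log q))) :=
    h3.trans (mul_le_mul h5 (by linarith) (by positivity) (by positivity))
  refine h1.trans ?_
  have h11 := ((re_le_norm _).trans (norm_sum_le _ _)).trans h2
  have h12 := mul_le_mul_of_nonneg_left h10 (by positivity : (0 : ℝ) ≤ 6 * (8 * X) * (2 * Y))
  linarith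

end Pool.Agent.Lib.PS
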