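import Pool.Agent.Lib.PS.PV
import Pool.Agent.Lib.PS.MAJ
import Pool.Agent.Lib.MP_d48457_nt.LargeSieve

/-! Block MLS: the additive and the multiplicative large sieve. -/

namespace Pool.Agent.Lib.PS

open Finset Real Complex ZMod
open scoped Classical ComplexConjugate

lemma mls_ee (x : ℝ) : MP_d48457_nt.ee x = ee x := by
  unfold MP_d48457_nt.ee ee
  congr 1
  push_cast
  ring

lemma mls_geom {t : ℝ} (ht : Int.fract t ≠ 0) (A H : ℕ) :
    ‖∑ k ∈ Ioc A (A + H), ee (k * t)‖ ≤ (1 / Int.fract t + 1 / (1 - Int.fract t)) / 2 := by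
  have h := MP_d48457_nt.norm_geom_le ht ((A : ℤ) + 1) H
  have e : ∑ k ∈ Ico ((A : ℤ) + 1) ((A : ℤ) + 1 + H), MP_d48457_nt.ee (k * t) =
      ∑ k ∈ Ioc A (A + H), ee (k * t) := by
    refine (sum_nbij' (fun k : ℕ => (k : ℤ)) Int.toNat ?_ ?_ ?_ ?_ ?_).symm
    · intro k hk
      simp only [mem_Ioc, mem_Ico] at hk ⊢
      omega
    · intro k hk
      simp only [mem_Ioc, mem_Ico] at hk ⊢
      omega
    · intro k _
      simp
    · intro k hk
      simp only [mem_Ico] at hk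
      omega
    · intro k _
      rw [mls_ee, Int.cast_natCast]
  rwa [e] at h

/-- The additive large sieve with a logarithmic loss. -/
theorem mls_additive {α : Type*} (Θ : Finset α) (θ : α → ℝ) {δ : ℝ} (hδ : 0 < δ) (hδ1 : δ ≤ 1)
    (hΘ : ∀ x ∈ Θ, ∀ y ∈ Θ, x ≠ y → ∀ n : ℤ, δ ≤ |θ x - θ y - n|) (g : ℕ → ℂ) (A H : ℕ) :
    ∑ x ∈ Θ, ‖∑ k ∈ Ioc A (A + H), g k * ee (k * θ x)‖ ^ 2 ≤
      (H + 1 / δ * (1 + Real.log (1 / δ))) * ∑ k ∈ Ioc A (A + H), ‖g k‖ ^ 2 := by
  set X := Ioc A (A + H) with hX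
  have hXc : X.card = H := by simp [hX]
  set u : α → ℂ := fun x => ∑ k ∈ X, g k * ee (k * θ x) with hu
  set U := ∑ x ∈ Θ, ‖u x‖ ^ 2 with hU
  set B := H + 1 / δ * (1 + Real.log (1 / δ)) with hB
  set G := ∑ k ∈ X, ‖g k‖ ^ 2 with hG
  have hG0 : 0 ≤ G := sum_nonneg (fun _ _ => by positivity)
  have hlog : 0 ≤ Real.log (1 / δ) := Real.log_nonneg (by rw [le_div_iff₀ hδ]; linarith)
  have hB0 : 0 ≤ B := by positivity
  let v : ℕ → ℂ := fun k => ∑ x ∈ Θ, conj (u x) * ee (k * θ x)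
  have h1 : (U : ℂ) = ∑ k ∈ X, g k * v k := by
    simp only [v, mul_sum]
    rw [sum_comm, hU]
    push_cast
    refine sum_congr rfl (fun x _ => ?_)
    rw [← Complex.conj_mul']
    nth_rewrite 2 [hu]
    simp only [mul_sum]
    exact sum_congr rfl (fun k _ => by ring)
  have hU0 : 0 ≤ U := sum_nonneg (fun _ _ => by positivity)
  have h2 : U ≤ ∑ k ∈ X, ‖g k‖ * ‖v k‖ := by
    have := congrArg norm h1
    rw [Complex.norm_real, Real.norm_eq_abs, abs_of_nonneg hU0] at this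
    rw [this]
    exact (norm_sum_le _ _).trans (sum_le_sum (fun k _ => (norm_mul _ _).le))
  have h3 := sum_mul_sq_le_sq_mul_sq X (fun k => ‖g k‖) (fun k => ‖v k‖)
  let κ : α → α → ℝ := fun x y => ‖∑ k ∈ X, ee (k * (θ x - θ y))‖
  have hκs : ∀ x y, κ x y = κ y x := by
    intro x y
    simp only [κ]
    rw [← Complex.norm_conj, map_sum]
    congr 1
    refine sum_congr rfl (fun k _ => ?_)
    rw [maj_ee_conj]; congr 1; ring
  have hκ : ∀ x ∈ Θ, ∑ y ∈ Θ, κ x y ≤ B := by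
    intro x hx
    rw [← add_sum_erase _ _ hx]
    have a1 : κ x x ≤ H := by
      simp only [κ, sub_self, mul_zero, maj_ee_zero, sum_const, hXc]
      simp
    have a2 : ∀ y ∈ Θ.erase x, δ ≤ Int.fract (θ x - θ y) ∧ δ ≤ 1 - Int.fract (θ x - θ y) := by
      intro y hy
      have b1 := hΘ x hx y (mem_of_mem_erase hy) (ne_of_mem_erase hy).symm
      have b2 := b1 ⌊θ x - θ y⌋
      have b3 := b1 (⌊θ x - θ y⌋ + 1)
      have b4 := Int.fract_nonneg (θ x - θ y)
      have b5 := Int.fract_lt_one (θ x - θ y)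
      push_cast at b3
      rw [← sub_sub] at b3
      rw [Int.self_sub_floor] at b2 b3
      rw [abs_of_nonneg b4] at b2
      rw [abs_of_neg (by linarith)] at b3
      exact ⟨b2, by linarith⟩
    have a3 : ∀ y ∈ Θ.erase x, ∀ z ∈ Θ.erase x, y ≠ z →
        δ ≤ |Int.fract (θ x - θ y) - Int.fract (θ x - θ z)| := by
      intro y hy z hz hyz
      have := hΘ z (mem_of_mem_erase hz) y (mem_of_mem_erase hy) hyz.symm
        (⌊θ x - θ y⌋ - ⌊θ x - θ z⌋)
      refine this.trans (le_of_eq ?_)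
      congr 1
      simp only [Int.fract]
      push_cast
      ring
    have a4 := MP_d48457_nt.sum_inv_spaced (Θ.erase x) (fun y => Int.fract (θ x - θ y)) hδ hδ1
      (fun y hy => ⟨(a2 y hy).1, (Int.fract_lt_one _).le⟩) a3
    have a5 := MP_d48457_nt.sum_inv_spaced (Θ.erase x) (fun y => 1 - Int.fract (θ x - θ y)) hδ hδ1
      (fun y hy => ⟨(a2 y hy).2, by linarith [Int.fract_nonneg (θ x - θ y)]⟩)
      (fun y hy z hz hyz => (a3 z hz y hy hyz.symm).trans (le_of_eq (by congr 1; ring)))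
    have a6 : ∑ y ∈ Θ.erase x, κ x y ≤ ∑ y ∈ Θ.erase x,
        (1 / Int.fract (θ x - θ y) + 1 / (1 - Int.fract (θ x - θ y))) / 2 :=
      sum_le_sum (fun y hy => mls_geom (by linarith [(a2 y hy).1]) A H)
    rw [← sum_div, sum_add_distrib] at a6
    linarith
  have h4 : ∑ k ∈ X, ‖v k‖ ^ 2 ≤ U * B := by
    have e1 : ((∑ k ∈ X, ‖v k‖ ^ 2 : ℝ) : ℂ) = ∑ x ∈ Θ, ∑ y ∈ Θ,
        conj (u x) * u y * ∑ k ∈ X, ee (k * (θ x - θ y)) := by
      push_cast
      simp_rw [← Complex.mul_conj', mul_sum]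
      have : ∀ k : ℕ, v k * conj (v k) = ∑ x ∈ Θ, ∑ y ∈ Θ,
          conj (u x) * u y * ee (k * (θ x - θ y)) := by
        intro k
        simp only [v, map_sum, sum_mul_sum, map_mul, Complex.conj_conj, maj_ee_conj]
        refine sum_congr rfl (fun x _ => sum_congr rfl (fun y _ => ?_))
        rw [mul_sub, sub_eq_add_neg, maj_ee_add]
        ring
      simp_rw [this]
      rw [sum_comm]
      exact sum_congr rfl (fun x _ => sum_comm)
    have e2 := congrArg norm e1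
    rw [Complex.norm_real, Real.norm_eq_abs,
      abs_of_nonneg (sum_nonneg (fun _ _ => by positivity))] at e2
    rw [e2]
    have e3 : ∀ x ∈ Θ, ∀ y ∈ Θ, ‖conj (u x) * u y * ∑ k ∈ X, ee (k * (θ x - θ y))‖
        ≤ ‖u x‖ ^ 2 * κ x y / 2 + ‖u y‖ ^ 2 * κ y x / 2 := by
      intro x _ y _
      rw [norm_mul, norm_mul, Complex.norm_conj, hκs y x]
      have : 0 ≤ κ x y := norm_nonneg _
      change ‖u x‖ * ‖u y‖ * κ x y ≤ _
      nlinarith [mul_nonneg this (sq_nonneg (‖u x‖ - ‖u y‖))]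
    refine (norm_sum_le _ _).trans ((sum_le_sum (fun x hx => (norm_sum_le _ _).trans
      (sum_le_sum (fun y hy => e3 x hx y hy)))).trans ?_)
    simp_rw [sum_add_distrib]
    rw [sum_comm (f := fun x y => ‖u y‖ ^ 2 * κ y x / 2), ← sum_add_distrib, hU, sum_mul]
    refine sum_le_sum (fun x hx => ?_)
    rw [← sum_add_distrib]
    simp_rw [add_halves]
    rw [← mul_sum]
    exact mul_le_mul_of_nonneg_left (hκ x hx) (by positivity)
  have h5 : U ^ 2 ≤ G * (U * B) :=
    (pow_le_pow_left₀ hU0 h2 2).trans (h3.trans (mul_le_mul_of_nonneg_left h4 hG0))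
  change U ≤ B * G
  rcases hU0.eq_or_lt with h | h
  · rw [← h]; positivity
  · nlinarith

/-- The large sieve at Farey points. -/
theorem mls_farey (R : ℕ) (hR : 1 ≤ R) (g : ℕ → ℂ) (A H : ℕ) :
    ∑ q ∈ Icc 1 R, ∑ b ∈ (range q).filter (fun b => Nat.Coprime b q),
      ‖∑ k ∈ Ioc A (A + H), g k * ee (k * ((b : ℝ) / q))‖ ^ 2 ≤
      (H + (R : ℝ) ^ 2 * (1 + 2 * Real.log R)) * ∑ k ∈ Ioc A (A + H), ‖g k‖ ^ 2 := by
  have hR' : (1 : ℝ) ≤ R := by exact_mod_cast hR
  have h := mls_additive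
    ((Icc 1 R).sigma fun q => (range q).filter (fun b => Nat.Coprime b q))
    (fun x => (x.2 : ℝ) / x.1) (δ := 1 / (R : ℝ) ^ 2) (by positivity)
    (by rw [div_le_one (by positivity)]; nlinarith) (fun x hx y hy hxy n => by
      obtain ⟨q, b⟩ := x
      obtain ⟨r, c⟩ := y
      simp only [mem_sigma, mem_Icc, mem_filter, mem_range] at hx hy ⊢
      obtain ⟨⟨a1, a2⟩, a3, a4⟩ := hx
      obtain ⟨⟨b1, b2⟩, b3, b4⟩ := hy
      have c1 : (0 : ℝ) < q := by exact_mod_cast a1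
      have c2 : (0 : ℝ) < r := by exact_mod_cast b1
      have e : (b : ℝ) / q - c / r - n = (((b : ℤ) * r - c * q - n * q * r : ℤ) : ℝ) / (q * r) := by
        push_cast
        field_simp
      have hne : (b : ℤ) * r - c * q - n * q * r ≠ 0 := by
        intro h0
        have d1 : (q : ℤ) ∣ (b : ℤ) * r := ⟨c + n * r, by linarith⟩
        have d2 : (r : ℤ) ∣ (c : ℤ) * q := ⟨b - n * q, by linarith⟩
        have d3 : q ∣ r := a4.symm.dvd_of_dvd_mul_left (by exact_mod_cast d1)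
        have d4 : r ∣ q := b4.symm.dvd_of_dvd_mul_left (by exact_mod_cast d2)
        obtain rfl : q = r := Nat.dvd_antisymm d3 d4
        have d5 : (b : ℤ) - c - n * q = 0 := by
          have : ((b : ℤ) - c - n * q) * q = 0 := by linarith
          exact (mul_eq_zero.1 this).resolve_right (by omega)
        have d6 : c ≡ b [MOD q] := Nat.modEq_iff_dvd.2 ⟨n, by linarith⟩
        exact hxy (by rw [Nat.ModEq.eq_of_lt_of_lt d6 b3 a3])
      rw [e, abs_div, abs_of_pos (mul_pos c1 c2)]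
      have c3 : (1 : ℝ) ≤ |(((b : ℤ) * r - c * q - n * q * r : ℤ) : ℝ)| := by
        exact_mod_cast Int.one_le_abs hne
      refine div_le_div₀ (abs_nonneg _) c3 (mul_pos c1 c2) ?_
      have c4 : (q : ℝ) ≤ R := by exact_mod_cast a2
      have c5 : (r : ℝ) ≤ R := by exact_mod_cast b2
      nlinarith) g A H
  rw [one_div_one_div, Real.log_pow, sum_sigma] at h
  exact_mod_cast h

section
variable {q : ℕ} [NeZero q]

lemma mls_gauss {χ : DirichletCharacter ℂ q} (hχ : χ.IsPrimitive) :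
    ‖gaussSum χ stdAddChar‖ ^ 2 = q := by
  have h := pv_parseval (q := q) χ
  simp only [hχ.fourierTransform_eq_inv_mul_gaussSum, norm_mul, mul_pow, ← sum_mul,
    ← MulChar.star_apply', norm_star] at h
  rw [← Equiv.sum_comp (Equiv.neg (ZMod q))] at h
  simp only [Equiv.neg_apply, neg_neg] at h
  have h0 : 0 < ∑ x : ZMod q, ‖χ x‖ ^ 2 :=
    sum_pos' (fun _ _ => by positivity) ⟨1, mem_univ _, by simp⟩
  rw [mul_comm] at h
  exact mul_right_cancel₀ h0.ne' h

lemma mls_orth (S : ZMod q → ℂ) :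
    ∑ χ : DirichletCharacter ℂ q, ‖∑ b, χ⁻¹ (-b) * S b‖ ^ 2 =
      q.totient * ∑ b ∈ univ.filter IsUnit, ‖S b‖ ^ 2 := by
  have key : ∀ b c : ZMod q, ∑ χ : DirichletCharacter ℂ q, χ⁻¹ (-b) * χ (-c) =
      if IsUnit b ∧ b = c then (q.totient : ℂ) else 0 := by
    intro b c
    by_cases hb : IsUnit b
    · have h1 : ∀ χ : DirichletCharacter ℂ q, χ⁻¹ (-b) = χ (-b)⁻¹ := fun χ => by
        rw [MulChar.inv_apply_eq_inv']
        refine (eq_inv_of_mul_eq_one_left ?_).symm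
        rw [← map_mul, ZMod.inv_mul_of_unit _ hb.neg, map_one]
      simp only [h1, DirichletCharacter.sum_char_inv_mul_char_eq ℂ hb.neg, neg_inj, hb, true_and]
    · have h1 : ¬ IsUnit (-b) := fun h => hb (by simpa using h.neg)
      simp [MulChar.map_nonunit _ h1, hb]
  have h : ∑ χ : DirichletCharacter ℂ q, (∑ b, χ⁻¹ (-b) * S b) * conj (∑ b, χ⁻¹ (-b) * S b) =
      q.totient * ∑ b ∈ univ.filter IsUnit, S b * conj (S b) := by
    have h1 : ∀ (χ : DirichletCharacter ℂ q) (c : ZMod q), conj (χ⁻¹ c) = χ c := fun χ c => by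
      have := MulChar.star_apply' χ⁻¹ c
      rwa [inv_inv] at this
    calc _ = ∑ χ : DirichletCharacter ℂ q, ∑ b, ∑ c,
            χ⁻¹ (-b) * χ (-c) * (S b * conj (S c)) := by
          refine sum_congr rfl fun χ _ => ?_
          rw [map_sum, sum_mul_sum]
          refine sum_congr rfl fun b _ => sum_congr rfl fun c _ => ?_
          rw [map_mul, h1]
          ring
      _ = ∑ b, ∑ c, (if IsUnit b ∧ b = c then (q.totient : ℂ) else 0) * (S b * conj (S c)) := by
          rw [sum_comm]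
          refine sum_congr rfl fun b _ => ?_
          rw [sum_comm]
          refine sum_congr rfl fun c _ => ?_
          rw [← sum_mul, key]
      _ = _ := by
          rw [sum_filter, mul_sum]
          refine sum_congr rfl fun b _ => ?_
          by_cases hb : IsUnit b <;> simp [hb]
  simp only [Complex.mul_conj'] at h
  exact_mod_cast h

lemma mls_one (X : Finset ℕ) (a : ℕ → ℂ) :
    ∑ χ ∈ prim q, ‖∑ n ∈ X, a n * χ n‖ ^ 2 ≤
      ∑ b ∈ (range q).filter (fun b => Nat.Coprime b q),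
        ‖∑ n ∈ X, a n * ee (n * ((b : ℝ) / q))‖ ^ 2 := by
  have hq : (0 : ℝ) < q := Nat.cast_pos.2 (NeZero.pos q)
  set S : ZMod q → ℂ := fun b => ∑ n ∈ X, a n * stdAddChar (b * (n : ZMod q)) with hS
  have h1 : ∀ χ : DirichletCharacter ℂ q, χ.IsPrimitive →
      ‖∑ n ∈ X, a n * χ n‖ ^ 2 = ‖∑ b, χ⁻¹ (-b) * S b‖ ^ 2 / q := by
    intro χ hχ
    have e : (q : ℂ) * ∑ n ∈ X, a n * χ n = gaussSum χ stdAddChar * ∑ b, χ⁻¹ (-b) * S b := by
      simp only [hS, mul_sum]
      rw [sum_comm]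
      refine sum_congr rfl fun n _ => ?_
      have := pv_inv (q := q) χ n
      simp only [hχ.fourierTransform_eq_inv_mul_gaussSum] at this
      rw [mul_left_comm, ← this, mul_sum]
      exact sum_congr rfl fun b _ => by ring
    have e2 := congrArg (fun z => ‖z‖ ^ 2) e
    simp only [norm_mul, mul_pow, mls_gauss hχ, Complex.norm_natCast] at e2
    rw [eq_div_iff hq.ne']
    refine mul_left_cancel₀ hq.ne' ?_
    rw [← e2]
    ring
  have h2 : ∑ χ ∈ prim q, ‖∑ n ∈ X, a n * χ n‖ ^ 2 ≤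
      ∑ χ : DirichletCharacter ℂ q, ‖∑ b, χ⁻¹ (-b) * S b‖ ^ 2 / q := by
    unfold prim
    refine (sum_image_le_of_nonneg fun _ _ => by positivity).trans ?_
    rw [sum_congr rfl fun χ hχ => h1 χ (mem_filter.1 hχ).2]
    exact sum_le_sum_of_subset_of_nonneg (filter_subset _ _) fun _ _ _ => by positivity
  have h3 : ∑ b ∈ univ.filter IsUnit, ‖S b‖ ^ 2 =
      ∑ b ∈ (range q).filter (fun b => Nat.Coprime b q),
        ‖∑ n ∈ X, a n * ee (n * ((b : ℝ) / q))‖ ^ 2 := by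
    refine (sum_nbij' (fun b : ℕ => (b : ZMod q)) ZMod.val ?_ ?_ ?_ ?_ ?_).symm
    · intro b hb
      exact mem_filter.2 ⟨mem_univ _, (ZMod.isUnit_iff_coprime b q).2 (mem_filter.1 hb).2⟩
    · intro b hb
      refine mem_filter.2 ⟨mem_range.2 (ZMod.val_lt b), (ZMod.isUnit_iff_coprime _ q).1 ?_⟩
      rw [ZMod.natCast_zmod_val]
      exact (mem_filter.1 hb).2
    · intro b hb
      exact ZMod.val_cast_of_lt (mem_range.1 (mem_filter.1 hb).1)
    · intro b _
      exact ZMod.natCast_zmod_val b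
    · intro b _
      congr 2
      refine sum_congr rfl fun n _ => ?_
      congr 1
      have := ZMod.stdAddChar_coe (N := q) ((b * n : ℕ) : ℤ)
      rw [Int.cast_natCast, Nat.cast_mul] at this
      rw [this]
      unfold ee
      congr 1
      push_cast
      ring
  refine h2.trans ?_
  rw [← sum_div, mls_orth, h3, div_le_iff₀ hq, mul_comm]
  exact mul_le_mul_of_nonneg_left (by exact_mod_cast Nat.totient_le q)
    (sum_nonneg fun _ _ => by positivity)

end

theorem blk_MLS (_hPB : St_PB) : St_MLS := by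
  refine ⟨2, two_pos, fun R N0 N a hR => ?_⟩
  have h1 := mls_farey R hR a N0 N
  have h2 : ∑ q ∈ Icc 1 R, ∑ χ ∈ prim q, ‖∑ n ∈ Ioc N0 (N0 + N), a n * χ n‖ ^ 2 ≤
      ∑ q ∈ Icc 1 R, ∑ b ∈ (range q).filter (fun b => Nat.Coprime b q),
        ‖∑ k ∈ Ioc N0 (N0 + N), a k * ee (k * ((b : ℝ) / q))‖ ^ 2 := by
    refine sum_le_sum fun q hq => ?_
    have : NeZero q := ⟨by have := (mem_Icc.1 hq).1; omega⟩
    exact mls_one _ a
  refine h2.trans (h1.trans (mul_le_mul_of_nonneg_right ?_ (sum_nonneg fun _ _ => by positivity)))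
  have h3 := Real.log_natCast_nonneg R
  have h4 : (0 : ℝ) ≤ N := Nat.cast_nonneg N
  have h5 : (0 : ℝ) ≤ (R : ℝ) ^ 2 := by positivity
  nlinarith [mul_nonneg h4 h3]

end Pool.Agent.Lib.PS
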