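import Pool.Agent.Lib.PS.MODEL3

namespace Pool.Agent.Lib.PS

open Finset Real Complex Filter
open scoped NumberTheorySymbols Classical ComplexConjugate ArithmeticFunction.vonMangoldt

noncomputable section

lemma md_S_mul' {L W : ℕ} [DecidableEq L.primeFactors] (g h : mdG L W) :
    mdS (g * h) = symmDiff (mdS g) (mdS h) := by
  ext i
  simp only [mdS, Finset.mem_symmDiff, mem_filter, mem_univ, true_and, Prod.fst_mul, Pi.mul_apply]
  rcases Int.units_eq_one_or (g.1 i) with a | a <;> rcases Int.units_eq_one_or (h.1 i) with b | b <;>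
    simp [a, b]

lemma md_lam_bd {χ : ℕ → ℂ} (h : ∀ n, ‖χ n‖ ≤ 1) (n : ℕ) : ‖lam χ n‖ ≤ Λ n := by
  have h5 : (0 : ℝ) ≤ Λ n := ArithmeticFunction.vonMangoldt_nonneg
  simp only [lam, norm_mul, Complex.norm_real, Real.norm_of_nonneg h5]
  exact mul_le_of_le_one_right h5 (h n)

lemma md_hasZ {χ : ℕ → ℂ} {l x T : ℝ} {z : ℂ} (hl : 0 < l) (h0 : zo (LL χ) l z ≠ 0)
    (h1 : z.re ≤ x) (h2 : |z.im| ≤ T * l) : HasZ χ (1 - x / l) T := by
  refine ⟨1 - z / l, ?_, ?_, md_zo_zero h0⟩
  · rw [md_rho_re]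
    have := div_le_div_of_nonneg_right h1 hl.le
    linarith
  · rw [md_rho_im hl, div_le_iff₀ hl]
    exact h2

theorem blk_MODEL (Lm : ℝ) (hLm : Lm ≤ 4) (hPB : St_PB) (hCANC : St_CANC) (hLDX : St_LDX)
    (hLDZ : St_LDZ) (hKUN : St_KUN) (hMERT : St_MERT) (hPSI : St_PSI) (hWT : St_WT)
    (hDENS : St_DENS) (hBOX : St_BOX) : St_NUM Lm → St_MNUM Lm := by
  rintro ⟨α, K, A, DS, hα, hK, hαK, hA, hDS, hN⟩
  refine ⟨α, K, hα, hK, hαK, fun cg hcg hcg1 lam0 hlam0 => ?_⟩
  obtain ⟨c0, Λ0, hc0, hN⟩ := hN lam0 hlam0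
  refine ⟨c0, max Λ0 1, hc0, fun Λm hΛ N0 W hW hE => ?_⟩
  have hΛ1 : 1 ≤ Λm := (le_max_right _ _).trans hΛ
  obtain ⟨ε, hε, hN⟩ := hN Λm ((le_max_left _ _).trans hΛ) N0
  obtain ⟨γ0, hγ0, hγ⟩ := md_list_min DS (fun D => D.u - 2 * D.w - 1 / 4)
    fun D hD => by linarith [(hDS D hD).2]
  obtain ⟨e, he, he1, he2, he3⟩ : ∃ e : ℝ, 0 < e ∧ 4 * e ≤ ε ∧ 5 * e ≤ γ0 ∧ e * A ^ 2 ≤ ε / 3 := by
    refine ⟨min (ε / 4) (min (γ0 / 5) (ε / 3 / A ^ 2)), by positivity, ?_, ?_, ?_⟩
    · linarith [min_le_left (ε / 4) (min (γ0 / 5) (ε / 3 / A ^ 2))]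
    · linarith [min_le_right (ε / 4) (min (γ0 / 5) (ε / 3 / A ^ 2)),
        min_le_left (γ0 / 5) (ε / 3 / A ^ 2)]
    · rw [← le_div_iff₀ (by positivity)]
      exact (min_le_right _ _).trans (min_le_right _ _)
  obtain ⟨e, he, he1, he2, he3, he4⟩ : ∃ e : ℝ, 0 < e ∧ 4 * e ≤ ε ∧ 5 * e ≤ γ0 ∧
      e * A ^ 2 ≤ ε / 3 ∧ e ≤ 1 := by
    refine ⟨min e 1, by positivity, ?_, ?_, ?_, min_le_right _ _⟩
    · linarith [min_le_left e 1]
    · linarith [min_le_left e 1]
    · exact (mul_le_mul_of_nonneg_right (min_le_left e 1) (by positivity)).trans he3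
  obtain ⟨c, hc, hc2, hcan⟩ := md_canc hPB hCANC he
  have hα4 : α ≤ 4 := by linarith
  have hK1 : K ≤ 1 := by linarith
  obtain ⟨C, c1, ηP, lP, hC, hc1, hηP, hP⟩ := hPSI c α K cg hc hc2 hα.le hα4 hK hK1 hcg hcg1
  obtain ⟨M, hM1, hM2, hM3⟩ : ∃ M : ℝ, 1 ≤ M ∧ Λm ≤ M ∧ C / M ≤ ε / 3 := by
    refine ⟨max Λm (3 * C / ε), hΛ1.trans (le_max_left _ _), le_max_left _ _, ?_⟩
    rw [div_le_iff₀ (by positivity)]
    have := le_max_right Λm (3 * C / ε)
    rw [div_le_iff₀ hε] at this
    linarith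
  obtain ⟨N, hNN⟩ : ∃ N : ℕ, C * M ≤ N := exists_nat_ge _
  obtain ⟨ηK, lK, hηK, hKu⟩ := hKUN c A Λm (ε / 3) (N + 3) hc hc2 hA (by positivity)
  obtain ⟨l1, hl1⟩ := hLDX.1 c ηP hc hc2 hηP
  obtain ⟨l2, hl2⟩ := hLDX.1 c ηK hc hc2 hηK
  obtain ⟨l3, hl3⟩ := hLDZ.1 c ηK hc hc2 hηK
  obtain ⟨I0, hI0⟩ := hBOX N0 Λm ε hε
  obtain ⟨ez, hez, hz⟩ := hLDZ.2.1 (5 ^ (I0 + 1))
  obtain ⟨l4, hl4⟩ := hMERT.2.1 A ε hA hε
  obtain ⟨l5, hl5⟩ := hMERT.2.2 (ε / 3 / (A ^ 2 * Real.exp (Λm * A))) (by positivity)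
  obtain ⟨l6, hl6⟩ := md_list_ev DS _ fun D hD =>
    hDENS D c M e (hDS D hD).1 hc hc2 he (by linarith [hγ D hD])
  have hT1 : (1 : ℝ) ≤ 5 ^ (I0 + 1) := one_le_pow₀ (by norm_num)
  refine ⟨5 ^ (I0 + 1), ?_⟩
  simp only [exists_and_left]
  refine ⟨hT1, eventually_atTop.1 ?_⟩
  filter_upwards [hcan W hW hE, eventually_ge_atTop lP, eventually_ge_atTop lK,
    eventually_ge_atTop l1, eventually_ge_atTop l2, eventually_ge_atTop l3, eventually_ge_atTop l4,
    eventually_ge_atTop l5, eventually_ge_atTop l6, eventually_ge_atTop (5 ^ (I0 + 1)),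
    eventually_ge_atTop M, md_ev_lin (C := M) (e := c / 2) (by positivity),
    md_ev_lin (C := Λm) hez, md_ev_exp (C := W) (e := 4) (by norm_num),
    md_ev_expneg hc1 (show 0 < ε / 3 by positivity),
    md_ev_gauss (M := M ^ 2 * cg / 2) (show 0 < ε / 3 / (N + 1) by positivity)]
    with l hcan qP qK q1 q2 q3 q4 q5 q6 qT qM qc qz qW qe qg L hL hLW hLl hcard hlow
  have hl : 0 < l := by linarith
  have hl1' : 1 ≤ l := by linarith
  have hMc : M < c * l := by linarith [mul_pos hc hl]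
  obtain ⟨hc1g, hc2g⟩ := hcan L hL hLW hLl
  have hCM : ∀ g : mdG L W, CM (mdC g) := md_CM hPB hL hLW hW hE
  have hd0 : ∀ g : mdG L W, 0 ≤ Real.log (mdM g) / l := fun g =>
    div_nonneg (Real.log_natCast_nonneg _) hl.le
  have hd1 : ∀ g : mdG L W, Real.log (mdM g) / l ≤ 1 := fun g => by
    rw [div_le_one hl]; exact md_M_le hL hLl g
  have hb0 : ∀ g : mdG L W, 0 ≤ Real.log (mdM g) / l / 4 + 2 * e := fun g => by
    linarith [hd0 g]
  have hb3 : ∀ g : mdG L W, Real.log (mdM g) / l / 4 + 2 * e ≤ 3 := fun g => by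
    linarith [hd1 g]
  have LP : ∀ g : mdG L W, g ≠ 1 → LD (lam (mdC g)) (LL (mdC g)) 0 c l
      (Real.log (mdM g) / l / 4 + 2 * e) ηP (l ^ 2) := fun g hg =>
    hl1 l q1 _ _ (hCM g) (hb0 g) (hb3 g) (hc1g g hg)
  have LK : ∀ g : mdG L W, g ≠ 1 → LD (lam (mdC g)) (LL (mdC g)) 0 c l
      (Real.log (mdM g) / l / 4 + 2 * e) ηK (l ^ 2) := fun g hg =>
    hl2 l q2 _ _ (hCM g) (hb0 g) (hb3 g) (hc1g g hg)
  have hex : ∀ g : mdG L W, ∃ Z : Multiset ℂ, ∀ z, Z.count z =
      if g ≠ 1 ∧ z.re ≤ M ∧ |z.im| ≤ 5 ^ (I0 + 1) * l then zo (LL (mdC g)) l z else 0 := by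
    intro g
    apply md_mkZ
    by_cases hg : g = 1
    · simp [hg]
    · refine (md_fin hLDX (M := M) (H := 5 ^ (I0 + 1)) hc hl hMc (LP g hg)).subset ?_
      rintro z ⟨⟨-, h1⟩, h2⟩
      exact ⟨h1, h2⟩
  choose Zb hZb using hex
  have hmem : ∀ (g : mdG L W) (z : ℂ), z ∈ Zb g ↔
      g ≠ 1 ∧ z.re ≤ M ∧ |z.im| ≤ 5 ^ (I0 + 1) * l ∧ zo (LL (mdC g)) l z ≠ 0 := by
    intro g z
    rw [← Multiset.count_ne_zero, hZb]
    split_ifs with h
    · exact ⟨fun h2 => ⟨h.1, h.2.1, h.2.2, h2⟩, fun h2 => h2.2.2.2⟩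
    · exact ⟨fun h2 => absurd rfl h2, fun h2 => absurd ⟨h2.1, h2.2.1, h2.2.2.1⟩ h⟩
  have hcnt : ∀ (g : mdG L W) (z : ℂ), (Zb g).count z ≤ zo (LL (mdC g)) l z := by
    intro g z
    rw [hZb]
    split_ifs
    · exact le_rfl
    · exact Nat.zero_le _
  have hre : ∀ (g : mdG L W), ∀ z ∈ Zb g, lam0 ≤ z.re := by
    intro g z hzz
    obtain ⟨h1, -, h3, h4⟩ := (hmem g z).1 hzz
    by_contra h
    exact hlow _ (md_F_mem hL hW h1) (md_hasZ hl h4 (not_le.1 h).le h3)
  set J : Finset (mdG L W) := univ.filter fun g => ∃ z ∈ Zb g, z.re ≤ Λm with hJ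
  have hJc : J.card ≤ N0 := by
    refine le_trans (Finset.card_le_card_of_injOn mdF ?_ (md_F_inj hW).injOn) hcard
    intro g hg
    obtain ⟨z, hzz, h⟩ := (mem_filter.1 hg).2
    obtain ⟨h1, -, h3, h4⟩ := (hmem g z).1 hzz
    exact mem_coe.2 (mem_filter.2 ⟨md_F_mem hL hW h1, md_hasZ hl h4 h h3⟩)
  obtain ⟨i, hi, hbox⟩ := hI0 _ J Zb l hl.le hJc fun g _ z hzz => hlam0.le.trans (hre g z hzz)
  have hpi : (5 : ℝ) ^ (i + 1) ≤ 5 ^ (I0 + 1) := pow_le_pow_right₀ (by norm_num) (by omega)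
  have hp1 : (1 : ℝ) ≤ 5 ^ i := one_le_pow₀ (by norm_num)
  have hH : (5 : ℝ) ^ (i + 1) * l ≤ 5 ^ (I0 + 1) * l := by gcongr
  have hH2 : l + 4 * (5 ^ i * l) ≤ (5 : ℝ) ^ (i + 1) * l := by
    have := mul_le_mul_of_nonneg_right hp1 hl.le
    rw [pow_succ]; linarith
  have hH3 : l ≤ (5 : ℝ) ^ i * l := le_mul_of_one_le_left hl.le hp1
  have hH4 : (5 : ℝ) ^ i * l ≤ (5 : ℝ) ^ (i + 1) * l := by linarith
  have hH5 : (5 : ℝ) ^ (I0 + 1) * l ≤ l ^ 2 * l := by
    have h1 := mul_le_mul_of_nonneg_right qT hl.le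
    have h2 : l * l ≤ l ^ 2 * l := by
      rw [sq]
      exact le_mul_of_one_le_right (by positivity) hl1'
    linarith
  set Z : mdG L W → Multiset ℂ := fun g => mdZ (Zb g) Λm (5 ^ (i + 1) * l) with hZ
  have hZ1 : ∀ g, Z g ≠ 0 → g ≠ 1 := by
    intro g hg
    obtain ⟨z, hzz, -⟩ := md_Z_ne.1 hg
    exact ((hmem g z).1 hzz).1
  have hZc : ∀ g, Z g ≠ 0 → ∀ z : ℂ, z.re ≤ M → |z.im| ≤ 5 ^ (i + 1) * l →
      (Z g).count z = zo (LL (mdC g)) l z := by
    intro g hg z h1 h2
    have e1 : Z g = _ := md_Z_eq hg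
    rw [e1, Multiset.count_filter, if_pos h2, hZb, if_pos ⟨hZ1 g hg, h1, h2.trans hH⟩]
  have hLW5 : ((L * W : ℕ) : ℝ) ≤ Real.exp (5 * l) := by
    rw [show 5 * l = l + 4 * l by ring, Real.exp_add, Nat.cast_mul]
    gcongr
  have hdiff : ∀ (f : ℝ → ℝ) (lm mu : ℝ) (g : mdG L W) (a : ℕ → ℂ), TF A f → lm ≤ Λm →
      (∀ n, ‖a n‖ ≤ Λ n) → (∀ n, Nat.Coprime n (L * W) → a n = (Λ n : ℂ) * mdC g n) →
      ((mdMD L W A l Z (fun g => ‖psiT (mdC g) l cg α K‖) (5 ^ i * l) N).K f (lm - mu * I) g).re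
        ≤ (Ks a f l (lm - mu * I)).re + ε / 3 := by
    intro f lm mu g a hf hlm ha hev
    have h1 := md_Kdiff (mu := mu) hA hl hf (by linarith) hlm (L * W) a (mdC g) ha hev
    have h2 := hl5 l q5 (L * W) ⌊Real.exp (A * l)⌋₊
      (Nat.mul_pos (Nat.pos_of_ne_zero hL.ne_zero) hW) hLW5
    have h3 : A ^ 2 * Real.exp (Λm * A) * (∑ n ∈ (Icc 1 ⌊Real.exp (A * l)⌋₊).filter
        (fun n => ¬ Nat.Coprime n (L * W)), Λ n / n) / l ≤ ε / 3 := by
      rw [div_le_iff₀ hl]
      refine (mul_le_mul_of_nonneg_left h2 (by positivity)).trans (le_of_eq ?_)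
      field_simp
    rw [md_K]
    have h4 := (Complex.re_le_norm _).trans (h1.trans h3)
    rw [Complex.sub_re] at h4
    unfold mdO
    linarith
  have hOk : (mdMD L W A l Z (fun g => ‖psiT (mdC g) l cg α K‖) (5 ^ i * l) N).Ok
      α K A DS lam0 Λm N0 ε := by
    constructor
    · intro g h n
      exact md_C_mul hL g h ((mem_filter.1 n.2).2.coprime_dvd_right (dvd_mul_right L W))
    · intro g n
      exact md_C_norm hL g (mem_filter.1 n.2).2
    · intro n
      have h5 : (0 : ℝ) ≤ Λ (n : ℕ) := ArithmeticFunction.vonMangoldt_nonneg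
      show 0 ≤ Λ (n : ℕ) / (n : ℕ) / l
      positivity
    · intro n
      exact md_t_mem hl (mem_filter.1 n.2).1
    · intro g h
      exact @md_S_mul' L W (fun a b => Classical.propDecidable (a = b)) g h
    · intro g
      exact subset_univ _
    · intro p
      exact div_nonneg (Real.log_natCast_nonneg _) hl.le
    · show ∑ p : L.primeFactors, Real.log (p : ℕ) / l ≤ 1
      rw [← Finset.sum_div, md_logL hL, div_le_one hl,
        Real.log_le_iff_le_exp (by exact_mod_cast Nat.pos_of_ne_zero hL.ne_zero)]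
      exact hLl
    · show 0 ≤ 5 ^ i * l
      positivity
    · by_contra h
      exact hZ1 1 h rfl
    · intro g
      show mdZ (Zb g⁻¹) _ _ = (mdZ (Zb g) _ _).map conj
      rw [← md_Z_conj]
      congr 1
      ext z
      have e1 : (Multiset.map conj (Zb g)).count z = (Zb g).count (conj z) := by
        have := Multiset.count_map_eq_count' conj (Zb g) (starRingEnd ℂ).injective (conj z)
        rwa [Complex.conj_conj] at this
      have e2 : zo (LL (mdC g⁻¹)) l z = zo (LL (mdC g)) l (conj z) := by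
        unfold zo
        rw [md_C_inv, ← (hLDX.2.2.1 (mdC g) (1 - conj z / l)).2]
        simp
      rw [e1, hZb, hZb, e2]
      simp
    · intro g z hzz
      exact hre g z (Multiset.mem_of_le (md_Z_le _ _ _) hzz)
    · refine le_trans (Finset.card_le_card ?_) hJc
      intro g hg
      obtain ⟨z, h1, h2, -⟩ := md_Z_ne.1 (mem_filter.1 hg).2
      exact mem_filter.2 ⟨mem_univ _, z, h1, h2⟩
    · intro g hg
      obtain ⟨z, h1, h2, h3⟩ := md_Z_ne.1 hg
      refine ⟨z, ?_, h2⟩
      have e1 : Z g = _ := md_Z_eq hg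
      show z ∈ Z g
      rw [e1]
      exact Multiset.mem_filter.2 ⟨h1, h3⟩
    · intro u hu
      refine le_trans ?_ (hl4 l q4 u hu)
      show ∑ n : mdO A l (L * W), Λ (n : ℕ) / (n : ℕ) / l * u (Real.log (n : ℕ) / l) ≤ _
      rw [Finset.sum_coe_sort (mdO A l (L * W))
        fun n => Λ n / n / l * u (Real.log n / l), Finset.sum_div]
      refine le_trans (le_of_eq (Finset.sum_congr rfl fun n _ => by ring))
        (Finset.sum_le_sum_of_subset_of_nonneg (filter_subset _ _) fun n _ _ => ?_)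
      have h5 : (0 : ℝ) ≤ Λ n := ArithmeticFunction.vonMangoldt_nonneg
      have := hu.1 (Real.log n / l)
      positivity
    · intro f lm mu g D hf hpd hlm hlm2 hmu hD hDc hoth
      have hmu' : |mu| ≤ 4 * (5 ^ i * l) := hmu
      have hD' : D ≤ Z g := hD
      have hmuT : |mu| ≤ l ^ 2 * l := by linarith
      have hf0 := md_TF_le hA hf le_rfl
      have hf1 := hf.1 0
      rw [md_d]
      by_cases hg : g = 1
      · subst hg
        have hD0 : D = 0 := by
          by_contra h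
          refine hZ1 1 (fun h2 => h ?_) rfl
          rw [h2] at hD'
          exact Multiset.le_zero.1 hD'
        subst hD0
        have h1 := hKu l qK _ _ 1 0 (l ^ 2) f lm mu 0 (hl3 l q3) zero_le_one le_rfl le_rfl
          (by norm_num) hf hpd hlm (by linarith) hmuT (by simp) (by simp) (by simp) (by
            intro z _ h2 h3
            have h4 : riemannZeta₁ (1 - z / l) = 0 := md_zo_zero (by simpa using h3.ne')
            by_contra h5
            refine hz _ ?_ ?_ h4
            · rw [md_rho_re]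
              have : z.re / l ≤ ez := by
                rw [div_le_iff₀ hl]
                linarith
              linarith
            · rw [md_rho_im hl, div_le_iff₀ hl]
              have := abs_sub (z.im + mu) mu
              rw [add_sub_cancel_right] at this
              linarith)
        have h2 := hdiff f lm mu 1 (lam 1) hf (by linarith) (md_lam_bd (by simp)) (by
          intro n hn
          rw [md_C_one (hn.coprime_dvd_right (dvd_mul_left W L))]
          simp [lam])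
        simp only [md_M_one, Nat.cast_one, Real.log_one, if_true, Multiset.map_zero,
          Multiset.sum_zero, zero_div, zero_mul, one_mul] at h1 ⊢
        linarith
      · have h1 := hKu l qK _ _ 0 _ (l ^ 2) f lm mu D (LK g hg) le_rfl zero_le_one (hb0 g)
          (hb3 g) hf hpd hlm (by linarith) hmuT hDc (by
            intro z hzz
            have := ((hmem g z).1 (Multiset.mem_of_le (hD'.trans (md_Z_le _ _ _)) hzz)).2.1
            linarith)
          (fun z => (Multiset.count_le_of_le z (hD'.trans (md_Z_le _ _ _))).trans (hcnt g z)) (by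
            intro z _ h2 h3
            by_cases h4 : z.re ≤ Λm
            · have h5 : |z.im| ≤ 5 ^ (i + 1) * l := by
                have := abs_sub (z.im + mu) mu
                rw [add_sub_cancel_right] at this
                linarith
              have h6 : Z g ≠ 0 := md_Z_ne.2 ⟨z, (hmem g z).2
                ⟨hg, h4.trans hM2, h5.trans hH, by omega⟩, h4, h5⟩
              have h7 := hZc g h6 z (h4.trans hM2) h5
              have h8 : z ∈ Z g - D := by
                rw [← Multiset.count_pos, Multiset.count_sub]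
                omega
              have := hoth z h8
              linarith
            · linarith)
        have h2 := hdiff f lm mu g (lam (mdC g)) hf (by linarith) (md_lam_bd (hCM g).2.2)
          fun n _ => rfl
        rw [if_neg hg]
        have h3 : e * f 0 ≤ ε / 3 := (mul_le_mul_of_nonneg_left hf0 he.le).trans he3
        linarith
    · intro g k x hk hx h
      by_cases hg : Z g = 0
      · have : k ≤ (Multiset.filter (fun z : ℂ => z.re ≤ x) (Z g)).card := h
        rw [hg] at this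
        simp at this
        omega
      · have e1 : Z g = _ := md_Z_eq hg
        obtain ⟨z, h1, h2, -⟩ := md_Z_ne.1 hg
        have h' : k ≤ (Multiset.filter (fun z : ℂ => z.re ≤ x) (Z g)).card := h
        rw [e1, Multiset.filter_filter] at h'
        have := hbox g (mem_filter.2 ⟨mem_univ _, z, h1, h2⟩) k x hk hx h'
        show k ≤ (Multiset.filter (fun z : ℂ => z.re ≤ x + ε ∧ |z.im| ≤ 5 ^ i * l) (Z g)).card
        rw [e1, Multiset.filter_filter]
        refine this.trans (Multiset.card_le_card (Multiset.monotone_filter_right _ ?_))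
        intro z hzz
        exact ⟨hzz, hzz.2.trans hH4⟩
    · intro g hg
      have hg' : Z g ≠ 0 := hg
      obtain ⟨Zp, p1, -, p3, -, p5⟩ := hP l qP _ _ 0 _ (l ^ 2) (LP g (hZ1 g hg')) le_rfl zero_le_one
        (hb0 g) (hb3 g) (by positivity)
      obtain ⟨p5, p6⟩ := p5 M hM1
      have hcardN : (Zp.filter fun z => ‖z‖ ≤ M).card ≤ N := by
        exact_mod_cast p6.trans hNN
      refine ⟨Zp.filter fun z => ‖z‖ ≤ M, ?_, hcardN, ?_⟩
      · show _ ≤ Z g
        rw [Multiset.le_iff_count]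
        intro z
        by_cases h : ‖z‖ ≤ M
        · rw [Multiset.count_filter, if_pos h, hZc g hg' z ((Complex.re_le_norm z).trans h)
            ((Complex.abs_im_le_norm z).trans (h.trans (qM.trans (hH3.trans hH4))))]
          exact p1 z
        · rw [Multiset.count_filter, if_neg h]
          exact Nat.zero_le _
      · show ‖psiT (mdC g) l cg α K‖ ≤ _
        have h1 : ‖psiT (mdC g) l cg α K‖ ≤ Real.exp (-(c1 * l))
            + ‖(Zp.map (Hs (l / cg) α K)).sum‖ := by
          have := norm_sub_le (psiT (mdC g) l cg α K - (0 : ℝ) + (Zp.map (Hs (l / cg) α K)).sum)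
            (Zp.map (Hs (l / cg) α K)).sum
          simp only [add_sub_cancel_right, Complex.ofReal_zero, sub_zero] at this
          simp only [Complex.ofReal_zero, sub_zero] at p3
          exact this.trans (add_le_add p3 le_rfl)
        have h2 := (md_sum_norm Zp (Hs (l / cg) α K)).trans
          (md_sum_split Zp (fun z => ‖Hs (l / cg) α K z‖) (fun _ => norm_nonneg _) M)
        have h3 := md_sum_le (Zp.filter fun z => ‖z‖ ≤ M) (fun z => ‖Hs (l / cg) α K z‖)
          (fun z => ‖HH α K z‖) (ε / 3 / (N + 1)) (by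
            intro z hzz
            obtain ⟨h4, h5⟩ := Multiset.mem_filter.1 hzz
            have h6 := md_Hs_le (α := α) (K := K) (div_pos hl hcg) h5
            have h7 : M ^ 2 / (2 * (l / cg)) = M ^ 2 * cg / 2 / l := by field_simp
            rw [h7] at h6
            have h8 : 0 ≤ z.re := by
              have : (Z g).count z = zo (LL (mdC g)) l z := hZc g hg' z
                ((Complex.re_le_norm z).trans h5)
                ((Complex.abs_im_le_norm z).trans (h5.trans (qM.trans (hH3.trans hH4))))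
              have h9 : z ∈ Z g := by
                rw [← Multiset.count_pos, this]
                exact (Multiset.count_pos.2 h4).trans_le (p1 z)
              exact hlam0.le.trans (hre g z (Multiset.mem_of_le (md_Z_le _ _ _) h9))
            have h10 := ((hWT α K hα.le hα4 hK hK1).2.2.2.1 z h8).1
            have h11 : Real.exp (-(α * z.re)) ≤ 1 := Real.exp_le_one_iff.2
              (neg_nonpos.2 (mul_nonneg (by linarith) h8))
            have h12 := norm_nonneg (HH α K z)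
            have h13 : 0 < ε / 3 / (N + 1 : ℝ) := by positivity
            have h14 := mul_le_mul_of_nonneg_left qg h12
            have h15 := mul_le_mul_of_nonneg_right (h10.trans h11) h13.le
            linarith)
        have h4 : ((Zp.filter fun z => ‖z‖ ≤ M).card : ℝ) * (ε / 3 / (N + 1)) ≤ ε / 3 := by
          have : ((Zp.filter fun z => ‖z‖ ≤ M).card : ℝ) ≤ N + 1 := by
            exact_mod_cast hcardN.trans (Nat.le_succ N)
          refine (mul_le_mul_of_nonneg_right this (by positivity)).trans (le_of_eq ?_)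
          field_simp
        linarith
    · intro D hD J' z y h
      have h' : ∀ g ∈ J', z g ∈ Zb g ∧ D.v + D.w + Real.log (mdM g) / l / 4 + ε ≤ y g ∧
          y g ≤ D.x := fun g hg => by
        have := h g hg
        rw [md_d] at this
        exact ⟨Multiset.mem_of_le (md_Z_le _ _ _) this.1, this.2⟩
      have e1 : ∀ g, (1 - (1 - z g / l : ℂ).re) * l = (z g).re := fun g => by
        rw [md_rho_re]; field_simp; ring
      have h1 := hl6 l q6 D hD _ J' mdC (fun g => 1 - z g / l)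
        (fun g => Real.log (mdM g) / l / 4 + 2 * e) y (by
          intro g hg
          obtain ⟨h2, h3, h4⟩ := h' g hg
          obtain ⟨m1, m2, m3, m4⟩ := (hmem g _).1 h2
          refine ⟨hCM g, hc1g g m1, md_zo_zero m4, by rw [e1]; exact m2, ?_, ?_, hb0 g,
            by linarith, h4⟩
          · rw [md_rho_re]
            have := div_nonneg (hlam0.le.trans (hre g _ h2)) hl.le
            linarith
          · rw [md_rho_im hl, div_le_iff₀ hl]
            exact m3.trans (by gcongr)) (by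
          intro g _ k _ hgk
          refine hCANC.1 _ c c _ _ (md_CM_mul (hCM g) (md_CM_cj (hCM k))) hc le_rfl (by linarith)
            (Real.exp_pos _).le (Real.exp_le_exp.2 ?_) (hc2g g k hgk)
          have := hγ D hD
          gcongr
          linarith)
      simp only [e1] at h1
      refine h1.trans ?_
      have := md_V_nonneg (hDS D hD).1
      have := (hDS D hD).1.w_pos
      gcongr
      linarith
  refine le_trans ?_ (hN _ _ _ _ hOk)
  show _ ≤ ∑ g ∈ univ.filter (fun g => Z g ≠ 0), ‖psiT (jc (mdF g).1 * (mdF g).2) l cg α K‖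
  rw [← Finset.sum_image (f := fun x : ℕ × (ℕ → ℂ) => ‖psiT (jc x.1 * x.2) l cg α K‖)
    (md_F_inj hW).injOn]
  refine Finset.sum_le_sum_of_subset_of_nonneg ?_ fun _ _ _ => norm_nonneg _
  intro x hx
  obtain ⟨h1, ρ, h2, h3, h4⟩ := mem_filter.1 hx
  obtain ⟨g, hg, rfl⟩ := md_F_surj hL h1
  refine mem_image.2 ⟨g, mem_filter.2 ⟨mem_univ _, ?_⟩, rfl⟩
  have hl' : (l : ℂ) ≠ 0 := by exact_mod_cast hl.ne'
  have r1 : ((1 - ρ) * l : ℂ).re ≤ Λm := by
    have : ((1 - ρ) * l : ℂ).re = (1 - ρ.re) * l := by simp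
    rw [this, ← le_div_iff₀ hl]
    linarith
  have r2 : |((1 - ρ) * l : ℂ).im| ≤ 5 ^ (i + 1) * l := by
    have : ((1 - ρ) * l : ℂ).im = -(ρ.im * l) := by simp
    rw [this, abs_neg, abs_mul, abs_of_pos hl]
    have := mul_le_mul_of_nonneg_right h3 hl.le
    linarith
  refine md_Z_ne.2 ⟨(1 - ρ) * l, (hmem g _).2 ⟨hg, r1.trans hM2, r2.trans hH, ?_⟩, r1, r2⟩
  unfold zo
  rw [mul_div_cancel_right₀ _ hl', sub_sub_cancel]
  have h5 : 1 - c < ρ.re := by
    have : Λm / l < c := by
      rw [div_lt_iff₀ hl]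
      linarith
    linarith
  have := (hLDX.2.2.2.1 _ _ _ _ _ _ _ _ ρ hc (LP g hg) h5).1 h4
  omega

end

end Pool.Agent.Lib.PS
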