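import Pool.Agent.Lib.PS.Blue
import Pool.Agent.Lib.MP_fb430f_co.Circle

/-! Block MOM: the `2k`-th moment of a short Jacobi symbol sum. -/

namespace Pool.Agent.Lib.PS

open Finset Real
open scoped NumberTheorySymbols Classical

lemma mom_tau {ε : ℝ} (hε : 0 < ε) : ∃ C : ℝ, 1 ≤ C ∧ ∀ M : ℕ, M ≠ 0 →
    (M.divisors.card : ℝ) ≤ C * (M : ℝ) ^ ε := by
  obtain ⟨C, hC, h⟩ := Pool.Agent.Lib.MP_fb430f_co.div_bound hε
  refine ⟨max C 1, le_max_right _ _, fun M hM => ?_⟩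
  have h1 : M.divisors.card ≤ ∏ p ∈ M.primeFactors, (M.factorization p + 2) := by
    rw [Nat.card_divisors hM]
    exact prod_le_prod' fun p _ => by omega
  calc (M.divisors.card : ℝ) ≤ ((∏ p ∈ M.primeFactors, (M.factorization p + 2) : ℕ) : ℝ) := by
        exact_mod_cast h1
    _ ≤ C * (M : ℝ) ^ ε := h M hM
    _ ≤ _ := by gcongr; exact le_max_left _ _

lemma mom_jac_prod {ι : Type} (s : Finset ι) (d : ι → ℕ) (hd : ∀ i ∈ s, d i ≠ 0) (a : ℤ) :
    J(a | ∏ i ∈ s, d i) = ∏ i ∈ s, J(a | d i) := by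
  induction s using Finset.induction_on with
  | empty => simp
  | insert i s hi ih =>
    rw [prod_insert hi, prod_insert hi, jacobiSym.mul_right' a (hd i (mem_insert_self _ _))
      (prod_ne_zero_iff.2 fun j hj => hd j (mem_insert_of_mem hj)),
      ih fun j hj => hd j (mem_insert_of_mem hj)]

lemma mom_abs_jac (a : ℤ) (b : ℕ) : |(J(a | b) : ℝ)| ≤ 1 := by
  rcases jacobiSym.trichotomy a b with h | h | h <;> simp [h]

/-- the number of tuples with a square product -/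
lemma mom_sq_count (m N : ℕ) (S : Finset ℕ) (hS : ∀ d ∈ S, 0 < d) (T : ℝ)
    (hN : ∀ p ∈ Fintype.piFinset (fun _ : Fin m => S), ∏ i, p i ≤ N ^ 2)
    (hT : ∀ r, 1 ≤ r → r ≤ N → (((r * r).divisors.card : ℕ) : ℝ) ≤ T) :
    (((Fintype.piFinset (fun _ : Fin m => S)).filter fun p => IsSquare (∏ i, p i)).card : ℝ)
      ≤ N * T ^ m := by
  have hsub : ((Fintype.piFinset (fun _ : Fin m => S)).filter fun p => IsSquare (∏ i, p i)) ⊆
      (Icc 1 N).biUnion fun r => Fintype.piFinset fun _ : Fin m => (r * r).divisors := by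
    intro p hp
    obtain ⟨hp1, r, hr⟩ := mem_filter.1 hp
    have h0 : 0 < ∏ i, p i := prod_pos fun i _ => hS _ (Fintype.mem_piFinset.1 hp1 i)
    have h1 := hN p hp1
    rw [hr] at h0 h1
    refine mem_biUnion.2 ⟨r, mem_Icc.2 ⟨Nat.pos_of_mul_pos_left h0, by nlinarith⟩,
      Fintype.mem_piFinset.2 fun i => Nat.mem_divisors.2 ⟨?_, h0.ne'⟩⟩
    rw [← hr]
    exact dvd_prod_of_mem _ (mem_univ i)
  calc _ ≤ (((Icc 1 N).biUnion fun r => Fintype.piFinset
        fun _ : Fin m => (r * r).divisors).card : ℝ) := by exact_mod_cast card_le_card hsub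
    _ ≤ ((∑ r ∈ Icc 1 N, (Fintype.piFinset fun _ : Fin m => (r * r).divisors).card : ℕ) : ℝ) := by
        exact_mod_cast card_biUnion_le
    _ ≤ ∑ _r ∈ Icc 1 N, T ^ m := by
        push_cast
        refine sum_le_sum fun r hr => ?_
        rw [Fintype.card_piFinset_const]
        push_cast
        exact pow_le_pow_left₀ (by positivity) (hT r (mem_Icc.1 hr).1 (mem_Icc.1 hr).2) _
    _ = _ := by simp

theorem blk_MOM (hPB : St_PB) (hPV : St_PV) : St_MOM := by
  intro k ε hk hε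
  set η : ℝ := ε / (8 * (k : ℝ) ^ 2) with hη
  have hk' : (1 : ℝ) ≤ k := by exact_mod_cast hk
  have hη0 : 0 < η := by positivity
  obtain ⟨C, hC, hτ⟩ := mom_tau hη0
  refine ⟨2 ^ k * 2 ^ ε * (C ^ (2 * k) + 2 * C * (1 + 1 / η)), by positivity,
    fun X D A b hD hA hb => ?_⟩
  set S := (Ioc D (2 * D)).filter Odd with hS
  set P := Fintype.piFinset (fun _ : Fin (2 * k) => S) with hP
  have hSpos : ∀ d ∈ S, 0 < d := fun d hd => by
    have := (mem_Ioc.1 (mem_filter.1 hd).1).1; omega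
  have hD' : (1 : ℝ) ≤ D := by exact_mod_cast hD
  set N : ℕ := (2 * D) ^ k with hN
  have hN1 : (1 : ℝ) ≤ N := by
    have : 1 ≤ N := Nat.one_le_pow _ _ (by omega)
    exact_mod_cast this
  have hprod : ∀ p ∈ P, ∏ i, p i ≤ N ^ 2 := fun p hp => by
    calc ∏ i, p i ≤ ∏ _i : Fin (2 * k), 2 * D := prod_le_prod' fun i _ =>
          (mem_Ioc.1 (mem_filter.1 (Fintype.mem_piFinset.1 hp i)).1).2
      _ = N ^ 2 := by rw [prod_const, card_univ, Fintype.card_fin, hN, ← pow_mul, mul_comm k 2]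
  set W : ℝ := ((N : ℝ) ^ 2) ^ η with hW
  have hW1 : 1 ≤ W := Real.one_le_rpow (one_le_pow₀ hN1) hη0.le
  have hWk : W ^ (2 * k) ≤ 2 ^ ε * (D : ℝ) ^ ε := by
    rw [hW, hN, ← Real.mul_rpow (by norm_num) (by positivity), ← Real.rpow_natCast,
      ← Real.rpow_mul (by positivity)]
    push_cast
    rw [← pow_mul, ← Real.rpow_natCast, ← Real.rpow_mul (by positivity)]
    apply Real.rpow_le_rpow_of_exponent_le (by linarith)
    rw [hη]; push_cast
    have : (k : ℝ) * 2 * (ε / (8 * (k : ℝ) ^ 2) * (2 * k)) = ε / 2 := by field_simp; ring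
    rw [this]; linarith
  have hτW : ∀ M : ℕ, M ≠ 0 → M ≤ N ^ 2 → (M.divisors.card : ℝ) ≤ C * W := fun M h0 h1 => by
    refine (hτ M h0).trans ?_
    have : (M : ℝ) ≤ (N : ℝ) ^ 2 := by exact_mod_cast h1
    rw [hW]; gcongr
  have hsq := mom_sq_count (2 * k) N S hSpos (C * W) hprod fun r h1 h2 =>
    hτW _ (by positivity) (by nlinarith)
  have hPcard : (P.card : ℝ) ≤ (D : ℝ) ^ (2 * k) := by
    rw [hP, Fintype.card_piFinset_const]
    have : S.card ≤ D := (card_filter_le _ _).trans (by simp; omega)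
    exact_mod_cast Nat.pow_le_pow_left this _
  set B : ℝ := 2 * (C * W) * N * ((1 + 1 / η) * W) with hB
  have hB0 : 0 ≤ B := by positivity
  have hinner : ∀ p ∈ P, |∑ n ∈ Ioc X (2 * X), (J((n : ℤ) | ∏ i, p i) : ℝ)| ≤
      (if IsSquare (∏ i, p i) then (X : ℝ) else 0) + B := by
    intro p hp
    split_ifs with h
    · refine le_trans ?_ (le_add_of_nonneg_right hB0)
      calc _ ≤ ∑ n ∈ Ioc X (2 * X), |(J((n : ℤ) | ∏ i, p i) : ℝ)| := abs_sum_le_sum_abs _ _
        _ ≤ ∑ _n ∈ Ioc X (2 * X), (1 : ℝ) := sum_le_sum fun n _ => mom_abs_jac _ _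
        _ = X := by simp [two_mul]
    · set M := ∏ i, p i with hM
      have hodd : Odd M := Finset.prod_induction _ Odd (fun _ _ => Odd.mul) odd_one
        fun i _ => (mem_filter.1 (Fintype.mem_piFinset.1 hp i)).2
      have hM0 : M ≠ 0 := hodd.pos.ne'
      have hM1 : (1 : ℝ) ≤ M := by exact_mod_cast hodd.pos
      have hMN : (M : ℝ) ≤ (N : ℝ) ^ 2 := by exact_mod_cast hprod p hp
      obtain ⟨-, -, -, -, -, -, -, -, h9, h10, -⟩ := hPB
      have h1 := hPV M (jc M) (h9 M hodd) (h10 M hodd h) X X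
      rw [← two_mul] at h1
      have h2 : ‖∑ n ∈ Ioc X (2 * X), jc M n‖ = |∑ n ∈ Ioc X (2 * X), (J((n : ℤ) | M) : ℝ)| := by
        rw [← Real.norm_eq_abs, ← Complex.norm_real]
        congr 1
        simp [jc]
      rw [zero_add, ← h2]
      refine h1.trans ?_
      have h3 : √(M : ℝ) ≤ N := by
        rw [Real.sqrt_le_left (by positivity)]; exact hMN
      have h4 : 1 + Real.log M ≤ (1 + 1 / η) * W := by
        have h5 : Real.log M ≤ (M : ℝ) ^ η / η := Real.log_le_rpow_div (by positivity) hη0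
        have h6 : (M : ℝ) ^ η ≤ W := by rw [hW]; gcongr
        have h7 : (M : ℝ) ^ η / η ≤ 1 / η * W := by
          rw [one_div_mul_eq_div]; gcongr
        linarith
      have h8 := hτW M hM0 (hprod p hp)
      have h9 : 0 ≤ 1 + Real.log M := by have := Real.log_nonneg hM1; linarith
      rw [hB]; gcongr
  have hexp : ∑ n ∈ Ioc X (2 * X), (∑ d ∈ S, b d * (J((n : ℤ) | d) : ℝ)) ^ (2 * k) =
      ∑ p ∈ P, (∏ i, b (p i)) * ∑ n ∈ Ioc X (2 * X), (J((n : ℤ) | ∏ i, p i) : ℝ) := by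
    simp_rw [Finset.sum_pow', mul_sum]
    rw [sum_comm]
    refine sum_congr rfl fun p hp => sum_congr rfl fun n _ => ?_
    rw [prod_mul_distrib, mom_jac_prod _ _ fun i _ =>
      (hSpos _ (Fintype.mem_piFinset.1 hp i)).ne']
    push_cast; rfl
  rw [hexp]
  have hAD : 0 ≤ A / D := by positivity
  have hstep : ∑ p ∈ P, (∏ i, b (p i)) * ∑ n ∈ Ioc X (2 * X), (J((n : ℤ) | ∏ i, p i) : ℝ) ≤
      (A / D) ^ (2 * k) * (N * (C * W) ^ (2 * k) * X + (D : ℝ) ^ (2 * k) * B) := by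
    calc _ ≤ ∑ p ∈ P, (A / D) ^ (2 * k) *
          ((if IsSquare (∏ i, p i) then (X : ℝ) else 0) + B) := by
          refine sum_le_sum fun p hp => (le_abs_self _).trans ?_
          rw [abs_mul, Finset.abs_prod]
          refine mul_le_mul ?_ (hinner p hp) (abs_nonneg _) (by positivity)
          calc ∏ i, |b (p i)| ≤ ∏ _i : Fin (2 * k), A / D :=
                prod_le_prod (fun _ _ => abs_nonneg _) fun i _ => hb _
            _ = _ := by rw [prod_const, card_univ, Fintype.card_fin]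
      _ = (A / D) ^ (2 * k) * (((P.filter fun p => IsSquare (∏ i, p i)).card : ℝ) * X
            + P.card * B) := by
          rw [← mul_sum, sum_add_distrib, ← sum_filter]; simp
      _ ≤ _ := by gcongr
  refine hstep.trans ?_
  have hDk : (0 : ℝ) < (D : ℝ) ^ k := by positivity
  have hNe : (N : ℝ) = 2 ^ k * (D : ℝ) ^ k := by rw [hN]; push_cast; rw [mul_pow]
  have hW2 : W * W ≤ 2 ^ ε * (D : ℝ) ^ ε := by
    refine le_trans ?_ hWk
    rw [← sq]; exact pow_le_pow_right₀ hW1 (by omega)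
  set E : ℝ := 2 ^ ε * (D : ℝ) ^ ε with hE
  have e1 : (A / D) ^ (2 * k) * (N * (C * W) ^ (2 * k) * X + (D : ℝ) ^ (2 * k) * B) =
      A ^ (2 * k) * 2 ^ k * (C ^ (2 * k) * W ^ (2 * k) * (X / (D : ℝ) ^ k)
        + 2 * C * (1 + 1 / η) * (W * W) * (D : ℝ) ^ k) := by
    rw [hB, hNe, div_pow, mul_pow, pow_mul' (D : ℝ) 2 k]
    field_simp
  have e2 : 2 ^ k * 2 ^ ε * (C ^ (2 * k) + 2 * C * (1 + 1 / η)) * A ^ (2 * k) * (D : ℝ) ^ ε *
      (X / (D : ℝ) ^ k + (D : ℝ) ^ k) = A ^ (2 * k) * 2 ^ k *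
      ((C ^ (2 * k) + 2 * C * (1 + 1 / η)) * E * (X / (D : ℝ) ^ k + (D : ℝ) ^ k)) := by
    rw [hE]; ring
  rw [e1, e2]
  refine mul_le_mul_of_nonneg_left ?_ (by positivity)
  have hE0 : 0 ≤ E := by positivity
  have a1 : C ^ (2 * k) * W ^ (2 * k) * (X / (D : ℝ) ^ k) ≤ C ^ (2 * k) * E * (X / (D : ℝ) ^ k) := by
    gcongr
  have a2 : 2 * C * (1 + 1 / η) * (W * W) * (D : ℝ) ^ k ≤ 2 * C * (1 + 1 / η) * E * (D : ℝ) ^ k := by
    gcongr
  have a3 : 0 ≤ C ^ (2 * k) * E * (D : ℝ) ^ k := by positivity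
  have a4 : 0 ≤ 2 * C * (1 + 1 / η) * E * (X / (D : ℝ) ^ k) := by positivity
  nlinarith

end Pool.Agent.Lib.PS
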