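import Pool.Agent.Lib.PS.NUM6

set_option autoImplicit false

namespace Pool.Agent.Lib.PS

open Finset MeasureTheory Complex Pool.Agent.Lib.MP_d48457_nt.N21
open scoped Classical ComplexConjugate

variable {Γ Ω ι : Type} [CommGroup Γ] [Fintype Γ] [Fintype Ω] {M : MD Γ Ω ι} {α A : ℝ}
  {lam0 Λm : ℝ} {N0 : ℕ} {ε : ℝ}

theorem num_c1 (h : M.Ok α (4 / 25) A [num_D] lam0 Λm N0 ε) (hα : 3 ≤ α) (hA : 10 ≤ A) (hε : 0 ≤ ε)
    (hε0 : ε ≤ lam0) (hΛ : 5 ≤ Λm) (hε1 : ε ≤ 1 / 10 ^ 6) {g : Γ} (hg : M.Z g ≠ 0) {l : ℝ}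
    (hl : ∀ z ∈ M.Z g, l ≤ z.re) (i : ℕ) (hi : i ≤ 300) (hil : (i:ℝ) / 100 + 1 / 100 ≤ l) :
    M.P g - ε ≤ Real.exp (-(3 * l)) * Ccl i := by
  obtain ⟨Y, y1, y2, y3⟩ := h.psi g hg
  have := num_cost1 hα Y (fun z hz => by linarith [h.Z_re g z (Multiset.mem_of_le y1 hz)])
    (Real.exp_pos (-(3 * l))).le
    (fun z hz => Real.exp_le_exp.2 (by linarith [hl z (Multiset.mem_of_le y1 hz)]))
    (num_clus h hA hΛ hε1 hg y1 y2 i hi hε (fun z hz => by linarith [hl z hz]))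
  linarith

theorem num_main (h : M.Ok α (4 / 25) A [num_D] lam0 Λm N0 ε) (hα : 3 ≤ α) (hA : 100000 ≤ A) (hε : 0 ≤ ε)
    (hε0 : ε ≤ lam0) (hΛ : 5 ≤ Λm) (hε1 : ε ≤ 1 / 10 ^ 6)
    (hΛ' : Real.exp (-Λm) ≤ 0.0894 * lam0) :
    ∑ g ∈ univ.filter (fun g => M.Z g ≠ 0), (M.P g - ε) ≤ max 0.945 (1 - lam0 / 30) := by
  have hA' : 10 ≤ A := by linarith
  obtain ⟨z0, z1, z2, l', hd⟩ := num_data h
  set C := univ.filter (fun g => M.Z g ≠ 0) with hC
  have hCm : ∀ g ∈ C, M.Z g ≠ 0 := fun g hg => (mem_filter.1 hg).2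
  have h1 : ∀ g ∈ C, (∀ z ∈ M.Z g, (z0 g).re ≤ z.re) ∧ z1 g ∈ M.Z g ∧ (z1 g).re ≤ (z0 g).re + ε ∧
      |(z1 g).im| ≤ M.H1 ∧ ε ≤ (z0 g).re ∧ (z0 g).re ≤ l' g ∧
      (l' g ≤ Λm → z2 g ∈ (M.Z g).erase (z1 g) ∧ (z2 g).re ≤ l' g + ε ∧ |(z2 g).im| ≤ M.H1) := by
    intro g hg
    obtain ⟨a1, a2, a3, a4, a5, a6, -, a8⟩ := hd g (hCm g hg)
    exact ⟨a2, a3, a4, a5, hε0.trans (h.Z_re g _ a1), a6, a8⟩
  by_cases hB : ∀ g, g * g = 1 → ∀ z ∈ M.Z g, z.im = 0 → 0.4701 < z.re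
  · refine le_trans ?_ (le_max_left _ _)
    have zf := num_zf h hA' hε hε0 hΛ hε1 hB
    have z47 : ∀ g ∈ C, 0.47 ≤ (z0 g).re := fun g hg => zf g _ (hd g (hCm g hg)).1
    obtain ⟨r1, r2, r3, r4⟩ := num_rows h hA hε hε0 hΛ hε1 C
      (C.filter fun g => (z0 g).re < 0.87 ∧ l' g < 1.05) (C.filter fun g => l' g < 0.69)
      (filter_subset _ _) (filter_subset _ _) (fun g => (z0 g).re) l' z1 z2 h1
      (fun g hg => ⟨z47 g (mem_filter.1 hg).1, (mem_filter.1 hg).2⟩)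
      (fun g hg => ⟨z47 g (mem_filter.1 hg).1, (mem_filter.1 hg).2⟩)
    refine coreA C (fun g => (z0 g).re) l' (fun g => M.P g - ε) z47 (fun g hg => (h1 g hg).2.2.2.2.2.1)
      (fun g hg i hi hil => num_c1 h hα hA' hε hε0 hΛ hε1 (hCm g hg) (h1 g hg).1 i hi hil)
      (fun g hg i k i1 i2 ik hi hk => ?_) r1 r2 r3 r4
      (num_dens h hε1 C z0 (fun g hg => (hd g (hCm g hg)).1))
    obtain ⟨Y, y1, y2, y3⟩ := h.psi g (hCm g hg)
    obtain ⟨a1, a2, -, -, -, -, a7, -⟩ := hd g (hCm g hg)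
    have := num_cost2 (E1 := Eq3 i) (E2 := Eq3 k) (gp := cC i) hα Y (z0 g)
      (fun z hz => by linarith [h.Z_re g z (Multiset.mem_of_le y1 hz)]) (Eq3_nonneg k) (Eq3_anti ik)
      (by unfold cC; push_cast; positivity) (exp_le_Eq3 i hi)
      (fun z hz => exp_le_Eq3 k (hk.trans (a7 z (Multiset.mem_of_le (Multiset.erase_le_erase _ y1) hz))))
      (G0_le_cC i _ hi) (num_clus h hA' hΛ hε1 (hCm g hg) y1 y2 (i - 1) (by omega) hε (fun z hz => by
        rw [Nat.cast_sub i1]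
        have := a2 z hz
        push_cast; linarith))
    linarith
  · refine le_trans ?_ (le_max_right _ _)
    push Not at hB
    obtain ⟨g1, hg1, w, hw, him, hre⟩ := hB
    obtain ⟨ls, o1, o2, o3⟩ := num_dh h hA' hε hε0 hΛ hε1 hg1 hw him hre
    have hw0 := h.Z_re g1 w hw
    have hZ : M.Z g1 ≠ 0 := Multiset.card_pos.1 (Multiset.card_pos_iff_exists_mem.2 ⟨w, hw⟩)
    have hg1C : g1 ∈ C := mem_filter.2 ⟨mem_univ _, hZ⟩
    have hs : C.erase g1 ⊆ C := erase_subset _ _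
    obtain ⟨-, r2, r3, r4⟩ := num_rows h hA hε hε0 hΛ hε1 (C.erase g1) ∅ ∅
      (empty_subset _) (empty_subset _) (fun g => (z0 g).re) l' z1 z2 (fun g hg => h1 g (hs hg))
      (by simp) (by simp)
    rw [sum_empty, add_zero] at r2
    obtain ⟨q1, q2⟩ := coreB (C.erase g1) (fun g => (z0 g).re) (fun g => M.P g - ε) (l1 := w.re) (ls := ls)
      (by linarith) hre (o3.imp id (fun hh => ⟨by linarith,
        (Real.exp_le_exp.2 (by linarith)).trans (hΛ'.trans (by linarith))⟩))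
      (fun g hg => o1 g (mem_erase.1 hg).1 _ (hd g (hCm g (hs hg))).1)
      (fun g hg i hi hil => num_c1 h hα hA' hε hε0 hΛ hε1 (hCm g (hs hg)) (h1 g (hs hg)).1 i hi hil)
      r2 r3 r4 (num_dens h hε1 _ z0 (fun g hg => (hd g (hCm g (hs hg))).1))
    rw [← add_sum_erase C _ hg1C]
    obtain ⟨Y, y1, y2, y3⟩ := h.psi g1 hZ
    have e0 : ((0:ℕ):ℝ) / 100 ≤ w.re := by simp; linarith
    have := num_cost2 (E1 := Real.exp (-(3 * w.re))) (E2 := Real.exp (-(3 * ls))) (gp := cC 0) hα Y w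
      (fun z hz => by linarith [h.Z_re g1 z (Multiset.mem_of_le y1 hz)]) (Real.exp_pos _).le
      (Real.exp_le_exp.2 (by linarith)) (by unfold cC; push_cast; positivity) le_rfl
      (fun z hz => Real.exp_le_exp.2 (by
        linarith [o2 z (Multiset.mem_of_le (Multiset.erase_le_erase _ y1) hz)]))
      (G0_le_cC 0 _ e0) (num_clus h hA' hΛ hε1 hZ y1 y2 0 (by omega) hε (fun z hz => by
        have := h.Z_re g1 z hz
        push_cast; linarith))
    have e1 : (cC 0 : ℝ) = 1 := by unfold cC; norm_num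
    have e2 : (Ccl 0 : ℝ) = 2.5626 := by unfold Ccl; norm_num
    rw [e1, e2] at this
    have := Real.exp_pos (-(3 * ls))
    linarith

theorem blk_NUM : St_NUM (10 / 3) := by
  refine ⟨3.01, 4 / 25, 100000, [num_D], by norm_num, by norm_num, by norm_num, by norm_num, ?_, ?_⟩
  · intro D hD
    rw [List.mem_singleton.1 hD]
    exact ⟨num_D_valid, by norm_num [num_D]⟩
  intro lam0 hl
  refine ⟨min (lam0 / 60) (1 / 100), max 5 (-Real.log (0.0894 * lam0)), by positivity, ?_⟩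
  intro Λm hΛ N0
  set c0 := min (lam0 / 60) (1 / 100) with hc0
  have hc : 0 < c0 := by positivity
  refine ⟨min (min lam0 (1 / 10 ^ 6)) (c0 / (N0 + 1)), by positivity, ?_⟩
  intro Γ Ω ι _ _ _ M h
  set ε := min (min lam0 (1 / 10 ^ 6)) (c0 / (N0 + 1)) with hε
  have e0 : 0 ≤ ε := by positivity
  have hm := num_main h (by norm_num) le_rfl e0 ((min_le_left _ _).trans (min_le_left _ _))
    ((le_max_left _ _).trans hΛ) ((min_le_left _ _).trans (min_le_right _ _)) (by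
      have := (le_max_right _ _).trans hΛ
      rw [← Real.exp_log (show 0 < 0.0894 * lam0 by positivity)]
      exact Real.exp_le_exp.2 (by linarith))
  rw [sum_sub_distrib, sum_const, nsmul_eq_mul] at hm
  have h1 : ((univ.filter fun g => M.Z g ≠ 0).card : ℝ) ≤ N0 := by exact_mod_cast h.Z_card
  have h2 : ε * (N0 + 1) ≤ c0 := (le_div_iff₀ (by positivity)).1 (min_le_right _ _)
  have h3 := mul_le_mul_of_nonneg_right h1 e0
  have h4 : c0 ≤ lam0 / 60 := min_le_left _ _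
  have h5 : c0 ≤ 1 / 100 := min_le_right _ _
  have h6 : max 0.945 (1 - lam0 / 30) ≤ 1 - 2 * c0 := max_le (by linarith) (by linarith)
  linarith

end Pool.Agent.Lib.PS
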