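import Pool.Agent.Lib.PS.Blue

/-!
Dictionary between Dirichlet characters and functions on the natural numbers.
-/

namespace Pool.Agent.Lib.PS

open Finset
open scoped NumberTheorySymbols Classical ComplexConjugate

lemma pb_modEq {q : ℕ} {ψ : ℕ → ℂ} (h : IsChar q ψ) {a b : ℕ} (hab : a ≡ b [MOD q]) :
    ψ a = ψ b := by
  have hp : Function.Periodic ψ q := h.2.2.1
  rw [← hp.map_mod_nat a, ← hp.map_mod_nat b, hab]

lemma pb_cop {a b q : ℕ} (h : a ≡ b [MOD q]) (hb : Nat.Coprime b q) : Nat.Coprime a q :=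
  h.gcd_eq.trans hb

lemma pb_isChar {q : ℕ} (hq : 0 < q) (χ : DirichletCharacter ℂ q) :
    IsChar q fun n : ℕ => χ (n : ZMod q) :=
  ⟨hq, ⟨by simp, fun m n => by simp, fun n => χ.norm_le_one _⟩, fun k => by simp,
    fun k hk => χ.map_nonunit (by rwa [ZMod.isUnit_iff_coprime])⟩

lemma pb_exists {q : ℕ} {ψ : ℕ → ℂ} (h : IsChar q ψ) :
    ∃ χ : DirichletCharacter ℂ q, (fun n : ℕ => χ (n : ZMod q)) = ψ := by
  have : NeZero q := ⟨h.1.ne'⟩
  have h1 : ∀ n : ℕ, ψ (n : ZMod q).val = ψ n := fun n =>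
    pb_modEq h (by rw [ZMod.val_natCast]; exact Nat.mod_modEq _ _)
  refine ⟨⟨⟨⟨fun a => ψ a.val, ?_⟩, fun a b => ?_⟩, fun a ha => ?_⟩, funext h1⟩
  · simpa [h.2.1.1] using h1 1
  · rw [← h.2.1.2.1, ← h1 (a.val * b.val)]; simp
  · refine h.2.2.2 _ ?_
    rwa [← ZMod.isUnit_iff_coprime, ZMod.natCast_zmod_val]

lemma pb_chars {q : ℕ} {ψ : ℕ → ℂ} (hq : 0 < q) : ψ ∈ chars q ↔ IsChar q ψ := by
  simp only [chars, mem_image, mem_univ, true_and]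
  exact ⟨fun ⟨χ, h⟩ => h ▸ pb_isChar hq χ, pb_exists⟩

lemma pb_mem_prim {q : ℕ} {ψ : ℕ → ℂ} : ψ ∈ prim q ↔
    ∃ χ : DirichletCharacter ℂ q, χ.IsPrimitive ∧ (fun n : ℕ => χ (n : ZMod q)) = ψ := by
  simp only [prim, mem_image, mem_filter, mem_univ, true_and]

lemma pb_prim_isChar {r : ℕ} {χ : ℕ → ℂ} (hr : 0 < r) (h : χ ∈ prim r) : IsChar r χ := by
  obtain ⟨ψ, -, rfl⟩ := pb_mem_prim.1 h
  exact pb_isChar hr ψ

lemma pb_card {r : ℕ} (hr : 0 < r) : (prim r).card ≤ r := by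
  have : NeZero r := ⟨hr.ne'⟩
  refine card_image_le.trans ((card_filter_le _ _).trans ?_)
  rw [card_univ, Fintype.card_eq_nat_card,
    DirichletCharacter.card_eq_totient_of_hasEnoughRootsOfUnity]
  exact Nat.totient_le r

lemma pb_prim_one : prim 1 = {fun _ => 1} := by
  ext ψ
  rw [pb_mem_prim, mem_singleton]
  have h : (fun n : ℕ => (1 : DirichletCharacter ℂ 1) (n : ZMod 1)) = fun _ => 1 :=
    funext fun n => MulChar.one_apply (isUnit_of_subsingleton _)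
  refine ⟨fun ⟨χ, _, h'⟩ => ?_, fun h' => ⟨1, DirichletCharacter.isPrimitive_one_level_one, ?_⟩⟩
  · rw [← h', χ.level_one, h]
  · rw [h', h]

lemma pb_unit {q : ℕ} [NeZero q] (u : (ZMod q)ˣ) :
    ∃ x : ℕ, Nat.Coprime x q ∧ (u : ZMod q) = x :=
  ⟨(u : ZMod q).val, ZMod.val_coe_unit_coprime u, (ZMod.natCast_zmod_val _).symm⟩

lemma pb_level {r N : ℕ} (h : r ∣ N) (χ : DirichletCharacter ℂ r) {x : ℕ} (hx : Nat.Coprime x N) :
    DirichletCharacter.changeLevel h χ (x : ZMod N) = χ (x : ZMod r) := by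
  simpa using χ.changeLevel_eq_cast_of_dvd' h (a := x) (Nat.isCoprime_iff_coprime.2 hx)

lemma pb_uniq {r r' g : ℕ} {χ χ' : ℕ → ℂ} (hr : 0 < r) (hr' : 0 < r') (hg : 0 < g)
    (h : χ ∈ prim r) (h' : χ' ∈ prim r') (he : ∀ k, Nat.Coprime k (r * r' * g) → χ k = χ' k) :
    r = r' ∧ χ = χ' := by
  obtain ⟨ψ, hψ, rfl⟩ := pb_mem_prim.1 h
  obtain ⟨ψ', hψ', rfl⟩ := pb_mem_prim.1 h'
  have : NeZero (r * r' * g) := ⟨by positivity⟩
  have d1 : r ∣ r * r' * g := ⟨r' * g, by ring⟩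
  have d2 : r' ∣ r * r' * g := ⟨r * g, by ring⟩
  have e : DirichletCharacter.changeLevel d1 ψ = DirichletCharacter.changeLevel d2 ψ' := by
    ext u
    obtain ⟨x, hx, hu⟩ := pb_unit u
    rw [hu, pb_level _ _ hx, pb_level _ _ hx]
    exact he x hx
  have e2 : r = r' := by
    have := congrArg DirichletCharacter.conductor e
    rwa [DirichletCharacter.conductor_changeLevel, DirichletCharacter.conductor_changeLevel,
      hψ, hψ'] at this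
  subst e2
  rw [DirichletCharacter.changeLevel_injective d1 e]
  exact ⟨rfl, rfl⟩

lemma pb_ft {r d : ℕ} [NeZero r] (hd : d ∣ r) (χ : DirichletCharacter ℂ r) :
    χ.FactorsThrough d ↔ ∀ x : ℕ, Nat.Coprime x r → x ≡ 1 [MOD d] → χ (x : ZMod r) = 1 := by
  rw [χ.factorsThrough_iff_ker_unitsMap hd]
  have key : ∀ (u : (ZMod r)ˣ) (x : ℕ), (u : ZMod r) = x →
      (u ∈ (ZMod.unitsMap hd).ker ↔ x ≡ 1 [MOD d]) ∧
        (u ∈ χ.toUnitHom.ker ↔ χ (x : ZMod r) = 1) := by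
    intro u x hx
    constructor
    · rw [MonoidHom.mem_ker, ← Units.val_inj, ZMod.unitsMap_val, hx, ZMod.cast_natCast hd,
        ← ZMod.natCast_eq_natCast_iff, Nat.cast_one, Units.val_one]
    · rw [MonoidHom.mem_ker, ← Units.val_inj, MulChar.coe_toUnitHom, hx, Units.val_one]
  constructor
  · intro h x hx h1
    have := key (ZMod.unitOfCoprime x hx) x rfl
    exact this.2.1 (h (this.1.2 h1))
  · intro h u hu
    obtain ⟨x, hx, e⟩ := pb_unit u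
    exact (key u x e).2.2 (h x hx ((key u x e).1.1 hu))

lemma pb_prim_iff {r : ℕ} {χ : ℕ → ℂ} (hr : 0 < r) : χ ∈ prim r ↔ IsChar r χ ∧
    ∀ d, d ∣ r → (∀ x : ℕ, Nat.Coprime x r → x ≡ 1 [MOD d] → χ x = 1) → d = r := by
  have : NeZero r := ⟨hr.ne'⟩
  refine ⟨fun h => ⟨pb_prim_isChar hr h, fun d hd h1 => ?_⟩, fun ⟨h, h1⟩ => ?_⟩
  · obtain ⟨ψ, hψ, rfl⟩ := pb_mem_prim.1 h
    have := ψ.conductor_dvd_of_mem_conductorSet ((pb_ft hd ψ).2 h1)
    rw [hψ] at this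
    exact Nat.dvd_antisymm hd this
  · obtain ⟨ψ, rfl⟩ := pb_exists h
    exact pb_mem_prim.2 ⟨ψ, h1 _ ψ.conductor_dvd_level
      ((pb_ft ψ.conductor_dvd_level ψ).1 ψ.factorsThrough_conductor), rfl⟩

lemma pb_cj {q : ℕ} {ψ : ℕ → ℂ} (h : IsChar q ψ) : IsChar q (cj ψ) :=
  ⟨h.1, ⟨by simp [cj, h.2.1.1], fun m n => by simp [cj, h.2.1.2.1],
    fun n => by simpa [cj] using h.2.1.2.2 n⟩, fun k => by simp [cj, h.2.2.1],
    fun k hk => by simp [cj, h.2.2.2 k hk]⟩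

lemma pb_cj_prim {r : ℕ} {χ : ℕ → ℂ} (hr : 0 < r) (h : χ ∈ prim r) : cj χ ∈ prim r := by
  rw [pb_prim_iff hr] at h ⊢
  refine ⟨pb_cj h.1, fun d hd h1 => h.2 d hd fun x hx h2 => ?_⟩
  simpa [cj] using congrArg conj (h1 x hx h2)

lemma pb_mul {q q' : ℕ} {ψ ψ' : ℕ → ℂ} (h : IsChar q ψ) (h' : IsChar q' ψ') :
    IsChar (q * q') (ψ * ψ') := by
  refine ⟨Nat.mul_pos h.1 h'.1, ⟨by simp [h.2.1.1, h'.2.1.1], fun m n => ?_, fun n => ?_⟩,
    fun k => ?_, fun k hk => ?_⟩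
  · simp only [Pi.mul_apply, h.2.1.2.1, h'.2.1.2.1]; ring
  · rw [Pi.mul_apply, norm_mul]
    exact mul_le_one₀ (h.2.1.2.2 n) (norm_nonneg _) (h'.2.1.2.2 n)
  · rw [Pi.mul_apply, Pi.mul_apply, pb_modEq h (a := k + q * q') (b := k) (by simp [Nat.ModEq]),
      pb_modEq h' (a := k + q * q') (b := k) (by simp [Nat.ModEq])]
  · rw [Nat.coprime_mul_iff_right, not_and_or] at hk
    rcases hk with hk | hk
    · rw [Pi.mul_apply, h.2.2.2 k hk, zero_mul]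
    · rw [Pi.mul_apply, h'.2.2.2 k hk, mul_zero]

lemma pb_prim_dvd {r q d : ℕ} {χ ψ : ℕ → ℂ} (hq : 0 < q) (hc : Nat.Coprime r q) (hχ : IsChar r χ)
    (hψ : ψ ∈ prim q) (h : ∀ x : ℕ, Nat.Coprime x r → Nat.Coprime x q → x ≡ 1 [MOD d] →
      χ x * ψ x = 1) : q ∣ d := by
  rw [pb_prim_iff hq] at hψ
  have := hψ.2 (Nat.gcd q d) (Nat.gcd_dvd_left _ _) fun x hx h1 => by
    obtain ⟨y, hy, hy'⟩ := Nat.chineseRemainder' (a := x) (b := 1) (n := q) (m := r * d)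
      (by rwa [Nat.Coprime.gcd_mul_left_cancel_right d hc])
    have h2 : y ≡ 1 [MOD r] := hy'.of_mul_right d
    have h3 := h y (pb_cop h2 (Nat.coprime_one_left _)) (pb_cop hy hx) (hy'.of_mul_left r)
    rwa [pb_modEq hχ h2, hχ.2.1.1, one_mul, pb_modEq hψ.1 hy] at h3
  exact this ▸ Nat.gcd_dvd_right q d

lemma pb_prim_mul {r q : ℕ} {χ ψ : ℕ → ℂ} (hr : 0 < r) (hq : 0 < q) (hc : Nat.Coprime r q)
    (hχ : χ ∈ prim r) (hψ : ψ ∈ prim q) : χ * ψ ∈ prim (r * q) := by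
  have h1 := pb_prim_isChar hr hχ
  have h2 := pb_prim_isChar hq hψ
  refine (pb_prim_iff (Nat.mul_pos hr hq)).2 ⟨pb_mul h1 h2, fun d hd h => ?_⟩
  refine Nat.dvd_antisymm hd (hc.mul_dvd_of_dvd_of_dvd ?_ ?_)
  · exact pb_prim_dvd hr hc.symm h2 hχ fun x hx hx' h3 => by
      rw [mul_comm]; exact h x (hx'.mul_right hx) h3
  · exact pb_prim_dvd hq hc h1 hψ fun x hx hx' h3 => h x (hx.mul_right hx') h3

lemma pb_jc_modEq {M a b : ℕ} (h : a ≡ b [MOD M]) : J((a : ℤ) | M) = J((b : ℤ) | M) :=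
  jacobiSym.mod_left' (Int.natCast_modEq_iff.2 h)

lemma pb_jc {M : ℕ} (hM : Odd M) : IsChar M (jc M) := by
  have : NeZero M := ⟨hM.pos.ne'⟩
  refine ⟨hM.pos, ⟨by simp [jc], fun m n => by simp [jc, jacobiSym.mul_left], fun n => ?_⟩,
    fun k => ?_, fun k hk => ?_⟩
  · rcases jacobiSym.trichotomy n M with h | h | h <;> simp [jc, h]
  · rw [jc, jc, pb_jc_modEq (a := k + M) (b := k) (by simp [Nat.ModEq])]
  · rw [jc, jacobiSym.eq_zero_iff_not_coprime.2 (by rwa [Int.gcd_natCast_natCast]), Int.cast_zero]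

lemma pb_jc_prim {M : ℕ} (hM : Odd M) (hs : Squarefree M) : jc M ∈ prim M := by
  refine (pb_prim_iff hM.pos).2 ⟨pb_jc hM, fun d hd h => ?_⟩
  by_contra hne
  obtain ⟨e, rfl⟩ := hd
  obtain ⟨p, hp, e, rfl⟩ := Nat.exists_prime_and_dvd (n := e) (by rintro rfl; simp at hne)
  have : Fact p.Prime := ⟨hp⟩
  have e1 : d * (p * e) = p * (d * e) := by ring
  rw [e1] at hM hs h
  have hc : Nat.Coprime p (d * e) := Nat.coprime_of_squarefree_mul hs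
  have h2 : p ≠ 2 := by
    rintro rfl
    exact (Nat.not_even_iff_odd.2 hM) (even_two_mul _)
  obtain ⟨a, ha⟩ := FiniteField.exists_nonsquare (F := ZMod p) (by rwa [ZMod.ringChar_zmod_n])
  obtain ⟨y, hy, hy'⟩ := Nat.chineseRemainder hc a.val 1
  have h3 : J((y : ℤ) | p) = -1 := by
    rw [pb_jc_modEq hy, ZMod.nonsquare_iff_jacobiSym_eq_neg_one]
    simpa using ha
  have h4 : J((y : ℤ) | p * (d * e)) = -1 := by
    rw [jacobiSym.mul_right' _ hp.ne_zero (right_ne_zero_of_mul hM.pos.ne'), h3, pb_jc_modEq hy']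
    simp
  have h5 : Nat.Coprime y (p * (d * e)) := by
    by_contra h5
    have := (pb_jc hM).2.2.2 y h5
    simp [jc, h4] at this
  have h6 := h y h5 (hy'.of_mul_right e)
  rw [jc, h4] at h6
  norm_num at h6

lemma pb_tw {q W N : ℕ} {ψ : ℕ → ℂ} (hN : 0 < N) (h : IsChar q ψ) (hq : q ∣ N) (hW : W ∣ N)
    (hc : ∀ k, Nat.Coprime k q → Nat.Coprime k W → Nat.Coprime k N) : IsChar N (tw W ψ) := by
  refine ⟨hN, ⟨by simp [tw, h.2.1.1], fun m n => ?_, fun n => ?_⟩, fun k => ?_, fun k hk => ?_⟩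
  · simp only [tw, Nat.coprime_mul_iff_left, h.2.1.2.1]
    split_ifs with h0 h1 h2 h3 h4 h5
    exacts [rfl, absurd h0.2 h2, absurd h0.1 h1, absurd h0.1 h1, absurd ⟨h4, h5⟩ h0,
      (mul_zero _).symm, (zero_mul _).symm, (zero_mul _).symm]
  · unfold tw
    split_ifs
    · exact h.2.1.2.2 n
    · simp
  · have h1 : k + N ≡ k [MOD N] := by simp [Nat.ModEq]
    simp only [tw, Nat.Coprime, (h1.of_dvd hW).gcd_eq, pb_modEq h (h1.of_dvd hq)]
  · unfold tw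
    split_ifs with h1
    · exact h.2.2.2 k fun h2 => hk (hc k h2 h1)
    · rfl

lemma pb_cond {W : ℕ} {ψ : ℕ → ℂ} (h : IsChar W ψ) :
    ∃ q ψ', q ∣ W ∧ ψ' ∈ prim q ∧ ψ = tw W ψ' := by
  obtain ⟨χ, rfl⟩ := pb_exists h
  refine ⟨_, _, χ.conductor_dvd_level,
    pb_mem_prim.2 ⟨_, χ.primitiveCharacter_isPrimitive, rfl⟩, funext fun k => ?_⟩
  unfold tw
  split_ifs with hk
  · simpa using (χ.primitiveCharacter_apply_of_isCoprime (a := k)
      (Nat.isCoprime_iff_coprime.2 hk)).symm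
  · exact h.2.2.2 k hk

lemma pb_nonpr {q g : ℕ} {ψ : ℕ → ℂ} (hg : 0 < g) (h : IsChar q ψ) (hn : NonPr q ψ) :
    ∃ x, Nat.Coprime x (q * g) ∧ ψ x ≠ 1 := by
  obtain ⟨x, hx, h1⟩ := hn
  obtain ⟨p, h2, hp, h3⟩ := Nat.forall_exists_prime_gt_and_modEq (q * g) h.1.ne' hx
  refine ⟨p, (Nat.Prime.coprime_iff_not_dvd hp).2 fun h4 => ?_, by rwa [pb_modEq h h3]⟩
  exact absurd (Nat.le_of_dvd (Nat.mul_pos h.1 hg) h4) (not_le.2 h2)

lemma pb_jc_nonpr {M : ℕ} (hM : Odd M) (hs : ¬ IsSquare M) : NonPr M (jc M) := by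
  obtain ⟨a, b, rfl, ha⟩ := Nat.sq_mul_squarefree M
  have hb : b ≠ 0 := by rintro rfl; simp at hM
  have ho : Odd a := Nat.Odd.of_mul_right hM
  have h1 : NonPr a (jc a) := by
    by_contra hn
    have := ((pb_prim_iff ho.pos).1 (pb_jc_prim ho ha)).2 1 (one_dvd _) fun x hx _ => by
      by_contra h2
      exact hn ⟨x, hx, h2⟩
    exact hs ⟨b, by rw [← this]; ring⟩
  obtain ⟨x, hx, h2⟩ := pb_nonpr (Nat.pos_of_ne_zero hb) (pb_jc ho) h1
  rw [Nat.coprime_mul_iff_right] at hx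
  refine ⟨x, (hx.2.pow_right 2).mul_right hx.1, ?_⟩
  rwa [jc, jacobiSym.mul_right' _ (pow_ne_zero 2 hb) ho.pos.ne', jacobiSym.pow_right,
    jacobiSym.sq_one (by rw [Int.gcd_natCast_natCast]; exact hx.2), one_mul]

theorem blk_PB : St_PB :=
  ⟨fun _ _ hq => pb_chars hq, fun _ _ => pb_prim_isChar, fun _ => pb_card, pb_prim_one,
    fun _ _ _ _ _ => pb_uniq, fun _ _ => pb_cj_prim,
    fun _ _ _ hM hs hq hc h => pb_prim_mul hM.pos hq hc (pb_jc_prim hM hs) h,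
    fun _ _ => pb_cond, fun _ => pb_jc, fun _ => pb_jc_nonpr, fun _ _ _ _ => pb_mul,
    fun _ _ => pb_cj,
    fun _ _ _ hW h => pb_tw (Nat.mul_pos h.1 hW) h (dvd_mul_right _ _) (dvd_mul_left _ _)
      fun _ => Nat.Coprime.mul_right,
    fun _ _ _ hW hq h => pb_tw hW h hq dvd_rfl fun _ _ h => h,
    fun _ _ _ => pb_nonpr⟩

end Pool.Agent.Lib.PS
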