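import Pool.Agent.Lib.PS.PSI2

/-! Block PSI: explicit formula for the weighted prime sum. -/

namespace Pool.Agent.Lib.PS

open Finset Real MeasureTheory Complex Set
open scoped Classical ArithmeticFunction.vonMangoldt

lemma psi_ord_ne {E : ℂ → ℂ} {ρ : ℂ} (h : ord E ρ ≠ 0) : E ρ = 0 := by
  by_contra k
  apply h
  rw [ord, analyticOrderNatAt, analyticOrderAt_eq_zero.2 (Or.inr k)]
  rfl

lemma psi_key {a : ℕ → ℂ} {E G : ℂ → ℂ} {m c l b η T : ℝ} (hL : LD a E m c l b η T) (l0 : 0 < l)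
    {Z0 : Multiset ℂ} {v : ℂ} (hv : 0 < v.re)
    (h : E (1 + v / l) ≠ 0 → deriv E (1 + v / l) / E (1 + v / l) =
      (Z0.map fun ρ => 1 / (1 + v / l - ρ)).sum + G (1 + v / l)) :
    psiRest a m l (Z0.map fun ρ : ℂ => (1 - ρ) * l) v = -G (1 + v / l) / l := by
  have l' : (l : ℂ) ≠ 0 := by exact_mod_cast l0.ne'
  obtain ⟨e1, e2⟩ := hL.ser (1 + v / l) (by
    simp only [add_re, one_re, Complex.div_ofReal_re, lt_add_iff_pos_right]; positivity)
  have e3 : ((Z0.map fun ρ : ℂ => (1 - ρ) * l).map fun z => 1 / (v + z)).sum =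
      (Z0.map fun ρ => 1 / (1 + v / l - ρ)).sum / l := by
    rw [← Multiset.sum_map_div, Multiset.map_map]
    congr 1
    refine Multiset.map_congr rfl fun ρ _ => ?_
    simp only [Function.comp]
    rw [div_div, show (1 + v / l - ρ) * l = v + (1 - ρ) * l by field_simp; ring]
  rw [psiRest, e2, h e1, e3, add_sub_cancel_left, div_div_eq_mul_div]
  field_simp
  ring

lemma psi_sums (hWT : St_WT) {α K : ℝ} (h3 : 3 ≤ α) (h4 : α ≤ 4) (K0 : 0 < K) (K1 : K ≤ 1)
    {κ l c C C1 : ℝ} (l1 : 1 ≤ l) (hκ : l ≤ κ) (c0 : 0 < c) (cl : 16 ≤ c * l) (C0 : 0 ≤ C)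
    (C10 : 0 ≤ C1) {Z : Multiset ℂ} (hZ : ∀ z ∈ Z, 0 ≤ z.re ∧ z.re ≤ l / 4)
    (hc : (Z.card : ℝ) ≤ C * l)
    (hd : ∀ r : ℝ, 1 ≤ r → r ≤ c * l / 16 → (Z.map fun z => (1 / (r + z : ℂ)).re).sum ≤ C1) :
    (∀ lm : ℝ, 0 ≤ lm → ((Z.filter fun z => lm ≤ z.re).map fun z => ‖Hs κ α K z‖).sum
        ≤ (16 / K ^ 2 * (C1 + 16 * C / c) + 1) * Real.exp (-((α - 1 / 4) * lm))) ∧
      ∀ M : ℝ, 1 ≤ M → ((Z.filter fun z => M ≤ ‖z‖).map fun z => ‖Hs κ α K z‖).sum
          ≤ (16 / K ^ 2 * (C1 + 16 * C / c) + 1) / M ∧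
        ((Z.filter fun z => ‖z‖ ≤ M).card : ℝ) ≤ (16 / K ^ 2 * (C1 + 16 * C / c) + 1) * M := by
  have k16 : 16 ≤ 16 / K ^ 2 := by
    rw [le_div_iff₀ (by positivity)]; nlinarith
  have p1 : 0 ≤ 16 * C / c := by positivity
  have q0 : ∀ r : ℝ, 0 < r → ∀ z ∈ Z, 0 ≤ (1 / (r + z : ℂ)).re := fun r hr z hz =>
    le_trans (by positivity) (psi_re_inv hr (hZ z hz).1)
  have near : ∀ r : ℝ, 0 < r → ∀ z ∈ Z, ‖z‖ ≤ r → 1 ≤ 4 * r * (1 / (r + z : ℂ)).re := by
    intro r hr z hz h
    have h1 := psi_re_inv hr (hZ z hz).1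
    have h2 : r / (r + r) ^ 2 ≤ r / (r + ‖z‖) ^ 2 := by gcongr
    calc (1 : ℝ) = 4 * r * (r / (r + r) ^ 2) := by field_simp; ring
      _ ≤ _ := by gcongr; exact h2.trans h1
  have far : ∀ r : ℝ, 0 < r → ∀ z ∈ Z, r ≤ ‖z‖ → ∀ x y : ℝ, 0 ≤ y → x * ‖z‖ ^ 2 ≤ 4 / K ^ 2 * y →
      x ≤ 16 / K ^ 2 * y / r * (1 / (r + z : ℂ)).re := by
    intro r hr z hz h x y y0 hx
    have z0 : 0 < ‖z‖ := hr.trans_le h
    have h1 := psi_re_inv hr (hZ z hz).1
    have h2 : r / (‖z‖ + ‖z‖) ^ 2 ≤ r / (r + ‖z‖) ^ 2 := by gcongr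
    calc x ≤ 4 / K ^ 2 * y / ‖z‖ ^ 2 := (le_div_iff₀ (by positivity)).2 hx
      _ = 16 / K ^ 2 * y / r * (r / (‖z‖ + ‖z‖) ^ 2) := by field_simp; ring
      _ ≤ _ := by gcongr; exact h2.trans h1
  have hH := fun z (hz : z ∈ Z) => psi_Hs_le hWT h3 h4 K0 K1 l1 hκ (hZ z hz).1 (hZ z hz).2
  have one : ∀ z ∈ Z, Real.exp (-((α - 1 / 4) * z.re)) ≤ 1 := fun z hz =>
    Real.exp_le_one_iff.2 (neg_nonpos.2 (mul_nonneg (by linarith) (hZ z hz).1))
  refine ⟨fun lm _ => ?_, fun M M1 => ?_⟩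
  · set X := Real.exp (-((α - 1 / 4) * lm)) with hX
    have X0 : 0 < X := Real.exp_pos _
    refine (psi_filter_le (g := fun z => 16 / K ^ 2 * X * (1 / ((1 : ℝ) + z : ℂ)).re) Z
      (fun z hz => mul_nonneg (by positivity) (q0 1 one_pos z hz)) fun z hz h => ?_).trans ?_
    · have e : Real.exp (-((α - 1 / 4) * z.re)) ≤ X := by
        rw [hX]; gcongr; linarith
      rcases le_total ‖z‖ 1 with k | k
      · have := near 1 one_pos z hz k
        have := q0 1 one_pos z hz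
        calc _ ≤ X * 1 := by rw [mul_one]; exact (hH z hz).1.trans e
          _ ≤ X * (16 / K ^ 2 * (1 / ((1 : ℝ) + z : ℂ)).re) := by gcongr; nlinarith
          _ = _ := by ring
      · simpa using far 1 one_pos z hz k _ X X0.le ((hH z hz).2.trans (by gcongr))
    · rw [Multiset.sum_map_mul_left]
      have := hd 1 le_rfl (by linarith)
      calc _ ≤ 16 / K ^ 2 * X * C1 := by gcongr
        _ = 16 / K ^ 2 * C1 * X := by ring
        _ ≤ _ := by gcongr; nlinarith
  have M0 : 0 < M := by linarith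
  have cd : ((Z.filter fun z => ‖z‖ ≤ M).card : ℝ) =
      ((Z.filter fun z => ‖z‖ ≤ M).map fun _ => (1 : ℝ)).sum := by simp
  rcases le_total M (c * l / 16) with k | k
  · have := hd M M1 k
    constructor
    · refine (psi_filter_le (g := fun z => 16 / K ^ 2 * 1 / M * (1 / (M + z : ℂ)).re) Z
        (fun z hz => mul_nonneg (by positivity) (q0 M M0 z hz)) fun z hz h =>
          far M M0 z hz h _ 1 zero_le_one ((hH z hz).2.trans (by gcongr; exact one z hz))).trans ?_
      rw [Multiset.sum_map_mul_left]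
      calc _ ≤ 16 / K ^ 2 * 1 / M * C1 := by gcongr
        _ = 16 / K ^ 2 * C1 / M := by ring
        _ ≤ _ := by gcongr; nlinarith
    · rw [cd]
      refine (psi_filter_le (g := fun z => 4 * M * (1 / (M + z : ℂ)).re) Z
        (fun z hz => mul_nonneg (by positivity) (q0 M M0 z hz)) (near M M0)).trans ?_
      rw [Multiset.sum_map_mul_left]
      calc _ ≤ 4 * M * C1 := by gcongr
        _ = 4 * C1 * M := by ring
        _ ≤ _ := by gcongr ?_ * M; nlinarith
  · have hc' : (Z.card : ℝ) ≤ 16 * C / c * M := by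
      refine hc.trans ?_
      rw [show 16 * C / c * M = C * (16 * M / c) by ring]
      gcongr
      rw [le_div_iff₀ c0]; linarith
    constructor
    · refine (psi_filter_le (g := fun _ => 4 / K ^ 2 / M ^ 2) Z
        (fun z hz => by positivity) fun z hz h => ?_).trans ?_
      · rw [le_div_iff₀ (by positivity)]
        calc _ ≤ ‖Hs κ α K z‖ * ‖z‖ ^ 2 := by gcongr
          _ ≤ 4 / K ^ 2 * 1 := (hH z hz).2.trans (by gcongr; exact one z hz)
          _ = _ := mul_one _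
      · rw [Multiset.map_const', Multiset.sum_replicate, nsmul_eq_mul]
        calc _ ≤ 16 * C / c * M * (4 / K ^ 2 / M ^ 2) := by gcongr
          _ = 16 / K ^ 2 * (16 * C / c / 4) / M := by field_simp; ring
          _ ≤ _ := by gcongr; nlinarith
    · calc _ ≤ (Z.card : ℝ) := by exact_mod_cast Multiset.card_le_card (Multiset.filter_le _ _)
        _ ≤ _ := hc'.trans (by gcongr ?_ * M; nlinarith)

theorem blk_PSI (hFACT : St_FACT) (hGS : St_GS) (hEF : St_EF) (hLDZ : St_LDZ) (hWT : St_WT) :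
    St_PSI := by
  intro c α K cg c0 c1 h3 h4 K0 K1 g0 g1
  obtain ⟨C, C1, hF⟩ := hFACT c c0 c1
  obtain ⟨δ, η, l0, -, -, η0, hF'⟩ := hF 1 one_pos
  clear hF
  obtain ⟨C', C'0, hC'⟩ := hLDZ.2.2
  set d := c / 100 with hd
  have d0 : 0 < d := by positivity
  set β := d ^ 2 * cg with hβ
  have β0 : 0 < β := by positivity
  have β1 : β ≤ 4 := by
    have : d ^ 2 ≤ 1 := by nlinarith
    nlinarith
  obtain ⟨l2, hl2⟩ := psi_small (12 / K * Real.exp 7 * (16 * (2 + C' + C) / cg + 4 * C) + 4 * C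
    + 2 / K * (1 + C)) β β0
  refine ⟨16 / K ^ 2 * ((C + 2 + C') + 16 * C / c) + 1, β / 2, η, max (max l0 l2) (100 / c),
    by positivity, by positivity, η0, fun l hl a E m b T hL m0 m1 b0 b3 T0 => ?_⟩
  have cl : 100 ≤ c * l := by
    have := (div_le_iff₀ c0).1 ((le_max_right _ _).trans hl); linarith
  have l1 : 1 ≤ l := by nlinarith
  have l0' : 0 < l := by linarith
  have l' : (l : ℂ) ≠ 0 := by exact_mod_cast l0'.ne'
  have κl : l ≤ l / cg := by rw [le_div_iff₀ g0]; nlinarith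
  obtain ⟨R, Z0, G, R1, R2, hZ, hcard, dG, hG, -⟩ := hF' l ((le_max_left _ _).trans
    ((le_max_left _ _).trans hl)) a E m b T 0 hL b0 b3 (by simpa using T0)
  clear hF'
  simp only [ofReal_zero, zero_mul, add_zero] at hZ dG hG
  set Z := Z0.map fun ρ : ℂ => (1 - ρ) * l with hZd
  have z1 : ∀ z ∈ Z, 0 ≤ z.re ∧ ‖z‖ < c * l / 2 := fun z hz => by
    obtain ⟨ρ, hρ, rfl⟩ := Multiset.mem_map.1 hz
    have k := Multiset.count_ne_zero.2 hρ
    rw [hZ] at k
    split_ifs at k with k'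
    · constructor
      · have : ρ.re ≤ 1 := not_lt.1 fun h => (hL.ser ρ h).1 (psi_ord_ne k)
        simp only [mul_re, sub_re, one_re, ofReal_re, ofReal_im, mul_zero, sub_zero]
        exact mul_nonneg (by linarith) l0'.le
      · rw [show (1 - ρ) * l = -((ρ - (1 + 1 / l)) * l) - 1 by field_simp; ring]
        refine (norm_sub_le _ _).trans_lt ?_
        rw [norm_neg, norm_mul, Complex.norm_real, Real.norm_of_nonneg l0'.le, norm_one]
        nlinarith
    · exact absurd rfl k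
  have z2 : ∀ z ∈ Z, 0 ≤ z.re ∧ z.re ≤ l / 4 := fun z hz =>
    ⟨(z1 z hz).1, by nlinarith [(z1 z hz).2, Complex.re_le_norm z]⟩
  have zc : (Z.card : ℝ) ≤ C * l := by rwa [hZd, Multiset.card_map]
  have ball : ∀ v : ℂ, ‖v - 1‖ < c * l / 16 → 1 + v / l ∈ Metric.ball (1 + 1 / l : ℂ) (R / 2) :=
    fun v hv => by
      rw [mem_ball_iff_norm, show 1 + v / l - (1 + 1 / l) = (v - 1) / l by ring, norm_div,
        Complex.norm_real, Real.norm_of_nonneg l0'.le, div_lt_iff₀ l0']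
      nlinarith
  have gC : ∀ v : ℂ, ‖v - 1‖ < c * l / 16 → ‖-G (1 + v / l) / l‖ ≤ C ∧
      (0 < v.re → psiRest a m l Z v = -G (1 + v / l) / l) := fun v hv =>
    ⟨by rw [norm_div, norm_neg, Complex.norm_real, Real.norm_of_nonneg l0'.le, div_le_iff₀ l0']
        exact (hG _ (ball v hv)).1,
      fun h => psi_key hL l0' h (hG _ (ball v hv)).2⟩
  have LB := fun v hv => psi_rest_le (a := a) (v := v) l1 m0 m1 C'0 (fun s hs => (hC' a s hL.bd hs).2) hv
  refine ⟨Z, fun z => ?_, z1, ?_, psi_sums hWT h3 h4 K0 K1 l1 κl c0 (by linarith) (by linarith)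
    (by linarith) z2 zc fun r r1 r2 => ?_⟩
  · have inj : Function.Injective fun ρ : ℂ => (1 - ρ) * l := fun x y e => by
      simpa [l'] using e
    have := Multiset.count_map_eq_count' _ Z0 inj (1 - z / l)
    rw [show (1 - (1 - z / l)) * l = z by field_simp; ring] at this
    rw [hZd, this, hZ, zo]
    split_ifs <;> simp
  · obtain ⟨f1, f2⟩ := psi_formula hEF (κ := l / cg) (σ := 1) (m := m) (by positivity) one_pos l0'
      (psi_tri_cont α K) (psi_tri_zero h3 h4 K0 K1) hL.bd Z fun z hz => (z1 z hz).1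
    have sub : ∀ s : ℂ, ‖s - 1‖ ≤ 4 * d * l → ‖s - 1‖ < c * l / 16 := fun s hs => by
      rw [hd] at hs; linarith
    have s1 := psi_shift hGS hEF hWT h3 h4 K0 K1 l1 g0 g1 d0 (by linarith) (by rw [hd]; linarith)
      (C := C) (M := 2 + C' + C) (by linarith) (by linarith) (g := fun v => -G (1 + v / l) / l) f1
      (fun y => by
        have a1 := LB ((1 : ℝ) + y * I) (by simp)
        have a2 := psi_norm_sum (f := fun z => 1 / (((1 : ℝ) : ℂ) + y * I + z)) (B := 1) Z
          fun z hz => by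
            rw [norm_div, norm_one]
            refine div_le_one_of_le₀ (le_trans ?_ (Complex.re_le_norm _)) (norm_nonneg _)
            simpa using (z1 z hz).1
        refine (norm_add_le _ _).trans ?_
        nlinarith)
      (by
        refine DifferentiableOn.div_const (DifferentiableOn.neg ?_) _
        exact dG.comp (by fun_prop) fun s hs => ball s (sub s hs))
      fun s hs => gC s (sub s hs)
    rw [← hβ] at s1
    have s2 := psi_lap hGS hWT h3 h4 K0 K1 l1 κl (z := 0) (by simp; linarith)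
    rw [psi_Hs_zero _ _ K0] at s2
    have s3 := psi_norm_sum (f := fun z => Hs (l / cg) α K z - Lap (hs (l / cg) α K) z) Z
      fun z hz => psi_lap hGS hWT h3 h4 K0 K1 l1 κl (z2 z hz).2
    rw [Multiset.sum_map_sub] at s3
    have e : Ks a (hs (l / cg) α K) l 0 - m + (Z.map (Hs (l / cg) α K)).sum =
        (Ks a (gs (l / cg) (tri α K)) l 0 - m * Lap (gs (l / cg) (tri α K)) 0
          + (Z.map (Lap (gs (l / cg) (tri α K)))).sum) - m * (1 - Lap (hs (l / cg) α K) 0)
          + ((Z.map fun z => Hs (l / cg) α K z).sum - (Z.map fun z => Lap (hs (l / cg) α K) z).sum) := by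
      simp only [hs]; ring
    rw [e, f2]
    refine (norm_add_le _ _).trans ((add_le_add (norm_sub_le _ _) s3).trans
      (le_trans ?_ (hl2 l ((le_max_right _ _).trans ((le_max_left _ _).trans hl)))))
    have n1 : (1 : ℝ) ≤ ‖(2 * π : ℂ)‖ := by
      rw [norm_mul, Complex.norm_real, Real.norm_of_nonneg Real.pi_pos.le, Complex.norm_two]
      linarith [Real.two_le_pi]
    have x1 : Real.exp (-(4 * l)) ≤ Real.exp (-(β * l)) := by gcongr
    have x2 : ‖(m : ℂ) * (1 - Lap (hs (l / cg) α K) 0)‖ ≤ 2 / K * Real.exp (-(β * l)) := by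
      rw [norm_mul, Complex.norm_real, Real.norm_of_nonneg m0]
      exact (mul_le_of_le_one_left (norm_nonneg _) m1).trans (s2.trans (by gcongr))
    have x3 : (Z.card : ℝ) * (2 / K * Real.exp (-(4 * l))) ≤
        C * l ^ 2 * (2 / K * Real.exp (-(β * l))) := by
      gcongr
      nlinarith
    have x4 : 2 / K * Real.exp (-(β * l)) ≤ l ^ 2 * (2 / K * Real.exp (-(β * l))) :=
      le_mul_of_one_le_left (by positivity) (by nlinarith)
    rw [norm_div]
    have x5 := (div_le_self (norm_nonneg _) n1).trans s1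
    linarith
  · have a1 := gC r (by
      rw [← ofReal_one, ← ofReal_sub, Complex.norm_real, Real.norm_of_nonneg (by linarith)]
      linarith)
    have a2 := LB r (by simpa using r1)
    have e : (Z.map fun z => (1 / (r + z : ℂ)).re).sum = (Z.map fun z => 1 / (r + z : ℂ)).sum.re := by
      rw [← Complex.coe_reAddGroupHom, map_multiset_sum, Multiset.map_map (⇑reAddGroupHom)]; rfl
    rw [e, show (Z.map fun z => 1 / (r + z : ℂ)).sum =
      psiRest a m l Z r - (LSeries a (1 + r / l) / l - m / r) by rw [psiRest]; ring,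
      a1.2 (by simpa using (by linarith : 0 < r))]
    refine (Complex.re_le_norm _).trans ((norm_sub_le _ _).trans ?_)
    linarith [a1.1]

end Pool.Agent.Lib.PS
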