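import Pool.Agent.Lib.PS.Blue

/-! Block PV: the Polya and Vinogradov inequality for all non principal characters. -/

namespace Pool.Agent.Lib.PS

open Finset Real Complex ZMod
open scoped Classical ComplexConjugate

section
variable {q : ℕ} [NeZero q]

lemma pv_norm_e (x : ZMod q) : ‖stdAddChar x‖ = 1 := by
  rw [stdAddChar_apply]; exact Circle.norm_coe _

lemma pv_conj_e (x : ZMod q) : conj (stdAddChar (-x)) = stdAddChar x := by
  rw [AddChar.map_neg_eq_inv, Complex.inv_eq_conj (pv_norm_e x), conj_conj]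

lemma pv_inv (Φ : ZMod q → ℂ) (k : ZMod q) :
    ∑ a, stdAddChar (a * k) * dft Φ a = q * Φ k := by
  have h := invDFT_apply (dft Φ) k
  rw [LinearEquiv.symm_apply_apply] at h
  have hq : (q : ℂ) ≠ 0 := Nat.cast_ne_zero.2 (NeZero.ne q)
  rw [h, smul_eq_mul, ← mul_assoc, mul_inv_cancel₀ hq, one_mul]
  rfl

lemma pv_parseval (Φ : ZMod q → ℂ) : ∑ a, ‖dft Φ a‖ ^ 2 = q * ∑ x, ‖Φ x‖ ^ 2 := by
  have h : ∑ a, dft Φ a * conj (dft Φ a) = q * ∑ x, Φ x * conj (Φ x) := by
    calc _ = ∑ a, ∑ j, conj (Φ j) * (stdAddChar (a * j) * dft Φ a) := by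
          refine sum_congr rfl fun a _ => ?_
          nth_rewrite 2 [dft_apply]
          rw [map_sum, mul_sum]
          refine sum_congr rfl fun j _ => ?_
          rw [smul_eq_mul, map_mul, pv_conj_e, mul_comm j a]; ring
      _ = _ := by
          rw [sum_comm, mul_sum]
          refine sum_congr rfl fun j _ => ?_
          rw [← mul_sum, pv_inv]; ring
  simp only [Complex.mul_conj, Complex.normSq_eq_norm_sq] at h
  exact_mod_cast h

lemma pv_fiber (a b : ZMod q) : (univ.filter fun x => a * x = b).card ≤ q.gcd a.val := by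
  have hk := IsAddCyclic.card_nsmulAddMonoidHom_ker (ZMod q) a.val
  rw [Nat.card_zmod] at hk
  rw [← hk]
  by_cases h : (univ.filter fun x => a * x = b).Nonempty
  · obtain ⟨x0, hx0⟩ := h
    have h0 : a * x0 = b := (mem_filter.1 hx0).2
    rw [← Nat.card_eq_finsetCard]
    refine Nat.card_le_card_of_injective (fun x => ⟨x.1 - x0, ?_⟩) ?_
    · have h1 : a * x.1 = b := (mem_filter.1 x.2).2
      rw [AddMonoidHom.mem_ker, nsmulAddMonoidHom_apply, nsmul_eq_mul, natCast_zmod_val, mul_sub,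
        h0, h1, sub_self]
    · intro x y hxy
      exact Subtype.ext (sub_left_injective (congrArg Subtype.val hxy))
  · rw [not_nonempty_iff_eq_empty.1 h]; simp

lemma pv_dft_le (Φ : ZMod q → ℂ) (h1 : Φ 1 = 1) (hm : ∀ x y, Φ (x * y) = Φ x * Φ y)
    (hb : ∀ x, ‖Φ x‖ ≤ 1) (h0 : ∀ x, ¬ IsUnit x → Φ x = 0) (a : ZMod q) :
    ‖dft Φ a‖ ^ 2 ≤ q.gcd a.val * q := by
  have key : ∀ x, ‖Φ x‖ ^ 2 * ‖dft Φ a‖ ^ 2 ≤ ‖dft Φ (a * x)‖ ^ 2 := by
    intro x
    by_cases hx : IsUnit x
    · obtain ⟨u, rfl⟩ := hx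
      have h2 := dft_comp_unitMul Φ u (a * u)
      simp only [hm] at h2
      rw [dft_const_mul, mul_comm a, ← mul_assoc, Units.inv_mul, one_mul] at h2
      rw [← h2, mul_comm (u : ZMod q) a, norm_mul, mul_pow, ← mul_assoc]
      refine mul_le_of_le_one_left (by positivity) ?_
      have := hb u
      have := norm_nonneg (Φ u)
      calc _ ≤ (1 : ℝ) ^ 2 * 1 ^ 2 := by gcongr
        _ = 1 := by norm_num
    · rw [h0 x hx]; simp
  have hS : 1 ≤ ∑ x, ‖Φ x‖ ^ 2 := by
    refine le_trans ?_ (single_le_sum (f := fun x => ‖Φ x‖ ^ 2) (fun _ _ => by positivity)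
      (mem_univ 1))
    simp [h1]
  have h2 : ∑ x, ‖dft Φ (a * x)‖ ^ 2 ≤ q.gcd a.val * ∑ b, ‖dft Φ b‖ ^ 2 := by
    rw [← sum_fiberwise (s := univ) (g := fun x => a * x), mul_sum]
    refine sum_le_sum fun b _ => ?_
    rw [sum_congr rfl (g := fun _ => ‖dft Φ b‖ ^ 2) fun x hx => by rw [(mem_filter.1 hx).2],
      sum_const, nsmul_eq_mul]
    gcongr
    exact_mod_cast pv_fiber a b
  have h3 := (sum_le_sum fun x (_ : x ∈ univ) => key x).trans h2
  rw [← sum_mul, pv_parseval] at h3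
  refine le_of_mul_le_mul_left ?_ (one_pos.trans_le hS)
  linarith

lemma pv_geom {a : ZMod q} (ha : a ≠ 0) (N H : ℕ) :
    ‖∑ k ∈ Ioc N (N + H), stdAddChar (a * (k : ZMod q))‖ ≤ q / 2 * (1 / a.val + 1 / (-a).val) := by
  set z := stdAddChar a with hz
  have hq : (0 : ℝ) < q := Nat.cast_pos.2 (NeZero.pos q)
  have hv : (0 : ℝ) < a.val := Nat.cast_pos.2 (ZMod.val_pos.2 ha)
  have hlt : (a.val : ℝ) < q := Nat.cast_lt.2 (ZMod.val_lt a)
  have hneg : ((-a).val : ℝ) = q - a.val := by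
    rw [ZMod.neg_val, if_neg ha, Nat.cast_sub (ZMod.val_lt a).le]
  have e1 : (z - 1) * ∑ k ∈ Ioc N (N + H), stdAddChar (a * (k : ZMod q)) =
      z ^ (N + H + 1) - z ^ (N + 1) := by
    induction H with
    | zero => simp
    | succ H ih =>
      rw [← add_assoc, sum_Ioc_succ_top (by omega), mul_add, ih, mul_comm a, ← nsmul_eq_mul,
        AddChar.map_nsmul_eq_pow]
      ring
  have e2 : ‖z - 1‖ * ‖∑ k ∈ Ioc N (N + H), stdAddChar (a * (k : ZMod q))‖ ≤ 2 := by
    rw [← norm_mul, e1]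
    refine (norm_sub_le _ _).trans ?_
    rw [norm_pow, norm_pow, pv_norm_e]; norm_num
  have e3 : ‖z - 1‖ = 2 * |Real.sin (π * a.val / q)| := by
    have : z = cexp (I * ((2 * π * a.val / q : ℝ) : ℂ)) := by
      rw [hz, stdAddChar_apply, toCircle_apply]; congr 1; push_cast; ring
    rw [this, Complex.norm_exp_I_mul_ofReal_sub_one, Real.norm_eq_abs, abs_mul, abs_two]
    congr 3; ring
  have sb : ∀ t : ℝ, 0 < t → 2 * t ≤ q → 2 * t / q ≤ Real.sin (π * t / q) := by
    intro t ht h2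
    have := Real.mul_le_sin (x := π * t / q) (by positivity) (by
      rw [div_le_iff₀ hq]; nlinarith [Real.pi_pos])
    refine le_trans (le_of_eq ?_) this
    field_simp
  set S := ‖∑ k ∈ Ioc N (N + H), stdAddChar (a * (k : ZMod q))‖
  have S0 : 0 ≤ S := norm_nonneg _
  have fin : ∀ t : ℝ, 0 < t → 2 * t / q ≤ |Real.sin (π * a.val / q)| → S ≤ q / 2 * (1 / t) := by
    intro t ht h
    rw [e3] at e2
    have : 2 * t / q * S ≤ 1 := by nlinarith
    rw [div_mul_eq_mul_div, div_le_one hq] at this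
    rw [mul_one_div, le_div_iff₀ ht]
    linarith
  have p1 : 0 ≤ (q : ℝ) / 2 * (1 / a.val) := by positivity
  have p2 : 0 ≤ (q : ℝ) / 2 * (1 / (-a).val) := by positivity
  rw [mul_add]
  by_cases h : 2 * (a.val : ℝ) ≤ q
  · linarith [fin _ hv ((sb _ hv h).trans (le_abs_self _))]
  · have h' := sb (q - a.val) (by linarith) (by linarith)
    have : π * (q - a.val) / q = π - π * a.val / q := by field_simp
    rw [this, Real.sin_pi_sub] at h'
    have := fin (q - a.val) (by linarith) (h'.trans (le_abs_self _))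
    rw [← hneg] at this
    linarith

omit [NeZero q] in
lemma pv_gcd_sum (hq : 0 < q) :
    ∑ a ∈ range q, (q.gcd a : ℝ) / a ≤ q.divisors.card * (1 + Real.log q) := by
  calc _ ≤ ∑ a ∈ range q, ∑ g ∈ q.divisors, if g ∣ a then (g : ℝ) / a else 0 := by
        refine sum_le_sum fun a _ => le_trans ?_ (single_le_sum
          (f := fun g => if g ∣ a then (g : ℝ) / a else 0) (fun g _ => by positivity)
          (Nat.mem_divisors.2 ⟨Nat.gcd_dvd_left q a, hq.ne'⟩))
        simp only [Nat.gcd_dvd_right, if_true, le_refl]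
    _ ≤ ∑ g ∈ q.divisors, (1 + Real.log q) := by
        rw [sum_comm]
        refine sum_le_sum fun g hg => ?_
        have g0 : 0 < g := Nat.pos_of_mem_divisors hg
        refine le_trans ?_ (harmonic_le_one_add_log q)
        rw [← sum_filter, harmonic_eq_sum_Icc]
        push_cast
        calc _ ≤ ∑ a ∈ (range (q + 1)).image (fun j => g * j), (g : ℝ) / a := by
              refine sum_le_sum_of_subset_of_nonneg ?_ fun _ _ _ => by positivity
              intro a ha
              obtain ⟨h1, j, rfl⟩ := mem_filter.1 ha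
              refine mem_image.2 ⟨j, mem_range.2 ?_, rfl⟩
              have := mem_range.1 h1
              nlinarith
          _ = ∑ j ∈ range (q + 1), (j : ℝ)⁻¹ := by
              rw [sum_image fun x _ y _ h => Nat.eq_of_mul_eq_mul_left g0 h]
              refine sum_congr rfl fun j _ => ?_
              have : (g : ℝ) ≠ 0 := Nat.cast_ne_zero.2 g0.ne'
              push_cast
              rw [div_mul_cancel_left₀ this]
          _ = _ := by
              rw [range_eq_Ico, sum_eq_sum_Ico_succ_bot (by omega), Nat.cast_zero]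
              simp only [_root_.inv_zero, zero_add]
              rfl
    _ = _ := by rw [sum_const, nsmul_eq_mul]

lemma pv_main (Φ : ZMod q → ℂ) (h1 : Φ 1 = 1) (hm : ∀ x y, Φ (x * y) = Φ x * Φ y)
    (hb : ∀ x, ‖Φ x‖ ≤ 1) (h0 : ∀ x, ¬ IsUnit x → Φ x = 0) (hs : ∑ x, Φ x = 0) (N H : ℕ) :
    ‖∑ k ∈ Ioc N (N + H), Φ k‖ ≤ q.divisors.card * √(q : ℝ) * (1 + Real.log q) := by
  have hq : (0 : ℝ) < q := Nat.cast_pos.2 (NeZero.pos q)
  have e : (q : ℂ) * ∑ k ∈ Ioc N (N + H), Φ k =
      ∑ a, dft Φ a * ∑ k ∈ Ioc N (N + H), stdAddChar (a * (k : ZMod q)) := by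
    simp only [mul_sum, ← pv_inv]
    rw [sum_comm]
    exact sum_congr rfl fun a _ => sum_congr rfl fun k _ => mul_comm _ _
  let w : ZMod q → ℝ := fun a => (q.gcd a.val : ℝ) / a.val
  have hw : ∑ a, w a ≤ q.divisors.card * (1 + Real.log q) := by
    refine le_trans (le_of_eq ?_) (pv_gcd_sum (NeZero.pos q))
    refine sum_bij (fun a _ => a.val) (fun a _ => mem_range.2 (ZMod.val_lt a))
      (fun a _ b _ h => ZMod.val_injective q h)
      (fun j hj => ⟨j, mem_univ _, ZMod.val_cast_of_lt (mem_range.1 hj)⟩) fun _ _ => rfl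
  have hw' : ∑ a, w (-a) = ∑ a, w a := Equiv.sum_comp (Equiv.neg _) w
  have hterm : ∀ a, ‖dft Φ a * ∑ k ∈ Ioc N (N + H), stdAddChar (a * (k : ZMod q))‖ ≤
      √(q : ℝ) * (q / 2) * (w a + w (-a)) := by
    intro a
    by_cases ha : a = 0
    · rw [ha, dft_apply_zero, hs, zero_mul, norm_zero]; positivity
    have hg : q.gcd (-a).val = q.gcd a.val := by
      rw [ZMod.neg_val, if_neg ha, Nat.gcd_self_sub_right (ZMod.val_lt a).le]
    have g1 : (1 : ℝ) ≤ q.gcd a.val := by
      exact_mod_cast Nat.gcd_pos_of_pos_left _ (NeZero.pos q)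
    have hF : ‖dft Φ a‖ ≤ q.gcd a.val * √(q : ℝ) := by
      refine le_of_sq_le_sq ?_ (by positivity)
      refine (pv_dft_le Φ h1 hm hb h0 a).trans ?_
      rw [mul_pow, Real.sq_sqrt hq.le]
      gcongr
      nlinarith
    rw [norm_mul]
    refine (mul_le_mul hF (pv_geom ha N H) (norm_nonneg _) (by positivity)).trans (le_of_eq ?_)
    simp only [w, hg]
    ring
  have h2 : q * ‖∑ k ∈ Ioc N (N + H), Φ k‖ ≤ √(q : ℝ) * (q / 2) * (2 * ∑ a, w a) := by
    have := congrArg norm e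
    rw [norm_mul, Complex.norm_natCast] at this
    rw [this]
    refine (norm_sum_le _ _).trans ((sum_le_sum fun a _ => hterm a).trans (le_of_eq ?_))
    rw [← mul_sum, sum_add_distrib, hw']; ring
  refine le_of_mul_le_mul_left (h2.trans ?_) hq
  calc _ = √(q : ℝ) * q * ∑ a, w a := by ring
    _ ≤ √(q : ℝ) * q * (q.divisors.card * (1 + Real.log q)) := by gcongr
    _ = _ := by ring

end

theorem pv_sharp (q : ℕ) (ψ : ℕ → ℂ) (h : IsChar q ψ) (hn : NonPr q ψ) (N H : ℕ) :
    ‖∑ k ∈ Ioc N (N + H), ψ k‖ ≤ (q.divisors.card : ℝ) * √(q : ℝ) * (1 + Real.log q) := by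
  obtain ⟨hq, ⟨c1, cm, cb⟩, hp, hz⟩ := h
  obtain ⟨x, hx, hx1⟩ := hn
  have : NeZero q := ⟨hq.ne'⟩
  have hc : ∀ k : ℕ, ψ (k : ZMod q).val = ψ k := fun k => by
    rw [ZMod.val_natCast]
    exact Function.Periodic.map_mod_nat hp k
  have hm : ∀ a b : ZMod q, ψ (a * b).val = ψ a.val * ψ b.val := fun a b => by
    rw [← cm, ← hc (a.val * b.val), Nat.cast_mul, natCast_zmod_val, natCast_zmod_val]
  have := pv_main (fun a : ZMod q => ψ a.val) (by simpa [c1] using hc 1) hm (fun a => cb _)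
    (fun a ha => hz _ fun h => ha (by
      rw [← natCast_zmod_val a]; exact (ZMod.isUnit_iff_coprime _ _).2 h)) ?_ N H
  · simpa only [hc] using this
  · have h1 := Equiv.sum_comp (ZMod.unitOfCoprime x hx).mulLeft fun a : ZMod q => ψ a.val
    simp only [Units.mulLeft_apply, ZMod.coe_unitOfCoprime, hm, hc] at h1
    rw [← mul_sum] at h1
    have h2 : (ψ x - 1) * ∑ a : ZMod q, ψ a.val = 0 := by rw [sub_mul, h1, one_mul, sub_self]
    exact (mul_eq_zero.1 h2).resolve_left (sub_ne_zero.2 hx1)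

theorem blk_PV (_hPB : St_PB) : St_PV := by
  intro q ψ h hn N H
  refine (pv_sharp q ψ h hn N H).trans ?_
  have : 0 ≤ (q.divisors.card : ℝ) * √(q : ℝ) * (1 + Real.log q) := by
    have := Real.log_natCast_nonneg q
    positivity
  linarith

end Pool.Agent.Lib.PS
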