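import Pool.Agent.Lib.PS.Blue
import Pool.Agent.Lib.MP_6073f3_nt.Z.Siegel

/-! Siegel's bound for real zeros. -/

namespace Pool.Agent.Lib.PS

open Finset Complex DirichletCharacter Filter Topology Pool.Agent.Lib.RankZero
open scoped Classical

theorem sieg_LL_eq (χ : ℕ → ℂ) (s : ℂ) : LL χ s =
    ∑' n, (∑ m ∈ range (n + 1), χ (m + 1)) * (gU n s - gU (n + 1) s) := by
  refine tsum_congr fun n => ?_
  have h1 : psum χ (n + 1) = ∑ m ∈ range (n + 1), χ (m + 1) := by
    rw [psum, ← Finset.Ico_add_one_right_eq_Icc, Finset.sum_Ico_eq_sum_range]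
    simp [add_comm]
  rw [h1, gU, gU]
  push_cast
  ring_nf

theorem sieg_LL {r : ℕ} [NeZero r] {ψ : DirichletCharacter ℂ r} (h1 : ψ ≠ 1) {s : ℂ}
    (hs : 0 < s.re) : LL (fun n : ℕ => ψ (n : ZMod r)) s = LFunction ψ s := by
  have hr : (1 : ℝ) ≤ r := by exact_mod_cast NeZero.one_le
  set f : ℕ → ℂ := fun m => ψ ((m + 1 : ℕ) : ZMod r) with hfdef
  have hf : ∀ n, ‖f n‖ ≤ 2 := fun n => (ψ.norm_le_one _).trans one_le_two
  have hA : ∀ N, ‖∑ m ∈ range N, f m‖ ≤ 2 * r :=
    g_period (ψ.sum_eq_zero_of_ne_one h1) fun a => (ψ.norm_le_one _).trans one_le_two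
  have hT : ∀ (n : ℕ) (s : ℂ), 0 < s.re →
      ‖(∑ m ∈ range (n + 1), f m) * (gU n s - gU (n + 1) s)‖ ≤
      2 * r * (‖s‖ + 1) * ((n : ℝ) + 1) ^ (-s.re - 1) := fun n s hs => by
    rw [norm_mul, mul_assoc (2 * (r : ℝ))]
    refine mul_le_mul (hA _) ((g_U_sub hs n).trans ?_) (norm_nonneg _) (by linarith)
    gcongr
    linarith
  have hd : DifferentiableOn ℂ
      (fun s => ∑' n, (∑ m ∈ range (n + 1), f m) * (gU n s - gU (n + 1) s)) {s | 0 < s.re} := by
    refine g_diff (M := 2 * r) (by linarith)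
      (fun n => ((g_diff_U n).sub (g_diff_U _)).const_mul _) fun n s hs => (hT n s hs).trans ?_
    gcongr
    nlinarith [norm_nonneg s]
  rw [sieg_LL_eq]
  refine g_ident hd (differentiable_LFunction h1) (fun s hs => ?_) hs
  have hs0 : 0 < s.re := by linarith
  have h1' : Summable fun n => (∑ m ∈ range (n + 1), f m) * (gU n s - gU (n + 1) s) :=
    .of_norm_bounded ((g_summable hs0).mul_left _) fun n => hT n s hs0
  have h2 : Summable fun n => f n * gU n s :=
    .of_norm_bounded ((g_U_summable hs).mul_left 2) fun n => by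
      rw [norm_mul]; exact mul_le_mul_of_nonneg_right (hf n) (norm_nonneg _)
  have h3 : Tendsto (fun N => (∑ m ∈ range N, f m) * gU N s) atTop (𝓝 0) :=
    squeeze_zero_norm (a := fun N => 2 * r * ‖gU N s‖) (fun N => by
      rw [norm_mul]; exact mul_le_mul_of_nonneg_right (hA N) (norm_nonneg _))
      (by simpa using (g_U_tendsto hs0).const_mul (2 * (r : ℝ)))
  rw [LFunction_eq_LSeries ψ hs, g_LSeries (LSeriesSummable_of_one_lt_re ψ hs)]
  refine tendsto_nhds_unique h1'.hasSum.tendsto_sum_nat ?_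
  simpa only [g_abel, sub_zero] using h2.hasSum.tendsto_sum_nat.sub h3

theorem sieg_sq {r : ℕ} [NeZero r] {ψ : DirichletCharacter ℂ r}
    (h : ∀ n : ℕ, (ψ (n : ZMod r)).im = 0) : ψ ^ 2 = 1 := by
  rw [← MulChar.isQuadratic_iff_sq_eq_one]
  intro a
  by_cases ha : IsUnit a
  · have h1 : ‖ψ a‖ = 1 := by
      obtain ⟨u, rfl⟩ := ha
      exact ψ.unit_norm_eq_one u
    have h2 : (ψ a).im = 0 := by simpa using h a.val
    have h3 : ψ a = ((ψ a).re : ℂ) := by
      apply Complex.ext <;> simp [h2]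
    rw [h3, norm_real, Real.norm_eq_abs] at h1
    rcases (abs_eq zero_le_one).1 h1 with h4 | h4
    · right; left; rw [h3, h4]; simp
    · right; right; rw [h3, h4]; simp
  · exact Or.inl (ψ.map_nonunit ha)

theorem sieg_lip {e : ℝ} (h0 : 0 < e) (h1 : e ≤ 1 / 2) : ∃ C : ℝ, 0 < C ∧
    ∀ (r : ℕ) [NeZero r] (ψ : DirichletCharacter ℂ r), ψ ≠ 1 → ∀ β : ℝ, 1 - e / 2 ≤ β → β ≤ 1 →
      ‖LFunction ψ 1 - LFunction ψ β‖ ≤ C * (r : ℝ) ^ e * (1 - β) := by
  obtain ⟨C, hC, hb⟩ := L_bound h0 h1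
  refine ⟨3 * C / (e / 2), by positivity, fun r _ ψ hψ β hβ hβ1 => ?_⟩
  have hd := differentiable_LFunction hψ
  have hr : (0 : ℝ) ≤ r := by positivity
  have key : ∀ s ∈ Metric.closedBall (1 : ℂ) (e / 2),
      ‖deriv (LFunction ψ) s‖ ≤ 3 * C * (r : ℝ) ^ e / (e / 2) := by
    intro s hs
    refine Complex.norm_deriv_le_of_forall_mem_sphere_norm_le (by positivity)
      hd.diffContOnCl fun z hz => ?_
    rw [Metric.mem_closedBall, dist_eq_norm] at hs
    rw [Metric.mem_sphere, dist_eq_norm] at hz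
    have h2 : ‖z - 1‖ ≤ e := by
      have := norm_add_le (z - s) (s - 1)
      rw [sub_add_sub_cancel] at this
      linarith
    have h3 : 1 - e ≤ z.re := by
      have := (abs_le.1 ((abs_re_le_norm (z - 1)).trans h2)).1
      simp at this
      linarith
    have h4 : ‖z‖ + 1 ≤ 3 := by
      have := norm_add_le (z - 1) 1
      rw [sub_add_cancel, norm_one] at this
      linarith
    refine (hb r ψ hψ z h3).trans ?_
    have h5 : ((r : ℝ) * (‖z‖ + 1)) ^ e ≤ (r : ℝ) ^ e * 3 := by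
      rw [Real.mul_rpow hr (by positivity)]
      refine mul_le_mul_of_nonneg_left ?_ (by positivity)
      calc (‖z‖ + 1) ^ e ≤ (3 : ℝ) ^ e := Real.rpow_le_rpow (by positivity) h4 h0.le
        _ ≤ 3 ^ (1 : ℝ) := Real.rpow_le_rpow_of_exponent_le (by norm_num) (by linarith)
        _ = 3 := Real.rpow_one 3
    nlinarith
  have hn : ‖(1 : ℂ) - β‖ = 1 - β := by
    rw [← ofReal_one, ← ofReal_sub, norm_real, Real.norm_eq_abs, abs_of_nonneg (by linarith)]
  have := (convex_closedBall (1 : ℂ) (e / 2)).norm_image_sub_le_of_norm_deriv_le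
    (fun s _ => hd s) key (x := (β : ℂ)) (y := 1)
    (by rw [Metric.mem_closedBall, dist_comm, dist_eq_norm, hn]; linarith)
    (Metric.mem_closedBall_self (by positivity))
  rw [hn] at this
  refine this.trans (le_of_eq ?_)
  ring

theorem blk_SIEG (hPB : St_PB) : St_SIEG := by
  intro ε hε
  set e := min (ε / 2) (1 / 2) with he
  have h0 : 0 < e := by positivity
  have h1 : e ≤ 1 / 2 := min_le_right _ _
  have h2 : e ≤ ε / 2 := min_le_left _ _
  obtain ⟨C, hC, hlip⟩ := sieg_lip h0 h1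
  obtain ⟨c, hc, hsg⟩ := siegel h0
  refine ⟨min (e / 2) (c / C), by positivity, fun q χ β hχ hre hnp hβ hz => ?_⟩
  have hq : 0 < q := hχ.1
  have : NeZero q := ⟨hq.ne'⟩
  have hq1 : (1 : ℝ) ≤ q := by exact_mod_cast hq
  obtain ⟨ψ, -, rfl⟩ := Finset.mem_image.1 ((hPB.1 q χ hq).2 hχ)
  have hψ : ψ ≠ 1 := by
    rintro rfl
    obtain ⟨x, hx, hx1⟩ := hnp
    exact hx1 (MulChar.one_apply ((ZMod.isUnit_iff_coprime x q).2 hx))
  rw [sieg_LL hψ (by simp; linarith)] at hz
  have hβ1 : β < 1 := by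
    by_contra h
    exact LFunction_ne_zero_of_one_le_re ψ (Or.inl hψ) (by simpa using h) hz
  have hle : (q : ℝ) ^ (-ε) ≤ 1 := Real.rpow_le_one_of_one_le_of_nonpos hq1 (by linarith)
  have hpos : 0 < (q : ℝ) ^ (-ε) := by positivity
  by_cases hb : 1 - e / 2 ≤ β
  · have h3 := hlip q ψ hψ β hb hβ1.le
    rw [hz, sub_zero] at h3
    have h4 := (hsg q ψ (sieg_sq hre) hψ).trans h3
    have h5 : (q : ℝ) ^ (-ε) * (q : ℝ) ^ e ≤ (q : ℝ) ^ (-e) := by
      rw [← Real.rpow_add (by positivity)]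
      exact Real.rpow_le_rpow_of_exponent_le hq1 (by linarith)
    have h6 : 0 < (q : ℝ) ^ e := by positivity
    refine (mul_le_mul_of_nonneg_right (min_le_right _ _) hpos.le).trans ?_
    rw [div_mul_eq_mul_div, div_le_iff₀ hC]
    refine le_of_mul_le_mul_right ?_ h6
    nlinarith
  · refine (mul_le_mul_of_nonneg_right (min_le_left _ _) hpos.le).trans ?_
    nlinarith

end Pool.Agent.Lib.PS
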