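import Pool.Agent.Lib.PS.SING1a
import Pool.Agent.Lib.MP_fb430f_co.Circle

/-! Block SING1: the truncated singular series. -/

namespace Pool.Agent.Lib.PS

open Finset Real
open scoped NumberTheorySymbols ArithmeticFunction.Moebius ArithmeticFunction.zeta Classical

lemma s1_tau {c : ℝ} (hc : 0 < c) : ∃ X0 : ℕ, ∀ X : ℕ, X0 ≤ X → ∀ d : ℕ, 0 < d → d ≤ X →
    (d.divisors.card : ℝ) ^ 2 ≤ (X : ℝ) ^ c := by
  obtain ⟨C, hC, h⟩ := Pool.Agent.Lib.MP_fb430f_co.div_bound (ε := c / 4) (by positivity)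
  obtain ⟨X0, hX0⟩ := s1_ev (c := c / 4) (by positivity) C
  refine ⟨X0, fun X hX d d0 hd => ?_⟩
  obtain ⟨X2, a⟩ := hX0 X hX
  have X1 : (1 : ℝ) ≤ X := by exact_mod_cast (by omega : 1 ≤ X)
  have lg := Real.log_nonneg X1
  have h1 : (d.divisors.card : ℝ) ≤ C * (d : ℝ) ^ (c / 4) := by
    refine le_trans ?_ (h d d0.ne')
    rw [Nat.card_divisors d0.ne']
    exact_mod_cast prod_le_prod' fun p _ => by omega
  have h2 : (d : ℝ) ^ (c / 4) ≤ (X : ℝ) ^ (c / 4) := by gcongr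
  have h3 : C ≤ (X : ℝ) ^ (c / 4) := by nlinarith
  calc _ ≤ ((X : ℝ) ^ (c / 4) * (X : ℝ) ^ (c / 4)) ^ 2 := by
        gcongr
        exact h1.trans (by gcongr)
    _ = _ := by
        rw [← Real.rpow_add (by linarith), ← Real.rpow_natCast, ← Real.rpow_mul (by linarith)]
        congr 1; push_cast; ring

noncomputable def s1h (d : ℕ) : ℝ := (μ d : ℝ) / d.totient

lemma s1h_le {d : ℕ} (hd : 0 < d) : |s1h d| ≤ d.divisors.card / d := by
  have h1 : d ≤ d.divisors.card * d.totient := by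
    calc d = ∑ e ∈ d.divisors, e.totient := (Nat.sum_totient d).symm
      _ ≤ _ := sum_le_card_nsmul _ _ _ fun e he => Nat.le_of_dvd (Nat.totient_pos.2 hd)
          (Nat.totient_dvd_of_dvd (Nat.dvd_of_mem_divisors he))
  have h2 : (0 : ℝ) < d.totient := Nat.cast_pos.2 (Nat.totient_pos.2 hd)
  have h3 : |(μ d : ℝ)| ≤ 1 := by exact_mod_cast ArithmeticFunction.abs_moebius_le_one
  rw [s1h, abs_div, abs_of_pos h2, div_le_div_iff₀ h2 (Nat.cast_pos.2 hd)]
  have h4 : (d : ℝ) ≤ d.divisors.card * d.totient := by exact_mod_cast h1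
  have : (0 : ℝ) ≤ d := Nat.cast_nonneg d
  nlinarith

lemma s1_S0 (n y : ℕ) : S0 n y = s1T s1h n 0 y := by
  rw [S0, s1T, sum_filter]
  refine sum_congr rfl fun d _ => ?_
  rw [fn, s1h]
  split_ifs
  · ring
  · rfl

/-- the pairs of odd numbers up to `y` with product `m` -/
noncomputable def s1P (y m : ℕ) : Finset (ℕ × ℕ) :=
  (((Ioc 0 y).filter Odd) ×ˢ ((Ioc 0 y).filter Odd)).filter fun x => x.1 * x.2 = m

noncomputable def s1g (y m : ℕ) : ℝ := ∑ x ∈ s1P y m, s1h x.1 * (x.2 : ℝ)⁻¹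

lemma s1_prod (n y : ℕ) :
    s1T s1h n 0 y * s1T (fun e => (e : ℝ)⁻¹) n 0 y = s1T (s1g y) n 0 (y * y) := by
  rw [s1T, s1T, s1T, sum_mul_sum, ← sum_product',
    ← sum_fiberwise_of_maps_to (g := fun x : ℕ × ℕ => x.1 * x.2)
      (t := (Ioc 0 (y * y)).filter Odd)]
  · refine sum_congr rfl fun m _ => ?_
    rw [s1g, sum_mul]
    refine sum_congr rfl fun x hx => ?_
    simp only [s1P, mem_filter, mem_product, mem_Ioc] at hx
    rw [← hx.2, jacobiSym.mul_right' _ hx.1.1.1.1.ne' hx.1.2.1.1.ne']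
    push_cast; ring
  · intro x hx
    simp only [mem_filter, mem_product, mem_Ioc] at hx ⊢
    exact ⟨⟨Nat.mul_pos hx.1.1.1 hx.2.1.1, Nat.mul_le_mul hx.1.1.2 hx.2.1.2⟩, hx.1.2.mul hx.2.2⟩

lemma s1g_le (y : ℕ) {m : ℕ} (hm : 0 < m) : |s1g y m| ≤ (m.divisors.card : ℝ) ^ 2 / m := by
  have hc : (s1P y m).card ≤ m.divisors.card := by
    refine card_le_card_of_injOn (fun x => x.1) (fun x hx => ?_) fun x hx x' hx' h => ?_
    · exact mem_coe.2 (Nat.mem_divisors.2 ⟨Dvd.intro _ (mem_filter.1 hx).2, hm.ne'⟩)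
    · have h1 := (mem_filter.1 hx).2
      have h2 := (mem_filter.1 hx').2
      have h3 : x.1 = x'.1 := h
      have h4 : 0 < x.1 := Nat.pos_of_mul_pos_right (h1 ▸ hm)
      exact Prod.ext h3 (Nat.eq_of_mul_eq_mul_left h4 (by rw [h1, h3, h2]))
  refine (abs_sum_le_sum_abs _ _).trans ?_
  calc _ ≤ ∑ x ∈ s1P y m, (m.divisors.card : ℝ) / m := by
        refine sum_le_sum fun x hx => ?_
        simp only [s1P, mem_filter, mem_product, mem_Ioc] at hx
        have h1 : x.1.divisors.card ≤ m.divisors.card :=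
          card_le_card (Nat.divisors_subset_of_dvd hm.ne' (Dvd.intro _ hx.2))
        rw [abs_mul, abs_inv, Nat.abs_cast]
        calc _ ≤ (m.divisors.card : ℝ) / x.1 * (x.2 : ℝ)⁻¹ := by
              gcongr
              exact (s1h_le hx.1.1.1.1).trans (by gcongr)
          _ = _ := by rw [← hx.2]; push_cast; field_simp
    _ ≤ m.divisors.card * ((m.divisors.card : ℝ) / m) := by
        rw [sum_const, nsmul_eq_mul]; gcongr
    _ = _ := by ring

noncomputable def s1F : ArithmeticFunction ℝ := ⟨fun d => s1h d * d, by simp⟩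

lemma s1F_mult : s1F.IsMultiplicative := by
  refine ⟨by simp [s1F, s1h], fun {m n} h => ?_⟩
  change s1h (m * n) * (m * n : ℕ) = s1h m * m * (s1h n * n)
  rw [s1h, s1h, s1h, ArithmeticFunction.isMultiplicative_moebius.map_mul_of_coprime h,
    Nat.totient_mul h]
  push_cast
  ring

noncomputable def s1H : ArithmeticFunction ℝ := s1F * (ζ : ArithmeticFunction ℝ)

lemma s1H_mult : s1H.IsMultiplicative :=
  s1F_mult.mul ArithmeticFunction.isMultiplicative_zeta.natCast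

lemma s1H_apply (m : ℕ) : s1H m = ∑ d ∈ m.divisors, s1h d * d :=
  ArithmeticFunction.coe_mul_zeta_apply

lemma s1H_pow {p : ℕ} (hp : p.Prime) (j : ℕ) : s1H (p ^ (j + 1)) = -(1 / ((p : ℝ) - 1)) := by
  rw [s1H_apply, Nat.sum_divisors_prime_pow hp, sum_range_succ', sum_range_succ',
    sum_eq_zero fun i _ => by
      rw [s1h, ArithmeticFunction.moebius_apply_prime_pow hp (by omega), if_neg (by omega)]
      simp]
  have h2 : (2 : ℝ) ≤ p := by exact_mod_cast hp.two_le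
  have h3 : (p : ℝ) - 1 ≠ 0 := by linarith
  simp only [s1h, zero_add, pow_one, pow_zero, ArithmeticFunction.moebius_apply_prime hp,
    Nat.totient_prime hp, Nat.cast_sub hp.one_le]
  simp
  field_simp
  ring

lemma s1g_eq {y m : ℕ} (hm : Odd m) (hy : m ≤ y) : s1g y m = s1H m / m := by
  have m0 : 0 < m := hm.pos
  rw [s1H_apply, sum_div, s1g]
  refine sum_bij (fun x _ => x.1) (fun x hx => ?_) (fun x hx x' hx' h => ?_) (fun d hd => ?_)
    fun x hx => ?_
  · exact Nat.mem_divisors.2 ⟨Dvd.intro _ (mem_filter.1 hx).2, m0.ne'⟩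
  · have h1 := (mem_filter.1 hx).2
    have h2 := (mem_filter.1 hx').2
    have h4 : 0 < x.1 := Nat.pos_of_mul_pos_right (h1 ▸ m0)
    exact Prod.ext h (Nat.eq_of_mul_eq_mul_left h4 (by rw [h1, h, h2]))
  · obtain ⟨e, rfl⟩ := Nat.dvd_of_mem_divisors hd
    obtain ⟨o1, o2⟩ := Nat.odd_mul.1 hm
    refine ⟨(d, e), ?_, rfl⟩
    simp only [s1P, mem_filter, mem_product, mem_Ioc]
    exact ⟨⟨⟨⟨o1.pos, (Nat.le_mul_of_pos_right _ o2.pos).trans hy⟩, o1⟩,
      ⟨o2.pos, (Nat.le_mul_of_pos_left _ o1.pos).trans hy⟩, o2⟩, trivial⟩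
  · simp only [s1P, mem_filter, mem_product, mem_Ioc] at hx
    have h1 : (x.1 : ℝ) ≠ 0 := Nat.cast_ne_zero.2 hx.1.1.1.1.ne'
    rw [← hx.2]; push_cast; field_simp

noncomputable def s1w (m : ℕ) : ℝ := if Odd m then |s1H m| / m else 0

lemma s1w_nonneg (m : ℕ) : 0 ≤ s1w m := by
  rw [s1w]; split_ifs <;> positivity

lemma s1w_one : s1w 1 = 1 := by simp [s1w, s1H_mult.1]

lemma s1w_hasSum {p : ℕ} (hp : p.Prime) :
    HasSum (fun j => s1w (p ^ j)) (if p = 2 then 1 else 1 + 1 / ((p : ℝ) - 1) ^ 2) := by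
  rw [← hasSum_nat_add_iff' 1, sum_range_one, pow_zero, s1w_one]
  split_ifs with h
  · subst h
    have : ∀ j, s1w (2 ^ (j + 1)) = 0 := fun j => if_neg (by
      rw [Nat.not_odd_iff_even]; exact (Nat.even_pow' (by omega)).2 even_two)
    simp only [this, sub_self]
    exact hasSum_zero
  · have h2 : (2 : ℝ) ≤ p := by exact_mod_cast hp.two_le
    have h3 : (0 : ℝ) < (p : ℝ) - 1 := by linarith
    have h4 := (hasSum_geometric_of_lt_one (r := (p : ℝ)⁻¹) (by positivity)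
      (inv_lt_one_of_one_lt₀ (by linarith))).mul_left (1 / (((p : ℝ) - 1) * p))
    have e1 : (fun j => s1w (p ^ (j + 1))) = fun j => 1 / (((p : ℝ) - 1) * p) * (p : ℝ)⁻¹ ^ j := by
      funext j
      rw [s1w, if_pos (hp.odd_of_ne_two h).pow, s1H_pow hp, abs_neg, abs_of_pos (by positivity)]
      push_cast
      rw [inv_pow, pow_succ]
      field_simp
    have e2 : 1 + 1 / ((p : ℝ) - 1) ^ 2 - 1 = 1 / (((p : ℝ) - 1) * p) * (1 - (p : ℝ)⁻¹)⁻¹ := by
      field_simp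
      ring
    rw [e1, e2]
    exact h4

lemma s1w_prod (N : ℕ) : ∏ p ∈ (N + 4).primesBelow,
    (if p = 2 then (1 : ℝ) else 1 + 1 / ((p : ℝ) - 1) ^ 2) ≤
      15 / 8 * (((N : ℝ) + 2) / (N + 3)) := by
  induction N with
  | zero =>
    have : (0 + 4).primesBelow = {2, 3} := by decide
    rw [this, prod_pair (by norm_num)]
    norm_num
  | succ N ih =>
    have N0 : (0 : ℝ) ≤ N := Nat.cast_nonneg N
    have key : (1 + 1 / ((N : ℝ) + 3) ^ 2) * (15 / 8 * ((N + 2) / (N + 3))) ≤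
        15 / 8 * ((N + 1 + 2) / (N + 1 + 3)) := by
      field_simp
      nlinarith
    have k2 : 0 ≤ 1 / ((N : ℝ) + 3) ^ 2 * (15 / 8 * ((N + 2) / (N + 3))) := by positivity
    rw [show N + 1 + 4 = N + 4 + 1 by ring, Nat.primesBelow_succ]
    push_cast
    split_ifs with h
    · rw [prod_insert (Nat.notMem_primesBelow _), if_neg (by omega)]
      refine le_trans ?_ key
      have e : ((N + 4 : ℕ) : ℝ) - 1 = N + 3 := by push_cast; ring
      rw [e]
      gcongr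
    · linarith

lemma s1w_sum (y : ℕ) : ∑ m ∈ Ioc 0 y, s1w m ≤ 15 / 8 := by
  have h := (EulerProduct.summable_and_hasSum_smoothNumbers_prod_primesBelow_tsum (f := s1w)
    s1w_one (fun {m n} h => by
      simp only [s1w, Nat.odd_mul, s1H_mult.map_mul_of_coprime h, abs_mul]
      by_cases h1 : Odd m <;> by_cases h2 : Odd n <;> simp [h1, h2]
      ring) (fun {p} hp => by
      simp only [Real.norm_of_nonneg (s1w_nonneg _)]
      exact (s1w_hasSum hp).summable) (y + 4)).2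
  rw [prod_congr rfl fun p hp => (s1w_hasSum (Nat.prime_of_mem_primesBelow hp)).tsum_eq] at h
  have h1 := sum_le_hasSum ((Ioc 0 y).subtype (· ∈ (y + 4).smoothNumbers))
    (fun m _ => s1w_nonneg _) h
  rw [sum_subtype_of_mem s1w fun m hm => Nat.mem_smoothNumbers_of_lt (mem_Ioc.1 hm).1
    (by have := (mem_Ioc.1 hm).2; omega)] at h1
  refine h1.trans ((s1w_prod y).trans ?_)
  have y0 : (0 : ℝ) ≤ y := Nat.cast_nonneg y
  have : ((y : ℝ) + 2) / (y + 3) ≤ 1 := by rw [div_le_one (by linarith)]; linarith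
  linarith

lemma s1_main (n : ℕ) {y : ℕ} (hy : 1 ≤ y) : 1 / 8 ≤ s1T (s1g y) n 0 y := by
  rw [s1_add _ n zero_le_one hy]
  have h1 : s1T (s1g y) n 0 1 = 1 := by
    have : (Ioc 0 1).filter Odd = {1} := by decide
    rw [s1T, this, sum_singleton, s1g_eq odd_one hy, s1H_mult.1]
    simp
  have h2 : |s1T (s1g y) n 1 y| ≤ ∑ m ∈ Ioc 1 y, s1w m := by
    rw [s1T, sum_filter]
    refine (abs_sum_le_sum_abs _ _).trans (sum_le_sum fun m hm => ?_)
    rw [s1w]
    split_ifs with h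
    · rw [abs_mul, s1g_eq h (mem_Ioc.1 hm).2, abs_div, Nat.abs_cast]
      exact mul_le_of_le_one_right (by positivity) (s1_J n m)
    · simp
  have h3 := s1w_sum y
  rw [← sum_Ioc_consecutive _ zero_le_one hy] at h3
  have h4 : ∑ m ∈ Ioc 0 1, s1w m = 1 := by simp [s1w_one]
  linarith [neg_abs_le (s1T (s1g y) n 1 y)]

lemma s1_G (n y : ℕ) : |s1T (fun e => (e : ℝ)⁻¹) n 0 y| ≤ 1 + Real.log y := by
  refine le_trans ?_ (harmonic_le_one_add_log y)
  rw [harmonic_eq_sum_Icc, s1T, sum_filter]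
  push_cast
  refine (abs_sum_le_sum_abs _ _).trans (sum_le_sum fun m _ => ?_)
  split_ifs
  · rw [abs_mul, abs_inv, Nat.abs_cast]
    exact mul_le_of_le_one_right (by positivity) (s1_J n m)
  · simp

theorem blk_SING1 (hM : St_MOM) : St_SING1 := by
  intro η e0 hη he
  set η' := min η (1 / 12) with hη'
  obtain ⟨c, c0, X1, hT⟩ := s1_tail hM (η := η') (lt_min hη (by norm_num)) he
  refine ⟨c / 2, half_pos c0, fun ε hε => ?_⟩
  obtain ⟨X2, h2⟩ := s1_tau c0
  obtain ⟨X3, h3⟩ := s1_ev c0 32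
  obtain ⟨X4, h4⟩ := s1_ev hε 32
  obtain ⟨X5, h5⟩ := s1_ev (half_pos c0) 2
  obtain ⟨X6, h6⟩ := s1_ev (c := 1 / 6) (by norm_num) 4
  refine ⟨X1 + X2 + X3 + X4 + X5 + X6, fun X Q hX hQ1 hQ2 => ?_⟩
  obtain ⟨hX2, a3⟩ := h3 X (by omega)
  obtain ⟨-, a4⟩ := h4 X (by omega)
  obtain ⟨-, a5⟩ := h5 X (by omega)
  obtain ⟨-, a6⟩ := h6 X (by omega)
  have Xg : (1 : ℝ) ≤ X := by exact_mod_cast (by omega : 1 ≤ X)
  have X0 : (0 : ℝ) < X := by linarith
  have lg := Real.log_nonneg Xg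
  set y0 := ⌈(X : ℝ) ^ η'⌉₊ with hy0
  have y1 : (X : ℝ) ^ η' ≤ y0 := Nat.le_ceil _
  have p1 : 1 ≤ (X : ℝ) ^ η' := Real.one_le_rpow Xg (lt_min hη (by norm_num)).le
  have y2 : 1 ≤ y0 := by exact_mod_cast p1.trans y1
  have y3 : ∀ y : ℕ, (X : ℝ) ^ η ≤ y → y0 ≤ y := fun y hy => Nat.ceil_le.2
    ((Real.rpow_le_rpow_of_exponent_le Xg (min_le_left _ _)).trans hy)
  have y4 : ((y0 * y0 : ℕ) : ℝ) ≤ (X : ℝ) ^ (1 / 3 : ℝ) := by
    have b1 : (y0 : ℝ) ≤ 2 * (X : ℝ) ^ (1 / 12 : ℝ) := by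
      have := Real.rpow_le_rpow_of_exponent_le Xg (min_le_right η (1 / 12))
      linarith [Nat.ceil_lt_add_one (a := (X : ℝ) ^ η') (by positivity)]
    have b2 : (X : ℝ) ^ (1 / 6 : ℝ) = X ^ (1 / 12 : ℝ) * X ^ (1 / 12 : ℝ) := by
      rw [← Real.rpow_add X0]; norm_num
    have b3 : (X : ℝ) ^ (1 / 3 : ℝ) = X ^ (1 / 6 : ℝ) * X ^ (1 / 6 : ℝ) := by
      rw [← Real.rpow_add X0]; norm_num
    push_cast
    calc (y0 : ℝ) * y0 ≤ (2 * (X : ℝ) ^ (1 / 12 : ℝ)) * (2 * (X : ℝ) ^ (1 / 12 : ℝ)) := by gcongr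
      _ = 4 * X ^ (1 / 6 : ℝ) := by rw [b2]; ring
      _ ≤ _ := by rw [b3]; gcongr; linarith
  have x3 : (X : ℝ) ^ (1 / 3 : ℝ) ≤ X := by
    calc _ ≤ (X : ℝ) ^ (1 : ℝ) := Real.rpow_le_rpow_of_exponent_le Xg (by norm_num)
      _ = _ := Real.rpow_one _
  have QX : Q ≤ X := by exact_mod_cast hQ2.trans x3
  have yX : y0 * y0 ≤ X := by exact_mod_cast y4.trans x3
  have E1 := hT X y0 Q s1h (by omega) y1 hQ2 fun d d1 d2 => by
    refine (s1h_le (by omega)).trans ?_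
    have t := h2 X (by omega) d (by omega) (d2.trans QX)
    have t1 : (1 : ℝ) ≤ d.divisors.card := by
      exact_mod_cast card_pos.2 ⟨1, Nat.one_mem_divisors.2 (by omega)⟩
    gcongr
    nlinarith
  have E2 := hT X y0 (y0 * y0) (s1g y0) (by omega) y1 y4 fun d d1 d2 => by
    refine (s1g_le y0 (by omega)).trans ?_
    have t := h2 X (by omega) d (by omega) (d2.trans yX)
    gcongr
  refine le_trans ?_ ((add_le_add E1 E2).trans (le_of_eq (add_halves _)))
  rw [← Nat.cast_add, Nat.cast_le]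
  refine le_trans (card_le_card ?_) (card_union_le _ _)
  intro n hn
  obtain ⟨hn1, hn2⟩ := mem_filter.1 hn
  by_contra hc
  simp only [mem_union, mem_filter, hn1, true_and, not_or, not_exists, not_and, not_lt] at hc
  obtain ⟨g1, g2⟩ := hc
  apply hn2
  set U := (X : ℝ) ^ c with hU
  have U0 : 0 < U := by linarith
  have yQ := y3 Q hQ1
  have gQ := g1 Q yQ le_rfl
  have eQ : S0 n Q = S0 n y0 + s1T s1h n y0 Q := by
    rw [s1_S0, s1_S0, s1_add _ n (Nat.zero_le _) yQ]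
  constructor
  · intro y hy1 hy2
    have e : S0 n y - S0 n Q = s1T s1h n y0 y - s1T s1h n y0 Q := by
      rw [eQ, s1_S0 n y, s1_S0, s1_add _ n (Nat.zero_le _) (y3 y hy1)]; ring
    have b : U = X ^ (c / 2) * X ^ (c / 2) := by rw [← Real.rpow_add X0, add_halves]
    have b2 : 2 * U⁻¹ ≤ (X : ℝ) ^ (-(c / 2)) := by
      rw [Real.rpow_neg X0.le, b]
      have : 2 ≤ (X : ℝ) ^ (c / 2) := by linarith
      field_simp
      exact this
    rw [e]
    linarith [abs_sub (s1T s1h n y0 y) (s1T s1h n y0 Q), g1 y (y3 y hy1) hy2]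
  · have yy : y0 ≤ y0 * y0 := Nat.le_mul_self y0
    have t1 := s1_prod n y0
    rw [s1_add _ n (Nat.zero_le _) yy, ← s1_S0] at t1
    have t2 := g2 (y0 * y0) yy le_rfl
    have t3 := s1_main n y2
    have t4 : |s1T (fun e => (e : ℝ)⁻¹) n 0 y0| ≤ 1 + Real.log X := by
      refine (s1_G n y0).trans ?_
      have : (0 : ℝ) < y0 := by exact_mod_cast y2
      gcongr
      exact yy.trans yX
    set l := 1 + Real.log X
    have l1 : 1 ≤ l := by linarith
    have u1 : U⁻¹ ≤ (32 * l)⁻¹ := inv_anti₀ (by linarith) a3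
    have u2 : (X : ℝ) ^ (-ε) ≤ (32 * l)⁻¹ := by
      rw [Real.rpow_neg X0.le]; exact inv_anti₀ (by linarith) a4
    have u3 : (32 * l)⁻¹ ≤ 32⁻¹ := inv_anti₀ (by norm_num) (by linarith)
    have t5 : 1 / 16 ≤ |S0 n y0| * l := by
      calc (1 / 16 : ℝ) ≤ S0 n y0 * s1T (fun e => (e : ℝ)⁻¹) n 0 y0 := by
            rw [t1]; linarith [neg_abs_le (s1T (s1g y0) n y0 (y0 * y0))]
        _ ≤ _ := (le_abs_self _).trans (by rw [abs_mul]; gcongr)
    have t6 : 2 * (32 * l)⁻¹ ≤ |S0 n y0| := by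
      rw [← div_eq_mul_inv, div_le_iff₀ (by linarith)]; linarith
    have t7 := abs_sub (S0 n Q) (s1T s1h n y0 Q)
    rw [show S0 n Q - s1T s1h n y0 Q = S0 n y0 by rw [eQ]; ring] at t7
    linarith

end Pool.Agent.Lib.PS
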