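import Pool.Agent.Lib.PS.Blue
import Pool.Agent.Lib.MP_fb430f_co.Circle

/-! Block SMALL: characters without zeros close to one contribute little. -/

namespace Pool.Agent.Lib.PS

open Finset Real Complex
open scoped Classical

lemma small_tau {ε : ℝ} (hε : 0 < ε) :
    ∃ C : ℝ, 0 < C ∧ ∀ n : ℕ, n ≠ 0 → (n.divisors.card : ℝ) ≤ C * (n : ℝ) ^ ε := by
  obtain ⟨C, hC, h⟩ := Pool.Agent.Lib.MP_fb430f_co.div_bound hε
  refine ⟨C, hC, fun n hn => le_trans ?_ (h n hn)⟩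
  rw [Nat.card_divisors hn]
  exact_mod_cast Finset.prod_le_prod' fun p _ => by omega

lemma small_zero (hX : St_LDX) {a : ℕ → ℂ} {E : ℂ → ℂ} {m c l b η T : ℝ} (hc : 0 < c) (hc' : c ≤ 1 / 2)
    (hl : 0 < l) (hL : LD a E m c l b η T) {Z : Multiset ℂ} (h1 : ∀ z, Z.count z ≤ zo E l z) {z : ℂ}
    (hz : z ∈ Z) (h2 : ‖z‖ < c * l / 2) :
    E (1 - z / l) = 0 ∧ (1 - z / l).re = 1 - z.re / l ∧ 1 - c / 2 ≤ (1 - z / l).re ∧ |(1 - z / l).im| ≤ 1 := by
  have e1 : (1 - z / l).re = 1 - z.re / l := by simp [Complex.div_ofReal_re]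
  have e2 : (1 - z / l).im = -(z.im / l) := by simp [Complex.div_ofReal_im]
  have b1 : z.re / l ≤ c / 2 := by
    rw [div_le_iff₀ hl]
    have := Complex.re_le_norm z
    linarith
  have b2 : |z.im / l| ≤ 1 := by
    rw [abs_div, abs_of_pos hl, div_le_one hl]
    have := Complex.abs_im_le_norm z
    nlinarith
  refine ⟨(hX.2.2.2.1 a E m c l b η T _ hc hL (by rw [e1]; linarith)).2 ?_, e1, by rw [e1]; linarith,
    by rw [e2, abs_neg]; exact b2⟩
  exact (Multiset.one_le_count_iff_mem.2 hz).trans (h1 z)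

theorem blk_SMALL (hF : St_FAM) (hX : St_LDX) (hZ : St_LDZ) (hP : St_PSI) : St_SMALL := by
  intro α K cg h3 h4 hK hK1 hcg hcg1
  constructor
  · obtain ⟨e, he, hz⟩ := hZ.2.1 1
    have hc : 0 < min (1 / 2 : ℝ) e := lt_min (by norm_num) he
    have hc' := min_le_left (1 / 2 : ℝ) e
    have hce := min_le_right (1 / 2 : ℝ) e
    obtain ⟨C, c1, η, l0, -, hc1, hη, h⟩ := hP _ α K cg hc hc' h3 h4 hK hK1 hcg hcg1
    obtain ⟨l1, hl1⟩ := hZ.1 _ η hc hc' hη
    refine ⟨c1, max 1 (max l0 l1), hc1, fun l hl => ?_⟩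
    simp only [max_le_iff] at hl
    obtain ⟨a1, a2, a3⟩ := hl
    have hL := hl1 l a3
    obtain ⟨Z, z1, z2, z3, -⟩ := h l a2 _ _ _ _ _ hL zero_le_one le_rfl le_rfl (by norm_num) (sq_nonneg l)
    have : Z = 0 := Multiset.eq_zero_of_forall_notMem fun z hzZ => by
      obtain ⟨k1, -, k2, k3⟩ := small_zero hX hc hc' (by linarith) hL z1 hzZ (z2 z hzZ).2
      exact hz _ (by linarith) k3 k1
    subst this
    simpa [psiT] using z3
  obtain ⟨c, e1, hc, hc', he1, hf⟩ := hF.2 1 one_pos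
  obtain ⟨C, c1, η, l0, hC, hc1, hη, h⟩ := hP c α K cg hc hc' h3 h4 hK hK1 hcg hcg1
  obtain ⟨l1, hl1⟩ := hX.1 c η hc hc' hη
  refine ⟨min e1 (c1 / 3), lt_min he1 (by linarith), fun e2 he2 he2' W hW hWe => ?_⟩
  obtain ⟨u1, u2⟩ := le_min_iff.1 he2'
  obtain ⟨l2, hl2⟩ := hf W hW hWe
  obtain ⟨D, hD, hτ⟩ := small_tau (ε := e2 / 5) (by linarith)
  refine ⟨max (max 1 (4 * (D * (1 + C)) / e2)) (max l0 (max l1 l2)), fun l hl Q R n T hQ hR hn hn' hT => ?_⟩
  simp only [max_le_iff] at hl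
  obtain ⟨⟨a1, a0⟩, a2, a3, a4⟩ := hl
  have hl0 : 0 < l := by linarith
  have hel : 0 < e2 * l := mul_pos he2 hl0
  have key : ∀ x ∈ (PP Q).filter (fun x => Rel n W R x ∧ x ∉ Bad Q W T e2),
      ‖psiT (tw W x.2) l cg α K‖ ≤ (1 + C) * Real.exp (-(11 / 4 * (e2 * l))) := by
    intro x hx
    obtain ⟨hxP, hrel, hbad⟩ := Finset.mem_filter.1 hx
    obtain ⟨x1, x2⟩ := Finset.mem_sigma.1 hxP
    obtain ⟨x3, x4⟩ := Finset.mem_Icc.1 x1
    have hR' : (R : ℝ) ≤ Real.exp (e1 * l) := hR.trans (Real.exp_le_exp.2 (by nlinarith))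
    obtain ⟨k1, k2, -⟩ := hl2 l a4 n R x hR' x3 x2 hrel
    have hM : (Mof n W x.1 : ℝ) ≤ Real.exp (2 * l) := by
      obtain ⟨q, ψ, -, e, -⟩ := hrel
      have : Mof n W x.1 ≤ Q := (Nat.le_of_dvd (by omega) ⟨q, e⟩).trans x4
      exact le_trans (by exact_mod_cast this) hQ
    have hL := hl1 l a3 _ (2 / 4 + 1) k1 (by norm_num) (by norm_num) (k2 2 (by norm_num) le_rfl hM)
    obtain ⟨Z, z1, z2, z3, z4, -⟩ := h l a2 _ _ _ _ _ hL le_rfl zero_le_one (by norm_num) (by norm_num)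
      (sq_nonneg l)
    have hall : Z.filter (fun z => e2 * l ≤ z.re) = Z := by
      refine Multiset.filter_eq_self.2 fun z hzZ => ?_
      obtain ⟨j1, j2, -, j3⟩ := small_zero hX hc hc' hl0 hL z1 hzZ (z2 z hzZ).2
      by_contra hcon
      refine hbad (Finset.mem_filter.2 ⟨hxP, _, ?_, j3.trans hT, j1⟩)
      rw [j2]
      have : z.re / l ≤ e2 := by
        rw [div_le_iff₀ hl0]
        linarith
      linarith
    have z5 := z4 (e2 * l) hel.le
    rw [hall] at z5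
    have z6 : ‖(Z.map (Hs (l / cg) α K)).sum‖ ≤ (Z.map fun z => ‖Hs (l / cg) α K z‖).sum := by
      simpa [Multiset.map_map] using norm_multiset_sum_le (Z.map (Hs (l / cg) α K))
    have z7 : ‖psiT (tw W x.2) l cg α K‖ ≤ Real.exp (-(c1 * l)) + C * Real.exp (-((α - 1 / 4) * (e2 * l))) := by
      have e : psiT (tw W x.2) l cg α K = (Ks (lam (tw W x.2)) (hs (l / cg) α K) l 0 - ((0 : ℝ) : ℂ)
          + (Z.map (Hs (l / cg) α K)).sum) - (Z.map (Hs (l / cg) α K)).sum := by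
        simp [psiT]
      rw [e]
      exact (norm_sub_le _ _).trans (add_le_add z3 (z6.trans z5))
    have z8 : Real.exp (-(c1 * l)) ≤ Real.exp (-(11 / 4 * (e2 * l))) := Real.exp_le_exp.2 (by nlinarith)
    have z9 : Real.exp (-((α - 1 / 4) * (e2 * l))) ≤ Real.exp (-(11 / 4 * (e2 * l))) :=
      Real.exp_le_exp.2 (by nlinarith)
    nlinarith
  have hcard : (((PP Q).filter (fun x => Rel n W R x ∧ x ∉ Bad Q W T e2)).card : ℝ)
      ≤ D * Real.exp (3 / 2 * (e2 * l)) := by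
    have c1 : ((PP Q).filter (fun x => Rel n W R x ∧ x ∉ Bad Q W T e2)).card ≤ n.divisors.card * R ^ 2 :=
      (Finset.card_le_card (Finset.monotone_filter_right _ fun x _ hx => hx.1)).trans (hF.1 n W R Q hn)
    have c2 : (n : ℝ) ^ (e2 / 5) ≤ Real.exp (e2 * l) := by
      refine (Real.rpow_le_rpow (Nat.cast_nonneg n) hn' (by linarith)).trans (le_of_eq ?_)
      rw [← Real.exp_mul]
      congr 1
      ring
    have c3 : (R : ℝ) ^ 2 ≤ Real.exp (e2 * l / 2) := by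
      refine (pow_le_pow_left₀ (Nat.cast_nonneg R) hR 2).trans (le_of_eq ?_)
      rw [← Real.exp_nat_mul]
      congr 1
      push_cast
      ring
    have c4 := (hτ n hn.ne').trans (mul_le_mul_of_nonneg_left c2 hD.le)
    calc _ ≤ ((n.divisors.card * R ^ 2 : ℕ) : ℝ) := by exact_mod_cast c1
      _ = (n.divisors.card : ℝ) * (R : ℝ) ^ 2 := by push_cast; ring
      _ ≤ D * Real.exp (e2 * l) * Real.exp (e2 * l / 2) :=
        mul_le_mul c4 c3 (by positivity) (by positivity)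
      _ = _ := by
        rw [mul_assoc, ← Real.exp_add]
        congr 2
        ring
  have hbig : D * (1 + C) ≤ Real.exp (e2 * l / 4) := by
    rw [div_le_iff₀ he2] at a0
    have := Real.add_one_le_exp (e2 * l / 4)
    linarith
  calc _ ≤ _ := Finset.sum_le_card_nsmul _ _ _ key
    _ ≤ D * Real.exp (3 / 2 * (e2 * l)) * ((1 + C) * Real.exp (-(11 / 4 * (e2 * l)))) := by
      rw [nsmul_eq_mul]
      exact mul_le_mul_of_nonneg_right hcard (by positivity)
    _ = D * (1 + C) * (Real.exp (3 / 2 * (e2 * l)) * Real.exp (-(11 / 4 * (e2 * l)))) := by ring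
    _ ≤ Real.exp (e2 * l / 4) * (Real.exp (3 / 2 * (e2 * l)) * Real.exp (-(11 / 4 * (e2 * l)))) :=
      mul_le_mul_of_nonneg_right hbig (by positivity)
    _ = _ := by
      rw [← Real.exp_add, ← Real.exp_add]
      congr 1
      ring

end Pool.Agent.Lib.PS
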