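import Mathlib

/-!
Stepanov's method: the algebraic core.
-/

namespace Pool.Agent.Lib.PS

open Finset Polynomial

theorem step_der {F : Type*} [CommRing F] (f h : F[X]) (N : ℕ) : ∀ k, k ≤ N →
    ∃ T : F[X], derivative^[k] (f ^ N * h) = f ^ (N - k) * T ∧
      T.natDegree ≤ h.natDegree + k * f.natDegree := by
  intro k
  induction k with
  | zero => intro _; exact ⟨h, by simp, by simp⟩
  | succ k ih =>
    intro hk
    obtain ⟨T, h1, h2⟩ := ih (by omega)
    obtain ⟨n, hn⟩ : ∃ n, N - k = n + 1 := ⟨N - k - 1, by omega⟩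
    have hn' : N - (k + 1) = n := by omega
    refine ⟨C ((n + 1 : ℕ) : F) * derivative f * T + f * derivative T, ?_, ?_⟩
    · rw [Function.iterate_succ_apply', h1, hn, hn', derivative_mul, derivative_pow]
      simp only [Nat.add_sub_cancel]
      ring
    · refine (natDegree_add_le _ _).trans (max_le ?_ ?_)
      · refine natDegree_mul_le.trans ?_
        have a1 : (C ((n + 1 : ℕ) : F) * derivative f).natDegree ≤ f.natDegree :=
          (natDegree_C_mul_le _ _).trans ((natDegree_derivative_le f).trans (Nat.sub_le _ _))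
        rw [Nat.succ_mul]; omega
      · refine natDegree_mul_le.trans ?_
        have a1 : (derivative T).natDegree ≤ T.natDegree :=
          (natDegree_derivative_le T).trans (Nat.sub_le _ _)
        rw [Nat.succ_mul]; omega

theorem step_derp {F : Type*} [CommRing F] (p : ℕ) (hp : (p : F) = 0) (q : F[X]) (j : ℕ) :
    ∀ k, derivative^[k] (q * X ^ (j * p)) = derivative^[k] q * X ^ (j * p) := by
  intro k
  induction k with
  | zero => simp
  | succ k ih =>
    rw [Function.iterate_succ_apply', ih, Function.iterate_succ_apply', derivative_mul,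
      derivative_X_pow]
    simp [hp]

theorem step_nz {F : Type*} [Field F] (p c : ℕ) (hpc : 2 * c ≤ p) (h r s : F[X])
    (h0 : h.coeff 0 ≠ 0) (hr : ∀ n, r.coeff n ≠ 0 → n % p < c)
    (hs : ∀ n, s.coeff n ≠ 0 → n % p < c) (e : r + (X * h) ^ c * s = 0) : r = 0 ∧ s = 0 := by
  by_cases hs0 : s = 0
  · refine ⟨?_, hs0⟩
    simpa [hs0] using e
  exfalso
  have hh : h ≠ 0 := by rintro rfl; simp at h0
  have hhc : h ^ c ≠ 0 := pow_ne_zero _ hh
  have e1 : r = -((h ^ c * s) * X ^ c) := by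
    rw [mul_pow] at e
    linear_combination e
  have hne : h ^ c * s ≠ 0 := mul_ne_zero hhc hs0
  have hr0 : r ≠ 0 := by
    rw [e1]
    exact neg_ne_zero.2 (mul_ne_zero hne (pow_ne_zero _ X_ne_zero))
  have t0 : (h ^ c).natTrailingDegree = 0 := by
    rw [natTrailingDegree_eq_zero]
    right
    rw [coeff_zero_eq_eval_zero, eval_pow, ← coeff_zero_eq_eval_zero]
    exact pow_ne_zero _ h0
  have t1 : r.natTrailingDegree = s.natTrailingDegree + c := by
    rw [e1, natTrailingDegree_neg, natTrailingDegree_mul_X_pow hne, natTrailingDegree_mul hhc hs0,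
      t0, zero_add]
  have a1 := hr _ (mem_support_iff.1 (natTrailingDegree_mem_support_of_nonzero hr0))
  have a2 := hs _ (mem_support_iff.1 (natTrailingDegree_mem_support_of_nonzero hs0))
  rw [t1] at a1
  have a3 : (s.natTrailingDegree + c) % p = s.natTrailingDegree % p + c := by
    have hc : c % p = c := Nat.mod_eq_of_lt (by omega)
    rw [Nat.add_mod, hc, Nat.mod_eq_of_lt (by omega)]
  omega

theorem step_coef {F : Type*} [Field F] (p c J : ℕ) (hpc : c ≤ p) (u : Fin J × Fin c → F) :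
    (∀ n, (∑ y : Fin J × Fin c, C (u y) * X ^ ((y.2 : ℕ) + (y.1 : ℕ) * p)).coeff n ≠ 0 →
      n % p < c) ∧
    ((∑ y : Fin J × Fin c, C (u y) * X ^ ((y.2 : ℕ) + (y.1 : ℕ) * p)) = 0 → ∀ y, u y = 0) := by
  have hm : ∀ y : Fin J × Fin c, ((y.2 : ℕ) + (y.1 : ℕ) * p) % p = y.2 := by
    intro y
    rw [Nat.add_mul_mod_self_right]
    exact Nat.mod_eq_of_lt (lt_of_lt_of_le y.2.2 hpc)
  constructor
  · intro n hn
    rw [finsetSum_coeff] at hn
    obtain ⟨y, -, hy⟩ := exists_ne_zero_of_sum_ne_zero hn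
    rw [coeff_C_mul_X_pow] at hy
    split_ifs at hy with h1
    · rw [h1, hm]; exact y.2.2
    · exact absurd rfl hy
  · intro h y
    have := congrArg (fun q : F[X] => q.coeff ((y.2 : ℕ) + (y.1 : ℕ) * p)) h
    simp only [finsetSum_coeff, coeff_C_mul_X_pow, coeff_zero] at this
    rw [sum_eq_single y] at this
    · simpa using this
    · intro z _ hz
      rw [if_neg]
      intro e
      apply hz
      have e2 : (y.2 : ℕ) = z.2 := by rw [← hm y, ← hm z, e]
      have hp0 : 0 < p := lt_of_le_of_lt (Nat.zero_le _) (lt_of_lt_of_le y.2.2 hpc)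
      have e1 : (y.1 : ℕ) = z.1 := by
        rw [e2] at e
        exact Nat.eq_of_mul_eq_mul_right hp0 (Nat.add_left_cancel e)
      exact Prod.ext (Fin.ext e1.symm) (Fin.ext e2.symm)
    · intro hy; exact absurd (mem_univ y) hy

theorem step_dep {F : Type*} [Field F] {ι : Type*} [Fintype ι] (L E : ℕ)
    (w : ι → Fin L → F[X]) (hw : ∀ i k, (w i k).natDegree < E)
    (hc : L * E < Fintype.card ι) :
    ∃ u : ι → F, (∃ i, u i ≠ 0) ∧ ∀ k, ∑ i, C (u i) * w i k = 0 := by
  let v : ι → (Fin L × Fin E → F) := fun i y => (w i y.1).coeff y.2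
  have hv : ¬ LinearIndependent F v := by
    intro hl
    have := hl.fintype_card_le_finrank
    simp at this
    omega
  obtain ⟨u, h1, h2⟩ := Fintype.not_linearIndependent_iff.1 hv
  refine ⟨u, h2, fun k => ?_⟩
  ext n
  rw [finsetSum_coeff, coeff_zero]
  by_cases hn : n < E
  · have := congrFun h1 (k, ⟨n, hn⟩)
    simpa [v, Finset.sum_apply] using this
  · refine sum_eq_zero fun i _ => ?_
    rw [coeff_C_mul, coeff_eq_zero_of_natDegree_lt (by have := hw i k; omega), mul_zero]

theorem step_mult {F : Type*} [Field F] (R : F[X]) (hR : R ≠ 0) (S : Finset F) (L : ℕ)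
    (h : ∀ x ∈ S, L ≤ R.rootMultiplicity x) : S.card * L ≤ R.natDegree := by
  classical
  calc S.card * L = ∑ x ∈ S, L := by simp
    _ ≤ ∑ x ∈ S, R.roots.count x := sum_le_sum fun x hx => by rw [count_roots]; exact h x hx
    _ ≤ ∑ x ∈ S ∪ R.roots.toFinset, R.roots.count x :=
        sum_le_sum_of_subset subset_union_left
    _ = R.roots.card := Multiset.sum_count_eq_card (fun a ha => by simp [ha])
    _ ≤ R.natDegree := card_roots' R

theorem step_core (p c m L K : ℕ) [Fact p.Prime] (hpc : p = 2 * c + 1) (h : (ZMod p)[X])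
    (h0 : h.coeff 0 ≠ 0) (hm : (X * h).natDegree ≤ m) (hL : 1 ≤ L) (hLp : L ≤ p)
    (hK : L * (c + L * m + (K + 1)) < 2 * ((K + 1) * c)) (a : ZMod p) (S : Finset (ZMod p))
    (hS : ∀ x ∈ S, (X * h).eval x = 0 ∨ (X * h).eval x ^ c = a) :
    S.card * L ≤ (L + c) * m + c + K * p := by
  classical
  set f := X * h with hf
  have hT : ∀ (t : Fin 2) (i : Fin c) (k : Fin L), ∃ T : (ZMod p)[X],
      derivative^[k] (f ^ (L + t * c) * X ^ (i : ℕ)) = f ^ (L + t * c - k) * T ∧
      T.natDegree ≤ i + k * m := by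
    intro t i k
    obtain ⟨T, h1, h2⟩ := step_der f (X ^ (i : ℕ)) (L + t * c) k (by have := k.2; omega)
    refine ⟨T, h1, h2.trans ?_⟩
    rw [natDegree_X_pow]
    exact Nat.add_le_add_left (Nat.mul_le_mul_left _ hm) _
  choose T hT1 hT2 using hT
  obtain ⟨u, hu0, hu⟩ := step_dep (ι := Fin 2 × Fin (K + 1) × Fin c) L (c + L * m + (K + 1))
    (fun y k => C (a ^ (y.1 : ℕ)) * T y.1 y.2.2 k * X ^ (y.2.1 : ℕ)) (by
      intro y k
      refine lt_of_le_of_lt natDegree_mul_le ?_
      have a1 := (natDegree_C_mul_le (a ^ (y.1 : ℕ)) (T y.1 y.2.2 k)).trans (hT2 y.1 y.2.2 k)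
      have a2 := y.2.2.2
      have a3 := y.2.1.2
      have a4 : (k : ℕ) * m ≤ L * m := Nat.mul_le_mul_right _ k.2.le
      rw [natDegree_X_pow]
      omega) (by simpa using hK)
  let R : (ZMod p)[X] := ∑ y : Fin 2 × Fin (K + 1) × Fin c,
    C (u y) * (f ^ (L + y.1 * c) * X ^ (y.2.2 : ℕ) * X ^ ((y.2.1 : ℕ) * p))
  have hf0 : f ≠ 0 := by
    refine mul_ne_zero X_ne_zero ?_
    rintro rfl; simp at h0
  have hR : R ≠ 0 := by
    intro hR
    have e : R = f ^ L * ((∑ y : Fin (K + 1) × Fin c, C (u (0, y)) * X ^ ((y.2 : ℕ) + (y.1 : ℕ) * p))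
        + f ^ c * ∑ y : Fin (K + 1) × Fin c, C (u (1, y)) * X ^ ((y.2 : ℕ) + (y.1 : ℕ) * p)) := by
      simp only [R]
      rw [Fintype.sum_prod_type, Fin.sum_univ_two, mul_add, mul_sum, mul_sum, mul_sum]
      congr 1
      · refine sum_congr rfl fun y _ => ?_
        simp only [Fin.val_zero, zero_mul, add_zero]
        ring
      · refine sum_congr rfl fun y _ => ?_
        simp only [Fin.val_one, one_mul]
        ring
    rw [hR] at e
    have e2 := (mul_eq_zero.1 e.symm).resolve_left (pow_ne_zero _ hf0)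
    have c1 := step_coef p c (K + 1) (by omega) (fun y => u (0, y))
    have c2 := step_coef p c (K + 1) (by omega) (fun y => u (1, y))
    obtain ⟨z1, z2⟩ := step_nz p c (by omega) h _ _ h0 c1.1 c2.1 e2
    obtain ⟨⟨t, y⟩, hy⟩ := hu0
    fin_cases t
    · exact hy (c1.2 z1 y)
    · exact hy (c2.2 z2 y)
  have hdeg : R.natDegree ≤ (L + c) * m + c + K * p := by
    refine natDegree_sum_le_of_forall_le _ _ fun y _ => ?_
    refine (natDegree_C_mul_le _ _).trans (natDegree_mul_le.trans ?_)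
    have a1 : (f ^ (L + y.1 * c) * X ^ (y.2.2 : ℕ)).natDegree ≤ (L + c) * m + c := by
      refine natDegree_mul_le.trans (Nat.add_le_add ?_ ?_)
      · refine natDegree_pow_le.trans (Nat.mul_le_mul ?_ hm)
        have : (y.1 : ℕ) * c ≤ 1 * c := Nat.mul_le_mul_right _ (by have := y.1.2; omega)
        omega
      · rw [natDegree_X_pow]; exact y.2.2.2.le
    have a2 : (y.2.1 : ℕ) * p ≤ K * p := Nat.mul_le_mul_right _ (by have := y.2.1.2; omega)
    rw [natDegree_X_pow]
    omega
  refine (step_mult R hR S L fun x hx => ?_).trans hdeg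
  obtain ⟨n, rfl⟩ : ∃ n, L = n + 1 := ⟨L - 1, by omega⟩
  refine lt_rootMultiplicity_of_isRoot_iterate_derivative_of_mem_nonZeroDivisors hR ?_ ?_
  · intro k hk
    have hk' : k < n + 1 := by omega
    have e : (derivative^[k] R).eval x = ∑ y : Fin 2 × Fin (K + 1) × Fin c,
        u y * (f.eval x ^ (n + 1 + y.1 * c - k) * (T y.1 y.2.2 ⟨k, hk'⟩).eval x * x ^ (y.2.1 : ℕ)) := by
      simp only [R]
      rw [iterate_derivative_sum, eval_finsetSum]
      refine sum_congr rfl fun y _ => ?_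
      rw [iterate_derivative_C_mul, step_derp p (ZMod.natCast_self p), hT1 y.1 y.2.2 ⟨k, hk'⟩]
      simp only [eval_mul, eval_C, eval_pow, eval_X]
      rw [mul_comm (y.2.1 : ℕ) p, pow_mul, ZMod.pow_card]
    rw [IsRoot, e]
    rcases hS x hx with h1 | h1
    · refine sum_eq_zero fun y _ => ?_
      rw [h1, zero_pow (by omega)]
      simp
    · have e3 := congrArg (eval x) (hu ⟨k, hk'⟩)
      rw [eval_finsetSum, eval_zero] at e3
      have e4 : ∀ y : Fin 2 × Fin (K + 1) × Fin c,
          u y * (f.eval x ^ (n + 1 + y.1 * c - k) * (T y.1 y.2.2 ⟨k, hk'⟩).eval x * x ^ (y.2.1 : ℕ))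
          = f.eval x ^ (n + 1 - k) * eval x (C (u y) *
            (C (a ^ (y.1 : ℕ)) * T y.1 y.2.2 ⟨k, hk'⟩ * X ^ (y.2.1 : ℕ))) := by
        intro y
        have : n + 1 + y.1 * c - k = (n + 1 - k) + c * y.1 := by rw [mul_comm c]; omega
        rw [this, pow_add, pow_mul, h1]
        simp only [eval_mul, eval_C, eval_pow, eval_X]
        ring
      rw [sum_congr rfl fun y _ => e4 y, ← mul_sum, e3, mul_zero]
  · refine mem_nonZeroDivisors_of_ne_zero ?_
    rw [Ne, ZMod.natCast_eq_zero_iff, (Fact.out : p.Prime).dvd_factorial]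
    omega

theorem step_num (p c m s K N : ℕ) (hpc : p = 2 * c + 1) (hs : p < (s + 1) * (s + 1))
    (hs2 : s * s ≤ p) (hm : 1 ≤ m) (hms : 8 * m ≤ s) (hK : K * (2 * c - s) ≤ s * (c + s * m))
    (hN : N * s ≤ (s + c) * m + c + K * p) : N ≤ c + 4 * m * s := by
  have h1 : 8 * (m * s) ≤ s * s := by nlinarith
  have h2 : s ≤ m * s := by nlinarith
  obtain ⟨d, hd⟩ : ∃ d, 2 * c = s + d := ⟨2 * c - s, by omega⟩
  have hd' : 2 * c - s = d := by omega
  rw [hd'] at hK
  have h3 : c + s * m ≤ d := by nlinarith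
  have hd0 : 0 < d := by nlinarith
  have h4 : K ≤ s := by
    have : K * d ≤ s * d := hK.trans (Nat.mul_le_mul_left _ h3)
    exact Nat.le_of_mul_le_mul_right this hd0
  have h5 : K * p ≤ s * (c + s * m) + s * (s + 1) := by
    have : K * p = K * d + K * (s + 1) := by rw [hpc, hd]; ring
    have := Nat.mul_le_mul_right (s + 1) h4
    omega
  have h6 : c * (m + 1) ≤ m * ((s + 1) * (s + 1)) := by nlinarith
  have hs0 : 0 < s := by omega
  refine Nat.le_of_mul_le_mul_right ?_ hs0
  have h7 : s * s ≤ m * (s * s) := by nlinarith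
  have h8 : 8 * (m * s) ≤ m * (s * s) := by nlinarith
  have h9 : m ≤ m * s := by nlinarith
  nlinarith

theorem step_card (p m : ℕ) [Fact p.Prime] (hp2 : p ≠ 2) (h : (ZMod p)[X])
    (h0 : h.coeff 0 ≠ 0) (hm : (X * h).natDegree ≤ m) (hm1 : 1 ≤ m) (hmp : 64 * m ^ 2 ≤ p)
    (a : ZMod p) (S : Finset (ZMod p))
    (hS : ∀ x ∈ S, (X * h).eval x = 0 ∨ (X * h).eval x ^ (p / 2) = a) :
    S.card ≤ p / 2 + 4 * m * p.sqrt := by
  have hp : p.Prime := Fact.out
  have hpc : p = 2 * (p / 2) + 1 := by have := hp.eq_two_or_odd; omega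
  set c := p / 2 with hc
  set s := p.sqrt with hs
  have s1 : s * s ≤ p := Nat.sqrt_le p
  have s2 : p < (s + 1) * (s + 1) := Nat.lt_succ_sqrt p
  have s3 : 8 * m ≤ s := Nat.le_sqrt.2 (by nlinarith)
  have s4 : s < 2 * c := by nlinarith
  have hd : 0 < 2 * c - s := by omega
  set K := s * (c + s * m) / (2 * c - s) with hK
  have k1 : K * (2 * c - s) ≤ s * (c + s * m) := Nat.div_mul_le_self _ _
  have k2 : s * (c + s * m) < (K + 1) * (2 * c - s) := by
    rw [mul_comm (K + 1)]
    exact Nat.lt_mul_div_succ _ hd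
  refine step_num p c m s K _ hpc s2 s1 hm1 s3 k1 ?_
  refine step_core p c m s K hpc h h0 hm (by omega) (by omega) ?_ a S hS
  obtain ⟨d, hd⟩ : ∃ d, 2 * c = s + d := ⟨2 * c - s, by omega⟩
  have hd' : 2 * c - s = d := by omega
  rw [hd'] at k2
  have : 2 * ((K + 1) * c) = (K + 1) * s + (K + 1) * d := by
    rw [← mul_add, ← hd]; ring
  nlinarith

end Pool.Agent.Lib.PS
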