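import Pool.Agent.Lib.PS.Blue
import Pool.Agent.Lib.PS.STEP1

/-!
The Weil bound for quadratic character sums of split polynomials with a simple root.
-/

namespace Pool.Agent.Lib.PS

open Finset Real
open scoped NumberTheorySymbols Classical

theorem step_half (p m : ℕ) [Fact p.Prime] (hp2 : p ≠ 2) (h : Polynomial (ZMod p))
    (h0 : h.coeff 0 ≠ 0) (hm : (Polynomial.X * h).natDegree ≤ m) (hm1 : 1 ≤ m)
    (hmp : 64 * m ^ 2 ≤ p) (e : ℤ) (he : e = 1 ∨ e = -1) :
    e * ∑ x : ZMod p, quadraticChar (ZMod p) ((Polynomial.X * h).eval x)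
      ≤ 8 * m * (p.sqrt : ℤ) := by
  have hp : p.Prime := Fact.out
  have hpc : p = 2 * (p / 2) + 1 := by have := hp.eq_two_or_odd; omega
  have hch : ringChar (ZMod p) ≠ 2 := by rw [ZMod.ringChar_zmod_n]; exact hp2
  set f := Polynomial.X * h with hf
  let S : Finset (ZMod p) := univ.filter fun x => quadraticChar (ZMod p) (f.eval x) ≠ -e
  have hS := step_card p m hp2 h h0 hm hm1 hmp (e : ZMod p) S (by
    intro x hx
    have hx' := (mem_filter.1 hx).2
    by_cases h1 : f.eval x = 0
    · exact Or.inl h1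
    right
    have h2 := quadraticChar_eq_pow_of_char_ne_two' hch (f.eval x)
    rw [ZMod.card] at h2
    rw [← h2]
    congr 1
    rcases quadraticChar_dichotomy h1 with h3 | h3 <;> rcases he with h4 | h4 <;> omega)
  have h1 : ∀ x : ZMod p, e * quadraticChar (ZMod p) (f.eval x)
      ≤ 2 * (if quadraticChar (ZMod p) (f.eval x) ≠ -e then 1 else 0) - 1 := by
    intro x
    by_cases h1 : f.eval x = 0
    · rw [h1, quadraticChar_zero]
      rcases he with rfl | rfl <;> simp
    · rcases quadraticChar_dichotomy h1 with h3 | h3 <;> rcases he with rfl | rfl <;>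
        simp [h3]
  rw [mul_sum]
  refine (sum_le_sum fun x _ => h1 x).trans ?_
  rw [sum_sub_distrib, ← mul_sum, sum_boole]
  simp only [sum_const, card_univ, ZMod.card, nsmul_eq_mul, mul_one]
  have h2 : ((S.card : ℕ) : ℤ) ≤ ((p / 2 + 4 * m * p.sqrt : ℕ) : ℤ) := by exact_mod_cast hS
  have h3 : (p : ℤ) = 2 * ((p / 2 : ℕ) : ℤ) + 1 := by exact_mod_cast hpc
  rw [Nat.cast_add, Nat.cast_mul, Nat.cast_mul] at h2
  change 2 * ((S.card : ℕ) : ℤ) - p ≤ _
  generalize (p / 2) = c at h2 h3
  nlinarith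

theorem blk_STEP : St_STEP := by
  intro p m b hp hp2 ⟨i, hi⟩
  haveI : Fact p.Prime := ⟨hp⟩
  have hm1 : 1 ≤ m := i.pos
  have hsq : √(p : ℝ) * √(p : ℝ) = p := Real.mul_self_sqrt (by positivity)
  have hs0 : 0 ≤ √(p : ℝ) := Real.sqrt_nonneg _
  by_cases hmp : 64 * m ^ 2 ≤ p
  swap
  · have h1 : |∑ x ∈ range p, (J(∏ j, ((x : ℤ) + b j) | p) : ℝ)| ≤ p := by
      refine (abs_sum_le_sum_abs _ _).trans ?_
      refine (sum_le_card_nsmul _ _ 1 fun x _ => ?_).trans (by simp)
      rcases jacobiSym.trichotomy (∏ j, ((x : ℤ) + b j)) p with h | h | h <;> simp [h]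
    have h2 : √(p : ℝ) ≤ 8 * m := by
      refine Real.sqrt_le_iff.2 ⟨by positivity, ?_⟩
      have : ((p : ℕ) : ℝ) ≤ ((64 * m ^ 2 : ℕ) : ℝ) := by exact_mod_cast (not_le.1 hmp).le
      push_cast at this
      nlinarith
    nlinarith
  let h : Polynomial (ZMod p) :=
    ∏ j ∈ univ.erase i, (Polynomial.X + Polynomial.C ((b j : ZMod p) - b i))
  have h0 : h.coeff 0 ≠ 0 := by
    rw [Polynomial.coeff_zero_eq_eval_zero, Polynomial.eval_prod]
    refine prod_ne_zero_iff.2 fun j hj => ?_
    have := hi j (ne_of_mem_erase hj)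
    rw [← ZMod.intCast_zmod_eq_zero_iff_dvd] at this
    simp only [Polynomial.eval_add, Polynomial.eval_X, Polynomial.eval_C, zero_add]
    intro e
    apply this
    push_cast
    linear_combination -e
  have hm : (Polynomial.X * h).natDegree ≤ m := by
    refine Polynomial.natDegree_mul_le.trans ?_
    have a1 : h.natDegree ≤ m - 1 := by
      refine (Polynomial.natDegree_prod_le _ _).trans ?_
      simp only [Polynomial.natDegree_X_add_C]
      simp
    have a2 : (Polynomial.X : Polynomial (ZMod p)).natDegree = 1 := Polynomial.natDegree_X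
    omega
  have e1 : ∑ x ∈ range p, J(∏ j, ((x : ℤ) + b j) | p)
      = ∑ x : ZMod p, quadraticChar (ZMod p) ((Polynomial.X * h).eval x) := by
    have e2 : ∀ x : ZMod p, (Polynomial.X * h).eval (x + b i) = ∏ j, (x + b j) := by
      intro x
      rw [Polynomial.eval_mul, Polynomial.eval_X, Polynomial.eval_prod,
        ← mul_prod_erase univ (fun j => x + (b j : ZMod p)) (mem_univ i)]
      congr 1
      refine prod_congr rfl fun j _ => ?_
      simp
    rw [← Equiv.sum_comp (Equiv.addRight (b i : ZMod p))]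
    simp only [Equiv.coe_addRight, e2]
    symm
    refine sum_bij (fun x _ => x.val) (fun x _ => mem_range.2 (ZMod.val_lt x))
      (fun x _ y _ e => ZMod.val_injective p e)
      (fun n hn => ⟨(n : ZMod p), mem_univ _, ZMod.val_cast_of_lt (mem_range.1 hn)⟩) ?_
    intro x _
    rw [← jacobiSym.legendreSym.to_jacobiSym, legendreSym]
    congr 1
    push_cast
    simp
  have a1 := step_half p m hp2 h h0 hm hm1 hmp 1 (Or.inl rfl)
  have a2 := step_half p m hp2 h h0 hm hm1 hmp (-1) (Or.inr rfl)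
  rw [← e1] at a1 a2
  have a3 : |∑ x ∈ range p, J(∏ j, ((x : ℤ) + b j) | p)| ≤ 8 * m * (p.sqrt : ℤ) :=
    abs_le.2 ⟨by linarith, by linarith⟩
  have a4 : |∑ x ∈ range p, (J(∏ j, ((x : ℤ) + b j) | p) : ℝ)| ≤ 8 * m * (p.sqrt : ℝ) := by
    exact_mod_cast a3
  refine a4.trans (mul_le_mul_of_nonneg_left Real.nat_sqrt_le_real_sqrt (by positivity))

end Pool.Agent.Lib.PS
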