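import Pool.Agent.Lib.PS.STR1
import Pool.Agent.Lib.PS.SING2
import Pool.Agent.Lib.MP_fb430f_co.Circle

/-! Block STR: structure and size of the local densities. -/

namespace Pool.Agent.Lib.PS

open Finset Real Complex ZMod DirichletCharacter
open scoped Classical ComplexConjugate NumberTheorySymbols

lemma str_mem {r : ℕ} [NeZero r] {χ : ℕ → ℂ} : χ ∈ prim r ↔
    ∃ ψ : DirichletCharacter ℂ r, ψ.IsPrimitive ∧ (fun k : ℕ => ψ k) = χ := by
  simp [prim]

lemma str_cast {r : ℕ} [NeZero r] (n m : ℕ) :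
    ((n + (r - 1) * m ^ 2 : ℕ) : ZMod r) = n - (m : ZMod r) ^ 2 := by
  push_cast [Nat.cast_pred (NeZero.pos r)]
  rw [natCast_self]
  ring

lemma str_gam {r : ℕ} [NeZero r] (ψ : DirichletCharacter ℂ r) (n : ℕ) :
    ‖gam r (fun k : ℕ => ψ k) n‖ = ‖strG ψ n‖ / r.totient := by
  rw [gam, norm_div, Complex.norm_natCast, ← map_sum, Complex.norm_conj, strG, ← gau_sum_zmod]
  simp only [str_cast]

lemma str_ne {r : ℕ} [NeZero r] {ψ : DirichletCharacter ℂ r} {n : ℕ}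
    (h : gam r (fun k : ℕ => ψ k) n ≠ 0) : strG ψ n ≠ 0 := fun h0 =>
  h (norm_eq_zero.1 (by rw [str_gam, h0, norm_zero, zero_div]))

lemma str_one {p q n : ℕ} {χ : ℕ → ℂ} (hp : p.Prime) (h2 : p ≠ 2) (hn : p ∣ n) (hq : 0 < q)
    (hχ : χ ∈ prim (p * q)) (h0 : gam (p * q) χ n ≠ 0) : p.Coprime q ∧ ∃ ψ ∈ prim q,
      χ = jc p * ψ ∧ ‖gam (p * q) χ n‖ = ‖gam q ψ n‖ := by
  have := Fact.mk hp
  have : NeZero q := ⟨hq.ne'⟩
  obtain ⟨ψ, hψ, rfl⟩ := str_mem.1 hχ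
  have hc : p.Coprime q := (Nat.Prime.coprime_iff_not_dvd hp).2 fun ⟨c, hc⟩ =>
    str_ne h0 (str_zero hp ψ hψ hn fun s => by
      obtain ⟨h, hh⟩ := hp.odd_of_ne_two h2
      have a1 : ((p * q : ℕ) : ZMod (p * q)) = 0 := natCast_self _
      have a2 := congrArg (Nat.cast : ℕ → ZMod (p * q)) hc
      have a3 := congrArg (Nat.cast : ℕ → ZMod (p * q)) hh
      push_cast at a1 a2 a3
      exact ⟨1 + s * (h + 1) * q, by
        linear_combination (s + s ^ 2 * (h + 1) ^ 2 * c) * a1 - s * q * a3 +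
          s ^ 2 * (h + 1) ^ 2 * q * a2⟩)
  obtain ⟨ψ1, ψ2, h1, h2, e⟩ := str_split hc ψ hψ
  have g := str_G_mul hc e n
  obtain ⟨b1, b2⟩ := str_prime ψ1 h1 hn (left_ne_zero_of_mul (g ▸ str_ne h0))
  refine ⟨hc, _, str_mem.2 ⟨ψ2, h2, rfl⟩, funext fun k => ?_, ?_⟩
  · have := e k
    rw [b1] at this
    simpa [jc] using this
  · rw [str_gam, str_gam, g, norm_mul, b2, Nat.totient_mul hc, Nat.cast_mul, mul_div_mul_left]
    exact_mod_cast (Nat.totient_pos.2 hp.pos).ne'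

lemma str_set (n : ℕ) (S : Finset ℕ) (hS : ∀ p ∈ S, p.Prime ∧ p ≠ 2 ∧ p ∣ n) {r : ℕ} {χ : ℕ → ℂ}
    (hr : 0 < r) (hS' : ∀ p ∈ S, p ∣ r) (hχ : χ ∈ prim r) (h0 : gam r χ n ≠ 0) :
    ∃ q ψ, r = (∏ p ∈ S, p) * q ∧ (∏ p ∈ S, p).Coprime q ∧ ψ ∈ prim q ∧
      χ = jc (∏ p ∈ S, p) * ψ ∧ ‖gam r χ n‖ = ‖gam q ψ n‖ := by
  induction S using Finset.induction_on with
  | empty => exact ⟨r, χ, by simp, by simp, hχ, funext fun k => by simp [jc], rfl⟩
  | insert p S hp ih =>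
    obtain ⟨q, ψ, a1, a2, a3, a4, a5⟩ := ih (fun p h => hS p (mem_insert_of_mem h))
      fun p h => hS' p (mem_insert_of_mem h)
    obtain ⟨p1, p2, p3⟩ := hS p (mem_insert_self _ _)
    have c : p.Coprime (∏ p ∈ S, p) := Nat.Coprime.prod_right fun i hi =>
      (Nat.coprime_primes p1 (hS i (mem_insert_of_mem hi)).1).2 fun e => hp (e ▸ hi)
    obtain ⟨q', rfl⟩ := c.dvd_of_dvd_mul_left (a1 ▸ hS' p (mem_insert_self _ _))
    have q0 : 0 < q' := Nat.pos_of_mul_pos_left (Nat.pos_of_mul_pos_left (a1 ▸ hr))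
    obtain ⟨b1, ψ', b2, b3, b4⟩ := str_one p1 p2 p3 q0 a3 (norm_ne_zero_iff.1
      (a5 ▸ norm_ne_zero_iff.2 h0))
    rw [prod_insert hp]
    refine ⟨q', ψ', by rw [a1]; ring, Nat.Coprime.mul_left b1 a2.coprime_mul_left_right, b2,
      funext fun k => ?_, a5.trans b4⟩
    have : NeZero (∏ p ∈ S, p) := ⟨left_ne_zero_of_mul (a1 ▸ hr.ne')⟩
    have : NeZero p := ⟨p1.ne_zero⟩
    simp only [a4, b3, jc, Pi.mul_apply, jacobiSym.mul_right, Int.cast_mul]
    ring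

/-- the indicator of the units -/
noncomputable def strI (r n : ℕ) (m : ZMod r) : ℝ := if IsUnit (n - m ^ 2) then 1 else 0

lemma str_I (r n m : ℕ) : strI r n m = if IsCoprime (r : ℤ) (n - m ^ 2) then 1 else 0 := by
  refine if_congr ?_ rfl rfl
  rw [← coe_int_isUnit_iff_isCoprime]
  push_cast
  rfl

lemma str_two : ∀ x m : ZMod 2, x - m ^ 2 ≠ 0 ↔ m = x + 1 := by decide

lemma str_cnt_prime {p : ℕ} (hp : p.Prime) (n : ℕ) :
    ∑ m ∈ range p, strI p n m = p.totient * (1 + fn n p) := by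
  have := Fact.mk hp
  rw [gau_sum_zmod]
  rcases hp.eq_two_or_odd' with rfl | ho
  · simp only [strI, isUnit_iff_ne_zero, str_two]
    simp [fn]
  · have h2 : ringChar (ZMod p) ≠ 2 := by
      rw [ringChar_zmod_n]
      rintro rfl
      exact absurd ho (by decide)
    have a1 := quadraticChar_card_sqrts h2 (n : ZMod p)
    have a2 := card_filter_add_card_filter_not (s := univ) fun m : ZMod p => m ^ 2 = n
    have a3 : (0 : ℝ) < p - 1 := by
      have : (2 : ℝ) ≤ p := by exact_mod_cast hp.two_le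
      linarith
    rw [Set.toFinset_ofPred] at a1
    rw [card_univ, ZMod.card] at a2
    have a4 : (((univ.filter fun m : ZMod p => m ^ 2 = n).card : ℤ) : ℝ) = J(n | p) + 1 := by
      rw [a1, ← jacobiSym.legendreSym.to_jacobiSym, legendreSym]
      push_cast
      rfl
    have a5 := congrArg (Nat.cast : ℕ → ℝ) a2
    simp only [strI, isUnit_iff_ne_zero, sum_boole, sub_ne_zero, fn, if_pos ho,
      ArithmeticFunction.moebius_apply_prime hp, Nat.totient_prime hp, Nat.cast_pred hp.pos,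
      ne_comm (a := (n : ZMod p))]
    push_cast at a4 a5 ⊢
    field_simp
    linarith

lemma str_cnt (n r : ℕ) (hr : 0 < r) : ∑ m ∈ range r, strI r n m = r.totient * loc r n := by
  induction r using induction_on_primes with
  | zero => omega
  | one => simp [str_I, loc, isCoprime_one_left]
  | prime_mul p a hp ih =>
    have a0 : 0 < a := Nat.pos_of_mul_pos_left hr
    have : NeZero a := ⟨a0.ne'⟩
    have : NeZero p := ⟨hp.ne_zero⟩
    have e : ∀ m : ℕ, strI (p * a) n m = strI p n m * strI a n m := fun m => by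
      simp only [str_I, Nat.cast_mul, IsCoprime.mul_left_iff, ite_and, ite_mul, one_mul, zero_mul]
    by_cases h : p ∣ a
    · have e' : ∀ m : ℕ, strI (p * a) n m = strI a n m := fun m => by
        simp only [str_I, Nat.cast_mul, IsCoprime.mul_left_iff]
        exact if_congr (and_iff_right_of_imp fun h' =>
          h'.of_isCoprime_of_dvd_left (by exact_mod_cast h)) rfl rfl
      rw [sum_congr rfl fun m _ => e' m, gau_sum_per (fun m : ℕ => strI a n m) a (by simp), ih a0,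
        Nat.totient_mul_of_prime_of_dvd hp h, loc, loc, Nat.primeFactors_mul hp.ne_zero a0.ne',
        union_eq_right.2 (Nat.primeFactors_mono h a0.ne')]
      simp [mul_assoc]
    · have c := (Nat.Prime.coprime_iff_not_dvd hp).2 h
      rw [sum_congr rfl fun m _ => e m, str_crt c, ← gau_sum_zmod, ← gau_sum_zmod, ih a0,
        str_cnt_prime hp, Nat.totient_mul c, loc, loc, Nat.primeFactors_mul hp.ne_zero a0.ne',
        hp.primeFactors, ← insert_eq, prod_insert fun h' => h (Nat.dvd_of_mem_primeFactors h')]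
      push_cast
      ring

lemma str_le_loc {r n : ℕ} {χ : ℕ → ℂ} (hr : 0 < r) (hχ : χ ∈ prim r) : ‖gam r χ n‖ ≤ loc r n := by
  have : NeZero r := ⟨hr.ne'⟩
  obtain ⟨ψ, -, rfl⟩ := str_mem.1 hχ
  rw [str_gam, div_le_iff₀' (by exact_mod_cast Nat.totient_pos.2 hr), ← str_cnt n r hr,
    gau_sum_zmod, strG]
  refine norm_sum_le_of_le _ fun m _ => ?_
  rw [strI]
  split_ifs with h
  · exact ψ.norm_le_one _
  · rw [ψ.map_nonunit h, norm_zero]

lemma str_tau {ε : ℝ} (hε : 0 < ε) : ∃ C : ℝ, 0 < C ∧ ∀ r : ℕ, 0 < r →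
    (r.divisors.card : ℝ) ≤ C * (r : ℝ) ^ ε := by
  obtain ⟨C, hC, h⟩ := MP_fb430f_co.div_bound hε
  refine ⟨C, hC, fun r hr => le_trans ?_ (h r hr.ne')⟩
  rw [Nat.card_divisors hr.ne']
  exact_mod_cast prod_le_prod' fun p _ => by omega

lemma str_small {r n : ℕ} {χ : ℕ → ℂ} (hr : 0 < r) (hχ : χ ∈ prim r) (h0 : gam r χ n ≠ 0)
    (h : ∀ p, p.Prime → p ∣ n → p ∣ r → p = 2) :
    ‖gam r χ n‖ ≤ 6 * (r.divisors.card : ℝ) ^ 2 / √(r : ℝ) := by
  have : NeZero r := ⟨hr.ne'⟩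
  obtain ⟨ψ, hψ, rfl⟩ := str_mem.1 hχ
  have g : n.gcd r ∣ 8 := by
    have a1 := Nat.eq_prime_pow_of_unique_prime_dvd (p := 2) (Nat.gcd_pos_of_pos_right n hr).ne'
      fun {p} hp hd => h p hp (hd.trans (Nat.gcd_dvd_left _ _)) (hd.trans (Nat.gcd_dvd_right _ _))
    rw [a1]
    refine pow_dvd_pow 2 (n := 3) (not_lt.1 fun h4 => ?_)
    have a2 : 16 ∣ n.gcd r := a1 ▸ pow_dvd_pow 2 (m := 4) h4
    obtain ⟨c, rfl⟩ : ∃ c, r = 2 * (8 * c) :=
      (a2.trans (Nat.gcd_dvd_right _ _)).imp fun c hc => by omega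
    refine str_ne h0 (str_zero Nat.prime_two ψ hψ
      (Dvd.dvd.trans (by norm_num) (a2.trans (Nat.gcd_dvd_left _ _))) fun s => ?_)
    have a3 : ((2 * (8 * c) : ℕ) : ZMod (2 * (8 * c))) = 0 := natCast_self _
    push_cast at a3 ⊢
    exact ⟨1 + s * (4 * c), by linear_combination s ^ 2 * c * a3⟩
  have a1 := str_G_le ψ hψ g
  have a2 : (r : ℝ) ≤ r.divisors.card * r.totient := by
    have := sum_le_card_nsmul r.divisors Nat.totient r.totient fun d hd =>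
      Nat.le_of_dvd (Nat.totient_pos.2 hr) (Nat.totient_dvd_of_dvd (Nat.dvd_of_mem_divisors hd))
    rw [Nat.sum_totient] at this
    exact_mod_cast this
  have r0 : (0 : ℝ) < r := by exact_mod_cast hr
  have f0 : (0 : ℝ) < r.totient := by exact_mod_cast Nat.totient_pos.2 hr
  rw [str_gam]
  refine (pow_le_pow_iff_left₀ (by positivity) (by positivity) two_ne_zero).1 ?_
  rw [div_pow, div_pow, Real.sq_sqrt r0.le, div_le_div_iff₀ (by positivity) r0]
  refine le_of_mul_le_mul_left ?_ f0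
  have a3 := pow_le_pow_left₀ r0.le a2 3
  have a4 : (0 : ℝ) ≤ r.divisors.card := by positivity
  calc _ = r.totient * ‖strG ψ n‖ ^ 2 * r := by ring
    _ ≤ 32 * r.divisors.card * (r : ℝ) ^ 2 * r := by gcongr
    _ = 32 * r.divisors.card * (r : ℝ) ^ 3 := by ring
    _ ≤ 36 * r.divisors.card * (r.divisors.card * r.totient : ℝ) ^ 3 := by gcongr; norm_num
    _ = _ := by ring

theorem blk_STR (_hPB : St_PB) (_hG : St_GAU) : St_STR := by
  intro ε hε
  obtain ⟨C1, c1, h1⟩ := str_tau (half_pos hε)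
  obtain ⟨C2, c2, h2⟩ := str_tau (ε := 1 / 16) (by norm_num)
  obtain ⟨C3, c3, h3⟩ := sing2_pow_omega 8 (1 / 8) (by norm_num) (by norm_num)
  refine ⟨6 * C1 ^ 2 + 6 * C2 ^ 2 * C3, by positivity, fun W0 r n χ hW hr hχ h0 => ?_⟩
  have w2 : 2 ∣ W0.factorial := Nat.dvd_factorial two_pos hW
  obtain ⟨q, ψ, a1, a2, a3, a4, a5⟩ := str_set n
    (r.primeFactors.filter fun p => p ∣ n ∧ ¬ p ∣ W0.factorial) (fun p hp => by
      obtain ⟨b1, b2, b3⟩ := mem_filter.1 hp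
      exact ⟨Nat.prime_of_mem_primeFactors b1, fun e => b3 (e ▸ w2), b2⟩) hr
    (fun p hp => Nat.dvd_of_mem_primeFactors (mem_filter.1 hp).1) hχ h0
  have q0 : 0 < q := Nat.pos_of_mul_pos_left (a1 ▸ hr)
  have g0 : gam q ψ n ≠ 0 := norm_ne_zero_iff.1 (a5 ▸ norm_ne_zero_iff.2 h0)
  obtain ⟨q', ψ', b1, b2, b3, -, b5⟩ := str_set n
    (q.primeFactors.filter fun p => p ≠ 2 ∧ p ∣ n) (fun p hp =>
      ⟨Nat.prime_of_mem_primeFactors (mem_filter.1 hp).1, (mem_filter.1 hp).2⟩) q0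
    (fun p hp => Nat.dvd_of_mem_primeFactors (mem_filter.1 hp).1) a3 g0
  have q1 : 0 < q' := Nat.pos_of_mul_pos_left (b1 ▸ q0)
  have qq : q' ∣ q := Dvd.intro_left _ b1.symm
  have qr : q ∣ r := Dvd.intro_left _ a1.symm
  have mW : (∏ p ∈ q.primeFactors.filter fun p => p ≠ 2 ∧ p ∣ n, p) ∣ W0.factorial := by
    refine prod_primes_dvd _ (fun p hp => (Nat.prime_of_mem_primeFactors (mem_filter.1 hp).1).prime)
      fun p hp => by_contra fun hw => ?_
    obtain ⟨d1, -, d2⟩ := mem_filter.1 hp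
    exact (Nat.prime_of_mem_primeFactors d1).one_lt.ne' (Nat.eq_one_of_dvd_coprimes a2
      (dvd_prod_of_mem _ (mem_filter.2 ⟨Nat.primeFactors_mono qr hr.ne' d1, d2, hw⟩))
      (Nat.dvd_of_mem_primeFactors d1))
  have k := str_small q1 b3 (norm_ne_zero_iff.1 (b5 ▸ norm_ne_zero_iff.2 g0)) fun p hp hn hq =>
    by_contra fun h => hp.one_lt.ne' (Nat.eq_one_of_dvd_coprimes b2 (dvd_prod_of_mem _
      (mem_filter.2 ⟨Nat.mem_primeFactors.2 ⟨hp, hq.trans qq, q0.ne'⟩, h, hn⟩)) hq)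
  rw [← b5, ← a5] at k
  have r0 : (0 : ℝ) < q := by exact_mod_cast q0
  have r1 : (0 : ℝ) < q' := by exact_mod_cast q1
  refine ⟨q, ψ, ⟨a1, a2, a3, a4⟩, str_le_loc hr hχ, k.trans ?_, fun hq => k.trans ?_⟩
  · have d1 : (q'.divisors.card : ℝ) ≤ C1 * (q : ℝ) ^ (ε / 2) := le_trans
      (by exact_mod_cast card_le_card (Nat.divisors_subset_of_dvd q0.ne' qq)) (h1 q q0)
    have d2 : √(q : ℝ) ≤ √(W0.factorial : ℝ) * √(q' : ℝ) := by
      rw [← Real.sqrt_mul (by positivity)]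
      refine Real.sqrt_le_sqrt ?_
      exact_mod_cast b1.trans_le (Nat.mul_le_mul_right _ (Nat.le_of_dvd W0.factorial_pos mW))
    have d3 : ((q : ℝ) ^ (ε / 2)) ^ 2 = (q : ℝ) ^ (-(1 / 2 : ℝ) + ε) * √(q : ℝ) := by
      rw [Real.sqrt_eq_rpow, ← Real.rpow_add r0, ← Real.rpow_two, ← Real.rpow_mul r0.le]
      congr 1
      ring
    rw [div_le_iff₀ (Real.sqrt_pos.2 r1)]
    clear a1 a4 b1
    calc _ ≤ 6 * (C1 * (q : ℝ) ^ (ε / 2)) ^ 2 := by gcongr
      _ = 6 * C1 ^ 2 * (q : ℝ) ^ (-(1 / 2 : ℝ) + ε) * √(q : ℝ) := by rw [mul_pow, d3]; ring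
      _ ≤ (6 * C1 ^ 2 + 6 * C2 ^ 2 * C3) * (q : ℝ) ^ (-(1 / 2 : ℝ) + ε) *
          (√(W0.factorial : ℝ) * √(q' : ℝ)) := by
        gcongr
        exact le_add_of_nonneg_right (by positivity)
      _ = _ := by ring
  · have d1 : W0 ≤ q' := not_lt.1 fun h => hq
      (b1 ▸ b2.mul_dvd_of_dvd_of_dvd mW (Nat.dvd_factorial q1 h.le))
    have d2 : loc q' n = loc r n := by
      refine prod_subset (Nat.primeFactors_mono (qq.trans qr) hr.ne') fun p hp hp' => ?_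
      have pp := Nat.prime_of_mem_primeFactors hp
      have pn : p ∣ n := by
        rcases (Nat.Prime.dvd_mul pp).1 (a1 ▸ Nat.dvd_of_mem_primeFactors hp) with h | h
        · obtain ⟨i, hi, h⟩ := (pp.prime.dvd_finsetProd_iff _).1 h
          exact h.trans (mem_filter.1 hi).2.1
        rcases (Nat.Prime.dvd_mul pp).1 (b1 ▸ h) with h | h
        · obtain ⟨i, hi, h⟩ := (pp.prime.dvd_finsetProd_iff _).1 h
          exact h.trans (mem_filter.1 hi).2.2
        · exact (hp' (Nat.mem_primeFactors.2 ⟨pp, h, q1.ne'⟩)).elim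
      have : NeZero p := ⟨pp.ne_zero⟩
      rw [fn, jacobiSym.eq_zero_iff_not_coprime.2 (by
        rw [Int.gcd_natCast_natCast, Nat.gcd_eq_right pn]
        exact pp.one_lt.ne')]
      simp
    have d3 : 1 ≤ 8 ^ q'.primeFactors.card * loc r n := by
      rw [← d2, loc, ← prod_const, ← prod_mul_distrib]
      exact Finset.one_le_prod fun p hp => by
        linarith [(abs_le.1 (sing2_fn_prime' n p (Nat.prime_of_mem_primeFactors hp))).1]
    have d4 : 0 ≤ loc r n := (norm_nonneg _).trans (str_le_loc hr hχ)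
    have d5 : ((q' : ℝ) ^ (1 / 16 : ℝ)) ^ 2 * (q' : ℝ) ^ (1 / 8 : ℝ) =
        (q' : ℝ) ^ (-(1 / 4 : ℝ)) * √(q' : ℝ) := by
      rw [Real.sqrt_eq_rpow, ← Real.rpow_add r1, ← Real.rpow_two, ← Real.rpow_mul r1.le,
        ← Real.rpow_add r1]
      norm_num
    have d6 : (q' : ℝ) ^ (-(1 / 4 : ℝ)) ≤ (W0 : ℝ) ^ (-(1 / 4 : ℝ)) :=
      Real.rpow_le_rpow_of_nonpos (by exact_mod_cast (by omega : 0 < W0)) (by exact_mod_cast d1)
        (by norm_num)
    have d7 := h2 q' q1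
    have d8 := h3 q' q1
    rw [div_le_iff₀ (Real.sqrt_pos.2 r1)]
    clear a1 a4 b1
    calc _ ≤ 6 * (q'.divisors.card : ℝ) ^ 2 * (8 ^ q'.primeFactors.card * loc r n) :=
          le_mul_of_one_le_right (by positivity) d3
      _ ≤ 6 * (C2 * (q' : ℝ) ^ (1 / 16 : ℝ)) ^ 2 * (C3 * (q' : ℝ) ^ (1 / 8 : ℝ) * loc r n) := by
        gcongr
      _ = 6 * C2 ^ 2 * C3 * (((q' : ℝ) ^ (1 / 16 : ℝ)) ^ 2 * (q' : ℝ) ^ (1 / 8 : ℝ)) * loc r n := by
        ring
      _ = 6 * C2 ^ 2 * C3 * (q' : ℝ) ^ (-(1 / 4 : ℝ)) * loc r n * √(q' : ℝ) := by rw [d5]; ring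
      _ ≤ _ := by
        gcongr
        exact le_add_of_nonneg_left (by positivity)

end Pool.Agent.Lib.PS
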