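import Pool.Agent.Lib.PS.SW1

/-! The two sieve weights. -/

namespace Pool.Agent.Lib.PS

open Real MeasureTheory Filter Topology Set intervalIntegral
open ArithmeticFunction (moebius)
open scoped ContDiff

theorem sw_seg {a b l : ℝ} (hl : 0 < l) {n : ℕ} (hn : n ∈ seg a b l) :
    Real.log n / l ∈ Icc a b := by
  obtain ⟨h1, h2⟩ := Finset.mem_Ioc.1 hn
  have h3 : Real.exp (a * l) < n := (Nat.floor_lt (Real.exp_pos _).le).1 h1
  have h4 : (n : ℝ) ≤ Real.exp (b * l) := (Nat.le_floor_iff (Real.exp_pos _).le).1 h2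
  have h5 : (0 : ℝ) < n := (Real.exp_pos _).trans h3
  exact ⟨(le_div_iff₀ hl).2 ((Real.le_log_iff_exp_le h5).2 h3.le),
    (div_le_iff₀ hl).2 ((Real.log_le_iff_le_exp h5).2 h4)⟩

theorem sw_lim (hG : St_GV) {P : ℝ → ℝ} (hP : ContDiff ℝ ∞ P) (hPc : HasCompactSupport P)
    {a b δ : ℝ} (ha : 0 < a) (hab : a ≤ b) {H R : ℝ → ℝ} (hH : ContinuousOn H (Icc a b))
    (h0 : ∀ t ∈ Icc a b, 0 ≤ H t) (hR : ContinuousOn R (Icc a b)) {B : ℝ}
    (hB : ∀ t, 0 ≤ t → ∫ s in (0 : ℝ)..t, deriv P s ^ 2 ≤ B)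
    (hPR : ∀ t ∈ Icc a b, ∫ s in (0 : ℝ)..t, deriv P s ^ 2 ≤ R t) (hδ : 0 < δ) :
    ∀ᶠ l : ℝ in atTop, ∑ n ∈ seg a b l, dsum (fun d => (moebius d : ℝ) * P (Real.log d / l)) n ^ 2 *
      H (Real.log n / l) / n ≤ (∫ t in a..b, H t * R t) + δ := by
  have hc : Continuous fun s => deriv P s ^ 2 := (hP.continuous_deriv (by simp)).pow 2
  have hQ : Continuous fun t => ∫ s in (0 : ℝ)..t, deriv P s ^ 2 :=
    continuous_primitive (fun _ _ => hc.intervalIntegrable _ _) 0
  obtain ⟨F, F1, F2, F3, F4, F5, F6⟩ := sw_maj ha hab hH h0 hQ (B := B)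
    (fun t ht => ⟨integral_nonneg ht fun s _ => sq_nonneg _, hB t ht⟩) (half_pos hδ)
  have h1 := hG P F hP hPc F1 (HasCompactSupport.intro isCompact_Icc F2)
  have h2 := integral_mono_on hab ((hH.mul hQ.continuousOn).intervalIntegrable_of_Icc (μ := volume) hab)
    ((hH.mul hR).intervalIntegrable_of_Icc hab)
    fun t ht => mul_le_mul_of_nonneg_left (hPR t ht) (h0 t ht)
  simp only [Pi.mul_apply] at h2
  filter_upwards [h1.eventually (eventually_le_nhds (b := (∫ t in a..b, H t * R t) + δ)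
    (by rw [F3]; linarith)), eventually_gt_atTop 0] with l hl hl0
  refine le_trans ?_ hl
  set g : ℕ → ℝ := fun n => dsum (fun d => (moebius d : ℝ) * P (Real.log d / l)) n ^ 2 *
    F (Real.log n / l) / n with hg
  have hs : Summable g := summable_of_ne_finset_zero
    (s := Finset.range (⌊Real.exp ((b + 1) * l)⌋₊ + 1)) fun n hn => by
      have h3 : Real.exp ((b + 1) * l) < n :=
        (Nat.floor_lt (Real.exp_pos _).le).1 (by simpa using hn)
      have h4 := (Real.lt_log_iff_exp_lt ((Real.exp_pos _).trans h3)).2 h3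
      simp only [hg]
      rw [F2 _ fun h => absurd ((div_le_iff₀ hl0).1 h.2) (not_le.2 h4), mul_zero, zero_div]
  have h3 := hs.tsum_eq_zero_add
  rw [show g 0 = 0 by simp [hg], zero_add] at h3
  refine le_trans (Finset.sum_le_sum fun n hn => ?_) ((hs.sum_le_tsum (seg a b l) fun n _ =>
    div_nonneg (mul_nonneg (sq_nonneg _) (F4 _)) n.cast_nonneg).trans h3.le)
  gcongr
  exact F5 _ (sw_seg hl0 hn)

theorem sw_unif {S : ℝ → ℝ × ℝ → ℝ} {R : ℝ × ℝ → ℝ} {u x Λ ε : ℝ} (hε : 0 < ε) (hR : Continuous R)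
    (hm : ∀ l, 0 < l → ∀ y lm y' lm', u ≤ y → y ≤ y' → y' ≤ x → lm ≤ lm' →
      S l (y, lm) ≤ S l (y', lm'))
    (hl : ∀ y lm, u ≤ y → y ≤ x → ∀ᶠ l in atTop, S l (y, lm) ≤ R (y, lm) + ε / 2) :
    ∀ᶠ l in atTop, ∀ z ∈ Icc u x ×ˢ Icc 0 Λ, S l z ≤ R z + ε := by
  refine (isCompact_Icc.prod isCompact_Icc).induction_on
    (p := fun s => ∀ᶠ l in atTop, ∀ z ∈ s, S l z ≤ R z + ε) (by simp)
    (fun s t hst h => h.mono fun l h z hz => h z (hst hz))
    (fun s t hs ht => (hs.and ht).mono fun l h z hz => hz.elim (h.1 z) (h.2 z)) fun z hz => ?_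
  obtain ⟨r, hr, h1⟩ := Metric.continuousAt_iff.1 (hR.continuousAt (x := z)) (ε / 4) (by positivity)
  refine ⟨Metric.ball z (r / 2) ∩ Icc u x ×ˢ Icc 0 Λ,
    inter_mem (nhdsWithin_le_nhds (Metric.ball_mem_nhds _ (half_pos hr))) self_mem_nhdsWithin, ?_⟩
  have h2 : z.1 ≤ min (z.1 + r / 2) x := le_min (by linarith) hz.1.2
  filter_upwards [hl (min (z.1 + r / 2) x) (z.2 + r / 2) (hz.1.1.trans h2) (min_le_right _ _),
    eventually_gt_atTop 0] with l h3 hl0 w hw
  have h4 := hw.1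
  rw [Metric.mem_ball, Prod.dist_eq, max_lt_iff, Real.dist_eq, Real.dist_eq, abs_lt, abs_lt] at h4
  have h5 := hm l hl0 w.1 w.2 (min (z.1 + r / 2) x) (z.2 + r / 2) hw.2.1.1
    (le_min (by linarith [h4.1.2]) hw.2.1.2) (min_le_right _ _) (by linarith [h4.2.2])
  have h6 := h1 (x := w) ((Metric.mem_ball.1 hw.1).trans (half_lt_self hr))
  have h7 := h1 (x := (min (z.1 + r / 2) x, z.2 + r / 2)) (by
    rw [Prod.dist_eq, max_lt_iff, Real.dist_eq, Real.dist_eq, abs_lt, abs_lt]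
    have := min_le_left (z.1 + r / 2) x
    refine ⟨⟨?_, ?_⟩, ?_, ?_⟩ <;> linarith)
  rw [Real.dist_eq, abs_lt] at h6 h7
  linarith [h6.1, h7.2]

theorem blk_SW (hG : St_GV) : St_SW := by
  intro D Λm ε hD hε
  obtain ⟨L, hL⟩ := hD.G_lip
  have hw := hD.w_pos
  have hu := hD.u_pos
  have hux : D.u ≤ D.x := (hD.uv.trans hD.vx).le
  have hGc : ContinuousOn D.G (Icc D.u D.x) :=
    (LipschitzOnWith.of_dist_le' fun s hs t ht => hL s hs t ht).continuousOn
  have hG1 : ContinuousOn (fun t => 1 / D.G t) (Icc D.u D.x) :=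
    continuousOn_const.div hGc fun t ht => (hD.G_pos t ht).ne'
  obtain ⟨δ, hδ, -, -, hδ1⟩ := sw_small (C := ∫ t in D.u..D.x, 1 / D.G t) (half_pos hε) one_pos
  obtain ⟨P, P1, P2, P3, P4, P5⟩ := sw_prof hu.le hD.uv hD.p_cont hD.p_int hδ
  obtain ⟨T, T1, T2, T3, T4, T5⟩ := sw_prof (p := fun _ => 1 / D.w) le_rfl hw continuousOn_const
    (by simp [hw.ne']) (div_pos hε hw)
  have hp2 : ∀ a b, D.u ≤ a → a ≤ b → b ≤ D.v → IntervalIntegrable (fun s => D.p s ^ 2) volume a b :=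
    fun a b h1 h2 h3 => ((hD.p_cont.mono (Icc_subset_Icc h1 h3)).pow 2).intervalIntegrable_of_Icc h2
  have hQ : ContinuousOn (fun t => ∫ s in D.u..min t D.v, D.p s ^ 2) (Icc D.u D.x) := by
    have h1 := continuousOn_primitive_interval' (hp2 _ _ le_rfl hD.uv.le le_rfl) left_mem_uIcc
    rw [uIcc_of_le hD.uv.le] at h1
    exact h1.comp (by fun_prop) fun t ht => ⟨le_min ht.1 hD.uv.le, min_le_right _ _⟩
  have hc : Continuous fun s => deriv P s ^ 2 := (P1.continuous_deriv (by simp)).pow 2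
  have e1 := sw_lim hG P1 P2 hu hux hG1 (fun t ht => (one_div_pos.2 (hD.G_pos t ht)).le)
    (hQ.add continuousOn_const) (B := (∫ s in D.u..D.v, D.p s ^ 2) + δ) (fun t ht => by
      have h1 := P5 (max t D.v) (hD.uv.le.trans (le_max_right _ _))
      rw [min_eq_right (le_max_right _ _), ← integral_add_adjacent_intervals (b := t)
        (hc.intervalIntegrable _ _) (hc.intervalIntegrable _ _)] at h1
      linarith [integral_nonneg (μ := volume) (le_max_left t D.v) fun s _ => sq_nonneg (deriv P s)])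
    (fun t ht => P5 t ht.1) (half_pos hε)
  have hT : ∀ t, 0 ≤ t → ∫ s in (0 : ℝ)..t, deriv T s ^ 2 ≤ (1 + ε) / D.w := fun t ht => by
    refine (T5 t ht).trans ?_
    rw [intervalIntegral.integral_const, smul_eq_mul, add_div, sub_zero]
    gcongr
    calc _ ≤ D.w * (1 / D.w) ^ 2 := by gcongr; exact min_le_right _ _
      _ = _ := by field_simp
  have hcl : ∀ t, max D.u (min t D.x) ∈ Icc D.u D.x := fun t =>
    ⟨le_max_left _ _, max_le hux (min_le_right _ _)⟩
  have hGe : Continuous fun t => D.G (max D.u (min t D.x)) := hGc.comp_continuous (by fun_prop) hcl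
  have hDn : ∀ y lm, D.u ≤ y → y ≤ D.x → ∫ t in D.u..y, D.G (max D.u (min t D.x)) *
      Real.exp (2 * lm * t) = D.Dn y lm := fun y lm h1 h2 => integral_congr fun t ht => by
    rw [uIcc_of_le h1] at ht
    beta_reduce
    rw [min_eq_left (ht.2.trans h2), max_eq_right ht.1]
  have e2 := sw_unif (u := D.u) (x := D.x) (Λ := Λm) hε
    (S := fun l z => ∑ n ∈ seg D.u z.1 l, dsum (fun d => (moebius d : ℝ) * T (Real.log d / l)) n ^ 2 *
      (D.G (Real.log n / l) * Real.exp (2 * z.2 * (Real.log n / l))) / n)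
    (R := fun z => (1 + ε) * (∫ t in D.u..z.1, D.G (max D.u (min t D.x)) *
      Real.exp (2 * z.2 * t)) / D.w)
    ((continuous_const.mul ((continuous_parametric_primitive_of_continuous (a₀ := D.u) (μ := volume)
      (f := fun lm t => D.G (max D.u (min t D.x)) * Real.exp (2 * lm * t))
      ((hGe.comp continuous_snd).mul (by fun_prop))).comp continuous_swap)).div_const _)
    (fun l hl y lm y' lm' h1 h2 h3 h4 => by
      have h5 : ∀ n ∈ seg D.u y' l, Real.log n / l ∈ Icc D.u D.x := fun n hn =>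
        ⟨(sw_seg hl hn).1, (sw_seg hl hn).2.trans h3⟩
      have h6 : seg D.u y l ⊆ seg D.u y' l :=
        Finset.Ioc_subset_Ioc_right (Nat.floor_le_floor (by gcongr))
      refine (Finset.sum_le_sum fun n hn => ?_).trans
        (Finset.sum_le_sum_of_subset_of_nonneg h6 fun n hn _ => ?_)
      · have h7 := h5 n (h6 hn)
        have h8 := (hD.G_pos _ h7).le
        have h9 := hu.le.trans h7.1
        gcongr
      · have h8 := (hD.G_pos _ (h5 n hn)).le
        positivity)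
    (fun y lm h1 h2 => by
      have h3 : Icc D.u y ⊆ Icc D.u D.x := Icc_subset_Icc_right h2
      refine (sw_lim hG T1 T2 hu h1 (H := fun t => D.G t * Real.exp (2 * lm * t))
        (R := fun _ => (1 + ε) / D.w)
        ((hGc.mono h3).mul (by fun_prop)) (fun t ht => mul_nonneg (hD.G_pos t (h3 ht)).le
          (Real.exp_pos _).le) continuousOn_const hT (fun t ht => hT t (hu.le.trans ht.1))
        (half_pos hε)).mono fun l hl => hl.trans (le_of_eq ?_)
      rw [hDn y lm h1 h2, intervalIntegral.integral_mul_const, DD.Dn]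
      ring)
  obtain ⟨M, hM⟩ := P1.continuous.bounded_above_of_compact_support P2
  obtain ⟨M', hM'⟩ := T1.continuous.bounded_above_of_compact_support T2
  obtain ⟨l0, h⟩ := eventually_atTop.1 ((e1.and e2).and ((eventually_gt_atTop 0).and
    ((eventually_ge_atTop M).and (eventually_ge_atTop M'))))
  refine ⟨l0, fun l hl => ?_⟩
  obtain ⟨⟨h1, h2⟩, hl0, h3, h4⟩ := h l hl
  have hμ : ∀ (d : ℕ) (y : ℝ), |(moebius d : ℝ) * y| ≤ |y| := fun d y => by
    rw [abs_mul]
    exact mul_le_of_le_one_left (abs_nonneg _)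
      (by exact_mod_cast ArithmeticFunction.abs_moebius_le_one)
  have hlog : ∀ (a : ℝ) (d : ℕ), Real.exp (a * l) < d → a ≤ Real.log d / l := fun a d hd =>
    (le_div_iff₀ hl0).2 ((Real.le_log_iff_exp_le ((Real.exp_pos _).trans hd)).2 hd.le)
  refine ⟨fun d => (moebius d : ℝ) * P (Real.log d / l), fun d => (moebius d : ℝ) * T (Real.log d / l),
    by simp [T3 0 ⟨le_rfl, le_rfl⟩], fun d => ⟨(hμ _ _).trans ((hM _).trans h3),
      (hμ _ _).trans ((hM' _).trans h4)⟩, fun d hd => ?_, fun d hd => ?_, fun d hd => ?_, ?_,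
    fun y lm a1 a2 a3 a4 => ?_⟩
  · rcases d.eq_zero_or_pos with rfl | h0
    · simp
    · beta_reduce
      rw [P3 _ ⟨div_nonneg (Real.log_natCast_nonneg d) hl0.le, (div_le_iff₀ hl0).2
        ((Real.log_le_iff_le_exp (by exact_mod_cast h0)).2 hd)⟩, mul_one]
  · beta_reduce
    rw [P4 _ (le_trans (by linarith) (hlog _ d hd)), mul_zero]
  · beta_reduce
    rw [T4 _ (hlog _ d hd), mul_zero]
  · refine le_trans (le_of_eq (Finset.sum_congr rfl fun n _ => by ring)) (h1.trans ?_)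
    have h5 : ∫ t in D.u..D.x, 1 / D.G t * ((∫ s in D.u..min t D.v, D.p s ^ 2) + δ) =
        D.V + δ * ∫ t in D.u..D.x, 1 / D.G t := by
      rw [DD.V, ← intervalIntegral.integral_const_mul, ← integral_add
        ((hQ.div₀ hGc fun t ht => (hD.G_pos t ht).ne').intervalIntegrable_of_Icc hux)
        ((continuousOn_const.fun_mul hG1).intervalIntegrable_of_Icc hux)]
      exact integral_congr fun t _ => by ring
    simp only [Pi.add_apply]
    linarith
  · have h5 := h2 (y, lm) ⟨⟨a1, a2⟩, a3, a4⟩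
    simp only [hDn y lm a1 a2] at h5
    exact le_trans (le_of_eq (Finset.sum_congr rfl fun n _ => by ring)) h5

end Pool.Agent.Lib.PS
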