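import Pool.Agent.Lib.PS.SMALL

/-! Block TAIL: the total contribution of a family of relevant characters. -/

namespace Pool.Agent.Lib.PS

open Finset Real Complex
open scoped Classical

theorem blk_TAIL (hF : St_FAM) (_hC : St_CANC) (hX : St_LDX) (hP : St_PSI) (hD : St_DC) :
    St_TAIL := by
  intro α K cg h3 h4 hK hK1 hcg hcg1
  obtain ⟨c, eF, hc, hc', heF, hf⟩ := hF.2 (1 / 100) (by norm_num)
  obtain ⟨C, c1, η, l0, hC, hc1, hη, h⟩ := hP c α K cg hc hc' h3 h4 hK hK1 hcg hcg1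
  obtain ⟨l1, hl1⟩ := hX.1 c η hc hc' hη
  obtain ⟨CD, eD, l3, hCD, heD, hd⟩ :=
    hD c (1 / 4 + 1 / 100) (11 / 20) hc hc' (by norm_num) (by norm_num)
  obtain ⟨c', hc0, hc'1, hc'2⟩ : ∃ c' : ℝ, 0 < c' ∧ c' ≤ c1 ∧ c' ≤ eD :=
    ⟨min c1 eD, lt_min hc1 heD, min_le_left _ _, min_le_right _ _⟩
  refine ⟨C * CD + CD, c' / 4, min eF (c' / 8), by positivity, by positivity,
    lt_min heF (by positivity), fun W hW hWe => ?_⟩
  have u1 := min_le_left eF (c' / 8)
  have u2 := min_le_right eF (c' / 8)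
  obtain ⟨l2, hl2⟩ := hf W hW hWe
  obtain ⟨D, hD0, hτ⟩ := small_tau (ε := c' / 20) (by linarith)
  refine ⟨max (max 1 (4 * (D * (1 + C)) / c')) (max (max l0 l3) (max l1 l2)),
    fun l hl n R F hn hn' hR hRF => ?_⟩
  simp only [max_le_iff] at hl
  obtain ⟨⟨a1, a0⟩, ⟨a2, a5⟩, a3, a4⟩ := hl
  have hl0 : 0 < l := by linarith
  have hR' : (R : ℝ) ≤ Real.exp (eF * l) := hR.trans (Real.exp_le_exp.2 (by nlinarith))
  have base : ∀ x ∈ F, CM (tw W x.2) ∧ Canc (tw W x.2) c (Real.exp ((1 / 4 + 1 / 100) * l)) ∧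
      ∀ y ∈ F, x ≠ y →
        Canc (tw W x.2 * cj (tw W y.2)) c (Real.exp ((1 / 4 + 1 / 100) * l)) := by
    intro x hx
    obtain ⟨x1, x2, x3⟩ := hRF.1 x hx
    obtain ⟨k1, k2, -, k4⟩ := hl2 l a4 n R x hR' x1 x2 x3
    have hM := hRF.2 x hx x hx
    rw [Nat.lcm_self] at hM
    refine ⟨k1, k2 1 zero_le_one (by norm_num) (by rwa [one_mul]), fun y hy hxy => ?_⟩
    obtain ⟨y1, y2, y3⟩ := hRF.1 y hy
    exact k4 y y1 y2 y3 hxy (hRF.2 x hx y hy)
  have ld : ∀ x ∈ F, LD (lam (tw W x.2)) (LL (tw W x.2)) 0 c l (1 / 4 + 1 / 100) η (l ^ 2) :=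
    fun x hx => hl1 l a3 _ _ (base x hx).1 (by norm_num) (by norm_num) (base x hx).2.1
  have dens : ∀ (J : Finset XX) (ρ : XX → ℂ), J ⊆ F →
      (∀ x ∈ J, LL (tw W x.2) (ρ x) = 0 ∧ 1 - eD ≤ (ρ x).re ∧ |(ρ x).im| ≤ l) →
      ∑ x ∈ J, Real.exp (-(2 * (11 / 20) * ((1 - (ρ x).re) * l))) ≤ CD := by
    intro J ρ hJ hρ
    refine hd l a5 XX J (fun x => tw W x.2) ρ (fun x hx => ?_)
      fun x hx y hy hxy => (base x (hJ hx)).2.2 y (hJ hy) hxy
    obtain ⟨r1, r2, r3⟩ := hρ x hx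
    refine ⟨(base x (hJ hx)).1, (base x (hJ hx)).2.1, r1, r2, ?_, r3⟩
    by_contra hcon
    exact ((ld x (hJ hx)).ser _ (not_le.1 hcon)).1 r1
  constructor
  · intro lm hlm hZ
    have key : ∀ x ∈ F, ‖psiT (tw W x.2) l cg α K‖ ≤ (1 + C) * Real.exp (-(c' * l)) ∨
        ∃ ρ : ℂ, (LL (tw W x.2) ρ = 0 ∧ 1 - eD ≤ ρ.re ∧ |ρ.im| ≤ l) ∧
          ‖psiT (tw W x.2) l cg α K‖ ≤ (1 + C) * Real.exp (-(c' * l)) +
            C * Real.exp (-(3 / 2 * lm)) * Real.exp (-(2 * (11 / 20) * ((1 - ρ.re) * l))) := by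
      intro x hx
      have hL := ld x hx
      obtain ⟨Z, z1, z2, z3, z4, -⟩ := h l a2 _ _ _ _ _ hL le_rfl zero_le_one (by norm_num)
        (by norm_num) (sq_nonneg l)
      have z6 : ‖(Z.map (Hs (l / cg) α K)).sum‖ ≤ (Z.map fun z => ‖Hs (l / cg) α K z‖).sum := by
        simpa [Multiset.map_map] using norm_multiset_sum_le (Z.map (Hs (l / cg) α K))
      have z7 : ∀ m : ℝ, 0 ≤ m → (∀ z ∈ Z, m ≤ z.re) → ‖psiT (tw W x.2) l cg α K‖ ≤
          Real.exp (-(c' * l)) + C * Real.exp (-(11 / 4 * m)) := by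
        intro m hm hall
        have z5 := z4 m hm
        rw [Multiset.filter_eq_self.2 hall] at z5
        have e : psiT (tw W x.2) l cg α K =
            (Ks (lam (tw W x.2)) (hs (l / cg) α K) l 0 - ((0 : ℝ) : ℂ)
              + (Z.map (Hs (l / cg) α K)).sum) - (Z.map (Hs (l / cg) α K)).sum := by
          simp [psiT]
        rw [e]
        refine (norm_sub_le _ _).trans (add_le_add (z3.trans ?_) ((z6.trans z5).trans ?_))
        · exact Real.exp_le_exp.2 (by nlinarith)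
        · exact mul_le_mul_of_nonneg_left (Real.exp_le_exp.2 (by nlinarith)) hC.le
      by_cases hall : ∀ z ∈ Z, eD * l ≤ z.re
      · left
        have t1 := z7 (eD * l) (by positivity) hall
        have t2 : Real.exp (-(11 / 4 * (eD * l))) ≤ Real.exp (-(c' * l)) :=
          Real.exp_le_exp.2 (by nlinarith)
        nlinarith
      · right
        push Not at hall
        obtain ⟨z0, hz0, hz0'⟩ := hall
        obtain ⟨z, hz, hmin⟩ := Z.toFinset.exists_min_image (fun z => z.re)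
          ⟨z0, Multiset.mem_toFinset.2 hz0⟩
        have hzZ := Multiset.mem_toFinset.1 hz
        have m1 : ∀ w ∈ Z, z.re ≤ w.re := fun w hw => hmin w (Multiset.mem_toFinset.2 hw)
        obtain ⟨j1, j2, -, j3⟩ := small_zero hX hc hc' hl0 hL z1 hzZ (z2 z hzZ).2
        have m0 := (z2 z hzZ).1
        have m2 : z.re / l ≤ eD := by
          rw [div_le_iff₀ hl0]
          linarith [m1 z0 hz0]
        have m3 : lm ≤ z.re := by
          rcases hZ with rfl | hZ
          · exact m0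
          · by_contra hcon
            refine hZ x hx ⟨_, ?_, j3, j1⟩
            rw [j2]
            have : z.re / l ≤ lm / l := div_le_div_of_nonneg_right (not_le.1 hcon).le hl0.le
            linarith
        refine ⟨1 - z / l, ⟨j1, by rw [j2]; linarith, j3.trans a1⟩, ?_⟩
        have e : (1 - (1 - z / (l : ℂ)).re) * l = z.re := by
          rw [j2]
          field_simp
          ring
        rw [e, mul_assoc C, ← Real.exp_add]
        have t1 := z7 z.re m0 m1
        have t2 : Real.exp (-(11 / 4 * z.re)) ≤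
            Real.exp (-(3 / 2 * lm) + -(2 * (11 / 20) * z.re)) := Real.exp_le_exp.2 (by linarith)
        have t3 := mul_le_mul_of_nonneg_left t2 hC.le
        have t4 : 0 ≤ C * Real.exp (-(c' * l)) := by positivity
        linarith
    set J := F.filter fun x => ¬ ‖psiT (tw W x.2) l cg α K‖ ≤ (1 + C) * Real.exp (-(c' * l))
      with hJ
    have ex : ∀ x : XX, ∃ ρ : ℂ, x ∈ J → (LL (tw W x.2) ρ = 0 ∧ 1 - eD ≤ ρ.re ∧ |ρ.im| ≤ l) ∧
        ‖psiT (tw W x.2) l cg α K‖ ≤ (1 + C) * Real.exp (-(c' * l)) +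
          C * Real.exp (-(3 / 2 * lm)) * Real.exp (-(2 * (11 / 20) * ((1 - ρ.re) * l))) := by
      intro x
      by_cases hx : x ∈ J
      · obtain ⟨h1, h2⟩ := Finset.mem_filter.1 hx
        obtain ⟨ρ, hρ⟩ := (key x h1).resolve_left h2
        exact ⟨ρ, fun _ => hρ⟩
      · exact ⟨0, fun h => absurd h hx⟩
    choose ρ hρ using ex
    have s1 := dens J ρ (Finset.filter_subset _ _) fun x hx => (hρ x hx).1
    have s2 : ∑ x ∈ F, ‖psiT (tw W x.2) l cg α K‖ ≤
        ∑ x ∈ F, ((1 + C) * Real.exp (-(c' * l)) + if x ∈ J then C * Real.exp (-(3 / 2 * lm)) *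
          Real.exp (-(2 * (11 / 20) * ((1 - (ρ x).re) * l))) else 0) := by
      refine Finset.sum_le_sum fun x hx => ?_
      split_ifs with hxJ
      · exact (hρ x hxJ).2
      · rw [add_zero]
        by_contra hcon
        exact hxJ (Finset.mem_filter.2 ⟨hx, hcon⟩)
    rw [Finset.sum_add_distrib, Finset.sum_ite_mem,
      Finset.inter_eq_right.2 (Finset.filter_subset _ _), Finset.sum_const, nsmul_eq_mul,
      ← Finset.mul_sum] at s2
    have hcard : (F.card : ℝ) ≤ D * Real.exp (c' * l / 2) := by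
      have c0 : F ⊆ (PP (F.sup fun x => x.1)).filter (Rel n W R) := by
        intro x hx
        obtain ⟨x1, x2, x3⟩ := hRF.1 x hx
        exact Finset.mem_filter.2 ⟨Finset.mem_sigma.2 ⟨Finset.mem_Icc.2
          ⟨x1, Finset.le_sup (f := fun x : XX => x.1) hx⟩, x2⟩, x3⟩
      have c1 : F.card ≤ n.divisors.card * R ^ 2 :=
        (Finset.card_le_card c0).trans (hF.1 n W R _ hn)
      have c2 : (n : ℝ) ^ (c' / 20) ≤ Real.exp (c' * l / 4) := by
        refine (Real.rpow_le_rpow (Nat.cast_nonneg n) hn' (by linarith)).trans (le_of_eq ?_)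
        rw [← Real.exp_mul]
        congr 1
        ring
      have c3 : (R : ℝ) ^ 2 ≤ Real.exp (c' * l / 4) := by
        refine (pow_le_pow_left₀ (Nat.cast_nonneg R) hR 2).trans ?_
        rw [← Real.exp_nat_mul]
        refine Real.exp_le_exp.2 ?_
        push_cast
        nlinarith
      have c4 := (hτ n hn.ne').trans (mul_le_mul_of_nonneg_left c2 hD0.le)
      calc _ ≤ ((n.divisors.card * R ^ 2 : ℕ) : ℝ) := by exact_mod_cast c1
        _ = (n.divisors.card : ℝ) * (R : ℝ) ^ 2 := by push_cast; ring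
        _ ≤ D * Real.exp (c' * l / 4) * Real.exp (c' * l / 4) :=
          mul_le_mul c4 c3 (by positivity) (by positivity)
        _ = _ := by
          rw [mul_assoc, ← Real.exp_add]
          congr 2
          ring
    have hbig : D * (1 + C) ≤ Real.exp (c' * l / 4) := by
      rw [div_le_iff₀ hc0] at a0
      have := Real.add_one_le_exp (c' * l / 4)
      linarith
    have s3 : (F.card : ℝ) * ((1 + C) * Real.exp (-(c' * l))) ≤ Real.exp (-(c' / 4 * l)) := by
      calc _ ≤ D * Real.exp (c' * l / 2) * ((1 + C) * Real.exp (-(c' * l))) :=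
            mul_le_mul_of_nonneg_right hcard (by positivity)
        _ = D * (1 + C) * (Real.exp (c' * l / 2) * Real.exp (-(c' * l))) := by ring
        _ ≤ Real.exp (c' * l / 4) * (Real.exp (c' * l / 2) * Real.exp (-(c' * l))) :=
            mul_le_mul_of_nonneg_right hbig (by positivity)
        _ = _ := by
            rw [← Real.exp_add, ← Real.exp_add]
            congr 1
            ring
    have s4 := mul_le_mul_of_nonneg_left s1
      (show 0 ≤ C * Real.exp (-(3 / 2 * lm)) by positivity)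
    have s5 : 0 ≤ CD * Real.exp (-(3 / 2 * lm)) := by positivity
    calc _ ≤ _ := s2
      _ ≤ Real.exp (-(c' / 4 * l)) + C * Real.exp (-(3 / 2 * lm)) * CD := add_le_add s3 s4
      _ ≤ _ := by linarith
  · intro lm hlm hlm' hZ
    have ex : ∀ x : XX, ∃ ρ : ℂ, x ∈ F → 1 - lm / l ≤ ρ.re ∧ |ρ.im| ≤ l ∧ LL (tw W x.2) ρ = 0 := by
      intro x
      by_cases hx : x ∈ F
      · obtain ⟨ρ, hρ⟩ := hZ x hx
        exact ⟨ρ, fun _ => hρ⟩
      · exact ⟨0, fun h => absurd h hx⟩
    choose ρ hρ using ex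
    have m2 : lm / l ≤ eD := by
      rw [div_le_iff₀ hl0]
      nlinarith
    have s1 := dens F ρ Subset.rfl fun x hx =>
      ⟨(hρ x hx).2.2, by linarith [(hρ x hx).1], (hρ x hx).2.1⟩
    have s2 : (F.card : ℝ) * Real.exp (-(2 * lm)) ≤ CD := by
      rw [← nsmul_eq_mul, ← Finset.sum_const]
      refine (Finset.sum_le_sum fun x hx => Real.exp_le_exp.2 ?_).trans s1
      have t1 : (1 - (ρ x).re) * l ≤ lm := by
        rw [← le_div_iff₀ hl0]
        linarith [(hρ x hx).1]
      linarith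
    rw [Real.exp_neg, ← div_eq_mul_inv, div_le_iff₀ (Real.exp_pos _)] at s2
    have s3 : 0 ≤ C * CD * Real.exp (2 * lm) := by positivity
    nlinarith

end Pool.Agent.Lib.PS
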