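import Pool.Agent.Lib.PS.VAR1

/-! The variance bound. -/

namespace Pool.Agent.Lib.PS

open Finset Real Complex
open scoped Classical ComplexConjugate

lemma var_uniq (q₁ q₂ : ℕ) (m₁ m₂ : ℤ) (h₁ : 0 < q₁) (h₂ : 0 < q₂) (c₁ : IsCoprime m₁ (q₁ : ℤ))
    (c₂ : IsCoprime m₂ (q₂ : ℤ)) (h : |(m₁ : ℝ) / q₁ - m₂ / q₂| < 1 / (q₁ * q₂)) :
    q₁ = q₂ ∧ m₁ = m₂ := by
  have p₁ : (0 : ℝ) < q₁ := by exact_mod_cast h₁
  have p₂ : (0 : ℝ) < q₂ := by exact_mod_cast h₂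
  have e : (m₁ : ℝ) / q₁ - m₂ / q₂ = ((m₁ * q₂ - m₂ * q₁ : ℤ) : ℝ) / (q₁ * q₂) := by
    push_cast
    field_simp
  rw [e, abs_div, abs_of_pos (mul_pos p₁ p₂), div_lt_div_iff_of_pos_right (mul_pos p₁ p₂)] at h
  have h0 : |m₁ * q₂ - m₂ * q₁| < 1 := by exact_mod_cast h
  have h1 : m₁ * q₂ = m₂ * q₁ := by
    have := Int.abs_lt_one_iff.mp h0
    linarith
  have d₁ : (q₁ : ℤ) ∣ q₂ := c₁.symm.dvd_of_dvd_mul_left ⟨m₂, by linarith⟩
  have d₂ : (q₂ : ℤ) ∣ q₁ := c₂.symm.dvd_of_dvd_mul_left ⟨m₁, by linarith⟩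
  have hq : q₁ = q₂ := Nat.dvd_antisymm (by exact_mod_cast d₁) (by exact_mod_cast d₂)
  subst hq
  exact ⟨rfl, mul_right_cancel₀ (by exact_mod_cast h₁.ne') h1⟩

lemma var_cop (a q : ℕ) (k : ℤ) (h : Nat.Coprime a q) : IsCoprime ((a : ℤ) + k * q) (q : ℤ) :=
  (Nat.isCoprime_iff_coprime.mpr h).add_mul_right_left k

lemma var_res (a b q : ℕ) (k l : ℤ) (ha : a < q) (hb : b < q)
    (h : (a : ℤ) + k * q = b + l * q) : a = b := by
  have h1 : ((a : ℤ) + k * q) % q = ((b : ℤ) + l * q) % q := by rw [h]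
  rw [Int.add_mul_emod_self_right, Int.add_mul_emod_self_right,
    Int.emod_eq_of_lt (by omega) (by omega), Int.emod_eq_of_lt (by omega) (by omega)] at h1
  exact_mod_cast h1

lemma var_near {α δ : ℝ} {a q : ℕ} (hq : 0 < q) (h : ¬ VarFar (α - a / q) δ) :
    ∃ k : ℤ, |α - (((a : ℤ) + k * q : ℤ) : ℝ) / q| < δ := by
  unfold VarFar at h
  push Not at h
  obtain ⟨k, hk⟩ := h
  refine ⟨k, ?_⟩
  have p : (0 : ℝ) < q := by exact_mod_cast hq
  have : α - (((a : ℤ) + k * q : ℤ) : ℝ) / q = α - a / q - k := by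
    push_cast
    field_simp
    ring
  rwa [this]

lemma var_sum_inv_sqrt (Q : ℕ) : ∑ q ∈ Icc 1 Q, 1 / √(q : ℝ) ≤ 2 * √(Q : ℝ) := by
  induction Q with
  | zero => simp
  | succ Q ih =>
    rw [Finset.sum_Icc_succ_top (by omega)]
    have h1 : (0 : ℝ) < √((Q + 1 : ℕ) : ℝ) := Real.sqrt_pos.mpr (by positivity)
    have h2 : √((Q + 1 : ℕ) : ℝ) ^ 2 = Q + 1 := by
      rw [Real.sq_sqrt (by positivity)]; push_cast; ring
    have h3 : √(Q : ℝ) ^ 2 = Q := Real.sq_sqrt (by positivity)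
    have h4 : 1 / √((Q + 1 : ℕ) : ℝ) ≤ 2 * √((Q + 1 : ℕ) : ℝ) - 2 * √(Q : ℝ) := by
      rw [div_le_iff₀ h1]
      nlinarith [sq_nonneg (√((Q + 1 : ℕ) : ℝ) - √(Q : ℝ))]
    linarith

/-- the Farey pairs -/
def varT (Q : ℕ) : Finset (Σ _ : ℕ, ℕ) :=
  (Icc 1 Q).sigma fun q => (range q).filter fun a => Nat.Coprime a q

lemma var_mem_T {Q : ℕ} {z : Σ _ : ℕ, ℕ} :
    z ∈ varT Q ↔ (1 ≤ z.1 ∧ z.1 ≤ Q) ∧ z.2 < z.1 ∧ Nat.Coprime z.2 z.1 := by
  simp [varT, Finset.mem_sigma]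

lemma var_gS (hG : St_GAU) (a q : ℕ) (hq : 0 < q) (h : Nat.Coprime a q) :
    ‖gS a q / q‖ ≤ √2 / √(q : ℝ) := by
  have p : (0 : ℝ) < q := by exact_mod_cast hq
  have h1 := hG.1 q a 0 hq (Nat.isCoprime_iff_coprime.mpr h)
  have h2 : ‖gS a q‖ ≤ √(2 * (q : ℝ)) := by
    unfold gS
    simpa using h1
  have h3 : 0 < √(q : ℝ) := Real.sqrt_pos.mpr p
  rw [norm_div, Complex.norm_natCast, div_le_div_iff₀ p h3]
  rw [Real.sqrt_mul (by norm_num)] at h2
  calc ‖gS a q‖ * √(q : ℝ) ≤ √2 * √(q : ℝ) * √(q : ℝ) := mul_le_mul_of_nonneg_right h2 h3.le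
    _ = √2 * q := by rw [mul_assoc, Real.mul_self_sqrt p.le]

lemma var_nu (hG : St_GAU) (Q : ℕ) (S : Finset ℕ) (α : ℝ) :
    ∑ x ∈ S, ((nu Q x : ℝ) : ℂ) * ee (x * α) =
      ∑ z ∈ varT Q, gS z.2 z.1 / z.1 * ∑ x ∈ S, ee (x * (α - z.2 / z.1)) := by
  simp only [Finset.mul_sum]
  rw [Finset.sum_comm]
  refine Finset.sum_congr rfl fun x _ => ?_
  unfold varT nu
  rw [Finset.sum_sigma]
  push_cast
  rw [Finset.sum_mul]
  refine Finset.sum_congr rfl fun q hq => ?_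
  rw [hG.2 q x (Finset.mem_Icc.mp hq).1, Finset.sum_mul]
  refine Finset.sum_congr rfl fun a _ => ?_
  rw [mul_assoc, ← var_ee_add]
  congr 2
  push_cast
  ring

lemma var_rest (hG : St_GAU) (Q q u v : ℕ) (a : ℤ) (α : ℝ) (hq : 0 < q)
    (ha : IsCoprime a (q : ℤ)) (hα : |α - a / q| ≤ 1 / (2 * q * Q)) :
    ‖∑ z ∈ (varT Q).filter (fun z => ¬ (z.1 = q ∧ (q : ℤ) ∣ a - z.2)),
        gS z.2 z.1 / z.1 * ∑ x ∈ Ioc u v, ee (x * (α - z.2 / z.1))‖
      ≤ √2 * √(Q : ℝ) * (3 * Q ^ 2 + q) := by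
  have pq : (0 : ℝ) < q := by exact_mod_cast hq
  have s2 : (0 : ℝ) ≤ √2 := Real.sqrt_nonneg _
  have sQ : (0 : ℝ) ≤ √(Q : ℝ) := Real.sqrt_nonneg _
  set fB : (Σ _ : ℕ, ℕ) → ℝ := fun z =>
    if ¬ VarFar (α - z.2 / z.1) (1 / (2 * z.1)) then √2 * Q ^ 2 * (1 / √(z.1 : ℝ)) else 0 with hfB
  set fC : (Σ _ : ℕ, ℕ) → ℝ := fun z =>
    if ¬ VarFar (α - z.2 / z.1) (1 / (2 * Q ^ 2)) then √2 * √(Q : ℝ) * q else 0 with hfC
  have fB0 : ∀ z, 0 ≤ fB z := fun z => by simp only [hfB]; split_ifs <;> positivity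
  have fC0 : ∀ z, 0 ≤ fC z := fun z => by simp only [hfC]; split_ifs <;> positivity
  have key : ∀ z ∈ (varT Q).filter (fun z => ¬ (z.1 = q ∧ (q : ℤ) ∣ a - z.2)),
      ‖gS z.2 z.1 / z.1 * ∑ x ∈ Ioc u v, ee (x * (α - z.2 / z.1))‖
        ≤ √2 * √(Q : ℝ) + fB z + fC z := by
    intro z hz
    obtain ⟨hz, hex⟩ := Finset.mem_filter.mp hz
    obtain ⟨⟨z1, zQ⟩, z2, zc⟩ := var_mem_T.mp hz
    have pz : (0 : ℝ) < z.1 := by exact_mod_cast z1
    have zQ' : (z.1 : ℝ) ≤ Q := by exact_mod_cast zQ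
    have pQ : (0 : ℝ) < Q := pz.trans_le zQ'
    have sz : 0 < √(z.1 : ℝ) := Real.sqrt_pos.mpr pz
    have szQ : √(z.1 : ℝ) ≤ √(Q : ℝ) := Real.sqrt_le_sqrt zQ'
    have hg := var_gS hG z.2 z.1 z1 zc
    have hz' : √2 / √(z.1 : ℝ) * z.1 ≤ √2 * √(Q : ℝ) := by
      have : √2 / √(z.1 : ℝ) * z.1 = √2 * √(z.1 : ℝ) := by
        rw [div_mul_eq_mul_div, mul_div_assoc, Real.div_sqrt]
      rw [this]
      exact mul_le_mul_of_nonneg_left szQ s2
    have bd : ∀ δ : ℝ, 0 < δ → VarFar (α - z.2 / z.1) δ →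
        ‖gS z.2 z.1 / z.1 * ∑ x ∈ Ioc u v, ee (x * (α - z.2 / z.1))‖
          ≤ √2 / √(z.1 : ℝ) * (1 / (2 * δ)) := by
      intro δ hδ hf
      rw [norm_mul]
      exact mul_le_mul hg (var_geo hδ hf u v) (norm_nonneg _) (by positivity)
    by_cases h1 : VarFar (α - z.2 / z.1) (1 / (2 * z.1))
    · have h2 := bd _ (by positivity) h1
      have : 1 / (2 * (1 / (2 * (z.1 : ℝ)))) = z.1 := by field_simp
      rw [this] at h2
      linarith [fB0 z, fC0 z]
    by_cases h2 : VarFar (α - z.2 / z.1) (1 / (2 * Q ^ 2))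
    · have h3 := bd _ (by positivity) h2
      have : 1 / (2 * (1 / (2 * (Q : ℝ) ^ 2))) = Q ^ 2 := by field_simp
      rw [this] at h3
      have h4 : fB z = √2 / √(z.1 : ℝ) * Q ^ 2 := by
        simp only [hfB, if_pos h1]
        ring
      have : 0 ≤ √2 * √(Q : ℝ) := by positivity
      linarith [fC0 z]
    have h3 : VarFar (α - z.2 / z.1) (1 / (2 * q * z.1)) := by
      by_contra h3
      obtain ⟨k, hk⟩ := var_near z1 h3
      have h4 : 1 / (2 * (q : ℝ) * Q) ≤ 1 / (2 * q * z.1) :=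
        one_div_le_one_div_of_le (by positivity) (by nlinarith)
      have h5 : 1 / ((z.1 : ℝ) * q) = 1 / (2 * q * z.1) + 1 / (2 * q * z.1) := by
        field_simp
        ring
      obtain ⟨e1, e2⟩ := var_uniq z.1 q _ a z1 hq (var_cop z.2 z.1 k zc) ha (by
        rw [h5]
        refine (abs_sub_le _ α _).trans_lt ?_
        rw [abs_sub_comm]
        linarith)
      exact hex ⟨e1, k, by rw [← e2, e1]; ring⟩
    have h4 := bd _ (by positivity) h3
    have : 1 / (2 * (1 / (2 * (q : ℝ) * z.1))) = z.1 * q := by field_simp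
    rw [this, ← mul_assoc] at h4
    have h5 : fC z = √2 * √(Q : ℝ) * q := by simp only [hfC, if_pos h2]
    have h6 := mul_le_mul_of_nonneg_right hz' pq.le
    have : 0 ≤ √2 * √(Q : ℝ) := by positivity
    linarith [fB0 z]
  have hA : ((varT Q).card : ℝ) ≤ Q ^ 2 := by
    have : (varT Q).card ≤ Q ^ 2 := by
      unfold varT
      rw [Finset.card_sigma]
      calc ∑ q ∈ Icc 1 Q, ((range q).filter fun a => Nat.Coprime a q).card
          ≤ ∑ _q ∈ Icc 1 Q, Q := by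
            refine Finset.sum_le_sum fun q hq => (Finset.card_filter_le _ _).trans ?_
            rw [Finset.card_range]
            exact (Finset.mem_Icc.mp hq).2
        _ = Q ^ 2 := by simp [sq]
    exact_mod_cast this
  have hB : ∑ z ∈ varT Q, fB z ≤ √2 * Q ^ 2 * (2 * √(Q : ℝ)) := by
    refine le_trans ?_ (mul_le_mul_of_nonneg_left (var_sum_inv_sqrt Q) (by positivity))
    unfold varT
    rw [Finset.sum_sigma, Finset.mul_sum]
    refine Finset.sum_le_sum fun q' hq' => ?_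
    have q1 := (Finset.mem_Icc.mp hq').1
    have pq' : (0 : ℝ) < q' := by exact_mod_cast q1
    simp only [hfB]
    rw [← Finset.sum_filter, Finset.sum_const, nsmul_eq_mul]
    have hc : (((range q').filter fun a => Nat.Coprime a q').filter
        fun a : ℕ => ¬ VarFar (α - a / q') (1 / (2 * q'))).card ≤ 1 := by
      rw [Finset.card_le_one]
      intro a₁ h₁ a₂ h₂
      simp only [Finset.mem_filter, Finset.mem_range] at h₁ h₂
      obtain ⟨k, hk⟩ := var_near q1 h₁.2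
      obtain ⟨l, hl⟩ := var_near q1 h₂.2
      refine var_res a₁ a₂ q' k l h₁.1.1 h₂.1.1 ?_
      have h3 : |(((a₁ : ℤ) + k * q' : ℤ) : ℝ) / q' - (((a₂ : ℤ) + l * q' : ℤ) : ℝ) / q'|
          < 1 / q' := by
        refine (abs_sub_le _ α _).trans_lt ?_
        rw [abs_sub_comm]
        have : 1 / (q' : ℝ) = 1 / (2 * q') + 1 / (2 * q') := by field_simp; ring
        linarith
      rw [← sub_div, abs_div, abs_of_pos pq', div_lt_div_iff_of_pos_right pq'] at h3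
      have h4 : |((a₁ : ℤ) + k * q') - ((a₂ : ℤ) + l * q')| < 1 := by exact_mod_cast h3
      have := Int.abs_lt_one_iff.mp h4
      linarith
    have hc' : ((((range q').filter fun a => Nat.Coprime a q').filter
        fun a : ℕ => ¬ VarFar (α - a / q') (1 / (2 * q'))).card : ℝ) ≤ 1 := by exact_mod_cast hc
    exact mul_le_of_le_one_left (by positivity) hc'
  have hC : ∑ z ∈ varT Q, fC z ≤ √2 * √(Q : ℝ) * q := by
    simp only [hfC]
    rw [← Finset.sum_filter, Finset.sum_const, nsmul_eq_mul]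
    have hc : ((varT Q).filter
        fun z => ¬ VarFar (α - z.2 / z.1) (1 / (2 * Q ^ 2))).card ≤ 1 := by
      rw [Finset.card_le_one]
      rintro ⟨q₁, a₁⟩ h₁ ⟨q₂, a₂⟩ h₂
      simp only [Finset.mem_filter, var_mem_T] at h₁ h₂
      obtain ⟨k, hk⟩ := var_near h₁.1.1.1 h₁.2
      obtain ⟨l, hl⟩ := var_near h₂.1.1.1 h₂.2
      have p₁ : (0 : ℝ) < q₁ := by exact_mod_cast h₁.1.1.1
      have p₂ : (0 : ℝ) < q₂ := by exact_mod_cast h₂.1.1.1
      have l₁ : (q₁ : ℝ) ≤ Q := by exact_mod_cast h₁.1.1.2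
      have l₂ : (q₂ : ℝ) ≤ Q := by exact_mod_cast h₂.1.1.2
      have pQ : (0 : ℝ) < Q := p₁.trans_le l₁
      obtain ⟨e1, e2⟩ := var_uniq q₁ q₂ _ _ h₁.1.1.1 h₂.1.1.1 (var_cop a₁ q₁ k h₁.1.2.2)
        (var_cop a₂ q₂ l h₂.1.2.2) (by
          refine (abs_sub_le _ α _).trans_lt ?_
          rw [abs_sub_comm]
          have h3 : 1 / (Q : ℝ) ^ 2 = 1 / (2 * Q ^ 2) + 1 / (2 * Q ^ 2) := by field_simp; ring
          have h4 : 1 / (Q : ℝ) ^ 2 ≤ 1 / (q₁ * q₂) :=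
            one_div_le_one_div_of_le (by positivity) (by nlinarith)
          linarith)
      subst e1
      rw [var_res a₁ a₂ q₁ k l h₁.1.2.1 h₂.1.2.1 e2]
    have hc' : (((varT Q).filter
        fun z => ¬ VarFar (α - z.2 / z.1) (1 / (2 * Q ^ 2))).card : ℝ) ≤ 1 := by exact_mod_cast hc
    exact mul_le_of_le_one_left (by positivity) hc'
  refine (norm_sum_le _ _).trans ((Finset.sum_le_sum key).trans ?_)
  refine (Finset.sum_le_sum_of_subset_of_nonneg (Finset.filter_subset _ _) fun z _ _ => ?_).trans ?_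
  · have := fB0 z
    have := fC0 z
    positivity
  rw [Finset.sum_add_distrib, Finset.sum_add_distrib, Finset.sum_const, nsmul_eq_mul]
  have := mul_le_mul_of_nonneg_right hA (mul_nonneg s2 sQ)
  nlinarith

lemma var_main_term (Q q : ℕ) (a : ℤ) (α : ℝ) (S : Finset ℕ) (hq : 0 < q)
    (ha : IsCoprime a (q : ℤ)) :
    ∑ z ∈ (varT Q).filter (fun z => z.1 = q ∧ (q : ℤ) ∣ a - z.2),
        gS z.2 z.1 / z.1 * ∑ x ∈ S, ee (x * (α - z.2 / z.1)) =
      if q ≤ Q then gS a q / q * ∑ x ∈ S, ee (x * (α - a / q)) else 0 := by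
  have pq : (0 : ℝ) < q := by exact_mod_cast hq
  split_ifs with hQ
  · obtain ⟨b, hb⟩ := Int.eq_ofNat_of_zero_le (Int.emod_nonneg a (by omega : (q : ℤ) ≠ 0))
    have hbq : b < q := by
      have := Int.emod_lt_of_pos a (by omega : (0 : ℤ) < q)
      omega
    have hab : a = b + (a / q) * q := by
      have := Int.emod_add_ediv_mul a q
      rw [hb] at this
      exact this.symm
    have hbc : Nat.Coprime b q := by
      rw [hab] at ha
      exact Nat.isCoprime_iff_coprime.mp ha.of_add_mul_right_left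
    have hset : (varT Q).filter (fun z => z.1 = q ∧ (q : ℤ) ∣ a - z.2) = {⟨q, b⟩} := by
      ext ⟨q', a'⟩
      simp only [Finset.mem_filter, var_mem_T, Finset.mem_singleton]
      constructor
      · rintro ⟨⟨_, h2, _⟩, rfl, k, hk⟩
        rw [var_res a' b q' k (a / q') h2 hbq (by linarith)]
      · intro h
        cases h
        exact ⟨⟨⟨hq, hQ⟩, hbq, hbc⟩, rfl, a / q, by linarith⟩
    rw [hset, Finset.sum_singleton]
    have habR : (a : ℝ) = b + ((a / q : ℤ) : ℝ) * q := by exact_mod_cast hab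
    congr 1
    · congr 1
      unfold gS
      refine Finset.sum_congr rfl fun m _ => ?_
      have : (a : ℝ) * (m : ℝ) ^ 2 / q =
          ((b : ℤ) : ℝ) * (m : ℝ) ^ 2 / q + (((a / q) * (m : ℤ) ^ 2 : ℤ) : ℝ) := by
        rw [habR, Int.cast_mul]
        push_cast
        field_simp
      rw [this, var_ee_add, var_ee_int, mul_one]
    · refine Finset.sum_congr rfl fun x _ => ?_
      have : (x : ℝ) * (α - b / q) = x * (α - a / q) + (((a / q) * (x : ℤ) : ℤ) : ℝ) := by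
        rw [habR, Int.cast_mul]
        push_cast
        field_simp
        ring
      rw [this, var_ee_add, var_ee_int, mul_one]
  · apply Finset.sum_eq_zero
    intro z hz
    obtain ⟨h1, h2, _⟩ := Finset.mem_filter.mp hz
    have := (var_mem_T.mp h1).1.2
    omega

lemma var_win (X Y t : ℕ) : win X Y t = Ioc (max t (X / 2)) (min (t + 2 * Y) (2 * X)) := by
  unfold win
  ext x
  simp only [Finset.mem_inter, Finset.mem_Ioc]
  omega

lemma var_sup (hG : St_GAU) (hMaj : St_MAJ) (hMin : St_MIN) : ∃ K : ℝ, 0 < K ∧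
    ∀ (X Y Q : ℕ), 2 ≤ Q → Q ^ 3 ≤ Y → X * Q ^ 2 ≤ Y ^ 2 → 4 * Y ≤ X → ∀ α : ℝ,
      ∑ t ∈ range (2 * X), ‖∑ x ∈ win X Y t, ((sqw x - (nu Q x : ℝ) : ℝ) : ℂ) * ee (x * α)‖ ^ 2
        ≤ K * (1 + Real.log (2 * X)) ^ 2 * (X * Y ^ 2 / Q) := by
  obtain ⟨C₁, hC₁, hMaj⟩ := hMaj
  obtain ⟨C₂, hC₂, hMin⟩ := hMin
  refine ⟨2 * (C₁ + 22) ^ 2 + 36 * C₂ + 4 * 22 ^ 2, by positivity, ?_⟩
  intro X Y Q hQ hY hXQ hX α
  have hY8 : 8 ≤ Y := le_trans (Nat.pow_le_pow_left hQ 3) hY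
  have hX32 : 32 ≤ X := by omega
  have rQ : (2 : ℝ) ≤ Q := by exact_mod_cast hQ
  have rY : (Q : ℝ) ^ 3 ≤ Y := by exact_mod_cast hY
  have rXQ : (X : ℝ) * Q ^ 2 ≤ Y ^ 2 := by exact_mod_cast hXQ
  have rX : 4 * (Y : ℝ) ≤ X := by exact_mod_cast hX
  have rX32 : (32 : ℝ) ≤ X := by exact_mod_cast hX32
  have pY : (0 : ℝ) < Y := by exact_mod_cast (by omega : 0 < Y)
  have pQ : (0 : ℝ) < Q := by linarith
  set r := √(X : ℝ) with hr
  set s := √(Q : ℝ) with hs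
  have r2 : r ^ 2 = X := Real.sq_sqrt (by positivity)
  have s2 : s ^ 2 = Q := Real.sq_sqrt (by positivity)
  have pr : 0 < r := Real.sqrt_pos.mpr (by linarith)
  have ps : 0 < s := Real.sqrt_pos.mpr pQ
  have r4 : 4 ≤ r := Real.le_sqrt_of_sq_le (by linarith)
  have hrQ : r * Q ≤ Y := by
    apply le_of_sq_le_sq _ pY.le |>.trans' le_rfl
    rw [mul_pow, r2]
    exact rXQ
  have hQr : 4 * Q ≤ r := by
    have : r * (4 * Q) ≤ r * r := by linarith
    exact le_of_mul_le_mul_left this pr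
  set L := 1 + Real.log (2 * X) with hL
  have hL1 : 1 ≤ L := by
    have := Real.log_nonneg (show (1 : ℝ) ≤ 2 * X by linarith)
    linarith
  have hn : 0 < ⌊8 * r⌋₊ := Nat.floor_pos.mpr (by linarith)
  obtain ⟨ρ, hρ, hρd⟩ := Real.exists_rat_abs_sub_le_and_den_le α hn
  set q := ρ.den with hqdef
  set a := ρ.num with hadef
  have hq : 0 < q := ρ.den_pos
  have pq : (0 : ℝ) < q := by exact_mod_cast hq
  have ha : IsCoprime a (q : ℤ) := ρ.isCoprime_num_den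
  have hρe : (ρ : ℝ) = a / q := by rw [Rat.cast_def]
  have hq8 : (q : ℝ) ≤ 8 * r := (Nat.cast_le.mpr hρd).trans (Nat.floor_le (by linarith))
  have hβ : |α - a / q| ≤ 1 / (8 * q * r) := by
    rw [← hρe]
    refine hρ.trans (one_div_le_one_div_of_le (by positivity) ?_)
    have := mul_le_mul_of_nonneg_right (Nat.lt_floor_add_one (8 * r)).le pq.le
    linarith
  have hβ1 : |α - a / q| ≤ 1 / (2 * q * Q) :=
    hβ.trans (one_div_le_one_div_of_le (by positivity) (by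
      have := mul_le_mul_of_nonneg_left (show 2 * (Q : ℝ) ≤ 8 * r by linarith) pq.le
      linarith))
  have hβ2 : |α - a / q| ≤ 1 / (q : ℝ) ^ 2 :=
    hβ.trans (one_div_le_one_div_of_le (by positivity) (by
      have := mul_le_mul_of_nonneg_left hq8 pq.le
      linarith))
  have hlog : 1 + Real.log q ≤ L := by
    have : Real.log q ≤ Real.log (2 * X) := Real.log_le_log pq (by
      have := mul_le_mul_of_nonneg_left r4 pr.le
      linarith)
    linarith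
  have hlog0 : 0 ≤ 1 + Real.log q := by
    have := Real.log_nonneg (show (1 : ℝ) ≤ q by exact_mod_cast hq)
    linarith
  set B := (Y : ℝ) / s with hB
  have pB : 0 < B := by positivity
  have B2 : B ^ 2 = Y ^ 2 / Q := by rw [hB, div_pow, s2]
  have hrest : √2 * s * (3 * Q ^ 2 + q) ≤ 22 * B := by
    have h2 : √2 ≤ (2 : ℝ) := Real.sqrt_le_iff.mpr ⟨by norm_num, by norm_num⟩
    have h3 : s * (3 * Q ^ 2 + q) ≤ 11 * B := by
      rw [hB, ← mul_div_assoc, le_div_iff₀ ps]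
      have : s * (3 * Q ^ 2 + q) * s = Q * (3 * Q ^ 2 + q) := by rw [← s2]; ring
      rw [this]
      have := mul_le_mul_of_nonneg_left hq8 pQ.le
      linarith
    have h4 : 0 ≤ s * (3 * Q ^ 2 + q) := by positivity
    have := mul_le_mul_of_nonneg_right h2 h4
    linarith
  have hsplit : ∀ t, ‖∑ x ∈ win X Y t, ((sqw x - (nu Q x : ℝ) : ℝ) : ℂ) * ee (x * α)‖ ≤
      ‖∑ x ∈ win X Y t, (sqw x : ℂ) * ee (x * α) -
        if q ≤ Q then gS a q / q * ∑ x ∈ win X Y t, ee (x * (α - a / q)) else 0‖ + 22 * B := by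
    intro t
    have h1 : ∑ x ∈ win X Y t, ((sqw x - (nu Q x : ℝ) : ℝ) : ℂ) * ee (x * α) =
        ∑ x ∈ win X Y t, (sqw x : ℂ) * ee (x * α) -
          ∑ x ∈ win X Y t, ((nu Q x : ℝ) : ℂ) * ee (x * α) := by
      rw [← Finset.sum_sub_distrib]
      refine Finset.sum_congr rfl fun x _ => ?_
      rw [Complex.ofReal_sub, sub_mul]
    rw [h1, var_nu hG, ← Finset.sum_filter_add_sum_filter_not (varT Q)
      (fun z => z.1 = q ∧ (q : ℤ) ∣ a - z.2), var_main_term Q q a α _ hq ha, ← sub_sub]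
    refine (norm_sub_le _ _).trans (add_le_add_right ?_ _)
    rw [var_win]
    exact (var_rest hG Q q _ _ a α hq ha hβ1).trans hrest
  have hXB : (X : ℝ) * Y ^ 2 / Q = X * B ^ 2 := by rw [B2, mul_div_assoc]
  have pXB : 0 ≤ L ^ 2 * (X * B ^ 2) := by positivity
  rw [hXB]
  by_cases hqQ : q ≤ Q
  · have rqQ : (q : ℝ) ≤ Q := by exact_mod_cast hqQ
    have h1 : ∀ t ∈ range (2 * X),
        ‖∑ x ∈ win X Y t, ((sqw x - (nu Q x : ℝ) : ℝ) : ℂ) * ee (x * α)‖ ^ 2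
          ≤ ((C₁ + 22) * L * B) ^ 2 := by
      intro t _
      refine pow_le_pow_left₀ (norm_nonneg _) ((hsplit t).trans ?_) 2
      rw [if_pos hqQ, var_win]
      have h2 := hMaj X q (max t (X / 2)) (min (t + 2 * Y) (2 * X)) a (α - a / q) (by omega) hq ha
        hβ (le_max_right _ _) (min_le_right _ _)
      rw [add_sub_cancel] at h2
      have h3 : √((X : ℝ) * q) ≤ B := by
        apply Real.sqrt_le_iff.mpr ⟨pB.le, ?_⟩
        rw [B2, le_div_iff₀ pQ]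
        have : (X : ℝ) * q * Q ≤ X * Q * Q := by gcongr
        linarith
      have h4 : C₁ * √((X : ℝ) * q) * (1 + Real.log q) ≤ C₁ * B * L := by gcongr
      have := mul_le_mul_of_nonneg_left hL1 pB.le
      linarith
    refine (Finset.sum_le_sum h1).trans ?_
    rw [Finset.sum_const, Finset.card_range, nsmul_eq_mul]
    push_cast
    have : 2 * (X : ℝ) * ((C₁ + 22) * L * B) ^ 2 = 2 * (C₁ + 22) ^ 2 * (L ^ 2 * (X * B ^ 2)) := by
      ring
    rw [this, mul_assoc _ (L ^ 2)]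
    apply mul_le_mul_of_nonneg_right _ pXB
    linarith
  · have rqQ : (Q : ℝ) ≤ q := by exact_mod_cast (not_le.mp hqQ).le
    have h1 : ∀ t ∈ range (2 * X),
        ‖∑ x ∈ win X Y t, ((sqw x - (nu Q x : ℝ) : ℝ) : ℂ) * ee (x * α)‖ ^ 2
          ≤ 2 * ‖∑ x ∈ win X Y t, (sqw x : ℂ) * ee (x * α)‖ ^ 2 + 2 * (22 * B) ^ 2 := by
      intro t _
      have h2 := hsplit t
      rw [if_neg hqQ, sub_zero] at h2
      refine (pow_le_pow_left₀ (norm_nonneg _) h2 2).trans ?_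
      linarith [sq_nonneg (‖∑ x ∈ win X Y t, (sqw x : ℂ) * ee (x * α)‖ - 22 * B)]
    refine (Finset.sum_le_sum h1).trans ?_
    rw [Finset.sum_add_distrib, ← Finset.mul_sum, Finset.sum_const, Finset.card_range,
      nsmul_eq_mul]
    have h2 := hMin X Y q a α (by omega) hX hq ha hβ2
    have h3 : (Y : ℝ) / (r * q) + 1 ≤ 2 * (Y / (r * Q)) := by
      have h4 : (Y : ℝ) / (r * q) ≤ Y / (r * Q) := by gcongr
      have h5 : 1 ≤ (Y : ℝ) / (r * Q) := by rw [le_div_iff₀ (by positivity)]; linarith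
      linarith
    have h4 : r + q * (1 + Real.log q) ≤ 9 * r * L := by
      have : (q : ℝ) * (1 + Real.log q) ≤ 8 * r * L := by gcongr
      have := mul_le_mul_of_nonneg_left hL1 pr.le
      linarith
    have h5 : C₂ * X * Y * (Y / (r * q) + 1) * (r + q * (1 + Real.log q))
        ≤ C₂ * X * Y * (2 * (Y / (r * Q))) * (9 * r * L) := by gcongr
    have h6 : C₂ * X * Y * (2 * (Y / (r * Q))) * (9 * r * L) = 18 * C₂ * (L * (X * B ^ 2)) := by
      rw [B2]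
      field_simp
      ring
    have pX : 0 ≤ (X : ℝ) * B ^ 2 := by positivity
    have h7 : L * (X * B ^ 2) ≤ L ^ 2 * (X * B ^ 2) :=
      mul_le_mul_of_nonneg_right (le_self_pow₀ hL1 two_ne_zero) pX
    have h8 : X * B ^ 2 ≤ L ^ 2 * (X * B ^ 2) := le_mul_of_one_le_left pX (one_le_pow₀ hL1)
    have h9 : 18 * C₂ * (L * (X * B ^ 2)) ≤ 18 * C₂ * (L ^ 2 * (X * B ^ 2)) := by gcongr
    have h10 : 0 ≤ 2 * (C₁ + 22) ^ 2 * (L ^ 2 * (X * B ^ 2)) := by positivity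
    push_cast
    rw [mul_assoc _ (L ^ 2)]
    linarith

theorem blk_VAR (hG : St_GAU) (hMaj : St_MAJ) (hMin : St_MIN) : St_VAR := by
  intro ε hε
  obtain ⟨K, hK, h⟩ := var_sup hG hMaj hMin
  refine ⟨K * (2 + 2 / ε) ^ 2, by positivity, ?_⟩
  intro X Y Q a hQ hY hXQ hX
  have hY8 : 8 ≤ Y := le_trans (Nat.pow_le_pow_left hQ 3) hY
  have pY : (0 : ℝ) < Y := by exact_mod_cast (by omega : 0 < Y)
  have pQ : (0 : ℝ) < Q := by exact_mod_cast (by omega : 0 < Q)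
  have rX : (1 : ℝ) ≤ X := by exact_mod_cast (by omega : 1 ≤ X)
  have h1 := var_reduce X Y (by omega) hX a (fun x => sqw x - (nu Q x : ℝ)) _
    (h X Y Q hQ hY hXQ hX)
  have h2 : ∑ n ∈ Ioc X (2 * X),
      (∑ p ∈ Ico Y (2 * Y), a p * (sqw (n - p) - (nu Q ((n : ℤ) - p) : ℝ))) ^ 2 =
      ∑ n ∈ Ioc X (2 * X),
        (∑ p ∈ Ico Y (2 * Y), a p * (sqw (n - p) - (nu Q ((n - p : ℕ) : ℤ) : ℝ))) ^ 2 := by
    refine Finset.sum_congr rfl fun n hn => ?_
    congr 1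
    refine Finset.sum_congr rfl fun p hp => ?_
    have := Finset.mem_Ioc.mp hn
    have := Finset.mem_Ico.mp hp
    rw [Nat.cast_sub (by omega)]
  have hL : (1 + Real.log (2 * X)) ^ 2 ≤ (2 + 2 / ε) ^ 2 * (X : ℝ) ^ ε := by
    have e1 : (X : ℝ) ^ ε = ((X : ℝ) ^ (ε / 2)) ^ 2 := by
      rw [← Real.rpow_natCast, ← Real.rpow_mul (by linarith)]
      congr 1
      push_cast
      ring
    have e2 : 1 ≤ (X : ℝ) ^ (ε / 2) := Real.one_le_rpow rX (by linarith)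
    have e3 : Real.log X ≤ (X : ℝ) ^ (ε / 2) / (ε / 2) :=
      Real.log_le_rpow_div (by linarith) (by linarith)
    have e4 : Real.log (2 * X) = Real.log 2 + Real.log X :=
      Real.log_mul (by norm_num) (by linarith)
    have e5 : Real.log 2 ≤ 1 := by
      have := Real.log_le_sub_one_of_pos (show (0 : ℝ) < 2 by norm_num)
      linarith
    have e6 : (X : ℝ) ^ (ε / 2) / (ε / 2) = 2 / ε * (X : ℝ) ^ (ε / 2) := by field_simp
    have e7 : 0 ≤ Real.log (2 * X) := Real.log_nonneg (by linarith)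
    rw [e1, ← mul_pow]
    apply pow_le_pow_left₀ (by linarith)
    linarith
  rw [h2]
  apply le_of_mul_le_mul_left _ pY
  refine h1.trans ?_
  have hs : 0 ≤ ∑ p ∈ Ico Y (2 * Y), a p ^ 2 := Finset.sum_nonneg fun _ _ => sq_nonneg _
  rw [← mul_assoc]
  apply mul_le_mul_of_nonneg_right _ hs
  calc K * (1 + Real.log (2 * X)) ^ 2 * (X * Y ^ 2 / Q)
      ≤ K * ((2 + 2 / ε) ^ 2 * (X : ℝ) ^ ε) * (X * Y ^ 2 / Q) := by gcongr
    _ = _ := by ring

end Pool.Agent.Lib.PS
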