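import Pool.Agent.Lib.PS.VAU2
import Pool.Agent.Lib.MP_fb430f_co.Circle

/-!
Vaughan mean value: the identity, prime powers, assembly.
-/

namespace Pool.Agent.Lib.PS

open Finset Real MeasureTheory Complex
open scoped Classical ComplexConjugate ArithmeticFunction.Moebius ArithmeticFunction.vonMangoldt
  ArithmeticFunction.zeta

noncomputable def vau_lo (U : ℕ) (f : ArithmeticFunction ℝ) : ArithmeticFunction ℝ :=
  ⟨fun n => if n ≤ U then f n else 0, by simp⟩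

noncomputable def vau_hi (U : ℕ) (f : ArithmeticFunction ℝ) : ArithmeticFunction ℝ :=
  ⟨fun n => if n ≤ U then 0 else f n, by simp⟩

lemma vau_lo_apply (U : ℕ) (f : ArithmeticFunction ℝ) (n : ℕ) :
    vau_lo U f n = if n ≤ U then f n else 0 := rfl

lemma vau_hi_apply (U : ℕ) (f : ArithmeticFunction ℝ) (n : ℕ) :
    vau_hi U f n = if n ≤ U then 0 else f n := rfl

lemma vau_lo_add_hi (U : ℕ) (f : ArithmeticFunction ℝ) : vau_lo U f + vau_hi U f = f := by
  ext n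
  rw [ArithmeticFunction.add_apply, vau_lo_apply, vau_hi_apply]
  split_ifs <;> simp

noncomputable def vau_c (U : ℕ) : ArithmeticFunction ℝ :=
  vau_lo U (μ : ArithmeticFunction ℝ) * vau_lo U Λ

noncomputable def vau_b (U : ℕ) : ArithmeticFunction ℝ :=
  vau_hi U (μ : ArithmeticFunction ℝ) * (ζ : ArithmeticFunction ℝ)

lemma vau_identity (U : ℕ) :
    Λ + vau_lo U (vau_c U) * (ζ : ArithmeticFunction ℝ)
      + vau_hi U (vau_c U) * (ζ : ArithmeticFunction ℝ)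
    = vau_lo U Λ + vau_lo U (μ : ArithmeticFunction ℝ) * ArithmeticFunction.log
      + vau_b U * vau_hi U Λ := by
  have h1 := vau_lo_add_hi U (μ : ArithmeticFunction ℝ)
  have h2 := vau_lo_add_hi U Λ
  have h3 := vau_lo_add_hi U (vau_c U)
  have h4 : (μ : ArithmeticFunction ℝ) * (ζ : ArithmeticFunction ℝ) = 1 :=
    ArithmeticFunction.coe_moebius_mul_coe_zeta
  have h5 : Λ * (ζ : ArithmeticFunction ℝ) = ArithmeticFunction.log :=
    ArithmeticFunction.vonMangoldt_mul_zeta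
  have h6 : vau_c U = vau_lo U (μ : ArithmeticFunction ℝ) * vau_lo U Λ := rfl
  unfold vau_b
  generalize vau_lo U (vau_c U) = c0 at *
  generalize vau_hi U (vau_c U) = c1 at *
  generalize vau_c U = c at *
  generalize vau_lo U (μ : ArithmeticFunction ℝ) = m0 at *
  generalize vau_hi U (μ : ArithmeticFunction ℝ) = m1 at *
  generalize vau_lo U Λ = l0 at *
  generalize vau_hi U Λ = l1 at *
  generalize (ζ : ArithmeticFunction ℝ) = z at *
  generalize (μ : ArithmeticFunction ℝ) = m at *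
  generalize ArithmeticFunction.log = lg at *
  generalize Λ = l at *
  subst h1 h2 h5
  linear_combination z * h3 + z * h6 - l1 * h4

lemma vau_mu_abs (n : ℕ) : |(μ : ArithmeticFunction ℝ) n| ≤ 1 := by
  rw [ArithmeticFunction.intCoe_apply]
  exact_mod_cast ArithmeticFunction.abs_moebius_le_one

lemma vau_c_abs (U d : ℕ) : |vau_c U d| ≤ Real.log d := by
  rw [vau_c, ArithmeticFunction.mul_apply, ← ArithmeticFunction.vonMangoldt_sum,
    Nat.sum_divisorsAntidiagonal' (f := fun x y =>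
      vau_lo U (μ : ArithmeticFunction ℝ) x * vau_lo U Λ y)]
  refine (abs_sum_le_sum_abs _ _).trans (sum_le_sum fun i _ => ?_)
  have h0 : 0 ≤ Λ i := ArithmeticFunction.vonMangoldt_nonneg
  rw [abs_mul, vau_lo_apply, vau_lo_apply]
  split_ifs
  · rw [abs_of_nonneg h0]
    exact mul_le_of_le_one_left h0 (vau_mu_abs _)
  all_goals simp

lemma vau_c_zero (U d : ℕ) (hd : U ^ 2 < d) : vau_c U d = 0 := by
  rw [vau_c, ArithmeticFunction.mul_apply]
  refine sum_eq_zero fun p hp => ?_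
  have h1 := (Nat.mem_divisorsAntidiagonal.1 hp).1
  rw [vau_lo_apply, vau_lo_apply]
  split_ifs with h2 h3
  · exfalso
    have := Nat.mul_le_mul h2 h3
    nlinarith
  all_goals simp

lemma vau_b_abs (U k : ℕ) : |vau_b U k| ≤ k.divisors.card := by
  rw [vau_b, ArithmeticFunction.coe_mul_zeta_apply]
  refine (abs_sum_le_sum_abs _ _).trans ?_
  refine (sum_le_card_nsmul _ _ 1 fun i _ => ?_).trans (by simp)
  rw [vau_hi_apply]
  split_ifs
  · simp
  · exact vau_mu_abs _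

lemma vau_b_zero (U k : ℕ) (hk : k < U) : vau_b U k = 0 := by
  rw [vau_b, ArithmeticFunction.coe_mul_zeta_apply]
  refine sum_eq_zero fun i hi => ?_
  have := Nat.divisor_le hi
  rw [vau_hi_apply, if_pos (by omega)]

lemma vau_conv (Y0 Y1 Z : ℕ) (hY0 : 1 ≤ Y0) (hZ : Y1 ≤ Z) (om : ℝ → ℂ) (ξ : ℕ → ℂ)
    (f g : ArithmeticFunction ℝ) :
    ∑ n ∈ Ico Y0 Y1, (((f * g) n : ℝ) : ℂ) * vau_wt om n * ξ n
      = vau_BB Y0 Y1 Z om (fun n => (f n : ℂ)) (fun n => (g n : ℂ)) ξ := by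
  unfold vau_BB
  rw [← sum_product', ← sum_filter]
  rw [← sum_fiberwise_of_maps_to (t := Ico Y0 Y1) (g := fun p : ℕ × ℕ => p.1 * p.2)]
  · refine sum_congr rfl fun n hn => ?_
    have hn' := mem_Ico.1 hn
    rw [ArithmeticFunction.mul_apply, Complex.ofReal_sum, sum_mul, sum_mul]
    refine sum_congr ?_ fun p hp => ?_
    · ext p
      simp only [Nat.mem_divisorsAntidiagonal, mem_filter, mem_product, mem_Ico]
      constructor
      · rintro ⟨h1, h2⟩
        have a1 : 1 ≤ p.1 := Nat.pos_of_ne_zero fun h => by simp [h] at h1; omega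
        have a2 : 1 ≤ p.2 := Nat.pos_of_ne_zero fun h => by simp [h] at h1; omega
        refine ⟨⟨⟨⟨a1, ?_⟩, a2, ?_⟩, by omega, by omega⟩, h1⟩
        · nlinarith
        · nlinarith
      · rintro ⟨_, h1⟩
        exact ⟨h1, by omega⟩
    · rw [← (mem_filter.1 hp).2]
      push_cast
      ring
  · intro p hp
    exact mem_Ico.2 (mem_filter.1 hp).2

lemma vau_tele (s : ℝ) (hs : 1 ≤ s) (Z : ℕ) :
    ∑ m ∈ Ico (1 : ℕ) Z, (1 / (s + m - 1) - 1 / (s + m)) ≤ 1 / s := by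
  have key : ∀ n : ℕ,
      ∑ m ∈ Ico (1 : ℕ) (n + 1), (1 / (s + m - 1) - 1 / (s + m)) = 1 / s - 1 / (s + n) := by
    intro n
    induction n with
    | zero => simp
    | succ n ih =>
      rw [sum_Ico_succ_top (by omega), ih]
      push_cast
      rw [show s + ((n : ℝ) + 1) - 1 = s + n by ring]
      ring
  rcases Z with _ | n
  · simp; positivity
  · rw [key]
    have : 0 ≤ 1 / (s + n) := by positivity
    linarith

/-- higher prime powers -/
lemma vau_pp (Y0 Y1 J : ℕ) (hY0 : 1 ≤ Y0) (hJ : Y1 ≤ 2 ^ J) (L : ℝ) (hL0 : 0 ≤ L)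
    (hL : ∀ n : ℕ, n < 2 ^ J → Real.log n ≤ L) :
    ∑ n ∈ (Ico Y0 Y1).filter (fun n => ¬ n.Prime), Λ n / n ≤ L * (J * (4 / √(Y0 : ℝ))) := by
  have hY : (1 : ℝ) ≤ Y0 := by exact_mod_cast hY0
  set s : ℝ := √(Y0 : ℝ) with hs
  have hs1 : 1 ≤ s := by rw [hs]; exact Real.one_le_sqrt.2 hY
  have hs2 : s ^ 2 = Y0 := Real.sq_sqrt (by linarith)
  set T : Finset (ℕ × ℕ) := (range J ×ˢ Ico 1 (2 ^ J)).filter
    fun t => 2 ≤ t.1 ∧ Y0 ≤ t.2 ^ t.1 with hT
  have h1 : ∑ n ∈ (Ico Y0 Y1).filter (fun n => ¬ n.Prime), Λ n / n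
      ≤ ∑ n ∈ T.image (fun t : ℕ × ℕ => (t.2 ^ t.1 : ℕ)), L / ((n : ℕ) : ℝ) := by
    rw [← sum_filter_of_ne (p := fun n => IsPrimePow n)]
    · refine le_trans (sum_le_sum fun n hn => ?_)
        (sum_le_sum_of_subset_of_nonneg ?_ fun _ _ _ => by positivity)
      · simp only [mem_filter, mem_Ico] at hn
        exact div_le_div_of_nonneg_right (ArithmeticFunction.vonMangoldt_le_log.trans
          (hL n (by omega))) (by positivity)
      · intro n hn
        simp only [mem_filter, mem_Ico] at hn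
        obtain ⟨⟨⟨h1, h2⟩, h3⟩, h4⟩ := hn
        obtain ⟨p, k, hp, hk, rfl⟩ := (isPrimePow_nat_iff _).1 h4
        have hk2 : 2 ≤ k := by
          by_contra hc
          have : k = 1 := by omega
          subst this
          exact h3 (by simpa using hp)
        have hp2 := hp.two_le
        refine mem_image.2 ⟨(k, p), ?_, rfl⟩
        simp only [hT, mem_filter, mem_product, mem_range, mem_Ico]
        refine ⟨⟨?_, by omega, ?_⟩, hk2, h1⟩
        · have : 2 ^ k < 2 ^ J := lt_of_le_of_lt (Nat.pow_le_pow_left hp2 k) (by omega)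
          exact (Nat.pow_lt_pow_iff_right (by norm_num)).1 this
        · have : p ≤ p ^ k := Nat.le_self_pow (by omega) p
          omega
    · intro n _ hne
      by_contra hc
      apply hne
      rw [ArithmeticFunction.vonMangoldt_eq_zero_iff.2 hc, zero_div]
  refine h1.trans ((sum_image_le_of_nonneg fun _ _ => by positivity).trans ?_)
  calc _ ≤ ∑ t ∈ T, L * (4 * (1 / (s + t.2 - 1) - 1 / (s + t.2))) := by
        refine sum_le_sum fun t ht => ?_
        simp only [hT, mem_filter, mem_product, mem_range, mem_Ico] at ht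
        obtain ⟨⟨_, h2, _⟩, h3, h4⟩ := ht
        have h5 : t.2 ^ 2 ≤ t.2 ^ t.1 := Nat.pow_le_pow_right h2 h3
        have h6 : (t.2 : ℝ) ^ 2 ≤ ((t.2 ^ t.1 : ℕ) : ℝ) := by exact_mod_cast h5
        have h7 : s ^ 2 ≤ ((t.2 ^ t.1 : ℕ) : ℝ) := by rw [hs2]; exact_mod_cast h4
        have h8 : (1 : ℝ) ≤ t.2 := by exact_mod_cast h2
        have h9 : 0 < s + t.2 - 1 := by linarith
        rw [div_eq_mul_one_div]
        refine mul_le_mul_of_nonneg_left ?_ hL0
        have e : 4 * (1 / (s + t.2 - 1) - 1 / (s + t.2)) = 4 / ((s + t.2 - 1) * (s + t.2)) := by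
          field_simp; ring
        rw [e, div_le_div_iff₀ (by nlinarith) (by positivity)]
        nlinarith [sq_nonneg (s - t.2)]
    _ ≤ ∑ t ∈ range J ×ˢ Ico (1 : ℕ) (2 ^ J),
          L * (4 * (1 / (s + t.2 - 1) - 1 / (s + t.2))) := by
        refine sum_le_sum_of_subset_of_nonneg (filter_subset _ _) fun t ht _ => ?_
        have h2 := (mem_Ico.1 (mem_product.1 ht).2).1
        have h8 : (1 : ℝ) ≤ t.2 := by exact_mod_cast h2
        have : 1 / (s + t.2) ≤ 1 / (s + t.2 - 1) :=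
          one_div_le_one_div_of_le (by linarith) (by linarith)
        have : 0 ≤ 1 / (s + t.2 - 1) - 1 / (s + t.2) := by linarith
        positivity
    _ = L * (J * (4 * ∑ m ∈ Ico (1 : ℕ) (2 ^ J), (1 / (s + m - 1) - 1 / (s + m)))) := by
        rw [sum_product]
        simp only [sum_const, card_range, nsmul_eq_mul, ← mul_sum]
        ring
    _ ≤ L * (J * (4 * (1 / s))) := by
        gcongr
        exact vau_tele s hs1 _
    _ = _ := by ring

/-- one quantity dominating all logarithms and divisor counts -/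
lemma vau_small (δ : ℝ) (hδ : 0 < δ) : ∃ K : ℝ, 0 < K ∧ ∀ Y : ℕ, 1 ≤ Y → ∃ J : ℕ, Y ≤ 2 ^ J ∧
    1 ≤ K * (Y : ℝ) ^ δ ∧ (J : ℝ) ≤ K * (Y : ℝ) ^ δ ∧ 1 + Real.log Y ≤ K * (Y : ℝ) ^ δ ∧
    (∀ n : ℕ, n < 2 ^ J → Real.log n ≤ K * (Y : ℝ) ^ δ) ∧
    ∀ n : ℕ, n < 2 ^ J → (n.divisors.card : ℝ) ≤ K * (Y : ℝ) ^ δ := by
  obtain ⟨C, hC, h⟩ := Pool.Agent.Lib.MP_fb430f_co.div_bound hδ
  refine ⟨1 + 2 / δ + C * 2 ^ δ, by positivity, fun Y hY => ⟨Nat.log 2 Y + 1,
    (Nat.lt_pow_succ_log_self (by norm_num) Y).le, ?_⟩⟩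
  have hY1 : (1 : ℝ) ≤ Y := by exact_mod_cast hY
  have h1 : 1 ≤ (Y : ℝ) ^ δ := Real.one_le_rpow hY1 hδ.le
  have h2 : Real.log Y ≤ (Y : ℝ) ^ δ / δ := Real.log_le_rpow_div (by linarith) hδ
  have h3 : 0 ≤ Real.log Y := Real.log_nonneg hY1
  have h4 : 2 ^ Nat.log 2 Y ≤ Y := Nat.pow_log_le_self 2 (by omega)
  have h5 : (Nat.log 2 Y : ℝ) * Real.log 2 ≤ Real.log Y := by
    rw [← Real.log_pow]
    exact Real.log_le_log (by positivity) (by exact_mod_cast h4)
  have h6 := Real.log_two_gt_d9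
  have h6' := Real.log_two_lt_d9
  have h7 : (Nat.log 2 Y : ℝ) ≤ 2 * Real.log Y := by
    have : (0 : ℝ) ≤ Nat.log 2 Y := by positivity
    nlinarith
  have h8 : 1 + 2 * Real.log Y ≤ (1 + 2 / δ) * (Y : ℝ) ^ δ := by
    have : (1 + 2 / δ) * (Y : ℝ) ^ δ = (Y : ℝ) ^ δ + 2 * ((Y : ℝ) ^ δ / δ) := by ring
    linarith
  have h9 : 0 ≤ C * 2 ^ δ * (Y : ℝ) ^ δ := by positivity
  have h10 : (1 + 2 / δ + C * 2 ^ δ) * (Y : ℝ) ^ δ
      = (1 + 2 / δ) * (Y : ℝ) ^ δ + C * 2 ^ δ * (Y : ℝ) ^ δ := by ring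
  have hJ : ((Nat.log 2 Y + 1 : ℕ) : ℝ) ≤ (1 + 2 / δ + C * 2 ^ δ) * (Y : ℝ) ^ δ := by
    push_cast; linarith
  refine ⟨by linarith, hJ, by linarith, fun n hn => ?_, fun n hn => ?_⟩
  · rcases Nat.eq_zero_or_pos n with rfl | hn0
    · simp; positivity
    · refine le_trans ?_ hJ
      calc Real.log n ≤ Real.log ((2 : ℝ) ^ (Nat.log 2 Y + 1)) :=
            Real.log_le_log (by exact_mod_cast hn0) (by exact_mod_cast hn.le)
        _ = ((Nat.log 2 Y + 1 : ℕ) : ℝ) * Real.log 2 := Real.log_pow _ _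
        _ ≤ _ := mul_le_of_le_one_right (by positivity) (by linarith)
  · rcases Nat.eq_zero_or_pos n with rfl | hn0
    · simp; positivity
    · have a1 : n.divisors.card ≤ ∏ p ∈ n.primeFactors, (n.factorization p + 2) := by
        rw [Nat.card_divisors hn0.ne']
        exact prod_le_prod' fun _ _ => by omega
      have a2 : (n.divisors.card : ℝ) ≤
        ((∏ p ∈ n.primeFactors, (n.factorization p + 2) : ℕ) : ℝ) := by exact_mod_cast a1
      have a3 := h n hn0.ne'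
      have a4 : (n : ℝ) ≤ 2 * Y := by
        have : n ≤ 2 * Y := by rw [pow_succ] at hn; omega
        exact_mod_cast this
      have a5 : (n : ℝ) ^ δ ≤ 2 ^ δ * (Y : ℝ) ^ δ := by
        rw [← Real.mul_rpow (by norm_num) (by positivity)]
        exact Real.rpow_le_rpow (by positivity) a4 hδ.le
      have a6 : C * (n : ℝ) ^ δ ≤ C * 2 ^ δ * (Y : ℝ) ^ δ := by
        rw [mul_assoc]; gcongr
      linarith

/-- decomposition of the prime sum for one character -/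
lemma vau_decomp {om φ : ℝ → ℂ} {A : ℝ} (h : vau_FD om φ A) (Y0 Y1 Z U : ℕ) (hU : 2 ≤ U)
    (hUY : U ^ 3 ≤ Y0) (hZ : Y1 ≤ Z) (ξ : ℕ → ℂ) (hξ : CM ξ) :
    ‖∑ p ∈ PR Y0 Y1, ((Real.log p / p : ℝ) : ℂ) * om (Real.log p) * ξ p‖ ≤
      A * (∑ n ∈ (Ico Y0 Y1).filter (fun n => ¬ n.Prime), Λ n / n)
      + ‖vau_BB Y0 Y1 Z om (fun n => (vau_lo U (μ : ArithmeticFunction ℝ) n : ℂ))
          (fun n => (ArithmeticFunction.log n : ℂ)) ξ‖
      + ‖vau_BB Y0 Y1 Z om (fun n => (vau_lo U (vau_c U) n : ℂ))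
          (fun n => ((ζ : ArithmeticFunction ℝ) n : ℂ)) ξ‖
      + ‖vau_BB Y0 Y1 Z om (fun n => (vau_hi U (vau_c U) n : ℂ))
          (fun n => if U ≤ n then 1 else 0) ξ‖
      + ‖vau_BB Y0 Y1 Z om (fun n => (vau_b U n : ℂ)) (fun n => (vau_hi U Λ n : ℂ)) ξ‖ := by
  have hU3 : U < Y0 := by nlinarith [Nat.mul_le_mul hU hU]
  have hY0 : 1 ≤ Y0 := by omega
  have e3 : vau_BB Y0 Y1 Z om (fun n => (vau_hi U (vau_c U) n : ℂ))
      (fun n => if U ≤ n then 1 else 0) ξ = vau_BB Y0 Y1 Z om (fun n => (vau_hi U (vau_c U) n : ℂ))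
      (fun n => ((ζ : ArithmeticFunction ℝ) n : ℂ)) ξ := by
    unfold vau_BB
    refine sum_congr rfl fun m _ => sum_congr rfl fun k hk => ?_
    have hk1 := (mem_Ico.1 hk).1
    by_cases hin : Y0 ≤ m * k ∧ m * k < Y1
    · rw [if_pos hin, if_pos hin]
      by_cases hUk : U ≤ k
      · simp [hUk, ArithmeticFunction.zeta_apply_ne (by omega : k ≠ 0)]
      · have : U ^ 2 < m := by
          by_contra hc
          have h1 : m * k ≤ U ^ 2 * k := Nat.mul_le_mul_right _ (by omega)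
          have h2 : U ^ 2 * k < U ^ 2 * U := Nat.mul_lt_mul_of_pos_left (by omega) (by positivity)
          have h3 : U ^ 2 * U = U ^ 3 := by ring
          omega
        have hz : vau_hi U (vau_c U) m = 0 := by
          rw [vau_hi_apply, vau_c_zero U m this]; simp
        simp [hz]
    · rw [if_neg hin, if_neg hin]
  rw [e3, ← vau_conv Y0 Y1 Z hY0 hZ, ← vau_conv Y0 Y1 Z hY0 hZ, ← vau_conv Y0 Y1 Z hY0 hZ,
    ← vau_conv Y0 Y1 Z hY0 hZ]
  have e1 : ∑ p ∈ PR Y0 Y1, ((Real.log p / p : ℝ) : ℂ) * om (Real.log p) * ξ p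
      = ∑ n ∈ Ico Y0 Y1, ((Λ n : ℝ) : ℂ) * vau_wt om n * ξ n
        - ∑ n ∈ (Ico Y0 Y1).filter (fun n => ¬ n.Prime), ((Λ n : ℝ) : ℂ) * vau_wt om n * ξ n := by
    rw [← sum_filter_add_sum_filter_not (Ico Y0 Y1) Nat.Prime, add_sub_cancel_right]
    refine sum_congr rfl fun p hp => ?_
    rw [ArithmeticFunction.vonMangoldt_apply_prime (mem_filter.1 hp).2, vau_wt]
    push_cast
    ring
  have e2 : ∑ n ∈ Ico Y0 Y1, ((Λ n : ℝ) : ℂ) * vau_wt om n * ξ n
      = ∑ n ∈ Ico Y0 Y1, (((vau_lo U (μ : ArithmeticFunction ℝ) * ArithmeticFunction.log) n : ℝ) : ℂ)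
          * vau_wt om n * ξ n
        - ∑ n ∈ Ico Y0 Y1, (((vau_lo U (vau_c U) * (ζ : ArithmeticFunction ℝ)) n : ℝ) : ℂ)
          * vau_wt om n * ξ n
        - ∑ n ∈ Ico Y0 Y1, (((vau_hi U (vau_c U) * (ζ : ArithmeticFunction ℝ)) n : ℝ) : ℂ)
          * vau_wt om n * ξ n
        + ∑ n ∈ Ico Y0 Y1, (((vau_b U * vau_hi U Λ) n : ℝ) : ℂ) * vau_wt om n * ξ n := by
    rw [← sum_sub_distrib, ← sum_sub_distrib, ← sum_add_distrib]
    refine sum_congr rfl fun n hn => ?_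
    have hn1 := (mem_Ico.1 hn).1
    have h1 := congrArg (fun f : ArithmeticFunction ℝ => f n) (vau_identity U)
    simp only [ArithmeticFunction.add_apply] at h1
    rw [vau_lo_apply U Λ, if_neg (by omega)] at h1
    have h2 : Λ n = (vau_lo U (μ : ArithmeticFunction ℝ) * ArithmeticFunction.log) n
        - (vau_lo U (vau_c U) * (ζ : ArithmeticFunction ℝ)) n
        - (vau_hi U (vau_c U) * (ζ : ArithmeticFunction ℝ)) n + (vau_b U * vau_hi U Λ) n := by
      linarith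
    rw [h2]
    push_cast
    ring
  have b0 : ‖∑ n ∈ (Ico Y0 Y1).filter (fun n => ¬ n.Prime), ((Λ n : ℝ) : ℂ) * vau_wt om n * ξ n‖
      ≤ A * (∑ n ∈ (Ico Y0 Y1).filter (fun n => ¬ n.Prime), Λ n / n) := by
    rw [mul_sum]
    refine (norm_sum_le _ _).trans (sum_le_sum fun n _ => ?_)
    have h0 : 0 ≤ Λ n := ArithmeticFunction.vonMangoldt_nonneg
    have hA := h.nonneg
    rw [norm_mul, norm_mul, vau_wt, norm_div, Complex.norm_natCast, Complex.norm_real,
      Real.norm_of_nonneg h0]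
    calc _ ≤ Λ n * (A / n) * 1 := by
          gcongr
          · exact h.norm_le _
          · exact hξ.2.2 n
      _ = _ := by ring
  rw [e1, e2]
  generalize (∑ n ∈ Ico Y0 Y1, (((vau_lo U (μ : ArithmeticFunction ℝ)
    * ArithmeticFunction.log) n : ℝ) : ℂ) * vau_wt om n * ξ n) = s1
  generalize (∑ n ∈ Ico Y0 Y1, (((vau_lo U (vau_c U) * (ζ : ArithmeticFunction ℝ)) n : ℝ) : ℂ)
          * vau_wt om n * ξ n) = s2
  generalize (∑ n ∈ Ico Y0 Y1, (((vau_hi U (vau_c U) * (ζ : ArithmeticFunction ℝ)) n : ℝ) : ℂ)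
          * vau_wt om n * ξ n) = s3
  generalize (∑ n ∈ Ico Y0 Y1, (((vau_b U * vau_hi U Λ) n : ℝ) : ℂ) * vau_wt om n * ξ n) = s4
  refine (norm_sub_le _ _).trans ?_
  have t1 := norm_add_le (s1 - s2 - s3) s4
  have t2 := norm_sub_le (s1 - s2) s3
  have t3 := norm_sub_le s1 s2
  linarith

theorem blk_VAU (hPB : St_PB) (hMLS : St_MLS) : St_VAU := by
  intro ε hε
  obtain ⟨C, hC, hLS⟩ := hMLS
  obtain ⟨K, hK, hsm⟩ := vau_small (ε / 5) (by positivity)
  refine ⟨(16 + 4 * C) * K ^ 5, by positivity, ?_⟩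
  intro Y0 Y1 U R P A τ0 θ om φ F hU hUY hY hR hRY hθ hF hP0 hP i0 i1 bd rep hτ
  have h : vau_FD om φ A := ⟨i0, i1, bd, rep⟩
  have hA := h.nonneg
  have hU3 : U < Y0 := by nlinarith [Nat.mul_le_mul hU hU]
  have hY0 : 1 ≤ Y0 := by omega
  have hY1 : 1 ≤ Y1 := by omega
  have hτ0 : 0 ≤ τ0 := le_trans (norm_nonneg _) (hτ _ (Or.inl le_rfl))
  obtain ⟨J, hJ, q1, q2, q3, q4, q5⟩ := hsm Y1 hY1
  have eK : (16 + 4 * C) * K ^ 5 * (Y1 : ℝ) ^ ε
      = (16 + 4 * C) * (K * (Y1 : ℝ) ^ (ε / 5)) ^ 5 := by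
    rw [mul_pow, ← Real.rpow_natCast ((Y1 : ℝ) ^ (ε / 5)), ← Real.rpow_mul (by positivity)]
    norm_num
    ring
  rw [eK]
  generalize K * (Y1 : ℝ) ^ (ε / 5) = B at *
  have hB : 0 ≤ B := by linarith
  have hCM : ∀ x ∈ F, CM x.2 := fun x hx => by
    have := mem_sigma.1 (hF hx)
    exact (hPB.2.1 _ _ (mem_Icc.1 this.1).1 this.2).2.1
  have hcard : (F.card : ℝ) ≤ (R : ℝ) ^ 2 := by
    have h1 := card_le_card hF
    rw [card_sigma] at h1
    have h2 : ∑ q ∈ Icc 1 R, (prim q).card ≤ R ^ 2 := by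
      refine (sum_le_card_nsmul _ _ R fun q hq => ?_).trans (by simp [sq])
      exact (hPB.2.2.1 q (mem_Icc.1 hq).1).trans (mem_Icc.1 hq).2
    exact_mod_cast h1.trans h2
  have hlR : 1 + Real.log R ≤ B := by
    have : Real.log R ≤ Real.log Y1 :=
      Real.log_le_log (by exact_mod_cast hR) (by exact_mod_cast hRY)
    linarith
  have hlR0 : 0 ≤ Real.log R := Real.log_nonneg (by exact_mod_cast hR)
  have bc : ∀ d, d < 2 ^ J → |vau_c U d| ≤ B := fun d hd => (vau_c_abs U d).trans (q4 d hd)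
  have pp := vau_pp Y0 Y1 J hY0 hJ B hB q4
  have t1 : ∀ x ∈ F, ‖vau_BB Y0 Y1 (2 ^ J) om
      (fun n => (vau_lo U (μ : ArithmeticFunction ℝ) n : ℂ))
      (fun n => (ArithmeticFunction.log n : ℂ)) (θ * x.2)‖
      ≤ U * (B * (P * (A * (4 * B + 1) / Y0))) := by
    intro x hx
    refine vau_type1 h Y0 Y1 _ U hY0 hJ _ _ _ P B B hB hB (vau_CM_mul hθ (hCM x hx)) (hP x hx)
      (fun d _ => ?_) (fun d hd => ?_) (fun m _ hm => ?_) (fun m hm => ?_)
    · rw [Complex.norm_real, Real.norm_eq_abs, vau_lo_apply]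
      split_ifs
      · exact (vau_mu_abs d).trans q1
      · simpa using hB
    · rw [vau_lo_apply, if_neg (by omega)]; simp
    · rw [Complex.norm_real, ArithmeticFunction.log_apply,
        Real.norm_of_nonneg (Real.log_natCast_nonneg m)]
      exact q4 m hm
    · rw [← Complex.ofReal_sub, Complex.norm_real, Real.norm_eq_abs, ArithmeticFunction.log_apply,
        ArithmeticFunction.log_apply]
      exact vau_log_succ m hm
  have t2 : ∀ x ∈ F, ‖vau_BB Y0 Y1 (2 ^ J) om (fun n => (vau_lo U (vau_c U) n : ℂ))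
      (fun n => ((ζ : ArithmeticFunction ℝ) n : ℂ)) (θ * x.2)‖
      ≤ U * (B * (P * (A * (4 * B + 1) / Y0))) := by
    intro x hx
    refine vau_type1 h Y0 Y1 _ U hY0 hJ _ _ _ P B B hB hB (vau_CM_mul hθ (hCM x hx)) (hP x hx)
      (fun d hd => ?_) (fun d hd => ?_) (fun m hm _ => ?_) (fun m hm => ?_)
    · rw [Complex.norm_real, Real.norm_eq_abs, vau_lo_apply]
      split_ifs
      · exact bc d hd
      · simpa using hB
    · rw [vau_lo_apply, if_neg (by omega)]; simp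
    · simpa [ArithmeticFunction.zeta_apply_ne (by omega : m ≠ 0)] using q1
    · simp [ArithmeticFunction.zeta_apply_ne (by omega : m ≠ 0)]
  have t3 := vau_type2 hC hLS h Y0 Y1 U R J hY0 (by omega) hR τ0 hτ hY1 F hF hCM hcard θ hθ
    (fun n => (vau_hi U (vau_c U) n : ℂ)) (fun n => if U ≤ n then 1 else 0) B hB
    (fun d hd => by
      rw [Complex.norm_real, Real.norm_eq_abs, vau_hi_apply]
      split_ifs
      · simpa using hB
      · exact bc d hd)
    (fun k _ => by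
      split_ifs
      · simpa using q1
      · simpa using hB)
    (fun d hd => by rw [vau_hi_apply, if_pos (by omega)]; simp)
    (fun k hk => by rw [if_neg (by omega)])
  have t4 := vau_type2 hC hLS h Y0 Y1 U R J hY0 (by omega) hR τ0 hτ hY1 F hF hCM hcard θ hθ
    (fun n => (vau_b U n : ℂ)) (fun n => (vau_hi U Λ n : ℂ)) B hB
    (fun d hd => by
      rw [Complex.norm_real, Real.norm_eq_abs]
      exact (vau_b_abs U d).trans (q5 d hd))
    (fun k hk => by
      rw [Complex.norm_real, Real.norm_eq_abs, vau_hi_apply]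
      split_ifs
      · simpa using hB
      · rw [abs_of_nonneg ArithmeticFunction.vonMangoldt_nonneg]
        exact ArithmeticFunction.vonMangoldt_le_log.trans (q4 k hk))
    (fun d hd => by rw [vau_b_zero U d hd]; simp)
    (fun k hk => by rw [vau_hi_apply, if_pos (by omega)]; simp)
  have main : ∀ x ∈ F, ‖∑ p ∈ PR Y0 Y1,
      ((Real.log p / p : ℝ) : ℂ) * om (Real.log p) * θ p * x.2 p‖
      ≤ (A * (B * (J * (4 / √(Y0 : ℝ)))) + 2 * (U * (B * (P * (A * (4 * B + 1) / Y0)))))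
      + ‖vau_BB Y0 Y1 (2 ^ J) om (fun n => (vau_hi U (vau_c U) n : ℂ))
          (fun n => if U ≤ n then 1 else 0) (θ * x.2)‖
      + ‖vau_BB Y0 Y1 (2 ^ J) om (fun n => (vau_b U n : ℂ))
          (fun n => (vau_hi U Λ n : ℂ)) (θ * x.2)‖ := by
    intro x hx
    have d := vau_decomp h Y0 Y1 (2 ^ J) U hU hUY hJ (θ * x.2) (vau_CM_mul hθ (hCM x hx))
    have e : ∑ p ∈ PR Y0 Y1, ((Real.log p / p : ℝ) : ℂ) * om (Real.log p) * θ p * x.2 p
        = ∑ p ∈ PR Y0 Y1, ((Real.log p / p : ℝ) : ℂ) * om (Real.log p) * (θ * x.2) p :=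
      sum_congr rfl fun p _ => by rw [Pi.mul_apply]; ring
    rw [e]
    have := mul_le_mul_of_nonneg_left pp hA
    have := t1 x hx
    have := t2 x hx
    linarith
  refine (sum_le_sum main).trans ?_
  rw [sum_add_distrib, sum_add_distrib, sum_const, nsmul_eq_mul]
  set s : ℝ := R / √(U : ℝ) with hs
  set t : ℝ := (R : ℝ) ^ 2 / √(Y0 : ℝ) with ht
  set v : ℝ := (R : ℝ) ^ 2 * U * P / Y0 with hv
  have hs0 : 0 ≤ s := by positivity
  have ht0 : 0 ≤ t := by positivity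
  have hv0 : 0 ≤ v := by positivity
  have B2 : B ^ 2 ≤ B ^ 5 := pow_le_pow_right₀ q1 (by norm_num)
  have B4 : B ^ 4 ≤ B ^ 5 := pow_le_pow_right₀ q1 (by norm_num)
  have f1 : (F.card : ℝ) * (A * (B * (J * (4 / √(Y0 : ℝ))))
      + 2 * (U * (B * (P * (A * (4 * B + 1) / Y0))))) ≤ B ^ 5 * (4 * (A * t) + 10 * (A * v)) := by
    calc _ ≤ (R : ℝ) ^ 2 * (A * (B * (B * (4 / √(Y0 : ℝ))))
          + 2 * (U * (B * (P * (A * (4 * B + B) / Y0))))) := by gcongr
      _ = B ^ 2 * (4 * (A * t) + 10 * (A * v)) := by rw [ht, hv]; ring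
      _ ≤ _ := by gcongr
  have f2 : (J : ℝ) ^ 2 * (B ^ 2 * (2 * C * (1 + Real.log R) * (A * (1 + s + t))
      + τ0 * (R : ℝ) ^ 2)) ≤ B ^ 5 * (2 * C * (A * (1 + s + t)) + τ0 * (R : ℝ) ^ 2) := by
    calc _ ≤ B ^ 2 * (B ^ 2 * (2 * C * B * (A * (1 + s + t)) + τ0 * (R : ℝ) ^ 2)) := by gcongr
      _ = B ^ 5 * (2 * C * (A * (1 + s + t))) + B ^ 4 * (τ0 * (R : ℝ) ^ 2) := by ring
      _ ≤ B ^ 5 * (2 * C * (A * (1 + s + t))) + B ^ 5 * (τ0 * (R : ℝ) ^ 2) := by gcongr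
      _ = _ := by ring
  have f3 : 4 * (A * t) + 10 * (A * v) + 2 * (2 * C * (A * (1 + s + t)) + τ0 * (R : ℝ) ^ 2)
      ≤ (16 + 4 * C) * (A * (1 + s + t + v) + τ0 * (R : ℝ) ^ 2) := by
    have g1 : 0 ≤ A * s := by positivity
    have g2 : 0 ≤ A * t := by positivity
    have g3 : 0 ≤ A * v := by positivity
    have g4 : 0 ≤ τ0 * (R : ℝ) ^ 2 := by positivity
    have g5 : 0 ≤ C * (A * v) := by positivity
    have g6 : 0 ≤ C * (τ0 * (R : ℝ) ^ 2) := by positivity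
    nlinarith
  have f4 := mul_le_mul_of_nonneg_left f3 (pow_nonneg hB 5)
  nlinarith

end Pool.Agent.Lib.PS
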