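import Pool.Agent.Lib.PS.Blue

/-! Block WT: the prime weight. -/

namespace Pool.Agent.Lib.PS

open Finset Real MeasureTheory Complex Filter Topology
open scoped NumberTheorySymbols ArithmeticFunction.Moebius ArithmeticFunction.vonMangoldt
  Classical ComplexConjugate ContDiff

lemma wt_cont (α K : ℝ) : Continuous (tri α K) := by
  unfold tri
  fun_prop

lemma wt_nonneg (α K s : ℝ) : 0 ≤ tri α K s := by
  unfold tri
  positivity

lemma wt_zero {α K s : ℝ} (h : s ≤ α ∨ α + 2 * K ≤ s) : tri α K s = 0 := by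
  unfold tri
  rw [max_eq_right, zero_div]
  rcases h with h | h
  · have := neg_abs_le (s - α - K)
    linarith
  · have := le_abs_self (s - α - K)
    linarith

lemma wt_supp {α K : ℝ} (hα : 0 ≤ α) (hK : 0 < K) (s : ℝ) (h : α + 2 * K ≤ |s|) : tri α K s = 0 := by
  refine wt_zero ?_
  rcases le_abs.1 h with h | h
  · exact Or.inr h
  · exact Or.inl (by linarith)

lemma wt_le {K : ℝ} (α : ℝ) (hK : 0 < K) (s : ℝ) : |tri α K s| ≤ 1 / K := by
  rw [abs_of_nonneg (wt_nonneg α K s)]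
  unfold tri
  rw [div_le_div_iff₀ (by positivity) hK]
  have : max (K - |s - α - K|) 0 ≤ K := max_le (by linarith [abs_nonneg (s - α - K)]) hK.le
  nlinarith

lemma wt_gK {K : ℝ} {z : ℂ} (hz : z ≠ 0) : gK K z = (1 - cexp (-(z * K))) / z := by
  unfold gK
  have h : ∀ t : ℝ, HasDerivAt (fun t : ℝ => -cexp (-(z * t)) / z) (cexp (-(z * t))) t := fun t => by
    have h1 : HasDerivAt (fun t : ℝ => -(z * (t : ℂ))) (-z) t := by
      simpa using ((hasDerivAt_id (t : ℂ)).const_mul z).neg.comp_ofReal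
    have h2 := (h1.cexp.fun_neg).div_const z
    refine h2.congr_deriv ?_
    field_simp
  rw [intervalIntegral.integral_eq_sub_of_hasDerivAt (fun t _ => h t)
    (Continuous.intervalIntegrable (by fun_prop) _ _)]
  simp
  ring

lemma wt_L2 {α K : ℝ} (hK : 0 < K) (z : ℂ) : L2 (tri α K) (-z) = HH α K z := by
  have hc : Continuous fun s : ℝ => (tri α K s : ℂ) * cexp (-z * s) := by
    have := wt_cont α K
    fun_prop
  have hK' : (K : ℂ) ≠ 0 := by exact_mod_cast hK.ne'
  unfold L2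
  rw [← intervalIntegral.integral_eq_integral_of_support_subset (a := α) (b := α + 2 * K)]
  swap
  · intro s hs
    by_contra hn
    refine hs ?_
    have : tri α K s = 0 := by
      refine wt_zero ?_
      rw [Set.mem_Ioc, not_and_or, not_lt, not_le] at hn
      exact hn.imp id le_of_lt
    simp [this]
  rw [← intervalIntegral.integral_add_adjacent_intervals (b := α + K) (hc.intervalIntegrable _ _)
    (hc.intervalIntegrable _ _)]
  have e1 : ∫ s in α..α + K, (tri α K s : ℂ) * cexp (-z * s) =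
      ∫ s in α..α + K, ((s : ℂ) - α) / K ^ 2 * cexp (-z * s) := by
    refine intervalIntegral.integral_congr fun s hs => ?_
    rw [Set.uIcc_of_le (by linarith)] at hs
    have : tri α K s = (s - α) / K ^ 2 := by
      unfold tri
      rw [abs_of_nonpos (by linarith [hs.2]), max_eq_left (by linarith [hs.1])]
      ring
    simp only [this]
    push_cast
    rfl
  have e2 : ∫ s in α + K..α + 2 * K, (tri α K s : ℂ) * cexp (-z * s) =
      ∫ s in α + K..α + 2 * K, ((α : ℂ) + 2 * K - s) / K ^ 2 * cexp (-z * s) := by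
    refine intervalIntegral.integral_congr fun s hs => ?_
    rw [Set.uIcc_of_le (by linarith)] at hs
    have : tri α K s = (α + 2 * K - s) / K ^ 2 := by
      unfold tri
      rw [abs_of_nonneg (by linarith [hs.1]), max_eq_left (by linarith [hs.2])]
      ring
    simp only [this]
    push_cast
    rfl
  rw [e1, e2]
  have d0 : ∀ t : ℝ, HasDerivAt (fun t : ℝ => (t : ℂ)) 1 t := fun t => by
    simpa using (hasDerivAt_id (t : ℂ)).comp_ofReal
  rcases eq_or_ne z 0 with rfl | hz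
  · have a1 : ∀ t : ℝ, HasDerivAt (fun t : ℝ => ((t : ℂ) - α) ^ 2 / (2 * K ^ 2))
        (((t : ℂ) - α) / K ^ 2 * cexp (-0 * t)) t := fun t => by
      have h2 := (((d0 t).sub_const (α : ℂ)).fun_pow 2).div_const (2 * (K : ℂ) ^ 2)
      refine h2.congr_deriv ?_
      simp
      field_simp
    have a2 : ∀ t : ℝ, HasDerivAt (fun t : ℝ => -((α : ℂ) + 2 * K - t) ^ 2 / (2 * K ^ 2))
        (((α : ℂ) + 2 * K - t) / K ^ 2 * cexp (-0 * t)) t := fun t => by
      have h2 := ((((d0 t).const_sub ((α : ℂ) + 2 * K)).fun_pow 2).fun_neg).div_const (2 * (K : ℂ) ^ 2)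
      refine h2.congr_deriv ?_
      simp
      field_simp
    rw [intervalIntegral.integral_eq_sub_of_hasDerivAt (fun t _ => a1 t)
      (Continuous.intervalIntegrable (by fun_prop) _ _),
      intervalIntegral.integral_eq_sub_of_hasDerivAt (fun t _ => a2 t)
      (Continuous.intervalIntegrable (by fun_prop) _ _)]
    unfold HH gK
    simp
    field_simp
    ring
  · have d1 : ∀ t : ℝ, HasDerivAt (fun t : ℝ => cexp (-z * t)) (cexp (-z * t) * (-z)) t := fun t => by
      simpa using ((d0 t).const_mul (-z)).cexp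
    have a1 : ∀ t : ℝ, HasDerivAt (fun t : ℝ => (-((t : ℂ) - α) / z - 1 / z ^ 2) / K ^ 2 * cexp (-z * t))
        (((t : ℂ) - α) / K ^ 2 * cexp (-z * t)) t := fun t => by
      have h2 := ((((((d0 t).sub_const (α : ℂ)).fun_neg).div_const z).sub_const (1 / z ^ 2)).div_const
        ((K : ℂ) ^ 2)).fun_mul (d1 t)
      refine h2.congr_deriv ?_
      field_simp
      ring
    have a2 : ∀ t : ℝ, HasDerivAt
        (fun t : ℝ => (-((α : ℂ) + 2 * K - t) / z + 1 / z ^ 2) / K ^ 2 * cexp (-z * t))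
        (((α : ℂ) + 2 * K - t) / K ^ 2 * cexp (-z * t)) t := fun t => by
      have h2 := ((((((d0 t).const_sub ((α : ℂ) + 2 * K)).fun_neg).div_const z).add_const
        (1 / z ^ 2)).div_const ((K : ℂ) ^ 2)).fun_mul (d1 t)
      refine h2.congr_deriv ?_
      field_simp
      ring
    rw [intervalIntegral.integral_eq_sub_of_hasDerivAt (fun t _ => a1 t)
      (Continuous.intervalIntegrable (by fun_prop) _ _),
      intervalIntegral.integral_eq_sub_of_hasDerivAt (fun t _ => a2 t)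
      (Continuous.intervalIntegrable (by fun_prop) _ _)]
    unfold HH
    rw [wt_gK hz]
    have x1 : cexp (-z * ((α + K : ℝ) : ℂ)) = cexp (-(α * z)) * cexp (-(z * K)) := by
      rw [← Complex.exp_add]
      push_cast
      ring_nf
    have x2 : cexp (-z * ((α + 2 * K : ℝ) : ℂ)) = cexp (-(α * z)) * cexp (-(z * K)) ^ 2 := by
      rw [sq, ← Complex.exp_add, ← Complex.exp_add]
      push_cast
      ring_nf
    have x3 : cexp (-z * (α : ℂ)) = cexp (-(α * z)) := by ring_nf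
    rw [x1, x2, x3]
    push_cast
    field_simp
    ring

lemma wt_gK_le {K : ℝ} (hK : 0 < K) {z : ℂ} (hz : 0 ≤ z.re) : ‖gK K z‖ ≤ K ∧ ‖gK K z‖ * ‖z‖ ≤ 2 := by
  have h : ∀ t : ℝ, 0 ≤ t → ‖cexp (-(z * t))‖ ≤ 1 := fun t ht => by
    rw [Complex.norm_exp, Real.exp_le_one_iff]
    simp only [neg_re, mul_re, ofReal_re, ofReal_im, mul_zero, sub_zero]
    nlinarith
  constructor
  · have := intervalIntegral.norm_integral_le_of_norm_le_const (a := 0) (b := K) (C := 1)
      (f := fun t : ℝ => cexp (-(z * t))) fun t ht => h t (by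
        rw [Set.uIoc_of_le hK.le] at ht
        exact ht.1.le)
    rwa [sub_zero, abs_of_pos hK, one_mul] at this
  · rcases eq_or_ne z 0 with rfl | h0
    · simp
    · rw [wt_gK h0, ← norm_mul, div_mul_cancel₀ _ h0]
      have := norm_sub_le (1 : ℂ) (cexp (-(z * K)))
      rw [norm_one] at this
      linarith [h K hK.le]

lemma wt_HH {K : ℝ} (α : ℝ) (hK : 0 < K) {z : ℂ} (hz : 0 ≤ z.re) :
    ‖HH α K z‖ ≤ Real.exp (-(α * z.re)) ∧
      ‖HH α K z‖ * ‖z‖ ^ 2 ≤ 4 / K ^ 2 * Real.exp (-(α * z.re)) := by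
  obtain ⟨h1, h2⟩ := wt_gK_le hK hz
  have e : ‖HH α K z‖ = Real.exp (-(α * z.re)) * ‖gK K z‖ ^ 2 / K ^ 2 := by
    unfold HH
    rw [norm_div, norm_mul, norm_pow, norm_pow, Complex.norm_exp, Complex.norm_real,
      Real.norm_of_nonneg hK.le]
    simp
  have p := Real.exp_pos (-(α * z.re))
  have a1 := pow_le_pow_left₀ (norm_nonneg _) h1 2
  have a2 := pow_le_pow_left₀ (by positivity) h2 2
  rw [e]
  constructor
  · rw [div_le_iff₀ (by positivity)]
    exact mul_le_mul_of_nonneg_left a1 p.le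
  · calc _ = Real.exp (-(α * z.re)) / K ^ 2 * (‖gK K z‖ * ‖z‖) ^ 2 := by ring
      _ ≤ Real.exp (-(α * z.re)) / K ^ 2 * 2 ^ 2 := mul_le_mul_of_nonneg_left a2 (by positivity)
      _ = _ := by ring

lemma wt_gs (hGS : St_GS) {α K κ : ℝ} (hα : 0 ≤ α) (hK : 0 < K) (hκ : 0 < κ) :
    (∀ t, 0 ≤ hs κ α K t ∧ hs κ α K t ≤ 1 / K) ∧
    (∀ t d : ℝ, 0 ≤ d → (t ≤ α - d ∨ α + 2 * K + d ≤ t) →
      hs κ α K t ≤ 2 / K * Real.exp (-(κ * d ^ 2 / 2))) ∧
    ∀ t : ℝ, Integrable (fun y : ℝ => Psi κ (tri α K) (y * I)) ∧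
      (hs κ α K t : ℂ) = (∫ y : ℝ, Psi κ (tri α K) (y * I) * cexp (-(y * I * t))) / (2 * π) := by
  obtain ⟨-, h2, h3, h4, -, -, -, -, h9⟩ := hGS κ (α + 2 * K) (1 / K) (tri α K) hκ (by linarith)
    (wt_cont α K) (wt_supp hα hK) (wt_le α hK)
  refine ⟨fun t => ⟨h3 (wt_nonneg α K) t, (le_abs_self _).trans (h2 t)⟩, fun t d hd ht => ?_, fun t => ?_⟩
  · have := h4 t d hd fun s hs => wt_zero (by
      have := abs_lt.1 hs
      rcases ht with h | h
      · exact Or.inl (by linarith)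
      · exact Or.inr (by linarith))
    rw [mul_one_div] at this
    exact (le_abs_self _).trans this
  · simpa [hs] using h9 0 t

lemma wt_psi {α K κ : ℝ} (hK : 0 < K) (y : ℝ) :
    ‖Psi κ (tri α K) (y * I)‖ ≤ (1 + 4 / K ^ 2) * (1 + y ^ 2)⁻¹ * Real.exp (-(y ^ 2 / (2 * κ))) := by
  have e : L2 (tri α K) (y * I) = HH α K (-(y * I)) := by rw [← wt_L2 hK, neg_neg]
  obtain ⟨h1, h2⟩ := wt_HH α hK (z := -(y * I)) (by simp)
  have e1 : (-((y : ℂ) * I)).re = 0 := by simp
  have e2 : ‖-((y : ℂ) * I)‖ ^ 2 = y ^ 2 := by simp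
  rw [e1, mul_zero, neg_zero, Real.exp_zero] at h1 h2
  rw [e2] at h2
  have e3 : ((y : ℂ) * I) ^ 2 / (2 * κ) = ((-(y ^ 2 / (2 * κ)) : ℝ) : ℂ) := by
    rw [mul_pow, I_sq]
    push_cast
    ring
  unfold Psi
  rw [norm_mul, e, e3, Complex.norm_exp, ofReal_re]
  refine mul_le_mul_of_nonneg_right ?_ (Real.exp_pos _).le
  rw [← div_eq_mul_inv, le_div_iff₀ (by positivity)]
  linarith

lemma wt_five (hGS : St_GS) {α K : ℝ} (hα : 0 ≤ α) (hK : 0 < K) :
    ∃ C : ℝ, ∀ l cg : ℝ, 1 ≤ l → 0 < cg → cg ≤ 1 → ∃ φ : ℝ → ℂ, Integrable φ ∧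
      Integrable (fun y : ℝ => (y : ℂ) * φ y) ∧ (∫ y : ℝ, (1 + |y|) * ‖φ y‖) ≤ C / cg ∧
      ∀ u : ℝ, (hs (l / cg) α K (u / l) : ℂ) = ∫ y : ℝ, φ y * cexp (-(I * y * u)) := by
  set C0 := 1 + 4 / K ^ 2 with hC0
  have c0 : 0 < C0 := by positivity
  refine ⟨C0 * 6, fun l cg hl hc hc1 => ?_⟩
  have l0 : 0 < l := by linarith
  have hκ : 0 < l / cg := by positivity
  obtain ⟨-, -, h3⟩ := wt_gs hGS hα hK hκ
  set P : ℝ → ℂ := fun y => Psi (l / cg) (tri α K) (y * I) with hP
  have i1 : Integrable fun y : ℝ => ((l / (2 * π) : ℝ) : ℂ) * P (l * y) :=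
    ((h3 0).1.comp_mul_left' l0.ne').const_mul _
  have j1 : Integrable fun y : ℝ => l * (1 + (l * y) ^ 2)⁻¹ :=
    (integrable_inv_one_add_sq.comp_mul_left' l0.ne').const_mul l
  have j2 : Integrable fun y : ℝ => Real.exp (-(cg / 2) * y ^ 2) := integrable_exp_neg_mul_sq (by positivity)
  have j3 : Integrable fun y : ℝ => C0 * (l * (1 + (l * y) ^ 2)⁻¹ + Real.exp (-(cg / 2) * y ^ 2)) :=
    (j1.add j2).const_mul _
  have bd : ∀ y : ℝ, (1 + |y|) * ‖((l / (2 * π) : ℝ) : ℂ) * P (l * y)‖ ≤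
      C0 * (l * (1 + (l * y) ^ 2)⁻¹ + Real.exp (-(cg / 2) * y ^ 2)) := fun y => by
    have h1 := wt_psi (α := α) (κ := l / cg) hK (l * y)
    have h2 : Real.exp (-((l * y) ^ 2 / (2 * (l / cg)))) ≤ Real.exp (-(cg / 2) * y ^ 2) := by
      refine Real.exp_le_exp.2 ?_
      have : (l * y) ^ 2 / (2 * (l / cg)) = l * (cg / 2 * y ^ 2) := by field_simp
      rw [this]
      have : 0 ≤ cg / 2 * y ^ 2 := by positivity
      nlinarith
    have h4 : Real.exp (-(cg / 2) * y ^ 2) ≤ 1 := by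
      rw [Real.exp_le_one_iff]
      have : 0 ≤ cg / 2 * y ^ 2 := by positivity
      linarith
    have h5 : l / (2 * π) ≤ l := div_le_self l0.le (by linarith [Real.pi_gt_three])
    have h6 : l * |y| * (1 + (l * y) ^ 2)⁻¹ ≤ 1 := by
      rw [← div_eq_mul_inv, div_le_one (by positivity), mul_pow, ← sq_abs y]
      nlinarith [sq_nonneg (l * |y| - 1)]
    rw [norm_mul, Complex.norm_real, Real.norm_of_nonneg (by positivity)]
    set q := (1 + (l * y) ^ 2)⁻¹
    set E := Real.exp (-(cg / 2) * y ^ 2)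
    have q0 : 0 < q := by positivity
    have E0 : 0 < E := Real.exp_pos _
    have h7 : ‖P (l * y)‖ ≤ C0 * q * E := h1.trans (mul_le_mul_of_nonneg_left h2 (by positivity))
    calc _ ≤ (1 + |y|) * (l * (C0 * q * E)) := by gcongr
      _ = C0 * (l * q * E + l * |y| * q * E) := by ring
      _ ≤ C0 * (l * q * 1 + 1 * E) := by gcongr
      _ = _ := by ring
  refine ⟨fun y => ((l / (2 * π) : ℝ) : ℂ) * P (l * y), i1, ?_, ?_, fun u => ?_⟩
  · refine j3.mono' (continuous_ofReal.aestronglyMeasurable.mul i1.1) (ae_of_all _ fun y => ?_)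
    refine le_trans ?_ (bd y)
    rw [norm_mul, Complex.norm_real, Real.norm_eq_abs]
    exact mul_le_mul_of_nonneg_right (by linarith) (norm_nonneg _)
  · refine (integral_mono_of_nonneg (ae_of_all _ fun y => by positivity) j3 (ae_of_all _ bd)).trans ?_
    rw [integral_const_mul, integral_add j1 j2, integral_const_mul,
      Measure.integral_comp_mul_left (fun x : ℝ => (1 + x ^ 2)⁻¹), integral_univ_inv_one_add_sq,
      integral_gaussian, abs_of_pos (by positivity), smul_eq_mul, ← mul_assoc l,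
      mul_inv_cancel₀ l0.ne', one_mul, mul_div_assoc]
    refine mul_le_mul_of_nonneg_left ?_ c0.le
    have p1 := Real.pi_lt_d2
    have p2 : √(π / (cg / 2)) ≤ 2.6 / cg := by
      rw [Real.sqrt_le_left (by positivity), div_pow, div_le_div_iff₀ (by positivity) (by positivity)]
      nlinarith [mul_pos hc hc, mul_le_mul_of_nonneg_left hc1 hc.le]
    have p3 : π ≤ 3.4 / cg := by
      rw [le_div_iff₀ hc]
      nlinarith
    calc _ ≤ 3.4 / cg + 2.6 / cg := add_le_add p3 p2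
      _ = _ := by ring
  · rw [(h3 (u / l)).2]
    have e := Measure.integral_comp_mul_left
      (fun y : ℝ => Psi (l / cg) (tri α K) (y * I) * cexp (-(y * I * ((u / l : ℝ) : ℂ)))) l
    have l1 : (l : ℂ) ≠ 0 := by exact_mod_cast l0.ne'
    have e1 : ∀ y : ℝ, ((l / (2 * π) : ℝ) : ℂ) * P (l * y) * cexp (-(I * y * u)) =
        ((l / (2 * π) : ℝ) : ℂ) * (Psi (l / cg) (tri α K) (((l * y : ℝ) : ℂ) * I) *
          cexp (-(((l * y : ℝ) : ℂ) * I * ((u / l : ℝ) : ℂ)))) := fun y => by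
      rw [mul_assoc]
      congr 4
      push_cast
      field_simp
    simp only [e1]
    rw [integral_const_mul, e, abs_of_pos (by positivity), real_smul]
    have : (π : ℂ) ≠ 0 := by exact_mod_cast Real.pi_ne_zero
    generalize (∫ y : ℝ, Psi (l / cg) (tri α K) (y * I) * cexp (-(y * I * ((u / l : ℝ) : ℂ)))) = X
    push_cast
    field_simp

lemma wt_sum {c : ℝ} (hc : 0 < c) : Summable fun n : ℕ => Λ n / n * Real.exp (-(c * Real.log n)) := by
  have h := (ArithmeticFunction.LSeriesSummable_vonMangoldt (s := ((1 + c : ℝ) : ℂ)) (by simpa using hc)).norm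
  refine h.congr fun n => ?_
  rcases eq_or_ne n 0 with rfl | hn
  · simp
  · have n0 : (0 : ℝ) < n := by positivity
    rw [LSeries.norm_term_eq, if_neg hn, ofReal_re, Complex.norm_real,
      Real.norm_of_nonneg ArithmeticFunction.vonMangoldt_nonneg, Real.rpow_add n0, Real.rpow_one,
      Real.rpow_def_of_pos n0, Real.exp_neg, mul_comm c]
    field_simp

lemma wt_out (hGS : St_GS) {α K e l κ x : ℝ} (h3 : 3 ≤ α) (h4 : α ≤ 4) (hK : 0 < K) (hK1 : K ≤ 1)
    (he : 0 < e) (he1 : e ≤ 1) (hl : 0 < l) (hκ : l ≤ κ)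
    (hx : x ≤ (α - e) * l ∨ (α + 2 * K + e) * l ≤ x) :
    hs κ α K (x / l) ≤ 2 / K * Real.exp (-(e ^ 2 / 4 * l)) * Real.exp (-(e ^ 2 / 28 * x)) := by
  obtain ⟨-, h, -⟩ := wt_gs hGS (α := α) (by linarith) hK (hl.trans_le hκ)
  have e2 : 0 < e ^ 2 := by positivity
  rw [mul_assoc, ← Real.exp_add]
  rcases hx with hx | hx
  · refine (h (x / l) e he.le (Or.inl (by rwa [div_le_iff₀ hl]))).trans ?_
    refine mul_le_mul_of_nonneg_left (Real.exp_le_exp.2 ?_) (by positivity)
    have a1 : x ≤ 4 * l := by nlinarith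
    nlinarith [mul_le_mul_of_nonneg_left a1 e2.le, mul_le_mul_of_nonneg_left hκ e2.le, mul_pos e2 hl]
  · obtain ⟨d, hd⟩ : ∃ d, d = x / l - α - 2 * K := ⟨_, rfl⟩
    have a0 : x = (d + α + 2 * K) * l := by rw [hd]; field_simp; ring
    have a1 : e ≤ d := by
      rw [a0] at hx
      have := le_of_mul_le_mul_right hx hl
      linarith
    refine (h (x / l) d (by linarith) (Or.inr (by linarith))).trans ?_
    refine mul_le_mul_of_nonneg_left (Real.exp_le_exp.2 ?_) (by positivity)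
    have a2 : e * (d + α + 2 * K) ≤ 7 * d := by nlinarith
    have a3 : e ^ 2 / 4 + e ^ 2 / 28 * (d + α + 2 * K) ≤ d ^ 2 / 2 := by
      nlinarith [mul_le_mul_of_nonneg_left a2 he.le, mul_le_mul_of_nonneg_left a1 he.le,
        mul_le_mul_of_nonneg_right a1 (he.le.trans a1)]
    rw [a0]
    nlinarith [mul_le_mul_of_nonneg_left a3 hl.le, mul_le_mul_of_nonneg_left hκ (sq_nonneg d)]

lemma wt_six (hGS : St_GS) {α K : ℝ} (h3 : 3 ≤ α) (h4 : α ≤ 4) (hK : 0 < K) (hK1 : K ≤ 1)
    {η cg : ℝ} (hη : 0 < η) (hη1 : η ≤ 1) (hc : 0 < cg) (hc1 : cg ≤ 1) :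
    ∃ c3 l0 : ℝ, 0 < c3 ∧ ∀ l : ℝ, l0 ≤ l → ∀ χ : ℕ → ℂ, (∀ k, ‖χ k‖ ≤ 1) →
      ‖psiP χ l cg α K η / l - psiT χ l cg α K‖ ≤ Real.exp (-(c3 * l)) := by
  obtain ⟨e, he⟩ : ∃ e, e = η / 6 := ⟨_, rfl⟩
  have e0 : 0 < e := by linarith
  have e1 : e ≤ 1 / 6 := by linarith
  have e2 : 0 < e ^ 2 := by positivity
  have hsum := wt_sum (c := e ^ 2 / 28) (by positivity)
  obtain ⟨C1, hC1⟩ := Chebyshev.psi_sub_theta_le_mul_sqrt
  set C2 := ∑' n : ℕ, Λ n / n * Real.exp (-(e ^ 2 / 28 * Real.log n)) with hC2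
  set C3 := (2 * |C2| + |C1|) / K with hC3
  have c3 : 0 ≤ C3 := by positivity
  refine ⟨e ^ 2 / 8, 1 + 1 / e + 8 * C3 / e ^ 2, by positivity, fun l hl χ hχ => ?_⟩
  have q1 : 0 < 1 / e := by positivity
  have q2 : 0 ≤ 8 * C3 / e ^ 2 := by positivity
  have l1 : 1 ≤ l := by linarith
  have l0 : 0 < l := by linarith
  have l2 : 1 ≤ e * l := by
    have : 1 / e ≤ l := by linarith
    rwa [div_le_iff₀' e0] at this
  have l3 : C3 ≤ e ^ 2 / 8 * l := by
    have : 8 * C3 / e ^ 2 ≤ l := by linarith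
    rw [div_le_iff₀ e2] at this
    linarith
  have hκ : l ≤ l / cg := le_div_self l0.le hc hc1
  obtain ⟨hb, -, -⟩ := wt_gs hGS (α := α) (by linarith) hK (l0.trans_le hκ)
  set S := PR (Ylo α η l) (Yhi α K η l) with hS
  set f : ℕ → ℂ := fun n => lam χ n / n * (hs (l / cg) α K (Real.log n / l) : ℂ) with hf
  set Y := Real.exp ((α + 2 * K + e) * l) with hY
  set W := (Ioc 0 ⌊Y⌋₊).filter fun n => ¬ n.Prime with hW
  set a := 2 / K * Real.exp (-(e ^ 2 / 4 * l)) with ha
  set b := Real.exp (-((α - e) * l)) / K with hb'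
  have a0 : 0 ≤ a := by positivity
  have b0 : 0 ≤ b := by positivity
  have nf : ∀ n, ‖f n‖ ≤ Λ n / n * hs (l / cg) α K (Real.log n / l) := fun n => by
    simp only [hf, lam, norm_mul, norm_div, Complex.norm_real, Complex.norm_natCast,
      Real.norm_of_nonneg (hb _).1, Real.norm_of_nonneg ArithmeticFunction.vonMangoldt_nonneg]
    refine mul_le_mul_of_nonneg_right (div_le_div_of_nonneg_right ?_ (Nat.cast_nonneg n)) (hb _).1
    exact mul_le_of_le_one_right ArithmeticFunction.vonMangoldt_nonneg (hχ n)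
  have key : ∀ n, ‖if n ∈ S then 0 else f n‖ ≤
      a * (Λ n / n * Real.exp (-(e ^ 2 / 28 * Real.log n))) + if n ∈ W then b * Λ n else 0 := fun n => by
    have v0 : 0 ≤ Λ n := ArithmeticFunction.vonMangoldt_nonneg
    have t1 : 0 ≤ a * (Λ n / n * Real.exp (-(e ^ 2 / 28 * Real.log n))) := by positivity
    have t2 : 0 ≤ if n ∈ W then b * Λ n else 0 := by split_ifs <;> positivity
    by_cases hn : n ∈ S
    · rw [if_pos hn, norm_zero]
      linarith
    rw [if_neg hn]
    refine (nf n).trans ?_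
    rcases eq_or_ne n 0 with rfl | n0
    · simp
    have n1 : (0 : ℝ) < n := by positivity
    by_cases hx : Real.log n ≤ (α - e) * l ∨ (α + 2 * K + e) * l ≤ Real.log n
    · have := mul_le_mul_of_nonneg_left (wt_out hGS h3 h4 hK hK1 e0 (by linarith) l0 hκ hx)
        (show 0 ≤ Λ n / n by positivity)
      refine this.trans (le_add_of_le_of_nonneg (le_of_eq ?_) t2)
      rw [ha]
      ring
    rw [not_or, not_le, not_le, Real.lt_log_iff_exp_lt n1, Real.log_lt_iff_lt_exp n1] at hx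
    have np : ¬ n.Prime := fun hp => hn (by
      rw [hS, PR, mem_filter, mem_Ico]
      refine ⟨⟨Nat.ceil_le.2 (le_trans (Real.exp_le_exp.2 (by nlinarith)) hx.1.le), ?_⟩, hp⟩
      refine Nat.lt_iff_add_one_le.2 (Nat.le_floor ?_)
      have y1 : 1 ≤ Y := Real.one_le_exp (by positivity)
      have y2 : Real.exp ((α + 2 * K + η) * l) = Y * Real.exp (5 * (e * l)) := by
        rw [hY, ← Real.exp_add, he]
        ring_nf
      have y3 := Real.add_one_le_exp (5 * (e * l))
      rw [y2]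
      push_cast
      nlinarith [hx.2])
    have nW : n ∈ W := by
      rw [hW, mem_filter, mem_Ioc]
      exact ⟨⟨Nat.pos_of_ne_zero n0, Nat.le_floor hx.2.le⟩, np⟩
    rw [if_pos nW]
    refine le_add_of_nonneg_of_le t1 ?_
    have u1 : 1 / (n : ℝ) ≤ Real.exp (-((α - e) * l)) := by
      rw [Real.exp_neg, ← one_div]
      exact one_div_le_one_div_of_le (Real.exp_pos _) hx.1.le
    calc _ = Λ n * (1 / n) * hs (l / cg) α K (Real.log n / l) := by ring
      _ ≤ Λ n * Real.exp (-((α - e) * l)) * (1 / K) :=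
        mul_le_mul (mul_le_mul_of_nonneg_left u1 v0) (hb _).2 (hb _).1 (by positivity)
      _ = _ := by rw [hb']; ring
  have s1 : HasSum (fun n : ℕ => if n ∈ W then b * Λ n else 0) (b * (Chebyshev.psi Y - Chebyshev.theta Y)) := by
    rw [Chebyshev.psi_sub_theta_eq_sum_not_prime, mul_sum]
    have := hasSum_sum_of_ne_finset_zero (L := SummationFilter.unconditional ℕ)
      (f := fun n : ℕ => if n ∈ W then b * Λ n else 0) (s := W) fun n hn => if_neg hn
    rwa [sum_congr rfl fun n hn => if_pos hn] at this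
  have s2 := (hsum.hasSum.mul_left a).add s1
  have s3 := tsum_of_norm_bounded s2 key
  have s4 : Summable fun n => if n ∈ S then 0 else f n := s2.summable.of_norm_bounded key
  have s5 : HasSum (fun n : ℕ => if n ∈ S then f n else 0) (psiP χ l cg α K η) := by
    have := hasSum_sum_of_ne_finset_zero (L := SummationFilter.unconditional ℕ)
      (f := fun n : ℕ => if n ∈ S then f n else 0) (s := S) fun n hn => if_neg hn
    rw [sum_congr rfl fun n hn => if_pos hn] at this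
    convert this using 1
    refine sum_congr rfl fun p hp => ?_
    have hp' : p.Prime := (mem_filter.1 hp).2
    simp only [hf, lam, ap, ArithmeticFunction.vonMangoldt_apply_prime hp']
    push_cast
    ring
  have s6 : psiT χ l cg α K = ((∑' n, if n ∈ S then 0 else f n) + psiP χ l cg α K η) / l := by
    have := (s4.hasSum.add s5).tsum_eq
    rw [← this]
    unfold psiT Ks
    congr 1
    refine tsum_congr fun n => ?_
    split_ifs <;> simp [hf]
  rw [s6, ← sub_div, sub_add_cancel_right, norm_div, norm_neg, Complex.norm_real,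
    Real.norm_of_nonneg l0.le]
  refine (div_le_self (norm_nonneg _) l1).trans (s3.trans ?_)
  have r1 : √Y * Real.exp (-((α - e) * l)) ≤ Real.exp (-(e ^ 2 / 4 * l)) := by
    rw [hY, ← Real.exp_half, ← Real.exp_add]
    refine Real.exp_le_exp.2 ?_
    have : (α + 2 * K + e) / 2 - (α - e) ≤ -(e ^ 2 / 4) := by nlinarith
    nlinarith [mul_le_mul_of_nonneg_right this l0.le]
  have r2 : b * (Chebyshev.psi Y - Chebyshev.theta Y) ≤ |C1| / K * Real.exp (-(e ^ 2 / 4 * l)) := by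
    calc _ ≤ b * (|C1| * √Y) := mul_le_mul_of_nonneg_left ((hC1 Y).trans
          (mul_le_mul_of_nonneg_right (le_abs_self _) (Real.sqrt_nonneg _))) b0
      _ = |C1| / K * (√Y * Real.exp (-((α - e) * l))) := by rw [hb']; ring
      _ ≤ _ := mul_le_mul_of_nonneg_left r1 (by positivity)
  have r3 : a * C2 ≤ a * |C2| := mul_le_mul_of_nonneg_left (le_abs_self _) a0
  have r4 : C3 ≤ Real.exp (e ^ 2 / 8 * l) := by linarith [Real.add_one_le_exp (e ^ 2 / 8 * l)]
  calc _ ≤ a * |C2| + |C1| / K * Real.exp (-(e ^ 2 / 4 * l)) := add_le_add r3 r2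
    _ = C3 * Real.exp (-(e ^ 2 / 4 * l)) := by rw [ha, hC3]; ring
    _ ≤ Real.exp (e ^ 2 / 8 * l) * Real.exp (-(e ^ 2 / 4 * l)) :=
      mul_le_mul_of_nonneg_right r4 (Real.exp_pos _).le
    _ = _ := by rw [← Real.exp_add]; ring_nf

theorem blk_WT (hGS : St_GS) (_hMERT : St_MERT) : St_WT := by
  intro α K h3 h4 hK hK1
  have hα : 0 ≤ α := by linarith
  exact ⟨fun κ t hκ => (wt_gs hGS hα hK hκ).1 t, fun κ t d hκ => (wt_gs hGS hα hK hκ).2.1 t d,
    wt_L2 hK, fun z hz => wt_HH α hK hz, wt_five hGS hα hK,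
    fun η cg hη hη1 hc hc1 => wt_six hGS h3 h4 hK hK1 hη hη1 hc hc1⟩

end Pool.Agent.Lib.PS
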