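import Pool.Agent.Lib.PS.Blue

/-! Zero-free region block. -/

namespace Pool.Agent.Lib.PS

open Finset Real MeasureTheory Complex Filter Topology
open scoped NumberTheorySymbols ArithmeticFunction.Moebius ArithmeticFunction.vonMangoldt
  Classical ComplexConjugate

theorem zf_term (χ : ℕ → ℂ) (σ γ : ℝ) (n : ℕ) :
    LSeries.term (lam χ) (σ + γ * I) n =
      ((Λ n * (n : ℝ) ^ (-σ) : ℝ) : ℂ) * (χ n * cexp (((-(γ * Real.log n) : ℝ) : ℂ) * I)) := by
  rcases Nat.eq_zero_or_pos n with rfl | hn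
  · simp
  · have hn' : (n : ℂ) ≠ 0 := by exact_mod_cast hn.ne'
    have hr : (0 : ℝ) < n := by exact_mod_cast hn
    rw [LSeries.term_of_ne_zero hn.ne', lam, Complex.cpow_def_of_ne_zero hn',
      Real.rpow_def_of_pos hr, div_eq_mul_inv, ← Complex.exp_neg, ← Complex.natCast_log]
    push_cast
    have : -(Complex.log n * (σ + γ * I)) =
        Complex.log n * -(σ : ℂ) + -((γ : ℂ) * Complex.log n) * I := by ring
    rw [this, Complex.exp_add]
    ring

theorem zf_pos (χ1 χ2 χ3 : ℕ → ℂ) (σ γ1 γ2 γ3 k1 k2 k3 : ℝ)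
    (h1 : LSeriesSummable (lam χ1) (σ + γ1 * I)) (h2 : LSeriesSummable (lam χ2) (σ + γ2 * I))
    (h3 : LSeriesSummable (lam χ3) (σ + γ3 * I))
    (h : ∀ n : ℕ, 0 ≤ k1 * (χ1 n * cexp (((-(γ1 * Real.log n) : ℝ) : ℂ) * I)).re
      + k2 * (χ2 n * cexp (((-(γ2 * Real.log n) : ℝ) : ℂ) * I)).re
      + k3 * (χ3 n * cexp (((-(γ3 * Real.log n) : ℝ) : ℂ) * I)).re) :
    0 ≤ k1 * (LSeries (lam χ1) (σ + γ1 * I)).re + k2 * (LSeries (lam χ2) (σ + γ2 * I)).re
      + k3 * (LSeries (lam χ3) (σ + γ3 * I)).re := by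
  have s1 := ((Complex.hasSum_re h1.hasSum).mul_left k1)
  have s2 := ((Complex.hasSum_re h2.hasSum).mul_left k2)
  have s3 := ((Complex.hasSum_re h3.hasSum).mul_left k3)
  refine ((s1.add s2).add s3).nonneg fun n => ?_
  simp only [zf_term, Complex.re_ofReal_mul]
  have h0 : 0 ≤ Λ n * (n : ℝ) ^ (-σ) :=
    mul_nonneg ArithmeticFunction.vonMangoldt_nonneg (Real.rpow_nonneg (Nat.cast_nonneg n) _)
  have := mul_nonneg h0 (h n)
  linarith

theorem zf_lam_bd {χ : ℕ → ℂ} (h : ∀ n, ‖χ n‖ ≤ 1) (n : ℕ) : ‖lam χ n‖ ≤ Λ n := by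
  rw [lam, norm_mul, Complex.norm_real, Real.norm_of_nonneg ArithmeticFunction.vonMangoldt_nonneg]
  exact mul_le_of_le_one_right ArithmeticFunction.vonMangoldt_nonneg (h n)

theorem zf_inv_re {s ρ : ℂ} (h : ρ.re ≤ s.re) : 0 ≤ (1 / (s - ρ)).re := by
  rw [one_div, Complex.inv_re]
  exact div_nonneg (by simp; linarith) (Complex.normSq_nonneg _)

theorem zf_re_sum (Z : Multiset ℂ) (F : ℂ → ℂ) :
    (Z.map F).sum.re = (Z.map fun ρ => (F ρ).re).sum := by
  induction Z using Multiset.induction_on with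
  | empty => simp
  | cons a s ih => simp [ih]

/-- crude upper bound for the real part of the logarithmic derivative -/
theorem zf_up (hX : St_LDX) (hF : St_FACT) {c : ℝ} (hc : 0 < c) (hc2 : c ≤ 1 / 2) :
    ∃ C η l0 : ℝ, 1 ≤ C ∧ 0 < η ∧ ∀ l : ℝ, l0 ≤ l → ∀ (a : ℕ → ℂ) (E : ℂ → ℂ) (m b T γ r : ℝ)
      (D : Multiset ℂ), LD a E m c l b η T → 0 ≤ b → b ≤ 3 → |γ| ≤ T → 0 < r → r ≤ 1 →
      (∀ ρ, D.count ρ ≤ ord E ρ) → (∀ ρ ∈ D, ‖ρ - (1 + 1 / l + γ * I)‖ ≤ 3 / l) →
      (LSeries a (((1 + r / l : ℝ) : ℂ) + γ * I)).re ≤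
        m * (1 / (((1 + r / l : ℝ) : ℂ) + γ * I - 1)).re
        - (D.map fun ρ => (1 / (((1 + r / l : ℝ) : ℂ) + γ * I - ρ)).re).sum + C * l := by
  obtain ⟨C, hC, hF⟩ := hF c hc hc2
  obtain ⟨δ, η, l0, -, -, hη, hF⟩ := hF 1 one_pos
  refine ⟨C, η, max l0 (32 / c), hC, hη, ?_⟩
  intro l hl a E m b T γ r D hLD hb hb3 hγ hr hr1 hD hDn
  have hl0 : l0 ≤ l := (le_max_left _ _).trans hl
  have hl1 : 32 / c ≤ l := (le_max_right _ _).trans hl
  have hlpos : 0 < l := lt_of_lt_of_le (by positivity) hl1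
  have hlc : 1 / l ≤ c / 32 := by
    rw [div_le_iff₀ hc] at hl1
    rw [div_le_div_iff₀ hlpos (by norm_num)]
    linarith
  obtain ⟨R, Z, G, hR1, hR2, hZ, -, -, hG, -⟩ := hF l hl0 a E m b T γ hLD hb hb3 hγ
  set s : ℂ := ((1 + r / l : ℝ) : ℂ) + γ * I with hs
  have hsre : s.re = 1 + r / l := by simp [hs]
  have hs1 : 1 < s.re := by rw [hsre]; have : 0 < r / l := by positivity
                            linarith
  have hball : s ∈ Metric.ball (1 + 1 / l + γ * I : ℂ) (R / 2) := by
    rw [Metric.mem_ball, dist_eq_norm]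
    have : s - (1 + 1 / l + γ * I) = (((r - 1) / l : ℝ) : ℂ) := by
      rw [hs]; push_cast; ring
    rw [this, Complex.norm_real, Real.norm_eq_abs, abs_div, abs_of_pos hlpos]
    have h1 : |r - 1| ≤ 1 := abs_le.2 ⟨by linarith, by linarith⟩
    have h2 : |r - 1| / l ≤ 1 / l := by gcongr
    linarith
  obtain ⟨hE, hser⟩ := hLD.ser s hs1
  obtain ⟨hGb, hdec⟩ := hG s hball
  have hDZ : D ≤ Z := by
    rw [Multiset.le_iff_count]
    intro ρ
    by_cases hρ : ρ ∈ D
    · rw [hZ, if_pos]
      · exact hD ρ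
      · have := hDn ρ hρ
        have h3 : 3 / l = 3 * (1 / l) := by ring
        linarith
    · simp [Multiset.count_eq_zero_of_notMem hρ]
  have hZre : ∀ ρ ∈ Z, ρ.re ≤ s.re := by
    intro ρ hρ
    have h1 := Multiset.one_le_count_iff_mem.2 hρ
    rw [hZ] at h1
    split_ifs at h1 with h2
    · have h3 : 1 - c < ρ.re := by
        have h4 := (Complex.abs_re_le_norm _).trans_lt h2
        have h5 : (ρ - (1 + 1 / l + γ * I)).re = ρ.re - (1 + 1 / l) := by
          have : (1 / (l : ℂ)) = ((1 / l : ℝ) : ℂ) := by push_cast; ring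
          rw [this]; simp
        rw [h5] at h4
        have h6 := (abs_lt.1 h4).1
        have : 0 < 1 / l := by positivity
        linarith
      have h0 := (hX.2.2.2.1 a E m c l b η T ρ hc hLD h3).2 h1
      by_contra hlt
      exact (hLD.ser ρ (by linarith [not_le.1 hlt])).1 h0
    · omega
  obtain ⟨W, rfl⟩ := Multiset.le_iff_exists_add.1 hDZ
  rw [hser, hdec hE, Multiset.map_add, Multiset.sum_add]
  simp only [Complex.sub_re, Complex.add_re, zf_re_sum]
  have hW : 0 ≤ (W.map fun ρ => (1 / (s - ρ)).re).sum := by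
    refine Multiset.sum_nonneg fun x hx => ?_
    obtain ⟨ρ, hρ, rfl⟩ := Multiset.mem_map.1 hx
    exact zf_inv_re (hZre ρ (Multiset.mem_add.2 (Or.inr hρ)))
  have hm : ((m : ℂ) / (s - 1)).re = m * (1 / (s - 1)).re := by
    rw [div_eq_mul_one_div, Complex.re_ofReal_mul]
  have hG2 := (Complex.abs_re_le_norm (G s)).trans hGb
  have := (abs_le.1 hG2).1
  rw [hm]
  linarith

theorem zf_341 {w : ℂ} (h : ‖w‖ ≤ 1) : 0 ≤ 3 + 4 * w.re + (w * w).re := by
  have h1 : w.re * w.re + w.im * w.im ≤ 1 := by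
    rw [← Complex.normSq_apply, Complex.normSq_eq_norm_sq]
    nlinarith [norm_nonneg w]
  rw [Complex.mul_re]
  nlinarith [sq_nonneg (1 + w.re)]

theorem zf_341' {x θ : ℝ} (h : |x| ≤ 1) :
    0 ≤ 3 + 4 * (x * Real.cos θ) + Real.cos (2 * θ) := by
  rw [Real.cos_two_mul]
  have h1 : |x * Real.cos θ| ≤ |Real.cos θ| := by
    rw [abs_mul]; exact mul_le_of_le_one_left (abs_nonneg _) h
  have h2 := (abs_le.1 h1).1
  have h3 := sq_abs (Real.cos θ)
  nlinarith [sq_nonneg (1 - |Real.cos θ|)]

theorem zf_real {χ : ℕ → ℂ} (h : RealV χ) (n : ℕ) : χ n = ((χ n).re : ℂ) :=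
  Complex.ext (by simp) (by simp [h n])

theorem zf_cj {χ : ℕ → ℂ} (h : RealV χ) : cj χ = χ := by
  funext n
  rw [cj, zf_real h n, Complex.conj_ofReal]

theorem zf_CM_mul {χ ψ : ℕ → ℂ} (h : CM χ) (k : CM ψ) : CM (χ * ψ) := by
  refine ⟨by simp [h.1, k.1], fun m n => ?_, fun n => ?_⟩
  · simp only [Pi.mul_apply, h.2.1, k.2.1]; ring
  · rw [Pi.mul_apply, norm_mul]
    exact mul_le_one₀ (h.2.2 n) (norm_nonneg _) (k.2.2 n)

theorem blk_ZF (hX : St_LDX) (hZ : St_LDZ) (hF : St_FACT) (_hM : St_MERT) : St_ZF := by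
  intro c hc hc2
  obtain ⟨C, η, l0, hC, hη, hup⟩ := zf_up hX hF hc hc2
  obtain ⟨l1, hl1⟩ := hX.1 c η hc hc2 hη
  obtain ⟨l2, hl2⟩ := hZ.1 c η hc hc2 hη
  obtain ⟨C0, hC0, hL⟩ := hZ.2.2
  set B := C + C0 with hB
  have hB1 : 1 ≤ B := by linarith
  set r := 1 / (20 * B) with hr
  have hr0 : 0 < r := by positivity
  have hrB : r * B = 1 / 20 := by rw [hr]; field_simp
  have hr1 : r ≤ 1 / 20 := by nlinarith
  refine ⟨r / 20, max (max l0 l1) (max l2 (max 2 (1 / c))), by positivity, ?_⟩
  intro l hl q χ ρ hχ _ hcan hor h0 him hre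
  have k0 : l0 ≤ l := le_trans (by simp) hl
  have k1 : l1 ≤ l := le_trans (by simp) hl
  have k2 : l2 ≤ l := le_trans (by simp) hl
  have k3 : 2 ≤ l := le_trans (by simp) hl
  have k4 : 1 / c ≤ l := le_trans (by simp) hl
  have hl0 : 0 < l := by linarith
  have hcm := hχ.2.1
  have LDχ := hl1 l k1 χ 3 hcm (by norm_num) le_rfl hcan
  have LDζ := hl2 l k2
  have hρ1 : ρ.re ≤ 1 := by
    by_contra hlt
    exact (LDχ.ser ρ (not_le.1 hlt)).1 h0
  set lm := (1 - ρ.re) * l with hlm
  have hlm0 : 0 ≤ lm := mul_nonneg (by linarith) hl0.le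
  have hρre : ρ.re = 1 - lm / l := by rw [hlm]; field_simp; ring
  have hρc : 1 - c < ρ.re := by
    rw [hρre]
    have : lm / l < c := by
      rw [div_lt_iff₀ hl0]
      rw [div_le_iff₀ hc] at k4
      nlinarith
    linarith
  have hord := (hX.2.2.2.1 _ _ _ _ _ _ _ _ ρ hc LDχ hρc).1 h0
  set γ := ρ.im with hγ
  have hγ1 : |γ| ≤ l ^ 2 := him.trans (by nlinarith)
  have hγ2 : |2 * γ| ≤ l ^ 2 := by rw [abs_mul, abs_two]; nlinarith
  set σ : ℝ := 1 + r / l with hσ
  have hrl : 0 < r / l := by positivity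
  have hsum : ∀ (ψ : ℕ → ℂ) (t : ℝ), (∀ n, ‖ψ n‖ ≤ 1) →
      LSeriesSummable (lam ψ) (σ + t * I) := fun ψ t h =>
    (hL (lam ψ) _ (zf_lam_bd h) (by simp [hσ, hrl])).1
  have hone : ∀ n : ℕ, ‖(1 : ℕ → ℂ) n‖ ≤ 1 := fun n => by simp
  have b0 : (LSeries (lam 1) (σ + (0 : ℝ) * I)).re ≤ l / r + C0 * l := by
    have h := (hL (lam 1) (σ + (0 : ℝ) * I) (zf_lam_bd hone) (by simp [hσ, hrl])).2
    have e : (((σ : ℂ) + (0 : ℝ) * I).re - 1) = r / l := by simp [hσ]
    rw [e, one_div_div] at h
    have := (Complex.re_le_norm _).trans h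
    nlinarith
  have b1 : (LSeries (lam χ) (σ + γ * I)).re ≤ -(l / (r + lm)) + C * l := by
    have h := hup l k0 _ _ _ _ _ γ r {ρ} LDχ (by norm_num) le_rfl hγ1 hr0 (by linarith)
      (fun x => by
        by_cases hx : x = ρ
        · subst hx; simpa using hord
        · simp [hx])
      (fun x hx => by
        rw [Multiset.mem_singleton] at hx
        subst hx
        have : x - (1 + 1 / l + γ * I) = ((-((lm + 1) / l) : ℝ) : ℂ) := by
          apply Complex.ext
          · have : (1 / (l : ℂ)) = ((1 / l : ℝ) : ℂ) := by push_cast; ring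
            rw [this]
            simp only [Complex.sub_re, Complex.add_re, Complex.one_re, Complex.ofReal_re,
              Complex.mul_re, Complex.I_re, Complex.I_im, Complex.ofReal_im, hρre]
            ring
          · have : (1 / (l : ℂ)) = ((1 / l : ℝ) : ℂ) := by push_cast; ring
            rw [this]
            simp [hγ]
        rw [this, Complex.norm_real, Real.norm_eq_abs, abs_neg, abs_of_nonneg (by positivity)]
        gcongr
        linarith)
    have e : ((σ : ℂ) + γ * I - ρ) = (((r + lm) / l : ℝ) : ℂ) := by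
      apply Complex.ext
      · simp only [Complex.sub_re, Complex.add_re, Complex.ofReal_re,
          Complex.mul_re, Complex.I_re, Complex.I_im, Complex.ofReal_im, hρre, hσ]
        ring
      · simp [hγ]
    simp only [Multiset.map_singleton, Multiset.sum_singleton, zero_mul] at h
    rw [← hσ, e, ← Complex.ofReal_one, ← Complex.ofReal_div, Complex.ofReal_re, one_div_div] at h
    linarith
  have hq : 3 / r + 5 * B + 1 / (2 * r) < 4 / (r + lm) := by
    have h1 : 4 / (r + r / 20) ≤ 4 / (r + lm) := by gcongr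
    have h2 : B = 1 / (20 * r) := by field_simp; linarith
    rw [h2]
    refine lt_of_lt_of_le ?_ h1
    rw [lt_div_iff₀ (by positivity)]
    field_simp
    norm_num
  have fin : ∀ y : ℝ, y ≤ l / (2 * r) + C * l →
      ¬ 0 ≤ 3 * (LSeries (lam 1) (σ + (0 : ℝ) * I)).re + 4 * (LSeries (lam χ) (σ + γ * I)).re
        + 1 * y := by
    intro y hy h
    have h1 := mul_lt_mul_of_pos_left hq hl0
    have e1 : l * (3 / r + 5 * B + 1 / (2 * r)) = 3 * (l / r) + 5 * (C * l) + 5 * (C0 * l)
        + l / (2 * r) := by rw [hB]; ring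
    have e2 : l * (4 / (r + lm)) = 4 * (l / (r + lm)) := by ring
    have : 0 ≤ C0 * l := by positivity
    linarith
  have hexp : ∀ t : ℝ, ‖cexp ((t : ℂ) * I)‖ = 1 := fun t => Complex.norm_exp_ofReal_mul_I t
  rcases hor with hreal | hcan2
  · refine ⟨hreal, ?_⟩
    by_contra hne
    by_cases hbig : r / 2 ≤ |γ * l|
    · have b2 := hup l k0 _ _ _ _ _ (2 * γ) r 0 LDζ le_rfl (by norm_num) hγ2 hr0 (by linarith)
        (by simp) (by simp)
      refine fin (LSeries (lam 1) (σ + (2 * γ : ℝ) * I)).re ?_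
        (zf_pos 1 χ 1 σ 0 γ (2 * γ) 3 4 1 (hsum 1 0 hone) (hsum χ γ hcm.2.2)
          (hsum 1 (2 * γ) hone) fun n => ?_)
      · simp only [Multiset.map_zero, Multiset.sum_zero, sub_zero, one_mul] at b2
        refine b2.trans (add_le_add_left ?_ _)
        have e : (((1 + r / l : ℝ) : ℂ) + (2 * γ : ℝ) * I - 1) = ((r / l : ℝ) : ℂ)
            + (2 * γ : ℝ) * I := by push_cast; ring
        rw [e, one_div, Complex.inv_re, Complex.normSq_add_mul_I]
        simp only [Complex.add_re, Complex.ofReal_re, Complex.mul_re, Complex.I_re,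
          Complex.I_im, Complex.ofReal_im]
        have h1 : (r / 2) ^ 2 ≤ (γ * l) ^ 2 := by
          rw [← sq_abs (γ * l)]; gcongr
        have h2 : (r / l) ^ 2 ≤ (2 * γ) ^ 2 := by
          rw [div_pow, div_le_iff₀ (by positivity)]; nlinarith
        rw [div_le_div_iff₀ (by positivity) (by positivity)]
        have h3 : (r / l + (2 * γ * 0 - 0 * 1)) * (2 * r) = l * (2 * (r / l) ^ 2) := by
          field_simp; ring
        rw [h3]
        gcongr
        linarith
      · rw [zf_real hreal n]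
        simp only [Pi.one_apply, one_mul, Complex.re_ofReal_mul, Complex.exp_ofReal_mul_I_re]
        have hx : |(χ n).re| ≤ 1 := (Complex.abs_re_le_norm _).trans (hcm.2.2 n)
        have := zf_341' (θ := -(γ * Real.log n)) hx
        have e : -(2 * γ * Real.log n) = 2 * -(γ * Real.log n) := by ring
        rw [e]
        simpa using this
    · have hsm : |γ * l| < r / 2 := not_le.1 hbig
      have hcj := (hX.2.2.1 χ ρ).2
      rw [zf_cj hreal] at hcj
      have hneq : conj ρ ≠ ρ := fun h => hne (by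
        have := congrArg Complex.im h
        simp at this
        linarith)
      have hγl : |γ| ≤ 1 / l := by
        rw [abs_mul, abs_of_pos hl0] at hsm
        rw [le_div_iff₀ hl0]; linarith
      have hnear : ∀ x : ℂ, x.re = ρ.re → |x.im| = |γ| →
          ‖x - (1 + 1 / l + (0 : ℝ) * I)‖ ≤ 3 / l := by
        intro x h1 h2
        refine (Complex.norm_le_abs_re_add_abs_im _).trans ?_
        have e : (1 / (l : ℂ)) = ((1 / l : ℝ) : ℂ) := by push_cast; ring
        have e1 : (x - (1 + 1 / l + (0 : ℝ) * I)).re = -((lm + 1) / l) := by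
          rw [e]
          simp only [Complex.sub_re, Complex.add_re, Complex.one_re, Complex.ofReal_re,
            Complex.mul_re, Complex.I_re, Complex.I_im, Complex.ofReal_im, h1, hρre]
          ring
        have e2 : (x - (1 + 1 / l + (0 : ℝ) * I)).im = x.im := by rw [e]; simp
        rw [e1, e2, h2, abs_neg, abs_of_nonneg (by positivity)]
        have : (lm + 1) / l ≤ 2 / l := by gcongr; linarith
        have e3 : 3 / l = 2 / l + 1 / l := by ring
        linarith
      have b2 := hup l k0 _ _ _ _ _ 0 r ({ρ} + {conj ρ}) LDχ (by norm_num) le_rfl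
        (by simp; positivity) hr0 (by linarith)
        (fun x => by
          rw [Multiset.count_add, Multiset.count_singleton, Multiset.count_singleton]
          by_cases h1 : x = ρ
          · subst h1; rw [if_pos rfl, if_neg hneq.symm]; simpa using hord
          · by_cases h2 : x = conj ρ
            · subst h2; rw [if_neg h1, if_pos rfl, hcj]; simpa using hord
            · simp [h1, h2])
        (fun x hx => by
          rw [Multiset.mem_add, Multiset.mem_singleton, Multiset.mem_singleton] at hx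
          rcases hx with rfl | rfl
          · exact hnear _ rfl rfl
          · exact hnear _ (by simp) (by simp [hγ]))
      have hterm : ∀ x : ℂ, x.re = ρ.re → |x.im| = |γ| →
          (7 / 10) * (l / r) ≤ (1 / (((1 + r / l : ℝ) : ℂ) + (0 : ℝ) * I - x)).re := by
        intro x h1 h2
        have e : (((1 + r / l : ℝ) : ℂ) + (0 : ℝ) * I - x) = (((r + lm) / l : ℝ) : ℂ)
            + (-x.im : ℝ) * I := by
          apply Complex.ext
          · simp only [Complex.sub_re, Complex.add_re, Complex.ofReal_re,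
              Complex.mul_re, Complex.I_re, Complex.I_im, Complex.ofReal_im, h1, hρre]
            ring
          · simp
        rw [e, one_div, Complex.inv_re, Complex.normSq_add_mul_I]
        simp only [Complex.add_re, Complex.ofReal_re, Complex.mul_re, Complex.I_re,
          Complex.I_im, Complex.ofReal_im]
        have h3 : (-x.im) ^ 2 = γ ^ 2 := by rw [neg_sq, ← sq_abs, h2, sq_abs]
        have h4 : (γ * l) ^ 2 ≤ (r / 2) ^ 2 := by
          rw [← sq_abs (γ * l)]; gcongr
        have h5 : γ ^ 2 ≤ (r / l) ^ 2 / 4 := by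
          rw [div_pow, div_div, le_div_iff₀ (by positivity)]; nlinarith
        have h6 : ((r + lm) / l) ^ 2 ≤ (21 / 20 * (r / l)) ^ 2 := by
          have : (r + lm) / l ≤ 21 / 20 * (r / l) := by
            rw [← mul_div_assoc]; gcongr; linarith
          gcongr
        have h7 : r / l ≤ (r + lm) / l := by gcongr; linarith
        rw [h3, le_div_iff₀ (by positivity)]
        have h8 : l / r * (r / l) ^ 2 = r / l := by field_simp
        have h9 : 0 < l / r := by positivity
        nlinarith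
      simp only [Multiset.map_add, Multiset.sum_add, Multiset.map_singleton,
        Multiset.sum_singleton, zero_mul] at b2
      have t1 := hterm ρ rfl rfl
      have t2 := hterm (conj ρ) (by simp) (by simp [hγ])
      have p := zf_pos 1 χ 1 σ 0 0 0 1 1 0 (hsum 1 0 hone) (hsum χ 0 hcm.2.2) (hsum 1 0 hone)
        fun n => by
          have hx : |(χ n).re| ≤ 1 := (Complex.abs_re_le_norm _).trans (hcm.2.2 n)
          have := (abs_le.1 hx).1
          simp
          linarith
      have h2 : l / r = 20 * (C * l) + 20 * (C0 * l) := by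
        rw [hr, hB]; field_simp
      have : 0 ≤ C0 * l := by positivity
      have : 0 < C * l := by positivity
      rw [← hσ] at b2 t1 t2
      linarith
  · exfalso
    have hcm2 := zf_CM_mul hcm hcm
    have LD2 := hl1 l k1 (χ * χ) 3 hcm2 (by norm_num) le_rfl hcan2
    have b2 := hup l k0 _ _ _ _ _ (2 * γ) r 0 LD2 (by norm_num) le_rfl hγ2 hr0 (by linarith)
      (by simp) (by simp)
    refine fin (LSeries (lam (χ * χ)) (σ + (2 * γ : ℝ) * I)).re ?_
      (zf_pos 1 χ (χ * χ) σ 0 γ (2 * γ) 3 4 1 (hsum 1 0 hone) (hsum χ γ hcm.2.2)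
        (hsum _ (2 * γ) hcm2.2.2) fun n => ?_)
    · simp only [Multiset.map_zero, Multiset.sum_zero, sub_zero, zero_mul, zero_add] at b2
      have : 0 ≤ l / (2 * r) := by positivity
      rw [← hσ] at b2
      linarith
    · have h := zf_341 (w := χ n * cexp (((-(γ * Real.log n) : ℝ) : ℂ) * I))
        (by rw [norm_mul, hexp, mul_one]; exact hcm.2.2 n)
      have e : (χ * χ) n * cexp (((-(2 * γ * Real.log n) : ℝ) : ℂ) * I) =
          χ n * cexp (((-(γ * Real.log n) : ℝ) : ℂ) * I) *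
          (χ n * cexp (((-(γ * Real.log n) : ℝ) : ℂ) * I)) := by
        have : (((-(2 * γ * Real.log n) : ℝ) : ℂ) * I) = (((-(γ * Real.log n) : ℝ) : ℂ) * I)
            + (((-(γ * Real.log n) : ℝ) : ℂ) * I) := by push_cast; ring
        rw [this, Complex.exp_add, Pi.mul_apply]
        ring
      rw [e]
      simpa using h

end Pool.Agent.Lib.PS
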