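import Pool.Agent.Lib.PS.GAU
import Pool.Agent.Lib.PS.MAJ
import Pool.Agent.Lib.PS.MIN
import Pool.Agent.Lib.PS.VAR
import Pool.Agent.Lib.PS.PB
import Pool.Agent.Lib.PS.PV
import Pool.Agent.Lib.PS.EXP
import Pool.Agent.Lib.PS.STR
import Pool.Agent.Lib.PS.MOM
import Pool.Agent.Lib.PS.SING1
import Pool.Agent.Lib.PS.SING2
import Pool.Agent.Lib.PS.MLS
import Pool.Agent.Lib.PS.VAU
import Pool.Agent.Lib.PS.STEP
import Pool.Agent.Lib.PS.BUR2
import Pool.Agent.Lib.PS.BUR3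
import Pool.Agent.Lib.PS.CANC
import Pool.Agent.Lib.PS.FAM
import Pool.Agent.Lib.PS.LDX
import Pool.Agent.Lib.PS.LDZ
import Pool.Agent.Lib.PS.FACT
import Pool.Agent.Lib.PS.GS
import Pool.Agent.Lib.PS.EF
import Pool.Agent.Lib.PS.MERT
import Pool.Agent.Lib.PS.WT
import Pool.Agent.Lib.PS.KSM
import Pool.Agent.Lib.PS.KUN
import Pool.Agent.Lib.PS.PSI
import Pool.Agent.Lib.PS.GV1
import Pool.Agent.Lib.PS.GV
import Pool.Agent.Lib.PS.SW
import Pool.Agent.Lib.PS.DEN0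
import Pool.Agent.Lib.PS.DENS
import Pool.Agent.Lib.PS.DC
import Pool.Agent.Lib.PS.ZF
import Pool.Agent.Lib.PS.DH
import Pool.Agent.Lib.PS.SIEG
import Pool.Agent.Lib.PS.BOX
import Pool.Agent.Lib.PS.NUM
import Pool.Agent.Lib.PS.MODEL
import Pool.Agent.Lib.PS.TAIL
import Pool.Agent.Lib.PS.CORES
import Pool.Agent.Lib.PS.CORE
import Pool.Agent.Lib.PS.SMALL
import Pool.Agent.Lib.PS.LARGE
import Pool.Agent.Lib.PS.BADC
import Pool.Agent.Lib.PS.DISC
import Pool.Agent.Lib.PS.MAIN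
import Pool.Agent.Lib.PS.FINAL

namespace Pool.Agent.Lib.PS

theorem all_of_num (Lm : ℝ) (h3 : 3 < Lm) (h4 : Lm ≤ 4) (hNUM : St_NUM Lm) : St_FINAL Lm := by
  have GAU := blk_GAU
  have VAR := blk_VAR GAU (blk_MAJ GAU) blk_MIN
  have PB := blk_PB
  have PV := blk_PV PB
  have EXP := blk_EXP PB
  have STR := blk_STR PB GAU
  have SING1 := blk_SING1 (blk_MOM PB PV)
  have SING2 := blk_SING2
  have VAU := blk_VAU PB (blk_MLS PB)
  have CANC := blk_CANC (blk_BUR3 (blk_BUR2 blk_STEP))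
  have FAM := blk_FAM PB CANC
  have LDX := blk_LDX
  have LDZ := blk_LDZ
  have FACT := blk_FACT
  have GS := blk_GS
  have EF := blk_EF GS
  have MERT := blk_MERT
  have WT := blk_WT GS MERT
  have KSM := blk_KSM FACT GS EF LDZ
  have KUN := blk_KUN KSM GS MERT
  have PSI := blk_PSI FACT GS EF LDZ WT
  have SW := blk_SW (blk_GV blk_GV1)
  have DEN0 := blk_DEN0 LDX
  have DENS := blk_DENS SW DEN0
  have DC := blk_DC SW DEN0
  have ZF := blk_ZF LDX LDZ FACT MERT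
  have DH := blk_DH LDX LDZ KSM GS
  have SIEG := blk_SIEG PB
  have TAIL := blk_TAIL FAM CANC LDX PSI DC
  have CORES := blk_CORES PB FAM CANC LDX PSI WT ZF DH SIEG TAIL
  have MNUM := blk_MODEL Lm h4 PB CANC LDX LDZ KUN MERT PSI WT DENS blk_BOX hNUM
  have CORE := blk_CORE Lm h4 PB TAIL CORES MNUM
  have SMALL := blk_SMALL FAM LDX LDZ PSI
  have LARGE := blk_LARGE PB PV STR SING2 VAU WT
  have BADC := blk_BADC PB PV CANC LDX DC
  have MAIN := blk_MAIN Lm h4 PB EXP STR SING2 WT FAM LARGE SMALL CORE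
  exact blk_FINAL Lm h3 h4 VAR SING1 BADC blk_DISC WT MAIN

theorem all_final : St_FINAL (10 / 3) := all_of_num _ (by norm_num) (by norm_num) blk_NUM

end Pool.Agent.Lib.PS
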