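import Pool.Agent.Lib.PS.Blue

/-!
Quadratic Gauss sums and the Fourier form of `Aq`.
-/

namespace Pool.Agent.Lib.PS

open Finset Real Complex
open scoped ArithmeticFunction.Moebius Classical ComplexConjugate

theorem gau_ee_add (x y : ℝ) : ee (x + y) = ee x * ee y := by
  unfold ee
  rw [← Complex.exp_add]
  congr 1
  push_cast
  ring

theorem gau_ee_int (n : ℤ) : ee (n : ℝ) = 1 := by
  unfold ee
  rw [← Complex.exp_int_mul_two_pi_mul_I n]
  congr 1
  push_cast
  ring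

theorem gau_ee_eq (q : ℕ) [NeZero q] (j : ℤ) :
    ee ((j : ℝ) / q) = ZMod.stdAddChar (j : ZMod q) := by
  rw [ZMod.stdAddChar_coe]
  unfold ee
  congr 1
  push_cast
  ring

theorem gau_sum_zmod {M : Type*} [AddCommMonoid M] (q : ℕ) [NeZero q] (f : ZMod q → M) :
    ∑ m ∈ range q, f (m : ZMod q) = ∑ x : ZMod q, f x := by
  refine Finset.sum_nbij' (fun m => (m : ZMod q)) (fun x => x.val) ?_ ?_ ?_ ?_ ?_
  · intro m _; exact mem_univ _
  · intro x _; exact mem_range.2 (ZMod.val_lt x)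
  · intro m hm; exact ZMod.val_cast_of_lt (mem_range.1 hm)
  · intro x _; exact ZMod.natCast_zmod_val x
  · intro m _; rfl

theorem gau_card_two (q : ℕ) [NeZero q] :
    (univ.filter fun h : ZMod q => 2 * h = 0).card ≤ 2 := by
  have hsub : (univ.filter fun h : ZMod q => 2 * h = 0) ⊆ {0, ((q / 2 : ℕ) : ZMod q)} := by
    intro h hh
    have h1 := (mem_filter.1 hh).2
    have h2 : ((2 * h.val : ℕ) : ZMod q) = 0 := by
      push_cast
      rw [ZMod.natCast_zmod_val]; exact h1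
    rw [ZMod.natCast_eq_zero_iff] at h2
    obtain ⟨c, hc⟩ := h2
    have h3 := ZMod.val_lt h
    have hc2 : c < 2 := by
      by_contra hcc
      have : q * 2 ≤ q * c := Nat.mul_le_mul_left q (by omega)
      omega
    rw [mem_insert, mem_singleton]
    interval_cases c
    · left
      rw [← ZMod.natCast_zmod_val h, show h.val = 0 by omega, Nat.cast_zero]
    · right
      rw [← ZMod.natCast_zmod_val h, show h.val = q / 2 by omega]
  exact (card_le_card hsub).trans card_le_two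

theorem gau_sq_bound (q : ℕ) [NeZero q] (a b : ZMod q) (ha : IsUnit a) :
    ‖∑ x : ZMod q, ZMod.stdAddChar (a * x ^ 2 + b * x)‖ ^ 2 ≤ 2 * (q : ℝ) := by
  set ψ : AddChar (ZMod q) ℂ := ZMod.stdAddChar with hψ
  have hprim : ψ.IsPrimitive := ZMod.isPrimitive_stdAddChar q
  have hnorm : ∀ x, ‖ψ x‖ = 1 := fun x => by
    rw [hψ, ZMod.stdAddChar_apply]; exact Circle.norm_coe _
  have hconj : ∀ x, conj (ψ x) = ψ (-x) := fun x => by
    rw [AddChar.map_neg_eq_inv, Complex.inv_eq_conj (hnorm x)]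
  set G : ℂ := ∑ x : ZMod q, ψ (a * x ^ 2 + b * x) with hG
  have h1 : G * conj G = ∑ h : ZMod q, ψ (a * h ^ 2 + b * h) * ∑ y : ZMod q, ψ (y * (2 * a * h)) := by
    rw [hG, map_sum, Finset.sum_mul_sum, Finset.sum_comm]
    simp only [Finset.mul_sum]
    rw [Finset.sum_comm (s := univ) (t := univ)
      (f := fun h y => ψ (a * h ^ 2 + b * h) * ψ (y * (2 * a * h)))]
    refine Finset.sum_congr rfl fun y _ => ?_
    rw [← Equiv.sum_comp (Equiv.addRight y)]
    refine Finset.sum_congr rfl fun h _ => ?_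
    rw [hconj, ← AddChar.map_add_eq_mul, ← AddChar.map_add_eq_mul]
    congr 1
    simp only [Equiv.coe_addRight]
    ring
  have h2 : ‖G‖ ^ 2 = ‖G * conj G‖ := by rw [norm_mul, Complex.norm_conj, sq]
  rw [h2, h1]
  refine (norm_sum_le _ _).trans ?_
  have h3 : ∀ h : ZMod q, ‖ψ (a * h ^ 2 + b * h) * ∑ y : ZMod q, ψ (y * (2 * a * h))‖
      = if 2 * h = 0 then (q : ℝ) else 0 := by
    intro h
    rw [norm_mul, hnorm, one_mul, AddChar.sum_mulShift _ hprim, ZMod.card]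
    have : 2 * a * h = 0 ↔ 2 * h = 0 := by
      rw [show 2 * a * h = a * (2 * h) by ring]
      exact ha.mul_right_eq_zero
    by_cases hh : 2 * h = 0
    · rw [if_pos hh, if_pos (this.2 hh)]; simp
    · rw [if_neg hh, if_neg (fun h' => hh (this.1 h'))]; simp
  rw [Finset.sum_congr rfl fun h _ => h3 h, ← Finset.sum_filter, Finset.sum_const, nsmul_eq_mul]
  have h4 : ((univ.filter fun h : ZMod q => 2 * h = 0).card : ℝ) ≤ 2 := by
    exact_mod_cast gau_card_two q
  exact mul_le_mul_of_nonneg_right h4 (Nat.cast_nonneg q)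

theorem gau_bound (q : ℕ) (a b : ℤ) (hq : 0 < q) (ha : IsCoprime a (q : ℤ)) :
    ‖∑ m ∈ range q, ee (((a : ℝ) * (m : ℝ) ^ 2 + (b : ℝ) * m) / q)‖ ≤ √(2 * (q : ℝ)) := by
  have : NeZero q := ⟨hq.ne'⟩
  have hu : IsUnit (a : ZMod q) := by
    obtain ⟨u, v, huv⟩ := ha
    have := congrArg (Int.cast : ℤ → ZMod q) huv
    push_cast at this
    rw [ZMod.natCast_self, mul_zero, add_zero] at this
    exact IsUnit.of_mul_eq_one_right _ this
  have h1 : ∑ m ∈ range q, ee (((a : ℝ) * (m : ℝ) ^ 2 + (b : ℝ) * m) / q) =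
      ∑ x : ZMod q, ZMod.stdAddChar ((a : ZMod q) * x ^ 2 + (b : ZMod q) * x) := by
    rw [← gau_sum_zmod]
    refine Finset.sum_congr rfl fun m _ => ?_
    have := gau_ee_eq q (a * (m : ℤ) ^ 2 + b * m)
    push_cast at this
    exact this
  rw [h1]
  exact Real.le_sqrt_of_sq_le (gau_sq_bound q _ _ hu)

theorem gau_sum_per {M : Type*} [AddCommMonoid M] (u : ℕ → M) (e : ℕ)
    (hu : ∀ k m, u (k * e + m) = u m) (k : ℕ) :
    ∑ m ∈ range (k * e), u m = k • ∑ m ∈ range e, u m := by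
  induction k with
  | zero => simp
  | succ k ih =>
    rw [Nat.succ_mul, Finset.sum_range_add, ih, succ_nsmul]
    simp only [hu]

theorem gau_gS_mul (k e : ℕ) (a : ℤ) (hk : 0 < k) (he : 0 < e) :
    gS (k * a) (k * e) / ((k * e : ℕ) : ℂ) = gS a e / e := by
  have hk' : (k : ℝ) ≠ 0 := by exact_mod_cast hk.ne'
  have he' : (e : ℝ) ≠ 0 := by exact_mod_cast he.ne'
  have hkc : (k : ℂ) ≠ 0 := by exact_mod_cast hk.ne'
  have hec : (e : ℂ) ≠ 0 := by exact_mod_cast he.ne'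
  have h1 : gS (k * a) (k * e) = ∑ m ∈ range (k * e), ee ((a : ℝ) * (m : ℝ) ^ 2 / e) := by
    unfold gS
    refine Finset.sum_congr rfl fun m _ => ?_
    congr 1
    push_cast
    field_simp
  rw [h1, gau_sum_per (fun m => ee ((a : ℝ) * (m : ℝ) ^ 2 / e)) e, nsmul_eq_mul]
  · unfold gS
    push_cast
    field_simp
  · intro j m
    have : (a : ℝ) * ((j * e + m : ℕ) : ℝ) ^ 2 / e =
        ((a * (j ^ 2 * e + 2 * j * m) : ℤ) : ℝ) + (a : ℝ) * (m : ℝ) ^ 2 / e := by
      push_cast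
      field_simp
      ring
    simp only [this, gau_ee_add, gau_ee_int, one_mul]

theorem gau_rho (d : ℕ) (x : ℤ) (hd : 0 < d) :
    (rho d x : ℂ) = ∑ b ∈ range d, gS b d / d * ee (-((b : ℝ) * x / d)) := by
  have : NeZero d := ⟨hd.ne'⟩
  have hdc : (d : ℂ) ≠ 0 := by exact_mod_cast hd.ne'
  have hprim : (ZMod.stdAddChar (N := d)).IsPrimitive := ZMod.isPrimitive_stdAddChar d
  unfold rho gS
  simp only [Finset.sum_div, Finset.sum_mul]
  rw [Finset.sum_comm, Finset.card_filter, Nat.cast_sum]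
  refine Finset.sum_congr rfl fun m _ => ?_
  have h1 : ∀ b ∈ range d, ee ((((b : ℕ) : ℤ) : ℝ) * (m : ℝ) ^ 2 / d) / d * ee (-((b : ℝ) * x / d))
      = ZMod.stdAddChar ((b : ZMod d) * (((m : ℤ) ^ 2 - x : ℤ) : ZMod d)) / d := by
    intro b _
    rw [div_mul_eq_mul_div, ← gau_ee_add]
    have := gau_ee_eq d (b * ((m : ℤ) ^ 2 - x))
    rw [Int.cast_mul (α := ZMod d), Int.cast_natCast] at this
    rw [← this]
    congr 2
    push_cast
    ring
  rw [Finset.sum_congr rfl h1, ← Finset.sum_div,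
    gau_sum_zmod d fun y => ZMod.stdAddChar (y * (((m : ℤ) ^ 2 - x : ℤ) : ZMod d)),
    AddChar.sum_mulShift _ hprim, ZMod.card]
  simp only [ZMod.intCast_zmod_eq_zero_iff_dvd]
  split_ifs
  · simp [hdc]
  · simp

theorem gau_split {M : Type*} [AddCommMonoid M] (T : ℕ → ℕ → M)
    (hT : ∀ k e a, 0 < k → 0 < e → T (k * a) (k * e) = T a e) (d : ℕ) (hd : 0 < d) :
    ∑ e ∈ d.divisors, ∑ a ∈ (range e).filter (fun a => Nat.Coprime a e), T a e =
      ∑ b ∈ range d, T b d := by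
  rw [← Finset.sum_fiberwise_of_maps_to (s := range d) (t := d.divisors)
    (g := fun b => d / Nat.gcd b d)
    (fun b _ => Nat.mem_divisors.2 ⟨Nat.div_dvd_of_dvd (Nat.gcd_dvd_right b d), hd.ne'⟩)]
  refine Finset.sum_congr rfl fun e he => ?_
  obtain ⟨k, hk⟩ := Nat.dvd_of_mem_divisors he
  have he0 : 0 < e := Nat.pos_of_mem_divisors he
  have hk0 : 0 < k := Nat.pos_of_ne_zero (by rintro rfl; omega)
  have hd' : d = k * e := by rw [hk, mul_comm]
  refine Finset.sum_bij (fun a _ => k * a) ?_ ?_ ?_ ?_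
  · intro a ha
    obtain ⟨h1, h2⟩ := mem_filter.1 ha
    refine mem_filter.2 ⟨mem_range.2 ?_, ?_⟩
    · rw [hd']; exact Nat.mul_lt_mul_of_pos_left (mem_range.1 h1) hk0
    · rw [hd', Nat.gcd_mul_left, h2.gcd_eq_one, mul_one, Nat.mul_div_cancel_left _ hk0]
  · intro a _ a' _ h
    exact Nat.eq_of_mul_eq_mul_left hk0 h
  · intro b hb
    obtain ⟨h1, h2⟩ := mem_filter.1 hb
    have hg : 0 < Nat.gcd b d := Nat.gcd_pos_of_pos_right b hd
    have h3 : Nat.gcd b d = k := by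
      have h4 := Nat.div_mul_cancel (Nat.gcd_dvd_right b d)
      rw [h2] at h4
      exact Nat.eq_of_mul_eq_mul_left he0 (h4.trans hk)
    obtain ⟨a, ha⟩ : k ∣ b := h3 ▸ Nat.gcd_dvd_left b d
    refine ⟨a, mem_filter.2 ⟨mem_range.2 ?_, ?_⟩, ha.symm⟩
    · have := mem_range.1 h1
      rw [ha, hd'] at this
      exact Nat.lt_of_mul_lt_mul_left this
    · rw [ha, hd', Nat.gcd_mul_left] at h3
      exact Nat.eq_of_mul_eq_mul_left hk0 (h3.trans (mul_one k).symm)
  · intro a _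
    rw [hd', hT k e a hk0 he0]

theorem gau_Aq (q : ℕ) (x : ℤ) (hq : 0 < q) : (Aq q x : ℂ) =
    ∑ a ∈ (range q).filter (fun a => Nat.Coprime a q), gS a q / q * ee (-((a : ℝ) * x / q)) := by
  have key := (ArithmeticFunction.sum_eq_iff_sum_mul_moebius_eq (R := ℂ)
    (f := fun q => ∑ a ∈ (range q).filter (fun a => Nat.Coprime a q),
      gS a q / q * ee (-((a : ℝ) * x / q))) (g := fun d => (rho d x : ℂ))).1 (fun d hd => by
    rw [gau_rho d x hd]
    refine gau_split (fun a q => gS a q / q * ee (-((a : ℝ) * x / q))) ?_ d hd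
    intro k e a hk he
    have hk' : (k : ℝ) ≠ 0 := by exact_mod_cast hk.ne'
    have he' : (e : ℝ) ≠ 0 := by exact_mod_cast he.ne'
    rw [Nat.cast_mul k a, gau_gS_mul k e a hk he]
    congr 2
    push_cast
    field_simp) q hq
  rw [← key, Nat.sum_divisorsAntidiagonal' (fun a b => ((μ a : ℤ) : ℂ) * (rho b x : ℂ))]
  unfold Aq
  push_cast
  rfl

theorem blk_GAU : St_GAU :=
  ⟨fun q a b hq ha => gau_bound q a b hq ha, fun q x hq => gau_Aq q x hq⟩

end Pool.Agent.Lib.PS
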