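import Pool.Agent.Lib.PS.Blue

/-!
The Burgess bound from the moment estimate.
-/

namespace Pool.Agent.Lib.PS

open Finset Real
open scoped NumberTheorySymbols Classical

noncomputable section

lemma bur3_abs (M : ℕ) (x : ℤ) : |(J(x | M) : ℝ)| ≤ 1 := by
  rcases jacobiSym.trichotomy x M with h | h | h <;> simp [h]

def bur3_G (f : ℕ → ℝ) (a H : ℕ) : ℝ := ∑ i ∈ range H, f (a + i)

lemma bur3_Ioc (f : ℕ → ℝ) (N H : ℕ) : ∑ x ∈ Ioc N (N + H), f x = bur3_G f (N + 1) H := by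
  unfold bur3_G
  induction H with
  | zero => simp
  | succ H ih =>
    rw [← add_assoc, Finset.sum_Ioc_succ_top (by omega), ih, Finset.sum_range_succ]
    congr 2
    omega

lemma bur3_triv {f : ℕ → ℝ} (hf : ∀ x, |f x| ≤ 1) (a H : ℕ) : |bur3_G f a H| ≤ H := by
  unfold bur3_G
  calc _ ≤ ∑ i ∈ range H, |f (a + i)| := Finset.abs_sum_le_sum_abs _ _
    _ ≤ ∑ i ∈ range H, (1 : ℝ) := Finset.sum_le_sum fun i _ => hf _
    _ = H := by simp

lemma bur3_add (f : ℕ → ℝ) (a H s : ℕ) :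
    bur3_G f a (H + s) = bur3_G f a H + bur3_G f (a + H) s := by
  unfold bur3_G
  rw [Finset.sum_range_add]
  simp only [add_assoc]

lemma bur3_shift {f : ℕ → ℝ} (hf : ∀ x, |f x| ≤ 1) (a H s : ℕ) :
    |bur3_G f a H - bur3_G f (a + s) H| ≤ 2 * s := by
  have h1 := bur3_add f a H s
  have h2 := bur3_add f a s H
  rw [add_comm s H] at h2
  have h3 := abs_le.1 (bur3_triv hf a s)
  have h4 := abs_le.1 (bur3_triv hf (a + H) s)
  rw [abs_le]
  constructor <;> linarith [h3.1, h3.2, h4.1, h4.2]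

lemma bur3_cut {f : ℕ → ℝ} (hf : ∀ x, |f x| ≤ 1) (H1 : ℕ) (D : ℝ)
    (hD : ∀ a, |bur3_G f a H1| ≤ D) (q r : ℕ) : ∀ a, |bur3_G f a (q * H1 + r)| ≤ q * D + r := by
  induction q with
  | zero => intro a; simpa using bur3_triv hf a r
  | succ q ih =>
    intro a
    have e : (q + 1) * H1 + r = H1 + (q * H1 + r) := by ring
    rw [e, bur3_add]
    have h1 := hD a
    have h2 := ih (a + H1)
    have h3 := abs_add_le (bur3_G f a H1) (bur3_G f (a + H1) (q * H1 + r))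
    push_cast
    linarith

/-- two collisions differ by an exact relation -/
lemma bur3_exact {M A H a1 a2 : ℕ} (n : ℤ) (h1 : a1 ≤ A) (h2 : a2 ≤ A) (hA : 0 < A)
    (hM : 2 * A * H ≤ M) {i j i' j' : ℕ} (hi : i < H) (hj : j < H) (hi' : i' < H) (hj' : j' < H)
    (d : (M : ℤ) ∣ (n + i) * a2 - (n + j) * a1) (d' : (M : ℤ) ∣ (n + i') * a2 - (n + j') * a1) :
    ((i : ℤ) - i') * a2 = ((j : ℤ) - j') * a1 := by
  have d2 : (M : ℤ) ∣ ((i : ℤ) - i') * a2 - ((j : ℤ) - j') * a1 := by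
    have e : ((i : ℤ) - i') * a2 - ((j : ℤ) - j') * a1 =
        (n + i) * a2 - (n + j) * a1 - ((n + i') * a2 - (n + j') * a1) := by ring
    rw [e]
    exact dvd_sub d d'
  have b1 : |((i : ℤ) - i') * a2| < (H : ℤ) * A := by
    rw [abs_mul, abs_of_nonneg (by positivity : (0 : ℤ) ≤ a2)]
    have : |(i : ℤ) - i'| < H := by rw [abs_lt]; constructor <;> omega
    calc _ ≤ |(i : ℤ) - i'| * A := by gcongr
      _ < _ := by gcongr
  have b2 : |((j : ℤ) - j') * a1| < (H : ℤ) * A := by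
    rw [abs_mul, abs_of_nonneg (by positivity : (0 : ℤ) ≤ a1)]
    have : |(j : ℤ) - j'| < H := by rw [abs_lt]; constructor <;> omega
    calc _ ≤ |(j : ℤ) - j'| * A := by gcongr
      _ < _ := by gcongr
  have hM' : 2 * (A : ℤ) * H ≤ M := by exact_mod_cast hM
  have b3 : |((i : ℤ) - i') * a2 - ((j : ℤ) - j') * a1| < M := by
    have := abs_sub (((i : ℤ) - i') * a2) (((j : ℤ) - j') * a1)
    nlinarith
  have := Int.eq_zero_of_abs_lt_dvd d2 b3
  linarith

def bur3_P (M H : ℕ) (n : ℤ) (a1 a2 : ℕ) : Finset (ℕ × ℕ) :=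
  (range H ×ˢ range H).filter fun p => (M : ℤ) ∣ (n + p.1) * a2 - (n + p.2) * a1

lemma bur3_P1 {M A H a1 a2 : ℕ} (n : ℤ) (h1 : a1 ≤ A) (h2 : a2 ≤ A) (h0 : 0 < a1)
    (hM : 2 * A * H ≤ M) : (bur3_P M H n a1 a2).card ≤ H := by
  have : (bur3_P M H n a1 a2).card ≤ (range H).card := by
    apply Finset.card_le_card_of_injOn (fun p => p.1)
    · intro p hp
      simp only [bur3_P, coe_filter, mem_product, Set.mem_ofPred_eq] at hp
      simpa using hp.1.1
    · intro p hp p' hp' e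
      simp only [bur3_P, coe_filter, mem_product, mem_range, Set.mem_ofPred_eq] at hp hp'
      have := bur3_exact n h1 h2 (by omega) hM hp.1.1 hp.1.2 hp'.1.1 hp'.1.2 hp.2 hp'.2
      have e1 : p.1 = p'.1 := e
      rw [e1, sub_self, zero_mul] at this
      have h3 : (a1 : ℤ) ≠ 0 := by omega
      have h4 := (mul_eq_zero.1 this.symm).resolve_right h3
      exact Prod.ext e1 (by omega)
  simpa using this

lemma bur3_P2 {M A H a1 a2 : ℕ} (n : ℤ) (h1 : a1 ≤ A) (h2 : a2 ≤ A) (h0 : 0 < a1)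
    (hc : Nat.Coprime a1 a2) (hM : 2 * A * H ≤ M) : (bur3_P M H n a1 a2).card ≤ H / a1 + 1 := by
  have : (bur3_P M H n a1 a2).card ≤ (range (H / a1 + 1)).card := by
    apply Finset.card_le_card_of_injOn (fun p => p.1 / a1)
    · intro p hp
      simp only [bur3_P, coe_filter, mem_product, mem_range, Set.mem_ofPred_eq] at hp
      have := Nat.div_le_div_right (c := a1) hp.1.1.le
      simp only [coe_range, Set.mem_Iio]
      omega
    · intro p hp p' hp' e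
      simp only [bur3_P, coe_filter, mem_product, mem_range, Set.mem_ofPred_eq] at hp hp'
      have hx := bur3_exact n h1 h2 (by omega) hM hp.1.1 hp.1.2 hp'.1.1 hp'.1.2 hp.2 hp'.2
      have e0 : p.1 / a1 = p'.1 / a1 := e
      have hd : (a1 : ℤ) ∣ (p.1 : ℤ) - p'.1 := by
        have : (a1 : ℤ) ∣ ((p.1 : ℤ) - p'.1) * a2 := by rw [hx]; exact Dvd.intro_left _ rfl
        exact (Nat.isCoprime_iff_coprime.2 hc).dvd_of_dvd_mul_right this
      have hl : |(p.1 : ℤ) - p'.1| < a1 := by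
        have t1 := Nat.div_add_mod p.1 a1
        have t2 := Nat.div_add_mod p'.1 a1
        have t3 := Nat.mod_lt p.1 h0
        have t4 := Nat.mod_lt p'.1 h0
        rw [e0] at t1
        rw [abs_lt]
        constructor <;> omega
      have e1 : p.1 = p'.1 := by
        have := Int.eq_zero_of_abs_lt_dvd hd hl
        omega
      rw [e1, sub_self, zero_mul] at hx
      have h3 : (a1 : ℤ) ≠ 0 := by omega
      have h4 := (mul_eq_zero.1 hx.symm).resolve_right h3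
      exact Prod.ext e1 (by omega)
  simpa using this

def bur3_y (M a x : ℕ) : ℕ := ((a : ZMod M)⁻¹ * (x : ZMod M)).val

lemma bur3_y_lt {M : ℕ} (hM : 0 < M) (a x : ℕ) : bur3_y M a x < M := by
  have : NeZero M := ⟨hM.ne'⟩
  exact ZMod.val_lt _

lemma bur3_y_dvd {M a : ℕ} (hM : 0 < M) (hc : Nat.Coprime a M) (x : ℕ) :
    (M : ℤ) ∣ (x : ℤ) - a * bur3_y M a x := by
  have : NeZero M := ⟨hM.ne'⟩
  rw [← ZMod.intCast_zmod_eq_zero_iff_dvd]
  push_cast
  unfold bur3_y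
  rw [ZMod.natCast_zmod_val, ← mul_assoc, ZMod.coe_mul_inv_eq_one a hc, one_mul, sub_self]

lemma bur3_J {M a : ℕ} (hM : 0 < M) (hc : Nat.Coprime a M) (x b : ℕ) :
    J(((x + a * b : ℕ) : ℤ) | M) = J((a : ℤ) | M) * J((bur3_y M a x : ℤ) + b | M) := by
  rw [← jacobiSym.mul_left]
  apply jacobiSym.mod_left'
  rw [Int.emod_eq_emod_iff_emod_sub_eq_zero, ← Int.dvd_iff_emod_eq_zero]
  have := bur3_y_dvd hM hc x
  convert this using 1
  push_cast
  ring

/-- number of pairs with a given class -/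
def bur3_nu (M H n : ℕ) (S : Finset ℕ) (y : ℕ) : ℕ :=
  ((S ×ˢ range H).filter fun d => bur3_y M d.1 (n + d.2) = y).card

lemma bur3_comp {M : ℕ} (hM : 0 < M) (H n : ℕ) (S : Finset ℕ) (g : ℕ → ℝ) :
    ∑ d ∈ S ×ˢ range H, g (bur3_y M d.1 (n + d.2)) =
      ∑ y ∈ range M, (bur3_nu M H n S y : ℝ) * g y := by
  rw [← Finset.sum_fiberwise_of_maps_to (s := S ×ˢ range H) (t := range M)
    (g := fun d => bur3_y M d.1 (n + d.2)) (fun d _ => mem_range.2 (bur3_y_lt hM _ _))]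
  refine Finset.sum_congr rfl fun y _ => ?_
  rw [Finset.sum_congr rfl (g := fun _ => g y) fun d hd => by rw [(mem_filter.1 hd).2]]
  simp [bur3_nu]

lemma bur3_nu_sum {M : ℕ} (hM : 0 < M) (H n : ℕ) (S : Finset ℕ) :
    ∑ y ∈ range M, (bur3_nu M H n S y : ℝ) = S.card * H := by
  have := bur3_comp hM H n S fun _ => 1
  simpa using this.symm

lemma bur3_nu_sq {M : ℕ} (hM : 0 < M) (H n : ℕ) (S : Finset ℕ) (hS : ∀ a ∈ S, Nat.Coprime a M) :
    ∑ y ∈ range M, (bur3_nu M H n S y : ℝ) ^ 2 ≤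
      ∑ a1 ∈ S, ∑ a2 ∈ S, ((bur3_P M H n a1 a2).card : ℝ) := by
  have h := bur3_comp hM H n S fun y => (bur3_nu M H n S y : ℝ)
  simp only [← sq] at h
  rw [← h, Finset.sum_product]
  refine Finset.sum_le_sum fun a1 h1 => ?_
  have e : ∀ i, (bur3_nu M H n S (bur3_y M a1 (n + i)) : ℝ) =
      ∑ a2 ∈ S, ∑ j ∈ range H, if bur3_y M a2 (n + j) = bur3_y M a1 (n + i) then (1 : ℝ) else 0 := by
    intro i
    unfold bur3_nu
    rw [Finset.card_filter, Finset.sum_product]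
    push_cast
    rfl
  simp only [e]
  rw [Finset.sum_comm]
  refine Finset.sum_le_sum fun a2 h2 => ?_
  unfold bur3_P
  rw [Finset.card_filter, Finset.sum_product]
  push_cast
  refine Finset.sum_le_sum fun i _ => Finset.sum_le_sum fun j _ => ?_
  split_ifs with c1 c2 c2
  · exact le_rfl
  · exfalso
    apply c2
    have d1 := bur3_y_dvd hM (hS a1 h1) (n + i)
    have d2 := bur3_y_dvd hM (hS a2 h2) (n + j)
    rw [c1] at d2
    have := dvd_sub (d1.mul_right a2) (d2.mul_right a1)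
    push_cast at this
    have e : ((n : ℤ) + i) * a2 - (n + j) * a1 = (n + i - a1 * (bur3_y M a1 (n + i) : ℤ)) * a2
        - (n + j - a2 * (bur3_y M a1 (n + i) : ℤ)) * a1 := by ring
    rw [e]
    exact this
  · exact zero_le_one
  · exact le_rfl

lemma bur3_nu_sq2 {M A H w : ℕ} (hM : 0 < M) (n : ℕ) (S : Finset ℕ) (hw : 2 ≤ w)
    (hS : ∀ a ∈ S, a.Prime ∧ ¬ a ∣ M ∧ a ≤ A ∧ A ≤ a * w) (hAH : A ≤ H) (hM2 : 2 * A * H ≤ M) :
    ∑ y ∈ range M, (bur3_nu M H n S y : ℝ) ^ 2 ≤ 2 * w * (S.card * H) := by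
  refine (bur3_nu_sq hM H n S fun a ha =>
    (Nat.Prime.coprime_iff_not_dvd (hS a ha).1).2 (hS a ha).2.1).trans ?_
  have hc : S.card ≤ A := by
    have : S ⊆ Icc 1 A := fun a ha => mem_Icc.2 ⟨(hS a ha).1.pos, (hS a ha).2.2.1⟩
    simpa using Finset.card_le_card this
  have key : ∀ a1 ∈ S, ∑ a2 ∈ S, ((bur3_P M H n a1 a2).card : ℝ) ≤ 2 * w * H := by
    intro a1 h1
    obtain ⟨p1, -, l1, u1⟩ := hS a1 h1
    have t : ∑ a2 ∈ S, (bur3_P M H n a1 a2).card ≤ 2 * w * H := by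
      rw [← Finset.add_sum_erase S _ h1]
      have b1 := bur3_P1 (H := H) (M := M) (n : ℤ) l1 l1 p1.pos hM2
      have b2 : ∑ a2 ∈ S.erase a1, (bur3_P M H n a1 a2).card ≤ (S.erase a1).card • (H / a1 + 1) := by
        apply Finset.sum_le_card_nsmul
        intro a2 h2
        obtain ⟨ne, h2⟩ := mem_erase.1 h2
        exact bur3_P2 (n : ℤ) l1 (hS a2 h2).2.2.1 p1.pos
          ((Nat.coprime_primes p1 (hS a2 h2).1).2 (Ne.symm ne)) hM2
      have b3 : (S.erase a1).card ≤ A := (Finset.card_erase_le).trans hc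
      have b4 : A * (H / a1) ≤ w * H := by
        calc A * (H / a1) ≤ a1 * w * (H / a1) := by gcongr
          _ = w * (a1 * (H / a1)) := by ring
          _ ≤ w * H := by gcongr; exact Nat.mul_div_le H a1
      have b5 : (S.erase a1).card * (H / a1 + 1) ≤ A * (H / a1 + 1) := by gcongr
      rw [smul_eq_mul] at b2
      nlinarith
    exact_mod_cast t
  calc _ ≤ ∑ a1 ∈ S, (2 * w * H : ℝ) := Finset.sum_le_sum key
    _ = _ := by simp; ring

lemma bur3_pt {v r w : ℝ} {k : ℕ} (hk : 1 ≤ k) (hv : 0 ≤ v) (hw : 0 < w) :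
    v * |r| ≤ v + v ^ 2 / w + w * r ^ (2 * k) := by
  have e : r ^ (2 * k) = (|r| ^ k) ^ 2 := by
    rw [← pow_mul, mul_comm k 2, pow_mul, pow_mul, sq_abs]
  have h1 : 0 ≤ v ^ 2 / w := by positivity
  have h2 : 0 ≤ w * r ^ (2 * k) := by rw [e]; positivity
  rcases le_total |r| 1 with h | h
  · nlinarith
  · have h3 : |r| ≤ |r| ^ k := le_self_pow₀ h (by omega)
    have h4 : v * |r| ^ k ≤ v ^ 2 / w + w * (|r| ^ k) ^ 2 := by
      have h5 : 0 ≤ |r| ^ k := by positivity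
      generalize |r| ^ k = t at *
      have h6 : v ^ 2 / w + w * t ^ 2 - v * t = ((v - w * t) ^ 2 + v * (w * t)) / w := by
        field_simp
        ring
      have h7 : 0 ≤ ((v - w * t) ^ 2 + v * (w * t)) / w := by positivity
      linarith
    rw [e]
    nlinarith

/-- the amplification step -/
lemma bur3_amp {M A B H w k : ℕ} {T E : ℝ} (hM : 0 < M) (n : ℕ) (S : Finset ℕ) (hw : 2 ≤ w)
    (hk : 1 ≤ k) (hT : 0 < T)
    (hS : ∀ a ∈ S, a.Prime ∧ ¬ a ∣ M ∧ a ≤ A ∧ A ≤ a * w) (hAH : A ≤ H) (hM2 : 2 * A * H ≤ M)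
    (hE : ∑ x ∈ range M, (∑ b ∈ Icc 1 B, (J((x : ℤ) + b | M) : ℝ)) ^ (2 * k) ≤ E) :
    S.card * B * |bur3_G (fun x => (J((x : ℤ) | M) : ℝ)) n H| ≤
      T * (3 * (S.card * H) + w * E / T ^ (2 * k)) + S.card * B * (2 * (A * B)) := by
  set f : ℕ → ℝ := fun x => (J((x : ℤ) | M) : ℝ) with hf
  have hf1 : ∀ x, |f x| ≤ 1 := fun x => bur3_abs M _
  set W : ℕ → ℝ := fun x => ∑ b ∈ Icc 1 B, (J((x : ℤ) + b | M) : ℝ) with hW
  have s1 : ∀ a ∈ S, B * |bur3_G f n H| ≤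
      ∑ i ∈ range H, |W (bur3_y M a (n + i))| + B * (2 * (A * B)) := by
    intro a ha
    obtain ⟨pa, na, la, -⟩ := hS a ha
    have hc := (Nat.Prime.coprime_iff_not_dvd pa).2 na
    have t1 : |∑ b ∈ Icc 1 B, (bur3_G f n H - bur3_G f (n + a * b) H)| ≤ B * (2 * (A * B)) := by
      calc _ ≤ ∑ b ∈ Icc 1 B, |bur3_G f n H - bur3_G f (n + a * b) H| :=
            Finset.abs_sum_le_sum_abs _ _
        _ ≤ ∑ b ∈ Icc 1 B, (2 * (A * B) : ℝ) := by
            refine Finset.sum_le_sum fun b hb => (bur3_shift hf1 n H (a * b)).trans ?_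
            have : b ≤ B := (mem_Icc.1 hb).2
            push_cast
            gcongr
        _ = _ := by simp
    have t2 : ∑ b ∈ Icc 1 B, bur3_G f (n + a * b) H =
        ∑ i ∈ range H, (J((a : ℤ) | M) : ℝ) * W (bur3_y M a (n + i)) := by
      unfold bur3_G
      rw [Finset.sum_comm]
      refine Finset.sum_congr rfl fun i _ => ?_
      simp only [hW, hf]
      rw [Finset.mul_sum]
      refine Finset.sum_congr rfl fun b _ => ?_
      have e : n + a * b + i = (n + i) + a * b := by ring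
      rw [e, bur3_J hM hc]
      push_cast
      rfl
    have t3 : |∑ i ∈ range H, (J((a : ℤ) | M) : ℝ) * W (bur3_y M a (n + i))| ≤
        ∑ i ∈ range H, |W (bur3_y M a (n + i))| := by
      refine (Finset.abs_sum_le_sum_abs _ _).trans (Finset.sum_le_sum fun i _ => ?_)
      rw [abs_mul]
      exact mul_le_of_le_one_left (abs_nonneg _) (bur3_abs M _)
    rw [Finset.sum_sub_distrib, t2] at t1
    simp only [sum_const, Nat.card_Icc, add_tsub_cancel_right, nsmul_eq_mul] at t1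
    have t4 : |(B : ℝ) * bur3_G f n H| = B * |bur3_G f n H| := by
      rw [abs_mul, Nat.abs_cast]
    have t5 := abs_sub_abs_le_abs_sub ((B : ℝ) * bur3_G f n H)
      (∑ i ∈ range H, (J((a : ℤ) | M) : ℝ) * W (bur3_y M a (n + i)))
    linarith
  have s2 := Finset.sum_le_sum s1
  rw [Finset.sum_add_distrib, ← Finset.sum_product' (f := fun a i => |W (bur3_y M a (n + i))|),
    bur3_comp hM H n S (fun y => |W y|)] at s2
  simp only [sum_const, nsmul_eq_mul] at s2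
  have hw0 : (0 : ℝ) < w := by positivity
  have s3 : ∑ y ∈ range M, (bur3_nu M H n S y : ℝ) * |W y| ≤
      ∑ y ∈ range M, T * ((bur3_nu M H n S y : ℝ) + (bur3_nu M H n S y : ℝ) ^ 2 / w
        + w * (W y ^ (2 * k) / T ^ (2 * k))) := by
    refine Finset.sum_le_sum fun y _ => ?_
    have := bur3_pt (v := (bur3_nu M H n S y : ℝ)) (r := W y / T) hk (by positivity) hw0
    rw [div_pow, abs_div, abs_of_pos hT] at this
    have e : (bur3_nu M H n S y : ℝ) * |W y| = T * ((bur3_nu M H n S y : ℝ) * (|W y| / T)) := by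
      field_simp
    rw [e]
    gcongr
  rw [← Finset.mul_sum, Finset.sum_add_distrib, Finset.sum_add_distrib, bur3_nu_sum hM,
    ← Finset.sum_div, ← Finset.mul_sum, ← Finset.sum_div] at s3
  have s4 := bur3_nu_sq2 hM n S hw hS hAH hM2
  have s5 : (∑ y ∈ range M, (bur3_nu M H n S y : ℝ) ^ 2) / w ≤ 2 * (S.card * H) := by
    rw [div_le_iff₀ hw0]
    linarith
  have s6 : (w : ℝ) * ((∑ y ∈ range M, W y ^ (2 * k)) / T ^ (2 * k)) ≤ w * E / T ^ (2 * k) := by
    rw [mul_div_assoc]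
    gcongr
  have s7 : T * (S.card * H + (∑ y ∈ range M, (bur3_nu M H n S y : ℝ) ^ 2) / w
      + w * ((∑ y ∈ range M, W y ^ (2 * k)) / T ^ (2 * k))) ≤
      T * (3 * (S.card * H) + w * E / T ^ (2 * k)) := by
    gcongr
    linarith
  linarith

lemma bur3_omega {M : ℕ} (hM : 0 < M) : (M.primeFactors.card : ℝ) * Real.log 2 ≤ Real.log M := by
  have h1 : 2 ^ M.primeFactors.card ≤ ∏ p ∈ M.primeFactors, p :=
    Finset.pow_card_le_prod _ _ _ fun p hp => (Nat.prime_of_mem_primeFactors hp).two_le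
  have h2 := Nat.le_of_dvd hM (Nat.prod_primeFactors_dvd M)
  have h3 : (2 : ℝ) ^ M.primeFactors.card ≤ M := by exact_mod_cast h1.trans h2
  rw [← Real.log_pow]
  exact Real.log_le_log (by positivity) h3

/-- many primes in the top range that do not divide `M` -/
lemma bur3_primes (e : ℕ) (he : 1 ≤ e) : ∃ w0 : ℕ, ∀ w M : ℕ, w0 ≤ w → 0 < M → M ≤ w ^ (4 * e) →
    ∃ S : Finset ℕ, w ^ e ≤ S.card ∧
      ∀ a ∈ S, a.Prime ∧ ¬ a ∣ M ∧ a ≤ w ^ (e + 1) ∧ w ^ (e + 1) ≤ a * w := by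
  have hev : ∀ᶠ x : ℝ in Filter.atTop, ‖Real.log x‖ ≤ (1 / (20 * ((e : ℝ) + 1))) * ‖x‖ :=
    Real.isLittleO_log_id_atTop.bound (by positivity)
  obtain ⟨x0, hx0⟩ := Filter.eventually_atTop.1 hev
  refine ⟨max ⌈x0⌉₊ 8, fun w M hw hM hMw => ?_⟩
  have hw8 : 8 ≤ w := (le_max_right _ _).trans hw
  have hw8' : (8 : ℝ) ≤ w := by exact_mod_cast hw8
  have hx : x0 ≤ w := (Nat.le_ceil x0).trans (by exact_mod_cast (le_max_left _ _).trans hw)
  have hs := hx0 w hx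
  have s0 : 0 < Real.log w := Real.log_pos (by linarith)
  rw [Real.norm_eq_abs, Real.norm_eq_abs, abs_of_pos s0, abs_of_pos (by linarith),
    one_div, inv_mul_eq_div, le_div_iff₀ (by positivity)] at hs
  set A := w ^ (e + 1) with hA
  refine ⟨(Nat.primesLE A \ Icc 1 (w ^ e)) \ M.primeFactors, ?_, ?_⟩
  · have c1 := Finset.le_card_sdiff M.primeFactors (Nat.primesLE A \ Icc 1 (w ^ e))
    have c2 := Finset.le_card_sdiff (Icc 1 (w ^ e)) (Nat.primesLE A)
    rw [Nat.primesLE_card_eq_primeCounting] at c2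
    simp only [Nat.card_Icc, add_tsub_cancel_right] at c2
    suffices h : 2 * w ^ e + M.primeFactors.card ≤ Nat.primeCounting A by omega
    have p1 := Chebyshev.pi_ge A
    have lA : Real.log A = ((e : ℝ) + 1) * Real.log w := by
      rw [hA]; push_cast; rw [Real.log_pow]; push_cast; ring
    have l2 : (1 / 2 : ℝ) ≤ Real.log 2 := by linarith [Real.log_two_gt_d9]
    have l3 : Real.log 2 ≤ 1 := by linarith [Real.log_two_lt_d9]
    have hA1 : (1 : ℝ) ≤ A := by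
      have : 1 ≤ A := Nat.one_le_pow _ _ (by omega)
      exact_mod_cast this
    have lA1 : Real.log (A + 1) ≤ 1 + ((e : ℝ) + 1) * Real.log w := by
      have : Real.log (A + 1) ≤ Real.log (2 * A) := Real.log_le_log (by linarith) (by linarith)
      rw [Real.log_mul (by norm_num) (by linarith), lA] at this
      linarith
    have om := bur3_omega hM
    have lM : Real.log M ≤ 4 * e * Real.log w := by
      have : (M : ℝ) ≤ (w : ℝ) ^ (4 * e) := by exact_mod_cast hMw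
      have := Real.log_le_log (by exact_mod_cast hM) this
      rw [Real.log_pow] at this
      push_cast at this
      linarith
    have hP : (w : ℝ) ≤ (w : ℝ) ^ e := le_self_pow₀ (by linarith) (by omega)
    have eA : (A : ℝ) = (w : ℝ) ^ e * w := by rw [hA]; push_cast; ring
    have om0 : (0 : ℝ) ≤ M.primeFactors.card := by positivity
    have e0 : (0 : ℝ) ≤ e := by positivity
    have om2 : (M.primeFactors.card : ℝ) ≤ (w : ℝ) ^ e := by nlinarith
    have goal : (2 * (w : ℝ) ^ e + M.primeFactors.card) ≤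
        (A * Real.log 2 - Real.log (A + 1)) / Real.log A := by
      rw [le_div_iff₀ (by rw [lA]; positivity), lA]
      generalize (w : ℝ) ^ e = P at *
      generalize ht : ((e : ℝ) + 1) * Real.log w = t at *
      have t0 : 0 ≤ t := by rw [← ht]; positivity
      have t1 : 20 * t ≤ w := by rw [← ht]; linarith
      have q1 : (2 * P + M.primeFactors.card) * t ≤ 3 * P * t := by gcongr; linarith
      have q2 : P * w * (1 / 2) ≤ A * Real.log 2 := by rw [eA]; gcongr; nlinarith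
      nlinarith
    have := goal.trans p1
    exact_mod_cast this
  · intro a ha
    simp only [mem_sdiff, Nat.mem_primesLE, mem_Icc, Nat.mem_primeFactors, not_and] at ha
    obtain ⟨⟨⟨h1, h2⟩, h3⟩, h4⟩ := ha
    refine ⟨h2, fun hd => h4 h2 hd hM.ne', h1, ?_⟩
    have h5 : w ^ e ≤ a := by
      have := h3 h2.pos
      omega
    rw [hA, pow_succ]
    gcongr

lemma bur3_core (h2 : St_BUR2) (k : ℕ) (hk : 1 ≤ k) : ∃ (C : ℝ) (w0 : ℕ), 0 < C ∧
    ∀ M w n : ℕ, Odd M → Squarefree M → w0 ≤ w → M ≤ w ^ (4 * k ^ 2) →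
    2 * w ^ (2 * k ^ 2 + 2 * k + 3) ≤ M →
    |bur3_G (fun x => (J((x : ℤ) | M) : ℝ)) n (w ^ (k ^ 2 + 2 * k + 2))|
      ≤ C * (w : ℝ) ^ (k ^ 2 + 2 * k + 1) := by
  have hk2 : 1 ≤ k ^ 2 := Nat.one_le_pow _ _ hk
  obtain ⟨C0, hC0, h⟩ := h2 k (((4 * k ^ 2 : ℕ) : ℝ)⁻¹) hk (by positivity)
  obtain ⟨w0, hw0⟩ := bur3_primes (k ^ 2) hk2
  refine ⟨5 + 2 * C0, max w0 2, by positivity, fun M w n ho hs hw hMw hwM => ?_⟩
  have hM : 0 < M := ho.pos
  have hw2 : 2 ≤ w := (le_max_right _ _).trans hw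
  have hwp : (0 : ℝ) < w := by positivity
  obtain ⟨S, hc, hS⟩ := hw0 w M ((le_max_left _ _).trans hw) hM hMw
  obtain ⟨j, rfl⟩ : ∃ j, k = j + 1 := ⟨k - 1, by omega⟩
  set k := j + 1 with hkj
  have hE := h M (w ^ (2 * k)) ho hs (Nat.one_le_pow _ _ (by omega))
  have hMw' : (M : ℝ) ≤ (w : ℝ) ^ (4 * k ^ 2) := by exact_mod_cast hMw
  have r1 : (M : ℝ) ^ (((4 * k ^ 2 : ℕ) : ℝ)⁻¹) ≤ w := by
    calc _ ≤ ((w : ℝ) ^ (4 * k ^ 2)) ^ (((4 * k ^ 2 : ℕ) : ℝ)⁻¹) := by gcongr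
      _ = w := Real.pow_rpow_inv_natCast hwp.le (by omega)
  have r2 : √(M : ℝ) ≤ (w : ℝ) ^ (2 * k ^ 2) := by
    rw [Real.sqrt_le_left (by positivity), ← pow_mul]
    convert hMw' using 2
    ring
  have hE2 : ∑ x ∈ range M, (∑ b ∈ Icc 1 (w ^ (2 * k)), (J((x : ℤ) + b | M) : ℝ)) ^ (2 * k) ≤
      2 * C0 * (w : ℝ) ^ (6 * k ^ 2 + 1) := by
    refine hE.trans ?_
    push_cast at r1 ⊢
    calc _ ≤ C0 * w * ((w : ℝ) ^ (4 * k ^ 2) * ((w : ℝ) ^ (2 * k)) ^ k
          + (w : ℝ) ^ (2 * k ^ 2) * ((w : ℝ) ^ (2 * k)) ^ (2 * k)) := by gcongr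
      _ = _ := by ring
  have amp := bur3_amp (T := (w : ℝ) ^ (2 * j + 1)) (H := w ^ (k ^ 2 + 2 * k + 2)) hM n S hw2 hk
    (by positivity) hS (Nat.pow_le_pow_right (by omega) (by omega))
    (by
      refine le_trans (le_of_eq ?_) hwM
      ring) hE2
  have hc' : (w : ℝ) ^ (k ^ 2) ≤ S.card := by exact_mod_cast hc
  have hcp : (0 : ℝ) < S.card := lt_of_lt_of_le (by positivity) hc'
  have e1 : (w : ℝ) * (2 * C0 * (w : ℝ) ^ (6 * k ^ 2 + 1)) / ((w : ℝ) ^ (2 * j + 1)) ^ (2 * k) =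
      2 * C0 * ((w : ℝ) ^ (k ^ 2) * (w : ℝ) ^ (k ^ 2 + 2 * k + 2)) := by
    rw [div_eq_iff (by positivity), hkj]
    ring
  rw [e1] at amp
  push_cast at amp
  have e2 : 2 * C0 * ((w : ℝ) ^ (k ^ 2) * (w : ℝ) ^ (k ^ 2 + 2 * k + 2)) ≤
      2 * C0 * (S.card * (w : ℝ) ^ (k ^ 2 + 2 * k + 2)) := by gcongr
  have e3 : (w : ℝ) ^ (2 * j + 1) * (3 * (S.card * (w : ℝ) ^ (k ^ 2 + 2 * k + 2)) +
        2 * C0 * (S.card * (w : ℝ) ^ (k ^ 2 + 2 * k + 2))) +
        S.card * (w : ℝ) ^ (2 * k) * (2 * ((w : ℝ) ^ (k ^ 2 + 1) * (w : ℝ) ^ (2 * k))) =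
      S.card * (w : ℝ) ^ (2 * k) * ((5 + 2 * C0) * (w : ℝ) ^ (k ^ 2 + 2 * k + 1)) := by
    rw [hkj]
    ring
  have e4 : (w : ℝ) ^ (2 * j + 1) * (3 * (S.card * (w : ℝ) ^ (k ^ 2 + 2 * k + 2)) +
        2 * C0 * ((w : ℝ) ^ (k ^ 2) * (w : ℝ) ^ (k ^ 2 + 2 * k + 2))) ≤
      (w : ℝ) ^ (2 * j + 1) * (3 * (S.card * (w : ℝ) ^ (k ^ 2 + 2 * k + 2)) +
        2 * C0 * (S.card * (w : ℝ) ^ (k ^ 2 + 2 * k + 2))) := by gcongr
  have hp : (0 : ℝ) < S.card * (w : ℝ) ^ (2 * k) := by positivity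
  exact le_of_mul_le_mul_left (by linarith) hp

theorem blk_BUR3 (h2 : St_BUR2) : St_BUR3 := by
  intro ε hε
  obtain ⟨k, hk2, hk⟩ : ∃ k : ℕ, 2 ≤ k ∧ 2 / ε ≤ k :=
    ⟨max 2 ⌈2 / ε⌉₊, le_max_left _ _,
      (Nat.le_ceil _).trans (by exact_mod_cast le_max_right _ _)⟩
  obtain ⟨C, w0, hC, h⟩ := bur3_core h2 k (by omega)
  have hkp : (2 : ℝ) ≤ k := by exact_mod_cast hk2
  set c : ℝ := ((4 * k ^ 2 : ℕ) : ℝ)⁻¹ with hc
  have hc0 : 0 < c := by positivity
  set e := 2 * k ^ 2 + 2 * k + 3 with he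
  set j := k ^ 2 + 2 * k + 2 with hj
  set w1 := max w0 (2 ^ (e + 1) + 1) with hw1
  refine ⟨c, C + 2 ^ j + w1, hc0, by positivity, fun M N H ho hs hM hH => ?_⟩
  set f : ℕ → ℝ := fun x => (J((x : ℤ) | M) : ℝ) with hf
  have hf1 : ∀ x, |f x| ≤ 1 := fun x => bur3_abs M _
  have hM1 : (1 : ℝ) ≤ M := by exact_mod_cast hM.le
  set u : ℝ := (M : ℝ) ^ c with hu
  have hu1 : 1 ≤ u := Real.one_le_rpow hM1 hc0.le
  have hup : 0 < u := by linarith
  have huM : u ^ (4 * k ^ 2) = M := Real.rpow_inv_natCast_pow (by linarith) (by positivity)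
  rw [Real.rpow_neg (by linarith), ← hu, ← div_eq_mul_inv, le_div_iff₀ hup]
  have eG := bur3_Ioc f N H
  simp only [hf] at eG
  rw [eG]
  set w := ⌈u⌉₊ with hw
  have huw : u ≤ w := Nat.le_ceil u
  have hwu : (w : ℝ) < u + 1 := Nat.ceil_lt_add_one hup.le
  have hH0 : (0 : ℝ) ≤ H := by positivity
  rcases lt_or_ge w w1 with hlt | hge
  · have t1 := bur3_triv hf1 (N + 1) H
    have t2 : u ≤ w1 := huw.trans (by exact_mod_cast hlt.le)
    have t3 : (0 : ℝ) ≤ (C + 2 ^ j) * H := by positivity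
    calc _ ≤ (H : ℝ) * w1 := by gcongr
      _ ≤ _ := by nlinarith
  · have hw2u : (w : ℝ) ≤ 2 * u := by linarith
    have hwp : (0 : ℝ) < w := by linarith
    have hue : (2 : ℝ) ^ (e + 1) ≤ u := by
      have : 2 ^ (e + 1) + 1 ≤ w := (le_max_right _ _).trans hge
      have : (2 : ℝ) ^ (e + 1) + 1 ≤ w := by exact_mod_cast this
      linarith
    have a1 : M ≤ w ^ (4 * k ^ 2) := by
      have : (M : ℝ) ≤ (w : ℝ) ^ (4 * k ^ 2) := by rw [← huM]; gcongr
      exact_mod_cast this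
    have a2 : 2 * w ^ e ≤ M := by
      have : 2 * (w : ℝ) ^ e ≤ M := by
        calc 2 * (w : ℝ) ^ e ≤ 2 * (2 * u) ^ e := by gcongr
          _ = 2 ^ (e + 1) * u ^ e := by rw [mul_pow]; ring
          _ ≤ u * u ^ e := by gcongr
          _ = u ^ (e + 1) := by ring
          _ ≤ u ^ (4 * k ^ 2) := pow_le_pow_right₀ hu1 (by rw [he]; nlinarith)
          _ = M := huM
      exact_mod_cast this
    have hD := fun a => h M w a ho hs ((le_max_left _ _).trans hge) a1 a2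
    have hj0 : 0 < w ^ j := by
      have : 0 < w := by exact_mod_cast hwp
      positivity
    have cut := bur3_cut hf1 (w ^ j) _ hD (H / w ^ j) (H % w ^ j) (N + 1)
    rw [Nat.div_add_mod'] at cut
    have b1 : ((H / w ^ j : ℕ) : ℝ) * (w : ℝ) ^ j ≤ H := by
      exact_mod_cast Nat.div_mul_le_self H (w ^ j)
    have b2 : ((H % w ^ j : ℕ) : ℝ) ≤ (w : ℝ) ^ j := by
      exact_mod_cast (Nat.mod_lt H hj0).le
    have b3 : u ^ (j + 1) ≤ H := by
      refine le_trans ?_ hH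
      rw [hu, ← Real.rpow_mul_natCast (by linarith)]
      apply Real.rpow_le_rpow_of_exponent_le hM1
      rw [hc, hj, inv_mul_le_iff₀ (by positivity)]
      rw [div_le_iff₀ hε] at hk
      push_cast
      nlinarith
    have b4 : (w : ℝ) ^ j * u ≤ 2 ^ j * H := by
      calc (w : ℝ) ^ j * u ≤ (2 * u) ^ j * u := by gcongr
        _ = 2 ^ j * u ^ (j + 1) := by rw [mul_pow]; ring
        _ ≤ _ := by gcongr
    have b5 : ((H / w ^ j : ℕ) : ℝ) * (C * (w : ℝ) ^ (k ^ 2 + 2 * k + 1)) * u ≤ C * H := by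
      calc _ ≤ ((H / w ^ j : ℕ) : ℝ) * (C * (w : ℝ) ^ (k ^ 2 + 2 * k + 1)) * w := by gcongr
        _ = C * (((H / w ^ j : ℕ) : ℝ) * (w : ℝ) ^ j) := by rw [hj]; ring
        _ ≤ _ := by gcongr
    have b6 : ((H % w ^ j : ℕ) : ℝ) * u ≤ (w : ℝ) ^ j * u := by gcongr
    have b7 : (0 : ℝ) ≤ w1 * H := by positivity
    have b8 := mul_le_mul_of_nonneg_right cut hup.le
    nlinarith

end

end Pool.Agent.Lib.PS
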