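import Pool.Agent.Lib.PS.Defs

/-!
Block statements. Every block proves `theorem X (deps) : St_X` and imports only this file
(and any already landed library).
-/

namespace Pool.Agent.Lib.PS

open Finset Real MeasureTheory Complex Filter Topology
open scoped NumberTheorySymbols ArithmeticFunction.Moebius ArithmeticFunction.vonMangoldt
  Classical ComplexConjugate ContDiff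

/-! ### Part 1: the variance -/

def St_GAU : Prop :=
  (∀ (q : ℕ) (a b : ℤ), 0 < q → IsCoprime a (q : ℤ) →
    ‖∑ m ∈ range q, ee (((a : ℝ) * (m : ℝ) ^ 2 + (b : ℝ) * m) / q)‖ ≤ √(2 * (q : ℝ))) ∧
  ∀ (q : ℕ) (x : ℤ), 0 < q → (Aq q x : ℂ) =
    ∑ a ∈ (range q).filter (fun a => Nat.Coprime a q), gS a q / q * ee (-((a : ℝ) * x / q))

def St_MAJ : Prop :=
  ∃ C : ℝ, 0 < C ∧ ∀ (X q u v : ℕ) (a : ℤ) (β : ℝ), 1 ≤ X → 0 < q → IsCoprime a (q : ℤ) →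
    |β| ≤ 1 / (8 * q * √(X : ℝ)) → X / 2 ≤ u → v ≤ 2 * X →
    ‖∑ x ∈ Ioc u v, (sqw x : ℂ) * ee (x * ((a : ℝ) / q + β))
      - gS a q / q * ∑ x ∈ Ioc u v, ee (x * β)‖ ≤ C * √((X : ℝ) * q) * (1 + Real.log q)

def St_MIN : Prop :=
  ∃ C : ℝ, 0 < C ∧ ∀ (X Y q : ℕ) (a : ℤ) (α : ℝ), 1 ≤ Y → 4 * Y ≤ X → 0 < q →
    IsCoprime a (q : ℤ) → |α - a / q| ≤ 1 / (q : ℝ) ^ 2 →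
    ∑ t ∈ range (2 * X), ‖∑ x ∈ win X Y t, (sqw x : ℂ) * ee (x * α)‖ ^ 2
      ≤ C * X * Y * (Y / (√(X : ℝ) * q) + 1) * (√(X : ℝ) + q * (1 + Real.log q))

def St_VAR : Prop :=
  ∀ ε : ℝ, 0 < ε → ∃ C : ℝ, 0 < C ∧ ∀ (X Y Q : ℕ) (a : ℕ → ℝ), 2 ≤ Q → Q ^ 3 ≤ Y →
    X * Q ^ 2 ≤ Y ^ 2 → 4 * Y ≤ X →
    ∑ n ∈ Ioc X (2 * X), (∑ p ∈ Ico Y (2 * Y), a p * (sqw (n - p) - (nu Q ((n : ℤ) - p) : ℝ))) ^ 2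
      ≤ C * (X : ℝ) ^ ε * (X * Y / Q) * ∑ p ∈ Ico Y (2 * Y), a p ^ 2

/-! ### Part 2: characters, local densities, singular series -/

def St_PB : Prop :=
  (∀ q ψ, 0 < q → (ψ ∈ chars q ↔ IsChar q ψ)) ∧
  (∀ r χ, 0 < r → χ ∈ prim r → IsChar r χ) ∧
  (∀ r, 0 < r → (prim r).card ≤ r) ∧
  (prim 1 = {fun _ => 1}) ∧
  (∀ r r' χ χ' g, 0 < r → 0 < r' → 0 < g → χ ∈ prim r → χ' ∈ prim r' →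
    (∀ k, Nat.Coprime k (r * r' * g) → χ k = χ' k) → r = r' ∧ χ = χ') ∧
  (∀ r χ, 0 < r → χ ∈ prim r → cj χ ∈ prim r) ∧
  (∀ M q ψ, Odd M → Squarefree M → 0 < q → Nat.Coprime M q → ψ ∈ prim q →
    jc M * ψ ∈ prim (M * q)) ∧
  (∀ W ψ, IsChar W ψ → ∃ q ψ', q ∣ W ∧ ψ' ∈ prim q ∧ ψ = tw W ψ') ∧
  (∀ M, Odd M → IsChar M (jc M)) ∧
  (∀ M, Odd M → ¬ IsSquare M → NonPr M (jc M)) ∧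
  (∀ q q' ψ ψ', IsChar q ψ → IsChar q' ψ' → IsChar (q * q') (ψ * ψ')) ∧
  (∀ q ψ, IsChar q ψ → IsChar q (cj ψ)) ∧
  (∀ q W ψ, 0 < W → IsChar q ψ → IsChar (q * W) (tw W ψ)) ∧
  (∀ q W ψ, 0 < W → q ∣ W → IsChar q ψ → IsChar W (tw W ψ)) ∧
  (∀ q g ψ, 0 < g → IsChar q ψ → NonPr q ψ → ∃ x, Nat.Coprime x (q * g) ∧ ψ x ≠ 1)

def St_PV : Prop :=
  ∀ q ψ, IsChar q ψ → NonPr q ψ → ∀ N H : ℕ,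
    ‖∑ k ∈ Ioc N (N + H), ψ k‖ ≤ 2 * (q.divisors.card : ℝ) * √(q : ℝ) * (1 + Real.log q)

def St_EXP : Prop :=
  ∀ (Q n : ℕ) (P : Finset ℕ) (a : ℕ → ℂ), (∀ p ∈ P, p.Prime ∧ Q < p) →
    ∑ p ∈ P, a p * (nu Q ((n : ℤ) - p) : ℂ) =
      ∑ r ∈ Icc 1 Q, ∑ χ ∈ prim r, (∑ p ∈ P, a p * χ p) * gam r χ n * (Sr r n (Q / r) : ℂ)

def St_STR : Prop :=
  ∀ ε : ℝ, 0 < ε → ∃ C : ℝ, 0 < C ∧ ∀ (W0 r n : ℕ) (χ : ℕ → ℂ), 2 ≤ W0 → 0 < r → χ ∈ prim r →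
    gam r χ n ≠ 0 → ∃ q ψ, Dec n W0.factorial r χ q ψ ∧ ‖gam r χ n‖ ≤ loc r n ∧
      ‖gam r χ n‖ ≤ C * √(W0.factorial : ℝ) * (q : ℝ) ^ (-(1 / 2 : ℝ) + ε) ∧
      (¬ q ∣ W0.factorial → ‖gam r χ n‖ ≤ C * (W0 : ℝ) ^ (-(1 / 4 : ℝ)) * loc r n)

def St_MOM : Prop :=
  ∀ (k : ℕ) (ε : ℝ), 1 ≤ k → 0 < ε → ∃ C : ℝ, 0 < C ∧ ∀ (X D : ℕ) (A : ℝ) (b : ℕ → ℝ),
    1 ≤ D → 0 ≤ A → (∀ d, |b d| ≤ A / D) →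
    ∑ n ∈ Ioc X (2 * X),
        (∑ d ∈ (Ioc D (2 * D)).filter Odd, b d * (J((n : ℤ) | d) : ℝ)) ^ (2 * k)
      ≤ C * A ^ (2 * k) * (D : ℝ) ^ ε * (X / (D : ℝ) ^ k + (D : ℝ) ^ k)

def St_SING1 : Prop :=
  ∀ η e0 : ℝ, 0 < η → 0 < e0 → ∃ c2 : ℝ, 0 < c2 ∧ ∀ ε : ℝ, 0 < ε → ∃ X0 : ℕ, ∀ X Q : ℕ, X0 ≤ X →
    (X : ℝ) ^ η ≤ Q → (Q : ℝ) ≤ (X : ℝ) ^ (1 / 3 : ℝ) →
    (((Ioc X (2 * X)).filter fun n =>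
      ¬ ((∀ y : ℕ, (X : ℝ) ^ η ≤ y → y ≤ Q → |S0 n y - S0 n Q| ≤ (X : ℝ) ^ (-c2)) ∧
        (X : ℝ) ^ (-ε) ≤ |S0 n Q|)).card : ℝ) ≤ (X : ℝ) ^ (2 / 3 + e0)

def St_SING2 : Prop :=
  ∀ ε : ℝ, 0 < ε → ∃ C : ℝ, 0 < C ∧ ∀ r n : ℕ, 0 < r →
    (0 < loc r n ∧ loc r n ≤ C * (r : ℝ) ^ ε) ∧
    (∀ y : ℕ, |Sr r n y| ≤ C * ((y : ℝ) + 1) ^ ε) ∧
    ∀ (y z : ℕ) (S τ : ℝ), 1 ≤ z → (∀ e : ℕ, 1 ≤ e → e ≤ z → |S0 n (y / e) - S| ≤ τ) →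
      |Sr r n y - S / loc r n| ≤ C * (r : ℝ) ^ ε * (τ + (((y : ℝ) + 1) ^ ε + |S|) / √(z : ℝ))

/-! ### Part 3: large sieve and Vaughan -/

def St_MLS : Prop :=
  ∃ C : ℝ, 0 < C ∧ ∀ (R N0 N : ℕ) (a : ℕ → ℂ), 1 ≤ R →
    ∑ q ∈ Icc 1 R, ∑ χ ∈ prim q, ‖∑ n ∈ Ioc N0 (N0 + N), a n * χ n‖ ^ 2
      ≤ C * (N + (R : ℝ) ^ 2) * (1 + Real.log R) * ∑ n ∈ Ioc N0 (N0 + N), ‖a n‖ ^ 2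

def St_VAU : Prop :=
  ∀ ε : ℝ, 0 < ε → ∃ C : ℝ, 0 < C ∧ ∀ (Y0 Y1 U R : ℕ) (P A τ0 : ℝ) (θ : ℕ → ℂ) (om φ : ℝ → ℂ)
    (F : Finset XX), 2 ≤ U → U ^ 3 ≤ Y0 → Y0 ≤ Y1 → 1 ≤ R → R ≤ Y1 → CM θ →
    F ⊆ (Icc 1 R).sigma prim → 0 ≤ P → (∀ x ∈ F, ∀ y, ‖psum (θ * x.2) y‖ ≤ P) →
    Integrable φ → Integrable (fun y : ℝ => (y : ℂ) * φ y) →
    (∫ y : ℝ, (1 + |y|) * ‖φ y‖) ≤ A → (∀ u : ℝ, om u = ∫ y : ℝ, φ y * cexp (-(I * y * u))) →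
    (∀ u : ℝ, (u ≤ Real.log Y0 ∨ Real.log Y1 ≤ u) → ‖om u‖ ≤ τ0) →
    ∑ x ∈ F, ‖∑ p ∈ PR Y0 Y1, ((Real.log p / p : ℝ) : ℂ) * om (Real.log p) * θ p * x.2 p‖
      ≤ C * (Y1 : ℝ) ^ ε * (A * (1 + R / √(U : ℝ) + (R : ℝ) ^ 2 / √(Y0 : ℝ)
        + (R : ℝ) ^ 2 * U * P / Y0) + τ0 * (R : ℝ) ^ 2)

/-! ### Part 4: Burgess -/

def St_STEP : Prop :=
  ∀ (p m : ℕ) (b : Fin m → ℤ), p.Prime → p ≠ 2 → (∃ i, ∀ j, j ≠ i → ¬ (p : ℤ) ∣ b i - b j) →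
    |∑ x ∈ range p, (J(∏ j, ((x : ℤ) + b j) | p) : ℝ)| ≤ 8 * m * √(p : ℝ)

def St_BUR2 : Prop :=
  ∀ (k : ℕ) (ε : ℝ), 1 ≤ k → 0 < ε → ∃ C : ℝ, 0 < C ∧ ∀ M B : ℕ, Odd M → Squarefree M → 1 ≤ B →
    ∑ x ∈ range M, (∑ b ∈ Icc 1 B, (J((x : ℤ) + b | M) : ℝ)) ^ (2 * k)
      ≤ C * (M : ℝ) ^ ε * (M * (B : ℝ) ^ k + √(M : ℝ) * (B : ℝ) ^ (2 * k))

def St_BUR3 : Prop :=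
  ∀ ε : ℝ, 0 < ε → ∃ c C : ℝ, 0 < c ∧ 0 < C ∧ ∀ M N H : ℕ, Odd M → Squarefree M → 1 < M →
    (M : ℝ) ^ (1 / 4 + ε) ≤ H →
    |∑ x ∈ Ioc N (N + H), (J((x : ℤ) | M) : ℝ)| ≤ C * H * (M : ℝ) ^ (-c)

def St_CANC : Prop :=
  (∀ χ c c' B B', CM χ → 0 < c' → c' ≤ c → c ≤ 1 → 0 ≤ B → B ≤ B' → Canc χ c B → Canc χ c' B') ∧
  (∀ χ P, CM χ → 0 ≤ P → (∀ y, ‖psum χ y‖ ≤ P) → Canc χ (1 / 2) P) ∧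
  ∀ ε : ℝ, 0 < ε → ∃ c C : ℝ, 0 < c ∧ c ≤ 1 / 2 ∧ 1 ≤ C ∧ ∀ (M q g : ℕ) (ψ : ℕ → ℂ),
    Odd M → Squarefree M → 0 < q → 0 < g → Nat.Coprime M q → CM ψ → (∀ k, ψ (k + q) = ψ k) →
    (1 < M ∨ NonPr q ψ) →
    Canc (tw g (jc M * ψ)) c (C * (M : ℝ) ^ (1 / 4 + ε) * q * (g : ℝ) ^ ε)

def St_FAM : Prop :=
  (∀ (n W R Q : ℕ), 0 < n →
    ((PP Q).filter (Rel n W R)).card ≤ n.divisors.card * R ^ 2) ∧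
  ∀ ε : ℝ, 0 < ε → ∃ c e1 : ℝ, 0 < c ∧ c ≤ 1 / 2 ∧ 0 < e1 ∧ ∀ W : ℕ, 0 < W → Even W →
    ∃ l0 : ℝ, ∀ l : ℝ, l0 ≤ l → ∀ (n R : ℕ) (x : XX), (R : ℝ) ≤ Real.exp (e1 * l) →
      2 ≤ x.1 → x.2 ∈ prim x.1 → Rel n W R x →
      CM (tw W x.2) ∧
      (∀ d : ℝ, 0 ≤ d → d ≤ 2 → (Mof n W x.1 : ℝ) ≤ Real.exp (d * l) →
        Canc (tw W x.2) c (Real.exp ((d / 4 + ε) * l))) ∧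
      ((Mof n W x.1 : ℝ) ≤ Real.exp (2 * l) →
        RealV (tw W x.2) ∨ Canc (tw W x.2 * tw W x.2) c (Real.exp (ε * l))) ∧
      ∀ y : XX, 2 ≤ y.1 → y.2 ∈ prim y.1 → Rel n W R y → x ≠ y →
        ((Nat.lcm (Mof n W x.1) (Mof n W y.1) : ℕ) : ℝ) ≤ Real.exp l →
        Canc (tw W x.2 * cj (tw W y.2)) c (Real.exp ((1 / 4 + ε) * l))

/-! ### Part 5: analytic tools -/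

def St_LDX : Prop :=
  (∀ c η : ℝ, 0 < c → c ≤ 1 / 2 → 0 < η → ∃ l0 : ℝ, ∀ l : ℝ, l0 ≤ l → ∀ (χ : ℕ → ℂ) (b : ℝ),
    CM χ → 0 ≤ b → b ≤ 3 → Canc χ c (Real.exp (b * l)) →
    LD (lam χ) (LL χ) 0 c l b η (l ^ 2)) ∧
  (∀ (χ : ℕ → ℂ) (c B : ℝ) (ρ : ℂ) (y : ℕ), 0 < c → c ≤ 1 → 0 ≤ B → Canc χ c B →
    1 - c / 2 ≤ ρ.re → LL χ ρ = 0 → 1 ≤ y →
    ‖∑ m ∈ Icc 1 y, χ m * (m : ℂ) ^ (-ρ)‖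
      ≤ (1 + 4 * ‖ρ‖ / c) * (y : ℝ) ^ (1 - ρ.re) * (B / y) ^ c) ∧
  (∀ (χ : ℕ → ℂ) (ρ : ℂ), LL (cj χ) (conj ρ) = conj (LL χ ρ) ∧
    ord (LL (cj χ)) (conj ρ) = ord (LL χ) ρ) ∧
  (∀ (a : ℕ → ℂ) (E : ℂ → ℂ) (m c l b η T : ℝ) (ρ : ℂ), 0 < c → LD a E m c l b η T →
    1 - c < ρ.re → (E ρ = 0 ↔ 1 ≤ ord E ρ)) ∧
  ∀ (a : ℕ → ℂ) (E : ℂ → ℂ) (m c l b η T : ℝ) (σ H : ℝ), 0 < c → LD a E m c l b η T →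
    1 - c < σ → {ρ : ℂ | σ ≤ ρ.re ∧ |ρ.im| ≤ H ∧ E ρ = 0}.Finite

def St_LDZ : Prop :=
  (∀ c η : ℝ, 0 < c → c ≤ 1 / 2 → 0 < η → ∃ l0 : ℝ, ∀ l : ℝ, l0 ≤ l →
    LD (lam 1) riemannZeta₁ 1 c l 0 η (l ^ 2)) ∧
  (∀ T : ℝ, ∃ e : ℝ, 0 < e ∧ ∀ s : ℂ, 1 - e ≤ s.re → |s.im| ≤ T → riemannZeta₁ s ≠ 0) ∧
  ∃ C : ℝ, 0 ≤ C ∧ ∀ (a : ℕ → ℂ) (s : ℂ), (∀ n, ‖a n‖ ≤ Λ n) → 1 < s.re →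
    LSeriesSummable a s ∧ ‖LSeries a s‖ ≤ 1 / (s.re - 1) + C

def St_FACT : Prop :=
  ∀ c : ℝ, 0 < c → c ≤ 1 / 2 → ∃ C : ℝ, 1 ≤ C ∧ ∀ ε : ℝ, 0 < ε → ∃ δ η l0 : ℝ, 0 < δ ∧
    δ ≤ c / 32 ∧ 0 < η ∧ ∀ l : ℝ, l0 ≤ l → ∀ (a : ℕ → ℂ) (E : ℂ → ℂ) (m b T γ : ℝ),
    LD a E m c l b η T → 0 ≤ b → b ≤ 3 → |γ| ≤ T →
    ∃ (R : ℝ) (Z : Multiset ℂ) (G : ℂ → ℂ), c / 8 ≤ R ∧ R ≤ c / 4 ∧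
      (∀ ρ, Z.count ρ = if ‖ρ - (1 + 1 / l + γ * I)‖ < R then ord E ρ else 0) ∧
      (Z.card : ℝ) ≤ C * l ∧
      DifferentiableOn ℂ G (Metric.ball (1 + 1 / l + γ * I) (R / 2)) ∧
      (∀ s ∈ Metric.ball (1 + 1 / l + γ * I : ℂ) (R / 2), ‖G s‖ ≤ C * l ∧
        (E s ≠ 0 → deriv E s / E s = (Z.map fun ρ => 1 / (s - ρ)).sum + G s)) ∧
      ∀ (s : ℂ) (D : Multiset ℂ), ‖s - (1 + 1 / l + γ * I)‖ ≤ δ → D ≤ Z →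
        (∀ ρ ∈ Z - D, ρ.re ≤ s.re) →
        -(G s).re - ((Z - D).map fun ρ => (1 / (s - ρ)).re).sum ≤ (b / 2 + ε) * l + C * D.card

/-- Gaussian smoothing -/
def St_GS : Prop :=
  ∀ (κ A B : ℝ) (h : ℝ → ℝ), 0 < κ → 0 ≤ A → Continuous h → (∀ s, A ≤ |s| → h s = 0) →
    (∀ s, |h s| ≤ B) →
    Continuous (gs κ h) ∧ (∀ t, |gs κ h t| ≤ B) ∧
    ((∀ s, 0 ≤ h s) → ∀ t, 0 ≤ gs κ h t) ∧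
    (∀ t d : ℝ, 0 ≤ d → (∀ s, |t - s| < d → h s = 0) →
      |gs κ h t| ≤ 2 * B * Real.exp (-(κ * d ^ 2 / 2))) ∧
    (∀ L : ℝ, (∀ s t, |h s - h t| ≤ L * |s - t|) →
      (∀ s t, |gs κ h s - gs κ h t| ≤ L * |s - t|) ∧ ∀ t, |gs κ h t - h t| ≤ L / √κ) ∧
    Differentiable ℂ (L2 h) ∧
    (∀ v : ℂ, ‖L2 h v‖ ≤ 2 * A * B * Real.exp (A * |v.re|)) ∧
    (∀ v : ℂ, Integrable (fun t : ℝ => (gs κ h t : ℂ) * cexp (v * t)) ∧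
      L2 (gs κ h) v = Psi κ h v) ∧
    ∀ σ t : ℝ, Integrable (fun y : ℝ => Psi κ h (σ + y * I)) ∧
      (gs κ h t : ℂ) = (∫ y : ℝ, Psi κ h (σ + y * I) * cexp (-((σ + y * I) * t))) / (2 * π)

/-- explicit formula skeleton -/
def St_EF : Prop :=
  (∀ (κ A l σ : ℝ) (h : ℝ → ℝ) (a : ℕ → ℂ) (w : ℂ), 0 < κ → 0 < l → Continuous h →
    (∀ s, A ≤ |s| → h s = 0) → (∀ n, ‖a n‖ ≤ Λ n) → w.re < σ →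
    Integrable (fun y : ℝ => Psi κ h (σ + y * I) * LSeries a (1 + (σ + y * I - w) / l)) ∧
    Ks a (gs κ h) l w =
      (∫ y : ℝ, Psi κ h (σ + y * I) * LSeries a (1 + (σ + y * I - w) / l)) / (2 * π * l)) ∧
  (∀ (κ A σ : ℝ) (h : ℝ → ℝ) (u : ℂ), 0 < κ → Continuous h → (∀ s, A ≤ |s| → h s = 0) →
    u.re < σ → Integrable (fun y : ℝ => Psi κ h (σ + y * I) / (σ + y * I - u)) ∧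
    (∫ y : ℝ, Psi κ h (σ + y * I) / (σ + y * I - u)) / (2 * π) = Lap (gs κ h) (-u)) ∧
  (∀ (κ A B L : ℝ) (h : ℝ → ℝ) (z : ℂ), 1 ≤ κ → 0 ≤ A → Continuous h → (∀ s, A ≤ |s| → h s = 0) →
    (∀ s, |h s| ≤ B) → (∀ s t, |h s - h t| ≤ L * |s - t|) → 0 ≤ z.re → z ≠ 0 →
    ‖Lap (gs κ h) z‖ ≤ (B + 10 * L * (A + 1)) / ‖z‖) ∧
  ∀ (F : ℂ → ℂ) (σ1 σ2 Y B : ℝ), σ1 ≤ σ2 → 0 ≤ Y →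
    DifferentiableOn ℂ F {s | σ1 ≤ s.re ∧ s.re ≤ σ2 ∧ |s.im| ≤ Y} →
    (∀ x : ℝ, σ1 ≤ x → x ≤ σ2 → ‖F (x + Y * I)‖ ≤ B ∧ ‖F (x - Y * I)‖ ≤ B) →
    ‖(∫ y in (-Y)..Y, F (σ2 + y * I)) - ∫ y in (-Y)..Y, F (σ1 + y * I)‖ ≤ 2 * (σ2 - σ1) * B

def St_KSM : Prop :=
  ∀ (c A ε : ℝ) (N : ℕ), 0 < c → c ≤ 1 / 2 → 0 < A → 0 < ε → ∃ e1 η l0 : ℝ, 0 < e1 ∧ 0 < η ∧
    ∀ l : ℝ, l0 ≤ l → ∀ (a : ℕ → ℂ) (E : ℂ → ℂ) (m b T : ℝ) (f : ℝ → ℝ) (lm mu : ℝ)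
    (D : Multiset ℂ), LD a E m c l b η T → 0 ≤ m → m ≤ 1 → 0 ≤ b → b ≤ 3 → TF A f → PD f →
    -1 ≤ lm → lm ≤ e1 * l → |mu| ≤ T * l → D.card ≤ N →
    (∀ z ∈ D, z.re < c * l / 2) → (∀ z, D.count z ≤ zo E l z) →
    (∀ z : ℂ, z.re < c * l / 2 → |z.im + mu| ≤ l → D.count z < zo E l z → lm + ε ≤ z.re) →
    (Ks a (sm l f) l (lm - mu * I)).re ≤ m * (Lap (sm l f) (-(lm - mu * I))).re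
      - (D.map fun z => (Lap (sm l f) (z - (lm - mu * I))).re).sum + b / 2 * f 0 + ε

def St_MERT : Prop :=
  (∃ C : ℝ, ∀ y : ℕ, 1 ≤ y → |∑ n ∈ Icc 1 y, Λ n / n - Real.log y| ≤ C) ∧
  (∀ A ε : ℝ, 0 < A → 0 < ε → ∃ l0 : ℝ, ∀ l : ℝ, l0 ≤ l → ∀ u : ℝ → ℝ, TF A u →
    (∑ n ∈ Icc 1 ⌊Real.exp (A * l)⌋₊, Λ n / n * u (Real.log n / l)) / l
      ≤ (∫ t in Set.Ioi (0 : ℝ), u t) + ε) ∧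
  ∀ ε : ℝ, 0 < ε → ∃ l0 : ℝ, ∀ l : ℝ, l0 ≤ l → ∀ N y : ℕ, 0 < N → (N : ℝ) ≤ Real.exp (5 * l) →
    ∑ n ∈ (Icc 1 y).filter (fun n => ¬ Nat.Coprime n N), Λ n / n ≤ ε * l

def St_KUN : Prop :=
  ∀ (c A Λm ε : ℝ) (N : ℕ), 0 < c → c ≤ 1 / 2 → 0 < A → 0 < ε → ∃ η l0 : ℝ, 0 < η ∧
    ∀ l : ℝ, l0 ≤ l → ∀ (a : ℕ → ℂ) (E : ℂ → ℂ) (m b T : ℝ) (f : ℝ → ℝ) (lm mu : ℝ)
    (D : Multiset ℂ), LD a E m c l b η T → 0 ≤ m → m ≤ 1 → 0 ≤ b → b ≤ 3 → TF A f → PD f →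
    -1 ≤ lm → lm ≤ Λm → |mu| ≤ T * l → D.card ≤ N →
    (∀ z ∈ D, z.re < c * l / 2) → (∀ z, D.count z ≤ zo E l z) →
    (∀ z : ℂ, z.re < c * l / 2 → |z.im + mu| ≤ l → D.count z < zo E l z → lm + ε ≤ z.re) →
    (Ks a f l (lm - mu * I)).re ≤ m * (Lap f (-(lm - mu * I))).re
      - (D.map fun z => (Lap f (z - (lm - mu * I))).re).sum + b / 2 * f 0 + ε

def St_PSI : Prop :=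
  ∀ c α K cg : ℝ, 0 < c → c ≤ 1 / 2 → 3 ≤ α → α ≤ 4 → 0 < K → K ≤ 1 → 0 < cg → cg ≤ 1 →
    ∃ C c1 η l0 : ℝ, 0 < C ∧ 0 < c1 ∧ 0 < η ∧ ∀ l : ℝ, l0 ≤ l →
    ∀ (a : ℕ → ℂ) (E : ℂ → ℂ) (m b T : ℝ), LD a E m c l b η T → 0 ≤ m → m ≤ 1 → 0 ≤ b → b ≤ 3 →
    0 ≤ T → ∃ Z : Multiset ℂ, (∀ z, Z.count z ≤ zo E l z) ∧
      (∀ z ∈ Z, 0 ≤ z.re ∧ ‖z‖ < c * l / 2) ∧
      ‖Ks a (hs (l / cg) α K) l 0 - m + (Z.map (Hs (l / cg) α K)).sum‖ ≤ Real.exp (-(c1 * l)) ∧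
      (∀ lm : ℝ, 0 ≤ lm → ((Z.filter fun z => lm ≤ z.re).map fun z => ‖Hs (l / cg) α K z‖).sum
        ≤ C * Real.exp (-((α - 1 / 4) * lm))) ∧
      ∀ M : ℝ, 1 ≤ M → ((Z.filter fun z => M ≤ ‖z‖).map fun z => ‖Hs (l / cg) α K z‖).sum ≤ C / M ∧
        ((Z.filter fun z => ‖z‖ ≤ M).card : ℝ) ≤ C * M

def St_WT : Prop :=
  ∀ α K : ℝ, 3 ≤ α → α ≤ 4 → 0 < K → K ≤ 1 →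
    (∀ κ t : ℝ, 0 < κ → 0 ≤ hs κ α K t ∧ hs κ α K t ≤ 1 / K) ∧
    (∀ κ t d : ℝ, 0 < κ → 0 ≤ d → (t ≤ α - d ∨ α + 2 * K + d ≤ t) →
      hs κ α K t ≤ 2 / K * Real.exp (-(κ * d ^ 2 / 2))) ∧
    (∀ z : ℂ, L2 (tri α K) (-z) = HH α K z) ∧
    (∀ z : ℂ, 0 ≤ z.re → ‖HH α K z‖ ≤ Real.exp (-(α * z.re)) ∧
      ‖HH α K z‖ * ‖z‖ ^ 2 ≤ 4 / K ^ 2 * Real.exp (-(α * z.re))) ∧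
    (∃ C : ℝ, ∀ l cg : ℝ, 1 ≤ l → 0 < cg → cg ≤ 1 → ∃ φ : ℝ → ℂ, Integrable φ ∧
      Integrable (fun y : ℝ => (y : ℂ) * φ y) ∧ (∫ y : ℝ, (1 + |y|) * ‖φ y‖) ≤ C / cg ∧
      ∀ u : ℝ, (hs (l / cg) α K (u / l) : ℂ) = ∫ y : ℝ, φ y * cexp (-(I * y * u))) ∧
    ∀ η cg : ℝ, 0 < η → η ≤ 1 → 0 < cg → cg ≤ 1 → ∃ c3 l0 : ℝ, 0 < c3 ∧ ∀ l : ℝ, l0 ≤ l →
      ∀ χ : ℕ → ℂ, (∀ k, ‖χ k‖ ≤ 1) →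
        ‖psiP χ l cg α K η / l - psiT χ l cg α K‖ ≤ Real.exp (-(c3 * l))

/-! ### Part 6: density, repulsion -/

def St_GV1 : Prop :=
  (∃ C : ℝ, ∀ (l x1 x2 x3 : ℝ), 1 ≤ l →
    ‖PhiG ((1 + x1 * I) / l) ((1 + x2 * I) / l) ((1 + x3 * I) / l)‖
      ≤ C * (1 + |x1| + |x2| + |x3|) ^ 4) ∧
  ∀ w1 w2 w3 : ℂ, w1.re = 1 → w2.re = 1 → w3.re = 1 →
    Tendsto (fun l : ℝ => PhiG (w1 / l) (w2 / l) (w3 / l)) atTop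
      (𝓝 (1 + w1 * w2 / (w3 * (w1 + w2 + w3))))

def St_GV : Prop :=
  ∀ P F : ℝ → ℝ, ContDiff ℝ ∞ P → HasCompactSupport P → ContDiff ℝ ∞ F → HasCompactSupport F →
    Tendsto (fun l : ℝ => ∑' n : ℕ,
      dsum (fun d => (μ d : ℝ) * P (Real.log d / l)) (n + 1) ^ 2 * F (Real.log (n + 1 : ℕ) / l)
        / (n + 1 : ℕ)) atTop
      (𝓝 (F 0 * P 0 ^ 2 + ∫ t in Set.Ioi (0 : ℝ), F t * ∫ s in (0 : ℝ)..t, deriv P s ^ 2))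

/-- the two sieve weights -/
def St_SW : Prop :=
  ∀ (D : DD) (Λm ε : ℝ), D.Valid → 0 < ε → ∃ l0 : ℝ, ∀ l : ℝ, l0 ≤ l → ∃ ψ θ : ℕ → ℝ,
    θ 1 = 1 ∧ (∀ d, |ψ d| ≤ l ∧ |θ d| ≤ l) ∧
    (∀ d : ℕ, (d : ℝ) ≤ Real.exp (D.u * l) → ψ d = μ d) ∧
    (∀ d : ℕ, Real.exp ((D.v + ε) * l) < d → ψ d = 0) ∧
    (∀ d : ℕ, Real.exp (D.w * l) < d → θ d = 0) ∧
    ∑ n ∈ seg D.u D.x l, dsum ψ n ^ 2 / (n * D.G (Real.log n / l)) ≤ D.V + ε ∧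
    ∀ y lm : ℝ, D.u ≤ y → y ≤ D.x → 0 ≤ lm → lm ≤ Λm →
      ∑ n ∈ seg D.u y l, dsum θ n ^ 2 * D.G (Real.log n / l)
        * Real.exp (2 * lm * (Real.log n / l)) / n ≤ (1 + ε) * D.Dn y lm / D.w + ε

/-- the common core of the two density estimates -/
def St_DEN0 : Prop :=
  ∀ (D : DD) (c ε : ℝ), D.Valid → 0 < c → c ≤ 1 / 2 → 0 < ε → 2 * D.w + ε ≤ D.u →
    ∃ e1 c4 l0 : ℝ, 0 < e1 ∧ 0 < c4 ∧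
    ∀ l : ℝ, l0 ≤ l → ∀ (ψ θ : ℕ → ℝ), θ 1 = 1 → (∀ d, |ψ d| ≤ l ∧ |θ d| ≤ l) →
    (∀ d : ℕ, (d : ℝ) ≤ Real.exp (D.u * l) → ψ d = μ d) →
    (∀ d : ℕ, Real.exp ((D.v + ε / 2) * l) < d → ψ d = 0) →
    (∀ d : ℕ, Real.exp (D.w * l) < d → θ d = 0) →
    ∀ (ι : Type) (J : Finset ι) (χ : ι → ℕ → ℂ) (ρ : ι → ℂ) (b y a : ι → ℝ),
    (∀ j ∈ J, CM (χ j) ∧ Canc (χ j) c (Real.exp (b j * l)) ∧ LL (χ j) (ρ j) = 0 ∧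
      1 - e1 ≤ (ρ j).re ∧ (ρ j).re ≤ 1 ∧ |(ρ j).im| ≤ l ∧ 0 ≤ b j ∧
      D.v + D.w + b j + ε ≤ y j ∧ y j ≤ D.x ∧ 0 ≤ a j) →
    (∀ j ∈ J, ∀ k ∈ J, j ≠ k → Canc (χ j * cj (χ k)) c (Real.exp ((D.u - 2 * D.w - ε) * l))) →
    ((1 - Real.exp (-(c4 * l))) * ∑ j ∈ J, a j) ^ 2 ≤
      (∑ n ∈ seg D.u D.x l, dsum ψ n ^ 2 / (n * D.G (Real.log n / l))) *
      (∑ j ∈ J, a j ^ 2 * (∑ n ∈ seg D.u (y j) l, dsum θ n ^ 2 * D.G (Real.log n / l)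
          * Real.exp (2 * ((1 - (ρ j).re) * l) * (Real.log n / l)) / n)
        + Real.exp (-(c4 * l)) * (∑ j ∈ J, a j) ^ 2)

def St_DENS : Prop :=
  ∀ (D : DD) (c Λm ε : ℝ), D.Valid → 0 < c → c ≤ 1 / 2 → 0 < ε → 2 * D.w + ε ≤ D.u → ∃ l0 : ℝ,
    ∀ l : ℝ, l0 ≤ l → ∀ (ι : Type) (J : Finset ι) (χ : ι → ℕ → ℂ) (ρ : ι → ℂ) (b y : ι → ℝ),
    (∀ j ∈ J, CM (χ j) ∧ Canc (χ j) c (Real.exp (b j * l)) ∧ LL (χ j) (ρ j) = 0 ∧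
      (1 - (ρ j).re) * l ≤ Λm ∧ (ρ j).re ≤ 1 ∧ |(ρ j).im| ≤ l ∧ 0 ≤ b j ∧
      D.v + D.w + b j + ε ≤ y j ∧ y j ≤ D.x) →
    (∀ j ∈ J, ∀ k ∈ J, j ≠ k → Canc (χ j * cj (χ k)) c (Real.exp ((D.u - 2 * D.w - ε) * l))) →
    ∑ j ∈ J, 1 / D.Dn (y j) ((1 - (ρ j).re) * l) ≤ (1 + ε) * D.V / D.w

def St_DC : Prop :=
  ∀ c b x : ℝ, 0 < c → c ≤ 1 / 2 → 0 ≤ b → 2 * b < x → ∃ C e1 l0 : ℝ, 0 < C ∧ 0 < e1 ∧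
    ∀ l : ℝ, l0 ≤ l → ∀ (ι : Type) (J : Finset ι) (χ : ι → ℕ → ℂ) (ρ : ι → ℂ),
    (∀ j ∈ J, CM (χ j) ∧ Canc (χ j) c (Real.exp (b * l)) ∧ LL (χ j) (ρ j) = 0 ∧
      1 - e1 ≤ (ρ j).re ∧ (ρ j).re ≤ 1 ∧ |(ρ j).im| ≤ l) →
    (∀ j ∈ J, ∀ k ∈ J, j ≠ k → Canc (χ j * cj (χ k)) c (Real.exp (b * l))) →
    ∑ j ∈ J, Real.exp (-(2 * x * ((1 - (ρ j).re) * l))) ≤ C

def St_ZF : Prop :=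
  ∀ c : ℝ, 0 < c → c ≤ 1 / 2 → ∃ c5 l0 : ℝ, 0 < c5 ∧ ∀ l : ℝ, l0 ≤ l →
    ∀ (q : ℕ) (χ : ℕ → ℂ) (ρ : ℂ), IsChar q χ → (q : ℝ) ≤ Real.exp (5 * l) →
    Canc χ c (Real.exp (3 * l)) → (RealV χ ∨ Canc (χ * χ) c (Real.exp (3 * l))) →
    LL χ ρ = 0 → |ρ.im| ≤ l → (1 - ρ.re) * l ≤ c5 → RealV χ ∧ ρ.im = 0

def St_DH : Prop :=
  ∀ c b x0 : ℝ, 0 < c → c ≤ 1 / 2 → 0 ≤ b → b ≤ 1 → 3 * b < x0 → ∃ C e1 l0 : ℝ, 0 < e1 ∧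
    ∀ l : ℝ, l0 ≤ l → ∀ (χ1 : ℕ → ℂ) (l1 : ℝ), CM χ1 → RealV χ1 →
    Canc χ1 c (Real.exp (b * l)) → 0 < l1 → l1 ≤ 1 → 1 ≤ zo (LL χ1) l l1 →
    (∀ z : ℂ, z.re < c * l / 2 → |z.im| ≤ l ^ 2 →
      (if z = l1 then 1 else 0) < zo (LL χ1) l z →
      min (Real.log (1 / l1) / x0 - C) (e1 * l) ≤ z.re) ∧
    ∀ (χ : ℕ → ℂ) (z : ℂ), CM χ → Canc χ c (Real.exp (b * l)) →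
      Canc (χ1 * χ) c (Real.exp (b * l)) → z.re < c * l / 2 → |z.im| ≤ l ^ 2 →
      1 ≤ zo (LL χ) l z → min (Real.log (1 / l1) / x0 - C) (e1 * l) ≤ z.re

def St_SIEG : Prop :=
  ∀ ε : ℝ, 0 < ε → ∃ c : ℝ, 0 < c ∧ ∀ (q : ℕ) (χ : ℕ → ℂ) (β : ℝ), IsChar q χ → RealV χ →
    NonPr q χ → 1 / 2 ≤ β → LL χ β = 0 → c * (q : ℝ) ^ (-ε) ≤ 1 - β

def St_BOX : Prop :=
  ∀ (N0 : ℕ) (Λm ε : ℝ), 0 < ε → ∃ I0 : ℕ, ∀ (ι : Type) (J : Finset ι) (Z : ι → Multiset ℂ)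
    (H : ℝ), 0 ≤ H → J.card ≤ N0 → (∀ j ∈ J, ∀ z ∈ Z j, 0 ≤ z.re) → ∃ i ≤ I0, ∀ j ∈ J,
    ∀ (k : ℕ) (x : ℝ), k ≤ 3 → x ≤ Λm →
      k ≤ ((Z j).filter fun z => z.re ≤ x ∧ |z.im| ≤ 5 ^ (i + 1) * H).card →
      k ≤ ((Z j).filter fun z => z.re ≤ x + ε ∧ |z.im| ≤ 5 ^ i * H).card

/-! ### Part 7: numerics, model, assembly -/

def St_NUM (Lm : ℝ) : Prop :=
  ∃ (α K A : ℝ) (DS : List DD), 3 < α ∧ 0 < K ∧ α + 2 * K < Lm ∧ 0 < A ∧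
    (∀ D ∈ DS, D.Valid ∧ 2 * D.w + 1 / 4 < D.u) ∧
    ∀ lam0 : ℝ, 0 < lam0 → ∃ c0 Λ0 : ℝ, 0 < c0 ∧ ∀ Λm : ℝ, Λ0 ≤ Λm → ∀ N0 : ℕ, ∃ ε : ℝ, 0 < ε ∧
    ∀ (Γ Ω ι : Type) [CommGroup Γ] [Fintype Γ] [Fintype Ω] (M : MD Γ Ω ι),
      M.Ok α K A DS lam0 Λm N0 ε → ∑ g ∈ univ.filter (fun g => M.Z g ≠ 0), M.P g ≤ 1 - c0

/-- pairs (real part, character modulo `W`) other than the principal one -/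
noncomputable def GF (L W : ℕ) : Finset (ℕ × (ℕ → ℂ)) :=
  (L.divisors ×ˢ chars W).filter fun x => x ≠ (1, tw W 1)

def St_MNUM (Lm : ℝ) : Prop :=
  ∃ α K : ℝ, 3 < α ∧ 0 < K ∧ α + 2 * K < Lm ∧ ∀ cg : ℝ, 0 < cg → cg ≤ 1 →
    ∀ lam0 : ℝ, 0 < lam0 → ∃ c0 Λ0 : ℝ, 0 < c0 ∧ ∀ Λm : ℝ, Λ0 ≤ Λm → ∀ N0 W : ℕ, 0 < W → Even W →
    ∃ T l0 : ℝ, 1 ≤ T ∧ ∀ l : ℝ, l0 ≤ l → ∀ L : ℕ, Squarefree L → Nat.Coprime L W →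
    (L : ℝ) ≤ Real.exp l →
    ((GF L W).filter fun x => HasZ (jc x.1 * x.2) (1 - Λm / l) T).card ≤ N0 →
    (∀ x ∈ GF L W, ¬ HasZ (jc x.1 * x.2) (1 - lam0 / l) T) →
    ∑ x ∈ (GF L W).filter (fun x => HasZ (jc x.1 * x.2) (1 - Λm / l) 1),
      ‖psiT (jc x.1 * x.2) l cg α K‖ ≤ 1 - c0

def St_TAIL : Prop :=
  ∀ α K cg : ℝ, 3 ≤ α → α ≤ 4 → 0 < K → K ≤ 1 → 0 < cg → cg ≤ 1 → ∃ C c6 e1 : ℝ, 0 < C ∧ 0 < c6 ∧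
    0 < e1 ∧ ∀ W : ℕ, 0 < W → Even W → ∃ l0 : ℝ, ∀ l : ℝ, l0 ≤ l → ∀ (n R : ℕ) (F : Finset XX),
    0 < n → (n : ℝ) ≤ Real.exp (5 * l) → (R : ℝ) ≤ Real.exp (e1 * l) → RF n W R l F →
    (∀ lm : ℝ, 0 ≤ lm → (lm = 0 ∨ ∀ x ∈ F, ¬ HasZ (tw W x.2) (1 - lm / l) 1) →
      ∑ x ∈ F, ‖psiT (tw W x.2) l cg α K‖
        ≤ C * Real.exp (-(3 / 2 * lm)) + Real.exp (-(c6 * l))) ∧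
    ∀ lm : ℝ, 0 ≤ lm → lm ≤ e1 * l → (∀ x ∈ F, HasZ (tw W x.2) (1 - lm / l) l) →
      (F.card : ℝ) ≤ C * Real.exp (2 * lm)

def St_CORES : Prop :=
  ∀ α K cg : ℝ, 3 ≤ α → α ≤ 4 → 0 < K → K ≤ 1 → 0 < cg → cg ≤ 1 → ∃ lam0 e1 : ℝ, 0 < lam0 ∧
    0 < e1 ∧ ∀ W : ℕ, 0 < W → Even W → ∀ e3 : ℝ, 0 < e3 → ∃ l0 : ℝ, ∀ l : ℝ, l0 ≤ l →
    ∀ (n R : ℕ) (F : Finset XX), 0 < n → (n : ℝ) ≤ Real.exp (5 * l) →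
    (R : ℝ) ≤ Real.exp (e1 * l) → RF n W R l F →
    (∃ x ∈ F, HasZ (tw W x.2) (1 - lam0 / l) l) →
    ∑ x ∈ F, ‖psiT (tw W x.2) l cg α K‖ ≤ 1 - Real.exp (-(e3 * l))

def St_CORE (Lm : ℝ) : Prop :=
  ∃ α K : ℝ, 3 < α ∧ 0 < K ∧ α + 2 * K < Lm ∧ ∀ cg Cs : ℝ, 0 < cg → cg ≤ 1 → 0 < Cs →
    ∃ (W0 N0 : ℕ) (T e1 : ℝ), 2 ≤ W0 ∧ 2 ≤ N0 ∧ 1 ≤ T ∧ 0 < e1 ∧ ∀ e2 η1 e3 : ℝ, 0 < e2 →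
    0 < η1 → η1 ≤ e1 → 0 < e3 → ∃ l0 : ℝ, ∀ l : ℝ, l0 ≤ l → ∀ (Q R n : ℕ) (om : XX → ℝ),
    Real.exp ((1 + η1) * l) ≤ Q → Real.exp (η1 * l) ≤ 2 * R → (R : ℝ) ≤ Real.exp (η1 * l) →
    0 < n → (n : ℝ) ≤ Real.exp (5 * l) →
    Good (Bad Q W0.factorial T e2) n W0.factorial N0 l →
    (∀ x, 0 ≤ om x ∧ om x ≤ 1 ∧
      (¬ RelW n W0.factorial x → om x ≤ Cs * (W0 : ℝ) ^ (-(1 / 4 : ℝ)))) →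
    ∑ x ∈ (Bad Q W0.factorial T e2).filter (Rel n W0.factorial R),
      om x * ‖psiT (tw W0.factorial x.2) l cg α K‖ ≤ 1 - Real.exp (-(e3 * l))

def St_SMALL : Prop :=
  ∀ α K cg : ℝ, 3 ≤ α → α ≤ 4 → 0 < K → K ≤ 1 → 0 < cg → cg ≤ 1 →
    (∃ c7 l0 : ℝ, 0 < c7 ∧ ∀ l : ℝ, l0 ≤ l → ‖psiT 1 l cg α K - 1‖ ≤ Real.exp (-(c7 * l))) ∧
    ∃ e1 : ℝ, 0 < e1 ∧ ∀ e2 : ℝ, 0 < e2 → e2 ≤ e1 → ∀ W : ℕ, 0 < W → Even W → ∃ l0 : ℝ,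
    ∀ l : ℝ, l0 ≤ l → ∀ (Q R n : ℕ) (T : ℝ), (Q : ℝ) ≤ Real.exp (2 * l) →
    (R : ℝ) ≤ Real.exp (e2 / 4 * l) → 0 < n → (n : ℝ) ≤ Real.exp (5 * l) → 1 ≤ T →
    ∑ x ∈ (PP Q).filter (fun x => Rel n W R x ∧ x ∉ Bad Q W T e2),
      ‖psiT (tw W x.2) l cg α K‖ ≤ Real.exp (-(e2 * l))

def St_LARGE : Prop :=
  ∀ (α K η η1 cg : ℝ) (W0 : ℕ), 3 < α → α ≤ 4 → 0 < K → K ≤ 1 → 0 < η → η ≤ (α - 3) / 5 →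
    0 < η1 → η1 ≤ η / 2 → 0 < cg → cg ≤ η ^ 2 / 10 → 2 ≤ W0 → ∃ l0 : ℝ, ∀ l : ℝ, l0 ≤ l →
    ∀ Q R n : ℕ, (Q : ℝ) ≤ 2 * Real.exp ((1 + η) * l) → Real.exp (η1 * l) ≤ 2 * R →
    0 < n → (n : ℝ) ≤ Real.exp (5 * l) →
    ∑ x ∈ (PP Q).filter (fun x => ¬ Rel n W0.factorial R x),
      ‖psiP x.2 l cg α K η‖ * ‖gam x.1 x.2 n‖ * |Sr x.1 n (Q / x.1)|
      ≤ Real.exp (-(η1 / 4 * l))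

def St_BADC : Prop :=
  ∀ (W : ℕ) (T : ℝ), 0 < W → ∃ C e1 : ℝ, 0 < C ∧ 0 < e1 ∧ ∀ e2 : ℝ, 0 < e2 → e2 ≤ e1 →
    ∃ l0 : ℝ, ∀ l : ℝ, l0 ≤ l → ∀ Q : ℕ, (Q : ℝ) ≤ Real.exp (2 * l) →
    ((Bad Q W T e2).card : ℝ) ≤ C * Real.exp (10 * e2 * l)

def St_DISC : Prop :=
  ∀ (N0 : ℕ) (ε : ℝ), 0 < ε → ∃ C : ℝ, 0 < C ∧ ∀ (X Q W : ℕ) (l : ℝ) (Bd : Finset XX),
    1 ≤ Q → Bd ⊆ PP Q → Real.exp l ≤ X →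
    (((Ioc X (2 * X)).filter fun n => ¬ Good Bd n W N0 l).card : ℝ)
      ≤ C * ((Bd.card + 1) * (Q : ℝ) ^ ε) ^ N0 * (X / Real.exp l)

def St_MAIN (Lm : ℝ) : Prop :=
  ∃ α K : ℝ, 3 < α ∧ 0 < K ∧ α + 2 * K < Lm ∧ ∀ η c2 : ℝ, 0 < η → η ≤ (α - 3) / 5 → 0 < c2 →
    ∃ (cg : ℝ) (W N0 : ℕ) (T e1 : ℝ), 0 < cg ∧ cg ≤ 1 ∧ 0 < W ∧ 0 < e1 ∧
    ∀ e2 : ℝ, 0 < e2 → e2 ≤ e1 → ∃ e4 : ℝ, 0 < e4 ∧ ∀ ε : ℝ, 0 < ε → ε ≤ e4 →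
    ∃ l0 : ℝ, ∀ l : ℝ, l0 ≤ l → ∀ Q n : ℕ,
    Real.exp ((1 + η) * l) ≤ Q → (Q : ℝ) ≤ 2 * Real.exp ((1 + η) * l) →
    0 < n → (n : ℝ) ≤ Real.exp (5 * l) → Good (Bad Q W T e2) n W N0 l →
    (∀ y : ℕ, Real.exp (η / 8 * l) ≤ y → y ≤ Q → |S0 n y - S0 n Q| ≤ Real.exp (-(c2 * l))) →
    Real.exp (-(ε * l)) ≤ |S0 n Q| →
    Real.exp (-(2 * ε * l)) ≤
      |∑ p ∈ PR (Ylo α η l) (Yhi α K η l), ap l cg α K p * (nu Q ((n : ℤ) - p) : ℝ)|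

def St_FINAL (Lm : ℝ) : Prop :=
  ∃ C : ℝ, ∀ X : ℕ, 1 ≤ X →
    (((Icc 1 X).filter fun n => ¬ ∃ p m : ℕ, p.Prime ∧ n = p + m ^ 2).card : ℝ)
      ≤ C * (X : ℝ) ^ (1 - 1 / Lm)

end Pool.Agent.Lib.PS
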