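import Pool.Agent.Lib.PS.DEN02

/-!
The common core of the two density estimates.
-/

namespace Pool.Agent.Lib.PS

open Finset Real Complex
open scoped ArithmeticFunction.Moebius Classical ComplexConjugate

lemma den0_cs {ι : Type} (S : Finset ℕ) (J : Finset ι) (Ψ Θ wt : ℕ → ℝ) (v : ι → ℕ → ℂ)
    (a Dg : ι → ℝ) (δ : ℝ) (hw : ∀ n ∈ S, 0 < wt n) (ha : ∀ j ∈ J, 0 ≤ a j) (hδ : 0 ≤ δ)
    (hδ1 : δ ≤ 1) (h1 : ∀ j ∈ J, ‖1 + ∑ n ∈ S, (Ψ n : ℂ) * (Θ n : ℂ) * v j n‖ ≤ δ)
    (h2 : ∀ j ∈ J, ∑ n ∈ S, wt n * Θ n ^ 2 * ‖v j n‖ ^ 2 ≤ Dg j)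
    (h3 : ∀ j ∈ J, ∀ k ∈ J, j ≠ k →
      ‖∑ n ∈ S, (wt n : ℂ) * (Θ n : ℂ) ^ 2 * (v j n * conj (v k n))‖ ≤ δ) :
    ((1 - δ) * ∑ j ∈ J, a j) ^ 2 ≤ (∑ n ∈ S, Ψ n ^ 2 / wt n) *
      (∑ j ∈ J, a j ^ 2 * Dg j + δ * (∑ j ∈ J, a j) ^ 2) := by
  let V : ℕ → ℂ := fun n => ∑ j ∈ J, (a j : ℂ) * v j n
  have hA : 0 ≤ ∑ j ∈ J, a j := sum_nonneg ha
  have s1 : (1 - δ) * ∑ j ∈ J, a j ≤ ∑ n ∈ S, |Ψ n| * (|Θ n| * ‖V n‖) := by
    have e1 : ∑ n ∈ S, (Ψ n : ℂ) * (Θ n : ℂ) * V n
        = ∑ j ∈ J, (a j : ℂ) * ∑ n ∈ S, (Ψ n : ℂ) * (Θ n : ℂ) * v j n := by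
      simp only [V, mul_sum]
      rw [sum_comm]
      refine sum_congr rfl fun j _ => sum_congr rfl fun n _ => by ring
    have e2 : (1 - δ) * ∑ j ∈ J, a j ≤ -(∑ n ∈ S, (Ψ n : ℂ) * (Θ n : ℂ) * V n).re := by
      rw [e1, Complex.re_sum, ← sum_neg_distrib, mul_sum]
      refine sum_le_sum fun j hj => ?_
      have b1 := (Complex.re_le_norm _).trans (h1 j hj)
      rw [Complex.add_re, Complex.one_re] at b1
      rw [Complex.re_ofReal_mul]
      nlinarith [ha j hj]
    refine e2.trans ?_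
    refine (neg_le_abs _).trans ((Complex.abs_re_le_norm _).trans ((norm_sum_le _ _).trans ?_))
    refine sum_le_sum fun n _ => le_of_eq ?_
    rw [norm_mul, norm_mul, Complex.norm_real, Complex.norm_real, Real.norm_eq_abs,
      Real.norm_eq_abs, mul_assoc]
  have s2 : (∑ n ∈ S, |Ψ n| * (|Θ n| * ‖V n‖)) ^ 2
      ≤ (∑ n ∈ S, Ψ n ^ 2 / wt n) * ∑ n ∈ S, wt n * Θ n ^ 2 * ‖V n‖ ^ 2 := by
    refine sum_sq_le_sum_mul_sum_of_sq_le_mul S (fun n hn => ?_) (fun n hn => ?_) (fun n hn => ?_)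
    · have := hw n hn; positivity
    · have := hw n hn; positivity
    · have := hw n hn
      rw [mul_pow, mul_pow, sq_abs, sq_abs]
      refine le_of_eq ?_
      field_simp
  have s3 : ∑ n ∈ S, wt n * Θ n ^ 2 * ‖V n‖ ^ 2
      ≤ ∑ j ∈ J, a j ^ 2 * Dg j + δ * (∑ j ∈ J, a j) ^ 2 := by
    have e1 : ((∑ n ∈ S, wt n * Θ n ^ 2 * ‖V n‖ ^ 2 : ℝ) : ℂ)
        = ∑ j ∈ J, ∑ k ∈ J, (a j : ℂ) * (a k : ℂ) *
          ∑ n ∈ S, (wt n : ℂ) * (Θ n : ℂ) ^ 2 * (v j n * conj (v k n)) := by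
      have : ∀ n, ((‖V n‖ ^ 2 : ℝ) : ℂ) = ∑ j ∈ J, ∑ k ∈ J, (a j : ℂ) * (a k : ℂ) *
          (v j n * conj (v k n)) := by
        intro n
        rw [← Complex.normSq_eq_norm_sq, ← Complex.mul_conj]
        simp only [V, map_sum, map_mul, Complex.conj_ofReal]
        rw [sum_mul_sum]
        refine sum_congr rfl fun j _ => sum_congr rfl fun k _ => by ring
      rw [Complex.ofReal_sum]
      simp_rw [Complex.ofReal_mul, this, mul_sum]
      rw [sum_comm]
      refine sum_congr rfl fun j _ => ?_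
      rw [sum_comm]
      refine sum_congr rfl fun k _ => sum_congr rfl fun n _ => ?_
      push_cast
      ring
    have e2 : ∑ n ∈ S, wt n * Θ n ^ 2 * ‖V n‖ ^ 2
        ≤ ∑ j ∈ J, ∑ k ∈ J, ((if j = k then a j ^ 2 * Dg j else 0) + δ * (a j * a k)) := by
      have := congrArg Complex.re e1
      rw [Complex.ofReal_re, Complex.re_sum] at this
      rw [this]
      refine sum_le_sum fun j hj => ?_
      rw [Complex.re_sum]
      refine sum_le_sum fun k hk => ?_
      have hj0 := ha j hj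
      have hk0 := ha k hk
      rw [← Complex.ofReal_mul, Complex.re_ofReal_mul]
      by_cases hjk : j = k
      · subst hjk
        rw [if_pos rfl]
        have : (∑ n ∈ S, (wt n : ℂ) * (Θ n : ℂ) ^ 2 * (v j n * conj (v j n))).re
            = ∑ n ∈ S, wt n * Θ n ^ 2 * ‖v j n‖ ^ 2 := by
          rw [Complex.re_sum]
          refine sum_congr rfl fun n _ => ?_
          rw [Complex.mul_conj, Complex.normSq_eq_norm_sq, ← Complex.ofReal_pow,
            ← Complex.ofReal_mul, ← Complex.ofReal_mul, Complex.ofReal_re]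
        rw [this]
        have b1 := mul_le_mul_of_nonneg_left (h2 j hj) (mul_nonneg hj0 hj0)
        have b2 : 0 ≤ δ * (a j * a j) := by positivity
        nlinarith
      · rw [if_neg hjk, zero_add, mul_comm δ]
        exact mul_le_mul_of_nonneg_left ((Complex.re_le_norm _).trans (h3 j hj k hk hjk))
          (mul_nonneg hj0 hk0)
    refine e2.trans (le_of_eq ?_)
    simp_rw [sum_add_distrib]
    congr 1
    · refine sum_congr rfl fun j hj => ?_
      rw [sum_ite_eq, if_pos hj]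
    · rw [sq, sum_mul_sum, mul_sum]
      simp_rw [mul_sum]
  have s0 : 0 ≤ ∑ n ∈ S, Ψ n ^ 2 / wt n := sum_nonneg fun n hn => by
    have := hw n hn; positivity
  calc _ ≤ (∑ n ∈ S, |Ψ n| * (|Θ n| * ‖V n‖)) ^ 2 :=
        pow_le_pow_left₀ (mul_nonneg (by linarith) hA) s1 2
    _ ≤ _ := s2
    _ ≤ _ := mul_le_mul_of_nonneg_left s3 s0

lemma den0_head (ψ θ : ℕ → ℝ) (F : ℕ → ℂ) (U : ℕ) (hU : 1 ≤ U) (hθ : θ 1 = 1) (hF : F 1 = 1)
    (hψ : ∀ d : ℕ, d ≤ U → ψ d = μ d) :
    ∑ n ∈ Ioc 0 U, (dsum ψ n : ℂ) * (dsum θ n : ℂ) * F n = 1 := by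
  rw [sum_eq_single 1]
  · simp [dsum, hθ, hF, hψ 1 hU]
  · intro n hn hn1
    simp only [mem_Ioc] at hn
    have : dsum ψ n = 0 := by
      unfold dsum
      have h1 : ∑ d ∈ n.divisors, ψ d = ∑ d ∈ n.divisors, (μ d : ℝ) :=
        sum_congr rfl fun d hd => hψ d ((Nat.divisor_le hd).trans hn.2)
      have h2 : ∑ d ∈ n.divisors, μ d = 0 := by
        have := congrArg (fun f : ArithmeticFunction ℤ => f n)
          ArithmeticFunction.moebius_mul_coe_zeta
        simp only [ArithmeticFunction.coe_mul_zeta_apply] at this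
        rw [this, ArithmeticFunction.one_apply_ne hn1]
      rw [h1]
      exact_mod_cast h2
    rw [this]; simp
  · intro h
    exact absurd (by simp only [mem_Ioc]; omega) h

lemma den0_two_rpow (c t : ℝ) (hc1 : c ≤ 1) :
    (2 * Real.exp t) ^ c ≤ 2 * Real.exp (t * c) := by
  rw [Real.mul_rpow (by norm_num) (Real.exp_pos _).le, ← Real.exp_mul]
  gcongr
  calc (2 : ℝ) ^ c ≤ 2 ^ (1 : ℝ) := Real.rpow_le_rpow_of_exponent_le (by norm_num) hc1
    _ = 2 := Real.rpow_one _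

lemma den0_log_floor (x y l : ℝ) (hl : 1 ≤ l) (hx : 0 ≤ x) (hy : y ≤ x) (Y : ℕ)
    (hY : (Y : ℝ) ≤ Real.exp (y * l)) : 1 + Real.log Y ≤ (1 + x) * l := by
  have h1 : Real.log Y ≤ x * l := by
    rcases Nat.eq_zero_or_pos Y with h | h
    · rw [h]; simp only [Nat.cast_zero, Real.log_zero]; positivity
    · rw [Real.log_le_iff_le_exp (by positivity)]
      exact hY.trans (Real.exp_le_exp.2 (by gcongr))
  linarith

theorem blk_DEN0 (hLDX : St_LDX) : St_DEN0 := by
  intro D c ε hD hc hc2 hε hwu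
  obtain ⟨L0, hL0⟩ := hD.G_lip
  have hu := hD.u_pos
  have hw := hD.w_pos
  have huv := hD.uv
  have hvx := hD.vx
  have hx : 0 < D.x := by linarith
  set L := |L0| with hLdef
  have hL : 0 ≤ L := abs_nonneg _
  have hG : ∀ s ∈ Set.Icc D.u D.x, ∀ t ∈ Set.Icc D.u D.x, |D.G s - D.G t| ≤ L * |s - t| :=
    fun s hs t ht => (hL0 s hs t ht).trans
      (mul_le_mul_of_nonneg_right (le_abs_self _) (abs_nonneg _))
  set Gm := |D.G D.u| + L * D.x with hGmdef
  have hGm : 0 ≤ Gm := by positivity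
  have hG' : ∀ s ∈ Set.Icc D.u D.x, |D.G s| ≤ Gm := by
    intro s hs
    have h1 := hG s hs D.u ⟨le_rfl, by linarith⟩
    have h2 : |s - D.u| ≤ D.x := by
      rw [abs_of_nonneg (by linarith [hs.1])]; linarith [hs.2]
    have h3 : |D.G s| ≤ |D.G s - D.G D.u| + |D.G D.u| := by
      have := abs_add_le (D.G s - D.G D.u) (D.G D.u)
      simpa using this
    have h4 : L * |s - D.u| ≤ L * D.x := by gcongr
    linarith
  have hγ : 0 < c * ε / 4 := by positivity
  obtain ⟨l1, hl1, hp1⟩ := den0_poly (2 * (1 + D.x) ^ 3 * (1 + 8 / c)) _ hγ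
  obtain ⟨l2, -, hp2⟩ := den0_poly (2 * (1 + D.x) ^ 4 * (L + 12 * Gm)) _ hγ
  set e1 := min (c * ε / (8 * D.x)) (c / 2) with he1
  have he1p : 0 < e1 := lt_min (by positivity) (by positivity)
  have he1c : e1 ≤ c / 2 := min_le_right _ _
  have he1x : e1 * D.x ≤ c * ε / 8 := by
    have : e1 ≤ c * ε / (8 * D.x) := min_le_left _ _
    rw [le_div_iff₀ (by positivity)] at this
    linarith
  refine ⟨e1, c * ε / 8, max l1 l2, he1p, by positivity, ?_⟩
  intro l hl ψ θ hθ1 hb hψμ hψ0 hθ0 ι J χ ρ b y a hJ hJJ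
  have hl1' : 1 ≤ l := hl1.trans ((le_max_left _ _).trans hl)
  have hl0 : 0 < l := by linarith
  have hq1 := hp1 l ((le_max_left _ _).trans hl)
  have hq2 := hp2 l ((le_max_right _ _).trans hl)
  set δ := Real.exp (-(c * ε / 8 * l)) with hδdef
  have hδ0 : 0 ≤ δ := (Real.exp_pos _).le
  have hδ1 : δ ≤ 1 := Real.exp_le_one_iff.2 (by
    have : 0 ≤ c * ε / 8 * l := by positivity
    linarith)
  set U := ⌊Real.exp (D.u * l)⌋₊ with hU
  have hU1 : 1 ≤ U := Nat.le_floor (by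
    push_cast; exact Real.one_le_exp (by positivity))
  let Y : ι → ℕ := fun j => ⌊Real.exp (y j * l)⌋₊
  let v : ι → ℕ → ℂ := fun j n => if n ≤ Y j then χ j n * (n : ℂ) ^ (-ρ j) else 0
  have hmem : ∀ n ∈ seg D.u D.x l, 0 < n ∧ Real.log n / l ∈ Set.Icc D.u D.x := by
    intro n hn
    simp only [seg, mem_Ioc] at hn
    have a3 : Real.exp (D.u * l) < n := (Nat.floor_lt (Real.exp_pos _).le).1 hn.1
    have a4 : (n : ℝ) ≤ Real.exp (D.x * l) := (Nat.le_floor_iff (Real.exp_pos _).le).1 hn.2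
    have a5 : (0 : ℝ) < n := (Real.exp_pos _).trans a3
    have a6 : D.u * l ≤ Real.log n := ((Real.lt_log_iff_exp_lt a5).2 a3).le
    have a7 : Real.log n ≤ D.x * l := (Real.log_le_iff_le_exp a5).2 a4
    exact ⟨by exact_mod_cast a5, (le_div_iff₀ hl0).2 a6, (div_le_iff₀ hl0).2 a7⟩
  have hYle : ∀ j ∈ J, U ≤ Y j ∧ Y j ≤ ⌊Real.exp (D.x * l)⌋₊ ∧ (Y j : ℝ) ≤ Real.exp (y j * l) := by
    intro j hj
    obtain ⟨-, -, -, -, -, -, h7, h8, h9, -⟩ := hJ j hj
    refine ⟨Nat.floor_mono (Real.exp_le_exp.2 ?_), Nat.floor_mono (Real.exp_le_exp.2 ?_),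
      Nat.floor_le (Real.exp_pos _).le⟩
    · exact mul_le_mul_of_nonneg_right (by linarith) hl0.le
    · exact mul_le_mul_of_nonneg_right h9 hl0.le
  have hcut : ∀ (M : Type) [AddCommMonoid M] (f : ℕ → M) (Y' : ℕ), Y' ≤ ⌊Real.exp (D.x * l)⌋₊ →
      ∑ n ∈ seg D.u D.x l, (if n ≤ Y' then f n else 0) = ∑ n ∈ Ioc U Y', f n := by
    intro M _ f Y' hY'
    rw [← sum_filter]
    refine sum_congr ?_ fun _ _ => rfl
    ext n
    simp only [seg, mem_filter, mem_Ioc, ← hU]
    omega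
  have hnorm : ∀ j ∈ J, ‖ρ j‖ ≤ 2 * l := by
    intro j hj
    obtain ⟨-, -, -, h4, h5, h6, -⟩ := hJ j hj
    have := Complex.norm_le_abs_re_add_abs_im (ρ j)
    have h7 : |(ρ j).re| ≤ 1 := abs_le.2 ⟨by linarith, h5⟩
    linarith
  refine den0_cs (seg D.u D.x l) J (dsum ψ) (dsum θ) (fun n => n * D.G (Real.log n / l)) v a _ δ
    ?_ (fun j hj => (hJ j hj).2.2.2.2.2.2.2.2.2) hδ0 hδ1 ?_ ?_ ?_
  · intro n hn
    obtain ⟨h1, h2⟩ := hmem n hn
    have := hD.G_pos _ h2
    positivity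
  · intro j hj
    obtain ⟨h1, h2, h3, h4, h5, h6, h7, h8, h9, -⟩ := hJ j hj
    obtain ⟨y1, y2, y3⟩ := hYle j hj
    have e1' : ∑ n ∈ seg D.u D.x l, (dsum ψ n : ℂ) * (dsum θ n : ℂ) * v j n
        = ∑ n ∈ Ioc U (Y j), (dsum ψ n : ℂ) * (dsum θ n : ℂ) * (χ j n * (n : ℂ) ^ (-ρ j)) := by
      rw [← hcut ℂ _ _ y2]
      refine sum_congr rfl fun n _ => ?_
      simp only [v]
      split_ifs <;> simp
    have e2 := den0_head ψ θ (fun n => χ j n * (n : ℂ) ^ (-ρ j)) U hU1 hθ1 (by simp [h1.1])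
      (fun d hd => hψμ d ((Nat.le_floor_iff (Real.exp_pos _).le).1 hd))
    rw [e1', ← e2, sum_Ioc_consecutive _ (Nat.zero_le _) y1]
    have hZ : 1 ≤ Real.exp ((b j + ε / 2) * l) := Real.one_le_exp (by positivity)
    have e3 := den0_zero hLDX ψ θ (χ j) (ρ j) c l (Real.exp (b j * l)) (Real.exp (y j * l))
      (Real.exp ((D.v + ε / 2) * l)) (Real.exp (D.w * l)) (Real.exp ((b j + ε / 2) * l))
      hc (by linarith) h1 (Real.exp_pos _).le h2 h3 (by linarith) h5 (fun d => (hb d).1)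
      (fun d => (hb d).2) hψ0 hθ0 hZ (by
        rw [← Real.exp_add, ← Real.exp_add]
        refine Real.exp_le_exp.2 ?_
        have := mul_le_mul_of_nonneg_right h8 hl0.le
        linarith) (Real.exp_pos _).le
    refine e3.trans ?_
    have f1 : 1 + 4 * ‖ρ j‖ / c ≤ (1 + 8 / c) * l := by
      have := hnorm j hj
      have h' : 4 * ‖ρ j‖ / c ≤ 8 / c * l := by
        rw [div_mul_eq_mul_div]
        exact div_le_div_of_nonneg_right (by linarith only [this]) hc.le
      linarith only [h', hl1']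
    have f2 : Real.exp (y j * l) ^ (1 - (ρ j).re) ≤ Real.exp (c * ε / 8 * l) := by
      rw [← Real.exp_mul]
      refine Real.exp_le_exp.2 ?_
      have hy0 : 0 ≤ y j := by linarith
      calc y j * l * (1 - (ρ j).re) ≤ D.x * l * e1 := by
            exact mul_le_mul (mul_le_mul_of_nonneg_right h9 hl0.le) (by linarith only [h4])
              (by linarith only [h5]) (by positivity)
        _ = e1 * D.x * l := by ring
        _ ≤ _ := by gcongr
    have f3 : (2 * Real.exp (b j * l) / Real.exp ((b j + ε / 2) * l)) ^ c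
        ≤ 2 * Real.exp (-(ε / 2 * l) * c) := by
      rw [mul_div_assoc, ← Real.exp_sub]
      have : b j * l - (b j + ε / 2) * l = -(ε / 2 * l) := by ring
      rw [this]
      exact den0_two_rpow c _ (by linarith)
    have f4 := den0_log_floor D.x (y j) l hl1' hx.le h9 (Y j) y3
    have f5 : 0 ≤ 1 + Real.log (Y j) := by
      have := Real.log_natCast_nonneg (Y j)
      linarith
    have f6 : l ^ 6 ≤ l ^ 7 := pow_le_pow_right₀ hl1' (by norm_num)
    calc _ ≤ l ^ 2 * ((1 + 8 / c) * l * Real.exp (c * ε / 8 * l)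
            * (2 * Real.exp (-(ε / 2 * l) * c))) * ((1 + D.x) * l) ^ 3 := by
          gcongr
      _ = (2 * (1 + D.x) ^ 3 * (1 + 8 / c) * l ^ 6)
            * (Real.exp (c * ε / 8 * l) * Real.exp (-(ε / 2 * l) * c)) := by ring
      _ ≤ Real.exp (c * ε / 4 * l)
            * (Real.exp (c * ε / 8 * l) * Real.exp (-(ε / 2 * l) * c)) := by
          gcongr
          refine le_trans ?_ hq1
          gcongr
      _ = δ := by
          rw [← Real.exp_add, ← Real.exp_add, hδdef]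
          congr 1
          ring
  · intro j hj
    obtain ⟨h1, -⟩ := hJ j hj
    obtain ⟨y1, y2, y3⟩ := hYle j hj
    have e0 : seg D.u (y j) l = Ioc U (Y j) := rfl
    rw [e0, ← hcut ℝ _ _ y2]
    refine sum_le_sum fun n hn => ?_
    obtain ⟨n1, n2⟩ := hmem n hn
    have hGp := hD.G_pos _ n2
    have hnr : (0 : ℝ) < n := by positivity
    simp only [v]
    split_ifs with h
    · have g1 : ‖χ j n * (n : ℂ) ^ (-ρ j)‖ ≤ Real.exp (Real.log n * (-(ρ j).re)) := by
        rw [norm_mul, Complex.norm_natCast_cpow_of_pos n1, Complex.neg_re,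
          Real.rpow_def_of_pos hnr]
        calc _ ≤ 1 * Real.exp (Real.log n * (-(ρ j).re)) := by
              gcongr
              exact h1.2.2 n
          _ = _ := one_mul _
      have g2 : Real.exp (2 * ((1 - (ρ j).re) * l) * (Real.log n / l))
          = (n : ℝ) ^ 2 * Real.exp (Real.log n * (-(ρ j).re)) ^ 2 := by
        rw [← mul_pow]
        conv_rhs => rw [← Real.exp_log hnr]
        rw [Real.log_exp, ← Real.exp_add, ← Real.exp_nat_mul]
        congr 1
        field_simp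
        push_cast
        ring
      rw [g2]
      calc _ ≤ n * D.G (Real.log n / l) * dsum θ n ^ 2
            * Real.exp (Real.log n * (-(ρ j).re)) ^ 2 := by gcongr
        _ = _ := by field_simp
    · simp
  · intro j hj k hk hjk
    obtain ⟨h1, -, -, h4, h5, -, -, -, h9, -⟩ := hJ j hj
    obtain ⟨k1, -, -, k4, k5, -, -, -, k9, -⟩ := hJ k hk
    obtain ⟨y1, y2, y3⟩ := hYle j hj
    have hC := hJJ j hj k hk hjk
    set s : ℂ := 1 - ρ j - conj (ρ k) with hs
    have hsre : s.re = 1 - (ρ j).re - (ρ k).re := by simp [hs]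
    have hξ : CM (χ j * cj (χ k)) := by
      refine ⟨by simp [cj, h1.1, k1.1], fun m n => ?_, fun n => ?_⟩
      · simp only [Pi.mul_apply, cj, h1.2.1, k1.2.1, map_mul]; ring
      · simp only [Pi.mul_apply, cj, norm_mul, Complex.norm_conj]
        exact mul_le_one₀ (h1.2.2 n) (norm_nonneg _) (k1.2.2 n)
    have hY' : min (Y j) (Y k) ≤ ⌊Real.exp (D.x * l)⌋₊ := (min_le_left _ _).trans y2
    have e1' : ∑ n ∈ seg D.u D.x l, ((n * D.G (Real.log n / l) : ℝ) : ℂ) * (dsum θ n : ℂ) ^ 2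
          * (v j n * conj (v k n))
        = ∑ n ∈ Ioc U (min (Y j) (Y k)), (dsum θ n : ℂ) * (dsum θ n : ℂ) *
          ((χ j * cj (χ k)) n * ((D.G (Real.log n / l) : ℂ) * cexp (s * (Real.log n : ℝ)))) := by
      rw [← hcut ℂ _ _ hY']
      refine sum_congr rfl fun n hn => ?_
      obtain ⟨n1, -⟩ := hmem n hn
      have hnr : (0 : ℝ) < n := by positivity
      have hn0 : (n : ℂ) ≠ 0 := by exact_mod_cast n1.ne'
      simp only [v, le_min_iff]
      by_cases a1 : n ≤ Y j <;> by_cases a2 : n ≤ Y k <;>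
        simp only [a1, a2, if_true, if_false, and_self, and_false, false_and, map_zero,
          mul_zero, zero_mul]
      have b1 : ∀ z : ℂ, (n : ℂ) ^ z = cexp (z * (Real.log n : ℝ)) := by
        intro z
        rw [Complex.cpow_def_of_ne_zero hn0, Complex.natCast_log, mul_comm]
      have b2 : (n : ℂ) = cexp (Real.log n : ℝ) := by
        rw [← Complex.ofReal_exp, Real.exp_log hnr, Complex.ofReal_natCast]
      have b3 : cexp (s * (Real.log n : ℝ)) = (n : ℂ) * (cexp (-ρ j * (Real.log n : ℝ))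
          * cexp (-conj (ρ k) * (Real.log n : ℝ))) := by
        conv_rhs => rw [b2]
        rw [← Complex.exp_add, ← Complex.exp_add]
        congr 1
        rw [hs]
        ring
      rw [b1, b1, b3, map_mul, ← Complex.exp_conj, map_mul, Complex.conj_ofReal, map_neg,
        Complex.ofReal_mul, Complex.ofReal_natCast]
      simp only [Pi.mul_apply, cj]
      ring
    rw [e1']
    have hYx : ((min (Y j) (Y k) : ℕ) : ℝ) ≤ Real.exp (D.x * l) :=
      (Nat.le_floor_iff (Real.exp_pos _).le).1 hY'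
    have hZ : 1 ≤ Real.exp ((D.u - 2 * D.w) * l) :=
      Real.one_le_exp (mul_nonneg (by linarith) hl0.le)
    have e3 := den0_off θ (χ j * cj (χ k)) D.G s c l (Real.exp ((D.u - 2 * D.w - ε) * l)) D.u D.x
      L Gm (Real.exp (D.w * l)) (Real.exp ((D.u - 2 * D.w) * l)) (min (Y j) (Y k)) hc hξ
      (Real.exp_pos _).le hC (fun d => (hb d).2) hθ0 hl1' hYx hL hGm hG hG'
      (by rw [hsre]; linarith) (by rw [hsre]; linarith) hZ (by
        rw [← Real.exp_add, ← Real.exp_add]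
        exact le_of_eq (by congr 1; ring))
    refine e3.trans ?_
    have f4 := den0_log_floor D.x D.x l hl1' hx.le le_rfl _ hYx
    have f5 : 0 ≤ 1 + Real.log (min (Y j) (Y k) : ℕ) := by
      have := Real.log_natCast_nonneg (min (Y j) (Y k))
      linarith
    generalize 1 + Real.log (min (Y j) (Y k) : ℕ) = H at f4 f5 ⊢
    have f3 : (2 * Real.exp ((D.u - 2 * D.w - ε) * l) / Real.exp ((D.u - 2 * D.w) * l)) ^ c
        ≤ 2 * Real.exp (-(ε * l) * c) := by
      rw [mul_div_assoc, ← Real.exp_sub]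
      have : (D.u - 2 * D.w - ε) * l - (D.u - 2 * D.w) * l = -(ε * l) := by ring
      rw [this]
      exact den0_two_rpow c _ (by linarith)
    have f2 : Real.exp ((1 + s.re) * (D.x * l)) ≤ Real.exp (c * ε / 4 * l) := by
      refine Real.exp_le_exp.2 ?_
      calc (1 + s.re) * (D.x * l) ≤ (2 * e1) * (D.x * l) := by
            gcongr
            rw [hsre]; linarith
        _ = 2 * (e1 * D.x) * l := by ring
        _ ≤ 2 * (c * ε / 8) * l := by gcongr
        _ = _ := by ring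
    have f1 : ‖s‖ ≤ 5 * l := by
      have a1 := hnorm j hj
      have a2 := hnorm k hk
      have a3 : ‖s‖ ≤ ‖(1 : ℂ)‖ + ‖ρ j‖ + ‖conj (ρ k)‖ :=
        (norm_sub_le _ _).trans (add_le_add (norm_sub_le _ _) le_rfl)
      rw [norm_one, Complex.norm_conj] at a3
      linarith
    have f6 : 2 * Gm + (L + 2 * Gm * ‖s‖) * H ≤ (L + 12 * Gm) * l * ((1 + D.x) * l) := by
      have a1 : L + 2 * Gm * ‖s‖ ≤ (L + 10 * Gm) * l := by
        have a0 := mul_le_mul_of_nonneg_left f1 hGm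
        have a00 := mul_le_mul_of_nonneg_left hl1' hL
        linarith only [a0, a00]
      have a2 : (L + 2 * Gm * ‖s‖) * H ≤ (L + 10 * Gm) * l * ((1 + D.x) * l) := by gcongr
      have a3 : 1 ≤ l * ((1 + D.x) * l) :=
        one_le_mul_of_one_le_of_one_le hl1'
          (one_le_mul_of_one_le_of_one_le (by linarith only [hx]) hl1')
      have a4 := mul_le_mul_of_nonneg_left a3 hGm
      linarith only [a2, a4]
    calc _ ≤ l ^ 2 * (2 * Real.exp (-(ε * l) * c) * Real.exp (c * ε / 4 * l)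
            * ((L + 12 * Gm) * l * ((1 + D.x) * l))) * ((1 + D.x) * l) ^ 3 := by
          gcongr
      _ = (2 * (1 + D.x) ^ 4 * (L + 12 * Gm) * l ^ 7)
            * (Real.exp (-(ε * l) * c) * Real.exp (c * ε / 4 * l)) := by ring
      _ ≤ Real.exp (c * ε / 4 * l)
            * (Real.exp (-(ε * l) * c) * Real.exp (c * ε / 4 * l)) := by
          gcongr
      _ ≤ δ := by
          rw [← Real.exp_add, ← Real.exp_add, hδdef]
          refine Real.exp_le_exp.2 ?_
          have : 0 ≤ c * ε * l := by positivity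
          linarith only [this]

end Pool.Agent.Lib.PS
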