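import Pool.Agent.Lib.PS.Blue

/-!
Auxiliary lemmas for the density core: expansion of a product of two divisor sums, partial
summation, and elementary inequalities.
-/

namespace Pool.Agent.Lib.PS

open Finset Real Complex
open scoped ArithmeticFunction.Moebius Classical ComplexConjugate

lemma den0_harm (N : ℕ) : ∑ k ∈ Icc 1 N, (1 : ℝ) / k ≤ 1 + Real.log N := by
  have h := harmonic_le_one_add_log N
  rw [harmonic_eq_sum_Icc] at h
  push_cast at h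
  simpa [one_div] using h

lemma den0_harm_nonneg (N : ℕ) : 0 ≤ ∑ k ∈ Icc 1 N, (1 : ℝ) / k :=
  sum_nonneg fun _ _ => by positivity

lemma den0_lcm_sum (N : ℕ) :
    ∑ d ∈ Icc 1 N, ∑ e ∈ Icc 1 N, (1 : ℝ) / (Nat.lcm d e : ℕ) ≤ (1 + Real.log N) ^ 3 := by
  have key : ∑ d ∈ Icc 1 N, ∑ e ∈ Icc 1 N, (1 : ℝ) / (Nat.lcm d e : ℕ)
      ≤ (∑ k ∈ Icc 1 N, (1 : ℝ) / k) ^ 3 := by
    rw [← sum_product' (f := fun d e : ℕ => (1 : ℝ) / (Nat.lcm d e : ℕ))]
    let φ : ℕ × ℕ → ℕ × ℕ × ℕ := fun x => (Nat.gcd x.1 x.2, x.1 / Nat.gcd x.1 x.2, x.2 / Nat.gcd x.1 x.2)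
    let F : ℕ × ℕ × ℕ → ℝ := fun z => (1 : ℝ) / z.1 * ((1 : ℝ) / z.2.1 * ((1 : ℝ) / z.2.2))
    have hinj : Set.InjOn φ (Icc 1 N ×ˢ Icc 1 N : Finset (ℕ × ℕ)) := by
      intro x _ y _ hxy
      simp only [φ, Prod.mk.injEq] at hxy
      obtain ⟨h1, h2, h3⟩ := hxy
      have a1 : x.1 = Nat.gcd x.1 x.2 * (x.1 / Nat.gcd x.1 x.2) :=
        (Nat.mul_div_cancel' (Nat.gcd_dvd_left _ _)).symm
      have a2 : x.2 = Nat.gcd x.1 x.2 * (x.2 / Nat.gcd x.1 x.2) :=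
        (Nat.mul_div_cancel' (Nat.gcd_dvd_right _ _)).symm
      have b1 : y.1 = Nat.gcd y.1 y.2 * (y.1 / Nat.gcd y.1 y.2) :=
        (Nat.mul_div_cancel' (Nat.gcd_dvd_left _ _)).symm
      have b2 : y.2 = Nat.gcd y.1 y.2 * (y.2 / Nat.gcd y.1 y.2) :=
        (Nat.mul_div_cancel' (Nat.gcd_dvd_right _ _)).symm
      refine Prod.ext ?_ ?_
      · rw [a1, b1, h2, h1]
      · rw [a2, b2, h3, h1]
    have h1 : ∑ x ∈ Icc 1 N ×ˢ Icc 1 N, (1 : ℝ) / (Nat.lcm x.1 x.2 : ℕ)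
        = ∑ x ∈ Icc 1 N ×ˢ Icc 1 N, F (φ x) := by
      refine sum_congr rfl fun x hx => ?_
      simp only [mem_product, mem_Icc] at hx
      have hg : 0 < Nat.gcd x.1 x.2 := Nat.gcd_pos_of_pos_left _ hx.1.1
      obtain ⟨a, ha⟩ := Nat.gcd_dvd_left x.1 x.2
      obtain ⟨b, hb⟩ := Nat.gcd_dvd_right x.1 x.2
      have hl : Nat.lcm x.1 x.2 = Nat.gcd x.1 x.2 * a * b := by
        have := Nat.gcd_mul_lcm x.1 x.2
        apply Nat.eq_of_mul_eq_mul_left hg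
        rw [this]
        conv_lhs => rw [ha, hb]
        simp only [← ha, ← hb]
        nlinarith [ha, hb]
      have ea : x.1 / Nat.gcd x.1 x.2 = a := Nat.div_eq_of_eq_mul_right hg ha
      have eb : x.2 / Nat.gcd x.1 x.2 = b := Nat.div_eq_of_eq_mul_right hg hb
      simp only [F, φ, ea, eb, hl]
      push_cast
      simp only [one_div, mul_inv]
      ring
    rw [h1, ← sum_image (f := F) hinj]
    have h2 : (∑ k ∈ Icc 1 N, (1 : ℝ) / k) ^ 3
        = ∑ z ∈ Icc 1 N ×ˢ (Icc 1 N ×ˢ Icc 1 N), F z := by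
      rw [sum_product]
      simp only [F]
      simp_rw [← mul_sum, sum_product, ← mul_sum, ← sum_mul]
      ring
    rw [h2]
    refine sum_le_sum_of_subset_of_nonneg ?_ fun z _ _ => by simp only [F]; positivity
    intro z hz
    simp only [mem_image, mem_product, mem_Icc] at hz
    obtain ⟨x, ⟨⟨h1, h2⟩, h3, h4⟩, rfl⟩ := hz
    have hg : 0 < Nat.gcd x.1 x.2 := Nat.gcd_pos_of_pos_left _ h1
    simp only [φ, mem_product, mem_Icc]
    refine ⟨⟨hg, (Nat.gcd_le_left _ h1).trans h2⟩, ⟨?_, (Nat.div_le_self _ _).trans h2⟩,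
      ⟨?_, (Nat.div_le_self _ _).trans h4⟩⟩
    · exact Nat.div_pos (Nat.gcd_le_left _ h1) hg
    · exact Nat.div_pos (Nat.gcd_le_right _ h3) hg
  exact key.trans (pow_le_pow_left₀ (den0_harm_nonneg N) (den0_harm N) 3)

lemma den0_dsum_eq (f : ℕ → ℝ) (n B : ℕ) (hn : 0 < n) (hB : n ≤ B) :
    (dsum f n : ℂ) = ∑ d ∈ Icc 1 B, if d ∣ n then (f d : ℂ) else 0 := by
  unfold dsum
  push_cast
  rw [← sum_filter]
  refine sum_congr ?_ fun _ _ => rfl
  ext d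
  simp only [Nat.mem_divisors, mem_filter, mem_Icc]
  constructor
  · rintro ⟨h, _⟩
    exact ⟨⟨Nat.pos_of_dvd_of_pos h hn, (Nat.le_of_dvd hn h).trans hB⟩, h⟩
  · rintro ⟨_, h⟩
    exact ⟨h, hn.ne'⟩

lemma den0_sum_mult (W : ℕ → ℂ) (A B k : ℕ) (hk : 0 < k) :
    ∑ n ∈ Ioc A B, (if k ∣ n then W n else 0) = ∑ m ∈ Ioc (A / k) (B / k), W (k * m) := by
  rw [← sum_filter]
  symm
  refine sum_bij (fun m _ => k * m) ?_ ?_ ?_ ?_
  · intro m hm
    simp only [mem_Ioc, mem_filter] at hm ⊢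
    refine ⟨⟨?_, ?_⟩, dvd_mul_right _ _⟩
    · have := (Nat.div_lt_iff_lt_mul hk).1 hm.1
      linarith [mul_comm k m]
    · have := (Nat.le_div_iff_mul_le hk).1 hm.2
      linarith [mul_comm k m]
  · intro a _ b _ h
    exact Nat.eq_of_mul_eq_mul_left hk h
  · intro n hn
    simp only [mem_Ioc, mem_filter] at hn
    obtain ⟨⟨h1, h2⟩, m, rfl⟩ := hn
    refine ⟨m, ?_, rfl⟩
    simp only [mem_Ioc]
    constructor
    · rw [Nat.div_lt_iff_lt_mul hk]; linarith [mul_comm k m]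
    · rw [Nat.le_div_iff_mul_le hk]; linarith [mul_comm k m]
  · intro _ _; rfl

lemma den0_expand (f g : ℕ → ℝ) (W : ℕ → ℂ) (A B : ℕ) :
    ∑ n ∈ Ioc A B, (dsum f n : ℂ) * (dsum g n : ℂ) * W n =
      ∑ d ∈ Icc 1 B, ∑ e ∈ Icc 1 B, (f d : ℂ) * (g e : ℂ) *
        ∑ m ∈ Ioc (A / Nat.lcm d e) (B / Nat.lcm d e), W (Nat.lcm d e * m) := by
  have h1 : ∀ n ∈ Ioc A B, (dsum f n : ℂ) * (dsum g n : ℂ) * W n =
      ∑ d ∈ Icc 1 B, ∑ e ∈ Icc 1 B, (f d : ℂ) * (g e : ℂ) *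
        (if Nat.lcm d e ∣ n then W n else 0) := by
    intro n hn
    simp only [mem_Ioc] at hn
    have hn0 : 0 < n := lt_of_le_of_lt (Nat.zero_le _) hn.1
    rw [den0_dsum_eq f n B hn0 hn.2, den0_dsum_eq g n B hn0 hn.2, sum_mul_sum, sum_mul]
    refine sum_congr rfl fun d _ => ?_
    rw [sum_mul]
    refine sum_congr rfl fun e _ => ?_
    by_cases hd : d ∣ n <;> by_cases he : e ∣ n <;> simp [hd, he, Nat.lcm_dvd_iff]
  rw [sum_congr rfl h1, sum_comm]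
  refine sum_congr rfl fun d hd => ?_
  rw [sum_comm]
  refine sum_congr rfl fun e he => ?_
  simp only [mem_Icc] at hd he
  rw [← mul_sum, den0_sum_mult W A B _ (Nat.lcm_pos hd.1 he.1)]

lemma den0_bilin (f g : ℕ → ℝ) (W : ℕ → ℂ) (A B : ℕ) (l T : ℝ) (hf : ∀ d, |f d| ≤ l)
    (hg : ∀ d, |g d| ≤ l) (hT : 0 ≤ T)
    (h : ∀ d e : ℕ, 1 ≤ d → 1 ≤ e → f d ≠ 0 → g e ≠ 0 →
      ‖∑ m ∈ Ioc (A / Nat.lcm d e) (B / Nat.lcm d e), W (Nat.lcm d e * m)‖
        ≤ T / (Nat.lcm d e : ℕ)) :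
    ‖∑ n ∈ Ioc A B, (dsum f n : ℂ) * (dsum g n : ℂ) * W n‖ ≤ l ^ 2 * T * (1 + Real.log B) ^ 3 := by
  have hl : 0 ≤ l := (abs_nonneg _).trans (hf 0)
  rw [den0_expand]
  calc _ ≤ ∑ d ∈ Icc 1 B, ∑ e ∈ Icc 1 B, l ^ 2 * T * ((1 : ℝ) / (Nat.lcm d e : ℕ)) := by
        refine (norm_sum_le _ _).trans (sum_le_sum fun d hd => ?_)
        refine (norm_sum_le _ _).trans (sum_le_sum fun e he => ?_)
        simp only [mem_Icc] at hd he
        by_cases h1 : f d = 0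
        · simp only [h1, ofReal_zero, zero_mul, norm_zero]; positivity
        by_cases h2 : g e = 0
        · simp only [h2, ofReal_zero, zero_mul, mul_zero, norm_zero]; positivity
        rw [norm_mul, norm_mul, Complex.norm_real, Complex.norm_real, Real.norm_eq_abs,
          Real.norm_eq_abs]
        have h3 := h d e hd.1 he.1 h1 h2
        calc _ ≤ l * l * (T / (Nat.lcm d e : ℕ)) := by
              gcongr
              · exact hf d
              · exact hg e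
          _ = _ := by ring
    _ = l ^ 2 * T * ∑ d ∈ Icc 1 B, ∑ e ∈ Icc 1 B, ((1 : ℝ) / (Nat.lcm d e : ℕ)) := by
        simp_rw [mul_sum]
    _ ≤ _ := by
        gcongr
        exact den0_lcm_sum B

/-- partial summation -/
lemma den0_abel (ξ g : ℕ → ℂ) (M0 M1 : ℕ) (κ A A' : ℝ) (hκ : 0 ≤ κ) (hA : 0 ≤ A) (hA' : 0 ≤ A')
    (hP : ∀ t, M0 ≤ t → ‖psum ξ t‖ ≤ κ * t)
    (hg : ∀ m, M0 < m → m ≤ M1 → ‖g m‖ ≤ A / m)
    (hd : ∀ m, M0 < m → m + 1 ≤ M1 → ‖g (m + 1) - g m‖ ≤ A' / (m : ℝ) ^ 2) :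
    ‖∑ m ∈ Ioc M0 M1, ξ m * g m‖ ≤ κ * (2 * A + A' * (1 + Real.log M1)) := by
  have hlog : 0 ≤ 1 + Real.log M1 := by
    have := Real.log_natCast_nonneg M1
    linarith
  rcases le_or_gt M1 M0 with hle | hlt
  · rw [Ioc_eq_empty (by omega)]
    simp only [sum_empty, norm_zero]
    positivity
  have hps : ∀ t, psum ξ (t + 1) = psum ξ t + ξ (t + 1) := by
    intro t
    unfold psum
    rw [sum_Icc_succ_top (by omega)]
  have key : ∀ M, M0 + 1 ≤ M → M ≤ M1 →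
      ‖∑ m ∈ Ioc M0 M, ξ m * g m - psum ξ M * g M‖
        ≤ κ * (A + A' * ∑ k ∈ Icc 1 (M - 1), (1 : ℝ) / k) := by
    intro M hM
    induction M, hM using Nat.le_induction with
    | base =>
      intro hM1
      have : ∑ m ∈ Ioc M0 (M0 + 1), ξ m * g m - psum ξ (M0 + 1) * g (M0 + 1)
          = -(psum ξ M0 * g (M0 + 1)) := by
        rw [hps, Nat.Ioc_succ_singleton, sum_singleton]; ring
      rw [this, norm_neg, norm_mul]
      have h1 := hP M0 le_rfl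
      have h2 := hg (M0 + 1) (by omega) hM1
      have h3 : (0 : ℝ) < ((M0 + 1 : ℕ) : ℝ) := by positivity
      calc _ ≤ κ * M0 * (A / ((M0 + 1 : ℕ) : ℝ)) := by gcongr
        _ = κ * (A * ((M0 : ℝ) / ((M0 + 1 : ℕ) : ℝ))) := by ring
        _ ≤ κ * (A * 1) := by
            gcongr
            rw [div_le_one h3]; push_cast; linarith
        _ ≤ _ := by
            have := den0_harm_nonneg (M0 + 1 - 1)
            gcongr
            nlinarith [mul_nonneg hA' this]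
    | succ M hM ih =>
      intro hM1
      have ih' := ih (by omega)
      have : ∑ m ∈ Ioc M0 (M + 1), ξ m * g m - psum ξ (M + 1) * g (M + 1)
          = (∑ m ∈ Ioc M0 M, ξ m * g m - psum ξ M * g M) - psum ξ M * (g (M + 1) - g M) := by
        rw [hps, sum_Ioc_succ_top (by omega)]; ring
      rw [this]
      have h1 := hP M (by omega)
      have h2 := hd M (by omega) hM1
      have h3 : (0 : ℝ) < (M : ℝ) := by
        have : 0 < M := by omega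
        positivity
      have h4 : ‖psum ξ M * (g (M + 1) - g M)‖ ≤ κ * (A' * (1 / (M : ℝ))) := by
        rw [norm_mul]
        calc _ ≤ κ * M * (A' / (M : ℝ) ^ 2) := by gcongr
          _ = _ := by field_simp
      have h5 : ∑ k ∈ Icc 1 (M + 1 - 1), (1 : ℝ) / k
          = ∑ k ∈ Icc 1 (M - 1), (1 : ℝ) / k + 1 / (M : ℝ) := by
        obtain ⟨M', rfl⟩ : ∃ M', M = M' + 1 := ⟨M - 1, by omega⟩
        simp only [Nat.add_sub_cancel]
        rw [sum_Icc_succ_top (by omega)]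
      calc _ ≤ _ := norm_sub_le _ _
        _ ≤ κ * (A + A' * ∑ k ∈ Icc 1 (M - 1), (1 : ℝ) / k) + κ * (A' * (1 / (M : ℝ))) :=
            add_le_add ih' h4
        _ = _ := by rw [h5]; ring
  have h1 := key M1 hlt le_rfl
  have h2 : ‖psum ξ M1 * g M1‖ ≤ κ * A := by
    rw [norm_mul]
    have h3 : (0 : ℝ) < (M1 : ℝ) := by
      have : 0 < M1 := by omega
      positivity
    calc _ ≤ κ * M1 * (A / M1) := by
          gcongr
          · exact hP M1 hlt.le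
          · exact hg M1 hlt le_rfl
      _ = _ := by field_simp
  have h3 : ∑ k ∈ Icc 1 (M1 - 1), (1 : ℝ) / k ≤ 1 + Real.log M1 := by
    refine le_trans ?_ (den0_harm M1)
    refine sum_le_sum_of_subset_of_nonneg (Icc_subset_Icc_right (by omega)) fun _ _ _ => by positivity
  calc ‖∑ m ∈ Ioc M0 M1, ξ m * g m‖
      = ‖(∑ m ∈ Ioc M0 M1, ξ m * g m - psum ξ M1 * g M1) + psum ξ M1 * g M1‖ := by ring_nf
    _ ≤ _ := norm_add_le _ _
    _ ≤ κ * (A + A' * (1 + Real.log M1)) + κ * A := by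
        refine add_le_add (h1.trans ?_) h2
        gcongr
    _ = _ := by ring

lemma den0_exp_sub_one (z : ℂ) (hz : z.re ≤ 0) : ‖cexp z - 1‖ ≤ 2 * ‖z‖ := by
  rcases le_or_gt ‖z‖ 1 with h | h
  · exact Complex.norm_exp_sub_one_le h
  · have h1 : ‖cexp z‖ ≤ 1 := by
      rw [Complex.norm_exp]; exact Real.exp_le_one_iff.2 hz
    calc _ ≤ ‖cexp z‖ + ‖(1 : ℂ)‖ := norm_sub_le _ _
      _ ≤ 1 + 1 := by rw [norm_one]; linarith
      _ ≤ _ := by linarith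

lemma den0_poly (C γ : ℝ) (hγ : 0 < γ) :
    ∃ l0 : ℝ, 1 ≤ l0 ∧ ∀ l, l0 ≤ l → C * l ^ 7 ≤ Real.exp (γ * l) := by
  refine ⟨max 1 (|C| * 40320 / γ ^ 8), le_max_left _ _, fun l hl => ?_⟩
  have h1 : 1 ≤ l := (le_max_left _ _).trans hl
  have h2 : |C| * 40320 / γ ^ 8 ≤ l := (le_max_right _ _).trans hl
  have h3 := Real.pow_div_factorial_le_exp (γ * l) (by positivity) 8
  have h4 : ((Nat.factorial 8 : ℕ) : ℝ) = 40320 := by norm_num [Nat.factorial]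
  rw [h4] at h3
  rw [div_le_iff₀ (by positivity)] at h2
  refine le_trans ?_ h3
  rw [le_div_iff₀ (by norm_num)]
  calc C * l ^ 7 * 40320 ≤ |C| * l ^ 7 * 40320 := by gcongr; exact le_abs_self C
    _ = (|C| * 40320) * l ^ 7 := by ring
    _ ≤ (l * γ ^ 8) * l ^ 7 := by gcongr
    _ = _ := by ring

/-- floor of a quotient, from below -/
lemma den0_floor_div (X Z : ℝ) (k : ℕ) (hk : 0 < k) (hZ : 1 ≤ Z) (h : Z * k ≤ X) :
    Z / 2 ≤ ((⌊X⌋₊ / k : ℕ) : ℝ) ∧ 1 ≤ ⌊X⌋₊ / k := by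
  have hk' : (0 : ℝ) < k := by positivity
  have h1 : Z ≤ X / k := by rw [le_div_iff₀ hk']; exact h
  rw [← Nat.floor_div_natCast]
  have h2 : 1 ≤ ⌊X / k⌋₊ := Nat.le_floor (by push_cast; linarith)
  refine ⟨?_, h2⟩
  have h3 := Nat.lt_floor_add_one (X / k)
  have h4 : (1 : ℝ) ≤ ⌊X / k⌋₊ := by exact_mod_cast h2
  linarith

end Pool.Agent.Lib.PS
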