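import Pool.Agent.Lib.PS.DEN01

/-!
The two estimates of the density core: the mollified sum at a zero, and the off diagonal terms.
-/

namespace Pool.Agent.Lib.PS

open Finset Real Complex
open scoped ArithmeticFunction.Moebius Classical ComplexConjugate

lemma den0_lcm_le (d e : ℕ) (D1 E1 : ℝ) (hd : 1 ≤ d) (he : 1 ≤ e) (h1 : (d : ℝ) ≤ D1)
    (h2 : (e : ℝ) ≤ E1) : ((Nat.lcm d e : ℕ) : ℝ) ≤ D1 * E1 := by
  have h : Nat.lcm d e ≤ d * e := Nat.le_of_dvd (Nat.mul_pos hd he) (Nat.lcm_dvd_mul d e)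
  have h' : ((Nat.lcm d e : ℕ) : ℝ) ≤ (d : ℝ) * e := by exact_mod_cast h
  have hd0 : (0 : ℝ) ≤ d := Nat.cast_nonneg _
  have he0 : (0 : ℝ) ≤ e := Nat.cast_nonneg _
  exact h'.trans (mul_le_mul h1 h2 he0 (hd0.trans h1))

lemma den0_zero (hL : St_LDX) (ψ θ : ℕ → ℝ) (χ : ℕ → ℂ) (ρ : ℂ) (c l B X D1 E1 Z : ℝ)
    (hc : 0 < c) (hc1 : c ≤ 1) (hχ : CM χ) (hB : 0 ≤ B) (hC : Canc χ c B) (h0 : LL χ ρ = 0)
    (hρ : 1 - c / 2 ≤ ρ.re) (hρ1 : ρ.re ≤ 1) (hψ : ∀ d, |ψ d| ≤ l) (hθ : ∀ d, |θ d| ≤ l)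
    (hD : ∀ d : ℕ, D1 < d → ψ d = 0) (hE : ∀ d : ℕ, E1 < d → θ d = 0)
    (hZ : 1 ≤ Z) (hX : Z * (D1 * E1) ≤ X) (hX0 : 0 ≤ X) :
    ‖∑ n ∈ Ioc 0 ⌊X⌋₊, (dsum ψ n : ℂ) * (dsum θ n : ℂ) * (χ n * (n : ℂ) ^ (-ρ))‖
      ≤ l ^ 2 * ((1 + 4 * ‖ρ‖ / c) * X ^ (1 - ρ.re) * (2 * B / Z) ^ c)
        * (1 + Real.log (⌊X⌋₊ : ℕ)) ^ 3 := by
  have hZ0 : 0 < Z := by linarith
  refine den0_bilin ψ θ (fun n => χ n * (n : ℂ) ^ (-ρ)) 0 ⌊X⌋₊ l _ hψ hθ (by positivity) ?_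
  intro d e hd he h1 h2
  have hd' : (d : ℝ) ≤ D1 := not_lt.1 fun h => h1 (hD d h)
  have he' : (e : ℝ) ≤ E1 := not_lt.1 fun h => h2 (hE e h)
  have hk := den0_lcm_le d e D1 E1 hd he hd' he'
  have hk0 : 0 < Nat.lcm d e := Nat.lcm_pos hd he
  generalize Nat.lcm d e = k at hk hk0 ⊢
  have hkr : (0 : ℝ) < k := by positivity
  obtain ⟨hf1, hf2⟩ := den0_floor_div X Z k hk0 hZ (le_trans (by gcongr) hX)
  have hy : ((⌊X⌋₊ / k : ℕ) : ℝ) ≤ X / k := by
    rw [← Nat.floor_div_natCast]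
    exact Nat.floor_le (by positivity)
  generalize ⌊X⌋₊ / k = y at hf1 hf2 hy ⊢
  have hyr : (0 : ℝ) < y := by
    have : 0 < y := hf2
    positivity
  have hsum : ∑ m ∈ Ioc (0 / k) y, χ (k * m) * ((k * m : ℕ) : ℂ) ^ (-ρ)
      = χ k * (k : ℂ) ^ (-ρ) * ∑ m ∈ Icc 1 y, χ m * (m : ℂ) ^ (-ρ) := by
    rw [Nat.zero_div, mul_sum]
    refine sum_congr (by ext m; simp only [mem_Ioc, mem_Icc]; omega) fun m _ => ?_
    rw [hχ.2.1, Nat.cast_mul, Complex.natCast_mul_natCast_cpow]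
    ring
  rw [hsum, norm_mul, norm_mul]
  have h3 := hL.2.1 χ c B ρ y hc hc1 hB hC hρ h0 hf2
  have h4 : ‖(k : ℂ) ^ (-ρ)‖ = (k : ℝ) ^ (-ρ.re) := by
    rw [Complex.norm_natCast_cpow_of_pos hk0, Complex.neg_re]
  have h5 : (y : ℝ) ^ (1 - ρ.re) ≤ (X / k) ^ (1 - ρ.re) :=
    Real.rpow_le_rpow hyr.le hy (by linarith)
  have h6 : (B / y) ^ c ≤ (2 * B / Z) ^ c := by
    refine Real.rpow_le_rpow (by positivity) ?_ hc.le
    rw [div_le_div_iff₀ hyr hZ0]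
    nlinarith
  have h7 : (k : ℝ) ^ (-ρ.re) * (X / k) ^ (1 - ρ.re) = X ^ (1 - ρ.re) / k := by
    rw [Real.div_rpow hX0 hkr.le, Real.rpow_sub hkr, Real.rpow_one, Real.rpow_neg hkr.le]
    have : (0 : ℝ) < (k : ℝ) ^ ρ.re := Real.rpow_pos_of_pos hkr _
    field_simp
  rw [h4]
  calc _ ≤ 1 * (k : ℝ) ^ (-ρ.re) * ((1 + 4 * ‖ρ‖ / c) * (X / k) ^ (1 - ρ.re) * (2 * B / Z) ^ c) := by
        refine mul_le_mul ?_ (h3.trans ?_) (norm_nonneg _) (by positivity)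
        · gcongr
          exact hχ.2.2 k
        · gcongr
    _ = (1 + 4 * ‖ρ‖ / c) * ((k : ℝ) ^ (-ρ.re) * (X / k) ^ (1 - ρ.re)) * (2 * B / Z) ^ c := by ring
    _ = _ := by rw [h7]; ring

lemma den0_off (θ : ℕ → ℝ) (ξ : ℕ → ℂ) (G : ℝ → ℝ) (s : ℂ) (c l B u x L Gm E1 Z : ℝ) (Y : ℕ)
    (hc : 0 < c) (hξ : CM ξ) (hB : 0 ≤ B) (hC : Canc ξ c B) (hθ : ∀ d, |θ d| ≤ l)
    (hE : ∀ d : ℕ, E1 < d → θ d = 0) (hl : 1 ≤ l) (hY : (Y : ℝ) ≤ Real.exp (x * l))
    (hL : 0 ≤ L) (hGm : 0 ≤ Gm)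
    (hG : ∀ s ∈ Set.Icc u x, ∀ t ∈ Set.Icc u x, |G s - G t| ≤ L * |s - t|)
    (hG' : ∀ s ∈ Set.Icc u x, |G s| ≤ Gm) (hs0 : s.re ≤ 0) (hs1 : -1 ≤ s.re)
    (hZ : 1 ≤ Z) (hX : Z * (E1 * E1) ≤ Real.exp (u * l)) :
    ‖∑ n ∈ Ioc ⌊Real.exp (u * l)⌋₊ Y, (dsum θ n : ℂ) * (dsum θ n : ℂ) *
        (ξ n * ((G (Real.log n / l) : ℂ) * cexp (s * (Real.log n : ℝ))))‖
      ≤ l ^ 2 * ((2 * B / Z) ^ c * Real.exp ((1 + s.re) * (x * l))
          * (2 * Gm + (L + 2 * Gm * ‖s‖) * (1 + Real.log Y))) * (1 + Real.log Y) ^ 3 := by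
  have hZ0 : 0 < Z := by linarith
  have hl0 : 0 < l := by linarith
  have hlogY : 0 ≤ Real.log Y := Real.log_natCast_nonneg Y
  set E := Real.exp ((1 + s.re) * (x * l)) with hEdef
  have hE0 : 0 < E := Real.exp_pos _
  refine den0_bilin θ θ (fun n => ξ n * ((G (Real.log n / l) : ℂ) * cexp (s * (Real.log n : ℝ))))
    _ Y l _ hθ hθ (by positivity) ?_
  intro d e hd he h1 h2
  have hd' : (d : ℝ) ≤ E1 := not_lt.1 fun h => h1 (hE d h)
  have he' : (e : ℝ) ≤ E1 := not_lt.1 fun h => h2 (hE e h)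
  have hk := den0_lcm_le d e E1 E1 hd he hd' he'
  have hk0 : 0 < Nat.lcm d e := Nat.lcm_pos hd he
  generalize Nat.lcm d e = k at hk hk0 ⊢
  have hkr : (0 : ℝ) < k := by positivity
  obtain ⟨hf1, hf2⟩ := den0_floor_div (Real.exp (u * l)) Z k hk0 hZ (le_trans (by gcongr) hX)
  set M0 := ⌊Real.exp (u * l)⌋₊ / k with hM0
  set M1 := Y / k with hM1
  let g : ℕ → ℂ := fun m => (G (Real.log (k * m : ℕ) / l) : ℂ) * cexp (s * (Real.log (k * m : ℕ) : ℝ))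
  have hsum : ∑ m ∈ Ioc M0 M1, ξ (k * m) *
      ((G (Real.log (k * m : ℕ) / l) : ℂ) * cexp (s * (Real.log (k * m : ℕ) : ℝ)))
      = ξ k * ∑ m ∈ Ioc M0 M1, ξ m * g m := by
    rw [mul_sum]
    refine sum_congr rfl fun m _ => ?_
    rw [hξ.2.1]
    simp only [g]
    ring
  rw [hsum, norm_mul]
  -- facts on the range
  have hrange : ∀ m, M0 < m → m ≤ M1 → (0 : ℝ) < m ∧ Real.log (k * m : ℕ) / l ∈ Set.Icc u x ∧
      ‖cexp (s * (Real.log (k * m : ℕ) : ℝ))‖ ≤ E / (k * m) := by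
    intro m h1 h2
    have hm : 0 < m := by omega
    have hmr : (0 : ℝ) < m := by positivity
    have a1 : ⌊Real.exp (u * l)⌋₊ < k * m := by
      have := (Nat.div_lt_iff_lt_mul hk0).1 h1
      linarith [mul_comm k m]
    have a2 : k * m ≤ Y := by
      have := (Nat.le_div_iff_mul_le hk0).1 h2
      linarith [mul_comm k m]
    have a3 : Real.exp (u * l) < (k * m : ℕ) := (Nat.floor_lt (Real.exp_pos _).le).1 a1
    have a4 : ((k * m : ℕ) : ℝ) ≤ Real.exp (x * l) := le_trans (by exact_mod_cast a2) hY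
    have a5 : (0 : ℝ) < (k * m : ℕ) := (Real.exp_pos _).trans a3
    have a6 : u * l ≤ Real.log (k * m : ℕ) := ((Real.lt_log_iff_exp_lt a5).2 a3).le
    have a7 : Real.log (k * m : ℕ) ≤ x * l := (Real.log_le_iff_le_exp a5).2 a4
    refine ⟨hmr, ⟨(le_div_iff₀ hl0).2 a6, (div_le_iff₀ hl0).2 a7⟩, ?_⟩
    rw [Complex.norm_exp, Complex.mul_re, Complex.ofReal_re, Complex.ofReal_im, mul_zero, sub_zero]
    have a8 : s.re * Real.log (k * m : ℕ)
        = (1 + s.re) * Real.log (k * m : ℕ) - Real.log (k * m : ℕ) := by ring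
    rw [a8, Real.exp_sub, Real.exp_log a5]
    push_cast
    gcongr
    rw [hEdef]
    refine Real.exp_le_exp.2 (mul_le_mul_of_nonneg_left ?_ (by linarith))
    exact_mod_cast a7
  have habel := den0_abel ξ g M0 M1 ((2 * B / Z) ^ c) (Gm * E / k) ((L + 2 * Gm * ‖s‖) * E / k)
    (by positivity) (by positivity) (by positivity) ?_ ?_ ?_
  · have hM1Y : Real.log M1 ≤ Real.log Y := by
      rcases Nat.eq_zero_or_pos M1 with h | h
      · rw [h]; simpa using hlogY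
      · exact Real.log_le_log (by positivity) (by exact_mod_cast Nat.div_le_self Y k)
    calc _ ≤ 1 * ((2 * B / Z) ^ c * (2 * (Gm * E / k)
            + (L + 2 * Gm * ‖s‖) * E / k * (1 + Real.log Y))) := by
          refine mul_le_mul (hξ.2.2 k) (habel.trans ?_) (norm_nonneg _) zero_le_one
          gcongr
      _ = _ := by field_simp
  · intro t ht
    have ht1 : 0 < t := by omega
    have htr : (0 : ℝ) < t := by positivity
    have ht2 : Z / 2 ≤ (t : ℝ) := hf1.trans (by exact_mod_cast ht)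
    refine (hC t).trans ?_
    have h6 : (B / t) ^ c ≤ (2 * B / Z) ^ c := by
      refine Real.rpow_le_rpow (by positivity) ?_ hc.le
      rw [div_le_div_iff₀ htr hZ0]
      nlinarith
    have h7 : (t : ℝ) ^ (1 - c) * B ^ c = (B / t) ^ c * t := by
      rw [Real.div_rpow hB htr.le, Real.rpow_sub htr, Real.rpow_one]
      ring
    rw [h7]
    gcongr
  · intro m h1 h2
    obtain ⟨a1, a2, a3⟩ := hrange m h1 h2
    simp only [g]
    rw [norm_mul, Complex.norm_real, Real.norm_eq_abs]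
    calc _ ≤ Gm * (E / (k * m)) := mul_le_mul (hG' _ a2) a3 (norm_nonneg _) hGm
      _ = _ := by field_simp
  · intro m h1 h2
    obtain ⟨a1, a2, a3⟩ := hrange m h1 (by omega)
    obtain ⟨b1, b2, b3⟩ := hrange (m + 1) (by omega) h2
    set δ := Real.log (k * (m + 1) : ℕ) - Real.log (k * m : ℕ) with hδ
    have hδ' : δ = Real.log (1 + 1 / (m : ℝ)) := by
      rw [hδ, ← Real.log_div (by positivity) (by push_cast; positivity)]
      congr 1
      push_cast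
      field_simp
    have hδ0 : 0 ≤ δ := by
      rw [hδ']; exact Real.log_nonneg (by have : (0 : ℝ) ≤ 1 / m := by positivity
                                          linarith)
    have hδ1 : δ ≤ 1 / m := by
      rw [hδ']
      have := Real.log_le_sub_one_of_pos (show (0 : ℝ) < 1 + 1 / (m : ℝ) by positivity)
      linarith
    have c1 : |G (Real.log (k * (m + 1) : ℕ) / l) - G (Real.log (k * m : ℕ) / l)| ≤ L / m := by
      refine (hG _ b2 _ a2).trans ?_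
      rw [← sub_div, ← hδ, abs_of_nonneg (by positivity)]
      calc L * (δ / l) ≤ L * (1 / m) :=
            mul_le_mul_of_nonneg_left ((div_le_self hδ0 hl).trans hδ1) hL
        _ = _ := by ring
    have c2 : ‖cexp (s * (Real.log (k * (m + 1) : ℕ) : ℝ)) - cexp (s * (Real.log (k * m : ℕ) : ℝ))‖
        ≤ E / (k * m) * (2 * (‖s‖ * (1 / m))) := by
      have : cexp (s * (Real.log (k * (m + 1) : ℕ) : ℝ)) - cexp (s * (Real.log (k * m : ℕ) : ℝ))
          = cexp (s * (Real.log (k * m : ℕ) : ℝ)) * (cexp (s * (δ : ℝ)) - 1) := by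
        rw [mul_sub, ← Complex.exp_add, mul_one, hδ, Complex.ofReal_sub]
        congr 2
        ring
      rw [this, norm_mul]
      refine mul_le_mul a3 ((den0_exp_sub_one _ ?_).trans ?_) (norm_nonneg _) (by positivity)
      · rw [Complex.mul_re, Complex.ofReal_re, Complex.ofReal_im, mul_zero, sub_zero]
        exact mul_nonpos_of_nonpos_of_nonneg hs0 hδ0
      · rw [norm_mul, Complex.norm_real, Real.norm_eq_abs, abs_of_nonneg hδ0]
        gcongr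
    have c3 : ‖cexp (s * (Real.log (k * (m + 1) : ℕ) : ℝ))‖ ≤ E / (k * m) := by
      refine b3.trans ?_
      push_cast
      gcongr
      linarith
    have : g (m + 1) - g m =
        ((G (Real.log (k * (m + 1) : ℕ) / l) - G (Real.log (k * m : ℕ) / l) : ℝ) : ℂ)
          * cexp (s * (Real.log (k * (m + 1) : ℕ) : ℝ))
        + (G (Real.log (k * m : ℕ) / l) : ℂ) * (cexp (s * (Real.log (k * (m + 1) : ℕ) : ℝ))
          - cexp (s * (Real.log (k * m : ℕ) : ℝ))) := by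
      simp only [g]
      rw [Complex.ofReal_sub]
      ring
    rw [this]
    refine (norm_add_le _ _).trans ?_
    rw [norm_mul, norm_mul, Complex.norm_real, Complex.norm_real, Real.norm_eq_abs,
      Real.norm_eq_abs]
    calc _ ≤ L / m * (E / (k * m)) + Gm * (E / (k * m) * (2 * (‖s‖ * (1 / m)))) :=
          add_le_add (mul_le_mul c1 c3 (norm_nonneg _) (by positivity))
            (mul_le_mul (hG' _ a2) c2 (norm_nonneg _) hGm)
      _ = _ := by field_simp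

end Pool.Agent.Lib.PS
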