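import Pool.Agent.Lib.PS.ZF

/-! Auxiliary lemmas for the repulsion block. -/

namespace Pool.Agent.Lib.PS

open Finset Real MeasureTheory Complex Filter Topology
open scoped NumberTheorySymbols ArithmeticFunction.Moebius ArithmeticFunction.vonMangoldt
  Classical ComplexConjugate

noncomputable def dhf (x t : ℝ) : ℝ := max (x - t) 0

theorem dh_lip (x s t : ℝ) : |dhf x s - dhf x t| ≤ |s - t| := by
  refine (abs_max_sub_max_le_abs _ _ _).trans (le_of_eq ?_)
  rw [← abs_neg]; congr 1; ring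

theorem dh_TF (x : ℝ) : TF (max x 1) (dhf x) := by
  refine ⟨fun t => le_max_right _ _, fun s t _ _ => (dh_lip x s t).trans ?_, fun t ht => ?_⟩
  · exact le_mul_of_one_le_left (abs_nonneg _) (le_max_right _ _)
  · exact max_eq_right (by linarith [le_max_left x 1])

theorem dh_PD {x : ℝ} (hx : 0 < x) : PD (dhf x) := by
  intro y
  rw [setIntegral_eq_of_subset_of_forall_sdiff_eq_zero (s := Set.Ioc 0 x) measurableSet_Ioi
    Set.Ioc_subset_Ioi_self (fun t ht => by
      have : x < t := by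
        by_contra h
        exact ht.2 ⟨ht.1, not_lt.1 h⟩
      rw [dhf, max_eq_right (by linarith), zero_mul])]
  rw [setIntegral_congr_fun (g := fun t => (x - t) * Real.cos (y * t)) measurableSet_Ioc
    (fun t ht => by simp only [dhf]; rw [max_eq_left (by linarith [ht.2])])]
  rw [← intervalIntegral.integral_of_le hx.le]
  by_cases hy : y = 0
  · subst hy
    refine intervalIntegral.integral_nonneg hx.le fun t ht => ?_
    simp only [zero_mul, Real.cos_zero, mul_one]
    linarith [ht.2]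
  · rw [intervalIntegral.integral_eq_sub_of_hasDerivAt
      (f := fun t => (x - t) * Real.sin (y * t) / y - Real.cos (y * t) / y ^ 2)
      (fun t _ => by
        have h1 : HasDerivAt (fun t => y * t) y t := by simpa using (hasDerivAt_id t).const_mul y
        have h2 : HasDerivAt (fun t => x - t) (-1) t := by
          simpa using (hasDerivAt_id t).const_sub x
        have h3 := ((h2.mul h1.sin).div_const y).sub (h1.cos.div_const (y ^ 2))
        refine h3.congr_deriv ?_
        field_simp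
        ring)
      (by apply Continuous.intervalIntegrable; fun_prop)]
    simp only [sub_self, zero_mul, zero_div, mul_zero, Real.sin_zero, Real.cos_zero]
    have := Real.cos_le_one (y * x)
    have h2 : 0 < y ^ 2 := by positivity
    have : Real.cos (y * x) / y ^ 2 ≤ 1 / y ^ 2 := by gcongr
    linarith

theorem dh_h_cont (x : ℝ) : Continuous fun s => dhf x |s| := by
  unfold dhf; fun_prop

theorem dh_h_zero (x s : ℝ) (h : x ≤ |s|) : dhf x |s| = 0 := max_eq_right (by linarith)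

theorem dh_h_bd {x : ℝ} (hx : 0 < x) (s : ℝ) : |dhf x (|s|)| ≤ x := by
  rw [abs_of_nonneg (le_max_right _ _)]
  exact max_le (by linarith [abs_nonneg s]) hx.le

theorem dh_h_lip (x s t : ℝ) : |dhf x (|s|) - dhf x (|t|)| ≤ 1 * |s - t| := by
  rw [one_mul]
  exact (dh_lip x _ _).trans (abs_abs_sub_abs_le_abs_sub s t)

theorem dh_decay (hG : St_GS) {x l : ℝ} (hx : 0 < x) (hl : 0 < l) (a : ℝ) :
    ∃ M : ℝ, ∀ t : ℝ, 0 ≤ t → |sm l (dhf x) t| * Real.exp (a * t) ≤ M := by
  obtain ⟨-, h2, -, h4, -⟩ := hG l x x _ hl hx.le (dh_h_cont x) (dh_h_zero x) (dh_h_bd hx)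
  refine ⟨2 * x * Real.exp (|a| * x + a ^ 2 / (2 * l)), fun t ht => ?_⟩
  have hq : 0 ≤ a ^ 2 / (2 * l) := by positivity
  by_cases h : t ≤ x
  · have e1 : Real.exp (a * t) ≤ Real.exp (|a| * x + a ^ 2 / (2 * l)) := by
      apply Real.exp_le_exp.2
      have : a * t ≤ |a| * x :=
        (mul_le_mul_of_nonneg_right (le_abs_self a) ht).trans
          (mul_le_mul_of_nonneg_left h (abs_nonneg a))
      linarith
    have e2 : |sm l (dhf x) t| ≤ 2 * x := (h2 t).trans (by linarith)
    exact mul_le_mul e2 e1 (Real.exp_pos _).le (by positivity)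
  · have h' : x < t := not_le.1 h
    have e2 := h4 t (t - x) (by linarith) fun s hs => dh_h_zero x s (by
      have := (abs_lt.1 hs).2
      linarith [le_abs_self s])
    refine (mul_le_mul_of_nonneg_right e2 (Real.exp_pos _).le).trans ?_
    rw [mul_assoc (2 * x), ← Real.exp_add]
    refine mul_le_mul_of_nonneg_left (Real.exp_le_exp.2 ?_) (by positivity)
    have e3 : a * x ≤ |a| * x := mul_le_mul_of_nonneg_right (le_abs_self a) hx.le
    have e4 : a * (t - x) ≤ l * (t - x) ^ 2 / 2 + a ^ 2 / (2 * l) := by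
      have : l * (t - x) ^ 2 / 2 + a ^ 2 / (2 * l) - a * (t - x)
          = (l * (t - x) - a) ^ 2 / (2 * l) := by field_simp; ring
      have h5 : 0 ≤ (l * (t - x) - a) ^ 2 / (2 * l) := by positivity
      linarith
    linarith

theorem dh_summable {a : ℕ → ℂ} (ha : ∀ n, ‖a n‖ ≤ Λ n) {g : ℝ → ℝ} {l : ℝ} (hl : 0 < l) (w : ℂ)
    (hg : ∃ M : ℝ, ∀ t : ℝ, 0 ≤ t → |g t| * Real.exp ((w.re + 2 * l) * t) ≤ M) :
    Summable fun n : ℕ =>
      a n / n * (g (Real.log n / l) : ℂ) * cexp (w * ((Real.log n / l : ℝ) : ℂ)) := by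
  obtain ⟨M, hM⟩ := hg
  refine Summable.of_norm_bounded (g := fun n : ℕ => M * (1 / (n : ℝ) ^ 2))
    ((Real.summable_one_div_nat_pow.2 one_lt_two).mul_left M) fun n => ?_
  rcases Nat.eq_zero_or_pos n with rfl | hn
  · simp
  have hr : (0 : ℝ) < n := by exact_mod_cast hn
  have hr1 : (1 : ℝ) ≤ n := by exact_mod_cast hn
  have ht : 0 ≤ Real.log n / l := div_nonneg (Real.log_nonneg hr1) hl.le
  rw [norm_mul, norm_mul, norm_div, Complex.norm_natCast, Complex.norm_real, Real.norm_eq_abs,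
    Complex.norm_exp, Complex.re_mul_ofReal]
  have h1 : ‖a n‖ / n ≤ 1 := by
    rw [div_le_one hr]
    exact (ha n).trans (ArithmeticFunction.vonMangoldt_le_log.trans (Real.log_le_self hr.le))
  have h2 : Real.exp (w.re * (Real.log n / l)) =
      Real.exp ((w.re + 2 * l) * (Real.log n / l)) * (1 / (n : ℝ) ^ 2) := by
    have e : (1 / (n : ℝ) ^ 2) = Real.exp (-(2 * Real.log n)) := by
      rw [Real.exp_neg, two_mul, Real.exp_add, Real.exp_log hr, one_div, sq]
    rw [e, ← Real.exp_add]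
    congr 1
    field_simp
    ring
  rw [h2, mul_assoc, ← mul_assoc (|g _|)]
  have h3 := hM _ ht
  have h4 : 0 ≤ 1 / (n : ℝ) ^ 2 := by positivity
  calc _ ≤ 1 * (M * (1 / (n : ℝ) ^ 2)) :=
        mul_le_mul h1 (mul_le_mul_of_nonneg_right h3 h4) (by positivity) zero_le_one
    _ = _ := one_mul _

theorem dh_pos {χ1 χ : ℕ → ℂ} (h1 : ∀ n, ‖χ1 n‖ ≤ 1) (hr : RealV χ1) (h2 : ∀ n, ‖χ n‖ ≤ 1)
    {g : ℝ → ℝ} (hg0 : ∀ t, 0 ≤ g t) {l : ℝ} (hl : 0 < l) (lm mu : ℝ)
    (hg : ∃ M : ℝ, ∀ t : ℝ, 0 ≤ t → |g t| * Real.exp ((lm + 2 * l) * t) ≤ M) :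
    0 ≤ (Ks (lam 1) g l (lm - (0 : ℝ) * I)).re + (Ks (lam χ1) g l (lm - (0 : ℝ) * I)).re
      + (Ks (lam χ) g l (lm - mu * I)).re + (Ks (lam (χ1 * χ)) g l (lm - mu * I)).re := by
  have hs : ∀ (ψ : ℕ → ℂ) (m : ℝ), (∀ n, ‖ψ n‖ ≤ 1) → Summable fun n : ℕ =>
      lam ψ n / n * (g (Real.log n / l) : ℂ)
        * cexp ((lm - m * I) * ((Real.log n / l : ℝ) : ℂ)) := fun ψ m h =>
    dh_summable (zf_lam_bd h) hl _ (by simpa using hg)
  have s1 := Complex.hasSum_re (hs 1 0 fun n => by simp).hasSum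
  have s2 := Complex.hasSum_re (hs χ1 0 h1).hasSum
  have s3 := Complex.hasSum_re (hs χ mu h2).hasSum
  have s4 := Complex.hasSum_re (hs (χ1 * χ) mu fun n => by
    rw [Pi.mul_apply, norm_mul]; exact mul_le_one₀ (h1 n) (norm_nonneg _) (h2 n)).hasSum
  have h := (((s1.add s2).add s3).add s4).nonneg fun n => by
    have e : ∀ (ψ : ℕ → ℂ) (m : ℝ), lam ψ n / n * (g (Real.log n / l) : ℂ)
        * cexp ((lm - m * I) * ((Real.log n / l : ℝ) : ℂ)) =
        ((Λ n / n * g (Real.log n / l) * Real.exp (lm * (Real.log n / l)) : ℝ) : ℂ) *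
          (ψ n * cexp (((-(m * (Real.log n / l)) : ℝ) : ℂ) * I)) := by
      intro ψ m
      have : ((lm : ℂ) - m * I) * ((Real.log n / l : ℝ) : ℂ) =
          ((lm * (Real.log n / l) : ℝ) : ℂ) + ((-(m * (Real.log n / l)) : ℝ) : ℂ) * I := by
        generalize Real.log n / l = t
        push_cast; ring
      rw [this, Complex.exp_add, lam, ← Complex.ofReal_exp]
      generalize Real.exp (lm * (Real.log n / l)) = u
      generalize g (Real.log n / l) = v
      push_cast; ring
    simp only [e, Complex.re_ofReal_mul]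
    have h0 : 0 ≤ Λ n / n * g (Real.log n / l) * Real.exp (lm * (Real.log n / l)) :=
      mul_nonneg (mul_nonneg (div_nonneg ArithmeticFunction.vonMangoldt_nonneg
        (Nat.cast_nonneg n)) (hg0 _)) (Real.exp_pos _).le
    have k1 : |(χ1 n).re| ≤ 1 := (Complex.abs_re_le_norm _).trans (h1 n)
    have k2 : |(χ n * cexp (((-(mu * (Real.log n / l)) : ℝ) : ℂ) * I)).re| ≤ 1 := by
      refine (Complex.abs_re_le_norm _).trans ?_
      rw [norm_mul, Complex.norm_exp_ofReal_mul_I, mul_one]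
      exact h2 n
    have k3 : ((χ1 * χ) n * cexp (((-(mu * (Real.log n / l)) : ℝ) : ℂ) * I)).re =
        (χ1 n).re * (χ n * cexp (((-(mu * (Real.log n / l)) : ℝ) : ℂ) * I)).re := by
      rw [Pi.mul_apply, mul_assoc, zf_real hr n, Complex.re_ofReal_mul, Complex.ofReal_re]
    rw [k3]
    simp only [zero_mul, neg_zero, Complex.ofReal_zero, Complex.exp_zero, mul_one, Pi.one_apply,
      Complex.one_re]
    have := mul_nonneg h0 (mul_nonneg (by linarith [(abs_le.1 k1).1] : 0 ≤ 1 + (χ1 n).re)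
      (by linarith [(abs_le.1 k2).1] : 0 ≤ 1 +
        (χ n * cexp (((-(mu * (Real.log n / l)) : ℝ) : ℂ) * I)).re))
    linarith
  simp only [Ks, Complex.div_ofReal_re]
  rw [← add_div, ← add_div, ← add_div]
  exact div_nonneg h hl.le

theorem dh_int (hG : St_GS) {x l : ℝ} (hx : 0 < x) (hl : 0 < l) (z : ℂ) :
    Integrable fun t : ℝ => (sm l (dhf x) t : ℂ) * cexp (-(z * t)) := by
  obtain ⟨-, -, -, -, -, -, -, h8, -⟩ :=
    hG l x x _ hl hx.le (dh_h_cont x) (dh_h_zero x) (dh_h_bd hx)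
  simpa [sm] using (h8 (-z)).1

theorem dh_diff (hG : St_GS) {x l l1 : ℝ} (hx : 0 < x) (hl : 0 < l) (hl1 : 0 ≤ l1) (w : ℂ)
    (hw : -1 ≤ w.re) :
    (Lap (sm l (dhf x)) (-w)).re - (Lap (sm l (dhf x)) (l1 - w)).re ≤
      l1 * (2 * x * x * Real.exp (x * (w.re + 1) + (w.re + 1) ^ 2 / (2 * l))) := by
  obtain ⟨-, -, h3, -, -, -, h7, h8, -⟩ :=
    hG l x x _ hl hx.le (dh_h_cont x) (dh_h_zero x) (dh_h_bd hx)
  have g0 : ∀ t, 0 ≤ sm l (dhf x) t := h3 fun s => le_max_right _ _
  set v : ℝ := w.re + 1 with hv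
  have hv0 : 0 ≤ v := by linarith
  obtain ⟨i8, e8⟩ := h8 v
  have inorm : ∀ t : ℝ, ‖(gs l (fun s => dhf x |s|) t : ℂ) * cexp (v * t)‖ =
      sm l (dhf x) t * Real.exp (v * t) := fun t => by
    change ‖(sm l (dhf x) t : ℂ) * cexp (v * t)‖ = _
    rw [norm_mul, Complex.norm_real, Real.norm_of_nonneg (g0 t), ← Complex.ofReal_mul,
      ← Complex.ofReal_exp, Complex.norm_real, Real.norm_of_nonneg (Real.exp_pos _).le]
  have i9 : Integrable fun t : ℝ => sm l (dhf x) t * Real.exp (v * t) := by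
    simpa only [inorm] using i8.norm
  have b1 : ∫ t : ℝ, sm l (dhf x) t * Real.exp (v * t) ≤
      2 * x * x * Real.exp (x * v + v ^ 2 / (2 * l)) := by
    have e1 : ((∫ t : ℝ, sm l (dhf x) t * Real.exp (v * t) : ℝ) : ℂ) =
        L2 (gs l fun s => dhf x |s|) v := by
      rw [← integral_complex_ofReal, L2]
      congr 1
      funext t
      push_cast
      rfl
    have e2 := congrArg norm (e1.trans e8)
    rw [Complex.norm_real, Real.norm_eq_abs, Psi, norm_mul, Complex.norm_exp] at e2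
    refine (le_abs_self _).trans (e2.le.trans ?_)
    have e3 : ((v : ℂ) ^ 2 / (2 * (l : ℂ))).re = v ^ 2 / (2 * l) := by
      have : ((v : ℂ) ^ 2 / (2 * (l : ℂ))) = ((v ^ 2 / (2 * l) : ℝ) : ℂ) := by push_cast; rfl
      rw [this, Complex.ofReal_re]
    rw [e3, Real.exp_add, ← mul_assoc]
    have := h7 v
    rw [Complex.ofReal_re, abs_of_nonneg hv0] at this
    gcongr
  rw [← Complex.sub_re]
  refine (Complex.re_le_norm _).trans ?_
  rw [Lap, Lap, ← integral_sub (dh_int hG hx hl _).integrableOn (dh_int hG hx hl _).integrableOn]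
  calc _ ≤ ∫ t in Set.Ioi (0 : ℝ), l1 * (sm l (dhf x) t * Real.exp (v * t)) := by
        refine norm_integral_le_of_norm_le (i9.const_mul l1).integrableOn ?_
        refine (ae_restrict_iff' measurableSet_Ioi).2 (Eventually.of_forall fun t ht => ?_)
        have ht0 : (0 : ℝ) < t := ht
        have e : (sm l (dhf x) t : ℂ) * cexp (-(-w * t)) -
            (sm l (dhf x) t : ℂ) * cexp (-((l1 - w) * t)) =
            (sm l (dhf x) t : ℂ) * (cexp (w * t) * ((1 - Real.exp (-(l1 * t)) : ℝ) : ℂ)) := by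
          have : -(((l1 : ℂ) - w) * t) = w * t + -(l1 * t) := by ring
          rw [this, Complex.exp_add]
          push_cast
          ring_nf
        rw [e, norm_mul, norm_mul, Complex.norm_real, Complex.norm_real,
          Real.norm_of_nonneg (g0 t), Complex.norm_exp, Complex.re_mul_ofReal]
        have a1 : Real.exp (-(l1 * t)) ≤ 1 := Real.exp_le_one_iff.2 (by nlinarith)
        have a2 := Real.add_one_le_exp (-(l1 * t))
        have a3 := Real.add_one_le_exp t
        rw [Real.norm_of_nonneg (by linarith), hv, add_mul, Real.exp_add, one_mul]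
        have a4 : 1 - Real.exp (-(l1 * t)) ≤ l1 * Real.exp t := by nlinarith
        have a5 := Real.exp_pos (w.re * t)
        have a6 := mul_le_mul_of_nonneg_left (mul_le_mul_of_nonneg_left a4 a5.le) (g0 t)
        linarith
    _ ≤ ∫ t : ℝ, l1 * (sm l (dhf x) t * Real.exp (v * t)) :=
        setIntegral_le_integral (i9.const_mul l1) (Eventually.of_forall fun t =>
          mul_nonneg hl1 (mul_nonneg (g0 t) (Real.exp_pos _).le))
    _ ≤ _ := by
        rw [integral_const_mul]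
        exact mul_le_mul_of_nonneg_left b1 hl1

theorem dh_low (hG : St_GS) {x l e : ℝ} (hx : 0 < x) (hl : 0 < l) (he : 0 ≤ e) (hex : e * x ≤ 1) :
    (1 - e * x) * (x ^ 2 / 2 - x / √l) ≤ (Lap (sm l (dhf x)) e).re := by
  obtain ⟨-, -, h3, -, h5, -⟩ :=
    hG l x x _ hl hx.le (dh_h_cont x) (dh_h_zero x) (dh_h_bd hx)
  have g0 : ∀ t, 0 ≤ sm l (dhf x) t := h3 fun s => le_max_right _ _
  have g1 := (h5 1 (dh_h_lip x)).2
  have i1 := dh_int hG hx hl e
  have e1 : ∀ t : ℝ, (sm l (dhf x) t : ℂ) * cexp (-(e * t)) =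
      ((sm l (dhf x) t * Real.exp (-(e * t)) : ℝ) : ℂ) := fun t => by push_cast; rfl
  have i2 : Integrable fun t : ℝ => sm l (dhf x) t * Real.exp (-(e * t)) := by
    have := i1.re
    simpa only [e1, RCLike.re_to_complex, Complex.ofReal_re] using this
  rw [Lap]
  simp only [e1]
  rw [integral_complex_ofReal, Complex.ofReal_re]
  have e2 : ∫ t in (0 : ℝ)..x, (1 - e * x) * (x - t - 1 / √l) =
      (1 - e * x) * (x ^ 2 / 2 - x / √l) := by
    rw [intervalIntegral.integral_const_mul, intervalIntegral.integral_sub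
      (by apply Continuous.intervalIntegrable; fun_prop) (by simp),
      intervalIntegral.integral_sub (by simp) (by simp)]
    simp only [intervalIntegral.integral_const, integral_id, smul_eq_mul]
    ring
  rw [← e2, intervalIntegral.integral_of_le hx.le]
  calc _ ≤ ∫ t in Set.Ioc (0 : ℝ) x, sm l (dhf x) t * Real.exp (-(e * t)) := by
        refine setIntegral_mono_on (by
          apply Continuous.integrableOn_Ioc; fun_prop) i2.integrableOn measurableSet_Ioc
          fun t ht => ?_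
        have a1 := (abs_le.1 (g1 t)).1
        have a2 : dhf x |t| = x - t := by
          rw [abs_of_pos ht.1, dhf, max_eq_left (by linarith [ht.2])]
        rw [a2] at a1
        have a3 : x - t - 1 / √l ≤ sm l (dhf x) t := by
          change _ ≤ gs l (fun s => dhf x |s|) t
          linarith
        have a4 := Real.add_one_le_exp (-(e * t))
        have a5 : e * t ≤ e * x := mul_le_mul_of_nonneg_left ht.2 he
        have a6 := g0 t
        nlinarith
    _ ≤ _ := setIntegral_mono_set i2.integrableOn (Eventually.of_forall fun t =>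
        mul_nonneg (g0 t) (Real.exp_pos _).le) Set.Ioc_subset_Ioi_self.eventuallyLE

theorem dh_zero (hX : St_LDX) {a : ℕ → ℂ} {E : ℂ → ℂ} {m c l b η T : ℝ} (hc : 0 < c) (hl : 0 < l)
    (h : LD a E m c l b η T) {z : ℂ} (h1 : z.re < c * l / 2) (h2 : 1 ≤ zo E l z) :
    E (1 - z / l) = 0 ∧ 1 - c / 2 ≤ (1 - z / l).re ∧ 0 ≤ z.re := by
  have e : (1 - z / l).re = 1 - z.re / l := by simp [Complex.div_ofReal_re]
  have k : z.re / l < c / 2 := by rw [div_lt_iff₀ hl]; linarith
  have h0 := (hX.2.2.2.1 a E m c l b η T _ hc h (by rw [e]; linarith)).2 h2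
  refine ⟨h0, by rw [e]; linarith, ?_⟩
  by_contra hn
  have : z.re / l < 0 := div_neg_of_neg_of_pos (not_le.1 hn) hl
  exact (h.ser _ (by rw [e]; linarith)).1 h0

theorem dh_fin (hX : St_LDX) {a : ℕ → ℂ} {E : ℂ → ℂ} {m c l b η T : ℝ} (hc : 0 < c) (hl : 0 < l)
    (h : LD a E m c l b η T) (H : ℝ) :
    {z : ℂ | z.re < c * l / 2 ∧ |z.im| ≤ H ∧ 1 ≤ zo E l z}.Finite := by
  have hf := hX.2.2.2.2 a E m c l b η T (1 - c / 2) (H / l) hc h (by linarith)
  refine (hf.image fun ρ : ℂ => (1 - ρ) * (l : ℂ)).subset fun z hz => ?_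
  obtain ⟨k1, k2, -⟩ := dh_zero hX hc hl h hz.1 hz.2.2
  refine ⟨1 - z / l, ⟨k2, ?_, k1⟩, ?_⟩
  · have e : (1 - z / l).im = -(z.im / l) := by simp [Complex.div_ofReal_im]
    rw [e, abs_neg, abs_div, abs_of_pos hl]
    exact div_le_div_of_nonneg_right hz.2.1 hl.le
  · have : (l : ℂ) ≠ 0 := by exact_mod_cast hl.ne'
    field_simp
    ring

theorem dh_select {P : ℂ → Prop} {l e e1 : ℝ} (he : 0 < e) (he1 : 0 < e1) (hl : 2 + e1 / e ≤ l)
    (hf : {z : ℂ | P z ∧ |z.im| ≤ l ^ 3}.Finite) (h0 : ∀ z, P z → 0 ≤ z.re) {z0 : ℂ} (p0 : P z0)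
    (i0 : |z0.im| ≤ l ^ 2) (r0 : z0.re ≤ e1 * l) :
    ∃ z, P z ∧ z.re ≤ z0.re ∧ |z.im| ≤ l ^ 3 ∧
      ∀ y, P y → (|y.im - z.im| ≤ l ∨ |y.im| ≤ l) → z.re - e ≤ y.re := by
  have hq : 0 < e1 / e := by positivity
  have hl2 : 2 ≤ l := by linarith
  have hl0 : 0 < l := by linarith
  have h23 : l ^ 2 ≤ l ^ 3 := by nlinarith [sq_nonneg l]
  obtain ⟨z, hz, hmin⟩ := Set.exists_min_image _
    (fun z : ℂ => z.re + e * max (|z.im| / l - l) 0) hf ⟨z0, p0, i0.trans h23⟩
  have pen0 : ∀ y : ℂ, |y.im| ≤ l ^ 2 → max (|y.im| / l - l) 0 = 0 := fun y hy =>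
    max_eq_right (by rw [sub_nonpos, div_le_iff₀ hl0]; nlinarith)
  have k0 := hmin z0 ⟨p0, i0.trans h23⟩
  simp only [pen0 z0 i0, mul_zero, add_zero] at k0
  have k1 : 0 ≤ e * max (|z.im| / l - l) 0 := mul_nonneg he.le (le_max_right _ _)
  have k2 : |z.im| + l ≤ l ^ 3 := by
    have a1 : e * (|z.im| / l - l) ≤ e1 * l := by
      have := mul_le_mul_of_nonneg_left (le_max_left (|z.im| / l - l) 0) he.le
      linarith [h0 z hz.1]
    have a2 : |z.im| / l - l ≤ e1 / e * l := by
      rw [div_mul_eq_mul_div, le_div_iff₀ he]; linarith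
    have a3 : |z.im| / l ≤ (l - 1) * l := by nlinarith
    rw [div_le_iff₀ hl0] at a3
    nlinarith
  refine ⟨z, hz.1, by linarith, hz.2, fun y py hy => ?_⟩
  rcases hy with hy | hy
  · have a1 : |y.im| ≤ |z.im| + l := by
      have := abs_add_le (y.im - z.im) z.im
      rw [sub_add_cancel] at this
      linarith
    have a2 := hmin y ⟨py, by linarith⟩
    have a3 : max (|y.im| / l - l) 0 ≤ max (|z.im| / l - l) 0 + 1 := by
      refine max_le ?_ (by linarith [le_max_right (|z.im| / l - l) 0])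
      have : |y.im| / l ≤ |z.im| / l + 1 := by
        rw [div_add_one hl0.ne']; gcongr
      linarith [le_max_left (|z.im| / l - l) 0]
    have := mul_le_mul_of_nonneg_left a3 he.le
    linarith
  · have a1 : |y.im| ≤ l ^ 2 := hy.trans (by nlinarith)
    have a2 := hmin y ⟨py, a1.trans h23⟩
    simp only [pen0 y a1, mul_zero, add_zero] at a2
    linarith

end Pool.Agent.Lib.PS
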