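import Mathlib

/-!
Definitions for the exceptional set of a prime plus a square.
-/

namespace Pool.Agent.Lib.PS

open Finset Real MeasureTheory Complex
open scoped NumberTheorySymbols ArithmeticFunction.Moebius ArithmeticFunction.vonMangoldt
  Classical ComplexConjugate

noncomputable section

/-! ### the model for the squares -/

def ee (x : ℝ) : ℂ := cexp (2 * π * I * x)

/-- number of square roots of `x` modulo `q` -/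
def rho (q : ℕ) (x : ℤ) : ℕ := ((range q).filter fun m : ℕ => (q : ℤ) ∣ (m : ℤ) ^ 2 - x).card

def Aq (q : ℕ) (x : ℤ) : ℤ := ∑ d ∈ q.divisors, μ (q / d) * (rho d x : ℤ)

def nu (Q : ℕ) (x : ℤ) : ℤ := ∑ q ∈ Icc 1 Q, Aq q x

def sqw (x : ℕ) : ℝ := if IsSquare x then 2 * √(x : ℝ) else 0

def gS (a : ℤ) (q : ℕ) : ℂ := ∑ m ∈ range q, ee ((a : ℝ) * (m : ℝ) ^ 2 / q)

def win (X Y t : ℕ) : Finset ℕ := Ioc t (t + 2 * Y) ∩ Ioc (X / 2) (2 * X)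

/-! ### characters as functions on the natural numbers -/

/-- completely multiplicative, bounded by one -/
def CM (χ : ℕ → ℂ) : Prop := χ 1 = 1 ∧ (∀ m n, χ (m * n) = χ m * χ n) ∧ ∀ n, ‖χ n‖ ≤ 1

def IsChar (q : ℕ) (χ : ℕ → ℂ) : Prop :=
  0 < q ∧ CM χ ∧ (∀ k, χ (k + q) = χ k) ∧ ∀ k, ¬ Nat.Coprime k q → χ k = 0

def NonPr (q : ℕ) (χ : ℕ → ℂ) : Prop := ∃ x, Nat.Coprime x q ∧ χ x ≠ 1

def RealV (χ : ℕ → ℂ) : Prop := ∀ k, (χ k).im = 0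

def chars (q : ℕ) : Finset (ℕ → ℂ) :=
  (univ : Finset (DirichletCharacter ℂ q)).image fun ψ => fun n : ℕ => ψ (n : ZMod q)

def prim (q : ℕ) : Finset (ℕ → ℂ) :=
  ((univ : Finset (DirichletCharacter ℂ q)).filter fun ψ => ψ.IsPrimitive).image
    fun ψ => fun n : ℕ => ψ (n : ZMod q)

/-- a conductor together with a character -/
abbrev XX : Type := Σ _ : ℕ, ℕ → ℂ

def PP (Q : ℕ) : Finset XX := (Icc 2 Q).sigma prim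

def tw (W : ℕ) (χ : ℕ → ℂ) : ℕ → ℂ := fun k => if Nat.Coprime k W then χ k else 0

/-- Jacobi symbol as a complex valued function -/
def jc (M : ℕ) : ℕ → ℂ := fun k => (J((k : ℤ) | M) : ℂ)

def cj (χ : ℕ → ℂ) : ℕ → ℂ := fun k => conj (χ k)

def psum (χ : ℕ → ℂ) (y : ℕ) : ℂ := ∑ k ∈ Icc 1 y, χ k

/-- power saving cancellation beyond `B` -/
def Canc (χ : ℕ → ℂ) (c B : ℝ) : Prop := ∀ y : ℕ, ‖psum χ y‖ ≤ (y : ℝ) ^ (1 - c) * B ^ c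

/-- the continuation of the Dirichlet series of `χ` by partial summation -/
def LL (χ : ℕ → ℂ) (s : ℂ) : ℂ :=
  ∑' n : ℕ, psum χ (n + 1) * (((n : ℂ) + 1) ^ (-s) - ((n : ℂ) + 2) ^ (-s))

def ord (E : ℂ → ℂ) (ρ : ℂ) : ℕ := analyticOrderNatAt E ρ

def lam (χ : ℕ → ℂ) : ℕ → ℂ := fun n => (Λ n : ℂ) * χ n

/-! ### local densities and singular series -/

def gam (r : ℕ) (χ : ℕ → ℂ) (n : ℕ) : ℂ :=
  (∑ m ∈ range r, conj (χ (n + (r - 1) * m ^ 2))) / (r.totient : ℂ)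

def fn (n k : ℕ) : ℝ :=
  if Odd k then (μ k : ℝ) * (J((n : ℤ) | k) : ℝ) / (k.totient : ℝ) else 0

def Sr (r n y : ℕ) : ℝ := ∑ d ∈ (Icc 1 y).filter (fun d => Nat.Coprime d r), fn n d

def S0 (n y : ℕ) : ℝ := ∑ d ∈ Icc 1 y, fn n d

def loc (r n : ℕ) : ℝ := ∏ p ∈ r.primeFactors, (1 + fn n p)

/-- the part of the conductor made of primes dividing `n` and not `W` -/
def Mof (n W r : ℕ) : ℕ := ∏ p ∈ r.primeFactors.filter (fun p => p ∣ n ∧ ¬ p ∣ W), p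

def Dec (n W r : ℕ) (χ : ℕ → ℂ) (q : ℕ) (ψ : ℕ → ℂ) : Prop :=
  r = Mof n W r * q ∧ Nat.Coprime (Mof n W r) q ∧ ψ ∈ prim q ∧ χ = jc (Mof n W r) * ψ

def Rel (n W R : ℕ) (x : XX) : Prop := ∃ q ψ, q ≤ R ∧ Dec n W x.1 x.2 q ψ

/-- the small part of the conductor divides `W` -/
def RelW (n W : ℕ) (x : XX) : Prop := ∃ q ψ, q ∣ W ∧ Dec n W x.1 x.2 q ψ

/-- `LL χ` has a zero with real part at least `σ` and height at most `T` -/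
def HasZ (χ : ℕ → ℂ) (σ T : ℝ) : Prop := ∃ ρ : ℂ, σ ≤ ρ.re ∧ |ρ.im| ≤ T ∧ LL χ ρ = 0

def Bad (Q W : ℕ) (T e1 : ℝ) : Finset XX := (PP Q).filter fun x => HasZ (tw W x.2) (1 - e1) T

def Good (Bd : Finset XX) (n W N0 : ℕ) (l : ℝ) : Prop :=
  ∀ S ⊆ Bd, S.card ≤ N0 → ((S.lcm fun x => Mof n W x.1 : ℕ) : ℝ) ≤ Real.exp l

/-- a family of relevant characters whose real parts have pairwise small lcm -/
def RF (n W R : ℕ) (l : ℝ) (F : Finset XX) : Prop :=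
  (∀ x ∈ F, 2 ≤ x.1 ∧ x.2 ∈ prim x.1 ∧ Rel n W R x) ∧
    ∀ x ∈ F, ∀ y ∈ F, ((Nat.lcm (Mof n W x.1) (Mof n W y.1) : ℕ) : ℝ) ≤ Real.exp l

def PR (Y0 Y1 : ℕ) : Finset ℕ := (Ico Y0 Y1).filter Nat.Prime

/-! ### analytic data -/

/-- `a` has Dirichlet series `m/(s-1) - E'/E`, with growth bounds for `E` -/
structure LD (a : ℕ → ℂ) (E : ℂ → ℂ) (m c l b η T : ℝ) : Prop where
  bd : ∀ n, ‖a n‖ ≤ Λ n
  diff : DifferentiableOn ℂ E {s | 1 - c < s.re}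
  ser : ∀ s : ℂ, 1 < s.re → E s ≠ 0 ∧ LSeries a s = (m : ℂ) / (s - 1) - deriv E s / E s
  up : ∀ s : ℂ, 1 - c / 2 ≤ s.re → s.re ≤ 2 → |s.im| ≤ T + 1 →
    ‖E s‖ ≤ Real.exp (b * l * max (1 - s.re) 0 + η * l)
  low : ∀ s : ℂ, 1 + 1 / l ≤ s.re → s.re ≤ 2 → |s.im| ≤ T + 1 → Real.exp (-(η * l)) ≤ ‖E s‖

/-- order of vanishing at the point with scaled coordinate `z = (1 - ρ) l` -/
def zo (E : ℂ → ℂ) (l : ℝ) (z : ℂ) : ℕ := ord E (1 - z / l)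

/-- test functions -/
def TF (A : ℝ) (f : ℝ → ℝ) : Prop :=
  (∀ t, 0 ≤ f t) ∧ (∀ s t, 0 ≤ s → 0 ≤ t → |f s - f t| ≤ A * |s - t|) ∧ ∀ t, A ≤ t → f t = 0

def PD (f : ℝ → ℝ) : Prop := ∀ y : ℝ, 0 ≤ ∫ t in Set.Ioi (0 : ℝ), f t * Real.cos (y * t)

def Lap (f : ℝ → ℝ) (z : ℂ) : ℂ := ∫ t in Set.Ioi (0 : ℝ), (f t : ℂ) * cexp (-(z * t))

/-- two sided transform -/
def L2 (h : ℝ → ℝ) (v : ℂ) : ℂ := ∫ s : ℝ, (h s : ℂ) * cexp (v * s)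

def gk (κ t : ℝ) : ℝ := √(κ / (2 * π)) * Real.exp (-(κ * t ^ 2 / 2))

def gs (κ : ℝ) (h : ℝ → ℝ) (t : ℝ) : ℝ := ∫ s : ℝ, h s * gk κ (t - s)

def Psi (κ : ℝ) (h : ℝ → ℝ) (v : ℂ) : ℂ := L2 h v * cexp (v ^ 2 / (2 * κ))

def sm (κ : ℝ) (f : ℝ → ℝ) : ℝ → ℝ := gs κ fun s => f |s|

def tri (α K t : ℝ) : ℝ := max (K - |t - α - K|) 0 / K ^ 2

def hs (κ α K : ℝ) : ℝ → ℝ := gs κ (tri α K)

def gK (K : ℝ) (z : ℂ) : ℂ := ∫ t in (0 : ℝ)..K, cexp (-(z * t))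

def HH (α K : ℝ) (z : ℂ) : ℂ := cexp (-(α * z)) * gK K z ^ 2 / (K : ℂ) ^ 2

def Hs (κ α K : ℝ) (z : ℂ) : ℂ := HH α K z * cexp (z ^ 2 / (2 * κ))

/-- the weighted sum over prime powers; `w = λ - iμ` is level and height -/
def Ks (a : ℕ → ℂ) (f : ℝ → ℝ) (l : ℝ) (w : ℂ) : ℂ :=
  (∑' n : ℕ, a n / n * (f (Real.log n / l) : ℂ) * cexp (w * ((Real.log n / l : ℝ) : ℂ))) / l

def psiT (χ : ℕ → ℂ) (l cg α K : ℝ) : ℂ := Ks (lam χ) (hs (l / cg) α K) l 0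

def ap (l cg α K : ℝ) (p : ℕ) : ℝ := Real.log p / p * hs (l / cg) α K (Real.log p / l)

def Ylo (α η l : ℝ) : ℕ := ⌈Real.exp ((α - η) * l)⌉₊

def Yhi (α K η l : ℝ) : ℕ := ⌊Real.exp ((α + 2 * K + η) * l)⌋₊

def psiP (χ : ℕ → ℂ) (l cg α K η : ℝ) : ℂ :=
  ∑ p ∈ PR (Ylo α η l) (Yhi α K η l), (ap l cg α K p : ℂ) * χ p

/-! ### density data -/

structure DD where
  u : ℝ
  v : ℝ
  w : ℝ
  x : ℝ
  p : ℝ → ℝ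
  G : ℝ → ℝ

structure DD.Valid (D : DD) : Prop where
  w_pos : 0 < D.w
  u_pos : 0 < D.u
  uv : D.u < D.v
  vx : D.v < D.x
  p_cont : ContinuousOn D.p (Set.Icc D.u D.v)
  p_int : ∫ s in D.u..D.v, D.p s = 1
  G_lip : ∃ L : ℝ, ∀ s ∈ Set.Icc D.u D.x, ∀ t ∈ Set.Icc D.u D.x, |D.G s - D.G t| ≤ L * |s - t|
  G_pos : ∀ t ∈ Set.Icc D.u D.x, 0 < D.G t

def DD.V (D : DD) : ℝ := ∫ t in D.u..D.x, (∫ s in D.u..(min t D.v), D.p s ^ 2) / D.G t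

def DD.Dn (D : DD) (y lm : ℝ) : ℝ := ∫ t in D.u..y, D.G t * Real.exp (2 * lm * t)

/-- the integers in `(exp (u l), exp (y l)]` -/
def seg (u y l : ℝ) : Finset ℕ := Ioc ⌊Real.exp (u * l)⌋₊ ⌊Real.exp (y * l)⌋₊

def dsum (θ : ℕ → ℝ) (n : ℕ) : ℝ := ∑ d ∈ n.divisors, θ d

/-- Dirichlet series of the Green and Tao computation -/
def PhiG (z1 z2 z3 : ℂ) : ℂ :=
  ∑' n : ℕ, (∑ d ∈ (n + 1).divisors, (μ d : ℂ) * (d : ℂ) ^ (-z1)) *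
    (∑ d ∈ (n + 1).divisors, (μ d : ℂ) * (d : ℂ) ^ (-z2)) * ((n : ℂ) + 1) ^ (-(1 + z3))

/-! ### the finite model consumed by the numerical part -/

structure MD (Γ Ω ι : Type) where
  ev : Γ → Ω → ℂ
  t : Ω → ℝ
  w : Ω → ℝ
  S : Γ → Finset ι
  U : Finset ι
  wt : ι → ℝ
  Z : Γ → Multiset ℂ
  P : Γ → ℝ
  H1 : ℝ
  N : ℕ

def MD.d {Γ Ω ι : Type} (M : MD Γ Ω ι) (g : Γ) : ℝ := ∑ i ∈ M.S g, M.wt i

def MD.K {Γ Ω ι : Type} [Fintype Ω] (M : MD Γ Ω ι) (f : ℝ → ℝ) (v : ℂ) (g : Γ) : ℂ :=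
  ∑ ω, (M.w ω : ℂ) * (f (M.t ω) : ℂ) * cexp (v * (M.t ω : ℂ)) * M.ev g ω

structure MD.Ok {Γ Ω ι : Type} [CommGroup Γ] [Fintype Γ] [Fintype Ω] (M : MD Γ Ω ι)
    (α K A : ℝ) (DS : List DD) (lam0 Λm : ℝ) (N0 : ℕ) (ε : ℝ) : Prop where
  ev_mul : ∀ g h ω, M.ev (g * h) ω = M.ev g ω * M.ev h ω
  ev_norm : ∀ g ω, ‖M.ev g ω‖ = 1
  w_nonneg : ∀ ω, 0 ≤ M.w ω
  t_mem : ∀ ω, 0 ≤ M.t ω ∧ M.t ω ≤ A
  S_mul : ∀ g h, M.S (g * h) = symmDiff (M.S g) (M.S h)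
  S_sub : ∀ g, M.S g ⊆ M.U
  wt_nonneg : ∀ i, 0 ≤ M.wt i
  wt_sum : ∑ i ∈ M.U, M.wt i ≤ 1
  H1_nonneg : 0 ≤ M.H1
  Z_one : M.Z 1 = 0
  Z_inv : ∀ g, M.Z g⁻¹ = (M.Z g).map conj
  Z_re : ∀ g, ∀ z ∈ M.Z g, lam0 ≤ z.re
  Z_card : (univ.filter fun g => M.Z g ≠ 0).card ≤ N0
  Z_low : ∀ g, M.Z g ≠ 0 → ∃ z ∈ M.Z g, z.re ≤ Λm
  mert : ∀ u : ℝ → ℝ, TF A u → ∑ ω, M.w ω * u (M.t ω) ≤ (∫ t in Set.Ioi (0 : ℝ), u t) + ε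
  kax : ∀ (f : ℝ → ℝ) (lm mu : ℝ) (g : Γ) (D : Multiset ℂ), TF A f → PD f → -1 ≤ lm →
    lm + ε ≤ Λm → |mu| ≤ 4 * M.H1 → D ≤ M.Z g → D.card ≤ M.N + 3 →
    (∀ z ∈ M.Z g - D, lm + ε ≤ z.re) →
    (M.K f (lm - mu * I) g).re ≤ (if g = 1 then (Lap f (-(lm - mu * I))).re else 0)
      - (D.map fun z => (Lap f (z - (lm - mu * I))).re).sum + M.d g * f 0 / 8 + ε
  box : ∀ (g : Γ) (k : ℕ) (x : ℝ), k ≤ 3 → x ≤ Λm →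
    k ≤ ((M.Z g).filter fun z => z.re ≤ x).card →
    k ≤ ((M.Z g).filter fun z => z.re ≤ x + ε ∧ |z.im| ≤ M.H1).card
  psi : ∀ g, M.Z g ≠ 0 → ∃ Y ≤ M.Z g, Y.card ≤ M.N ∧
    M.P g ≤ (Y.map fun z => ‖HH α K z‖).sum + ε
  dens : ∀ D ∈ DS, ∀ (J : Finset Γ) (z : Γ → ℂ) (y : Γ → ℝ),
    (∀ g ∈ J, z g ∈ M.Z g ∧ D.v + D.w + M.d g / 4 + ε ≤ y g ∧ y g ≤ D.x) →
    ∑ g ∈ J, 1 / D.Dn (y g) (z g).re ≤ (1 + ε) * D.V / D.w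

end

end Pool.Agent.Lib.PS
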