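import Pool.Agent.Lib.PS.Blue

/-!
Local factorisation of a holomorphic function: zeros, Blaschke numerators, circle averages.
-/

namespace Pool.Agent.Lib.PS

open Finset Real MeasureTheory Complex Filter Topology Metric
open scoped Classical ComplexConjugate

noncomputable section

/-- the polynomial with zero multiset `Z` -/
def factP (Z : Multiset ℂ) (v : ℂ) : ℂ := (Z.map fun u => v - u).prod

/-- the reflected polynomial -/
def factQ (r : ℝ) (Z : Multiset ℂ) (v : ℂ) : ℂ :=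
  (Z.map fun u => ((r : ℂ) ^ 2 - conj u * v) / r).prod

lemma factP_cons (u : ℂ) (Z : Multiset ℂ) (v : ℂ) : factP (u ::ₘ Z) v = (v - u) * factP Z v := by
  simp [factP]

lemma factP_add (Z W : Multiset ℂ) (v : ℂ) : factP (Z + W) v = factP Z v * factP W v := by
  simp [factP]

lemma factQ_cons (r : ℝ) (u : ℂ) (Z : Multiset ℂ) (v : ℂ) :
    factQ r (u ::ₘ Z) v = ((r : ℂ) ^ 2 - conj u * v) / r * factQ r Z v := by
  simp [factQ]

lemma factP_diff (Z : Multiset ℂ) : Differentiable ℂ (factP Z) := by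
  induction Z using Multiset.induction_on with
  | empty => 
    have : factP 0 = fun _ => 1 := by funext v; simp [factP]
    rw [this]; fun_prop
  | cons u Z ih =>
    have : factP (u ::ₘ Z) = fun v => (v - u) * factP Z v := by funext v; exact factP_cons u Z v
    rw [this]; fun_prop

lemma factQ_diff (r : ℝ) (Z : Multiset ℂ) : Differentiable ℂ (factQ r Z) := by
  induction Z using Multiset.induction_on with
  | empty => 
    have : factQ r 0 = fun _ => 1 := by funext v; simp [factQ]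
    rw [this]; fun_prop
  | cons u Z ih =>
    have : factQ r (u ::ₘ Z) = fun v => ((r : ℂ) ^ 2 - conj u * v) / r * factQ r Z v := by
      funext v; exact factQ_cons r u Z v
    rw [this]; fun_prop

lemma factP_ne {Z : Multiset ℂ} {v : ℂ} (h : v ∉ Z) : factP Z v ≠ 0 := by
  unfold factP
  apply Multiset.prod_ne_zero
  intro h0
  obtain ⟨u, hu, hu0⟩ := Multiset.mem_map.1 h0
  have : v = u := sub_eq_zero.1 hu0
  exact h (this ▸ hu)

lemma factP_eq_zero {Z : Multiset ℂ} {v : ℂ} (h : v ∈ Z) : factP Z v = 0 := by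
  unfold factP
  exact Multiset.prod_eq_zero (Multiset.mem_map.2 ⟨v, h, sub_self v⟩)

lemma fact_den_ge {r : ℝ} {u v : ℂ} (hu : ‖u‖ ≤ r) :
    r ^ 2 - r * ‖v‖ ≤ ‖(r : ℂ) ^ 2 - conj u * v‖ := by
  have h1 : ‖(r : ℂ) ^ 2‖ = r ^ 2 := by simp
  have h2 : ‖conj u * v‖ ≤ r * ‖v‖ := by
    rw [norm_mul, Complex.norm_conj]; exact mul_le_mul_of_nonneg_right hu (norm_nonneg _)
  have := norm_sub_norm_le ((r : ℂ) ^ 2) (conj u * v)
  linarith

lemma fact_den_ne {r : ℝ} (hr : 0 < r) {u v : ℂ} (hu : ‖u‖ < r) (hv : ‖v‖ ≤ r) :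
    (r : ℂ) ^ 2 - conj u * v ≠ 0 := by
  intro h
  have h1 : ‖(r : ℂ) ^ 2‖ = ‖conj u * v‖ := by rw [sub_eq_zero.1 h]
  rw [norm_mul, Complex.norm_conj] at h1
  have h2 : ‖(r : ℂ) ^ 2‖ = r ^ 2 := by simp
  have h3 : ‖u‖ * ‖v‖ ≤ ‖u‖ * r := mul_le_mul_of_nonneg_left hv (norm_nonneg _)
  nlinarith

lemma factQ_ne {r : ℝ} (hr : 0 < r) {Z : Multiset ℂ} (hZ : ∀ u ∈ Z, ‖u‖ < r) {v : ℂ}
    (hv : ‖v‖ ≤ r) : factQ r Z v ≠ 0 := by
  unfold factQ
  apply Multiset.prod_ne_zero
  intro h0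
  obtain ⟨u, hu, hu0⟩ := Multiset.mem_map.1 h0
  have hr' : (r : ℂ) ≠ 0 := by exact_mod_cast hr.ne'
  exact div_ne_zero (fact_den_ne hr (hZ u hu) hv) hr' hu0

lemma factQ_circle {r : ℝ} (hr : 0 < r) (Z : Multiset ℂ) {v : ℂ} (hv : ‖v‖ = r) :
    ‖factQ r Z v‖ = ‖factP Z v‖ := by
  induction Z using Multiset.induction_on with
  | empty => simp [factP, factQ]
  | cons u Z ih =>
    rw [factP_cons, factQ_cons, norm_mul, norm_mul, ih]
    congr 1
    have h1 : (r : ℂ) ^ 2 = conj v * v := by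
      rw [Complex.conj_mul', hv]
    have h2 : (r : ℂ) ^ 2 - conj u * v = conj (v - u) * v := by rw [h1, map_sub]; ring
    rw [h2, norm_div, norm_mul, Complex.norm_conj, hv, Complex.norm_real, Real.norm_eq_abs,
      abs_of_pos hr]
    field_simp

lemma factQ_zero {r : ℝ} (hr : 0 < r) (Z : Multiset ℂ) : ‖factQ r Z 0‖ = r ^ Z.card := by
  induction Z using Multiset.induction_on with
  | empty => simp [factQ]
  | cons u Z ih =>
    rw [factQ_cons, norm_mul, ih, Multiset.card_cons]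
    simp only [mul_zero, sub_zero, norm_div, norm_pow, Complex.norm_real, Real.norm_eq_abs,
      abs_of_pos hr]
    field_simp
    ring

lemma factP_zero_le {t : ℝ} (ht : 0 ≤ t) (Z : Multiset ℂ) (hZ : ∀ u ∈ Z, ‖u‖ ≤ t) :
    ‖factP Z 0‖ ≤ t ^ Z.card := by
  induction Z using Multiset.induction_on with
  | empty => simp [factP]
  | cons u Z ih =>
    rw [factP_cons, norm_mul, Multiset.card_cons, pow_succ, mul_comm (t ^ _)]
    have h1 := hZ u (Multiset.mem_cons_self _ _)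
    have h2 := ih fun w hw => hZ w (Multiset.mem_cons_of_mem hw)
    apply mul_le_mul _ h2 (norm_nonneg _) ht
    simpa using h1

/-- maximum principle for the Blaschke quotient -/
lemma fact_max {F f : ℂ → ℂ} {c r M : ℝ} (hr : 0 < r) (hrc : r < c) {Z : Multiset ℂ}
    (hf : DifferentiableOn ℂ f (ball 0 c)) (hF : ∀ v ∈ ball (0 : ℂ) c, F v = factP Z v * f v)
    (hM : ∀ v : ℂ, ‖v‖ = r → ‖F v‖ ≤ M) {v : ℂ} (hv : ‖v‖ ≤ r) :
    ‖factQ r Z v * f v‖ ≤ M := by
  have hsub : closedBall (0 : ℂ) r ⊆ ball 0 c := closedBall_subset_ball hrc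
  have hd : DiffContOnCl ℂ (fun v => factQ r Z v * f v) (ball 0 r) := by
    apply DifferentiableOn.diffContOnCl_ball (U := ball 0 c) _ hsub
    exact (factQ_diff r Z).differentiableOn.mul hf
  apply Complex.norm_le_of_forall_mem_frontier_norm_le isBounded_ball hd
  · intro z hz
    rw [frontier_ball _ hr.ne'] at hz
    have hz' : ‖z‖ = r := by simpa using hz
    have := hM z hz'
    rw [hF z (by simp [hz', hrc]), norm_mul] at this
    rw [norm_mul, factQ_circle hr Z hz']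
    exact this
  · rw [closure_ball _ hr.ne']; simpa using hv

lemma fact_card {F f : ℂ → ℂ} {c M : ℝ} (hc : 0 < c) {Z : Multiset ℂ}
    (hf : DifferentiableOn ℂ f (ball 0 c)) (hF : ∀ v ∈ ball (0 : ℂ) c, F v = factP Z v * f v)
    (hM : ∀ v : ℂ, ‖v‖ = c / 2 → ‖F v‖ ≤ M) (hZ : ∀ u ∈ Z, ‖u‖ ≤ c / 4) :
    2 ^ Z.card * ‖F 0‖ ≤ M := by
  have h1 := fact_max (r := c / 2) (by positivity) (by linarith) hf hF hM (v := 0)
    (by simp; positivity)
  rw [norm_mul, factQ_zero (by positivity)] at h1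
  have h2 := factP_zero_le (t := c / 4) (by positivity) Z hZ
  rw [hF 0 (by simp [hc]), norm_mul]
  calc 2 ^ Z.card * (‖factP Z 0‖ * ‖f 0‖) ≤ 2 ^ Z.card * ((c / 4) ^ Z.card * ‖f 0‖) := by gcongr
    _ = (c / 2) ^ Z.card * ‖f 0‖ := by
      rw [← mul_assoc, ← mul_pow]; congr 2; ring
    _ ≤ M := h1

/-- all zeros in the closed disc of radius `c/4` can be divided out -/
lemma fact_exists0 {F : ℂ → ℂ} {c M : ℝ} (hc : 0 < c) (hF : DifferentiableOn ℂ F (ball 0 c))
    (h0 : F 0 ≠ 0) (hM : ∀ v : ℂ, ‖v‖ = c / 2 → ‖F v‖ ≤ M) :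
    ∃ (Z : Multiset ℂ) (f : ℂ → ℂ), DifferentiableOn ℂ f (ball 0 c) ∧
      (∀ v ∈ ball (0 : ℂ) c, F v = factP Z v * f v) ∧ (∀ u ∈ Z, ‖u‖ ≤ c / 4) ∧
      ∀ v : ℂ, ‖v‖ ≤ c / 4 → f v ≠ 0 := by
  let P : ℕ → Prop := fun n => ∃ (Z : Multiset ℂ) (f : ℂ → ℂ), Z.card = n ∧
    DifferentiableOn ℂ f (ball 0 c) ∧
      (∀ v ∈ ball (0 : ℂ) c, F v = factP Z v * f v) ∧ (∀ u ∈ Z, ‖u‖ ≤ c / 4)
  have hpos : 0 < ‖F 0‖ := norm_pos_iff.2 h0
  obtain ⟨N, hN⟩ := exists_nat_gt (M / ‖F 0‖)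
  have hb : ∀ n, P n → n ≤ N := by
    rintro n ⟨Z, f, rfl, hf, hZF, hZ⟩
    have h1 := fact_card hc hf hZF hM hZ
    have h2 : (Z.card : ℝ) ≤ 2 ^ Z.card := by exact_mod_cast Nat.lt_two_pow_self.le
    have h3 : (2 : ℝ) ^ Z.card ≤ M / ‖F 0‖ := by rw [le_div_iff₀ hpos]; exact h1
    exact_mod_cast (h2.trans (h3.trans hN.le))
  have hP0 : P 0 := ⟨0, F, rfl, hF, fun v _ => by simp [factP], by simp⟩
  have hmax := Nat.findGreatest_spec (P := P) (Nat.zero_le N) hP0
  obtain ⟨Z, f, hcard, hf, hZF, hZ⟩ := hmax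
  refine ⟨Z, f, hf, hZF, hZ, fun u hu hu0 => ?_⟩
  have hmem : u ∈ ball (0 : ℂ) c := by simp; linarith
  have hP1 : P (Z.card + 1) := by
    refine ⟨u ::ₘ Z, dslope f u, by simp, ?_, fun v hv => ?_, ?_⟩
    · exact (Complex.differentiableOn_dslope (isOpen_ball.mem_nhds hmem)).2 hf
    · have := sub_smul_dslope f u v
      rw [hu0, sub_zero, smul_eq_mul] at this
      rw [hZF v hv, factP_cons, ← this]; ring
    · intro w hw
      rcases Multiset.mem_cons.1 hw with rfl | hw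
      · exact hu
      · exact hZ w hw
  have := Nat.le_findGreatest (hb _ hP1) hP1
  omega

lemma fact_exists {F : ℂ → ℂ} {c M : ℝ} (hc : 0 < c) (hF : DifferentiableOn ℂ F (ball 0 c))
    (h0 : F 0 ≠ 0) (hM : ∀ v : ℂ, ‖v‖ = c / 2 → ‖F v‖ ≤ M) :
    ∃ (R : ℝ) (Z : Multiset ℂ) (f : ℂ → ℂ), c / 8 ≤ R ∧ R ≤ c / 4 ∧
      DifferentiableOn ℂ f (ball 0 c) ∧
      (∀ v ∈ ball (0 : ℂ) c, F v = factP Z v * f v) ∧ (∀ u ∈ Z, ‖u‖ < R) ∧
      ∀ v : ℂ, ‖v‖ ≤ R → f v ≠ 0 := by
  obtain ⟨Z, f, hf, hZF, hZ, hne⟩ := fact_exists0 hc hF h0 hM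
  have hinf : (Set.Icc (c / 8) (c / 4)).Infinite := Set.Icc_infinite (by linarith)
  obtain ⟨R, hR, hRZ⟩ := hinf.exists_notMem_finset (Z.map fun u => ‖u‖).toFinset
  refine ⟨R, Z.filter (fun u => ‖u‖ < R), fun v => factP (Z.filter fun u => ¬ ‖u‖ < R) v * f v,
    hR.1, hR.2, (factP_diff _).differentiableOn.mul hf, fun v hv => ?_, fun u hu => ?_,
    fun v hv => ?_⟩
  · rw [hZF v hv, ← mul_assoc, ← factP_add, Multiset.filter_add_not]
  · exact (Multiset.mem_filter.1 hu).2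
  · apply mul_ne_zero _ (hne v (hv.trans hR.2))
    apply factP_ne
    intro hm
    obtain ⟨h1, h2⟩ := Multiset.mem_filter.1 hm
    have h3 : ‖v‖ = R := le_antisymm hv (not_lt.1 h2)
    apply hRZ
    simp only [Multiset.mem_toFinset, Multiset.mem_map]
    exact ⟨v, h1, h3⟩

lemma factP_logDeriv {Z : Multiset ℂ} {v : ℂ} (h : v ∉ Z) :
    deriv (factP Z) v / factP Z v = (Z.map fun u => 1 / (v - u)).sum := by
  induction Z using Multiset.induction_on with
  | empty =>
    have : factP 0 = fun _ => 1 := by funext v; simp [factP]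
    rw [this]; simp
  | cons u Z ih =>
    have e : factP (u ::ₘ Z) = fun v => (v - u) * factP Z v := by funext v; exact factP_cons u Z v
    have h1 : v ≠ u := fun h' => h (h' ▸ Multiset.mem_cons_self _ _)
    have h2 : v ∉ Z := fun h' => h (Multiset.mem_cons_of_mem h')
    have hd : HasDerivAt (fun v => (v - u) * factP Z v)
        (1 * factP Z v + (v - u) * deriv (factP Z) v) v :=
      ((hasDerivAt_id v).sub_const u).mul (factP_diff Z v).hasDerivAt
    rw [e, hd.deriv, Multiset.map_cons, Multiset.sum_cons, ← ih h2]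
    have := factP_ne h2
    have := sub_ne_zero.2 h1
    field_simp

lemma factQ_logDeriv {r : ℝ} (hr : 0 < r) {Z : Multiset ℂ} (hZ : ∀ u ∈ Z, ‖u‖ < r) {v : ℂ}
    (hv : ‖v‖ ≤ r) : deriv (factQ r Z) v / factQ r Z v =
      -(Z.map fun u => conj u / ((r : ℂ) ^ 2 - conj u * v)).sum := by
  induction Z using Multiset.induction_on with
  | empty =>
    have : factQ r 0 = fun _ => 1 := by funext v; simp [factQ]
    rw [this]; simp
  | cons u Z ih =>
    have e : factQ r (u ::ₘ Z) = fun v => ((r : ℂ) ^ 2 - conj u * v) / r * factQ r Z v := by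
      funext v; exact factQ_cons r u Z v
    have hZ' : ∀ w ∈ Z, ‖w‖ < r := fun w hw => hZ w (Multiset.mem_cons_of_mem hw)
    have h1 := fact_den_ne hr (hZ u (Multiset.mem_cons_self _ _)) hv
    have hd : HasDerivAt (fun v => ((r : ℂ) ^ 2 - conj u * v) / r * factQ r Z v)
        (-(conj u * 1) / r * factQ r Z v
          + ((r : ℂ) ^ 2 - conj u * v) / r * deriv (factQ r Z) v) v :=
      ((((hasDerivAt_id v).const_mul (conj u)).const_sub _).div_const _).mul
        (factQ_diff r Z v).hasDerivAt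
    have ih' := ih hZ'
    rw [e, hd.deriv, Multiset.map_cons, Multiset.sum_cons, neg_add, ← ih']
    have := factQ_ne hr hZ' hv
    have hr' : (r : ℂ) ≠ 0 := by exact_mod_cast hr.ne'
    field_simp

/-- order of vanishing -/
lemma fact_ord {E f : ℂ → ℂ} {s0 : ℂ} {c : ℝ} {Z : Multiset ℂ}
    (hf : DifferentiableOn ℂ f (ball 0 c))
    (hF : ∀ v ∈ ball (0 : ℂ) c, E (s0 + v) = factP Z v * f v) {u : ℂ} (hu : ‖u‖ < c)
    (hne : f u ≠ 0) : ord E (s0 + u) = Z.count u := by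
  have hmem : u ∈ ball (0 : ℂ) c := by simpa using hu
  have hfa : AnalyticAt ℂ f u := hf.analyticAt (isOpen_ball.mem_nhds hmem)
  set W := Z.filter (fun w => ¬ u = w) with hW
  have hsplit : Z = Multiset.replicate (Z.count u) u + W := by
    rw [hW, ← Multiset.filter_eq]; exact (Multiset.filter_add_not _ _).symm
  have hP : ∀ v, factP Z v = (v - u) ^ (Z.count u) * factP W v := by
    intro v
    conv_lhs => rw [hsplit]
    rw [factP_add]; simp [factP]
  have huW : u ∉ W := by rw [hW]; simp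
  have hsub : AnalyticAt ℂ (fun z : ℂ => z - s0) (s0 + u) := by fun_prop
  have hg : AnalyticAt ℂ (fun z => factP W (z - s0) * f (z - s0)) (s0 + u) := by
    have h1 : AnalyticAt ℂ (fun v => factP W v * f v) u :=
      ((factP_diff W).analyticAt u).mul hfa
    exact AnalyticAt.comp_of_eq (g := fun v => factP W v * f v) h1 hsub (by simp)
  have hev : ∀ᶠ z in 𝓝 (s0 + u), E z =
      (z - (s0 + u)) ^ (Z.count u) • (factP W (z - s0) * f (z - s0)) := by
    have hc : ContinuousAt (fun z : ℂ => z - s0) (s0 + u) := by fun_prop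
    have := hc.preimage_mem_nhds (t := ball (0 : ℂ) c) (by
      simpa using isOpen_ball.mem_nhds hmem)
    filter_upwards [this] with z hz
    have h2 := hF (z - s0) hz
    rw [add_sub_cancel] at h2
    rw [h2, hP, smul_eq_mul, mul_assoc]
    congr 2; ring
  have hE : AnalyticAt ℂ E (s0 + u) := by
    have : AnalyticAt ℂ (fun z => (z - (s0 + u)) ^ (Z.count u) •
        (factP W (z - s0) * f (z - s0))) (s0 + u) := by
      have h1 : AnalyticAt ℂ (fun z : ℂ => (z - (s0 + u)) ^ (Z.count u)) (s0 + u) := by fun_prop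
      exact h1.smul hg
    exact this.congr (hev.mono fun z hz => hz.symm)
  have := (hE.analyticOrderAt_eq_natCast (n := Z.count u)).2
    ⟨_, hg, by simpa using ⟨factP_ne huW, hne⟩, hev⟩
  unfold ord analyticOrderNatAt
  rw [this]; simp

end

end Pool.Agent.Lib.PS
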