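import Pool.Agent.Lib.PS.FACT1

/-!
Logarithm of a zero free function on a disc, crude and sharp bounds for its derivative.
-/

namespace Pool.Agent.Lib.PS

open Finset Real MeasureTheory Complex Filter Topology Metric
open scoped Classical ComplexConjugate

noncomputable section

lemma fact_log {g : ℂ → ℂ} {c R : ℝ} (hR : 0 < R) (hRc : R < c)
    (hg : DifferentiableOn ℂ g (ball 0 c)) (hne : ∀ v : ℂ, ‖v‖ ≤ R → g v ≠ 0) :
    ∃ (R' : ℝ) (h : ℂ → ℂ), R < R' ∧ (∀ v ∈ ball (0 : ℂ) R', HasDerivAt h (deriv g v / g v) v) ∧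
      ∀ v ∈ ball (0 : ℂ) R', (h v).re = Real.log ‖g v‖ := by
  have hU : IsOpen (ball (0 : ℂ) c ∩ g ⁻¹' {0}ᶜ) :=
    hg.continuousOn.isOpen_inter_preimage isOpen_ball isOpen_compl_singleton
  have hsub : closedBall (0 : ℂ) R ⊆ ball (0 : ℂ) c ∩ g ⁻¹' {0}ᶜ := by
    intro v hv
    have hv' : ‖v‖ ≤ R := by simpa using hv
    exact ⟨by simp; linarith, by simpa using hne v hv'⟩
  obtain ⟨e, he, hth⟩ := (isCompact_closedBall (0 : ℂ) R).exists_thickening_subset_open hU hsub
  rw [thickening_closedBall he hR.le] at hth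
  have hgd : DifferentiableOn ℂ g (ball 0 (e + R)) := hg.mono fun v hv => (hth hv).1
  have hg0 : ∀ v ∈ ball (0 : ℂ) (e + R), g v ≠ 0 := fun v hv => by simpa using (hth hv).2
  have hk : DifferentiableOn ℂ (fun v => deriv g v / g v) (ball 0 (e + R)) :=
    (hgd.deriv isOpen_ball).div hgd hg0
  obtain ⟨h, hh0, hh⟩ := hk.isExactOn_ball.with_val_at 0 (Complex.log (g 0))
  refine ⟨e + R, h, by linarith, hh, fun v hv => ?_⟩
  have hφ : ∀ v ∈ ball (0 : ℂ) (e + R), HasDerivAt (fun v => g v * cexp (-h v)) 0 v := by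
    intro v hv
    have h1 := (hgd.differentiableAt (isOpen_ball.mem_nhds hv)).hasDerivAt
    have h2 := h1.mul (hh v hv).neg.cexp
    have e : deriv g v * cexp (-h v) + g v * (cexp (-h v) * -(deriv g v / g v)) = 0 := by
      have := hg0 v hv
      field_simp
      ring
    exact h2.congr_deriv e
  have h0mem : (0 : ℂ) ∈ ball (0 : ℂ) (e + R) := mem_ball_self (by linarith)
  have hc := isOpen_ball.is_const_of_deriv_eq_zero (convex_ball (0 : ℂ) (e + R)).isPreconnected
    (fun v hv => (hφ v hv).differentiableAt.differentiableWithinAt)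
    (fun v hv => (hφ v hv).deriv) hv h0mem
  have h00 := hg0 0 h0mem
  rw [hh0, Complex.exp_neg, Complex.exp_neg, Complex.exp_log h00, mul_inv_cancel₀ h00] at hc
  have h3 : g v = cexp (h v) := by
    have := Complex.exp_ne_zero (h v)
    field_simp at hc
    exact hc
  rw [h3, Complex.norm_exp, Real.log_exp]

/-- crude bounds -/
lemma fact_crude {h k : ℂ → ℂ} {R M : ℝ} (hR : 0 < R) (hM : 0 < M)
    (hh : ∀ v ∈ ball (0 : ℂ) R, HasDerivAt h (k v) v)
    (hre : ∀ v ∈ ball (0 : ℂ) R, (h v).re - (h 0).re ≤ M) :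
    (∀ v ∈ ball (0 : ℂ) (R / 2), ‖k v‖ ≤ 24 * M / R) ∧
      ∀ v ∈ ball (0 : ℂ) (R / 2), ‖k v - k 0‖ ≤ 96 * M / R ^ 2 * ‖v‖ := by
  have hd : DifferentiableOn ℂ h (ball 0 R) := fun v hv =>
    (hh v hv).differentiableAt.differentiableWithinAt
  have hd1 : DifferentiableOn ℂ (fun v => h v - h 0) (ball 0 R) := hd.sub_const _
  have hb : ∀ z : ℂ, ‖z‖ ≤ 3 * R / 4 → ‖h z - h 0‖ ≤ 6 * M := by
    intro z hz
    have hz' : z ∈ ball (0 : ℂ) R := by simp; linarith
    have := Complex.borelCaratheodory_zero hM hd1 (fun v hv => by simpa using hre v hv) hR hz'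
      (by simp)
    refine this.trans ?_
    rw [div_le_iff₀ (by linarith)]
    nlinarith [norm_nonneg z]
  have h1 : ∀ v ∈ ball (0 : ℂ) (R / 2), ‖k v‖ ≤ 24 * M / R := by
    intro v hv
    have hv' : ‖v‖ < R / 2 := by simpa using hv
    have hsub : closedBall v (R / 4) ⊆ ball 0 R := by
      intro z hz
      have : ‖z - v‖ ≤ R / 4 := by simpa [dist_eq_norm] using hz
      have := norm_le_norm_sub_add z v
      simp; linarith
    have := Complex.norm_deriv_le_of_forall_mem_sphere_norm_le (f := fun v => h v - h 0)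
      (c := v) (R := R / 4) (C := 6 * M) (by positivity) (hd1.diffContOnCl_ball hsub) (by
        intro z hz
        have : ‖z - v‖ = R / 4 := by simpa [dist_eq_norm] using hz
        have := norm_le_norm_sub_add z v
        exact hb z (by linarith))
    rw [((hh v (by simp; linarith)).sub_const (h 0)).deriv] at this
    refine this.trans_eq ?_
    field_simp; ring
  refine ⟨h1, fun v hv => ?_⟩
  have hkd : DifferentiableOn ℂ k (ball 0 (R / 2)) := by
    have : DifferentiableOn ℂ (deriv h) (ball 0 R) := hd.deriv isOpen_ball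
    apply (this.mono (ball_subset_ball (by linarith))).congr
    intro z hz
    exact (hh z (ball_subset_ball (by linarith) hz)).deriv.symm
  have := Complex.dist_le_div_mul_dist_of_mapsTo_ball (c := 0) (R₂ := 48 * M / R) hkd (by
    intro z hz
    have a1 := h1 z hz
    have a2 := h1 0 (mem_ball_self (by positivity))
    rw [mem_closedBall, dist_eq_norm]
    have := norm_sub_le (k z) (k 0)
    have e : 48 * M / R = 24 * M / R + 24 * M / R := by ring
    linarith) hv
  rw [dist_eq_norm, dist_zero_right] at this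
  refine this.trans_eq ?_
  field_simp; ring

lemma fact_avg_re {k : ℂ → ℂ} {R R' : ℝ} (hR : 0 < R) (hRR : R < R')
    (hk : DifferentiableOn ℂ k (ball 0 R')) :
    circleAverage (fun z => (k z).re) 0 R = (k 0).re ∧
      CircleIntegrable (fun z => (k z).re) 0 R := by
  have hsub : closedBall (0 : ℂ) |R| ⊆ ball 0 R' := by
    rw [abs_of_pos hR]; exact closedBall_subset_ball hRR
  have hc : ContinuousOn k (sphere 0 |R|) :=
    hk.continuousOn.mono (sphere_subset_closedBall.trans hsub)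
  have h1 := (hk.diffContOnCl_ball hsub).circleAverage
  have h2 := Complex.reCLM.circleAverage_comp_comm hc.circleIntegrable'
  rw [h1] at h2
  exact ⟨h2, (Complex.continuous_re.comp_continuousOn hc).circleIntegrable'⟩

lemma fact_avg_sq {R : ℝ} (hR : 0 < R) :
    circleAverage (fun z : ℂ => (max (-z.re) 0) ^ 2) 0 R = R ^ 2 / 4 := by
  have c1 : Continuous fun z : ℂ => (max (-z.re) 0) ^ 2 := by fun_prop
  have c2 : Continuous fun z : ℂ => (max z.re 0) ^ 2 := by fun_prop
  have h1 : circleAverage (fun z : ℂ => (max z.re 0) ^ 2) 0 R =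
      circleAverage (fun z : ℂ => (max (-z.re) 0) ^ 2) 0 R := by
    rw [← circleAverage_neg_radius]
    unfold circleAverage
    congr 2
    funext θ
    simp [circleMap]
  have h2 := (fact_avg_re (k := fun z => (z ^ 2 + (R : ℂ) ^ 2) / 2) hR (lt_add_one R)
    (by fun_prop)).1
  have h3 : circleAverage (fun z : ℂ => (max z.re 0) ^ 2 + (max (-z.re) 0) ^ 2) 0 R =
      circleAverage (fun z : ℂ => ((z ^ 2 + (R : ℂ) ^ 2) / 2).re) 0 R := by
    apply circleAverage_congr_sphere
    intro z hz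
    have hz' : ‖z‖ = R := by simpa [abs_of_pos hR] using hz
    have hsq : z.re ^ 2 + z.im ^ 2 = R ^ 2 := by
      rw [← hz', Complex.sq_norm, Complex.normSq_apply]; ring
    have e1 : ((z ^ 2 + (R : ℂ) ^ 2) / 2).re = z.re ^ 2 := by
      simp [pow_two]; nlinarith
    simp only [e1]
    rcases le_total 0 z.re with h | h
    · rw [max_eq_left h, max_eq_right (by linarith)]; ring
    · rw [max_eq_right h, max_eq_left (by linarith)]; ring
  rw [circleAverage_fun_add c2.continuousOn.circleIntegrable' c1.continuousOn.circleIntegrable',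
    h1, h2] at h3
  have e2 : (((0 : ℂ) ^ 2 + (R : ℂ) ^ 2) / 2).re = R ^ 2 / 2 := by simp [pow_two]
  rw [e2] at h3
  linarith

/-- sharp bound at the centre -/
lemma fact_sharp {h : ℂ → ℂ} {d : ℂ} {R R' B A : ℝ} (hR : 0 < R) (hRR : R < R') (hA : 0 ≤ A)
    (hh : DifferentiableOn ℂ h (ball 0 R')) (hd : HasDerivAt h d 0)
    (hup : ∀ v : ℂ, ‖v‖ = R → (h v).re ≤ B * max (-v.re) 0 + A)
    (hlow : ∀ v : ℂ, ‖v‖ = R → 0 ≤ v.re → -A ≤ (h v).re) :
    -d.re ≤ B / 2 + 2 * A / R := by
  have h0 : (0 : ℂ) ∈ ball (0 : ℂ) R' := mem_ball_self (by linarith)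
  have hR' : (R : ℂ) ≠ 0 := by exact_mod_cast hR.ne'
  set k : ℂ → ℂ := fun z => -(dslope h 0 z + z * (h z - h 0) / (R : ℂ) ^ 2
    + 2 * ((h 0).re : ℂ) * z / (R : ℂ) ^ 2) with hk
  have hkd : DifferentiableOn ℂ k (ball 0 R') := by
    have := (Complex.differentiableOn_dslope (isOpen_ball.mem_nhds h0)).2 hh
    apply DifferentiableOn.neg
    apply DifferentiableOn.add (this.add _) (by fun_prop)
    exact (differentiableOn_id.mul (hh.sub_const _)).div_const _
  obtain ⟨a1, a2⟩ := fact_avg_re hR hRR hkd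
  have hk0 : (k 0).re = -d.re := by simp [hk, dslope_same, hd.deriv]
  have c1 : Continuous fun z : ℂ => (max (-z.re) 0) ^ 2 := by fun_prop
  have hle : circleAverage (fun z => (k z).re) 0 R ≤
      circleAverage (fun z : ℂ => (2 * B / R ^ 2) • (max (-z.re) 0) ^ 2 + 2 * A / R) 0 R := by
    apply circleAverage_mono a2 (Continuous.continuousOn (by fun_prop)).circleIntegrable'
    intro z hz
    have hz' : ‖z‖ = R := by simpa [abs_of_pos hR] using hz
    have hz0 : z ≠ 0 := by rintro rfl; simp at hz'; linarith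
    have hcz : conj z * z = (R : ℂ) ^ 2 := by rw [Complex.conj_mul', hz']
    have e1 : dslope h 0 z = conj z * (h z - h 0) / (R : ℂ) ^ 2 := by
      rw [dslope_of_ne _ hz0, slope_def_field, ← hcz]
      have : conj z ≠ 0 := by simpa using hz0
      field_simp
      simp
    have e2 : k z = -(((conj z + z) * (h z - h 0) + 2 * ((h 0).re : ℂ) * z) / ((R ^ 2 : ℝ) : ℂ)) := by
      simp only [hk, e1]; push_cast; ring
    have e3 : (k z).re = -(2 * z.re * (h z).re / R ^ 2) := by
      rw [e2, Complex.neg_re, Complex.div_ofReal_re]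
      simp; ring
    have hre : |z.re| ≤ R := hz' ▸ Complex.abs_re_le_norm z
    have hab := abs_le.1 hre
    simp only [e3, smul_eq_mul]
    have e4 : 2 * B / R ^ 2 * (max (-z.re) 0) ^ 2 + 2 * A / R =
        2 * (B * (max (-z.re) 0) ^ 2 + A * R) / R ^ 2 := by field_simp
    rw [e4, ← neg_div]
    apply div_le_div_of_nonneg_right _ (by positivity)
    rcases le_total 0 z.re with hx | hx
    · have := hlow z hz' hx
      rw [max_eq_right (by linarith)]
      nlinarith
    · have := hup z hz'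
      rw [max_eq_left (by linarith)] at this ⊢
      nlinarith
  rw [a1, hk0, circleAverage_fun_add (Continuous.continuousOn (by fun_prop)).circleIntegrable'
    (Continuous.continuousOn (by fun_prop)).circleIntegrable', circleAverage_fun_smul,
    fact_avg_sq hR, circleAverage_const] at hle
  refine hle.trans_eq ?_
  simp only [smul_eq_mul]
  field_simp; ring

lemma fact_term_norm {R : ℝ} (hR : 0 < R) {u v : ℂ} (hu : ‖u‖ < R) (hv : ‖v‖ ≤ R / 2) :
    ‖conj u / ((R : ℂ) ^ 2 - conj u * v)‖ ≤ 2 / R := by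
  have h1 := fact_den_ge (v := v) hu.le
  have h2 : R ^ 2 / 2 ≤ ‖(R : ℂ) ^ 2 - conj u * v‖ := by nlinarith
  rw [norm_div, Complex.norm_conj, div_le_div_iff₀ (by nlinarith) hR]
  nlinarith

lemma fact_term_re {R δ : ℝ} (hR : 0 < R) (hδ : δ ≤ R / 2) {u v : ℂ} (hu : ‖u‖ < R)
    (hv : ‖v‖ ≤ δ) (hre : u.re ≤ v.re) :
    -(conj u / ((R : ℂ) ^ 2 - conj u * v)).re - (1 / (v - u)).re ≤ 5 * δ / R ^ 2 := by
  have hδ0 : 0 ≤ δ := (norm_nonneg _).trans hv
  have h1 := fact_den_ge (v := v) hu.le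
  have h2 : R ^ 2 / 2 ≤ ‖(R : ℂ) ^ 2 - conj u * v‖ := by nlinarith
  have hne := fact_den_ne hR hu (v := v) (by linarith)
  have hR' : (R : ℂ) ≠ 0 := by exact_mod_cast hR.ne'
  have e1 : conj u / ((R : ℂ) ^ 2 - conj u * v) = conj u / ((R ^ 2 : ℝ) : ℂ) +
      conj u ^ 2 * v / ((R : ℂ) ^ 2 * ((R : ℂ) ^ 2 - conj u * v)) := by
    push_cast; field_simp; ring
  have h3 : ‖conj u ^ 2 * v / ((R : ℂ) ^ 2 * ((R : ℂ) ^ 2 - conj u * v))‖ ≤ 2 * δ / R ^ 2 := by
    rw [norm_div, norm_mul, norm_mul, norm_pow, norm_pow, Complex.norm_conj, Complex.norm_real,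
      Real.norm_eq_abs, abs_of_pos hR, div_le_div_iff₀ (by positivity) (by positivity)]
    have a1 : ‖u‖ ^ 2 ≤ R ^ 2 := by gcongr
    have a2 : ‖u‖ ^ 2 * ‖v‖ ≤ R ^ 2 * δ := by gcongr
    have a3 : 2 * δ * (R ^ 2 * (R ^ 2 / 2)) ≤ 2 * δ * (R ^ 2 * ‖(R : ℂ) ^ 2 - conj u * v‖) := by
      gcongr
    nlinarith [sq_nonneg R]
  have h4 := (abs_le.1 ((Complex.abs_re_le_norm _).trans h3)).1
  have h5 : (conj u / ((R ^ 2 : ℝ) : ℂ)).re = u.re / R ^ 2 := by
    rw [Complex.div_ofReal_re]; simp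
  set x := v.re - u.re with hx
  have hx0 : 0 ≤ x := by linarith
  have hn : ‖v - u‖ ≤ R + δ := (norm_sub_le _ _).trans (by linarith)
  have hxle : x ≤ R + δ := by
    have := (abs_le.1 (Complex.abs_re_le_norm (v - u))).2
    simp only [Complex.sub_re] at this
    linarith
  have h6 : x / (R + δ) ^ 2 ≤ (1 / (v - u)).re := by
    rw [one_div, Complex.inv_re, Complex.normSq_eq_norm_sq, Complex.sub_re, ← hx]
    rcases eq_or_lt_of_le hx0 with h0 | h0
    · rw [← h0]; simp
    · have : 0 < ‖v - u‖ := by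
        have := (abs_le.1 (Complex.abs_re_le_norm (v - u))).2
        simp only [Complex.sub_re] at this
        linarith
      gcongr
  have hvre : -δ ≤ v.re := by
    have := (abs_le.1 (Complex.abs_re_le_norm v)).1
    linarith
  have h7 : x / R ^ 2 - x / (R + δ) ^ 2 ≤ 2 * δ / R ^ 2 := by
    have e : x / R ^ 2 - x / (R + δ) ^ 2 = (x * (δ * (2 * R + δ)) / (R + δ) ^ 2) / R ^ 2 := by
      field_simp; ring
    rw [e]
    apply div_le_div_of_nonneg_right _ (by positivity)
    rw [div_le_iff₀ (by positivity)]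
    have : x * (δ * (2 * R + δ)) ≤ (R + δ) * (δ * (2 * R + δ)) := by gcongr
    nlinarith [mul_nonneg hδ0 hδ0, mul_nonneg (mul_nonneg hδ0 hδ0) hR.le,
      mul_nonneg (mul_nonneg hδ0 hδ0) hδ0]
  have h8 : -(δ / R ^ 2) - x / R ^ 2 ≤ u.re / R ^ 2 := by
    have : -(δ / R ^ 2) - x / R ^ 2 = (-δ - x) / R ^ 2 := by ring
    rw [this]
    apply div_le_div_of_nonneg_right _ (by positivity)
    linarith
  rw [e1, Complex.add_re, h5]
  have e5 : 5 * δ / R ^ 2 = 2 * δ / R ^ 2 + 2 * δ / R ^ 2 + δ / R ^ 2 := by ring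
  linarith

end

end Pool.Agent.Lib.PS
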