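import Pool.Agent.Lib.PS.Blue

/-!
Block FINAL, auxiliary counting lemmas.
-/

namespace Pool.Agent.Lib.PS

open Finset Real MeasureTheory Complex Filter Topology
open scoped Classical

lemma fin_exp (C c : ℝ) (k : ℕ) (hc : 0 < c) :
    ∀ᶠ l : ℝ in atTop, C * l ^ k ≤ Real.exp (c * l) := by
  have h := (isLittleO_pow_exp_pos_mul_atTop k hc).bound (c := 1 / (|C| + 1)) (by positivity)
  filter_upwards [h, eventually_ge_atTop (0 : ℝ)] with l hl hl0
  rw [Real.norm_of_nonneg (by positivity), Real.norm_of_nonneg (by positivity)] at hl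
  have h1 : C * l ^ k ≤ (|C| + 1) * l ^ k := by
    have := le_abs_self C
    have : (0 : ℝ) ≤ l ^ k := by positivity
    nlinarith
  have h2 : (|C| + 1) * l ^ k ≤ (|C| + 1) * (1 / (|C| + 1) * Real.exp (c * l)) :=
    mul_le_mul_of_nonneg_left hl (by positivity)
  have h3 : (|C| + 1) * (1 / (|C| + 1) * Real.exp (c * l)) = Real.exp (c * l) := by
    field_simp
  linarith

lemma fin_split (f : ℕ → ℝ) (Y : ℕ) (J : ℕ) :
    ∑ p ∈ Ico Y (Y * 2 ^ J), f p = ∑ j ∈ range J, ∑ p ∈ Ico (Y * 2 ^ j) (2 * (Y * 2 ^ j)), f p := by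
  induction J with
  | zero => simp
  | succ J ih =>
    rw [sum_range_succ, ← ih, Finset.sum_Ico_consecutive]
    · congr 2; ring
    · exact Nat.le_mul_of_pos_right _ (by positivity)
    · omega

/-- the variance over a long range of primes -/
lemma fin_var (hV : St_VAR) (ε : ℝ) (hε : 0 < ε) :
    ∃ C : ℝ, 0 < C ∧ ∀ (X Y0 Y1 Q J : ℕ) (a : ℕ → ℝ) (B : ℝ), 2 ≤ Q → Q ^ 3 ≤ Y0 →
      X * Q ^ 2 ≤ Y0 ^ 2 → 4 * Y1 ≤ X → Y1 ≤ Y0 * 2 ^ J →
      (∀ p ∈ PR Y0 Y1, |a p| ≤ B / p) →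
      ∑ n ∈ Ioc X (2 * X),
        (∑ p ∈ PR Y0 Y1, a p * (sqw (n - p) - (nu Q ((n : ℤ) - p) : ℝ))) ^ 2
        ≤ C * (X : ℝ) ^ ε * (X / Q) * ((J : ℝ) ^ 2 * B ^ 2) := by
  obtain ⟨C, hC, hV⟩ := hV ε hε
  refine ⟨C, hC, fun X Y0 Y1 Q J a B hQ hQ3 hXQ hY1 hJ ha => ?_⟩
  have hY0 : 0 < Y0 := lt_of_lt_of_le (by positivity) hQ3
  set a' : ℕ → ℝ := fun p => if p ∈ PR Y0 Y1 then a p else 0 with ha'
  set E : ℕ → ℕ → ℝ := fun n p => sqw (n - p) - (nu Q ((n : ℤ) - p) : ℝ) with hE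
  have h1 : ∀ n, ∑ p ∈ PR Y0 Y1, a p * E n p =
      ∑ j ∈ range J, ∑ p ∈ Ico (Y0 * 2 ^ j) (2 * (Y0 * 2 ^ j)), a' p * E n p := by
    intro n
    rw [← fin_split (fun p => a' p * E n p)]
    have hsub : PR Y0 Y1 ⊆ Ico Y0 (Y0 * 2 ^ J) := by
      intro p hp
      simp only [PR, mem_filter, mem_Ico] at hp ⊢
      omega
    rw [← Finset.sum_subset hsub]
    · refine Finset.sum_congr rfl fun p hp => ?_
      simp only [ha', if_pos hp]
    · intro p _ hp
      simp only [ha', if_neg hp, zero_mul]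
  have hQ0 : (0 : ℝ) < Q := by exact_mod_cast (by omega : 0 < Q)
  have h2 : ∀ j, ∑ n ∈ Ioc X (2 * X),
      (∑ p ∈ Ico (Y0 * 2 ^ j) (2 * (Y0 * 2 ^ j)), a' p * E n p) ^ 2
        ≤ C * (X : ℝ) ^ ε * (X / Q) * B ^ 2 := by
    intro j
    have hle : Y0 ≤ Y0 * 2 ^ j := Nat.le_mul_of_pos_right _ (by positivity)
    generalize Y0 * 2 ^ j = Y at hle ⊢
    by_cases hY : Y < Y1
    · have hYp : (0 : ℝ) < Y := by exact_mod_cast (by omega : 0 < Y)
      refine (hV X Y Q a' hQ (hQ3.trans hle) (hXQ.trans (Nat.pow_le_pow_left hle 2))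
        (by omega)).trans ?_
      have hs : ∑ p ∈ Ico Y (2 * Y), a' p ^ 2 ≤ B ^ 2 / Y := by
        have : ∀ p ∈ Ico Y (2 * Y), a' p ^ 2 ≤ B ^ 2 / (Y : ℝ) ^ 2 := by
          intro p hp
          by_cases hp' : p ∈ PR Y0 Y1
          · simp only [ha', if_pos hp']
            have h := ha p hp'
            have hYp' : (Y : ℝ) ≤ p := by exact_mod_cast (mem_Ico.1 hp).1
            have hp0 : (0 : ℝ) < p := lt_of_lt_of_le hYp hYp'
            have hB : 0 ≤ B := by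
              have := (abs_nonneg _).trans h
              exact le_of_mul_le_mul_right (by simpa [div_eq_mul_inv] using this) (inv_pos.2 hp0)
            have h' : |a p| ≤ B / Y := h.trans (div_le_div_of_nonneg_left hB hYp hYp')
            rw [← sq_abs, ← div_pow]
            exact pow_le_pow_left₀ (abs_nonneg _) h' 2
          · have : (0 : ℝ) ≤ B ^ 2 / (Y : ℝ) ^ 2 := by positivity
            simpa only [ha', if_neg hp', ne_eq, OfNat.ofNat_ne_zero, not_false_eq_true,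
              zero_pow] using this
        refine (Finset.sum_le_card_nsmul _ _ _ this).trans ?_
        rw [Nat.card_Ico, nsmul_eq_mul]
        have : ((2 * Y - Y : ℕ) : ℝ) = Y := by congr 1; omega
        rw [this]
        apply le_of_eq
        field_simp
      calc C * (X : ℝ) ^ ε * (X * Y / Q) * ∑ p ∈ Ico Y (2 * Y), a' p ^ 2
          ≤ C * (X : ℝ) ^ ε * (X * Y / Q) * (B ^ 2 / Y) :=
            mul_le_mul_of_nonneg_left hs (by positivity)
        _ = C * (X : ℝ) ^ ε * (X / Q) * B ^ 2 := by field_simp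
    · have hz : ∀ n, ∑ p ∈ Ico Y (2 * Y), a' p * E n p = 0 := by
        intro n
        refine Finset.sum_eq_zero fun p hp => ?_
        have : p ∉ PR Y0 Y1 := by
          simp only [PR, mem_filter, mem_Ico] at hp ⊢
          omega
        simp only [ha', if_neg this, zero_mul]
      simp only [hz]
      simp only [ne_eq, OfNat.ofNat_ne_zero, not_false_eq_true, zero_pow, sum_const_zero]
      positivity
  calc ∑ n ∈ Ioc X (2 * X), (∑ p ∈ PR Y0 Y1, a p * E n p) ^ 2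
      ≤ ∑ n ∈ Ioc X (2 * X), (J : ℝ) * ∑ j ∈ range J,
          (∑ p ∈ Ico (Y0 * 2 ^ j) (2 * (Y0 * 2 ^ j)), a' p * E n p) ^ 2 := by
        refine Finset.sum_le_sum fun n _ => ?_
        rw [h1 n]
        have := sq_sum_le_card_mul_sum_sq (s := range J)
          (f := fun j => ∑ p ∈ Ico (Y0 * 2 ^ j) (2 * (Y0 * 2 ^ j)), a' p * E n p)
        simpa using this
    _ = (J : ℝ) * ∑ j ∈ range J, ∑ n ∈ Ioc X (2 * X),
          (∑ p ∈ Ico (Y0 * 2 ^ j) (2 * (Y0 * 2 ^ j)), a' p * E n p) ^ 2 := by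
        rw [← Finset.mul_sum, Finset.sum_comm]
    _ ≤ (J : ℝ) * ∑ _j ∈ range J, C * (X : ℝ) ^ ε * (X / Q) * B ^ 2 :=
        mul_le_mul_of_nonneg_left (Finset.sum_le_sum fun j _ => h2 j) (by positivity)
    _ = C * (X : ℝ) ^ ε * (X / Q) * ((J : ℝ) ^ 2 * B ^ 2) := by
        rw [sum_const, card_range, nsmul_eq_mul]; ring

/-- dyadic summation -/
lemma fin_dyad (P : ℕ → Prop) [DecidablePred P] (θ C : ℝ) (X0 : ℕ) (hθ : 1 / 2 ≤ θ) (hC : 0 ≤ C)
    (h : ∀ X : ℕ, X0 ≤ X → (((Ioc X (2 * X)).filter P).card : ℝ) ≤ C * (X : ℝ) ^ θ) :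
    ∃ C' : ℝ, ∀ X : ℕ, 1 ≤ X → (((Icc 1 X).filter P).card : ℝ) ≤ C' * (X : ℝ) ^ θ := by
  refine ⟨3 * (C + 1) + (2 * X0 + 2), fun X => ?_⟩
  set C' : ℝ := 3 * (C + 1) + (2 * X0 + 2) with hC'
  have hX0 : (0 : ℝ) ≤ X0 := Nat.cast_nonneg _
  induction X using Nat.strong_induction_on with
  | _ X ih =>
    intro hX
    have hX1 : (1 : ℝ) ≤ X := by exact_mod_cast hX
    by_cases hs : X < 2 * X0 + 2
    · have h1 : (((Icc 1 X).filter P).card : ℝ) ≤ X := by
        have := Finset.card_filter_le (Icc 1 X) P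
        rw [Nat.card_Icc] at this
        exact_mod_cast (by omega : ((Icc 1 X).filter P).card ≤ X)
      have h2 : (X : ℝ) ≤ 2 * X0 + 2 := by exact_mod_cast hs.le
      have h3 : (1 : ℝ) ≤ (X : ℝ) ^ θ := Real.one_le_rpow hX1 (by linarith)
      have h4 : 0 ≤ C' := by positivity
      nlinarith
    · set Y := X / 2 with hY
      have hY1 : 1 ≤ Y := by omega
      have hYX : Y < X := by omega
      have hY0 : X0 ≤ Y := by omega
      have hsub : (Icc 1 X).filter P ⊆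
          ((Icc 1 Y).filter P ∪ (Ioc Y (2 * Y)).filter P) ∪ {2 * Y + 1} := by
        intro n hn
        simp only [mem_filter, mem_Icc, mem_union, mem_Ioc, mem_singleton] at hn ⊢
        by_cases h1 : n ≤ Y
        · exact Or.inl (Or.inl ⟨⟨hn.1.1, h1⟩, hn.2⟩)
        · by_cases h2 : n ≤ 2 * Y
          · exact Or.inl (Or.inr ⟨⟨by omega, h2⟩, hn.2⟩)
          · exact Or.inr (by omega)
      have hc : ((Icc 1 X).filter P).card ≤
          ((Icc 1 Y).filter P).card + ((Ioc Y (2 * Y)).filter P).card + 1 := by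
        refine (card_le_card hsub).trans ((card_union_le _ _).trans ?_)
        rw [card_singleton]
        exact Nat.add_le_add_right (card_union_le _ _) 1
      have hc' : (((Icc 1 X).filter P).card : ℝ) ≤
          ((Icc 1 Y).filter P).card + ((Ioc Y (2 * Y)).filter P).card + 1 := by exact_mod_cast hc
      have i1 := ih Y hYX hY1
      have i2 := h Y hY0
      have hY1' : (1 : ℝ) ≤ Y := by exact_mod_cast hY1
      have h3 : (1 : ℝ) ≤ (Y : ℝ) ^ θ := Real.one_le_rpow hY1' (by linarith)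
      have h4 : (2 * (Y : ℝ)) ^ θ ≤ (X : ℝ) ^ θ := by
        apply Real.rpow_le_rpow (by positivity) _ (by linarith)
        exact_mod_cast (by omega : 2 * Y ≤ X)
      have h5 : (7 / 5 : ℝ) ≤ (2 : ℝ) ^ θ := by
        have : (2 : ℝ) ^ (1 / 2 : ℝ) ≤ (2 : ℝ) ^ θ :=
          Real.rpow_le_rpow_of_exponent_le (by norm_num) hθ
        refine le_trans ?_ this
        rw [← Real.sqrt_eq_rpow]
        exact Real.le_sqrt_of_sq_le (by norm_num)
      rw [Real.mul_rpow (by norm_num) (by positivity)] at h4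
      have h6 : 7 / 5 * (Y : ℝ) ^ θ ≤ (X : ℝ) ^ θ :=
        le_trans (mul_le_mul_of_nonneg_right h5 (by positivity)) h4
      have h7 : 0 ≤ C' := by positivity
      have h8 : C' * (7 / 5 * (Y : ℝ) ^ θ) ≤ C' * (X : ℝ) ^ θ := mul_le_mul_of_nonneg_left h6 h7
      have h9 : (C + 1) * (Y : ℝ) ^ θ ≤ 2 / 5 * C' * (Y : ℝ) ^ θ := by
        apply mul_le_mul_of_nonneg_right _ (by positivity)
        rw [hC']; linarith
      nlinarith

lemma fin_cheb (T S : Finset ℕ) (f : ℕ → ℝ) (τ : ℝ) (hτ : 0 ≤ τ) (hS : S ⊆ T)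
    (h : ∀ n ∈ S, τ ≤ |f n|) : (S.card : ℝ) * τ ^ 2 ≤ ∑ n ∈ T, f n ^ 2 := by
  calc (S.card : ℝ) * τ ^ 2 = ∑ _n ∈ S, τ ^ 2 := by rw [sum_const, nsmul_eq_mul]
    _ ≤ ∑ n ∈ S, f n ^ 2 := by
        refine Finset.sum_le_sum fun n hn => ?_
        rw [← sq_abs (f n)]
        exact pow_le_pow_left₀ hτ (h n hn) 2
    _ ≤ ∑ n ∈ T, f n ^ 2 :=
        Finset.sum_le_sum_of_subset_of_nonneg hS fun _ _ _ => sq_nonneg _

/-- non representable integers with a large model sum are rare -/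
lemma fin_three (hV : St_VAR) (hWT : St_WT) (α K η κ cg ε : ℝ) (hα : 3 < α) (hK : 0 < K)
    (hη : 0 < η) (hη5 : η ≤ (α - 3) / 5) (hκ : α + 2 * K + η < κ) (hκ4 : κ ≤ 4) (hcg : 0 < cg)
    (hε : ε ≤ η / 12) :
    ∀ᶠ l : ℝ in atTop, ∀ X Q : ℕ, (X : ℝ) = Real.exp (κ * l) → Real.exp ((1 + η) * l) ≤ Q →
      (Q : ℝ) ≤ 2 * Real.exp ((1 + η) * l) →
      (((Ioc X (2 * X)).filter fun n => (¬ ∃ p m : ℕ, p.Prime ∧ n = p + m ^ 2) ∧
        Real.exp (-(2 * ε * l)) ≤ |∑ p ∈ PR (Ylo α η l) (Yhi α K η l),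
          ap l cg α K p * (nu Q ((n : ℤ) - p) : ℝ)|).card : ℝ) ≤ Real.exp ((κ - 1) * l) := by
  obtain ⟨C, hC, hV⟩ := fin_var hV (η / 12) (by positivity)
  obtain ⟨hW, -⟩ := hWT α K hα.le (by linarith) hK (by linarith)
  filter_upwards [eventually_ge_atTop (1 : ℝ), fin_exp 8 η 0 hη,
    fin_exp 4 (κ - (α + 2 * K + η)) 0 (by linarith),
    fin_exp (C * (36 / K) ^ 2) (η / 3) 4 (by positivity)] with l hl1 h8 h4 hpoly
  intro X Q hX hQ1 hQ2
  simp only [pow_zero, mul_one] at h8 h4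
  have hl0 : 0 < l := by linarith
  have hY0 : Real.exp ((α - η) * l) ≤ Ylo α η l := Nat.le_ceil _
  have hY1 : (Yhi α K η l : ℝ) ≤ Real.exp ((α + 2 * K + η) * l) :=
    Nat.floor_le (Real.exp_pos _).le
  have hQ0 : (0 : ℝ) < Q := lt_of_lt_of_le (Real.exp_pos _) hQ1
  have hX0 : (0 : ℝ) < X := by rw [hX]; exact Real.exp_pos _
  have hXn : X ≠ 0 := by exact_mod_cast hX0.ne'
  have c1 : 2 ≤ Q := by
    have : (2 : ℝ) ≤ Q := by
      refine le_trans ?_ hQ1
      have := Real.add_one_le_exp ((1 + η) * l)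
      nlinarith
    exact_mod_cast this
  have c2 : Q ^ 3 ≤ Ylo α η l := by
    have : (Q : ℝ) ^ 3 ≤ Ylo α η l := by
      calc (Q : ℝ) ^ 3 ≤ (2 * Real.exp ((1 + η) * l)) ^ 3 := pow_le_pow_left₀ hQ0.le hQ2 3
        _ = 8 * Real.exp (3 * ((1 + η) * l)) := by
            rw [mul_pow, ← Real.exp_nat_mul]; norm_num
        _ ≤ Real.exp (η * l) * Real.exp (3 * ((1 + η) * l)) :=
            mul_le_mul_of_nonneg_right h8 (Real.exp_pos _).le
        _ ≤ Real.exp ((α - η) * l) := by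
            rw [← Real.exp_add]
            apply Real.exp_le_exp.2
            nlinarith
        _ ≤ _ := hY0
    exact_mod_cast this
  have c3 : X * Q ^ 2 ≤ Ylo α η l ^ 2 := by
    have : (X : ℝ) * (Q : ℝ) ^ 2 ≤ (Ylo α η l : ℝ) ^ 2 := by
      calc (X : ℝ) * (Q : ℝ) ^ 2 ≤ Real.exp (κ * l) * (2 * Real.exp ((1 + η) * l)) ^ 2 := by
            rw [hX]
            exact mul_le_mul_of_nonneg_left (pow_le_pow_left₀ hQ0.le hQ2 2) (Real.exp_pos _).le
        _ = 4 * (Real.exp (κ * l) * Real.exp (2 * ((1 + η) * l))) := by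
            rw [mul_pow, ← Real.exp_nat_mul]; norm_num; ring
        _ ≤ Real.exp (η * l) * (Real.exp (κ * l) * Real.exp (2 * ((1 + η) * l))) :=
            mul_le_mul_of_nonneg_right (by linarith) (by positivity)
        _ ≤ Real.exp (2 * ((α - η) * l)) := by
            rw [← Real.exp_add, ← Real.exp_add]
            apply Real.exp_le_exp.2
            nlinarith
        _ = Real.exp ((α - η) * l) ^ 2 := by rw [← Real.exp_nat_mul]; norm_num
        _ ≤ _ := pow_le_pow_left₀ (Real.exp_pos _).le hY0 2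
    exact_mod_cast this
  have c4 : 4 * Yhi α K η l ≤ X := by
    have : 4 * (Yhi α K η l : ℝ) ≤ X := by
      calc 4 * (Yhi α K η l : ℝ)
          ≤ Real.exp ((κ - (α + 2 * K + η)) * l) * Real.exp ((α + 2 * K + η) * l) :=
            mul_le_mul h4 hY1 (Nat.cast_nonneg _) (Real.exp_pos _).le
        _ = X := by rw [hX, ← Real.exp_add]; congr 1; ring
    exact_mod_cast this
  set J := Nat.log 2 X + 1 with hJ
  have c5 : Yhi α K η l ≤ Ylo α η l * 2 ^ J := by
    have h1 : X < 2 ^ J := Nat.lt_pow_succ_log_self (by norm_num) X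
    have h2 : 0 < Ylo α η l := lt_of_lt_of_le (by positivity) c2
    have : 2 ^ J ≤ Ylo α η l * 2 ^ J := Nat.le_mul_of_pos_left _ h2
    omega
  have hJ9 : (J : ℝ) ≤ 9 * l := by
    have h1 : ((2 ^ Nat.log 2 X : ℕ) : ℝ) ≤ X := by exact_mod_cast Nat.pow_log_le_self 2 hXn
    have h2 := Real.log_le_log (by positivity) h1
    rw [hX, Real.log_exp, Nat.cast_pow, Real.log_pow] at h2
    have h3 := Real.log_two_gt_d9
    have h4 : (0 : ℝ) ≤ (Nat.log 2 X : ℕ) := Nat.cast_nonneg _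
    have h5 : ((Nat.log 2 X : ℕ) : ℝ) ≤ 8 * l := by
      push_cast at h2
      nlinarith
    rw [hJ]; push_cast; linarith
  have c6 : ∀ p ∈ PR (Ylo α η l) (Yhi α K η l), |ap l cg α K p| ≤ (4 * l / K) / p := by
    intro p hp
    simp only [PR, mem_filter, mem_Ico] at hp
    have hp0 : (0 : ℝ) < p := by exact_mod_cast hp.2.pos
    have hp1 : (1 : ℝ) ≤ p := by exact_mod_cast hp.2.one_lt.le
    have hpX : (p : ℝ) ≤ X := by exact_mod_cast (by omega : p ≤ X)
    have hlog : Real.log p ≤ 4 * l := by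
      have := Real.log_le_log hp0 hpX
      rw [hX, Real.log_exp] at this
      nlinarith
    have hlog0 : 0 ≤ Real.log p := Real.log_nonneg hp1
    obtain ⟨w0, w1⟩ := hW (l / cg) (Real.log p / l) (by positivity)
    unfold ap
    rw [abs_of_nonneg (by positivity)]
    calc Real.log p / p * hs (l / cg) α K (Real.log p / l) ≤ 4 * l / p * (1 / K) :=
          mul_le_mul (div_le_div_of_nonneg_right hlog hp0.le) w1 w0 (by positivity)
      _ = 4 * l / K / p := by field_simp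
  have key := hV X _ _ Q J (ap l cg α K) (4 * l / K) c1 c2 c3 c4 c5 c6
  have hch := fin_cheb (Ioc X (2 * X)) ((Ioc X (2 * X)).filter fun n =>
      (¬ ∃ p m : ℕ, p.Prime ∧ n = p + m ^ 2) ∧
        Real.exp (-(2 * ε * l)) ≤ |∑ p ∈ PR (Ylo α η l) (Yhi α K η l),
          ap l cg α K p * (nu Q ((n : ℤ) - p) : ℝ)|)
    (fun n => ∑ p ∈ PR (Ylo α η l) (Yhi α K η l),
      ap l cg α K p * (sqw (n - p) - (nu Q ((n : ℤ) - p) : ℝ))) (Real.exp (-(2 * ε * l)))
    (Real.exp_pos _).le (filter_subset _ _) (by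
      intro n hn
      simp only [mem_filter, mem_Ioc] at hn
      obtain ⟨hn1, hn2, hn3⟩ := hn
      have : ∑ p ∈ PR (Ylo α η l) (Yhi α K η l),
          ap l cg α K p * (sqw (n - p) - (nu Q ((n : ℤ) - p) : ℝ)) =
          -∑ p ∈ PR (Ylo α η l) (Yhi α K η l), ap l cg α K p * (nu Q ((n : ℤ) - p) : ℝ) := by
        rw [← Finset.sum_neg_distrib]
        refine Finset.sum_congr rfl fun p hp => ?_
        simp only [PR, mem_filter, mem_Ico] at hp
        have hsq : ¬ IsSquare (n - p) := by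
          rintro ⟨m, hm⟩
          exact hn2 ⟨p, m, hp.2, by rw [sq]; omega⟩
        simp only [sqw, if_neg hsq]
        ring
      rw [this, abs_neg]
      exact hn3)
  generalize (((Ioc X (2 * X)).filter fun n =>
      (¬ ∃ p m : ℕ, p.Prime ∧ n = p + m ^ 2) ∧
        Real.exp (-(2 * ε * l)) ≤ |∑ p ∈ PR (Ylo α η l) (Yhi α K η l),
          ap l cg α K p * (nu Q ((n : ℤ) - p) : ℝ)|).card : ℝ) = N at hch ⊢
  have hb := hch.trans key
  have e1 : (X : ℝ) ^ (η / 12) ≤ Real.exp (η / 3 * l) := by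
    rw [hX, ← Real.exp_mul]
    apply Real.exp_le_exp.2
    have : κ * (l * η) ≤ 4 * (l * η) := mul_le_mul_of_nonneg_right hκ4 (by positivity)
    nlinarith
  have e2 : (X : ℝ) / Q ≤ Real.exp ((κ - 1 - η) * l) := by
    rw [div_le_iff₀ hQ0, hX]
    calc Real.exp (κ * l) = Real.exp ((κ - 1 - η) * l) * Real.exp ((1 + η) * l) := by
          rw [← Real.exp_add]; congr 1; ring
      _ ≤ _ := mul_le_mul_of_nonneg_left hQ1 (Real.exp_pos _).le
  have e3 : C * ((J : ℝ) ^ 2 * (4 * l / K) ^ 2) ≤ Real.exp (η / 3 * l) := by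
    refine le_trans ?_ hpoly
    have : (J : ℝ) ^ 2 ≤ (9 * l) ^ 2 := pow_le_pow_left₀ (Nat.cast_nonneg _) hJ9 2
    calc C * ((J : ℝ) ^ 2 * (4 * l / K) ^ 2) ≤ C * ((9 * l) ^ 2 * (4 * l / K) ^ 2) := by gcongr
      _ = C * (36 / K) ^ 2 * l ^ 4 := by field_simp; ring
  have e4 : C * (X : ℝ) ^ (η / 12) * (X / Q) * ((J : ℝ) ^ 2 * (4 * l / K) ^ 2) ≤
      Real.exp (η / 3 * l) * Real.exp ((κ - 1 - η) * l) * Real.exp (η / 3 * l) := by
    calc C * (X : ℝ) ^ (η / 12) * (X / Q) * ((J : ℝ) ^ 2 * (4 * l / K) ^ 2)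
        = (X : ℝ) ^ (η / 12) * (X / Q) * (C * ((J : ℝ) ^ 2 * (4 * l / K) ^ 2)) := by ring
      _ ≤ _ := by gcongr
  have e5 : Real.exp (η / 3 * l) * Real.exp ((κ - 1 - η) * l) * Real.exp (η / 3 * l) ≤
      Real.exp ((κ - 1) * l) * Real.exp (-(2 * ε * l)) ^ 2 := by
    rw [← Real.exp_nat_mul, ← Real.exp_add, ← Real.exp_add, ← Real.exp_add]
    apply Real.exp_le_exp.2
    have : ε * l ≤ η / 12 * l := mul_le_mul_of_nonneg_right hε hl0.le
    push_cast
    nlinarith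
  exact le_of_mul_le_mul_right (hb.trans (e4.trans e5)) (by positivity)

/-- integers discarded because of the bad characters -/
lemma fin_two (hB : St_BADC) (hD : St_DISC) (W N0 : ℕ) (T κ g e1 : ℝ) (hW : 0 < W) (hκ : 1 ≤ κ)
    (hg : 0 < g) (he1 : 0 < e1) :
    ∃ e2 C : ℝ, 0 < e2 ∧ e2 ≤ e1 ∧ 0 ≤ C ∧ ∀ᶠ l : ℝ in atTop, ∀ X Q : ℕ,
      (X : ℝ) = Real.exp (κ * l) → 1 ≤ Q → (Q : ℝ) ≤ Real.exp (2 * l) →
      (((Ioc X (2 * X)).filter fun n => ¬ Good (Bad Q W T e2) n W N0 l).card : ℝ)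
        ≤ C * Real.exp ((κ - 1 + g) * l) := by
  obtain ⟨CB, eB, hCB, heB, hB⟩ := hB W T hW
  have hN : (0 : ℝ) < (N0 : ℝ) + 1 := by positivity
  set d : ℝ := g / (20 * ((N0 : ℝ) + 1)) with hd
  have hd0 : 0 < d := by positivity
  obtain ⟨CD, hCD, hD⟩ := hD N0 d hd0
  set e2 : ℝ := min (min e1 eB) d with he2
  have h2 : 0 < e2 := lt_min (lt_min he1 heB) hd0
  obtain ⟨l0, hB⟩ := hB e2 h2 ((min_le_left _ _).trans (min_le_right _ _))
  refine ⟨e2, CD * (CB + 1) ^ N0, h2, (min_le_left _ _).trans (min_le_left _ _), by positivity, ?_⟩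
  filter_upwards [eventually_ge_atTop l0, eventually_ge_atTop (0 : ℝ)] with l hl hl0
  intro X Q hX hQ1 hQ2
  have hQ0 : (0 : ℝ) < Q := by exact_mod_cast hQ1
  have hXl : Real.exp l ≤ X := by
    rw [hX]; apply Real.exp_le_exp.2; nlinarith
  refine (hD X Q W l (Bad Q W T e2) hQ1 (filter_subset _ _) hXl).trans ?_
  have b1 := hB l hl Q hQ2
  have b2 : ((Bad Q W T e2).card : ℝ) + 1 ≤ (CB + 1) * Real.exp (10 * d * l) := by
    have h3 : Real.exp (10 * e2 * l) ≤ Real.exp (10 * d * l) := by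
      apply Real.exp_le_exp.2
      have : e2 * l ≤ d * l := mul_le_mul_of_nonneg_right (min_le_right _ _) hl0
      linarith
    have h4 : 1 ≤ Real.exp (10 * d * l) := Real.one_le_exp (by positivity)
    nlinarith
  have b3 : (Q : ℝ) ^ d ≤ Real.exp (10 * d * l) := by
    refine (Real.rpow_le_rpow hQ0.le hQ2 hd0.le).trans ?_
    rw [← Real.exp_mul]
    apply Real.exp_le_exp.2
    have : 0 ≤ d * l := by positivity
    nlinarith
  have b4 : (((Bad Q W T e2).card : ℝ) + 1) * (Q : ℝ) ^ d ≤ (CB + 1) * Real.exp (20 * d * l) := by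
    calc (((Bad Q W T e2).card : ℝ) + 1) * (Q : ℝ) ^ d
        ≤ (CB + 1) * Real.exp (10 * d * l) * Real.exp (10 * d * l) := by gcongr
      _ = (CB + 1) * Real.exp (20 * d * l) := by
          rw [mul_assoc, ← Real.exp_add]; congr 2; ring
  have b5 : ((((Bad Q W T e2).card : ℝ) + 1) * (Q : ℝ) ^ d) ^ N0 ≤
      (CB + 1) ^ N0 * Real.exp (g * l) := by
    refine (pow_le_pow_left₀ (by positivity) b4 N0).trans ?_
    rw [mul_pow, ← Real.exp_nat_mul]
    apply mul_le_mul_of_nonneg_left _ (by positivity)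
    apply Real.exp_le_exp.2
    have h5 : ((N0 : ℝ) + 1) * (20 * d) = g := by rw [hd]; field_simp
    have h6 : 0 ≤ d * l := by positivity
    rw [← h5]
    nlinarith
  have b6 : (X : ℝ) / Real.exp l = Real.exp ((κ - 1) * l) := by
    rw [hX, ← Real.exp_sub]; congr 1; ring
  rw [b6]
  calc CD * ((((Bad Q W T e2).card : ℝ) + 1) * (Q : ℝ) ^ d) ^ N0 * Real.exp ((κ - 1) * l)
      ≤ CD * ((CB + 1) ^ N0 * Real.exp (g * l)) * Real.exp ((κ - 1) * l) := by gcongr
    _ = CD * (CB + 1) ^ N0 * (Real.exp (g * l) * Real.exp ((κ - 1) * l)) := by ring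
    _ = _ := by rw [← Real.exp_add]; congr 2; ring

end Pool.Agent.Lib.PS
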