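import Pool.Agent.Lib.PS.Blue

/-! Auxiliary lemmas for block KSM. -/

namespace Pool.Agent.Lib.PS

open Finset Real MeasureTheory Complex Filter Topology
open scoped Classical

theorem ksm_msum_int (S : Multiset ℂ) (g : ℂ → ℝ → ℂ) (hg : ∀ z ∈ S, Integrable (g z)) :
    Integrable (fun y => (S.map fun z => g z y).sum) ∧
      ∫ y, (S.map fun z => g z y).sum = (S.map fun z => ∫ y, g z y).sum := by
  induction S using Multiset.induction_on with
  | empty => simp
  | cons a S ih =>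
    obtain ⟨h1, h2⟩ := ih fun z hz => hg z (Multiset.mem_cons_of_mem hz)
    have ha := hg a (Multiset.mem_cons_self _ _)
    simp only [Multiset.map_cons, Multiset.sum_cons]
    exact ⟨ha.add h1, by rw [integral_add ha h1, h2]⟩

theorem ksm_msum_diff (S : Multiset ℂ) (g : ℂ → ℂ → ℂ) (U : Set ℂ)
    (hg : ∀ z ∈ S, DifferentiableOn ℂ (g z) U) :
    DifferentiableOn ℂ (fun v => (S.map fun z => g z v).sum) U := by
  induction S using Multiset.induction_on with
  | empty => simp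
  | cons a S ih =>
    simp only [Multiset.map_cons, Multiset.sum_cons]
    exact (hg a (Multiset.mem_cons_self _ _)).add (ih fun z hz => hg z (Multiset.mem_cons_of_mem hz))

theorem ksm_msum_norm (S : Multiset ℂ) (g : ℂ → ℂ) (B : ℝ) (hg : ∀ z ∈ S, ‖g z‖ ≤ B) :
    ‖(S.map g).sum‖ ≤ S.card * B := by
  induction S using Multiset.induction_on with
  | empty => simp
  | cons a S ih =>
    simp only [Multiset.map_cons, Multiset.sum_cons, Multiset.card_cons]
    have h1 := hg a (Multiset.mem_cons_self _ _)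
    have h2 := ih fun z hz => hg z (Multiset.mem_cons_of_mem hz)
    push_cast
    linarith [norm_add_le (g a) (S.map g).sum]

theorem ksm_msum_re (S : Multiset ℂ) (g : ℂ → ℂ) :
    (S.map g).sum.re = (S.map fun z => (g z).re).sum := by
  induction S using Multiset.induction_on with
  | empty => simp
  | cons a S ih => simp [ih]

theorem ksm_h {A : ℝ} {f : ℝ → ℝ} (hA : 0 < A) (hf : TF A f) :
    Continuous (fun s : ℝ => f |s|) ∧ (∀ s : ℝ, A ≤ |s| → f |s| = 0) ∧
      (∀ s : ℝ, |(f |s|)| ≤ A ^ 2) ∧ ∀ s t : ℝ, |f |s| - (f |t|)| ≤ A * |s - t| := by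
  obtain ⟨h0, h1, h2⟩ := hf
  have h4 : ∀ s t : ℝ, |f |s| - (f |t|)| ≤ A * |s - t| := fun s t =>
    (h1 _ _ (abs_nonneg s) (abs_nonneg t)).trans
      (mul_le_mul_of_nonneg_left (abs_abs_sub_abs_le_abs_sub s t) hA.le)
  refine ⟨?_, fun s hs => h2 _ hs, fun s => ?_, h4⟩
  · refine (LipschitzWith.of_dist_le_mul (K := ⟨A, hA.le⟩) fun s t => ?_).continuous
    exact h4 s t
  · rcases le_total A |s| with h | h
    · rw [h2 _ h, abs_zero]; positivity
    · have h5 := h1 |s| A (abs_nonneg s) hA.le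
      rw [h2 A le_rfl, sub_zero, abs_of_nonpos (by linarith : |s| - A ≤ 0)] at h5
      nlinarith [abs_nonneg s]

theorem ksm_int {A : ℝ} {h : ℝ → ℝ} (hc : Continuous h) (hs : ∀ s : ℝ, A ≤ |s| → h s = 0) (v : ℂ) :
    Integrable fun s : ℝ => (h s : ℂ) * cexp (v * s) := by
  refine Continuous.integrable_of_hasCompactSupport (by fun_prop)
    (HasCompactSupport.intro (K := Set.Icc (-A) A) isCompact_Icc fun s hs' => ?_)
  rw [hs s (by
    by_contra h
    exact hs' (abs_le.1 (not_le.1 h).le))]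
  simp

theorem ksm_psi_real {A κ : ℝ} {f : ℝ → ℝ} (hA : 0 < A) (hf : TF A f) (hp : PD f) (y : ℝ) :
    ∃ p : ℝ, 0 ≤ p ∧ Psi κ (fun s => f |s|) ((0 : ℝ) + y * I) = p := by
  obtain ⟨hc, hs, -, -⟩ := ksm_h hA hf
  have i1 := ksm_int hc hs (y * I)
  have i2 := ksm_int hc hs (-(y * I))
  have e1 : ∫ s : ℝ, (f |s| : ℂ) * cexp (-(y * I) * s) = ∫ s : ℝ, (f |s| : ℂ) * cexp (y * I * s) := by
    rw [← integral_neg_eq_self]
    congr 1
    ext s
    simp
  have e2 : (2 : ℂ) * ∫ s : ℝ, (f |s| : ℂ) * cexp (y * I * s) =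
      2 * ((∫ s : ℝ, f |s| * Real.cos (y * |s|) : ℝ) : ℂ) := by
    rw [two_mul]
    nth_rw 2 [← e1]
    rw [← integral_add i1 i2, ← integral_complex_ofReal, ← integral_const_mul]
    congr 1
    ext s
    have : Real.cos (y * |s|) = Real.cos (y * s) := by
      rcases abs_choice s with h | h <;> simp [h]
    rw [this]
    push_cast
    rw [Complex.cos]
    ring_nf
  have e3 := integral_comp_abs (f := fun t => f t * Real.cos (y * t))
  refine ⟨(2 * ∫ t in Set.Ioi (0 : ℝ), f t * Real.cos (y * t)) * Real.exp (-(y ^ 2 / (2 * κ))),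
    mul_nonneg (mul_nonneg (by norm_num) (hp y)) (Real.exp_pos _).le, ?_⟩
  rw [← e3]
  have e4 := mul_left_cancel₀ two_ne_zero e2
  simp only [Psi, L2, ofReal_zero, zero_add]
  rw [e4]
  push_cast
  congr 2
  rw [mul_pow, I_sq]
  ring

theorem ksm_even (κ : ℝ) (f : ℝ → ℝ) (t : ℝ) : sm κ f (-t) = sm κ f t := by
  simp only [sm, gs]
  rw [← integral_neg_eq_self]
  congr 1
  ext s
  simp only [abs_neg, gk]
  congr 4
  ring

theorem ksm_lap (κ : ℝ) (f : ℝ → ℝ) (ζ : ℂ)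
    (hi : Integrable fun t : ℝ => (sm κ f t : ℂ) * cexp (-ζ * t)) :
    L2 (sm κ f) (-ζ) = Lap (sm κ f) ζ + Lap (sm κ f) (-ζ) := by
  simp only [L2, Lap]
  rw [← intervalIntegral.integral_Iic_add_Ioi (b := 0) hi.integrableOn hi.integrableOn, add_comm]
  congr 1
  · simp
  · rw [← neg_zero, ← integral_comp_neg_Ioi]
    simp [ksm_even]

theorem ksm_psi_bd {A l e δ σ : ℝ} {h : ℝ → ℝ} (hA : 0 < A) (hl : 1 ≤ l)
    (hb : ∀ v : ℂ, ‖L2 h v‖ ≤ 2 * A * A ^ 2 * Real.exp (A * |v.re|))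
    (he : A * e + e ^ 2 ≤ δ ^ 2 / 32) (hδ : 0 < δ) (hσ : σ ≤ e * l + 2) (x y : ℝ) (hx : 0 ≤ x)
    (hxσ : x ≤ σ) (hy : δ * l / 2 ≤ |y|) :
    ‖Psi l h (x + y * I)‖ ≤ 2 * A ^ 3 * Real.exp (2 * A + 4) * Real.exp (-(δ ^ 2 / 32 * l)) *
      Real.exp (-(1 / (4 * l)) * y ^ 2) := by
  have hl0 : 0 < l := by linarith
  have e1 : ((x + y * I : ℂ) ^ 2 / (2 * l)).re = (x ^ 2 - y ^ 2) / (2 * l) := by
    rw [show (2 * l : ℂ) = ((2 * l : ℝ) : ℂ) by push_cast; ring, div_ofReal_re]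
    simp [pow_two]
  rw [Psi, norm_mul, Complex.norm_exp, e1]
  refine (mul_le_mul_of_nonneg_right (hb _) (Real.exp_pos _).le).trans ?_
  have e2 : (x + y * I : ℂ).re = x := by simp
  rw [e2, abs_of_nonneg hx, mul_assoc (2 * A * A ^ 2), mul_assoc (2 * A ^ 3 * _),
    mul_assoc (2 * A ^ 3), ← Real.exp_add, ← Real.exp_add, ← Real.exp_add,
    show 2 * A * A ^ 2 = 2 * A ^ 3 by ring]
  refine mul_le_mul_of_nonneg_left (Real.exp_le_exp.2 ?_) (by positivity)
  have h1 : x ≤ e * l + 2 := hxσ.trans hσ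
  have h2 : x ^ 2 ≤ 2 * (e * l) ^ 2 + 8 := by nlinarith [sq_nonneg (e * l - 2)]
  have h3 : (δ * l / 2) ^ 2 ≤ y ^ 2 := by
    rw [← sq_abs y]
    exact pow_le_pow_left₀ (by positivity) hy 2
  have h4 : (x ^ 2 - y ^ 2) / (2 * l) ≤ e ^ 2 * l + 4 - δ ^ 2 / 16 * l + -(1 / (4 * l)) * y ^ 2 := by
    rw [div_le_iff₀ (by positivity)]
    have : (e ^ 2 * l + 4 - δ ^ 2 / 16 * l + -(1 / (4 * l)) * y ^ 2) * (2 * l) =
        2 * (e * l) ^ 2 + 8 * l - (δ * l / 2) ^ 2 / 2 - y ^ 2 / 2 := by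
      field_simp
      ring
    rw [this]
    linarith
  have h5 := mul_le_mul_of_nonneg_right he hl0.le
  have h6 := mul_le_mul_of_nonneg_left h1 hA.le
  nlinarith

theorem ksm_tail (F : ℝ → ℂ) (hF : Integrable F) {Y K l : ℝ} (hY : 0 ≤ Y) (hK : 0 ≤ K) (hl : 1 ≤ l)
    (hb : ∀ y : ℝ, Y ≤ |y| → ‖F y‖ ≤ K * Real.exp (-(1 / (4 * l)) * y ^ 2)) :
    ‖(∫ y, F y) - ∫ y in (-Y)..Y, F y‖ ≤ K * (4 * l) := by
  have hl0 : 0 < l := by linarith
  have hi : Integrable fun y : ℝ => K * Real.exp (-(1 / (4 * l)) * y ^ 2) :=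
    (integrable_exp_neg_mul_sq (by positivity)).const_mul K
  rw [intervalIntegral.integral_of_le (by linarith),
    ← integral_add_compl (measurableSet_Ioc (a := -Y) (b := Y)) hF, add_sub_cancel_left]
  refine (norm_integral_le_of_norm_le hi.integrableOn ?_).trans
    ((setIntegral_le_integral hi (Eventually.of_forall fun y => by positivity)).trans ?_)
  · refine (ae_restrict_iff' measurableSet_Ioc.compl).2 (Eventually.of_forall fun y hy => hb y ?_)
    simp only [Set.mem_compl_iff, Set.mem_Ioc, not_and_or, not_lt, not_le] at hy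
    rcases hy with hy | hy
    · exact le_abs.2 (Or.inr (by linarith))
    · exact le_abs.2 (Or.inl hy.le)
  · rw [integral_const_mul, integral_gaussian]
    refine mul_le_mul_of_nonneg_left (Real.sqrt_le_iff.2 ⟨by positivity, ?_⟩) hK
    rw [div_div_eq_mul_div, div_one]
    nlinarith [Real.pi_le_four]

theorem ksm_main (P : ℝ → ℂ) (Rr : ℝ → ℂ) {Y M s : ℝ} (hY : 0 ≤ Y) (hM : 0 ≤ M) (hP : Integrable P)
    (hp : ∀ y, ∃ p : ℝ, 0 ≤ p ∧ P y = p) (hs : (s : ℂ) = (∫ y, P y) / (2 * π))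
    (hc : ContinuousOn (fun y => P y * Rr y) (Set.Icc (-Y) Y))
    (hR : ∀ y : ℝ, |y| ≤ Y → (Rr y).re ≤ M) :
    (∫ y in (-Y)..Y, P y * Rr y).re ≤ 2 * π * (M * s) := by
  choose p hp0 hp1 using hp
  have e : P = fun y => (p y : ℂ) := funext hp1
  subst e
  have hi : Integrable p := by simpa using hP.re
  have e1 : ∫ y, p y = 2 * π * s := by
    rw [integral_complex_ofReal] at hs
    have h1 : s = (∫ y, p y) / (2 * π) := by exact_mod_cast hs
    rw [h1]
    field_simp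
  have h2 : IntegrableOn (fun y => (p y : ℂ) * Rr y) (Set.Ioc (-Y) Y) :=
    (hc.integrableOn_Icc).mono_set Set.Ioc_subset_Icc_self
  rw [intervalIntegral.integral_of_le (by linarith)]
  have h3 := integral_re h2
  simp only [RCLike.re_to_complex] at h3
  rw [← h3]
  refine (setIntegral_mono_on h2.re (hi.mul_const M).integrableOn measurableSet_Ioc
    fun y hy => ?_).trans ((setIntegral_le_integral (hi.mul_const M)
      (Eventually.of_forall fun y => mul_nonneg (hp0 y) hM)).trans (le_of_eq ?_))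
  · simp only [RCLike.re_to_complex, re_ofReal_mul]
    exact mul_le_mul_of_nonneg_left (hR y (abs_le.2 ⟨hy.1.le, hy.2⟩)) (hp0 y)
  · rw [integral_mul_const, e1]
    ring

end Pool.Agent.Lib.PS
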