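import Pool.Agent.Lib.PS.MAIN1

/-!
Block MAIN: lower bound for the main term.
-/

namespace Pool.Agent.Lib.PS

open Finset Real Complex Filter
open scoped Classical

theorem main_mem_PP {Q : ℕ} {x : XX} (hx : x ∈ PP Q) : 2 ≤ x.1 ∧ x.1 ≤ Q ∧ x.2 ∈ prim x.1 := by
  have h := Finset.mem_sigma.1 hx
  exact ⟨(mem_Icc.1 h.1).1, (mem_Icc.1 h.1).2, h.2⟩

theorem blk_MAIN (Lm : ℝ) (hL : Lm ≤ 4) (hPB : St_PB) (hEXP : St_EXP) (hSTR : St_STR)
    (hSING2 : St_SING2) (hWT : St_WT) (hFAM : St_FAM) (hLARGE : St_LARGE) (hSMALL : St_SMALL) :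
    St_CORE Lm → St_MAIN Lm := by
  rintro ⟨α, K, hα, hK, hαK, hcore⟩
  refine ⟨α, K, hα, hK, hαK, fun η c2 hη hη' hc2 => ?_⟩
  have hα4 : α ≤ 4 := by linarith
  have hK1 : K ≤ 1 := by linarith
  have hη5 : η ≤ 1 / 5 := by linarith
  have hcg0 : 0 < η ^ 2 / 10 := by positivity
  have hcg1 : η ^ 2 / 10 ≤ 1 := by nlinarith
  obtain ⟨cg, hcg⟩ : ∃ cg : ℝ, cg = η ^ 2 / 10 := ⟨_, rfl⟩
  rw [← hcg] at hcg0 hcg1
  obtain ⟨Cs, hCs, hstr⟩ := hSTR (1 / 4) (by norm_num)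
  obtain ⟨W0, N0, T, e1c, hW0, hN0, hT, he1c, hcore⟩ := hcore cg Cs hcg0 hcg1 hCs
  obtain ⟨⟨c7, l7, hc7, hsm1⟩, e1s, he1s, hsm2⟩ := hSMALL α K cg hα.le hα4 hK hK1 hcg0 hcg1
  obtain ⟨c3, l3, hc3, hwt⟩ :=
    (hWT α K hα.le hα4 hK hK1).2.2.2.2.2 η cg hη (by linarith) hcg0 hcg1
  have hW : 0 < W0.factorial := Nat.factorial_pos W0
  have hWe : Even W0.factorial := (Nat.dvd_factorial two_pos hW0 |> even_iff_two_dvd.2)
  refine ⟨cg, W0.factorial, N0, T, e1s, hcg0, hcg1, hW, he1s, fun e2 he2 he2' => ?_⟩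
  obtain ⟨η1, hη1, hη1a, hη1b, hη1c, hη1d⟩ : ∃ η1 : ℝ, 0 < η1 ∧ η1 ≤ e1c ∧ η1 ≤ η / 2 ∧
      η1 ≤ e2 / 4 ∧ η1 ≤ c3 / 8 :=
    ⟨min (min e1c (η / 2)) (min (e2 / 4) (c3 / 8)), by positivity,
      (min_le_left _ _).trans (min_le_left _ _), (min_le_left _ _).trans (min_le_right _ _),
      (min_le_right _ _).trans (min_le_left _ _), (min_le_right _ _).trans (min_le_right _ _)⟩
  obtain ⟨κ, hκ, hκa, hκb, hκc, hκd, hκe, hκf⟩ : ∃ κ : ℝ, 0 < κ ∧ κ ≤ c7 ∧ κ ≤ c3 / 4 ∧ κ ≤ c2 ∧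
      κ ≤ η / 8 ∧ κ ≤ e2 ∧ κ ≤ η1 / 4 :=
    ⟨min (min c7 c2) (η1 / 4), by positivity,
      (min_le_left _ _).trans (min_le_left _ _), (min_le_right _ _).trans (by linarith),
      (min_le_left _ _).trans (min_le_right _ _), (min_le_right _ _).trans (by linarith),
      (min_le_right _ _).trans (by linarith), min_le_right _ _⟩
  refine ⟨κ / 4, by positivity, fun ε hε hε' => ?_⟩
  obtain ⟨Cd, hCd, hdiv⟩ := main_div (ε := c3 / 20) (by positivity)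
  obtain ⟨C2, hC2, hs2⟩ := hSING2 (κ / 24) (by positivity)
  obtain ⟨lc, hcore⟩ := hcore e2 η1 (ε / 2) he2 hη1 hη1a (by positivity)
  obtain ⟨ls, hsm2⟩ := hsm2 e2 he2 he2' W0.factorial hW hWe
  obtain ⟨lL, hlarge⟩ := hLARGE α K η η1 cg W0 hα hα4 hK hK1 hη hη' hη1 hη1b hcg0 hcg.le hW0
  obtain ⟨C', hC1, hC'⟩ : ∃ C' : ℝ, 1 ≤ C' ∧ C2 ≤ C' := ⟨max 1 C2, le_max_left _ _, le_max_right _ _⟩
  have ev : ∀ᶠ l : ℝ in atTop, (lc ≤ l ∧ ls ≤ l ∧ lL ≤ l ∧ l7 ≤ l ∧ l3 ≤ l ∧ 1 ≤ l) ∧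
      3 ≤ Real.exp (1 / 2 * l) ∧ (W0.factorial : ℝ) ≤ Real.exp (1 * l) ∧
      2 ≤ Real.exp (η / 8 * l) ∧ Cd ≤ Real.exp (c3 / 4 * l) ∧
      16 * C' ^ 3 * l ≤ Real.exp (κ / 4 * l) ∧ 2 ≤ Real.exp (ε / 2 * l) := by
    filter_upwards [eventually_ge_atTop lc, eventually_ge_atTop ls, eventually_ge_atTop lL,
      eventually_ge_atTop l7, eventually_ge_atTop l3, eventually_ge_atTop 1,
      main_ev' 3 (1 / 2) (by norm_num), main_ev' W0.factorial 1 one_pos,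
      main_ev' 2 (η / 8) (by positivity), main_ev' Cd (c3 / 4) (by positivity),
      main_ev (16 * C' ^ 3) (κ / 4) (by positivity), main_ev' 2 (ε / 2) (by positivity)]
      with l h1 h2 h3 h4 h5 h6 h7 h8 h9 h10 h11 h12
    exact ⟨⟨h1, h2, h3, h4, h5, h6⟩, h7, h8, h9, h10, h11, h12⟩
  obtain ⟨l0, hl0⟩ := eventually_atTop.1 ev
  refine ⟨l0, fun l hl Q n hQ1 hQ2 hn0 hn hgood hS0 hS1 => ?_⟩
  obtain ⟨⟨hlc, hls, hlL, hl7, hl3, hl1⟩, F1, F2, F3, F4, F5, F6⟩ := hl0 l hl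
  have hlpos : 0 < l := by linarith
  have mono : ∀ a b : ℝ, a ≤ b → Real.exp (a * l) ≤ Real.exp (b * l) := fun a b h =>
    Real.exp_le_exp.2 (mul_le_mul_of_nonneg_right h hlpos.le)
  have one_le : ∀ a : ℝ, 0 ≤ a → 1 ≤ Real.exp (a * l) := fun a h =>
    Real.one_le_exp (mul_nonneg h hlpos.le)
  have eadd : ∀ a b : ℝ, Real.exp (a * l) * Real.exp (b * l) = Real.exp ((a + b) * l) :=
    fun a b => by rw [← Real.exp_add, add_mul]
  have eneg : ∀ a : ℝ, Real.exp (-(a * l)) = Real.exp ((-a) * l) := fun a => by rw [neg_mul]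
  set W := W0.factorial with hWdef
  have hQ3 : (Q : ℝ) + 1 ≤ Real.exp (2 * l) := by
    have h1 := mono (1 + η + 1 / 2) 2 (by linarith)
    have h2 := one_le (1 + η) (by linarith)
    rw [← eadd] at h1
    nlinarith
  have hQ0 : 1 ≤ Q := by exact_mod_cast (one_le (1 + η) (by linarith)).trans hQ1
  have hWQ : W ≤ Q := by exact_mod_cast F2.trans ((mono _ _ (by linarith)).trans hQ1)
  have hPR : ∀ p ∈ PR (Ylo α η l) (Yhi α K η l), p.Prime ∧ Q < p := by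
    intro p hp
    obtain ⟨h1, h2⟩ := mem_filter.1 hp
    refine ⟨h2, ?_⟩
    have h3 : Real.exp ((α - η) * l) ≤ p :=
      (Nat.le_ceil _).trans (by exact_mod_cast (mem_Ico.1 h1).1)
    have h4 := mono 2 (α - η) (by linarith)
    have : (Q : ℝ) + 1 ≤ p := by linarith
    exact_mod_cast this
  have hcop : ∀ p ∈ PR (Ylo α η l) (Yhi α K η l), Nat.Coprime p W := fun p hp =>
    Nat.coprime_of_lt_prime hW.ne' (hWQ.trans_lt (hPR p hp).2) (hPR p hp).1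
  obtain ⟨R, hR⟩ : ∃ R : ℕ, R = ⌊Real.exp (η1 * l)⌋₊ := ⟨_, rfl⟩
  have hR1 : (R : ℝ) ≤ Real.exp (η1 * l) := hR ▸ Nat.floor_le (Real.exp_pos _).le
  have hR2 : Real.exp (η1 * l) ≤ 2 * R := hR ▸ main_floor (one_le _ hη1.le)
  obtain ⟨z, hz⟩ : ∃ z : ℕ, z = ⌊Real.exp (η / 4 * l)⌋₊ := ⟨_, rfl⟩
  have hz1 : (z : ℝ) ≤ Real.exp (η / 4 * l) := hz ▸ Nat.floor_le (Real.exp_pos _).le
  have hz2 : Real.exp (η / 4 * l) ≤ 2 * z := hz ▸ main_floor (one_le _ (by positivity))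
  have hz0 : 1 ≤ z := by
    have := Real.exp_pos (η / 4 * l)
    exact Nat.pos_of_ne_zero (by rintro rfl; simp at hz2; linarith)
  obtain ⟨u, hu⟩ : ∃ u : ℝ, u = Real.exp (-κ * l) := ⟨_, rfl⟩
  have hu0 : 0 < u := hu ▸ Real.exp_pos _
  have hu1 : u ≤ 1 := by
    rw [hu, Real.exp_le_one_iff]; nlinarith
  have hule : ∀ c : ℝ, κ ≤ c → Real.exp (-(c * l)) ≤ u := fun c h => by
    rw [hu, eneg]; exact mono _ _ (by linarith)
  obtain ⟨B, hB⟩ : ∃ B : ℝ, B = C' * Real.exp (κ / 12 * l) := ⟨_, rfl⟩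
  have hpow : ∀ t : ℝ, 0 ≤ t → t ≤ Q + 1 → t ^ (κ / 24) ≤ Real.exp (κ / 12 * l) := by
    intro t h0 h1
    refine (Real.rpow_le_rpow h0 (h1.trans hQ3) (by positivity)).trans (le_of_eq ?_)
    rw [← Real.exp_mul]
    congr 1
    ring
  have hBt : ∀ t : ℝ, 0 ≤ t → t ≤ Q + 1 → C2 * t ^ (κ / 24) ≤ B := fun t h0 h1 => by
    rw [hB]
    exact mul_le_mul hC' (hpow t h0 h1) (by positivity) (by linarith)
  have hBt' : ∀ t : ℝ, 0 ≤ t → t ≤ Q + 1 → t ^ (κ / 24) ≤ B := fun t h0 h1 => by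
    rw [hB]
    exact (hpow t h0 h1).trans (le_mul_of_one_le_left (Real.exp_pos _).le hC1)
  have hB1 : 1 ≤ B := hB ▸ one_le_mul_of_one_le_of_one_le hC1 (one_le _ (by positivity))
  have hSB : |S0 n Q| ≤ B := by
    have := (hs2 1 n one_pos).2.1 Q
    rw [main_Sr_one] at this
    exact this.trans (hBt _ (by positivity) le_rfl)
  have hcard : (((PP Q).filter (Rel n W R)).card : ℝ) * Real.exp (-(c3 * l)) ≤ u := by
    have h1 : (((PP Q).filter (Rel n W R)).card : ℝ) ≤ n.divisors.card * (R : ℝ) ^ 2 := by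
      exact_mod_cast hFAM.1 n W R Q hn0
    have h2 : (n : ℝ) ^ (c3 / 20) ≤ Real.exp (c3 / 4 * l) := by
      refine (Real.rpow_le_rpow (Nat.cast_nonneg n) hn (by positivity)).trans (le_of_eq ?_)
      rw [← Real.exp_mul]
      congr 1
      ring
    have h3 : (n.divisors.card : ℝ) ≤ Real.exp (c3 / 4 * l) * Real.exp (c3 / 4 * l) :=
      (hdiv n hn0).trans (mul_le_mul F4 h2 (by positivity) (Real.exp_pos _).le)
    have h4 : (R : ℝ) ^ 2 ≤ Real.exp (c3 / 8 * l) * Real.exp (c3 / 8 * l) := by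
      rw [← sq]
      exact pow_le_pow_left₀ (Nat.cast_nonneg R) (hR1.trans (mono _ _ hη1d)) 2
    calc _ ≤ (Real.exp (c3 / 4 * l) * Real.exp (c3 / 4 * l)) *
          (Real.exp (c3 / 8 * l) * Real.exp (c3 / 8 * l)) * Real.exp (-(c3 * l)) := by
          refine mul_le_mul_of_nonneg_right (h1.trans ?_) (Real.exp_pos _).le
          gcongr
      _ = Real.exp (-(c3 / 4 * l)) := by
          rw [eneg, eneg, eadd, eadd, eadd, eadd]; congr 2; ring
      _ ≤ u := hule _ hκb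
  have hchar : ∀ x ∈ PP Q, ∀ k, ‖x.2 k‖ ≤ 1 := fun x hx =>
    (hPB.2.1 x.1 x.2 (by have := (main_mem_PP hx).1; omega) (main_mem_PP hx).2.2).2.1.2.2
  have hdiff : ∀ D ⊆ (PP Q).filter (Rel n W R),
      ∑ x ∈ D, ‖psiP x.2 l cg α K η / l - psiT (tw W x.2) l cg α K‖ ≤ u := by
    intro D hD
    refine (Finset.sum_le_card_nsmul D _ (Real.exp (-(c3 * l))) fun x hx => ?_).trans ?_
    · rw [← main_tw W x.2 l cg α K η hcop]
      exact hwt l hl3 _ (main_tw_norm W _ (hchar x (mem_filter.1 (hD hx)).1))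
    · rw [nsmul_eq_mul]
      refine le_trans (mul_le_mul_of_nonneg_right ?_ (Real.exp_pos _).le) hcard
      exact_mod_cast card_le_card hD
  have hom : ∀ x : XX, 0 ≤ mainOm n x ∧ mainOm n x ≤ 1 ∧
      (¬ RelW n W x → mainOm n x ≤ Cs * (W0 : ℝ) ^ (-(1 / 4 : ℝ))) := by
    intro x
    have h0 : 0 ≤ Cs * (W0 : ℝ) ^ (-(1 / 4 : ℝ)) := by positivity
    unfold mainOm
    split_ifs with h
    · have hloc := (hs2 x.1 n h.1).1.1
      by_cases hg : gam x.1 x.2 n = 0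
      · simp only [hg, norm_zero, zero_div]
        exact ⟨le_rfl, zero_le_one, fun _ => h0⟩
      · obtain ⟨q, ψ, hd, h1, -, h3⟩ := hstr W0 x.1 n x.2 hW0 h.1 h.2 hg
        refine ⟨by positivity, (div_le_one hloc).2 h1, fun hn => ?_⟩
        rw [div_le_iff₀ hloc]
        exact h3 fun hq => hn ⟨q, ψ, hq, hd⟩
    · exact ⟨le_rfl, zero_le_one, fun _ => h0⟩
  have homg : ∀ x ∈ PP Q, ‖gam x.1 x.2 n‖ = mainOm n x * loc x.1 n ∧ 0 < loc x.1 n ∧
      loc x.1 n ≤ B ∧ |Sr x.1 n (Q / x.1)| ≤ B := by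
    intro x hx
    obtain ⟨h1, h2, h3⟩ := main_mem_PP hx
    have h0 : 0 < x.1 := by omega
    have hloc := (hs2 x.1 n h0).1
    have h4 : (x.1 : ℝ) ≤ Q + 1 := by exact_mod_cast h2.trans (Nat.le_succ Q)
    have h5 : ((Q / x.1 : ℕ) : ℝ) + 1 ≤ Q + 1 := by
      exact_mod_cast Nat.succ_le_succ (Nat.div_le_self Q x.1)
    refine ⟨?_, hloc.1, hloc.2.trans (hBt _ (by positivity) h4),
      ((hs2 x.1 n h0).2.1 _).trans (hBt _ (by positivity) h5)⟩
    unfold mainOm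
    rw [if_pos ⟨h0, h3⟩, div_mul_cancel₀ _ hloc.1.ne']
  have hBadPP : Bad Q W T e2 ⊆ PP Q := filter_subset _ _
  have hsr : ∀ x ∈ (Bad Q W T e2).filter (Rel n W R),
      |Sr x.1 n (Q / x.1) - S0 n Q / loc x.1 n| ≤ 5 * B ^ 2 * u := by
    intro x hx
    obtain ⟨hb, q, ψ, hq, hd⟩ := mem_filter.1 hx
    obtain ⟨h1, h2, h3⟩ := main_mem_PP (hBadPP hb)
    have h0 : 0 < x.1 := by omega
    have hM : (Mof n W x.1 : ℝ) ≤ Real.exp l := by
      have := hgood {x} (singleton_subset_iff.2 hb) (by rw [card_singleton]; omega)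
      simpa using this
    have hr : (x.1 : ℝ) ≤ Real.exp ((1 + η / 2) * l) := by
      have h4 : (q : ℝ) ≤ Real.exp (η / 2 * l) :=
        le_trans (by exact_mod_cast hq) (hR1.trans (mono _ _ hη1b))
      rw [← eadd, one_mul]
      conv_lhs => rw [hd.1]
      push_cast
      gcongr
    have h6 := (hs2 x.1 n h0).2.2 (Q / x.1) z (S0 n Q) (Real.exp (-(c2 * l))) hz0
      fun e he1 he2 => hS0 _ (main_range F3 h0 he1 ?_)
        ((Nat.div_le_self _ _).trans (Nat.div_le_self _ _))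
    · have h4 : (x.1 : ℝ) ≤ Q + 1 := by exact_mod_cast h2.trans (Nat.le_succ Q)
      have h5 : ((Q / x.1 : ℕ) : ℝ) + 1 ≤ Q + 1 := by
        exact_mod_cast Nat.succ_le_succ (Nat.div_le_self Q x.1)
      have h7 : Real.exp (η / 8 * l) ≤ 2 * √(z : ℝ) := by
        have h8 : Real.exp (η / 8 * l) / 2 ≤ √(z : ℝ) := by
          apply Real.le_sqrt_of_sq_le
          have h9 := eadd (η / 8) (η / 8)
          rw [show η / 8 + η / 8 = η / 4 by ring] at h9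
          have : (0 : ℝ) ≤ z := Nat.cast_nonneg z
          nlinarith
        linarith
      have hsq : 0 < √(z : ℝ) := Real.sqrt_pos.2 (by exact_mod_cast hz0)
      have h10 : 1 ≤ 2 * u * √(z : ℝ) := by
        have h11 := hule _ hκd
        have h12 := eadd (-(η / 8)) (η / 8)
        rw [neg_add_cancel, zero_mul, Real.exp_zero, ← eneg] at h12
        have := mul_le_mul h11 h7 (Real.exp_pos _).le hu0.le
        linarith
      have h13 : ((((Q / x.1 : ℕ) : ℝ) + 1) ^ (κ / 24) + |S0 n Q|) / √(z : ℝ) ≤ 4 * B * u := by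
        rw [div_le_iff₀ hsq]
        have := hBt' _ (by positivity) h5
        nlinarith
      have h14 := hule _ hκc
      refine h6.trans ((mul_le_mul (hBt _ (by positivity) h4) (add_le_add h14 h13)
        (by positivity) (by linarith)).trans ?_)
      nlinarith [mul_nonneg (mul_nonneg (sub_nonneg.2 hB1) (zero_le_one.trans hB1)) hu0.le]
    · have h4 : (e : ℝ) ≤ Real.exp (η / 4 * l) := le_trans (by exact_mod_cast he2) hz1
      refine le_trans ?_ hQ1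
      calc Real.exp (η / 8 * l) ^ 2 * ((x.1 : ℝ) * e) ≤ Real.exp (η / 8 * l) ^ 2 *
            (Real.exp ((1 + η / 2) * l) * Real.exp (η / 4 * l)) := by gcongr
        _ = _ := by rw [sq, eadd, eadd, eadd]; congr 2; ring
  have hP1 : ‖psiP (fun _ => 1) l cg α K η / l - 1‖ ≤ 2 * u := by
    have h1 := (hwt l hl3 1 (by simp)).trans (hule _ (by linarith))
    have h2 := (hsm1 l hl7).trans (hule _ hκa)
    have h3 := norm_add_le (psiP 1 l cg α K η / l - psiT 1 l cg α K) (psiT 1 l cg α K - 1)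
    rw [sub_add_sub_cancel] at h3
    change ‖psiP 1 l cg α K η / l - 1‖ ≤ 2 * u
    linarith
  have hLg : ‖∑ x ∈ (PP Q).filter (fun x => ¬ Rel n W R x),
      psiP x.2 l cg α K η * gam x.1 x.2 n * (Sr x.1 n (Q / x.1) : ℂ)‖ ≤ u := by
    refine (norm_sum_le _ _).trans (le_trans (le_of_eq ?_)
      ((hlarge l hlL Q R n hQ2 hR2 hn0 hn).trans (hule _ hκf)))
    refine Finset.sum_congr rfl fun x _ => ?_
    rw [norm_mul, norm_mul, Complex.norm_real, Real.norm_eq_abs]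
  have key := main_abs ((Bad Q W T e2).filter (Rel n W R))
    ((PP Q).filter (fun x => Rel n W R x ∧ x ∉ Bad Q W T e2))
    (fun x => psiP x.2 l cg α K η) (fun x => psiT (tw W x.2) l cg α K) (fun x => gam x.1 x.2 n)
    (fun x => Sr x.1 n (Q / x.1)) (fun x => loc x.1 n) (mainOm n) _ _ (S0 n Q) l B u
    (Real.exp (-(ε / 2 * l))) hl1 hB1 hu0.le hu1 (Real.exp_pos _).le hSB hP1 hLg
    (hdiff _ (filter_subset_filter _ hBadPP))
    (hdiff _ fun x hx => mem_filter.2 ⟨(mem_filter.1 hx).1, (mem_filter.1 hx).2.1⟩)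
    (fun x hx => by
      have h := homg x (hBadPP (mem_filter.1 hx).1)
      exact ⟨h.1, h.2.1, h.2.2.1, (hom x).1, (hom x).2.1, hsr x hx⟩)
    (fun x hx => by
      have h := homg x (mem_filter.1 hx).1
      refine ⟨?_, h.2.2.2⟩
      rw [h.1]
      exact (mul_le_of_le_one_left h.2.1.le (hom x).2.1).trans h.2.2.1)
    ((hsm2 l hls Q R n T (by linarith) (hR1.trans (mono _ _ hη1c)) hn0 hn hT).trans (hule _ hκe))
    (hcore l hlc Q R n (mainOm n) ((mono _ _ (by linarith)).trans hQ1) hR2 hR1 hn0 hn hgood hom)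
  rw [← main_split hPB Q n W R T e2 hQ0 fun χ => psiP χ l cg α K η] at key
  have hexp := hEXP Q n _ (fun p => (ap l cg α K p : ℂ)) hPR
  have hfin : ((∑ p ∈ PR (Ylo α η l) (Yhi α K η l),
      ap l cg α K p * (nu Q ((n : ℤ) - p) : ℝ) : ℝ) : ℂ) = ∑ r ∈ Icc 1 Q, ∑ χ ∈ prim r,
        psiP χ l cg α K η * gam r χ n * (Sr r n (Q / r) : ℂ) := by
    push_cast
    exact hexp
  rw [← hfin, Complex.norm_real, Real.norm_eq_abs] at key
  refine le_trans ?_ key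
  have e1 : 16 * l * B ^ 3 * u ≤ Real.exp (-(2 * ε * l)) := by
    calc 16 * l * B ^ 3 * u = (16 * C' ^ 3 * l) * (Real.exp (κ / 12 * l) *
          Real.exp (κ / 12 * l) * Real.exp (κ / 12 * l) * Real.exp (-κ * l)) := by
          rw [hB, hu]; ring
      _ ≤ Real.exp (κ / 4 * l) * (Real.exp (κ / 12 * l) *
          Real.exp (κ / 12 * l) * Real.exp (κ / 12 * l) * Real.exp (-κ * l)) := by gcongr
      _ ≤ _ := by
          rw [eadd, eadd, eadd, eadd, eneg]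
          exact mono _ _ (by linarith)
  have e2 : 2 * Real.exp (-(2 * ε * l)) ≤ l * |S0 n Q| * Real.exp (-(ε / 2 * l)) := by
    calc 2 * Real.exp (-(2 * ε * l)) ≤ Real.exp (ε / 2 * l) * Real.exp (-(2 * ε * l)) := by gcongr
      _ = 1 * Real.exp (-(ε * l)) * Real.exp (-(ε / 2 * l)) := by
          rw [one_mul, eneg, eneg, eneg, eadd, eadd]; congr 2; ring
      _ ≤ _ := by gcongr
  linarith

end Pool.Agent.Lib.PS
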