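import Pool.Agent.Lib.PS.Blue
import Pool.Agent.Lib.MP_fb430f_co.Circle

/-!
Block MAIN, first part: the abstract inequality and small helpers.
-/

namespace Pool.Agent.Lib.PS

open Finset Real Complex Filter
open scoped Classical

theorem main_div {ε : ℝ} (hε : 0 < ε) :
    ∃ C : ℝ, 0 < C ∧ ∀ m : ℕ, 0 < m → (m.divisors.card : ℝ) ≤ C * (m : ℝ) ^ ε := by
  obtain ⟨C, hC, h⟩ := Pool.Agent.Lib.MP_fb430f_co.div_bound hε
  refine ⟨C, hC, fun m hm => le_trans ?_ (h m hm.ne')⟩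
  rw [Nat.card_divisors hm.ne']
  exact_mod_cast Finset.prod_le_prod' fun p _ => by omega

theorem main_ev (C c : ℝ) (hc : 0 < c) : ∀ᶠ l : ℝ in atTop, C * l ≤ Real.exp (c * l) := by
  filter_upwards [eventually_ge_atTop (2 * |C| / c ^ 2), eventually_ge_atTop 0] with l h h0
  have h1 := Real.quadratic_le_exp_of_nonneg (mul_nonneg hc.le h0)
  have h2 : 2 * |C| ≤ l * c ^ 2 := by rwa [div_le_iff₀ (by positivity)] at h
  have h3 : C * l ≤ |C| * l := mul_le_mul_of_nonneg_right (le_abs_self C) h0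
  have h4 : 0 ≤ c * l := mul_nonneg hc.le h0
  nlinarith

theorem main_ev' (C c : ℝ) (hc : 0 < c) : ∀ᶠ l : ℝ in atTop, C ≤ Real.exp (c * l) := by
  filter_upwards [main_ev |C| c hc, eventually_ge_atTop 1] with l h h1
  have := le_abs_self C
  have := abs_nonneg C
  nlinarith

theorem main_termA (P T g : ℂ) (s lc om S l B u : ℝ) (hl : 0 < l) (hB : 1 ≤ B) (hu : 0 ≤ u)
    (hS : |S| ≤ B) (hg : ‖g‖ = om * lc) (hlc : 0 < lc) (hlcB : lc ≤ B) (hom : 0 ≤ om)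
    (hom1 : om ≤ 1) (hs : |s - S / lc| ≤ 5 * B ^ 2 * u) :
    ‖P * g * (s : ℂ)‖ ≤ l * |S| * (om * ‖T‖) + l * B * ‖P / l - T‖ +
      5 * l * B ^ 3 * u * (om * ‖T‖ + ‖P / l - T‖) := by
  set d := ‖P / l - T‖ with hd
  have hd0 : 0 ≤ d := norm_nonneg _
  have hT0 : 0 ≤ ‖T‖ := norm_nonneg _
  have hP : ‖P‖ ≤ l * (‖T‖ + d) := by
    have h1 : P = l * (T + (P / l - T)) := by
      have : (l : ℂ) ≠ 0 := by exact_mod_cast hl.ne'
      field_simp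
      ring
    calc ‖P‖ = ‖(l : ℂ) * (T + (P / l - T))‖ := by rw [← h1]
      _ = l * ‖T + (P / l - T)‖ := by rw [norm_mul, Complex.norm_real, Real.norm_of_nonneg hl.le]
      _ ≤ l * (‖T‖ + d) := mul_le_mul_of_nonneg_left (norm_add_le _ _) hl.le
  have hs1 : lc * |s| ≤ |S| + B * (5 * B ^ 2 * u) := by
    have h1 : |s| ≤ |S| / lc + 5 * B ^ 2 * u := by
      have := abs_sub_abs_le_abs_sub s (S / lc)
      rw [abs_div, abs_of_pos hlc] at this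
      linarith
    have h2 : lc * (|S| / lc) = |S| := by field_simp
    have h3 : lc * (5 * B ^ 2 * u) ≤ B * (5 * B ^ 2 * u) :=
      mul_le_mul_of_nonneg_right hlcB (by positivity)
    nlinarith [mul_le_mul_of_nonneg_left h1 hlc.le]
  rw [norm_mul, norm_mul, hg, Complex.norm_real, Real.norm_eq_abs]
  have hS0 := abs_nonneg S
  calc ‖P‖ * (om * lc) * |s| = ‖P‖ * om * (lc * |s|) := by ring
    _ ≤ l * (‖T‖ + d) * om * (|S| + B * (5 * B ^ 2 * u)) := by gcongr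
    _ = l * |S| * (om * ‖T‖) + l * (|S| * om) * d +
        5 * l * B ^ 3 * u * (om * ‖T‖ + om * d) := by ring
    _ ≤ l * |S| * (om * ‖T‖) + l * (B * 1) * d +
        5 * l * B ^ 3 * u * (om * ‖T‖ + 1 * d) := by gcongr
    _ = _ := by ring

theorem main_termN (P T g : ℂ) (s l B : ℝ) (hl : 0 < l) (hB : 1 ≤ B) (hg : ‖g‖ ≤ B)
    (hs : |s| ≤ B) : ‖P * g * (s : ℂ)‖ ≤ l * B ^ 2 * (‖T‖ + ‖P / l - T‖) := by
  have hP : ‖P‖ ≤ l * (‖T‖ + ‖P / l - T‖) := by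
    have h1 : P = l * (T + (P / l - T)) := by
      have : (l : ℂ) ≠ 0 := by exact_mod_cast hl.ne'
      field_simp
      ring
    calc ‖P‖ = ‖(l : ℂ) * (T + (P / l - T))‖ := by rw [← h1]
      _ = l * ‖T + (P / l - T)‖ := by rw [norm_mul, Complex.norm_real, Real.norm_of_nonneg hl.le]
      _ ≤ _ := mul_le_mul_of_nonneg_left (norm_add_le _ _) hl.le
  rw [norm_mul, norm_mul, Complex.norm_real, Real.norm_eq_abs]
  calc ‖P‖ * ‖g‖ * |s| ≤ l * (‖T‖ + ‖P / l - T‖) * B * B := by gcongr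
    _ = _ := by ring

theorem main_abs {ι : Type} (A N : Finset ι) (P T g : ι → ℂ) (s lc om : ι → ℝ) (P1 Lg : ℂ)
    (S l B u θ : ℝ) (hl : 1 ≤ l) (hB : 1 ≤ B) (hu : 0 ≤ u) (hu1 : u ≤ 1) (hθ : 0 ≤ θ)
    (hS : |S| ≤ B) (hP1 : ‖P1 / l - 1‖ ≤ 2 * u) (hLg : ‖Lg‖ ≤ u)
    (hPA : ∑ x ∈ A, ‖P x / l - T x‖ ≤ u) (hPN : ∑ x ∈ N, ‖P x / l - T x‖ ≤ u)
    (hA : ∀ x ∈ A, ‖g x‖ = om x * lc x ∧ 0 < lc x ∧ lc x ≤ B ∧ 0 ≤ om x ∧ om x ≤ 1 ∧
      |s x - S / lc x| ≤ 5 * B ^ 2 * u)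
    (hN : ∀ x ∈ N, ‖g x‖ ≤ B ∧ |s x| ≤ B) (hTN : ∑ x ∈ N, ‖T x‖ ≤ u)
    (hcore : ∑ x ∈ A, om x * ‖T x‖ ≤ 1 - θ) :
    l * |S| * θ - 16 * l * B ^ 3 * u ≤
      ‖P1 * (S : ℂ) + (∑ x ∈ A, P x * g x * (s x : ℂ) + ∑ x ∈ N, P x * g x * (s x : ℂ) + Lg)‖ := by
  have hl0 : 0 < l := by linarith
  have hS0 := abs_nonneg S
  have hB0 : 0 ≤ B := by linarith
  have h1 : ‖∑ x ∈ A, P x * g x * (s x : ℂ)‖ ≤ l * |S| * (1 - θ) + l * B * u +
      5 * l * B ^ 3 * u * (1 + 1) := by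
    refine (norm_sum_le _ _).trans ((Finset.sum_le_sum fun x hx =>
      main_termA (P x) (T x) (g x) (s x) (lc x) (om x) S l B u hl0 hB hu hS (hA x hx).1
        (hA x hx).2.1 (hA x hx).2.2.1 (hA x hx).2.2.2.1 (hA x hx).2.2.2.2.1
        (hA x hx).2.2.2.2.2).trans ?_)
    rw [Finset.sum_add_distrib, Finset.sum_add_distrib, ← Finset.mul_sum, ← Finset.mul_sum,
      ← Finset.mul_sum, Finset.sum_add_distrib]
    gcongr
    · linarith
    · linarith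
  have h2 : ‖∑ x ∈ N, P x * g x * (s x : ℂ)‖ ≤ l * B ^ 2 * (u + u) := by
    refine (norm_sum_le _ _).trans ((Finset.sum_le_sum fun x hx =>
      main_termN (P x) (T x) (g x) (s x) l B hl0 hB (hN x hx).1 (hN x hx).2).trans ?_)
    rw [← Finset.mul_sum, Finset.sum_add_distrib]
    gcongr
  have h3 : l * |S| - l * B * (2 * u) ≤ ‖P1 * (S : ℂ)‖ := by
    have h4 : P1 * (S : ℂ) = l * S + l * S * (P1 / l - 1) := by
      have : (l : ℂ) ≠ 0 := by exact_mod_cast hl0.ne'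
      field_simp
      ring
    have h5 : ‖(l : ℂ) * S‖ = l * |S| := by
      rw [norm_mul, Complex.norm_real, Complex.norm_real, Real.norm_of_nonneg hl0.le,
        Real.norm_eq_abs]
    have h6 : ‖(l : ℂ) * S * (P1 / l - 1)‖ ≤ l * B * (2 * u) := by
      rw [norm_mul, h5]
      gcongr
    have h7 := norm_sub_le (P1 * (S : ℂ)) (l * S * (P1 / l - 1))
    rw [show P1 * (S : ℂ) - l * S * (P1 / l - 1) = l * S by rw [h4]; ring, h5] at h7
    linarith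
  set X := ∑ x ∈ A, P x * g x * (s x : ℂ) + ∑ x ∈ N, P x * g x * (s x : ℂ) + Lg with hX
  have h8 : ‖X‖ ≤ ‖∑ x ∈ A, P x * g x * (s x : ℂ)‖ + ‖∑ x ∈ N, P x * g x * (s x : ℂ)‖ + ‖Lg‖ :=
    norm_add₃_le
  have h9 := norm_sub_le (P1 * (S : ℂ) + X) X
  rw [add_sub_cancel_right] at h9
  have hB2 : B ≤ B ^ 3 := by nlinarith [mul_self_nonneg (B - 1), mul_nonneg hB0 hB0]
  have hB3 : B ^ 2 ≤ B ^ 3 := pow_le_pow_right₀ hB (by norm_num)
  have hlu : 0 ≤ l * u := mul_nonneg hl0.le hu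
  have e1 : l * B * u ≤ l * B ^ 3 * u := by gcongr
  have e2 : l * B ^ 2 * u ≤ l * B ^ 3 * u := by gcongr
  have e3 : u ≤ l * B ^ 3 * u := by
    have : 1 ≤ l * B ^ 3 := one_le_mul_of_one_le_of_one_le hl (hB.trans hB2)
    nlinarith
  nlinarith

theorem main_gam_one (n : ℕ) : gam 1 (fun _ => 1) n = 1 := by simp [gam]

theorem main_Sr_one (n y : ℕ) : Sr 1 n y = S0 n y := by simp [Sr, S0]

/-- Splitting the character expansion. -/
theorem main_split (hPB : St_PB) (Q n W R : ℕ) (T e2 : ℝ) (hQ : 1 ≤ Q) (F : (ℕ → ℂ) → ℂ) :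
    ∑ r ∈ Icc 1 Q, ∑ χ ∈ prim r, F χ * gam r χ n * (Sr r n (Q / r) : ℂ) =
      F (fun _ => 1) * (S0 n Q : ℂ) +
      (∑ x ∈ (Bad Q W T e2).filter (Rel n W R),
          F x.2 * gam x.1 x.2 n * (Sr x.1 n (Q / x.1) : ℂ) +
        ∑ x ∈ (PP Q).filter (fun x => Rel n W R x ∧ x ∉ Bad Q W T e2),
          F x.2 * gam x.1 x.2 n * (Sr x.1 n (Q / x.1) : ℂ) +
        ∑ x ∈ (PP Q).filter (fun x => ¬ Rel n W R x),
          F x.2 * gam x.1 x.2 n * (Sr x.1 n (Q / x.1) : ℂ)) := by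
  have h1 : Icc 1 Q = insert 1 (Icc 2 Q) := by
    ext r
    simp only [mem_Icc, mem_insert]
    omega
  rw [h1, Finset.sum_insert (by simp), hPB.2.2.2.1, Finset.sum_singleton, main_gam_one,
    main_Sr_one, Nat.div_one, mul_one]
  congr 1
  rw [Finset.sum_sigma' (Icc 2 Q) prim
    (fun r χ => F χ * gam r χ n * (Sr r n (Q / r) : ℂ))]
  change ∑ x ∈ PP Q, F x.2 * gam x.1 x.2 n * (Sr x.1 n (Q / x.1) : ℂ) = _
  rw [← Finset.sum_filter_add_sum_filter_not (PP Q) (Rel n W R),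
    ← Finset.sum_filter_add_sum_filter_not ((PP Q).filter (Rel n W R))
      (fun x => x ∈ Bad Q W T e2)]
  congr 2
  · refine Finset.sum_congr ?_ fun _ _ => rfl
    ext x
    simp only [mem_filter, Bad]
    tauto
  · refine Finset.sum_congr ?_ fun _ _ => rfl
    ext x
    simp only [mem_filter]
    tauto

/-- The weights fed into the core estimate. -/
noncomputable def mainOm (n : ℕ) (x : XX) : ℝ :=
  if 0 < x.1 ∧ x.2 ∈ prim x.1 then ‖gam x.1 x.2 n‖ / loc x.1 n else 0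

theorem main_tw (W : ℕ) (χ : ℕ → ℂ) (l cg α K η : ℝ)
    (h : ∀ p ∈ PR (Ylo α η l) (Yhi α K η l), Nat.Coprime p W) :
    psiP (tw W χ) l cg α K η = psiP χ l cg α K η := by
  unfold psiP
  refine Finset.sum_congr rfl fun p hp => ?_
  simp only [tw, if_pos (h p hp)]

theorem main_tw_norm (W : ℕ) (χ : ℕ → ℂ) (h : ∀ k, ‖χ k‖ ≤ 1) (k : ℕ) : ‖tw W χ k‖ ≤ 1 := by
  unfold tw
  split_ifs
  · exact h k
  · simp

theorem main_floor {x : ℝ} (hx : 1 ≤ x) : x ≤ 2 * (⌊x⌋₊ : ℝ) := by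
  have h1 := Nat.lt_floor_add_one x
  have h2 : (1 : ℝ) ≤ ⌊x⌋₊ := by exact_mod_cast Nat.le_floor (by exact_mod_cast hx)
  linarith

/-- The shifted truncation points stay in the admissible range. -/
theorem main_range {Q r e : ℕ} {a : ℝ} (ha : 2 ≤ a) (hr : 0 < r) (he : 0 < e)
    (h : a ^ 2 * (r * e) ≤ Q) : a ≤ ((Q / r / e : ℕ) : ℝ) := by
  rw [Nat.div_div_eq_div_mul]
  have h0 : 0 < r * e := Nat.mul_pos hr he
  have h1 : (Q : ℝ) < (r * e : ℕ) * ((Q / (r * e) : ℕ) + 1) := by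
    exact_mod_cast Nat.lt_mul_div_succ Q h0
  have h2 : (0 : ℝ) < (r * e : ℕ) := by exact_mod_cast h0
  have h3 : a ^ 2 < ((Q / (r * e) : ℕ) : ℝ) + 1 := by
    push_cast at h1 h2
    by_contra hc
    nlinarith [mul_le_mul_of_nonneg_left (not_lt.1 hc) h2.le]
  nlinarith

end Pool.Agent.Lib.PS
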