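import Pool.Agent.Lib.PS.Blue

/-! Exponential sum tools for the minor arcs. -/

namespace Pool.Agent.Lib.PS

open Finset Real Complex
open scoped Classical ComplexConjugate

lemma min_ee_eq (x : ℝ) : ee x = cexp (I * ((2 * π * x : ℝ) : ℂ)) := by
  rw [ee]; congr 1; push_cast; ring

lemma min_ee_add (x y : ℝ) : ee (x + y) = ee x * ee y := by
  rw [ee, ee, ee, ← Complex.exp_add]; congr 1; push_cast; ring

lemma min_ee_int (n : ℤ) : ee n = 1 := by
  rw [ee, ← exp_int_mul_two_pi_mul_I n]; congr 1; push_cast; ring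

lemma min_norm_ee (x : ℝ) : ‖ee x‖ = 1 := by
  rw [min_ee_eq, mul_comm]; exact norm_exp_ofReal_mul_I _

lemma min_conj_ee (x : ℝ) : conj (ee x) = ee (-x) := by
  rw [ee, ee, ← exp_conj]; congr 1; simp [map_ofNat]

lemma min_lip (x : ℝ) : ‖ee x - 1‖ ≤ 2 * π * |x| := by
  rw [min_ee_eq]
  refine Real.norm_exp_I_mul_ofReal_sub_one_le.trans_eq ?_
  rw [Real.norm_eq_abs, abs_mul, abs_of_pos two_pi_pos]

lemma min_jordan {x : ℝ} (h : |x| ≤ 1 / 2) : 4 * |x| ≤ ‖ee x - 1‖ := by
  rw [min_ee_eq, norm_exp_I_mul_ofReal_sub_one, Real.norm_eq_abs, abs_mul, abs_two]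
  have h1 : |2 * π * x / 2| = π * |x| := by
    rw [show 2 * π * x / 2 = π * x by ring, abs_mul, abs_of_pos pi_pos]
  have h2 := mul_abs_le_abs_sin (x := 2 * π * x / 2) (by rw [h1]; nlinarith [pi_pos])
  rw [h1, show 2 / π * (π * |x|) = 2 * |x| by field_simp] at h2
  linarith

lemma min_geom (θ : ℝ) (a b : ℕ) : ‖∑ m ∈ Ico a b, ee (m * θ) * (ee θ - 1)‖ ≤ 2 := by
  rcases le_or_gt a b with h | h
  · have : ∑ m ∈ Ico a b, ee (m * θ) * (ee θ - 1) = ee (b * θ) - ee (a * θ) := by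
      induction b, h using Nat.le_induction with
      | base => simp
      | succ b hb ih =>
        rw [sum_Ico_succ_top hb, ih, Nat.cast_succ, add_mul, one_mul, min_ee_add]; ring
    rw [this]
    refine (norm_sub_le _ _).trans ?_
    rw [min_norm_ee, min_norm_ee]; norm_num
  · rw [Ico_eq_empty (by omega)]; simp

lemma min_abel {z : ℕ → ℂ} {B F : ℝ} {f : ℕ → ℝ} (hf : Monotone f) {b : ℕ}
    (hz : ∀ a, ‖∑ m ∈ Ico a b, z m‖ ≤ B) (hF : ∀ m < b, f m ≤ F) (n : ℕ) :
    ∀ (a : ℕ) (c : ℝ), b ≤ a + n → c ≤ f a → c ≤ F →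
      ‖∑ m ∈ Ico a b, ((f m - c : ℝ) : ℂ) * z m‖ ≤ (F - c) * B := by
  have hB : 0 ≤ B := (norm_nonneg _).trans (hz 0)
  induction n with
  | zero =>
    intro a c ha _ hc
    rw [Ico_eq_empty (by omega), sum_empty, norm_zero]
    exact mul_nonneg (by linarith) hB
  | succ n ih =>
    intro a c ha hc hc'
    rcases le_or_gt b a with h | h
    · rw [Ico_eq_empty (by omega), sum_empty, norm_zero]
      exact mul_nonneg (by linarith) hB
    have h1 := ih (a + 1) (f a) (by omega) (hf (Nat.le_succ a)) (hF a h)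
    have h2 : ∑ m ∈ Ico a b, ((f m - c : ℝ) : ℂ) * z m = ((f a - c : ℝ) : ℂ) * ∑ m ∈ Ico a b, z m
        + ∑ m ∈ Ico (a + 1) b, ((f m - f a : ℝ) : ℂ) * z m := by
      have h3 : ∑ m ∈ Ico (a + 1) b, ((f m - f a : ℝ) : ℂ) * z m =
          ∑ m ∈ Ico a b, ((f m - f a : ℝ) : ℂ) * z m := by
        rw [sum_eq_sum_Ico_succ_bot h]; simp
      rw [h3, mul_sum, ← sum_add_distrib]
      exact sum_congr rfl fun m _ => by push_cast; ring
    rw [h2]
    refine (norm_add_le _ _).trans ?_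
    rw [norm_mul, Complex.norm_real, Real.norm_of_nonneg (by linarith)]
    have := mul_le_mul_of_nonneg_left (hz a) (sub_nonneg.mpr hc)
    linarith

lemma min_abel2 {z : ℕ → ℂ} {B F G : ℝ} {f g : ℕ → ℝ} (hf : Monotone f) (hg : Antitone g) {b : ℕ}
    (hz : ∀ a, ‖∑ m ∈ Ico a b, z m‖ ≤ B) (hF : ∀ m < b, f m ≤ F) (hf0 : 0 ≤ f 0) (hF0 : 0 ≤ F)
    (hG : ∀ m, g m ≤ G) (hg0 : ∀ m, 0 ≤ g m) :
    ‖∑ m ∈ range b, (f m : ℂ) * ((g m : ℂ) * z m)‖ ≤ F * (2 * G * B) := by
  have hG0 : 0 ≤ G := (hg0 0).trans (hG 0)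
  have h1 : ∀ a, ‖∑ m ∈ Ico a b, (g m : ℂ) * z m‖ ≤ 2 * G * B := fun a => by
    have h2 := min_abel (f := fun m => G - g m) (F := G) (fun x y h => sub_le_sub_left (hg h) G) hz
      (fun m _ => by linarith [hg0 m]) b a 0 (by omega) (by linarith [hG a]) hG0
    have h3 : ∑ m ∈ Ico a b, (g m : ℂ) * z m = (G : ℂ) * ∑ m ∈ Ico a b, z m
        - ∑ m ∈ Ico a b, ((G - g m - 0 : ℝ) : ℂ) * z m := by
      rw [mul_sum, ← sum_sub_distrib]
      exact sum_congr rfl fun m _ => by push_cast; ring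
    rw [h3]
    refine (norm_sub_le _ _).trans ?_
    rw [norm_mul, Complex.norm_real, Real.norm_of_nonneg hG0]
    have := mul_le_mul_of_nonneg_left (hz a) hG0
    linarith
  have := min_abel hf h1 hF b 0 0 (by omega) hf0 hF0
  simpa using this

/-- smooth version of `min N (1 / ‖θ‖)` -/
noncomputable def minK (N θ : ℝ) : ℝ := N / (1 + N * ‖ee θ - 1‖)

lemma minK_nonneg {N : ℝ} (hN : 0 ≤ N) (θ : ℝ) : 0 ≤ minK N θ := by
  unfold minK; positivity

lemma minK_le {N : ℝ} (hN : 0 ≤ N) (θ : ℝ) : minK N θ ≤ N :=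
  div_le_self hN (le_add_of_nonneg_right (by positivity))

lemma min_wsum {N F G : ℝ} {f g : ℕ → ℝ} (θ : ℝ) (hf : Monotone f) (hg : Antitone g) {b : ℕ}
    (hN : 0 ≤ N) (hb : (b : ℝ) ≤ 2 * N) (hF : ∀ m < b, f m ≤ F) (hf0 : 0 ≤ f 0) (hF0 : 0 ≤ F)
    (hG : ∀ m, g m ≤ G) (hg0 : ∀ m, 0 ≤ g m) :
    ‖∑ m ∈ range b, (f m : ℂ) * ((g m : ℂ) * ee (m * θ))‖ ≤ 6 * F * G * minK N θ := by
  have hG0 : 0 ≤ G := (hg0 0).trans (hG 0)
  have h1 := min_abel2 hf hg (min_geom θ · b) hF hf0 hF0 hG hg0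
  have h2 : ∑ m ∈ range b, (f m : ℂ) * ((g m : ℂ) * (ee (m * θ) * (ee θ - 1))) =
      (∑ m ∈ range b, (f m : ℂ) * ((g m : ℂ) * ee (m * θ))) * (ee θ - 1) := by
    rw [sum_mul]; exact sum_congr rfl fun m _ => by ring
  rw [h2, norm_mul] at h1
  have h3 : ‖∑ m ∈ range b, (f m : ℂ) * ((g m : ℂ) * ee (m * θ))‖ ≤ b * (F * G) := by
    refine (norm_sum_le _ _).trans ?_
    have := sum_le_card_nsmul (range b) (fun m => ‖(f m : ℂ) * ((g m : ℂ) * ee (m * θ))‖) (F * G)
      fun m hm => by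
        rw [norm_mul, norm_mul, min_norm_ee, mul_one, Complex.norm_real, Complex.norm_real,
          Real.norm_of_nonneg (hf0.trans (hf (Nat.zero_le m))), Real.norm_of_nonneg (hg0 m)]
        exact mul_le_mul (hF m (mem_range.mp hm)) (hG m) (hg0 m) hF0
    simpa using this
  rw [minK, ← mul_div_assoc, le_div_iff₀ (by positivity)]
  have h4 := mul_le_mul_of_nonneg_left h1 hN
  have h5 := mul_le_mul_of_nonneg_right hb (mul_nonneg hF0 hG0)
  nlinarith

/-- bound at distance `i / q` from the integers -/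
noncomputable def minG (N : ℝ) (q i : ℕ) : ℝ := (if i < 5 then N else 0) + q * (i : ℝ)⁻¹

lemma minG_nonneg {N : ℝ} (hN : 0 ≤ N) (q i : ℕ) : 0 ≤ minG N q i := by
  unfold minG; split_ifs <;> positivity

lemma min_pt {N θ x : ℝ} {q i : ℕ} (hN : 0 ≤ N) (hq : 0 < q) (hx : |x| ≤ 1 / 2)
    (hi : |x| = i / q) (h : ‖ee θ - ee x‖ ≤ 2 * π * (2 / q)) : minK N θ ≤ minG N q i := by
  unfold minG
  split_ifs with h5
  · exact (minK_le hN θ).trans (le_add_of_nonneg_right (by positivity))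
  have h6 : (5 : ℝ) ≤ i := by exact_mod_cast not_lt.mp h5
  have hq' : (0 : ℝ) < q := by exact_mod_cast hq
  have h1 := min_jordan hx
  have h2 : ‖ee x - 1‖ ≤ ‖ee θ - 1‖ + ‖ee θ - ee x‖ := by
    rw [show ee x - 1 = (ee θ - 1) - (ee θ - ee x) by ring]; exact norm_sub_le _ _
  have h3 : i / q ≤ ‖ee θ - 1‖ := by
    have h4 : 2 * π * (2 / q) ≤ 3 * (i / q) := by
      rw [← mul_div_assoc, ← mul_div_assoc]
      exact div_le_div_of_nonneg_right (by nlinarith [pi_lt_d2]) hq'.le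
    linarith
  rw [zero_add, minK, div_le_iff₀ (by positivity)]
  have h7 : (q : ℝ) * (i : ℝ)⁻¹ * (i / q) = 1 := by field_simp
  have h8 : 0 ≤ (q : ℝ) * (i : ℝ)⁻¹ := by positivity
  have h9 := mul_le_mul_of_nonneg_left h3 (mul_nonneg h8 hN)
  nlinarith

lemma min_sumG {N : ℝ} (hN : 0 ≤ N) (q : ℕ) :
    ∑ i ∈ range (q + 1), minG N q i ≤ 5 * N + q * (1 + Real.log q) := by
  unfold minG
  rw [sum_add_distrib, ← mul_sum]
  refine add_le_add ?_ (mul_le_mul_of_nonneg_left ?_ (Nat.cast_nonneg q))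
  · rw [← sum_filter, sum_const, nsmul_eq_mul]
    refine mul_le_mul_of_nonneg_right ?_ hN
    have := card_le_card (s := (range (q + 1)).filter (· < 5)) (t := range 5)
      fun i hi => mem_range.mpr (mem_filter.mp hi).2
    rw [card_range] at this
    exact_mod_cast this
  · have := harmonic_le_one_add_log q
    rw [harmonic] at this
    push_cast at this
    rw [sum_range_succ']
    simpa using this

lemma min_block {N α : ℝ} {q : ℕ} {a : ℤ} (hN : 0 ≤ N) (hq : 0 < q) (ha : IsCoprime a (q : ℤ))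
    (hα : |α - a / q| ≤ 1 / (q : ℝ) ^ 2) (k : ℕ) :
    ∑ r ∈ range q, minK N ((k + r : ℕ) * α) ≤ 10 * (N + q * (1 + Real.log q)) := by
  have hq' : (0 : ℝ) < q := by exact_mod_cast hq
  have hqz : (0 : ℤ) < q := by exact_mod_cast hq
  set c : ℤ := ⌊(q : ℝ) * (k * α)⌋ with hc
  let j : ℕ → ℕ := fun r => ((r * a + c) % q).toNat
  have hj : ∀ r, (j r : ℤ) = (r * a + c) % q := fun r =>
    Int.toNat_of_nonneg (Int.emod_nonneg _ hqz.ne')
  have hjq : ∀ r, j r < q := fun r => by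
    have := Int.emod_lt_of_pos (r * a + c) hqz
    rw [← hj] at this
    exact_mod_cast this
  have hinj : Set.InjOn j (range q) := by
    intro r hr s hs h
    have h1 : ((r : ℤ) * a + c) % q = (s * a + c) % q := by rw [← hj, ← hj, h]
    have h2 : (q : ℤ) ∣ (r - s) * a := by
      rw [Int.emod_eq_emod_iff_emod_sub_eq_zero] at h1
      have h3 := Int.dvd_of_emod_eq_zero h1
      rwa [show (r : ℤ) * a + c - (s * a + c) = (r - s) * a by ring] at h3
    have h3 := ha.symm.dvd_of_dvd_mul_right h2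
    have hr' := mem_range.mp (mem_coe.mp hr)
    have hs' := mem_range.mp (mem_coe.mp hs)
    have h4 := Int.eq_zero_of_abs_lt_dvd h3 (by rw [abs_lt]; omega)
    omega
  have hpt : ∀ r ∈ range q, minK N ((k + r : ℕ) * α) ≤ minG N q (j r) + minG N q (q - j r) := by
    intro r hr
    have hr' : (r : ℝ) ≤ q := by exact_mod_cast (mem_range.mp hr).le
    have h1 : ‖ee ((k + r : ℕ) * α) - ee (j r / q)‖ ≤ 2 * π * (2 / q) := by
      have h2 : ((r * a + c : ℤ) : ℝ) = q * ((r * a + c) / q : ℤ) + j r := by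
        have := Int.mul_ediv_add_emod (r * a + c) q
        rw [← hj] at this
        exact_mod_cast this.symm
      have h3 : ((k + r : ℕ) : ℝ) * α = j r / q + (((r * a + c) / q : ℤ)
          + ((k * α - c / q) + r * (α - a / q))) := by
        push_cast at h2 ⊢
        field_simp
        linarith
      rw [h3, min_ee_add, min_ee_add, min_ee_int, one_mul, ← mul_sub_one, norm_mul, min_norm_ee,
        one_mul]
      refine (min_lip _).trans (mul_le_mul_of_nonneg_left ?_ two_pi_pos.le)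
      have h4 : |k * α - c / q| ≤ 1 / q := by
        rw [show k * α - c / q = (q * (k * α) - c) / q by field_simp, abs_div, abs_of_pos hq']
        refine div_le_div_of_nonneg_right ?_ hq'.le
        have := Int.floor_le ((q : ℝ) * (k * α))
        have := Int.lt_floor_add_one ((q : ℝ) * (k * α))
        rw [abs_le]; constructor <;> linarith
      have h5 : |r * (α - a / q)| ≤ 1 / q := by
        rw [abs_mul, Nat.abs_cast]
        refine (mul_le_mul hr' hα (abs_nonneg _) hq'.le).trans_eq ?_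
        field_simp
      refine (abs_add_le _ _).trans ?_
      rw [show (2 : ℝ) / q = 1 / q + 1 / q by ring]
      exact add_le_add h4 h5
    have hjr : (j r : ℝ) ≤ q := by exact_mod_cast (hjq r).le
    rcases le_total (2 * (j r : ℝ)) q with h | h
    · have h6 : |(j r : ℝ) / q| = j r / q := abs_of_nonneg (by positivity)
      exact (min_pt hN hq (by rw [h6, div_le_div_iff₀ hq' two_pos]; linarith) h6 h1).trans
        (le_add_of_nonneg_right (minG_nonneg hN _ _))
    · have h6 : |(j r : ℝ) / q + (-1 : ℤ)| = (q - j r : ℕ) / q := by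
        rw [Nat.cast_sub (hjq r).le, abs_of_nonpos]
        · push_cast; field_simp; ring
        · have := (div_le_one hq').mpr hjr
          push_cast; linarith
      refine (min_pt hN hq ?_ h6 ?_).trans (le_add_of_nonneg_left (minG_nonneg hN _ _))
      · rw [h6, Nat.cast_sub (hjq r).le, div_le_div_iff₀ hq' two_pos]; linarith
      · rwa [min_ee_add, min_ee_int, mul_one]
  refine (sum_le_sum hpt).trans ?_
  rw [← sum_image (f := fun i => minG N q i + minG N q (q - i)) hinj]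
  refine (sum_le_sum_of_subset_of_nonneg (t := range (q + 1)) (fun i hi => ?_)
    fun i _ _ => add_nonneg (minG_nonneg hN _ _) (minG_nonneg hN _ _)).trans ?_
  · obtain ⟨r, -, rfl⟩ := mem_image.mp hi
    exact mem_range.mpr (by have := hjq r; omega)
  · rw [sum_add_distrib, sum_flip]
    have h1 := min_sumG hN q
    have h2 : 0 ≤ (q : ℝ) * (1 + Real.log q) :=
      mul_nonneg hq'.le (by linarith [Real.log_natCast_nonneg q])
    linarith

lemma min_std {N α : ℝ} {q : ℕ} {a : ℤ} (hN : 0 ≤ N) (hq : 0 < q) (ha : IsCoprime a (q : ℤ))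
    (hα : |α - a / q| ≤ 1 / (q : ℝ) ^ 2) (H : ℕ) :
    ∑ h ∈ range H, minK N ((2 * h : ℕ) * α) ≤
      (2 * H / q + 1) * (10 * (N + q * (1 + Real.log q))) := by
  have h1 : ∀ B : ℕ, ∑ k ∈ range (B * q), minK N (k * α) ≤
      B * (10 * (N + q * (1 + Real.log q))) := by
    intro B
    induction B with
    | zero => simp
    | succ B ih =>
      rw [Nat.succ_mul, sum_range_add, Nat.cast_succ, add_mul, one_mul]
      exact add_le_add ih (min_block hN hq ha hα _)
  rw [← sum_image (s := range H) (g := fun h => 2 * h) (f := fun k : ℕ => minK N (k * α))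
    fun x _ y _ h => by simpa using h]
  refine (sum_le_sum_of_subset_of_nonneg (t := range ((2 * H / q + 1) * q)) (fun i hi => ?_)
    fun i _ _ => minK_nonneg hN _).trans ((h1 _).trans ?_)
  · obtain ⟨r, hr, rfl⟩ := mem_image.mp hi
    have := Nat.lt_div_mul_add (a := 2 * H) hq
    have := mem_range.mp hr
    rw [mem_range, add_mul, one_mul]
    omega
  · refine mul_le_mul_of_nonneg_right ?_ ?_
    · have := Nat.cast_div_le (α := ℝ) (m := 2 * H) (n := q)
      push_cast at this ⊢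
      linarith
    · have : 0 ≤ (q : ℝ) * (1 + Real.log q) :=
        mul_nonneg (Nat.cast_nonneg q) (by linarith [Real.log_natCast_nonneg q])
      linarith

end Pool.Agent.Lib.PS
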