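import Pool.Agent.Lib.PS.Blue

namespace Pool.Agent.Lib.PS

open Finset Real Complex
open scoped NumberTheorySymbols Classical ComplexConjugate

noncomputable section

/-- the group of real parts times characters modulo `W` -/
abbrev mdG (L W : ℕ) : Type := (L.primeFactors → ℤˣ) × DirichletCharacter ℂ W

def mdS {L W : ℕ} (g : mdG L W) : Finset L.primeFactors := univ.filter fun i => g.1 i = -1

def mdM {L W : ℕ} (g : mdG L W) : ℕ := ∏ i ∈ mdS g, (i : ℕ)

def mdP {L W : ℕ} (g : mdG L W) : ℕ → ℂ := fun n => g.2 (n : ZMod W)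

def mdC {L W : ℕ} (g : mdG L W) : ℕ → ℂ := jc (mdM g) * mdP g

variable {L W : ℕ}

lemma md_S_mul (g h : mdG L W) : mdS (g * h) = symmDiff (mdS g) (mdS h) := by
  ext i
  simp only [mdS, Finset.mem_symmDiff, mem_filter, mem_univ, true_and, Prod.fst_mul, Pi.mul_apply]
  rcases Int.units_eq_one_or (g.1 i) with a | a <;> rcases Int.units_eq_one_or (h.1 i) with b | b <;>
    simp [a, b]

lemma md_S_inv (g : mdG L W) : mdS g⁻¹ = mdS g := by
  ext i
  simp only [mdS, mem_filter, mem_univ, true_and, Prod.fst_inv, Pi.inv_apply]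
  rcases Int.units_eq_one_or (g.1 i) with a | a <;> simp [a]

lemma md_S_one : mdS (1 : mdG L W) = ∅ := by
  ext i
  simp [mdS]

lemma md_M_one : mdM (1 : mdG L W) = 1 := by simp [mdM, md_S_one]

lemma md_M_inv (g : mdG L W) : mdM g⁻¹ = mdM g := by simp [mdM, md_S_inv]

lemma md_prime (i : L.primeFactors) : (i : ℕ).Prime := Nat.prime_of_mem_primeFactors i.2

lemma md_M_pos (g : mdG L W) : 0 < mdM g :=
  Finset.prod_pos fun i _ => (md_prime i).pos

lemma md_M_eq (g : mdG L W) : mdM g = ∏ p ∈ (mdS g).image Subtype.val, p := by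
  rw [mdM, Finset.prod_image fun a _ b _ h => Subtype.ext h]

lemma md_M_pf (g : mdG L W) : (mdM g).primeFactors = (mdS g).image Subtype.val := by
  rw [md_M_eq]
  apply Nat.primeFactors_prod
  intro p hp
  obtain ⟨i, -, rfl⟩ := mem_image.1 hp
  exact md_prime i

lemma md_M_dvd (hL : Squarefree L) (g : mdG L W) : mdM g ∣ L := by
  rw [md_M_eq]
  conv_rhs => rw [← Nat.prod_primeFactors_of_squarefree hL]
  apply Finset.prod_dvd_prod_of_subset
  intro p hp
  obtain ⟨i, -, rfl⟩ := mem_image.1 hp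
  exact i.2

lemma md_log (g : mdG L W) : Real.log (mdM g) = ∑ i ∈ mdS g, Real.log (i : ℕ) := by
  rw [mdM, Nat.cast_prod, Real.log_prod]
  intro i _
  exact_mod_cast (md_prime i).ne_zero

lemma md_logL (hL : Squarefree L) :
    ∑ i : L.primeFactors, Real.log (i : ℕ) = Real.log L := by
  conv_rhs => rw [← Nat.prod_primeFactors_of_squarefree hL]
  rw [Nat.cast_prod, Real.log_prod, Finset.sum_coe_sort L.primeFactors fun p => Real.log (p : ℕ)]
  intro i hi
  exact_mod_cast (Nat.prime_of_mem_primeFactors hi).ne_zero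

lemma md_jac_prod {ι : Type} (s : Finset ι) (p : ι → ℕ) (hp : ∀ i ∈ s, p i ≠ 0) (a : ℤ) :
    J(a | ∏ i ∈ s, p i) = ∏ i ∈ s, J(a | p i) := by
  induction s using Finset.induction_on with
  | empty => simp
  | insert j s hj ih =>
    rw [Finset.prod_insert hj, Finset.prod_insert hj, jacobiSym.mul_right' a (hp j (by simp))
      (Finset.prod_ne_zero_iff.2 fun i hi => hp i (by simp [hi])), ih fun i hi => hp i (by simp [hi])]

lemma md_jc (g : mdG L W) (k : ℕ) :
    jc (mdM g) k = ∏ i : L.primeFactors, if g.1 i = -1 then jc i k else 1 := by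
  rw [← Finset.prod_filter]
  unfold jc mdM
  rw [md_jac_prod _ _ fun i _ => (md_prime i).ne_zero]
  push_cast
  rfl

lemma md_jc_sq {M k : ℕ} (h : Nat.Coprime k M) : jc M k * jc M k = 1 := by
  unfold jc
  have : (k : ℤ).gcd M = 1 := by simpa using h
  rcases jacobiSym.eq_one_or_neg_one this with a | a <;> simp [a]

lemma md_jc_norm {M k : ℕ} (h : Nat.Coprime k M) : ‖jc M k‖ = 1 := by
  unfold jc
  have : (k : ℤ).gcd M = 1 := by simpa using h
  rcases jacobiSym.eq_one_or_neg_one this with a | a <;> simp [a]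

lemma md_jc_zero {M k : ℕ} (hM : M ≠ 0) (h : ¬ Nat.Coprime k M) : jc M k = 0 := by
  unfold jc
  have : NeZero M := ⟨hM⟩
  have : J((k : ℤ) | M) = 0 := jacobiSym.eq_zero_iff_not_coprime.2 (by simpa using h)
  simp [this]

lemma md_jc_conj (M k : ℕ) : conj (jc M k) = jc M k := by simp [jc]

lemma md_jc_mul (g h : mdG L W) {k : ℕ} (hk : Nat.Coprime k (mdM g * mdM h)) :
    jc (mdM (g * h)) k = jc (mdM g) k * jc (mdM h) k := by
  rw [md_jc, md_jc, md_jc, ← Finset.prod_mul_distrib]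
  refine Finset.prod_congr rfl fun i _ => ?_
  simp only [Prod.fst_mul, Pi.mul_apply]
  rcases Int.units_eq_one_or (g.1 i) with a | a <;> rcases Int.units_eq_one_or (h.1 i) with b | b
  · simp [a, b]
  · simp [a, b]
  · simp [a, b]
  · have hd : (i : ℕ) ∣ mdM g := Finset.dvd_prod_of_mem _ (by simp [mdS, a])
    have := md_jc_sq (Nat.Coprime.coprime_dvd_right (hd.mul_right _) hk)
    simp [a, b, this]

lemma md_P_mul (g h : mdG L W) (k : ℕ) : mdP (g * h) k = mdP g k * mdP h k := by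
  simp [mdP, MulChar.coeToFun_mul]

lemma md_P_inv (g : mdG L W) (k : ℕ) : mdP g⁻¹ k = conj (mdP g k) := by
  simp only [mdP, Prod.snd_inv]
  rw [← MulChar.star_eq_inv]
  rfl

lemma md_C_inv (g : mdG L W) : mdC g⁻¹ = cj (mdC g) := by
  funext k
  simp [mdC, cj, md_M_inv, md_P_inv, md_jc_conj]

lemma md_C_mul (hL : Squarefree L) (g h : mdG L W) {k : ℕ} (hk : Nat.Coprime k L) :
    mdC (g * h) k = mdC g k * mdC h k := by
  have : Nat.Coprime k (mdM g * mdM h) :=
    Nat.Coprime.mul_right (hk.coprime_dvd_right (md_M_dvd hL g)) (hk.coprime_dvd_right (md_M_dvd hL h))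
  simp only [mdC, Pi.mul_apply, md_jc_mul g h this, md_P_mul]
  ring

lemma md_C_norm (hL : Squarefree L) (g : mdG L W) {k : ℕ} (hk : Nat.Coprime k (L * W)) :
    ‖mdC g k‖ = 1 := by
  have h1 : Nat.Coprime k (mdM g) :=
    (hk.coprime_dvd_right (dvd_mul_right L W)).coprime_dvd_right (md_M_dvd hL g)
  have h2 : Nat.Coprime k W := hk.coprime_dvd_right (dvd_mul_left W L)
  simp only [mdC, Pi.mul_apply, norm_mul, md_jc_norm h1, one_mul, mdP]
  have := DirichletCharacter.unit_norm_eq_one g.2 (ZMod.unitOfCoprime k h2)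
  simpa using this

lemma md_C_one {k : ℕ} (hk : Nat.Coprime k W) : mdC (1 : mdG L W) k = 1 := by
  simp only [mdC, Pi.mul_apply, md_M_one, jc, mdP, Prod.snd_one]
  rw [MulChar.one_apply ((ZMod.isUnit_iff_coprime k W).2 hk)]
  simp

lemma md_pair (g h : mdG L W) :
    mdC g * cj (mdC h) = tw (mdM g * mdM h) (jc (mdM (g * h⁻¹)) * mdP (g * h⁻¹)) := by
  funext k
  simp only [Pi.mul_apply, tw, cj, mdC]
  split_ifs with hk
  · rw [md_jc_mul g h⁻¹ (by rwa [md_M_inv]), md_P_mul, md_P_inv, md_M_inv, map_mul, md_jc_conj]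
    ring
  · rw [Nat.coprime_mul_iff_right, not_and_or] at hk
    rcases hk with hk | hk
    · simp [md_jc_zero (md_M_pos g).ne' hk]
    · simp [md_jc_zero (md_M_pos h).ne' hk]

lemma md_tw_one (χ : ℕ → ℂ) : tw 1 χ = χ := by
  funext k
  simp [tw]

lemma md_P_mem (g : mdG L W) : mdP g ∈ chars W := by
  unfold chars
  exact mem_image.2 ⟨g.2, mem_univ _, rfl⟩

lemma md_P_one : mdP (1 : mdG L W) = tw W 1 := by
  funext k
  simp only [mdP, tw, Prod.snd_one, Pi.one_apply]
  split_ifs with hk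
  · exact MulChar.one_apply ((ZMod.isUnit_iff_coprime k W).2 hk)
  · exact MulChar.map_nonunit _ (by rwa [ZMod.isUnit_iff_coprime])

def mdF (g : mdG L W) : ℕ × (ℕ → ℂ) := (mdM g, mdP g)

lemma md_F_inj (hW : 0 < W) : Function.Injective (mdF : mdG L W → _) := by
  intro g h e
  have : NeZero W := ⟨hW.ne'⟩
  simp only [mdF, Prod.mk.injEq] at e
  obtain ⟨e1, e2⟩ := e
  have hS : mdS g = mdS h := by
    have := md_M_pf g
    rw [e1, md_M_pf] at this
    exact (Finset.image_injective Subtype.val_injective this).symm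
  refine Prod.ext (funext fun i => ?_) ?_
  · have : g.1 i = -1 ↔ h.1 i = -1 := by
      have := congrArg (fun s => i ∈ s) hS
      simpa [mdS] using this
    rcases Int.units_eq_one_or (g.1 i) with a | a <;> rcases Int.units_eq_one_or (h.1 i) with b | b <;>
      simp_all
  · refine MulChar.ext' fun a => ?_
    have := congrFun e2 a.val
    simpa [mdP] using this

lemma md_F_mem (hL : Squarefree L) (hW : 0 < W) {g : mdG L W} (hg : g ≠ 1) : mdF g ∈ GF L W := by
  unfold GF
  refine mem_filter.2 ⟨mem_product.2 ⟨Nat.mem_divisors.2 ⟨md_M_dvd hL g, hL.ne_zero⟩, md_P_mem g⟩, ?_⟩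
  intro e
  apply hg
  apply md_F_inj hW
  rw [e, mdF, md_M_one, md_P_one]

lemma md_F_surj (hL : Squarefree L) {x : ℕ × (ℕ → ℂ)} (hx : x ∈ GF L W) :
    ∃ g : mdG L W, g ≠ 1 ∧ mdF g = x := by
  unfold GF at hx
  obtain ⟨hx, hne⟩ := mem_filter.1 hx
  obtain ⟨h1, h2⟩ := mem_product.1 hx
  obtain ⟨ψ, -, hψ⟩ := mem_image.1 h2
  have hd := (Nat.mem_divisors.1 h1).1
  let g : mdG L W := (fun i => if (i : ℕ) ∣ x.1 then -1 else 1, ψ)
  have hF : mdF g = x := by
    refine Prod.ext ?_ hψ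
    show mdM g = x.1
    rw [md_M_eq]
    conv_rhs => rw [← Nat.prod_primeFactors_of_squarefree (hL.squarefree_of_dvd hd)]
    congr 1
    ext p
    simp only [mem_image, mdS, mem_filter, mem_univ, true_and, g]
    constructor
    · rintro ⟨i, hi, rfl⟩
      have : (i : ℕ) ∣ x.1 := by
        by_contra h
        simp [h] at hi
      exact Nat.mem_primeFactors.2 ⟨md_prime i, this, (hL.squarefree_of_dvd hd).ne_zero⟩
    · intro hp
      have hp' := Nat.mem_primeFactors.1 hp
      exact ⟨⟨p, Nat.mem_primeFactors.2 ⟨hp'.1, hp'.2.1.trans hd, hL.ne_zero⟩⟩, by simp [hp'.2.1], rfl⟩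
  refine ⟨g, fun e => hne ?_, hF⟩
  rw [← hF, e, mdF, md_M_one, md_P_one]

lemma md_nonpr (hW : 0 < W) {g : mdG L W} (hg : g ≠ 1) : 1 < mdM g ∨ NonPr W (mdP g) := by
  by_contra h
  push Not at h
  obtain ⟨h1, h2⟩ := h
  apply hg
  apply md_F_inj hW
  have e1 : mdM g = 1 := le_antisymm h1 (md_M_pos g)
  rw [mdF, mdF, md_M_one, md_P_one, e1]
  congr 1
  funext k
  unfold NonPr at h2
  push Not at h2
  simp only [tw, Pi.one_apply]
  split_ifs with hk
  · exact h2 k hk
  · exact MulChar.map_nonunit _ (by rwa [ZMod.isUnit_iff_coprime])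

lemma md_odd (hL : Squarefree L) (hLW : Nat.Coprime L W) (hW : Even W) (g : mdG L W) :
    Odd (mdM g) := by
  have : Nat.Coprime (mdM g) 2 :=
    (hLW.coprime_dvd_left (md_M_dvd hL g)).coprime_dvd_right hW.two_dvd
  exact Nat.coprime_two_right.1 this

end

end Pool.Agent.Lib.PS
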