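import Pool.Agent.Lib.PS.MODEL1

namespace Pool.Agent.Lib.PS

open Finset Real Complex
open scoped NumberTheorySymbols Classical ComplexConjugate ArithmeticFunction.vonMangoldt

noncomputable section

lemma md_mkZ (o : ℂ → ℕ) (B : ℂ → Prop) [DecidablePred B] (hf : {z | B z ∧ o z ≠ 0}.Finite) :
    ∃ Z : Multiset ℂ, ∀ z, Z.count z = if B z then o z else 0 := by
  refine ⟨∑ z ∈ hf.toFinset, Multiset.replicate (o z) z, fun z => ?_⟩
  rw [Multiset.count_sum']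
  simp only [Multiset.count_replicate]
  rw [Finset.sum_ite_eq']
  simp only [Set.Finite.mem_toFinset, Set.mem_ofPred_eq]
  by_cases h : B z <;> by_cases h2 : o z = 0 <;> simp [h, h2]

lemma md_zo_zero {E : ℂ → ℂ} {l : ℝ} {z : ℂ} (h : zo E l z ≠ 0) : E (1 - z / l) = 0 :=
  apply_eq_zero_of_analyticOrderNatAt_ne_zero h

lemma md_rho_re {l : ℝ} (z : ℂ) : (1 - z / l : ℂ).re = 1 - z.re / l := by
  simp [Complex.div_ofReal_re]

lemma md_rho_im {l : ℝ} (hl : 0 < l) (z : ℂ) : |(1 - z / l : ℂ).im| = |z.im| / l := by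
  simp [Complex.div_ofReal_im, abs_div, abs_of_pos hl]

lemma md_fin (hLDX : St_LDX) {a : ℕ → ℂ} {E : ℂ → ℂ} {m c l b η T M H : ℝ} (hc : 0 < c)
    (hl : 0 < l) (hM : M < c * l) (h : LD a E m c l b η T) :
    {z : ℂ | (z.re ≤ M ∧ |z.im| ≤ H * l) ∧ zo E l z ≠ 0}.Finite := by
  have h1 : 1 - c < 1 - M / l := by
    have : M / l < c := by rwa [div_lt_iff₀ hl]
    linarith
  have := hLDX.2.2.2.2 a E m c l b η T (1 - M / l) H hc h h1
  have hinj : Function.Injective fun z : ℂ => 1 - z / (l : ℂ) := by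
    intro x y e
    have hl' : (l : ℂ) ≠ 0 := by exact_mod_cast hl.ne'
    simpa [div_left_inj' hl'] using e
  refine (this.preimage hinj.injOn).subset ?_
  rintro z ⟨⟨h2, h3⟩, h4⟩
  refine ⟨?_, ?_, md_zo_zero h4⟩
  · rw [md_rho_re]
    have := div_le_div_of_nonneg_right h2 hl.le
    linarith
  · rw [md_rho_im hl, div_le_iff₀ hl]
    exact h3

lemma md_TF_le {A : ℝ} {f : ℝ → ℝ} (hA : 0 < A) (hf : TF A f) {t : ℝ} (ht : 0 ≤ t) :
    f t ≤ A ^ 2 := by
  by_cases h : A ≤ t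
  · rw [hf.2.2 t h]; positivity
  · have h1 := hf.2.1 t A ht hA.le
    rw [hf.2.2 A le_rfl, sub_zero, abs_of_neg (show t - A < 0 by linarith)] at h1
    have := le_abs_self (f t)
    nlinarith

lemma md_Ks {A l : ℝ} {f : ℝ → ℝ} (hl : 0 < l) (hf : TF A f) (a : ℕ → ℂ) (v : ℂ) :
    Ks a f l v = (∑ n ∈ Icc 1 ⌊Real.exp (A * l)⌋₊,
      a n / n * (f (Real.log n / l) : ℂ) * cexp (v * ((Real.log n / l : ℝ) : ℂ))) / l := by
  unfold Ks
  rw [tsum_eq_sum]
  intro n hn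
  rcases Nat.eq_zero_or_pos n with rfl | h0
  · simp
  · have h1 : ⌊Real.exp (A * l)⌋₊ < n := by
      by_contra h
      exact hn (mem_Icc.2 ⟨h0, not_lt.1 h⟩)
    have h2 : Real.exp (A * l) < n := (Nat.floor_lt (Real.exp_pos _).le).1 h1
    have h3 : A ≤ Real.log n / l := by
      rw [le_div_iff₀ hl]
      exact ((Real.lt_log_iff_exp_lt (by exact_mod_cast h0)).2 h2).le
    simp [hf.2.2 _ h3]

lemma md_t_mem {A l : ℝ} (hl : 0 < l) {n : ℕ} (hn : n ∈ Icc 1 ⌊Real.exp (A * l)⌋₊) :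
    0 ≤ Real.log n / l ∧ Real.log n / l ≤ A := by
  obtain ⟨h1, h2⟩ := mem_Icc.1 hn
  refine ⟨div_nonneg (Real.log_natCast_nonneg n) hl.le, ?_⟩
  rw [div_le_iff₀ hl, Real.log_le_iff_le_exp (by exact_mod_cast h1)]
  exact (Nat.le_floor_iff (Real.exp_pos _).le).1 h2

lemma md_Kdiff {A l Λm lm mu : ℝ} {f : ℝ → ℝ} (hA : 0 < A) (hl : 0 < l) (hf : TF A f)
    (hΛ : 0 ≤ Λm) (hlm : lm ≤ Λm) (N : ℕ) (a ev : ℕ → ℂ) (ha : ∀ n, ‖a n‖ ≤ Λ n)
    (hev : ∀ n, Nat.Coprime n N → a n = (Λ n : ℂ) * ev n) :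
    ‖∑ n ∈ (Icc 1 ⌊Real.exp (A * l)⌋₊).filter (fun n => Nat.Coprime n N),
        ((Λ n / n / l : ℝ) : ℂ) * (f (Real.log n / l) : ℂ)
          * cexp ((lm - mu * I) * ((Real.log n / l : ℝ) : ℂ)) * ev n
      - Ks a f l (lm - mu * I)‖ ≤ A ^ 2 * Real.exp (Λm * A) *
        (∑ n ∈ (Icc 1 ⌊Real.exp (A * l)⌋₊).filter (fun n => ¬ Nat.Coprime n N), Λ n / n) / l := by
  rw [md_Ks hl hf, ← Finset.sum_filter_add_sum_filter_not (Icc 1 ⌊Real.exp (A * l)⌋₊)
    (fun n => Nat.Coprime n N), add_div, Finset.sum_div, Finset.sum_div]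
  have e : ∑ n ∈ (Icc 1 ⌊Real.exp (A * l)⌋₊).filter (fun n => Nat.Coprime n N),
        ((Λ n / n / l : ℝ) : ℂ) * (f (Real.log n / l) : ℂ)
          * cexp ((lm - mu * I) * ((Real.log n / l : ℝ) : ℂ)) * ev n =
      ∑ n ∈ (Icc 1 ⌊Real.exp (A * l)⌋₊).filter (fun n => Nat.Coprime n N),
        a n / n * (f (Real.log n / l) : ℂ)
          * cexp ((lm - mu * I) * ((Real.log n / l : ℝ) : ℂ)) / l := by
    refine Finset.sum_congr rfl fun n hn => ?_
    rw [hev n (mem_filter.1 hn).2]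
    push_cast
    ring
  rw [e, sub_add_cancel_left, norm_neg, Finset.mul_sum, Finset.sum_div]
  refine (norm_sum_le _ _).trans (Finset.sum_le_sum fun n hn => ?_)
  obtain ⟨t0, t1⟩ := md_t_mem hl (mem_filter.1 hn).1
  rw [norm_div, norm_mul, norm_mul, norm_div, Complex.norm_exp, Complex.norm_real,
    Complex.norm_real, Complex.norm_natCast, Real.norm_of_nonneg hl.le,
    Real.norm_of_nonneg (hf.1 _)]
  have h1 : ((lm - mu * I) * ((Real.log n / l : ℝ) : ℂ)).re = lm * (Real.log n / l) := by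
    simp only [Complex.mul_re, Complex.sub_re, Complex.ofReal_re, Complex.I_re, Complex.ofReal_im,
      Complex.I_im, Complex.sub_im, Complex.mul_im]
    ring
  rw [h1]
  have h2 : lm * (Real.log n / l) ≤ Λm * A :=
    (mul_le_mul_of_nonneg_right hlm t0).trans (mul_le_mul_of_nonneg_left t1 hΛ)
  have h3 := md_TF_le hA hf t0
  have h4 := hf.1 (Real.log n / l)
  have h5 : (0 : ℝ) ≤ Λ n := ArithmeticFunction.vonMangoldt_nonneg
  apply div_le_div_of_nonneg_right _ hl.le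
  calc ‖a n‖ / n * f (Real.log n / l) * Real.exp (lm * (Real.log n / l))
      ≤ Λ n / n * A ^ 2 * Real.exp (Λm * A) := by
        gcongr
        exact ha n
    _ = _ := by ring

lemma md_V_nonneg {D : DD} (h : D.Valid) : 0 ≤ D.V := by
  unfold DD.V
  apply intervalIntegral.integral_nonneg (h.uv.trans h.vx).le
  intro t ht
  apply div_nonneg _ (h.G_pos t ht).le
  apply intervalIntegral.integral_nonneg (le_min ht.1 h.uv.le)
  intro s _
  positivity

lemma md_list_min (DS : List DD) (g : DD → ℝ) (h : ∀ D ∈ DS, 0 < g D) :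
    ∃ γ : ℝ, 0 < γ ∧ ∀ D ∈ DS, γ ≤ g D := by
  induction DS with
  | nil => exact ⟨1, one_pos, by simp⟩
  | cons D DS ih =>
    obtain ⟨γ, h0, h1⟩ := ih fun E hE => h E (by simp [hE])
    refine ⟨min γ (g D), lt_min h0 (h D (by simp)), fun E hE => ?_⟩
    rcases List.mem_cons.1 hE with rfl | hE
    · exact min_le_right _ _
    · exact (min_le_left _ _).trans (h1 E hE)

lemma md_list_ev (DS : List DD) (P : DD → ℝ → Prop)
    (h : ∀ D ∈ DS, ∃ l0 : ℝ, ∀ l, l0 ≤ l → P D l) :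
    ∃ l0 : ℝ, ∀ l, l0 ≤ l → ∀ D ∈ DS, P D l := by
  induction DS with
  | nil => exact ⟨0, by simp⟩
  | cons D DS ih =>
    obtain ⟨l1, h1⟩ := ih fun E hE => h E (by simp [hE])
    obtain ⟨l2, h2⟩ := h D (by simp)
    refine ⟨max l1 l2, fun l hl E hE => ?_⟩
    rcases List.mem_cons.1 hE with rfl | hE
    · exact h2 l ((le_max_right _ _).trans hl)
    · exact h1 l ((le_max_left _ _).trans hl) E hE

lemma md_ev_exp {C e : ℝ} (he : 0 < e) : ∀ᶠ l : ℝ in Filter.atTop, C ≤ Real.exp (e * l) :=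
  (Real.tendsto_exp_atTop.comp (Filter.tendsto_id.const_mul_atTop he)).eventually_ge_atTop C

lemma md_ev_expneg {C e : ℝ} (he : 0 < e) (hC : 0 < C) :
    ∀ᶠ l : ℝ in Filter.atTop, Real.exp (-(e * l)) ≤ C := by
  filter_upwards [md_ev_exp (C := C⁻¹) he] with l hl
  rw [Real.exp_neg]
  exact inv_le_of_inv_le₀ hC hl

lemma md_ev_lin {C e : ℝ} (he : 0 < e) : ∀ᶠ l : ℝ in Filter.atTop, C < e * l :=
  (Filter.tendsto_id.const_mul_atTop he).eventually_gt_atTop C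

lemma md_ev_gauss {M e : ℝ} (he : 0 < e) :
    ∀ᶠ l : ℝ in Filter.atTop, Real.exp (M / l) ≤ 1 + e := by
  have h : Filter.Tendsto (fun l : ℝ => Real.exp (M / l)) Filter.atTop (nhds (Real.exp 0)) :=
    (Real.continuous_exp.tendsto 0).comp (Filter.tendsto_id.const_div_atTop M)
  rw [Real.exp_zero] at h
  exact h.eventually (ge_mem_nhds (by linarith))

lemma md_Hs_le {κ α K M : ℝ} {z : ℂ} (hκ : 0 < κ) (hz : ‖z‖ ≤ M) :
    ‖Hs κ α K z‖ ≤ ‖HH α K z‖ * Real.exp (M ^ 2 / (2 * κ)) := by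
  unfold Hs
  rw [norm_mul, Complex.norm_exp]
  gcongr
  have h1 : (z ^ 2 / (2 * κ) : ℂ).re ≤ ‖(z ^ 2 / (2 * κ) : ℂ)‖ := Complex.re_le_norm _
  refine h1.trans ?_
  rw [norm_div, norm_pow, norm_mul, Complex.norm_real, Real.norm_of_nonneg hκ.le]
  simp only [Complex.norm_ofNat]
  gcongr

end

end Pool.Agent.Lib.PS
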