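import Pool.Agent.Lib.PS.MODEL2

namespace Pool.Agent.Lib.PS

open Finset Real Complex Filter
open scoped NumberTheorySymbols Classical ComplexConjugate ArithmeticFunction.vonMangoldt

noncomputable section

lemma md_CM_mul {χ ψ : ℕ → ℂ} (h1 : CM χ) (h2 : CM ψ) : CM (χ * ψ) := by
  refine ⟨by simp [h1.1, h2.1], fun m n => ?_, fun n => ?_⟩
  · simp only [Pi.mul_apply, h1.2.1, h2.2.1]; ring
  · rw [Pi.mul_apply, norm_mul]
    exact mul_le_one₀ (h1.2.2 n) (norm_nonneg _) (h2.2.2 n)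

lemma md_CM_cj {χ : ℕ → ℂ} (h1 : CM χ) : CM (cj χ) := by
  refine ⟨by simp [cj, h1.1], fun m n => by simp [cj, h1.2.1], fun n => ?_⟩
  simpa [cj] using h1.2.2 n

variable {L W : ℕ}

lemma md_P_char (hPB : St_PB) (hW : 0 < W) (g : mdG L W) : IsChar W (mdP g) :=
  (hPB.1 W _ hW).1 (md_P_mem g)

lemma md_CM (hPB : St_PB) (hL : Squarefree L) (hLW : Nat.Coprime L W) (hW : 0 < W) (hE : Even W)
    (g : mdG L W) : CM (mdC g) :=
  md_CM_mul (hPB.2.2.2.2.2.2.2.2.1 _ (md_odd hL hLW hE g)).2.1 (md_P_char hPB hW g).2.1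

lemma md_M_le (hL : Squarefree L) {l : ℝ} (h : (L : ℝ) ≤ Real.exp l) (g : mdG L W) :
    Real.log (mdM g) ≤ l := by
  have h1 : (mdM g : ℝ) ≤ L := by
    exact_mod_cast Nat.le_of_dvd (Nat.pos_of_ne_zero hL.ne_zero) (md_M_dvd hL g)
  rw [Real.log_le_iff_le_exp (by exact_mod_cast md_M_pos g)]
  exact h1.trans h

lemma md_canc (hPB : St_PB) (hC : St_CANC) {e : ℝ} (he : 0 < e) : ∃ c : ℝ, 0 < c ∧ c ≤ 1 / 2 ∧
    ∀ W : ℕ, 0 < W → Even W → ∀ᶠ l : ℝ in atTop, ∀ L : ℕ, Squarefree L → Nat.Coprime L W →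
      (L : ℝ) ≤ Real.exp l →
      (∀ g : mdG L W, g ≠ 1 → Canc (mdC g) c (Real.exp ((Real.log (mdM g) / l / 4 + 2 * e) * l))) ∧
      ∀ g h : mdG L W, g ≠ h → Canc (mdC g * cj (mdC h)) c (Real.exp ((1 / 4 + 4 * e) * l)) := by
  obtain ⟨c, C, hc, hc2, hC1, H⟩ := hC.2.2 e he
  refine ⟨c, hc, hc2, fun W hW hE => ?_⟩
  filter_upwards [md_ev_exp (C := C * W) he, eventually_gt_atTop 0] with l h1 hl L hL hLW hLl
  have key : ∀ (g : mdG L W) (k : ℕ), g ≠ 1 → 0 < k →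
      Canc (tw k (jc (mdM g) * mdP g)) c (C * (mdM g : ℝ) ^ (1 / 4 + e) * W * (k : ℝ) ^ e) := by
    intro g k hg hk
    have hch := md_P_char hPB hW g
    exact H (mdM g) W k (mdP g) (md_odd hL hLW hE g) (hL.squarefree_of_dvd (md_M_dvd hL g)) hW hk
      (hLW.coprime_dvd_left (md_M_dvd hL g)) hch.2.1 hch.2.2.1 (md_nonpr hW hg)
  have hM : ∀ g : mdG L W, (mdM g : ℝ) ^ (1 / 4 + e) ≤
      Real.exp (Real.log (mdM g) / 4 + e * l) := by
    intro g
    rw [Real.rpow_def_of_pos (by exact_mod_cast md_M_pos g)]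
    apply Real.exp_le_exp.2
    have := md_M_le hL hLl g
    nlinarith
  constructor
  · intro g hg
    have h2 := key g 1 hg one_pos
    rw [md_tw_one] at h2
    refine hC.1 _ c c _ _ (md_CM hPB hL hLW hW hE g) hc le_rfl (by linarith) (by positivity) ?_ h2
    have e1 : (Real.log (mdM g) / l / 4 + 2 * e) * l =
        e * l + (Real.log (mdM g) / 4 + e * l) := by field_simp; ring
    rw [e1, Real.exp_add]
    simp only [Nat.cast_one, Real.one_rpow, mul_one]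
    calc C * (mdM g : ℝ) ^ (1 / 4 + e) * W = C * W * (mdM g : ℝ) ^ (1 / 4 + e) := by ring
      _ ≤ _ := mul_le_mul h1 (hM g) (by positivity) (Real.exp_pos _).le
  · intro g h hgh
    have hne : g * h⁻¹ ≠ 1 := fun e => hgh (mul_inv_eq_one.1 e)
    have h2 := key (g * h⁻¹) (mdM g * mdM h) hne (Nat.mul_pos (md_M_pos g) (md_M_pos h))
    rw [← md_pair] at h2
    refine hC.1 _ c c _ _ (md_CM_mul (md_CM hPB hL hLW hW hE g)
      (md_CM_cj (md_CM hPB hL hLW hW hE h))) hc le_rfl (by linarith) (by positivity) ?_ h2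
    have hg0 : (0 : ℝ) < mdM g := by exact_mod_cast md_M_pos g
    have hh0 : (0 : ℝ) < mdM h := by exact_mod_cast md_M_pos h
    have h3 : ((mdM g * mdM h : ℕ) : ℝ) ^ e ≤ Real.exp (2 * e * l) := by
      rw [Nat.cast_mul, Real.rpow_def_of_pos (by positivity), Real.log_mul hg0.ne' hh0.ne']
      apply Real.exp_le_exp.2
      have := md_M_le hL hLl g
      have := md_M_le hL hLl h
      nlinarith
    have h4 : (mdM (g * h⁻¹) : ℝ) ^ (1 / 4 + e) ≤ Real.exp (l / 4 + e * l) := by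
      refine (hM _).trans (Real.exp_le_exp.2 ?_)
      have := md_M_le hL hLl (g * h⁻¹)
      linarith
    have e1 : (1 / 4 + 4 * e) * l = e * l + (l / 4 + e * l) + 2 * e * l := by ring
    rw [e1, Real.exp_add, Real.exp_add]
    calc C * (mdM (g * h⁻¹) : ℝ) ^ (1 / 4 + e) * W * ((mdM g * mdM h : ℕ) : ℝ) ^ e
        = C * W * (mdM (g * h⁻¹) : ℝ) ^ (1 / 4 + e) * ((mdM g * mdM h : ℕ) : ℝ) ^ e := by ring
      _ ≤ _ := by gcongr

/-- the prime powers carried by the model -/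
def mdO (A l : ℝ) (N : ℕ) : Finset ℕ :=
  (Icc 1 ⌊Real.exp (A * l)⌋₊).filter fun n => Nat.Coprime n N

def mdMD (L W : ℕ) (A l : ℝ) (Z : mdG L W → Multiset ℂ) (P : mdG L W → ℝ) (H1 : ℝ) (N : ℕ) :
    MD (mdG L W) (mdO A l (L * W)) L.primeFactors where
  ev g n := mdC g n
  t n := Real.log (n : ℕ) / l
  w n := Λ (n : ℕ) / (n : ℕ) / l
  S := mdS
  U := univ
  wt i := Real.log (i : ℕ) / l
  Z := Z
  P := P
  H1 := H1
  N := N

lemma md_d (A l : ℝ) (Z : mdG L W → Multiset ℂ) (P : mdG L W → ℝ) (H1 : ℝ) (N : ℕ) (g : mdG L W) :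
    (mdMD L W A l Z P H1 N).d g = Real.log (mdM g) / l := by
  simp only [MD.d, mdMD, md_log, Finset.sum_div]

lemma md_K (A l : ℝ) (Z : mdG L W → Multiset ℂ) (P : mdG L W → ℝ) (H1 : ℝ) (N : ℕ) (g : mdG L W)
    (f : ℝ → ℝ) (v : ℂ) :
    (mdMD L W A l Z P H1 N).K f v g = ∑ n ∈ mdO A l (L * W), ((Λ n / n / l : ℝ) : ℂ)
      * (f (Real.log n / l) : ℂ) * cexp (v * ((Real.log n / l : ℝ) : ℂ)) * mdC g n := by
  simp only [MD.K, mdMD]
  exact Finset.sum_coe_sort (mdO A l (L * W)) fun n => ((Λ n / n / l : ℝ) : ℂ)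
      * (f (Real.log n / l) : ℂ) * cexp (v * ((Real.log n / l : ℝ) : ℂ)) * mdC g n

/-- restriction of the zero multiset to a box, emptied if no zero is low -/
def mdZ (Zb : Multiset ℂ) (Λm H : ℝ) : Multiset ℂ :=
  if ∃ z ∈ Zb, z.re ≤ Λm ∧ |z.im| ≤ H then Zb.filter (fun z => |z.im| ≤ H) else 0

lemma md_Z_le (Zb : Multiset ℂ) (Λm H : ℝ) : mdZ Zb Λm H ≤ Zb := by
  unfold mdZ
  split_ifs
  · exact Multiset.filter_le _ _
  · exact Multiset.zero_le _

lemma md_Z_ne {Zb : Multiset ℂ} {Λm H : ℝ} :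
    mdZ Zb Λm H ≠ 0 ↔ ∃ z ∈ Zb, z.re ≤ Λm ∧ |z.im| ≤ H := by
  unfold mdZ
  split_ifs with h
  · simp only [h, iff_true]
    obtain ⟨z, h1, -, h3⟩ := h
    intro e
    have : z ∈ Zb.filter (fun z => |z.im| ≤ H) := Multiset.mem_filter.2 ⟨h1, h3⟩
    simp [e] at this
  · simp [h]

lemma md_Z_eq {Zb : Multiset ℂ} {Λm H : ℝ} (h : mdZ Zb Λm H ≠ 0) :
    mdZ Zb Λm H = Zb.filter (fun z => |z.im| ≤ H) := by
  have := md_Z_ne.1 h
  unfold mdZ
  rw [if_pos this]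

lemma md_Z_conj (Zb : Multiset ℂ) (Λm H : ℝ) :
    mdZ (Zb.map conj) Λm H = (mdZ Zb Λm H).map conj := by
  unfold mdZ
  have e : (∃ z ∈ Zb.map conj, z.re ≤ Λm ∧ |z.im| ≤ H) ↔ ∃ z ∈ Zb, z.re ≤ Λm ∧ |z.im| ≤ H := by
    simp only [Multiset.mem_map]
    constructor
    · rintro ⟨z, ⟨w, hw, rfl⟩, h⟩
      exact ⟨w, hw, by simpa using h⟩
    · rintro ⟨z, hz, h⟩
      exact ⟨conj z, ⟨z, hz, rfl⟩, by simpa using h⟩
  rw [e]
  split_ifs
  · rw [Multiset.filter_map]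
    congr 2
    funext z
    simp
  · simp

lemma md_sum_norm (Z : Multiset ℂ) (F : ℂ → ℂ) :
    ‖(Z.map F).sum‖ ≤ (Z.map fun z => ‖F z‖).sum := by
  have := norm_multiset_sum_le (Z.map F)
  rwa [Multiset.map_map] at this

lemma md_sum_split (Z : Multiset ℂ) (F : ℂ → ℝ) (hF : ∀ z, 0 ≤ F z) (M : ℝ) :
    (Z.map F).sum ≤ ((Z.filter fun z => ‖z‖ ≤ M).map F).sum
      + ((Z.filter fun z => M ≤ ‖z‖).map F).sum := by
  induction Z using Multiset.induction_on with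
  | empty => simp
  | cons a s ih =>
    simp only [Multiset.filter_cons, Multiset.map_add, Multiset.sum_add, Multiset.map_cons,
      Multiset.sum_cons]
    have := hF a
    rcases le_total ‖a‖ M with h | h
    · by_cases h2 : M ≤ ‖a‖ <;> simp [h, h2] <;> linarith
    · by_cases h2 : ‖a‖ ≤ M <;> simp [h, h2] <;> linarith

lemma md_sum_le (Y : Multiset ℂ) (F G : ℂ → ℝ) (e : ℝ) (h : ∀ z ∈ Y, F z ≤ G z + e) :
    (Y.map F).sum ≤ (Y.map G).sum + Y.card * e := by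
  induction Y using Multiset.induction_on with
  | empty => simp
  | cons a s ih =>
    simp only [Multiset.map_cons, Multiset.sum_cons, Multiset.card_cons]
    have h1 := h a (by simp)
    have h2 := ih fun z hz => h z (by simp [hz])
    push_cast
    linarith

end

end Pool.Agent.Lib.PS
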