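import Pool.Agent.Lib.PS.Blue
import Pool.Agent.Lib.MP_d48457_nt.N21.Core
import Pool.Agent.Lib.MP_d48457_nt.N21.Plot

set_option autoImplicit false

namespace Pool.Agent.Lib.PS

open Finset MeasureTheory Complex Pool.Agent.Lib.MP_d48457_nt.N21
open scoped Classical ComplexConjugate

noncomputable def num_cut (a : ℝ) (φ : ℝ → ℝ) (t : ℝ) : ℝ := φ (max 0 (min t a))

theorem num_cut_mem {a t : ℝ} (φ : ℝ → ℝ) (h0 : 0 ≤ t) (h : t ≤ a) : num_cut a φ t = φ t := by
  unfold num_cut; rw [min_eq_left h, max_eq_right h0]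

theorem num_cut_ge {a t : ℝ} (φ : ℝ → ℝ) (h0 : 0 ≤ a) (h : a ≤ t) : num_cut a φ t = φ a := by
  unfold num_cut; rw [min_eq_right h, max_eq_right h0]

theorem num_cut_TF {a A : ℝ} {φ φ1 : ℝ → ℝ} (h0 : 0 ≤ a) (hA : a ≤ A) (ha : φ a = 0)
    (hp : ∀ t ∈ Set.Icc 0 a, 0 ≤ φ t) (hd : ∀ t, HasDerivAt φ (φ1 t) t)
    (hb : ∀ t ∈ Set.Icc 0 a, |φ1 t| ≤ A) : TF A (num_cut a φ) := by
  have hm : ∀ t, max 0 (min t a) ∈ Set.Icc 0 a := fun t =>
    ⟨le_max_left _ _, max_le h0 (min_le_right _ _)⟩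
  refine ⟨fun t => hp _ (hm t), fun s t _ _ => ?_, fun t ht => ?_⟩
  · have h1 := (convex_Icc (0:ℝ) a).norm_image_sub_le_of_norm_hasDerivWithin_le (f := φ) (f' := φ1)
      (C := A) (fun x _ => (hd x).hasDerivWithinAt) (fun x hx => hb x hx) (hm t) (hm s)
    rw [Real.norm_eq_abs, Real.norm_eq_abs] at h1
    refine h1.trans (mul_le_mul_of_nonneg_left ?_ (h0.trans hA))
    refine (abs_max_sub_max_le_max _ _ _ _).trans (max_le (by simp) ?_)
    refine (abs_min_sub_min_le_max _ _ _ _).trans (max_le le_rfl (by simp))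
  · rw [num_cut_ge φ h0 (hA.trans ht), ha]

theorem num_cut_int {E : Type} [NormedAddCommGroup E] [NormedSpace ℝ E] {a : ℝ} (h0 : 0 ≤ a)
    (F G : ℝ → E) (h1 : ∀ t, a < t → F t = 0) (h2 : ∀ t, 0 < t → t ≤ a → F t = G t) :
    ∫ t in Set.Ioi (0:ℝ), F t = ∫ t in (0:ℝ)..a, G t := by
  rw [setIntegral_eq_of_subset_of_forall_sdiff_eq_zero (s := Set.Ioc 0 a) measurableSet_Ioi
    Set.Ioc_subset_Ioi_self (fun x hx => h1 x (by
      by_contra hh
      exact hx.2 ⟨hx.1, not_lt.1 hh⟩)), intervalIntegral.integral_of_le h0]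
  exact setIntegral_congr_fun measurableSet_Ioc (fun x hx => h2 x hx.1 hx.2)

theorem num_cut_lap {a : ℝ} {φ : ℝ → ℝ} (h0 : 0 ≤ a) (ha : φ a = 0) (hc : Continuous φ) (z : ℂ) :
    (Lap (num_cut a φ) z).re = ∫ t in (0:ℝ)..a, φ t * Real.exp (-(z.re * t)) * Real.cos (z.im * t) := by
  unfold Lap
  rw [num_cut_int h0 _ (fun t => (φ t : ℂ) * cexp (-(z * t)))
    (fun t ht => by rw [num_cut_ge φ h0 ht.le, ha]; simp)
    (fun t h1 h2 => by rw [num_cut_mem φ h1.le h2])]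
  have := Complex.reCLM.intervalIntegral_comp_comm (μ := volume) (a := 0) (b := a)
    (f := fun t : ℝ => (φ t : ℂ) * cexp (-(z * t))) (Continuous.intervalIntegrable (by fun_prop) _ _)
  simp only [reCLM_apply] at this
  rw [← this]
  congr 1; ext t
  rw [re_ofReal_mul, Complex.exp_re]
  simp [mul_assoc]

theorem num_cut_PD {a : ℝ} {φ : ℝ → ℝ} (h0 : 0 ≤ a) (ha : φ a = 0)
    (h : ∀ y, 0 ≤ ∫ t in (0:ℝ)..a, φ t * Real.cos (y * t)) : PD (num_cut a φ) := by
  intro y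
  rw [num_cut_int h0 _ (fun t => φ t * Real.cos (y * t))
    (fun t ht => by rw [num_cut_ge φ h0 ht.le, ha]; simp)
    (fun t h1 h2 => by rw [num_cut_mem φ h1.le h2])]
  exact h y

/-- damped triangle -/
noncomputable def num_tri (b c : ℝ) : ℝ → ℝ :=
  num_cut b fun t => (1 - t / b) * Real.exp (-(c * t))

theorem num_tri_zero {b : ℝ} (hb : 0 < b) (c : ℝ) : num_tri b c 0 = 1 := by
  unfold num_tri; rw [num_cut_mem _ le_rfl hb.le]; simp

theorem num_tri_eq {b t : ℝ} (hb : 0 < b) (c : ℝ) (ht : 0 ≤ t) :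
    num_tri b c t = num_tri b 0 t * Real.exp (-(c * t)) := by
  unfold num_tri
  rcases le_total t b with h | h
  · rw [num_cut_mem _ ht h, num_cut_mem _ ht h]; simp
  · rw [num_cut_ge _ hb.le h, num_cut_ge _ hb.le h]; simp [div_self hb.ne']

theorem num_tri_TF {b c A : ℝ} (hb : 1 / 2 ≤ b) (hb' : b ≤ 10) (hc : 0 ≤ c) (hc' : c ≤ 8)
    (hA : 10 ≤ A) : TF A (num_tri b c) := by
  have hb0 : 0 < b := by linarith
  apply num_cut_TF hb0.le (by linarith) (by simp [div_self hb0.ne']) _ (hd_tri b c)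
  · intro t ht
    have h1 : 0 ≤ 1 - t / b := by have := (div_le_one hb0).2 ht.2; linarith
    have h2 : 0 ≤ t / b := div_nonneg ht.1 hb0.le
    have h3 : Real.exp (-(c * t)) ≤ 1 := Real.exp_le_one_iff.2 (by nlinarith [ht.1])
    have h4 : 1 / b ≤ 2 := by rw [div_le_iff₀ hb0]; linarith
    have h5 : 0 < 1 / b := by positivity
    rw [abs_mul, abs_of_pos (Real.exp_pos _), abs_of_nonpos (by nlinarith)]
    have h6 : -(-(1 / b) - c * (1 - t / b)) ≤ 10 := by nlinarith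
    have h7 : 0 ≤ -(-(1 / b) - c * (1 - t / b)) := by nlinarith
    nlinarith [Real.exp_pos (-(c * t))]
  · intro t ht
    have h1 : 0 ≤ 1 - t / b := by have := (div_le_one hb0).2 ht.2; linarith
    positivity

theorem num_tri_PD {b c : ℝ} (hb : 0 < b) (hc : 0 ≤ c) : PD (num_tri b c) :=
  num_cut_PD hb.le (by simp [div_self hb.ne']) (fun y => Fre_nonneg hb hc y)

theorem num_tri_lap {b : ℝ} (hb : 0 < b) (c : ℝ) (z : ℂ) :
    (Lap (num_tri b c) z).re = Fre b (c + z.re) z.im := by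
  unfold num_tri Fre
  rw [num_cut_lap hb.le (by simp [div_self hb.ne']) (by fun_prop)]
  congr 1; ext t
  rw [mul_assoc (1 - t / b), ← Real.exp_add]
  congr 3; ring

theorem Fre_neg (a c y : ℝ) : Fre a c (-y) = Fre a c y := by
  unfold Fre; simp

theorem Ftri_lip {a c δ : ℝ} (ha : 0 < a) (hc : 0 ≤ c) (hδ : 0 ≤ δ) :
    Ftri a c - δ * a ^ 2 ≤ Ftri a (c + δ) := by
  have e : δ * a ^ 2 = ∫ _ in (0:ℝ)..a, δ * a := by
    rw [intervalIntegral.integral_const, smul_eq_mul]; ring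
  unfold Ftri
  rw [e, ← intervalIntegral.integral_sub (Continuous.intervalIntegrable (by fun_prop) _ _)
    (Continuous.intervalIntegrable (by fun_prop) _ _)]
  apply intervalIntegral.integral_mono_on ha.le (Continuous.intervalIntegrable (by fun_prop) _ _)
    (Continuous.intervalIntegrable (by fun_prop) _ _)
  intro t ht
  have h1 : 0 ≤ 1 - t / a := by have := (div_le_one ha).2 ht.2; linarith
  have h2 : 0 ≤ t / a := div_nonneg ht.1 ha.le
  have h3 : Real.exp (-(c * t)) ≤ 1 := Real.exp_le_one_iff.2 (by nlinarith [ht.1])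
  have h4 : Real.exp (-((c + δ) * t)) = Real.exp (-(c * t)) * Real.exp (-(δ * t)) := by
    rw [← Real.exp_add]; congr 1; ring
  have h5 := Real.add_one_le_exp (-(δ * t))
  have h6 : δ * t ≤ δ * a := mul_le_mul_of_nonneg_left ht.2 hδ
  have h7 : 0 ≤ δ * t := mul_nonneg hδ ht.1
  have h8 : 0 ≤ (1 - t / a) * Real.exp (-(c * t)) := by positivity
  have h9 : (1 - t / a) * Real.exp (-(c * t)) ≤ 1 := by nlinarith [Real.exp_pos (-(c * t))]
  rw [h4, ← mul_assoc]
  nlinarith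

/-- the cluster test function -/
noncomputable def num_fc (l : ℝ) : ℝ → ℝ := num_cut (4 / 25) (fcl (4 / 25) l)

theorem fcl_deriv (K l t : ℝ) : HasDerivAt (fcl K l)
    (-(l * fcl K l t) - 2 * Real.exp (-(l * t)) * Real.exp (-(2 * l * (K - t)))) t := by
  have h1 : HasDerivAt (fun r => ∫ s in (0:ℝ)..r, Real.exp (-(2 * l * s)))
      (Real.exp (-(2 * l * (K - t)))) (K - t) :=
    (Continuous.integral_hasStrictDerivAt (by fun_prop) 0 (K - t)).hasDerivAt
  have h2 := h1.comp t ((hasDerivAt_id' t).const_sub K)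
  have h3 := ((hd_lin l t).exp.const_mul 2).fun_mul h2
  refine h3.congr_deriv ?_
  simp only [fcl, Function.comp]; ring

theorem fcl_deriv2 (K l t : ℝ) : HasDerivAt
    (fun t => -(l * fcl K l t) - 2 * Real.exp (-(l * t)) * Real.exp (-(2 * l * (K - t))))
    (l ^ 2 * fcl K l t) t := by
  have h1 : HasDerivAt (fun u => -(2 * l * (K - u))) (2 * l) t :=
    ((((hasDerivAt_id' t).const_sub K).const_mul (2 * l)).fun_neg).congr_deriv (by ring)
  refine ((((fcl_deriv K l t).const_mul l).fun_neg).fun_sub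
    (((hd_lin l t).exp.const_mul 2).fun_mul h1.exp)).congr_deriv ?_
  ring

theorem fcl_end (K l : ℝ) : fcl K l K = 0 := by simp [fcl]

theorem fcl_nonneg {K t : ℝ} (l : ℝ) (ht : t ≤ K) : 0 ≤ fcl K l t := by
  unfold fcl
  apply mul_nonneg (by positivity)
  exact intervalIntegral.integral_nonneg (by linarith) (fun _ _ => (Real.exp_pos _).le)

theorem num_fc_TF {l A : ℝ} (hl : 0 ≤ l) (hl' : l ≤ 3) (hA : 10 ≤ A) : TF A (num_fc l) := by
  apply num_cut_TF (by norm_num) (by linarith) (fcl_end _ _) (fun t ht => fcl_nonneg l ht.2)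
    (fcl_deriv _ l)
  intro t ht
  have h1 := fcl_nonneg (K := 4 / 25) l ht.2
  have h2 : Real.exp (-(l * t)) ≤ 1 := Real.exp_le_one_iff.2 (by nlinarith [ht.1])
  have h3 : Real.exp (-(2 * l * (4 / 25 - t))) ≤ 1 := Real.exp_le_one_iff.2 (by nlinarith [ht.2])
  have h4 : fcl (4 / 25) l t ≤ 1 := by
    unfold fcl
    have := intervalIntegral.integral_mono_on (μ := volume) (a := 0) (b := 4 / 25 - t)
      (f := fun s => Real.exp (-(2 * l * s))) (g := fun _ => (1:ℝ)) (by linarith [ht.2])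
      (Continuous.intervalIntegrable (by fun_prop) _ _) (Continuous.intervalIntegrable (by fun_prop) _ _)
      (fun s hs => Real.exp_le_one_iff.2 (by nlinarith [hs.1]))
    simp only [intervalIntegral.integral_const, sub_zero, smul_eq_mul, mul_one] at this
    have h5 : 0 ≤ ∫ s in (0:ℝ)..(4 / 25 - t), Real.exp (-(2 * l * s)) :=
      intervalIntegral.integral_nonneg (by linarith [ht.2]) (fun _ _ => (Real.exp_pos _).le)
    nlinarith [ht.1, Real.exp_pos (-(l * t))]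
  have e1 := Real.exp_pos (-(l * t))
  have e2 := Real.exp_pos (-(2 * l * (4 / 25 - t)))
  have h6 : Real.exp (-(l * t)) * Real.exp (-(2 * l * (4 / 25 - t))) ≤ 1 := by nlinarith
  have h7 : 0 ≤ Real.exp (-(l * t)) * Real.exp (-(2 * l * (4 / 25 - t))) := by positivity
  have h8 : 0 ≤ l * fcl (4 / 25) l t := by positivity
  have h9 : l * fcl (4 / 25) l t ≤ 3 := by nlinarith
  rw [abs_le]; constructor <;> nlinarith

theorem num_fc_PD (l : ℝ) : PD (num_fc l) := by
  apply num_cut_PD (by norm_num) (fcl_end _ _)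
  intro y
  refine polya (by norm_num) (fcl_deriv _ l) (fcl_deriv2 _ l) ((fcl_cont _ l).const_mul _)
    (fcl_end _ _) ?_ (fun t ht => mul_nonneg (sq_nonneg _) (fcl_nonneg l ht.2)) y
  rw [fcl_end]
  have : 0 < 2 * Real.exp (-(l * (4 / 25))) * Real.exp (-(2 * l * (4 / 25 - 4 / 25))) := by positivity
  linarith

/-- the Cauchy-Schwarz weights of the two long rows -/
theorem num_W_TF {a b κ A : ℝ} (ha : 1 / 2 ≤ a) (ha' : a ≤ 1) (hb : 19 / 10 * a ≤ b) (hκ : 0 ≤ κ)
    (hκ' : κ ≤ 6) (hA : 100000 ≤ A) : TF A (num_cut a fun t => Real.exp (κ * t) * Wp a b t) := by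
  have ha0 : 0 < a := by linarith
  have hb0 : 0 < b := by linarith
  have hr : a / b ≤ 10 / 19 := by rw [div_le_iff₀ hb0]; linarith
  have hr0 : 0 < a / b := by positivity
  set m := 1 / (1 - a / b) with hm
  have hm0 : 0 ≤ m := by apply div_nonneg <;> linarith
  have hm1 : m ≤ 3 := by rw [hm, div_le_iff₀ (by linarith)]; linarith
  have eW : ∀ t, Wp a b t = (1 - t / a) ^ 2 * (1 + t / b + (t / b) ^ 2 + (t / b) ^ 3 * m) := by
    intro t; unfold Wp; rw [hm]; ring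
  simp only [eW]
  apply num_cut_TF (φ1 := fun t => Real.exp (κ * t) * (κ * ((1 - t / a) ^ 2 *
      (1 + t / b + (t / b) ^ 2 + (t / b) ^ 3 * m)) - 2 * (1 / a) * (1 - t / a) *
      (1 + t / b + (t / b) ^ 2 + (t / b) ^ 3 * m) + (1 - t / a) ^ 2 * (1 / b) *
      (1 + 2 * (t / b) + 3 * (t / b) ^ 2 * m))) ha0.le (by linarith) (by simp [div_self ha0.ne'])
  · intro t ht
    have := ht.1
    positivity
  · intro t
    have h1 := ((hasDerivAt_id' t).div_const a).const_sub 1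
    have h2 := (hasDerivAt_id' t).div_const b
    refine ((((hasDerivAt_id' t).const_mul κ).exp).fun_mul ((h1.fun_pow 2).fun_mul
      (((h2.const_add 1).fun_add (h2.fun_pow 2)).fun_add ((h2.fun_pow 3).mul_const m)))).congr_deriv ?_
    push_cast; ring
  · intro t ht
    have h1 : 0 ≤ 1 - t / a := by have := (div_le_one ha0).2 ht.2; linarith
    have h2 : 0 ≤ t / a := div_nonneg ht.1 ha0.le
    have h3 : 0 ≤ t / b := div_nonneg ht.1 hb0.le
    have h4 : t / b ≤ 1 := by rw [div_le_one hb0]; linarith [ht.2]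
    have h5 : 1 / a ≤ 2 := by rw [div_le_iff₀ ha0]; linarith
    have h6 : 1 / b ≤ 2 := by rw [div_le_iff₀ hb0]; linarith
    have h7 : Real.exp (κ * t) ≤ 1000 := by
      have h8 : Real.exp ((6 : ℚ) : ℝ) ≤ ((1000 : ℚ) : ℝ) :=
        exp_le_of 20 (by norm_num) (by norm_num) (by decide +kernel)
      push_cast at h8
      exact (Real.exp_le_exp.2 (by nlinarith [ht.1, ht.2])).trans h8
    have hp : 1 - t / a ≤ 1 := by linarith
    generalize 1 - t / a = p at *
    generalize t / b = q at *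
    have a1 : 0 ≤ 1 / a := by positivity
    have a2 : 0 ≤ 1 / b := by positivity
    generalize 1 / a = x at *
    generalize 1 / b = y at *
    have q2 : q ^ 2 ≤ 1 := pow_le_one₀ h3 h4
    have q3 : q ^ 3 ≤ 1 := pow_le_one₀ h3 h4
    have p2 : p ^ 2 ≤ 1 := pow_le_one₀ h1 hp
    have b1 : 1 + q + q ^ 2 + q ^ 3 * m ≤ 6 := by nlinarith [pow_nonneg h3 3]
    have b2 : 1 + 2 * q + 3 * q ^ 2 * m ≤ 12 := by nlinarith [pow_nonneg h3 2]
    have b1' : 0 ≤ 1 + q + q ^ 2 + q ^ 3 * m := by positivity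
    have b2' : 0 ≤ 1 + 2 * q + 3 * q ^ 2 * m := by positivity
    have c1 : κ * (p ^ 2 * (1 + q + q ^ 2 + q ^ 3 * m)) ≤ 6 * (1 * 6) := by gcongr
    have c2 : 2 * x * p * (1 + q + q ^ 2 + q ^ 3 * m) ≤ 2 * 2 * 1 * 6 := by gcongr
    have c3 : p ^ 2 * y * (1 + 2 * q + 3 * q ^ 2 * m) ≤ 1 * 2 * 12 := by gcongr
    have c1' : 0 ≤ κ * (p ^ 2 * (1 + q + q ^ 2 + q ^ 3 * m)) := by positivity
    have c2' : 0 ≤ 2 * x * p * (1 + q + q ^ 2 + q ^ 3 * m) := by positivity
    have c3' : 0 ≤ p ^ 2 * y * (1 + 2 * q + 3 * q ^ 2 * m) := by positivity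
    rw [abs_mul, abs_of_pos (Real.exp_pos _)]
    have d : |κ * (p ^ 2 * (1 + q + q ^ 2 + q ^ 3 * m)) - 2 * x * p * (1 + q + q ^ 2 + q ^ 3 * m)
      + p ^ 2 * y * (1 + 2 * q + 3 * q ^ 2 * m)| ≤ 60 := by
      rw [abs_le]; constructor <;> linarith
    calc _ ≤ 1000 * 60 := by gcongr
      _ ≤ A := by linarith

end Pool.Agent.Lib.PS
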