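import Pool.Agent.Lib.PS.NUM1

set_option autoImplicit false

namespace Pool.Agent.Lib.PS

open Finset MeasureTheory Complex Pool.Agent.Lib.MP_d48457_nt.N21
open scoped Classical ComplexConjugate

variable {Γ Ω ι : Type} [CommGroup Γ] [Fintype Γ] [Fintype Ω] {M : MD Γ Ω ι} {α K A : ℝ}
  {DS : List DD} {lam0 Λm : ℝ} {N0 : ℕ} {ε : ℝ}

noncomputable def num_u (M : MD Γ Ω ι) (mu : ℝ) (g : Γ) (ω : Ω) : ℂ :=
  cexp (-(mu * M.t ω * I)) * M.ev g ω

noncomputable def num_K (M : MD Γ Ω ι) (f : ℝ → ℝ) (lm mu : ℝ) (g : Γ) : ℝ :=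
  ∑ ω, M.w ω * f (M.t ω) * Real.exp (lm * M.t ω) * (num_u M mu g ω).re

omit [CommGroup Γ] [Fintype Γ] in
theorem num_K_eq (f : ℝ → ℝ) (lm mu : ℝ) (g : Γ) :
    (M.K f (lm - mu * I) g).re = num_K M f lm mu g := by
  unfold MD.K num_K num_u
  rw [re_sum]
  apply sum_congr rfl
  intro ω _
  have : (M.w ω : ℂ) * (f (M.t ω) : ℂ) * cexp ((lm - mu * I) * (M.t ω : ℂ)) * M.ev g ω
      = ((M.w ω * f (M.t ω) * Real.exp (lm * M.t ω) : ℝ) : ℂ) *
        (cexp (-(mu * M.t ω * I)) * M.ev g ω) := by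
    push_cast
    have : cexp ((lm - mu * I) * (M.t ω : ℂ)) = cexp (lm * M.t ω) * cexp (-(mu * M.t ω * I)) := by
      rw [← Complex.exp_add]; congr 1; ring
    rw [this]; ring
  rw [this, re_ofReal_mul]

theorem num_ev_one (h : M.Ok α K A DS lam0 Λm N0 ε) (ω : Ω) : M.ev 1 ω = 1 := by
  have h1 := h.ev_mul 1 1 ω
  rw [one_mul] at h1
  have h2 : M.ev 1 ω ≠ 0 := by
    intro h0
    have := h.ev_norm 1 ω
    rw [h0] at this; simp at this
  exact (mul_left_eq_self₀.1 h1.symm).resolve_right h2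

theorem num_ev_inv (h : M.Ok α K A DS lam0 Λm N0 ε) (g : Γ) (ω : Ω) :
    M.ev g⁻¹ ω = conj (M.ev g ω) := by
  have h1 := h.ev_mul g g⁻¹ ω
  rw [mul_inv_cancel, num_ev_one h] at h1
  have h2 := Complex.mul_conj' (M.ev g ω)
  rw [h.ev_norm] at h2
  have h3 : M.ev g ω ≠ 0 := by
    intro h0
    have := h.ev_norm g ω
    rw [h0] at this; simp at this
  apply mul_left_cancel₀ h3
  rw [← h1, h2]; simp

theorem num_u_norm (h : M.Ok α K A DS lam0 Λm N0 ε) (mu : ℝ) (g : Γ) (ω : Ω) :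
    ‖num_u M mu g ω‖ = 1 := by
  unfold num_u
  rw [norm_mul, h.ev_norm, Complex.norm_exp]
  simp

theorem num_u_mul (h : M.Ok α K A DS lam0 Λm N0 ε) (mu mu' : ℝ) (g g' : Γ) (ω : Ω) :
    num_u M (mu + mu') (g * g') ω = num_u M mu g ω * num_u M mu' g' ω := by
  unfold num_u
  rw [h.ev_mul]
  have : cexp (-(((mu + mu' : ℝ) : ℂ) * M.t ω * I)) =
      cexp (-(mu * M.t ω * I)) * cexp (-(mu' * M.t ω * I)) := by
    rw [← Complex.exp_add]; congr 1; push_cast; ring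
  rw [this]; ring

theorem num_u_conj (h : M.Ok α K A DS lam0 Λm N0 ε) (mu : ℝ) (g : Γ) (ω : Ω) :
    num_u M (-mu) g⁻¹ ω = conj (num_u M mu g ω) := by
  unfold num_u
  rw [num_ev_inv h, map_mul, ← Complex.exp_conj]
  congr 2
  simp

theorem num_u_one (h : M.Ok α K A DS lam0 Λm N0 ε) (ω : Ω) : num_u M 0 1 ω = 1 := by
  unfold num_u
  rw [num_ev_one h]; simp

theorem num_S_one (h : M.Ok α K A DS lam0 Λm N0 ε) : M.S 1 = ∅ := by
  have := h.S_mul 1 1
  rw [one_mul, symmDiff_self] at this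
  exact this

theorem num_S_inv (h : M.Ok α K A DS lam0 Λm N0 ε) (g : Γ) : M.S g⁻¹ = M.S g := by
  have := h.S_mul g⁻¹ g
  rw [inv_mul_cancel, num_S_one h] at this
  exact symmDiff_eq_bot.1 this.symm

theorem num_d_sq (h : M.Ok α K A DS lam0 Λm N0 ε) (g : Γ) : M.d (g * g) = 0 := by
  unfold MD.d
  rw [h.S_mul, symmDiff_self]; simp

theorem num_d_one (h : M.Ok α K A DS lam0 Λm N0 ε) : M.d 1 = 0 := by
  unfold MD.d
  rw [num_S_one h]; simp

theorem num_d_le (h : M.Ok α K A DS lam0 Λm N0 ε) (g : Γ) : M.d g ≤ 1 :=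
  (sum_le_sum_of_subset_of_nonneg (h.S_sub g) (fun i _ _ => h.wt_nonneg i)).trans h.wt_sum

theorem num_d_nonneg (h : M.Ok α K A DS lam0 Λm N0 ε) (g : Γ) : 0 ≤ M.d g :=
  sum_nonneg fun i _ => h.wt_nonneg i

theorem num_d_three (h : M.Ok α K A DS lam0 Λm N0 ε) (g g' : Γ) :
    M.d g + M.d g' + M.d (g * g') ≤ 2 := by
  have e : ∀ k : Γ, M.d k = ∑ i ∈ M.U, if i ∈ M.S k then M.wt i else 0 := by
    intro k
    rw [← sum_filter, filter_mem_eq_inter, inter_eq_right.2 (h.S_sub k)]; rfl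
  rw [e, e, e, ← sum_add_distrib, ← sum_add_distrib]
  have : ∑ i ∈ M.U, 2 * M.wt i ≤ 2 := by rw [← mul_sum]; linarith [h.wt_sum]
  refine le_trans (sum_le_sum fun i _ => ?_) this
  have := h.wt_nonneg i
  rw [h.S_mul]
  simp only [mem_symmDiff]
  by_cases h1 : i ∈ M.S g <;> by_cases h2 : i ∈ M.S g' <;> simp [h1, h2] <;> linarith

theorem num_ne_one (h : M.Ok α K A DS lam0 Λm N0 ε) {g : Γ} {z : ℂ} (hz : z ∈ M.Z g) : g ≠ 1 := by
  rintro rfl
  rw [h.Z_one] at hz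
  simp at hz

/-- Lemma K for damped triangles -/
theorem num_kt (h : M.Ok α K A DS lam0 Λm N0 ε) (hA : 10 ≤ A) {b c lm mu : ℝ} (g : Γ) (D : Multiset ℂ)
    (hb : 1 / 2 ≤ b) (hb' : b ≤ 10) (hc : 0 ≤ c) (hc' : c ≤ 8) (h1 : -1 ≤ lm) (h2 : lm + ε ≤ Λm)
    (h3 : |mu| ≤ 4 * M.H1) (h4 : D ≤ M.Z g) (h5 : D.card ≤ 3) (h6 : ∀ z ∈ M.Z g - D, lm + ε ≤ z.re) :
    num_K M (num_tri b c) lm mu g ≤ (if g = 1 then Fre b (c - lm) mu else 0)
      - (D.map fun z => Fre b (c + z.re - lm) (z.im + mu)).sum + M.d g / 8 + ε := by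
  have hb0 : 0 < b := by linarith
  have := h.kax (num_tri b c) lm mu g D (num_tri_TF hb hb' hc hc' hA) (num_tri_PD hb0 hc) h1 h2 h3 h4
    (by omega) h6
  rw [num_K_eq, num_tri_zero hb0, mul_one] at this
  simp only [num_tri_lap hb0] at this
  have e1 : c + (-((lm : ℂ) - mu * I)).re = c - lm := by simp; ring
  have e2 : (-((lm : ℂ) - mu * I)).im = mu := by simp
  have e3 : ∀ z : ℂ, c + (z - ((lm : ℂ) - mu * I)).re = c + z.re - lm := by intro z; simp; ring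
  have e4 : ∀ z : ℂ, (z - ((lm : ℂ) - mu * I)).im = z.im + mu := by intro z; simp
  simpa only [e1, e2, e3, e4] using this

/-- pointwise Cauchy-Schwarz in the form of the arithmetic-geometric mean inequality -/
theorem num_amgm {f w g x y al : ℝ} (hw : 0 ≤ w) (hg : 0 ≤ g)
    (hal : 0 < al) (h : f ^ 2 ≤ w * g) : f * x * y ≤ al / 2 * (w * x ^ 2) + 1 / (2 * al) * (g * y ^ 2) := by
  set p := al * (w * x ^ 2) with hp
  set q := g * y ^ 2 / al with hq
  have hp0 : 0 ≤ p := by positivity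
  have hq0 : 0 ≤ q := by positivity
  have e : p * q = w * g * (x * y) ^ 2 := by rw [hp, hq]; field_simp
  have h1 : (f * x * y) ^ 2 ≤ p * q := by
    rw [e]
    have := mul_le_mul_of_nonneg_right h (sq_nonneg (x * y))
    nlinarith
  have h2 : (f * x * y) ^ 2 ≤ ((p + q) / 2) ^ 2 := by nlinarith [sq_nonneg (p - q)]
  have h3 := abs_le_of_sq_le_sq' h2 (by positivity)
  have e2 : al / 2 * (w * x ^ 2) + 1 / (2 * al) * (g * y ^ 2) = (p + q) / 2 := by
    rw [hp, hq]; field_simp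
  rw [e2]; exact h3.2

/-- the positivity behind every row -/
theorem num_cs (h : M.Ok α K A DS lam0 Λm N0 ε) {β : Type} (J : Finset β) (g : β → Γ) (mu th : β → ℝ)
    {a b θ al : ℝ} (ha : 0 < a) (hb : 0 < b) (hal : 0 < al) (w0 : ℝ → ℝ) (hw : ∀ t, 0 ≤ t → 0 ≤ w0 t)
    (hw' : ∀ t, 0 ≤ t → num_tri a 0 t ^ 2 ≤ w0 t * num_tri b 0 t) :
    -∑ j ∈ J, num_K M (num_tri a 0) (th j) (mu j) (g j) ≤
      al / 2 * ∑ ω, M.w ω * (w0 (M.t ω) * Real.exp (2 * θ * M.t ω)) + 1 / (2 * al) *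
        ∑ j ∈ J, ∑ k ∈ J, num_K M (num_tri b (2 * θ - th j - th k)) 0 (mu j - mu k) (g j * (g k)⁻¹) := by
  unfold num_K
  rw [sum_comm, sum_congr rfl (fun j _ => sum_comm), sum_comm (s := J), mul_sum, mul_sum,
    ← sum_add_distrib, ← sum_neg_distrib]
  apply sum_le_sum
  intro ω _
  have ht := (h.t_mem ω).1
  set T := M.t ω with hT
  set U : ℂ := ∑ j ∈ J, (Real.exp ((th j - θ) * T) : ℂ) * num_u M (mu j) (g j) ω with hU
  have e1 : ∑ j ∈ J, M.w ω * num_tri a 0 T * Real.exp (th j * T) * (num_u M (mu j) (g j) ω).re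
      = M.w ω * (num_tri a 0 T * Real.exp (θ * T) * U.re) := by
    rw [hU, re_sum, mul_sum, mul_sum]
    apply sum_congr rfl
    intro j _
    rw [re_ofReal_mul]
    have : Real.exp (th j * T) = Real.exp (θ * T) * Real.exp ((th j - θ) * T) := by
      rw [← Real.exp_add]; congr 1; ring
    rw [this]; ring
  have e2 : ∑ j ∈ J, ∑ k ∈ J, M.w ω * num_tri b (2 * θ - th j - th k) T * Real.exp (0 * T) *
      (num_u M (mu j - mu k) (g j * (g k)⁻¹) ω).re = M.w ω * (num_tri b 0 T * ‖U‖ ^ 2) := by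
    have e3 : ‖U‖ ^ 2 = (U * conj U).re := by
      rw [Complex.mul_conj', ← ofReal_pow, ofReal_re]
    rw [e3, hU, map_sum, sum_mul_sum, re_sum, mul_sum, mul_sum]
    apply sum_congr rfl
    intro j _
    rw [re_sum, mul_sum, mul_sum]
    apply sum_congr rfl
    intro k _
    rw [sub_eq_add_neg (mu j), num_u_mul h, num_u_conj h, num_tri_eq hb _ ht, map_mul, conj_ofReal]
    have : (Real.exp ((th j - θ) * T) : ℂ) * num_u M (mu j) (g j) ω *
        ((Real.exp ((th k - θ) * T) : ℂ) * conj (num_u M (mu k) (g k) ω)) =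
        ((Real.exp (-((2 * θ - th j - th k) * T)) : ℝ) : ℂ) *
          (num_u M (mu j) (g j) ω * conj (num_u M (mu k) (g k) ω)) := by
      have : Real.exp (-((2 * θ - th j - th k) * T)) =
          Real.exp ((th j - θ) * T) * Real.exp ((th k - θ) * T) := by
        rw [← Real.exp_add]; congr 1; ring
      rw [this]; push_cast; ring
    rw [this, re_ofReal_mul]
    simp only [zero_mul, Real.exp_zero]; ring
  rw [e1, e2]
  have n1 : ∀ c : ℝ, 0 < c → 0 ≤ num_tri c 0 T := by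
    intro c hc
    unfold num_tri num_cut
    have : max 0 (min T c) / c ≤ 1 := (div_le_one hc).2 (max_le hc.le (min_le_right _ _))
    have : 0 ≤ 1 - max 0 (min T c) / c := by linarith
    positivity
  have k1 := num_amgm (x := Real.exp (θ * T)) (y := ‖U‖) (hw T ht) (n1 b hb) hal (hw' T ht)
  have k2 : Real.exp (θ * T) ^ 2 = Real.exp (2 * θ * T) := by
    rw [← Real.exp_nat_mul]; congr 1; push_cast; ring
  rw [k2] at k1
  have k3 : -U.re ≤ ‖U‖ := (neg_le_abs _).trans (abs_re_le_norm U)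
  have k4 := mul_le_mul_of_nonneg_left k3 (mul_nonneg (n1 a ha) (Real.exp_pos (θ * T)).le)
  have k5 := mul_le_mul_of_nonneg_left (k4.trans k1) (h.w_nonneg ω)
  linarith

end Pool.Agent.Lib.PS
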