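import Pool.Agent.Lib.PS.NUM2

set_option autoImplicit false

namespace Pool.Agent.Lib.PS

open Finset MeasureTheory Complex Pool.Agent.Lib.MP_d48457_nt.N21
open scoped Classical ComplexConjugate

variable {Γ Ω ι : Type} [CommGroup Γ] [Fintype Γ] [Fintype Ω] {M : MD Γ Ω ι} {α K A : ℝ}
  {DS : List DD} {lam0 Λm : ℝ} {N0 : ℕ} {ε : ℝ}

theorem num_pair_le {s : Multiset ℂ} {x y : ℂ} (hx : x ∈ s) (hy : y ∈ s.erase x) :
    x ::ₘ {y} ≤ s := by
  rw [← Multiset.cons_erase hx]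
  exact Multiset.cons_le_cons _ (Multiset.singleton_le.2 hy)

/-- the Gram matrix of a row -/
theorem num_gram (h : M.Ok α K A DS lam0 Λm N0 ε) (hA : 10 ≤ A) (hε0 : ε ≤ lam0) (hΛ : ε ≤ Λm)
    {β : Type} (J : Finset β) (g : β → Γ) (mu th : β → ℝ) {b θ : ℝ} (hb : 1 / 2 ≤ b) (hb' : b ≤ 10)
    (hθ : θ ≤ 4) (hth : ∀ j ∈ J, 0 ≤ th j ∧ th j ≤ θ) (hmu : ∀ j ∈ J, |mu j| ≤ M.H1) (x : ℝ) :
    ∑ j ∈ J, ∑ k ∈ J, num_K M (num_tri b (2 * θ - th j - th k)) 0 (mu j - mu k) (g j * (g k)⁻¹) ≤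
      ∑ j ∈ J, ∑ k ∈ J, (if g j = g k then Fre b (2 * θ - th j - th k) (mu j - mu k) else 0)
      + (2 * (J.card : ℝ) ^ 2 * x ^ 2 + 2 * J.card * (1 - 2 * x) * ∑ j ∈ J, M.d (g j)) / 8
      + (J.card : ℝ) ^ 2 * ε := by
  have h1 : ∀ j ∈ J, ∀ k ∈ J,
      num_K M (num_tri b (2 * θ - th j - th k)) 0 (mu j - mu k) (g j * (g k)⁻¹) ≤
      (if g j = g k then Fre b (2 * θ - th j - th k) (mu j - mu k) else 0)
        + (∑ p ∈ symmDiff (M.S (g j)) (M.S (g k)), M.wt p) / 8 + ε := by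
    intro j hj k hk
    obtain ⟨a1, a2⟩ := hth j hj
    obtain ⟨a3, a4⟩ := hth k hk
    have a5 := hmu j hj
    have a6 := hmu k hk
    have := num_kt h hA (b := b) (c := 2 * θ - th j - th k) (lm := 0) (mu := mu j - mu k)
      (g j * (g k)⁻¹) 0 hb hb' (by linarith) (by linarith) (by norm_num) (by linarith)
      ((abs_sub _ _).trans (by linarith [h.H1_nonneg])) (Multiset.zero_le _) (by simp)
      (fun z hz => by
        rw [Multiset.sub_zero] at hz
        have := h.Z_re _ z hz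
        linarith)
    simp only [mul_inv_eq_one, sub_zero, Multiset.map_zero, Multiset.sum_zero] at this
    unfold MD.d at this
    rw [h.S_mul, num_S_inv h] at this
    exact this
  refine (sum_le_sum fun j hj => sum_le_sum fun k hk => h1 j hj k hk).trans ?_
  have h2 := plotkin M.U M.wt (fun i _ => h.wt_nonneg i) h.wt_sum J (fun j => M.S (g j))
    (fun j _ => h.S_sub _) x
  simp only [sum_add_distrib, ← sum_div, sum_const, nsmul_eq_mul]
  unfold MD.d
  have : (J.card : ℝ) * (J.card * ε) = (J.card : ℝ) ^ 2 * ε := by ring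
  linarith

theorem num_row (h : M.Ok α K A DS lam0 Λm N0 ε) (hA : 10 ≤ A) (hε : 0 ≤ ε) (hε0 : ε ≤ lam0)
    (hΛ : 5 ≤ Λm) (hε1 : ε ≤ 1) {θ a b s I : ℝ} (ha : 1 / 2 ≤ a) (hab : a ≤ b) (hb : b ≤ 10) (hθ0 : 0 ≤ θ)
    (hθ : θ ≤ 4) (hs : 0 < s) (hI0 : 0 < I) (w0 : ℝ → ℝ) (hw : ∀ t, 0 ≤ t → 0 ≤ w0 t)
    (hw' : ∀ t, 0 ≤ t → num_tri a 0 t ^ 2 ≤ w0 t * num_tri b 0 t)
    (hI : ∑ ω, M.w ω * (w0 (M.t ω) * Real.exp (2 * θ * M.t ω)) ≤ I + ε)
    (A1 A2 : Finset Γ) (hsub : A2 ⊆ A1) (l l' : Γ → ℝ) (z1 z2 : Γ → ℂ)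
    (h1 : ∀ g ∈ A1, (∀ z ∈ M.Z g, l g ≤ z.re) ∧ z1 g ∈ M.Z g ∧ (z1 g).re ≤ l g + ε ∧
      |(z1 g).im| ≤ M.H1 ∧ ε ≤ l g)
    (h2 : ∀ g ∈ A2, a = b ∧ θ + ε ≤ l g ∧ z2 g ∈ (M.Z g).erase (z1 g) ∧ (z2 g).re ≤ l' g + ε ∧
      |(z2 g).im| ≤ M.H1 ∧
      I / (2 * s) ≤ Real.exp (-(((z1 g).re - θ) * a)) + Real.exp (-(((z2 g).re - θ) * a))) :
    ∑ g ∈ A1, (Ftri a (max 0 (l g - θ)) - (s / 2 + (I + s) ^ 2 / (32 * s * I)
        + ε * (1 + s / (2 * I) + I / (2 * s) + 2 * a ^ 2)))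
      + ∑ g ∈ A2, (Ftri a (max 0 (l' g - θ)) - (s / 2 + (I + s) ^ 2 / (32 * s * I)
        + ε * (1 + s / (2 * I) + I / (2 * s) + 2 * a ^ 2))) ≤ b * I / (4 * s) := by
  have ha0 : 0 < a := by linarith
  have hb0 : 0 < b := by linarith
  rcases A1.eq_empty_or_nonempty with rfl | hne
  · rw [subset_empty.1 hsub]
    simp only [sum_empty, add_zero]; positivity
  set J := A1.disjSum A2 with hJ
  set g : Γ ⊕ Γ → Γ := Sum.elim id id with hg
  set mu : Γ ⊕ Γ → ℝ := Sum.elim (fun x => -(z1 x).im) (fun x => -(z2 x).im) with hmu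
  set th : Γ ⊕ Γ → ℝ := Sum.elim (fun x => min θ (l x - ε)) (fun _ => θ) with hth
  have hN : (J.card : ℝ) = A1.card + A2.card := by rw [hJ, card_disjSum]; push_cast; rfl
  have hN1 : (1:ℝ) ≤ A1.card := by exact_mod_cast hne.card_pos
  have hN0 : (0:ℝ) < J.card := by rw [hN]; positivity
  set N : ℝ := (J.card : ℝ) with hNdef
  have cs := num_cs h J g mu th (θ := θ) (al := s * N / I) ha0 hb0 (by positivity) w0 hw hw'
  have gr := num_gram h hA hε0 (by linarith) J g mu th (b := b) (by linarith) hb hθ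
    (fun j hj => by
      rcases j with x | x
      · have := (h1 x (inl_mem_disjSum.1 hj)).2.2.2.2
        exact ⟨le_min hθ0 (by linarith), min_le_left _ _⟩
      · exact ⟨hθ0, le_rfl⟩)
    (fun j hj => by
      rcases j with x | x
      · simpa [hmu] using (h1 x (inl_mem_disjSum.1 hj)).2.2.2.1
      · simpa [hmu] using (h2 x (inr_mem_disjSum.1 hj)).2.2.2.2.1) ((1 + s / I) / 2)
  have tm : ∀ x ∈ A2, min θ (l x - ε) = θ := fun x hx => min_eq_left (by linarith [(h2 x hx).2.1])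
  -- the same-character part of the Gram matrix
  have q1 : ∑ j ∈ J, ∑ k ∈ J, (if g j = g k then Fre b (2 * θ - th j - th k) (mu j - mu k) else 0) ≤
      N * (b / 2) + 2 * ∑ x ∈ A2, Fre b 0 ((z2 x).im - (z1 x).im) := by
    simp only [hJ, sum_disjSum, hg, hmu, hth, Sum.elim_inl, Sum.elim_inr, id, sum_add_distrib]
    have b1 : ∑ x ∈ A1, ∑ y ∈ A1, (if x = y then Fre b (2 * θ - min θ (l x - ε) - min θ (l y - ε))
        (-(z1 x).im - -(z1 y).im) else 0) ≤ A1.card * (b / 2) := by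
      rw [← nsmul_eq_mul, ← sum_const]
      apply sum_le_sum
      intro x hx
      rw [sum_ite_eq, if_pos hx, sub_self, Fre_zero, ← Ftri_zero hb0]
      exact Ftri_anti hb0 (by linarith [min_le_left θ (l x - ε)])
    have b2 : ∑ x ∈ A2, ∑ y ∈ A2, (if x = y then Fre b (2 * θ - θ - θ)
        (-(z2 x).im - -(z2 y).im) else 0) ≤ A2.card * (b / 2) := by
      rw [← nsmul_eq_mul, ← sum_const]
      apply sum_le_sum
      intro x hx
      rw [sum_ite_eq, if_pos hx, sub_self, Fre_zero, ← Ftri_zero hb0]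
      exact Ftri_anti hb0 (by linarith)
    have b3 : ∑ x ∈ A1, ∑ y ∈ A2, (if x = y then Fre b (2 * θ - min θ (l x - ε) - θ)
        (-(z1 x).im - -(z2 y).im) else 0) = ∑ x ∈ A2, Fre b 0 ((z2 x).im - (z1 x).im) := by
      rw [sum_comm]
      apply sum_congr rfl
      intro y hy
      rw [sum_ite_eq', if_pos (hsub hy), tm y hy]
      congr 1 <;> ring
    have b4 : ∑ x ∈ A2, ∑ y ∈ A1, (if x = y then Fre b (2 * θ - θ - min θ (l y - ε))
        (-(z2 x).im - -(z1 y).im) else 0) = ∑ x ∈ A2, Fre b 0 ((z2 x).im - (z1 x).im) := by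
      apply sum_congr rfl
      intro y hy
      rw [sum_ite_eq, if_pos (hsub hy), tm y hy, ← Fre_neg]
      congr 1 <;> ring
    rw [b3, b4, hN]
    linarith
  -- detection
  have d1 : ∀ x ∈ A1, num_K M (num_tri a 0) (min θ (l x - ε)) (-(z1 x).im) x ≤
      -(Ftri a (max 0 (l x - θ)) - 2 * ε * a ^ 2)
      - (if x ∈ A2 then Fre a ((z2 x).re - θ) ((z2 x).im - (z1 x).im) else 0) + M.d x / 8 + ε := by
    intro x hx
    obtain ⟨c1, c2, c3, c4, c5⟩ := h1 x hx
    have f1 : Ftri a (max 0 (l x - θ)) - 2 * ε * a ^ 2 ≤ Ftri a (0 + (z1 x).re - min θ (l x - ε)) := by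
      refine (Ftri_lip ha0 (le_max_left _ _) (by positivity)).trans (Ftri_anti ha0 ?_)
      rcases min_cases θ (l x - ε) with hh | hh
      · rw [hh.1]; linarith [le_max_right 0 (l x - θ)]
      · rw [hh.1]; linarith [le_max_left 0 (l x - θ)]
    have k := fun D => num_kt h hA (b := a) (c := 0) (lm := min θ (l x - ε)) (mu := -(z1 x).im) x D ha
      (by linarith) le_rfl (by norm_num) (le_min (by linarith) (by linarith))
      (by linarith [min_le_left θ (l x - ε)]) (by rw [abs_neg]; linarith [h.H1_nonneg])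
    have k2 : ∀ D : Multiset ℂ, ∀ z ∈ M.Z x - D, min θ (l x - ε) + ε ≤ z.re := fun D z hz => by
      have := c1 z (Multiset.mem_of_le (Multiset.sub_le_self _ _) hz)
      linarith [min_le_right θ (l x - ε)]
    by_cases hx2 : x ∈ A2
    · have := k (z1 x ::ₘ {z2 x}) (num_pair_le c2 (h2 x hx2).2.2.1) (by simp) (k2 _)
      rw [if_neg (num_ne_one h c2), Multiset.map_cons, Multiset.sum_cons, Multiset.map_singleton,
        Multiset.sum_singleton, add_neg_cancel, Fre_zero] at this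
      rw [if_pos hx2]
      have e : Fre a (0 + (z2 x).re - min θ (l x - ε)) ((z2 x).im + -(z1 x).im)
          = Fre a ((z2 x).re - θ) ((z2 x).im - (z1 x).im) := by
        rw [tm x hx2]; congr 1; ring
      linarith
    · have := k {z1 x} (Multiset.singleton_le.2 c2) (by simp) (k2 _)
      rw [if_neg (num_ne_one h c2), Multiset.map_singleton,
        Multiset.sum_singleton, add_neg_cancel, Fre_zero] at this
      rw [if_neg hx2]
      linarith
  have d2 : ∀ x ∈ A2, num_K M (num_tri a 0) θ (-(z2 x).im) x ≤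
      -(Ftri a (max 0 (l' x - θ)) - 2 * ε * a ^ 2)
      - Fre a ((z1 x).re - θ) ((z2 x).im - (z1 x).im) + M.d x / 8 + ε := by
    intro x hx
    obtain ⟨c1, c2, c3, c4, c5⟩ := h1 x (hsub hx)
    obtain ⟨-, e1, e2, e3, e4, -⟩ := h2 x hx
    have f1 : Ftri a (max 0 (l' x - θ)) - 2 * ε * a ^ 2 ≤ Ftri a (0 + (z2 x).re - θ) := by
      refine (Ftri_lip ha0 (le_max_left _ _) (by positivity)).trans (Ftri_anti ha0 ?_)
      linarith [le_max_right 0 (l' x - θ)]
    have := num_kt h hA (b := a) (c := 0) (lm := θ) (mu := -(z2 x).im) x (z1 x ::ₘ {z2 x}) ha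
      (by linarith) le_rfl (by norm_num) (by linarith) (by linarith)
      (by rw [abs_neg]; linarith [h.H1_nonneg]) (num_pair_le c2 e2) (by simp) (fun z hz => by
        have := c1 z (Multiset.mem_of_le (Multiset.sub_le_self _ _) hz)
        linarith)
    rw [if_neg (num_ne_one h c2), Multiset.map_cons, Multiset.sum_cons, Multiset.map_singleton,
        Multiset.sum_singleton, add_neg_cancel, Fre_zero] at this
    have e : Fre a (0 + (z1 x).re - θ) ((z1 x).im + -(z2 x).im)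
        = Fre a ((z1 x).re - θ) ((z2 x).im - (z1 x).im) := by
      rw [← Fre_neg]; congr 1 <;> ring
    linarith
  have d3 : ∀ x ∈ A2, I / (2 * s) * Fre b 0 ((z2 x).im - (z1 x).im) ≤
      Fre a ((z1 x).re - θ) ((z2 x).im - (z1 x).im) + Fre a ((z2 x).re - θ) ((z2 x).im - (z1 x).im) := by
    intro x hx
    obtain ⟨c1, c2, -⟩ := h1 x (hsub hx)
    obtain ⟨e0, e1, e2, -, -, e5⟩ := h2 x hx
    have := Fre_pair (a := a) (c1 := (z1 x).re - θ) (c2 := (z2 x).re - θ) (l := 0) (α := 1) (β := 1)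
      (κ := I / (2 * s)) ha0 (by linarith [c1 _ c2]) (by linarith [c1 _ (Multiset.mem_of_mem_erase e2)])
      le_rfl (by simp) zero_le_one zero_le_one (by positivity) (by simpa using e5)
      ((z2 x).im - (z1 x).im)
    rw [← e0]
    simpa using this
  have s1 := sum_le_sum d1
  have s2 := sum_le_sum d2
  have s3 := sum_le_sum d3
  have eK : ∑ j ∈ J, num_K M (num_tri a 0) (th j) (mu j) (g j) =
      ∑ x ∈ A1, num_K M (num_tri a 0) (min θ (l x - ε)) (-(z1 x).im) x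
      + ∑ x ∈ A2, num_K M (num_tri a 0) θ (-(z2 x).im) x := by
    simp only [hJ, sum_disjSum, hg, hmu, hth, Sum.elim_inl, Sum.elim_inr, id]
  have eD : ∑ j ∈ J, M.d (g j) = ∑ x ∈ A1, M.d x + ∑ x ∈ A2, M.d x := by
    simp only [hJ, sum_disjSum, hg, Sum.elim_inl, Sum.elim_inr, id]
  have eI : ∑ x ∈ A1, (if x ∈ A2 then Fre a ((z2 x).re - θ) ((z2 x).im - (z1 x).im) else 0)
      = ∑ x ∈ A2, Fre a ((z2 x).re - θ) ((z2 x).im - (z1 x).im) := by
    rw [← sum_filter, filter_mem_eq_inter, inter_eq_right.2 hsub]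
  simp only [sum_add_distrib, sum_sub_distrib, sum_neg_distrib, sum_const, nsmul_eq_mul, ← sum_div,
    ← mul_sum, eI] at s1 s2 s3 ⊢
  rw [eK] at cs
  rw [eD] at gr
  set Pq := ∑ x ∈ A2, Fre b 0 ((z2 x).im - (z1 x).im) with hPq
  have hP0 : 0 ≤ Pq := sum_nonneg fun x _ => Fre_nonneg hb0 le_rfl _
  have hP : I / (2 * s * N) * (2 * Pq) ≤ I / (2 * s) * Pq := by
    rcases A2.eq_empty_or_nonempty with h0 | h0
    · simp [hPq, h0]
    · have : (1:ℝ) ≤ A2.card := by exact_mod_cast h0.card_pos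
      have h2N : 2 ≤ N := by linarith
      have e : I / (2 * s * N) * (2 * Pq) = I / (2 * s) * Pq * (2 / N) := by field_simp
      rw [e]
      exact mul_le_of_le_one_right (by positivity) ((div_le_one hN0).2 h2N)
  set Ds := ∑ x ∈ A1, M.d x + ∑ x ∈ A2, M.d x
  have e1 : 1 / (2 * (s * N / I)) = I / (2 * s * N) := by field_simp
  rw [e1] at cs
  have m1 := mul_le_mul_of_nonneg_left hI (by positivity : 0 ≤ s * N / I / 2)
  have m2 := mul_le_mul_of_nonneg_left (gr.trans (add_le_add (add_le_add q1 le_rfl) le_rfl))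
    (by positivity : 0 ≤ I / (2 * s * N))
  have e2 : s * N / I / 2 * (I + ε) = N * (s / 2 + ε * (s / (2 * I))) := by field_simp
  have e3 : I / (2 * s * N) * (N * (b / 2) + 2 * Pq + (2 * N ^ 2 * ((1 + s / I) / 2) ^ 2
      + 2 * N * (1 - 2 * ((1 + s / I) / 2)) * Ds) / 8 + N ^ 2 * ε) = b * I / (4 * s)
      + I / (2 * s * N) * (2 * Pq) + N * ((I + s) ^ 2 / (32 * s * I) + ε * (I / (2 * s))) - Ds / 8 := by
    field_simp; ring
  rw [e2] at m1
  rw [e3] at m2
  have f1 : N * (s / 2 + ε * (s / (2 * I))) = (A1.card + A2.card) * (s / 2 + ε * (s / (2 * I))) := by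
    rw [hN]
  have f2 : N * ((I + s) ^ 2 / (32 * s * I) + ε * (I / (2 * s)))
      = (A1.card + A2.card) * ((I + s) ^ 2 / (32 * s * I) + ε * (I / (2 * s))) := by rw [hN]
  have : Ds / 8 = (∑ x ∈ A1, M.d x) / 8 + (∑ x ∈ A2, M.d x) / 8 := by ring
  linarith

end Pool.Agent.Lib.PS
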