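import Pool.Agent.Lib.PS.NUM3

set_option autoImplicit false

namespace Pool.Agent.Lib.PS

open Finset MeasureTheory Complex Pool.Agent.Lib.MP_d48457_nt.N21
open scoped Classical ComplexConjugate

variable {Γ Ω ι : Type} [CommGroup Γ] [Fintype Γ] [Fintype Ω] {M : MD Γ Ω ι} {α K A : ℝ}
  {DS : List DD} {lam0 Λm : ℝ} {N0 : ℕ} {ε : ℝ}

theorem num_min (s : Multiset ℂ) (hs : s ≠ 0) : ∃ y ∈ s, ∀ z ∈ s, y.re ≤ z.re := by
  obtain ⟨y, hy, h⟩ := s.toFinset.exists_min_image Complex.re (Multiset.toFinset_nonempty.2 hs)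
  exact ⟨y, Multiset.mem_toFinset.1 hy, fun z hz => h z (Multiset.mem_toFinset.2 hz)⟩

theorem num_box1 (h : M.Ok α K A DS lam0 Λm N0 ε) {g : Γ} {z : ℂ} (hz : z ∈ M.Z g) (hl : z.re ≤ Λm) :
    ∃ y ∈ M.Z g, y.re ≤ z.re + ε ∧ |y.im| ≤ M.H1 := by
  have h1 := h.box g 1 z.re (by norm_num) hl
    (Multiset.card_pos_iff_exists_mem.2 ⟨z, Multiset.mem_filter.2 ⟨hz, le_rfl⟩⟩)
  obtain ⟨y, hy⟩ := Multiset.card_pos_iff_exists_mem.1 h1
  exact ⟨y, (Multiset.mem_filter.1 hy).1, (Multiset.mem_filter.1 hy).2⟩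

theorem num_box2 (h : M.Ok α K A DS lam0 Λm N0 ε) {g : Γ} {z z' : ℂ} {x : ℝ} (hz : z ∈ M.Z g)
    (hz' : z' ∈ (M.Z g).erase z) (h1 : z.re ≤ x) (h2 : z'.re ≤ x) (hl : x ≤ Λm) (u : ℂ) :
    ∃ y ∈ (M.Z g).erase u, y.re ≤ x + ε ∧ |y.im| ≤ M.H1 := by
  have a1 : z ::ₘ {z'} ≤ (M.Z g).filter fun y => y.re ≤ x :=
    Multiset.le_filter.2 ⟨num_pair_le hz hz', fun y hy => by
      rcases Multiset.mem_cons.1 hy with rfl | hy
      · exact h1
      · rw [Multiset.mem_singleton.1 hy]; exact h2⟩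
  have a2 := h.box g 2 x (by norm_num) hl (by simpa using Multiset.card_le_card a1)
  set B := (M.Z g).filter fun y => y.re ≤ x + ε ∧ |y.im| ≤ M.H1
  have a3 : 0 < (B.erase u).card := by
    by_cases hu : u ∈ B
    · rw [Multiset.card_erase_of_mem hu, Nat.pred_eq_sub_one]; omega
    · rw [Multiset.erase_of_notMem hu]; omega
  obtain ⟨y, hy⟩ := Multiset.card_pos_iff_exists_mem.1 a3
  exact ⟨y, Multiset.mem_of_le (Multiset.erase_le_erase u (Multiset.filter_le _ _)) hy,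
    (Multiset.mem_filter.1 (Multiset.mem_of_mem_erase hy)).2⟩

/-- first and second zeros -/
theorem num_data (h : M.Ok α K A DS lam0 Λm N0 ε) : ∃ (z0 z1 z2 : Γ → ℂ) (l' : Γ → ℝ), ∀ g, M.Z g ≠ 0 →
    z0 g ∈ M.Z g ∧ (∀ z ∈ M.Z g, (z0 g).re ≤ z.re) ∧ z1 g ∈ M.Z g ∧ (z1 g).re ≤ (z0 g).re + ε ∧
    |(z1 g).im| ≤ M.H1 ∧ (z0 g).re ≤ l' g ∧ (∀ z ∈ (M.Z g).erase (z0 g), l' g ≤ z.re) ∧
    (l' g ≤ Λm → z2 g ∈ (M.Z g).erase (z1 g) ∧ (z2 g).re ≤ l' g + ε ∧ |(z2 g).im| ≤ M.H1) := by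
  have key : ∀ g, ∃ (a b c : ℂ) (x : ℝ), M.Z g ≠ 0 →
      a ∈ M.Z g ∧ (∀ z ∈ M.Z g, a.re ≤ z.re) ∧ b ∈ M.Z g ∧ b.re ≤ a.re + ε ∧
      |b.im| ≤ M.H1 ∧ a.re ≤ x ∧ (∀ z ∈ (M.Z g).erase a, x ≤ z.re) ∧
      (x ≤ Λm → c ∈ (M.Z g).erase b ∧ c.re ≤ x + ε ∧ |c.im| ≤ M.H1) := by
    intro g
    by_cases hg : M.Z g = 0
    · exact ⟨0, 0, 0, 0, fun hh => absurd hg hh⟩
    obtain ⟨a, ha, ha'⟩ := num_min _ hg
    obtain ⟨y, hy, hy'⟩ := h.Z_low g hg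
    have hl : a.re ≤ Λm := (ha' y hy).trans hy'
    obtain ⟨b, hb, hb1, hb2⟩ := num_box1 h ha hl
    by_cases he : (M.Z g).erase a = 0
    · refine ⟨a, b, 0, Λm + 1, fun _ => ⟨ha, ha', hb, hb1, hb2, by linarith, ?_, fun hh => ?_⟩⟩
      · rw [he]; simp
      · linarith
    obtain ⟨a', ha1, ha2⟩ := num_min _ he
    have hl' := ha' a' (Multiset.mem_of_mem_erase ha1)
    by_cases hx : a'.re ≤ Λm
    · obtain ⟨c, hc⟩ := num_box2 h ha ha1 hl' le_rfl hx b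
      exact ⟨a, b, c, a'.re, fun _ => ⟨ha, ha', hb, hb1, hb2, hl', ha2, fun _ => hc⟩⟩
    · exact ⟨a, b, 0, a'.re, fun _ => ⟨ha, ha', hb, hb1, hb2, hl', ha2, fun hh => absurd hh hx⟩⟩
  choose z0 z1 z2 l' hk using key
  exact ⟨z0, z1, z2, l', hk⟩

theorem num_clus (h : M.Ok α K A DS lam0 Λm N0 ε) (hA : 10 ≤ A) (hΛ : 5 ≤ Λm) (hε : ε ≤ 1 / 10 ^ 6)
    {g : Γ} (hg : M.Z g ≠ 0) {Y : Multiset ℂ} (hY : Y ≤ M.Z g) (hc : Y.card ≤ M.N) (i : ℕ) (hi : i ≤ 300)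
    (hε0 : 0 ≤ ε) (hz : ∀ z ∈ M.Z g, (i:ℝ) / 100 + ε ≤ z.re) :
    (Y.map fun z => ‖G0 (4 / 25) z‖ ^ 2).sum ≤ (4 / 25) ^ 2 * (Ccl i : ℝ) := by
  have hi' : (i:ℝ) ≤ 300 := by exact_mod_cast hi
  have hi0 : (0:ℝ) ≤ i / 100 := by positivity
  have hg1 : g ≠ 1 := by rintro rfl; exact hg h.Z_one
  set l : ℝ := i / 100 with hl
  have hTF := num_fc_TF (l := l) (A := A) hi0 (by linarith) hA
  have k1 := h.kax (num_fc l) l 0 g Y hTF (num_fc_PD l) (by linarith) (by linarith)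
    (by simpa using h.H1_nonneg) hY (by omega)
    (fun z hz' => hz z (Multiset.mem_of_le (Multiset.sub_le_self _ _) hz'))
  have k2 := h.kax (num_fc l) l 0 1 0 hTF (num_fc_PD l) (by linarith) (by linarith)
    (by simpa using h.H1_nonneg) (Multiset.zero_le _) (by simp) (by rw [h.Z_one]; simp)
  rw [num_K_eq] at k1 k2
  rw [if_neg hg1] at k1
  rw [if_pos rfl, num_d_one h] at k2
  have k3 : -num_K M (num_fc l) l 0 g ≤ num_K M (num_fc l) l 0 1 := by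
    unfold num_K
    rw [← sum_neg_distrib]
    apply sum_le_sum
    intro ω _
    rw [num_u_one h]
    have a1 : -(num_u M 0 g ω).re ≤ 1 :=
      (neg_le_abs _).trans ((abs_re_le_norm _).trans (num_u_norm h 0 g ω).le)
    have a2 : 0 ≤ M.w ω * num_fc l (M.t ω) * Real.exp (l * M.t ω) :=
      mul_nonneg (mul_nonneg (h.w_nonneg ω) (hTF.1 _)) (Real.exp_pos _).le
    have := mul_le_mul_of_nonneg_left a1 a2
    simpa using this
  have lap := fun z => num_cut_lap (a := 4 / 25) (φ := fcl (4 / 25) l) (by norm_num) (fcl_end _ _)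
    (fcl_cont _ l) z
  have f0 : num_fc l 0 = fcl (4 / 25) l 0 := num_cut_mem _ le_rfl (by norm_num)
  have k4 : (Lap (num_fc l) (-((l:ℂ) - (0:ℝ) * I))).re
      = ∫ t in (0:ℝ)..(4 / 25), fcl (4 / 25) l t * Real.exp (l * t) := by
    unfold num_fc; rw [lap]; simp
  have k5 : (Y.map fun z => ‖G0 (4 / 25) z‖ ^ 2).sum ≤
      (Y.map fun z => (Lap (num_fc l) (z - ((l:ℂ) - (0:ℝ) * I))).re).sum := by
    apply Multiset.sum_map_le_sum_map
    intro z hz'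
    have := G0_sq_le (K := 4 / 25) (l := l) (by norm_num) z
      (by linarith [hz z (Multiset.mem_of_le hY hz')])
    unfold num_fc; rw [lap]
    simpa using this
  have k6 := cluster_le i
  have k7 : M.d g * fcl (4 / 25) l 0 ≤ fcl (4 / 25) l 0 :=
    mul_le_of_le_one_left (fcl_nonneg l (by norm_num)) (num_d_le h g)
  rw [k4] at k2
  rw [f0] at k1
  simp only [Multiset.map_zero, Multiset.sum_zero] at k2
  linarith

theorem num_HH {α : ℝ} (hα : 3 ≤ α) (z : ℂ) (hz : 0 ≤ z.re) :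
    ‖HH α (4 / 25) z‖ ≤ 625 / 16 * (Real.exp (-(3 * z.re)) * ‖G0 (4 / 25) z‖ ^ 2) := by
  have e : ∀ x : ℝ, 625 / 16 * x = x / (4 / 25) ^ 2 := fun x => by ring
  rw [e]
  unfold HH
  rw [norm_div, norm_mul, norm_pow, norm_pow, Complex.norm_exp, Complex.norm_real,
    Real.norm_of_nonneg (by norm_num)]
  apply div_le_div_of_nonneg_right _ (by norm_num)
  apply mul_le_mul_of_nonneg_right _ (sq_nonneg _)
  apply Real.exp_le_exp.2
  simp
  nlinarith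

theorem num_cost1 {α E C : ℝ} (hα : 3 ≤ α) (Y : Multiset ℂ) (h0 : ∀ z ∈ Y, 0 ≤ z.re) (hE0 : 0 ≤ E)
    (hE : ∀ z ∈ Y, Real.exp (-(3 * z.re)) ≤ E)
    (hC : (Y.map fun z => ‖G0 (4 / 25) z‖ ^ 2).sum ≤ (4 / 25) ^ 2 * C) :
    (Y.map fun z => ‖HH α (4 / 25) z‖).sum ≤ E * C := by
  have h1 : (Y.map fun z => ‖HH α (4 / 25) z‖).sum ≤
      (Y.map fun z => 625 / 16 * E * ‖G0 (4 / 25) z‖ ^ 2).sum := by
    apply Multiset.sum_map_le_sum_map
    intro z hz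
    refine (num_HH hα z (h0 z hz)).trans ?_
    have := mul_le_mul_of_nonneg_right (hE z hz) (sq_nonneg ‖G0 (4 / 25) z‖)
    linarith
  rw [Multiset.sum_map_mul_left] at h1
  have := mul_le_mul_of_nonneg_left hC (by positivity : 0 ≤ 625 / 16 * E)
  linarith

theorem num_cost2 {α E1 E2 C gp : ℝ} (hα : 3 ≤ α) (Y : Multiset ℂ) (z0 : ℂ) (h0 : ∀ z ∈ Y, 0 ≤ z.re)
    (hE0 : 0 ≤ E2) (hE : E2 ≤ E1) (hgp : 0 ≤ gp) (hE1 : Real.exp (-(3 * z0.re)) ≤ E1)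
    (hE2 : ∀ z ∈ Y.erase z0, Real.exp (-(3 * z.re)) ≤ E2)
    (hg : ‖G0 (4 / 25) z0‖ ^ 2 ≤ (4 / 25) ^ 2 * gp)
    (hC : (Y.map fun z => ‖G0 (4 / 25) z‖ ^ 2).sum ≤ (4 / 25) ^ 2 * C) :
    (Y.map fun z => ‖HH α (4 / 25) z‖).sum ≤ E1 * gp + E2 * (C - gp) := by
  have hm := mul_nonneg (sub_nonneg.2 hE) hgp
  by_cases hz : z0 ∈ Y
  · rw [← Multiset.cons_erase hz, Multiset.map_cons, Multiset.sum_cons] at hC ⊢
    have a1 := num_cost1 (C := C - 625 / 16 * ‖G0 (4 / 25) z0‖ ^ 2) hα (Y.erase z0)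
      (fun z hz => h0 z (Multiset.mem_of_mem_erase hz)) hE0 hE2 (by linarith)
    have a2 := num_HH hα z0 (h0 z0 hz)
    have a3 := mul_le_mul_of_nonneg_right hE1 (sq_nonneg ‖G0 (4 / 25) z0‖)
    have a4 := mul_le_mul_of_nonneg_left hg (sub_nonneg.2 hE)
    linarith
  · rw [Multiset.erase_of_notMem hz] at hE2
    have := num_cost1 hα Y h0 hE0 hE2 hC
    linarith

noncomputable def num_D : DD :=
  ⟨0.3421, 0.4641, 0.046, 0.7602, fun _ => 1 / 0.122, fun t => Real.exp (-(2.4 * t))⟩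

theorem num_D_valid : num_D.Valid := by
  refine ⟨by norm_num [num_D], by norm_num [num_D], by norm_num [num_D], by norm_num [num_D],
    continuousOn_const, by norm_num [num_D], ⟨3, fun s hs t ht => ?_⟩, fun t _ => Real.exp_pos _⟩
  have h1 := (convex_Icc (0.3421:ℝ) 0.7602).norm_image_sub_le_of_norm_hasDerivWithin_le
    (f := fun t => Real.exp (-(2.4 * t))) (f' := fun t => Real.exp (-(2.4 * t)) * -2.4) (C := 3)
    (fun x _ => (hd_lin 2.4 x).exp.hasDerivWithinAt) (fun x hx => by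
      have : Real.exp (-(2.4 * x)) ≤ 1 := Real.exp_le_one_iff.2 (by linarith [hx.1])
      rw [Real.norm_eq_abs, abs_mul, abs_of_pos (Real.exp_pos _), abs_of_neg (by norm_num)]
      linarith) ht hs
  exact h1

theorem num_D_Dn (l : ℝ) : num_D.Dn num_D.x l = Dm l := by
  unfold DD.Dn Dm num_D
  congr 1; ext t
  rw [← Real.exp_add]; congr 1; ring

theorem num_D_V : num_D.V / num_D.w = Vm := by
  unfold DD.V Vm num_D
  simp only [intervalIntegral.integral_const, smul_eq_mul]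
  have : ∀ t : ℝ, (min t 0.4641 - 0.3421) * (1 / 0.122) ^ 2 / Real.exp (-(2.4 * t))
      = Real.exp (2.4 * t) * min (t - 0.3421) 0.122 / 0.122 ^ 2 := by
    intro t
    have e : min t 0.4641 - 0.3421 = min (t - 0.3421) (0.122:ℝ) := by
      rw [← min_sub_sub_right]; norm_num
    rw [e, Real.exp_neg]; field_simp
  simp only [this, intervalIntegral.integral_div]
  ring

theorem num_dens (h : M.Ok α K A [num_D] lam0 Λm N0 ε) (hε : ε ≤ 1 / 10 ^ 6) (C : Finset Γ) (z : Γ → ℂ)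
    (hz : ∀ g ∈ C, z g ∈ M.Z g) : ∑ g ∈ C, 1 / Dm (z g).re ≤ 264.3 := by
  have h1 := h.dens num_D (by simp) C z (fun _ => num_D.x) (fun g hg => ⟨hz g hg, by
    have := num_d_le h g
    simp only [num_D]; linarith, le_rfl⟩)
  simp only [num_D_Dn] at h1
  rw [mul_div_assoc, num_D_V] at h1
  have h2 := Vm_le
  have h3 : 0 ≤ Vm := by
    unfold Vm
    apply div_nonneg _ (by norm_num)
    apply intervalIntegral.integral_nonneg (by norm_num)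
    intro t ht
    exact mul_nonneg (Real.exp_pos _).le (le_min (by linarith [ht.1]) (by norm_num))
  nlinarith

end Pool.Agent.Lib.PS
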