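import Pool.Agent.Lib.PS.NUM4

set_option autoImplicit false

namespace Pool.Agent.Lib.PS

open Finset MeasureTheory Complex Pool.Agent.Lib.MP_d48457_nt.N21
open scoped Classical ComplexConjugate

variable {Γ Ω ι : Type} [CommGroup Γ] [Fintype Γ] [Fintype Ω] {M : MD Γ Ω ι} {α K A : ℝ}
  {DS : List DD} {lam0 Λm : ℝ} {N0 : ℕ} {ε : ℝ}

theorem num_tri_nonneg {c : ℝ} (hc : 0 < c) (T : ℝ) : 0 ≤ num_tri c 0 T := by
  unfold num_tri num_cut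
  have : max 0 (min T c) / c ≤ 1 := (div_le_one hc).2 (max_le hc.le (min_le_right _ _))
  have : 0 ≤ 1 - max 0 (min T c) / c := by linarith
  positivity

theorem num_rowS (h : M.Ok α K A DS lam0 Λm N0 ε) (hA : 10 ≤ A) (hε : 0 ≤ ε) (hε0 : ε ≤ lam0)
    (hΛ : 5 ≤ Λm) (hε1 : ε ≤ 1) {θ a b s I P R : ℝ} (ha : 1 / 2 ≤ a) (hab : a ≤ b) (hb : b ≤ 10)
    (hθ0 : 0 ≤ θ) (hθ : θ ≤ 4) (hs : 0 < s) (hI0 : 0 < I)
    (hw : ∃ w0 : ℝ → ℝ, (∀ t, 0 ≤ t → 0 ≤ w0 t) ∧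
      (∀ t, 0 ≤ t → num_tri a 0 t ^ 2 ≤ w0 t * num_tri b 0 t) ∧
      ∑ ω, M.w ω * (w0 (M.t ω) * Real.exp (2 * θ * M.t ω)) ≤ I + ε)
    (hP : s / 2 + (I + s) ^ 2 / (32 * s * I)
        + ε * (1 + s / (2 * I) + I / (2 * s) + 2 * a ^ 2) + 1 / 1000 ≤ P)
    (hR : b * I / (4 * s) ≤ R) (hR' : R < 10)
    (C C2 : Finset Γ) (hsub : C2 ⊆ C) (l l' : Γ → ℝ) (z1 z2 : Γ → ℂ)
    (h1 : ∀ g ∈ C, (∀ z ∈ M.Z g, l g ≤ z.re) ∧ z1 g ∈ M.Z g ∧ (z1 g).re ≤ l g + ε ∧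
      |(z1 g).im| ≤ M.H1 ∧ ε ≤ l g)
    (h2 : ∀ g ∈ C2, l g ≤ l' g ∧ a = b ∧ θ + ε ≤ l g ∧ z2 g ∈ (M.Z g).erase (z1 g) ∧
      (z2 g).re ≤ l' g + ε ∧ |(z2 g).im| ≤ M.H1 ∧
      I / (2 * s) ≤ Real.exp (-(((z1 g).re - θ) * a)) + Real.exp (-(((z2 g).re - θ) * a))) :
    ∑ g ∈ C, sig θ a P (l g) + ∑ g ∈ C2, sig θ a P (l' g) ≤ R := by
  obtain ⟨w0, w1, w2, w3⟩ := hw
  refine row_remove C C2 hsub (fun g => Ftri a (max 0 (l g - θ))) (fun g => Ftri a (max 0 (l' g - θ)))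
    (fun g hg => Ftri_anti (by linarith) (max_le_max le_rfl (by linarith [(h2 g hg).1]))) _ P R 10000
    hP (by norm_num; exact hR') (fun A1 A2 a1 a2 a3 _ => ?_)
  exact (num_row h hA hε hε0 hΛ hε1 ha hab hb hθ0 hθ hs hI0 w0 w1 w2 w3 A1 A2 a2 l l' z1 z2
    (fun g hg => h1 g (a1 hg)) (fun g hg => (h2 g (a3 hg)).2)).trans hR

theorem num_w_eq (h : M.Ok α K A DS lam0 Λm N0 ε) (hA : 10 ≤ A) (hΛ : 5 ≤ Λm) (hε1 : ε ≤ 1)
    {θ a I : ℝ} (ha : 1 / 2 ≤ a) (ha' : a ≤ 10) (hθ0 : 0 ≤ θ) (hθ : θ ≤ 1) (hI : Ftri a (-(2 * θ)) ≤ I) :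
    ∃ w0 : ℝ → ℝ, (∀ t, 0 ≤ t → 0 ≤ w0 t) ∧
      (∀ t, 0 ≤ t → num_tri a 0 t ^ 2 ≤ w0 t * num_tri a 0 t) ∧
      ∑ ω, M.w ω * (w0 (M.t ω) * Real.exp (2 * θ * M.t ω)) ≤ I + ε := by
  refine ⟨num_tri a 0, fun t _ => num_tri_nonneg (by linarith) t, fun t _ => (pow_two _).le, ?_⟩
  have := num_kt h hA (b := a) (c := 0) (lm := 2 * θ) (mu := 0) 1 0 ha ha' le_rfl (by norm_num)
    (by linarith) (by linarith) (by simpa using h.H1_nonneg) (Multiset.zero_le _) (by simp)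
    (by rw [h.Z_one]; simp)
  rw [if_pos rfl, num_d_one h, Fre_zero, zero_sub] at this
  unfold num_K at this
  simp only [num_u_one h, one_re, mul_one, Multiset.map_zero, Multiset.sum_zero, mul_assoc] at this ⊢
  linarith

theorem num_w_lt (h : M.Ok α K A DS lam0 Λm N0 ε) (hA : 100000 ≤ A)
    {θ a b I : ℝ} (ha : 1 / 2 ≤ a) (ha' : a ≤ 1) (hb : 19 / 10 * a ≤ b) (hθ0 : 0 ≤ θ) (hθ : θ ≤ 3)
    (hI : (∫ t in (0:ℝ)..a, Real.exp (2 * θ * t) * Wp a b t) ≤ I) :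
    ∃ w0 : ℝ → ℝ, (∀ t, 0 ≤ t → 0 ≤ w0 t) ∧
      (∀ t, 0 ≤ t → num_tri a 0 t ^ 2 ≤ w0 t * num_tri b 0 t) ∧
      ∑ ω, M.w ω * (w0 (M.t ω) * Real.exp (2 * θ * M.t ω)) ≤ I + ε := by
  have ha0 : 0 < a := by linarith
  have hab : a < b := by linarith
  have hWa : Wp a b a = 0 := by simp [Wp, div_self ha0.ne']
  have hn : ∀ t, 0 ≤ num_cut a (Wp a b) t := by
    intro t
    unfold num_cut Wp
    have : 0 < 1 - a / b := by have := (div_lt_one (ha0.trans hab)).2 hab; linarith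
    have : 0 ≤ max 0 (min t a) / b := div_nonneg (le_max_left _ _) (ha0.trans hab).le
    positivity
  refine ⟨num_cut a (Wp a b), fun t _ => hn t, fun t ht => ?_, ?_⟩
  · rcases le_total t a with hh | hh
    · unfold num_tri
      rw [num_cut_mem _ ht hh, num_cut_mem _ ht hh, num_cut_mem _ ht (hh.trans hab.le)]
      simpa using Wp_ge ha0 hab ht hh
    · have : num_tri a 0 t = 0 := by
        unfold num_tri; rw [num_cut_ge _ ha0.le hh]; simp [div_self ha0.ne']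
      rw [this]
      simpa using mul_nonneg (hn t) (num_tri_nonneg (ha0.trans hab) t)
  · have := h.mert _ (num_W_TF (κ := 2 * θ) ha ha' hb (by linarith) (by linarith) hA)
    rw [num_cut_int ha0.le _ (fun t => Real.exp (2 * θ * t) * Wp a b t)
      (fun t ht => by rw [num_cut_ge _ ha0.le ht.le, hWa, mul_zero])
      (fun t h1 h2 => by rw [num_cut_mem _ h1.le h2])] at this
    refine le_trans (le_of_eq (sum_congr rfl fun ω _ => ?_)) (this.trans (by linarith))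
    congr 1
    rcases le_total (M.t ω) a with hh | hh
    · rw [num_cut_mem _ (h.t_mem ω).1 hh, num_cut_mem _ (h.t_mem ω).1 hh, mul_comm]
    · rw [num_cut_ge _ ha0.le hh, num_cut_ge _ ha0.le hh, hWa]; simp

/-- the four rows -/
theorem num_rows (h : M.Ok α K A DS lam0 Λm N0 ε) (hA : 100000 ≤ A) (hε : 0 ≤ ε) (hε0 : ε ≤ lam0)
    (hΛ : 5 ≤ Λm) (hε1 : ε ≤ 1 / 10 ^ 6) (C C1 C2 : Finset Γ) (s1 : C1 ⊆ C) (s2 : C2 ⊆ C)
    (l l' : Γ → ℝ) (z1 z2 : Γ → ℂ)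
    (h1 : ∀ g ∈ C, (∀ z ∈ M.Z g, l g ≤ z.re) ∧ z1 g ∈ M.Z g ∧ (z1 g).re ≤ l g + ε ∧
      |(z1 g).im| ≤ M.H1 ∧ ε ≤ l g ∧ l g ≤ l' g ∧
      (l' g ≤ Λm → z2 g ∈ (M.Z g).erase (z1 g) ∧ (z2 g).re ≤ l' g + ε ∧ |(z2 g).im| ≤ M.H1))
    (c1 : ∀ g ∈ C1, 0.47 ≤ l g ∧ l g < 0.87 ∧ l' g < 1.05) (c2 : ∀ g ∈ C2, 0.47 ≤ l g ∧ l' g < 0.69) :
    ∑ g ∈ C, sig 0.35 1.28 0.37808 (l g) + ∑ g ∈ C1, sig 0.35 1.28 0.37808 (l' g) ≤ 0.5888 ∧
    ∑ g ∈ C, sig 0.25 1.12 0.29247 (l g) + ∑ g ∈ C2, sig 0.25 1.12 0.29247 (l' g) ≤ 0.6812 ∧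
    ∑ g ∈ C, sig 1.2 0.82 0.26896 (l g) ≤ 1.1449 ∧ ∑ g ∈ C, sig 2.85 0.62 0.28242 (l g) ≤ 3.6773 := by
  have hA' : 10 ≤ A := by linarith
  have hε2 : ε ≤ 1 := by linarith
  have h1' : ∀ g ∈ C, (∀ z ∈ M.Z g, l g ≤ z.re) ∧ z1 g ∈ M.Z g ∧ (z1 g).re ≤ l g + ε ∧
      |(z1 g).im| ≤ M.H1 ∧ ε ≤ l g := fun g hg => by
    obtain ⟨a, b, c, d, e, -⟩ := h1 g hg
    exact ⟨a, b, c, d, e⟩
  refine ⟨?_, ?_, ?_, ?_⟩
  · refine num_rowS h hA' hε hε0 hΛ hε2 (b := 1.28) (s := 0.48) (I := 0.883) (by norm_num) le_rfl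
      (by norm_num) (by norm_num) (by norm_num) (by norm_num) (by norm_num)
      (num_w_eq h hA' hΛ hε2 (by norm_num) (by norm_num) (by norm_num) (by norm_num) I1_le)
      (by norm_num; linarith) (by norm_num) (by norm_num) C C1 s1 l l' z1 z2 h1' (fun g hg => ?_)
    obtain ⟨-, -, a3, -, -, a6, a7⟩ := h1 g (s1 hg)
    obtain ⟨b1, b2, b3⟩ := c1 g hg
    obtain ⟨d1, d2, d3⟩ := a7 (by linarith)
    exact ⟨a6, rfl, by linarith, d1, d2, d3, pair1 (by linarith) (by linarith)⟩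
  · refine num_rowS h hA' hε hε0 hΛ hε2 (b := 1.12) (s := 0.28) (I := 0.6811) (by norm_num) le_rfl
      (by norm_num) (by norm_num) (by norm_num) (by norm_num) (by norm_num)
      (num_w_eq h hA' hΛ hε2 (by norm_num) (by norm_num) (by norm_num) (by norm_num) I2_le)
      (by norm_num; linarith) (by norm_num) (by norm_num) C C2 s2 l l' z1 z2 h1' (fun g hg => ?_)
    obtain ⟨-, -, a3, -, -, a6, a7⟩ := h1 g (s2 hg)
    obtain ⟨b1, b3⟩ := c2 g hg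
    obtain ⟨d1, d2, d3⟩ := a7 (by linarith)
    exact ⟨a6, rfl, by linarith, d1, d2, d3, pair2 (by linarith) (by linarith)⟩
  · have := num_rowS h hA' hε hε0 hΛ hε2 (θ := 1.2) (a := 0.82) (b := 1.6) (s := 0.21) (I := 0.601)
      (P := 0.26896) (R := 1.1449) (by norm_num) (by norm_num)
      (by norm_num) (by norm_num) (by norm_num) (by norm_num) (by norm_num)
      (num_w_lt h hA (by norm_num) (by norm_num) (by norm_num) (by norm_num) (by norm_num) I3_le)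
      (by norm_num; linarith) (by norm_num) (by norm_num) C ∅ (empty_subset _) l l' z1 z2 h1' (by simp)
    simpa using this
  · have := num_rowS h hA' hε hε0 hΛ hε2 (θ := 2.85) (a := 0.62) (b := 4.4) (s := 0.21) (I := 0.702)
      (P := 0.28242) (R := 3.6773) (by norm_num) (by norm_num)
      (by norm_num) (by norm_num) (by norm_num) (by norm_num) (by norm_num)
      (num_w_lt h hA (by norm_num) (by norm_num) (by norm_num) (by norm_num) (by norm_num) I4_le)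
      (by norm_num; linarith) (by norm_num) (by norm_num) C ∅ (empty_subset _) l l' z1 z2 h1' (by simp)
    simpa using this

theorem num_poly_pos (h : M.Ok α K A DS lam0 Λm N0 ε) {f : ℝ → ℝ} (hf : ∀ t, 0 ≤ f t) (lm m c : ℝ) (g : Γ) :
    0 ≤ (2 + 2 * c ^ 2) * num_K M f lm 0 1 + (4 * c + 2 * c ^ 2) * num_K M f lm m g
      + 4 * c * num_K M f lm (m + m) (g * g) + 2 * num_K M f lm (m + m + m) (g * g * g) := by
  unfold num_K
  simp only [mul_sum, ← sum_add_distrib]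
  apply sum_nonneg
  intro ω _
  simp only [num_u_mul h, num_u_one h]
  have h1 := poly_nonneg c _ (num_u_norm h m g ω)
  have h2 : 0 ≤ M.w ω * f (M.t ω) * Real.exp (lm * M.t ω) :=
    mul_nonneg (mul_nonneg (h.w_nonneg ω) (hf _)) (Real.exp_pos _).le
  have h3 := mul_nonneg h2 h1
  rw [pow_succ _ 2, pow_two (num_u M m g ω)] at h3
  simp only [one_re]
  linarith

theorem num_dh_pos (h : M.Ok α K A DS lam0 Λm N0 ε) {f : ℝ → ℝ} (hf : ∀ t, 0 ≤ f t) (lm m : ℝ) {g1 : Γ}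
    (hg : g1 * g1 = 1) (g : Γ) :
    0 ≤ num_K M f lm 0 1 + num_K M f lm 0 g1 + num_K M f lm m g + num_K M f lm m (g1 * g) := by
  unfold num_K
  simp only [← sum_add_distrib]
  apply sum_nonneg
  intro ω _
  have e1 := num_u_mul h 0 m g1 g ω
  rw [zero_add] at e1
  have e2 := num_u_conj h 0 g1 ω
  rw [neg_zero, inv_eq_of_mul_eq_one_right hg] at e2
  have e3 : (num_u M 0 g1 ω).im = 0 := conj_eq_iff_im.1 e2.symm
  rw [e1, num_u_one h, mul_re, e3]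
  have a1 : -1 ≤ (num_u M 0 g1 ω).re :=
    (abs_le.1 ((abs_re_le_norm _).trans (num_u_norm h 0 g1 ω).le)).1
  have a2 : -1 ≤ (num_u M m g ω).re :=
    (abs_le.1 ((abs_re_le_norm _).trans (num_u_norm h m g ω).le)).1
  have h2 : 0 ≤ M.w ω * f (M.t ω) * Real.exp (lm * M.t ω) :=
    mul_nonneg (mul_nonneg (h.w_nonneg ω) (hf _)) (Real.exp_pos _).le
  have h3 := mul_nonneg h2 (mul_nonneg (neg_le_iff_add_nonneg.1 a1) (neg_le_iff_add_nonneg.1 a2))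
  simp only [one_re]
  linarith

end Pool.Agent.Lib.PS
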