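import Pool.Agent.Lib.PS.NUM5

set_option autoImplicit false

namespace Pool.Agent.Lib.PS

open Finset MeasureTheory Complex Pool.Agent.Lib.MP_d48457_nt.N21
open scoped Classical ComplexConjugate

variable {Γ Ω ι : Type} [CommGroup Γ] [Fintype Γ] [Fintype Ω] {M : MD Γ Ω ι} {α K A : ℝ}
  {DS : List DD} {lam0 Λm : ℝ} {N0 : ℕ} {ε : ℝ}

theorem num_conj_mem (h : M.Ok α K A DS lam0 Λm N0 ε) {g : Γ} {z : ℂ} (hz : z ∈ M.Z g) :
    conj z ∈ M.Z g⁻¹ := by
  rw [h.Z_inv]; exact Multiset.mem_map_of_mem _ hz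

/-- the zero free region in the absence of a low real zero of a real character -/
theorem num_zf (h : M.Ok α K A DS lam0 Λm N0 ε) (hA : 10 ≤ A) (hε : 0 ≤ ε) (hε0 : ε ≤ lam0)
    (hΛ : 5 ≤ Λm) (hε1 : ε ≤ 1 / 10 ^ 6)
    (hB : ∀ g, g * g = 1 → ∀ z ∈ M.Z g, z.im = 0 → 0.4701 < z.re) :
    ∀ g, ∀ z ∈ M.Z g, 0.47 ≤ z.re := by
  intro g0 z0 hz0
  by_contra hlt
  have hmem : ∀ g, ∀ z ∈ M.Z g, z ∈ ∑ g, M.Z g := fun g z hz =>
    Multiset.mem_sum.2 ⟨g, mem_univ _, hz⟩
  obtain ⟨y, hy, hmin⟩ := num_min (∑ g, M.Z g) (Multiset.card_pos.1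
    (Multiset.card_pos_iff_exists_mem.2 ⟨z0, hmem _ _ hz0⟩))
  obtain ⟨g, -, hg⟩ := Multiset.mem_sum.1 hy
  have hy1 : y.re < 0.47 := lt_of_le_of_lt (hmin _ (hmem _ _ hz0)) (not_le.1 hlt)
  have hy0 := h.Z_re g y hg
  obtain ⟨z1, hz1, b1, b2⟩ := num_box1 h hg (by linarith)
  have b0 := hmin _ (hmem _ _ hz1)
  set lm := y.re - ε with hlm
  have hH := h.H1_nonneg
  have kz : ∀ (g' : Γ) (mu : ℝ) (D : Multiset ℂ), |mu| ≤ 4 * M.H1 → D ≤ M.Z g' → D.card ≤ 3 →
      num_K M (num_tri 1.4 0) lm mu g' ≤ (if g' = 1 then Fre 1.4 (0 - lm) mu else 0)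
      - (D.map fun z => Fre 1.4 (0 + z.re - lm) (z.im + mu)).sum + M.d g' / 8 + ε :=
    fun g' mu D a1 a2 a3 => num_kt h hA g' D (by norm_num) (by norm_num) le_rfl (by norm_num)
      (by linarith) (by linarith) a1 a2 a3 (fun z hz => by
        have := hmin z (hmem _ _ (Multiset.mem_of_le (Multiset.sub_le_self _ _) hz))
        linarith)
  set m := -z1.im with hm
  have m1 : |m| ≤ M.H1 := by rw [hm, abs_neg]; exact b2
  have m2 : |m + m| ≤ 4 * M.H1 := (abs_add_le _ _).trans (by linarith)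
  have m3 : |m + m + m| ≤ 4 * M.H1 := (abs_add_le _ _).trans (by linarith [abs_add_le m m])
  have pos := num_poly_pos h (num_tri_nonneg (c := 1.4) (by norm_num)) lm m 1.78 g
  have k0 := kz 1 0 0 (by simpa using hH) (Multiset.zero_le _) (by simp)
  rw [if_pos rfl, num_d_one h, Fre_zero] at k0
  have f0 : Ftri 1.4 (0 - lm) ≤ 0.8826 := (Ftri_anti (by norm_num) (by linarith)).trans poly_num
  set c := 0 + z1.re - lm with hc
  have c0 : 0 ≤ c := by linarith
  have f1 : 0.7 - 4 * ε ≤ Ftri 1.4 c := by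
    have := (Ftri_lip (a := 1.4) (c := 0) (δ := 2 * ε) (by norm_num) le_rfl (by positivity)).trans
      (Ftri_anti (c := c) (by norm_num) (by linarith))
    rw [Ftri_zero (by norm_num)] at this
    linarith
  have x1 := poly_exp (l := lm) (by linarith)
  have x2 : 0.99 ≤ Real.exp (-(c * 1.4)) := by
    have := Real.add_one_le_exp (-(c * 1.4))
    linarith
  have hp : ∀ a κ : ℝ, 0 ≤ a → 0 ≤ κ → 1.94 * κ ≤ 0.99 * a → ∀ t, κ * Fre 1.4 (0 - lm) t ≤ a * Fre 1.4 c t := by
    intro a κ ha hκ hh t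
    have := Fre_pair (a := 1.4) (c1 := c) (c2 := c) (l := lm) (α := a) (β := 0) (κ := κ) (by norm_num)
      c0 c0 (by linarith) (by linarith) ha le_rfl hκ (by nlinarith) t
    simpa using this
  have g1 := num_ne_one h hz1
  have d1 := num_d_le h g
  have d2 := num_d_sq h g
  have d3 := num_d_le h (g * g * g)
  have e0 : z1.im + m = 0 := by rw [hm]; ring
  simp only [Multiset.map_zero, Multiset.sum_zero] at k0
  by_cases h2 : g * g = 1
  · have him : z1.im ≠ 0 := fun hh => by have := hB g h2 z1 hz1 hh; linarith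
    have hcj : conj z1 ∈ (M.Z g).erase z1 := by
      rw [Multiset.mem_erase_of_ne (fun hh => him (conj_eq_iff_im.1 hh))]
      have := num_conj_mem h hz1
      rwa [inv_eq_of_mul_eq_one_right h2] at this
    have k1 := kz g m _ (by linarith) (num_pair_le hz1 hcj) (by simp)
    have k2 := kz (g * g) (m + m) 0 m2 (Multiset.zero_le _) (by simp)
    have k3 := kz (g * g * g) (m + m + m) {z1} m3 (by rw [h2, one_mul]; exact Multiset.singleton_le.2 hz1)
      (by simp)
    rw [if_neg g1, Multiset.map_cons, Multiset.sum_cons, Multiset.map_singleton, Multiset.sum_singleton,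
      e0, Fre_zero, conj_re, conj_im, ← hm] at k1
    rw [if_pos h2] at k2
    rw [if_neg (by rw [h2, one_mul]; exact g1), Multiset.map_singleton, Multiset.sum_singleton,
      show z1.im + (m + m + m) = m + m by linarith] at k3
    simp only [Multiset.map_zero, Multiset.sum_zero] at k2
    have := hp 15.4568 7.12 (by norm_num) (by norm_num) (by norm_num) (m + m)
    linarith
  have k1 := kz g m {z1} (by linarith) (Multiset.singleton_le.2 hz1) (by simp)
  rw [if_neg g1, Multiset.map_singleton, Multiset.sum_singleton, e0, Fre_zero] at k1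
  have k3 := kz (g * g * g) (m + m + m) 0 m3 (Multiset.zero_le _) (by simp)
  simp only [Multiset.map_zero, Multiset.sum_zero] at k3
  by_cases h3 : g * g * g = 1
  · have k2 := kz (g * g) (m + m) {conj z1} m2 (by
      rw [eq_inv_of_mul_eq_one_left h3]; exact Multiset.singleton_le.2 (num_conj_mem h hz1)) (by simp)
    rw [if_neg h2, Multiset.map_singleton, Multiset.sum_singleton, conj_re, conj_im, ← hm,
      ← add_assoc] at k2
    rw [if_pos h3] at k3
    have := hp 7.12 2 (by norm_num) (by norm_num) (by norm_num) (m + m + m)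
    linarith
  · have k2 := kz (g * g) (m + m) 0 m2 (Multiset.zero_le _) (by simp)
    simp only [Multiset.map_zero, Multiset.sum_zero] at k2
    rw [if_neg h2] at k2
    rw [if_neg h3] at k3
    linarith

/-- repulsion from a low real zero -/
theorem num_dh (h : M.Ok α K A DS lam0 Λm N0 ε) (hA : 10 ≤ A) (hε : 0 ≤ ε) (hε0 : ε ≤ lam0)
    (hΛ : 5 ≤ Λm) (hε1 : ε ≤ 1 / 10 ^ 6) {g1 : Γ} (hg1 : g1 * g1 = 1) {z1 : ℂ} (hz1 : z1 ∈ M.Z g1)
    (him : z1.im = 0) (hre : z1.re ≤ 0.4701) :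
    ∃ ls : ℝ, (∀ g, g ≠ g1 → ∀ z ∈ M.Z g, ls ≤ z.re) ∧ (∀ z ∈ (M.Z g1).erase z1, ls ≤ z.re) ∧
      (0.1495 ≤ 2 * Del ls z1.re ∨ Λm ≤ ls) := by
  set Zo : Γ → Multiset ℂ := fun g => if g = g1 then (M.Z g1).erase z1 else M.Z g with hZo
  have hmem : ∀ g, ∀ z ∈ Zo g, z ∈ (Λm : ℂ) ::ₘ ∑ g, Zo g := fun g z hz =>
    Multiset.mem_cons_of_mem (Multiset.mem_sum.2 ⟨g, mem_univ _, hz⟩)
  obtain ⟨y, hy, hmin⟩ := num_min ((Λm : ℂ) ::ₘ ∑ g, Zo g) (Multiset.cons_ne_zero)
  have o1 : ∀ g, g ≠ g1 → ∀ z ∈ M.Z g, y.re ≤ z.re := fun g hg z hz =>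
    hmin z (hmem g z (by simpa [hZo, hg] using hz))
  have o2 : ∀ z ∈ (M.Z g1).erase z1, y.re ≤ z.re := fun z hz =>
    hmin z (hmem g1 z (by simpa [hZo] using hz))
  refine ⟨y.re, o1, o2, ?_⟩
  have hyΛ : y.re ≤ Λm := by simpa using hmin _ (Multiset.mem_cons_self _ _)
  rcases Multiset.mem_cons.1 hy with hy | hy
  · right; rw [hy]; simp
  left
  obtain ⟨g, -, hg⟩ := Multiset.mem_sum.1 hy
  have hyg : y ∈ M.Z g := by
    by_cases hh : g = g1
    · subst hh; exact Multiset.mem_of_mem_erase (by simpa [hZo] using hg)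
    · simpa [hZo, hh] using hg
  have hy0 := h.Z_re g y hyg
  have hz0 := h.Z_re g1 z1 hz1
  have hH := h.H1_nonneg
  set lm := y.re - ε with hlm
  have kz : ∀ (g' : Γ) (mu : ℝ) (D : Multiset ℂ), |mu| ≤ 4 * M.H1 → D ≤ M.Z g' → D.card ≤ 3 →
      (g' = g1 → z1 ∈ D) →
      num_K M (num_tri 0.8 0) lm mu g' ≤ (if g' = 1 then Fre 0.8 (0 - lm) mu else 0)
      - (D.map fun z => Fre 0.8 (0 + z.re - lm) (z.im + mu)).sum + M.d g' / 8 + ε :=
    fun g' mu D a1 a2 a3 a4 => num_kt h hA g' D (by norm_num) (by norm_num) le_rfl (by norm_num)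
      (by linarith) (by linarith) a1 a2 a3 (fun z hz => by
        by_cases hh : g' = g1
        · subst hh
          have : M.Z g' - D ≤ (M.Z g').erase z1 := by
            rw [← Multiset.sub_singleton]
            exact tsub_le_tsub_left (Multiset.singleton_le.2 (a4 rfl)) _
          have := o2 z (Multiset.mem_of_le this hz)
          linarith
        · have := o1 g' hh z (Multiset.mem_of_le (Multiset.sub_le_self _ _) hz)
          linarith)
  have n1 := num_ne_one h hz1
  have k0 := kz 1 0 0 (by simpa using hH) (Multiset.zero_le _) (by simp) (fun hh => absurd hh.symm n1)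
  have k1 := kz g1 0 {z1} (by simpa using hH) (Multiset.singleton_le.2 hz1) (by simp) (by simp)
  rw [if_pos rfl, num_d_one h, Fre_zero] at k0
  rw [if_neg n1, Multiset.map_singleton, Multiset.sum_singleton, him, add_zero, Fre_zero] at k1
  simp only [Multiset.map_zero, Multiset.sum_zero] at k0
  have eD : Del lm z1.re = Ftri 0.8 (0 - lm) - Ftri 0.8 (0 + z1.re - lm) := by
    unfold Del; simp
  have hD := Del_mono (l := lm) (l' := y.re) (l1 := z1.re) (l1' := z1.re) (by linarith) (by linarith) le_rfl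
  have hD0 : 0 ≤ Del lm z1.re := by
    rw [eD]
    have := Ftri_anti (a := 0.8) (c := 0 - lm) (c' := 0 + z1.re - lm) (by norm_num) (by linarith)
    linarith
  have f1 : ∀ z : ℂ, z.re ≤ y.re + 2 * ε → 0.4 - 2 * ε ≤ Ftri 0.8 (0 + z.re - lm) := by
    intro z hz
    have := (Ftri_lip (a := 0.8) (c := 0) (δ := 3 * ε) (by norm_num) le_rfl (by positivity)).trans
      (Ftri_anti (c := 0 + z.re - lm) (by norm_num) (by linarith))
    rw [Ftri_zero (by norm_num)] at this
    linarith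
  have pos := fun m => num_dh_pos h (num_tri_nonneg (c := 0.8) (by norm_num)) lm m hg1 g
  by_cases hh : g = g1
  · subst hh
    have hg' : y ∈ (M.Z g).erase z1 := by simpa [hZo] using hg
    obtain ⟨z', a1, a2, a3⟩ : ∃ z' ∈ (M.Z g).erase z1, z'.re ≤ y.re + 2 * ε ∧ |z'.im| ≤ M.H1 := by
      by_cases hc : y.re + ε < z1.re
      · obtain ⟨u, u1, u2, u3⟩ := num_box1 h hyg hyΛ
        refine ⟨u, (Multiset.mem_erase_of_ne ?_).2 u1, by linarith, u3⟩
        rintro rfl; linarith
      · obtain ⟨u, u1, u2, u3⟩ := num_box2 h (x := max z1.re y.re) hz1 hg' (le_max_left _ _)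
          (le_max_right _ _) (max_le (by linarith) hyΛ) z1
        refine ⟨u, u1, ?_, u3⟩
        have : max z1.re y.re ≤ y.re + ε := max_le (by linarith) (by linarith)
        linarith
    have m1 : |-z'.im| ≤ 4 * M.H1 := by rw [abs_neg]; linarith
    have k2 := kz g (-z'.im) _ m1 (num_pair_le hz1 a1) (by simp) (by simp)
    have k3 := kz (g * g) (-z'.im) 0 m1 (Multiset.zero_le _) (by simp)
      (fun hh => absurd (hh.symm.trans hg1) n1)
    rw [if_neg n1, Multiset.map_cons, Multiset.sum_cons, Multiset.map_singleton, Multiset.sum_singleton,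
      add_neg_cancel, Fre_zero, him, zero_add (-z'.im)] at k2
    rw [if_pos hg1, num_d_sq h] at k3
    simp only [Multiset.map_zero, Multiset.sum_zero] at k3
    have q := abs_Fre_sub_le (a := 0.8) (c := 0 - lm) (c' := 0 + z1.re - lm) (by norm_num) (by linarith)
      (-z'.im)
    have := f1 z' a2
    have := pos (-z'.im)
    have := num_d_le h g
    linarith
  · obtain ⟨z', a1, a2, a3⟩ := num_box1 h hyg hyΛ
    have m1 : |-z'.im| ≤ 4 * M.H1 := by rw [abs_neg]; linarith
    have n2 := num_ne_one h hyg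
    have k2 := kz g (-z'.im) {z'} m1 (Multiset.singleton_le.2 a1) (by simp) (fun x => absurd x hh)
    have k3 := kz (g1 * g) (-z'.im) 0 m1 (Multiset.zero_le _) (by simp)
      (fun x => absurd (mul_eq_left.1 x) n2)
    rw [if_neg n2, Multiset.map_singleton, Multiset.sum_singleton, add_neg_cancel, Fre_zero] at k2
    rw [if_neg (fun x => hh (mul_left_cancel (x.trans hg1.symm)))] at k3
    simp only [Multiset.map_zero, Multiset.sum_zero] at k3
    have := f1 z' (by linarith)
    have := pos (-z'.im)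
    have := num_d_three h g1 g
    linarith

end Pool.Agent.Lib.PS
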