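import Pool.Agent.Lib.PS.Blue

/-! Block PSI, part 1: bounds for the weight. -/

namespace Pool.Agent.Lib.PS

open Finset Real MeasureTheory Complex Set
open scoped Classical

lemma psi_filter_le {p : ℂ → Prop} [DecidablePred p] {f g : ℂ → ℝ} (Z : Multiset ℂ)
    (h0 : ∀ z ∈ Z, 0 ≤ g z) (h1 : ∀ z ∈ Z, p z → f z ≤ g z) :
    ((Z.filter p).map f).sum ≤ (Z.map g).sum := by
  induction Z using Multiset.induction_on with
  | empty => simp
  | cons a s ih =>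
    have ih' := ih (fun z hz => h0 z (Multiset.mem_cons_of_mem hz))
      fun z hz => h1 z (Multiset.mem_cons_of_mem hz)
    by_cases h : p a
    · rw [Multiset.filter_cons_of_pos _ h, Multiset.map_cons, Multiset.map_cons, Multiset.sum_cons,
        Multiset.sum_cons]
      exact add_le_add (h1 a (Multiset.mem_cons_self _ _) h) ih'
    · rw [Multiset.filter_cons_of_neg _ h, Multiset.map_cons, Multiset.sum_cons]
      linarith [h0 a (Multiset.mem_cons_self _ _)]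

lemma psi_norm_sum {f : ℂ → ℂ} {B : ℝ} (Z : Multiset ℂ) (h : ∀ z ∈ Z, ‖f z‖ ≤ B) :
    ‖(Z.map f).sum‖ ≤ Z.card * B := by
  induction Z using Multiset.induction_on with
  | empty => simp
  | cons a s ih =>
    rw [Multiset.map_cons, Multiset.sum_cons, Multiset.card_cons]
    have := ih fun z hz => h z (Multiset.mem_cons_of_mem hz)
    have := h a (Multiset.mem_cons_self _ _)
    have := norm_add_le (f a) (s.map f).sum
    push_cast
    linarith

lemma psi_re_inv {r : ℝ} {z : ℂ} (hr : 0 < r) (hz : 0 ≤ z.re) :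
    r / (r + ‖z‖) ^ 2 ≤ (1 / (r + z : ℂ)).re := by
  have h1 : ‖(r + z : ℂ)‖ ≤ r + ‖z‖ := by
    simpa [abs_of_pos hr] using norm_add_le (r : ℂ) z
  have h2 : 0 < ‖(r + z : ℂ)‖ := by
    have := Complex.re_le_norm (r + z : ℂ)
    simp only [add_re, ofReal_re] at this
    linarith
  rw [one_div, Complex.inv_re, Complex.normSq_eq_norm_sq]
  simp only [add_re, ofReal_re]
  gcongr
  linarith

lemma psi_tri_cont (α K : ℝ) : Continuous (tri α K) := by
  unfold tri; fun_prop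

lemma psi_tri_zero {α K : ℝ} (h3 : 3 ≤ α) (h4 : α ≤ 4) (_K0 : 0 < K) (K1 : K ≤ 1) (s : ℝ)
    (hs : 6 ≤ |s|) : tri α K s = 0 := by
  rw [tri, max_eq_right, zero_div]
  rcases le_abs.1 hs with h | h
  · linarith [le_abs_self (s - α - K)]
  · linarith [neg_le_abs (s - α - K)]

lemma psi_tri_le {α K : ℝ} (K0 : 0 < K) (s : ℝ) : |tri α K s| ≤ 1 / K := by
  rw [tri, abs_of_nonneg (by positivity), div_le_div_iff₀ (by positivity) K0]
  have : max (K - |s - α - K|) 0 ≤ K := max_le (by linarith [abs_nonneg (s - α - K)]) K0.le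
  nlinarith

lemma psi_norm_Psi (κ : ℝ) (h : ℝ → ℝ) (v : ℂ) :
    ‖Psi κ h v‖ = ‖L2 h v‖ * Real.exp ((v.re ^ 2 - v.im ^ 2) / (2 * κ)) := by
  rw [Psi, norm_mul, Complex.norm_exp]
  congr 2
  rw [show (2 * κ : ℂ) = ((2 * κ : ℝ) : ℂ) by push_cast; ring, Complex.div_ofReal_re]
  simp [sq]

section
variable (hGS : St_GS) (hWT : St_WT) {α K : ℝ} (h3 : 3 ≤ α) (h4 : α ≤ 4) (K0 : 0 < K) (K1 : K ≤ 1)
include hGS hWT h3 h4 K0 K1

omit hGS in
lemma psi_L2_neg {v : ℂ} (hv : v.re ≤ 0) : ‖L2 (tri α K) v‖ ≤ Real.exp (α * v.re) := by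
  obtain ⟨-, -, w3, w4, -⟩ := hWT α K h3 h4 K0 K1
  have := (w4 (-v) (by simpa using hv)).1
  rw [← w3, neg_neg] at this
  simpa using this

lemma psi_L2_le {v : ℂ} (hv : v.re ≤ 1) : ‖L2 (tri α K) v‖ ≤ 12 / K * Real.exp 6 := by
  have e1 : 1 ≤ 12 / K * Real.exp 6 :=
    one_le_mul_of_one_le_of_one_le (by rw [le_div_iff₀ K0]; linarith) (Real.one_le_exp (by norm_num))
  rcases le_total v.re 0 with h | h
  · refine (psi_L2_neg hWT h3 h4 K0 K1 h).trans (le_trans ?_ e1)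
    exact Real.exp_le_one_iff.2 (mul_nonpos_of_nonneg_of_nonpos (by linarith) h)
  · obtain ⟨-, -, -, -, -, -, g7, -⟩ := hGS 1 6 (1 / K) (tri α K) one_pos (by norm_num)
      (psi_tri_cont α K) (psi_tri_zero h3 h4 K0 K1) (psi_tri_le K0)
    refine (g7 v).trans ?_
    rw [abs_of_nonneg h, show 2 * 6 * (1 / K) = 12 / K by ring]
    gcongr
    linarith

omit hGS in
lemma psi_Psi_neg (κ : ℝ) (z : ℂ) : Psi κ (tri α K) (-z) = Hs κ α K z := by
  obtain ⟨-, -, w3, -⟩ := hWT α K h3 h4 K0 K1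
  rw [Psi, w3, Hs, neg_sq]

lemma psi_lap {κ l : ℝ} (l1 : 1 ≤ l) (hκ : l ≤ κ) {z : ℂ} (hz : z.re ≤ l / 4) :
    ‖Hs κ α K z - Lap (hs κ α K) z‖ ≤ 2 / K * Real.exp (-(4 * l)) := by
  have κ0 : 0 < κ := by linarith
  obtain ⟨-, -, -, -, -, -, -, g8, -⟩ := hGS κ 6 (1 / K) (tri α K) κ0 (by norm_num)
    (psi_tri_cont α K) (psi_tri_zero h3 h4 K0 K1) (psi_tri_le K0)
  obtain ⟨w1, w2, -⟩ := hWT α K h3 h4 K0 K1
  obtain ⟨i1, i2⟩ := g8 (-z)
  rw [← psi_Psi_neg hWT h3 h4 K0 K1, ← i2, L2,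
    ← intervalIntegral.integral_Iic_add_Ioi (b := 0) i1.integrableOn i1.integrableOn]
  have : Lap (hs κ α K) z = ∫ t in Ioi (0 : ℝ), (gs κ (tri α K) t : ℂ) * cexp (-z * t) := by
    simp only [Lap, hs, neg_mul]
  rw [this, add_sub_cancel_right]
  have j : IntegrableOn (fun t : ℝ => 2 / K * Real.exp (-(4 * l)) * Real.exp t) (Iic 0) :=
    (integrableOn_exp_Iic 0).const_mul _
  refine (norm_integral_le_of_norm_le j ?_).trans ?_
  · refine (ae_restrict_iff' measurableSet_Iic).2 (ae_of_all _ fun t (ht : t ≤ 0) => ?_)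
    have a1 := w2 κ t (α - t) κ0 (by linarith) (Or.inl (by linarith))
    have a2 := (w1 κ t κ0).1
    rw [hs] at a1 a2
    rw [norm_mul, Complex.norm_real, Real.norm_of_nonneg a2, Complex.norm_exp]
    refine (mul_le_mul_of_nonneg_right a1 (Real.exp_pos _).le).trans ?_
    rw [mul_assoc, mul_assoc, ← Real.exp_add, ← Real.exp_add]
    refine mul_le_mul_of_nonneg_left (Real.exp_le_exp.2 ?_) (by positivity)
    simp only [neg_mul, neg_re, mul_re, ofReal_re, ofReal_im, mul_zero, sub_zero]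
    have b1 : 9 - 6 * t ≤ (α - t) ^ 2 := by nlinarith
    have b2 : l * (9 - 6 * t) ≤ κ * (α - t) ^ 2 := mul_le_mul hκ b1 (by linarith) κ0.le
    nlinarith [mul_nonneg (sub_nonneg.2 hz) (neg_nonneg.2 ht), mul_nonneg (sub_nonneg.2 l1) (neg_nonneg.2 ht)]
  · rw [integral_const_mul, integral_exp_Iic_zero, mul_one]

omit hGS in
lemma psi_Hs_le {κ l : ℝ} (l1 : 1 ≤ l) (hκ : l ≤ κ) {z : ℂ} (h0 : 0 ≤ z.re) (hz : z.re ≤ l / 4) :
    ‖Hs κ α K z‖ ≤ Real.exp (-((α - 1 / 4) * z.re)) ∧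
      ‖Hs κ α K z‖ * ‖z‖ ^ 2 ≤ 4 / K ^ 2 * Real.exp (-((α - 1 / 4) * z.re)) := by
  have κ0 : 0 < κ := by linarith
  obtain ⟨-, -, w3, w4, -⟩ := hWT α K h3 h4 K0 K1
  obtain ⟨a1, a2⟩ := w4 z h0
  have e : ‖Hs κ α K z‖ ≤ ‖HH α K z‖ * Real.exp (z.re / 4) := by
    rw [← psi_Psi_neg hWT h3 h4 K0 K1, psi_norm_Psi, w3]
    refine mul_le_mul_of_nonneg_left (Real.exp_le_exp.2 ?_) (by positivity)
    rw [div_le_iff₀ (by positivity)]
    simp only [neg_re, neg_im, even_two, Even.neg_pow]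
    nlinarith [sq_nonneg z.im, mul_nonneg h0 (sub_nonneg.2 hz), mul_nonneg h0 (sub_nonneg.2 hκ)]
  have e2 : Real.exp (-((α - 1 / 4) * z.re)) = Real.exp (-(α * z.re)) * Real.exp (z.re / 4) := by
    rw [← Real.exp_add]; congr 1; ring
  rw [e2]
  constructor
  · exact e.trans (by gcongr)
  · calc _ ≤ ‖HH α K z‖ * Real.exp (z.re / 4) * ‖z‖ ^ 2 := by gcongr
      _ = ‖HH α K z‖ * ‖z‖ ^ 2 * Real.exp (z.re / 4) := by ring
      _ ≤ _ := by rw [← mul_assoc]; gcongr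

end

lemma psi_Hs_zero (κ α : ℝ) {K : ℝ} (K0 : 0 < K) : Hs κ α K 0 = 1 := by
  have : (K : ℂ) ≠ 0 := by exact_mod_cast K0.ne'
  simp [Hs, HH, gK, this]

lemma psi_tail {F : ℝ → ℂ} {M κ Y : ℝ} (hF : Integrable F) (κ0 : 0 < κ) (M0 : 0 ≤ M) (Y0 : 0 ≤ Y)
    (h : ∀ y, ‖F y‖ ≤ M * Real.exp (-(y ^ 2 / (2 * κ)))) :
    ‖(∫ y, F y) - ∫ y in (-Y)..Y, F y‖ ≤ M * Real.exp (-(Y ^ 2 / (4 * κ))) * √(4 * π * κ) := by
  rw [intervalIntegral.integral_of_le (by linarith), ← integral_add_compl measurableSet_Ioc hF,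
    add_sub_cancel_left]
  have b0 : 0 < 1 / (4 * κ) := by positivity
  have j : Integrable fun y : ℝ =>
      M * Real.exp (-(Y ^ 2 / (4 * κ))) * Real.exp (-(1 / (4 * κ)) * y ^ 2) :=
    (integrable_exp_neg_mul_sq b0).const_mul _
  refine (norm_integral_le_of_norm_le j.integrableOn ?_).trans ?_
  · refine (ae_restrict_iff' measurableSet_Ioc.compl).2 (ae_of_all _ fun y hy => (h y).trans ?_)
    rw [mul_assoc, ← Real.exp_add]
    gcongr
    have : Y ^ 2 ≤ y ^ 2 := by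
      simp only [mem_compl_iff, Set.mem_Ioc, not_and_or, not_lt, not_le] at hy
      rcases hy with hy | hy <;> nlinarith
    have e : -(Y ^ 2 / (4 * κ)) + -(1 / (4 * κ)) * y ^ 2 + y ^ 2 / (2 * κ)
        = (y ^ 2 - Y ^ 2) / (4 * κ) := by field_simp; ring
    have : 0 ≤ (y ^ 2 - Y ^ 2) / (4 * κ) := div_nonneg (by linarith) (by positivity)
    linarith
  · refine (setIntegral_le_integral j (ae_of_all _ fun y => by positivity)).trans ?_
    rw [integral_const_mul, integral_gaussian, show π / (1 / (4 * κ)) = 4 * π * κ by field_simp]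

lemma psi_small (C β : ℝ) (hβ : 0 < β) :
    ∃ l0 : ℝ, ∀ l, l0 ≤ l → C * l ^ 2 * Real.exp (-(β * l)) ≤ Real.exp (-(β / 2 * l)) := by
  refine ⟨max 1 (216 * |C| / β ^ 3), fun l hl => ?_⟩
  have l1 : 1 ≤ l := (le_max_left _ _).trans hl
  have l2 : 216 * |C| ≤ l * β ^ 3 := (div_le_iff₀ (by positivity)).1 ((le_max_right _ _).trans hl)
  have e1 : β * l / 6 ≤ Real.exp (β * l / 6) := by linarith [Real.add_one_le_exp (β * l / 6)]
  have e2 : (β * l / 6) ^ 3 ≤ Real.exp (β / 2 * l) := by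
    rw [show β / 2 * l = (3 : ℕ) * (β * l / 6) by push_cast; ring, Real.exp_nat_mul]
    gcongr
  have e3 : C * l ^ 2 ≤ (β * l / 6) ^ 3 := by
    have := le_abs_self C
    have : 216 * C * l ^ 2 ≤ l * β ^ 3 * l ^ 2 :=
      mul_le_mul_of_nonneg_right (by linarith) (by positivity)
    nlinarith
  rw [show -(β / 2 * l) = β / 2 * l + -(β * l) by ring, Real.exp_add]
  gcongr
  exact e3.trans e2

end Pool.Agent.Lib.PS
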