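import Pool.Agent.Lib.PS.PSI1

/-! Block PSI, part 2: the contour shift. -/

namespace Pool.Agent.Lib.PS

open Finset Real MeasureTheory Complex Set
open scoped Classical ArithmeticFunction.vonMangoldt

lemma psi_ef2 (hEF : St_EF) {κ A σ : ℝ} {h : ℝ → ℝ} (κ0 : 0 < κ) (σ0 : 0 < σ) (hc : Continuous h)
    (hz : ∀ s, A ≤ |s| → h s = 0) (Z : Multiset ℂ) (hZ : ∀ z ∈ Z, 0 ≤ z.re) :
    Integrable (fun y : ℝ => Psi κ h (σ + y * I) * (Z.map fun z => 1 / (σ + y * I + z)).sum) ∧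
      (∫ y : ℝ, Psi κ h (σ + y * I) * (Z.map fun z => 1 / (σ + y * I + z)).sum) / (2 * π)
        = (Z.map (Lap (gs κ h))).sum := by
  induction Z using Multiset.induction_on with
  | empty => simp
  | cons a s ih =>
    obtain ⟨i1, i2⟩ := ih fun z hz => hZ z (Multiset.mem_cons_of_mem hz)
    obtain ⟨j1, j2⟩ := hEF.2.1 κ A σ h (-a) κ0 hc hz (by
      have := hZ a (Multiset.mem_cons_self _ _)
      rw [neg_re]; linarith)
    simp only [Multiset.map_cons, Multiset.sum_cons, mul_add, mul_one_div]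
    simp only [sub_neg_eq_add, neg_neg] at j1 j2
    exact ⟨j1.add i1, by rw [integral_add j1 i1, add_div, i2, j2]⟩

/-- the remainder of the logarithmic derivative -/
noncomputable def psiRest (a : ℕ → ℂ) (m l : ℝ) (Z : Multiset ℂ) (v : ℂ) : ℂ :=
  LSeries a (1 + v / l) / l - m / v + (Z.map fun z => 1 / (v + z)).sum

lemma psi_formula (hEF : St_EF) {κ A σ l m : ℝ} {h : ℝ → ℝ} {a : ℕ → ℂ} (κ0 : 0 < κ) (σ0 : 0 < σ)
    (l0 : 0 < l) (hc : Continuous h) (hz : ∀ s, A ≤ |s| → h s = 0) (ha : ∀ n, ‖a n‖ ≤ Λ n)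
    (Z : Multiset ℂ) (hZ : ∀ z ∈ Z, 0 ≤ z.re) :
    Integrable (fun y : ℝ => Psi κ h (σ + y * I) * psiRest a m l Z (σ + y * I)) ∧
      Ks a (gs κ h) l 0 - m * Lap (gs κ h) 0 + (Z.map (Lap (gs κ h))).sum =
        (∫ y : ℝ, Psi κ h (σ + y * I) * psiRest a m l Z (σ + y * I)) / (2 * π) := by
  obtain ⟨a1, a2⟩ := hEF.1 κ A l σ h a 0 κ0 l0 hc hz ha (by simpa using σ0)
  obtain ⟨b1, b2⟩ := hEF.2.1 κ A σ h 0 κ0 hc hz (by simpa using σ0)
  obtain ⟨c1, c2⟩ := psi_ef2 hEF κ0 σ0 hc hz Z hZ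
  simp only [sub_zero, neg_zero] at a1 a2 b1 b2
  have e : (fun y : ℝ => Psi κ h (σ + y * I) * psiRest a m l Z (σ + y * I)) = fun y : ℝ =>
      (Psi κ h (σ + y * I) * LSeries a (1 + (σ + y * I) / l) / l
        - m * (Psi κ h (σ + y * I) / (σ + y * I)))
        + Psi κ h (σ + y * I) * (Z.map fun z => 1 / (σ + y * I + z)).sum := by
    funext y; rw [psiRest]; ring
  have d1 : Integrable fun y : ℝ => Psi κ h (σ + y * I) * LSeries a (1 + (σ + y * I) / l) / l
      - m * (Psi κ h (σ + y * I) / (σ + y * I)) := (a1.div_const (l : ℂ)).sub (b1.const_mul (m : ℂ))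
  rw [e]
  refine ⟨d1.add c1, ?_⟩
  rw [integral_add d1 c1, integral_sub (a1.div_const _) (b1.const_mul _), integral_div,
    integral_const_mul, a2, ← b2, ← c2]
  ring

lemma psi_rest_le {a : ℕ → ℂ} {m l C' : ℝ} (l1 : 1 ≤ l) (m0 : 0 ≤ m) (m1 : m ≤ 1)
    (C0 : 0 ≤ C') (hL : ∀ s : ℂ, 1 < s.re → ‖LSeries a s‖ ≤ 1 / (s.re - 1) + C')
    {v : ℂ} (hv : 1 ≤ v.re) : ‖LSeries a (1 + v / l) / l - m / v‖ ≤ 2 + C' := by
  have l0 : 0 < l := by linarith
  have e : (1 + v / l : ℂ).re - 1 = v.re / l := by simp [Complex.div_ofReal_re]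
  have p : 0 < v.re / l := by positivity
  have h1 := hL (1 + v / l) (by linarith)
  rw [e, one_div_div] at h1
  have h2 : l / v.re ≤ l := div_le_self l0.le hv
  have h3 : ‖LSeries a (1 + v / l) / l‖ ≤ 1 + C' := by
    rw [norm_div, Complex.norm_real, Real.norm_of_nonneg l0.le, div_le_iff₀ l0]
    nlinarith
  have h4 : ‖(m : ℂ) / v‖ ≤ 1 := by
    rw [norm_div, Complex.norm_real, Real.norm_of_nonneg m0]
    exact div_le_one_of_le₀ (by linarith [Complex.re_le_norm v]) (norm_nonneg _)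
  linarith [norm_sub_le (LSeries a (1 + v / l) / l) (m / v)]

lemma psi_shift (hGS : St_GS) (hEF : St_EF) (hWT : St_WT) {α K : ℝ} (h3 : 3 ≤ α) (h4 : α ≤ 4)
    (K0 : 0 < K) (K1 : K ≤ 1) {l cg d C M : ℝ} (l1 : 1 ≤ l) (g0 : 0 < cg) (g1 : cg ≤ 1)
    (d0 : 0 < d) (d1 : d ≤ 1) (dl : 1 ≤ d * l) (C0 : 0 ≤ C) (M0 : 0 ≤ M) {Rs g : ℂ → ℂ}
    (hi : Integrable fun y : ℝ => Psi (l / cg) (tri α K) ((1 : ℝ) + y * I) * Rs ((1 : ℝ) + y * I))
    (hM : ∀ y : ℝ, ‖Rs ((1 : ℝ) + y * I)‖ ≤ M * l)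
    (hg : DifferentiableOn ℂ g {s | ‖s - 1‖ ≤ 4 * d * l})
    (hC : ∀ s, ‖s - 1‖ ≤ 4 * d * l → ‖g s‖ ≤ C ∧ (0 < s.re → Rs s = g s)) :
    ‖∫ y : ℝ, Psi (l / cg) (tri α K) ((1 : ℝ) + y * I) * Rs ((1 : ℝ) + y * I)‖ ≤
      (12 / K * Real.exp 7 * (16 * M / cg + 4 * C) + 4 * C) * l ^ 2
        * Real.exp (-(d ^ 2 * cg * l)) := by
  have l0 : 0 < l := by linarith
  have κl : l ≤ l / cg := by rw [le_div_iff₀ g0]; nlinarith
  have κ0 : 0 < l / cg := by positivity
  set B := 12 / K * Real.exp 6 with hB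
  have B0 : 0 < B := by positivity
  have B7 : 12 / K * Real.exp 7 = B * Real.exp 1 := by
    rw [hB, mul_assoc, ← Real.exp_add]; norm_num
  have e1 : 1 ≤ Real.exp 1 := Real.one_le_exp zero_le_one
  set X := Real.exp (-(d ^ 2 * cg * l)) with hX
  have X0 : 0 < X := Real.exp_pos _
  obtain ⟨-, -, -, -, -, g6, -⟩ := hGS 1 6 (1 / K) (tri α K) one_pos (by norm_num)
    (psi_tri_cont α K) (psi_tri_zero h3 h4 K0 K1) (psi_tri_le K0)
  have Y0 : 0 ≤ 2 * d * l := by positivity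
  -- the tails
  have t1 := psi_tail (M := B * Real.exp 1 * (M * l)) hi κ0 (by positivity) Y0 fun y => by
    rw [norm_mul, psi_norm_Psi]
    have a1 := psi_L2_le hGS hWT h3 h4 K0 K1 (v := (1 : ℝ) + y * I) (by simp)
    have a2 : Real.exp (((((1 : ℝ) : ℂ) + y * I).re ^ 2 - (((1 : ℝ) : ℂ) + y * I).im ^ 2) /
        (2 * (l / cg))) ≤ Real.exp 1 * Real.exp (-(y ^ 2 / (2 * (l / cg)))) := by
      rw [← Real.exp_add, Real.exp_le_exp]
      simp only [ofReal_one, add_re, one_re, mul_re, ofReal_re, I_re, mul_zero, ofReal_im, I_im,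
        mul_one, sub_self, add_zero, one_pow, add_im, one_im, mul_im, zero_add]
      rw [sub_div, sub_eq_add_neg]
      gcongr
      exact div_le_one_of_le₀ (by linarith) (by positivity)
    calc _ ≤ B * (Real.exp 1 * Real.exp (-(y ^ 2 / (2 * (l / cg))))) * (M * l) := by
          gcongr; exact hM y
      _ = _ := by ring
  have t1' : √(4 * π * (l / cg)) ≤ 16 * l / cg := by
    rw [Real.sqrt_le_left (by positivity), mul_div_assoc]
    have := Real.pi_le_four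
    nlinarith
  rw [show (2 * d * l) ^ 2 / (4 * (l / cg)) = d ^ 2 * cg * l by field_simp; ring, ← hX] at t1
  -- the rectangle
  have mem : ∀ s : ℂ, -(d * l) ≤ s.re → s.re ≤ 1 → |s.im| ≤ 2 * d * l → ‖s - 1‖ ≤ 4 * d * l :=
    fun s a b c => by
      refine (Complex.norm_le_abs_re_add_abs_im _).trans ?_
      simp only [sub_re, one_re, sub_im, one_im, sub_zero]
      rw [abs_of_nonpos (by linarith)]
      linarith
  have dP : Differentiable ℂ (Psi (l / cg) (tri α K)) := by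
    unfold Psi; fun_prop
  have hor : ∀ s : ℂ, -(d * l) ≤ s.re → s.re ≤ 1 → |s.im| = 2 * d * l →
      ‖Psi (l / cg) (tri α K) s * g s‖ ≤ B * X * C := fun s a b c => by
    rw [norm_mul, psi_norm_Psi]
    have a1 := psi_L2_le hGS hWT h3 h4 K0 K1 b
    have a2 : (s.re ^ 2 - s.im ^ 2) / (2 * (l / cg)) ≤ -(d ^ 2 * cg * l) := by
      rw [div_le_iff₀ (by positivity), ← sq_abs s.im, c,
        show -(d ^ 2 * cg * l) * (2 * (l / cg)) = -(2 * (d * l) ^ 2) by field_simp]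
      have : s.re ^ 2 ≤ (d * l) ^ 2 := sq_le_sq' a (by linarith)
      nlinarith
    have a3 := (hC s (mem s a b c.le)).1
    rw [hX]
    gcongr
  have t2 := hEF.2.2.2 (fun s => Psi (l / cg) (tri α K) s * g s) (-(d * l)) 1 (2 * d * l) (B * X * C)
    (by linarith) Y0 (dP.differentiableOn.mul (hg.mono fun s hs => mem s hs.1 hs.2.1 hs.2.2))
    fun x a b => ⟨hor _ (by simpa using a) (by simpa using b) (by simp [abs_of_pos, d0, l0]),
      hor _ (by simpa using a) (by simpa using b) (by simp [abs_of_pos, d0, l0])⟩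
  have t3 : ‖∫ y in (-(2 * d * l))..(2 * d * l), Psi (l / cg) (tri α K) ((-(d * l) : ℝ) + y * I) *
      g ((-(d * l) : ℝ) + y * I)‖ ≤ X * C * |2 * d * l - -(2 * d * l)| := by
    refine intervalIntegral.norm_integral_le_of_norm_le_const fun y hy => ?_
    rw [Set.uIoc_of_le (by linarith)] at hy
    set s : ℂ := (-(d * l) : ℝ) + y * I with hs
    have r1 : s.re = -(d * l) := by simp [hs]
    have r2 : s.im = y := by simp [hs]
    have a1 := psi_L2_neg hWT h3 h4 K0 K1 (v := s) (by linarith)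
    have a3 := (hC s (mem s r1.ge (by linarith) (by rw [r2, abs_le]; exact ⟨hy.1.le, hy.2⟩))).1
    rw [norm_mul, psi_norm_Psi]
    refine mul_le_mul ((mul_le_mul_of_nonneg_right a1 (Real.exp_pos _).le).trans ?_) a3
      (norm_nonneg _) X0.le
    rw [← Real.exp_add, hX, Real.exp_le_exp, r1, r2]
    have b1 : ((-(d * l)) ^ 2 - y ^ 2) / (2 * (l / cg)) ≤ d * l := by
      rw [div_le_iff₀ (by positivity)]
      have : d * l ≤ l := by nlinarith
      nlinarith [sq_nonneg y]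
    have b2 : d ^ 2 * cg * l ≤ d * l := by
      have : d * cg ≤ 1 := mul_le_one₀ d1 g0.le g1
      nlinarith
    nlinarith
  have t4 : (∫ y in (-(2 * d * l))..(2 * d * l), Psi (l / cg) (tri α K) ((1 : ℝ) + y * I) *
      Rs ((1 : ℝ) + y * I)) = ∫ y in (-(2 * d * l))..(2 * d * l),
        Psi (l / cg) (tri α K) ((1 : ℝ) + y * I) * g ((1 : ℝ) + y * I) := by
    refine intervalIntegral.integral_congr fun y hy => ?_
    rw [Set.uIcc_of_le (by linarith)] at hy
    rw [(hC _ (mem _ (by simp; linarith) (by simp) (by simpa [abs_le] using hy))).2 (by simp)]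
  rw [t4] at t1
  rw [abs_of_nonneg (by linarith)] at t3
  have tot := norm_add₃_le.trans (add_le_add (add_le_add t1 t2) t3)
  rw [sub_add_sub_cancel, sub_add_cancel] at tot
  refine tot.trans ?_
  have dl' : d * l ≤ l ^ 2 := by nlinarith
  have u1 : B * Real.exp 1 * (M * l) * X * √(4 * π * (l / cg)) ≤
      B * Real.exp 1 * (16 * M / cg) * l ^ 2 * X :=
    calc _ ≤ B * Real.exp 1 * (M * l) * X * (16 * l / cg) := by gcongr
      _ = _ := by ring
  have u2 : 2 * (1 - -(d * l)) * (B * X * C) ≤ B * Real.exp 1 * (4 * C) * l ^ 2 * X :=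
    calc _ ≤ 4 * l ^ 2 * (B * X * C) := mul_le_mul_of_nonneg_right (by linarith) (by positivity)
      _ = B * 1 * (4 * C) * l ^ 2 * X := by ring
      _ ≤ _ := by gcongr
  have u3 : X * C * (2 * d * l - -(2 * d * l)) ≤ 4 * C * l ^ 2 * X :=
    calc _ ≤ X * C * (4 * l ^ 2) := mul_le_mul_of_nonneg_left (by linarith) (by positivity)
      _ = _ := by ring
  rw [B7]
  nlinarith

end Pool.Agent.Lib.PS
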