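import Pool.Agent.Lib.PS.Blue

/-! Block SING1, first part: tails of character sums are small for almost all `n`. -/

namespace Pool.Agent.Lib.PS

open Finset Real
open scoped NumberTheorySymbols Classical

/-- a tail of the series with coefficients `h` -/
noncomputable def s1T (h : ℕ → ℝ) (n a b : ℕ) : ℝ :=
  ∑ d ∈ (Ioc a b).filter Odd, h d * (J((n : ℤ) | d) : ℝ)

lemma s1_add (h : ℕ → ℝ) (n : ℕ) {a b c : ℕ} (h1 : a ≤ b) (h2 : b ≤ c) :
    s1T h n a c = s1T h n a b + s1T h n b c := by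
  simp only [s1T, sum_filter]
  rw [sum_Ioc_consecutive _ h1 h2]

lemma s1_J (n d : ℕ) : |(J((n : ℤ) | d) : ℝ)| ≤ 1 := by
  rcases jacobiSym.trichotomy (n : ℤ) d with h | h | h <;> rw [h] <;> simp

lemma s1_gap (h : ℕ → ℝ) (n a b : ℕ) (B : ℝ) (hB : 0 ≤ B) (hh : ∀ d, a < d → |h d| ≤ B) :
    |s1T h n a b| ≤ (b - a : ℕ) * B := by
  refine (abs_sum_le_sum_abs _ _).trans ?_
  calc _ ≤ ∑ d ∈ (Ioc a b).filter Odd, B := by
        refine sum_le_sum fun d hd => ?_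
        rw [abs_mul]
        exact (mul_le_of_le_one_right (abs_nonneg _) (s1_J n d)).trans
          (hh d (mem_Ioc.1 (mem_filter.1 hd).1).1)
    _ ≤ ∑ d ∈ Ioc a b, B := sum_le_sum_of_subset_of_nonneg (filter_subset _ _) fun _ _ _ => hB
    _ = _ := by simp

lemma s1_ev {c : ℝ} (hc : 0 < c) (K : ℝ) :
    ∃ X0 : ℕ, ∀ X : ℕ, X0 ≤ X → 2 ≤ X ∧ K * (1 + Real.log X) ≤ (X : ℝ) ^ c := by
  have h1 := (tendsto_rpow_atTop (half_pos hc)).eventually_ge_atTop (|K| * (1 + 2 / c))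
  obtain ⟨x0, hx0⟩ := Filter.eventually_atTop.1 h1
  refine ⟨⌈x0⌉₊ + 2, fun X hX => ⟨by omega, ?_⟩⟩
  have X1 : (1 : ℝ) ≤ X := by exact_mod_cast (by omega : 1 ≤ X)
  have h2 := hx0 X ((Nat.le_ceil x0).trans (by exact_mod_cast (by omega : ⌈x0⌉₊ ≤ X)))
  have h3 := Real.log_le_rpow_div (x := X) (by linarith) (half_pos hc)
  have h4 : 1 ≤ (X : ℝ) ^ (c / 2) := Real.one_le_rpow X1 (half_pos hc).le
  have h5 : (X : ℝ) ^ c = X ^ (c / 2) * X ^ (c / 2) := by
    rw [← Real.rpow_add (by linarith)]; congr 1; ring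
  have h6 : 1 + Real.log X ≤ (1 + 2 / c) * X ^ (c / 2) := by
    have : (X : ℝ) ^ (c / 2) / (c / 2) = 2 / c * X ^ (c / 2) := by field_simp
    rw [this] at h3
    linarith
  have h7 := Real.log_nonneg X1
  calc _ ≤ |K| * (1 + Real.log X) := by gcongr; exact le_abs_self K
    _ ≤ |K| * ((1 + 2 / c) * X ^ (c / 2)) := by gcongr
    _ = |K| * (1 + 2 / c) * X ^ (c / 2) := by ring
    _ ≤ _ := by rw [h5]; gcongr

lemma s1_block (hM : St_MOM) {η ε : ℝ} (hη : 0 < η) (hε : 0 < ε) : ∃ (K : ℕ) (C : ℝ), 0 < C ∧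
    ∀ (X D : ℕ) (U : ℝ) (b : ℕ → ℝ), 2 ≤ X → 1 ≤ U → (X : ℝ) ^ η ≤ D →
      (D : ℝ) ≤ (X : ℝ) ^ (1 / 3 : ℝ) → (∀ d, |b d| ≤ U / D) →
      (((Ioc X (2 * X)).filter fun n => (U ^ 7)⁻¹ < |s1T b n D (2 * D)|).card : ℝ) ≤
        C * U ^ (16 * K) * (X : ℝ) ^ (ε + 2 / 3) := by
  choose! C hC0 hC using fun k hk => hM k ε hk hε
  obtain ⟨K, hK⟩ := exists_nat_ge (1 / (3 * η))
  have hS : ∀ k, 1 ≤ k → k ≤ K → C k ≤ ∑ j ∈ range (K + 1), |C j| := fun k _ h2 =>
    (le_abs_self _).trans (single_le_sum (f := fun j => |C j|) (fun _ _ => abs_nonneg _)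
      (mem_range.2 (by omega)))
  have hS0 : 0 ≤ ∑ j ∈ range (K + 1), |C j| := sum_nonneg fun _ _ => abs_nonneg _
  refine ⟨K, 2 * (∑ j ∈ range (K + 1), |C j|) + 1, by linarith, ?_⟩
  intro X D U b hX hU hD1 hD2 hb
  have X1 : (1 : ℝ) < X := by exact_mod_cast hX
  have X0 : (0 : ℝ) < X := by linarith
  have D1 : (1 : ℝ) ≤ D := (Real.one_le_rpow X1.le hη.le).trans hD1
  have hex : (X : ℝ) ^ (1 / 3 : ℝ) ≤ (D : ℝ) ^ K := by
    refine le_trans ?_ (pow_le_pow_left₀ (by positivity) hD1 K)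
    rw [← Real.rpow_natCast, ← Real.rpow_mul X0.le]
    refine Real.rpow_le_rpow_of_exponent_le X1.le ?_
    rw [div_le_iff₀ (by positivity)] at hK
    linarith
  have hE : ∃ k : ℕ, (X : ℝ) ^ (1 / 3 : ℝ) ≤ (D : ℝ) ^ k := ⟨K, hex⟩
  have k1 := Nat.find_spec hE
  have k2 : Nat.find hE ≤ K := Nat.find_min' hE hex
  have k3 : 1 ≤ Nat.find hE := by
    rw [Nat.one_le_iff_ne_zero]
    intro h0
    rw [h0, pow_zero] at k1
    exact absurd k1 (not_le.2 (Real.one_lt_rpow X1 (by norm_num)))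
  have k4 := not_le.1 (Nat.find_min hE (m := Nat.find hE - 1) (by omega))
  set k := Nat.find hE
  have e23 : (X : ℝ) ^ (2 / 3 : ℝ) = X ^ (1 / 3 : ℝ) * X ^ (1 / 3 : ℝ) := by
    rw [← Real.rpow_add X0]; norm_num
  have k5 : (D : ℝ) ^ k ≤ (X : ℝ) ^ (2 / 3 : ℝ) := by
    rw [e23, show k = k - 1 + 1 by omega, pow_succ]
    gcongr
  have k6 : X / (D : ℝ) ^ k ≤ (X : ℝ) ^ (2 / 3 : ℝ) := by
    rw [div_le_iff₀ (by positivity)]
    calc (X : ℝ) = X ^ (2 / 3 : ℝ) * X ^ (1 / 3 : ℝ) := by rw [← Real.rpow_add X0]; norm_num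
      _ ≤ _ := by gcongr
  have k7 : (D : ℝ) ^ ε ≤ (X : ℝ) ^ ε := by
    refine Real.rpow_le_rpow (by positivity) (hD2.trans ?_) hε.le
    calc _ ≤ (X : ℝ) ^ (1 : ℝ) := Real.rpow_le_rpow_of_exponent_le X1.le (by norm_num)
      _ = _ := Real.rpow_one _
  have hm := hC k k3 X D U b (by exact_mod_cast D1) (by linarith) hb
  set E := (Ioc X (2 * X)).filter fun n => (U ^ 7)⁻¹ < |s1T b n D (2 * D)|
  have hch : (E.card : ℝ) * ((U ^ 7)⁻¹) ^ (2 * k) ≤
      ∑ n ∈ Ioc X (2 * X), (s1T b n D (2 * D)) ^ (2 * k) := by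
    calc _ = ∑ n ∈ E, ((U ^ 7)⁻¹) ^ (2 * k) := by simp
      _ ≤ ∑ n ∈ E, (s1T b n D (2 * D)) ^ (2 * k) := by
          refine sum_le_sum fun n hn => ?_
          rw [← (even_two_mul k).pow_abs (s1T b n D (2 * D))]
          exact pow_le_pow_left₀ (by positivity) (mem_filter.1 hn).2.le _
      _ ≤ _ := sum_le_sum_of_subset_of_nonneg (filter_subset _ _) fun _ _ _ =>
          (even_two_mul k).pow_nonneg _
  have h2 := hch.trans hm
  rw [inv_pow, ← div_eq_mul_inv, div_le_iff₀ (by positivity)] at h2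
  have hU2 : U ^ (16 * k) ≤ U ^ (16 * K) := pow_le_pow_right₀ hU (by omega)
  have hCk := hS k k3 k2
  have hCk0 := hC0 k k3
  calc _ ≤ _ := h2
    _ ≤ C k * U ^ (2 * k) * (X : ℝ) ^ ε * (X ^ (2 / 3 : ℝ) + X ^ (2 / 3 : ℝ)) *
        (U ^ 7) ^ (2 * k) := by gcongr
    _ = 2 * C k * U ^ (16 * k) * (X : ℝ) ^ (ε + 2 / 3) := by
        rw [Real.rpow_add X0]; ring
    _ ≤ _ := by gcongr; linarith

/-- the cut points -/
def s1y (y0 M : ℕ) : ℕ → ℕ
  | 0 => y0
  | j + 1 => s1y y0 M j + s1y y0 M j / M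

lemma s1y_mono (y0 M : ℕ) : Monotone (s1y y0 M) :=
  monotone_nat_of_le_succ fun _ => Nat.le_add_right _ _

lemma s1y_grow {y0 M : ℕ} (hM : 0 < M) (h : M ≤ y0) (i : ℕ) : 2 ^ i ≤ s1y y0 M (2 * M * i) := by
  have key : ∀ j t, s1y y0 M j + t * (s1y y0 M j / M) ≤ s1y y0 M (j + t) := by
    intro j t
    induction t with
    | zero => simp
    | succ t ih =>
      have : s1y y0 M j / M ≤ s1y y0 M (j + t) / M :=
        Nat.div_le_div_right (s1y_mono y0 M (Nat.le_add_right _ _))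
      rw [← add_assoc, s1y]
      nlinarith
  induction i with
  | zero => simp only [pow_zero, mul_zero, s1y]; omega
  | succ i ih =>
    have h1 := key (2 * M * i) (2 * M)
    have h2 : M ≤ s1y y0 M (2 * M * i) := h.trans (s1y_mono y0 M (Nat.zero_le _))
    set y := s1y y0 M (2 * M * i)
    have h3 : 1 ≤ y / M := Nat.div_pos h2 hM
    have h4 : y < M * (y / M + 1) := Nat.lt_mul_div_succ y hM
    rw [mul_add, mul_one, pow_succ]
    nlinarith

lemma s1_tail (hM : St_MOM) {η e0 : ℝ} (hη : 0 < η) (he : 0 < e0) : ∃ c : ℝ, 0 < c ∧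
    ∃ X0 : ℕ, ∀ (X y0 Q : ℕ) (h : ℕ → ℝ), X0 ≤ X → (X : ℝ) ^ η ≤ y0 →
      (Q : ℝ) ≤ (X : ℝ) ^ (1 / 3 : ℝ) → (∀ d, y0 < d → d ≤ Q → |h d| ≤ (X : ℝ) ^ c / d) →
      (((Ioc X (2 * X)).filter fun n => ∃ y, y0 ≤ y ∧ y ≤ Q ∧
        ((X : ℝ) ^ c)⁻¹ < |s1T h n y0 y|).card : ℝ) ≤ (X : ℝ) ^ (2 / 3 + e0) / 2 := by
  obtain ⟨K, C, hC0, hB⟩ := s1_block hM hη (ε := e0 / 4) (by positivity)
  set c := min (η / 5) (e0 / (4 * (16 * K + 5))) with hc
  have c0 : 0 < c := lt_min (by positivity) (by positivity)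
  have c1 : 5 * c ≤ η := by linarith [min_le_left (η / 5) (e0 / (4 * (16 * K + 5)))]
  have c2 : c * ((16 * K + 5 : ℕ) : ℝ) ≤ e0 / 4 := by
    have := min_le_right (η / 5) (e0 / (4 * (16 * K + 5)))
    rw [← hc, le_div_iff₀ (by positivity)] at this
    push_cast
    linarith
  obtain ⟨X1, hX1⟩ := s1_ev c0 8
  obtain ⟨X2, hX2⟩ := s1_ev (half_pos he) (2 * C)
  refine ⟨c, c0, max X1 X2, ?_⟩
  intro X y0 Q h hX hy0 hQ hh
  obtain ⟨X2', a1⟩ := hX1 X (le_of_max_le_left hX)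
  obtain ⟨-, a2⟩ := hX2 X (le_of_max_le_right hX)
  have Xg : (1 : ℝ) < X := by exact_mod_cast X2'
  have X0 : (0 : ℝ) < X := by linarith
  have lg := Real.log_nonneg Xg.le
  set U := (X : ℝ) ^ c with hU
  have U8 : 8 ≤ U := by linarith
  have U0 : 0 < U := by linarith
  set M := ⌈U ^ 4⌉₊ with hMd
  have M1 : U ^ 4 ≤ M := Nat.le_ceil _
  have U4 : 1 ≤ U ^ 4 := one_le_pow₀ (by linarith)
  have M2 : (M : ℝ) ≤ 2 * U ^ 4 := by linarith [Nat.ceil_lt_add_one (a := U ^ 4) (by positivity)]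
  have M0 : 0 < M := by exact_mod_cast (by linarith : (0 : ℝ) < M)
  have My : M ≤ y0 := by
    have : U ^ 5 ≤ (X : ℝ) ^ η := by
      rw [hU, ← Real.rpow_natCast, ← Real.rpow_mul X0.le]
      exact Real.rpow_le_rpow_of_exponent_le Xg.le (by push_cast; linarith)
    have h2 : 2 * U ^ 4 ≤ U ^ 5 := by rw [pow_succ U 4]; nlinarith
    exact_mod_cast (by linarith : (M : ℝ) ≤ y0)
  set L := Nat.log 2 X + 1 with hL
  have L1 : X < 2 ^ L := Nat.lt_pow_succ_log_self (by norm_num) X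
  have L2 : 4 * (L : ℝ) ≤ U := by
    have h1 : (2 : ℝ) ^ Nat.log 2 X ≤ X := by
      exact_mod_cast Nat.pow_log_le_self 2 (by omega : X ≠ 0)
    have h2 := Real.log_le_log (by positivity) h1
    rw [Real.log_pow] at h2
    have h3 := Real.log_two_gt_d9
    have h4 : (0 : ℝ) ≤ Nat.log 2 X := Nat.cast_nonneg _
    rw [hL]; push_cast
    nlinarith
  have J5 : ((2 * M * L : ℕ) : ℝ) ≤ U ^ 5 := by
    push_cast
    have : (0 : ℝ) ≤ L := Nat.cast_nonneg _
    rw [pow_succ U 4]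
    nlinarith
  set y := s1y y0 M with hy
  have ymono : Monotone y := s1y_mono y0 M
  have y00 : ∀ j, y0 ≤ y j := fun j => ymono (Nat.zero_le j)
  have ysucc : ∀ j, y (j + 1) = y j + y j / M := fun j => rfl
  have QX : Q ≤ X := by
    have : (X : ℝ) ^ (1 / 3 : ℝ) ≤ X := by
      calc _ ≤ (X : ℝ) ^ (1 : ℝ) := Real.rpow_le_rpow_of_exponent_le Xg.le (by norm_num)
        _ = _ := Real.rpow_one _
    exact_mod_cast hQ.trans this
  have yJ : Q < y (2 * M * L) := by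
    have : 2 ^ L ≤ y (2 * M * L) := s1y_grow M0 My L
    omega
  let b : ℕ → ℕ → ℝ := fun j d => if y j < d ∧ d ≤ y (j + 1) ∧ d ≤ Q then h d else 0
  have hb : ∀ j d, |b j d| ≤ U / y j := by
    intro j d
    have : 0 < y j := by have := y00 j; omega
    simp only [b]
    split_ifs with hd
    · refine (hh d (by have := y00 j; omega) hd.2.2).trans ?_
      gcongr
      exact hd.1.le
    · rw [abs_zero]; positivity
  have hb2 : ∀ j n, y (j + 1) ≤ Q → s1T (b j) n (y j) (2 * y j) = s1T h n (y j) (y (j + 1)) := by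
    intro j n hj
    have h2 : y (j + 1) ≤ 2 * y j := by
      rw [ysucc]; have := Nat.div_le_self (y j) M; omega
    rw [s1_add _ n (ymono (Nat.le_succ j)) h2]
    have : s1T (b j) n (y (j + 1)) (2 * y j) = 0 := sum_eq_zero fun d hd => by
      have := (mem_Ioc.1 (mem_filter.1 hd).1).1
      simp only [b]
      rw [if_neg (by omega), zero_mul]
    rw [this, add_zero]
    refine sum_congr rfl fun d hd => ?_
    have := mem_Ioc.1 (mem_filter.1 hd).1
    simp only [b]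
    rw [if_pos ⟨this.1, this.2, by omega⟩]
  let E : ℕ → Finset ℕ := fun j => (Ioc X (2 * X)).filter fun n =>
    y j ≤ Q ∧ (U ^ 7)⁻¹ < |s1T (b j) n (y j) (2 * y j)|
  have hE : ∀ j, ((E j).card : ℝ) ≤ C * U ^ (16 * K) * (X : ℝ) ^ (e0 / 4 + 2 / 3) := by
    intro j
    by_cases hj : y j ≤ Q
    · refine le_trans ?_ (hB X (y j) U (b j) X2' (by linarith)
        (hy0.trans (by exact_mod_cast y00 j)) (le_trans (by exact_mod_cast hj) hQ) (hb j))
      refine Nat.cast_le.2 (card_le_card fun n hn => ?_)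
      simp only [E, mem_filter] at hn ⊢
      exact ⟨hn.1, hn.2.2⟩
    · have : E j = ∅ := filter_eq_empty_iff.2 fun n _ h => hj h.1
      rw [this, card_empty, Nat.cast_zero]; positivity
  have hsub : ((Ioc X (2 * X)).filter fun n => ∃ y, y0 ≤ y ∧ y ≤ Q ∧ U⁻¹ < |s1T h n y0 y|) ⊆
      (range (2 * M * L)).biUnion E := by
    intro n hn
    obtain ⟨hn1, z, z1, z2, z3⟩ := mem_filter.1 hn
    by_contra hc
    have good : ∀ j < 2 * M * L, y (j + 1) ≤ Q → |s1T h n (y j) (y (j + 1))| ≤ (U ^ 7)⁻¹ := by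
      intro j hj hq
      by_contra h'
      refine hc (mem_biUnion.2 ⟨j, mem_range.2 hj, mem_filter.2
        ⟨hn1, (ymono (Nat.le_succ j)).trans hq, ?_⟩⟩)
      rw [hb2 j n hq]
      exact not_le.1 h'
    have tel : ∀ j, y j ≤ Q → |s1T h n y0 (y j)| ≤ j * (U ^ 7)⁻¹ := by
      intro j
      induction j with
      | zero => intro _; simp [s1T, hy, s1y]
      | succ j ih =>
        intro hq
        have hj : j < 2 * M * L := by
          by_contra h'
          have := ymono (show 2 * M * L ≤ j + 1 by omega)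
          omega
        rw [s1_add h n (y00 j) (ymono (Nat.le_succ j))]
        refine (abs_add_le _ _).trans ?_
        push_cast
        linarith [ih ((ymono (Nat.le_succ j)).trans hq), good j hj hq]
    have hex : ∃ j, z < y (j + 1) := ⟨2 * M * L, by
      have := ymono (Nat.le_add_right (2 * M * L) 1); omega⟩
    have j1 := Nat.find_spec hex
    have j2 : y (Nat.find hex) ≤ z := by
      rcases h0 : Nat.find hex with _ | i
      · exact z1
      · exact not_lt.1 (Nat.find_min hex (by omega))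
    set j := Nat.find hex
    have j3 : j ≤ 2 * M * L := by
      by_contra h'
      have := ymono (show 2 * M * L ≤ j by omega)
      omega
    have yj0 : (0 : ℝ) < y j := by exact_mod_cast (by have := y00 j; omega : 0 < y j)
    have g1 : s1T h n (y j) z = s1T (b j) n (y j) z := sum_congr rfl fun d hd => by
      have := mem_Ioc.1 (mem_filter.1 hd).1
      simp only [b]
      rw [if_pos ⟨this.1, by omega, by omega⟩]
    have g2 := s1_gap (b j) n (y j) z (U / y j) (by positivity) fun d _ => hb j d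
    have g3 : ((z - y j : ℕ) : ℝ) ≤ y j / M := by
      refine le_trans ?_ (Nat.cast_div_le (α := ℝ))
      exact_mod_cast (by rw [ysucc] at j1; omega)
    have g4 : |s1T h n (y j) z| ≤ (U ^ 3)⁻¹ := by
      rw [g1]
      calc _ ≤ _ := g2
        _ ≤ y j / U ^ 4 * (U / y j) := by
            gcongr
            exact g3.trans (by gcongr)
        _ = _ := by field_simp
    have g5 : (j : ℝ) * (U ^ 7)⁻¹ ≤ (U ^ 2)⁻¹ := by
      calc _ ≤ U ^ 5 * (U ^ 7)⁻¹ := by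
            gcongr
            exact le_trans (by exact_mod_cast j3) J5
        _ = _ := by field_simp
    have g6 : (U ^ 2)⁻¹ + (U ^ 3)⁻¹ ≤ U⁻¹ := by
      field_simp
      nlinarith
    rw [s1_add h n (y00 j) j2] at z3
    linarith [abs_add_le (s1T h n y0 (y j)) (s1T h n (y j) z), tel j (j2.trans z2)]
  calc _ ≤ (((range (2 * M * L)).biUnion E).card : ℝ) := by exact_mod_cast card_le_card hsub
    _ ≤ ∑ j ∈ range (2 * M * L), ((E j).card : ℝ) := by exact_mod_cast card_biUnion_le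
    _ ≤ ∑ j ∈ range (2 * M * L), C * U ^ (16 * K) * (X : ℝ) ^ (e0 / 4 + 2 / 3) :=
        sum_le_sum fun j _ => hE j
    _ ≤ U ^ 5 * (C * U ^ (16 * K) * (X : ℝ) ^ (e0 / 4 + 2 / 3)) := by
        rw [sum_const, card_range, nsmul_eq_mul]; gcongr
    _ = C * U ^ (16 * K + 5) * (X : ℝ) ^ (e0 / 4 + 2 / 3) := by ring
    _ ≤ (X : ℝ) ^ (e0 / 2) / 2 * X ^ (e0 / 4) * (X : ℝ) ^ (e0 / 4 + 2 / 3) := by
        gcongr
        · nlinarith
        · rw [hU, ← Real.rpow_natCast, ← Real.rpow_mul X0.le]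
          exact Real.rpow_le_rpow_of_exponent_le Xg.le c2
    _ = _ := by
        rw [div_mul_eq_mul_div, div_mul_eq_mul_div, ← Real.rpow_add X0, ← Real.rpow_add X0]
        congr 2; ring

end Pool.Agent.Lib.PS
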