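import Pool.Agent.Lib.PS.PV
import Pool.Agent.Lib.PS.GAU

/-! Block STR, first part: the complete sums of a character over the values `n - m ^ 2`. -/

namespace Pool.Agent.Lib.PS

open Finset Real Complex ZMod DirichletCharacter
open scoped Classical ComplexConjugate NumberTheorySymbols

/-- the complete sum -/
noncomputable def strG {r : ℕ} [NeZero r] (ψ : DirichletCharacter ℂ r) (n : ZMod r) : ℂ :=
  ∑ m : ZMod r, ψ (n - m ^ 2)

lemma str_crt {R : Type*} [CommSemiring R] {a b : ℕ} [NeZero a] [NeZero b] (h : a.Coprime b)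
    (f : ZMod a → R) (g : ZMod b → R) :
    ∑ m ∈ range (a * b), f m * g m = (∑ x, f x) * ∑ y, g y := by
  have := gau_sum_zmod (a * b) fun x =>
    f (chineseRemainder h x).1 * g (chineseRemainder h x).2
  simp only [map_natCast, Prod.fst_natCast, Prod.snd_natCast] at this
  rw [this, sum_mul_sum, ← Fintype.sum_prod_type']
  exact (chineseRemainder h).toEquiv.sum_comp fun z => f z.1 * g z.2

lemma str_split {a b : ℕ} [NeZero a] [NeZero b] (h : a.Coprime b)
    (ψ : DirichletCharacter ℂ (a * b)) (hψ : ψ.IsPrimitive) :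
    ∃ (ψ1 : DirichletCharacter ℂ a) (ψ2 : DirichletCharacter ℂ b), ψ1.IsPrimitive ∧
      ψ2.IsPrimitive ∧ ∀ k : ℤ, ψ k = ψ1 k * ψ2 k := by
  let e := chineseRemainder h
  let ψ1 : DirichletCharacter ℂ a :=
    { toFun := fun x => ψ (e.symm (x, 1))
      map_one' := by rw [← Prod.one_eq_mk, map_one, map_one]
      map_mul' := fun x y => by rw [← map_mul, ← map_mul, Prod.mk_mul_mk, mul_one]
      map_nonunit' := fun x hx => ψ.map_nonunit fun hu => hx (by
        simpa using (hu.map e).map (RingHom.fst _ _)) }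
  let ψ2 : DirichletCharacter ℂ b :=
    { toFun := fun x => ψ (e.symm (1, x))
      map_one' := by rw [← Prod.one_eq_mk, map_one, map_one]
      map_mul' := fun x y => by rw [← map_mul, ← map_mul, Prod.mk_mul_mk, mul_one]
      map_nonunit' := fun x hx => ψ.map_nonunit fun hu => hx (by
        simpa using (hu.map e).map (RingHom.snd _ _)) }
  have key : ∀ k : ℤ, ψ k = ψ1 k * ψ2 k := fun k => by
    change _ = ψ (e.symm (_, 1)) * ψ (e.symm (1, _))
    rw [← map_mul, ← map_mul, Prod.mk_mul_mk, mul_one, one_mul, ← map_intCast e.symm k]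
    rfl
  have e1 : ψ = changeLevel (dvd_mul_right a b) ψ1 * changeLevel (dvd_mul_left b a) ψ2 := by
    refine MulChar.ext fun u => ?_
    obtain ⟨k, hk⟩ := intCast_surjective (u : ZMod (a * b))
    have hc : IsCoprime k ((a * b : ℕ) : ℤ) :=
      ((coe_int_isUnit_iff_isCoprime k _).1 (hk ▸ u.isUnit)).symm
    rw [MulChar.mul_apply, ← hk, changeLevel_eq_cast_of_dvd' _ _ hc,
      changeLevel_eq_cast_of_dvd' _ _ hc, key]
  have e2 := conductor_mul_dvd_lcm_conductor (changeLevel (dvd_mul_right a b) ψ1)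
    (changeLevel (dvd_mul_left b a) ψ2)
  rw [← e1, hψ, conductor_changeLevel, conductor_changeLevel] at e2
  have e3 := Nat.le_of_dvd (Nat.mul_pos (Nat.pos_of_ne_zero ψ1.conductor_ne_zero)
    (Nat.pos_of_ne_zero ψ2.conductor_ne_zero)) (e2.trans (Nat.lcm_dvd_mul _ _))
  have l1 := Nat.le_of_dvd (NeZero.pos a) ψ1.conductor_dvd_level
  have l2 := Nat.le_of_dvd (NeZero.pos b) ψ2.conductor_dvd_level
  exact ⟨ψ1, ψ2, l1.antisymm (Nat.le_of_mul_le_mul_right (e3.trans (Nat.mul_le_mul_left _ l2))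
    (NeZero.pos b)), l2.antisymm (Nat.le_of_mul_le_mul_left (e3.trans (Nat.mul_le_mul_right _ l1))
    (NeZero.pos a)), key⟩

lemma str_G_mul {a b : ℕ} [NeZero a] [NeZero b] (h : a.Coprime b)
    {ψ : DirichletCharacter ℂ (a * b)} {ψ1 : DirichletCharacter ℂ a} {ψ2 : DirichletCharacter ℂ b}
    (e : ∀ k : ℤ, ψ k = ψ1 k * ψ2 k) (n : ℕ) : strG ψ n = strG ψ1 n * strG ψ2 n := by
  rw [strG, strG, strG, ← str_crt h, ← gau_sum_zmod]
  refine sum_congr rfl fun m _ => ?_
  have := e ((n : ℤ) - (m : ℤ) ^ 2)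
  push_cast at this
  exact this

section
variable {r : ℕ} [NeZero r] (ψ : DirichletCharacter ℂ r)

lemma str_G_sq (n : ZMod r) (t : (ZMod r)ˣ) : strG ψ (n * t ^ 2) = ψ (t ^ 2) * strG ψ n := by
  rw [strG, strG, mul_sum, ← Equiv.sum_comp t.mulRight]
  refine sum_congr rfl fun m _ => ?_
  rw [← map_mul, Units.mulRight_apply]
  congr 1
  ring

lemma str_l2 (hψ : ψ.IsPrimitive) : ∑ n, ‖strG ψ n‖ ^ 2 ≤ 2 * (r : ℝ) ^ 2 := by
  have hr : (0 : ℝ) < r := Nat.cast_pos.2 (NeZero.pos r)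
  have a1 : ∀ a, dft (strG ψ) a = (∑ x, stdAddChar (-a * x ^ 2 + 0 * x)) * dft ψ a := fun a => by
    simp only [dft_apply, strG, smul_eq_mul, mul_sum, sum_mul]
    rw [sum_comm, sum_comm (γ := ZMod r) (f := fun i x => stdAddChar (-a * x ^ 2 + 0 * x) * _)]
    refine sum_congr rfl fun m _ => ?_
    rw [← Equiv.sum_comp (Equiv.addRight (m ^ 2))]
    refine sum_congr rfl fun x _ => ?_
    rw [← mul_assoc, ← AddChar.map_add_eq_mul, Equiv.coe_addRight, add_sub_cancel_right]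
    congr 2
    ring
  have a2 : ∀ a, ‖dft (strG ψ) a‖ ^ 2 ≤ 2 * r * r := fun a => by
    rw [a1, norm_mul, mul_pow]
    by_cases ha : IsUnit a
    · have b := pv_dft_le ψ ψ.map_one ψ.map_mul ψ.norm_le_one (fun x => ψ.map_nonunit) a
      rw [show r.gcd a.val = 1 from ((isUnit_iff_coprime _ _).1 (by simpa using ha)).symm,
        Nat.cast_one, one_mul] at b
      exact mul_le_mul (gau_sq_bound r _ _ ha.neg) b (by positivity) (by positivity)
    · rw [hψ.fourierTransform_eq_inv_mul_gaussSum, MulChar.map_nonunit _ (by simpa using ha)]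
      simp only [zero_mul, norm_zero, ne_eq, OfNat.ofNat_ne_zero, not_false_eq_true, zero_pow,
        mul_zero]
      positivity
  have a3 := sum_le_card_nsmul univ _ _ fun a _ => a2 a
  rw [pv_parseval, card_univ, ZMod.card, nsmul_eq_mul] at a3
  exact (le_of_mul_le_mul_left a3 hr).trans_eq (by ring)

omit [NeZero r] in
lemma str_fib {a a' : ℤ} (hr : r ≠ 0) (h : (r : ℤ) ∣ 8 * (a * (a + 2)))
    (h' : (r : ℤ) ∣ 8 * (a' * (a' + 2))) (e : Int.gcd a r = Int.gcd a' r) :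
    (r : ℤ) ∣ 16 * (a - a') := by
  have d0 : ∀ a : ℤ, 0 < Int.gcd a r := fun a =>
    Int.gcd_pos_of_ne_zero_right _ (by exact_mod_cast hr)
  obtain ⟨α, b, h1, h2, h3⟩ := Int.exists_gcd_one (d0 a)
  obtain ⟨α', b', h1', h2', h3'⟩ := Int.exists_gcd_one (d0 a')
  have d1 : ((Int.gcd a r : ℕ) : ℤ) ≠ 0 := by exact_mod_cast (d0 a).ne'
  rw [← e] at h2' h3'
  generalize ((Int.gcd a r : ℕ) : ℤ) = d at h2 h3 h2' h3' d1
  obtain rfl : b = b' := mul_right_cancel₀ d1 (h3.symm.trans h3')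
  subst h2 h2'
  rw [h3] at h h' ⊢
  have k : ∀ {α : ℤ}, Int.gcd α b = 1 → b * d ∣ 8 * (α * d * (α * d + 2)) →
      b ∣ 8 * (α * d + 2) := fun {α} h1 h =>
    (Int.isCoprime_iff_gcd_eq_one.2 h1).symm.dvd_of_dvd_mul_left
      ((mul_dvd_mul_iff_right d1).1 (h.trans (dvd_of_eq (by ring))))
  have k1 := k h1 h
  have k2 := k h1' h'
  refine (mul_dvd_mul_right (dvd_sub (k1.mul_right (α - α'))
    ((dvd_sub k1 k2).mul_right α)) d).trans (dvd_of_eq (by ring))

lemma str_stab : (univ.filter fun u : ZMod r => 8 * (u ^ 2 - 1) = 0).card ≤ 16 * r.divisors.card := by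
  refine card_le_mul_card_image_of_maps_to (f := fun u : ZMod r => Int.gcd ((u - 1).val : ℤ) r)
    (fun u _ => Nat.mem_divisors.2 ⟨Int.natCast_dvd_natCast.1 (Int.gcd_dvd_right _ _), NeZero.ne r⟩)
    16 fun d _ => ?_
  rcases (filter (fun u : ZMod r => Int.gcd ((u - 1).val : ℤ) r = d)
    (univ.filter fun u : ZMod r => 8 * (u ^ 2 - 1) = 0)).eq_empty_or_nonempty with h | ⟨v, hv⟩
  · rw [h]
    simp
  refine le_trans (card_le_card (fun u hu => ?_)) ((pv_fiber (16 : ℕ) (16 * v)).trans ?_)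
  · simp only [mem_filter, mem_univ, true_and] at hu hv ⊢
    have k : ∀ u : ZMod r, 8 * (u ^ 2 - 1) = 0 →
        (r : ℤ) ∣ 8 * (((u - 1).val : ℤ) * ((u - 1).val + 2)) := fun u hu => by
      rw [← intCast_zmod_eq_zero_iff_dvd]
      push_cast
      rw [natCast_zmod_val]
      linear_combination hu
    have := (intCast_zmod_eq_zero_iff_dvd _ _).2
      (str_fib (NeZero.ne r) (k u hu.1) (k v hv.1) (hu.2.trans hv.2.symm))
    push_cast at this ⊢
    rw [natCast_zmod_val, natCast_zmod_val] at this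
    linear_combination this
  · rw [val_natCast, Nat.gcd_comm, ← Nat.gcd_rec]
    exact Nat.gcd_le_right _ (by norm_num)

lemma str_G_le (hψ : ψ.IsPrimitive) {n : ℕ} (hn : n.gcd r ∣ 8) :
    r.totient * ‖strG ψ n‖ ^ 2 ≤ 32 * r.divisors.card * (r : ℝ) ^ 2 := by
  have a1 : ∑ t : (ZMod r)ˣ, ‖strG ψ (n * t ^ 2)‖ ^ 2 = r.totient * ‖strG ψ n‖ ^ 2 := by
    rw [sum_congr rfl fun t _ => by
      rw [str_G_sq, norm_mul, ← Units.val_pow_eq_pow_val, ψ.unit_norm_eq_one, one_mul]]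
    simp [card_units_eq_totient]
  have a2 : ∀ x : ZMod r, (univ.filter fun t : (ZMod r)ˣ => n * (t : ZMod r) ^ 2 = x).card ≤
      16 * r.divisors.card := fun x => by
    rcases (univ.filter fun t : (ZMod r)ˣ => n * (t : ZMod r) ^ 2 = x).eq_empty_or_nonempty
      with h | ⟨v, hv⟩
    · simp [h]
    refine le_trans (card_le_card_of_injOn (fun t => ((t * v⁻¹ : (ZMod r)ˣ) : ZMod r))
      (fun t ht => ?_) fun t _ t' _ e => mul_right_cancel (Units.ext e)) str_stab
    simp only [coe_filter, mem_filter, mem_univ, true_and, Set.mem_ofPred_eq] at ht hv ⊢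
    obtain ⟨c, hc⟩ := hn
    have b1 : (8 : ZMod r) = (n * Nat.gcdA n r) * c := by
      have := congrArg (Int.cast : ℤ → ZMod r) (Nat.gcd_eq_gcd_ab n r)
      have b2 := congrArg (Nat.cast : ℕ → ZMod r) hc
      push_cast at this b2
      rw [b2, this, natCast_self, zero_mul, add_zero]
    have b3 : (v : ZMod r) * (v⁻¹ : (ZMod r)ˣ) = 1 := v.mul_inv
    rw [b1, Units.val_mul]
    linear_combination (Nat.gcdA n r * c * ((v⁻¹ : (ZMod r)ˣ) : ZMod r) ^ 2) * (ht - hv) +
      (n * Nat.gcdA n r * c * (v * (v⁻¹ : (ZMod r)ˣ) + 1)) * b3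
  rw [← a1, ← sum_fiberwise univ fun t : (ZMod r)ˣ => n * (t : ZMod r) ^ 2]
  calc _ ≤ ∑ x, (16 * r.divisors.card : ℝ) * ‖strG ψ x‖ ^ 2 := sum_le_sum fun x _ => by
        rw [sum_congr rfl fun t ht => by rw [(mem_filter.1 ht).2], sum_const, nsmul_eq_mul]
        exact mul_le_mul_of_nonneg_right (by exact_mod_cast a2 x) (by positivity)
    _ ≤ _ := by
        rw [← mul_sum]
        exact (mul_le_mul_of_nonneg_left (str_l2 ψ hψ) (by positivity)).trans_eq (by ring)

end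

lemma str_zero {p d : ℕ} [NeZero (p * d)] (hp : p.Prime) (ψ : DirichletCharacter ℂ (p * d))
    (hψ : ψ.IsPrimitive) {n : ℕ} (hn : p ∣ n)
    (h : ∀ s : ℤ, ∃ y : ZMod (p * d), y ^ 2 = 1 + s * d) : strG ψ n = 0 := by
  by_contra h0
  have d0 : 0 < d := Nat.pos_of_mul_pos_left (NeZero.pos (p * d))
  have := Nat.le_of_dvd d0 (conductor_dvd_of_mem_conductorSet ψ
    ((factorsThrough_iff_ker_unitsMap (dvd_mul_left d p)).2 fun x hx => ?_))
  · rw [hψ] at this
    nlinarith [hp.two_le]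
  obtain ⟨k, hk⟩ := intCast_surjective (x : ZMod (p * d))
  have a1 : ((k - 1 : ℤ) : ZMod d) = 0 := by
    have := congrArg Units.val (MonoidHom.mem_ker.1 hx)
    rw [unitsMap_val, ← hk, cast_intCast (dvd_mul_left d p)] at this
    push_cast
    rw [this, Units.val_one, sub_self]
  obtain ⟨s, hs⟩ := (intCast_zmod_eq_zero_iff_dvd _ _).1 a1
  obtain ⟨y, hy⟩ := h s
  have a2 : y ^ 2 = x := by
    rw [hy, ← hk, eq_add_of_sub_eq hs]
    push_cast
    ring
  have a3 : IsUnit y := (isUnit_pow_iff two_ne_zero).1 (a2 ▸ x.isUnit)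
  have a4 := str_G_sq ψ n a3.unit
  obtain ⟨c, rfl⟩ := hn
  have a5 : ((p * d : ℕ) : ZMod (p * d)) = 0 := natCast_self _
  rw [a3.unit_spec, show ((p * c : ℕ) : ZMod (p * d)) * y ^ 2 = (p * c : ℕ) by
    push_cast at a5 ⊢
    linear_combination p * c * hy + c * s * a5, a2] at a4
  exact MonoidHom.mem_ker.2 (Units.ext ((mul_eq_right₀ h0).1 a4.symm))

lemma str_prime {p : ℕ} [hp : Fact p.Prime] (ψ : DirichletCharacter ℂ p)
    (hψ : ψ.IsPrimitive) {n : ℕ} (hn : p ∣ n) (h0 : strG ψ n ≠ 0) :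
    (∀ k : ℤ, ψ k = J(k | p)) ∧ ‖strG ψ n‖ = p.totient := by
  have a1 : strG ψ n = ψ (-1) * ∑ m, (ψ ^ 2) m := by
    rw [strG, mul_sum, (natCast_eq_zero_iff _ _).2 hn]
    exact sum_congr rfl fun m _ => by
      rw [MulChar.pow_apply' _ two_ne_zero, ← map_pow, ← map_mul, zero_sub, neg_one_mul]
  have a2 : ψ ^ 2 = 1 := by_contra fun h => h0 (by rw [a1, MulChar.sum_eq_zero_of_ne_one h, mul_zero])
  have a3 : ψ ≠ 1 := fun h => hp.out.one_lt.ne' (hψ.symm.trans ((eq_one_iff_conductor_eq_one).1 h))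
  have a4 : ∀ x : ZMod p, x ≠ 0 → ψ x * ψ x = 1 := fun x hx => by
    rw [← pow_two, ← MulChar.pow_apply' _ two_ne_zero, a2, MulChar.one_apply hx.isUnit]
  have a5 : ∀ x : ZMod p, x ≠ 0 → IsSquare x → ψ x = 1 := by
    rintro _ hx ⟨y, rfl⟩
    rw [map_mul, a4 y (left_ne_zero_of_mul hx)]
  refine ⟨fun k => ?_, ?_⟩
  · rw [← jacobiSym.legendreSym.to_jacobiSym, legendreSym]
    generalize (k : ZMod p) = x
    by_cases hx : x = 0
    · rw [hx, MulChar.map_zero, MulChar.map_zero, Int.cast_zero]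
    by_cases hs : IsSquare x
    · rw [a5 x hx hs, (quadraticChar_one_iff_isSquare hx).2 hs, Int.cast_one]
    obtain ⟨b, hb⟩ := MulChar.ne_one_iff.1 a3
    have b1 : ψ b = -1 := (mul_self_eq_one_iff.1 (a4 b b.ne_zero)).resolve_left hb
    have b2 := quadraticChar_neg_one_iff_not_isSquare.2 hs
    have b3 := quadraticChar_neg_one_iff_not_isSquare.2 (mt (a5 b b.ne_zero) hb)
    have b4 := a5 _ (mul_ne_zero hx b.ne_zero) ((quadraticChar_one_iff_isSquare
      (mul_ne_zero hx b.ne_zero)).1 (by rw [map_mul, b2, b3]; norm_num))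
    rw [map_mul, b1] at b4
    rw [b2]
    push_cast
    linear_combination -b4
  · rw [a1, a2, MulChar.sum_one_eq_card_units, card_units_eq_totient, norm_mul,
      show (-1 : ZMod p) = ((-1 : (ZMod p)ˣ) : ZMod p) from rfl, ψ.unit_norm_eq_one]
    simp

end Pool.Agent.Lib.PS
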