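import Pool.Agent.Lib.PS.Blue

/-! Smooth majorants and smooth sieve profiles. -/

namespace Pool.Agent.Lib.PS

open Real MeasureTheory Filter Topology Set intervalIntegral
open scoped ContDiff

theorem sw_bump (a b : ℝ) {η : ℝ} (hη : 0 < η) : ∃ β : ℝ → ℝ, ContDiff ℝ ∞ β ∧
    (∀ t, 0 ≤ β t ∧ β t ≤ 1) ∧ (∀ t ∈ Icc a b, β t = 1) ∧ ∀ t, t ∉ Ioo (a - η) (b + η) → β t = 0 := by
  refine ⟨fun t => smoothTransition ((t - a + η) / η) * smoothTransition ((b + η - t) / η),
    (smoothTransition.contDiff.comp (by fun_prop)).mul (smoothTransition.contDiff.comp (by fun_prop)),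
    fun t => ⟨mul_nonneg (smoothTransition.nonneg _) (smoothTransition.nonneg _),
      mul_le_one₀ (smoothTransition.le_one _) (smoothTransition.nonneg _)
        (smoothTransition.le_one _)⟩, fun t ht => ?_, fun t ht => ?_⟩
  · beta_reduce
    rw [smoothTransition.one_of_one_le ((one_le_div hη).2 (by linarith [ht.1])),
      smoothTransition.one_of_one_le ((one_le_div hη).2 (by linarith [ht.2])), mul_one]
  · beta_reduce
    rcases not_and_or.1 ht with h | h
    · rw [smoothTransition.zero_of_nonpos (div_nonpos_of_nonpos_of_nonneg (by linarith) hη.le),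
        zero_mul]
    · rw [smoothTransition.zero_of_nonpos (x := (b + η - t) / η)
        (div_nonpos_of_nonpos_of_nonneg (by linarith) hη.le), mul_zero]

theorem sw_poly (r : Polynomial ℝ) : ContDiff ℝ ∞ fun t : ℝ => r.eval t := by
  simpa [Polynomial.coe_aeval_eq_eval] using r.contDiff_aeval (𝕜 := ℝ) ∞

theorem sw_small {C δ : ℝ} (hδ : 0 < δ) {m : ℝ} (hm : 0 < m) :
    ∃ η, 0 < η ∧ η ≤ 1 ∧ η < m ∧ η * C ≤ δ := by
  have h1 : ∀ᶠ η in 𝓝[>] (0 : ℝ), η * C ≤ δ := nhdsWithin_le_nhds
    (((continuous_id.mul continuous_const).tendsto' 0 0 (by simp)).eventually (ge_mem_nhds hδ))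
  obtain ⟨η, h2, h3⟩ := (h1.and (Ioo_mem_nhdsGT (lt_min one_pos hm))).exists
  exact ⟨η, h3.1, (h3.2.trans_le (min_le_left _ _)).le, h3.2.trans_le (min_le_right _ _), h2⟩

theorem sw_le_const {f : ℝ → ℝ} (hf : Continuous f) {a b C : ℝ} (hab : a ≤ b)
    (h : ∀ t ∈ Icc a b, f t ≤ C) : ∫ t in a..b, f t ≤ (b - a) * C := by
  simpa using integral_mono_on hab (hf.intervalIntegrable (μ := volume) a b)
    (continuous_const.intervalIntegrable a b) h

/-- A smooth majorant of a continuous function on an interval. -/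
theorem sw_maj {a b B δ : ℝ} (ha : 0 < a) (hab : a ≤ b) {H Q : ℝ → ℝ} (hH : ContinuousOn H (Icc a b))
    (h0 : ∀ t ∈ Icc a b, 0 ≤ H t) (hQ : Continuous Q) (hB : ∀ t, 0 ≤ t → 0 ≤ Q t ∧ Q t ≤ B)
    (hδ : 0 < δ) : ∃ F : ℝ → ℝ, ContDiff ℝ ∞ F ∧ (∀ t, t ∉ Icc 0 (b + 1) → F t = 0) ∧ F 0 = 0 ∧
      (∀ t, 0 ≤ F t) ∧ (∀ t ∈ Icc a b, H t ≤ F t) ∧
      ∫ t in Ioi (0 : ℝ), F t * Q t ≤ (∫ t in a..b, H t * Q t) + δ := by
  obtain ⟨M, hM⟩ := isCompact_Icc.exists_bound_of_continuousOn hH
  have hB0 : 0 ≤ B := (hB 0 le_rfl).1.trans (hB 0 le_rfl).2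
  obtain ⟨η, hη, hη1, hηa, hηδ⟩ := sw_small (C := 2 * ((M + 2) * B) + (b - a) * (2 * B)) hδ ha
  have hcl : ∀ t, max a (min t b) ∈ Icc a b := fun t =>
    ⟨le_max_left _ _, max_le hab (min_le_right _ _)⟩
  have hc : Continuous fun t => H (max a (min t b)) := hH.comp_continuous (by fun_prop) hcl
  have he : ∀ t ∈ Icc a b, max a (min t b) = t := fun t ht => by
    rw [min_eq_left ht.2, max_eq_right ht.1]
  obtain ⟨r, hr⟩ := exists_polynomial_near_of_continuousOn 0 (b + 1) _ hc.continuousOn η hη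
  obtain ⟨β, b1, b2, b3, b4⟩ := sw_bump a b hη
  have hF : ContDiff ℝ ∞ fun t => β t * (r.eval t + η) := b1.mul ((sw_poly r).add contDiff_const)
  have hout : ∀ t, t ∉ Ioo (a - η) (b + η) → β t * (r.eval t + η) = 0 := fun t ht => by
    rw [b4 t ht, zero_mul]
  have hin : ∀ t ∈ Icc (a - η) (b + η), 0 ≤ β t * (r.eval t + η) ∧
      β t * (r.eval t + η) ≤ H (max a (min t b)) + 2 * η := fun t ht => by
    have h1 := abs_lt.1 (hr t ⟨by linarith [ht.1], by linarith [ht.2]⟩)
    have h2 := h0 _ (hcl t)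
    have h3 : 0 ≤ r.eval t + η := by linarith [h1.1]
    exact ⟨mul_nonneg (b2 t).1 h3, (mul_le_of_le_one_left h3 (b2 t).2).trans (by linarith [h1.2])⟩
  refine ⟨_, hF, fun t ht => hout t fun h => ht ⟨by linarith [h.1], by linarith [h.2]⟩,
    hout 0 fun h => by linarith [h.1], fun t => ?_, fun t ht => ?_, ?_⟩
  · by_cases ht : t ∈ Ioo (a - η) (b + η)
    · exact (hin t (Ioo_subset_Icc_self ht)).1
    · exact (hout t ht).ge
  · have h1 := abs_lt.1 (hr t ⟨by linarith [ht.1], by linarith [ht.2]⟩)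
    rw [he t ht] at h1
    rw [b3 t ht, one_mul]
    linarith [h1.1]
  have hFQ : Continuous fun t => β t * (r.eval t + η) * Q t := hF.continuous.mul hQ
  rw [setIntegral_eq_integral_of_forall_compl_eq_zero fun t ht => by
      rw [hout t fun h => ht (show 0 < t by linarith [h.1]), zero_mul],
    ← integral_eq_integral_of_support_subset (a := a - η) (b := b + η) fun t ht => by
      by_contra h
      exact ht (mul_eq_zero_of_left (hout t fun h' => h (Ioo_subset_Ioc_self h')) _),
    ← integral_add_adjacent_intervals (b := a) (hFQ.intervalIntegrable _ _)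
      (hFQ.intervalIntegrable _ _),
    ← integral_add_adjacent_intervals (a := a) (b := b) (hFQ.intervalIntegrable _ _)
      (hFQ.intervalIntegrable _ _)]
  have hside : ∀ t ∈ Icc (a - η) (b + η), β t * (r.eval t + η) * Q t ≤ (M + 2) * B := fun t ht => by
    have h1 := hB t (by linarith [ht.1])
    have h2 := (le_abs_self _).trans (hM _ (hcl t))
    exact mul_le_mul (by linarith [(hin t ht).2]) h1.2 h1.1 (by linarith [h0 _ (hcl t)])
  have h1 := sw_le_const hFQ (a := a - η) (b := a) (by linarith) fun t ht =>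
    hside t ⟨ht.1, by linarith [ht.2]⟩
  have h2 := sw_le_const hFQ (a := b) (b := b + η) (by linarith) fun t ht =>
    hside t ⟨by linarith [ht.1], ht.2⟩
  have hi : IntervalIntegrable (fun t => H t * Q t) volume a b :=
    (hH.mul hQ.continuousOn).intervalIntegrable_of_Icc hab
  have h3 := integral_mono_on hab (hFQ.intervalIntegrable (μ := volume) a b)
    (hi.add (continuous_const.intervalIntegrable a b)) (g := fun t => H t * Q t + η * (2 * B))
    fun t ht => by
      have h4 := hB t (by linarith [ht.1])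
      have h5 := (hin t ⟨by linarith [ht.1], by linarith [ht.2]⟩).2
      rw [he t ht] at h5
      nlinarith [mul_le_mul_of_nonneg_right h5 h4.1]
  rw [integral_add hi (continuous_const.intervalIntegrable a b), intervalIntegral.integral_const,
    smul_eq_mul] at h3
  nlinarith

/-- A smooth density close to a continuous one. -/
theorem sw_dens {u v δ : ℝ} (huv : u < v) {p : ℝ → ℝ} (hp : ContinuousOn p (Icc u v))
    (h1 : ∫ s in u..v, p s = 1) (hδ : 0 < δ) : ∃ q : ℝ → ℝ, ContDiff ℝ ∞ q ∧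
      (∀ t, t ∉ Ioo u v → q t = 0) ∧ ∫ s in u..v, q s = 1 ∧ ∀ t ∈ Icc u v, q t ^ 2 ≤ p t ^ 2 + δ := by
  obtain ⟨M, hM⟩ := isCompact_Icc.exists_bound_of_continuousOn hp
  have hM0 : 0 ≤ M := (norm_nonneg _).trans (hM u ⟨le_rfl, huv.le⟩)
  set C := (v - u) + 2 * (M + 1) with hC
  have hC0 : 0 < C := by rw [hC]; linarith
  obtain ⟨η, hη, hη1, hηa, hηδ⟩ := sw_small (C := 4 * (2 * M + 1) + 8 * C * M ^ 2) hδ
    (lt_min (half_pos (sub_pos.2 huv)) (show 0 < 1 / (2 * C) by positivity))
  rw [lt_min_iff, lt_div_iff₀ (by positivity : 0 < 2 * C)] at hηa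
  obtain ⟨r, hr⟩ := exists_polynomial_near_of_continuousOn u v _ hp η hη
  obtain ⟨β, b1, b2, b3, b4⟩ := sw_bump (u + η) (v - η) hη
  simp only [add_sub_cancel_right, sub_add_cancel] at b4
  have hF : ContDiff ℝ ∞ fun t => β t * r.eval t := b1.mul (sw_poly r)
  have hpi : IntervalIntegrable p volume u v := hp.intervalIntegrable_of_Icc huv.le
  have hI : |(∫ s in u..v, β s * r.eval s) - 1| ≤ η * C := by
    have hc : Continuous fun t => (1 - β t) * r.eval t :=
      (continuous_const.sub b1.continuous).mul r.continuous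
    have e : (∫ s in u..v, β s * r.eval s) - 1 =
        (∫ s in u..v, (r.eval s - p s)) - ∫ s in u..v, (1 - β s) * r.eval s := by
      conv_lhs => rw [← h1]
      rw [← integral_sub (hF.continuous.intervalIntegrable _ _) hpi,
        ← integral_sub ((r.continuous.intervalIntegrable _ _).sub hpi) (hc.intervalIntegrable _ _)]
      exact integral_congr fun s _ => by ring
    have h2 := norm_integral_le_of_norm_le_const (a := u) (b := v) (C := η)
      (f := fun s => r.eval s - p s) fun s hs => by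
        rw [uIoc_of_le huv.le] at hs
        exact (hr s (Ioc_subset_Icc_self hs)).le
    have h3 : ∀ a b, u ≤ a → a ≤ b → b ≤ v →
        ‖∫ s in a..b, (1 - β s) * r.eval s‖ ≤ (M + 1) * |b - a| := fun a b h3 h4 h5 =>
      norm_integral_le_of_norm_le_const fun s hs => by
        rw [uIoc_of_le h4] at hs
        have h6 : s ∈ Icc u v := ⟨h3.trans hs.1.le, hs.2.trans h5⟩
        have h7 := abs_sub_abs_le_abs_sub (r.eval s) (p s)
        have h8 := hM s h6
        rw [norm_mul, Real.norm_of_nonneg (sub_nonneg.2 (b2 s).2), Real.norm_eq_abs] at *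
        exact (mul_le_of_le_one_left (abs_nonneg _) (by linarith [(b2 s).1])).trans
          (by linarith [hr s h6])
    have h4 := h3 u (u + η) le_rfl (by linarith) (by linarith [hηa.1])
    have h5 := h3 (v - η) v (by linarith [hηa.1]) (by linarith) le_rfl
    have h6 : ∫ s in (u + η)..(v - η), (1 - β s) * r.eval s = 0 := by
      rw [integral_congr (g := fun _ => 0) fun s hs => by
        rw [uIcc_of_le (by linarith [hηa.1])] at hs
        simp [b3 s hs]]
      simp
    rw [e, ← integral_add_adjacent_intervals (b := u + η) (hc.intervalIntegrable _ _)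
      (hc.intervalIntegrable _ _), ← integral_add_adjacent_intervals (a := u + η) (b := v - η)
      (hc.intervalIntegrable _ _) (hc.intervalIntegrable _ _), h6, zero_add]
    rw [add_sub_cancel_left, abs_of_pos hη] at h4
    rw [sub_sub_cancel, abs_of_pos hη] at h5
    rw [abs_of_pos (sub_pos.2 huv)] at h2
    rw [Real.norm_eq_abs] at h2 h4 h5
    refine (abs_sub _ _).trans ((add_le_add h2 ((abs_add_le _ _).trans (add_le_add h4 h5))).trans
      (le_of_eq ?_))
    rw [hC]; ring
  set J := ∫ s in u..v, β s * r.eval s with hJ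
  have hJ1 := (abs_le.1 hI).1
  have hJ2 : 1 / 2 ≤ J := by linarith [hηa.2]
  refine ⟨fun t => β t * r.eval t / J, hF.div_const J, fun t ht => by simp [b4 t ht], ?_,
    fun t ht => ?_⟩
  · rw [intervalIntegral.integral_div, ← hJ, div_self (by linarith)]
  · have h2 := hM t ht
    have h3 := abs_sub_abs_le_abs_sub (r.eval t) (p t)
    have h4 := hr t ht
    rw [Real.norm_eq_abs] at h2
    have h5 : (β t * r.eval t) ^ 2 ≤ p t ^ 2 + η * (2 * M + 1) := by
      have h6 : |β t * r.eval t| ≤ |p t| + η := by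
        rw [abs_mul, abs_of_nonneg (b2 t).1]
        exact (mul_le_of_le_one_left (abs_nonneg _) (b2 t).2).trans (by linarith)
      rw [← sq_abs, ← sq_abs (p t)]
      nlinarith [pow_le_pow_left₀ (abs_nonneg _) h6 2, abs_nonneg (p t)]
    have h6 : p t ^ 2 ≤ M ^ 2 := by rw [← sq_abs]; gcongr
    have h7 : 1 - 2 * (η * C) ≤ J ^ 2 := by nlinarith [mul_pos hη hC0]
    rw [div_pow, div_le_iff₀ (by positivity)]
    have h8 : 1 / 4 ≤ J ^ 2 := by nlinarith
    have h9 : p t ^ 2 * (1 - 2 * (η * C)) ≤ p t ^ 2 * J ^ 2 := by gcongr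
    have h10 : p t ^ 2 * (η * C) ≤ M ^ 2 * (η * C) := by gcongr
    nlinarith

/-- The smooth sieve profile. -/
theorem sw_prof {u v δ : ℝ} (hu : 0 ≤ u) (huv : u < v) {p : ℝ → ℝ} (hp : ContinuousOn p (Icc u v))
    (h1 : ∫ s in u..v, p s = 1) (hδ : 0 < δ) : ∃ P : ℝ → ℝ, ContDiff ℝ ∞ P ∧ HasCompactSupport P ∧
      (∀ t ∈ Icc 0 u, P t = 1) ∧ (∀ t, v ≤ t → P t = 0) ∧
      ∀ t, u ≤ t → ∫ s in (0 : ℝ)..t, deriv P s ^ 2 ≤ (∫ s in u..min t v, p s ^ 2) + δ := by
  obtain ⟨q, q1, q2, q3, q4⟩ := sw_dens huv hp h1 (div_pos hδ (sub_pos.2 huv))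
  obtain ⟨β, b1, -, b3, b4⟩ := sw_bump (-1) (v + 1) one_pos
  have hq := q1.continuous
  have hd : ∀ t, HasDerivAt (fun t => ∫ s in v..t, q s) (q t) t := fun t =>
    (hq.integral_hasStrictDerivAt v t).hasDerivAt
  have hz : ∀ a b, a ≤ b → b ≤ u ∨ v ≤ a → ∀ f : ℝ → ℝ, f 0 = 0 → ∫ s in a..b, f (q s) = 0 :=
    fun a b hab h f hf => by
      rw [integral_congr (g := fun _ => 0) fun s hs => by
        rw [uIcc_of_le hab] at hs
        beta_reduce
        rw [q2 s fun h' => by rcases h with h | h <;> linarith [hs.1, hs.2, h'.1, h'.2], hf]]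
      simp
  have hR : ContDiff ℝ ∞ fun t => ∫ s in v..t, q s :=
    contDiff_infty_iff_deriv.2 ⟨fun t => (hd t).differentiableAt, by
      rw [show deriv (fun t => ∫ s in v..t, q s) = q from funext fun t => (hd t).deriv]; exact q1⟩
  have hv : ∀ t, v ≤ t → β t * -∫ s in v..t, q s = 0 := fun t ht => by
    rw [hz v t ht (Or.inr le_rfl) (fun x => x) rfl, neg_zero, mul_zero]
  refine ⟨fun t => β t * -∫ s in v..t, q s, b1.mul hR.neg,
    HasCompactSupport.intro (isCompact_Icc (a := -2) (b := v)) fun t ht => ?_, fun t ht => ?_, hv,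
    fun t ht => ?_⟩
  · rcases not_and_or.1 ht with h | h
    · rw [b4 t fun h' => h (by linarith [h'.1]), zero_mul]
    · exact hv t (not_le.1 h).le
  · beta_reduce
    rw [b3 t ⟨by linarith [ht.1], by linarith [ht.2]⟩, one_mul, ← integral_symm,
      ← integral_add_adjacent_intervals (b := u) (hq.intervalIntegrable _ _)
      (hq.intervalIntegrable _ _), hz t u ht.2 (Or.inl le_rfl) (fun x => x) rfl, q3, zero_add]
  have hm : u ≤ min t v := le_min ht huv.le
  have hq2 : Continuous fun s => q s ^ 2 := hq.pow 2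
  rw [integral_congr (g := fun s => q s ^ 2) fun s hs => by
    rw [uIcc_of_le (hu.trans ht)] at hs
    have h2 : (fun t => β t * -∫ s in v..t, q s) =ᶠ[𝓝 s] fun t => -∫ s in v..t, q s := by
      filter_upwards [Ioi_mem_nhds (show -1 < s by linarith [hs.1])] with x hx
      rcases le_total x v with h | h
      · rw [b3 x ⟨le_of_lt hx, by linarith⟩, one_mul]
      · rw [hv x h, hz v x h (Or.inr le_rfl) (fun x => x) rfl, neg_zero]
    beta_reduce
    rw [h2.deriv_eq, (hd s).fun_neg.deriv, neg_sq],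
    ← integral_add_adjacent_intervals (b := u) (hq2.intervalIntegrable _ _)
      (hq2.intervalIntegrable _ _), hz 0 u hu (Or.inl le_rfl) (fun x => x ^ 2) (by simp), zero_add,
    ← integral_add_adjacent_intervals (b := min t v) (hq2.intervalIntegrable _ _)
      (hq2.intervalIntegrable _ _)]
  have h2 : ∫ s in min t v..t, q s ^ 2 = 0 := by
    rcases le_total t v with h | h
    · simp [min_eq_left h]
    · rw [min_eq_right h]; exact hz v t h (Or.inr le_rfl) (fun x => x ^ 2) (by simp)
  have hi : IntervalIntegrable (fun s => p s ^ 2) volume u (min t v) :=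
    ((hp.mono (Icc_subset_Icc_right (min_le_right _ _))).pow 2).intervalIntegrable_of_Icc hm
  have h3 := integral_mono_on hm (hq2.intervalIntegrable (μ := volume) _ _)
    (hi.add (continuous_const.intervalIntegrable _ _))
    fun s hs => q4 s ⟨hs.1, hs.2.trans (min_le_right _ _)⟩
  rw [integral_add hi (continuous_const.intervalIntegrable _ _), intervalIntegral.integral_const,
    smul_eq_mul] at h3
  have h4 : (min t v - u) * (δ / (v - u)) ≤ δ := by
    rw [mul_div_assoc', div_le_iff₀ (sub_pos.2 huv), mul_comm]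
    gcongr
    exact min_le_right _ _
  linarith

end Pool.Agent.Lib.PS
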