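import Pool.Agent.Lib.PS.Blue

/-! Exponential sums, Parseval, and the window averaging for the variance bound. -/

namespace Pool.Agent.Lib.PS

open Finset Real Complex
open scoped Classical ComplexConjugate

lemma var_ee_add (x y : ℝ) : ee (x + y) = ee x * ee y := by
  unfold ee
  rw [← Complex.exp_add]
  congr 1
  push_cast
  ring

lemma var_ee_zero : ee 0 = 1 := by simp [ee]

lemma var_norm_ee (x : ℝ) : ‖ee x‖ = 1 := by
  unfold ee
  have : (2 * π * I * x : ℂ) = ((2 * π * x : ℝ) : ℂ) * I := by push_cast; ring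
  rw [this, Complex.norm_exp_ofReal_mul_I]

lemma var_ee_int (k : ℤ) : ee k = 1 := by
  unfold ee
  have : (2 * π * I * ((k : ℝ) : ℂ) : ℂ) = k * (2 * π * I) := by push_cast; ring
  rw [this, Complex.exp_int_mul_two_pi_mul_I]

lemma var_conj_ee (x : ℝ) : conj (ee x) = ee (-x) := by
  unfold ee
  rw [← Complex.exp_conj]
  congr 1
  simp [Complex.conj_ofReal, map_ofNat]

lemma var_ee_nat_mul (n : ℕ) (x : ℝ) : ee (n * x) = ee x ^ n := by
  induction n with
  | zero => simp [var_ee_zero]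
  | succ n ih => rw [pow_succ, ← ih, ← var_ee_add]; congr 1; push_cast; ring

/-- `θ` is at distance at least `δ` from the integers -/
def VarFar (θ δ : ℝ) : Prop := ∀ k : ℤ, δ ≤ |θ - k|

lemma var_sub_one {θ δ : ℝ} (h : VarFar θ δ) : 4 * δ ≤ ‖ee θ - 1‖ := by
  have h1 : ee θ = ee (θ - round θ) := by
    have : θ = (θ - round θ) + (round θ : ℤ) := by ring
    conv_lhs => rw [this, var_ee_add, var_ee_int, mul_one]
  set y := θ - round θ with hy
  have h2 : |y| ≤ 1 / 2 := abs_sub_round θ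
  have h3 : δ ≤ |y| := h _
  have h4 : ee y = cexp (I * ((2 * π * y : ℝ) : ℂ)) := by
    unfold ee
    congr 1
    push_cast
    ring
  rw [h1, h4, Complex.norm_exp_I_mul_ofReal_sub_one]
  have h5 : 2 * π * y / 2 = π * y := by ring
  have h6 : |π * y| ≤ π / 2 := by
    rw [abs_mul, abs_of_pos pi_pos]
    nlinarith [pi_pos]
  have h7 := Real.mul_abs_le_abs_sin h6
  rw [h5, Real.norm_eq_abs, abs_mul, abs_two]
  rw [abs_mul, abs_of_pos pi_pos] at h7
  have h8 : 2 / π * (π * |y|) = 2 * |y| := by field_simp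
  linarith

lemma var_tel (θ : ℝ) (u v : ℕ) (h : u ≤ v) :
    (ee θ - 1) * ∑ x ∈ Ioc u v, ee (x * θ) = ee ((v + 1) * θ) - ee ((u + 1) * θ) := by
  induction v, h using Nat.le_induction with
  | base => simp
  | succ v hv ih =>
    rw [Finset.sum_Ioc_succ_top hv, mul_add, ih]
    have : ee ((((v + 1 : ℕ) : ℝ) + 1) * θ) = ee θ * ee (((v + 1 : ℕ) : ℝ) * θ) := by
      rw [← var_ee_add]; congr 1; ring
    rw [this]
    push_cast
    ring

lemma var_geo {θ δ : ℝ} (hδ : 0 < δ) (h : VarFar θ δ) (u v : ℕ) :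
    ‖∑ x ∈ Ioc u v, ee (x * θ)‖ ≤ 1 / (2 * δ) := by
  rcases le_or_gt u v with huv | huv
  · have h1 := var_sub_one h
    have h2 : ‖ee θ - 1‖ * ‖∑ x ∈ Ioc u v, ee (x * θ)‖ ≤ 2 := by
      rw [← norm_mul, var_tel θ u v huv]
      refine (norm_sub_le _ _).trans ?_
      rw [var_norm_ee, var_norm_ee]
      norm_num
    rw [le_div_iff₀ (by positivity)]
    nlinarith [norm_nonneg (∑ x ∈ Ioc u v, ee (x * θ))]
  · rw [Finset.Ioc_eq_empty (by omega)]
    simp only [Finset.sum_empty, norm_zero]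
    positivity

lemma var_orth (N x y : ℕ) (hx : x < N) (hy : y < N) :
    ∑ k ∈ range N, ee (x * (k / N)) * conj (ee (y * (k / N))) = if x = y then (N : ℂ) else 0 := by
  have hN : (0 : ℝ) < N := by exact_mod_cast (by omega : 0 < N)
  have h1 : ∀ k : ℕ, ee (x * (k / N)) * conj (ee (y * (k / N))) = ee (((x : ℝ) - y) / N) ^ k := by
    intro k
    rw [var_conj_ee, ← var_ee_add, ← var_ee_nat_mul]
    congr 1
    ring
  simp only [h1]
  split_ifs with hxy
  · subst hxy
    simp [var_ee_zero]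
  · have hfar : VarFar (((x : ℝ) - y) / N) (1 / N) := by
      intro k
      have h2 : ((x : ℝ) - y) / N - k = ((x - y - k * N : ℤ) : ℝ) / N := by
        push_cast
        field_simp
      rw [h2, abs_div, abs_of_pos hN]
      apply div_le_div_of_nonneg_right _ hN.le
      have h3 : (x - y - k * N : ℤ) ≠ 0 := by
        intro h0
        have h4 : (x : ℤ) - y = k * N := by linarith
        rcases lt_trichotomy k 0 with hk | hk | hk
        · have : k * N ≤ -1 * N := mul_le_mul_of_nonneg_right (by omega) (by positivity)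
          omega
        · subst hk
          omega
        · have : 1 * (N : ℤ) ≤ k * N := mul_le_mul_of_nonneg_right (by omega) (by positivity)
          omega
      exact_mod_cast Int.one_le_abs h3
    have hne : ee (((x : ℝ) - y) / N) ≠ 1 := by
      intro h0
      have := var_sub_one hfar
      rw [h0, sub_self, norm_zero] at this
      have : 0 < 4 * (1 / (N : ℝ)) := by positivity
      linarith
    rw [geom_sum_eq hne, ← var_ee_nat_mul]
    have : (N : ℝ) * (((x : ℝ) - y) / N) = ((x - y : ℤ) : ℝ) := by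
      push_cast
      field_simp
    rw [this, var_ee_int]
    simp

lemma var_parseval (N : ℕ) (S : Finset ℕ) (hS : ∀ x ∈ S, x < N) (c : ℕ → ℝ) :
    ∑ k ∈ range N, ‖∑ x ∈ S, (c x : ℂ) * ee (x * (k / N))‖ ^ 2 = N * ∑ x ∈ S, c x ^ 2 := by
  have h1 : ∀ k : ℕ, ((‖∑ x ∈ S, (c x : ℂ) * ee (x * (k / N))‖ ^ 2 : ℝ) : ℂ) =
      ∑ x ∈ S, ∑ y ∈ S, (c x * c y : ℂ) * (ee (x * (k / N)) * conj (ee (y * (k / N)))) := by
    intro k
    rw [Complex.ofReal_pow, ← Complex.mul_conj', map_sum, Finset.sum_mul_sum]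
    refine Finset.sum_congr rfl fun x _ => Finset.sum_congr rfl fun y _ => ?_
    rw [map_mul, Complex.conj_ofReal]
    ring
  apply Complex.ofReal_injective
  rw [Complex.ofReal_sum]
  simp only [h1]
  rw [Finset.sum_comm]
  push_cast
  rw [Finset.mul_sum]
  refine Finset.sum_congr rfl fun x hx => ?_
  rw [Finset.sum_comm]
  have h2 : ∀ y ∈ S, ∑ k ∈ range N, (c x * c y : ℂ) * (ee (x * (k / N)) * conj (ee (y * (k / N))))
      = if x = y then (c x * c y : ℂ) * N else 0 := by
    intro y hy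
    rw [← Finset.mul_sum, var_orth N x y (hS x hx) (hS y hy)]
    split_ifs <;> simp
  rw [Finset.sum_congr rfl h2, Finset.sum_ite_eq, if_pos hx]
  ring

/-- The averaging over windows. -/
lemma var_reduce (X Y : ℕ) (hY : 1 ≤ Y) (hX : 4 * Y ≤ X) (a E : ℕ → ℝ) (B : ℝ)
    (hB : ∀ α : ℝ, ∑ t ∈ range (2 * X), ‖∑ x ∈ win X Y t, (E x : ℂ) * ee (x * α)‖ ^ 2 ≤ B) :
    Y * ∑ n ∈ Ioc X (2 * X), (∑ p ∈ Ico Y (2 * Y), a p * E (n - p)) ^ 2
      ≤ B * ∑ p ∈ Ico Y (2 * Y), a p ^ 2 := by
  set N := 4 * X with hN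
  have hN0 : (0 : ℝ) < N := by exact_mod_cast (by omega : 0 < N)
  set F : ℕ → ℕ → ℝ := fun t n =>
    ∑ z ∈ (Ico Y (2 * Y) ×ˢ win X Y t).filter (fun z => z.1 + z.2 = n), a z.1 * E z.2 with hF
  have hwin : ∀ t x, x ∈ win X Y t ↔ (t < x ∧ x ≤ t + 2 * Y) ∧ X / 2 < x ∧ x ≤ 2 * X := by
    intro t x
    simp [win, Finset.mem_inter, Finset.mem_Ioc]
  have hFhat : ∀ (t : ℕ) (α : ℝ), ∑ n ∈ range N, (F t n : ℂ) * ee (n * α) =
      (∑ p ∈ Ico Y (2 * Y), (a p : ℂ) * ee (p * α)) *
        ∑ x ∈ win X Y t, (E x : ℂ) * ee (x * α) := by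
    intro t α
    rw [Finset.sum_mul_sum, ← Finset.sum_product', ← Finset.sum_fiberwise_of_maps_to
      (s := Ico Y (2 * Y) ×ˢ win X Y t) (t := range N) (g := fun z => z.1 + z.2)]
    · refine Finset.sum_congr rfl fun n _ => ?_
      simp only [hF]
      push_cast
      rw [Finset.sum_mul]
      refine Finset.sum_congr rfl fun z hz => ?_
      rw [← (Finset.mem_filter.mp hz).2]
      have : ee (((z.1 + z.2 : ℕ) : ℝ) * α) = ee (z.1 * α) * ee (z.2 * α) := by
        rw [← var_ee_add]; congr 1; push_cast; ring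
      rw [this]
      ring
    · intro z hz
      obtain ⟨h1, h2⟩ := Finset.mem_product.mp hz
      rw [hwin] at h2
      rw [Finset.mem_Ico] at h1
      rw [Finset.mem_range]
      omega
  have hFval : ∀ n ∈ Ioc X (2 * X), ∀ t ∈ Ico (n - 3 * Y) (n - 2 * Y),
      F t n = ∑ p ∈ Ico Y (2 * Y), a p * E (n - p) := by
    intro n hn t ht
    rw [Finset.mem_Ioc] at hn
    rw [Finset.mem_Ico] at ht
    simp only [hF]
    symm
    apply Finset.sum_bij (fun p _ => (p, n - p))
    · intro p hp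
      rw [Finset.mem_filter, Finset.mem_product, hwin]
      have := Finset.mem_Ico.mp hp
      refine ⟨⟨hp, ?_⟩, ?_⟩ <;> simp only <;> omega
    · intro p _ p' _ h
      exact (Prod.ext_iff.mp h).1
    · intro z hz
      obtain ⟨h1, h2⟩ := Finset.mem_filter.mp hz
      refine ⟨z.1, (Finset.mem_product.mp h1).1, ?_⟩
      ext
      · rfl
      · simp only
        omega
    · intro p _
      rfl
  have h1 : Y * ∑ n ∈ Ioc X (2 * X), (∑ p ∈ Ico Y (2 * Y), a p * E (n - p)) ^ 2
      ≤ ∑ t ∈ range (2 * X), ∑ n ∈ range N, F t n ^ 2 := by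
    rw [Finset.sum_comm, Finset.mul_sum]
    calc ∑ n ∈ Ioc X (2 * X), (Y : ℝ) * (∑ p ∈ Ico Y (2 * Y), a p * E (n - p)) ^ 2
        ≤ ∑ n ∈ Ioc X (2 * X), ∑ t ∈ range (2 * X), F t n ^ 2 := by
          refine Finset.sum_le_sum fun n hn => ?_
          have hn' := Finset.mem_Ioc.mp hn
          have h2 : ∑ t ∈ Ico (n - 3 * Y) (n - 2 * Y), F t n ^ 2 =
              (Y : ℝ) * (∑ p ∈ Ico Y (2 * Y), a p * E (n - p)) ^ 2 := by
            rw [Finset.sum_congr rfl fun t ht => by rw [hFval n hn t ht], Finset.sum_const,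
              Nat.card_Ico, nsmul_eq_mul]
            congr 2
            omega
          rw [← h2]
          apply Finset.sum_le_sum_of_subset_of_nonneg
          · intro t ht
            rw [Finset.mem_Ico] at ht
            rw [Finset.mem_range]
            omega
          · intro _ _ _
            positivity
      _ ≤ _ := by
          apply Finset.sum_le_sum_of_subset_of_nonneg
          · intro n hn
            rw [Finset.mem_Ioc] at hn
            rw [Finset.mem_range]
            omega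
          · intro _ _ _
            positivity
  refine h1.trans (le_of_mul_le_mul_left ?_ hN0)
  have h3 : ∀ t, (N : ℝ) * ∑ n ∈ range N, F t n ^ 2 = ∑ k ∈ range N,
      ‖∑ p ∈ Ico Y (2 * Y), (a p : ℂ) * ee (p * (k / N))‖ ^ 2 *
        ‖∑ x ∈ win X Y t, (E x : ℂ) * ee (x * (k / N))‖ ^ 2 := by
    intro t
    rw [← var_parseval N (range N) (fun x hx => Finset.mem_range.mp hx)]
    refine Finset.sum_congr rfl fun k _ => ?_
    rw [hFhat, norm_mul, mul_pow]
  rw [Finset.mul_sum]
  simp only [h3]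
  rw [Finset.sum_comm, mul_left_comm, ← var_parseval N (Ico Y (2 * Y))
    (fun x hx => by have := Finset.mem_Ico.mp hx; omega), Finset.mul_sum]
  refine Finset.sum_le_sum fun k _ => ?_
  rw [← Finset.mul_sum, mul_comm B]
  exact mul_le_mul_of_nonneg_left (hB _) (by positivity)

end Pool.Agent.Lib.PS
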