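import Pool.Agent.Lib.PS.Blue

/-!
Vaughan mean value, part one: separation of variables, Abel summation, sums of type one.
-/

namespace Pool.Agent.Lib.PS

open Finset Real MeasureTheory Complex
open scoped Classical ComplexConjugate

/-- the Fourier data of the weight -/
structure vau_FD (om φ : ℝ → ℂ) (A : ℝ) : Prop where
  i0 : Integrable φ
  i1 : Integrable (fun y : ℝ => (y : ℂ) * φ y)
  bd : (∫ y : ℝ, (1 + |y|) * ‖φ y‖) ≤ A
  rep : ∀ u : ℝ, om u = ∫ y : ℝ, φ y * cexp (-(I * y * u))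

lemma vau_norm_cexp (y u : ℝ) : ‖cexp (-(I * y * u))‖ = 1 := by
  have : -(I * (y : ℂ) * (u : ℂ)) = ((-(y * u) : ℝ) : ℂ) * I := by push_cast; ring
  rw [this, Complex.norm_exp_ofReal_mul_I]

lemma vau_FD.int {om φ : ℝ → ℂ} {A : ℝ} (h : vau_FD om φ A) :
    Integrable (fun y : ℝ => (1 + |y|) * ‖φ y‖) := by
  have := h.i0.norm.add h.i1.norm
  refine this.congr (Filter.Eventually.of_forall fun y => ?_)
  simp only [Pi.add_apply, norm_mul, Complex.norm_real, Real.norm_eq_abs]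
  ring

lemma vau_FD.nonneg {om φ : ℝ → ℂ} {A : ℝ} (h : vau_FD om φ A) : 0 ≤ A :=
  le_trans (integral_nonneg fun y => by positivity) h.bd

lemma vau_FD.sep {om φ : ℝ → ℂ} {A : ℝ} (h : vau_FD om φ A) {ι : Type} (s : Finset ι)
    (c : ι → ℂ) (u : ι → ℝ) (D : ℝ) (hD0 : 0 ≤ D)
    (hD : ∀ y : ℝ, ‖∑ i ∈ s, c i * cexp (-(I * y * u i))‖ ≤ (1 + |y|) * D) :
    ‖∑ i ∈ s, c i * om (u i)‖ ≤ A * D := by
  have hint : ∀ i ∈ s, Integrable (fun y : ℝ => c i * (φ y * cexp (-(I * y * u i)))) := by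
    intro i _
    refine Integrable.const_mul ?_ _
    refine h.i0.mul_bdd (c := 1) ?_ (Filter.Eventually.of_forall fun y => ?_)
    · exact Continuous.aestronglyMeasurable (by fun_prop)
    · exact (vau_norm_cexp y (u i)).le
  have e1 : ∑ i ∈ s, c i * om (u i)
      = ∫ y : ℝ, ∑ i ∈ s, c i * (φ y * cexp (-(I * y * u i))) := by
    rw [integral_finsetSum _ hint]
    refine sum_congr rfl fun i _ => ?_
    rw [h.rep, integral_const_mul]
  rw [e1]
  have h2 : ‖∫ y : ℝ, ∑ i ∈ s, c i * (φ y * cexp (-(I * y * u i)))‖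
      ≤ ∫ y : ℝ, (1 + |y|) * ‖φ y‖ * D := by
    refine norm_integral_le_of_norm_le (h.int.mul_const D)
      (Filter.Eventually.of_forall fun y => ?_)
    have : ∑ i ∈ s, c i * (φ y * cexp (-(I * y * u i)))
        = φ y * ∑ i ∈ s, c i * cexp (-(I * y * u i)) := by
      rw [mul_sum]; exact sum_congr rfl fun i _ => by ring
    rw [this, norm_mul]
    calc ‖φ y‖ * ‖∑ i ∈ s, c i * cexp (-(I * y * u i))‖ ≤ ‖φ y‖ * ((1 + |y|) * D) :=
          mul_le_mul_of_nonneg_left (hD y) (norm_nonneg _)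
      _ = _ := by ring
  rw [integral_mul_const] at h2
  exact h2.trans (mul_le_mul_of_nonneg_right h.bd hD0)

lemma vau_FD.norm_le {om φ : ℝ → ℂ} {A : ℝ} (h : vau_FD om φ A) (u : ℝ) : ‖om u‖ ≤ A := by
  have := h.sep ({0} : Finset ℕ) (fun _ => 1) (fun _ => u) 1 zero_le_one (fun y => by
    simp only [sum_singleton, one_mul, vau_norm_cexp, mul_one]
    linarith [abs_nonneg y])
  simpa using this

lemma vau_FD.lip {om φ : ℝ → ℂ} {A : ℝ} (h : vau_FD om φ A) (u v : ℝ) :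
    ‖om u - om v‖ ≤ A * |u - v| := by
  have := h.sep ({0, 1} : Finset ℕ) (fun i => if i = 0 then 1 else -1)
    (fun i => if i = 0 then u else v) |u - v| (abs_nonneg _) (fun y => by
    rw [sum_pair (by norm_num)]
    simp only [if_true, one_ne_zero, if_false, one_mul]
    have e : cexp (-(I * y * u)) + -1 * cexp (-(I * y * v))
        = cexp (-(I * y * v)) * (cexp (I * ((-(y * (u - v)) : ℝ) : ℂ)) - 1) := by
      rw [mul_sub, ← Complex.exp_add]
      push_cast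
      ring_nf
    rw [e, norm_mul, vau_norm_cexp, one_mul]
    refine Real.norm_exp_I_mul_ofReal_sub_one_le.trans ?_
    rw [Real.norm_eq_abs, abs_neg, abs_mul]
    nlinarith [abs_nonneg y, abs_nonneg (u - v)])
  rw [sum_pair (by norm_num)] at this
  simpa [sub_eq_add_neg] using this

lemma vau_psum_succ (ξ : ℕ → ℂ) (n : ℕ) : psum ξ (n + 1) = psum ξ n + ξ (n + 1) := by
  unfold psum
  rw [sum_Icc_succ_top (by omega)]

/-- Abel summation with a telescoping variation bound -/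
lemma vau_abel (G ξ : ℕ → ℂ) (P K G0 : ℝ) (hP : ∀ y, ‖psum ξ y‖ ≤ P) (m0 m1 : ℕ) (h0 : 1 ≤ m0)
    (hK : 0 ≤ K) (hG0 : 0 ≤ G0) (hG : ∀ m, m0 ≤ m → m < m1 → ‖G m‖ ≤ G0)
    (hV : ∀ m, m0 ≤ m → m + 1 < m1 → ‖G (m + 1) - G m‖ ≤ K * (1 / (m : ℝ) - 1 / ((m : ℝ) + 1))) :
    ‖∑ m ∈ Ico m0 m1, G m * ξ m‖ ≤ P * (2 * G0 + K / m0) := by
  have hP0 : 0 ≤ P := le_trans (norm_nonneg _) (hP 0)
  have hm0 : (0 : ℝ) < m0 := by exact_mod_cast h0
  rcases le_or_gt m1 m0 with hle | hlt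
  · rw [Ico_eq_empty_of_le hle, sum_empty, norm_zero]; positivity
  have key : ∀ n, m0 + n < m1 → ‖∑ m ∈ Ico m0 (m0 + n + 1), G m * ξ m
      - G (m0 + n) * psum ξ (m0 + n)‖ ≤ P * (G0 + K * (1 / (m0 : ℝ) - 1 / ((m0 + n : ℕ) : ℝ))) := by
    intro n
    induction n with
    | zero =>
      intro hn
      obtain ⟨k, rfl⟩ : ∃ k, m0 = k + 1 := ⟨m0 - 1, by omega⟩
      simp only [add_zero, Nat.Ico_succ_singleton, sum_singleton, sub_self, mul_zero]
      rw [vau_psum_succ]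
      have : G (k + 1) * ξ (k + 1) - G (k + 1) * (psum ξ k + ξ (k + 1))
          = -(G (k + 1) * psum ξ k) := by ring
      rw [this, norm_neg, norm_mul, mul_comm]
      exact mul_le_mul (hP k) (hG _ le_rfl (by omega)) (norm_nonneg _) hP0
    | succ n ih =>
      intro hn
      have ih' := ih (by omega)
      rw [← add_assoc, sum_Ico_succ_top (by omega), vau_psum_succ]
      have : ∑ m ∈ Ico m0 (m0 + n + 1), G m * ξ m + G (m0 + n + 1) * ξ (m0 + n + 1)
          - G (m0 + n + 1) * (psum ξ (m0 + n) + ξ (m0 + n + 1))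
          = (∑ m ∈ Ico m0 (m0 + n + 1), G m * ξ m - G (m0 + n) * psum ξ (m0 + n))
            - (G (m0 + n + 1) - G (m0 + n)) * psum ξ (m0 + n) := by ring
      rw [this]
      refine (norm_sub_le _ _).trans ?_
      have h3 := hV (m0 + n) (by omega) (by omega)
      have h4 : ‖(G (m0 + n + 1) - G (m0 + n)) * psum ξ (m0 + n)‖
          ≤ K * (1 / ((m0 + n : ℕ) : ℝ) - 1 / (((m0 + n : ℕ) : ℝ) + 1)) * P := by
        rw [norm_mul]
        exact mul_le_mul h3 (hP _) (norm_nonneg _) (le_trans (norm_nonneg _) h3)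
      have e : ((m0 + n + 1 : ℕ) : ℝ) = ((m0 + n : ℕ) : ℝ) + 1 := by push_cast; ring
      rw [e]
      nlinarith
  obtain ⟨n, rfl⟩ : ∃ n, m1 = m0 + n + 1 := ⟨m1 - m0 - 1, by omega⟩
  have h1 := key n (by omega)
  have h2 : ‖G (m0 + n) * psum ξ (m0 + n)‖ ≤ G0 * P := by
    rw [norm_mul]
    exact mul_le_mul (hG _ (by omega) (by omega)) (hP _) (norm_nonneg _) hG0
  have h3 : ‖∑ m ∈ Ico m0 (m0 + n + 1), G m * ξ m‖ ≤ ‖∑ m ∈ Ico m0 (m0 + n + 1), G m * ξ m
      - G (m0 + n) * psum ξ (m0 + n)‖ + ‖G (m0 + n) * psum ξ (m0 + n)‖ := by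
    simpa using norm_add_le (∑ m ∈ Ico m0 (m0 + n + 1), G m * ξ m
      - G (m0 + n) * psum ξ (m0 + n)) (G (m0 + n) * psum ξ (m0 + n))
  have h4 : 0 ≤ P * (K * (1 / ((m0 + n : ℕ) : ℝ))) := by positivity
  have e : K / m0 = K * (1 / (m0 : ℝ)) := by ring
  rw [e]
  nlinarith

/-- the weight of an integer -/
noncomputable def vau_wt (om : ℝ → ℂ) (n : ℕ) : ℂ := om (Real.log n) / n

/-- bilinear form over the hyperbolic region -/
noncomputable def vau_BB (Y0 Y1 Z : ℕ) (om : ℝ → ℂ) (a b ξ : ℕ → ℂ) : ℂ :=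
  ∑ m ∈ Ico 1 Z, ∑ k ∈ Ico 1 Z,
    if Y0 ≤ m * k ∧ m * k < Y1 then a m * b k * vau_wt om (m * k) * ξ (m * k) else 0

lemma vau_log_succ (m : ℕ) (hm : 1 ≤ m) :
    |Real.log ((m + 1 : ℕ) : ℝ) - Real.log m| ≤ 1 / (m : ℝ) := by
  have hm0 : (0 : ℝ) < m := by exact_mod_cast hm
  rw [← Real.log_div (by positivity) hm0.ne', abs_of_nonneg]
  · refine (Real.log_le_sub_one_of_pos (by positivity)).trans (le_of_eq ?_)
    push_cast; field_simp; ring
  · apply Real.log_nonneg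
    rw [le_div_iff₀ hm0]; push_cast; linarith

/-- inner sum of type one -/
lemma vau_inner {om φ : ℝ → ℂ} {A : ℝ} (h : vau_FD om φ A) (Y0 Y1 Z d : ℕ) (hY0 : 1 ≤ Y0)
    (hZ : Y1 ≤ Z) (hd : 1 ≤ d) (g ξ : ℕ → ℂ) (P L : ℝ) (hL : 0 ≤ L)
    (hP : ∀ y, ‖psum ξ y‖ ≤ P)
    (hg : ∀ m, 1 ≤ m → m < Z → ‖g m‖ ≤ L)
    (hg' : ∀ m, 1 ≤ m → ‖g (m + 1) - g m‖ ≤ 1 / (m : ℝ)) :
    ‖∑ k ∈ Ico 1 Z, if Y0 ≤ d * k ∧ d * k < Y1 then g k * vau_wt om (d * k) * ξ k else 0‖
      ≤ P * (A * (4 * L + 1) / Y0) := by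
  have hA := h.nonneg
  have hP0 : 0 ≤ P := le_trans (norm_nonneg _) (hP 0)
  have hd0 : (0 : ℝ) < d := by exact_mod_cast hd
  have hY : (0 : ℝ) < Y0 := by exact_mod_cast hY0
  set m0 := Y0 ⌈/⌉ d with hm0
  set m1 := Y1 ⌈/⌉ d with hm1
  have e0 : ∀ k, m0 ≤ k ↔ Y0 ≤ d * k := fun k => ceilDiv_le_iff_le_mul (by omega)
  have e1 : ∀ k, k < m1 ↔ d * k < Y1 := fun k => by
    rw [← not_le, ← not_le]; exact not_congr (ceilDiv_le_iff_le_mul (by omega))
  have hm01 : 1 ≤ m0 := by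
    by_contra hc
    have := (e0 0).1 (by omega)
    omega
  have hlt : ∀ k, k < m1 → k < Z := fun k hk => by
    have := (e1 k).1 hk
    nlinarith
  have es : (∑ k ∈ Ico 1 Z, if Y0 ≤ d * k ∧ d * k < Y1 then g k * vau_wt om (d * k) * ξ k else 0)
      = ∑ k ∈ Ico m0 m1, (g k * vau_wt om (d * k)) * ξ k := by
    rw [← sum_filter]
    refine sum_congr ?_ fun _ _ => rfl
    ext k
    simp only [mem_filter, mem_Ico, ← e0, ← e1]
    constructor
    · exact fun hk => hk.2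
    · exact fun hk => ⟨⟨by omega, hlt k hk.2⟩, hk⟩
  rw [es]
  have hdm : (Y0 : ℝ) ≤ d * m0 := by exact_mod_cast (e0 m0).1 le_rfl
  have hm0r : (0 : ℝ) < m0 := by exact_mod_cast hm01
  refine (vau_abel _ ξ P (A * (2 * L + 1) / d) (A * L / Y0) hP m0 m1 hm01 (by positivity)
    (by positivity) ?_ ?_).trans ?_
  · intro m h1 h2
    have h3 : (Y0 : ℝ) ≤ ((d * m : ℕ) : ℝ) := by exact_mod_cast (e0 m).1 h1
    rw [norm_mul, vau_wt, norm_div, Complex.norm_natCast]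
    calc ‖g m‖ * (‖om (Real.log ((d * m : ℕ) : ℝ))‖ / ((d * m : ℕ) : ℝ)) ≤ L * (A / Y0) := by
          refine mul_le_mul (hg m (by omega) (hlt m h2)) ?_ (by positivity) hL
          exact div_le_div₀ hA (h.norm_le _) hY h3
      _ = _ := by ring
  · intro m h1 h2
    have hm : (0 : ℝ) < m := by exact_mod_cast (by omega : 0 < m)
    have hmc : (m : ℂ) ≠ 0 := by exact_mod_cast (by omega : m ≠ 0)
    have hdc : (d : ℂ) ≠ 0 := by exact_mod_cast (by omega : d ≠ 0)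
    have hmc1 : (m : ℂ) + 1 ≠ 0 := by exact_mod_cast (by omega : m + 1 ≠ 0)
    set o1 := om (Real.log ((d * (m + 1) : ℕ) : ℝ)) with ho1
    set o0 := om (Real.log ((d * m : ℕ) : ℝ)) with ho0
    have e : g (m + 1) * vau_wt om (d * (m + 1)) - g m * vau_wt om (d * m)
        = ((g (m + 1) - g m) * o1 * m + g m * (o1 - o0) * m - g m * o0) / (d * m * (m + 1)) := by
      unfold vau_wt
      rw [← ho1, ← ho0]
      push_cast
      field_simp
      ring
    have b1 : ‖o1‖ ≤ A := h.norm_le _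
    have b0 : ‖o0‖ ≤ A := h.norm_le _
    have b2 : ‖o1 - o0‖ ≤ A * (1 / (m : ℝ)) := by
      refine (h.lip _ _).trans (mul_le_mul_of_nonneg_left ?_ hA)
      have := vau_log_succ m (by omega)
      rw [Nat.cast_mul, Nat.cast_mul, Real.log_mul hd0.ne' (by positivity),
        Real.log_mul hd0.ne' hm.ne']
      simpa using this
    have b3 := hg' m (by omega)
    have b4 := hg m (by omega) (hlt m (by omega))
    have n1 : ‖(g (m + 1) - g m) * o1 * m‖ ≤ A := by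
      rw [norm_mul, norm_mul, Complex.norm_natCast]
      calc ‖g (m + 1) - g m‖ * ‖o1‖ * m ≤ 1 / (m : ℝ) * A * m := by gcongr
        _ = A := by field_simp
    have n2 : ‖g m * (o1 - o0) * m‖ ≤ L * A := by
      rw [norm_mul, norm_mul, Complex.norm_natCast]
      calc ‖g m‖ * ‖o1 - o0‖ * m ≤ L * (A * (1 / (m : ℝ))) * m := by gcongr
        _ = L * A := by field_simp
    have n3 : ‖g m * o0‖ ≤ L * A := by
      rw [norm_mul]; gcongr
    have n4 : ‖(g (m + 1) - g m) * o1 * m + g m * (o1 - o0) * m - g m * o0‖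
        ≤ A * (2 * L + 1) := by
      refine (norm_sub_le _ _).trans ?_
      have := norm_add_le ((g (m + 1) - g m) * o1 * m) (g m * (o1 - o0) * m)
      linarith
    have n5 : ‖(d : ℂ) * m * (m + 1)‖ = d * m * (m + 1) := by
      have : (d : ℂ) * m * (m + 1) = ((d * m * (m + 1) : ℕ) : ℂ) := by push_cast; ring
      rw [this, Complex.norm_natCast]; push_cast; ring
    rw [e, norm_div, n5]
    calc _ ≤ A * (2 * L + 1) / (d * m * (m + 1)) := by gcongr
      _ = _ := by field_simp; ring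
  · refine mul_le_mul_of_nonneg_left ?_ hP0
    have : A * (2 * L + 1) / d / m0 ≤ A * (2 * L + 1) / Y0 := by
      rw [div_div]; gcongr
    calc 2 * (A * L / Y0) + A * (2 * L + 1) / d / m0
        ≤ 2 * (A * L / Y0) + A * (2 * L + 1) / Y0 := by linarith
      _ = _ := by ring

/-- sums of type one -/
lemma vau_type1 {om φ : ℝ → ℂ} {A : ℝ} (h : vau_FD om φ A) (Y0 Y1 Z U : ℕ) (hY0 : 1 ≤ Y0)
    (hZ : Y1 ≤ Z) (a g ξ : ℕ → ℂ) (P L B : ℝ) (hL : 0 ≤ L) (hB : 0 ≤ B) (hξ : CM ξ)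
    (hP : ∀ y, ‖psum ξ y‖ ≤ P) (ha : ∀ d, d < Z → ‖a d‖ ≤ B) (ha0 : ∀ d, U < d → a d = 0)
    (hg : ∀ m, 1 ≤ m → m < Z → ‖g m‖ ≤ L)
    (hg' : ∀ m, 1 ≤ m → ‖g (m + 1) - g m‖ ≤ 1 / (m : ℝ)) :
    ‖vau_BB Y0 Y1 Z om a g ξ‖ ≤ U * (B * (P * (A * (4 * L + 1) / Y0))) := by
  have hA := h.nonneg
  have hP0 : 0 ≤ P := le_trans (norm_nonneg _) (hP 0)
  unfold vau_BB
  rw [← sum_filter_of_ne (p := fun d => d ≤ U)]
  · refine (norm_sum_le _ _).trans ?_
    refine (sum_le_card_nsmul _ _ (B * (P * (A * (4 * L + 1) / Y0))) ?_).trans ?_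
    · intro d hd
      simp only [mem_filter, mem_Ico] at hd
      have e : (∑ k ∈ Ico 1 Z, if Y0 ≤ d * k ∧ d * k < Y1 then
          a d * g k * vau_wt om (d * k) * ξ (d * k) else 0)
          = a d * ξ d * ∑ k ∈ Ico 1 Z,
            if Y0 ≤ d * k ∧ d * k < Y1 then g k * vau_wt om (d * k) * ξ k else 0 := by
        rw [mul_sum]
        refine sum_congr rfl fun k _ => ?_
        split_ifs
        · rw [hξ.2.1]; ring
        · simp
      rw [e, norm_mul, norm_mul]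
      have := vau_inner h Y0 Y1 Z d hY0 hZ hd.1.1 g ξ P L hL hP hg hg'
      calc _ ≤ B * 1 * (P * (A * (4 * L + 1) / Y0)) := by
            gcongr
            · exact ha d hd.1.2
            · exact hξ.2.2 d
        _ = _ := by ring
    · rw [nsmul_eq_mul]
      refine mul_le_mul_of_nonneg_right ?_ (by positivity)
      have : ((Ico 1 Z).filter fun d => d ≤ U) ⊆ Icc 1 U := by
        intro d hd
        simp only [mem_filter, mem_Ico] at hd
        exact mem_Icc.2 ⟨hd.1.1, hd.2⟩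
      have := card_le_card this
      simp only [Nat.card_Icc, add_tsub_cancel_right] at this
      exact_mod_cast this
  · intro d _ hne
    by_contra hc
    apply hne
    refine sum_eq_zero fun k _ => ?_
    simp [ha0 d (by omega)]

end Pool.Agent.Lib.PS
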