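import Pool.Agent.Lib.PS.VAU1

/-!
Vaughan mean value, part two: sums of type two.
-/

namespace Pool.Agent.Lib.PS

open Finset Real MeasureTheory Complex
open scoped Classical ComplexConjugate

/-- the large sieve inequality with constant `C` -/
def vau_LS (C : ℝ) : Prop :=
  ∀ (R N0 N : ℕ) (a : ℕ → ℂ), 1 ≤ R →
    ∑ q ∈ Icc 1 R, ∑ χ ∈ prim q, ‖∑ n ∈ Ioc N0 (N0 + N), a n * χ n‖ ^ 2
      ≤ C * (N + (R : ℝ) ^ 2) * (1 + Real.log R) * ∑ n ∈ Ioc N0 (N0 + N), ‖a n‖ ^ 2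

lemma vau_dyad_eq (M : ℕ) (hM : 1 ≤ M) : Ico M (2 * M) = Ioc (M - 1) (M - 1 + M) := by
  ext k; simp only [mem_Ico, mem_Ioc]; omega

lemma vau_ls_box {C : ℝ} (hC : 0 < C) (h : vau_LS C) (R M : ℕ) (hR : 1 ≤ R) (hM : 1 ≤ M)
    (F : Finset XX) (hF : F ⊆ (Icc 1 R).sigma prim) (α : ℕ → ℂ) (B : ℝ)
    (hα : ∀ m ∈ Ico M (2 * M), ‖α m‖ ≤ B / M) :
    ∑ x ∈ F, ‖∑ m ∈ Ico M (2 * M), α m * x.2 m‖ ^ 2
      ≤ C * (1 + Real.log R) * B ^ 2 * (1 + (R : ℝ) ^ 2 / M) := by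
  have hM0 : (0 : ℝ) < M := by exact_mod_cast hM
  have hl : 0 ≤ Real.log R := Real.log_nonneg (by exact_mod_cast hR)
  have h1 := h R (M - 1) M α hR
  rw [← vau_dyad_eq M hM] at h1
  have h2 : ∑ n ∈ Ico M (2 * M), ‖α n‖ ^ 2 ≤ B ^ 2 / M := by
    refine (sum_le_card_nsmul _ _ ((B / M) ^ 2) fun n hn => ?_).trans (le_of_eq ?_)
    · exact pow_le_pow_left₀ (norm_nonneg _) (hα n hn) 2
    · rw [Nat.card_Ico, nsmul_eq_mul, show 2 * M - M = M by omega]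
      field_simp
  calc _ ≤ ∑ x ∈ (Icc 1 R).sigma prim, ‖∑ m ∈ Ico M (2 * M), α m * x.2 m‖ ^ 2 :=
        sum_le_sum_of_subset_of_nonneg hF fun _ _ _ => by positivity
    _ = ∑ q ∈ Icc 1 R, ∑ χ ∈ prim q, ‖∑ n ∈ Ico M (2 * M), α n * χ n‖ ^ 2 := by
        rw [sum_sigma]
    _ ≤ _ := h1
    _ ≤ C * (M + (R : ℝ) ^ 2) * (1 + Real.log R) * (B ^ 2 / M) := by gcongr
    _ = _ := by field_simp

lemma vau_unit (z : ℂ) : ∃ η : ℂ, ‖η‖ ≤ 1 ∧ η * z = (‖z‖ : ℂ) := by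
  by_cases hz : z = 0
  · exact ⟨0, by simp, by simp [hz]⟩
  · have hn : (‖z‖ : ℂ) ≠ 0 := by exact_mod_cast norm_ne_zero_iff.2 hz
    refine ⟨(‖z‖ : ℂ) / z, ?_, by field_simp⟩
    rw [norm_div, Complex.norm_real, norm_norm, div_self (norm_ne_zero_iff.2 hz)]

/-- a full box -/
lemma vau_full {C : ℝ} (hC : 0 < C) (hLS : vau_LS C) {om φ : ℝ → ℂ} {A : ℝ} (h : vau_FD om φ A)
    (R M K : ℕ) (hR : 1 ≤ R) (hM : 1 ≤ M) (hK : 1 ≤ K)
    (F : Finset XX) (hF : F ⊆ (Icc 1 R).sigma prim) (hCM : ∀ x ∈ F, CM x.2)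
    (θ : ℕ → ℂ) (hθ : CM θ) (a b : ℕ → ℂ) (B E : ℝ) (hB : 0 ≤ B) (hE : 0 ≤ E)
    (ha : ∀ m ∈ Ico M (2 * M), ‖a m‖ ≤ B) (hb : ∀ k ∈ Ico K (2 * K), ‖b k‖ ≤ B)
    (hE2 : (1 + (R : ℝ) ^ 2 / M) * (1 + (R : ℝ) ^ 2 / K) ≤ E ^ 2) :
    ∑ x ∈ F, ‖∑ m ∈ Ico M (2 * M), ∑ k ∈ Ico K (2 * K),
      a m * b k * vau_wt om (m * k) * (θ * x.2) (m * k)‖
      ≤ A * (C * (1 + Real.log R) * B ^ 2 * E) := by
  have hM0 : (0 : ℝ) < M := by exact_mod_cast hM
  have hK0 : (0 : ℝ) < K := by exact_mod_cast hK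
  have hl : 0 ≤ Real.log R := Real.log_nonneg (by exact_mod_cast hR)
  choose η hη1 hη2 using fun x : XX => vau_unit (∑ m ∈ Ico M (2 * M), ∑ k ∈ Ico K (2 * K),
      a m * b k * vau_wt om (m * k) * (θ * x.2) (m * k))
  have key := h.sep (F ×ˢ (Ico M (2 * M) ×ˢ Ico K (2 * K)))
    (fun t => η t.1 * (a t.2.1 * θ t.2.1 / t.2.1 * t.1.2 t.2.1)
      * (b t.2.2 * θ t.2.2 / t.2.2 * t.1.2 t.2.2))
    (fun t => Real.log ((t.2.1 * t.2.2 : ℕ) : ℝ)) (C * (1 + Real.log R) * B ^ 2 * E)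
    (by positivity) ?_
  · refine le_trans (le_of_eq ?_) key
    have e : ∑ t ∈ F ×ˢ (Ico M (2 * M) ×ˢ Ico K (2 * K)),
        η t.1 * (a t.2.1 * θ t.2.1 / t.2.1 * t.1.2 t.2.1)
          * (b t.2.2 * θ t.2.2 / t.2.2 * t.1.2 t.2.2) * om (Real.log ((t.2.1 * t.2.2 : ℕ) : ℝ))
        = ((∑ x ∈ F, ‖∑ m ∈ Ico M (2 * M), ∑ k ∈ Ico K (2 * K),
          a m * b k * vau_wt om (m * k) * (θ * x.2) (m * k)‖ : ℝ) : ℂ) := by
      rw [sum_product, Complex.ofReal_sum]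
      refine sum_congr rfl fun x hx => ?_
      rw [← hη2 x, sum_product, mul_sum]
      refine sum_congr rfl fun m _ => ?_
      rw [mul_sum]
      refine sum_congr rfl fun k _ => ?_
      simp only [vau_wt, Pi.mul_apply, hθ.2.1, (hCM x hx).2.1]
      push_cast
      ring
    rw [e, Complex.norm_real, Real.norm_of_nonneg (sum_nonneg fun _ _ => norm_nonneg _)]
  · intro y
    set α : ℕ → ℂ := fun m => a m * θ m / m * cexp (-(I * y * (Real.log m : ℝ))) with hα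
    set β : ℕ → ℂ := fun k => b k * θ k / k * cexp (-(I * y * (Real.log k : ℝ))) with hβ
    have e : ∑ t ∈ F ×ˢ (Ico M (2 * M) ×ˢ Ico K (2 * K)),
        η t.1 * (a t.2.1 * θ t.2.1 / t.2.1 * t.1.2 t.2.1)
          * (b t.2.2 * θ t.2.2 / t.2.2 * t.1.2 t.2.2)
          * cexp (-(I * y * (Real.log ((t.2.1 * t.2.2 : ℕ) : ℝ) : ℝ)))
        = ∑ x ∈ F, η x * ((∑ m ∈ Ico M (2 * M), α m * x.2 m) *
            ∑ k ∈ Ico K (2 * K), β k * x.2 k) := by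
      rw [sum_product]
      refine sum_congr rfl fun x _ => ?_
      rw [sum_product, sum_mul_sum, mul_sum]
      refine sum_congr rfl fun m hm => ?_
      rw [mul_sum]
      refine sum_congr rfl fun k hk => ?_
      have hm0 : (m : ℝ) ≠ 0 := by
        have := (mem_Ico.1 hm).1
        exact_mod_cast (by omega : m ≠ 0)
      have hk0 : (k : ℝ) ≠ 0 := by
        have := (mem_Ico.1 hk).1
        exact_mod_cast (by omega : k ≠ 0)
      simp only [hα, hβ]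
      rw [Nat.cast_mul, Real.log_mul hm0 hk0, Complex.ofReal_add, mul_add, neg_add,
        Complex.exp_add]
      ring
    rw [e]
    have bα : ∀ m ∈ Ico M (2 * M), ‖α m‖ ≤ B / M := by
      intro m hm
      have h1 : (M : ℝ) ≤ m := by exact_mod_cast (mem_Ico.1 hm).1
      simp only [hα]
      rw [norm_mul, vau_norm_cexp, mul_one, norm_div, norm_mul, Complex.norm_natCast]
      refine div_le_div₀ hB ?_ hM0 h1
      calc ‖a m‖ * ‖θ m‖ ≤ B * 1 := mul_le_mul (ha m hm) (hθ.2.2 m) (norm_nonneg _) hB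
        _ = B := mul_one B
    have bβ : ∀ k ∈ Ico K (2 * K), ‖β k‖ ≤ B / K := by
      intro m hm
      have h1 : (K : ℝ) ≤ m := by exact_mod_cast (mem_Ico.1 hm).1
      simp only [hβ]
      rw [norm_mul, vau_norm_cexp, mul_one, norm_div, norm_mul, Complex.norm_natCast]
      refine div_le_div₀ hB ?_ hK0 h1
      calc ‖b m‖ * ‖θ m‖ ≤ B * 1 := mul_le_mul (hb m hm) (hθ.2.2 m) (norm_nonneg _) hB
        _ = B := mul_one B
    have s1 := vau_ls_box hC hLS R M hR hM F hF α B bα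
    have s2 := vau_ls_box hC hLS R K hR hK F hF β B bβ
    have cs := sum_mul_sq_le_sq_mul_sq F (fun x => ‖∑ m ∈ Ico M (2 * M), α m * x.2 m‖)
      (fun x => ‖∑ k ∈ Ico K (2 * K), β k * x.2 k‖)
    have hD : ∑ x ∈ F, ‖∑ m ∈ Ico M (2 * M), α m * x.2 m‖ * ‖∑ k ∈ Ico K (2 * K), β k * x.2 k‖
        ≤ C * (1 + Real.log R) * B ^ 2 * E := by
      refine le_of_pow_le_pow_left₀ two_ne_zero (by positivity) (cs.trans ?_)
      calc _ ≤ (C * (1 + Real.log R) * B ^ 2 * (1 + (R : ℝ) ^ 2 / M))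
            * (C * (1 + Real.log R) * B ^ 2 * (1 + (R : ℝ) ^ 2 / K)) :=
            mul_le_mul s1 s2 (sum_nonneg fun _ _ => by positivity) (by positivity)
        _ = (C * (1 + Real.log R) * B ^ 2) ^ 2
            * ((1 + (R : ℝ) ^ 2 / M) * (1 + (R : ℝ) ^ 2 / K)) := by ring
        _ ≤ (C * (1 + Real.log R) * B ^ 2) ^ 2 * E ^ 2 := by gcongr
        _ = _ := by ring
    refine (norm_sum_le _ _).trans ?_
    calc _ ≤ ∑ x ∈ F, ‖∑ m ∈ Ico M (2 * M), α m * x.2 m‖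
          * ‖∑ k ∈ Ico K (2 * K), β k * x.2 k‖ := by
          refine sum_le_sum fun x _ => ?_
          rw [norm_mul, norm_mul]
          exact mul_le_of_le_one_left (by positivity) (hη1 x)
      _ ≤ _ := hD
      _ ≤ _ := le_mul_of_one_le_left (by positivity) (by linarith [abs_nonneg y])

lemma vau_CM_mul {θ χ : ℕ → ℂ} (hθ : CM θ) (hχ : CM χ) : CM (θ * χ) := by
  refine ⟨by simp [hθ.1, hχ.1], fun m n => ?_, fun n => ?_⟩
  · simp only [Pi.mul_apply, hθ.2.1, hχ.2.1]; ring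
  · rw [Pi.mul_apply, norm_mul]
    exact mul_le_one₀ (hθ.2.2 n) (norm_nonneg _) (hχ.2.2 n)

/-- one box cut by the hyperbolic region -/
lemma vau_box {C : ℝ} (hC : 0 < C) (hLS : vau_LS C) {om φ : ℝ → ℂ} {A : ℝ} (h : vau_FD om φ A)
    (Y0 Y1 U R M K : ℕ) (hY0 : 1 ≤ Y0) (hU : 1 ≤ U) (hR : 1 ≤ R) (hM : 1 ≤ M) (hK : 1 ≤ K)
    (τ0 : ℝ) (hτ : ∀ u : ℝ, (u ≤ Real.log Y0 ∨ Real.log Y1 ≤ u) → ‖om u‖ ≤ τ0) (hY1 : 1 ≤ Y1)
    (F : Finset XX) (hF : F ⊆ (Icc 1 R).sigma prim) (hCM : ∀ x ∈ F, CM x.2)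
    (hcard : (F.card : ℝ) ≤ (R : ℝ) ^ 2)
    (θ : ℕ → ℂ) (hθ : CM θ) (a b : ℕ → ℂ) (B : ℝ) (hB : 0 ≤ B)
    (ha : ∀ m ∈ Ico M (2 * M), ‖a m‖ ≤ B) (hb : ∀ k ∈ Ico K (2 * K), ‖b k‖ ≤ B)
    (ha0 : ∀ m, m < U → a m = 0) (hb0 : ∀ k, k < U → b k = 0) :
    ∑ x ∈ F, ‖∑ m ∈ Ico M (2 * M), ∑ k ∈ Ico K (2 * K), if Y0 ≤ m * k ∧ m * k < Y1 then
      a m * b k * vau_wt om (m * k) * (θ * x.2) (m * k) else 0‖
      ≤ B ^ 2 * (2 * C * (1 + Real.log R) * (A * (1 + R / √(U : ℝ) + (R : ℝ) ^ 2 / √(Y0 : ℝ)))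
        + τ0 * (R : ℝ) ^ 2) := by
  have hA := h.nonneg
  have hτ0 : 0 ≤ τ0 := le_trans (norm_nonneg _) (hτ _ (Or.inl le_rfl))
  have hM0 : (0 : ℝ) < M := by exact_mod_cast hM
  have hK0 : (0 : ℝ) < K := by exact_mod_cast hK
  have hU0 : (0 : ℝ) < U := by exact_mod_cast hU
  have hY : (0 : ℝ) < Y0 := by exact_mod_cast hY0
  have hl : 0 ≤ Real.log R := Real.log_nonneg (by exact_mod_cast hR)
  by_cases hc : U ≤ 2 * M ∧ U ≤ 2 * K ∧ Y0 ≤ 4 * (M * K)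
  · obtain ⟨c1, c2, c3⟩ := hc
    have c1' : (U : ℝ) ≤ 2 * M := by exact_mod_cast c1
    have c2' : (U : ℝ) ≤ 2 * K := by exact_mod_cast c2
    have c3' : (Y0 : ℝ) ≤ 4 * (M * K) := by exact_mod_cast c3
    set s : ℝ := R / √(U : ℝ) with hs
    set t : ℝ := (R : ℝ) ^ 2 / √(Y0 : ℝ) with ht
    have hs0 : 0 ≤ s := by positivity
    have ht0 : 0 ≤ t := by positivity
    have hs2 : s ^ 2 = (R : ℝ) ^ 2 / U := by rw [hs, div_pow, Real.sq_sqrt hU0.le]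
    have ht2 : t ^ 2 = (R : ℝ) ^ 4 / Y0 := by
      rw [ht, div_pow, Real.sq_sqrt hY.le]; ring
    have d1 : (R : ℝ) ^ 2 / M ≤ 2 * s ^ 2 := by
      rw [hs2, div_le_iff₀ hM0]
      calc (R : ℝ) ^ 2 = (R : ℝ) ^ 2 / U * U := by field_simp
        _ ≤ (R : ℝ) ^ 2 / U * (2 * M) := by gcongr
        _ = _ := by ring
    have d2 : (R : ℝ) ^ 2 / K ≤ 2 * s ^ 2 := by
      rw [hs2, div_le_iff₀ hK0]
      calc (R : ℝ) ^ 2 = (R : ℝ) ^ 2 / U * U := by field_simp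
        _ ≤ (R : ℝ) ^ 2 / U * (2 * K) := by gcongr
        _ = _ := by ring
    have d3 : (R : ℝ) ^ 2 / M * ((R : ℝ) ^ 2 / K) ≤ 4 * t ^ 2 := by
      rw [ht2, div_mul_div_comm, div_le_iff₀ (by positivity)]
      calc (R : ℝ) ^ 2 * (R : ℝ) ^ 2 = (R : ℝ) ^ 4 / Y0 * Y0 := by field_simp
        _ ≤ (R : ℝ) ^ 4 / Y0 * (4 * (M * K)) := by gcongr
        _ = _ := by ring
    have hE2 : (1 + (R : ℝ) ^ 2 / M) * (1 + (R : ℝ) ^ 2 / K) ≤ (2 * (1 + s + t)) ^ 2 := by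
      nlinarith [mul_nonneg hs0 ht0]
    have full := vau_full hC hLS h R M K hR hM hK F hF hCM θ hθ a b B (2 * (1 + s + t)) hB
      (by positivity) ha hb hE2
    have rest : ∀ x ∈ F, ‖∑ m ∈ Ico M (2 * M), ∑ k ∈ Ico K (2 * K),
        if Y0 ≤ m * k ∧ m * k < Y1 then
        a m * b k * vau_wt om (m * k) * (θ * x.2) (m * k) else 0‖
        ≤ ‖∑ m ∈ Ico M (2 * M), ∑ k ∈ Ico K (2 * K),
          a m * b k * vau_wt om (m * k) * (θ * x.2) (m * k)‖ + B ^ 2 * τ0 := by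
      intro x hx
      refine (norm_le_insert' _ _).trans (add_le_add le_rfl ?_)
      rw [← sum_sub_distrib]
      refine (norm_sum_le _ _).trans ?_
      refine (sum_le_card_nsmul _ _ (B ^ 2 * τ0 / M) fun m hm => ?_).trans (le_of_eq ?_)
      · rw [← sum_sub_distrib]
        refine (norm_sum_le _ _).trans ?_
        refine (sum_le_card_nsmul _ _ (B ^ 2 * τ0 / (M * K)) fun k hk => ?_).trans (le_of_eq ?_)
        · split_ifs with hin
          · rw [sub_self, norm_zero]; positivity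
          · have h1 : (M : ℝ) ≤ m := by exact_mod_cast (mem_Ico.1 hm).1
            have h2 : (K : ℝ) ≤ k := by exact_mod_cast (mem_Ico.1 hk).1
            have hmk : (0 : ℝ) < ((m * k : ℕ) : ℝ) := by
              push_cast; exact mul_pos (by linarith) (by linarith)
            have h3 : ‖om (Real.log ((m * k : ℕ) : ℝ))‖ ≤ τ0 := by
              apply hτ
              by_cases h4 : Y0 ≤ m * k
              · right
                have : Y1 ≤ m * k := by omega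
                exact Real.log_le_log (by exact_mod_cast hY1) (by exact_mod_cast this)
              · left
                have : m * k ≤ Y0 := by omega
                exact Real.log_le_log hmk (by exact_mod_cast this)
            have h5 : ‖vau_wt om (m * k)‖ ≤ τ0 / (M * K) := by
              rw [vau_wt, norm_div, Complex.norm_natCast]
              refine div_le_div₀ hτ0 h3 (by positivity) ?_
              push_cast; gcongr
            have h6 := (vau_CM_mul hθ (hCM x hx)).2.2 (m * k)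
            rw [zero_sub, norm_neg, norm_mul, norm_mul, norm_mul]
            calc _ ≤ B * B * (τ0 / (M * K)) * 1 := by
                  gcongr
                  · exact ha m hm
                  · exact hb k hk
              _ = _ := by ring
        · rw [Nat.card_Ico, nsmul_eq_mul, show 2 * K - K = K by omega]
          field_simp
      · rw [Nat.card_Ico, nsmul_eq_mul, show 2 * M - M = M by omega]
        field_simp
    refine (sum_le_sum rest).trans ?_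
    rw [sum_add_distrib, sum_const, nsmul_eq_mul]
    have : (F.card : ℝ) * (B ^ 2 * τ0) ≤ (R : ℝ) ^ 2 * (B ^ 2 * τ0) := by gcongr
    nlinarith
  · have hz : ∀ x ∈ F, ‖∑ m ∈ Ico M (2 * M), ∑ k ∈ Ico K (2 * K),
        if Y0 ≤ m * k ∧ m * k < Y1 then
        a m * b k * vau_wt om (m * k) * (θ * x.2) (m * k) else 0‖ = 0 := by
      intro x _
      rw [norm_eq_zero]
      refine sum_eq_zero fun m hm => sum_eq_zero fun k hk => ?_
      have h1 := mem_Ico.1 hm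
      have h2 := mem_Ico.1 hk
      split_ifs with hin
      · by_cases c1 : U ≤ 2 * M
        · by_cases c2 : U ≤ 2 * K
          · exfalso
            apply hc
            refine ⟨c1, c2, hin.1.trans ?_⟩
            calc m * k ≤ (2 * M) * (2 * K) := Nat.mul_le_mul h1.2.le h2.2.le
              _ = _ := by ring
          · simp [hb0 k (by omega)]
        · simp [ha0 m (by omega)]
      · rfl
    rw [sum_congr rfl hz, sum_const_zero]
    positivity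

lemma vau_dyadic {β : Type} [AddCommMonoid β] (f : ℕ → β) (J : ℕ) :
    ∑ m ∈ Ico 1 (2 ^ J), f m = ∑ i ∈ range J, ∑ m ∈ Ico (2 ^ i) (2 * 2 ^ i), f m := by
  induction J with
  | zero => simp
  | succ J ih =>
    rw [sum_range_succ, ← ih, sum_Ico_consecutive _ Nat.one_le_two_pow (by omega), pow_succ']

/-- sums of type two -/
lemma vau_type2 {C : ℝ} (hC : 0 < C) (hLS : vau_LS C) {om φ : ℝ → ℂ} {A : ℝ} (h : vau_FD om φ A)
    (Y0 Y1 U R J : ℕ) (hY0 : 1 ≤ Y0) (hU : 1 ≤ U) (hR : 1 ≤ R)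
    (τ0 : ℝ) (hτ : ∀ u : ℝ, (u ≤ Real.log Y0 ∨ Real.log Y1 ≤ u) → ‖om u‖ ≤ τ0) (hY1 : 1 ≤ Y1)
    (F : Finset XX) (hF : F ⊆ (Icc 1 R).sigma prim) (hCM : ∀ x ∈ F, CM x.2)
    (hcard : (F.card : ℝ) ≤ (R : ℝ) ^ 2)
    (θ : ℕ → ℂ) (hθ : CM θ) (a b : ℕ → ℂ) (B : ℝ) (hB : 0 ≤ B)
    (ha : ∀ m, m < 2 ^ J → ‖a m‖ ≤ B) (hb : ∀ k, k < 2 ^ J → ‖b k‖ ≤ B)
    (ha0 : ∀ m, m < U → a m = 0) (hb0 : ∀ k, k < U → b k = 0) :
    ∑ x ∈ F, ‖vau_BB Y0 Y1 (2 ^ J) om a b (θ * x.2)‖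
      ≤ (J : ℝ) ^ 2 * (B ^ 2 * (2 * C * (1 + Real.log R)
        * (A * (1 + R / √(U : ℝ) + (R : ℝ) ^ 2 / √(Y0 : ℝ))) + τ0 * (R : ℝ) ^ 2)) := by
  have hlt : ∀ i ∈ range J, ∀ m ∈ Ico (2 ^ i) (2 * 2 ^ i), m < 2 ^ J := by
    intro i hi m hm
    have h1 := (mem_Ico.1 hm).2
    have h2 : 2 ^ (i + 1) ≤ 2 ^ J := Nat.pow_le_pow_right (by norm_num) (mem_range.1 hi)
    rw [pow_succ'] at h2
    omega
  have e : ∀ x : XX, vau_BB Y0 Y1 (2 ^ J) om a b (θ * x.2) = ∑ i ∈ range J, ∑ j ∈ range J,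
      ∑ m ∈ Ico (2 ^ i) (2 * 2 ^ i), ∑ k ∈ Ico (2 ^ j) (2 * 2 ^ j),
      if Y0 ≤ m * k ∧ m * k < Y1 then
        a m * b k * vau_wt om (m * k) * (θ * x.2) (m * k) else 0 := by
    intro x
    unfold vau_BB
    rw [vau_dyadic]
    refine sum_congr rfl fun i _ => ?_
    symm
    rw [sum_comm]
    refine sum_congr rfl fun m _ => ?_
    rw [vau_dyadic]
  calc _ ≤ ∑ x ∈ F, ∑ i ∈ range J, ∑ j ∈ range J,
        ‖∑ m ∈ Ico (2 ^ i) (2 * 2 ^ i), ∑ k ∈ Ico (2 ^ j) (2 * 2 ^ j),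
        if Y0 ≤ m * k ∧ m * k < Y1 then
          a m * b k * vau_wt om (m * k) * (θ * x.2) (m * k) else 0‖ := by
        refine sum_le_sum fun x _ => ?_
        rw [e]
        refine (norm_sum_le _ _).trans (sum_le_sum fun i _ => norm_sum_le _ _)
    _ = ∑ i ∈ range J, ∑ j ∈ range J, ∑ x ∈ F,
        ‖∑ m ∈ Ico (2 ^ i) (2 * 2 ^ i), ∑ k ∈ Ico (2 ^ j) (2 * 2 ^ j),
        if Y0 ≤ m * k ∧ m * k < Y1 then
          a m * b k * vau_wt om (m * k) * (θ * x.2) (m * k) else 0‖ := by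
        rw [sum_comm]
        exact sum_congr rfl fun i _ => sum_comm
    _ ≤ ∑ i ∈ range J, ∑ j ∈ range J, (B ^ 2 * (2 * C * (1 + Real.log R)
        * (A * (1 + R / √(U : ℝ) + (R : ℝ) ^ 2 / √(Y0 : ℝ))) + τ0 * (R : ℝ) ^ 2)) := by
        refine sum_le_sum fun i hi => sum_le_sum fun j hj => ?_
        exact vau_box hC hLS h Y0 Y1 U R (2 ^ i) (2 ^ j) hY0 hU hR Nat.one_le_two_pow
          Nat.one_le_two_pow τ0 hτ hY1 F hF hCM hcard θ hθ a b B hB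
          (fun m hm => ha m (hlt i hi m hm)) (fun k hk => hb k (hlt j hj k hk)) ha0 hb0
    _ = _ := by
        simp only [sum_const, card_range, nsmul_eq_mul]; ring

end Pool.Agent.Lib.PS
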